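import Pool.Agent.MP_99a865_pr.ST.Defs
import Pool.Agent.MP_99a865_pr.CV.K1

/-!
# [STB-A1] Scale function: elementary facts

PROOFS. `Lam ρ y = ∫ min 1 ((x/y)^2) ∂ρ`; the integrand is measurable with values in `[0,1]`, hence integrable.
* `Lam_anti`: for `0 < y ≤ y'`, `(x/y')^2 ≤ (x/y)^2` (`integral_mono`).
* `Lam_sq`: `min 1 ((x/y)^2) ≤ r^2 * min 1 ((x/(r y))^2)` for `r ≥ 1`, because `r^2 (x/(ry))^2 = (x/y)^2` and `1 ≤ r^2`.
* `Lam_pos`: the integrand is positive at every `x ≠ 0` and `ρ (Iio 0) ≠ 0` (`Cen.neg`).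
* `Lam_dual`: `integral_map`, the integrand is even.
* `tail_le_Lam`: `1_{y ≤ |x|} ≤ min 1 ((x/y)^2)`.
* `trunc_le_Lam`: `x^2 1_{|x| ≤ y} ≤ y^2 min 1 ((x/y)^2)`.
* `Reg.rev`: `Cen.dual`, `Lam_dual`.
* `Reg.all`: (R) for all `y ≥ 1`, constant `C * x₀^2`. If `y ≥ x₀` this is `reg` (`x₀^2 ≥ 1`). If `y < x₀ ≤ r y`:
  `Lam (r y) = Lam ((r y / x₀) x₀) ≤ C (r y/x₀)^{-p} Lam x₀ ≤ C (x₀/y)^p r^{-p} Lam y ≤ C x₀^2 r^{-p} Lam y`
  (`Lam_anti`, `y ≥ 1`, `x₀^p ≤ x₀^2`). If `r y < x₀`: `r ≤ x₀`, so `r^{-p} ≥ x₀^{-2}` and `Lam (r y) ≤ Lam y`.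
* `Reg.tendsto`: from `Reg.all` with `y = 1`: `Lam r ≤ K r^{-p} → 0`.
* `Reg.mul_le`: `y * Lam y ≤ K` for `y ≥ 1`: `Lam y ≤ K y^{-p} Lam 1 ≤ K y^{-1}`.
* `Reg.scale`: let `c = min (1/4) (Lam 1)`. If `n Lam 1 ≤ 1` take `y = 1`. Otherwise let `j` be the least
  `j : ℕ` with `n Lam (2^j) ≤ 1` (exists by `Reg.tendsto`), `j ≥ 1`, and `n Lam (2^j) ≥ n Lam (2^(j-1)) / 4 > 1/4`
  by `Lam_sq`.
* `Reg.bdd`: for `c > 0` there is `Y ≥ 1` such that `c ≤ Lam y`, `y ≥ 1`, implies `y ≤ Y` (`Reg.tendsto`).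
* `Reg.cmp`: if `1 ≤ y' ≤ y` and `y'^p ≤ t * y^p` (think of `t ≤ 1`), then `Lam y ≤ K t Lam y'`
  (`r = y/y'`, `r^{-p} = y'^p/y^p ≤ t`).
-/

open MeasureTheory ProbabilityTheory Filter Topology
open scoped ENNReal NNReal

namespace Pool.Agent.BPT

variable {D : Set ℝ} {ρ : Measure ℝ} {p C x₀ : ℝ}

private theorem A1_meas (y : ℝ) : Measurable fun x : ℝ => min (1 : ℝ) ((x / y) ^ 2) := by
  fun_prop

private theorem A1_nn (y x : ℝ) : 0 ≤ min (1 : ℝ) ((x / y) ^ 2) :=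
  le_min zero_le_one (sq_nonneg _)

private theorem A1_int (ρ : Measure ℝ) [IsProbabilityMeasure ρ] (y : ℝ) :
    Integrable (fun x : ℝ => min (1 : ℝ) ((x / y) ^ 2)) ρ := by
  refine Integrable.of_bound (A1_meas y).aestronglyMeasurable 1 (Eventually.of_forall fun x => ?_)
  rw [Real.norm_of_nonneg (A1_nn y x)]
  exact min_le_left _ _

theorem Lam_nonneg (ρ : Measure ℝ) (y : ℝ) : 0 ≤ Lam ρ y := by
  unfold Lam
  exact integral_nonneg fun x => A1_nn y x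

theorem Lam_le_one [IsProbabilityMeasure ρ] (y : ℝ) : Lam ρ y ≤ 1 := by
  unfold Lam
  calc ∫ x, min (1 : ℝ) ((x / y) ^ 2) ∂ρ ≤ ∫ _, (1 : ℝ) ∂ρ :=
        integral_mono (A1_int ρ y) (integrable_const _) fun x => min_le_left _ _
    _ = 1 := by simp

theorem Lam_anti [IsProbabilityMeasure ρ] {y y' : ℝ} (hy : 0 < y) (h : y ≤ y') :
    Lam ρ y' ≤ Lam ρ y := by
  unfold Lam
  refine integral_mono (A1_int ρ y') (A1_int ρ y) fun x => ?_
  refine min_le_min le_rfl ?_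
  rw [div_pow, div_pow]
  have h1 : y ^ 2 ≤ y' ^ 2 := pow_le_pow_left₀ hy.le h 2
  exact div_le_div_of_nonneg_left (sq_nonneg x) (by positivity) h1

theorem Lam_sq [IsProbabilityMeasure ρ] {y r : ℝ} (hy : 0 < y) (hr : 1 ≤ r) :
    Lam ρ y ≤ r ^ 2 * Lam ρ (r * y) := by
  unfold Lam
  rw [← integral_const_mul]
  refine integral_mono (A1_int ρ y) ((A1_int ρ (r * y)).const_mul _) fun x => ?_
  have hr0 : 0 < r := by linarith
  show min (1 : ℝ) ((x / y) ^ 2) ≤ r ^ 2 * min 1 ((x / (r * y)) ^ 2)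
  rw [mul_min_of_nonneg _ _ (sq_nonneg r)]
  refine min_le_min ?_ ?_
  · nlinarith
  · apply le_of_eq
    field_simp

theorem Lam_pos (hρ : Cen ρ) {y : ℝ} (hy : 0 < y) : 0 < Lam ρ y := by
  have hp := hρ.prob
  unfold Lam
  rw [integral_pos_iff_support_of_nonneg (fun x => A1_nn y x) (A1_int ρ y)]
  have h1 : Set.Iio (0 : ℝ) ⊆ Function.support fun x : ℝ => min (1 : ℝ) ((x / y) ^ 2) := by
    intro x hx
    have hx' : x < 0 := hx
    rw [Function.mem_support]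
    have h2 : 0 < (x / y) ^ 2 := by
      have h3 : x / y ≠ 0 := div_ne_zero hx'.ne hy.ne'
      positivity
    exact (lt_min one_pos h2).ne'
  exact lt_of_lt_of_le (pos_iff_ne_zero.2 hρ.neg) (measure_mono h1)

theorem Lam_dual [IsProbabilityMeasure ρ] (y : ℝ) : Lam (dual ρ) y = Lam ρ y := by
  unfold Lam dual
  rw [integral_map measurable_neg.aemeasurable (A1_meas y).aestronglyMeasurable]
  congr 1
  funext x
  rw [neg_div, neg_sq]

private theorem A1_msb (y : ℝ) : MeasurableSet {x : ℝ | y ≤ |x|} :=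
  measurableSet_le measurable_const (by fun_prop)

private theorem A1_msb' (y : ℝ) : MeasurableSet {x : ℝ | |x| ≤ y} :=
  measurableSet_le (by fun_prop) measurable_const

theorem tail_le_Lam [IsProbabilityMeasure ρ] {y : ℝ} (hy : 0 < y) :
    ρ.real {x | y ≤ |x|} ≤ Lam ρ y := by
  unfold Lam
  rw [← integral_indicator_one (A1_msb y)]
  refine integral_mono ((integrable_const (1 : ℝ)).indicator (A1_msb y)) (A1_int ρ y) fun x => ?_
  by_cases hx : x ∈ {x : ℝ | y ≤ |x|}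
  · rw [Set.indicator_of_mem hx]
    have hx' : y ≤ |x| := hx
    refine le_min (by simp) ?_
    show (1 : ℝ) ≤ (x / y) ^ 2
    rw [div_pow, le_div_iff₀ (by positivity), one_mul, ← sq_abs x]
    exact pow_le_pow_left₀ hy.le hx' 2
  · rw [Set.indicator_of_notMem hx]
    exact A1_nn y x

theorem trunc_le_Lam [IsProbabilityMeasure ρ] {y : ℝ} (hy : 0 < y) :
    ∫ x in {x | |x| ≤ y}, x ^ 2 ∂ρ ≤ y ^ 2 * Lam ρ y := by
  unfold Lam
  rw [← integral_const_mul, ← integral_indicator (A1_msb' y)]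
  refine integral_mono ?_ ((A1_int ρ y).const_mul _) fun x => ?_
  · refine Integrable.of_bound ((by fun_prop : Measurable fun x : ℝ => x ^ 2).indicator
      (A1_msb' y)).aestronglyMeasurable (y ^ 2) (Eventually.of_forall fun x => ?_)
    by_cases hx : x ∈ {x : ℝ | |x| ≤ y}
    · rw [Set.indicator_of_mem hx]
      have hx' : |x| ≤ y := hx
      rw [Real.norm_of_nonneg (sq_nonneg x), ← sq_abs x]
      exact pow_le_pow_left₀ (abs_nonneg x) hx' 2
    · rw [Set.indicator_of_notMem hx, norm_zero]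
      positivity
  · by_cases hx : x ∈ {x : ℝ | |x| ≤ y}
    · rw [Set.indicator_of_mem hx]
      have hx' : |x| ≤ y := hx
      show x ^ 2 ≤ y ^ 2 * min 1 ((x / y) ^ 2)
      have h1 : (x / y) ^ 2 ≤ 1 := by
        rw [div_pow, div_le_one (by positivity), ← sq_abs x]
        exact pow_le_pow_left₀ (abs_nonneg x) hx' 2
      rw [min_eq_right h1]
      apply le_of_eq
      field_simp
    · rw [Set.indicator_of_notMem hx]
      have := A1_nn y x
      show 0 ≤ y ^ 2 * min 1 ((x / y) ^ 2)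
      positivity

theorem Reg.rev (h : Reg ρ p C x₀) : Reg (dual ρ) p C x₀ := by
  have hp := h.cen.prob
  refine ⟨h.cen.dual, h.p1, h.p2, h.C1, h.x1, fun y hy r hr => ?_⟩
  rw [Lam_dual, Lam_dual]
  exact h.reg y hy r hr

theorem Reg.all (h : Reg ρ p C x₀) : ∃ K : ℝ, 1 ≤ K ∧ ∀ y : ℝ, 1 ≤ y → ∀ r : ℝ, 1 ≤ r →
    Lam ρ (r * y) ≤ K * r ^ (-p) * Lam ρ y := by
  have hp := h.cen.prob
  have hx1 := h.x1
  have hC1 := h.C1
  have hp1 := h.p1
  have hp2 := h.p2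
  have hx0 : 0 < x₀ := by linarith
  have hx2 : 1 ≤ x₀ ^ 2 := by nlinarith
  have hxp : x₀ ^ p ≤ x₀ ^ 2 := by
    rw [← Real.rpow_natCast x₀ 2]
    exact Real.rpow_le_rpow_of_exponent_le hx1 (by push_cast; linarith)
  refine ⟨C * x₀ ^ 2, by nlinarith, fun y hy r hr => ?_⟩
  have hy0 : 0 < y := by linarith
  have hr0 : 0 < r := by linarith
  have hL0 := Lam_nonneg ρ y
  have hrp : 0 < r ^ (-p) := Real.rpow_pos_of_pos hr0 _
  rcases le_total x₀ y with h1 | h1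
  · refine (h.reg y h1 r hr).trans ?_
    have : C * r ^ (-p) * Lam ρ y * 1 ≤ C * r ^ (-p) * Lam ρ y * x₀ ^ 2 := by
      apply mul_le_mul_of_nonneg_left hx2
      positivity
    nlinarith
  · rcases le_total x₀ (r * y) with h2 | h2
    · have h3 := h.reg x₀ le_rfl (r * y / x₀) (by rw [le_div_iff₀ hx0]; linarith)
      have h4 : r * y / x₀ * x₀ = r * y := by field_simp
      rw [h4] at h3
      have h5 : (r * y / x₀) ^ (-p) ≤ r ^ (-p) * x₀ ^ 2 := by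
        have e1 : r * y / x₀ = r * (y / x₀) := by ring
        rw [e1, Real.mul_rpow hr0.le (by positivity)]
        apply mul_le_mul_of_nonneg_left _ hrp.le
        rw [Real.rpow_neg (by positivity), ← Real.inv_rpow (by positivity), inv_div]
        have h6 : x₀ / y ≤ x₀ := div_le_self hx0.le hy
        exact (Real.rpow_le_rpow (by positivity) h6 (by linarith)).trans hxp
      have h7 : Lam ρ x₀ ≤ Lam ρ y := Lam_anti hy0 h1
      have h8 := Lam_nonneg ρ x₀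
      calc Lam ρ (r * y) ≤ C * (r * y / x₀) ^ (-p) * Lam ρ x₀ := h3
        _ ≤ C * (r ^ (-p) * x₀ ^ 2) * Lam ρ y := by
            apply mul_le_mul _ h7 h8 (by positivity)
            exact mul_le_mul_of_nonneg_left h5 (by linarith)
        _ = C * x₀ ^ 2 * r ^ (-p) * Lam ρ y := by ring
    · have h3 : r ≤ x₀ := by nlinarith
      have h4 : 1 ≤ x₀ ^ 2 * r ^ (-p) := by
        rw [Real.rpow_neg hr0.le, ← div_eq_mul_inv, le_div_iff₀ (Real.rpow_pos_of_pos hr0 _), one_mul]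
        exact (Real.rpow_le_rpow hr0.le h3 (by linarith)).trans hxp
      have h5 : Lam ρ (r * y) ≤ Lam ρ y := Lam_anti hy0 (by nlinarith)
      have h6 : 1 ≤ C * x₀ ^ 2 * r ^ (-p) := by
        have : 1 * 1 ≤ C * (x₀ ^ 2 * r ^ (-p)) := mul_le_mul hC1 h4 zero_le_one (by linarith)
        linarith
      calc Lam ρ (r * y) ≤ 1 * Lam ρ y := by linarith
        _ ≤ C * x₀ ^ 2 * r ^ (-p) * Lam ρ y := mul_le_mul_of_nonneg_right h6 hL0

theorem Reg.tendsto (h : Reg ρ p C x₀) : Tendsto (Lam ρ) atTop (𝓝 0) := by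
  obtain ⟨K, hK, hR⟩ := h.all
  have hp1 := h.p1
  have h1 : Tendsto (fun r : ℝ => K * r ^ (-p) * Lam ρ 1) atTop (𝓝 (K * 0 * Lam ρ 1)) :=
    ((tendsto_rpow_neg_atTop (by linarith : 0 < p)).const_mul K).mul_const _
  rw [mul_zero, zero_mul] at h1
  refine squeeze_zero' (Eventually.of_forall fun y => Lam_nonneg ρ y) ?_ h1
  filter_upwards [eventually_ge_atTop (1 : ℝ)] with r hr
  have := hR 1 le_rfl r hr
  rwa [mul_one] at this

theorem Reg.mul_le (h : Reg ρ p C x₀) : ∃ K : ℝ, 1 ≤ K ∧ ∀ y : ℝ, 1 ≤ y → y * Lam ρ y ≤ K := by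
  have hp := h.cen.prob
  obtain ⟨K, hK, hR⟩ := h.all
  have hp1 := h.p1
  refine ⟨K, hK, fun y hy => ?_⟩
  have h1 := hR 1 le_rfl y hy
  rw [mul_one] at h1
  have hy0 : 0 < y := by linarith
  have h2 : y ^ (-p) ≤ y⁻¹ := by
    rw [← Real.rpow_neg_one]
    exact Real.rpow_le_rpow_of_exponent_le hy (by linarith)
  have h3 : Lam ρ 1 ≤ 1 := Lam_le_one 1
  have h4 := Lam_nonneg ρ 1
  have h5 : 0 < y ^ (-p) := Real.rpow_pos_of_pos hy0 _
  calc y * Lam ρ y ≤ y * (K * y ^ (-p) * Lam ρ 1) := mul_le_mul_of_nonneg_left h1 hy0.le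
    _ ≤ y * (K * y⁻¹ * 1) := by
        apply mul_le_mul_of_nonneg_left _ hy0.le
        apply mul_le_mul _ h3 h4 (by positivity)
        exact mul_le_mul_of_nonneg_left h2 (by linarith)
    _ = K := by field_simp

theorem Reg.scale (h : Reg ρ p C x₀) : ∃ c : ℝ, 0 < c ∧ ∀ n : ℕ, 1 ≤ n → ∃ y : ℝ, 1 ≤ y ∧
    c ≤ n * Lam ρ y ∧ n * Lam ρ y ≤ 1 := by
  classical
  have hp := h.cen.prob
  have hL1 : 0 < Lam ρ 1 := Lam_pos h.cen one_pos
  refine ⟨min (1 / 4) (Lam ρ 1), lt_min (by norm_num) hL1, fun n hn => ?_⟩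
  have hn1 : (1 : ℝ) ≤ n := by exact_mod_cast hn
  rcases le_or_gt (n * Lam ρ 1) 1 with h1 | h1
  · refine ⟨1, le_rfl, (min_le_right _ _).trans ?_, h1⟩
    nlinarith
  · have hex : ∃ j : ℕ, (n : ℝ) * Lam ρ (2 ^ j) ≤ 1 := by
      have h2 : Tendsto (fun j : ℕ => (n : ℝ) * Lam ρ ((2 : ℝ) ^ j)) atTop (𝓝 (n * 0)) :=
        (h.tendsto.comp (tendsto_pow_atTop_atTop_of_one_lt one_lt_two)).const_mul _
      rw [mul_zero] at h2
      have h3 := h2.eventually (gt_mem_nhds one_pos)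
      obtain ⟨j, hj⟩ := h3.exists
      exact ⟨j, hj.le⟩
    have h3 := Nat.find_spec hex
    have h4 : ∀ m < Nat.find hex, ¬ ((n : ℝ) * Lam ρ (2 ^ m) ≤ 1) := fun m hm => Nat.find_min hex hm
    generalize Nat.find hex = j at h3 h4
    have hj : j ≠ 0 := by
      rintro rfl
      rw [pow_zero] at h3
      linarith
    obtain ⟨i, rfl⟩ := Nat.exists_eq_succ_of_ne_zero hj
    have h5 := h4 i (Nat.lt_succ_self i)
    push Not at h5
    have h6 := Lam_sq (ρ := ρ) (y := (2 : ℝ) ^ i) (r := 2) (by positivity) (by norm_num)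
    have h7 : (2 : ℝ) * 2 ^ i = 2 ^ (i + 1) := by rw [pow_succ]; ring
    rw [h7] at h6
    refine ⟨2 ^ (i + 1), one_le_pow₀ one_le_two, (min_le_left _ _).trans ?_, h3⟩
    have h8 : (n : ℝ) * Lam ρ (2 ^ i) ≤ n * (2 ^ 2 * Lam ρ (2 ^ (i + 1))) :=
      mul_le_mul_of_nonneg_left h6 (by linarith)
    linarith

theorem Reg.bdd (h : Reg ρ p C x₀) {c : ℝ} (hc : 0 < c) : ∃ Y : ℝ, 1 ≤ Y ∧ ∀ y : ℝ, 1 ≤ y →
    c ≤ Lam ρ y → y ≤ Y := by
  have h1 := h.tendsto.eventually (gt_mem_nhds hc)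
  obtain ⟨Y, hY⟩ := eventually_atTop.1 h1
  refine ⟨max 1 Y, le_max_left _ _, fun y _ hy2 => ?_⟩
  by_contra h2
  push Not at h2
  have := hY y ((le_max_right _ _).trans h2.le)
  linarith

theorem Reg.cmp (h : Reg ρ p C x₀) : ∃ K : ℝ, 1 ≤ K ∧ ∀ y y' t : ℝ, 1 ≤ y' → y' ≤ y →
    y' ^ p ≤ t * y ^ p → Lam ρ y ≤ K * t * Lam ρ y' := by
  obtain ⟨K, hK, hR⟩ := h.all
  refine ⟨K, hK, fun y y' t hy' hyy ht => ?_⟩
  have hy0' : 0 < y' := by linarith
  have hy0 : 0 < y := by linarith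
  have h1 := hR y' hy' (y / y') (by rw [le_div_iff₀ hy0']; linarith)
  have h2 : y / y' * y' = y := by field_simp
  rw [h2] at h1
  have h3 : (y / y') ^ (-p) ≤ t := by
    rw [Real.rpow_neg (by positivity), ← Real.inv_rpow (by positivity), inv_div,
      Real.div_rpow hy0'.le hy0.le, div_le_iff₀ (Real.rpow_pos_of_pos hy0 _)]
    exact ht
  refine h1.trans ?_
  apply mul_le_mul_of_nonneg_right _ (Lam_nonneg ρ y')
  exact mul_le_mul_of_nonneg_left h3 (by linarith)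

end Pool.Agent.BPT
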