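import Pool.Agent.MP_99a865_pr.ST.A7b
import Pool.Agent.MP_99a865_pr.CV.K9

/-!
# [STB-A8] The renewal function is harmonic for the killed walk
-/

open MeasureTheory ProbabilityTheory Filter Topology
open scoped ENNReal NNReal

namespace Pool.Agent.BPT

variable {D : Set ℝ} {ρ : Measure ℝ} {p C x₀ : ℝ}

/-- PROOF. `lad_renewal` and `K7_kap` (for `Dst D`, `dual ρ`; `Dst_Dst`, `dual_dual`: for `m ≥ 1`,
`seqLaw ρ {Lad D m ∧ z + S m ∈ D} = kap (Dst D) (dual ρ) m 0 {s | z - s ∈ D}`). -/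
theorem VV_kap (hD : Dom D) (hρ : Cen ρ) (z : ℝ) (hz : 0 ≤ z) :
    VV D ρ z = 1 + ∑' m : ℕ, kap (Dst D) (dual ρ) (m + 1) 0 {s | z - s ∈ D} := by
  have := hρ.prob
  have := prob_dual (ρ := ρ)
  rw [← lad_renewal hD z hz, tsum_eq_zero_add' ENNReal.summable]
  congr 1
  · have : {ω : ℕ → ℝ | Lad D 0 ω ∧ (0 = 0 ∨ z + S 0 ω ∈ D)} = Set.univ := by
      rw [Set.eq_univ_iff_forall]
      intro ω
      exact ⟨fun i hi => by omega, Or.inl rfl⟩
    rw [this, measure_univ]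
  · refine tsum_congr fun m => ?_
    have hm : MeasurableSet {s : ℝ | z - s ∈ D} :=
      (measurable_const.sub measurable_id) hD.meas
    rw [K7_kap (dom_Dst hD) (m + 1) _ hm, dual_dual, Dst_Dst]
    congr 1
    ext ω
    constructor
    · rintro ⟨h1, h2⟩
      refine ⟨h1, ?_⟩
      rcases h2 with h2 | h2
      · omega
      · show z - (-S (m + 1) ω) ∈ D
        rwa [sub_neg_eq_add]
    · rintro ⟨h1, h2⟩
      refine ⟨h1, Or.inr ?_⟩
      have h3 : z - (-S (m + 1) ω) ∈ D := h2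
      rwa [sub_neg_eq_add] at h3

/-- PROOF. Write `k_m = kap (Dst D) (dual ρ) m 0`, a measure on `[0,∞)` (`k_0 = dirac 0`). By `lintegral_kap_one` and
`VV_kap` the left side is `ρ{x+y ∈ D} + ∑'_m ∫_{x+y∈D} k_{m+1}{s | x+y-s ∈ D} ∂ρ(y)`. As `s ≥ 0` for `k_{m+1}`-a.e. `s`,
`x+y-s ∈ D` implies `x+y ∈ D` (`Dom.up`); so the left side is `∑'_{m ≥ 0} T_m`, `T_m = ∫ ρ{y | x + y - s ∈ D} ∂k_m(s)
= ∫ (dual ρ){y | x - (s + y) ∈ D} ∂k_m(s)`. Split according to whether `s + y ∈ Dst D`: the part with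
`s + y ∈ Dst D` is `k_{m+1}{s' | x - s' ∈ D}` (`kap_add_apply`, `lintegral_kap_one`); if `s+y ∉ Dst D` then `-(s+y) ∈ D`
and so `x - (s+y) ∈ D` (`x ≥ 0`), and this part is `ofReal (hit (Dst D) (dual ρ) (m+1) 0)` (`hit_succ`). Sum over `m`:
`∑'_m k_{m+1}{s' | x-s' ∈ D} + ∑'_m hit (m+1) = ∑'_m k_{m+1}{…} + 1 = VV x` (`tsum_hit` for `Dst D`, `dual ρ`;
`hit 0 = 0`; `VV_kap`). -/
theorem harm_one (hD : Dom D) (hρ : Cen ρ) (x : ℝ) (hx : 0 ≤ x) :
    ∫⁻ z, VV D ρ z ∂(kap D ρ 1 x) = VV D ρ x := by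
  have := hρ.prob
  have := prob_dual (ρ := ρ)
  have hE : MeasurableSet {p : ℝ × ℝ | x + p.1 - p.2 ∈ D} :=
    ((measurable_const.add measurable_fst).sub measurable_snd) hD.meas
  have hsec : ∀ y : ℝ, MeasurableSet {s : ℝ | x + y - s ∈ D} := fun y =>
    (measurable_const.sub measurable_id) hD.meas
  have hmeas : ∀ m : ℕ, Measurable fun y : ℝ => kap (Dst D) (dual ρ) m 0 {s | x + y - s ∈ D} :=
    fun m => measurable_measure_prodMk_left hE
  have hA : MeasurableSet {y : ℝ | x + y ∈ D} := (measurable_const.add measurable_id) hD.meas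
  -- the function under the integral
  have e1 : ∀ y ∈ {y : ℝ | x + y ∈ D}, VV D ρ (x + y) =
      ∑' m : ℕ, kap (Dst D) (dual ρ) m 0 {s | x + y - s ∈ D} := by
    intro y hy
    rw [VV_kap hD hρ (x + y) (hD.nonneg hy), tsum_eq_zero_add' (f := fun m : ℕ =>
      kap (Dst D) (dual ρ) m 0 {s | x + y - s ∈ D}) ENNReal.summable]
    congr 1
    rw [kap_zero, Measure.dirac_apply' _ (hsec y), Set.indicator_of_mem]
    · rfl
    · show x + y - 0 ∈ D
      rw [sub_zero]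
      exact hy
  have e2 : ∀ y ∈ {y : ℝ | x + y ∈ D}ᶜ,
      ∑' m : ℕ, kap (Dst D) (dual ρ) m 0 {s | x + y - s ∈ D} = 0 := by
    intro y hy
    rw [ENNReal.tsum_eq_zero]
    intro m
    have hae := kap_ae_nonneg (ρ := dual ρ) (dom_Dst hD) m le_rfl
    refine measure_mono_null ?_ (ae_iff.1 hae)
    intro s hs h0
    exact hy (hD.up hs (by linarith))
  rw [lintegral_kap_one hD x _ (measurable_VV hD hρ), setLIntegral_congr_fun hA e1]
  have e3 : ∫⁻ y in {y : ℝ | x + y ∈ D}, ∑' m : ℕ, kap (Dst D) (dual ρ) m 0 {s | x + y - s ∈ D} ∂ρ =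
      ∫⁻ y, ∑' m : ℕ, kap (Dst D) (dual ρ) m 0 {s | x + y - s ∈ D} ∂ρ := by
    have g1 := lintegral_add_compl (μ := ρ)
      (fun y => ∑' m : ℕ, kap (Dst D) (dual ρ) m 0 {s | x + y - s ∈ D}) hA
    rw [setLIntegral_congr_fun hA.compl e2, lintegral_zero, add_zero] at g1
    exact g1
  rw [e3, lintegral_tsum fun m => (hmeas m).aemeasurable]
  -- Fubini
  have e4 : ∀ m : ℕ, ∫⁻ y, kap (Dst D) (dual ρ) m 0 {s | x + y - s ∈ D} ∂ρ =
      kap (Dst D) (dual ρ) (m + 1) 0 {s | x - s ∈ D} +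
        ENNReal.ofReal (hit (Dst D) (dual ρ) (m + 1) 0) := by
    intro m
    have f1 : ∫⁻ y, kap (Dst D) (dual ρ) m 0 {s | x + y - s ∈ D} ∂ρ =
        ∫⁻ s, ρ {y | x + y - s ∈ D} ∂(kap (Dst D) (dual ρ) m 0) := by
      have g1 := Measure.prod_apply (μ := ρ) (ν := kap (Dst D) (dual ρ) m 0) hE
      have g2 := Measure.prod_apply_symm (μ := ρ) (ν := kap (Dst D) (dual ρ) m 0) hE
      exact g1.symm.trans g2
    have hx' : MeasurableSet {s : ℝ | x - s ∈ D} := (measurable_const.sub measurable_id) hD.meas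
    have f2 : ∀ s : ℝ, ρ {y | x + y - s ∈ D} = kap (Dst D) (dual ρ) 1 s {s | x - s ∈ D} +
        ex (Dst D) (dual ρ) s := by
      intro s
      have hB : MeasurableSet {y : ℝ | s + y ∈ Dst D} :=
        (measurable_const.add measurable_id) (dom_Dst hD).meas
      have hC : MeasurableSet {y : ℝ | x - (s + y) ∈ D} :=
        (measurable_const.sub (measurable_const.add measurable_id)) hD.meas
      have g1 : ρ {y | x + y - s ∈ D} = dual ρ {y | x - (s + y) ∈ D} := by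
        rw [dual, Measure.map_apply measurable_neg hC]
        congr 1
        ext y
        show x + y - s ∈ D ↔ x - (s + -y) ∈ D
        have : x - (s + -y) = x + y - s := by ring
        rw [this]
      have g2 : kap (Dst D) (dual ρ) 1 s {s | x - s ∈ D} =
          dual ρ ({y | x - (s + y) ∈ D} ∩ {y | s + y ∈ Dst D}) := by
        have g3 := lintegral_kap_one (ρ := dual ρ) (dom_Dst hD) s
          (({s : ℝ | x - s ∈ D}).indicator fun _ => (1 : ℝ≥0∞)) (measurable_const.indicator hx')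
        have g4 : ∫⁻ y, ({s : ℝ | x - s ∈ D}).indicator (fun _ => (1 : ℝ≥0∞)) y
            ∂(kap (Dst D) (dual ρ) 1 s) = kap (Dst D) (dual ρ) 1 s {s | x - s ∈ D} :=
          lintegral_indicator_one hx'
        have g5 : ∫⁻ y in {y | s + y ∈ Dst D}, ({s : ℝ | x - s ∈ D}).indicator (fun _ => (1 : ℝ≥0∞))
            (s + y) ∂(dual ρ) = dual ρ ({y | x - (s + y) ∈ D} ∩ {y | s + y ∈ Dst D}) := by
          rw [← Measure.restrict_apply hC]
          exact lintegral_indicator_one hC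
        rw [← g4, g3, g5]
      have g6 : ex (Dst D) (dual ρ) s = dual ρ ({y | x - (s + y) ∈ D} \ {y | s + y ∈ Dst D}) := by
        unfold ex
        congr 1
        ext y
        constructor
        · intro hy
          refine ⟨?_, hy⟩
          have hy' : ¬ (-(s + y) ∉ D) := hy
          exact hD.up (not_not.1 hy') (by linarith)
        · intro hy
          exact hy.2
      rw [g1, g2, g6, measure_inter_add_sdiff _ hB]
    rw [f1]
    simp only [f2]
    rw [lintegral_add_right _ (measurable_ex (dom_Dst hD)), ← kap_add_apply (dom_Dst hD) m 1 0 _ hx',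
      ← hit_succ (dom_Dst hD)]
  simp only [e4]
  rw [ENNReal.tsum_add, VV_kap hD hρ x hx]
  have e5 := tsum_hit (dom_Dst hD) hρ.dual
  rw [tsum_eq_zero_add' ENNReal.summable] at e5
  have e6 : hit (Dst D) (dual ρ) 0 0 = 0 := by
    unfold hit
    have : {ω : ℕ → ℝ | 1 ≤ 0 ∧ Alive (Dst D) 0 (0 - 1) ω ∧ 0 + S 0 ω ∉ Dst D} = ∅ := by
      ext ω
      simp
    rw [this, measureReal_empty]
  rw [e6, ENNReal.ofReal_zero, zero_add] at e5
  rw [e5, add_comm]

/-- PROOF. Induction on `n`, `lintegral_kap_add` and `kap_ae_nonneg`. -/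
theorem harm (hD : Dom D) (hρ : Cen ρ) (n : ℕ) (x : ℝ) (hx : 0 ≤ x) :
    ∫⁻ z, VV D ρ z ∂(kap D ρ n x) = VV D ρ x := by
  have := hρ.prob
  induction n generalizing x with
  | zero => rw [kap_zero, lintegral_dirac' _ (measurable_VV hD hρ)]
  | succ n ih =>
    rw [lintegral_kap_add hD n 1 x _ (measurable_VV hD hρ)]
    have h1 : ∫⁻ y, ∫⁻ z, VV D ρ z ∂(kap D ρ 1 y) ∂(kap D ρ n x) = ∫⁻ y, VV D ρ y ∂(kap D ρ n x) := by
      apply lintegral_congr_ae
      filter_upwards [kap_ae_nonneg (ρ := ρ) hD n hx] with y hy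
      exact harm_one hD hρ y hy
    rw [h1, ih x hx]

theorem harm_integrable (hD : Dom D) (hρ : Cen ρ) (n : ℕ) (x : ℝ) (hx : 0 ≤ x) :
    Integrable (vr D ρ) (kap D ρ n x) := by
  have := hρ.prob
  refine ⟨(measurable_vr hD hρ).aestronglyMeasurable, ?_⟩
  rw [hasFiniteIntegral_iff_enorm]
  have h1 : ∀ z, ‖vr D ρ z‖ₑ = VV D ρ z := by
    intro z
    rw [VV_eq hD hρ z, Real.enorm_of_nonneg (zero_le_one.trans (one_le_vr hD hρ z))]
  simp only [h1]
  rw [harm hD hρ n x hx]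
  exact lt_top_iff_ne_top.2 (VV_fin hD hρ x)

theorem harm_real (hD : Dom D) (hρ : Cen ρ) (n : ℕ) (x : ℝ) (hx : 0 ≤ x) :
    ∫ z, vr D ρ z ∂(kap D ρ n x) = vr D ρ x := by
  have := hρ.prob
  rw [integral_eq_lintegral_of_nonneg_ae
    (Filter.Eventually.of_forall fun z => zero_le_one.trans (one_le_vr hD hρ z))
    (measurable_vr hD hρ).aestronglyMeasurable]
  have h1 : ∀ z, ENNReal.ofReal (vr D ρ z) = VV D ρ z := fun z => (VV_eq hD hρ z).symm
  simp only [h1]
  rw [harm hD hρ n x hx]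
  rfl

/-- PROOF. Markov's inequality for `VV`, monotone. -/
theorem vr_mul_le (hD : Dom D) (hρ : Cen ρ) (n : ℕ) (x : ℝ) (hx : 0 ≤ x) (w : ℝ) :
    vr D ρ w * (kap D ρ n x).real (Set.Ici w) ≤ vr D ρ x := by
  have := hρ.prob
  have h1 : VV D ρ w * kap D ρ n x (Set.Ici w) ≤ VV D ρ x := by
    rw [← harm hD hρ n x hx, ← setLIntegral_const]
    refine le_trans ?_ (setLIntegral_le_lintegral (Set.Ici w) _)
    apply setLIntegral_mono' measurableSet_Ici
    intro z hz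
    exact VT_mono hD hz
  have h2 := ENNReal.toReal_mono (VV_fin hD hρ x) h1
  rwa [ENNReal.toReal_mul] at h2

end Pool.Agent.BPT
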