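import Pool.Agent.MP_99a865_pr.ST.A4
import Pool.Agent.MP_99a865_pr.ST.A8

/-!
# [STB-A10] Survival probability, upper bound at the time scale of the level
-/

open MeasureTheory ProbabilityTheory Filter Topology
open scoped ENNReal NNReal

namespace Pool.Agent.BPT

variable {D : Set ℝ} {ρ : Measure ℝ} {p C x₀ : ℝ}

private lemma A10_fre_real (hD : Dom D) [IsProbabilityMeasure ρ] (k : ℕ) (x : ℝ) (J : Set ℝ) :
    (kap D ρ k x).real J ≤ (fre ρ k x).real J := by
  have hfin : fre ρ k x J ≠ ⊤ := by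
    have : IsFiniteMeasure (fre ρ k x) := by
      unfold fre
      infer_instance
    exact measure_ne_top _ _
  exact ENNReal.toReal_mono hfin (kap_le_fre hD k x J)

/-- the case of a bounded level -/
private lemma A10_triv (hD : Dom D) (hρ : Cen ρ) {K Y' y x : ℝ} (n : ℕ) (hy : y ≤ Y')
    (hK : vr D ρ Y' ≤ K) : al D ρ n x ≤ K * (vr D ρ x / vr D ρ y) := by
  have := hρ.prob
  have h1 := al_le_one (D := D) (ρ := ρ) n x
  have hx := one_le_vr hD hρ x
  have hy1 := one_le_vr hD hρ y
  have hm := vr_mono hD hρ hy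
  refine h1.trans ?_
  rw [← mul_div_assoc, le_div_iff₀ (by linarith)]
  have h2 : vr D ρ y ≤ K := hm.trans hK
  nlinarith

/-- **[STB-A10]** PROOF. Let `K₁` be the constant of `Reg.all`, `K₂` that of `Reg.conc`, `B = 2 K₂ (1 + 2/c)`, `A = 3 K₁`
(so `A ≥ 1`, `A^p ≥ A = 3 K₁`), `δ = 1/(2 B (1 + A)) ≤ 1`. Strong induction on `n` for all `y`, constant `K` chosen below.
Exceptional cases: (a) `y < A` or `δ y < 1`; (b) `n = 1`: then `Lam y ≥ c` and `y ≤ Y` by `Reg.bdd`. In all these cases
`y ≤ Y' := max A (max (1/δ) Y)` and `al ≤ 1 ≤ vr Y' (vr x/vr y)` (`vr_mono`, `one_le_vr`): `K ≥ vr Y'` suffices.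
Otherwise let `m = n/2`, `n₂ = n - m`, `1 ≤ m`, `n/3 ≤ m < n`, `n/2 ≤ n₂`. By the Markov property
`al n x = (kap n x).real (Ici (δy)) + (kap n x).real (Iio (δy))`. The first term is at most
`vr x/vr (δ y) ≤ (1 + 1/δ) vr x/vr y` (`vr_mul_le`, `vr_ratio`). The second one: `kap n x` lives on `[0,∞)`, so it is
`(kap (m+n₂) x).real (Ico 0 (δy)) ≤ al m x · sup_w (fre n₂ w).real (Ico 0 (δ y)) ≤ al m x · K₂ δ (1 + 2/c) ≤ al m x · B δ`
(`kap_split_le`, `kap_le_fre`, `Reg.conc` with `w = δ y ≥ 1`, `n₂ Lam y ≥ c/2`). By `Reg.all` with `r = A`,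
`Lam (y/A) ≥ A^p Lam y/K₁ ≥ 3 Lam y` (`y/A ≥ 1`), so `m Lam (y/A) ≥ n Lam y ≥ c` and by induction
`al m x ≤ K vr x/vr (y/A) ≤ K (1 + A) vr x/vr y`. Total: `((1 + 1/δ) + B δ (1+A) K) vr x/vr y = ((1+1/δ) + K/2) vr x/vr y
≤ K vr x/vr y` for `K ≥ 2 (1 + 1/δ)`. -/
theorem Reg.surv (hD : Dom D) (h : Reg ρ p C x₀) : ∀ c : ℝ, 0 < c → ∃ K : ℝ, 1 ≤ K ∧
    ∀ (n : ℕ) (y : ℝ), 1 ≤ n → 1 ≤ y → c ≤ n * Lam ρ y → ∀ x : ℝ, 0 ≤ x →
      al D ρ n x ≤ K * (vr D ρ x / vr D ρ y) := by
  intro c hc
  have hρ := h.cen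
  have hprob := hρ.prob
  obtain ⟨K₁, hK₁, hall⟩ := h.all
  obtain ⟨K₂, hK₂, hconc⟩ := h.conc
  obtain ⟨Y, hY, hbdd⟩ := h.bdd hc
  set B : ℝ := 2 * K₂ * (1 + 2 / c) with hB
  set A : ℝ := 3 * K₁ with hA
  set δ : ℝ := 1 / (2 * B * (1 + A)) with hδ
  have h2c : 0 < 2 / c := by positivity
  have hB1 : 2 ≤ B := by rw [hB]; nlinarith
  have hA1 : 3 ≤ A := by rw [hA]; linarith
  have hBA : 0 < 2 * B * (1 + A) := by positivity
  have hδ0 : 0 < δ := by rw [hδ]; positivity
  have hδ1 : δ ≤ 1 := by
    rw [hδ, div_le_one hBA]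
    nlinarith
  set Y' : ℝ := max A (max (1 / δ) Y) with hY'
  have hYA : A ≤ Y' := le_max_left _ _
  have hYδ : 1 / δ ≤ Y' := (le_max_left _ _).trans (le_max_right _ _)
  have hYY : Y ≤ Y' := (le_max_right _ _).trans (le_max_right _ _)
  set K : ℝ := max (vr D ρ Y') (2 * (1 + 1 / δ)) with hK
  have hKv : vr D ρ Y' ≤ K := le_max_left _ _
  have hKδ : 2 * (1 + 1 / δ) ≤ K := le_max_right _ _
  have hK1 : 1 ≤ K := (one_le_vr hD hρ Y').trans hKv
  refine ⟨K, hK1, ?_⟩
  intro n
  induction n using Nat.strong_induction_on with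
  | _ n ih =>
    intro y hn hy hcn x hx
    by_cases hex : y < A ∨ δ * y < 1 ∨ n = 1
    · refine A10_triv hD hρ n (Y' := Y') ?_ hKv
      rcases hex with h1 | h1 | h1
      · linarith
      · have : y ≤ 1 / δ := by
          rw [le_div_iff₀ hδ0]
          linarith
        linarith
      · subst h1
        have : y ≤ Y := hbdd y hy (by simpa using hcn)
        linarith
    · push Not at hex
      obtain ⟨hyA, hδy, hn1⟩ := hex
      have hn2 : 2 ≤ n := by omega
      set m : ℕ := n / 2 with hm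
      set n₂ : ℕ := n - m with hn₂
      have hmn : m + n₂ = n := by omega
      have hm1 : 1 ≤ m := by omega
      have hmlt : m < n := by omega
      have hn₂1 : 1 ≤ n₂ := by omega
      have hm3 : (n : ℝ) ≤ 3 * m := by
        have : n ≤ 3 * m := by omega
        exact_mod_cast this
      have hn₂2 : (n : ℝ) ≤ 2 * n₂ := by
        have : n ≤ 2 * n₂ := by omega
        exact_mod_cast this
      have hy0 : 0 < y := by linarith
      have hLy : 0 < Lam ρ y := Lam_pos hρ hy0
      have hvy := one_le_vr hD hρ y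
      have hvx := one_le_vr hD hρ x
      set q : ℝ := vr D ρ x / vr D ρ y with hq
      have hq0 : 0 < q := by rw [hq]; positivity
      -- first part
      have hfirst : (kap D ρ n x).real (Set.Ici (δ * y)) ≤ (1 + 1 / δ) * q := by
        have e1 := vr_mul_le hD hρ n x hx (δ * y)
        have e2 := vr_ratio hD hρ (y := δ * y) (z := y) (by positivity)
          (by nlinarith)
        have e3 : y / (δ * y) = 1 / δ := by
          field_simp
        rw [e3] at e2
        have e4 : 0 ≤ (kap D ρ n x).real (Set.Ici (δ * y)) := measureReal_nonneg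
        rw [hq, ← mul_div_assoc, le_div_iff₀ (by linarith)]
        have e5 : 0 < 1 + 1 / δ := by positivity
        calc (kap D ρ n x).real (Set.Ici (δ * y)) * vr D ρ y
            ≤ (kap D ρ n x).real (Set.Ici (δ * y)) * ((1 + 1 / δ) * vr D ρ (δ * y)) :=
              mul_le_mul_of_nonneg_left e2 e4
          _ = (1 + 1 / δ) * (vr D ρ (δ * y) * (kap D ρ n x).real (Set.Ici (δ * y))) := by ring
          _ ≤ (1 + 1 / δ) * vr D ρ x := mul_le_mul_of_nonneg_left e1 e5.le
      -- second part
      have hsup : ∀ w, 0 ≤ w → (kap D ρ n₂ w).real (Set.Ico 0 (δ * y)) ≤ B * δ := by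
        intro w _
        refine (A10_fre_real hD n₂ w _).trans ?_
        have e1 := hconc n₂ hn₂1 y hy (δ * y) hδy w 0
        rw [zero_add] at e1
        refine e1.trans ?_
        have e2 : δ * y / y = δ := by field_simp
        rw [e2]
        have e3 : c / 2 ≤ n₂ * Lam ρ y := by nlinarith
        have e4 : 1 / (n₂ * Lam ρ y) ≤ 2 / c := by
          rw [div_le_div_iff₀ (by linarith) hc]
          linarith
        have e5 : K₂ * δ * (1 + 1 / (n₂ * Lam ρ y)) ≤ K₂ * δ * (1 + 2 / c) :=
          mul_le_mul_of_nonneg_left (by linarith) (by positivity)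
        refine e5.trans ?_
        rw [hB]
        have : 0 < K₂ * δ * (1 + 2 / c) := by positivity
        nlinarith
      have hnn : (kap D ρ n x).real (Set.Iio (δ * y)) ≤ al D ρ m x * (B * δ) := by
        have e1 : (kap D ρ n x).real (Set.Iio (δ * y)) =
            (kap D ρ n x).real (Set.Ico 0 (δ * y)) := by
          apply measureReal_congr
          filter_upwards [kap_ae_nonneg hD n hx] with z hz
          have : (z ∈ Set.Iio (δ * y)) = (z ∈ Set.Ico 0 (δ * y)) := by
            simp [hz]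
          exact this
        rw [e1, ← hmn]
        exact kap_split_le hD m n₂ hx _ measurableSet_Ico (B * δ) (by positivity) hsup
      -- induction
      have hyA0 : 1 ≤ y / A := by rw [le_div_iff₀ (by linarith)]; linarith
      have hLA : 3 * Lam ρ y ≤ Lam ρ (y / A) := by
        have e1 := hall (y / A) hyA0 A (by linarith)
        rw [mul_div_cancel₀ _ (by linarith : A ≠ 0)] at e1
        have e2 : A ^ (-p) ≤ A⁻¹ := by
          rw [← Real.rpow_neg_one]
          exact Real.rpow_le_rpow_of_exponent_le (by linarith) (by linarith [h.p1])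
        have e3 : 0 ≤ Lam ρ (y / A) := Lam_nonneg _ _
        have e4 : K₁ * A ^ (-p) * Lam ρ (y / A) ≤ K₁ * A⁻¹ * Lam ρ (y / A) :=
          mul_le_mul_of_nonneg_right (mul_le_mul_of_nonneg_left e2 (by linarith)) e3
        have e5 : K₁ * A⁻¹ = 1 / 3 := by
          rw [hA]
          field_simp
        rw [e5] at e4
        linarith
      have hcm : c ≤ m * Lam ρ (y / A) := by
        have : (n : ℝ) * Lam ρ y ≤ m * (3 * Lam ρ y) := by nlinarith
        have e2 : (m : ℝ) * (3 * Lam ρ y) ≤ m * Lam ρ (y / A) :=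
          mul_le_mul_of_nonneg_left hLA (by positivity)
        linarith
      have hih := ih m hmlt (y / A) hm1 hyA0 hcm x hx
      have hva := one_le_vr hD hρ (y / A)
      have hrat : vr D ρ x / vr D ρ (y / A) ≤ (1 + A) * q := by
        have e2 := vr_ratio hD hρ (y := y / A) (z := y) (by linarith)
          (div_le_self hy0.le (by linarith))
        have e3 : y / (y / A) = A := by
          have : A ≠ 0 := by linarith
          field_simp
        rw [e3] at e2
        rw [hq, ← mul_div_assoc, div_le_div_iff₀ (by linarith) (by linarith)]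
        nlinarith
      have halm : al D ρ m x ≤ K * ((1 + A) * q) :=
        hih.trans (mul_le_mul_of_nonneg_left hrat (by linarith))
      have hsplit : al D ρ n x = (kap D ρ n x).real (Set.Ici (δ * y)) +
          (kap D ρ n x).real (Set.Iio (δ * y)) := by
        have := measureReal_add_measureReal_compl (μ := kap D ρ n x)
          (measurableSet_Ici (a := δ * y))
        rw [Set.compl_Ici] at this
        rw [this]
        rfl
      have hBδ : (1 + A) * (B * δ) = 1 / 2 := by
        rw [hδ]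
        have : (1 + A) ≠ 0 := by linarith
        have : B ≠ 0 := by linarith
        field_simp
      rw [hsplit]
      have e1 : al D ρ m x * (B * δ) ≤ K * ((1 + A) * q) * (B * δ) :=
        mul_le_mul_of_nonneg_right halm (by positivity)
      have e2 : K * ((1 + A) * q) * (B * δ) = K / 2 * q := by
        calc _ = K * q * ((1 + A) * (B * δ)) := by ring
          _ = _ := by rw [hBδ]; ring
      have e3 : (1 + 1 / δ) * q ≤ K / 2 * q := mul_le_mul_of_nonneg_right (by linarith) hq0.le
      nlinarith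

end Pool.Agent.BPT
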