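import Pool.Agent.MP_99a865_pr.ST.A10

/-!
# [STB-A11] Survival probabilities at all times, and their sums
-/

open MeasureTheory ProbabilityTheory Filter Topology
open scoped ENNReal NNReal

namespace Pool.Agent.BPT

variable {D : Set ℝ} {ρ : Measure ℝ} {p C x₀ : ℝ}

/-- `∑_{1 ≤ k < n} k^{-1/p} ≤ (p/(p-1)) n^{1-1/p}` -/
private lemma A11_sum {p : ℝ} (hp : 1 < p) (n : ℕ) :
    ∑ k ∈ Finset.Ico 1 n, (k : ℝ) ^ (-(1 / p)) ≤ p / (p - 1) * (n : ℝ) ^ (1 - 1 / p) := by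
  have hp0 : 0 < p := by linarith
  have hs0 : 0 < 1 - 1 / p := by
    have : 1 / p < 1 := by rw [div_lt_one hp0]; exact hp
    linarith
  have hs1 : 0 < 1 / p := by positivity
  have hP : p / (p - 1) = (1 - 1 / p)⁻¹ := by
    have : p - 1 ≠ 0 := by linarith
    field_simp
  rw [hP]
  have hpos : 0 < (1 - 1 / p)⁻¹ := inv_pos.2 hs0
  have main : ∀ n : ℕ, ∑ k ∈ Finset.Ico 1 (n + 1), (k : ℝ) ^ (-(1 / p)) ≤
      (1 - 1 / p)⁻¹ * (n : ℝ) ^ (1 - 1 / p) := by
    intro n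
    induction n with
    | zero =>
      rw [zero_add, Finset.Ico_self, Finset.sum_empty]
      positivity
    | succ n ih =>
      rw [Finset.sum_Ico_succ_top (by omega)]
      have key : (n : ℝ) ^ (1 - 1 / p) + (1 - 1 / p) * ((n : ℝ) + 1) ^ (-(1 / p)) ≤
          ((n : ℝ) + 1) ^ (1 - 1 / p) := by
        have hnR : (0 : ℝ) ≤ n := Nat.cast_nonneg n
        have hN : (0 : ℝ) < (n : ℝ) + 1 := by linarith
        have e1 : (1 + -(1 / ((n : ℝ) + 1))) ^ (1 - 1 / p) ≤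
            1 + (1 - 1 / p) * -(1 / ((n : ℝ) + 1)) := by
          refine rpow_one_add_le_one_add_mul_self ?_ hs0.le (by linarith)
          have : 1 / ((n : ℝ) + 1) ≤ 1 := by
            rw [div_le_one hN]; linarith
          linarith
        have e2 : (1 + -(1 / ((n : ℝ) + 1))) = n / ((n : ℝ) + 1) := by
          field_simp
          ring
        rw [e2, Real.div_rpow hnR hN.le, div_le_iff₀ (Real.rpow_pos_of_pos hN _)] at e1
        have e3 : ((n : ℝ) + 1) ^ (-(1 / p)) = ((n : ℝ) + 1) ^ (1 - 1 / p) / ((n : ℝ) + 1) := by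
          rw [eq_div_iff hN.ne']
          nth_rewrite 2 [← Real.rpow_one ((n : ℝ) + 1)]
          rw [← Real.rpow_add hN]
          congr 1
          ring
        rw [e3]
        have e4 : (1 + (1 - 1 / p) * -(1 / ((n : ℝ) + 1))) * ((n : ℝ) + 1) ^ (1 - 1 / p) =
            ((n : ℝ) + 1) ^ (1 - 1 / p) -
              (1 - 1 / p) * (((n : ℝ) + 1) ^ (1 - 1 / p) / ((n : ℝ) + 1)) := by
          ring
        rw [e4] at e1
        linarith
      have e5 : ((n : ℝ) + 1) ^ (-(1 / p)) ≤ (1 - 1 / p)⁻¹ *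
          (((n : ℝ) + 1) ^ (1 - 1 / p) - (n : ℝ) ^ (1 - 1 / p)) := by
        rw [inv_mul_eq_div, le_div_iff₀ hs0]
        linarith
      push_cast
      calc _ ≤ (1 - 1 / p)⁻¹ * (n : ℝ) ^ (1 - 1 / p) + (1 - 1 / p)⁻¹ *
          (((n : ℝ) + 1) ^ (1 - 1 / p) - (n : ℝ) ^ (1 - 1 / p)) := add_le_add ih e5
        _ = _ := by ring
  rcases Nat.eq_zero_or_pos n with h0 | hn
  · rw [h0, Finset.Ico_eq_empty (by norm_num), Finset.sum_empty]
    positivity
  · obtain ⟨m, rfl⟩ : ∃ m, n = m + 1 := ⟨n - 1, by omega⟩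
    refine (main m).trans (mul_le_mul_of_nonneg_left ?_ hpos.le)
    exact Real.rpow_le_rpow (Nat.cast_nonneg m) (by push_cast; linarith) hs0.le

/-- PROOF. Let `u = n Lam y > 0`. If `u ≥ 1` use `Reg.surv` with `c = 1`. If `u < 1` let `y' = y u^{1/p} ≤ y`. If `y' ≥ 1`:
`Reg.all` with `r = y/y' = u^{-1/p} ≥ 1` gives `Lam y ≤ K₁ r^{-p} Lam y' = K₁ u Lam y'`, so `n Lam y' ≥ 1/K₁`, and `Reg.surv`
with `c = 1/K₁` gives `al n x ≤ K vr x/vr y' ≤ K (1 + y/y') vr x/vr y` (`vr_ratio`), `y/y' = u^{-1/p}`. If `y' < 1`: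
`y < u^{-1/p}`, `vr y ≤ (1 + y) vr 1 ≤ (1 + u^{-1/p}) vr 1` (`vr_ratio`), so
`al n x ≤ 1 ≤ vr 1 (1 + u^{-1/p}) vr x/vr y`. -/
theorem Reg.surv_all (hD : Dom D) (h : Reg ρ p C x₀) : ∃ K : ℝ, 1 ≤ K ∧
    ∀ (n : ℕ) (y x : ℝ), 1 ≤ n → 1 ≤ y → 0 ≤ x →
      al D ρ n x ≤ K * (1 + (n * Lam ρ y) ^ (-(1 / p))) * (vr D ρ x / vr D ρ y) := by
  have hρ := h.cen
  have hprob := hρ.prob
  have hp1 := h.p1
  have hp0 : 0 < p := by linarith
  obtain ⟨K₁, hK₁, hall⟩ := h.all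
  obtain ⟨S₁, hS₁, hs1⟩ := Reg.surv hD h 1 one_pos
  obtain ⟨S₂, hS₂, hs2⟩ := Reg.surv hD h (1 / K₁) (by positivity)
  have hv1 := one_le_vr hD hρ 1
  refine ⟨max S₁ (max S₂ (vr D ρ 1)), le_max_of_le_left hS₁, ?_⟩
  intro n y x hn hy hx
  set K : ℝ := max S₁ (max S₂ (vr D ρ 1)) with hK
  have hKS1 : S₁ ≤ K := le_max_left _ _
  have hKS2 : S₂ ≤ K := (le_max_left _ _).trans (le_max_right _ _)
  have hKv : vr D ρ 1 ≤ K := (le_max_right _ _).trans (le_max_right _ _)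
  have hy0 : 0 < y := by linarith
  have hL : 0 < Lam ρ y := Lam_pos hρ hy0
  have hnR : (1 : ℝ) ≤ n := by exact_mod_cast hn
  set u : ℝ := n * Lam ρ y with hu
  have hu0 : 0 < u := by positivity
  have hvx := one_le_vr hD hρ x
  have hvy := one_le_vr hD hρ y
  set q : ℝ := vr D ρ x / vr D ρ y with hq
  have hq0 : 0 < q := by rw [hq]; positivity
  have hw0 : 0 < u ^ (-(1 / p)) := Real.rpow_pos_of_pos hu0 _
  by_cases hu1 : 1 ≤ u
  · refine (hs1 n y hn hy hu1 x hx).trans ?_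
    refine mul_le_mul_of_nonneg_right ?_ hq0.le
    nlinarith
  · push Not at hu1
    set w : ℝ := u ^ (-(1 / p)) with hw
    have hw1 : 1 ≤ w := Real.one_le_rpow_of_pos_of_le_one_of_nonpos hu0 hu1.le
      (by have : 0 < 1 / p := by positivity
          linarith)
    have hwp : w ^ (-p) = u := by
      rw [hw, ← Real.rpow_mul hu0.le]
      have : -(1 / p) * -p = 1 := by field_simp
      rw [this, Real.rpow_one]
    by_cases hy' : 1 ≤ y / w
    · have e1 := hall (y / w) hy' w hw1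
      rw [mul_div_cancel₀ _ (by linarith : w ≠ 0), hwp] at e1
      have e2 : 1 / K₁ ≤ n * Lam ρ (y / w) := by
        rw [div_le_iff₀ (by linarith)]
        have e3 : (n : ℝ) * Lam ρ y ≤ n * (K₁ * u * Lam ρ (y / w)) :=
          mul_le_mul_of_nonneg_left e1 (by linarith)
        rw [← hu] at e3
        have e4 : u * 1 ≤ u * (n * Lam ρ (y / w) * K₁) := by
          calc u * 1 = u := mul_one u
            _ ≤ n * (K₁ * u * Lam ρ (y / w)) := e3
            _ = _ := by ring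
        exact le_of_mul_le_mul_left e4 hu0
      refine (hs2 n (y / w) hn hy' e2 x hx).trans ?_
      have e5 := vr_ratio hD hρ (y := y / w) (z := y) (by linarith) (div_le_self hy0.le hw1)
      have e6 : y / (y / w) = w := by
        have : w ≠ 0 := by linarith
        field_simp
      rw [e6] at e5
      have hva := one_le_vr hD hρ (y / w)
      have hrat : vr D ρ x / vr D ρ (y / w) ≤ (1 + w) * q := by
        rw [hq, ← mul_div_assoc, div_le_div_iff₀ (by linarith) (by linarith)]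
        nlinarith
      calc S₂ * (vr D ρ x / vr D ρ (y / w)) ≤ S₂ * ((1 + w) * q) :=
            mul_le_mul_of_nonneg_left hrat (by linarith)
        _ ≤ K * ((1 + w) * q) := mul_le_mul_of_nonneg_right hKS2 (by positivity)
        _ = _ := by ring
    · push Not at hy'
      have e1 : y < w := by
        rwa [div_lt_one (by linarith)] at hy'
      have e2 := vr_ratio hD hρ (y := 1) (z := y) one_pos hy
      rw [div_one] at e2
      have e3 : vr D ρ y ≤ K * (1 + w) := by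
        refine e2.trans ?_
        rw [mul_comm]
        exact mul_le_mul hKv (by linarith) (by linarith) (by linarith)
      refine (al_le_one (D := D) (ρ := ρ) n x).trans ?_
      rw [hq, ← mul_div_assoc, le_div_iff₀ (by linarith), one_mul]
      have e4 : 0 ≤ K * (1 + w) := by positivity
      nlinarith

/-- PROOF. Sum `Reg.surv_all` over `1 ≤ k < n`: `∑_{1≤k<n} k^{-1/p} ≤ n^{1-1/p} p/(p-1)` (compare with
`∫ t^{-1/p}`), so `∑_{1≤k<n} (k Lam y)^{-1/p} ≤ (p/(p-1)) n (n Lam y)^{-1/p} ≤ (p/(p-1)) c^{-1/p} n`. The term `k = 0`: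
`1 ≤ K' n vr x/vr y` because `vr y ≤ (1 + y) vr 1 ≤ 2 y vr 1`, `y ≤ K₂/Lam y ≤ K₂ n/c` (`Reg.mul_le`). -/
theorem Reg.surv_sum (hD : Dom D) (h : Reg ρ p C x₀) : ∀ c : ℝ, 0 < c → ∃ K : ℝ, 1 ≤ K ∧
    ∀ (n : ℕ) (y x : ℝ), 1 ≤ n → 1 ≤ y → c ≤ n * Lam ρ y → 0 ≤ x →
      ∑ k ∈ Finset.range n, al D ρ k x ≤ K * (n * (vr D ρ x / vr D ρ y)) := by
  intro c hc
  have hρ := h.cen
  have hprob := hρ.prob
  have hp1 := h.p1
  have hp0 : 0 < p := by linarith
  obtain ⟨K₀, hK₀, hsv⟩ := Reg.surv_all hD h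
  obtain ⟨K₂, hK₂, hml⟩ := h.mul_le
  have hv1 := one_le_vr hD hρ 1
  set P : ℝ := p / (p - 1) with hP
  have hP0 : 0 < P := by rw [hP]; exact div_pos hp0 (by linarith)
  have hcp : 0 < c ^ (-(1 / p)) := Real.rpow_pos_of_pos hc _
  set T : ℝ := 2 * (K₂ / c) * vr D ρ 1 with hT
  have hT0 : 0 < T := by positivity
  refine ⟨T + K₀ * (1 + P * c ^ (-(1 / p))), ?_, ?_⟩
  · have : 1 ≤ K₀ * (1 + P * c ^ (-(1 / p))) := by
      have : 0 < P * c ^ (-(1 / p)) := by positivity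
      nlinarith
    linarith
  intro n y x hn hy hcn hx
  have hy0 : 0 < y := by linarith
  have hL : 0 < Lam ρ y := Lam_pos hρ hy0
  have hnR : (1 : ℝ) ≤ n := by exact_mod_cast hn
  have hvx := one_le_vr hD hρ x
  have hvy := one_le_vr hD hρ y
  set q : ℝ := vr D ρ x / vr D ρ y with hq
  have hq0 : 0 < q := by rw [hq]; positivity
  -- the term `k = 0`
  have h0 : al D ρ 0 x ≤ T * (n * q) := by
    rw [al_zero]
    have e1 := vr_ratio hD hρ (y := 1) (z := y) one_pos hy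
    rw [div_one] at e1
    have e2 : vr D ρ y ≤ 2 * y * vr D ρ 1 :=
      e1.trans (mul_le_mul_of_nonneg_right (by linarith) (by linarith))
    have e3 : y ≤ K₂ / c * n := by
      have e4 := hml y hy
      rw [div_mul_eq_mul_div, le_div_iff₀ hc]
      have e5 : y * c ≤ y * (n * Lam ρ y) := mul_le_mul_of_nonneg_left hcn hy0.le
      have e6 : y * (n * Lam ρ y) = n * (y * Lam ρ y) := by ring
      rw [e6] at e5
      have e7 : (n : ℝ) * (y * Lam ρ y) ≤ n * K₂ := mul_le_mul_of_nonneg_left e4 (by linarith)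
      linarith
    have e4 : vr D ρ y ≤ T * n := by
      refine e2.trans ?_
      rw [hT]
      have : 2 * y * vr D ρ 1 ≤ 2 * (K₂ / c * n) * vr D ρ 1 :=
        mul_le_mul_of_nonneg_right (by linarith) (by linarith)
      refine this.trans (le_of_eq ?_)
      ring
    rw [hq, ← mul_assoc, ← mul_div_assoc, le_div_iff₀ (by linarith), one_mul]
    have e5 : 0 ≤ T * n := by positivity
    nlinarith
  -- the other terms
  have hk : ∀ k ∈ Finset.Ico 1 n, al D ρ k x ≤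
      K₀ * q + K₀ * q * ((Lam ρ y) ^ (-(1 / p)) * (k : ℝ) ^ (-(1 / p))) := by
    intro k hk
    rw [Finset.mem_Ico] at hk
    refine (hsv k y x hk.1 hy hx).trans (le_of_eq ?_)
    rw [Real.mul_rpow (by positivity) hL.le, ← hq]
    ring
  have hsumk : ∑ k ∈ Finset.Ico 1 n, (k : ℝ) ^ (-(1 / p)) ≤ P * (n : ℝ) ^ (1 - 1 / p) :=
    A11_sum hp1 n
  have hsum1 : ∑ k ∈ Finset.Ico 1 n, al D ρ k x ≤ K₀ * (1 + P * c ^ (-(1 / p))) * (n * q) := by
    refine (Finset.sum_le_sum hk).trans ?_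
    have hsx : ∑ k ∈ Finset.Ico 1 n,
        (K₀ * q + K₀ * q * ((Lam ρ y) ^ (-(1 / p)) * (k : ℝ) ^ (-(1 / p)))) =
        ((n - 1 : ℕ) : ℝ) * (K₀ * q) + K₀ * q *
          (Lam ρ y ^ (-(1 / p)) * ∑ k ∈ Finset.Ico 1 n, (k : ℝ) ^ (-(1 / p))) := by
      rw [Finset.sum_add_distrib, Finset.sum_const, Nat.card_Ico, nsmul_eq_mul,
        ← Finset.mul_sum, ← Finset.mul_sum]
    rw [hsx]
    have hcast : ((n - 1 : ℕ) : ℝ) ≤ n := by exact_mod_cast Nat.sub_le n 1
    have e1 : ((n - 1 : ℕ) : ℝ) * (K₀ * q) ≤ n * (K₀ * q) :=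
      mul_le_mul_of_nonneg_right hcast (by positivity)
    have hLp : 0 < Lam ρ y ^ (-(1 / p)) := Real.rpow_pos_of_pos hL _
    have e2 : Lam ρ y ^ (-(1 / p)) * ∑ k ∈ Finset.Ico 1 n, (k : ℝ) ^ (-(1 / p)) ≤
        P * c ^ (-(1 / p)) * n := by
      have e3 : (n : ℝ) ^ (1 - 1 / p) = n * (n : ℝ) ^ (-(1 / p)) := by
        rw [sub_eq_add_neg, Real.rpow_add (by linarith), Real.rpow_one]
      have e4 : Lam ρ y ^ (-(1 / p)) * (P * (n : ℝ) ^ (1 - 1 / p)) =
          P * n * (n * Lam ρ y) ^ (-(1 / p)) := by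
        rw [e3, Real.mul_rpow (by positivity) hL.le]
        ring
      have e5 : ((n : ℝ) * Lam ρ y) ^ (-(1 / p)) ≤ c ^ (-(1 / p)) :=
        Real.rpow_le_rpow_of_nonpos hc hcn (by
          have : 0 < 1 / p := by positivity
          linarith)
      calc _ ≤ Lam ρ y ^ (-(1 / p)) * (P * (n : ℝ) ^ (1 - 1 / p)) :=
            mul_le_mul_of_nonneg_left hsumk hLp.le
        _ = P * n * (n * Lam ρ y) ^ (-(1 / p)) := e4
        _ ≤ P * n * c ^ (-(1 / p)) := mul_le_mul_of_nonneg_left e5 (by positivity)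
        _ = _ := by ring
    have e6 : K₀ * q * (Lam ρ y ^ (-(1 / p)) * ∑ k ∈ Finset.Ico 1 n, (k : ℝ) ^ (-(1 / p))) ≤
        K₀ * q * (P * c ^ (-(1 / p)) * n) := mul_le_mul_of_nonneg_left e2 (by positivity)
    calc _ ≤ n * (K₀ * q) + K₀ * q * (P * c ^ (-(1 / p)) * n) := add_le_add e1 e6
      _ = _ := by ring
  have hsplit : ∑ k ∈ Finset.range n, al D ρ k x =
      al D ρ 0 x + ∑ k ∈ Finset.Ico 1 n, al D ρ k x := by
    rw [Finset.range_eq_Ico, Finset.sum_eq_sum_Ico_succ_bot (by omega)]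
  rw [hsplit]
  calc _ ≤ T * (n * q) + K₀ * (1 + P * c ^ (-(1 / p))) * (n * q) := add_le_add h0 hsum1
    _ = _ := by ring

end Pool.Agent.BPT
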