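import Pool.Agent.MP_99a865_pr.ST.A11

/-!
# [STB-A12] Upper bound for `Lam · vr · vd`
-/

open MeasureTheory ProbabilityTheory Filter Topology
open scoped ENNReal NNReal

namespace Pool.Agent.BPT

variable {D : Set ℝ} {ρ : Measure ℝ} {p C x₀ : ℝ}

/-- **[STB-A12]** PROOF. Let `L = Lam y ∈ (0,1]`, `n = ⌈1/L⌉₊ ≥ 1`, so `1 ≤ n L ≤ 2`. By `arcsine_real`
`1 = ∑_{k ≤ n} al* k 0 · al (n-k) 0` (`al*` for `Dst D`, `dual ρ`). For `2k ≤ n`: `n - k ≥ 1`, `(n-k) L ≥ 1/2` and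
`al (n-k) 0 ≤ K₁ vr 0/vr y` (`Reg.surv`, `c = 1/2`), while `∑_{k ≤ n} al* k 0 ≤ K₂ (n+1) vd 0/vd y` (`Reg.surv_sum` for the
dual walk: `Reg.rev`, `dom_Dst`, `Lam_dual`, `c = 1`). For `2k > n`, `al* k 0 ≤ K₁' vd 0/vd y` and
`∑ al (n-k) 0 ≤ K₂' (n+1) vr 0/vr y`. So `1 ≤ K' (n+1)/(vr y vd y)`, and `(n+1) L ≤ 3`. -/
theorem Reg.prod_le (hD : Dom D) (h : Reg ρ p C x₀) : ∃ K : ℝ, 1 ≤ K ∧ ∀ y : ℝ, 1 ≤ y →
    Lam ρ y * vr D ρ y * vd D ρ y ≤ K := by
  have hρ := h.cen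
  have hprob := hρ.prob
  obtain ⟨K₁, hK₁, hs⟩ := Reg.surv hD h (1 / 2) (by norm_num)
  obtain ⟨K₁', hK₁', hs'⟩ := Reg.surv (dom_Dst hD) h.rev (1 / 2) (by norm_num)
  obtain ⟨K₂, hK₂, hm⟩ := Reg.surv_sum hD h 1 one_pos
  obtain ⟨K₂', hK₂', hm'⟩ := Reg.surv_sum (dom_Dst hD) h.rev 1 one_pos
  have hv0 := one_le_vr hD hρ 0
  have hd0 := one_le_vd hD hρ 0
  set Q : ℝ := (K₁ * K₂' + K₁' * K₂) * (vr D ρ 0 * vd D ρ 0) with hQ
  have hQ1 : 1 ≤ Q := by
    have e1 : 1 ≤ K₁ * K₂' := one_le_mul_of_one_le_of_one_le hK₁ hK₂'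
    have e2 : 1 ≤ K₁' * K₂ := one_le_mul_of_one_le_of_one_le hK₁' hK₂
    have e3 : 1 ≤ vr D ρ 0 * vd D ρ 0 := one_le_mul_of_one_le_of_one_le hv0 hd0
    rw [hQ]
    exact one_le_mul_of_one_le_of_one_le (by linarith) e3
  refine ⟨3 * Q, by linarith, fun y hy => ?_⟩
  have hL0 : 0 < Lam ρ y := Lam_pos hρ (by linarith)
  have hL1 : Lam ρ y ≤ 1 := Lam_le_one y
  have hvy := one_le_vr hD hρ y
  have hdy := one_le_vd hD hρ y
  set L : ℝ := Lam ρ y with hL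
  set n : ℕ := ⌈1 / L⌉₊ with hn
  have hnL1 : 1 ≤ n * L := by
    have := Nat.le_ceil (1 / L)
    rw [div_le_iff₀ hL0] at this
    exact this
  have hnL2 : n * L ≤ 2 := by
    have := (Nat.ceil_lt_add_one (a := 1 / L) (by positivity)).le
    have e1 : (n : ℝ) * L ≤ (1 / L + 1) * L := mul_le_mul_of_nonneg_right this hL0.le
    have e2 : (1 / L + 1) * L = 1 + L := by field_simp
    linarith
  have harc := arcsine_real (ρ := ρ) hD n
  -- the sums
  have hn1 : (1 : ℝ) ≤ ((n + 1 : ℕ) : ℝ) * L := by push_cast; linarith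
  have hsum := hm (n + 1) y 0 (by omega) hy hn1 le_rfl
  have hsum' := hm' (n + 1) y 0 (by omega) hy (by rw [Lam_dual]; exact hn1) le_rfl
  change ∑ k ∈ Finset.range (n + 1), al (Dst D) (dual ρ) k 0 ≤
    K₂' * (((n + 1 : ℕ) : ℝ) * (vd D ρ 0 / vd D ρ y)) at hsum'
  set a : ℝ := vr D ρ 0 / vr D ρ y with ha
  set b : ℝ := vd D ρ 0 / vd D ρ y with hb
  have ha0 : 0 < a := by rw [ha]; positivity
  have hb0 : 0 < b := by rw [hb]; positivity
  have hterm : ∀ k ∈ Finset.range (n + 1), al (Dst D) (dual ρ) k 0 * al D ρ (n - k) 0 ≤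
      K₁ * a * al (Dst D) (dual ρ) k 0 + K₁' * b * al D ρ (n - k) 0 := by
    intro k hk
    have hkn : k ≤ n := by
      rw [Finset.mem_range] at hk
      omega
    have n1 : 0 ≤ al (Dst D) (dual ρ) k 0 := al_nonneg _ _ _ _
    have n2 : 0 ≤ al D ρ (n - k) 0 := al_nonneg _ _ _ _
    have hn0 : 1 ≤ n := by
      have : (0 : ℝ) < n := by
        by_contra hh
        push Not at hh
        nlinarith
      exact_mod_cast this
    rcases le_or_gt (2 * k) n with h2 | h2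
    · have hnk : 1 ≤ n - k := by omega
      have hc : (1 : ℝ) / 2 ≤ ((n - k : ℕ) : ℝ) * Lam ρ y := by
        have e1 : n ≤ 2 * (n - k) := by omega
        have e2 : (n : ℝ) ≤ 2 * ((n - k : ℕ) : ℝ) := by exact_mod_cast e1
        rw [← hL]
        nlinarith
      have e3 := hs (n - k) y hnk hy hc 0 le_rfl
      rw [← ha] at e3
      have e4 : al (Dst D) (dual ρ) k 0 * al D ρ (n - k) 0 ≤
          al (Dst D) (dual ρ) k 0 * (K₁ * a) := mul_le_mul_of_nonneg_left e3 n1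
      have e5 : 0 ≤ K₁' * b * al D ρ (n - k) 0 := by positivity
      linarith
    · have hk1 : 1 ≤ k := by omega
      have hc : (1 : ℝ) / 2 ≤ (k : ℝ) * Lam (dual ρ) y := by
        have e1 : n ≤ 2 * k := by omega
        have e2 : (n : ℝ) ≤ 2 * (k : ℝ) := by exact_mod_cast e1
        rw [Lam_dual, ← hL]
        nlinarith
      have e3 : al (Dst D) (dual ρ) k 0 ≤ K₁' * b := hs' k y hk1 hy hc 0 le_rfl
      have e4 : al (Dst D) (dual ρ) k 0 * al D ρ (n - k) 0 ≤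
          K₁' * b * al D ρ (n - k) 0 := mul_le_mul_of_nonneg_right e3 n2
      have e5 : 0 ≤ K₁ * a * al (Dst D) (dual ρ) k 0 := by positivity
      linarith
  have hrefl : ∑ k ∈ Finset.range (n + 1), al D ρ (n - k) 0 =
      ∑ k ∈ Finset.range (n + 1), al D ρ k 0 := by
    have := Finset.sum_range_reflect (fun k => al D ρ k 0) (n + 1)
    rw [← this]
    refine Finset.sum_congr rfl fun k _ => ?_
    congr 1
  have htot : 1 ≤ K₁ * a * (K₂' * (((n + 1 : ℕ) : ℝ) * b)) +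
      K₁' * b * (K₂ * (((n + 1 : ℕ) : ℝ) * a)) := by
    rw [← harc]
    refine (Finset.sum_le_sum hterm).trans ?_
    rw [Finset.sum_add_distrib, ← Finset.mul_sum, ← Finset.mul_sum, hrefl]
    exact add_le_add (mul_le_mul_of_nonneg_left hsum' (by positivity))
      (mul_le_mul_of_nonneg_left hsum (by positivity))
  have h1 : 1 ≤ Q * ((n + 1 : ℕ) : ℝ) / (vr D ρ y * vd D ρ y) := by
    refine htot.trans (le_of_eq ?_)
    rw [ha, hb, hQ]
    field_simp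
  have hvd0 : 0 < vr D ρ y * vd D ρ y := by positivity
  rw [le_div_iff₀ hvd0, one_mul] at h1
  have h2 : L * (vr D ρ y * vd D ρ y) ≤ L * (Q * ((n + 1 : ℕ) : ℝ)) :=
    mul_le_mul_of_nonneg_left h1 hL0.le
  have h3 : L * (Q * ((n + 1 : ℕ) : ℝ)) = Q * (n * L + L) := by
    push_cast
    ring
  have h4 : Q * (n * L + L) ≤ Q * 3 := mul_le_mul_of_nonneg_left (by linarith) (by linarith)
  calc L * vr D ρ y * vd D ρ y = L * (vr D ρ y * vd D ρ y) := by ring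
    _ ≤ Q * 3 := by linarith
    _ = 3 * Q := by ring

end Pool.Agent.BPT
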