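import Pool.Agent.MP_99a865_pr.ST.A9
import Pool.Agent.MP_99a865_pr.ST.A12
import Pool.Agent.MP_99a865_pr.CV.K4

/-!
# [STB-A13] Uniform integrability of the renewal function along the killed walk
-/

open MeasureTheory ProbabilityTheory Filter Topology
open scoped ENNReal NNReal

namespace Pool.Agent.BPT

variable {D : Set ℝ} {ρ : Measure ℝ} {p C x₀ : ℝ}

/-- **[STB-A13]** PROOF. Let `g_l(s) = ∫⁻ z in Ioi (R y), VV z ∂(kap l s)`, `B` the constant of `Reg.over`, `K₁` that of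
`Reg.all`.
(1) For `l ≤ n`, `0 ≤ s ≤ R y/2`: `g_l(s) ≤ b vr y`, `b = B K₁ R^{1-p} (n Lam y)` (`kap_le_fre`, `Reg.over` with `a = R y`,
`Lam (R y) ≤ K₁ R^{-p} Lam y`).
(2) For `0 ≤ u ≤ y`: `∫⁻ z in Ioi (R y/2), VV z ∂(kap 1 u) ≤ j₀`, `j₀ = 2 B K₁ R^{1-p} Lam y vr y` (`Reg.over` with `l = 1`,
`a = R y/2 ≥ 2 y`, `(R/2)^{1-p} ≤ 2 R^{1-p}`).
(3) Claim: for `l ≤ n`, `0 ≤ s ≤ R y/2`: `g_l(s) ≤ b VV s + j₀ ∑_{k<l} kap k s (Iic y)`. `l = 0`: `g_0(s) = 0`. Step: if
`s > y`, (1) and `vr y ≤ vr s`. If `s ≤ y`: `g_{l+1}(s) = ∫⁻ g_l(s') ∂(kap 1 s)` (`lintegral_kap_add`). Over `s' ≤ R y/2` use the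
induction hypothesis: `≤ b VV s` (`harm_one`) `+ j₀ ∑_{k<l} kap (k+1) s (Iic y)` (`kap_add_apply`). Over `s' > R y/2`:
`g_l(s') ≤ VV s'` (`harm`), so `≤ j₀ = j₀ kap 0 s (Iic y)` by (2).
(4) For `x ≤ y`: `∑_k kap k x (Iic y) ≤ VV x · GG y ≤ VV x · VV* (y+1)` (`green_le`, `GG_le`), `vd (y+1) ≤ 3 vd y`
(`vd_ratio`), and `Lam y vr y vd y ≤ K₃` (`Reg.prod_le`): `g_n(x) ≤ (b + 6 B K₁ K₃ R^{1-p}) VV x`. -/
theorem Reg.ui (hD : Dom D) (h : Reg ρ p C x₀) : ∃ K : ℝ, 1 ≤ K ∧ ∀ (n : ℕ) (y R x : ℝ), 1 ≤ y → 4 ≤ R →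
    0 ≤ x → x ≤ y →
    ∫⁻ z in Set.Ioi (R * y), VV D ρ z ∂(kap D ρ n x) ≤
      ENNReal.ofReal (K * R ^ (1 - p) * (1 + n * Lam ρ y) * vr D ρ x) := by
  have hρ := h.cen
  have hprob := hρ.prob
  have hp1 := h.p1
  have hp2 := h.p2
  obtain ⟨K₁, hK₁, hall⟩ := h.all
  obtain ⟨B, hB, hover⟩ := Reg.over hD h
  obtain ⟨K₃, hK₃, hprod⟩ := Reg.prod_le hD h
  have hBK : 1 ≤ B * K₁ := one_le_mul_of_one_le_of_one_le hB hK₁
  refine ⟨6 * (B * K₁) * K₃, ?_, ?_⟩
  · have : 1 ≤ B * K₁ * K₃ := one_le_mul_of_one_le_of_one_le hBK hK₃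
    nlinarith
  intro n y R x hy hR hx0 hxy
  have hy0 : 0 < y := by linarith
  have hR0 : 0 < R := by linarith
  have hRy : 4 * y ≤ R * y := mul_le_mul_of_nonneg_right hR hy0.le
  have hL : 0 < Lam ρ y := Lam_pos hρ hy0
  set L : ℝ := Lam ρ y with hLdef
  have hvy := one_le_vr hD hρ y
  have hRp : 0 < R ^ (1 - p) := Real.rpow_pos_of_pos hR0 _
  have hRR : R * R ^ (-p) = R ^ (1 - p) := by
    rw [sub_eq_add_neg, Real.rpow_add hR0, Real.rpow_one]
  set b : ℝ := B * K₁ * R ^ (1 - p) * (n * L) with hb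
  set j : ℝ := 2 * (B * K₁) * R ^ (1 - p) * L * vr D ρ y with hj
  have hb0 : 0 ≤ b := by positivity
  have hj0 : 0 ≤ j := by positivity
  have hmV := measurable_VV hD hρ
  have hkap : ∀ (l : ℕ) (a s : ℝ), y ≤ a → 2 ≤ a → 0 ≤ s → s ≤ a / 2 →
      ∫⁻ z in Set.Ioi a, VV D ρ z ∂(kap D ρ l s) ≤
        ENNReal.ofReal (B * (a / y) * (l * Lam ρ a) * vr D ρ y) := by
    intro l a s h1 h2 h3 h4
    exact (lintegral_mono' (Measure.restrict_mono le_rfl (kap_le_fre hD l s)) le_rfl).trans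
      (hover l y a s hy h1 h2 h3 h4)
  -- (1)
  have h1 : ∀ l : ℕ, l ≤ n → ∀ s, 0 ≤ s → s ≤ R * y / 2 →
      ∫⁻ z in Set.Ioi (R * y), VV D ρ z ∂(kap D ρ l s) ≤ ENNReal.ofReal (b * vr D ρ y) := by
    intro l hl s hs0 hs
    refine (hkap l (R * y) s (by linarith) (by linarith) hs0 hs).trans ?_
    apply ENNReal.ofReal_le_ofReal
    refine mul_le_mul_of_nonneg_right ?_ (by linarith)
    have e1 : R * y / y = R := by field_simp
    rw [e1]
    have e2 := hall y hy R (by linarith)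
    have e3 : (l : ℝ) ≤ n := by exact_mod_cast hl
    have e4 : 0 ≤ Lam ρ (R * y) := Lam_nonneg _ _
    have e5 : (l : ℝ) * Lam ρ (R * y) ≤ n * (K₁ * R ^ (-p) * L) :=
      mul_le_mul e3 e2 e4 (by positivity)
    calc B * R * (l * Lam ρ (R * y)) ≤ B * R * (n * (K₁ * R ^ (-p) * L)) :=
          mul_le_mul_of_nonneg_left e5 (by positivity)
      _ = B * K₁ * (R * R ^ (-p)) * (n * L) := by ring
      _ = b := by rw [hRR]
  -- (2)
  have h2 : ∀ u, 0 ≤ u → u ≤ y →
      ∫⁻ z in Set.Ioi (R * y / 2), VV D ρ z ∂(kap D ρ 1 u) ≤ ENNReal.ofReal j := by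
    intro u hu0 hu
    refine (hkap 1 (R * y / 2) u (by linarith) (by linarith) hu0 (by linarith)).trans ?_
    apply ENNReal.ofReal_le_ofReal
    rw [hj]
    refine mul_le_mul_of_nonneg_right ?_ (by linarith)
    have e1 : R * y / 2 / y = R / 2 := by field_simp
    have e2 : R * y / 2 = R / 2 * y := by ring
    have hR2 : 0 < R / 2 := by linarith
    rw [e1, e2, Nat.cast_one, one_mul]
    have e3 := hall y hy (R / 2) (by linarith)
    have e4 : R / 2 * (R / 2) ^ (-p) = (R / 2) ^ (1 - p) := by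
      rw [sub_eq_add_neg, Real.rpow_add hR2, Real.rpow_one]
    have e5 : (R / 2) ^ (1 - p) ≤ 2 * R ^ (1 - p) := by
      rw [Real.div_rpow hR0.le (by norm_num), div_le_iff₀ (Real.rpow_pos_of_pos (by norm_num) _)]
      have e6 : (2 : ℝ) ^ (-1 : ℝ) ≤ (2 : ℝ) ^ (1 - p) :=
        Real.rpow_le_rpow_of_exponent_le (by norm_num) (by linarith)
      rw [Real.rpow_neg_one] at e6
      nlinarith
    calc B * (R / 2) * Lam ρ (R / 2 * y) ≤ B * (R / 2) * (K₁ * (R / 2) ^ (-p) * L) :=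
          mul_le_mul_of_nonneg_left e3 (by positivity)
      _ = B * K₁ * (R / 2 * (R / 2) ^ (-p)) * L := by ring
      _ = B * K₁ * (R / 2) ^ (1 - p) * L := by rw [e4]
      _ ≤ B * K₁ * (2 * R ^ (1 - p)) * L :=
          mul_le_mul_of_nonneg_right (mul_le_mul_of_nonneg_left e5 (by positivity)) hL.le
      _ = _ := by ring
  -- (3)
  have hVy : ENNReal.ofReal (vr D ρ y) = VV D ρ y := (VV_eq hD hρ y).symm
  have hVmono : ∀ s, y ≤ s → ENNReal.ofReal (vr D ρ y) ≤ VV D ρ s := by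
    intro s hs
    rw [VV_eq hD hρ s]
    exact ENNReal.ofReal_le_ofReal (vr_mono hD hρ hs)
  have hmk : ∀ k : ℕ, Measurable fun s => kap D ρ k s (Set.Iic y) := fun k =>
    (Measure.measurable_coe measurableSet_Iic).comp (measurable_kap hD k)
  have h3 : ∀ l : ℕ, l ≤ n → ∀ s, 0 ≤ s → s ≤ R * y / 2 →
      ∫⁻ z in Set.Ioi (R * y), VV D ρ z ∂(kap D ρ l s) ≤
        ENNReal.ofReal b * VV D ρ s +
          ENNReal.ofReal j * ∑ k ∈ Finset.range l, kap D ρ k s (Set.Iic y) := by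
    intro l
    induction l with
    | zero =>
      intro _ s hs0 hs
      have : ∫⁻ z in Set.Ioi (R * y), VV D ρ z ∂(kap D ρ 0 s) = 0 := by
        rw [kap_zero, ← lintegral_indicator measurableSet_Ioi, lintegral_dirac,
          Set.indicator_of_notMem]
        simp only [Set.mem_Ioi, not_lt]
        have : 0 < R * y := by positivity
        linarith
      rw [this]
      exact bot_le
    | succ l ih =>
      intro hl s hs0 hs
      rcases lt_or_ge y s with hys | hsy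
      · refine (h1 (l + 1) hl s hs0 hs).trans ?_
        rw [ENNReal.ofReal_mul hb0]
        exact le_add_right (mul_le_mul_right (hVmono s hys.le) _)
      · have hstep : ∫⁻ z in Set.Ioi (R * y), VV D ρ z ∂(kap D ρ (l + 1) s) =
            ∫⁻ s', ∫⁻ z in Set.Ioi (R * y), VV D ρ z ∂(kap D ρ l s') ∂(kap D ρ 1 s) := by
          have e := lintegral_kap_add hD (ρ := ρ) 1 l s
            ((Set.Ioi (R * y)).indicator (VV D ρ)) (hmV.indicator measurableSet_Ioi)
          simp only [lintegral_indicator measurableSet_Ioi] at e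
          rw [add_comm l 1]
          exact e
        rw [hstep, ← lintegral_add_compl _ (measurableSet_Iic (a := R * y / 2)), Set.compl_Iic]
        have hnn := kap_ae_nonneg hD (ρ := ρ) 1 hs0
        -- below
        have hlow : ∫⁻ s' in Set.Iic (R * y / 2),
            ∫⁻ z in Set.Ioi (R * y), VV D ρ z ∂(kap D ρ l s') ∂(kap D ρ 1 s) ≤
            ENNReal.ofReal b * VV D ρ s + ENNReal.ofReal j *
              ∑ k ∈ Finset.range l, kap D ρ (k + 1) s (Set.Iic y) := by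
          have e1 : ∫⁻ s' in Set.Iic (R * y / 2),
              ∫⁻ z in Set.Ioi (R * y), VV D ρ z ∂(kap D ρ l s') ∂(kap D ρ 1 s) ≤
              ∫⁻ s', (ENNReal.ofReal b * VV D ρ s' +
                ENNReal.ofReal j * ∑ k ∈ Finset.range l, kap D ρ k s' (Set.Iic y))
                ∂(kap D ρ 1 s) := by
            refine le_trans (lintegral_mono_ae (g := fun s' => ENNReal.ofReal b * VV D ρ s' +
              ENNReal.ofReal j * ∑ k ∈ Finset.range l, kap D ρ k s' (Set.Iic y)) ?_)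
              (setLIntegral_le_lintegral _ _)
            filter_upwards [ae_restrict_mem measurableSet_Iic, ae_restrict_of_ae hnn] with s' h1' h2'
            exact ih (by omega) s' h2' h1'
          refine e1.trans ?_
          rw [lintegral_add_left (hmV.const_mul _), lintegral_const_mul _ hmV,
            lintegral_const_mul _ (Finset.measurable_sum _ fun k _ => hmk k),
            harm_one hD hρ s hs0, lintegral_finsetSum _ fun k _ => hmk k]
          gcongr with k hk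
          rw [add_comm k 1, kap_add_apply hD 1 k s _ measurableSet_Iic]
        -- above
        have hup : ∫⁻ s' in Set.Ioi (R * y / 2),
            ∫⁻ z in Set.Ioi (R * y), VV D ρ z ∂(kap D ρ l s') ∂(kap D ρ 1 s) ≤
            ENNReal.ofReal j := by
          refine le_trans (setLIntegral_mono' measurableSet_Ioi ?_) (h2 s hs0 hsy)
          intro s' hs'
          have hs'0 : 0 ≤ s' := by
            have : R * y / 2 < s' := hs'
            have : 0 < R * y := by positivity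
            linarith
          exact (setLIntegral_le_lintegral _ _).trans (harm hD hρ l s' hs'0).le
        have hk0 : kap D ρ 0 s (Set.Iic y) = 1 := by
          rw [kap_zero, Measure.dirac_apply' _ measurableSet_Iic]
          simp [hsy]
        rw [Finset.sum_range_succ' (fun k => kap D ρ k s (Set.Iic y)) l, hk0, mul_add, mul_one,
          ← add_assoc]
        exact add_le_add hlow hup
  -- (4)
  have hxR : x ≤ R * y / 2 := by linarith
  refine (h3 n le_rfl x hx0 hxR).trans ?_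
  have hgreen : ∑ k ∈ Finset.range n, kap D ρ k x (Set.Iic y) ≤
      VV D ρ x * ENNReal.ofReal (3 * vd D ρ y) := by
    refine (ENNReal.sum_le_tsum _).trans ((green_le hD x hx0 y).trans ?_)
    refine mul_le_mul_right ((GG_le hD y hy0.le).trans ?_) _
    rw [VV_eq (dom_Dst hD) h.rev.cen]
    apply ENNReal.ofReal_le_ofReal
    have e1 := vd_ratio hD hρ (y := y) (z := y + 1) hy0 (by linarith)
    have e2 : (1 + (y + 1) / y) ≤ 3 := by
      have : (y + 1) / y ≤ 2 := by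
        rw [div_le_iff₀ hy0]
        linarith
      linarith
    exact e1.trans (mul_le_mul_of_nonneg_right e2 (by linarith [one_le_vd hD hρ y]))
  have hjd : j * (3 * vd D ρ y) ≤ 6 * (B * K₁) * K₃ * R ^ (1 - p) := by
    have e1 := hprod y hy
    have e2 : j * (3 * vd D ρ y) = 6 * (B * K₁) * R ^ (1 - p) * (L * vr D ρ y * vd D ρ y) := by
      rw [hj]
      ring
    rw [e2]
    calc _ ≤ 6 * (B * K₁) * R ^ (1 - p) * K₃ := mul_le_mul_of_nonneg_left e1 (by positivity)
      _ = _ := by ring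
  have hbK : b ≤ 6 * (B * K₁) * K₃ * R ^ (1 - p) * (n * L) := by
    rw [hb]
    have e1 : B * K₁ ≤ 6 * (B * K₁) * K₃ := by nlinarith
    exact mul_le_mul_of_nonneg_right (mul_le_mul_of_nonneg_right e1 hRp.le) (by positivity)
  calc ENNReal.ofReal b * VV D ρ x +
        ENNReal.ofReal j * ∑ k ∈ Finset.range n, kap D ρ k x (Set.Iic y)
      ≤ ENNReal.ofReal b * VV D ρ x +
        ENNReal.ofReal j * (VV D ρ x * ENNReal.ofReal (3 * vd D ρ y)) := by gcongr
    _ = ENNReal.ofReal (b + j * (3 * vd D ρ y)) * VV D ρ x := by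
        have hd0 : 0 ≤ 3 * vd D ρ y := by linarith [one_le_vd hD hρ y]
        rw [ENNReal.ofReal_add hb0 (mul_nonneg hj0 hd0), ENNReal.ofReal_mul hj0]
        ring
    _ ≤ ENNReal.ofReal (6 * (B * K₁) * K₃ * R ^ (1 - p) * (1 + n * L)) * VV D ρ x := by
        gcongr
        linarith
    _ = ENNReal.ofReal (6 * (B * K₁) * K₃ * R ^ (1 - p) * (1 + n * L) * vr D ρ x) := by
        rw [VV_eq hD hρ x, ← ENNReal.ofReal_mul (by positivity)]

/-- PROOF. Markov's inequality from `Reg.ui`: `vr (R y) P_x(alive, S_n > R y) ≤ …` and `vr (R y) ≥ vr y`. -/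
theorem Reg.above (hD : Dom D) (h : Reg ρ p C x₀) : ∃ K : ℝ, 1 ≤ K ∧ ∀ (n : ℕ) (y R x : ℝ), 1 ≤ y → 4 ≤ R →
    0 ≤ x → x ≤ y →
    (kap D ρ n x).real (Set.Ioi (R * y)) ≤
      K * R ^ (1 - p) * (1 + n * Lam ρ y) * (vr D ρ x / vr D ρ y) := by
  have hρ := h.cen
  have hprob := hρ.prob
  obtain ⟨K, hK, hui⟩ := Reg.ui hD h
  refine ⟨K, hK, fun n y R x hy hR hx hxy => ?_⟩
  have h1 := hui n y R x hy hR hx hxy
  have hy0 : 0 < y := by linarith
  have hR0 : 0 < R := by linarith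
  have hvy := one_le_vr hD hρ y
  have hvx := one_le_vr hD hρ x
  have hRy : y ≤ R * y := by nlinarith
  have hRp : 0 < R ^ (1 - p) := Real.rpow_pos_of_pos hR0 _
  have hL : 0 ≤ Lam ρ y := Lam_nonneg _ _
  have h2 : ENNReal.ofReal (vr D ρ y) * kap D ρ n x (Set.Ioi (R * y)) ≤
      ∫⁻ z in Set.Ioi (R * y), VV D ρ z ∂(kap D ρ n x) := by
    rw [← setLIntegral_const]
    refine setLIntegral_mono' measurableSet_Ioi fun z hz => ?_
    rw [VV_eq hD hρ z]
    exact ENNReal.ofReal_le_ofReal (vr_mono hD hρ (hRy.trans (le_of_lt hz)))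
  have h3 := h2.trans h1
  have hfin : kap D ρ n x (Set.Ioi (R * y)) ≠ ⊤ := measure_ne_top _ _
  have hnn : 0 ≤ K * R ^ (1 - p) * (1 + n * Lam ρ y) * vr D ρ x := by positivity
  have h4 := ENNReal.toReal_mono ENNReal.ofReal_ne_top h3
  rw [ENNReal.toReal_mul, ENNReal.toReal_ofReal (by linarith), ENNReal.toReal_ofReal hnn] at h4
  rw [← mul_div_assoc, le_div_iff₀ (by linarith)]
  change vr D ρ y * (kap D ρ n x).real (Set.Ioi (R * y)) ≤ _ at h4
  linarith

end Pool.Agent.BPT
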