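import Pool.Agent.MP_99a865_pr.ST.A13

/-!
# [STB-A14] Survival probability, lower bound; consequences
-/

open MeasureTheory ProbabilityTheory Filter Topology
open scoped ENNReal NNReal

namespace Pool.Agent.BPT

variable {D : Set ℝ} {ρ : Measure ℝ} {p C x₀ : ℝ}

/-- **[STB-A14]** PROOF. Let `x ≤ y` first. Choose `R ≥ 4` with `K R^{1-p} (1 + M) ≤ 1/2` (`K` of `Reg.ui`; `p > 1`). By
`harm`: `VV x = ∫⁻_{z ≤ R y} VV z ∂(kap n x) + ∫⁻_{z > R y} ≤ VV (R y) (kap n x) univ + VV x/2`, so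
`al n x ≥ vr x/(2 vr (R y)) ≥ vr x/(2 (1+R) vr y)`. If `x > y`: `al n x ≥ al n y ≥ 1/(2(1+R))` (`al_mono`). -/
theorem Reg.surv_ge (hD : Dom D) (h : Reg ρ p C x₀) : ∀ M : ℝ, 0 < M → ∃ c : ℝ, 0 < c ∧
    ∀ (n : ℕ) (y x : ℝ), 1 ≤ y → n * Lam ρ y ≤ M → 0 ≤ x →
      c * min 1 (vr D ρ x / vr D ρ y) ≤ al D ρ n x := by
  intro M hM
  have hρ := h.cen
  have hprob := hρ.prob
  have hp1 := h.p1
  obtain ⟨K, hK, hui⟩ := Reg.ui hD h
  set Z : ℝ := 2 * K * (1 + M) with hZ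
  have hZ0 : 0 < Z := by positivity
  set R : ℝ := max 4 (Z ^ (1 / (p - 1))) with hR
  have hR4 : 4 ≤ R := le_max_left _ _
  have hR0 : 0 < R := by linarith
  have hRZ : Z ≤ R ^ (p - 1) := by
    have hp1' : 0 < p - 1 := by linarith
    have e1 : (Z ^ (1 / (p - 1))) ^ (p - 1) = Z := by
      rw [← Real.rpow_mul hZ0.le]
      have : 1 / (p - 1) * (p - 1) = 1 := by field_simp
      rw [this, Real.rpow_one]
    calc Z = (Z ^ (1 / (p - 1))) ^ (p - 1) := e1.symm
      _ ≤ R ^ (p - 1) := Real.rpow_le_rpow (Real.rpow_nonneg hZ0.le _) (le_max_right _ _) hp1'.le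
  have hRp : K * R ^ (1 - p) * (1 + M) ≤ 1 / 2 := by
    have e1 : R ^ (1 - p) = (R ^ (p - 1))⁻¹ := by
      rw [← Real.rpow_neg hR0.le]
      congr 1
      ring
    have e2 : (R ^ (p - 1))⁻¹ ≤ Z⁻¹ := inv_anti₀ hZ0 hRZ
    rw [e1]
    have e3 : K * (R ^ (p - 1))⁻¹ * (1 + M) ≤ K * Z⁻¹ * (1 + M) := by gcongr
    refine e3.trans (le_of_eq ?_)
    rw [hZ]
    field_simp
  have hc0 : 0 < 1 / (2 * (1 + R)) := by positivity
  -- the case `x ≤ y`
  have hsmall : ∀ (n : ℕ) (y x : ℝ), 1 ≤ y → n * Lam ρ y ≤ M → 0 ≤ x → x ≤ y →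
      1 / (2 * (1 + R)) * (vr D ρ x / vr D ρ y) ≤ al D ρ n x := by
    intro n y x hy hn hx hxy
    have hy0 : 0 < y := by linarith
    have hvy := one_le_vr hD hρ y
    have hvx := one_le_vr hD hρ x
    have hRy : y ≤ R * y := by nlinarith
    have hvR := one_le_vr hD hρ (R * y)
    have h1 := harm hD hρ n x hx
    have hal0 := al_nonneg D ρ n x
    have h2 : ∫⁻ z in Set.Iic (R * y), VV D ρ z ∂(kap D ρ n x) ≤
        ENNReal.ofReal (vr D ρ (R * y) * al D ρ n x) := by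
      rw [ENNReal.ofReal_mul (by linarith), al_ofReal hD]
      calc ∫⁻ z in Set.Iic (R * y), VV D ρ z ∂(kap D ρ n x)
          ≤ ∫⁻ z in Set.Iic (R * y), ENNReal.ofReal (vr D ρ (R * y)) ∂(kap D ρ n x) := by
            refine setLIntegral_mono' measurableSet_Iic fun z hz => ?_
            rw [VV_eq hD hρ z]
            exact ENNReal.ofReal_le_ofReal (vr_mono hD hρ hz)
        _ = ENNReal.ofReal (vr D ρ (R * y)) * kap D ρ n x (Set.Iic (R * y)) := setLIntegral_const _ _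
        _ ≤ _ := by gcongr; exact Set.subset_univ _
    have h3 : ∫⁻ z in Set.Ioi (R * y), VV D ρ z ∂(kap D ρ n x) ≤
        ENNReal.ofReal (1 / 2 * vr D ρ x) := by
      refine (hui n y R x hy hR4 hx hxy).trans (ENNReal.ofReal_le_ofReal ?_)
      refine mul_le_mul_of_nonneg_right ?_ (by linarith)
      refine le_trans ?_ hRp
      have : 0 < R ^ (1 - p) := Real.rpow_pos_of_pos hR0 _
      exact mul_le_mul_of_nonneg_left (by linarith) (by positivity)
    have h4 : ENNReal.ofReal (vr D ρ x) ≤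
        ENNReal.ofReal (vr D ρ (R * y) * al D ρ n x + 1 / 2 * vr D ρ x) := by
      rw [← VV_eq hD hρ x, ← h1, ENNReal.ofReal_add (by positivity) (by positivity),
        ← lintegral_add_compl _ (measurableSet_Iic (a := R * y)), Set.compl_Iic]
      exact add_le_add h2 h3
    rw [ENNReal.ofReal_le_ofReal_iff (by positivity)] at h4
    have h5 : vr D ρ (R * y) ≤ (1 + R) * vr D ρ y := by
      have := vr_ratio hD hρ (y := y) (z := R * y) hy0 hRy
      have e : R * y / y = R := by field_simp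
      rwa [e] at this
    have h6 : vr D ρ x / 2 ≤ (1 + R) * vr D ρ y * al D ρ n x := by
      have : vr D ρ (R * y) * al D ρ n x ≤ (1 + R) * vr D ρ y * al D ρ n x :=
        mul_le_mul_of_nonneg_right h5 hal0
      linarith
    rw [div_mul_div_comm, one_mul, div_le_iff₀ (by positivity)]
    linarith
  refine ⟨1 / (2 * (1 + R)), hc0, fun n y x hy hn hx => ?_⟩
  rcases le_or_gt x y with hxy | hxy
  · exact (mul_le_mul_of_nonneg_left (min_le_right _ _) hc0.le).trans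
      (hsmall n y x hy hn hx hxy)
  · have h1 := hsmall n y y hy hn (by linarith) le_rfl
    have hvy := one_le_vr hD hρ y
    rw [div_self (by linarith), mul_one] at h1
    calc 1 / (2 * (1 + R)) * min 1 (vr D ρ x / vr D ρ y) ≤ 1 / (2 * (1 + R)) * 1 :=
          mul_le_mul_of_nonneg_left (min_le_left _ _) hc0.le
      _ ≤ al D ρ n y := by linarith
      _ ≤ al D ρ n x := al_mono hD n hxy.le

/-- PROOF. Let `L = Lam y ∈ (0,1]`, `n = ⌊1/L⌋₊`: `n L ≤ 1`, `(n+1) L ≥ 1`. By `arcsine_real` and monotonicity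
`1 = ∑_{k≤n} al* k 0 · al (n-k) 0`; but `al* k 0 ≥ al* n 0 ≥ c'/vd y` and `al (n-k) 0 ≥ al n 0 ≥ c/vr y` (`Reg.surv_ge`, `M = 1`,
for both walks; `vr 0/vr y ≤ 1`, `vr 0 ≥ 1`). So `1 ≥ (n+1) c c'/(vr y vd y)`, i.e. `vr y vd y ≥ c c'/L`. -/
theorem Reg.prod_ge (hD : Dom D) (h : Reg ρ p C x₀) : ∃ c : ℝ, 0 < c ∧ ∀ y : ℝ, 1 ≤ y →
    c ≤ Lam ρ y * vr D ρ y * vd D ρ y := by
  have hρ := h.cen
  have hprob := hρ.prob
  obtain ⟨c, hc, hs⟩ := Reg.surv_ge hD h 1 one_pos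
  obtain ⟨c', hc', hs'⟩ := Reg.surv_ge (dom_Dst hD) h.rev 1 one_pos
  refine ⟨c * c', by positivity, fun y hy => ?_⟩
  have hL0 : 0 < Lam ρ y := Lam_pos hρ (by linarith)
  set L : ℝ := Lam ρ y with hL
  have hvy := one_le_vr hD hρ y
  have hdy := one_le_vd hD hρ y
  set n : ℕ := ⌊1 / L⌋₊ with hn
  have hnL1 : n * L ≤ 1 := by
    have := Nat.floor_le (a := 1 / L) (by positivity)
    rw [le_div_iff₀ hL0] at this
    exact this
  have hnL2 : 1 ≤ ((n : ℝ) + 1) * L := by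
    have := (Nat.lt_floor_add_one (1 / L)).le
    rw [div_le_iff₀ hL0] at this
    exact this
  have harc := arcsine_real (ρ := ρ) hD n
  have hmono : ∀ (D : Set ℝ) (ρ : Measure ℝ), Dom D → Cen ρ → ∀ y : ℝ, 1 ≤ y →
      1 / vr D ρ y ≤ min 1 (vr D ρ 0 / vr D ρ y) := by
    intro D ρ hD hρ y hy
    have e1 := one_le_vr hD hρ y
    have e2 := one_le_vr hD hρ 0
    rw [le_min_iff]
    constructor
    · rw [div_le_one (by linarith)]
      exact e1
    · exact div_le_div_of_nonneg_right e2 (by linarith)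
  have ha : ∀ k ≤ n, c / vr D ρ y ≤ al D ρ k 0 := by
    intro k hk
    have e1 := hs n y 0 hy hnL1 le_rfl
    have e2 := hmono D ρ hD hρ y hy
    calc c / vr D ρ y = c * (1 / vr D ρ y) := by ring
      _ ≤ c * min 1 (vr D ρ 0 / vr D ρ y) := mul_le_mul_of_nonneg_left e2 hc.le
      _ ≤ al D ρ n 0 := e1
      _ ≤ al D ρ k 0 := al_anti hD 0 hk
  have hprob' := h.rev.cen.prob
  have hb : ∀ k ≤ n, c' / vd D ρ y ≤ al (Dst D) (dual ρ) k 0 := by
    intro k hk
    have e1 := hs' n y 0 hy (by rw [Lam_dual]; exact hnL1) le_rfl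
    have e2 := hmono (Dst D) (dual ρ) (dom_Dst hD) h.rev.cen y hy
    calc c' / vd D ρ y = c' * (1 / vr (Dst D) (dual ρ) y) := by
          rw [mul_one_div]
          rfl
      _ ≤ c' * min 1 (vr (Dst D) (dual ρ) 0 / vr (Dst D) (dual ρ) y) :=
          mul_le_mul_of_nonneg_left e2 hc'.le
      _ ≤ al (Dst D) (dual ρ) n 0 := e1
      _ ≤ al (Dst D) (dual ρ) k 0 := al_anti (dom_Dst hD) 0 hk
  have hsum : ((n : ℝ) + 1) * (c' / vd D ρ y * (c / vr D ρ y)) ≤ 1 := by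
    have : ((n : ℝ) + 1) * (c' / vd D ρ y * (c / vr D ρ y)) =
        ∑ _k ∈ Finset.range (n + 1), c' / vd D ρ y * (c / vr D ρ y) := by
      rw [Finset.sum_const, Finset.card_range, nsmul_eq_mul]
      push_cast
      ring
    rw [this]
    refine le_trans (Finset.sum_le_sum fun k hk => ?_) harc.le
    rw [Finset.mem_range] at hk
    have e1 := ha (n - k) (by omega)
    have e2 := hb k (by omega)
    have e3 : 0 ≤ c / vr D ρ y := by positivity
    exact mul_le_mul e2 e1 e3 (al_nonneg _ _ _ _)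
  have h1 : ((n : ℝ) + 1) * (c * c') ≤ vr D ρ y * vd D ρ y := by
    have e : ((n : ℝ) + 1) * (c' / vd D ρ y * (c / vr D ρ y)) =
        ((n : ℝ) + 1) * (c * c') / (vr D ρ y * vd D ρ y) := by
      have : vr D ρ y ≠ 0 := by linarith
      have : vd D ρ y ≠ 0 := by linarith
      field_simp
    rw [e, div_le_one (by positivity)] at hsum
    exact hsum
  have h2 : L * (((n : ℝ) + 1) * (c * c')) ≤ L * (vr D ρ y * vd D ρ y) :=
    mul_le_mul_of_nonneg_left h1 hL0.le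
  have h3 : c * c' * 1 ≤ c * c' * (((n : ℝ) + 1) * L) :=
    mul_le_mul_of_nonneg_left hnL2 (by positivity)
  nlinarith

end Pool.Agent.BPT
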