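import Pool.Agent.MP_99a865_pr.ST.A14

/-!
# [STB-A15] Growth of the renewal function; comparison of the two domains
-/

open MeasureTheory ProbabilityTheory Filter Topology
open scoped ENNReal NNReal

namespace Pool.Agent.BPT

variable {D : Set ℝ} {ρ : Measure ℝ} {p C x₀ : ℝ}

/-- PROOF. `vr (r y) ≥ c/(Lam (r y) vd (r y))` (`Reg.prod_ge`), `Lam (r y) ≤ K₁ r^{-p} Lam y`, `vd (r y) ≤ (1+r) vd y ≤ 2 r vd y`,
and `1/(Lam y vd y) ≥ vr y/K` (`Reg.prod_le`). -/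
theorem Reg.vr_lower (hD : Dom D) (h : Reg ρ p C x₀) : ∃ c : ℝ, 0 < c ∧ ∀ y r : ℝ, 1 ≤ y → 1 ≤ r →
    c * r ^ (p - 1) * vr D ρ y ≤ vr D ρ (r * y) := by
  have hρ := h.cen
  have := hρ.prob
  obtain ⟨c, hc, h1⟩ := h.prod_ge hD
  obtain ⟨K₁, hK₁, h2⟩ := h.all
  obtain ⟨K₂, hK₂, h3⟩ := h.prod_le hD
  refine ⟨c / (2 * K₁ * K₂), by positivity, ?_⟩
  intro y r hy hr
  have hy0 : 0 < y := by linarith
  have hr0 : 0 < r := by linarith
  have hry : 1 ≤ r * y := by nlinarith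
  have a1 := h1 (r * y) hry
  have a2 := h2 y hy r hr
  have a3 := h3 y hy
  have a4 : vd D ρ (r * y) ≤ 2 * r * vd D ρ y := by
    have b := vd_ratio hD hρ hy0 (by nlinarith : y ≤ r * y)
    rw [mul_div_assoc, div_self hy0.ne', mul_one] at b
    have hv := one_le_vd hD hρ y
    nlinarith
  have v1 : 0 < vr D ρ y := lt_of_lt_of_le one_pos (one_le_vr hD hρ y)
  have v2 : 0 < vr D ρ (r * y) := lt_of_lt_of_le one_pos (one_le_vr hD hρ _)
  have v3 : 0 < vd D ρ y := lt_of_lt_of_le one_pos (one_le_vd hD hρ y)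
  have v4 : 0 < vd D ρ (r * y) := lt_of_lt_of_le one_pos (one_le_vd hD hρ _)
  have L0 : 0 ≤ Lam ρ y := Lam_nonneg ρ y
  have L1 : 0 ≤ Lam ρ (r * y) := Lam_nonneg ρ _
  have hrp : 0 < r ^ (-p) := Real.rpow_pos_of_pos hr0 _
  have b1 : Lam ρ (r * y) * vr D ρ (r * y) * vd D ρ (r * y) ≤
      (K₁ * r ^ (-p) * Lam ρ y) * vr D ρ (r * y) * (2 * r * vd D ρ y) := by
    have hK : 0 ≤ K₁ * r ^ (-p) * Lam ρ y := by positivity
    apply mul_le_mul (mul_le_mul_of_nonneg_right a2 v2.le) a4 v4.le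
    positivity
  have b2 : c * vr D ρ y ≤ (2 * K₁ * K₂) * (r * r ^ (-p)) * vr D ρ (r * y) := by
    calc c * vr D ρ y ≤ ((K₁ * r ^ (-p) * Lam ρ y) * vr D ρ (r * y) * (2 * r * vd D ρ y)) * vr D ρ y :=
          mul_le_mul_of_nonneg_right (a1.trans b1) v1.le
      _ = (2 * K₁ * (r * r ^ (-p)) * vr D ρ (r * y)) * (Lam ρ y * vr D ρ y * vd D ρ y) := by ring
      _ ≤ (2 * K₁ * (r * r ^ (-p)) * vr D ρ (r * y)) * K₂ := by
          apply mul_le_mul_of_nonneg_left a3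
          positivity
      _ = _ := by ring
  have b3 : r * r ^ (-p) * r ^ (p - 1) = 1 := by
    have e1 : r * r ^ (-p) = r ^ (1 - p) := by
      rw [show (1 - p) = 1 + (-p) by ring, Real.rpow_add hr0, Real.rpow_one]
    rw [e1, ← Real.rpow_add hr0, show (1 - p + (p - 1)) = 0 by ring, Real.rpow_zero]
  have hp1 : 0 < r ^ (p - 1) := Real.rpow_pos_of_pos hr0 _
  have e : c / (2 * K₁ * K₂) * r ^ (p - 1) * vr D ρ y =
      (c * vr D ρ y) * r ^ (p - 1) / (2 * K₁ * K₂) := by ring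
  rw [e, div_le_iff₀ (by positivity)]
  calc c * vr D ρ y * r ^ (p - 1) ≤ ((2 * K₁ * K₂) * (r * r ^ (-p)) * vr D ρ (r * y)) * r ^ (p - 1) :=
        mul_le_mul_of_nonneg_right b2 hp1.le
    _ = vr D ρ (r * y) * (2 * K₁ * K₂) * (r * r ^ (-p) * r ^ (p - 1)) := by ring
    _ = vr D ρ (r * y) * (2 * K₁ * K₂) := by rw [b3, mul_one]

/-- Different domains give comparable renewal functions. PROOF. For `0 ≤ x ≤ 1`: `vr D x ≤ vr D 1 ≤ vr D 1 · vr D' x`. For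
`y ≥ 1` let `n = ⌈1/Lam y⌉₊`, `1 ≤ n Lam y ≤ 2`. Then `c/vr D' y ≤ al D' n 1` (`Reg.surv_ge`, `M = 2`) `≤ al D n 2` (`al_dom`)
`≤ K vr D 2/vr D y` (`Reg.surv`), so `vr D y ≤ (K vr D 2/c) vr D' y`. -/
theorem Reg.vr_dom (hD : Dom D) {D' : Set ℝ} (hD' : Dom D') (h : Reg ρ p C x₀) : ∃ K : ℝ, 1 ≤ K ∧
    ∀ x : ℝ, 0 ≤ x → vr D ρ x ≤ K * vr D' ρ x := by
  have hρ := h.cen
  have := hρ.prob
  obtain ⟨c, hc, h1⟩ := h.surv_ge hD' 2 (by norm_num)
  obtain ⟨K, hK, h2⟩ := h.surv hD 1 one_pos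
  have w1 := one_le_vr hD hρ 1
  have w2 := one_le_vr hD hρ 2
  refine ⟨max (vr D ρ 1) (K * vr D ρ 2 / c), le_trans w1 (le_max_left _ _), ?_⟩
  intro y hy0
  have v1 := one_le_vr hD hρ y
  have v2 := one_le_vr hD' hρ y
  rcases le_or_gt y 1 with hy | hy
  · calc vr D ρ y ≤ vr D ρ 1 := vr_mono hD hρ hy
      _ ≤ vr D ρ 1 * vr D' ρ y := le_mul_of_one_le_right (by linarith) v2
      _ ≤ _ := mul_le_mul_of_nonneg_right (le_max_left _ _) (by linarith)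
  · have L0 : 0 < Lam ρ y := Lam_pos hρ (by linarith)
    have L1 : Lam ρ y ≤ 1 := Lam_le_one y
    set n := ⌈1 / Lam ρ y⌉₊ with hn
    have hn1 : 1 ≤ n := Nat.ceil_pos.2 (by positivity)
    have hn2 : 1 ≤ n * Lam ρ y := by
      have := Nat.le_ceil (1 / Lam ρ y)
      rwa [div_le_iff₀ L0] at this
    have hn3 : n * Lam ρ y ≤ 2 := by
      have := Nat.ceil_lt_add_one (by positivity : 0 ≤ 1 / Lam ρ y)
      have h3 : (n : ℝ) ≤ 1 / Lam ρ y + 1 := this.le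
      calc n * Lam ρ y ≤ (1 / Lam ρ y + 1) * Lam ρ y := mul_le_mul_of_nonneg_right h3 L0.le
        _ = 1 + Lam ρ y := by field_simp
        _ ≤ 2 := by linarith
    have a1 := h1 n y 1 hy.le hn3 zero_le_one
    have a2 := al_dom (ρ := ρ) hD' hD n 1
    have a3 := h2 n y hn1 hy.le hn2 2 (by norm_num)
    have e2 : (1 : ℝ) + 1 = 2 := by norm_num
    rw [e2] at a2
    have a4 : 1 / vr D' ρ y ≤ min 1 (vr D' ρ 1 / vr D' ρ y) := by
      apply le_min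
      · rw [div_le_one (by linarith)]
        exact v2
      · exact div_le_div_of_nonneg_right (one_le_vr hD' hρ 1) (by linarith)
    have a5 : c * (1 / vr D' ρ y) ≤ K * (vr D ρ 2 / vr D ρ y) :=
      (mul_le_mul_of_nonneg_left a4 hc.le).trans (a1.trans (a2.trans a3))
    have a6 : c * vr D ρ y ≤ K * vr D ρ 2 * vr D' ρ y := by
      have e3 : c * (1 / vr D' ρ y) = c / vr D' ρ y := by ring
      have e4 : K * (vr D ρ 2 / vr D ρ y) = K * vr D ρ 2 / vr D ρ y := by ring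
      rw [e3, e4, div_le_div_iff₀ (by linarith) (by linarith)] at a5
      exact a5
    have a7 : vr D ρ y ≤ K * vr D ρ 2 / c * vr D' ρ y := by
      have e5 : K * vr D ρ 2 / c * vr D' ρ y = K * vr D ρ 2 * vr D' ρ y / c := by ring
      rw [e5, le_div_iff₀ hc, mul_comm]
      exact a6
    exact a7.trans (mul_le_mul_of_nonneg_right (le_max_right _ _) (by linarith))

end Pool.Agent.BPT
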