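import Pool.Agent.MP_99a865_pr.ST.A15
import Pool.Agent.MP_99a865_pr.FV.A2

/-!
# [STB-A16] Local bounds for the killed walk
-/

open MeasureTheory ProbabilityTheory Filter Topology
open scoped ENNReal NNReal

namespace Pool.Agent.BPT

variable {D : Set ℝ} {ρ : Measure ℝ} {p C x₀ : ℝ}

private lemma A16_le_one [IsProbabilityMeasure ρ] (n : ℕ) (x : ℝ) (J : Set ℝ) : (kap D ρ n x).real J ≤ 1 := by
  have h1 : kap D ρ n x J ≤ 1 := (measure_mono (Set.subset_univ J)).trans (kap_univ_le_one n x)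
  exact ENNReal.toReal_le_of_le_ofReal (by norm_num) (by simpa using h1)

private lemma A16_split (hD : Dom D) (h : Reg ρ p C x₀) (c : ℝ) (hc : 0 < c) : ∃ K : ℝ, 1 ≤ K ∧
    ∀ (n : ℕ) (y x B : ℝ) (J : Set ℝ), MeasurableSet J → 2 ≤ n → 1 ≤ y → c ≤ n * Lam ρ y → 0 ≤ x → 0 ≤ B →
      (∀ l : ℕ, 1 ≤ l → c / 2 ≤ l * Lam ρ y → ∀ w' : ℝ, 0 ≤ w' → (kap D ρ l w').real J ≤ B) →
      (kap D ρ n x).real J ≤ K * (vr D ρ x / vr D ρ y) * B := by
  haveI := h.cen.prob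
  obtain ⟨K, hK, hs⟩ := Reg.surv hD h (c / 3) (by positivity)
  refine ⟨K, hK, ?_⟩
  intro n y x B J hJ hn hy hcn hx hB hl
  obtain ⟨m, l, rfl, hm1, hm3, hl2⟩ : ∃ m l : ℕ, n = m + l ∧ 1 ≤ m ∧ m + l ≤ 3 * m ∧ m + l ≤ 2 * l :=
    ⟨n / 2, n - n / 2, by omega, by omega, by omega, by omega⟩
  have hL : 0 ≤ Lam ρ y := Lam_nonneg ρ y
  have e1 : ((m + l : ℕ) : ℝ) ≤ 3 * m := by exact_mod_cast hm3
  have e2 : ((m + l : ℕ) : ℝ) ≤ 2 * l := by exact_mod_cast hl2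
  have e3 : c / 3 ≤ (m : ℝ) * Lam ρ y := by nlinarith [mul_le_mul_of_nonneg_right e1 hL]
  have e4 : c / 2 ≤ (l : ℝ) * Lam ρ y := by nlinarith [mul_le_mul_of_nonneg_right e2 hL]
  have h1 := kap_split_le hD m l hx J hJ B hB (hl l (by omega) e4)
  exact h1.trans (mul_le_mul_of_nonneg_right (hs m y hm1 hy e3 x hx) hB)

private lemma A16_div (a b : ℝ) (ha : 1 ≤ a) (hb : 1 ≤ b) {y Y : ℝ} (h : b ≤ Y) : 1 ≤ Y * (a / b) := by
  have hb0 : 0 < b := by linarith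
  rw [← mul_div_assoc, le_div_iff₀ hb0]
  nlinarith

/-- free walk, and first bound. PROOF. `kap_le_fre`, `Reg.conc`, `1/(n Lam y) ≤ 1/c`. -/
theorem Reg.win_free (h : Reg ρ p C x₀) : ∀ c : ℝ, 0 < c → ∃ K : ℝ, 1 ≤ K ∧
    ∀ (n : ℕ) (y w x z : ℝ), 1 ≤ n → 1 ≤ y → 1 ≤ w → c ≤ n * Lam ρ y →
      (fre ρ n x).real (Set.Ico z (z + w)) ≤ K * (w / y) ∧
      ∀ D : Set ℝ, Dom D → (kap D ρ n x).real (Set.Ico z (z + w)) ≤ K * (w / y) := by
  intro c hc
  haveI := h.cen.prob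
  obtain ⟨K₀, hK₀, hconc⟩ := h.conc
  refine ⟨K₀ * (1 + 1 / c), ?_, ?_⟩
  · have : (0:ℝ) < 1 / c := by positivity
    nlinarith
  · intro n y w x z hn hy hw hcn
    have h1 : (fre ρ n x).real (Set.Ico z (z + w)) ≤ K₀ * (1 + 1 / c) * (w / y) := by
      refine (hconc n hn y hy w hw x z).trans ?_
      have h2 : 1 / ((n:ℝ) * Lam ρ y) ≤ 1 / c := one_div_le_one_div_of_le hc hcn
      have h3 : 0 ≤ w / y := by positivity
      have h4 : 0 ≤ K₀ * (w / y) := by positivity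
      nlinarith [mul_le_mul_of_nonneg_left h2 h4]
    refine ⟨h1, fun D hD => le_trans ?_ h1⟩
    exact ENNReal.toReal_mono (measure_ne_top _ _) (kap_le_fre hD n x _)

/-- PROOF. `n = 1`: `Lam y ≥ c`, so `y ≤ Y` (`Reg.bdd`), `w/y ≥ 1/Y`, `vr x/vr y ≥ 1/vr Y`, the left side is at most one:
`K ≥ Y vr Y`. `n ≥ 2`: `n = m + n₂`, `m = n/2 ≥ n/3`, `m ≥ 1`, `n₂ ≥ n/2`: `kap_split_le` with
`B = K (w/y)` (`Reg.win_free`, `c/2`) and `al m x ≤ K vr x/vr y` (`Reg.surv`, `c/3`). -/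
theorem Reg.win_vr (hD : Dom D) (h : Reg ρ p C x₀) : ∀ c : ℝ, 0 < c → ∃ K : ℝ, 1 ≤ K ∧
    ∀ (n : ℕ) (y w x z : ℝ), 1 ≤ n → 1 ≤ y → 1 ≤ w → c ≤ n * Lam ρ y → 0 ≤ x →
      (kap D ρ n x).real (Set.Ico z (z + w)) ≤ K * (w / y) * (vr D ρ x / vr D ρ y) := by
  intro c hc
  haveI := h.cen.prob
  obtain ⟨Y, hY, hbdd⟩ := h.bdd hc
  obtain ⟨K₁, hK₁, hfree⟩ := Reg.win_free h (c / 2) (by positivity)
  obtain ⟨K₂, hK₂, hsp⟩ := A16_split hD h c hc
  have hvY : 1 ≤ vr D ρ Y := one_le_vr hD h.cen Y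
  refine ⟨Y * vr D ρ Y + K₁ * K₂, by nlinarith [mul_pos (by linarith : (0:ℝ) < K₁) (by linarith : (0:ℝ) < K₂)], ?_⟩
  intro n y w x z hn hy hw hcn hx
  have hvx : 1 ≤ vr D ρ x := one_le_vr hD h.cen x
  have hvy : 1 ≤ vr D ρ y := one_le_vr hD h.cen y
  have hr0 : 0 ≤ (w / y) * (vr D ρ x / vr D ρ y) := by positivity
  rcases Nat.lt_or_ge n 2 with h2 | h2
  · have hn1 : n = 1 := by omega
    subst hn1
    have hyY : y ≤ Y := hbdd y hy (by simpa using hcn)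
    have h3 : (kap D ρ 1 x).real (Set.Ico z (z + w)) ≤ 1 := A16_le_one 1 x _
    have h4 : 1 ≤ Y * (w / y) := A16_div w y hw hy (y := y) hyY
    have h5 : 1 ≤ vr D ρ Y * (vr D ρ x / vr D ρ y) := A16_div _ _ hvx hvy (y := y) (vr_mono hD h.cen hyY)
    have h6 : 1 ≤ (Y * (w / y)) * (vr D ρ Y * (vr D ρ x / vr D ρ y)) := by nlinarith
    have h7 : 0 ≤ K₁ * K₂ * ((w / y) * (vr D ρ x / vr D ρ y)) := by positivity
    calc _ ≤ (1:ℝ) := h3
      _ ≤ (Y * (w / y)) * (vr D ρ Y * (vr D ρ x / vr D ρ y)) := h6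
      _ ≤ _ := by nlinarith
  · have h3 := hsp n y x (K₁ * (w / y)) (Set.Ico z (z + w)) measurableSet_Ico h2 hy hcn hx (by positivity)
      (fun l hl hcl w' _ => (hfree l y w w' z hl hy hw hcl).2 D hD)
    have h7 : 0 ≤ Y * vr D ρ Y * ((w / y) * (vr D ρ x / vr D ρ y)) := by positivity
    calc _ ≤ _ := h3
      _ ≤ _ := by nlinarith

/-- PROOF. For `s ∈ [0,1]`, `kap_shift_le` gives `kap n x (Ico z (z+w)) ≤ kap n (x+s) (Ico z (z+w+1))`; integrate over `s` and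
apply `duality_vol`: `kap n x (Ico z (z+w)) ≤ ∫⁻ x' in Icc x (x+1), kap n x' (Ico z (z+w+1)) ≤
∫⁻ y' in D ∩ Ico z (z+w+1), kap D (dual ρ) n y' (Ico x (x+2))` (`Icc x (x+1) ⊆ D` up to a null set). By `Reg.win_vr` for
`dual ρ` and the same `D` (window length 2, starting point `y' ≤ z + w + 1`) this is at most
`(w+1) · K (2/y) · (vr D (dual ρ) (z+w+1)/vr D (dual ρ) y)`, and `vr D (dual ρ)` is comparable with
`vd D ρ = vr (Dst D) (dual ρ)` (`Reg.vr_dom` for `dual ρ`, both ways), `w + 1 ≤ 2 w`, `vd (z+w+1) ≤ 3 vd (z+w)` (`vd_ratio`,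
`z + w ≥ 1`). -/
theorem Reg.win_vd (hD : Dom D) (h : Reg ρ p C x₀) : ∀ c : ℝ, 0 < c → ∃ K : ℝ, 1 ≤ K ∧
    ∀ (n : ℕ) (y w x z : ℝ), 1 ≤ n → 1 ≤ y → 1 ≤ w → c ≤ n * Lam ρ y → 0 ≤ x → 0 ≤ z →
      (kap D ρ n x).real (Set.Ico z (z + w)) ≤ K * (w / y) * (vd D ρ (z + w) / vd D ρ y) := by
  intro c hc
  haveI := h.cen.prob
  haveI : IsProbabilityMeasure (dual ρ) := prob_dual
  have hd : Reg (dual ρ) p C x₀ := h.rev
  have hDs : Dom (Dst D) := dom_Dst hD
  obtain ⟨K₁, hK₁, hwin⟩ := Reg.win_vr hD hd c hc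
  obtain ⟨K₂, hK₂, hv2⟩ := Reg.vr_dom hD hDs hd
  obtain ⟨K₃, hK₃, hv3⟩ := Reg.vr_dom hDs hD hd
  refine ⟨12 * (K₁ * K₂ * K₃), by nlinarith [mul_le_mul hK₁ hK₂ (by norm_num) (by linarith), mul_le_mul (mul_le_mul hK₁ hK₂ (by norm_num) (by linarith) : (1:ℝ) * 1 ≤ K₁ * K₂) hK₃ (by norm_num) (by positivity)], ?_⟩
  intro n y w x z hn hy hw hcn hx hz
  have hvdy : 1 ≤ vd D ρ y := one_le_vd hD h.cen y
  have hvdz : 1 ≤ vd D ρ (z + w) := one_le_vd hD h.cen _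
  have hvry : 1 ≤ vr D (dual ρ) y := one_le_vr hD hd.cen y
  have hLam : c ≤ n * Lam (dual ρ) y := by rw [Lam_dual]; exact hcn
  set M : ℝ := K₁ * (2 / y) * (vr D (dual ρ) (z + w + 1) / vr D (dual ρ) y) with hM
  have hvrz : 1 ≤ vr D (dual ρ) (z + w + 1) := one_le_vr hD hd.cen _
  have hM0 : 0 ≤ M := by rw [hM]; positivity
  -- main inequality in ENNReal
  have hmain : kap D ρ n x (Set.Ico z (z + w)) ≤ ENNReal.ofReal (w + 1) * ENNReal.ofReal M := by
    have hF : Measurable (Function.uncurry fun (x' y' : ℝ) =>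
        (Set.Ioc x (x + 1)).indicator (fun _ => (1:ℝ≥0∞)) x' * (Set.Ico z (z + w + 1)).indicator (fun _ => (1:ℝ≥0∞)) y') := by
      refine Measurable.mul ?_ ?_
      · exact (measurable_const.indicator measurableSet_Ioc).comp measurable_fst
      · exact (measurable_const.indicator measurableSet_Ico).comp measurable_snd
    have hdu := duality_vol hD (ρ := ρ) n _ hF
    have hmA : MeasurableSet (Set.Ico z (z + w + 1)) := measurableSet_Ico
    have hmI : MeasurableSet (Set.Ioc x (x + 1)) := measurableSet_Ioc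
    have hsub : Set.Ioc x (x + 1) ⊆ D := fun x' hx' => hD.pos (lt_of_le_of_lt hx hx'.1)
    have h1 : kap D ρ n x (Set.Ico z (z + w)) ≤ ∫⁻ x' in Set.Ioc x (x + 1), kap D ρ n x' (Set.Ico z (z + w + 1)) := by
      calc kap D ρ n x (Set.Ico z (z + w)) = ∫⁻ _ in Set.Ioc x (x + 1), kap D ρ n x (Set.Ico z (z + w)) := by
            rw [setLIntegral_const, Real.volume_Ioc]
            simp
        _ ≤ _ := by
            refine setLIntegral_mono' hmI fun x' hx' => ?_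
            have hs : 0 ≤ x' - x := by linarith [hx'.1]
            have := kap_shift_le hD (ρ := ρ) n x (x' - x) hs (Set.Ico z (z + w)) (Set.Ico z (z + w + 1)) measurableSet_Ico hmA
              (fun y' hy' => ⟨by linarith [hy'.1], by linarith [hy'.2, hx'.2]⟩)
            simpa using this
    have h2 : ∫⁻ x' in Set.Ioc x (x + 1), kap D ρ n x' (Set.Ico z (z + w + 1)) =
        ∫⁻ x' in D, ∫⁻ y', (Set.Ioc x (x + 1)).indicator (fun _ => (1:ℝ≥0∞)) x' *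
          (Set.Ico z (z + w + 1)).indicator (fun _ => (1:ℝ≥0∞)) y' ∂(kap D ρ n x') := by
      have e1 : ∀ x', ∫⁻ y', (Set.Ioc x (x + 1)).indicator (fun _ => (1:ℝ≥0∞)) x' *
          (Set.Ico z (z + w + 1)).indicator (fun _ => (1:ℝ≥0∞)) y' ∂(kap D ρ n x') =
          (Set.Ioc x (x + 1)).indicator (fun x' => kap D ρ n x' (Set.Ico z (z + w + 1))) x' := by
        intro x'
        rw [lintegral_const_mul _ (measurable_const.indicator hmA), lintegral_indicator_const hmA, one_mul]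
        by_cases hx' : x' ∈ Set.Ioc x (x + 1)
        · simp [hx']
        · simp [hx']
      simp_rw [e1]
      rw [lintegral_indicator hmI, Measure.restrict_restrict hmI, Set.inter_eq_left.2 hsub]
    have h3 : ∫⁻ y' in D, ∫⁻ x', (Set.Ioc x (x + 1)).indicator (fun _ => (1:ℝ≥0∞)) x' *
          (Set.Ico z (z + w + 1)).indicator (fun _ => (1:ℝ≥0∞)) y' ∂(kap D (dual ρ) n y') ≤
        ∫⁻ y' in D, (Set.Ico z (z + w + 1)).indicator (fun _ => ENNReal.ofReal M) y' := by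
      refine setLIntegral_mono' hD.meas fun y' hy' => ?_
      rw [lintegral_mul_const _ (measurable_const.indicator hmI), lintegral_indicator_const hmI, one_mul]
      by_cases hy2 : y' ∈ Set.Ico z (z + w + 1)
      · simp only [Set.indicator_of_mem hy2, mul_one]
        have h4 := hwin n y 2 y' x hn hy (by norm_num) hLam (hD.nonneg hy')
        have h5 : vr D (dual ρ) y' ≤ vr D (dual ρ) (z + w + 1) := vr_mono hD hd.cen hy2.2.le
        have h6 : (kap D (dual ρ) n y').real (Set.Ioc x (x + 1)) ≤ M := by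
          calc (kap D (dual ρ) n y').real (Set.Ioc x (x + 1)) ≤ (kap D (dual ρ) n y').real (Set.Ico x (x + 2)) :=
                measureReal_mono (fun t ht => ⟨ht.1.le, by linarith [ht.2]⟩)
            _ ≤ _ := h4
            _ ≤ M := by
                rw [hM]
                refine mul_le_mul_of_nonneg_left ?_ (by positivity)
                exact div_le_div_of_nonneg_right h5 (by linarith)
        rw [← ENNReal.ofReal_toReal (measure_ne_top (kap D (dual ρ) n y') (Set.Ioc x (x + 1)))]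
        exact ENNReal.ofReal_le_ofReal h6
      · simp [hy2]
    have h4 : ∫⁻ y' in D, (Set.Ico z (z + w + 1)).indicator (fun _ => ENNReal.ofReal M) y' ≤
        ENNReal.ofReal (w + 1) * ENNReal.ofReal M := by
      calc _ ≤ ∫⁻ y', (Set.Ico z (z + w + 1)).indicator (fun _ => ENNReal.ofReal M) y' :=
            setLIntegral_le_lintegral _ _
        _ = ENNReal.ofReal M * volume (Set.Ico z (z + w + 1)) := by
            rw [lintegral_indicator_const hmA]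
        _ = _ := by
            rw [Real.volume_Ico, mul_comm]
            congr 2
            ring
    rw [h2] at h1
    refine h1.trans ?_
    have h5 := hdu
    refine (le_of_eq h5).trans ?_
    exact h3.trans h4
  have hreal : (kap D ρ n x).real (Set.Ico z (z + w)) ≤ (w + 1) * M := by
    have := ENNReal.toReal_mono (by
      rw [← ENNReal.ofReal_mul (by linarith)]
      exact ENNReal.ofReal_ne_top) hmain
    rw [← ENNReal.ofReal_mul (by linarith), ENNReal.toReal_ofReal (by positivity)] at this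
    exact this
  refine hreal.trans ?_
  have g1 : vr D (dual ρ) (z + w + 1) ≤ K₂ * (3 * vd D ρ (z + w)) := by
    have a1 := hv2 (z + w + 1) (by linarith)
    have a2 := vd_ratio hD h.cen (y := z + w) (z := z + w + 1) (by linarith) (by linarith)
    have a3 : (z + w + 1) / (z + w) ≤ 2 := by
      rw [div_le_iff₀ (by linarith)]
      linarith
    have a4 : vd D ρ (z + w + 1) ≤ 3 * vd D ρ (z + w) := by
      refine a2.trans ?_
      nlinarith
    exact a1.trans (mul_le_mul_of_nonneg_left a4 (by linarith))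
  have g2 : vd D ρ y ≤ K₃ * vr D (dual ρ) y := hv3 y (by linarith)
  have g3 : vr D (dual ρ) (z + w + 1) / vr D (dual ρ) y ≤ 3 * (K₂ * K₃) * (vd D ρ (z + w) / vd D ρ y) := by
    rw [div_le_iff₀ (by linarith)]
    have b1 : 1 ≤ K₃ * vr D (dual ρ) y / vd D ρ y := by
      rw [le_div_iff₀ (by linarith)]
      linarith
    calc _ ≤ K₂ * (3 * vd D ρ (z + w)) := g1
      _ ≤ K₂ * (3 * vd D ρ (z + w)) * (K₃ * vr D (dual ρ) y / vd D ρ y) :=
          le_mul_of_one_le_right (by positivity) b1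
      _ = _ := by ring
  rw [hM]
  have g4 : w + 1 ≤ 2 * w := by linarith
  have g5 : 0 ≤ K₁ * (2 / y) := by positivity
  calc (w + 1) * (K₁ * (2 / y) * (vr D (dual ρ) (z + w + 1) / vr D (dual ρ) y)) ≤
      (2 * w) * (K₁ * (2 / y) * (3 * (K₂ * K₃) * (vd D ρ (z + w) / vd D ρ y))) := by
        refine mul_le_mul g4 (mul_le_mul_of_nonneg_left g3 g5) (by positivity) (by linarith)
    _ = _ := by ring

/-- PROOF. `n = 1`: trivial as in `Reg.win_vr` (`K ≥ Y vr Y vd Y`). `n ≥ 2`: as in `Reg.win_vr`, with `Reg.win_vd` (`c/2`) for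
the second part. -/
theorem Reg.win (hD : Dom D) (h : Reg ρ p C x₀) : ∀ c : ℝ, 0 < c → ∃ K : ℝ, 1 ≤ K ∧
    ∀ (n : ℕ) (y w x z : ℝ), 1 ≤ n → 1 ≤ y → 1 ≤ w → c ≤ n * Lam ρ y → 0 ≤ x → 0 ≤ z →
      (kap D ρ n x).real (Set.Ico z (z + w)) ≤
        K * (w / y) * (vr D ρ x / vr D ρ y) * (vd D ρ (z + w) / vd D ρ y) := by
  intro c hc
  haveI := h.cen.prob
  obtain ⟨Y, hY, hbdd⟩ := h.bdd hc
  obtain ⟨K₁, hK₁, hwd⟩ := Reg.win_vd hD h (c / 2) (by positivity)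
  obtain ⟨K₂, hK₂, hsp⟩ := A16_split hD h c hc
  have hvY : 1 ≤ vr D ρ Y := one_le_vr hD h.cen Y
  have hdY : 1 ≤ vd D ρ Y := one_le_vd hD h.cen Y
  refine ⟨Y * vr D ρ Y * vd D ρ Y + K₁ * K₂, by
    have h1 : 0 < K₁ * K₂ := by positivity
    have h2 : 1 ≤ Y * vr D ρ Y := by nlinarith
    have h3 : 1 ≤ Y * vr D ρ Y * vd D ρ Y := by nlinarith
    linarith, ?_⟩
  intro n y w x z hn hy hw hcn hx hz
  have hvx : 1 ≤ vr D ρ x := one_le_vr hD h.cen x
  have hvy : 1 ≤ vr D ρ y := one_le_vr hD h.cen y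
  have hdy : 1 ≤ vd D ρ y := one_le_vd hD h.cen y
  have hdz : 1 ≤ vd D ρ (z + w) := one_le_vd hD h.cen _
  rcases Nat.lt_or_ge n 2 with h2 | h2
  · have hn1 : n = 1 := by omega
    subst hn1
    have hyY : y ≤ Y := hbdd y hy (by simpa using hcn)
    have h3 : (kap D ρ 1 x).real (Set.Ico z (z + w)) ≤ 1 := A16_le_one 1 x _
    have h4 : 1 ≤ Y * (w / y) := A16_div w y hw hy (y := y) hyY
    have h5 : 1 ≤ vr D ρ Y * (vr D ρ x / vr D ρ y) := A16_div _ _ hvx hvy (y := y) (vr_mono hD h.cen hyY)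
    have h5' : 1 ≤ vd D ρ Y * (vd D ρ (z + w) / vd D ρ y) := A16_div _ _ hdz hdy (y := y) (vd_mono hD h.cen hyY)
    have h6 : 1 ≤ (Y * (w / y)) * (vr D ρ Y * (vr D ρ x / vr D ρ y)) := by nlinarith
    have h6' : 1 ≤ (Y * (w / y)) * (vr D ρ Y * (vr D ρ x / vr D ρ y)) * (vd D ρ Y * (vd D ρ (z + w) / vd D ρ y)) := by nlinarith
    have h7 : 0 ≤ K₁ * K₂ * ((w / y) * (vr D ρ x / vr D ρ y) * (vd D ρ (z + w) / vd D ρ y)) := by positivity
    calc _ ≤ (1:ℝ) := h3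
      _ ≤ _ := h6'
      _ ≤ (Y * (w / y)) * (vr D ρ Y * (vr D ρ x / vr D ρ y)) * (vd D ρ Y * (vd D ρ (z + w) / vd D ρ y)) +
          K₁ * K₂ * ((w / y) * (vr D ρ x / vr D ρ y) * (vd D ρ (z + w) / vd D ρ y)) := by linarith
      _ = _ := by ring
  · have h3 := hsp n y x (K₁ * (w / y) * (vd D ρ (z + w) / vd D ρ y)) (Set.Ico z (z + w)) measurableSet_Ico h2 hy hcn hx
      (by positivity) (fun l hl hcl w' hw' => hwd l y w w' z hl hy hw hcl hw' hz)
    have h7 : 0 ≤ Y * vr D ρ Y * vd D ρ Y * ((w / y) * (vr D ρ x / vr D ρ y) * (vd D ρ (z + w) / vd D ρ y)) := by positivity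
    calc _ ≤ _ := h3
      _ ≤ K₂ * (vr D ρ x / vr D ρ y) * (K₁ * (w / y) * (vd D ρ (z + w) / vd D ρ y)) +
          Y * vr D ρ Y * vd D ρ Y * ((w / y) * (vr D ρ x / vr D ρ y) * (vd D ρ (z + w) / vd D ρ y)) := by linarith
      _ = _ := by ring

end Pool.Agent.BPT
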