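import Pool.Agent.MP_99a865_pr.ST.A7b
import Pool.Agent.MP_99a865_pr.CV.K10
import Pool.Agent.MP_99a865_pr.CV.K9

/-!
# [STB-A17] Tail sums against the dual renewal function
-/

open MeasureTheory ProbabilityTheory Filter Topology
open scoped ENNReal NNReal

namespace Pool.Agent.BPT

variable {D : Set ℝ} {ρ : Measure ℝ} {p C x₀ : ℝ}

private theorem A17_ind1 (y : ℝ) : MeasurableSet {p : ℝ × ℝ | p.1 ≤ p.2 ∧ p.2 < p.1 + y} :=
  (measurableSet_le measurable_fst measurable_snd).inter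
    (measurableSet_lt measurable_snd (measurable_fst.add_const y))

private theorem A17_ind2 : MeasurableSet {p : ℝ × ℝ | p.1 < -p.2} :=
  measurableSet_lt measurable_fst measurable_snd.neg

private theorem A17_tail (ρ : Measure ℝ) : Measurable fun u : ℝ => ρ (Set.Iio (-u)) := by
  have h : Antitone fun u : ℝ => ρ (Set.Iio (-u)) := by
    intro u v huv
    exact measure_mono (Set.Iio_subset_Iio (neg_le_neg huv))
  exact h.measurable

private theorem A17_win (κ : Measure ℝ) [SFinite κ] (y : ℝ) :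
    Measurable fun u : ℝ => κ {s | s ≤ u ∧ u < s + y} :=
  measurable_measure_prodMk_right (A17_ind1 y)

/-- Tonelli -/
private theorem A17_ton (κ ρ : Measure ℝ) [SFinite κ] [SFinite ρ] (y : ℝ) :
    ∫⁻ s, ∫⁻ x, ENNReal.ofReal (min (-(s + x)) y) ∂ρ ∂κ =
      ∫⁻ u : ℝ, ρ (Set.Iio (-u)) * κ {s | s ≤ u ∧ u < s + y} := by
  set I1 : ℝ × ℝ → ℝ≥0∞ := {p : ℝ × ℝ | p.1 ≤ p.2 ∧ p.2 < p.1 + y}.indicator (fun _ => 1) with hI1
  set I2 : ℝ × ℝ → ℝ≥0∞ := {p : ℝ × ℝ | p.1 < -p.2}.indicator (fun _ => 1) with hI2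
  have m1 : Measurable I1 := measurable_const.indicator (A17_ind1 y)
  have m2 : Measurable I2 := measurable_const.indicator A17_ind2
  have h1 : ∀ s x : ℝ, ENNReal.ofReal (min (-(s + x)) y) = ∫⁻ u : ℝ, I1 (s, u) * I2 (x, u) := by
    intro s x
    have e : ∀ u : ℝ, I1 (s, u) * I2 (x, u) =
        (Set.Ico s (min (s + y) (-x))).indicator (fun _ => (1 : ℝ≥0∞)) u := by
      intro u
      by_cases hu : u ∈ Set.Ico s (min (s + y) (-x))
      · rw [Set.indicator_of_mem hu]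
        have h2 := lt_min_iff.1 hu.2
        rw [hI1, hI2, Set.indicator_of_mem (show (s, u) ∈ {p : ℝ × ℝ | p.1 ≤ p.2 ∧ p.2 < p.1 + y} from
          ⟨hu.1, h2.1⟩), Set.indicator_of_mem (show (x, u) ∈ {p : ℝ × ℝ | p.1 < -p.2} from by
            change x < -u
            linarith [h2.2]), one_mul]
      · rw [Set.indicator_of_notMem hu]
        by_cases h3 : (s, u) ∈ {p : ℝ × ℝ | p.1 ≤ p.2 ∧ p.2 < p.1 + y}
        · have h4 : (x, u) ∉ {p : ℝ × ℝ | p.1 < -p.2} := by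
            intro h4
            have h4' : x < -u := h4
            exact hu ⟨h3.1, lt_min h3.2 (by linarith)⟩
          rw [hI2, Set.indicator_of_notMem h4, mul_zero]
        · rw [hI1, Set.indicator_of_notMem h3, zero_mul]
    simp only [e]
    rw [lintegral_indicator measurableSet_Ico, lintegral_one, Measure.restrict_apply_univ,
      Real.volume_Ico]
    congr 1
    rw [min_sub_sub_right (s + y) (-x) s |>.symm, min_comm]
    congr 1 <;> ring
  have h2 : ∀ s : ℝ, ∫⁻ x, ENNReal.ofReal (min (-(s + x)) y) ∂ρ =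
      ∫⁻ u : ℝ, I1 (s, u) * ρ (Set.Iio (-u)) := by
    intro s
    simp only [h1]
    rw [lintegral_lintegral_swap (by
      refine Measurable.aemeasurable ?_
      exact (m1.comp (measurable_const.prodMk measurable_snd)).mul m2)]
    refine lintegral_congr fun u => ?_
    have m2' : Measurable fun x : ℝ => I2 (x, u) := m2.comp (measurable_id.prodMk measurable_const)
    rw [lintegral_const_mul _ m2']
    congr 1
    have e : ∀ x : ℝ, I2 (x, u) = (Set.Iio (-u)).indicator (fun _ => (1 : ℝ≥0∞)) x := fun x => rfl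
    simp only [e]
    rw [lintegral_indicator measurableSet_Iio, lintegral_one, Measure.restrict_apply_univ]
  simp only [h2]
  rw [lintegral_lintegral_swap (by
    refine Measurable.aemeasurable ?_
    exact m1.mul ((A17_tail ρ).comp measurable_snd))]
  refine lintegral_congr fun u => ?_
  have m1' : Measurable fun s : ℝ => I1 (s, u) := m1.comp (measurable_id.prodMk measurable_const)
  rw [lintegral_mul_const _ m1', mul_comm]
  congr 1
  have e : ∀ s : ℝ, I1 (s, u) = {s : ℝ | s ≤ u ∧ u < s + y}.indicator (fun _ => (1 : ℝ≥0∞)) s :=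
    fun s => rfl
  simp only [e]
  have hm : MeasurableSet {s : ℝ | s ≤ u ∧ u < s + y} :=
    (measurableSet_le measurable_id measurable_const).inter
      (measurableSet_lt measurable_const (measurable_id.add_const y))
  rw [lintegral_indicator hm, lintegral_one, Measure.restrict_apply_univ]

/-- The truncated mean of the ladder height. PROOF. `lintegral_ladS_kap` with `f h = ofReal (min h y)`. For `s ≥ 0` (true for
`kap k 0`-a.e. `s`): `∫⁻ x in {x | s+x ∉ D}, ofReal (min (-(s+x)) y) ∂ρ = ∫⁻ u in Ico s (s+y), ρ (Iio (-u))`, because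
for `x < -s` the Lebesgue measure of `{u ∈ [s, s+y) | u < -x}` is `min (-(s+x)) y` and for `x ≥ -s` both sides vanish
(`s + x ∉ D` implies `s + x ≤ 0`). Exchange the integrals (Tonelli). -/
theorem I_eq (hD : Dom D) [IsProbabilityMeasure ρ] (y : ℝ) (hy : 0 ≤ y) :
    ∫⁻ h, ENNReal.ofReal (min h y) ∂(ladS D ρ) = ∫⁻ u in Set.Ici (0 : ℝ), ρ (Set.Iio (-u)) *
      ∑' k, kap D ρ k 0 {s | s ≤ u ∧ u < s + y} := by
  have hfm : Measurable fun h : ℝ => ENNReal.ofReal (min h y) :=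
    ENNReal.measurable_ofReal.comp (measurable_id.min measurable_const)
  rw [lintegral_ladS_kap hD _ hfm]
  simp only [← ENNReal.tsum_mul_left]
  have hmk : ∀ k, Measurable fun u : ℝ => ρ (Set.Iio (-u)) * kap D ρ k 0 {s | s ≤ u ∧ u < s + y} :=
    fun k => (A17_tail ρ).mul (A17_win (kap D ρ k 0) y)
  rw [lintegral_tsum fun k => (hmk k).aemeasurable]
  refine tsum_congr fun k => ?_
  have h1 : ∫⁻ s, ∫⁻ x in {x | s + x ∉ D}, ENNReal.ofReal (min (-(s + x)) y) ∂ρ ∂(kap D ρ k 0) =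
      ∫⁻ s, ∫⁻ x, ENNReal.ofReal (min (-(s + x)) y) ∂ρ ∂(kap D ρ k 0) := by
    refine lintegral_congr fun s => ?_
    have hms : MeasurableSet {x : ℝ | s + x ∉ D} := (measurable_const_add s) hD.meas.compl
    rw [← lintegral_indicator hms]
    refine lintegral_congr fun x => ?_
    by_cases hx : s + x ∈ D
    · rw [Set.indicator_of_notMem (show x ∉ {x : ℝ | s + x ∉ D} from fun h => h hx)]
      symm
      rw [ENNReal.ofReal_eq_zero]
      exact (min_le_left _ _).trans (by linarith [hD.nonneg hx])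
    · rw [Set.indicator_of_mem (show x ∈ {x : ℝ | s + x ∉ D} from hx)]
  rw [h1, A17_ton, ← lintegral_indicator measurableSet_Ici]
  refine lintegral_congr fun u => ?_
  by_cases hu : 0 ≤ u
  · rw [Set.indicator_of_mem (Set.mem_Ici.2 hu)]
  · rw [Set.indicator_of_notMem (fun h => hu (Set.mem_Ici.1 h))]
    have h0 : kap D ρ k 0 {s | s ≤ u ∧ u < s + y} = 0 := by
      refine measure_mono_null (fun s hs => ?_) (ae_iff.1 (kap_ae_nonneg hD k (le_refl (0 : ℝ))))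
      intro hs0
      exact hu (le_trans hs0 hs.1)
    rw [h0, mul_zero]

/-- PROOF. Restrict `I_eq` to `u < y`: as `s ≥ 0` a.e., `{s | s ≤ u ∧ u < s + y} = Iic u` up to a null set, and
`∑' k, kap k 0 (Iic u) = GG u ≥ VV (Dst D) (dual ρ) u` (`le_GG`). Then `wald_le` with `z = a = y`
(`ladS_le_one`, `ladS_neg`): `(∫⁻ ofReal (min h y) ∂(ladS D ρ)) · VV y ≤ ofReal (2 y)`. -/
theorem tail_int (hD : Dom D) (hρ : Cen ρ) (y : ℝ) (hy : 0 ≤ y) :
    ∫⁻ u in Set.Ico 0 y, ENNReal.ofReal (vd D ρ u) * ρ (Set.Iio (-u)) ≤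
      ENNReal.ofReal (2 * (y / vr D ρ y)) := by
  have := hρ.prob
  have h1 : ∫⁻ u in Set.Ico 0 y, ENNReal.ofReal (vd D ρ u) * ρ (Set.Iio (-u)) ≤
      ∫⁻ h, ENNReal.ofReal (min h y) ∂(ladS D ρ) := by
    rw [I_eq hD y hy]
    refine le_trans ?_ (lintegral_mono_set (Set.Ico_subset_Ici_self : Set.Ico (0 : ℝ) y ⊆ Set.Ici 0))
    refine setLIntegral_mono' measurableSet_Ico fun u hu => ?_
    rw [mul_comm]
    refine mul_le_mul' le_rfl ?_
    have e : ENNReal.ofReal (vd D ρ u) = VV (Dst D) (dual ρ) u :=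
      (VV_eq (dom_Dst hD) hρ.dual u).symm
    rw [e]
    refine (le_GG hD u hu.1).trans ?_
    unfold GG
    refine ENNReal.tsum_le_tsum fun k => ?_
    refine measure_mono_ae ?_
    filter_upwards [kap_ae_nonneg hD k (le_refl (0 : ℝ))] with s hs hsu
    have hsu' : s ≤ u := hsu
    exact ⟨hsu', by linarith [hu.2]⟩
  refine h1.trans ?_
  have h2 := wald_le hD (ladS_le_one (ρ := ρ) hD) (ladS_neg hD) y y hy hy
  have h3 : VT D (ladS D ρ) y = ENNReal.ofReal (vr D ρ y) := VV_eq hD hρ y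
  rw [h3] at h2
  have hv : 0 < vr D ρ y := lt_of_lt_of_le one_pos (one_le_vr hD hρ y)
  have h4 : ENNReal.ofReal (2 * (y / vr D ρ y)) = ENNReal.ofReal (y + y) / ENNReal.ofReal (vr D ρ y) := by
    rw [← ENNReal.ofReal_div_of_pos hv]
    congr 1
    ring
  rw [h4, ENNReal.le_div_iff_mul_le (Or.inl (ENNReal.ofReal_pos.2 hv).ne') (Or.inl ENNReal.ofReal_ne_top)]
  exact h2

/-- PROOF. For `1 ≤ j ≤ ⌊y⌋` and `u ∈ [j - 1/2, j)`: `ρ (Iio (-u)) ≥ ρ (Iic (-j))` and `vd (j+1) ≤ 5 vd (j - 1/2) ≤ 5 vd u`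
(`vd_ratio`, `(j+1)/(j-1/2) ≤ 4`). So `vd (j+1) ρ(Iic (-j)) ≤ 10 ∫_{[j-1/2, j)} vd u ρ(Iio (-u)) du`, and the sum over
`1 ≤ j ≤ ⌊y⌋` is at most `20 y/vr y` by `tail_int`. The term `j = 0` is at most `vd 1 ≤ 2 vd 1 vr 1 (y/vr y)` since
`vr y ≤ (1 + y) vr 1 ≤ 2 y vr 1` (`vr_ratio`). -/
theorem tail_sum (hD : Dom D) (hρ : Cen ρ) : ∃ K : ℝ, 1 ≤ K ∧ ∀ y : ℝ, 1 ≤ y →
    ∑ j ∈ Finset.range (⌊y⌋₊ + 1), vd D ρ (j + 1) * ρ.real (Set.Iic (-(j : ℝ))) ≤ K * (y / vr D ρ y) := by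
  have := hρ.prob
  have hv1 : 1 ≤ vr D ρ 1 := one_le_vr hD hρ 1
  have hd1 : 1 ≤ vd D ρ 1 := one_le_vd hD hρ 1
  refine ⟨20 + 2 * vd D ρ 1 * vr D ρ 1, by nlinarith, fun y hy => ?_⟩
  have hy0 : 0 < y := by linarith
  have hv : 0 < vr D ρ y := lt_of_lt_of_le one_pos (one_le_vr hD hρ y)
  have hq0 : 0 < y / vr D ρ y := by positivity
  set f : ℝ → ℝ≥0∞ := fun u => ENNReal.ofReal (vd D ρ u) * ρ (Set.Iio (-u)) with hf
  -- one term
  have hterm : ∀ j : ℕ, ENNReal.ofReal (vd D ρ ((j : ℝ) + 1 + 1) * ρ.real (Set.Iic (-((j : ℝ) + 1)))) ≤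
      10 * ∫⁻ u in Set.Ico ((j : ℝ) + 1 / 2) ((j : ℝ) + 1), f u := by
    intro j
    have hj0 : (0 : ℝ) ≤ j := Nat.cast_nonneg j
    have h1 : vd D ρ ((j : ℝ) + 1 + 1) ≤ 5 * vd D ρ ((j : ℝ) + 1 / 2) := by
      have h2 := vd_ratio hD hρ (y := (j : ℝ) + 1 / 2) (z := (j : ℝ) + 1 + 1) (by linarith) (by linarith)
      have h3 : ((j : ℝ) + 1 + 1) / ((j : ℝ) + 1 / 2) ≤ 4 := by
        rw [div_le_iff₀ (by linarith)]
        linarith
      have h4 : 0 < vd D ρ ((j : ℝ) + 1 / 2) := lt_of_lt_of_le one_pos (one_le_vd hD hρ _)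
      nlinarith
    set c : ℝ≥0∞ := ENNReal.ofReal (vd D ρ ((j : ℝ) + 1 + 1) * ρ.real (Set.Iic (-((j : ℝ) + 1)))) with hc
    have h5 : ∀ u ∈ Set.Ico ((j : ℝ) + 1 / 2) ((j : ℝ) + 1), c ≤ 5 * f u := by
      intro u hu
      have h6 : vd D ρ ((j : ℝ) + 1 + 1) ≤ 5 * vd D ρ u :=
        h1.trans (mul_le_mul_of_nonneg_left (vd_mono hD hρ hu.1) (by norm_num))
      have hd0 : 0 ≤ vd D ρ u := zero_le_one.trans (one_le_vd hD hρ u)
      rw [hc, ENNReal.ofReal_mul (zero_le_one.trans (one_le_vd hD hρ _)), ofReal_measureReal, hf]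
      dsimp only
      rw [← mul_assoc]
      refine mul_le_mul' ?_ ?_
      · have e5 : (5 : ℝ≥0∞) = ENNReal.ofReal 5 := by simp
        rw [e5, ← ENNReal.ofReal_mul (by norm_num)]
        exact ENNReal.ofReal_le_ofReal h6
      · refine measure_mono fun x hx => ?_
        have hx' : x ≤ -((j : ℝ) + 1) := hx
        change x < -u
        linarith [hu.2]
    have h7 : c * ENNReal.ofReal (1 / 2) ≤ 5 * ∫⁻ u in Set.Ico ((j : ℝ) + 1 / 2) ((j : ℝ) + 1), f u := by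
      have h8 : c * ENNReal.ofReal (1 / 2) = ∫⁻ _ in Set.Ico ((j : ℝ) + 1 / 2) ((j : ℝ) + 1), c := by
        rw [setLIntegral_const, Real.volume_Ico]
        congr 2
        ring
      rw [h8]
      refine (setLIntegral_mono' measurableSet_Ico h5).trans ?_
      rw [lintegral_const_mul' _ _ (by norm_num)]
    have h9 : c = 2 * (c * ENNReal.ofReal (1 / 2)) := by
      have e2 : (2 : ℝ≥0∞) = ENNReal.ofReal 2 := by simp
      rw [mul_comm c, ← mul_assoc, e2, ← ENNReal.ofReal_mul (by norm_num)]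
      norm_num
    rw [h9]
    calc 2 * (c * ENNReal.ofReal (1 / 2))
        ≤ 2 * (5 * ∫⁻ u in Set.Ico ((j : ℝ) + 1 / 2) ((j : ℝ) + 1), f u) := mul_le_mul' le_rfl h7
      _ = 10 * ∫⁻ u in Set.Ico ((j : ℝ) + 1 / 2) ((j : ℝ) + 1), f u := by
          rw [← mul_assoc]
          norm_num
  -- the sum over `j ≥ 1`
  have hsum : ENNReal.ofReal (∑ j ∈ Finset.range ⌊y⌋₊,
      vd D ρ ((j : ℝ) + 1 + 1) * ρ.real (Set.Iic (-((j : ℝ) + 1)))) ≤
      ENNReal.ofReal (20 * (y / vr D ρ y)) := by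
    rw [ENNReal.ofReal_sum_of_nonneg fun j _ => mul_nonneg (zero_le_one.trans (one_le_vd hD hρ _))
      measureReal_nonneg]
    refine (Finset.sum_le_sum fun j _ => hterm j).trans ?_
    rw [← Finset.mul_sum]
    have hdis : Set.PairwiseDisjoint (↑(Finset.range ⌊y⌋₊))
        (fun j : ℕ => Set.Ico ((j : ℝ) + 1 / 2) ((j : ℝ) + 1)) := by
      intro i _ j _ hij
      rw [Function.onFun, Set.disjoint_left]
      intro u hui huj
      rcases lt_or_gt_of_ne hij with h | h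
      · have h' : (i : ℝ) + 1 ≤ j := by exact_mod_cast h
        linarith [hui.2, huj.1]
      · have h' : (j : ℝ) + 1 ≤ i := by exact_mod_cast h
        linarith [huj.2, hui.1]
    rw [← lintegral_biUnion_finset hdis fun j _ => measurableSet_Ico]
    have hsub : (⋃ j ∈ Finset.range ⌊y⌋₊, Set.Ico ((j : ℝ) + 1 / 2) ((j : ℝ) + 1)) ⊆ Set.Ico 0 y := by
      intro u hu
      simp only [Set.mem_iUnion, Finset.mem_range, exists_prop] at hu
      obtain ⟨j, hj, hu1, hu2⟩ := hu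
      have hj0 : (0 : ℝ) ≤ j := Nat.cast_nonneg j
      have h' : (j : ℝ) + 1 ≤ ⌊y⌋₊ := by exact_mod_cast hj
      have h'' : (⌊y⌋₊ : ℝ) ≤ y := Nat.floor_le hy0.le
      exact ⟨by linarith, by linarith⟩
    have h3 := (lintegral_mono_set (f := f) (μ := volume) hsub).trans (tail_int hD hρ y hy0.le)
    calc 10 * ∫⁻ u in ⋃ j ∈ Finset.range ⌊y⌋₊, Set.Ico ((j : ℝ) + 1 / 2) ((j : ℝ) + 1), f u
        ≤ 10 * ENNReal.ofReal (2 * (y / vr D ρ y)) := mul_le_mul' le_rfl h3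
      _ = ENNReal.ofReal (20 * (y / vr D ρ y)) := by
          have e10 : (10 : ℝ≥0∞) = ENNReal.ofReal 10 := by simp
          rw [e10, ← ENNReal.ofReal_mul (by norm_num)]
          congr 1
          ring
  have hsum' : ∑ j ∈ Finset.range ⌊y⌋₊,
      vd D ρ ((j : ℝ) + 1 + 1) * ρ.real (Set.Iic (-((j : ℝ) + 1))) ≤ 20 * (y / vr D ρ y) :=
    (ENNReal.ofReal_le_ofReal_iff (by positivity)).1 hsum
  -- the term `j = 0`
  have hzero : vd D ρ ((0 : ℕ) + 1) * ρ.real (Set.Iic (-((0 : ℕ) : ℝ))) ≤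
      2 * vd D ρ 1 * vr D ρ 1 * (y / vr D ρ y) := by
    have h1 : ρ.real (Set.Iic (-((0 : ℕ) : ℝ))) ≤ 1 := measureReal_le_one
    have h2 : vd D ρ ((0 : ℕ) + 1) = vd D ρ 1 := by norm_num
    rw [h2]
    have h3 := vr_ratio hD hρ (y := 1) (z := y) one_pos hy
    rw [div_one] at h3
    have h4 : vr D ρ y ≤ 2 * y * vr D ρ 1 := by nlinarith
    have h5 : 1 ≤ 2 * vr D ρ 1 * (y / vr D ρ y) := by
      rw [mul_div_assoc', le_div_iff₀ hv]
      linarith
    calc vd D ρ 1 * ρ.real (Set.Iic (-((0 : ℕ) : ℝ))) ≤ vd D ρ 1 * 1 :=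
          mul_le_mul_of_nonneg_left h1 (by linarith)
      _ ≤ vd D ρ 1 * (2 * vr D ρ 1 * (y / vr D ρ y)) := mul_le_mul_of_nonneg_left h5 (by linarith)
      _ = 2 * vd D ρ 1 * vr D ρ 1 * (y / vr D ρ y) := by ring
  rw [Finset.sum_range_succ']
  push_cast at hzero ⊢
  calc _ ≤ 20 * (y / vr D ρ y) + 2 * vd D ρ 1 * vr D ρ 1 * (y / vr D ρ y) := add_le_add hsum' hzero
    _ = (20 + 2 * vd D ρ 1 * vr D ρ 1) * (y / vr D ρ y) := by ring

end Pool.Agent.BPT
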