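import Pool.Agent.MP_99a865_pr.ST.A17
import Pool.Agent.MP_99a865_pr.CV.K9

/-!
# [STB-A17b] Tail integrals against the dual renewal function, lower bound
-/

open MeasureTheory ProbabilityTheory Filter Topology
open scoped ENNReal NNReal

namespace Pool.Agent.BPT

variable {D : Set ℝ} {ρ : Measure ℝ} {p C x₀ : ℝ}

/-- The Green measure of an interval. PROOF. For `z ≥ 0`, `VV (Dst D) (dual ρ) z = 1 + ∑'_{k ≥ 1} kap D ρ k 0 {s | z - s ∈ Dst D}`
(`lad_renewal` and `K7_kap` for `Dst D`, `dual ρ`; `Dst_Dst`, `dual_dual`). The sets `Ioc (u-y) u` and `{s | u - y - s ∈ Dst D}` are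
disjoint subsets of `{s | u + 1 - s ∈ Dst D}`, and `dirac 0 (Ioc (u-y) u) = 0` (`u - y ≥ 0`). So
`∑' k, kap k 0 (Ioc (u-y) u) + VV* (u-y) ≤ VV* (u+1) ≤ VV* (u-y) + VV* (y+1)` (`VT_add_le`); cancel `VV* (u-y) < ∞`. -/
theorem green_Ioc (hD : Dom D) (hρ : Cen ρ) (u y : ℝ) (hy : 0 ≤ y) (hu : y ≤ u) :
    ∑' k, kap D ρ k 0 (Set.Ioc (u - y) u) ≤ ENNReal.ofReal (vd D ρ (y + 1)) := by
  have hp := hρ.prob
  have := prob_dual (ρ := ρ)
  have hDs := dom_Dst hD
  have hρs := hρ.dual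
  have huy : 0 ≤ u - y := by linarith
  have hfin : VV (Dst D) (dual ρ) (u - y) ≠ ⊤ := VV_fin hDs hρs _
  -- term by term
  have hterm : ∀ k, kap D ρ k 0 (Set.Ioc (u - y) u) +
      seqLaw (dual ρ) {ω | Lad (Dst D) k ω ∧ (k = 0 ∨ (u - y) + S k ω ∈ Dst D)} ≤
      seqLaw (dual ρ) {ω | Lad (Dst D) k ω ∧ (k = 0 ∨ (u + 1) + S k ω ∈ Dst D)} := by
    intro k
    rw [K7_kap hD k _ measurableSet_Ioc]
    have hm : MeasurableSet {ω : ℕ → ℝ | Lad (Dst D) k ω ∧ -S k ω ∈ Set.Ioc (u - y) u} :=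
      MeasurableSet.inter (measurableSet_Lad hDs k) ((measurable_S k).neg measurableSet_Ioc)
    have hdis : Disjoint {ω : ℕ → ℝ | Lad (Dst D) k ω ∧ -S k ω ∈ Set.Ioc (u - y) u}
        {ω | Lad (Dst D) k ω ∧ (k = 0 ∨ (u - y) + S k ω ∈ Dst D)} := by
      rw [Set.disjoint_left]
      rintro ω ⟨_, h1⟩ ⟨_, h2⟩
      rcases h2 with h2 | h2
      · rw [h2, A1_S_zero] at h1
        have := h1.1
        linarith
      · have h3 := hDs.nonneg h2
        have := h1.1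
        linarith
    rw [← measure_union' hdis hm]
    apply measure_mono
    rintro ω (⟨h1, h2⟩ | ⟨h1, h2⟩)
    · refine ⟨h1, Or.inr (hDs.pos ?_)⟩
      have := h2.2
      linarith
    · refine ⟨h1, ?_⟩
      rcases h2 with h2 | h2
      · exact Or.inl h2
      · exact Or.inr (hDs.up h2 (by linarith))
  have h1 : ∑' k, kap D ρ k 0 (Set.Ioc (u - y) u) + VV (Dst D) (dual ρ) (u - y) ≤
      VV (Dst D) (dual ρ) (u + 1) := by
    rw [← lad_renewal hDs (u - y) huy, ← lad_renewal hDs (u + 1) (by linarith), ← ENNReal.tsum_add]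
    exact ENNReal.tsum_le_tsum hterm
  have h2 : VV (Dst D) (dual ρ) (u + 1) ≤ VV (Dst D) (dual ρ) (u - y) + VV (Dst D) (dual ρ) (y + 1) := by
    have := VT_add_le hDs (τ := ladS (Dst D) (dual ρ)) (ladS_le_one hDs) (ladS_neg hDs) huy
      (show 0 ≤ y + 1 by linarith)
    rw [show u - y + (y + 1) = u + 1 by ring] at this
    exact this
  have h3 : ∑' k, kap D ρ k 0 (Set.Ioc (u - y) u) + VV (Dst D) (dual ρ) (u - y) ≤
      VV (Dst D) (dual ρ) (y + 1) + VV (Dst D) (dual ρ) (u - y) := by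
    rw [add_comm (VV (Dst D) (dual ρ) (y + 1))]
    exact h1.trans h2
  have h4 := (ENNReal.add_le_add_iff_right hfin).mp h3
  rw [VV_eq hDs hρs] at h4
  exact h4

/-- Lower bound. PROOF. `wald_trunc` (`ladS_univ` — CV/K9 —, `ladS_neg`) with `z = a = y`, and `I_eq`: the mass
`∑' k, kap k 0 {s | s ≤ u ∧ u < s + y}` is at most `GG u ≤ VV* (u+1)` (`GG_le`), and for `u ≥ y` at most `vd (y+1)` (`green_Ioc`;
`{s | s ≤ u ∧ u < s + y} = Ioc (u-y) u`); for `u < y` also `≤ vd (u+1) ≤ vd (y+1)`. Finally `vd (y+1) ≤ 3 vd y`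
(`vd_ratio`, `y ≥ 1`). -/
theorem tail_int_ge (hD : Dom D) (hρ : Cen ρ) (y : ℝ) (hy : 1 ≤ y) :
    ENNReal.ofReal (y / vr D ρ y) ≤ 3 * ∫⁻ u in Set.Ici (0 : ℝ),
      ENNReal.ofReal (min (vd D ρ (u + 1)) (vd D ρ y)) * ρ (Set.Iio (-u)) := by
  have hp := hρ.prob
  have := prob_dual (ρ := ρ)
  have hDs := dom_Dst hD
  have hρs := hρ.dual
  have hy0 : 0 ≤ y := by linarith
  have hv : 0 < vr D ρ y := lt_of_lt_of_le one_pos (one_le_vr hD hρ y)
  have hfin : VT D (ladS D ρ) y ≠ ⊤ := VV_fin hD hρ y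
  have h1 := wald_trunc hD (ladS_univ hD hρ) (ladS_neg hD) y y hy0 le_rfl hfin
  rw [I_eq hD y hy0] at h1
  have hvd3 : vd D ρ (y + 1) ≤ 3 * vd D ρ y := by
    have h2 := vd_ratio hD hρ (show 0 < y by linarith) (show y ≤ y + 1 by linarith)
    have h3 : (y + 1) / y ≤ 2 := by
      rw [div_le_iff₀ (by linarith)]
      linarith
    have h4 : 0 < vd D ρ y := lt_of_lt_of_le one_pos (one_le_vd hD hρ y)
    nlinarith
  have hmass : ∀ u, 0 ≤ u → ∑' k, kap D ρ k 0 {s | s ≤ u ∧ u < s + y} ≤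
      3 * ENNReal.ofReal (min (vd D ρ (u + 1)) (vd D ρ y)) := by
    intro u hu
    have e1 : ∑' k, kap D ρ k 0 {s | s ≤ u ∧ u < s + y} ≤ ENNReal.ofReal (vd D ρ (u + 1)) := by
      have : ∑' k, kap D ρ k 0 {s | s ≤ u ∧ u < s + y} ≤ GG D ρ u := by
        unfold GG
        exact ENNReal.tsum_le_tsum fun k => measure_mono fun s hs => hs.1
      refine this.trans ((GG_le hD u hu).trans ?_)
      rw [VV_eq hDs hρs]
      exact le_rfl
    have e2 : ∑' k, kap D ρ k 0 {s | s ≤ u ∧ u < s + y} ≤ ENNReal.ofReal (vd D ρ (y + 1)) := by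
      rcases le_or_gt y u with huy | huy
      · have : {s : ℝ | s ≤ u ∧ u < s + y} = Set.Ioc (u - y) u := by
          ext s
          simp only [Set.mem_ofPred_eq, Set.mem_Ioc]
          constructor
          · rintro ⟨a1, a2⟩
            exact ⟨by linarith, a1⟩
          · rintro ⟨a1, a2⟩
            exact ⟨a2, by linarith⟩
        rw [this]
        exact green_Ioc hD hρ u y hy0 huy
      · exact e1.trans (ENNReal.ofReal_le_ofReal (vd_mono hD hρ (by linarith)))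
    have e3 : ∑' k, kap D ρ k 0 {s | s ≤ u ∧ u < s + y} ≤
        ENNReal.ofReal (min (vd D ρ (u + 1)) (vd D ρ (y + 1))) := by
      rcases le_total (vd D ρ (u + 1)) (vd D ρ (y + 1)) with h | h
      · rw [min_eq_left h]; exact e1
      · rw [min_eq_right h]; exact e2
    refine e3.trans ?_
    rw [show (3 : ℝ≥0∞) = ENNReal.ofReal 3 by simp, ← ENNReal.ofReal_mul (by norm_num)]
    apply ENNReal.ofReal_le_ofReal
    rcases le_total (vd D ρ (u + 1)) (vd D ρ y) with h | h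
    · rw [min_eq_left h]
      have : 0 < vd D ρ (u + 1) := lt_of_lt_of_le one_pos (one_le_vd hD hρ _)
      exact (min_le_left _ _).trans (by linarith)
    · rw [min_eq_right h]
      exact (min_le_right _ _).trans hvd3
  have h2 : (∫⁻ u in Set.Ici (0 : ℝ), ρ (Set.Iio (-u)) *
      ∑' k, kap D ρ k 0 {s | s ≤ u ∧ u < s + y}) ≤
      3 * ∫⁻ u in Set.Ici (0 : ℝ), ENNReal.ofReal (min (vd D ρ (u + 1)) (vd D ρ y)) * ρ (Set.Iio (-u)) := by
    rw [← lintegral_const_mul' _ _ (by norm_num)]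
    refine setLIntegral_mono' measurableSet_Ici fun u hu => ?_
    calc ρ (Set.Iio (-u)) * ∑' k, kap D ρ k 0 {s | s ≤ u ∧ u < s + y}
        ≤ ρ (Set.Iio (-u)) * (3 * ENNReal.ofReal (min (vd D ρ (u + 1)) (vd D ρ y))) :=
          mul_le_mul_right (hmass u hu) _
      _ = 3 * (ENNReal.ofReal (min (vd D ρ (u + 1)) (vd D ρ y)) * ρ (Set.Iio (-u))) := by ring
  have h3 : VT D (ladS D ρ) y = ENNReal.ofReal (vr D ρ y) := VV_eq hD hρ y
  rw [h3] at h1
  rw [ENNReal.ofReal_div_of_pos hv]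
  rw [ENNReal.div_le_iff (by simpa using hv) ENNReal.ofReal_ne_top]
  exact h1.trans (mul_le_mul_left h2 _)

end Pool.Agent.BPT
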