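import Pool.Agent.MP_99a865_pr.ST.A5

/-!
# [STB-A6] First moment of the tail of `S_n`
-/

open MeasureTheory ProbabilityTheory Filter Topology
open scoped ENNReal NNReal

namespace Pool.Agent.BPT

variable {D : Set ℝ} {ρ : Measure ℝ} {p C x₀ : ℝ}

/-- single time, and positions of the killed walk. PROOF. `Reg.maxi`; `kap ≤ fre` (`kap_le_fre`) and
`fre ρ n x {z | y ≤ |z - x|} = seqLaw ρ {ω | y ≤ |S n ω|}`. -/
theorem Reg.cheb (h : Reg ρ p C x₀) : ∃ K : ℝ, 1 ≤ K ∧ ∀ n : ℕ, ∀ y : ℝ, 1 ≤ y →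
    (seqLaw ρ).real {ω | y ≤ |S n ω|} ≤ K * (n * Lam ρ y) ∧
    (∀ x : ℝ, (fre ρ n x).real {z | y ≤ |z - x|} ≤ K * (n * Lam ρ y)) ∧
    (∀ D : Set ℝ, Dom D → ∀ x : ℝ, (kap D ρ n x).real {z | y ≤ |z - x|} ≤ K * (n * Lam ρ y)) := by
  have hp := h.cen.prob
  obtain ⟨K, hK, hmax⟩ := h.maxi
  refine ⟨K, hK, fun n y hy => ?_⟩
  have h1 : (seqLaw ρ).real {ω | y ≤ |S n ω|} ≤ K * (n * Lam ρ y) := by
    refine le_trans (measureReal_mono ?_ (measure_ne_top _ _)) (hmax n y hy)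
    intro ω hω
    exact ⟨n, le_rfl, hω⟩
  have hms : ∀ x : ℝ, MeasurableSet {z : ℝ | y ≤ |z - x|} := fun x =>
    measurableSet_le measurable_const (measurable_id.sub_const x).abs
  have h2 : ∀ x : ℝ, fre ρ n x {z | y ≤ |z - x|} = seqLaw ρ {ω | y ≤ |S n ω|} := by
    intro x
    unfold fre
    rw [Measure.map_apply (A1_meas_add n x) (hms x)]
    congr 1
    ext ω
    simp only [Set.mem_preimage, Set.mem_setOf_eq, add_sub_cancel_left]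
  have h3 : ∀ x : ℝ, (fre ρ n x).real {z | y ≤ |z - x|} ≤ K * (n * Lam ρ y) := by
    intro x
    rw [Measure.real, h2 x]
    exact h1
  refine ⟨h1, h3, fun D hD x => ?_⟩
  refine le_trans ?_ (h3 x)
  rw [Measure.real, Measure.real]
  apply ENNReal.toReal_mono
  · rw [h2 x]
    exact measure_ne_top _ _
  · exact kap_le_fre hD n x _

/-- PROOF. `dyadic_tail` with `μ = seqLaw ρ`, `f ω = |S n ω|` and `q = K₁ K n Lam y`: by `Reg.maxi` and `Reg.all`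
`P(|S_n| ≥ 2^j y) ≤ K n Lam (2^j y) ≤ K K₁ (2^j)^{-p} n Lam y`. -/
theorem Reg.momS (h : Reg ρ p C x₀) : ∃ K : ℝ, 1 ≤ K ∧ ∀ n : ℕ, ∀ y : ℝ, 1 ≤ y →
    ∫⁻ ω in {ω | y ≤ |S n ω|}, ENNReal.ofReal |S n ω| ∂(seqLaw ρ) ≤
      ENNReal.ofReal (K * (y * (n * Lam ρ y))) := by
  have hp := h.cen.prob
  obtain ⟨K, hK, hcheb⟩ := h.cheb
  obtain ⟨K₁, hK₁, hall⟩ := h.all
  refine ⟨max 1 (2 / (1 - (2 : ℝ) ^ (1 - p)) * (K₁ * K)), le_max_left _ _, fun n y hy => ?_⟩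
  have hL : 0 ≤ Lam ρ y := Lam_nonneg ρ y
  have hq : 0 ≤ K₁ * K * (n * Lam ρ y) := by positivity
  have hd := dyadic_tail (seqLaw ρ) (fun ω => |S n ω|) (measurable_S n).abs (p := p)
    (q := K₁ * K * (n * Lam ρ y)) (y := y) h.p1 hq (by linarith) (by
      intro j
      have hj : (1 : ℝ) ≤ 2 ^ j := one_le_pow₀ (by norm_num)
      have hjy : (1 : ℝ) ≤ 2 ^ j * y := by nlinarith
      have e := (hcheb n (2 ^ j * y) hjy).1
      have e2 := hall y hy (2 ^ j) hj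
      rw [← ENNReal.ofReal_toReal (measure_ne_top (seqLaw ρ) {a | 2 ^ j * y ≤ |S n a|})]
      apply ENNReal.ofReal_le_ofReal
      refine le_trans e ?_
      have hn : (0 : ℝ) ≤ n := Nat.cast_nonneg n
      calc K * (n * Lam ρ (2 ^ j * y)) ≤ K * (n * (K₁ * (2 ^ j) ^ (-p) * Lam ρ y)) := by gcongr
        _ = K₁ * K * (n * Lam ρ y) * ((2 : ℝ) ^ j) ^ (-p) := by ring)
  refine le_trans hd (ENNReal.ofReal_le_ofReal ?_)
  calc 2 / (1 - (2 : ℝ) ^ (1 - p)) * y * (K₁ * K * (n * Lam ρ y))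
      = 2 / (1 - (2 : ℝ) ^ (1 - p)) * (K₁ * K) * (y * (n * Lam ρ y)) := by ring
    _ ≤ max 1 (2 / (1 - (2 : ℝ) ^ (1 - p)) * (K₁ * K)) * (y * (n * Lam ρ y)) := by
        apply mul_le_mul_of_nonneg_right (le_max_right _ _)
        positivity

end Pool.Agent.BPT
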