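import Pool.Agent.MP_99a865_pr.ST.A11
import Pool.Agent.MP_99a865_pr.ST.A6

/-!
# [STB-A18] Large displacements of the killed walk
-/

open MeasureTheory ProbabilityTheory Filter Topology
open scoped ENNReal NNReal

namespace Pool.Agent.BPT

variable {D : Set ℝ} {ρ : Measure ℝ} {p C x₀ : ℝ}

lemma A18_kap_real_le_one [IsProbabilityMeasure ρ] (n : ℕ) (x : ℝ) (s : Set ℝ) :
    (kap D ρ n x).real s ≤ 1 := by
  unfold Measure.real
  refine ENNReal.toReal_le_of_le_ofReal zero_le_one ?_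
  rw [ENNReal.ofReal_one]
  exact (measure_mono (Set.subset_univ _)).trans (kap_univ_le_one _ _)

lemma A18_markov (hD : Dom D) [IsProbabilityMeasure ρ] (k l : ℕ) (x : ℝ) {J : Set ℝ}
    (hJ : MeasurableSet J) :
    (kap D ρ (k + l) x).real J = ∫ z, (kap D ρ l z).real J ∂(kap D ρ k x) := by
  have h4 := integral_kap_add hD (ρ := ρ) k l x (J.indicator fun _ => (1 : ℝ))
    (measurable_const.indicator hJ) 1 (fun y => by
      by_cases hy : y ∈ J
      · simp [hy]
      · simp [hy])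
  have h5 : ∀ μ : Measure ℝ, ∫ z, J.indicator (fun _ => (1 : ℝ)) z ∂μ = μ.real J := by
    intro μ
    rw [integral_indicator hJ]
    simp
  simp only [h5] at h4
  exact h4

lemma A18_meas (hD : Dom D) [IsProbabilityMeasure ρ] (l : ℕ) {J : Set ℝ} (hJ : MeasurableSet J) :
    Measurable fun z => (kap D ρ l z).real J :=
  ((Measure.measurable_coe hJ).comp (measurable_kap hD (ρ := ρ) l)).ennreal_toReal

lemma A18_one (hD : Dom D) [IsProbabilityMeasure ρ] {s c b : ℝ} (hb : s + b ≤ c) :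
    (kap D ρ 1 s).real (Set.Ioi c) ≤ ρ.real {x | b ≤ |x|} := by
  unfold Measure.real
  refine ENNReal.toReal_mono (measure_ne_top _ _) ?_
  have h1 := lintegral_kap_one hD (ρ := ρ) s ((Set.Ioi c).indicator fun _ => (1 : ℝ≥0∞))
    (measurable_const.indicator measurableSet_Ioi)
  rw [lintegral_indicator measurableSet_Ioi] at h1
  simp only [lintegral_const, one_mul, Measure.restrict_apply_univ] at h1
  rw [h1]
  have hm : MeasurableSet {x : ℝ | b ≤ |x|} := measurableSet_le measurable_const measurable_id.abs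
  calc ∫⁻ y in {y | s + y ∈ D}, (Set.Ioi c).indicator (fun _ => (1 : ℝ≥0∞)) (s + y) ∂ρ
      ≤ ∫⁻ y, (Set.Ioi c).indicator (fun _ => (1 : ℝ≥0∞)) (s + y) ∂ρ :=
        lintegral_mono' Measure.restrict_le_self le_rfl
    _ ≤ ∫⁻ y, ({x : ℝ | b ≤ |x|}).indicator (fun _ => (1 : ℝ≥0∞)) y ∂ρ := by
        refine lintegral_mono fun y => ?_
        by_cases hy : c < s + y
        · have h2 : y ∈ {x : ℝ | b ≤ |x|} := by
            show b ≤ |y|
            refine le_trans ?_ (le_abs_self y)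
            linarith
          rw [Set.indicator_of_mem (Set.mem_Ioi.mpr hy), Set.indicator_of_mem h2]
        · rw [Set.indicator_of_notMem (fun h => hy (Set.mem_Ioi.mp h))]
          exact zero_le
    _ = ρ {x | b ≤ |x|} := by
        rw [lintegral_indicator hm]
        simp

/-- Going up. PROOF. Let `b = a/4 ≥ 1`, `β = K n Lam (2 b)` (`K` of `Reg.cheb`; so `P(|S_l| ≥ 2b) ≤ β` for `l ≤ n`, `β ≤ 4 K n Lam a` by
`Lam_sq`), `Λ = ρ.real {x | b ≤ |x|} ≤ Lam b ≤ 16 Lam a`, `F_l(s) = (kap l s).real (Ici a)`.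
Claim: `F_l(s) ≤ β vr s/vr b + Λ ∑_{k<l} al k s` for `l ≤ n`, `0 ≤ s ≤ 2b`. `l = 0`: `F_0(s) = 0` (`s < a`). Step, `s ≥ b`:
`F_{l+1}(s) ≤ P(|S_{l+1}| ≥ a - 2b = 2b) ≤ β ≤ β vr s/vr b`. Step, `s < b`: `F_{l+1}(s) = ∫ F_l ∂(kap 1 s)` (Markov property at time
one); on `s' ≤ 2b` use the induction hypothesis, `∫ vr ∂(kap 1 s) = vr s` (`harm_real`) and `∫ al k ∂(kap 1 s) = al (k+1) s`
(`al_add`); on `s' > 2b` use `F_l ≤ 1` and `kap 1 s (Ioi (2b)) ≤ ρ{x ≥ b} ≤ Λ = Λ al 0 s`.
For the statement: `vr a ≤ 5 vr b` (`vr_ratio`), `l = n`, `s = x ≤ a/2 = 2b`. -/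
theorem Reg.up_far (hD : Dom D) (h : Reg ρ p C x₀) : ∃ K : ℝ, 1 ≤ K ∧ ∀ (n : ℕ) (a x : ℝ), 4 ≤ a → 0 ≤ x →
    x ≤ a / 2 → (kap D ρ n x).real (Set.Ici a) ≤
      K * (n * Lam ρ a * (vr D ρ x / vr D ρ a) + Lam ρ a * ∑ k ∈ Finset.range n, al D ρ k x) := by
  obtain ⟨K₀, hK₀, hch⟩ := h.cheb
  have hρ := h.cen
  have hp := hρ.prob
  refine ⟨20 * K₀ + 16, by linarith, ?_⟩
  intro n a x ha hx0 hxa
  set b := a / 4 with hb
  have hb1 : 1 ≤ b := by rw [hb]; linarith
  have hb0 : 0 < b := by linarith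
  set β := K₀ * (n * Lam ρ (2 * b)) with hβ
  have hβ0 : 0 ≤ β := by
    have := Lam_nonneg ρ (2 * b)
    positivity
  set Λ := ρ.real {x | b ≤ |x|} with hΛ
  have hΛ0 : 0 ≤ Λ := measureReal_nonneg
  have hvb : 0 < vr D ρ b := lt_of_lt_of_le one_pos (one_le_vr hD hρ b)
  have hv0 : ∀ s, 0 < vr D ρ s := fun s => lt_of_lt_of_le one_pos (one_le_vr hD hρ s)
  have claim : ∀ l ≤ n, ∀ s, 0 ≤ s → s ≤ 2 * b → (kap D ρ l s).real (Set.Ici a) ≤
      β * (vr D ρ s / vr D ρ b) + Λ * ∑ k ∈ Finset.range l, al D ρ k s := by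
    intro l
    induction l with
    | zero =>
      intro _ s hs0 hs2
      have h1 : (kap D ρ 0 s).real (Set.Ici a) = 0 := by
        rw [kap_zero, Measure.real, Measure.dirac_apply' _ measurableSet_Ici]
        have : s ∉ Set.Ici a := by
          rw [Set.mem_Ici, not_le]
          rw [hb] at hs2
          linarith
        simp [this]
      rw [h1]
      simp only [Finset.range_zero, Finset.sum_empty, mul_zero, add_zero]
      have := hv0 s
      positivity
    | succ l ih =>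
      intro hl s hs0 hs2
      have hS0 : 0 ≤ Λ * ∑ k ∈ Finset.range (l + 1), al D ρ k s :=
        mul_nonneg hΛ0 (Finset.sum_nonneg fun k _ => al_nonneg D ρ k s)
      by_cases hsb : b ≤ s
      · -- far from the origin
        have h1 : (kap D ρ (l + 1) s).real (Set.Ici a) ≤ K₀ * (((l + 1 : ℕ) : ℝ) * Lam ρ (2 * b)) := by
          refine le_trans (measureReal_mono ?_ (measure_ne_top _ _))
            ((hch (l + 1) (2 * b) (by linarith)).2.2 D hD s)
          intro z hz
          show 2 * b ≤ |z - s|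
          refine le_trans ?_ (le_abs_self _)
          have := Set.mem_Ici.mp hz
          rw [hb] at hs2 ⊢
          linarith
        have h2 : K₀ * (((l + 1 : ℕ) : ℝ) * Lam ρ (2 * b)) ≤ β := by
          rw [hβ]
          have h3 : ((l + 1 : ℕ) : ℝ) ≤ n := by exact_mod_cast hl
          have := Lam_nonneg ρ (2 * b)
          gcongr
        have h3 : β ≤ β * (vr D ρ s / vr D ρ b) := by
          have : 1 ≤ vr D ρ s / vr D ρ b := by
            rw [le_div_iff₀ hvb, one_mul]
            exact vr_mono hD hρ hsb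
          nlinarith
        linarith
      · push Not at hsb
        have h1 : (kap D ρ (l + 1) s).real (Set.Ici a) =
            ∫ z, (kap D ρ l z).real (Set.Ici a) ∂(kap D ρ 1 s) := by
          rw [add_comm l 1]
          exact A18_markov hD 1 l s measurableSet_Ici
        set G : ℝ → ℝ := fun z => (β / vr D ρ b) * vr D ρ z + Λ * (∑ k ∈ Finset.range l, al D ρ k z) +
          (Set.Ioi (2 * b)).indicator (fun _ => (1 : ℝ)) z with hG
        have hint1 : Integrable (fun z => (β / vr D ρ b) * vr D ρ z) (kap D ρ 1 s) :=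
          (harm_integrable hD hρ 1 s hs0).const_mul _
        have hal : ∀ k, Integrable (fun z => al D ρ k z) (kap D ρ 1 s) := by
          intro k
          refine Integrable.of_bound (measurable_al hD k).aestronglyMeasurable 1
            (Eventually.of_forall fun z => ?_)
          rw [Real.norm_eq_abs, abs_of_nonneg (al_nonneg D ρ k z)]
          exact al_le_one k z
        have hint2 : Integrable (fun z => Λ * (∑ k ∈ Finset.range l, al D ρ k z)) (kap D ρ 1 s) :=
          (integrable_finsetSum _ fun k _ => hal k).const_mul _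
        have hint3 : Integrable ((Set.Ioi (2 * b)).indicator (fun _ => (1 : ℝ))) (kap D ρ 1 s) :=
          (integrable_const 1).indicator measurableSet_Ioi
        have hG0 : ∀ z, 0 ≤ z → (kap D ρ l z).real (Set.Ici a) ≤ G z := by
          intro z hz
          have e1 : 0 ≤ Λ * ∑ k ∈ Finset.range l, al D ρ k z :=
            mul_nonneg hΛ0 (Finset.sum_nonneg fun k _ => al_nonneg D ρ k z)
          by_cases hz2 : z ≤ 2 * b
          · have h2 := ih (by omega) z hz hz2
            have h3 : z ∉ Set.Ioi (2 * b) := by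
              rw [Set.mem_Ioi, not_lt]
              exact hz2
            rw [hG]
            simp only [Set.indicator_of_notMem h3, add_zero]
            calc _ ≤ _ := h2
              _ = _ := by ring
          · push Not at hz2
            have h3 : z ∈ Set.Ioi (2 * b) := hz2
            rw [hG]
            simp only [Set.indicator_of_mem h3]
            have h4 := A18_kap_real_le_one (D := D) (ρ := ρ) l z (Set.Ici a)
            have h5 : 0 ≤ β / vr D ρ b * vr D ρ z := by
              have := hv0 z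
              positivity
            linarith
        have h2 : ∫ z, (kap D ρ l z).real (Set.Ici a) ∂(kap D ρ 1 s) ≤ ∫ z, G z ∂(kap D ρ 1 s) := by
          refine integral_mono_ae ?_ ((hint1.add hint2).add hint3) ?_
          · refine Integrable.of_bound (A18_meas hD l measurableSet_Ici).aestronglyMeasurable 1
              (Eventually.of_forall fun z => ?_)
            rw [Real.norm_eq_abs, abs_of_nonneg measureReal_nonneg]
            exact A18_kap_real_le_one l z _
          · filter_upwards [kap_ae_nonneg hD 1 hs0] with z hz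
            exact hG0 z hz
        have h3 : ∫ z, G z ∂(kap D ρ 1 s) = (β / vr D ρ b) * vr D ρ s +
            Λ * (∑ k ∈ Finset.range l, al D ρ (k + 1) s) + (kap D ρ 1 s).real (Set.Ioi (2 * b)) := by
          have hint12 : Integrable (fun z => β / vr D ρ b * vr D ρ z + Λ * (∑ k ∈ Finset.range l, al D ρ k z))
              (kap D ρ 1 s) := hint1.add hint2
          show ∫ z, (β / vr D ρ b * vr D ρ z + Λ * (∑ k ∈ Finset.range l, al D ρ k z) +
            (Set.Ioi (2 * b)).indicator (fun _ => (1 : ℝ)) z) ∂(kap D ρ 1 s) = _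
          rw [integral_add hint12 hint3, integral_add hint1 hint2]
          congr 1
          · congr 1
            · rw [integral_const_mul, harm_real hD hρ 1 s hs0]
            · rw [integral_const_mul, integral_finsetSum _ fun k _ => hal k]
              congr 1
              refine Finset.sum_congr rfl fun k _ => ?_
              rw [add_comm k 1, al_add hD 1 k s]
          · rw [integral_indicator measurableSet_Ioi]
            simp
        have h4 : (kap D ρ 1 s).real (Set.Ioi (2 * b)) ≤ Λ := A18_one hD (by linarith)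
        rw [h1, Finset.sum_range_succ', al_zero]
        rw [h3] at h2
        calc _ ≤ _ := h2
          _ ≤ (β / vr D ρ b) * vr D ρ s + Λ * (∑ k ∈ Finset.range l, al D ρ (k + 1) s) + Λ := by linarith
          _ = _ := by ring
  have hfin := claim n le_rfl x hx0 (by rw [hb]; linarith)
  have hL2 : Lam ρ (2 * b) ≤ 4 * Lam ρ a := by
    have := Lam_sq (ρ := ρ) (y := 2 * b) (r := 2) (by linarith) (by norm_num)
    rw [show (2 : ℝ) * (2 * b) = a by rw [hb]; ring] at this
    linarith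
  have hL1 : Λ ≤ 16 * Lam ρ a := by
    have h1 := tail_le_Lam (ρ := ρ) hb0
    have := Lam_sq (ρ := ρ) (y := b) (r := 4) hb0 (by norm_num)
    rw [show (4 : ℝ) * b = a by rw [hb]; ring] at this
    linarith
  have hva : vr D ρ a ≤ 5 * vr D ρ b := by
    have := vr_ratio hD hρ hb0 (show b ≤ a by rw [hb]; linarith)
    rw [show a / b = 4 by rw [hb]; field_simp] at this
    linarith
  have hva0 := hv0 a
  have hvx0 := hv0 x
  have hr : vr D ρ x / vr D ρ b ≤ 5 * (vr D ρ x / vr D ρ a) := by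
    rw [div_le_iff₀ hvb]
    have : 5 * (vr D ρ x / vr D ρ a) * vr D ρ b = vr D ρ x * (5 * vr D ρ b) / vr D ρ a := by ring
    rw [this, le_div_iff₀ hva0]
    exact mul_le_mul_of_nonneg_left hva hvx0.le
  have hβ2 : β ≤ 4 * K₀ * (n * Lam ρ a) := by
    rw [hβ]
    have hn : (0 : ℝ) ≤ n := by positivity
    have := mul_le_mul_of_nonneg_left hL2 (mul_nonneg (by linarith : (0 : ℝ) ≤ K₀) hn)
    linarith
  have hLa := Lam_nonneg ρ a
  have hS : 0 ≤ ∑ k ∈ Finset.range n, al D ρ k x := Finset.sum_nonneg fun k _ => al_nonneg D ρ k x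
  have e1 : β * (vr D ρ x / vr D ρ b) ≤ (4 * K₀ * (n * Lam ρ a)) * (5 * (vr D ρ x / vr D ρ a)) := by
    apply mul_le_mul hβ2 hr (by positivity) (by positivity)
  have e2 : Λ * ∑ k ∈ Finset.range n, al D ρ k x ≤ 16 * Lam ρ a * ∑ k ∈ Finset.range n, al D ρ k x :=
    mul_le_mul_of_nonneg_right hL1 hS
  have e3 : 0 ≤ n * Lam ρ a * (vr D ρ x / vr D ρ a) := by positivity
  have e4 : 0 ≤ Lam ρ a * ∑ k ∈ Finset.range n, al D ρ k x := mul_nonneg hLa hS
  nlinarith [e1, e2, e3, e4, hfin, hK₀]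

/-- **[STB-A18]** PROOF. `a < 4`: the left side is at most one, and `n Lam a vr x/vr y ≥ Lam 4/vr 4` (`y ≤ a < 4`). Let `a ≥ 4`.
If `x ≥ a/4`: `vr x/vr y ≥ vr (a/4)/vr a ≥ 1/5` (`vr_ratio`), and `Reg.cheb` bounds the left side by `K n Lam a`. If `x < a/4`: on the
event the position is `≥ 0 > x - a`, so it is `≥ x + a ≥ a`; use `Reg.up_far`, `vr a ≥ vr y` and `Reg.surv_sum`
(`c ≤ n Lam y`). -/
theorem Reg.alive_far (hD : Dom D) (h : Reg ρ p C x₀) : ∀ c : ℝ, 0 < c → ∃ K : ℝ, 1 ≤ K ∧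
    ∀ (n : ℕ) (y a x : ℝ), 1 ≤ n → 1 ≤ y → y ≤ a → c ≤ n * Lam ρ y → 0 ≤ x →
      (kap D ρ n x).real {z | a ≤ |z - x|} ≤ K * (n * Lam ρ a) * (vr D ρ x / vr D ρ y) := by
  intro c hc
  obtain ⟨K₀, hK₀, hch⟩ := h.cheb
  obtain ⟨K₁, hK₁, hup⟩ := Reg.up_far hD h
  obtain ⟨K₂, hK₂, hsum⟩ := Reg.surv_sum hD h c hc
  have hρ := h.cen
  have hp := hρ.prob
  have hv0 : ∀ s, 0 < vr D ρ s := fun s => lt_of_lt_of_le one_pos (one_le_vr hD hρ s)
  have hL4 : 0 < Lam ρ 4 := Lam_pos hρ (by norm_num)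
  have hK3 : 0 ≤ vr D ρ 4 / Lam ρ 4 := div_nonneg (hv0 4).le hL4.le
  refine ⟨vr D ρ 4 / Lam ρ 4 + 5 * K₀ + K₁ * (1 + K₂), by nlinarith, ?_⟩
  intro n y a x hn hy hya hcn hx
  have hn1 : (1 : ℝ) ≤ n := by exact_mod_cast hn
  have hLa := Lam_nonneg ρ a
  have hvx := hv0 x
  have hvy := hv0 y
  have hE0 : 0 ≤ n * Lam ρ a * (vr D ρ x / vr D ρ y) := by positivity
  have hA1 : 0 ≤ (vr D ρ 4 / Lam ρ 4) * (n * Lam ρ a * (vr D ρ x / vr D ρ y)) := mul_nonneg hK3 hE0
  have hA2 : 0 ≤ (5 * K₀) * (n * Lam ρ a * (vr D ρ x / vr D ρ y)) := by positivity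
  have hA3 : 0 ≤ (K₁ * (1 + K₂)) * (n * Lam ρ a * (vr D ρ x / vr D ρ y)) := by positivity
  have hexp : (vr D ρ 4 / Lam ρ 4 + 5 * K₀ + K₁ * (1 + K₂)) * (n * Lam ρ a) * (vr D ρ x / vr D ρ y) =
      (vr D ρ 4 / Lam ρ 4) * (n * Lam ρ a * (vr D ρ x / vr D ρ y)) +
      (5 * K₀) * (n * Lam ρ a * (vr D ρ x / vr D ρ y)) +
      (K₁ * (1 + K₂)) * (n * Lam ρ a * (vr D ρ x / vr D ρ y)) := by ring
  rw [hexp]
  rcases lt_or_ge a 4 with ha | ha
  · have h1 := A18_kap_real_le_one (D := D) (ρ := ρ) n x {z | a ≤ |z - x|}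
    have h2 : Lam ρ 4 ≤ Lam ρ a := Lam_anti (by linarith) ha.le
    have h3 : vr D ρ y ≤ vr D ρ 4 := vr_mono hD hρ (by linarith)
    have h4 : 1 ≤ vr D ρ x := one_le_vr hD hρ x
    have h5 : 1 ≤ (vr D ρ 4 / Lam ρ 4) * (n * Lam ρ a * (vr D ρ x / vr D ρ y)) := by
      have e : (vr D ρ 4 / Lam ρ 4) * (n * Lam ρ a * (vr D ρ x / vr D ρ y)) =
          (vr D ρ 4 / vr D ρ y) * (Lam ρ a / Lam ρ 4) * n * vr D ρ x := by
        field_simp
      rw [e]
      have f1 : 1 ≤ vr D ρ 4 / vr D ρ y := by rw [le_div_iff₀ hvy, one_mul]; exact h3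
      have f2 : 1 ≤ Lam ρ a / Lam ρ 4 := by rw [le_div_iff₀ hL4, one_mul]; exact h2
      calc (1 : ℝ) = 1 * 1 * 1 * 1 := by norm_num
        _ ≤ (vr D ρ 4 / vr D ρ y) * (Lam ρ a / Lam ρ 4) * n * vr D ρ x := by gcongr
    linarith
  · rcases le_or_gt (a / 4) x with hxa | hxa
    · have h1 := (hch n a (by linarith)).2.2 D hD x
      have h2 : vr D ρ y ≤ 5 * vr D ρ x := by
        have e1 : vr D ρ y ≤ vr D ρ a := vr_mono hD hρ hya
        have e2 := vr_ratio hD hρ (show 0 < a / 4 by linarith) (show a / 4 ≤ a by linarith)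
        rw [show a / (a / 4) = 4 by field_simp] at e2
        have e3 : vr D ρ (a / 4) ≤ vr D ρ x := vr_mono hD hρ hxa
        linarith
      have h3 : 1 ≤ 5 * (vr D ρ x / vr D ρ y) := by
        rw [mul_div_assoc', le_div_iff₀ hvy]
        linarith
      have h4 : K₀ * (n * Lam ρ a) ≤ (5 * K₀) * (n * Lam ρ a * (vr D ρ x / vr D ρ y)) := by
        have : 0 ≤ K₀ * (n * Lam ρ a) := by positivity
        calc K₀ * (n * Lam ρ a) = K₀ * (n * Lam ρ a) * 1 := by ring
          _ ≤ K₀ * (n * Lam ρ a) * (5 * (vr D ρ x / vr D ρ y)) := by gcongr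
          _ = _ := by ring
      linarith
    · have h1 : (kap D ρ n x).real {z | a ≤ |z - x|} ≤ (kap D ρ n x).real (Set.Ici a) := by
        unfold Measure.real
        refine ENNReal.toReal_mono (measure_ne_top _ _) (measure_mono_ae ?_)
        filter_upwards [kap_ae_nonneg hD n hx] with z hz hz2
        have hz3 : a ≤ |z - x| := hz2
        show a ≤ z
        rcases le_abs.mp hz3 with h2 | h2
        · linarith
        · linarith
      have h2 := hup n a x ha hx (by linarith)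
      have h3 := hsum n y x hn hy hcn hx
      have h4 : vr D ρ x / vr D ρ a ≤ vr D ρ x / vr D ρ y :=
        div_le_div_of_nonneg_left hvx.le hvy (vr_mono hD hρ hya)
      have h5 : n * Lam ρ a * (vr D ρ x / vr D ρ a) + Lam ρ a * ∑ k ∈ Finset.range n, al D ρ k x ≤
          (1 + K₂) * (n * Lam ρ a * (vr D ρ x / vr D ρ y)) := by
        have e1 : n * Lam ρ a * (vr D ρ x / vr D ρ a) ≤ n * Lam ρ a * (vr D ρ x / vr D ρ y) := by
          gcongr
        have e2 : Lam ρ a * ∑ k ∈ Finset.range n, al D ρ k x ≤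
            Lam ρ a * (K₂ * (n * (vr D ρ x / vr D ρ y))) := by gcongr
        calc _ ≤ _ := add_le_add e1 e2
          _ = _ := by ring
      have h6 := mul_le_mul_of_nonneg_left h5 (by linarith : (0 : ℝ) ≤ K₁)
      linarith

end Pool.Agent.BPT
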