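import Pool.Agent.MP_99a865_pr.ST.A7b
import Pool.Agent.MP_99a865_pr.FV.A10d

/-!
# [STB-A19a] Smoothing the last step by duality
-/

open MeasureTheory ProbabilityTheory Filter Topology
open scoped ENNReal NNReal

namespace Pool.Agent.BPT

variable {D : Set ℝ} {ρ : Measure ℝ}

/-- PROOF: as `A10d_smooth` (FV/A10d.lean), with the constant `C/√K` replaced by `B`. For `v ∈ [i, i+1)`, `i ∈ ℕ`, and
`s ∈ [0,1]`: `kap k₃ v {z ∈ Ico j (j+1), c ≤ |z-v|} ≤ kap k₃ (v+s) {z ∈ Ico j (j+2), c ≤ |z-(v+s)|}` (`kap_shift_le`), so it is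
at most `∫⁻ v' in Ico i (i+2), kap k₃ v' {z ∈ Ico j (j+2), c ≤ |z-v'|}`. As `kap k x` lives on `[0,∞)` (`k ≥ 1`), sum over `i` with
`hB`: at most `B ∑_i ∫⁻ v' in Ico i (i+2), … ≤ 2 B ∫⁻ v' in D, kap k₃ v' {…}`, and `duality_vol` with
`F v' z = 1{z ∈ Ico j (j+2), c ≤ |z - v'|}`. -/
theorem smooth_gen (hD : Dom D) [IsProbabilityMeasure ρ] (k k₃ : ℕ) (x j c B : ℝ) (hk : 1 ≤ k)
    (hj : 0 ≤ j) (hB0 : 0 ≤ B) (hB : ∀ i : ℕ, (kap D ρ k x).real (Set.Ico (i : ℝ) (i + 1)) ≤ B) :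
    ∫⁻ v, kap D ρ k₃ v {z | z ∈ Set.Ico j (j + 1) ∧ c ≤ |z - v|} ∂(kap D ρ k x) ≤
      ENNReal.ofReal (2 * B) *
        ∫⁻ z in D ∩ Set.Ico j (j + 2), kap D (dual ρ) k₃ z {x | c ≤ |x - z|} := by
  haveI : IsProbabilityMeasure (dual ρ) := A2_dual_prob
  set r : ℝ → ℝ≥0∞ := fun v => kap D ρ k₃ v {z | z ∈ Set.Ico j (j + 1) ∧ c ≤ |z - v|} with hr
  set rp : ℝ → ℝ≥0∞ := fun v => kap D ρ k₃ v {z | z ∈ Set.Ico j (j + 2) ∧ c ≤ |z - v|} with hrp
  have hrpm : Measurable rp := A10d_meas_r hD k₃ c _ measurableSet_Ico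
  -- pointwise smoothing
  have h1 : ∀ (a v : ℝ), v ∈ Set.Ico a (a + 1) → r v ≤ ∫⁻ v' in Set.Ico a (a + 2), rp v' := by
    intro a v hv
    have h2 : ∀ s ∈ Set.Ioc (0 : ℝ) 1, r v ≤ rp (v + s) := by
      intro s hs
      have hA : MeasurableSet {z : ℝ | z ∈ Set.Ico j (j + 1) ∧ c ≤ |z - v|} :=
        measurableSet_Ico.inter (A10d_meas_far c v)
      have hBm : MeasurableSet {z : ℝ | z ∈ Set.Ico j (j + 2) ∧ c ≤ |z - (v + s)|} :=
        measurableSet_Ico.inter (A10d_meas_far c (v + s))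
      refine kap_shift_le hD k₃ v s hs.1.le _ _ hA hBm ?_
      rintro z ⟨⟨h3, h4⟩, h5⟩
      refine ⟨⟨by linarith [hs.1], by linarith [hs.2]⟩, ?_⟩
      have h6 : z + s - (v + s) = z - v := by ring
      rw [h6]
      exact h5
    calc r v = ∫⁻ s in Set.Ioc (0 : ℝ) 1, r v := by
          rw [setLIntegral_const, Real.volume_Ioc]
          simp
      _ ≤ ∫⁻ s in Set.Ioc (0 : ℝ) 1, rp (v + s) :=
          setLIntegral_mono (hrpm.comp (measurable_const_add v)) h2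
      _ = ∫⁻ s, (Set.Ioc v (v + 1)).indicator rp (v + s) := by
          rw [← lintegral_indicator measurableSet_Ioc]
          refine lintegral_congr fun s => ?_
          by_cases hs : s ∈ Set.Ioc (0 : ℝ) 1
          · have hs' : v + s ∈ Set.Ioc v (v + 1) := ⟨by linarith [hs.1], by linarith [hs.2]⟩
            rw [Set.indicator_of_mem hs, Set.indicator_of_mem hs']
          · have hs' : v + s ∉ Set.Ioc v (v + 1) := fun h => hs ⟨by linarith [h.1], by linarith [h.2]⟩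
            rw [Set.indicator_of_notMem hs, Set.indicator_of_notMem hs']
      _ = ∫⁻ v' in Set.Ioc v (v + 1), rp v' := by
          rw [lintegral_add_left_eq_self (fun x => (Set.Ioc v (v + 1)).indicator rp x) v,
            lintegral_indicator measurableSet_Ioc]
      _ ≤ ∫⁻ v' in Set.Ico a (a + 2), rp v' := by
          refine lintegral_mono_set ?_
          intro x hx
          exact ⟨by linarith [hx.1, hv.1], by linarith [hx.2, hv.2]⟩
  -- sum over the unit intervals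
  have hpt : ∀ᵐ v ∂(kap D ρ k x), r v ≤ ∑' a : ℕ, (Set.Ico (a : ℝ) (a + 1)).indicator
      (fun _ => ∫⁻ v' in Set.Ico (a : ℝ) (a + 2), rp v') v := by
    have h3 : ∀ᵐ v ∂(kap D ρ k x), v ∈ D := by
      rw [ae_iff]
      exact kap_compl hD k x (Or.inl hk)
    filter_upwards [h3] with v hv
    have hv0 := hD.nonneg hv
    have h4 : v ∈ Set.Ico ((⌊v⌋₊ : ℕ) : ℝ) ((⌊v⌋₊ : ℕ) + 1) :=
      ⟨Nat.floor_le hv0, Nat.lt_floor_add_one v⟩
    refine le_trans ?_ (ENNReal.le_tsum ⌊v⌋₊)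
    rw [Set.indicator_of_mem h4]
    exact h1 _ v h4
  have hI : ∫⁻ v, r v ∂(kap D ρ k x) ≤ ∑' a : ℕ, ENNReal.ofReal B *
      ∫⁻ v' in Set.Ico (a : ℝ) (a + 2), rp v' := by
    refine (lintegral_mono_ae hpt).trans ?_
    rw [lintegral_tsum (fun a => (measurable_const.indicator measurableSet_Ico).aemeasurable)]
    refine ENNReal.tsum_le_tsum fun a => ?_
    rw [lintegral_indicator_const measurableSet_Ico, mul_comm]
    refine mul_le_mul_left ?_ _
    have h5 := hB a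
    unfold Measure.real at h5
    rw [← ENNReal.ofReal_toReal (measure_ne_top (kap D ρ k x) (Set.Ico (a : ℝ) (a + 1)))]
    exact ENNReal.ofReal_le_ofReal h5
  have hP : ∑' a : ℕ, ∫⁻ v' in Set.Ico (a : ℝ) (a + 2), rp v' ≤ 2 * ∫⁻ v' in Set.Ici (0 : ℝ), rp v' := by
    have h6 : ∑' a : ℕ, ∫⁻ v' in Set.Ico (a : ℝ) (a + 1), rp v' ≤ ∫⁻ v' in Set.Ici (0 : ℝ), rp v' := by
      rw [← lintegral_iUnion (fun a => measurableSet_Ico)]
      · refine lintegral_mono_set ?_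
        intro x hx
        rw [Set.mem_iUnion] at hx
        obtain ⟨a, ha⟩ := hx
        exact (Nat.cast_nonneg a).trans ha.1
      · intro a b hab
        rw [Function.onFun, Set.disjoint_left]
        intro x hxa hxb
        apply hab
        have h7 : (a : ℝ) < b + 1 := lt_of_le_of_lt hxa.1 hxb.2
        have h8 : (b : ℝ) < a + 1 := lt_of_le_of_lt hxb.1 hxa.2
        have h9 : a < b + 1 := by exact_mod_cast h7
        have h10 : b < a + 1 := by exact_mod_cast h8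
        omega
    have h11 : ∀ a : ℕ, ∫⁻ v' in Set.Ico (a : ℝ) (a + 2), rp v' ≤
        (∫⁻ v' in Set.Ico (a : ℝ) (a + 1), rp v') +
          (∫⁻ v' in Set.Ico ((a + 1 : ℕ) : ℝ) ((a + 1 : ℕ) + 1), rp v') := by
      intro a
      refine le_trans (lintegral_mono_set ?_) (lintegral_union_le rp _ _)
      intro x hx
      by_cases hx1 : x < a + 1
      · exact Or.inl ⟨hx.1, hx1⟩
      · refine Or.inr ⟨by push_cast; linarith, by push_cast; linarith [hx.2]⟩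
    calc ∑' a : ℕ, ∫⁻ v' in Set.Ico (a : ℝ) (a + 2), rp v'
        ≤ ∑' a : ℕ, ((∫⁻ v' in Set.Ico (a : ℝ) (a + 1), rp v') +
          (∫⁻ v' in Set.Ico ((a + 1 : ℕ) : ℝ) ((a + 1 : ℕ) + 1), rp v')) := ENNReal.tsum_le_tsum h11
      _ = (∑' a : ℕ, ∫⁻ v' in Set.Ico (a : ℝ) (a + 1), rp v') +
          (∑' a : ℕ, ∫⁻ v' in Set.Ico ((a + 1 : ℕ) : ℝ) ((a + 1 : ℕ) + 1), rp v') :=
          ENNReal.tsum_add
      _ ≤ (∑' a : ℕ, ∫⁻ v' in Set.Ico (a : ℝ) (a + 1), rp v') +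
          (∑' a : ℕ, ∫⁻ v' in Set.Ico (a : ℝ) (a + 1), rp v') := by
          refine add_le_add_right ?_ _
          exact ENNReal.tsum_comp_le_tsum_of_injective (f := fun a : ℕ => a + 1)
            (add_left_injective 1) (fun a : ℕ => ∫⁻ v' in Set.Ico (a : ℝ) (a + 1), rp v')
      _ ≤ (∫⁻ v' in Set.Ici (0 : ℝ), rp v') + (∫⁻ v' in Set.Ici (0 : ℝ), rp v') :=
          add_le_add h6 h6
      _ = 2 * ∫⁻ v' in Set.Ici (0 : ℝ), rp v' := (two_mul _).symm
  have hdual : ∫⁻ v' in Set.Ici (0 : ℝ), rp v' =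
      ∫⁻ z in D ∩ Set.Ico j (j + 2), kap D (dual ρ) k₃ z {x | c ≤ |x - z|} := by
    have hDI : ∫⁻ v' in Set.Ici (0 : ℝ), rp v' = ∫⁻ v' in D, rp v' := by
      rcases hD with rfl | rfl
      · rfl
      · rw [restrict_Ioi_eq_restrict_Ici]
    have hm : MeasurableSet {q : ℝ × ℝ | q.2 ∈ Set.Ico j (j + 2) ∧ c ≤ |q.2 - q.1|} := by
      have h1 : MeasurableSet {q : ℝ × ℝ | q.2 ∈ Set.Ico j (j + 2)} := measurable_snd measurableSet_Ico
      have h2 : MeasurableSet {q : ℝ × ℝ | c ≤ |q.2 - q.1|} :=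
        measurableSet_le measurable_const (measurable_snd.sub measurable_fst).abs
      exact h1.inter h2
    have hd := duality_vol (ρ := ρ) hD k₃ (fun v z =>
      {q : ℝ × ℝ | q.2 ∈ Set.Ico j (j + 2) ∧ c ≤ |q.2 - q.1|}.indicator (1 : ℝ × ℝ → ℝ≥0∞) (v, z))
      (measurable_one.indicator hm)
    have hL : ∀ v : ℝ, ∫⁻ z, {q : ℝ × ℝ | q.2 ∈ Set.Ico j (j + 2) ∧ c ≤ |q.2 - q.1|}.indicator
        (1 : ℝ × ℝ → ℝ≥0∞) (v, z) ∂(kap D ρ k₃ v) = rp v := by
      intro v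
      have := lintegral_indicator_one (μ := kap D ρ k₃ v)
        (measurable_prodMk_left (x := v) hm)
      rw [hrp]
      exact this
    have hR : ∀ z : ℝ, ∫⁻ v, {q : ℝ × ℝ | q.2 ∈ Set.Ico j (j + 2) ∧ c ≤ |q.2 - q.1|}.indicator
        (1 : ℝ × ℝ → ℝ≥0∞) (v, z) ∂(kap D (dual ρ) k₃ z) =
        (Set.Ico j (j + 2)).indicator (fun z => kap D (dual ρ) k₃ z {x | c ≤ |x - z|}) z := by
      intro z
      have h1 := lintegral_indicator_one (μ := kap D (dual ρ) k₃ z)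
        (measurable_prodMk_right (y := z) hm)
      have h2 : ∫⁻ v, {q : ℝ × ℝ | q.2 ∈ Set.Ico j (j + 2) ∧ c ≤ |q.2 - q.1|}.indicator
        (1 : ℝ × ℝ → ℝ≥0∞) (v, z) ∂(kap D (dual ρ) k₃ z) =
        kap D (dual ρ) k₃ z {v | z ∈ Set.Ico j (j + 2) ∧ c ≤ |z - v|} := h1
      rw [h2]
      by_cases hz : z ∈ Set.Ico j (j + 2)
      · rw [Set.indicator_of_mem hz]
        congr 1
        ext v
        simp only [Set.mem_setOf_eq, hz, true_and, abs_sub_comm z v]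
      · rw [Set.indicator_of_notMem hz]
        have : {v | z ∈ Set.Ico j (j + 2) ∧ c ≤ |z - v|} = ∅ := by
          rw [Set.eq_empty_iff_forall_notMem]
          rintro v ⟨h, _⟩
          exact hz h
        rw [this, measure_empty]
    simp only [hL, hR] at hd
    rw [hDI, hd, lintegral_indicator measurableSet_Ico, Measure.restrict_restrict measurableSet_Ico,
      Set.inter_comm]
  calc ∫⁻ v, r v ∂(kap D ρ k x)
      ≤ ∑' a : ℕ, ENNReal.ofReal B * ∫⁻ v' in Set.Ico (a : ℝ) (a + 2), rp v' := hI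
    _ = ENNReal.ofReal B * ∑' a : ℕ, ∫⁻ v' in Set.Ico (a : ℝ) (a + 2), rp v' :=
        ENNReal.tsum_mul_left
    _ ≤ ENNReal.ofReal B * (2 * ∫⁻ v' in Set.Ici (0 : ℝ), rp v') := by gcongr
    _ = ENNReal.ofReal (2 * B) *
        ∫⁻ z in D ∩ Set.Ico j (j + 2), kap D (dual ρ) k₃ z {x | c ≤ |x - z|} := by
        rw [hdual, ← mul_assoc]
        congr 1
        rw [ENNReal.ofReal_mul (by norm_num), mul_comm]
        congr 1
        simp

end Pool.Agent.BPT
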