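import Pool.Agent.MP_99a865_pr.ST.A16
import Pool.Agent.MP_99a865_pr.ST.A18
import Pool.Agent.MP_99a865_pr.ST.A19a

/-!
# [STB-A19] Descending far
-/

open MeasureTheory ProbabilityTheory Filter Topology
open scoped ENNReal NNReal

namespace Pool.Agent.BPT

variable {D : Set ℝ} {ρ : Measure ℝ} {p C x₀ : ℝ}

lemma A19_le {μ : Measure ℝ} [IsFiniteMeasure μ] {s : Set ℝ} {b : ℝ} (h : μ.real s ≤ b) :
    μ s ≤ ENNReal.ofReal b := by
  rw [← ofReal_measureReal]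
  exact ENNReal.ofReal_le_ofReal h

lemma A19_part (hD : Dom D) [IsProbabilityMeasure ρ] {k l : ℕ} {x c₁ q B : ℝ} {J : Set ℝ} (hx : 0 ≤ x)
    (hB0 : 0 ≤ B) (hB : ∀ w, 0 ≤ w → (kap D ρ l w).real J ≤ B)
    (hq : (kap D ρ k x).real {z | c₁ ≤ |z - x|} ≤ q) :
    ∫⁻ u in {u | c₁ ≤ |u - x|}, kap D ρ l u J ∂(kap D ρ k x) ≤ ENNReal.ofReal (B * q) := by
  have h1 : ∀ᵐ u ∂((kap D ρ k x).restrict {u | c₁ ≤ |u - x|}), kap D ρ l u J ≤ ENNReal.ofReal B := by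
    refine ae_restrict_of_ae ?_
    filter_upwards [kap_ae_nonneg hD k hx] with u hu
    exact A19_le (hB u hu)
  refine (lintegral_mono_ae h1).trans ?_
  rw [setLIntegral_const, ENNReal.ofReal_mul hB0]
  exact mul_le_mul_right (A19_le hq) _

/-- **[STB-A19]** PROOF. If `x < 24`: the left side is at most one, `n Lam x ≥ Lam 24 > 0` and `vd (j+1)/(vd y · y) ≥ 1/(24 vd 24)`.
Let `x ≥ 24`, `J = Ico j (j+1)`, `c₁ = x/12 ≥ 2`; for `z ∈ J`: `|z - x| ≥ x/2 - 1 ≥ 3 c₁`.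
`n ≤ 2`: `Lam y ≥ c/2`, so `y ≤ Y` (`Reg.bdd`), and `(kap n x).real J ≤ K n Lam (x/4) ≤ 16 K n Lam x` (`Reg.cheb`),
`vd (j+1)/(vd y · y) ≥ 1/(Y vd Y)`.
`n ≥ 3`: `k₁ = k₂ = n/3`, `k₃ = n - 2 k₁`, all `≥ 1` and `≥ n/5`, so `k_i Lam y ≥ c/5`. `A10d_split` (`y := x`, `c := c₁`) bounds
`kap n x J` by three terms.
(1) `∫_{c₁ ≤ |u-x|} kap (k₂+k₃) u J ∂(kap k₁ x) ≤ P(|S_{k₁}| ≥ c₁) · K (1/y) vd (j+1)/vd y` (`Reg.win_vd`, `w = 1`), and
`P(|S_{k₁}| ≥ x/12) ≤ K n Lam (x/12) ≤ 144 K n Lam x`.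
(2) the same, with `kap k₃ v J` and `P(|S_{k₂}| ≥ c₁)` (Markov property).
(3) `smooth_gen` (`k = k₁+k₂`, `B = K/y` by `Reg.win_free`): `≤ (2K/y) ∫⁻ z in D ∩ Ico j (j+2), kap D (dual ρ) k₃ z {x' | c₁ ≤ |x'-z|}`.
By `Reg.alive_far` for `dual ρ` and `D`, with `a = c₁` and `y' = min y c₁` (`y' ≥ 1`, `k₃ Lam y' ≥ k₃ Lam y ≥ c/5`) the integrand is at
most `K (n Lam c₁) vr D (dual ρ) z/vr D (dual ρ) y'`, and `vr D (dual ρ) y ≤ 13 vr D (dual ρ) y'` (`y ≤ x = 12 c₁`; `vr_ratio`),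
`z ≤ j + 2`, `vd (j+2) ≤ 3 vd (j+1)`, `Reg.vr_dom` for `dual ρ` (both ways) to pass to `vd`. -/
theorem Reg.far_down (hD : Dom D) (h : Reg ρ p C x₀) : ∀ c : ℝ, 0 < c → ∃ K : ℝ, 1 ≤ K ∧
    ∀ (n : ℕ) (y x j : ℝ), 1 ≤ n → 1 ≤ y → y ≤ x → c ≤ n * Lam ρ y → 0 ≤ j → j ≤ x / 2 →
      (kap D ρ n x).real (Set.Ico j (j + 1)) ≤
        K * (n * Lam ρ x) * (vd D ρ (j + 1) / (vd D ρ y * y)) := by
  intro c hc
  obtain ⟨K₀, hK₀, hch⟩ := h.cheb
  obtain ⟨Kw, hKw, hwin⟩ := Reg.win_vd hD h (c / 5) (by linarith)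
  obtain ⟨Kf, hKf, hfree⟩ := Reg.win_free h (c / 5) (by linarith)
  obtain ⟨Ka, hKa, hal⟩ := Reg.alive_far hD h.rev (c / 5) (by linarith)
  have hρ := h.cen
  have hp := hρ.prob
  have hρs := hρ.dual
  have hps := hρs.prob
  have hDs := dom_Dst hD
  obtain ⟨Kd, hKd, hdom1⟩ := Reg.vr_dom hD hDs h.rev
  obtain ⟨Ke, hKe, hdom2⟩ := Reg.vr_dom hDs hD h.rev
  obtain ⟨Y, hY, hbdd⟩ := h.bdd (show 0 < c / 2 by linarith)
  have hv0 : ∀ s, 0 < vd D ρ s := fun s => lt_of_lt_of_le one_pos (one_le_vd hD hρ s)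
  have hr0 : ∀ s, 0 < vr D (dual ρ) s := fun s => lt_of_lt_of_le one_pos (one_le_vr hD hρs s)
  have hL24 : 0 < Lam ρ 24 := Lam_pos hρ (by norm_num)
  set C1 := 24 * vd D ρ 24 / Lam ρ 24 with hC1
  set C2 := 16 * K₀ * (Y * vd D ρ Y) with hC2
  set C3 := 288 * Kw * K₀ with hC3
  set C4 := 22464 * Kf * Ka * Kd * Ke with hC4
  have hC10 : 0 ≤ C1 := by have := hv0 24; positivity
  have hC20 : 0 ≤ C2 := by have := hv0 Y; positivity
  have hC30 : 288 ≤ C3 := by nlinarith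
  have hC40 : 0 ≤ C4 := by positivity
  refine ⟨C1 + C2 + C3 + C4, by linarith, ?_⟩
  intro n y x j hn hy hyx hcn hj hjx
  have hn1 : (1 : ℝ) ≤ n := by exact_mod_cast hn
  have hLx := Lam_nonneg ρ x
  have hvy := hv0 y
  have hvj := hv0 (j + 1)
  have hy0 : 0 < y := by linarith
  have hx0 : 0 ≤ x := by linarith
  set E := n * Lam ρ x * (vd D ρ (j + 1) / (vd D ρ y * y)) with hE
  have hE0 : 0 ≤ E := by positivity
  have hexp : (C1 + C2 + C3 + C4) * (n * Lam ρ x) * (vd D ρ (j + 1) / (vd D ρ y * y)) =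
      C1 * E + C2 * E + C3 * E + C4 * E := by rw [hE]; ring
  rw [hexp]
  have hE1 : 0 ≤ C1 * E := mul_nonneg hC10 hE0
  have hE2 : 0 ≤ C2 * E := mul_nonneg hC20 hE0
  have hE3 : 0 ≤ C3 * E := mul_nonneg (by linarith) hE0
  have hE4 : 0 ≤ C4 * E := mul_nonneg hC40 hE0
  rcases lt_or_ge x 24 with hx24 | hx24
  · -- bounded x
    have h1 := A18_kap_real_le_one (D := D) (ρ := ρ) n x (Set.Ico j (j + 1))
    have h2 : Lam ρ 24 ≤ Lam ρ x := Lam_anti (by linarith) hx24.le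
    have h3 : vd D ρ y ≤ vd D ρ 24 := vd_mono hD hρ (by linarith)
    have h4 : 1 ≤ vd D ρ (j + 1) := one_le_vd hD hρ _
    have h5 : 1 ≤ C1 * E := by
      have e : C1 * E = (24 / y) * (vd D ρ 24 / vd D ρ y) * (Lam ρ x / Lam ρ 24) * n * vd D ρ (j + 1) := by
        rw [hC1, hE]
        field_simp
      rw [e]
      have f0 : 1 ≤ 24 / y := by rw [le_div_iff₀ hy0]; linarith
      have f1 : 1 ≤ vd D ρ 24 / vd D ρ y := by rw [le_div_iff₀ hvy, one_mul]; exact h3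
      have f2 : 1 ≤ Lam ρ x / Lam ρ 24 := by rw [le_div_iff₀ hL24, one_mul]; exact h2
      calc (1 : ℝ) = 1 * 1 * 1 * 1 * 1 := by norm_num
        _ ≤ (24 / y) * (vd D ρ 24 / vd D ρ y) * (Lam ρ x / Lam ρ 24) * n * vd D ρ (j + 1) := by gcongr
    linarith
  rcases Nat.lt_or_ge n 3 with hn3 | hn3
  · -- n ≤ 2
    have hn2 : (n : ℝ) ≤ 2 := by exact_mod_cast (by omega : n ≤ 2)
    have h1 : y ≤ Y := by
      apply hbdd y hy
      have := Lam_nonneg ρ y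
      nlinarith
    have h2 : (kap D ρ n x).real (Set.Ico j (j + 1)) ≤ K₀ * (n * Lam ρ (x / 4)) := by
      refine le_trans (measureReal_mono ?_ (measure_ne_top _ _)) ((hch n (x / 4) (by linarith)).2.2 D hD x)
      intro z hz
      show x / 4 ≤ |z - x|
      rw [abs_sub_comm]
      refine le_trans ?_ (le_abs_self _)
      have := hz.2
      linarith
    have h3 : Lam ρ (x / 4) ≤ 16 * Lam ρ x := by
      have := Lam_sq (ρ := ρ) (y := x / 4) (r := 4) (by linarith) (by norm_num)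
      rw [show (4 : ℝ) * (x / 4) = x by ring] at this
      linarith
    have h4 : K₀ * (n * Lam ρ (x / 4)) ≤ C2 * E := by
      have e : C2 * E = K₀ * (n * (16 * Lam ρ x)) * ((Y / y) * (vd D ρ Y / vd D ρ y) * vd D ρ (j + 1)) := by
        rw [hC2, hE]
        field_simp
      rw [e]
      have f0 : 1 ≤ Y / y := by rw [le_div_iff₀ hy0]; linarith
      have f1 : 1 ≤ vd D ρ Y / vd D ρ y := by rw [le_div_iff₀ hvy, one_mul]; exact vd_mono hD hρ h1
      have f2 : 1 ≤ vd D ρ (j + 1) := one_le_vd hD hρ _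
      have f3 : 1 ≤ (Y / y) * (vd D ρ Y / vd D ρ y) * vd D ρ (j + 1) := by
        calc (1 : ℝ) = 1 * 1 * 1 := by norm_num
          _ ≤ _ := by gcongr
      calc K₀ * (n * Lam ρ (x / 4)) = K₀ * (n * Lam ρ (x / 4)) * 1 := by ring
        _ ≤ K₀ * (n * (16 * Lam ρ x)) * ((Y / y) * (vd D ρ Y / vd D ρ y) * vd D ρ (j + 1)) := by
            have := Lam_nonneg ρ (x / 4)
            gcongr
    linarith
  -- the main case
  set k₁ := n / 3 with hk₁
  set k₃ := n - 2 * k₁ with hk₃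
  have hk1 : 1 ≤ k₁ := by omega
  have hk15 : n ≤ 5 * k₁ := by omega
  have hk35 : n ≤ 5 * k₃ := by omega
  have hk3 : 1 ≤ k₃ := by omega
  have hksum : k₁ + k₁ + k₃ = n := by omega
  have hk1n : (k₁ : ℝ) ≤ n := by exact_mod_cast (by omega : k₁ ≤ n)
  have hk3n : (k₃ : ℝ) ≤ n := by exact_mod_cast (by omega : k₃ ≤ n)
  have hLy := Lam_nonneg ρ y
  have hbig : ∀ m : ℕ, n ≤ 5 * m → c / 5 ≤ m * Lam ρ y := by
    intro m hm
    have : (n : ℝ) ≤ 5 * m := by exact_mod_cast hm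
    nlinarith
  set c₁ := x / 12 with hc₁
  have hc12 : 2 ≤ c₁ := by rw [hc₁]; linarith
  have hLc : Lam ρ c₁ ≤ 144 * Lam ρ x := by
    have := Lam_sq (ρ := ρ) (y := c₁) (r := 12) (by linarith) (by norm_num)
    rw [show (12 : ℝ) * c₁ = x by rw [hc₁]; ring] at this
    linarith
  have hLc0 := Lam_nonneg ρ c₁
  set J := Set.Ico j (j + 1) with hJ
  have hJm : MeasurableSet J := measurableSet_Ico
  have hfar : ∀ z ∈ J, 3 * c₁ ≤ |z - x| := by
    intro z hz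
    rw [abs_sub_comm]
    refine le_trans ?_ (le_abs_self _)
    have := hz.2
    rw [hc₁]
    linarith
  have hsplit := A10d_split hD (ρ := ρ) k₁ k₁ k₃ x c₁ J hJm hfar
  rw [hksum] at hsplit
  set B := Kw * (1 / y) * (vd D ρ (j + 1) / vd D ρ y) with hB
  have hB0 : 0 ≤ B := by positivity
  have hBw : ∀ m : ℕ, 1 ≤ m → n ≤ 5 * m → ∀ w, 0 ≤ w → (kap D ρ m w).real J ≤ B := by
    intro m hm hm5 w hw
    exact hwin m y 1 w j hm hy le_rfl (hbig m hm5) hw hj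
  set q := K₀ * (n * (144 * Lam ρ x)) with hq
  have hq0 : 0 ≤ q := by positivity
  have hqw : ∀ w, (kap D ρ k₁ w).real {z | c₁ ≤ |z - w|} ≤ q := by
    intro w
    refine ((hch k₁ c₁ (by linarith)).2.2 D hD w).trans ?_
    rw [hq]
    gcongr
  -- first term
  have t1 : ∫⁻ u in {u | c₁ ≤ |u - x|}, kap D ρ (k₁ + k₃) u J ∂(kap D ρ k₁ x) ≤ ENNReal.ofReal (B * q) :=
    A19_part hD hx0 hB0 (hBw (k₁ + k₃) (by omega) (by omega)) (hqw x)
  -- second term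
  have t2 : ∫⁻ u, ∫⁻ v in {v | c₁ ≤ |v - u|}, kap D ρ k₃ v J ∂(kap D ρ k₁ u) ∂(kap D ρ k₁ x) ≤
      ENNReal.ofReal (B * q) := by
    have h1 : ∀ᵐ u ∂(kap D ρ k₁ x), ∫⁻ v in {v | c₁ ≤ |v - u|}, kap D ρ k₃ v J ∂(kap D ρ k₁ u) ≤
        ENNReal.ofReal (B * q) := by
      filter_upwards [kap_ae_nonneg hD k₁ hx0] with u hu
      exact A19_part hD hu hB0 (hBw k₃ hk3 hk35) (hqw u)
    refine (lintegral_mono_ae h1).trans ?_
    rw [lintegral_const]
    calc _ ≤ ENNReal.ofReal (B * q) * 1 := mul_le_mul_right (kap_univ_le_one _ _) _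
      _ = _ := mul_one _
  -- third term
  set y' := min y c₁ with hy'
  have hy'1 : 1 ≤ y' := le_min hy (by linarith)
  have hy'c : y' ≤ c₁ := min_le_right _ _
  have hy'y : y' ≤ y := min_le_left _ _
  have hLy' : c / 5 ≤ k₃ * Lam (dual ρ) y' := by
    rw [Lam_dual]
    have h1 : Lam ρ y ≤ Lam ρ y' := Lam_anti (by linarith) hy'y
    have h2 := hbig k₃ hk35
    have h3 : (0 : ℝ) ≤ k₃ := by positivity
    nlinarith
  have hr13 : vr D (dual ρ) y ≤ 13 * vr D (dual ρ) y' := by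
    rcases le_total y c₁ with h1 | h1
    · have : y' = y := min_eq_left h1
      rw [this]
      have := hr0 y
      linarith
    · have h2 : y' = c₁ := min_eq_right h1
      rw [h2]
      have h3 := vr_ratio hD hρs (show 0 < c₁ by linarith) h1
      have h4 : y / c₁ ≤ 12 := by
        rw [div_le_iff₀ (by linarith), hc₁]
        linarith
      have := hr0 c₁
      nlinarith
  have hvd3 : vd D ρ (j + 2) ≤ 3 * vd D ρ (j + 1) := by
    have h1 := vd_ratio hD hρ (show 0 < j + 1 by linarith) (show j + 1 ≤ j + 2 by linarith)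
    have h2 : (j + 2) / (j + 1) ≤ 2 := by
      rw [div_le_iff₀ (by linarith)]
      linarith
    nlinarith
  set G := Ka * (n * (144 * Lam ρ x)) * ((3 * Kd * vd D ρ (j + 1)) * (13 * Ke / vd D ρ y)) with hG
  have hG0 : 0 ≤ G := by positivity
  have hinner : ∀ z ∈ D ∩ Set.Ico j (j + 2), kap D (dual ρ) k₃ z {x | c₁ ≤ |x - z|} ≤ ENNReal.ofReal G := by
    rintro z ⟨_, hz⟩
    apply A19_le
    have hz0 : 0 ≤ z := hj.trans hz.1
    refine (hal k₃ y' c₁ z hk3 hy'1 hy'c hLy' hz0).trans ?_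
    rw [Lam_dual]
    have e1 : vr D (dual ρ) z ≤ 3 * Kd * vd D ρ (j + 1) := by
      have f1 : vr D (dual ρ) z ≤ vr D (dual ρ) (j + 2) := vr_mono hD hρs hz.2.le
      have f2 : vr D (dual ρ) (j + 2) ≤ Kd * vd D ρ (j + 2) := hdom1 (j + 2) (by linarith)
      nlinarith
    have e2 : 1 / vr D (dual ρ) y' ≤ 13 * Ke / vd D ρ y := by
      rw [div_le_div_iff₀ (hr0 y') hvy, one_mul]
      have f1 : vd D ρ y ≤ Ke * vr D (dual ρ) y := hdom2 y (by linarith)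
      nlinarith [hr0 y', hr0 y]
    rw [hG, div_eq_mul_one_div (vr D (dual ρ) z)]
    have := hr0 z
    have := hr0 y'
    have e3 : (k₃ : ℝ) * Lam ρ c₁ ≤ n * (144 * Lam ρ x) := by gcongr
    gcongr
  have t3 : ∫⁻ v, kap D ρ k₃ v {z | z ∈ J ∧ c₁ ≤ |z - v|} ∂(kap D ρ (k₁ + k₁) x) ≤
      ENNReal.ofReal (2 * (Kf * (1 / y)) * (G * 2)) := by
    have hsm := smooth_gen hD (ρ := ρ) (k₁ + k₁) k₃ x j c₁ (Kf * (1 / y)) (by omega) hj (by positivity)
      (fun i => (hfree (k₁ + k₁) y 1 x i (by omega) hy le_rfl (hbig (k₁ + k₁) (by omega))).2 D hD)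
    refine hsm.trans ?_
    rw [ENNReal.ofReal_mul (by positivity : (0 : ℝ) ≤ 2 * (Kf * (1 / y)))]
    refine mul_le_mul_right ?_ _
    calc ∫⁻ z in D ∩ Set.Ico j (j + 2), kap D (dual ρ) k₃ z {x | c₁ ≤ |x - z|}
        ≤ ∫⁻ z in D ∩ Set.Ico j (j + 2), ENNReal.ofReal G :=
          setLIntegral_mono' (hD.meas.inter measurableSet_Ico) hinner
      _ = ENNReal.ofReal G * volume (D ∩ Set.Ico j (j + 2)) := setLIntegral_const _ _
      _ ≤ ENNReal.ofReal G * ENNReal.ofReal 2 := by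
          refine mul_le_mul_right ?_ _
          refine (measure_mono Set.inter_subset_right).trans ?_
          rw [Real.volume_Ico]
          apply ENNReal.ofReal_le_ofReal
          linarith
      _ = ENNReal.ofReal (G * 2) := by rw [ENNReal.ofReal_mul hG0]
  have htot : kap D ρ n x J ≤ ENNReal.ofReal (B * q + B * q + 2 * (Kf * (1 / y)) * (G * 2)) := by
    rw [ENNReal.ofReal_add (by positivity) (by positivity), ENNReal.ofReal_add (by positivity) (by positivity)]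
    exact hsplit.trans (add_le_add (add_le_add t1 t2) t3)
  have hfin : (kap D ρ n x).real J ≤ B * q + B * q + 2 * (Kf * (1 / y)) * (G * 2) :=
    ENNReal.toReal_le_of_le_ofReal (by positivity) htot
  have e1 : B * q + B * q = C3 * E := by
    rw [hB, hq, hC3, hE]
    field_simp
    ring
  have e2 : 2 * (Kf * (1 / y)) * (G * 2) = C4 * E := by
    rw [hG, hC4, hE]
    field_simp
    ring
  linarith

end Pool.Agent.BPT
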