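import Pool.Agent.MP_99a865_pr.ST.A1

/-!
# [STB-A2] Dyadic tail sums and the first absolute moment of the tail
-/

open MeasureTheory ProbabilityTheory Filter Topology
open scoped ENNReal NNReal

namespace Pool.Agent.BPT

variable {D : Set ℝ} {ρ : Measure ℝ} {p C x₀ : ℝ}

/-- PROOF. Pointwise, if `f a ≥ y` let `j` be such that `2^j y ≤ f a < 2^(j+1) y`; so
`ofReal (f a) 1{y ≤ f a} ≤ ∑' j, ofReal (2^(j+1) y) * 1{2^j y ≤ f a}`. Integrate (`lintegral_tsum`):
`≤ ∑' j, ofReal (2^(j+1) y) ofReal (q 2^{-pj}) = ofReal (2 y q ∑_j (2^{1-p})^j)`, geometric series with ratio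
`2^{1-p} < 1`. -/
theorem dyadic_tail {α : Type*} [MeasurableSpace α] (μ : Measure α) (f : α → ℝ) (hf : Measurable f)
    {p q y : ℝ} (hp : 1 < p) (hq : 0 ≤ q) (hy : 0 < y)
    (h : ∀ j : ℕ, μ {a | 2 ^ j * y ≤ f a} ≤ ENNReal.ofReal (q * ((2 : ℝ) ^ j) ^ (-p))) :
    ∫⁻ a in {a | y ≤ f a}, ENNReal.ofReal (f a) ∂μ ≤
      ENNReal.ofReal (2 / (1 - (2 : ℝ) ^ (1 - p)) * y * q) := by
  classical
  have h2p : 0 < (2 : ℝ) ^ (1 - p) := Real.rpow_pos_of_pos two_pos _
  have h2p1 : (2 : ℝ) ^ (1 - p) < 1 := Real.rpow_lt_one_of_one_lt_of_neg one_lt_two (by linarith)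
  have hms : ∀ c : ℝ, MeasurableSet {a | c ≤ f a} := fun c => measurableSet_le measurable_const hf
  -- pointwise bound
  have hpt : ∀ a, ({a | y ≤ f a} : Set α).indicator (fun a => ENNReal.ofReal (f a)) a ≤
      ∑' j : ℕ, ({a | 2 ^ j * y ≤ f a} : Set α).indicator
        (fun _ => ENNReal.ofReal (2 ^ (j + 1) * y)) a := by
    intro a
    by_cases ha : a ∈ {a | y ≤ f a}
    · rw [Set.indicator_of_mem ha]
      have ha' : y ≤ f a := ha
      have h1 : (1 : ℝ) ≤ f a / y := by rw [le_div_iff₀ hy]; linarith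
      obtain ⟨j, hj1, hj2⟩ := exists_nat_pow_near h1 one_lt_two
      have hj1' : 2 ^ j * y ≤ f a := by rwa [le_div_iff₀ hy] at hj1
      have hj2' : f a < 2 ^ (j + 1) * y := by rwa [div_lt_iff₀ hy] at hj2
      refine le_trans ?_ (ENNReal.le_tsum j)
      rw [Set.indicator_of_mem (show a ∈ {a | 2 ^ j * y ≤ f a} from hj1')]
      exact ENNReal.ofReal_le_ofReal hj2'.le
    · rw [Set.indicator_of_notMem ha]
      exact bot_le
  calc ∫⁻ a in {a | y ≤ f a}, ENNReal.ofReal (f a) ∂μ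
      = ∫⁻ a, ({a | y ≤ f a} : Set α).indicator (fun a => ENNReal.ofReal (f a)) a ∂μ :=
        (lintegral_indicator (hms y) _).symm
    _ ≤ ∫⁻ a, ∑' j : ℕ, ({a | 2 ^ j * y ≤ f a} : Set α).indicator
        (fun _ => ENNReal.ofReal (2 ^ (j + 1) * y)) a ∂μ := lintegral_mono hpt
    _ = ∑' j : ℕ, ∫⁻ a, ({a | 2 ^ j * y ≤ f a} : Set α).indicator
        (fun _ => ENNReal.ofReal (2 ^ (j + 1) * y)) a ∂μ := by
        rw [lintegral_tsum]
        intro j
        exact (measurable_const.indicator (hms _)).aemeasurable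
    _ = ∑' j : ℕ, ENNReal.ofReal (2 ^ (j + 1) * y) * μ {a | 2 ^ j * y ≤ f a} := by
        congr 1
        funext j
        rw [lintegral_indicator (hms _), setLIntegral_const]
    _ ≤ ∑' j : ℕ, ENNReal.ofReal (2 * y * q * ((2 : ℝ) ^ (1 - p)) ^ j) := by
        refine ENNReal.tsum_le_tsum fun j => ?_
        refine (mul_le_mul' le_rfl (h j)).trans ?_
        rw [← ENNReal.ofReal_mul (by positivity)]
        apply le_of_eq
        congr 1
        have e1 : ((2 : ℝ) ^ j) ^ (-p) = ((2 : ℝ) ^ (-p)) ^ j := by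
          rw [← Real.rpow_natCast 2 j, ← Real.rpow_mul two_pos.le, mul_comm,
            Real.rpow_mul two_pos.le, Real.rpow_natCast]
        have e2 : (2 : ℝ) ^ (1 - p) = 2 * 2 ^ (-p) := by
          rw [sub_eq_add_neg, Real.rpow_add two_pos, Real.rpow_one]
        rw [e1, e2, mul_pow, pow_succ]
        ring
    _ = ENNReal.ofReal (2 / (1 - (2 : ℝ) ^ (1 - p)) * y * q) := by
        rw [← ENNReal.ofReal_tsum_of_nonneg (fun j => by positivity)
          ((summable_geometric_of_lt_one h2p.le h2p1).mul_left _)]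
        congr 1
        rw [tsum_mul_left, tsum_geometric_of_lt_one h2p.le h2p1]
        ring

/-- PROOF. `dyadic_tail` with `f x = |x|`, `q = K Lam y` (`Reg.all`), since
`ρ {2^j y ≤ |x|} ≤ Lam (2^j y) ≤ K (2^j)^{-p} Lam y` (`tail_le_Lam`). -/
theorem Reg.mom1 (h : Reg ρ p C x₀) : ∃ K : ℝ, 1 ≤ K ∧ ∀ y : ℝ, 1 ≤ y →
    ∫ x in {x | y ≤ |x|}, |x| ∂ρ ≤ K * (y * Lam ρ y) := by
  have hp := h.cen.prob
  obtain ⟨K, hK, hR⟩ := h.all
  have hp1 := h.p1
  have h2p : 0 < (2 : ℝ) ^ (1 - p) := Real.rpow_pos_of_pos two_pos _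
  have h2p1 : (2 : ℝ) ^ (1 - p) < 1 := Real.rpow_lt_one_of_one_lt_of_neg one_lt_two (by linarith)
  have hc : 1 ≤ 2 / (1 - (2 : ℝ) ^ (1 - p)) := by
    rw [le_div_iff₀ (by linarith)]
    linarith
  refine ⟨2 / (1 - (2 : ℝ) ^ (1 - p)) * K, ?_, fun y hy => ?_⟩
  · calc (1 : ℝ) = 1 * 1 := (one_mul 1).symm
      _ ≤ _ := mul_le_mul hc hK zero_le_one (by linarith)
  have hy0 : 0 < y := by linarith
  have hL0 := Lam_nonneg ρ y
  have h1 := dyadic_tail ρ (fun x : ℝ => |x|) (by fun_prop) hp1 (q := K * Lam ρ y) (by positivity) hy0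
    (fun j => by
      rw [← ofReal_measureReal (measure_ne_top _ _)]
      apply ENNReal.ofReal_le_ofReal
      have h2 : (1 : ℝ) ≤ 2 ^ j := one_le_pow₀ one_le_two
      refine (tail_le_Lam (by positivity)).trans ((hR y hy (2 ^ j) h2).trans (le_of_eq ?_))
      ring)
  have h3 : ∫ x in {x | y ≤ |x|}, |x| ∂ρ =
      (∫⁻ x in {x | y ≤ |x|}, ENNReal.ofReal |x| ∂ρ).toReal := by
    rw [integral_eq_lintegral_of_nonneg_ae (Eventually.of_forall fun x => abs_nonneg x)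
      (by fun_prop)]
  rw [h3]
  have h4 := ENNReal.toReal_mono ENNReal.ofReal_ne_top h1
  rw [ENNReal.toReal_ofReal (by have : 0 ≤ 2 / (1 - (2 : ℝ) ^ (1 - p)) := by linarith
                                positivity)] at h4
  refine h4.trans (le_of_eq ?_)
  ring

end Pool.Agent.BPT
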