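import Pool.Agent.MP_99a865_pr.ST.A16
import Pool.Agent.MP_99a865_pr.ST.A17

/-!
# [STB-A20] Exit probabilities at a fixed time
-/

open MeasureTheory ProbabilityTheory Filter Topology
open scoped ENNReal NNReal

namespace Pool.Agent.BPT

variable {D : Set ℝ} {ρ : Measure ℝ} {p C x₀ : ℝ}

/-- `ex w ≤ P(X ≤ -w)`, antitone -/
theorem ex_le_Iic (hD : Dom D) [IsProbabilityMeasure ρ] (w : ℝ) : ex D ρ w ≤ ρ (Set.Iic (-w)) := by
  unfold ex
  apply measure_mono
  intro y hy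
  have h1 : w + y ≤ 0 := hD.not_mem hy
  show y ≤ -w
  linarith

/-- Decomposition of `hit` over unit windows below a level `Y ≥ 0`. PROOF. `hit_succ`; for `w ∈ Ico j (j+1)`,
`ex w ≤ ρ (Iic (-j))` (`ex_anti`, `ex_le_Iic`); the rest is `∫⁻ w in Ici (⌊Y⌋₊ + 1), ex w`. (`kap m x` lives on `[0,∞)`.) -/
theorem hit_le_sum (hD : Dom D) [IsProbabilityMeasure ρ] (m : ℕ) (x Y : ℝ) (hx : 0 ≤ x) (hY : 0 ≤ Y) :
    hit D ρ (m + 1) x ≤ ∑ j ∈ Finset.range (⌊Y⌋₊ + 1),
      (kap D ρ m x).real (Set.Ico (j : ℝ) (j + 1)) * ρ.real (Set.Iic (-(j : ℝ))) +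
      ∫ w in Set.Ioi Y, ρ.real (Set.Iic (-w)) ∂(kap D ρ m x) := by
  have hm1 : Measurable fun w : ℝ => ρ (Set.Iic (-w)) := by
    have ha : Antitone fun w : ℝ => ρ (Set.Iic (-w)) := fun a b hab =>
      measure_mono (Set.Iic_subset_Iic.2 (by linarith))
    exact ha.measurable
  have e1 : ENNReal.ofReal (hit D ρ (m + 1) x) ≤ ∑ j ∈ Finset.range (⌊Y⌋₊ + 1),
      kap D ρ m x (Set.Ico (j : ℝ) (j + 1)) * ρ (Set.Iic (-(j : ℝ))) +
      ∫⁻ w in Set.Ioi Y, ρ (Set.Iic (-w)) ∂(kap D ρ m x) := by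
    rw [hit_succ hD]
    have h1 : ∫⁻ w, ex D ρ w ∂(kap D ρ m x) ≤ ∫⁻ w, (∑ j ∈ Finset.range (⌊Y⌋₊ + 1),
        (Set.Ico (j : ℝ) (j + 1)).indicator (fun _ => ρ (Set.Iic (-(j : ℝ)))) w +
        (Set.Ioi Y).indicator (fun w => ρ (Set.Iic (-w))) w) ∂(kap D ρ m x) := by
      apply lintegral_mono_ae
      filter_upwards [kap_ae_nonneg (ρ := ρ) hD m hx] with w hw
      rcases lt_or_ge Y w with hYw | hYw
      · rw [Set.indicator_of_mem (show w ∈ Set.Ioi Y from hYw)]
        exact (ex_le_Iic hD w).trans le_add_self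
      · have h2 : ⌊w⌋₊ ∈ Finset.range (⌊Y⌋₊ + 1) :=
          Finset.mem_range.2 (Nat.lt_succ_of_le (Nat.floor_le_floor hYw))
        have h3 : w ∈ Set.Ico ((⌊w⌋₊ : ℕ) : ℝ) ((⌊w⌋₊ : ℕ) + 1) :=
          ⟨Nat.floor_le hw, Nat.lt_floor_add_one w⟩
        have h4 : ex D ρ w ≤ (Set.Ico ((⌊w⌋₊ : ℕ) : ℝ) ((⌊w⌋₊ : ℕ) + 1)).indicator
            (fun _ => ρ (Set.Iic (-((⌊w⌋₊ : ℕ) : ℝ)))) w := by
          rw [Set.indicator_of_mem h3]
          exact (ex_anti hD h3.1).trans (ex_le_Iic hD _)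
        refine h4.trans (le_trans ?_ le_self_add)
        exact Finset.single_le_sum (f := fun j : ℕ => (Set.Ico (j : ℝ) (j + 1)).indicator
          (fun _ => ρ (Set.Iic (-(j : ℝ)))) w) (fun _ _ => zero_le) h2
    refine h1.trans (le_of_eq ?_)
    rw [lintegral_add_right _ (hm1.indicator measurableSet_Ioi), lintegral_indicator measurableSet_Ioi,
      lintegral_finsetSum _ (fun j _ => measurable_const.indicator measurableSet_Ico)]
    congr 1
    apply Finset.sum_congr rfl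
    intro j _
    rw [lintegral_indicator measurableSet_Ico, setLIntegral_const, mul_comm]
  have hfin1 : ∀ j ∈ Finset.range (⌊Y⌋₊ + 1),
      kap D ρ m x (Set.Ico (j : ℝ) (j + 1)) * ρ (Set.Iic (-(j : ℝ))) ≠ ⊤ := fun j _ =>
    ENNReal.mul_ne_top (measure_ne_top _ _) (measure_ne_top _ _)
  have hfin2 : ∫⁻ w in Set.Ioi Y, ρ (Set.Iic (-w)) ∂(kap D ρ m x) ≠ ⊤ := by
    apply ne_top_of_le_ne_top (b := ∫⁻ w in Set.Ioi Y, 1 ∂(kap D ρ m x))
    · rw [setLIntegral_const, one_mul]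
      exact measure_ne_top _ _
    · exact lintegral_mono fun w => prob_le_one
  have e2 := ENNReal.toReal_mono (ENNReal.add_ne_top.2 ⟨ENNReal.sum_ne_top.2 hfin1, hfin2⟩) e1
  rw [ENNReal.toReal_ofReal (hit_nonneg _ _), ENNReal.toReal_add (ENNReal.sum_ne_top.2 hfin1) hfin2,
    ENNReal.toReal_sum hfin1] at e2
  refine e2.trans (le_of_eq ?_)
  congr 1
  · apply Finset.sum_congr rfl
    intro j _
    rw [ENNReal.toReal_mul]
    rfl
  · rw [← integral_toReal hm1.aemeasurable (Filter.Eventually.of_forall fun w => measure_lt_top _ _)]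
    rfl

/-- **[STB-A20]** PROOF. `n = 1`: `y ≤ Y₀` by `Reg.bdd`, `Lam y ≥ Lam Y₀ > 0`, `vr x/vr y ≥ 1/vr Y₀`. `n = m+1`, `m ≥ 1`:
`m Lam y ≥ c/2`. `hit_le_sum` with `Y = y`; the last term is at most `al m x · ρ (Iic (-y)) ≤ al m x · Lam y` (`tail_le_Lam`), where
`al m x ≤ 1` and `al m x ≤ K vr x/vr y` (`Reg.surv`). By `Reg.win_vd` (resp. `Reg.win`) with `w = 1` and `tail_sum` the sum is at
most `K (1/y)(1/vd y) K' (y/vr y)` (resp. times `vr x/vr y`) `= K K'/(vr y vd y) ≤ (K K'/c₀) Lam y` (`Reg.prod_ge`). -/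
theorem Reg.hit_le (hD : Dom D) (h : Reg ρ p C x₀) : ∀ c : ℝ, 0 < c → ∃ K : ℝ, 1 ≤ K ∧
    ∀ (n : ℕ) (y x : ℝ), 1 ≤ n → 1 ≤ y → c ≤ n * Lam ρ y → 0 ≤ x →
      hit D ρ n x ≤ K * Lam ρ y ∧ hit D ρ n x ≤ K * Lam ρ y * (vr D ρ x / vr D ρ y) := by
  intro c hc
  have hρ := h.cen
  have := hρ.prob
  obtain ⟨Y₀, hY₀, hb⟩ := h.bdd hc
  obtain ⟨K₁, hK₁, h1⟩ := h.surv hD (c / 2) (by positivity)
  obtain ⟨K₂, hK₂, h2⟩ := h.win_vd hD (c / 2) (by positivity)
  obtain ⟨K₃, hK₃, h3⟩ := h.win hD (c / 2) (by positivity)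
  obtain ⟨K₄, hK₄, h4⟩ := tail_sum hD hρ
  obtain ⟨c₀, hc₀, h5⟩ := h.prod_ge hD
  have hvY := one_le_vr hD hρ Y₀
  obtain ⟨K, hK⟩ : ∃ K : ℝ, K = 1 + vr D ρ Y₀ / c + (K₂ * K₄ / c₀ + 1) + (K₃ * K₄ / c₀ + K₁) := ⟨_, rfl⟩
  have p1 : 0 ≤ vr D ρ Y₀ / c := by positivity
  have p2 : 0 ≤ K₂ * K₄ / c₀ := by positivity
  have p3 : 0 ≤ K₃ * K₄ / c₀ := by positivity
  refine ⟨K, by rw [hK]; linarith, ?_⟩
  intro n y x hn hy hcn hx
  have hy0 : 0 < y := by linarith
  have L0 : 0 ≤ Lam ρ y := Lam_nonneg ρ y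
  have v1 := one_le_vr hD hρ x
  have v2 := one_le_vr hD hρ y
  have v3 := one_le_vd hD hρ y
  have hq : 0 ≤ vr D ρ x / vr D ρ y := by positivity
  rcases Nat.lt_or_ge n 2 with hn2 | hn2
  · have hn1 : n = 1 := by omega
    rw [hn1, Nat.cast_one, one_mul] at hcn
    have hyY := hb y hy hcn
    have hv : vr D ρ y ≤ vr D ρ Y₀ := vr_mono hD hρ hyY
    have hK1 : vr D ρ Y₀ / c ≤ K := by rw [hK]; linarith
    have hle := hit_le_one (D := D) (ρ := ρ) n x
    constructor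
    · refine hle.trans ?_
      calc (1 : ℝ) ≤ vr D ρ Y₀ := hvY
        _ = vr D ρ Y₀ / c * c := by field_simp
        _ ≤ K * Lam ρ y := mul_le_mul hK1 hcn hc.le (p1.trans hK1)
    · refine hle.trans ?_
      have e1 : 1 / vr D ρ Y₀ ≤ vr D ρ x / vr D ρ y := by
        rw [div_le_div_iff₀ (by linarith) (by linarith)]
        nlinarith
      calc (1 : ℝ) = vr D ρ Y₀ / c * c * (1 / vr D ρ Y₀) := by field_simp
        _ ≤ K * Lam ρ y * (vr D ρ x / vr D ρ y) :=
          mul_le_mul (mul_le_mul hK1 hcn hc.le (p1.trans hK1)) e1 (by positivity)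
            (mul_nonneg (p1.trans hK1) L0)
  · obtain ⟨m, rfl⟩ : ∃ m, n = m + 1 := ⟨n - 1, by omega⟩
    have hm : 1 ≤ m := by omega
    have hmc : c / 2 ≤ m * Lam ρ y := by
      have hm' : (1 : ℝ) ≤ m := by exact_mod_cast hm
      push_cast at hcn
      nlinarith
    have s1 := h1 m y hm hy hmc x hx
    have s2 := hit_le_sum (ρ := ρ) hD m x y hx hy0.le
    have s3 := h4 y hy
    -- the integral
    have hint : ∫ w in Set.Ioi y, ρ.real (Set.Iic (-w)) ∂(kap D ρ m x) ≤ Lam ρ y * al D ρ m x := by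
      have hbd : ∀ w ∈ Set.Ioi y, ρ.real (Set.Iic (-w)) ≤ Lam ρ y := by
        intro w hw
        refine le_trans ?_ (tail_le_Lam (ρ := ρ) hy0)
        apply measureReal_mono _ (measure_ne_top _ _)
        intro u hu
        have hu' : u ≤ -w := hu
        have hw' : y < w := hw
        show y ≤ |u|
        rw [abs_of_nonpos (by linarith)]
        linarith
      have hm1 : Measurable fun w : ℝ => ρ.real (Set.Iic (-w)) := by
        have ha : Antitone fun w : ℝ => ρ.real (Set.Iic (-w)) := fun a b hab =>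
          measureReal_mono (Set.Iic_subset_Iic.2 (by linarith)) (measure_ne_top _ _)
        exact ha.measurable
      have hi : IntegrableOn (fun w : ℝ => ρ.real (Set.Iic (-w))) (Set.Ioi y) (kap D ρ m x) := by
        refine Integrable.mono' (g := fun _ => (1 : ℝ)) (integrable_const _) hm1.aestronglyMeasurable ?_
        filter_upwards with w
        rw [Real.norm_of_nonneg measureReal_nonneg]
        exact measureReal_le_one
      calc ∫ w in Set.Ioi y, ρ.real (Set.Iic (-w)) ∂(kap D ρ m x)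
          ≤ ∫ w in Set.Ioi y, Lam ρ y ∂(kap D ρ m x) :=
            setIntegral_mono_on hi (integrable_const _) measurableSet_Ioi hbd
        _ = (kap D ρ m x).real (Set.Ioi y) * Lam ρ y := by
            rw [setIntegral_const, smul_eq_mul]
        _ ≤ Lam ρ y * al D ρ m x := by
            rw [mul_comm]
            apply mul_le_mul_of_nonneg_left _ L0
            exact measureReal_mono (Set.subset_univ _) (measure_ne_top _ _)
    have hal1 := al_le_one (D := D) (ρ := ρ) m x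
    have hal0 := al_nonneg D ρ m x
    -- product
    have hprod : 1 / (vr D ρ y * vd D ρ y) ≤ Lam ρ y / c₀ := by
      rw [div_le_div_iff₀ (by positivity) hc₀]
      have := h5 y hy
      nlinarith
    have hT0 : ∀ j : ℕ, 0 ≤ ρ.real (Set.Iic (-(j : ℝ))) := fun j => measureReal_nonneg
    constructor
    · have hsum : ∑ j ∈ Finset.range (⌊y⌋₊ + 1),
          (kap D ρ m x).real (Set.Ico (j : ℝ) (j + 1)) * ρ.real (Set.Iic (-(j : ℝ))) ≤
          K₂ * K₄ / c₀ * Lam ρ y := by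
        calc ∑ j ∈ Finset.range (⌊y⌋₊ + 1),
              (kap D ρ m x).real (Set.Ico (j : ℝ) (j + 1)) * ρ.real (Set.Iic (-(j : ℝ)))
            ≤ ∑ j ∈ Finset.range (⌊y⌋₊ + 1), K₂ * (1 / y) * (1 / vd D ρ y) *
                (vd D ρ (j + 1) * ρ.real (Set.Iic (-(j : ℝ)))) := by
              apply Finset.sum_le_sum
              intro j _
              have := h2 m y 1 x j hm hy le_rfl hmc hx (Nat.cast_nonneg j)
              calc (kap D ρ m x).real (Set.Ico (j : ℝ) (j + 1)) * ρ.real (Set.Iic (-(j : ℝ)))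
                  ≤ (K₂ * (1 / y) * (vd D ρ (j + 1) / vd D ρ y)) * ρ.real (Set.Iic (-(j : ℝ))) :=
                    mul_le_mul_of_nonneg_right this (hT0 j)
                _ = _ := by ring
          _ = K₂ * (1 / y) * (1 / vd D ρ y) * ∑ j ∈ Finset.range (⌊y⌋₊ + 1),
                (vd D ρ (j + 1) * ρ.real (Set.Iic (-(j : ℝ)))) := by rw [Finset.mul_sum]
          _ ≤ K₂ * (1 / y) * (1 / vd D ρ y) * (K₄ * (y / vr D ρ y)) := by
              apply mul_le_mul_of_nonneg_left s3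
              positivity
          _ = K₂ * K₄ * (1 / (vr D ρ y * vd D ρ y)) := by
              field_simp
          _ ≤ K₂ * K₄ * (Lam ρ y / c₀) := by
              apply mul_le_mul_of_nonneg_left hprod
              positivity
          _ = K₂ * K₄ / c₀ * Lam ρ y := by ring
      calc hit D ρ (m + 1) x ≤ K₂ * K₄ / c₀ * Lam ρ y + Lam ρ y * al D ρ m x :=
            s2.trans (add_le_add hsum hint)
        _ ≤ K₂ * K₄ / c₀ * Lam ρ y + Lam ρ y * 1 := by gcongr
        _ = (K₂ * K₄ / c₀ + 1) * Lam ρ y := by ring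
        _ ≤ K * Lam ρ y := by
            apply mul_le_mul_of_nonneg_right _ L0
            rw [hK]
            linarith
    · have hsum : ∑ j ∈ Finset.range (⌊y⌋₊ + 1),
          (kap D ρ m x).real (Set.Ico (j : ℝ) (j + 1)) * ρ.real (Set.Iic (-(j : ℝ))) ≤
          K₃ * K₄ / c₀ * Lam ρ y * (vr D ρ x / vr D ρ y) := by
        calc ∑ j ∈ Finset.range (⌊y⌋₊ + 1),
              (kap D ρ m x).real (Set.Ico (j : ℝ) (j + 1)) * ρ.real (Set.Iic (-(j : ℝ)))
            ≤ ∑ j ∈ Finset.range (⌊y⌋₊ + 1), K₃ * (1 / y) * (vr D ρ x / vr D ρ y) * (1 / vd D ρ y) *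
                (vd D ρ (j + 1) * ρ.real (Set.Iic (-(j : ℝ)))) := by
              apply Finset.sum_le_sum
              intro j _
              have := h3 m y 1 x j hm hy le_rfl hmc hx (Nat.cast_nonneg j)
              calc (kap D ρ m x).real (Set.Ico (j : ℝ) (j + 1)) * ρ.real (Set.Iic (-(j : ℝ)))
                  ≤ (K₃ * (1 / y) * (vr D ρ x / vr D ρ y) * (vd D ρ (j + 1) / vd D ρ y)) *
                      ρ.real (Set.Iic (-(j : ℝ))) :=
                    mul_le_mul_of_nonneg_right this (hT0 j)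
                _ = _ := by ring
          _ = K₃ * (1 / y) * (vr D ρ x / vr D ρ y) * (1 / vd D ρ y) * ∑ j ∈ Finset.range (⌊y⌋₊ + 1),
                (vd D ρ (j + 1) * ρ.real (Set.Iic (-(j : ℝ)))) := by rw [Finset.mul_sum]
          _ ≤ K₃ * (1 / y) * (vr D ρ x / vr D ρ y) * (1 / vd D ρ y) * (K₄ * (y / vr D ρ y)) := by
              apply mul_le_mul_of_nonneg_left s3
              positivity
          _ = K₃ * K₄ * (vr D ρ x / vr D ρ y) * (1 / (vr D ρ y * vd D ρ y)) := by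
              field_simp
          _ ≤ K₃ * K₄ * (vr D ρ x / vr D ρ y) * (Lam ρ y / c₀) := by
              apply mul_le_mul_of_nonneg_left hprod
              positivity
          _ = K₃ * K₄ / c₀ * Lam ρ y * (vr D ρ x / vr D ρ y) := by ring
      calc hit D ρ (m + 1) x ≤ K₃ * K₄ / c₀ * Lam ρ y * (vr D ρ x / vr D ρ y) + Lam ρ y * al D ρ m x :=
            s2.trans (add_le_add hsum hint)
        _ ≤ K₃ * K₄ / c₀ * Lam ρ y * (vr D ρ x / vr D ρ y) +
              Lam ρ y * (K₁ * (vr D ρ x / vr D ρ y)) := by gcongr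
        _ = (K₃ * K₄ / c₀ + K₁) * Lam ρ y * (vr D ρ x / vr D ρ y) := by ring
        _ ≤ K * Lam ρ y * (vr D ρ x / vr D ρ y) := by
            apply mul_le_mul_of_nonneg_right _ hq
            apply mul_le_mul_of_nonneg_right _ L0
            rw [hK]
            linarith

end Pool.Agent.BPT
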