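import Pool.Agent.MP_99a865_pr.ST.A19
import Pool.Agent.MP_99a865_pr.ST.A20

/-!
# [STB-A21] Exit probabilities from far away
-/

open MeasureTheory ProbabilityTheory Filter Topology
open scoped ENNReal NNReal

namespace Pool.Agent.BPT

variable {D : Set ℝ} {ρ : Measure ℝ} {p C x₀ : ℝ}

private theorem A21_tail [IsProbabilityMeasure ρ] {y w : ℝ} (hy : 0 < y) (h : y ≤ w) :
    ρ.real (Set.Iic (-w)) ≤ Lam ρ y := by
  refine le_trans ?_ (tail_le_Lam (ρ := ρ) hy)
  apply measureReal_mono _ (measure_ne_top _ _)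
  intro u hu
  have hu' : u ≤ -w := hu
  show y ≤ |u|
  rw [abs_of_nonpos (by linarith)]
  linarith

/-- **[STB-A21]** PROOF. `x < 8`: `hit ≤ 1`, `Lam x ≥ Lam 8 > 0`. Let `x ≥ 8`, `y ≥ 1` with `c ≤ n Lam y ≤ 1` (`Reg.scale`). If `x ≤ y`
then `n Lam x ≥ n Lam y ≥ c` and `Reg.hit_le` with `y := x` applies. Let `y < x`. `n = 1`: `hit 1 x = ex x ≤ ρ (Iic (-x)) ≤ Lam x`.
`n = m + 1`, `m ≥ 1`, `c/2 ≤ m Lam y ≤ 1`. Use `hit_le_sum` with `Y = min y (x/2)`.
The sum: `j ≤ ⌊Y⌋ ≤ x/2`, `Reg.far_down` (`c/2`, time `m`), and `⌊Y⌋ ≤ ⌊y⌋`, `tail_sum`: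
`≤ K (m Lam x)(1/(vd y · y)) K' (y/vr y) ≤ (K K'/c₀) (m Lam y) Lam x ≤ (K K'/c₀) Lam x` (`Reg.prod_ge`).
The integral: over `w > x/2`, `ρ (Iic (-w)) ≤ Lam (x/2) ≤ 4 Lam x`. If `Y = y < x/2`, over `y < w ≤ x/2`:
`ρ (Iic (-w)) ≤ Lam y` and `(kap m x).real (Iic (x/2)) ≤ K m Lam (x/2) ≤ 4 K m Lam x` (`Reg.cheb`), product
`≤ 4 K (m Lam y) Lam x ≤ 4 K Lam x`. -/
theorem Reg.hit_far (hD : Dom D) (h : Reg ρ p C x₀) : ∃ K : ℝ, 1 ≤ K ∧ ∀ (n : ℕ) (x : ℝ), 1 ≤ n → 1 ≤ x →
    hit D ρ n x ≤ K * Lam ρ x := by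
  have hρ := h.cen
  have := hρ.prob
  obtain ⟨c, hc, hsc⟩ := h.scale
  obtain ⟨K₁, hK₁, h1⟩ := h.hit_le hD c hc
  obtain ⟨K₂, hK₂, h2⟩ := h.far_down hD (c / 2) (by positivity)
  obtain ⟨K₄, hK₄, h4⟩ := tail_sum hD hρ
  obtain ⟨K₅, hK₅, h5⟩ := h.cheb
  obtain ⟨c₀, hc₀, h6⟩ := h.prod_ge hD
  have hL8 : 0 < Lam ρ 8 := Lam_pos hρ (by norm_num)
  obtain ⟨K, hK⟩ : ∃ K : ℝ, K = 1 + 1 / Lam ρ 8 + K₁ + (K₂ * K₄ / c₀ + 4 + 4 * K₅) := ⟨_, rfl⟩
  have p1 : 0 ≤ 1 / Lam ρ 8 := by positivity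
  have p2 : 0 ≤ K₂ * K₄ / c₀ := by positivity
  refine ⟨K, by rw [hK]; linarith, ?_⟩
  intro n x hn hx
  have hx0 : 0 < x := by linarith
  have Lx : 0 ≤ Lam ρ x := Lam_nonneg ρ x
  have fin : ∀ B : ℝ, B ≤ K → hit D ρ n x ≤ B * Lam ρ x → hit D ρ n x ≤ K * Lam ρ x := fun B hB hh =>
    hh.trans (mul_le_mul_of_nonneg_right hB Lx)
  rcases lt_or_ge x 8 with hx8 | hx8
  · refine fin (1 / Lam ρ 8) (by rw [hK]; linarith) ((hit_le_one (D := D) (ρ := ρ) n x).trans ?_)
    have := Lam_anti (ρ := ρ) hx0 hx8.le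
    rw [div_mul_eq_mul_div, one_mul, le_div_iff₀ hL8, one_mul]
    exact this
  obtain ⟨y, hy, hcy, hy1⟩ := hsc n hn
  have hy0 : 0 < y := by linarith
  have Ly : 0 ≤ Lam ρ y := Lam_nonneg ρ y
  rcases le_or_gt x y with hxy | hxy
  · have hn0 : (0 : ℝ) ≤ n := Nat.cast_nonneg n
    have h7 : c ≤ n * Lam ρ x :=
      hcy.trans (mul_le_mul_of_nonneg_left (Lam_anti hx0 hxy) hn0)
    exact fin K₁ (by rw [hK]; linarith) (h1 n x x hn hx h7 hx0.le).1
  rcases Nat.lt_or_ge n 2 with hn2 | hn2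
  · have hn1 : n = 0 + 1 := by omega
    refine fin 1 (by rw [hK]; linarith) ?_
    have e1 : ENNReal.ofReal (hit D ρ n x) ≤ ρ (Set.Iic (-x)) := by
      rw [hn1, hit_succ hD, kap_zero, lintegral_dirac' _ (measurable_ex hD)]
      exact ex_le_Iic hD x
    have e2 := ENNReal.toReal_mono (measure_ne_top _ _) e1
    rw [ENNReal.toReal_ofReal (hit_nonneg _ _)] at e2
    rw [one_mul]
    exact e2.trans (A21_tail hx0 le_rfl)
  · obtain ⟨m, rfl⟩ : ∃ m, n = m + 1 := ⟨n - 1, by omega⟩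
    have hm : 1 ≤ m := by omega
    have hm' : (1 : ℝ) ≤ m := by exact_mod_cast hm
    have hmc : c / 2 ≤ m * Lam ρ y := by
      push_cast at hcy
      nlinarith
    have hmy : m * Lam ρ y ≤ 1 := by
      push_cast at hy1
      nlinarith
    obtain ⟨Y, hY⟩ : ∃ Y : ℝ, Y = min y (x / 2) := ⟨_, rfl⟩
    have hYy : Y ≤ y := by rw [hY]; exact min_le_left _ _
    have hYx : Y ≤ x / 2 := by rw [hY]; exact min_le_right _ _
    have hY0 : 0 ≤ Y := by rw [hY]; exact le_min hy0.le (by linarith)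
    have s2 := hit_le_sum (ρ := ρ) hD m x Y hx0.le hY0
    have s3 := h4 y hy
    have v2 := one_le_vr hD hρ y
    have v3 := one_le_vd hD hρ y
    have hT0 : ∀ j : ℕ, 0 ≤ ρ.real (Set.Iic (-(j : ℝ))) := fun j => measureReal_nonneg
    have hprod : 1 / (vr D ρ y * vd D ρ y) ≤ Lam ρ y / c₀ := by
      rw [div_le_div_iff₀ (by positivity) hc₀]
      have := h6 y hy
      nlinarith
    have L4 : Lam ρ (x / 2) ≤ 4 * Lam ρ x := by
      have := Lam_sq (ρ := ρ) (y := x / 2) (r := 2) (by linarith) (by norm_num)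
      have e5 : (2 : ℝ) * (x / 2) = x := by ring
      rw [e5] at this
      norm_num at this
      exact this
    -- the sum
    have hsum : ∑ j ∈ Finset.range (⌊Y⌋₊ + 1),
        (kap D ρ m x).real (Set.Ico (j : ℝ) (j + 1)) * ρ.real (Set.Iic (-(j : ℝ))) ≤
        K₂ * K₄ / c₀ * Lam ρ x := by
      calc ∑ j ∈ Finset.range (⌊Y⌋₊ + 1),
            (kap D ρ m x).real (Set.Ico (j : ℝ) (j + 1)) * ρ.real (Set.Iic (-(j : ℝ)))
          ≤ ∑ j ∈ Finset.range (⌊Y⌋₊ + 1), K₂ * (m * Lam ρ x) * (1 / (vd D ρ y * y)) *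
              (vd D ρ (j + 1) * ρ.real (Set.Iic (-(j : ℝ)))) := by
            apply Finset.sum_le_sum
            intro j hj
            have hj1 : j ≤ ⌊Y⌋₊ := Nat.lt_succ_iff.1 (Finset.mem_range.1 hj)
            have hj2 : (j : ℝ) ≤ x / 2 :=
              ((Nat.cast_le.2 hj1).trans (Nat.floor_le hY0)).trans hYx
            have := h2 m y x j hm hy hxy.le hmc (Nat.cast_nonneg j) hj2
            calc (kap D ρ m x).real (Set.Ico (j : ℝ) (j + 1)) * ρ.real (Set.Iic (-(j : ℝ)))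
                ≤ (K₂ * (m * Lam ρ x) * (vd D ρ (j + 1) / (vd D ρ y * y))) *
                    ρ.real (Set.Iic (-(j : ℝ))) :=
                  mul_le_mul_of_nonneg_right this (hT0 j)
              _ = _ := by ring
        _ = K₂ * (m * Lam ρ x) * (1 / (vd D ρ y * y)) * ∑ j ∈ Finset.range (⌊Y⌋₊ + 1),
              (vd D ρ (j + 1) * ρ.real (Set.Iic (-(j : ℝ)))) := by rw [Finset.mul_sum]
        _ ≤ K₂ * (m * Lam ρ x) * (1 / (vd D ρ y * y)) * ∑ j ∈ Finset.range (⌊y⌋₊ + 1),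
              (vd D ρ (j + 1) * ρ.real (Set.Iic (-(j : ℝ)))) := by
            apply mul_le_mul_of_nonneg_left _ (by positivity)
            apply Finset.sum_le_sum_of_subset_of_nonneg
            · exact Finset.range_mono (Nat.succ_le_succ (Nat.floor_le_floor hYy))
            · intro j _ _
              exact mul_nonneg (zero_le_one.trans (one_le_vd hD hρ _)) (hT0 j)
        _ ≤ K₂ * (m * Lam ρ x) * (1 / (vd D ρ y * y)) * (K₄ * (y / vr D ρ y)) := by
            apply mul_le_mul_of_nonneg_left s3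
            positivity
        _ = K₂ * K₄ * (m * Lam ρ x) * (1 / (vr D ρ y * vd D ρ y)) := by
            field_simp
        _ ≤ K₂ * K₄ * (m * Lam ρ x) * (Lam ρ y / c₀) := by
            apply mul_le_mul_of_nonneg_left hprod
            positivity
        _ = K₂ * K₄ / c₀ * Lam ρ x * (m * Lam ρ y) := by ring
        _ ≤ K₂ * K₄ / c₀ * Lam ρ x * 1 := by
            apply mul_le_mul_of_nonneg_left hmy
            positivity
        _ = K₂ * K₄ / c₀ * Lam ρ x := mul_one _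
    -- the integral
    have hm1 : Measurable fun w : ℝ => ρ.real (Set.Iic (-w)) := by
      have ha : Antitone fun w : ℝ => ρ.real (Set.Iic (-w)) := fun a b hab =>
        measureReal_mono (Set.Iic_subset_Iic.2 (by linarith)) (measure_ne_top _ _)
      exact ha.measurable
    have hi : IntegrableOn (fun w : ℝ => ρ.real (Set.Iic (-w))) (Set.Ioi Y) (kap D ρ m x) := by
      refine Integrable.mono' (g := fun _ => (1 : ℝ)) (integrable_const _) hm1.aestronglyMeasurable ?_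
      filter_upwards with w
      rw [Real.norm_of_nonneg measureReal_nonneg]
      exact measureReal_le_one
    have hi2 : Integrable ((Set.Iic (x / 2)).indicator fun _ : ℝ => Lam ρ y) (kap D ρ m x) :=
      (integrable_const _).indicator measurableSet_Iic
    have hbd : ∀ w ∈ Set.Ioi Y, ρ.real (Set.Iic (-w)) ≤
        4 * Lam ρ x + (Set.Iic (x / 2)).indicator (fun _ : ℝ => Lam ρ y) w := by
      intro w hw
      have hw' : Y < w := hw
      rcases le_or_gt w (x / 2) with hwx | hwx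
      · rw [Set.indicator_of_mem (show w ∈ Set.Iic (x / 2) from hwx)]
        have hyw : y ≤ w := by
          rw [hY, min_lt_iff] at hw'
          rcases hw' with hw' | hw'
          · exact hw'.le
          · linarith
        have := A21_tail (ρ := ρ) hy0 hyw
        linarith
      · have hnot : w ∉ Set.Iic (x / 2) := fun hh => absurd hwx (not_lt.2 hh)
        rw [Set.indicator_of_notMem hnot, add_zero]
        exact (A21_tail (ρ := ρ) (by linarith : 0 < x / 2) hwx.le).trans L4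
    have hcheb : (kap D ρ m x).real (Set.Iic (x / 2)) ≤ K₅ * (m * Lam ρ (x / 2)) := by
      refine le_trans ?_ ((h5 m (x / 2) (by linarith)).2.2 D hD x)
      apply measureReal_mono _ (measure_ne_top _ _)
      intro z hz
      have hz' : z ≤ x / 2 := hz
      show x / 2 ≤ |z - x|
      rw [abs_of_nonpos (by linarith)]
      linarith
    have hint : ∫ w in Set.Ioi Y, ρ.real (Set.Iic (-w)) ∂(kap D ρ m x) ≤
        (4 + 4 * K₅) * Lam ρ x := by
      calc ∫ w in Set.Ioi Y, ρ.real (Set.Iic (-w)) ∂(kap D ρ m x)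
          ≤ ∫ w in Set.Ioi Y, (4 * Lam ρ x + (Set.Iic (x / 2)).indicator (fun _ : ℝ => Lam ρ y) w)
              ∂(kap D ρ m x) :=
            setIntegral_mono_on hi ((integrable_const _).add hi2).integrableOn measurableSet_Ioi hbd
        _ ≤ ∫ w, (4 * Lam ρ x + (Set.Iic (x / 2)).indicator (fun _ : ℝ => Lam ρ y) w)
              ∂(kap D ρ m x) := by
            apply setIntegral_le_integral ((integrable_const _).add hi2)
            filter_upwards with w
            apply add_nonneg (by positivity)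
            exact Set.indicator_nonneg (fun _ _ => Ly) w
        _ = (kap D ρ m x).real Set.univ * (4 * Lam ρ x) +
              (kap D ρ m x).real (Set.Iic (x / 2)) * Lam ρ y := by
            rw [integral_add (integrable_const _) hi2, integral_const, smul_eq_mul,
              integral_indicator measurableSet_Iic, setIntegral_const, smul_eq_mul]
        _ ≤ 1 * (4 * Lam ρ x) + (K₅ * (m * Lam ρ (x / 2))) * Lam ρ y := by
            apply add_le_add
            · exact mul_le_mul_of_nonneg_right (al_le_one (D := D) (ρ := ρ) m x) (by positivity)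
            · exact mul_le_mul_of_nonneg_right hcheb Ly
        _ = 4 * Lam ρ x + K₅ * (m * Lam ρ y) * Lam ρ (x / 2) := by ring
        _ ≤ 4 * Lam ρ x + K₅ * 1 * (4 * Lam ρ x) := by
            have : K₅ * (m * Lam ρ y) ≤ K₅ * 1 := mul_le_mul_of_nonneg_left hmy (by linarith)
            have h7 : 0 ≤ Lam ρ (x / 2) := Lam_nonneg ρ _
            have : K₅ * (m * Lam ρ y) * Lam ρ (x / 2) ≤ K₅ * 1 * (4 * Lam ρ x) :=
              mul_le_mul this L4 h7 (by linarith)
            linarith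
        _ = (4 + 4 * K₅) * Lam ρ x := by ring
    refine fin (K₂ * K₄ / c₀ + 4 + 4 * K₅) (by rw [hK]; linarith) ?_
    calc hit D ρ (m + 1) x ≤ K₂ * K₄ / c₀ * Lam ρ x + (4 + 4 * K₅) * Lam ρ x :=
          s2.trans (add_le_add hsum hint)
      _ = (K₂ * K₄ / c₀ + 4 + 4 * K₅) * Lam ρ x := by ring

end Pool.Agent.BPT
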