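import Pool.Agent.MP_99a865_pr.ST.A21

/-!
# [STB-A22] Corollaries
-/

open MeasureTheory ProbabilityTheory Filter Topology
open scoped ENNReal NNReal

namespace Pool.Agent.BPT

variable {D : Set ℝ} {ρ : Measure ℝ} {p C x₀ : ℝ}

private theorem A22_tele {p x : ℝ} (hp1 : 1 < p) (hp2 : p ≤ 2) (hx : 1 < x) :
    (p - 1) * x ^ (-p) ≤ (x - 1) ^ (1 - p) - x ^ (1 - p) := by
  have hx0 : 0 < x := by linarith
  have hx1 : 0 < x - 1 := by linarith
  have h1 := rpow_one_add_le_one_add_mul_self (s := -(1 / x)) (by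
    rw [neg_le_neg_iff, div_le_one hx0]
    exact hx.le) (p := p - 1) (by linarith) (by linarith)
  have h2 : 1 + -(1 / x) = (x - 1) / x := by field_simp; ring
  rw [h2, Real.div_rpow hx1.le hx0.le] at h1
  set u : ℝ := (x - 1) ^ (p - 1) with hu
  set v : ℝ := x ^ (p - 1) with hv
  have hu0 : 0 < u := Real.rpow_pos_of_pos hx1 _
  have hv0 : 0 < v := Real.rpow_pos_of_pos hx0 _
  have e1 : (x - 1) ^ (1 - p) = u⁻¹ := by
    rw [hu, ← Real.rpow_neg hx1.le]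
    congr 1
    ring
  have e2 : x ^ (1 - p) = v⁻¹ := by
    rw [hv, ← Real.rpow_neg hx0.le]
    congr 1
    ring
  have e3 : x ^ (-p) = v⁻¹ * x⁻¹ := by
    rw [hv, ← Real.rpow_neg hx0.le, ← Real.rpow_neg_one x, ← Real.rpow_add hx0]
    congr 1
    ring
  rw [e1, e2, e3]
  -- u / v ≤ 1 - (p-1)/x
  have h3 : u / v * (1 + (p - 1) / x) ≤ 1 := by
    have h4 : 0 ≤ (p - 1) / x := by
      apply div_nonneg _ hx0.le
      linarith
    calc u / v * (1 + (p - 1) / x) ≤ (1 + (p - 1) * -(1 / x)) * (1 + (p - 1) / x) :=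
          mul_le_mul_of_nonneg_right h1 (by linarith)
      _ = 1 - ((p - 1) / x) ^ 2 := by ring
      _ ≤ 1 := by
          have := sq_nonneg ((p - 1) / x)
          linarith
  have h4 : v⁻¹ * (1 + (p - 1) / x) ≤ u⁻¹ := by
    have h5 : v⁻¹ * (1 + (p - 1) / x) = u⁻¹ * (u / v * (1 + (p - 1) / x)) := by
      field_simp
    rw [h5]
    calc u⁻¹ * (u / v * (1 + (p - 1) / x)) ≤ u⁻¹ * 1 :=
          mul_le_mul_of_nonneg_left h3 (by positivity)
      _ = u⁻¹ := mul_one _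
  have h5 : v⁻¹ * (1 + (p - 1) / x) = v⁻¹ + (p - 1) * (v⁻¹ * x⁻¹) := by ring
  linarith

private theorem A22_range {p : ℝ} (hp1 : 1 < p) (hp2 : p ≤ 2) {N : ℕ} (hN : 1 ≤ N) (m : ℕ) :
    (p - 1) * ∑ j ∈ Finset.range m, ((N + 1 + j : ℕ) : ℝ) ^ (-p) ≤
      (N : ℝ) ^ (1 - p) - ((N + m : ℕ) : ℝ) ^ (1 - p) := by
  induction m with
  | zero => simp
  | succ m ih =>
    rw [Finset.sum_range_succ, mul_add]
    have h1 := A22_tele hp1 hp2 (x := ((N + 1 + m : ℕ) : ℝ)) (by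
      have : 1 < N + 1 + m := by omega
      exact_mod_cast this)
    have h2 : ((N + 1 + m : ℕ) : ℝ) - 1 = ((N + m : ℕ) : ℝ) := by
      push_cast
      ring
    have h3 : N + (m + 1) = N + 1 + m := by ring
    rw [h2] at h1
    rw [h3]
    linarith

private theorem A22_sum {p a : ℝ} (hp1 : 1 < p) (hp2 : p ≤ 2) (ha : 1 ≤ a) (A : Finset ℕ) :
    ∑ i ∈ A.filter (fun i : ℕ => a ≤ (i : ℝ)), (i : ℝ) ^ (-p) ≤ (1 + 1 / (p - 1)) * a ^ (1 - p) := by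
  have ha0 : 0 < a := by linarith
  set N := ⌈a⌉₊ with hN
  have hN1 : 1 ≤ N := by
    have : (1 : ℝ) ≤ N := ha.trans (Nat.le_ceil a)
    exact_mod_cast this
  have haN : a ≤ N := Nat.le_ceil a
  have hN0 : (0 : ℝ) < N := by linarith
  set m := A.sup id with hm
  have hsub : A.filter (fun i : ℕ => a ≤ (i : ℝ)) ⊆
      insert N ((Finset.range m).image fun j => N + 1 + j) := by
    intro i hi
    rw [Finset.mem_filter] at hi
    have h1 : N ≤ i := Nat.ceil_le.2 hi.2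
    have h2 : i ≤ m := Finset.le_sup (f := id) hi.1
    rw [Finset.mem_insert, Finset.mem_image]
    rcases Nat.eq_or_lt_of_le h1 with h3 | h3
    · exact Or.inl h3.symm
    · right
      refine ⟨i - (N + 1), ?_, by omega⟩
      rw [Finset.mem_range]
      omega
  have hnn : ∀ i : ℕ, 0 ≤ (i : ℝ) ^ (-p) := fun i => Real.rpow_nonneg (Nat.cast_nonneg i) _
  refine (Finset.sum_le_sum_of_subset_of_nonneg hsub fun i _ _ => hnn i).trans ?_
  have h1 : ∑ i ∈ insert N ((Finset.range m).image fun j => N + 1 + j), (i : ℝ) ^ (-p) ≤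
      (N : ℝ) ^ (-p) + ∑ j ∈ Finset.range m, ((N + 1 + j : ℕ) : ℝ) ^ (-p) := by
    rw [Finset.sum_insert, Finset.sum_image]
    · intro i _ j _ hij
      have : N + 1 + i = N + 1 + j := hij
      omega
    · intro hmem
      rw [Finset.mem_image] at hmem
      obtain ⟨j, _, hj⟩ := hmem
      omega
  refine h1.trans ?_
  have h2 := A22_range hp1 hp2 hN1 m
  have h3 : (0 : ℝ) ≤ ((N + m : ℕ) : ℝ) ^ (1 - p) := Real.rpow_nonneg (Nat.cast_nonneg _) _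
  have h4 : (N : ℝ) ^ (1 - p) ≤ a ^ (1 - p) := Real.rpow_le_rpow_of_nonpos ha0 haN (by linarith)
  have h5 : (N : ℝ) ^ (-p) ≤ a ^ (1 - p) := by
    calc (N : ℝ) ^ (-p) ≤ a ^ (-p) := Real.rpow_le_rpow_of_nonpos ha0 haN (by linarith)
      _ ≤ a ^ (1 - p) := Real.rpow_le_rpow_of_exponent_le ha (by linarith)
  have h6 : ∑ j ∈ Finset.range m, ((N + 1 + j : ℕ) : ℝ) ^ (-p) ≤ 1 / (p - 1) * a ^ (1 - p) := by
    rw [one_div, ← div_eq_inv_mul, le_div_iff₀ (by linarith)]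
    linarith
  linarith

/-- PROOF. `x ≤ y`: `Reg.hit_le`; `x > y ≥ 1`: `Reg.hit_far`. -/
theorem Reg.hit_max (hD : Dom D) (h : Reg ρ p C x₀) : ∀ c : ℝ, 0 < c → ∃ K : ℝ, 1 ≤ K ∧
    ∀ (n : ℕ) (y x : ℝ), 1 ≤ n → 1 ≤ y → c ≤ n * Lam ρ y → 0 ≤ x →
      hit D ρ n x ≤ K * Lam ρ (max y x) := by
  intro c hc
  have hp := h.cen.prob
  obtain ⟨K₁, hK₁, h1⟩ := h.hit_le hD c hc
  obtain ⟨K₂, hK₂, h2⟩ := h.hit_far hD
  refine ⟨max K₁ K₂, hK₁.trans (le_max_left _ _), fun n y x hn hy hcy hx => ?_⟩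
  have hL := Lam_nonneg ρ (max y x)
  rcases le_or_gt x y with hxy | hxy
  · rw [max_eq_left hxy] at hL ⊢
    exact (h1 n y x hn hy hcy hx).1.trans (mul_le_mul_of_nonneg_right (le_max_left _ _) hL)
  · rw [max_eq_right hxy.le] at hL ⊢
    exact (h2 n x hn (hy.trans hxy.le)).trans (mul_le_mul_of_nonneg_right (le_max_right _ _) hL)

/-- PROOF. `Reg.scale` and `Reg.hit_le`. -/
theorem Reg.hit_sup (hD : Dom D) (h : Reg ρ p C x₀) : ∃ K : ℝ, 1 ≤ K ∧ ∀ (n : ℕ) (x : ℝ), 1 ≤ n → 0 ≤ x →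
    hit D ρ n x ≤ K / n := by
  obtain ⟨c, hc, hsc⟩ := h.scale
  obtain ⟨K₁, hK₁, h1⟩ := h.hit_le hD c hc
  refine ⟨K₁, hK₁, fun n x hn hx => ?_⟩
  obtain ⟨y, hy, hy1, hy2⟩ := hsc n hn
  have hn0 : (0 : ℝ) < n := by exact_mod_cast hn
  refine (h1 n y x hn hy hy1 hx).1.trans ?_
  rw [le_div_iff₀ hn0]
  have : K₁ * Lam ρ y * n = K₁ * (n * Lam ρ y) := by ring
  rw [this]
  calc K₁ * (n * Lam ρ y) ≤ K₁ * 1 := mul_le_mul_of_nonneg_left hy2 (by linarith)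
    _ = K₁ := mul_one _

/-- Sums of the scale function over unit windows. PROOF. For `a ≥ 1`: `∑_{i ≥ a} Lam i ≤ K a Lam a`, because
`Lam i ≤ K₁ (i/a)^{-p} Lam a` (`Reg.all`) and `∑_{i ≥ a} (i/a)^{-p} ≤ 1 + ∫_{a}^∞ (t/a)^{-p} dt + … ≤ (2 + 1/(p-1)) a`. -/
theorem Reg.Lam_sum (h : Reg ρ p C x₀) : ∃ K : ℝ, 1 ≤ K ∧ ∀ a : ℝ, 1 ≤ a → ∀ A : Finset ℕ,
    ∑ i ∈ A.filter (fun i : ℕ => a ≤ (i : ℝ)), Lam ρ i ≤ K * (a * Lam ρ a) := by
  have hp := h.cen.prob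
  obtain ⟨K₁, hK₁, hR⟩ := h.all
  have hp1 := h.p1
  have hp2 := h.p2
  have hθ : 0 < p - 1 := by linarith
  refine ⟨K₁ * (1 + 1 / (p - 1)), ?_, fun a ha A => ?_⟩
  · have h1 : 1 ≤ 1 + 1 / (p - 1) := by
      have : 0 ≤ 1 / (p - 1) := by positivity
      linarith
    calc (1 : ℝ) = 1 * 1 := (one_mul 1).symm
      _ ≤ _ := mul_le_mul hK₁ h1 zero_le_one (by linarith)
  have ha0 : 0 < a := by linarith
  have hLa := Lam_nonneg ρ a
  have h1 : ∀ i ∈ A.filter (fun i : ℕ => a ≤ (i : ℝ)), Lam ρ i ≤ K₁ * a ^ p * Lam ρ a * (i : ℝ) ^ (-p) := by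
    intro i hi
    have hai : a ≤ (i : ℝ) := (Finset.mem_filter.1 hi).2
    have hi0 : (0 : ℝ) < i := by linarith
    have h2 := hR a ha (i / a) (by rw [le_div_iff₀ ha0]; linarith)
    have h3 : (i : ℝ) / a * a = i := by field_simp
    rw [h3] at h2
    refine h2.trans (le_of_eq ?_)
    have h4 : ((i : ℝ) / a) ^ (-p) = i ^ (-p) * a ^ p := by
      rw [div_eq_mul_inv, Real.mul_rpow hi0.le (by positivity), Real.inv_rpow ha0.le, Real.rpow_neg ha0.le,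
        inv_inv]
    rw [h4]
    ring
  refine (Finset.sum_le_sum h1).trans ?_
  rw [← Finset.mul_sum]
  have h5 := A22_sum hp1 hp2 ha A
  have h6 : K₁ * a ^ p * Lam ρ a * ∑ i ∈ A.filter (fun i : ℕ => a ≤ (i : ℝ)), (i : ℝ) ^ (-p) ≤
      K₁ * a ^ p * Lam ρ a * ((1 + 1 / (p - 1)) * a ^ (1 - p)) :=
    mul_le_mul_of_nonneg_left h5 (by positivity)
  refine h6.trans (le_of_eq ?_)
  have h7 : a ^ p * a ^ (1 - p) = a := by
    rw [← Real.rpow_add ha0]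
    have : p + (1 - p) = 1 := by ring
    rw [this, Real.rpow_one]
  have h8 : K₁ * a ^ p * Lam ρ a * ((1 + 1 / (p - 1)) * a ^ (1 - p)) =
      K₁ * Lam ρ a * (1 + 1 / (p - 1)) * (a ^ p * a ^ (1 - p)) := by ring
  rw [h8, h7]
  ring

/-- Sums of `hit n` over unit windows: everything, near the origin, far away. PROOF. `Reg.hit_max` and `Reg.Lam_sum`:
`hit n x ≤ K Lam (max y x)`. (i) windows `i ≤ y`: at most `(y + 2) K Lam y`; windows `i > y`: `K ∑_{i > y} Lam i ≤ K' y Lam y`.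
(ii) at most `(w + 1)` windows, each `≤ K Lam y`. (iii) `K ∑_{i ≥ R y} Lam i ≤ K' R y Lam (R y) ≤ K'' R^{1-p} y Lam y`. -/
theorem Reg.hit_windows (hD : Dom D) (h : Reg ρ p C x₀) : ∀ c : ℝ, 0 < c → ∃ K : ℝ, 1 ≤ K ∧
    ∀ (n : ℕ) (y : ℝ), 1 ≤ n → 1 ≤ y → c ≤ n * Lam ρ y → ∀ g : ℕ → ℝ,
      (∀ i : ℕ, ∃ x : ℝ, (i : ℝ) ≤ x ∧ x ≤ i + 1 ∧ g i = hit D ρ n x) → ∀ A : Finset ℕ,
      ∑ i ∈ A, g i ≤ K * (y * Lam ρ y) ∧
      (∀ w : ℝ, 1 ≤ w → ∑ i ∈ A.filter (fun i : ℕ => (i : ℝ) ≤ w), g i ≤ K * (w * Lam ρ y)) ∧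
      (∀ R : ℝ, 1 ≤ R → ∑ i ∈ A.filter (fun i : ℕ => R * y ≤ (i : ℝ)), g i ≤
        K * R ^ (1 - p) * (y * Lam ρ y)) := by
  intro c hc
  have hp := h.cen.prob
  obtain ⟨K₀, hK₀, h0⟩ := h.hit_max hD c hc
  obtain ⟨K₁, hK₁, h1⟩ := h.Lam_sum
  obtain ⟨K₂, hK₂, h2⟩ := h.all
  have hKK : 1 ≤ K₀ * K₁ := by nlinarith
  have hKKK : K₀ * K₁ ≤ K₀ * K₁ * K₂ := by nlinarith
  refine ⟨2 * K₀ + K₀ * K₁ * K₂, by nlinarith, fun n y hn hy hcy g hg A => ?_⟩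
  have hy0 : 0 < y := by linarith
  have hLy := Lam_nonneg ρ y
  have hg1 : ∀ i : ℕ, g i ≤ K₀ * Lam ρ (max y i) := by
    intro i
    obtain ⟨x, hx1, hx2, hx3⟩ := hg i
    rw [hx3]
    have hi0 : (0 : ℝ) ≤ i := Nat.cast_nonneg i
    refine (h0 n y x hn hy hcy (hi0.trans hx1)).trans ?_
    apply mul_le_mul_of_nonneg_left _ (by linarith)
    exact Lam_anti (lt_of_lt_of_le hy0 (le_max_left _ _)) (max_le_max le_rfl hx1)
  have hg2 : ∀ i : ℕ, g i ≤ K₀ * Lam ρ y := fun i =>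
    (hg1 i).trans (mul_le_mul_of_nonneg_left (Lam_anti hy0 (le_max_left _ _)) (by linarith))
  have hsmall : ∀ w : ℝ, 1 ≤ w → ∑ i ∈ A.filter (fun i : ℕ => (i : ℝ) ≤ w), g i ≤
      2 * K₀ * (w * Lam ρ y) := by
    intro w hw
    have h3 : ∑ i ∈ A.filter (fun i : ℕ => (i : ℝ) ≤ w), g i ≤
        (A.filter (fun i : ℕ => (i : ℝ) ≤ w)).card • (K₀ * Lam ρ y) :=
      Finset.sum_le_card_nsmul _ _ _ fun i _ => hg2 i
    have h4 : (A.filter (fun i : ℕ => (i : ℝ) ≤ w)).card ≤ ⌊w⌋₊ + 1 := by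
      have h5 : A.filter (fun i : ℕ => (i : ℝ) ≤ w) ⊆ Finset.range (⌊w⌋₊ + 1) := by
        intro i hi
        have := (Finset.mem_filter.1 hi).2
        rw [Finset.mem_range]
        exact Nat.lt_succ_of_le (Nat.le_floor this)
      simpa using Finset.card_le_card h5
    have h5 : ((A.filter (fun i : ℕ => (i : ℝ) ≤ w)).card : ℝ) ≤ 2 * w := by
      have h6 : ((A.filter (fun i : ℕ => (i : ℝ) ≤ w)).card : ℝ) ≤ ((⌊w⌋₊ + 1 : ℕ) : ℝ) := by
        exact_mod_cast h4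
      have h7 : (⌊w⌋₊ : ℝ) ≤ w := Nat.floor_le (by linarith)
      push_cast at h6
      linarith
    rw [nsmul_eq_mul] at h3
    refine h3.trans ?_
    calc ((A.filter (fun i : ℕ => (i : ℝ) ≤ w)).card : ℝ) * (K₀ * Lam ρ y) ≤ 2 * w * (K₀ * Lam ρ y) :=
          mul_le_mul_of_nonneg_right h5 (by positivity)
      _ = 2 * K₀ * (w * Lam ρ y) := by ring
  have hbig : ∀ a : ℝ, y ≤ a → ∑ i ∈ A.filter (fun i : ℕ => a ≤ (i : ℝ)), g i ≤
      K₀ * K₁ * (a * Lam ρ a) := by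
    intro a ha
    have h3 : ∑ i ∈ A.filter (fun i : ℕ => a ≤ (i : ℝ)), g i ≤
        ∑ i ∈ A.filter (fun i : ℕ => a ≤ (i : ℝ)), K₀ * Lam ρ i := by
      refine Finset.sum_le_sum fun i hi => ?_
      have hai := (Finset.mem_filter.1 hi).2
      have h4 := hg1 i
      rwa [max_eq_right (ha.trans hai)] at h4
    rw [← Finset.mul_sum] at h3
    refine h3.trans ?_
    have h4 := h1 a (hy.trans ha) A
    calc K₀ * ∑ i ∈ A.filter (fun i : ℕ => a ≤ (i : ℝ)), Lam ρ i ≤ K₀ * (K₁ * (a * Lam ρ a)) :=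
          mul_le_mul_of_nonneg_left h4 (by linarith)
      _ = K₀ * K₁ * (a * Lam ρ a) := by ring
  refine ⟨?_, fun w hw => ?_, fun R hR => ?_⟩
  · have h3 : ∑ i ∈ A, g i ≤ ∑ i ∈ A.filter (fun i : ℕ => (i : ℝ) ≤ y), g i +
        ∑ i ∈ A.filter (fun i : ℕ => y ≤ (i : ℝ)), g i := by
      have h4 := Finset.sum_filter_add_sum_filter_not A (fun i : ℕ => (i : ℝ) ≤ y) g
      rw [← h4]
      apply add_le_add le_rfl
      apply Finset.sum_le_sum_of_subset_of_nonneg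
      · intro i hi
        rw [Finset.mem_filter] at hi ⊢
        exact ⟨hi.1, (not_le.1 hi.2).le⟩
      · intro i _ _
        obtain ⟨x, hx1, hx2, hx3⟩ := hg i
        rw [hx3]
        exact measureReal_nonneg
    have h4 := hsmall y hy
    have h5 := hbig y le_rfl
    have h6 : K₀ * K₁ * (y * Lam ρ y) ≤ K₀ * K₁ * K₂ * (y * Lam ρ y) :=
      mul_le_mul_of_nonneg_right hKKK (by positivity)
    calc ∑ i ∈ A, g i ≤ 2 * K₀ * (y * Lam ρ y) + K₀ * K₁ * K₂ * (y * Lam ρ y) := by linarith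
      _ = _ := by ring
  · refine (hsmall w hw).trans ?_
    apply mul_le_mul_of_nonneg_right _ (by positivity)
    have : 0 ≤ K₀ * K₁ * K₂ := by linarith
    linarith
  · have hRy : y ≤ R * y := by nlinarith
    have hR0 : 0 < R := by linarith
    refine (hbig (R * y) hRy).trans ?_
    have h3 := h2 y hy R hR
    have h4 : R * R ^ (-p) = R ^ (1 - p) := by
      rw [sub_eq_add_neg, Real.rpow_add hR0, Real.rpow_one]
    have hRp : 0 < R ^ (1 - p) := Real.rpow_pos_of_pos hR0 _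
    calc K₀ * K₁ * (R * y * Lam ρ (R * y)) ≤ K₀ * K₁ * (R * y * (K₂ * R ^ (-p) * Lam ρ y)) := by
          apply mul_le_mul_of_nonneg_left _ (by linarith)
          exact mul_le_mul_of_nonneg_left h3 (by positivity)
      _ = K₀ * K₁ * K₂ * (R * R ^ (-p)) * (y * Lam ρ y) := by ring
      _ = K₀ * K₁ * K₂ * R ^ (1 - p) * (y * Lam ρ y) := by rw [h4]
      _ ≤ (2 * K₀ + K₀ * K₁ * K₂) * R ^ (1 - p) * (y * Lam ρ y) := by
          apply mul_le_mul_of_nonneg_right _ (by positivity)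
          apply mul_le_mul_of_nonneg_right _ hRp.le
          linarith

/-- the walk near the origin, given a start `x`. PROOF. `Reg.win_vr` with `z = 0` (`kap n x` lives on `[0,∞)`). -/
theorem Reg.near (hD : Dom D) (h : Reg ρ p C x₀) : ∀ c : ℝ, 0 < c → ∃ K : ℝ, 1 ≤ K ∧
    ∀ (n : ℕ) (y w x : ℝ), 1 ≤ n → 1 ≤ y → 1 ≤ w → c ≤ n * Lam ρ y → 0 ≤ x →
      (kap D ρ n x).real (Set.Iio w) ≤ K * (w / y) * (vr D ρ x / vr D ρ y) := by
  intro c hc
  have hp := h.cen.prob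
  obtain ⟨K, hK, h1⟩ := h.win_vr hD c hc
  refine ⟨K, hK, fun n y w x hn hy hw hcy hx => ?_⟩
  refine le_trans ?_ (h1 n y w x 0 hn hy hw hcy hx)
  rw [zero_add]
  have h2 : kap D ρ n x (Set.Iio 0) = 0 := by
    have h3 := kap_compl hD n x (Or.inl hn) (ρ := ρ)
    refine measure_mono_null ?_ h3
    intro z hz hzD
    have hz' : z < 0 := hz
    have := hD.nonneg hzD
    linarith
  unfold Measure.real
  have hfin : kap D ρ n x (Set.Ico 0 w) ≠ ∞ := (measure_lt_top _ _).ne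
  apply ENNReal.toReal_mono hfin
  calc kap D ρ n x (Set.Iio w) ≤ kap D ρ n x (Set.Iio 0 ∪ Set.Ico 0 w) := by
        apply measure_mono
        intro z hz
        have hz' : z < w := hz
        rcases lt_or_ge z 0 with h3 | h3
        · exact Or.inl h3
        · exact Or.inr ⟨h3, hz'⟩
    _ ≤ kap D ρ n x (Set.Iio 0) + kap D ρ n x (Set.Ico 0 w) := measure_union_le _ _
    _ = kap D ρ n x (Set.Ico 0 w) := by rw [h2, zero_add]

end Pool.Agent.BPT
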