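import Pool.Agent.MP_99a865_pr.ST.A16
import Pool.Agent.MP_99a865_pr.ST.A6
import Pool.Agent.MP_99a865_pr.FV.A4

/-!
# [STB-A23] Windows far from the starting point, free walk
-/

open MeasureTheory ProbabilityTheory Filter Topology
open scoped ENNReal NNReal

namespace Pool.Agent.BPT

variable {D : Set ℝ} {ρ : Measure ℝ} {p C x₀ : ℝ}

/-- **[STB-A23]** PROOF. `J = Ico z (z+w)`. `d < 2`: then `y < 2`, the left side is at most one and
`n Lam d (w/y) ≥ Lam 2/2`. Let `d ≥ 2`. `n = 1`: `y ≤ Y` (`Reg.bdd`), the left side is at most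
`(fre 1 x) {u | d ≤ |u - x|} ≤ K Lam d` (`Reg.cheb`) and `w/y ≥ 1/Y`. `n ≥ 2`: `n = k + l`, `k = n/2 ≥ 1`, `k ≥ n/3`, `l ≥ n/2`. If
`x + S_n ∈ J` then `|S_n| ≥ d`, so `|S_k| ≥ d/2` or `|S_l (shift k)| ≥ d/2`. By `A4_first`, `A4_second` (FV/A4.lean; `A4_fre`) with
`c = K (w/y)` (`Reg.win_free` for the times `k, l ≥ n/3`, constant `c/3`) the probability is at most
`(P(|S_k| ≥ d/2) + P(|S_l| ≥ d/2)) K (w/y)`, and `P(|S_k| ≥ d/2) ≤ K n Lam (d/2) ≤ 4 K n Lam d` (`Reg.cheb`, `Lam_sq`). -/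
theorem Reg.far (h : Reg ρ p C x₀) : ∀ c : ℝ, 0 < c → ∃ K : ℝ, 1 ≤ K ∧
    ∀ (n : ℕ) (y w d x z : ℝ), 1 ≤ n → 1 ≤ y → 1 ≤ w → y ≤ d → c ≤ n * Lam ρ y →
      (∀ u ∈ Set.Ico z (z + w), d ≤ |u - x|) →
      (fre ρ n x).real (Set.Ico z (z + w)) ≤ K * (n * Lam ρ d) * (w / y) := by
  classical
  have hcen := h.cen
  have hp := hcen.prob
  intro c hc
  obtain ⟨Kf, hKf, hfree⟩ := h.win_free (c / 3) (by positivity)
  obtain ⟨Kc, hKc, hcheb⟩ := h.cheb
  obtain ⟨Y, hY, hbdd⟩ := h.bdd hc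
  have hL2 : 0 < Lam ρ 2 := Lam_pos hcen (by norm_num)
  set K : ℝ := 1 + 2 / Lam ρ 2 + Kc * Y + 8 * Kc * Kf with hK
  have hK1 : 1 ≤ K := by
    have h1 : 0 ≤ 2 / Lam ρ 2 := by positivity
    have h2 : 0 ≤ Kc * Y := by positivity
    have h3 : 0 ≤ 8 * Kc * Kf := by positivity
    linarith
  have hKa : 2 / Lam ρ 2 ≤ K := by
    have h2 : 0 ≤ Kc * Y := by positivity
    have h3 : 0 ≤ 8 * Kc * Kf := by positivity
    linarith
  have hKb : Kc * Y ≤ K := by
    have h1 : 0 ≤ 2 / Lam ρ 2 := by positivity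
    have h3 : 0 ≤ 8 * Kc * Kf := by positivity
    linarith
  have hKd : 8 * Kc * Kf ≤ K := by
    have h1 : 0 ≤ 2 / Lam ρ 2 := by positivity
    have h2 : 0 ≤ Kc * Y := by positivity
    linarith
  refine ⟨K, hK1, fun n y w d x z hn hy hw hyd hcn hd => ?_⟩
  have hn1 : (1 : ℝ) ≤ n := by exact_mod_cast hn
  have hy0 : 0 < y := by linarith
  have hd0 : 0 < d := by linarith
  have hLd : 0 < Lam ρ d := Lam_pos hcen hd0
  have hwy : 0 < w / y := by positivity
  rcases lt_or_ge d 2 with h2 | h2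
  · -- `d < 2`
    refine (measureReal_le_one (μ := fre ρ n x)).trans ?_
    have h3 : Lam ρ 2 ≤ Lam ρ d := Lam_anti hd0 h2.le
    have h4 : (1 : ℝ) / 2 ≤ w / y := by
      rw [div_le_div_iff₀ (by norm_num) hy0]
      linarith
    have h5 : 1 * Lam ρ 2 ≤ n * Lam ρ d := mul_le_mul hn1 h3 hL2.le (by linarith)
    calc (1 : ℝ) = 2 / Lam ρ 2 * (1 * Lam ρ 2) * (1 / 2) := by
          field_simp
      _ ≤ K * (n * Lam ρ d) * (w / y) := by
          apply mul_le_mul _ h4 (by norm_num) (by positivity)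
          exact mul_le_mul hKa h5 (by positivity) (by linarith)
  · rcases Nat.lt_or_ge n 2 with hn2 | hn2
    · -- `n = 1`
      have hn0 : n = 1 := by omega
      subst hn0
      have h3 := (hcheb 1 d (by linarith)).2.1 x
      have h4 : (fre ρ 1 x).real (Set.Ico z (z + w)) ≤ (fre ρ 1 x).real {z | d ≤ |z - x|} :=
        measureReal_mono fun u hu => hd u hu
      refine h4.trans (h3.trans ?_)
      have h5 : y ≤ Y := hbdd y hy (by simpa using hcn)
      have h6 : 1 / Y ≤ w / y := by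
        rw [div_le_div_iff₀ (by linarith) hy0]
        nlinarith
      calc Kc * (((1 : ℕ) : ℝ) * Lam ρ d) = Kc * Y * (((1 : ℕ) : ℝ) * Lam ρ d) * (1 / Y) := by
            have : Y ≠ 0 := by linarith
            field_simp
        _ ≤ K * (((1 : ℕ) : ℝ) * Lam ρ d) * (w / y) := by
            apply mul_le_mul _ h6 (by positivity) (by positivity)
            exact mul_le_mul_of_nonneg_right hKb (by positivity)
    · obtain ⟨k1, k2, hkk, hk11, hk12, hk13⟩ : ∃ k1 k2, n = k1 + k2 ∧ 1 ≤ k1 ∧ k1 ≤ k2 ∧ n ≤ 3 * k1 :=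
        ⟨n / 2, n - n / 2, by omega, by omega, by omega, by omega⟩
      have hLy : 0 < Lam ρ y := Lam_pos hcen hy0
      have hk1n : (k1 : ℝ) ≤ n := by exact_mod_cast (by omega : k1 ≤ n)
      have hk2n : (k2 : ℝ) ≤ n := by exact_mod_cast (by omega : k2 ≤ n)
      have hc1 : c / 3 ≤ k1 * Lam ρ y := by
        have h3 : (n : ℝ) ≤ 3 * k1 := by exact_mod_cast hk13
        have h4 : n * Lam ρ y ≤ 3 * k1 * Lam ρ y := mul_le_mul_of_nonneg_right h3 hLy.le
        linarith
      have hc2 : c / 3 ≤ k2 * Lam ρ y := by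
        have h3 : (k1 : ℝ) ≤ k2 := by exact_mod_cast hk12
        exact hc1.trans (mul_le_mul_of_nonneg_right h3 hLy.le)
      have b1 : ∀ z', fre ρ k2 z' (Set.Ico z (z + w)) ≤ ENNReal.ofReal (Kf * (w / y)) := fun z' => by
        rw [← ENNReal.ofReal_toReal (measure_ne_top (fre ρ k2 z') _)]
        exact ENNReal.ofReal_le_ofReal (hfree k2 y w z' z (by omega) hy hw hc2).1
      have b2 : ∀ z', fre ρ k1 z' (Set.Ico z (z + w)) ≤ ENNReal.ofReal (Kf * (w / y)) := fun z' => by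
        rw [← ENNReal.ofReal_toReal (measure_ne_top (fre ρ k1 z') _)]
        exact ENNReal.ofReal_le_ofReal (hfree k1 y w z' z (by omega) hy hw hc1).1
      have f1 := A4_first (ρ := ρ) k1 k2 x (d / 2) _ measurableSet_Ico _ b1
      have f2 := A4_second (ρ := ρ) k1 k2 x (d / 2) _ measurableSet_Ico _ b2
      have hL4 : Lam ρ (d / 2) ≤ 4 * Lam ρ d := by
        have h3 := Lam_sq (ρ := ρ) (y := d / 2) (r := 2) (by positivity) (by norm_num)
        have h4 : 2 * (d / 2) = d := by ring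
        rw [h4] at h3
        linarith
      have hch : ∀ k : ℕ, (k : ℝ) ≤ n → (seqLaw ρ).real {ω | d / 2 ≤ |S k ω|} ≤ 4 * Kc * (n * Lam ρ d) := by
        intro k hk
        refine (hcheb k (d / 2) (by linarith)).1.trans ?_
        have h3 : (k : ℝ) * Lam ρ (d / 2) ≤ n * (4 * Lam ρ d) :=
          mul_le_mul hk hL4 (Lam_nonneg _ _) (by linarith)
        calc Kc * ((k : ℝ) * Lam ρ (d / 2)) ≤ Kc * (n * (4 * Lam ρ d)) :=
              mul_le_mul_of_nonneg_left h3 (by linarith)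
          _ = 4 * Kc * (n * Lam ρ d) := by ring
      have g1 : (seqLaw ρ).real {ω | x + S (k1 + k2) ω ∈ Set.Ico z (z + w) ∧ d / 2 ≤ |S k1 ω|} ≤
          (4 * Kc * (n * Lam ρ d)) * (Kf * (w / y)) := by
        have h9 := ENNReal.toReal_mono (ENNReal.mul_ne_top (measure_ne_top _ _)
          ENNReal.ofReal_ne_top) f1
        rw [ENNReal.toReal_mul, ENNReal.toReal_ofReal (by positivity)] at h9
        exact h9.trans (mul_le_mul_of_nonneg_right (hch k1 hk1n) (by positivity))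
      have g2 : (seqLaw ρ).real {ω | x + S (k1 + k2) ω ∈ Set.Ico z (z + w) ∧
          d / 2 ≤ |S k2 (shift k1 ω)|} ≤ (4 * Kc * (n * Lam ρ d)) * (Kf * (w / y)) := by
        have h9 := ENNReal.toReal_mono (ENNReal.mul_ne_top (measure_ne_top _ _)
          ENNReal.ofReal_ne_top) f2
        rw [ENNReal.toReal_mul, ENNReal.toReal_ofReal (by positivity)] at h9
        exact h9.trans (mul_le_mul_of_nonneg_right (hch k2 hk2n) (by positivity))
      have g3 : (fre ρ n x).real (Set.Ico z (z + w)) ≤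
          (seqLaw ρ).real {ω | x + S (k1 + k2) ω ∈ Set.Ico z (z + w) ∧ d / 2 ≤ |S k1 ω|} +
          (seqLaw ρ).real {ω | x + S (k1 + k2) ω ∈ Set.Ico z (z + w) ∧
            d / 2 ≤ |S k2 (shift k1 ω)|} := by
        rw [Measure.real, A4_fre n x _ measurableSet_Ico, hkk]
        refine (measureReal_mono ?_).trans (measureReal_union_le _ _)
        intro ω hω
        have h10 : x + S (k1 + k2) ω ∈ Set.Ico z (z + w) := hω
        have h11 : d ≤ |S (k1 + k2) ω| := by
          have := hd _ h10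
          rwa [add_sub_cancel_left] at this
        rw [S_shift] at h11
        have h12 := abs_add_le (S k1 ω) (S k2 (shift k1 ω))
        by_cases h13 : d / 2 ≤ |S k1 ω|
        · exact Or.inl ⟨h10, h13⟩
        · exact Or.inr ⟨h10, by linarith [not_le.1 h13]⟩
      calc (fre ρ n x).real (Set.Ico z (z + w)) ≤ 8 * Kc * Kf * (n * Lam ρ d) * (w / y) := by
            refine g3.trans ((add_le_add g1 g2).trans (le_of_eq ?_))
            ring
        _ ≤ K * (n * Lam ρ d) * (w / y) := by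
            apply mul_le_mul_of_nonneg_right _ hwy.le
            exact mul_le_mul_of_nonneg_right hKd (by positivity)

end Pool.Agent.BPT
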