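import Pool.Agent.MP_99a865_pr.ST.A17b
import Pool.Agent.MP_99a865_pr.ST.A15
import Pool.Agent.MP_99a865_pr.ST.A2

/-!
# [STB-A24] Exit weights
-/

open MeasureTheory ProbabilityTheory Filter Topology
open scoped ENNReal NNReal

namespace Pool.Agent.BPT

variable {D : Set ℝ} {ρ : Measure ℝ} {p C x₀ : ℝ}

/-- `P(X < -w) ≤ ex w ≤ P(X ≤ -w)`, with equality for almost every `w`. PROOF. `x < -w → w + x ∉ D → w + x ≤ 0`. The points `w`
with `ρ {-w} ≠ 0` are countable (`Measure.countable_meas_pos_of_disjoint_iUnion` or `ae` of no atoms of Lebesgue measure). -/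
theorem ex_ae [IsProbabilityMeasure ρ] (hD : Dom D) :
    (∀ w : ℝ, ρ (Set.Iio (-w)) ≤ ex D ρ w) ∧ (∀ w : ℝ, ex D ρ w ≤ ρ (Set.Iic (-w))) ∧
    (fun w => ex D ρ w) =ᵐ[volume] fun w => ρ (Set.Iio (-w)) := by
  have h1 : ∀ w : ℝ, ρ (Set.Iio (-w)) ≤ ex D ρ w := by
    intro w
    refine measure_mono fun y hy => ?_
    have hy' : y < -w := hy
    intro hcon
    have := hD.nonneg hcon
    linarith
  have h2 : ∀ w : ℝ, ex D ρ w ≤ ρ (Set.Iic (-w)) := by
    intro w
    refine measure_mono fun y hy => ?_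
    have hy' : w + y ≤ 0 := hD.not_mem hy
    show y ≤ -w
    linarith
  refine ⟨h1, h2, ?_⟩
  have hc : {t : ℝ | 0 < ρ {x : ℝ | id x = t}}.Countable := Measure.countable_meas_level_set_pos measurable_id
  have hc' : {w : ℝ | 0 < ρ {x : ℝ | id x = -w}}.Countable := hc.preimage neg_injective
  have h3 : ∀ᵐ w : ℝ, w ∉ {w : ℝ | 0 < ρ {x : ℝ | id x = -w}} := hc'.ae_notMem volume
  filter_upwards [h3] with w hw
  have h4 : ρ {x : ℝ | id x = -w} = 0 := by
    by_contra hcon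
    exact hw (pos_iff_ne_zero.2 hcon)
  refine le_antisymm ((h2 w).trans ?_) (h1 w)
  have h5 : Set.Iic (-w) ⊆ Set.Iio (-w) ∪ {x : ℝ | id x = -w} := by
    intro y hy
    rcases lt_or_eq_of_le (show y ≤ -w from hy) with h6 | h6
    · exact Or.inl h6
    · exact Or.inr h6
  refine (measure_mono h5).trans ((measure_union_le _ _).trans ?_)
  rw [h4, add_zero]

lemma A24_vd (hD : Dom D) (hρ : Cen ρ) (w : ℝ) :
    vd D ρ (w + 1) ≤ (3 + vd D ρ 2) * vd D ρ w := by
  have h1 := one_le_vd hD hρ w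
  have h2 := one_le_vd hD hρ 2
  rcases lt_or_ge w 1 with h | h
  · have h3 : vd D ρ (w + 1) ≤ vd D ρ 2 := vd_mono hD hρ (by linarith)
    nlinarith
  · have h3 := vd_ratio hD hρ (y := w) (z := w + 1) (by linarith) (by linarith)
    have h4 : (w + 1) / w ≤ 2 := by
      rw [div_le_iff₀ (by linarith)]
      linarith
    have h5 : (1 + (w + 1) / w) * vd D ρ w ≤ 3 * vd D ρ w :=
      mul_le_mul_of_nonneg_right (by linarith) (by linarith)
    nlinarith

/-- PROOF. `ex_ae` and `tail_int`: for `w ≥ 1`, `vd (w+1) ≤ 3 vd w` (`vd_ratio`); for `w < 1`, `vd (w+1) ≤ vd 2 ≤ vd 2 · vd w`. So the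
integral is at most `(3 + vd 2) ∫_{[0,y)} vd w ρ(Iio (-w)) dw ≤ 2 (3 + vd 2) y/vr y`. -/
theorem ex_sum_le (hD : Dom D) (hρ : Cen ρ) : ∃ K : ℝ, 1 ≤ K ∧ ∀ y : ℝ, 1 ≤ y →
    ∫⁻ w in Set.Icc 0 y, ex D ρ w * ENNReal.ofReal (vd D ρ (w + 1)) ≤
      ENNReal.ofReal (K * (y / vr D ρ y)) := by
  have hp := hρ.prob
  have h2 := one_le_vd hD hρ 2
  refine ⟨(3 + vd D ρ 2) * 2, by linarith, fun y hy => ?_⟩
  have hex := (ex_ae (ρ := ρ) hD).2.2
  rw [← restrict_Ico_eq_restrict_Icc]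
  calc ∫⁻ w in Set.Ico 0 y, ex D ρ w * ENNReal.ofReal (vd D ρ (w + 1))
      ≤ ∫⁻ w in Set.Ico 0 y, ENNReal.ofReal (3 + vd D ρ 2) * (ENNReal.ofReal (vd D ρ w) * ρ (Set.Iio (-w))) := by
        refine lintegral_mono_ae ?_
        filter_upwards [ae_restrict_of_ae hex, ae_restrict_mem measurableSet_Ico] with w hw hw'
        rw [hw, mul_comm (ρ (Set.Iio (-w))), ← mul_assoc, ← ENNReal.ofReal_mul (by linarith)]
        exact mul_le_mul_left (ENNReal.ofReal_le_ofReal (A24_vd hD hρ w)) _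
    _ = ENNReal.ofReal (3 + vd D ρ 2) * ∫⁻ w in Set.Ico 0 y, ENNReal.ofReal (vd D ρ w) * ρ (Set.Iio (-w)) :=
        lintegral_const_mul' _ _ ENNReal.ofReal_ne_top
    _ ≤ ENNReal.ofReal (3 + vd D ρ 2) * ENNReal.ofReal (2 * (y / vr D ρ y)) :=
        mul_le_mul_right (tail_int hD hρ y (by linarith)) _
    _ = ENNReal.ofReal ((3 + vd D ρ 2) * 2 * (y / vr D ρ y)) := by
        rw [← ENNReal.ofReal_mul (by linarith), mul_assoc]

/-- PROOF. `ex w ≤ ρ (Iic (-w)) ≤ ρ {x | w ≤ |x|}` and `∫_{w > y} ρ{w ≤ |x|} dw ≤ ∫_{|x| ≥ y} |x| ∂ρ` (Tonelli) `≤ K y Lam y`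
(`Reg.mom1`). -/
theorem Reg.ex_tail (hD : Dom D) (h : Reg ρ p C x₀) : ∃ K : ℝ, 1 ≤ K ∧ ∀ y : ℝ, 1 ≤ y →
    ∫⁻ w in Set.Ioi y, ex D ρ w ≤ ENNReal.ofReal (K * (y * Lam ρ y)) := by
  have hp := h.cen.prob
  obtain ⟨K, hK, hm⟩ := h.mom1
  refine ⟨K, hK, fun y hy => ?_⟩
  set A : Set ℝ := {x | y ≤ |x|} with hA
  have hAm : MeasurableSet A := measurableSet_le measurable_const measurable_id.norm
  have hlc := lintegral_eq_lintegral_meas_le (ρ.restrict A) (f := fun x => |x|)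
    (Eventually.of_forall fun x => abs_nonneg x) (measurable_id.norm.aemeasurable)
  calc ∫⁻ w in Set.Ioi y, ex D ρ w ≤ ∫⁻ w in Set.Ioi y, (ρ.restrict A) {x | w ≤ |x|} := by
        refine setLIntegral_mono' measurableSet_Ioi fun w hw => ?_
        have hw' : y < w := hw
        have hmw : MeasurableSet {x : ℝ | w ≤ |x|} := measurableSet_le measurable_const measurable_id.norm
        rw [Measure.restrict_apply hmw]
        refine ((ex_ae (ρ := ρ) hD).2.1 w).trans (measure_mono fun x hx => ?_)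
        have hx' : x ≤ -w := hx
        have h1 : w ≤ |x| := le_trans (by linarith) (neg_le_abs x)
        exact ⟨h1, le_trans hw'.le h1⟩
    _ ≤ ∫⁻ w in Set.Ioi 0, (ρ.restrict A) {x | w ≤ |x|} :=
        lintegral_mono_set (Set.Ioi_subset_Ioi (by linarith))
    _ = ∫⁻ x, ENNReal.ofReal |x| ∂(ρ.restrict A) := hlc.symm
    _ = ENNReal.ofReal (∫ x in A, |x| ∂ρ) :=
        (ofReal_integral_eq_lintegral_ofReal h.cen.int.abs.integrableOn
          (Eventually.of_forall fun x => abs_nonneg x)).symm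
    _ ≤ ENNReal.ofReal (K * (y * Lam ρ y)) := ENNReal.ofReal_le_ofReal (hm y hy)

/-- a positive lower bound near the origin -/
lemma A24_low (hρ : Cen ρ) : ∃ q : ℝ, ∃ δ : ℝ, 0 < q ∧ 0 < δ ∧ δ ≤ 1 ∧ ENNReal.ofReal q ≤ ρ (Set.Iio (-δ)) := by
  have hp := hρ.prob
  obtain ⟨n, hn⟩ : ∃ n : ℕ, ρ (Set.Iio (-(1 / ((n : ℝ) + 1)))) ≠ 0 := by
    by_contra hcon
    push Not at hcon
    refine hρ.neg ?_
    have h1 : Set.Iio (0 : ℝ) ⊆ ⋃ n : ℕ, Set.Iio (-(1 / ((n : ℝ) + 1))) := by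
      intro x hx
      have hx' : x < 0 := hx
      obtain ⟨n, hn⟩ := exists_nat_one_div_lt (neg_pos.2 hx')
      exact Set.mem_iUnion.2 ⟨n, by show x < _; linarith⟩
    refine measure_mono_null h1 (measure_iUnion_null hcon)
  refine ⟨(ρ (Set.Iio (-(1 / ((n : ℝ) + 1))))).toReal, 1 / ((n : ℝ) + 1),
    ENNReal.toReal_pos hn (measure_ne_top _ _), by positivity, ?_, ?_⟩
  · rw [div_le_one (by positivity)]
    linarith [(Nat.cast_nonneg n : (0 : ℝ) ≤ n)]
  · rw [ENNReal.ofReal_toReal (measure_ne_top _ _)]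

/-- PROOF. Let `M` be the constant of `Reg.ex_tail`, `K₁` of `Reg.all`, `K₃` of `Reg.prod_le`, `R ≥ 1` with
`3 M K₁ K₃ R^{1-p} ≤ 1/2`. Let first `y ≥ R`, `y' = y/R ≥ 1`. By `tail_int_ge` for `y'`, the integral split at `u = y = R y'`,
`y'/vr y' ≤ 3 ∫_{[0,y]} vd (u+1) ρ(Iio (-u)) du + 3 vd y' ∫_{u > y} ρ(Iio (-u)) du`, and the last term is at most
`3 vd y' M y Lam y ≤ 3 M vd y' R y' K₁ R^{-p} Lam y' ≤ 3 M K₁ K₃ R^{1-p} y'/vr y' ≤ (1/2) y'/vr y'` (`Reg.prod_le`: `Lam y' vd y' ≤ K₃/vr y'`).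
So `∫_{[0,y]} vd (u+1) ρ(Iio (-u)) du ≥ (1/6) y'/vr y' ≥ (1/(6R)) y/vr y` (`vr y' ≤ vr y`). Finally `vd (u+1) ≤ (3 + vd 2) vd u` for
`u ≥ 0` and `ρ (Iio (-u)) ≤ ex u`. For `1 ≤ y < R`: the integral is at least `∫_{[0,1]} ρ(Iio (-u)) du > 0` (`Cen.neg`: `ρ (Iio (-u)) > 0`
for small `u`), and `y/vr y ≤ R`. -/
theorem Reg.ex_sum_ge (hD : Dom D) (h : Reg ρ p C x₀) : ∃ c : ℝ, 0 < c ∧ ∀ y : ℝ, 1 ≤ y →
    ENNReal.ofReal (c * (y / vr D ρ y)) ≤
      ∫⁻ w in Set.Icc 0 y, ex D ρ w * ENNReal.ofReal (vd D ρ w) := by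
  have hcen := h.cen
  have hp := hcen.prob
  have hp1 : 0 < p - 1 := by linarith [h.p1]
  obtain ⟨M, hM, htail⟩ := h.ex_tail hD
  obtain ⟨K₁, hK₁, hall⟩ := h.all
  obtain ⟨K₃, hK₃, hprod⟩ := h.prod_le hD
  have hv2 := one_le_vd hD hcen 2
  obtain ⟨R, hR1, hR2⟩ : ∃ R : ℝ, 1 ≤ R ∧ 3 * M * K₁ * K₃ * R ^ (1 - p) ≤ 1 / 2 := by
    have ht : Tendsto (fun R : ℝ => 3 * M * K₁ * K₃ * R ^ (1 - p)) atTop (𝓝 (3 * M * K₁ * K₃ * 0)) := by
      refine Tendsto.const_mul _ ?_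
      have := tendsto_rpow_neg_atTop hp1
      rwa [neg_sub] at this
    rw [mul_zero] at ht
    obtain ⟨R, h1, h2⟩ := ((eventually_ge_atTop (1 : ℝ)).and
      (ht.eventually (ge_mem_nhds (show (0 : ℝ) < 1 / 2 by norm_num)))).exists
    exact ⟨R, h1, h2⟩
  have hR0 : 0 < R := by linarith
  obtain ⟨q, δ, hq, hδ, hδ1, hqδ⟩ := A24_low hcen
  set c₁ : ℝ := 1 / (6 * R * (3 + vd D ρ 2)) with hc₁
  set c₂ : ℝ := q * δ / R with hc₂
  have hc₁0 : 0 < c₁ := by positivity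
  have hc₂0 : 0 < c₂ := by positivity
  refine ⟨min c₁ c₂, lt_min hc₁0 hc₂0, fun y hy => ?_⟩
  have hvy : 1 ≤ vr D ρ y := one_le_vr hD hcen y
  have hyv : 0 < y / vr D ρ y := div_pos (by linarith) (by linarith)
  rcases lt_or_ge y R with hyR | hyR
  · -- `y < R`
    have h1 : min c₁ c₂ * (y / vr D ρ y) ≤ q * δ := by
      have h2 : y / vr D ρ y ≤ R := (div_le_self (by linarith) hvy).trans hyR.le
      calc min c₁ c₂ * (y / vr D ρ y) ≤ c₂ * R :=
            mul_le_mul (min_le_right _ _) h2 hyv.le hc₂0.le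
        _ = q * δ := by
            rw [hc₂]
            field_simp
    refine (ENNReal.ofReal_le_ofReal h1).trans ?_
    calc ENNReal.ofReal (q * δ) = ∫⁻ _ in Set.Icc 0 δ, ENNReal.ofReal q := by
          rw [lintegral_const, Measure.restrict_apply_univ, Real.volume_Icc, sub_zero, ENNReal.ofReal_mul hq.le]
      _ ≤ ∫⁻ w in Set.Icc 0 δ, ex D ρ w * ENNReal.ofReal (vd D ρ w) := by
          refine setLIntegral_mono' measurableSet_Icc fun w hw => ?_
          have h2 : ENNReal.ofReal q ≤ ex D ρ w :=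
            hqδ.trans ((measure_mono (Set.Iio_subset_Iio (by linarith [hw.2]))).trans
              ((ex_ae (ρ := ρ) hD).1 w))
          have h3 : 1 ≤ ENNReal.ofReal (vd D ρ w) := by
            rw [← ENNReal.ofReal_one]
            exact ENNReal.ofReal_le_ofReal (one_le_vd hD hcen w)
          calc ENNReal.ofReal q = ENNReal.ofReal q * 1 := (mul_one _).symm
            _ ≤ _ := mul_le_mul' h2 h3
      _ ≤ ∫⁻ w in Set.Icc 0 y, ex D ρ w * ENNReal.ofReal (vd D ρ w) :=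
          lintegral_mono_set (Set.Icc_subset_Icc le_rfl (by linarith))
  · -- `y ≥ R`
    set y' : ℝ := y / R with hy'
    have hyy : y = R * y' := by
      rw [hy']
      field_simp
    have hy1 : 1 ≤ y' := by
      rw [hy', le_div_iff₀ hR0]
      linarith
    have hy'y : y' ≤ y := by
      rw [hyy]
      nlinarith
    have hvy' : 1 ≤ vr D ρ y' := one_le_vr hD hcen y'
    have hwy' : 1 ≤ vd D ρ y' := one_le_vd hD hcen y'
    set J := ∫⁻ w in Set.Icc 0 y, ex D ρ w * ENNReal.ofReal (vd D ρ w) with hJ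
    set T : ℝ := y' / vr D ρ y' with hT
    have hT0 : 0 < T := div_pos (by linarith) (by linarith)
    have e1 := tail_int_ge hD hcen y' hy1
    -- split
    have e2 : ∫⁻ u in Set.Ici (0 : ℝ), ENNReal.ofReal (min (vd D ρ (u + 1)) (vd D ρ y')) * ρ (Set.Iio (-u)) ≤
        ENNReal.ofReal (3 + vd D ρ 2) * J + ENNReal.ofReal (vd D ρ y' * (M * (y * Lam ρ y))) := by
      have hsub : Set.Ici (0 : ℝ) ⊆ Set.Icc 0 y ∪ Set.Ioi y := by
        intro u hu
        rcases le_or_gt u y with h1 | h1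
        · exact Or.inl ⟨hu, h1⟩
        · exact Or.inr h1
      refine (lintegral_mono_set hsub).trans ((lintegral_union_le _ _ _).trans (add_le_add ?_ ?_))
      · rw [hJ, ← lintegral_const_mul' _ _ ENNReal.ofReal_ne_top]
        refine setLIntegral_mono' measurableSet_Icc fun u hu => ?_
        rw [mul_comm (ex D ρ u), ← mul_assoc, ← ENNReal.ofReal_mul (by linarith)]
        exact mul_le_mul' (ENNReal.ofReal_le_ofReal ((min_le_left _ _).trans (A24_vd hD hcen u)))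
          ((ex_ae (ρ := ρ) hD).1 u)
      · rw [ENNReal.ofReal_mul (by linarith)]
        refine le_trans ?_ (mul_le_mul_right (htail y hy) _)
        rw [← lintegral_const_mul' _ _ ENNReal.ofReal_ne_top]
        refine setLIntegral_mono' measurableSet_Ioi fun u hu => ?_
        exact mul_le_mul' (ENNReal.ofReal_le_ofReal (min_le_right _ _)) ((ex_ae (ρ := ρ) hD).1 u)
    have e3 : 3 * (vd D ρ y' * (M * (y * Lam ρ y))) ≤ T / 2 := by
      have h1 := hall y' hy1 R hR1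
      rw [← hyy] at h1
      have h2 := hprod y' hy1
      have hL' : 0 < Lam ρ y' := Lam_pos hcen (by linarith)
      have h3 : Lam ρ y' * vd D ρ y' ≤ K₃ / vr D ρ y' := by
        rw [le_div_iff₀ (by linarith)]
        calc Lam ρ y' * vd D ρ y' * vr D ρ y' = Lam ρ y' * vr D ρ y' * vd D ρ y' := by ring
          _ ≤ K₃ := h2
      have h4 : R * R ^ (-p) = R ^ (1 - p) := by
        rw [sub_eq_add_neg, Real.rpow_add hR0, Real.rpow_one]
      calc 3 * (vd D ρ y' * (M * (y * Lam ρ y)))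
          ≤ 3 * (vd D ρ y' * (M * (y * (K₁ * R ^ (-p) * Lam ρ y')))) := by
            refine mul_le_mul_of_nonneg_left (mul_le_mul_of_nonneg_left (mul_le_mul_of_nonneg_left
              (mul_le_mul_of_nonneg_left h1 (by linarith)) (by linarith)) (by linarith)) (by norm_num)
        _ = 3 * M * K₁ * (R * R ^ (-p)) * y' * (Lam ρ y' * vd D ρ y') := by
            rw [hyy]
            ring
        _ ≤ 3 * M * K₁ * (R * R ^ (-p)) * y' * (K₃ / vr D ρ y') :=
            mul_le_mul_of_nonneg_left h3 (by positivity)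
        _ = (3 * M * K₁ * K₃ * R ^ (1 - p)) * T := by
            rw [h4, hT]
            ring
        _ ≤ 1 / 2 * T := mul_le_mul_of_nonneg_right hR2 hT0.le
        _ = T / 2 := by ring
    have e4 : ENNReal.ofReal (T / 2) ≤ ENNReal.ofReal (3 * (3 + vd D ρ 2)) * J := by
      have h1 : ENNReal.ofReal (T / 2) + ENNReal.ofReal (T / 2) ≤
          ENNReal.ofReal (3 * (3 + vd D ρ 2)) * J + ENNReal.ofReal (T / 2) := by
        rw [← ENNReal.ofReal_add (by positivity) (by positivity), add_halves]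
        refine e1.trans ((mul_le_mul_right e2 _).trans ?_)
        rw [mul_add]
        refine add_le_add (le_of_eq ?_) ?_
        · rw [ENNReal.ofReal_mul (by norm_num), ← mul_assoc]
          congr 2
          norm_num
        · have h5 : (3 : ℝ≥0∞) = ENNReal.ofReal 3 := by norm_num
          rw [h5, ← ENNReal.ofReal_mul (by norm_num)]
          exact ENNReal.ofReal_le_ofReal e3
      exact (ENNReal.add_le_add_iff_right ENNReal.ofReal_ne_top).1 h1
    have e5 : 3 * (3 + vd D ρ 2) * (min c₁ c₂ * (y / vr D ρ y)) ≤ T / 2 := by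
      have h1 : min c₁ c₂ * (y / vr D ρ y) ≤ c₁ * (y / vr D ρ y) :=
        mul_le_mul_of_nonneg_right (min_le_left _ _) hyv.le
      have h2 : y' / vr D ρ y ≤ T := by
        rw [hT]
        exact div_le_div_of_nonneg_left (by linarith) (by linarith) (vr_mono hD hcen hy'y)
      calc 3 * (3 + vd D ρ 2) * (min c₁ c₂ * (y / vr D ρ y)) ≤ 3 * (3 + vd D ρ 2) * (c₁ * (y / vr D ρ y)) :=
            mul_le_mul_of_nonneg_left h1 (by positivity)
        _ = y' / vr D ρ y / 2 := by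
            rw [hc₁, hyy]
            field_simp
            ring
        _ ≤ T / 2 := by linarith
    have e6 : ENNReal.ofReal (3 * (3 + vd D ρ 2)) * ENNReal.ofReal (min c₁ c₂ * (y / vr D ρ y)) ≤
        ENNReal.ofReal (3 * (3 + vd D ρ 2)) * J := by
      rw [← ENNReal.ofReal_mul (by positivity)]
      exact (ENNReal.ofReal_le_ofReal e5).trans e4
    have h0 : ENNReal.ofReal (3 * (3 + vd D ρ 2)) ≠ 0 := by
      have : 0 < 3 * (3 + vd D ρ 2) := by positivity
      simpa using this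
    exact (ENNReal.mul_le_mul_iff_right h0 ENNReal.ofReal_ne_top).1 e6

end Pool.Agent.BPT
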