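import Pool.Agent.MP_99a865_pr.ST.A5
import Pool.Agent.MP_99a865_pr.CV.Q1

/-!
# [STB-A25] The marginal laws of the queue
-/

open MeasureTheory ProbabilityTheory Filter Topology
open scoped ENNReal NNReal

namespace Pool.Agent.BPT

variable {ρ μ ν τ : Measure ℝ} {p C x₀ : ℝ}

private lemma A25_measSet (n : ℕ) (y : ℝ) : MeasurableSet {ω : ℕ → ℝ | ∃ j ≤ n, y ≤ |S j ω|} := by
  have h1 : {ω : ℕ → ℝ | ∃ j ≤ n, y ≤ |S j ω|} = ⋃ j ∈ Finset.range (n + 1), {ω : ℕ → ℝ | y ≤ |S j ω|} := by
    ext ω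
    simp [Nat.lt_succ_iff]
  rw [h1]
  refine Finset.measurableSet_biUnion _ fun j _ => ?_
  exact measurableSet_le measurable_const (measurable_S j).abs

private lemma A25_transfer {E : Type} [MeasurableSpace E] (π : Measure E) [IsProbabilityMeasure π] (f : E → ℝ)
    (hf : Measurable f) (n : ℕ) (y : ℝ) :
    (seqLaw π).real {ω | ∃ j ≤ n, y ≤ |S j (fun i => f (ω i))|} =
      (seqLaw (π.map f)).real {ω | ∃ j ≤ n, y ≤ |S j ω|} := by
  have hm : Measurable fun (ω : ℕ → E) (i : ℕ) => f (ω i) :=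
    measurable_pi_lambda _ fun i => hf.comp (measurable_pi_apply i)
  rw [← map_seqLaw π f hf]
  unfold Measure.real
  rw [Measure.map_apply hm (A25_measSet n y)]
  rfl

private lemma A25_seq_prob {E : Type} [MeasurableSpace E] (π : Measure E) [IsProbabilityMeasure π] :
    IsProbabilityMeasure (seqLaw π) := by
  unfold seqLaw
  infer_instance

private lemma A25_coord {E : Type} [MeasurableSpace E] (π : Measure E) [IsProbabilityMeasure π] (i : ℕ) (A : Set E)
    (hA : MeasurableSet A) : (seqLaw π).real {ω | ω i ∈ A} = π.real A := by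
  have h1 : (seqLaw π).map (fun ω => ω i) = π := Measure.infinitePi_map_eval (μ := fun _ : ℕ => π) i
  conv_rhs => rw [← h1]
  unfold Measure.real
  rw [Measure.map_apply (measurable_pi_apply i) hA]
  rfl

private lemma A25_Lam_meas (y : ℝ) : Measurable fun x : ℝ => min 1 ((x / y) ^ 2) := by fun_prop

private lemma A25_Lam_int [IsProbabilityMeasure τ] (y : ℝ) : Integrable (fun x : ℝ => min 1 ((x / y) ^ 2)) τ := by
  refine Integrable.of_bound (A25_Lam_meas y).aestronglyMeasurable 1 (Eventually.of_forall fun x => ?_)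
  rw [Real.norm_of_nonneg (by positivity)]
  exact min_le_left _ _

/-- Maximal inequality by truncation, general form. PROOF. As `Reg.maxi` (ST/A5.lean): if `n L ≥ 1/2` trivial. Otherwise
`g x = if |x| ≤ y then x else 0`, `m = ∫ g ∂τ`, `|m| = |∫_{|x|>y} x| ≤ y L`, so `n |m| ≤ y/2`; `τ' = τ.map (fun x => g x - m)`,
`∫ x² ∂τ' ≤ ∫ g² ≤ y² Lam τ y ≤ y² L` (`trunc_le_Lam`); if all `|ω i| ≤ y`, `i < n`, then `S j ω = S j ω' + j m`. So the probability is
at most `n τ{|x| > y} + n y² L/(y/2)² ≤ n L + 4 n L` (`tail_le_Lam`, `kolm_gen`, `map_seqLaw`). -/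
theorem maxi_gen [IsProbabilityMeasure τ] (hint : Integrable (fun x : ℝ => x) τ) (h0 : ∫ x, x ∂τ = 0)
    (n : ℕ) (y L : ℝ) (hy : 0 < y) (hL : Lam τ y ≤ L) (hm : ∫ x in {x | y ≤ |x|}, |x| ∂τ ≤ y * L) :
    (seqLaw τ).real {ω | ∃ j ≤ n, y ≤ |S j ω|} ≤ 5 * (n * L) := by
  have hP := A25_seq_prob τ
  have hL0 : 0 ≤ L := (Lam_nonneg τ y).trans hL
  by_cases hbig : 1 ≤ 5 * (n * L)
  · exact measureReal_le_one.trans hbig
  push Not at hbig
  set g : ℝ → ℝ := fun x => if |x| < y then x else 0 with hg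
  have hAm : MeasurableSet {x : ℝ | |x| < y} := measurableSet_lt measurable_id.abs measurable_const
  have hBm : MeasurableSet {x : ℝ | y ≤ |x|} := measurableSet_le measurable_const measurable_id.abs
  have hgm : Measurable g := Measurable.ite hAm measurable_id measurable_const
  have hgb : ∀ x, |g x| ≤ y := by
    intro x
    simp only [hg]
    split_ifs with h
    · exact h.le
    · simp [hy.le]
  have hgi : Integrable g τ := Integrable.of_bound hgm.aestronglyMeasurable y (Eventually.of_forall hgb)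
  have hg2m : Measurable fun x => g x ^ 2 := hgm.pow_const 2
  have hg2i : Integrable (fun x => g x ^ 2) τ := by
    refine Integrable.of_bound hg2m.aestronglyMeasurable (y ^ 2) (Eventually.of_forall fun x => ?_)
    rw [Real.norm_of_nonneg (sq_nonneg _), ← sq_abs]
    exact pow_le_pow_left₀ (abs_nonneg _) (hgb x) 2
  set m : ℝ := ∫ x, g x ∂τ with hmdef
  -- bound for the mean
  have hmb : |m| ≤ y * L := by
    have e1 : m = - ∫ x in {x | y ≤ |x|}, x ∂τ := by
      have e2 : ∫ x, (x - g x) ∂τ = ∫ x in {x | y ≤ |x|}, x ∂τ := by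
        rw [← integral_indicator hBm]
        refine integral_congr_ae (Eventually.of_forall fun x => ?_)
        by_cases hx : |x| < y
        · have : x ∉ {x : ℝ | y ≤ |x|} := not_le.2 hx
          simp only [Set.indicator_of_notMem this, hg, if_pos hx, sub_self]
        · have : x ∈ {x : ℝ | y ≤ |x|} := not_lt.1 hx
          simp only [Set.indicator_of_mem this, hg, if_neg hx, sub_zero]
      rw [integral_sub hint hgi, h0] at e2
      rw [hmdef]
      linarith
    rw [e1, abs_neg]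
    refine (abs_integral_le_integral_abs).trans hm
  have hnm : n * |m| ≤ y / 2 := by
    have h1 : (n : ℝ) * |m| ≤ n * (y * L) := mul_le_mul_of_nonneg_left hmb (Nat.cast_nonneg n)
    nlinarith
  -- the truncated law
  set f : ℝ → ℝ := fun x => g x - m with hf
  have hfm : Measurable f := hgm.sub_const m
  have hpr : IsProbabilityMeasure (τ.map f) := Measure.isProbabilityMeasure_map hfm.aemeasurable
  have hsqm : Measurable fun x : ℝ => x ^ 2 := by fun_prop
  have hf2 : ∫ x, x ^ 2 ∂(τ.map f) ≤ y ^ 2 * L := by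
    rw [integral_map hfm.aemeasurable hsqm.aestronglyMeasurable]
    have e1 : ∫ x, (f x) ^ 2 ∂τ = ∫ x, g x ^ 2 ∂τ - m ^ 2 := by
      have : ∀ x, (f x) ^ 2 = g x ^ 2 - 2 * m * g x + m ^ 2 := fun x => by simp only [hf]; ring
      simp_rw [this]
      have hsub : Integrable (fun x => g x ^ 2 - 2 * m * g x) τ := hg2i.sub (hgi.const_mul _)
      rw [integral_add hsub (integrable_const _), integral_sub hg2i (hgi.const_mul _),
        integral_const_mul, integral_const]
      simp only [probReal_univ, one_smul]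
      rw [← hmdef]
      ring
    have e2 : ∫ x, g x ^ 2 ∂τ ≤ y ^ 2 * Lam τ y := by
      unfold Lam
      rw [← integral_const_mul]
      refine integral_mono hg2i ((A25_Lam_int y).const_mul _) fun x => ?_
      simp only [hg]
      split_ifs with h
      · have h1 : (x / y) ^ 2 ≤ 1 := by
          rw [sq_le_one_iff_abs_le_one, abs_div, abs_of_pos hy, div_le_one hy]
          exact h.le
        rw [min_eq_right h1]
        have : y ^ 2 * (x / y) ^ 2 = x ^ 2 := by field_simp
        rw [this]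
      · have : 0 ≤ y ^ 2 * min 1 ((x / y) ^ 2) := by positivity
        simpa using this
    have e3 : y ^ 2 * Lam τ y ≤ y ^ 2 * L := mul_le_mul_of_nonneg_left hL (sq_nonneg y)
    calc _ = ∫ x, (f x) ^ 2 ∂τ := rfl
      _ ≤ _ := by rw [e1]; nlinarith [sq_nonneg m]
  have hf2i : Integrable (fun x : ℝ => x ^ 2) (τ.map f) := by
    rw [integrable_map_measure hsqm.aestronglyMeasurable hfm.aemeasurable]
    have hfb : ∀ x, |f x| ≤ y + |m| := fun x => (abs_sub _ _).trans (add_le_add (hgb x) le_rfl)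
    refine Integrable.of_bound (hfm.pow_const 2).aestronglyMeasurable ((y + |m|) ^ 2) (Eventually.of_forall fun x => ?_)
    simp only [Function.comp_apply]
    rw [Real.norm_of_nonneg (sq_nonneg _), ← sq_abs]
    exact pow_le_pow_left₀ (abs_nonneg _) (hfb x) 2
  have hf0 : ∫ x, x ∂(τ.map f) = 0 := by
    rw [integral_map hfm.aemeasurable measurable_id'.aestronglyMeasurable]
    simp only [hf]
    rw [integral_sub hgi (integrable_const _), integral_const]
    simp [← hmdef]
  have hk := kolm_gen (τ.map f) hf2i hf0 n (y / 2) (by positivity)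
  rw [← A25_transfer τ f hfm n (y / 2)] at hk
  -- inclusion
  have hsub : {ω : ℕ → ℝ | ∃ j ≤ n, y ≤ |S j ω|} ⊆
      (⋃ i ∈ Finset.range n, {ω : ℕ → ℝ | ω i ∈ {x : ℝ | y ≤ |x|}}) ∪
        {ω | ∃ j ≤ n, y / 2 ≤ |S j (fun i => f (ω i))|} := by
    rintro ω ⟨j, hj, hSj⟩
    by_cases hall : ∀ i < n, |ω i| < y
    · right
      refine ⟨j, hj, ?_⟩
      have e1 : S j ω = S j (fun i => f (ω i)) + j * m := by
        unfold S
        have : ∀ i ∈ Finset.range j, ω i = f (ω i) + m := by
          intro i hi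
          have hi' : i < n := lt_of_lt_of_le (Finset.mem_range.1 hi) hj
          simp only [hf, hg, if_pos (hall i hi'), sub_add_cancel]
        rw [Finset.sum_congr rfl this, Finset.sum_add_distrib, Finset.sum_const, Finset.card_range, nsmul_eq_mul]
      have e2 : |(j : ℝ) * m| ≤ y / 2 := by
        rw [abs_mul, Nat.abs_cast]
        refine le_trans ?_ hnm
        exact mul_le_mul_of_nonneg_right (by exact_mod_cast hj) (abs_nonneg _)
      have e3 : |S j ω| ≤ |S j (fun i => f (ω i))| + |(j : ℝ) * m| := by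
        rw [e1]
        exact abs_add_le _ _
      linarith
    · left
      push Not at hall
      obtain ⟨i, hi, hi2⟩ := hall
      exact Set.mem_biUnion (Finset.mem_coe.2 (Finset.mem_range.2 hi)) hi2
  have h1 : (seqLaw τ).real (⋃ i ∈ Finset.range n, {ω : ℕ → ℝ | ω i ∈ {x : ℝ | y ≤ |x|}}) ≤ n * L := by
    refine (measureReal_biUnion_finset_le _ _).trans ?_
    have h2 : ∀ i ∈ Finset.range n, (seqLaw τ).real {ω : ℕ → ℝ | ω i ∈ {x : ℝ | y ≤ |x|}} ≤ L := by
      intro i _
      rw [A25_coord τ i _ hBm]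
      exact (tail_le_Lam hy).trans hL
    calc _ ≤ ∑ i ∈ Finset.range n, L := Finset.sum_le_sum h2
      _ = _ := by rw [Finset.sum_const, Finset.card_range, nsmul_eq_mul]
  have h2 : n * (∫ x, x ^ 2 ∂(τ.map f)) / (y / 2) ^ 2 ≤ 4 * (n * L) := by
    rw [div_le_iff₀ (by positivity)]
    have := mul_le_mul_of_nonneg_left hf2 (Nat.cast_nonneg n : (0:ℝ) ≤ n)
    nlinarith
  calc _ ≤ _ := measureReal_mono hsub
    _ ≤ _ := measureReal_union_le _ _
    _ ≤ n * L + 4 * (n * L) := add_le_add h1 (hk.trans h2)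
    _ = _ := by ring

private noncomputable def A25_phi (t : ℝ) : ℝ := if |t| ≤ 1 then t ^ 2 else 2 * |t| - 1

private lemma A25_phi_meas : Measurable A25_phi := by
  unfold A25_phi
  refine Measurable.ite (measurableSet_le measurable_id.abs measurable_const) (by fun_prop) (by fun_prop)

private lemma A25_phi_ge (c u : ℝ) (hc : |c| ≤ 1) : 2 * c * u - c ^ 2 ≤ A25_phi u := by
  unfold A25_phi
  split_ifs with h
  · nlinarith [sq_nonneg (u - c)]
  · push Not at h
    have h1 : c * u ≤ |c| * |u| := by rw [← abs_mul]; exact le_abs_self _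
    have h2 : c ^ 2 = |c| ^ 2 := (sq_abs c).symm
    nlinarith [mul_nonneg (sub_nonneg.2 hc) (by linarith : 0 ≤ 2 * |u| - 1 - |c|), abs_nonneg c]

private lemma A25_phi_eq (s : ℝ) : A25_phi s = 2 * (max (-1) (min 1 s)) * s - (max (-1) (min 1 s)) ^ 2 := by
  unfold A25_phi
  split_ifs with h
  · rw [abs_le] at h
    rw [min_eq_right h.2, max_eq_right h.1]
    ring
  · push Not at h
    rcases lt_abs.1 h with h1 | h1
    · rw [min_eq_left h1.le, max_eq_right (by norm_num), abs_of_pos (by linarith)]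
      ring
    · rw [min_eq_right (by linarith), max_eq_left (by linarith), abs_of_neg (by linarith)]
      ring

private lemma A25_clamp (s : ℝ) : |max (-1) (min 1 s)| ≤ 1 := by
  rw [abs_le]
  exact ⟨le_max_left _ _, max_le (by norm_num) (min_le_left _ _)⟩

private lemma A25_phi_conv (s t : ℝ) : A25_phi s + 2 * (max (-1) (min 1 s)) * t ≤ A25_phi (s + t) := by
  have h1 := A25_phi_ge _ (s + t) (A25_clamp s)
  rw [A25_phi_eq s]
  linarith

private lemma A25_phi_low (t : ℝ) : min 1 (t ^ 2) ≤ A25_phi t := by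
  unfold A25_phi
  split_ifs with h
  · exact min_le_right _ _
  · push Not at h
    exact (min_le_left _ _).trans (by linarith)

private lemma A25_phi_nonneg (t : ℝ) : 0 ≤ A25_phi t :=
  (by positivity : (0:ℝ) ≤ min 1 (t ^ 2)).trans (A25_phi_low t)

private lemma A25_phi_bd (t : ℝ) : A25_phi t ≤ 1 + 2 * |t| := by
  unfold A25_phi
  split_ifs with h
  · nlinarith [sq_abs t, abs_nonneg t]
  · linarith

private lemma A25_phi_up (y x : ℝ) (hy : 0 < y) : A25_phi (x / y) ≤
    min 1 ((x / y) ^ 2) + 2 / y * ({x : ℝ | y ≤ |x|}.indicator (fun x => |x|) x) := by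
  unfold A25_phi
  split_ifs with h
  · have h1 : (x / y) ^ 2 ≤ 1 := by rwa [sq_le_one_iff_abs_le_one]
    rw [min_eq_right h1]
    have : 0 ≤ 2 / y * ({x : ℝ | y ≤ |x|}.indicator (fun x => |x|) x) := by
      refine mul_nonneg (by positivity) (Set.indicator_nonneg (fun x _ => abs_nonneg x) _)
    linarith
  · push Not at h
    rw [abs_div, abs_of_pos hy, lt_div_iff₀ hy, one_mul] at h
    have hmem : x ∈ {x : ℝ | y ≤ |x|} := h.le
    rw [Set.indicator_of_mem hmem, abs_div, abs_of_pos hy]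
    have h1 : 0 ≤ min 1 ((x / y) ^ 2) := by positivity
    have h2 : 2 / y * |x| = 2 * (|x| / y) := by ring
    rw [h2]
    linarith

/-- Huber's function `φ(t) = t²` for `|t| ≤ 1`, `2|t| - 1` otherwise: `φ(s + t) ≥ φ(s) + φ'(s) t` with
`φ'(s) = 2 max (-1) (min 1 s)`, `min 1 (t²) ≤ φ t ≤ min 1 (t²) + 2 |t| 1{1 ≤ |t|}`. Let `X, Y` be independent, `X` centred
(laws `σ`, `τ`). With `s = Y/y`, `t = X/y`, integrating over `X`: `φ(Y/y) ≤ E φ((Y + X)/y)`. So
`Lam τ y ≤ E φ(Y/y) ≤ E φ((X+Y)/y) ≤ Lam (law of X+Y) y + (2/y) E[|X+Y|; |X+Y| ≥ y]`. -/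
theorem Lam_le_conv {σ : Measure ℝ} [IsProbabilityMeasure σ] [IsProbabilityMeasure τ]
    (hσ : Integrable (fun x : ℝ => x) σ) (h0 : ∫ x, x ∂σ = 0) (hτ : Integrable (fun x : ℝ => x) τ) (y : ℝ)
    (hy : 0 < y) :
    Lam τ y ≤ Lam ((σ.prod τ).map fun q => q.1 + q.2) y +
      2 / y * ∫ x in {x | y ≤ |x|}, |x| ∂((σ.prod τ).map fun q => q.1 + q.2) := by
  have hadd : Measurable fun q : ℝ × ℝ => q.1 + q.2 := measurable_fst.add measurable_snd
  have hκ : IsProbabilityMeasure ((σ.prod τ).map fun q => q.1 + q.2) :=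
    Measure.isProbabilityMeasure_map hadd.aemeasurable
  have hi1 : Integrable (fun q : ℝ × ℝ => q.1) (σ.prod τ) := hσ.comp_fst τ
  have hi2 : Integrable (fun q : ℝ × ℝ => q.2) (σ.prod τ) := hτ.comp_snd σ
  have hBm : MeasurableSet {x : ℝ | y ≤ |x|} := measurableSet_le measurable_const measurable_id.abs
  have hκi : Integrable (fun x : ℝ => x) ((σ.prod τ).map fun q => q.1 + q.2) := by
    rw [integrable_map_measure measurable_id'.aestronglyMeasurable hadd.aemeasurable]
    exact hi1.add hi2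
  have hphi : ∀ (π : Measure ℝ) [IsProbabilityMeasure π], Integrable (fun x : ℝ => x) π →
      Integrable (fun x => A25_phi (x / y)) π := by
    intro π _ hπ
    have hb : Integrable (fun x : ℝ => 1 + 2 * (|x| / y)) π :=
      (integrable_const _).add ((hπ.abs.div_const y).const_mul 2)
    refine hb.mono' (A25_phi_meas.comp (by fun_prop)).aestronglyMeasurable (Eventually.of_forall fun x => ?_)
    rw [Real.norm_of_nonneg (A25_phi_nonneg _)]
    have := A25_phi_bd (x / y)
    rwa [abs_div, abs_of_pos hy] at this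
  have hφm : Measurable fun x : ℝ => A25_phi (x / y) := A25_phi_meas.comp (measurable_id'.div_const y)
  -- first
  have s1 : Lam τ y ≤ ∫ x, A25_phi (x / y) ∂τ := by
    unfold Lam
    exact integral_mono (A25_Lam_int y) (hphi τ hτ) fun x => A25_phi_low _
  have s2 : ∫ x, A25_phi (x / y) ∂τ ≤ ∫ x, A25_phi (x / y) ∂((σ.prod τ).map fun q => q.1 + q.2) := by
    rw [integral_map hadd.aemeasurable hφm.aestronglyMeasurable]
    have hphi2 : Integrable (fun q : ℝ × ℝ => A25_phi (q.2 / y)) (σ.prod τ) := (hphi τ hτ).comp_snd σ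
    have hphi3 : Integrable (fun q : ℝ × ℝ => A25_phi ((q.1 + q.2) / y)) (σ.prod τ) := by
      have := hphi _ hκi
      rwa [integrable_map_measure hφm.aestronglyMeasurable hadd.aemeasurable] at this
    have hcl : Measurable fun s : ℝ => 2 * max (-1) (min 1 (s / y)) := by fun_prop
    have hprodi : Integrable (fun q : ℝ × ℝ => (q.1 / y) * (2 * max (-1) (min 1 (q.2 / y)))) (σ.prod τ) := by
      refine Integrable.mul_prod (f := fun x : ℝ => x / y) (g := fun s : ℝ => 2 * max (-1) (min 1 (s / y)))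
        (hσ.div_const y) ?_
      refine Integrable.of_bound hcl.aestronglyMeasurable 2 (Eventually.of_forall fun s => ?_)
      rw [Real.norm_eq_abs, abs_mul, abs_two]
      linarith [A25_clamp (s / y)]
    have hprod0 : ∫ q : ℝ × ℝ, (q.1 / y) * (2 * max (-1) (min 1 (q.2 / y))) ∂(σ.prod τ) = 0 := by
      rw [integral_prod_mul (fun x : ℝ => x / y) (fun s : ℝ => 2 * max (-1) (min 1 (s / y))), integral_div, h0]
      simp
    have e1 : ∫ x, A25_phi (x / y) ∂τ = ∫ q : ℝ × ℝ, A25_phi (q.2 / y) ∂(σ.prod τ) := by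
      rw [integral_fun_snd (fun x : ℝ => A25_phi (x / y))]
      simp
    have e2 : ∫ q : ℝ × ℝ, A25_phi (q.2 / y) ∂(σ.prod τ) =
        ∫ q : ℝ × ℝ, (A25_phi (q.2 / y) + (q.1 / y) * (2 * max (-1) (min 1 (q.2 / y)))) ∂(σ.prod τ) := by
      rw [integral_add hphi2 hprodi, hprod0, add_zero]
    rw [e1, e2]
    refine integral_mono (hphi2.add hprodi) hphi3 fun q => ?_
    have := A25_phi_conv (q.2 / y) (q.1 / y)
    have e3 : (q.1 + q.2) / y = q.2 / y + q.1 / y := by ring
    simp only [e3]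
    linarith
  have s3 : ∫ x, A25_phi (x / y) ∂((σ.prod τ).map fun q => q.1 + q.2) ≤
      Lam ((σ.prod τ).map fun q => q.1 + q.2) y +
      2 / y * ∫ x in {x | y ≤ |x|}, |x| ∂((σ.prod τ).map fun q => q.1 + q.2) := by
    unfold Lam
    rw [← integral_indicator hBm, ← integral_const_mul, ← integral_add (A25_Lam_int y)
      ((hκi.abs.indicator hBm).const_mul _)]
    exact integral_mono (hphi _ hκi) ((A25_Lam_int y).add ((hκi.abs.indicator hBm).const_mul _))
      fun x => A25_phi_up y x hy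
  exact s1.trans (s2.trans s3)

private lemma A25_lawsum [IsProbabilityMeasure μ] [IsProbabilityMeasure ν] :
    ((μ.map fun x => 1 - x).prod (ν.map fun x => x - 1)).map (fun q => q.1 + q.2) = stepLaw μ ν 1 := by
  have hf : Measurable fun x : ℝ => 1 - x := by fun_prop
  have hg : Measurable fun x : ℝ => x - 1 := by fun_prop
  have hadd : Measurable fun q : ℝ × ℝ => q.1 + q.2 := by fun_prop
  rw [Measure.map_prod_map _ _ hf hg, Measure.map_map hadd (hf.prodMap hg)]
  unfold stepLaw
  congr 1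
  funext p
  simp only [Function.comp_apply, Prod.map_fst, Prod.map_snd, div_one]
  ring

private lemma A25_lawsum' [IsProbabilityMeasure μ] [IsProbabilityMeasure ν] :
    ((ν.map fun x => x - 1).prod (μ.map fun x => 1 - x)).map (fun q => q.1 + q.2) = stepLaw μ ν 1 := by
  have hf : Measurable fun x : ℝ => 1 - x := by fun_prop
  have hg : Measurable fun x : ℝ => x - 1 := by fun_prop
  have h1 : IsProbabilityMeasure (μ.map fun x => 1 - x) := Measure.isProbabilityMeasure_map hf.aemeasurable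
  have h2 : IsProbabilityMeasure (ν.map fun x => x - 1) := Measure.isProbabilityMeasure_map hg.aemeasurable
  have hadd : Measurable fun q : ℝ × ℝ => q.1 + q.2 := by fun_prop
  rw [← A25_lawsum (μ := μ) (ν := ν), ← Measure.prod_swap (μ := μ.map fun x => 1 - x) (ν := ν.map fun x => x - 1),
    Measure.map_map hadd measurable_swap]
  congr 1
  funext p
  simp [add_comm]

/-- PROOF. `stepLaw μ ν 1` is the law of `(v - 1) + (1 - u)`. `Lam_le_conv` twice (the law of `1 - u` has the same `Lam` as that of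
`u - 1`), `Reg.mom1`. -/
theorem Reg.Lam_marg (hq : QI μ ν) (h : Reg (stepLaw μ ν 1) p C x₀) : ∃ K : ℝ, 1 ≤ K ∧ ∀ y : ℝ, 1 ≤ y →
    Lam (μ.map fun x => x - 1) y ≤ K * Lam (stepLaw μ ν 1) y ∧
    Lam (ν.map fun x => x - 1) y ≤ K * Lam (stepLaw μ ν 1) y := by
  have hpμ := hq.probμ
  have hpν := hq.probν
  obtain ⟨K, hK, hmom⟩ := h.mom1
  have hf : Measurable fun x : ℝ => 1 - x := by fun_prop
  have hg : Measurable fun x : ℝ => x - 1 := by fun_prop
  have h1 : IsProbabilityMeasure (μ.map fun x => 1 - x) := Measure.isProbabilityMeasure_map hf.aemeasurable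
  have h2 : IsProbabilityMeasure (ν.map fun x => x - 1) := Measure.isProbabilityMeasure_map hg.aemeasurable
  have iμ : Integrable (fun x : ℝ => x) (μ.map fun x => 1 - x) := by
    rw [integrable_map_measure measurable_id'.aestronglyMeasurable hf.aemeasurable]
    exact (integrable_const _).sub hq.int.1
  have iν : Integrable (fun x : ℝ => x) (ν.map fun x => x - 1) := by
    rw [integrable_map_measure measurable_id'.aestronglyMeasurable hg.aemeasurable]
    exact hq.int.2.sub (integrable_const _)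
  have mμ : ∫ x, x ∂(μ.map fun x => 1 - x) = 0 := by
    rw [integral_map hf.aemeasurable measurable_id'.aestronglyMeasurable,
      integral_sub (integrable_const _) hq.int.1, hq.meanμ]
    simp
  have mν : ∫ x, x ∂(ν.map fun x => x - 1) = 0 := by
    rw [integral_map hg.aemeasurable measurable_id'.aestronglyMeasurable,
      integral_sub hq.int.2 (integrable_const _), hq.meanν]
    simp
  refine ⟨1 + 2 * K, by linarith, fun y hy => ?_⟩
  have hy0 : 0 < y := by linarith
  have hb := hmom y hy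
  have hb2 : 2 / y * ∫ x in {x | y ≤ |x|}, |x| ∂(stepLaw μ ν 1) ≤ 2 * K * Lam (stepLaw μ ν 1) y := by
    calc _ ≤ 2 / y * (K * (y * Lam (stepLaw μ ν 1) y)) := mul_le_mul_of_nonneg_left hb (by positivity)
      _ = _ := by field_simp
  constructor
  · have h3 := Lam_le_conv (σ := ν.map fun x => x - 1) (τ := μ.map fun x => 1 - x) iν mν iμ y hy0
    rw [A25_lawsum'] at h3
    have h4 : Lam (μ.map fun x => x - 1) y = Lam (μ.map fun x => 1 - x) y := by
      unfold Lam
      rw [integral_map hg.aemeasurable (A25_Lam_meas y).aestronglyMeasurable,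
        integral_map hf.aemeasurable (A25_Lam_meas y).aestronglyMeasurable]
      refine integral_congr_ae (Eventually.of_forall fun x => ?_)
      simp only
      congr 1
      rw [div_pow, div_pow]
      congr 1
      ring
    rw [h4]
    linarith
  · have h3 := Lam_le_conv (σ := μ.map fun x => 1 - x) (τ := ν.map fun x => x - 1) iμ mμ iν y hy0
    rw [A25_lawsum] at h3
    linarith

private lemma A25_marg (h : Reg ρ p C x₀) [IsProbabilityMeasure τ] (hint : Integrable (fun x : ℝ => x) τ)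
    (h0 : ∫ x, x ∂τ = 0) {K : ℝ} (hK : 1 ≤ K) (hKL : ∀ y : ℝ, 1 ≤ y → Lam τ y ≤ K * Lam ρ y) :
    ∃ K' : ℝ, 1 ≤ K' ∧ ∀ (n : ℕ) (y : ℝ), 1 ≤ y →
      (seqLaw τ).real {ω | ∃ j ≤ n, y ≤ |S j ω|} ≤ K' * (n * Lam ρ y) := by
  obtain ⟨K₁, hK₁, hall⟩ := h.all
  have hp := h.p1
  have hr : (2:ℝ) ^ (1 - p) < 1 := Real.rpow_lt_one_of_one_lt_of_neg (by norm_num) (by linarith)
  set A : ℝ := 2 / (1 - (2 : ℝ) ^ (1 - p)) with hA
  have hA0 : 0 < A := div_pos (by norm_num) (by linarith)
  refine ⟨5 * (K + A * (K * K₁)), by nlinarith [mul_pos hA0 (mul_pos (by linarith : 0 < K) (by linarith : 0 < K₁))], ?_⟩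
  intro n y hy
  have hy0 : 0 < y := by linarith
  have hL0 : 0 ≤ Lam ρ y := Lam_nonneg ρ y
  set L : ℝ := (K + A * (K * K₁)) * Lam ρ y with hL
  have hq0 : 0 ≤ K * K₁ * Lam ρ y := by positivity
  have h1 : Lam τ y ≤ L := (hKL y hy).trans (by
    rw [hL]
    exact mul_le_mul_of_nonneg_right (by nlinarith [mul_pos hA0 (mul_pos (by linarith : 0 < K) (by linarith : 0 < K₁))]) hL0)
  have hBm : MeasurableSet {x : ℝ | y ≤ |x|} := measurableSet_le measurable_const measurable_id.abs
  have h2 : ∫ x in {x | y ≤ |x|}, |x| ∂τ ≤ y * L := by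
    have hd := dyadic_tail τ (fun x : ℝ => |x|) measurable_id.abs (p := p) (q := K * K₁ * Lam ρ y) (y := y) hp hq0 hy0
      (fun j => by
        have h2j : (1:ℝ) ≤ 2 ^ j := one_le_pow₀ (by norm_num)
        have h2y : 1 ≤ 2 ^ j * y := by nlinarith
        have e1 : Lam τ (2 ^ j * y) ≤ K * K₁ * Lam ρ y * ((2 : ℝ) ^ j) ^ (-p) := by
          calc _ ≤ K * Lam ρ (2 ^ j * y) := hKL _ h2y
            _ ≤ K * (K₁ * (2 ^ j) ^ (-p) * Lam ρ y) := mul_le_mul_of_nonneg_left (hall y hy _ h2j) (by linarith)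
            _ = _ := by ring
        have e2 := tail_le_Lam (ρ := τ) (y := 2 ^ j * y) (by positivity)
        rw [← ENNReal.ofReal_toReal (measure_ne_top τ {a : ℝ | 2 ^ j * y ≤ |a|})]
        exact ENNReal.ofReal_le_ofReal (e2.trans e1))
    rw [integral_eq_lintegral_of_nonneg_ae (Eventually.of_forall fun x => abs_nonneg x)
      measurable_id.abs.aestronglyMeasurable]
    refine ENNReal.toReal_le_of_le_ofReal (by positivity) (hd.trans (ENNReal.ofReal_le_ofReal ?_))
    rw [hL, ← hA]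
    have : 0 ≤ y * (K * Lam ρ y) := by positivity
    nlinarith
  have h3 := maxi_gen (τ := τ) hint h0 n y L hy0 h1 h2
  calc _ ≤ _ := h3
    _ = _ := by rw [hL]; ring

/-- PROOF. The steps `(ω i).1 - 1`, `(ω i).2 - 1`, `(ω i).2 - (ω i).1` are i.i.d. with laws `μ.map (· - 1)`, `ν.map (· - 1)`, `stepLaw μ ν 1`
(`map_seqLaw`, `map_steps_gen`). `maxi_gen` with `L = K Lam (stepLaw μ ν 1) y`; the hypothesis `hm` by `dyadic_tail`, because
`P(|Y| ≥ 2^j y) ≤ Lam_Y (2^j y) ≤ K Lam (2^j y) ≤ K K₁ (2^j)^{-p} Lam y` (`Reg.Lam_marg`, `Reg.all`). -/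
theorem Reg.queue_max (hq : QI μ ν) (h : Reg (stepLaw μ ν 1) p C x₀) : ∃ K : ℝ, 1 ≤ K ∧
    ∀ (w : ℕ) (y : ℝ), 1 ≤ y →
      (PQ μ ν).real {ω | ∃ j ≤ w, y ≤ |Ar j ω - j|} ≤ K * (w * Lam (stepLaw μ ν 1) y) ∧
      (PQ μ ν).real {ω | ∃ j ≤ w, y ≤ |Dp j ω - j|} ≤ K * (w * Lam (stepLaw μ ν 1) y) ∧
      (PQ μ ν).real {ω | ∃ j ≤ w, y ≤ |Zw j ω|} ≤ K * (w * Lam (stepLaw μ ν 1) y) := by
  have hpμ := hq.probμ
  have hpν := hq.probν
  obtain ⟨K, hK, hmarg⟩ := Reg.Lam_marg hq h
  have hg : Measurable fun x : ℝ => x - 1 := by fun_prop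
  have h1 : IsProbabilityMeasure (μ.map fun x => x - 1) := Measure.isProbabilityMeasure_map hg.aemeasurable
  have h2 : IsProbabilityMeasure (ν.map fun x => x - 1) := Measure.isProbabilityMeasure_map hg.aemeasurable
  have iμ : Integrable (fun x : ℝ => x) (μ.map fun x => x - 1) := by
    rw [integrable_map_measure measurable_id'.aestronglyMeasurable hg.aemeasurable]
    exact hq.int.1.sub (integrable_const _)
  have iν : Integrable (fun x : ℝ => x) (ν.map fun x => x - 1) := by
    rw [integrable_map_measure measurable_id'.aestronglyMeasurable hg.aemeasurable]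
    exact hq.int.2.sub (integrable_const _)
  have mμ : ∫ x, x ∂(μ.map fun x => x - 1) = 0 := by
    rw [integral_map hg.aemeasurable measurable_id'.aestronglyMeasurable,
      integral_sub hq.int.1 (integrable_const _), hq.meanμ]
    simp
  have mν : ∫ x, x ∂(ν.map fun x => x - 1) = 0 := by
    rw [integral_map hg.aemeasurable measurable_id'.aestronglyMeasurable,
      integral_sub hq.int.2 (integrable_const _), hq.meanν]
    simp
  obtain ⟨K₁, hK₁, hm1⟩ := A25_marg h iμ mμ hK (fun y hy => (hmarg y hy).1)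
  obtain ⟨K₂, hK₂, hm2⟩ := A25_marg h iν mν hK (fun y hy => (hmarg y hy).2)
  obtain ⟨K₃, hK₃, hm3⟩ := h.maxi
  have e1 : (μ.prod ν).map (fun q : ℝ × ℝ => q.1 - 1) = μ.map fun x => x - 1 := by
    have : (fun q : ℝ × ℝ => q.1 - 1) = (fun x : ℝ => x - 1) ∘ Prod.fst := rfl
    rw [this, ← Measure.map_map hg measurable_fst, Measure.map_fst_prod]
    simp
  have e2 : (μ.prod ν).map (fun q : ℝ × ℝ => q.2 - 1) = ν.map fun x => x - 1 := by
    have : (fun q : ℝ × ℝ => q.2 - 1) = (fun x : ℝ => x - 1) ∘ Prod.snd := rfl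
    rw [this, ← Measure.map_map hg measurable_snd, Measure.map_snd_prod]
    simp
  have s1 : ∀ (j : ℕ) (ω : ℕ → ℝ × ℝ), Ar j ω - j = S j (fun i => (ω i).1 - 1) := by
    intro j ω
    simp [Ar, S, Finset.sum_sub_distrib]
  have s2 : ∀ (j : ℕ) (ω : ℕ → ℝ × ℝ), Dp j ω - j = S j (fun i => (ω i).2 - 1) := by
    intro j ω
    simp [Dp, S, Finset.sum_sub_distrib]
  have s3 : ∀ (j : ℕ) (ω : ℕ → ℝ × ℝ), Zw j ω = S j (fun i => ((ω i).2 - (ω i).1) / 1) := by
    intro j ω
    simp [Zw, Dp, Ar, S, Finset.sum_sub_distrib]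
  refine ⟨K₁ + K₂ + K₃, by linarith, fun w y hy => ?_⟩
  have hL : 0 ≤ (w : ℝ) * Lam (stepLaw μ ν 1) y := mul_nonneg (Nat.cast_nonneg _) (Lam_nonneg _ _)
  refine ⟨?_, ?_, ?_⟩
  · simp_rw [s1]
    unfold PQ
    rw [A25_transfer (μ.prod ν) (fun q : ℝ × ℝ => q.1 - 1) (by fun_prop), e1]
    exact (hm1 w y hy).trans (mul_le_mul_of_nonneg_right (by linarith) hL)
  · simp_rw [s2]
    unfold PQ
    rw [A25_transfer (μ.prod ν) (fun q : ℝ × ℝ => q.2 - 1) (by fun_prop), e2]
    exact (hm2 w y hy).trans (mul_le_mul_of_nonneg_right (by linarith) hL)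
  · simp_rw [s3]
    unfold PQ
    rw [A25_transfer (μ.prod ν) (fun q : ℝ × ℝ => (q.2 - q.1) / 1) F1_stepMeas]
    exact (hm3 w y hy).trans (mul_le_mul_of_nonneg_right (by linarith) hL)

end Pool.Agent.BPT
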