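import Pool.Agent.MP_99a865_pr.ST.A22

/-!
# [STB-A26] More corollaries
-/

open MeasureTheory ProbabilityTheory Filter Topology
open scoped ENNReal NNReal

namespace Pool.Agent.BPT

variable {D : Set ℝ} {ρ : Measure ℝ} {p C x₀ : ℝ}

/-- PROOF. `VT_rec`: `VV 0 = 1 + ∫⁻ h in {h | 0 - h ∈ D}, …`, and `ladS D ρ {h | -h ∈ D} = 0`: under `lad D ρ j` one has `h = -S j`
with `0 + S j ∉ D`, i.e. `-h ∉ D`. -/
theorem vr_zero (hD : Dom D) (hρ : Cen ρ) : vr D ρ 0 = 1 := by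
  have hp := hρ.prob
  have hms : MeasurableSet {h : ℝ | (0 : ℝ) - h ∈ D} := (measurable_const.sub measurable_id) hD.meas
  have h0 : ladS D ρ {h : ℝ | (0 : ℝ) - h ∈ D} = 0 := by
    unfold ladS
    rw [Measure.sum_apply _ hms]
    rw [ENNReal.tsum_eq_zero]
    intro j
    unfold lad
    rw [Measure.map_apply (K1_mneg j) hms, Measure.restrict_apply ((K1_mneg j) hms)]
    have e : (fun ω : ℕ → ℝ => -S j ω) ⁻¹' {h : ℝ | (0 : ℝ) - h ∈ D} ∩
        {ω | 1 ≤ j ∧ Alive D 0 (j - 1) ω ∧ 0 + S j ω ∉ D} = ∅ := by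
      ext ω
      simp only [Set.mem_inter_iff, Set.mem_preimage, Set.mem_ofPred_eq, Set.mem_empty_iff_false,
        iff_false, not_and]
      intro h1 _ _ h2
      apply h2
      have e2 : (0 : ℝ) - -S j ω = 0 + S j ω := by ring
      rwa [e2] at h1
    rw [e, measure_empty]
  have h1 : ww D (ladS D ρ) 0 0 = 1 := rfl
  have h2 : ∀ r : ℕ, ww D (ladS D ρ) (r + 1) 0 = 0 := by
    intro r
    change ∫⁻ h in {h | (0 : ℝ) - h ∈ D}, ww D (ladS D ρ) r (0 - h) ∂(ladS D ρ) = 0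
    exact setLIntegral_measure_zero _ _ h0
  unfold vr VV VT
  rw [tsum_eq_zero_add' ENNReal.summable, h1]
  simp [h2]

private theorem A26_meas (hD : Dom D) (n : ℕ) (y : ℝ) :
    MeasurableSet {q : ℝ × (ℕ → ℝ) | ∃ j ≤ n, Alive D q.1 j q.2 ∧ y ≤ q.1 + S j q.2} := by
  have e : {q : ℝ × (ℕ → ℝ) | ∃ j ≤ n, Alive D q.1 j q.2 ∧ y ≤ q.1 + S j q.2} =
      ⋃ j ∈ Finset.range (n + 1), ({q : ℝ × (ℕ → ℝ) | Alive D q.1 j q.2} ∩
        {q : ℝ × (ℕ → ℝ) | y ≤ q.1 + S j q.2}) := by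
    ext q
    simp only [Set.mem_ofPred_eq, Set.mem_iUnion, Finset.mem_range, exists_prop, Nat.lt_succ_iff,
      Set.mem_inter_iff]
  rw [e]
  exact Finset.measurableSet_biUnion _ fun j _ =>
    (measurableSet_alive' hD j).inter (measurableSet_le measurable_const (A1_meas_add' j))

private theorem A26_max (hD : Dom D) (hρ : Cen ρ) (y : ℝ) (n : ℕ) (x : ℝ) (hx : 0 ≤ x) :
    seqLaw ρ {ω | ∃ j ≤ n, Alive D x j ω ∧ y ≤ x + S j ω} ≤
      ENNReal.ofReal (vr D ρ x / vr D ρ y) := by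
  have hp := hρ.prob
  have hps : IsProbabilityMeasure (seqLaw ρ) := by
    unfold seqLaw
    infer_instance
  have hvy : 0 < vr D ρ y := lt_of_lt_of_le one_pos (one_le_vr hD hρ y)
  have hbig : ∀ z : ℝ, y ≤ z → ∀ m : ℕ, seqLaw ρ {ω | ∃ j ≤ m, Alive D z j ω ∧ y ≤ z + S j ω} ≤
      ENNReal.ofReal (vr D ρ z / vr D ρ y) := by
    intro z hz m
    refine (prob_le_one).trans ?_
    rw [ENNReal.one_le_ofReal, one_le_div hvy]
    exact vr_mono hD hρ hz
  induction n generalizing x with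
  | zero =>
    rcases le_total y x with hyx | hxy
    · exact hbig x hyx 0
    · rcases hxy.eq_or_lt with hxy | hxy
      · exact hbig x hxy.ge 0
      have e : {ω : ℕ → ℝ | ∃ j ≤ 0, Alive D x j ω ∧ y ≤ x + S j ω} = ∅ := by
        ext ω
        simp only [Set.mem_ofPred_eq, Set.mem_empty_iff_false, iff_false]
        rintro ⟨j, hj, _, h2⟩
        have hj0 : j = 0 := by omega
        rw [hj0, A1_S_zero, add_zero] at h2
        linarith
      rw [e, measure_empty]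
      exact zero_le
  | succ n ih =>
    rcases le_or_gt y x with hyx | hxy
    · exact hbig x hyx _
    set B : Set (ℝ × (ℕ → ℝ)) := {q | ∃ j ≤ n, Alive D q.1 j q.2 ∧ y ≤ q.1 + S j q.2} with hB
    have e : {ω : ℕ → ℝ | ∃ j ≤ n + 1, Alive D x j ω ∧ y ≤ x + S j ω} ⊆
        {ω | Alive D x 1 ω ∧ (x + S 1 ω, shift 1 ω) ∈ B} := by
      rintro ω ⟨j, hj, h1, h2⟩
      have hj0 : j ≠ 0 := by
        rintro rfl
        rw [A1_S_zero, add_zero] at h2
        linarith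
      obtain ⟨i, rfl⟩ : ∃ i, j = 1 + i := ⟨j - 1, by omega⟩
      rw [alive_add] at h1
      rw [S_shift, ← add_assoc] at h2
      exact ⟨h1.1, i, by omega, h1.2, h2⟩
    refine (measure_mono e).trans ?_
    rw [A1c_markov hD 1 x B (A26_meas hD n y)]
    have hint : Integrable (fun z => vr D ρ z / vr D ρ y) (kap D ρ 1 x) :=
      (harm_integrable hD hρ 1 x hx).div_const _
    calc ∫⁻ w, seqLaw ρ (Prod.mk w ⁻¹' B) ∂(kap D ρ 1 x)
        ≤ ∫⁻ w, ENNReal.ofReal (vr D ρ w / vr D ρ y) ∂(kap D ρ 1 x) := by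
          refine lintegral_mono_ae ?_
          filter_upwards [kap_ae_nonneg hD 1 hx] with w hw
          exact ih w hw
      _ = ENNReal.ofReal (∫ w, vr D ρ w / vr D ρ y ∂(kap D ρ 1 x)) := by
          rw [ofReal_integral_eq_lintegral_ofReal hint]
          exact ae_of_all _ fun w => div_nonneg (zero_le_one.trans (one_le_vr hD hρ w)) hvy.le
      _ = ENNReal.ofReal (vr D ρ x / vr D ρ y) := by
          rw [integral_div, harm_real hD hρ 1 x hx]

/-- Maximal inequality for the killed walk. PROOF. If `y ≤ x`, `vr x/vr y ≥ 1` (`vr_mono`). Otherwise induction on `n` for all `x ≥ 0`;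
`n = 0`: the event is empty for `x < y`. Step: for `x < y` the index `j = 0` is impossible and
`∃ j ≤ n, Alive D x (1+j) ω ∧ y ≤ x + S (1+j) ω` means `Alive D x 1 ω` and `∃ j ≤ n, Alive D (x + S 1 ω) j (shift 1 ω) ∧ …`
(`alive_add`, `S_shift`); by the Markov property (`A1c_markov`) and the induction hypothesis the probability is at most
`∫ vr z/vr y ∂(kap 1 x) = vr x/vr y` (`harm_real`). -/
theorem alive_max (hD : Dom D) (hρ : Cen ρ) (n : ℕ) (x y : ℝ) (hx : 0 ≤ x) :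
    (seqLaw ρ).real {ω | ∃ j ≤ n, Alive D x j ω ∧ y ≤ x + S j ω} ≤ vr D ρ x / vr D ρ y := by
  have h1 := A26_max hD hρ y n x hx
  have h2 : 0 ≤ vr D ρ x / vr D ρ y :=
    div_nonneg (zero_le_one.trans (one_le_vr hD hρ x)) (zero_le_one.trans (one_le_vr hD hρ y))
  exact ENNReal.toReal_le_of_le_ofReal h2 h1

theorem Reg.vd_lower (hD : Dom D) (h : Reg ρ p C x₀) : ∃ c : ℝ, 0 < c ∧ ∀ y r : ℝ, 1 ≤ y → 1 ≤ r →
    c * r ^ (p - 1) * vd D ρ y ≤ vd D ρ (r * y) :=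
  Reg.vr_lower (dom_Dst hD) h.rev

/-- Exit probabilities from `x ≍ z`. PROOF. `L = Lam z`, `θ = (p-1)/2`. `x ≥ z/4`, `x ≤ 4z`.
(a) `hit m x ≤ K L` for all `m`: if `x ≥ 1`, `Reg.hit_far` and `Lam x ≤ Lam (max 1 (z/4)) ≤ 16 L` (`Lam_sq`, `Lam_anti`); if `x < 1` then
`z < 4` and `hit ≤ 1 ≤ L/Lam 4`.
(b) Let `m L > 1`, `y` with `c ≤ m Lam y ≤ 1`, `1 ≤ y` (`Reg.scale`). Then `Lam y ≤ 1/m < L` so `y > z` (`Lam_anti`), and
`L ≤ (y/z)² Lam y ≤ (y/z)²/m` (`Lam_sq`), so `y/z ≥ (m L)^{1/2}`. By `Reg.hit_le`: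
`hit m x ≤ K Lam y vr x/vr y ≤ (K/m) (5 vr z)/(c' (y/z)^{p-1} vr z) ≤ (5K/c') (1/m) (m L)^{-(p-1)/2} = K' L (m L)^{-(1+θ)}`
(`vr_ratio`, `Reg.vr_lower`). -/
theorem Reg.hit_scale (hD : Dom D) (h : Reg ρ p C x₀) : ∃ K : ℝ, 1 ≤ K ∧ ∀ z : ℝ, 1 ≤ z →
    ∀ (m : ℕ) (x : ℝ), 1 ≤ m → z / 4 ≤ x → x ≤ 4 * z →
      hit D ρ m x ≤ K * (Lam ρ z * min 1 ((m * Lam ρ z) ^ (-(1 + (p - 1) / 2)))) := by
  have hp := h.cen.prob
  have hp1 := h.p1
  obtain ⟨K₁, hK₁, hfar⟩ := h.hit_far hD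
  obtain ⟨c, hc, hscale⟩ := h.scale
  obtain ⟨K₂, hK₂, hle⟩ := h.hit_le hD c hc
  obtain ⟨c', hc', hlow⟩ := h.vr_lower hD
  have hL4 : 0 < Lam ρ 4 := Lam_pos h.cen (by norm_num)
  have hKpos : 0 < 5 * K₂ / c' := by positivity
  refine ⟨16 * K₁ + 1 / Lam ρ 4 + 5 * K₂ / c', ?_, fun z hz m x hm hx1 hx2 => ?_⟩
  · have : 0 < 1 / Lam ρ 4 := by positivity
    linarith
  have hz0 : 0 < z := by linarith
  have hx0 : 0 ≤ x := by linarith
  have hL : 0 < Lam ρ z := Lam_pos h.cen hz0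
  have hm0 : (0 : ℝ) < m := by exact_mod_cast hm
  have hmL : 0 < m * Lam ρ z := by positivity
  have hL4' : 0 < 1 / Lam ρ 4 := by positivity
  -- (a)
  have ha : hit D ρ m x ≤ (16 * K₁ + 1 / Lam ρ 4) * Lam ρ z := by
    rcases le_or_gt 1 x with hx | hx
    · have h1 := hfar m x hm hx
      have h2 := Lam_sq (ρ := ρ) (y := x) (r := 4) (by linarith) (by norm_num)
      have h3 := Lam_anti (ρ := ρ) hz0 (by linarith : z ≤ 4 * x)
      have h4 : Lam ρ x ≤ 16 * Lam ρ z := by nlinarith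
      have h5 : K₁ * Lam ρ x ≤ K₁ * (16 * Lam ρ z) := mul_le_mul_of_nonneg_left h4 (by linarith)
      have h6 : 0 ≤ 1 / Lam ρ 4 * Lam ρ z := by positivity
      nlinarith
    · have h1 : hit D ρ m x ≤ 1 := hit_le_one m x
      have h2 := Lam_anti (ρ := ρ) hz0 (by linarith : z ≤ 4)
      have h3 : 1 ≤ 1 / Lam ρ 4 * Lam ρ z := by
        rw [one_div, ← div_eq_inv_mul, one_le_div hL4]
        exact h2
      have h4 : 0 ≤ 16 * K₁ * Lam ρ z := by positivity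
      nlinarith
  rcases le_or_gt (m * Lam ρ z) 1 with hml | hml
  · have h1 : (1 : ℝ) ≤ (m * Lam ρ z) ^ (-(1 + (p - 1) / 2)) :=
      Real.one_le_rpow_of_pos_of_le_one_of_nonpos hmL hml (by linarith)
    rw [min_eq_left h1, mul_one]
    refine ha.trans (mul_le_mul_of_nonneg_right (by linarith) hL.le)
  · -- (b)
    obtain ⟨y, hy1, hy2, hy3⟩ := hscale m hm
    have hy0 : 0 < y := by linarith
    have hzy : z < y := by
      by_contra hcon
      push Not at hcon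
      have h1 := Lam_anti (ρ := ρ) hy0 hcon
      have h2 : m * Lam ρ z ≤ m * Lam ρ y := mul_le_mul_of_nonneg_left h1 hm0.le
      linarith
    set r : ℝ := y / z with hr
    have hr1 : 1 ≤ r := (one_le_div hz0).2 hzy.le
    have hrz : r * z = y := div_mul_cancel₀ _ hz0.ne'
    have h1 := Lam_sq (ρ := ρ) hz0 hr1
    rw [hrz] at h1
    have h2 : m * Lam ρ z ≤ r ^ 2 := by
      have h3 : m * Lam ρ z ≤ m * (r ^ 2 * Lam ρ y) := mul_le_mul_of_nonneg_left h1 hm0.le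
      nlinarith [sq_nonneg r]
    have h3 : (m * Lam ρ z) ^ ((p - 1) / 2) ≤ r ^ (p - 1) := by
      have h4 : (m * Lam ρ z) ^ ((p - 1) / 2) ≤ (r ^ 2) ^ ((p - 1) / 2) :=
        Real.rpow_le_rpow hmL.le h2 (by linarith)
      have h5 : (r ^ 2) ^ ((p - 1) / 2) = r ^ (p - 1) := by
        rw [← Real.rpow_natCast, ← Real.rpow_mul (by linarith)]
        congr 1
        push_cast
        ring
      rwa [h5] at h4
    have h4 := (hle m y x hm hy1 hy2 hx0).2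
    have hvz : 0 < vr D ρ z := lt_of_lt_of_le one_pos (one_le_vr hD h.cen z)
    have hvy : 0 < vr D ρ y := lt_of_lt_of_le one_pos (one_le_vr hD h.cen y)
    have h5 : vr D ρ x ≤ 5 * vr D ρ z := by
      have h6 := vr_ratio hD h.cen (y := z) (z := 4 * z) hz0 (by linarith)
      have h7 : (4 * z) / z = 4 := by field_simp
      rw [h7] at h6
      have h8 := vr_mono hD h.cen hx2
      linarith
    have h6 := hlow z r hz hr1
    rw [hrz] at h6
    set w : ℝ := (m * Lam ρ z) ^ ((p - 1) / 2) with hw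
    have hwpos : 0 < w := Real.rpow_pos_of_pos hmL _
    have h7 : c' * w * vr D ρ z ≤ vr D ρ y :=
      (mul_le_mul_of_nonneg_right (mul_le_mul_of_nonneg_left h3 hc'.le) hvz.le).trans h6
    have h8 : vr D ρ x / vr D ρ y ≤ 5 / (c' * w) := by
      rw [div_le_div_iff₀ hvy (by positivity)]
      have h9 : vr D ρ x * (c' * w) ≤ 5 * vr D ρ z * (c' * w) :=
        mul_le_mul_of_nonneg_right h5 (by positivity)
      nlinarith
    have h9 : Lam ρ y ≤ 1 / m := by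
      rw [le_div_iff₀ hm0]
      linarith
    have hLy : 0 ≤ Lam ρ y := Lam_nonneg ρ y
    have h10 : hit D ρ m x ≤ K₂ * (1 / m) * (5 / (c' * w)) := by
      refine h4.trans ?_
      refine mul_le_mul (mul_le_mul_of_nonneg_left h9 (by linarith)) h8 ?_ (by positivity)
      exact div_nonneg (zero_le_one.trans (one_le_vr hD h.cen x)) hvy.le
    have h11 : (m * Lam ρ z) ^ (-(1 + (p - 1) / 2)) = (m * Lam ρ z)⁻¹ * w⁻¹ := by
      rw [Real.rpow_neg hmL.le, Real.rpow_add hmL, Real.rpow_one, mul_inv]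
    have h12 : (m * Lam ρ z) ^ (-(1 + (p - 1) / 2)) ≤ 1 :=
      Real.rpow_le_one_of_one_le_of_nonpos hml.le (by linarith)
    rw [min_eq_right h12, h11]
    have h13 : K₂ * (1 / m) * (5 / (c' * w)) =
        5 * K₂ / c' * (Lam ρ z * ((m * Lam ρ z)⁻¹ * w⁻¹)) := by
      field_simp
    rw [h13] at h10
    refine h10.trans (mul_le_mul_of_nonneg_right ?_ (by positivity))
    linarith

/-- primitive of `min 1 (t ^ (-(1 + θ)))` -/
private noncomputable def A26_F (θ t : ℝ) : ℝ := if t ≤ 1 then t else 1 + (1 - t ^ (-θ)) / θ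

private theorem A26_F_one (θ : ℝ) : A26_F θ 1 = 1 + (1 - (1 : ℝ) ^ (-θ)) / θ := by
  unfold A26_F
  rw [if_pos le_rfl, Real.one_rpow]
  simp

/-- the increment beyond one -/
private theorem A26_inc {θ s t : ℝ} (hθ : 0 < θ) (hs : 1 ≤ s) (hst : s ≤ t) :
    (t - s) * t ^ (-(1 + θ)) ≤ (1 + (1 - t ^ (-θ)) / θ) - (1 + (1 - s ^ (-θ)) / θ) := by
  have hs0 : 0 < s := by linarith
  have ht0 : 0 < t := by linarith
  have hu0 : 0 < s / t := by positivity
  have h1 : 1 + θ * (1 - s / t) ≤ (s / t) ^ (-θ) := by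
    rw [Real.rpow_def_of_pos hu0]
    have h2 := Real.add_one_le_exp (Real.log (s / t) * -θ)
    have h3 := Real.log_le_sub_one_of_pos hu0
    nlinarith
  have h2 : (s / t) ^ (-θ) = s ^ (-θ) / t ^ (-θ) := Real.div_rpow hs0.le ht0.le _
  have htp : 0 < t ^ (-θ) := Real.rpow_pos_of_pos ht0 _
  rw [h2, le_div_iff₀ htp] at h1
  have h3 : t ^ (-(1 + θ)) = t ^ (-θ) / t := by
    rw [show (-(1 + θ) : ℝ) = -θ - 1 by ring, Real.rpow_sub_one ht0.ne']
  rw [h3]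
  have h4 : (1 + (1 - t ^ (-θ)) / θ) - (1 + (1 - s ^ (-θ)) / θ) = (s ^ (-θ) - t ^ (-θ)) / θ := by
    ring
  rw [h4, le_div_iff₀ hθ]
  have h5 : (t - s) * (t ^ (-θ) / t) * θ = θ * (1 - s / t) * t ^ (-θ) := by
    field_simp
  rw [h5]
  linarith

private theorem A26_step {θ s t : ℝ} (hθ : 0 < θ) (hs : 0 ≤ s) (hst : s < t) :
    (t - s) * min 1 (t ^ (-(1 + θ))) ≤ A26_F θ t - A26_F θ s := by
  have ht0 : 0 < t := lt_of_le_of_lt hs hst
  have hmp : 0 ≤ min 1 (t ^ (-(1 + θ))) := le_min zero_le_one (Real.rpow_nonneg ht0.le _)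
  rcases le_or_gt t 1 with ht | ht
  · unfold A26_F
    rw [if_pos ht, if_pos (hst.le.trans ht)]
    calc (t - s) * min 1 (t ^ (-(1 + θ))) ≤ (t - s) * 1 :=
          mul_le_mul_of_nonneg_left (min_le_left _ _) (by linarith)
      _ = t - s := mul_one _
  · have hFt : A26_F θ t = 1 + (1 - t ^ (-θ)) / θ := if_neg (not_le.2 ht)
    rcases le_or_gt s 1 with hs1 | hs1
    · have hFs : A26_F θ s = s := if_pos hs1
      have h1 := A26_inc hθ (le_refl (1 : ℝ)) ht.le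
      rw [Real.one_rpow, sub_self, zero_div, add_zero] at h1
      have h2 : (t - 1) * min 1 (t ^ (-(1 + θ))) ≤ (t - 1) * t ^ (-(1 + θ)) :=
        mul_le_mul_of_nonneg_left (min_le_right _ _) (by linarith)
      have h3 : (1 - s) * min 1 (t ^ (-(1 + θ))) ≤ (1 - s) * 1 :=
        mul_le_mul_of_nonneg_left (min_le_left _ _) (by linarith)
      rw [hFt, hFs]
      have h4 : (t - s) * min 1 (t ^ (-(1 + θ))) = (t - 1) * min 1 (t ^ (-(1 + θ))) +
          (1 - s) * min 1 (t ^ (-(1 + θ))) := by ring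
      rw [h4]
      linarith
    · have hFs : A26_F θ s = 1 + (1 - s ^ (-θ)) / θ := if_neg (not_le.2 hs1)
      rw [hFt, hFs]
      exact (mul_le_mul_of_nonneg_left (min_le_right _ _) (by linarith)).trans
        (A26_inc hθ hs1.le hst.le)

private theorem A26_F_le {θ t : ℝ} (hθ : 0 < θ) (ht : 0 ≤ t) : A26_F θ t ≤ 1 + 1 / θ := by
  unfold A26_F
  split_ifs with h
  · have : 0 < 1 / θ := by positivity
    linarith
  · have h1 : (1 - t ^ (-θ)) / θ ≤ 1 / θ :=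
      div_le_div_of_nonneg_right (by linarith [Real.rpow_nonneg ht (-θ)]) hθ.le
    linarith

/-- PROOF. `θ = (p-1)/2 > 0`. The terms with `m L ≤ 1` contribute at most `L · (1/L) = 1`. The terms with `m L > 1`:
`L (m L)^{-(1+θ)} ≤ ∫_{(m-1) L}^{m L} …`: `∑_{m > 1/L} L (m L)^{-(1+θ)} ≤ L + ∫_1^∞ t^{-(1+θ)} dt = L + 1/θ`. -/
theorem scale_sum {θ : ℝ} (hθ : 0 < θ) : ∃ K : ℝ, 1 ≤ K ∧ ∀ L : ℝ, 0 < L → L ≤ 1 → ∀ M : ℕ,
    ∑ m ∈ Finset.range M, L * min 1 ((((m + 1 : ℕ) : ℝ) * L) ^ (-(1 + θ))) ≤ K := by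
  refine ⟨1 + 1 / θ, by have : 0 < 1 / θ := by positivity
                        linarith, fun L hL _ M => ?_⟩
  have h1 : ∀ m ∈ Finset.range M, L * min 1 ((((m + 1 : ℕ) : ℝ) * L) ^ (-(1 + θ))) ≤
      A26_F θ (((m + 1 : ℕ) : ℝ) * L) - A26_F θ ((m : ℝ) * L) := by
    intro m _
    have h2 := A26_step (θ := θ) (s := (m : ℝ) * L) (t := ((m + 1 : ℕ) : ℝ) * L) hθ (by positivity)
      (by push_cast; nlinarith)
    have h3 : ((m + 1 : ℕ) : ℝ) * L - (m : ℝ) * L = L := by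
      push_cast
      ring
    rwa [h3] at h2
  refine (Finset.sum_le_sum h1).trans ?_
  rw [Finset.sum_range_sub (fun m : ℕ => A26_F θ ((m : ℝ) * L))]
  have h2 : A26_F θ (((0 : ℕ) : ℝ) * L) = 0 := by
    unfold A26_F
    simp
  rw [h2, sub_zero]
  exact A26_F_le hθ (by positivity)

/-- `c ≤ n Lam y`, `m Lam y' ≤ M`, `n ≤ m`, then `y ≤ K y'`. PROOF. Let `y > y'`: `Lam y ≤ K₁ (y/y')^{-p} Lam y'` (`Reg.all`), so
`c/n ≤ K₁ (y/y')^{-p} M/m`, `(y/y')^p ≤ K₁ M/c · (n/m) ≤ K₁ M/c`. -/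
theorem Reg.scale_mono (h : Reg ρ p C x₀) {c M : ℝ} (hc : 0 < c) (hM : 0 < M) : ∃ K : ℝ, 1 ≤ K ∧
    ∀ (n m : ℕ) (y y' : ℝ), 1 ≤ n → n ≤ m → 1 ≤ y → 1 ≤ y' → c ≤ n * Lam ρ y → m * Lam ρ y' ≤ M →
      y ≤ K * y' := by
  obtain ⟨K₁, hK₁, hall⟩ := h.all
  have hp1 := h.p1
  refine ⟨max 1 (K₁ * M / c), le_max_left _ _, fun n m y y' hn hnm hy hy' h1 h2 => ?_⟩
  have hy'0 : 0 < y' := by linarith
  rcases le_or_gt y y' with hyy | hyy
  · calc y ≤ 1 * y' := by linarith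
      _ ≤ max 1 (K₁ * M / c) * y' := mul_le_mul_of_nonneg_right (le_max_left _ _) hy'0.le
  set r : ℝ := y / y' with hr
  have hr1 : 1 ≤ r := (one_le_div hy'0).2 hyy.le
  have hr0 : 0 < r := by linarith
  have hry : r * y' = y := div_mul_cancel₀ _ hy'0.ne'
  have h3 := hall y' hy' r hr1
  rw [hry] at h3
  have hLy' : 0 ≤ Lam ρ y' := Lam_nonneg ρ y'
  have hrp : 0 < r ^ (-p) := Real.rpow_pos_of_pos hr0 _
  have hnm' : (n : ℝ) ≤ m := by exact_mod_cast hnm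
  have h4 : c ≤ K₁ * r ^ (-p) * M := by
    calc c ≤ n * Lam ρ y := h1
      _ ≤ n * (K₁ * r ^ (-p) * Lam ρ y') := mul_le_mul_of_nonneg_left h3 (Nat.cast_nonneg n)
      _ = K₁ * r ^ (-p) * (n * Lam ρ y') := by ring
      _ ≤ K₁ * r ^ (-p) * (m * Lam ρ y') :=
        mul_le_mul_of_nonneg_left (mul_le_mul_of_nonneg_right hnm' hLy') (by positivity)
      _ ≤ K₁ * r ^ (-p) * M := mul_le_mul_of_nonneg_left h2 (by positivity)
  have h5 : r ≤ r ^ p := by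
    have := Real.rpow_le_rpow_of_exponent_le hr1 hp1.le
    rwa [Real.rpow_one] at this
  have h6 : r ^ p ≤ K₁ * M / c := by
    rw [le_div_iff₀ hc]
    have h7 : r ^ p * r ^ (-p) = 1 := by
      rw [← Real.rpow_add hr0]
      simp
    have h8 : r ^ p * c ≤ r ^ p * (K₁ * r ^ (-p) * M) :=
      mul_le_mul_of_nonneg_left h4 (Real.rpow_nonneg hr0.le _)
    calc r ^ p * c ≤ r ^ p * (K₁ * r ^ (-p) * M) := h8
      _ = K₁ * M * (r ^ p * r ^ (-p)) := by ring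
      _ = K₁ * M := by rw [h7, mul_one]
  calc y = r * y' := hry.symm
    _ ≤ max 1 (K₁ * M / c) * y' :=
      mul_le_mul_of_nonneg_right ((h5.trans h6).trans (le_max_right _ _)) hy'0.le

end Pool.Agent.BPT
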