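import Pool.Agent.MP_99a865_pr.ST.A2

/-!
# [STB-A3] The characteristic function near zero
-/

open MeasureTheory ProbabilityTheory Filter Topology
open scoped ENNReal NNReal

namespace Pool.Agent.BPT

variable {D : Set ℝ} {ρ : Measure ℝ} {p C x₀ : ℝ}

/-- square of the modulus of a characteristic function -/
private theorem A3_norm [IsProbabilityMeasure ρ] (r : ℝ) :
    ∫ p : ℝ × ℝ, Real.cos (r * (p.1 - p.2)) ∂(ρ.prod ρ) = ‖charFun ρ r‖ ^ 2 := by
  have h1 : (∫ p : ℝ × ℝ, Complex.exp (r * p.1 * Complex.I) * Complex.exp (((-r : ℝ) : ℂ) * p.2 * Complex.I)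
      ∂(ρ.prod ρ)) = charFun ρ r * charFun ρ (-r) := by
    rw [charFun_apply_real, charFun_apply_real]
    exact integral_prod_mul (μ := ρ) (ν := ρ) (fun x : ℝ => Complex.exp (r * x * Complex.I))
      (fun x : ℝ => Complex.exp (((-r : ℝ) : ℂ) * x * Complex.I))
  rw [charFun_neg, Complex.mul_conj, Complex.normSq_eq_norm_sq] at h1
  have h2 : ∫ p : ℝ × ℝ, Real.cos (r * (p.1 - p.2)) ∂(ρ.prod ρ) =
      (∫ p : ℝ × ℝ, Complex.exp (r * p.1 * Complex.I) * Complex.exp (((-r : ℝ) : ℂ) * p.2 * Complex.I)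
      ∂(ρ.prod ρ)).re := by
    rw [← RCLike.re_eq_complex_re, ← integral_re]
    · apply integral_congr_ae
      refine ae_of_all _ fun p => ?_
      simp only [RCLike.re_eq_complex_re]
      rw [← Complex.exp_add]
      have : (r : ℂ) * p.1 * Complex.I + ((-r : ℝ) : ℂ) * p.2 * Complex.I =
          ((r * (p.1 - p.2) : ℝ) : ℂ) * Complex.I := by
        push_cast; ring
      rw [this, Complex.exp_ofReal_mul_I_re]
    · refine Integrable.mono' (integrable_const (1 : ℝ)) (by fun_prop) (ae_of_all _ fun p => ?_)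
      rw [norm_mul, ← Complex.ofReal_mul, ← Complex.ofReal_mul, Complex.norm_exp_ofReal_mul_I,
        Complex.norm_exp_ofReal_mul_I, one_mul]
  rw [h2, h1, Complex.ofReal_re]

private theorem A3_msb (y : ℝ) : MeasurableSet {x : ℝ | |x| ≤ y} :=
  measurableSet_le (by fun_prop) measurable_const

/-- the pointwise bound -/
private theorem A3_cos {t A x x' : ℝ} (htA : 2 * A * |t| ≤ Real.pi) (hx : |x| ≤ A) (hx' : |x'| ≤ A) :
    2 * t ^ 2 / Real.pi ^ 2 * (x - x') ^ 2 ≤ 1 - Real.cos (t * (x - x')) := by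
  have hpi := Real.pi_pos
  have hu : |t * (x - x')| ≤ Real.pi := by
    rw [abs_mul]
    have h1 : |x - x'| ≤ 2 * A := by
      calc |x - x'| ≤ |x| + |x'| := abs_sub _ _
        _ ≤ 2 * A := by linarith
    calc |t| * |x - x'| ≤ |t| * (2 * A) := mul_le_mul_of_nonneg_left h1 (abs_nonneg t)
      _ ≤ Real.pi := by linarith
  have h2 : 2 * t ^ 2 / Real.pi ^ 2 * (x - x') ^ 2 = 2 / Real.pi ^ 2 * |t * (x - x')| ^ 2 := by
    rw [sq_abs]
    ring
  rw [h2, ← Real.cos_abs]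
  have hu0 : 0 ≤ |t * (x - x')| := abs_nonneg _
  generalize |t * (x - x')| = u at hu hu0
  · have h3 : 2 / Real.pi * (u / 2) ≤ Real.sin (u / 2) := Real.mul_le_sin (by linarith) (by linarith)
    have h4 : Real.cos u = 1 - 2 * Real.sin (u / 2) ^ 2 := by
      have := Real.cos_sq' (u / 2)
      have h5 := Real.cos_two_mul (u / 2)
      rw [mul_div_cancel₀ u (two_ne_zero)] at h5
      rw [h5, this]
      ring
    have h5 : (2 / Real.pi * (u / 2)) ^ 2 ≤ Real.sin (u / 2) ^ 2 :=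
      pow_le_pow_left₀ (by positivity) h3 2
    have h6 : (2 / Real.pi * (u / 2)) ^ 2 = 1 / Real.pi ^ 2 * u ^ 2 := by
      field_simp
    rw [h6] at h5
    rw [h4]
    have h7 : 2 / Real.pi ^ 2 * u ^ 2 = 2 * (1 / Real.pi ^ 2 * u ^ 2) := by ring
    rw [h7]
    linarith

/-- Symmetrisation: lower bound for `1 - ‖φ‖²`. PROOF. With `u = cos (t·)`, `v = sin (t·)`,
`‖charFun ρ t‖^2 = (∫ cos (t x))^2 + (∫ sin (t x))^2`, and
`1 - ‖charFun ρ t‖^2 = ∫∫ (1 - cos (t (x - x'))) ∂ρ ∂ρ` (`cos (a-b) = cos a cos b + sin a sin b`, Fubini for bounded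
functions). On `|x|, |x'| ≤ A` with `2 A |t| ≤ π` we have `|t (x-x')| ≤ π` and
`1 - cos u ≥ 2 u²/π²` (`Real.one_sub_sq_div_two_le_cos` is the wrong direction; use `1 - cos u = 2 sin²(u/2)` and
`sin (u/2) ≥ (2/π)(u/2)` for `0 ≤ u ≤ π`, `Real.mul_le_sin`); the integrand is `≥ 0` everywhere. So
`1 - ‖φ(t)‖² ≥ (2 t²/π²) ∫∫_{|x|,|x'| ≤ A} (x - x')² = (2t²/π²) (2 ρ{|x| ≤ A} ∫_{|x|≤A} x² - 2 (∫_{|x| ≤ A} x)²)`. -/
theorem one_sub_charFun_ge [IsProbabilityMeasure ρ] {t A : ℝ} (hA : 0 < A)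
    (htA : 2 * A * |t| ≤ Real.pi) :
    4 * t ^ 2 / Real.pi ^ 2 * (ρ.real {x | |x| ≤ A} * (∫ x in {x | |x| ≤ A}, x ^ 2 ∂ρ) -
      (∫ x in {x | |x| ≤ A}, x ∂ρ) ^ 2) ≤ 1 - ‖charFun ρ t‖ ^ 2 := by
  have hpi := Real.pi_pos
  set E : Set ℝ := {x | |x| ≤ A} with hE
  have hEm : MeasurableSet E := A3_msb A
  have hEE : MeasurableSet (E ×ˢ E) := hEm.prod hEm
  set c : ℝ := 2 * t ^ 2 / Real.pi ^ 2 with hc
  have hc0 : 0 ≤ c := by positivity
  have hbx : ∀ x ∈ E, |x| ≤ A := fun x hx => hx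
  -- integrability on `E`
  have i1 : Integrable (fun x : ℝ => x) (ρ.restrict E) := by
    refine Integrable.mono' (integrable_const A) (by fun_prop) ?_
    filter_upwards [ae_restrict_mem hEm] with x hx using hbx x hx
  have i2 : Integrable (fun x : ℝ => x ^ 2) (ρ.restrict E) := by
    refine Integrable.mono' (integrable_const (A ^ 2)) (by fun_prop) ?_
    filter_upwards [ae_restrict_mem hEm] with x hx
    rw [Real.norm_of_nonneg (sq_nonneg x), ← sq_abs x]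
    exact pow_le_pow_left₀ (abs_nonneg x) (hbx x hx) 2
  have i0 : Integrable (fun _ : ℝ => (1 : ℝ)) (ρ.restrict E) := integrable_const _
  have e1 : ∫ q : ℝ × ℝ, (q.1 - q.2) ^ 2 ∂((ρ.restrict E).prod (ρ.restrict E)) =
      2 * (ρ.real E * ∫ x in E, x ^ 2 ∂ρ) - 2 * (∫ x in E, x ∂ρ) ^ 2 := by
    have j1 : Integrable (fun q : ℝ × ℝ => q.1 ^ 2 * 1) ((ρ.restrict E).prod (ρ.restrict E)) :=
      i2.mul_prod i0
    have j2 : Integrable (fun q : ℝ × ℝ => 1 * q.2 ^ 2) ((ρ.restrict E).prod (ρ.restrict E)) :=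
      i0.mul_prod i2
    have j3 : Integrable (fun q : ℝ × ℝ => q.1 * q.2) ((ρ.restrict E).prod (ρ.restrict E)) :=
      i1.mul_prod i1
    have k1 : ∫ q : ℝ × ℝ, q.1 ^ 2 * 1 ∂((ρ.restrict E).prod (ρ.restrict E)) =
        (∫ x in E, x ^ 2 ∂ρ) * ρ.real E := by
      rw [integral_prod_mul (μ := ρ.restrict E) (ν := ρ.restrict E) (fun x : ℝ => x ^ 2)
        (fun _ : ℝ => (1 : ℝ))]
      simp
    have k2 : ∫ q : ℝ × ℝ, 1 * q.2 ^ 2 ∂((ρ.restrict E).prod (ρ.restrict E)) =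
        ρ.real E * (∫ x in E, x ^ 2 ∂ρ) := by
      rw [integral_prod_mul (μ := ρ.restrict E) (ν := ρ.restrict E) (fun _ : ℝ => (1 : ℝ))
        (fun x : ℝ => x ^ 2)]
      simp
    have k3 : ∫ q : ℝ × ℝ, q.1 * q.2 ∂((ρ.restrict E).prod (ρ.restrict E)) =
        (∫ x in E, x ∂ρ) * (∫ x in E, x ∂ρ) :=
      integral_prod_mul (μ := ρ.restrict E) (ν := ρ.restrict E) (fun x : ℝ => x) (fun x : ℝ => x)
    have e2 : (fun q : ℝ × ℝ => (q.1 - q.2) ^ 2) =
        fun q : ℝ × ℝ => (q.1 ^ 2 * 1 + 1 * q.2 ^ 2) - 2 * (q.1 * q.2) := by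
      funext q
      ring
    have e3 := integral_sub (j1.add j2) (j3.const_mul 2)
    simp only [Pi.add_apply] at e3
    have e4 := integral_add j1 j2
    have e5 := integral_const_mul (μ := (ρ.restrict E).prod (ρ.restrict E)) (2 : ℝ)
      fun q : ℝ × ℝ => q.1 * q.2
    rw [k3] at e5
    rw [k1, k2] at e4
    rw [e2, e3, e4, e5]
    ring
  have hcosI : Integrable (fun q : ℝ × ℝ => Real.cos (t * (q.1 - q.2))) (ρ.prod ρ) := by
    refine Integrable.mono' (integrable_const (1 : ℝ)) (by fun_prop) (ae_of_all _ fun q => ?_)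
    exact Real.abs_cos_le_one _
  have hI : Integrable (fun q : ℝ × ℝ => 1 - Real.cos (t * (q.1 - q.2))) (ρ.prod ρ) :=
    (integrable_const _).sub hcosI
  have h1 : 1 - ‖charFun ρ t‖ ^ 2 = ∫ q : ℝ × ℝ, (1 - Real.cos (t * (q.1 - q.2))) ∂(ρ.prod ρ) := by
    rw [integral_sub (integrable_const _) hcosI, A3_norm]
    simp
  have h2 : ∫ q in E ×ˢ E, (1 - Real.cos (t * (q.1 - q.2))) ∂(ρ.prod ρ) ≤
      ∫ q : ℝ × ℝ, (1 - Real.cos (t * (q.1 - q.2))) ∂(ρ.prod ρ) :=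
    setIntegral_le_integral hI (ae_of_all _ fun q => sub_nonneg.2 (Real.cos_le_one _))
  have j4 : Integrable (fun q : ℝ × ℝ => c * (q.1 - q.2) ^ 2) ((ρ.restrict E).prod (ρ.restrict E)) := by
    have e2 : (fun q : ℝ × ℝ => c * (q.1 - q.2) ^ 2) =
        fun q : ℝ × ℝ => c * ((q.1 ^ 2 * 1 + 1 * q.2 ^ 2) - 2 * (q.1 * q.2)) := by
      funext q
      ring
    rw [e2]
    exact (((i2.mul_prod i0).add (i0.mul_prod i2)).sub ((i1.mul_prod i1).const_mul 2)).const_mul c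
  have h3 : ∫ q in E ×ˢ E, c * (q.1 - q.2) ^ 2 ∂(ρ.prod ρ) ≤
      ∫ q in E ×ˢ E, (1 - Real.cos (t * (q.1 - q.2))) ∂(ρ.prod ρ) := by
    refine setIntegral_mono_on ?_ hI.integrableOn hEE fun q hq => ?_
    · rw [IntegrableOn, ← Measure.prod_restrict]
      exact j4
    · exact A3_cos htA (hbx _ hq.1) (hbx _ hq.2)
  rw [← Measure.prod_restrict, integral_const_mul, e1] at h3
  rw [h1]
  refine le_trans (le_of_eq ?_) (h3.trans (by rw [Measure.prod_restrict]; exact h2))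
  rw [hc]
  ring

/-- PROOF. Let `K₁` be the constant of `Reg.all`, `M` that of `Reg.mom1`. Choose `K ≥ 2` with
`K₁ K^{-p} ≤ 1/2`. For `y ≥ 1`:
`y² Lam y = ∫_{|x| ≤ y} x² + y² ρ{|x| > y} ≤ ∫_{|x| ≤ K y} x² + y² ρ{|x| > K y}` (`y² ≤ x²` on `y < |x| ≤ K y`), and
`ρ{|x| > Ky} ≤ Lam (K y) ≤ Lam y / 2`, so (1) `∫_{|x| ≤ K y} x² ≥ y² Lam y / 2`. As `ρ` is centred
`|∫_{|x| ≤ Ky} x| = |∫_{|x| > Ky} x| ≤ M K y Lam (K y) ≤ M K y Lam y` (2).
By `Reg.tendsto` there is `y₁ ≥ 1` such that for `y ≥ y₁`: `Lam y ≤ 1/2` and `M² K² Lam y ≤ 1/8`. For such `y`, and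
`|t| = π/(2 K y)`, `one_sub_charFun_ge` with `A = K y` gives, as `ρ{|x| ≤ Ky} ≥ 1 - Lam y ≥ 1/2`,
`1 - ‖φ(t)‖² ≥ (4t²/π²) (1/4 - M²K² Lam y) y² Lam y ≥ (t² y²/(2π²)) Lam y = Lam y/(8 K²)`.
Here `y = π/(2K|t|) ≤ 1/|t|` (`2K ≥ 4 > π`), so `Lam y ≥ Lam (1/|t|)`. Finally `‖φ‖ ≤ √(1-u) ≤ exp (-u/2)` with
`u = Lam (1/|t|)/(8K²)`. So `c = 1/(16 K²)`, `t₀ = π/(2 K y₁)`. -/
theorem Reg.char (h : Reg ρ p C x₀) : ∃ c : ℝ, 0 < c ∧ ∃ t₀ : ℝ, 0 < t₀ ∧ ∀ t : ℝ, 0 < |t| → |t| ≤ t₀ →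
    ‖charFun ρ t‖ ≤ Real.exp (-(c * Lam ρ (1 / |t|))) := by
  have hp := h.cen.prob
  have hpi := Real.pi_pos
  have hpi4 := Real.pi_lt_four
  obtain ⟨K₁, hK₁, hR⟩ := h.all
  obtain ⟨M, hM, hmom⟩ := h.mom1
  have hp1 := h.p1
  set K : ℝ := 2 * K₁ with hK
  have hK2 : 2 ≤ K := by linarith
  have hK0 : 0 < K := by linarith
  have hKp : K₁ * K ^ (-p) ≤ 1 / 2 := by
    have h1 : K ^ (-p) ≤ K⁻¹ := by
      rw [← Real.rpow_neg_one]
      exact Real.rpow_le_rpow_of_exponent_le (by linarith) (by linarith)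
    calc K₁ * K ^ (-p) ≤ K₁ * K⁻¹ := mul_le_mul_of_nonneg_left h1 (by linarith)
      _ = 1 / 2 := by
        rw [hK]
        field_simp
  -- the estimate (K y)
  have hLK : ∀ y : ℝ, 1 ≤ y → Lam ρ (K * y) ≤ Lam ρ y / 2 := by
    intro y hy
    have h1 := hR y hy K (by linarith)
    have h2 := mul_le_mul_of_nonneg_right hKp (Lam_nonneg ρ y)
    linarith
  -- (1)
  have h1 : ∀ y : ℝ, 1 ≤ y → y ^ 2 * Lam ρ y / 2 ≤ ∫ x in {x | |x| ≤ K * y}, x ^ 2 ∂ρ := by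
    intro y hy
    have hy0 : 0 < y := by linarith
    have hEm : MeasurableSet {x : ℝ | |x| ≤ K * y} := A3_msb _
    have hFm : MeasurableSet {x : ℝ | K * y ≤ |x|} := measurableSet_le measurable_const (by fun_prop)
    have i1 : Integrable ({x : ℝ | |x| ≤ K * y}.indicator fun x => x ^ 2) ρ := by
      refine Integrable.of_bound ((by fun_prop : Measurable fun x : ℝ => x ^ 2).indicator
        hEm).aestronglyMeasurable ((K * y) ^ 2) (Eventually.of_forall fun x => ?_)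
      by_cases hx : x ∈ {x : ℝ | |x| ≤ K * y}
      · rw [Set.indicator_of_mem hx]
        have hx' : |x| ≤ K * y := hx
        rw [Real.norm_of_nonneg (sq_nonneg x), ← sq_abs x]
        exact pow_le_pow_left₀ (abs_nonneg x) hx' 2
      · rw [Set.indicator_of_notMem hx, norm_zero]
        positivity
    have i2 : Integrable ({x : ℝ | K * y ≤ |x|}.indicator fun _ => y ^ 2) ρ :=
      (integrable_const _).indicator hFm
    have i3 : Integrable (fun x : ℝ => min (1 : ℝ) ((x / y) ^ 2)) ρ := by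
      refine Integrable.of_bound (by fun_prop : Measurable fun x : ℝ =>
        min (1 : ℝ) ((x / y) ^ 2)).aestronglyMeasurable 1 (Eventually.of_forall fun x => ?_)
      rw [Real.norm_of_nonneg (le_min zero_le_one (sq_nonneg _))]
      exact min_le_left _ _
    have h2 : y ^ 2 * Lam ρ y ≤ ∫ x, ({x : ℝ | |x| ≤ K * y}.indicator (fun x => x ^ 2) x +
        {x : ℝ | K * y ≤ |x|}.indicator (fun _ => y ^ 2) x) ∂ρ := by
      unfold Lam
      rw [← integral_const_mul]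
      refine integral_mono (i3.const_mul _) (i1.add i2) fun x => ?_
      show y ^ 2 * min (1 : ℝ) ((x / y) ^ 2) ≤ {x : ℝ | |x| ≤ K * y}.indicator (fun x => x ^ 2) x +
        {x : ℝ | K * y ≤ |x|}.indicator (fun _ => y ^ 2) x
      rw [mul_min_of_nonneg _ _ (sq_nonneg y)]
      rcases le_or_gt |x| (K * y) with hx | hx
      · rw [Set.indicator_of_mem (show x ∈ {x : ℝ | |x| ≤ K * y} from hx)]
        have h3 : 0 ≤ {x : ℝ | K * y ≤ |x|}.indicator (fun _ => y ^ 2) x :=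
          Set.indicator_nonneg (fun _ _ => sq_nonneg y) x
        have h4 : y ^ 2 * (x / y) ^ 2 = x ^ 2 := by field_simp
        have h5 := min_le_right (y ^ 2 * 1) (y ^ 2 * (x / y) ^ 2)
        linarith [h5, h3, h4]
      · rw [Set.indicator_of_mem (show x ∈ {x : ℝ | K * y ≤ |x|} from hx.le)]
        have h3 : 0 ≤ {x : ℝ | |x| ≤ K * y}.indicator (fun x => x ^ 2) x :=
          Set.indicator_nonneg (fun _ _ => sq_nonneg _) x
        have h5 := min_le_left (y ^ 2 * 1) (y ^ 2 * (x / y) ^ 2)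
        linarith [h5, h3]
    rw [integral_add i1 i2, integral_indicator hEm, integral_indicator_const _ hFm] at h2
    have h3 := tail_le_Lam (ρ := ρ) (y := K * y) (by positivity)
    have h4 := hLK y hy
    have h5 : ρ.real {x : ℝ | K * y ≤ |x|} * y ^ 2 ≤ Lam ρ y / 2 * y ^ 2 :=
      mul_le_mul_of_nonneg_right (h3.trans h4) (sq_nonneg y)
    simp only [smul_eq_mul] at h2
    linarith
  -- (2)
  have h2 : ∀ y : ℝ, 1 ≤ y → |∫ x in {x | |x| ≤ K * y}, x ∂ρ| ≤ M * (K * y) * Lam ρ y := by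
    intro y hy
    have hy0 : 0 < y := by linarith
    have hEm : MeasurableSet {x : ℝ | |x| ≤ K * y} := A3_msb _
    have hFm : MeasurableSet {x : ℝ | K * y ≤ |x|} := measurableSet_le measurable_const (by fun_prop)
    have h3 := integral_add_compl hEm h.cen.int
    rw [h.cen.mean] at h3
    have h4 : ∫ x in {x | |x| ≤ K * y}, x ∂ρ = -∫ x in {x | |x| ≤ K * y}ᶜ, x ∂ρ := by linarith
    rw [h4, abs_neg]
    calc |∫ x in {x | |x| ≤ K * y}ᶜ, x ∂ρ| ≤ ∫ x in {x | |x| ≤ K * y}ᶜ, |x| ∂ρ :=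
          abs_integral_le_integral_abs
      _ ≤ ∫ x in {x | K * y ≤ |x|}, |x| ∂ρ := by
          refine setIntegral_mono_set h.cen.int.abs.integrableOn
            (ae_of_all _ fun x => abs_nonneg x) (ae_of_all _ fun x hx => ?_)
          have hx' : ¬ |x| ≤ K * y := hx
          exact (not_le.1 hx').le
      _ ≤ M * (K * y * Lam ρ (K * y)) := hmom (K * y) (by nlinarith)
      _ ≤ M * (K * y * Lam ρ y) := by
          have h5 := hLK y hy
          have h6 := Lam_nonneg ρ y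
          apply mul_le_mul_of_nonneg_left _ (by linarith)
          apply mul_le_mul_of_nonneg_left _ (by positivity)
          linarith
      _ = M * (K * y) * Lam ρ y := by ring
  -- threshold
  have hε : 0 < min (1 / 2) (1 / (8 * (M ^ 2 * K ^ 2))) := by positivity
  obtain ⟨y₁, hy₁⟩ := eventually_atTop.1 (h.tendsto.eventually (gt_mem_nhds hε))
  set y₂ : ℝ := max 1 y₁ with hy₂
  have hy21 : 1 ≤ y₂ := le_max_left _ _
  refine ⟨1 / (16 * K ^ 2), by positivity, Real.pi / (2 * K * y₂), by positivity, fun t ht ht0 => ?_⟩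
  set y : ℝ := Real.pi / (2 * K * |t|) with hy
  have hy2 : y₂ ≤ y := by
    rw [hy, le_div_iff₀ (by positivity)]
    rw [le_div_iff₀ (by positivity)] at ht0
    linarith
  have hy1 : 1 ≤ y := hy21.trans hy2
  have hy0 : 0 < y := by linarith
  have hLy := hy₁ y ((le_max_right _ _).trans hy2)
  have hL0 := Lam_nonneg ρ y
  have hL1 : Lam ρ y ≤ 1 / 2 := hLy.le.trans (min_le_left _ _)
  have hL2 : M ^ 2 * K ^ 2 * Lam ρ y ≤ 1 / 8 := by
    have h3 := hLy.le.trans (min_le_right _ _)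
    rw [le_div_iff₀ (by positivity)] at h3
    linarith
  have hty : y * |t| = Real.pi / (2 * K) := by
    rw [hy]
    field_simp
  have h3 := one_sub_charFun_ge (ρ := ρ) (t := t) (A := K * y) (by positivity) (by
    have : 2 * (K * y) * |t| = 2 * K * (y * |t|) := by ring
    rw [this, hty]
    apply le_of_eq
    field_simp)
  have h4 : 1 / 2 ≤ ρ.real {x : ℝ | |x| ≤ K * y} := by
    have hEm : MeasurableSet {x : ℝ | |x| ≤ K * y} := A3_msb _
    have h5 := probReal_compl_eq_one_sub (μ := ρ) hEm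
    have h6 : ρ.real {x : ℝ | |x| ≤ K * y}ᶜ ≤ ρ.real {x : ℝ | K * y ≤ |x|} := by
      refine measureReal_mono (fun x hx => ?_) (measure_ne_top _ _)
      have hx' : ¬ |x| ≤ K * y := hx
      exact (not_le.1 hx').le
    have h7 := tail_le_Lam (ρ := ρ) (y := K * y) (by positivity)
    have h8 := hLK y hy1
    linarith
  have h5 := h1 y hy1
  have h6 := h2 y hy1
  have h7 : (∫ x in {x | |x| ≤ K * y}, x ∂ρ) ^ 2 ≤ (M * (K * y) * Lam ρ y) ^ 2 := by
    rw [← sq_abs]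
    exact pow_le_pow_left₀ (abs_nonneg _) h6 2
  have h8 : y ^ 2 * Lam ρ y / 8 ≤ ρ.real {x : ℝ | |x| ≤ K * y} *
      (∫ x in {x | |x| ≤ K * y}, x ^ 2 ∂ρ) - (∫ x in {x | |x| ≤ K * y}, x ∂ρ) ^ 2 := by
    have h9 : 1 / 2 * (y ^ 2 * Lam ρ y / 2) ≤ ρ.real {x : ℝ | |x| ≤ K * y} *
        (∫ x in {x | |x| ≤ K * y}, x ^ 2 ∂ρ) :=
      mul_le_mul h4 h5 (by positivity) (by positivity)
    have h10 : (M * (K * y) * Lam ρ y) ^ 2 = y ^ 2 * Lam ρ y * (M ^ 2 * K ^ 2 * Lam ρ y) := by ring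
    have h11 : y ^ 2 * Lam ρ y * (M ^ 2 * K ^ 2 * Lam ρ y) ≤ y ^ 2 * Lam ρ y * (1 / 8) :=
      mul_le_mul_of_nonneg_left hL2 (by positivity)
    linarith
  have h9 : 4 * t ^ 2 / Real.pi ^ 2 * (y ^ 2 * Lam ρ y / 8) = Lam ρ y / (8 * K ^ 2) := by
    have h10 : t ^ 2 * y ^ 2 = Real.pi ^ 2 / (4 * K ^ 2) := by
      have : t ^ 2 * y ^ 2 = (y * |t|) ^ 2 := by rw [mul_pow, sq_abs]; ring
      rw [this, hty]
      ring
    have h11 : 4 * t ^ 2 / Real.pi ^ 2 * (y ^ 2 * Lam ρ y / 8) =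
        (t ^ 2 * y ^ 2) * (Lam ρ y / (2 * Real.pi ^ 2)) := by ring
    rw [h11, h10]
    field_simp
    ring
  have h10 : Lam ρ y / (8 * K ^ 2) ≤ 1 - ‖charFun ρ t‖ ^ 2 := by
    rw [← h9]
    exact (mul_le_mul_of_nonneg_left h8 (by positivity)).trans h3
  have h11 : Lam ρ (1 / |t|) ≤ Lam ρ y := by
    apply Lam_anti hy0
    rw [le_div_iff₀ ht, hty, div_le_one (by positivity)]
    linarith
  have h12 : ‖charFun ρ t‖ ^ 2 ≤ Real.exp (-(1 / (16 * K ^ 2) * Lam ρ (1 / |t|))) ^ 2 := by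
    rw [← Real.exp_nat_mul]
    have h13 := Real.add_one_le_exp (((2 : ℕ) : ℝ) * -(1 / (16 * K ^ 2) * Lam ρ (1 / |t|)))
    have h14 : ((2 : ℕ) : ℝ) * -(1 / (16 * K ^ 2) * Lam ρ (1 / |t|)) =
        -(Lam ρ (1 / |t|) / (8 * K ^ 2)) := by
      push_cast
      field_simp
      ring
    rw [h14] at h13 ⊢
    have h15 : Lam ρ (1 / |t|) / (8 * K ^ 2) ≤ Lam ρ y / (8 * K ^ 2) :=
      div_le_div_of_nonneg_right h11 (by positivity)
    linarith
  exact (pow_le_pow_iff_left₀ (norm_nonneg _) (Real.exp_nonneg _) two_ne_zero).1 h12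

end Pool.Agent.BPT
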