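import Pool.Agent.MP_99a865_pr.ST.Defs
import Pool.Agent.MP_99a865_pr.FV.A3

/-!
# [STB-A4a] Esseen's concentration inequality
-/

open MeasureTheory ProbabilityTheory Filter Topology
open scoped ENNReal NNReal

namespace Pool.Agent.BPT

/-- PROOF (see `A3_main` in FV/A3.lean for the same argument with a gaussian bound). Let `δ = 1/w`. For
`u ∈ [0, w]`: `|∫_0^δ e^{itu} dt| ≥ ∫_0^δ cos (t u) dt ≥ δ cos 1 ≥ δ/2` (`0 ≤ t u ≤ 1`), so
`|∫_0^δ e^{itu} dt|² ≥ δ²/4`. Hence
`(δ²/4) μ(Ico z (z+w)) ≤ ∫ |∫_0^δ e^{it(s-z)} dt|² dμ(s) = ∫_0^δ ∫_0^δ e^{-i(t-t')z} φ(t-t') dt dt'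
≤ ∫_0^δ ∫_0^δ ‖φ(t-t')‖ dt dt' ≤ δ ∫_{-δ}^{δ} ‖φ(t)‖ dt`. -/
theorem esseen (μ : Measure ℝ) [IsProbabilityMeasure μ] (z w : ℝ) (hw : 0 < w) :
    μ.real (Set.Ico z (z + w)) ≤ 4 * w * ∫ t in (-(1 / w))..(1 / w), ‖charFun μ t‖ := by
  obtain ⟨δ, hδdef⟩ : ∃ δ : ℝ, δ = 1 / w := ⟨_, rfl⟩
  rw [← hδdef]
  have hδ : 0 < δ := by rw [hδdef]; positivity
  have hδw : δ * w = 1 := by rw [hδdef]; field_simp
  have hcont : Continuous (charFun μ) := by fun_prop
  set ν : Measure ℝ := volume.restrict (Set.Ioc 0 δ) with hν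
  haveI : IsFiniteMeasure ν := by
    rw [hν]
    exact ⟨by simp⟩
  let A : ℝ → ℂ := fun s => ∫ t, Complex.exp (t * s * Complex.I) ∂ν
  have hA : ∀ s : ℝ, ((‖A s‖ ^ 2 : ℝ) : ℂ) =
      ∫ p : ℝ × ℝ, Complex.exp ((p.1 - p.2 : ℝ) * s * Complex.I) ∂(ν.prod ν) := by
    intro s
    have h1 : (fun p : ℝ × ℝ => Complex.exp ((p.1 - p.2 : ℝ) * s * Complex.I)) =
        fun p : ℝ × ℝ => Complex.exp (p.1 * s * Complex.I) *
          (starRingEnd ℂ) (Complex.exp (p.2 * s * Complex.I)) := by
      funext p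
      rw [← Complex.exp_conj, ← Complex.exp_add]
      congr 1
      simp only [map_mul, Complex.conj_ofReal, Complex.conj_I]
      push_cast
      ring
    rw [h1, integral_prod_mul (fun t : ℝ => Complex.exp (t * s * Complex.I))
      (fun t : ℝ => (starRingEnd ℂ) (Complex.exp (t * s * Complex.I))), integral_conj,
      Complex.mul_conj, Complex.normSq_eq_norm_sq]
  -- lower bound
  have hlow : ∀ s : ℝ, |s| ≤ w → δ / 2 ≤ ‖A s‖ := by
    intro s hs
    have hre : (A s).re = ∫ t, Real.cos (t * s) ∂ν := by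
      have hint : Integrable (fun t : ℝ => Complex.exp (t * s * Complex.I)) ν := by
        refine Integrable.of_bound (C := 1) (by fun_prop) ?_
        refine Filter.Eventually.of_forall fun t => ?_
        have : (t : ℂ) * s * Complex.I = ((t * s : ℝ) : ℂ) * Complex.I := by push_cast; ring
        rw [this, Complex.norm_exp_ofReal_mul_I]
      have h2 := integral_re (𝕜 := ℂ) hint
      have h3 : (A s).re = ∫ t, RCLike.re (Complex.exp ((t : ℂ) * s * Complex.I)) ∂ν := by
        rw [h2]
        rfl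
      rw [h3]
      refine integral_congr_ae (Filter.Eventually.of_forall fun t => ?_)
      have : (t : ℂ) * s * Complex.I = ((t * s : ℝ) : ℂ) * Complex.I := by push_cast; ring
      show RCLike.re (Complex.exp ((t : ℂ) * s * Complex.I)) = _
      rw [this]
      exact Complex.exp_ofReal_mul_I_re _
    have h4 : δ / 2 ≤ ∫ t, Real.cos (t * s) ∂ν := by
      have h5 : ∫ t, (1 / 2 : ℝ) ∂ν = δ / 2 := by
        rw [integral_const, hν, measureReal_restrict_apply_univ, Real.volume_real_Ioc, sub_zero,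
          max_eq_left hδ.le, smul_eq_mul]
        ring
      rw [← h5]
      refine integral_mono_ae (integrable_const _) ?_ ?_
      · refine Integrable.of_bound (C := 1) (by fun_prop) ?_
        exact Filter.Eventually.of_forall fun t => by
          rw [Real.norm_eq_abs]
          exact Real.abs_cos_le_one _
      · rw [hν]
        refine (ae_restrict_iff' measurableSet_Ioc).2 (Filter.Eventually.of_forall fun t ht => ?_)
        have h6 := Real.one_sub_sq_div_two_le_cos (x := t * s)
        have h7 : (t * s) ^ 2 ≤ 1 := by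
          rw [← sq_abs, abs_mul]
          refine pow_le_one₀ (by positivity) ?_
          have h8 : |t| ≤ δ := by
            rw [abs_of_pos ht.1]
            exact ht.2
          calc |t| * |s| ≤ δ * w := mul_le_mul h8 hs (abs_nonneg s) hδ.le
            _ = 1 := hδw
        show (1 / 2 : ℝ) ≤ Real.cos (t * s)
        linarith
    calc δ / 2 ≤ (A s).re := by rw [hre]; exact h4
      _ ≤ ‖A s‖ := Complex.re_le_norm _
  -- measurability and boundedness of `A`
  have hAint : Integrable (fun x : ℝ => ‖A (x - z)‖ ^ 2) μ := by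
    have hAm : StronglyMeasurable A := by
      have : StronglyMeasurable (fun q : ℝ × ℝ => Complex.exp (q.2 * q.1 * Complex.I)) := by
        apply Continuous.stronglyMeasurable
        fun_prop
      exact this.integral_prod_right
    refine Integrable.of_bound (C := δ ^ 2)
      (((hAm.comp_measurable (measurable_id.sub_const z)).norm.pow 2).aestronglyMeasurable) ?_
    refine Filter.Eventually.of_forall fun x => ?_
    rw [Real.norm_eq_abs, abs_of_nonneg (by positivity)]
    refine pow_le_pow_left₀ (norm_nonneg _) ?_ 2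
    have h1 : ‖A (x - z)‖ ≤ 1 * ν.real Set.univ := by
      refine norm_integral_le_of_norm_le_const (Filter.Eventually.of_forall fun t => ?_)
      have : (t : ℂ) * ((x - z : ℝ) : ℂ) * Complex.I = ((t * (x - z) : ℝ) : ℂ) * Complex.I := by
        push_cast; ring
      rw [this, Complex.norm_exp_ofReal_mul_I]
    rw [hν, measureReal_restrict_apply_univ, Real.volume_real_Ioc, sub_zero,
      max_eq_left hδ.le, one_mul] at h1
    exact h1
  -- the integral
  have hI : ((∫ x, ‖A (x - z)‖ ^ 2 ∂μ : ℝ) : ℂ) =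
      ∫ p : ℝ × ℝ, Complex.exp (-((p.1 - p.2 : ℝ) * z * Complex.I)) * charFun μ (p.1 - p.2)
        ∂(ν.prod ν) := by
    rw [← integral_complex_ofReal]
    simp only [hA]
    rw [integral_integral_swap]
    · refine integral_congr_ae (Filter.Eventually.of_forall fun p => ?_)
      show ∫ x, Complex.exp ((p.1 - p.2 : ℝ) * ((x - z : ℝ) : ℂ) * Complex.I) ∂μ =
        Complex.exp (-((p.1 - p.2 : ℝ) * z * Complex.I)) * charFun μ (p.1 - p.2)
      rw [charFun_apply_real, ← integral_const_mul]
      refine integral_congr_ae (Filter.Eventually.of_forall fun x => ?_)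
      beta_reduce
      rw [← Complex.exp_add]
      congr 1
      push_cast
      ring
    · refine Integrable.of_bound (C := 1) ?_ ?_
      · apply Continuous.aestronglyMeasurable
        fun_prop
      · refine Filter.Eventually.of_forall fun q => ?_
        show ‖Complex.exp ((q.2.1 - q.2.2 : ℝ) * ((q.1 - z : ℝ) : ℂ) * Complex.I)‖ ≤ 1
        rw [← Complex.ofReal_mul, Complex.norm_exp_ofReal_mul_I]
  have hup : ∫ x, ‖A (x - z)‖ ^ 2 ∂μ ≤ δ * ∫ t in (-δ)..δ, ‖charFun μ t‖ := by
    have h1 : ∫ x, ‖A (x - z)‖ ^ 2 ∂μ = ‖((∫ x, ‖A (x - z)‖ ^ 2 ∂μ : ℝ) : ℂ)‖ := by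
      rw [Complex.norm_real, Real.norm_eq_abs, abs_of_nonneg (integral_nonneg fun x => by positivity)]
    rw [h1, hI]
    have hgint : Integrable (fun p : ℝ × ℝ => ‖charFun μ (p.1 - p.2)‖) (ν.prod ν) := by
      refine Integrable.of_bound (C := 1) ?_ ?_
      · apply Continuous.aestronglyMeasurable
        fun_prop
      · refine Filter.Eventually.of_forall fun q => ?_
        rw [norm_norm]
        exact norm_charFun_le_one _
    calc ‖∫ p : ℝ × ℝ, Complex.exp (-((p.1 - p.2 : ℝ) * z * Complex.I)) *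
          charFun μ (p.1 - p.2) ∂(ν.prod ν)‖
        ≤ ∫ p : ℝ × ℝ, ‖charFun μ (p.1 - p.2)‖ ∂(ν.prod ν) := by
          refine norm_integral_le_of_norm_le hgint ?_
          refine Filter.Eventually.of_forall fun p => ?_
          have h2 : -((p.1 - p.2 : ℝ) * (z : ℂ) * Complex.I) =
              ((-((p.1 - p.2) * z) : ℝ) : ℂ) * Complex.I := by push_cast; ring
          rw [norm_mul, h2, Complex.norm_exp_ofReal_mul_I, one_mul]
      _ = ∫ t, ∫ u, ‖charFun μ (t - u)‖ ∂ν ∂ν := integral_prod _ hgint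
      _ ≤ ∫ t, (∫ v in (-δ)..δ, ‖charFun μ v‖) ∂ν := by
          refine integral_mono_ae hgint.integral_prod_left (integrable_const _) ?_
          rw [hν]
          refine (ae_restrict_iff' measurableSet_Ioc).2 (Filter.Eventually.of_forall fun t ht => ?_)
          show ∫ u in Set.Ioc 0 δ, ‖charFun μ (t - u)‖ ≤ ∫ v in (-δ)..δ, ‖charFun μ v‖
          rw [← intervalIntegral.integral_of_le hδ.le,
            intervalIntegral.integral_comp_sub_left (fun v => ‖charFun μ v‖) t]
          refine intervalIntegral.integral_mono_interval (by linarith [ht.1]) (by linarith)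
            (by linarith [ht.2]) (Filter.Eventually.of_forall fun v => norm_nonneg _) ?_
          exact (hcont.norm).intervalIntegrable _ _
      _ = δ * ∫ v in (-δ)..δ, ‖charFun μ v‖ := by
          rw [integral_const, hν, measureReal_restrict_apply_univ, Real.volume_real_Ioc, sub_zero,
            max_eq_left hδ.le, smul_eq_mul]
  have hfin : δ ^ 2 / 4 * μ.real (Set.Ico z (z + w)) ≤ ∫ x, ‖A (x - z)‖ ^ 2 ∂μ := by
    calc δ ^ 2 / 4 * μ.real (Set.Ico z (z + w))
        = ∫ x in Set.Ico z (z + w), δ ^ 2 / 4 ∂μ := by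
          rw [integral_const, measureReal_restrict_apply_univ, smul_eq_mul]
          ring
      _ ≤ ∫ x in Set.Ico z (z + w), ‖A (x - z)‖ ^ 2 ∂μ := by
          refine setIntegral_mono_on (integrable_const _).integrableOn hAint.integrableOn
            measurableSet_Ico ?_
          intro x hx
          have h8 := hlow (x - z) (by
            rw [abs_le]
            constructor <;> linarith [hx.1, hx.2])
          have h9 : δ ^ 2 / 4 = (δ / 2) ^ 2 := by ring
          rw [h9]
          exact pow_le_pow_left₀ (by positivity) h8 2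
      _ ≤ ∫ x, ‖A (x - z)‖ ^ 2 ∂μ :=
          setIntegral_le_integral hAint (Filter.Eventually.of_forall fun x => by positivity)
  have h10 := hfin.trans hup
  have h11 : μ.real (Set.Ico z (z + w)) = (4 * w ^ 2) * (δ ^ 2 / 4 * μ.real (Set.Ico z (z + w))) := by
    have : (4 * w ^ 2) * (δ ^ 2 / 4 * μ.real (Set.Ico z (z + w))) =
      (δ * w) ^ 2 * μ.real (Set.Ico z (z + w)) := by ring
    rw [this, hδw]
    ring
  rw [h11]
  calc (4 * w ^ 2) * (δ ^ 2 / 4 * μ.real (Set.Ico z (z + w)))
      ≤ (4 * w ^ 2) * (δ * ∫ t in (-δ)..δ, ‖charFun μ t‖) :=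
        mul_le_mul_of_nonneg_left h10 (by positivity)
    _ = 4 * w * (δ * w) * ∫ t in (-δ)..δ, ‖charFun μ t‖ := by ring
    _ = 4 * w * ∫ t in (-δ)..δ, ‖charFun μ t‖ := by rw [hδw, mul_one]

end Pool.Agent.BPT
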