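import Pool.Agent.MP_99a865_pr.ST.A3
import Pool.Agent.MP_99a865_pr.ST.A4a

/-!
# [STB-A4] Concentration of the free walk
-/

open MeasureTheory ProbabilityTheory Filter Topology
open scoped ENNReal NNReal

namespace Pool.Agent.BPT

variable {D : Set ℝ} {ρ : Measure ℝ} {p C x₀ : ℝ}

theorem A4_int {p y w : ℝ} (hp : 1 < p) (hw : 0 < w) (hwy : w ≤ y) :
    ∫ t in (1 / y)..(1 / w), (y * t) ^ (-p) ≤ 1 / (p - 1) * (1 / y) := by
  have hy : 0 < y := hw.trans_le hwy
  have hyw : 1 / y ≤ 1 / w := one_div_le_one_div_of_le hw hwy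
  have hy' : 0 < 1 / y := by positivity
  have h1 : ∫ t in (1 / y)..(1 / w), (y * t) ^ (-p) = ∫ t in (1 / y)..(1 / w), y ^ (-p) * t ^ (-p) := by
    refine intervalIntegral.integral_congr fun t ht => ?_
    rw [Set.uIcc_of_le hyw] at ht
    exact Real.mul_rpow hy.le (hy'.le.trans ht.1)
  rw [h1, intervalIntegral.integral_const_mul, integral_rpow (Or.inr ⟨by linarith, ?_⟩)]
  · have h2 : (-p + 1) = -(p - 1) := by ring
    have h3 : 0 < p - 1 := by linarith
    have h4 : (1 / y) ^ (-p + 1) = y ^ (p - 1) := by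
      rw [h2, one_div, Real.inv_rpow hy.le, Real.rpow_neg hy.le, inv_inv]
    have h5 : y ^ (-p) * y ^ (p - 1) = 1 / y := by
      rw [← Real.rpow_add hy]
      have : -p + (p - 1) = -1 := by ring
      rw [this, Real.rpow_neg_one, one_div]
    have h6 : 0 ≤ (1 / w) ^ (-p + 1) := Real.rpow_nonneg (by positivity) _
    have h7 : 0 < y ^ (-p) := Real.rpow_pos_of_pos hy _
    rw [h4]
    calc y ^ (-p) * (((1 / w) ^ (-p + 1) - y ^ (p - 1)) / (-p + 1))
        = 1 / (p - 1) * (y ^ (-p) * y ^ (p - 1)) - y ^ (-p) * (1 / w) ^ (-p + 1) / (p - 1) := by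
          rw [h2]
          field_simp
          ring
      _ ≤ 1 / (p - 1) * (y ^ (-p) * y ^ (p - 1)) := by
          have : 0 ≤ y ^ (-p) * (1 / w) ^ (-p + 1) / (p - 1) := by positivity
          linarith
      _ = _ := by rw [h5]
  · rw [Set.uIcc_of_le hyw]
    intro h0
    exact absurd h0.1 (not_le.2 hy')

theorem A4_core {p y w B : ℝ} (hp : 1 < p) (hw : 0 < w) (hwy : w ≤ y) {g : ℝ → ℝ} (hg : Continuous g)
    (heven : ∀ t, g (-t) = g t) (h1 : ∀ t, g t ≤ 1)
    (hB : ∀ t, 1 / y ≤ t → t ≤ 1 / w → g t ≤ B * (y * t) ^ (-p)) (hB0 : 0 ≤ B) :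
    ∫ t in (-(1 / w))..(1 / w), g t ≤ 2 * (1 / y) * (1 + B / (p - 1)) := by
  have hy : 0 < y := hw.trans_le hwy
  have hyw : 1 / y ≤ 1 / w := one_div_le_one_div_of_le hw hwy
  have hy' : 0 < 1 / y := by positivity
  have hii : ∀ a b : ℝ, IntervalIntegrable g volume a b := fun a b => hg.intervalIntegrable a b
  have e1 : ∫ t in (-(1 / w))..0, g t = ∫ t in (0 : ℝ)..(1 / w), g t := by
    have := intervalIntegral.integral_comp_neg (a := (0 : ℝ)) (b := 1 / w) g
    rw [neg_zero] at this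
    rw [← this]
    simp only [heven]
  have e2 : ∫ t in (-(1 / w))..(1 / w), g t = 2 * ∫ t in (0 : ℝ)..(1 / w), g t := by
    rw [← intervalIntegral.integral_add_adjacent_intervals (hii _ 0) (hii 0 _), e1]
    ring
  have e3 : ∫ t in (0 : ℝ)..(1 / w), g t =
      (∫ t in (0 : ℝ)..(1 / y), g t) + ∫ t in (1 / y)..(1 / w), g t :=
    (intervalIntegral.integral_add_adjacent_intervals (hii _ _) (hii _ _)).symm
  have e4 : ∫ t in (0 : ℝ)..(1 / y), g t ≤ 1 / y := by
    calc ∫ t in (0 : ℝ)..(1 / y), g t ≤ ∫ t in (0 : ℝ)..(1 / y), (1 : ℝ) :=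
          intervalIntegral.integral_mono_on hy'.le (hii _ _) (by simp) fun t _ => h1 t
      _ = 1 / y := by simp
  have e5 : ∫ t in (1 / y)..(1 / w), g t ≤ B * (1 / (p - 1) * (1 / y)) := by
    have hci : IntervalIntegrable (fun t : ℝ => (y * t) ^ (-p)) volume (1 / y) (1 / w) := by
      refine ContinuousOn.intervalIntegrable ?_
      refine ContinuousOn.rpow_const (by fun_prop) fun t ht => Or.inl ?_
      rw [Set.uIcc_of_le hyw] at ht
      have : 0 < t := hy'.trans_le ht.1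
      positivity
    calc ∫ t in (1 / y)..(1 / w), g t ≤ ∫ t in (1 / y)..(1 / w), B * (y * t) ^ (-p) :=
          intervalIntegral.integral_mono_on hyw (hii _ _) (hci.const_mul B) fun t ht => hB t ht.1 ht.2
      _ = B * ∫ t in (1 / y)..(1 / w), (y * t) ^ (-p) := by
          rw [intervalIntegral.integral_const_mul]
      _ ≤ B * (1 / (p - 1) * (1 / y)) := mul_le_mul_of_nonneg_left (A4_int hp hw hwy) hB0
  rw [e2, e3]
  calc 2 * ((∫ t in (0 : ℝ)..(1 / y), g t) + ∫ t in (1 / y)..(1 / w), g t)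
      ≤ 2 * (1 / y + B * (1 / (p - 1) * (1 / y))) := by linarith
    _ = _ := by ring

theorem A4_one (h : Reg ρ p C x₀) : ∃ w₀ : ℝ, 1 ≤ w₀ ∧ ∃ K : ℝ, 1 ≤ K ∧ ∀ n : ℕ, 1 ≤ n → ∀ y w : ℝ,
    w₀ ≤ w → w ≤ y → ∀ x z : ℝ,
      (fre ρ n x).real (Set.Ico z (z + w)) ≤ K * (w / y) * (1 + 1 / (n * Lam ρ y)) := by
  haveI := h.cen.prob
  obtain ⟨c, hc, t₀, ht₀, hchar⟩ := h.char
  obtain ⟨K₁, hK₁, hall⟩ := h.all
  have hp1 : 0 < p - 1 := by linarith [h.p1]
  refine ⟨max 1 (1 / t₀), le_max_left _ _, 8 * (1 + K₁ / (c * (p - 1))), ?_, ?_⟩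
  · have : 0 ≤ K₁ / (c * (p - 1)) := by positivity
    linarith
  intro n hn y w hw₀ hwy x z
  have hw1 : 1 ≤ w := (le_max_left _ _).trans hw₀
  have hwt : 1 / t₀ ≤ w := (le_max_right _ _).trans hw₀
  have hw : 0 < w := by linarith
  have hy : 0 < y := by linarith
  have hn' : (0 : ℝ) < n := by exact_mod_cast hn
  have hL : 0 < Lam ρ y := Lam_pos h.cen hy
  have hnorm : ∀ t : ℝ, ‖charFun (fre ρ n x) t‖ = ‖charFun ρ t‖ ^ n := by
    intro t
    rw [charFun_fre, norm_mul, norm_pow]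
    have h2 : (t : ℂ) * x * Complex.I = ((t * x : ℝ) : ℂ) * Complex.I := by push_cast; ring
    rw [h2, Complex.norm_exp_ofReal_mul_I, one_mul]
  have hes := esseen (fre ρ n x) z w hw
  have hcore := A4_core (p := p) (y := y) (w := w) (B := K₁ / (c * (n * Lam ρ y)))
    (g := fun t => ‖charFun (fre ρ n x) t‖) h.p1 hw hwy (by fun_prop)
    (fun t => by
      show ‖charFun (fre ρ n x) (-t)‖ = ‖charFun (fre ρ n x) t‖
      rw [charFun_neg, RCLike.norm_conj])
    (fun t => norm_charFun_le_one t) (fun t ht1 ht2 => by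
      show ‖charFun (fre ρ n x) t‖ ≤ _
      have ht : 0 < t := lt_of_lt_of_le (by positivity) ht1
      have htt : t ≤ t₀ := by
        have h3 : 1 / w ≤ t₀ := by
          rw [div_le_iff₀ hw]
          rw [div_le_iff₀ ht₀] at hwt
          linarith
        exact ht2.trans h3
      have hq := hchar t (abs_pos.2 ht.ne') (by rw [abs_of_pos ht]; exact htt)
      rw [abs_of_pos ht] at hq
      have ht1' : 1 ≤ 1 / t := by
        rw [le_div_iff₀ ht]
        have : t ≤ 1 / w := ht2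
        rw [le_div_iff₀ hw] at this
        nlinarith
      have hLt : 0 < Lam ρ (1 / t) := Lam_pos h.cen (by positivity)
      have hyt : 1 ≤ y * t := by
        rw [div_le_iff₀ hy] at ht1
        linarith
      have hr := hall (1 / t) ht1' (y * t) hyt
      have hyt' : y * t * (1 / t) = y := by field_simp
      rw [hyt'] at hr
      rw [hnorm]
      have hu : 0 < c * (n * Lam ρ (1 / t)) := by positivity
      calc ‖charFun ρ t‖ ^ n ≤ Real.exp (-(c * Lam ρ (1 / t))) ^ n :=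
            pow_le_pow_left₀ (norm_nonneg _) hq n
        _ = Real.exp (-(c * (n * Lam ρ (1 / t)))) := by
            rw [← Real.exp_nat_mul]
            congr 1
            ring
        _ ≤ 1 / (c * (n * Lam ρ (1 / t))) := by
            rw [Real.exp_neg, ← one_div]
            refine one_div_le_one_div_of_le hu ?_
            linarith [Real.add_one_le_exp (c * (n * Lam ρ (1 / t)))]
        _ ≤ K₁ / (c * (n * Lam ρ y)) * (y * t) ^ (-p) := by
            rw [div_mul_eq_mul_div, div_le_div_iff₀ hu (by positivity)]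
            calc 1 * (c * (n * Lam ρ y)) = c * n * Lam ρ y := by ring
              _ ≤ c * n * (K₁ * (y * t) ^ (-p) * Lam ρ (1 / t)) :=
                  mul_le_mul_of_nonneg_left hr (by positivity)
              _ = _ := by ring)
    (by positivity)
  have hcore' : ∫ t in (-(1 / w))..(1 / w), ‖charFun (fre ρ n x) t‖ ≤
      2 * (1 / y) * (1 + K₁ / (c * (n * Lam ρ y)) / (p - 1)) := hcore
  have hX : 0 ≤ 1 / (n * Lam ρ y) := by positivity
  have hQ : 0 ≤ K₁ / (c * (p - 1)) := by positivity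
  calc (fre ρ n x).real (Set.Ico z (z + w))
      ≤ 4 * w * ∫ t in (-(1 / w))..(1 / w), ‖charFun (fre ρ n x) t‖ := hes
    _ ≤ 4 * w * (2 * (1 / y) * (1 + K₁ / (c * (n * Lam ρ y)) / (p - 1))) :=
        mul_le_mul_of_nonneg_left hcore' (by positivity)
    _ = 8 * (w / y) * (1 + K₁ / (c * (p - 1)) * (1 / (n * Lam ρ y))) := by
        field_simp
        ring
    _ ≤ 8 * (w / y) * ((1 + K₁ / (c * (p - 1))) * (1 + 1 / (n * Lam ρ y))) := by
        refine mul_le_mul_of_nonneg_left ?_ (by positivity)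
        nlinarith
    _ = _ := by ring

/-- PROOF. `c, t₀` from `Reg.char`, `K₁` from `Reg.all`, `w₀ = max 1 (1/t₀)`. `‖charFun (fre ρ n x) t‖ = ‖charFun ρ t‖^n`
(`charFun_fre`).
(1) Let `w₀ ≤ w ≤ y`. For `|t| ≤ 1/y` bound the norm by `1`. For `1/y ≤ |t| ≤ 1/w` (`≤ t₀`):
`‖φ(t)‖^n ≤ exp (-(c n Lam (1/|t|))) ≤ 1/(c n Lam (1/|t|))` and, as `1/|t| ≥ w ≥ 1`, `y = (y|t|)(1/|t|)`, `y |t| ≥ 1`,
`Lam y ≤ K₁ (y|t|)^{-p} Lam (1/|t|)`. So `‖φ(t)‖^n ≤ (K₁/(c n Lam y)) (y|t|)^{-p}` and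
`∫_{-1/w}^{1/w} ‖φ‖^n ≤ 2/y + (2 K₁/(c n Lam y)) ∫_{1/y}^{1/w} (y t)^{-p} dt ≤ 2/y + (2 K₁/(c (p-1) n Lam y)) (1/y)`
(`∫_1^∞ u^{-p} du = 1/(p-1)`). With `esseen`: `≤ 8 (w/y)(1 + (K₁/(c(p-1)))/(n Lam y))`.
(2) `w₀ ≤ w`, `y < w`: the right side is `≥ K`, trivial for `K ≥ 1`.
(3) `1 ≤ w < w₀`: `Ico z (z+w) ⊆ Ico z (z+w₀)`, apply (1) or (2) with `w₀`, and `w₀ ≤ w₀ w`. -/
theorem Reg.conc (h : Reg ρ p C x₀) : ∃ K : ℝ, 1 ≤ K ∧ ∀ n : ℕ, 1 ≤ n → ∀ y : ℝ, 1 ≤ y → ∀ w : ℝ, 1 ≤ w →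
    ∀ x z : ℝ, (fre ρ n x).real (Set.Ico z (z + w)) ≤ K * (w / y) * (1 + 1 / (n * Lam ρ y)) := by
  haveI := h.cen.prob
  obtain ⟨w₀, hw₀, K, hK, hmain⟩ := A4_one h
  refine ⟨K * w₀, by nlinarith, ?_⟩
  intro n hn y hy w hw x z
  have hn' : (0 : ℝ) < n := by exact_mod_cast hn
  have hy0 : 0 < y := by linarith
  have hL : 0 < Lam ρ y := Lam_pos h.cen hy0
  have hX : 0 ≤ 1 / (n * Lam ρ y) := by positivity
  have hle : ∀ v : ℝ, w₀ ≤ v → (fre ρ n x).real (Set.Ico z (z + v)) ≤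
      K * (v / y) * (1 + 1 / (n * Lam ρ y)) := by
    intro v hv
    rcases le_or_gt v y with h1 | h1
    · exact hmain n hn y v hv h1 x z
    · have h2 : 1 ≤ v / y := by
        rw [le_div_iff₀ hy0]
        linarith
      calc (fre ρ n x).real (Set.Ico z (z + v)) ≤ 1 := measureReal_le_one
        _ ≤ v / y := h2
        _ ≤ K * (v / y) := by nlinarith
        _ = K * (v / y) * 1 := by ring
        _ ≤ K * (v / y) * (1 + 1 / (n * Lam ρ y)) := by
            refine mul_le_mul_of_nonneg_left (by linarith) (by positivity)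
  rcases le_or_gt w₀ w with h1 | h1
  · calc (fre ρ n x).real (Set.Ico z (z + w)) ≤ K * (w / y) * (1 + 1 / (n * Lam ρ y)) := hle w h1
      _ ≤ K * w₀ * (w / y) * (1 + 1 / (n * Lam ρ y)) := by
          refine mul_le_mul_of_nonneg_right ?_ (by positivity)
          refine mul_le_mul_of_nonneg_right ?_ (by positivity)
          nlinarith
  · calc (fre ρ n x).real (Set.Ico z (z + w)) ≤ (fre ρ n x).real (Set.Ico z (z + w₀)) := by
          refine measureReal_mono (Set.Ico_subset_Ico_right (by linarith)) (measure_ne_top _ _)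
      _ ≤ K * (w₀ / y) * (1 + 1 / (n * Lam ρ y)) := hle w₀ le_rfl
      _ ≤ K * w₀ * (w / y) * (1 + 1 / (n * Lam ρ y)) := by
          refine mul_le_mul_of_nonneg_right ?_ (by positivity)
          have : K * w₀ * (w / y) = K * (w₀ / y) * w := by ring
          rw [this]
          have h3 : 0 ≤ K * (w₀ / y) := by positivity
          nlinarith

end Pool.Agent.BPT
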