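import Pool.Agent.MP_99a865_pr.ST.A2
import Pool.Agent.MP_99a865_pr.FV.A4

/-!
# [STB-A5] Maximal inequality
-/

open MeasureTheory ProbabilityTheory Filter Topology
open scoped ENNReal NNReal

namespace Pool.Agent.BPT

variable {D : Set ℝ} {ρ : Measure ℝ} {p C x₀ : ℝ}

private theorem A5_meas (k : ℕ) (a : ℝ) : MeasurableSet {ω : ℕ → ℝ | ∃ j ≤ k, a ≤ |S j ω|} := by
  have e : {ω : ℕ → ℝ | ∃ j ≤ k, a ≤ |S j ω|} = ⋃ j ∈ Finset.range (k + 1), {ω | a ≤ |S j ω|} := by
    ext ω
    simp only [Set.mem_ofPred_eq, Set.mem_iUnion, Finset.mem_range, exists_prop, Nat.lt_succ_iff]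
  rw [e]
  exact Finset.measurableSet_biUnion _ fun j _ =>
    measurableSet_le measurable_const (measurable_abs.comp (measurable_S j))

private theorem A5_prob (ρ : Measure ℝ) [IsProbabilityMeasure ρ] : IsProbabilityMeasure (seqLaw ρ) := by
  unfold seqLaw
  infer_instance

private theorem A5_mp (ρ : Measure ℝ) [IsProbabilityMeasure ρ] (i : ℕ) :
    MeasurePreserving (fun ω : ℕ → ℝ => ω i) (seqLaw ρ) ρ :=
  ⟨measurable_pi_apply i, Measure.infinitePi_map_eval (fun _ => ρ) i⟩

/-- the law of the sequence `g (ω i)` -/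
private theorem A5_map (ρ : Measure ℝ) [IsProbabilityMeasure ρ] (g : ℝ → ℝ) (hg : Measurable g)
    {A : Set (ℕ → ℝ)} (hA : MeasurableSet A) :
    (seqLaw (ρ.map g)).real A = (seqLaw ρ).real {ω | (fun i => g (ω i)) ∈ A} := by
  have hm : Measurable fun (ω : ℕ → ℝ) (i : ℕ) => g (ω i) :=
    measurable_pi_lambda _ fun i => hg.comp (measurable_pi_apply i)
  rw [← map_seqLaw ρ g hg, map_measureReal_apply hm hA]
  rfl

/-- Kolmogorov's inequality for a centred bounded law. PROOF. If `s² = ∫ x² ∂ρ = 0` then `ρ = dirac 0`-a.s. all steps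
vanish and the left side is `0` (`a > 0`). Otherwise apply `kolm` to the law of `x/s` (`Std`), `map_seqLaw` and
`S j (ω/s) = S j ω/s`, at the level `a/s`. -/
theorem kolm_gen (ρ : Measure ℝ) [IsProbabilityMeasure ρ] (h2 : Integrable (fun x : ℝ => x ^ 2) ρ)
    (h0 : ∫ x, x ∂ρ = 0) (k : ℕ) (a : ℝ) (ha : 0 < a) :
    (seqLaw ρ).real {ω | ∃ j ≤ k, a ≤ |S j ω|} ≤ k * (∫ x, x ^ 2 ∂ρ) / a ^ 2 := by
  have hnn : 0 ≤ ∫ x, x ^ 2 ∂ρ := integral_nonneg fun x => sq_nonneg x
  rcases hnn.eq_or_lt with hs | hs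
  · -- degenerate law
    have h3 : (fun x : ℝ => x ^ 2) =ᵐ[ρ] 0 :=
      (integral_eq_zero_iff_of_nonneg (fun x => sq_nonneg x) h2).1 hs.symm
    have h4 : ∀ᵐ x ∂ρ, x = 0 := h3.mono fun x hx => by
      have : x ^ 2 = 0 := hx
      exact pow_eq_zero_iff (two_ne_zero) |>.1 this
    have h5 : ∀ᵐ ω ∂(seqLaw ρ), ∀ i : ℕ, ω i = 0 :=
      ae_all_iff.2 fun i => (A5_mp ρ i).quasiMeasurePreserving.ae h4
    have h6 : seqLaw ρ {ω | ∃ j ≤ k, a ≤ |S j ω|} = 0 := by
      refine measure_mono_null (fun ω hω => ?_) (ae_iff.1 h5)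
      obtain ⟨j, _, hj⟩ := hω
      intro h7
      have : S j ω = 0 := by
        unfold S
        exact Finset.sum_eq_zero fun i _ => h7 i
      rw [this, abs_zero] at hj
      linarith
    rw [measureReal_def, h6, ← hs]
    simp
  · set s : ℝ := √(∫ x, x ^ 2 ∂ρ) with hsd
    have hspos : 0 < s := Real.sqrt_pos.2 hs
    have hs2 : s ^ 2 = ∫ x, x ^ 2 ∂ρ := Real.sq_sqrt hnn
    have hg : Measurable fun x : ℝ => x / s := measurable_id.div_const _
    have hstd : Std (ρ.map fun x => x / s) := by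
      refine ⟨Measure.isProbabilityMeasure_map hg.aemeasurable, ?_, ?_, ?_⟩
      · refine (integrable_map_measure (g := fun x : ℝ => x ^ 2)
          (measurable_id.pow_const 2).aestronglyMeasurable hg.aemeasurable).2 ?_
        have : ((fun x : ℝ => x ^ 2) ∘ fun x => x / s) = fun x => x ^ 2 / s ^ 2 := by
          funext x
          simp [div_pow]
        rw [this]
        exact h2.div_const _
      · rw [integral_map (f := fun x : ℝ => x) hg.aemeasurable measurable_id.aestronglyMeasurable,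
          integral_div, h0, zero_div]
      · rw [integral_map (f := fun x : ℝ => x ^ 2) hg.aemeasurable
          (measurable_id.pow_const 2).aestronglyMeasurable]
        simp only [div_pow]
        rw [integral_div, hs2, div_self hs.ne']
    have h3 := kolm hstd k (a / s) (by positivity)
    rw [A5_map ρ _ hg (A5_meas k (a / s))] at h3
    have e : {ω : ℕ → ℝ | (fun i => ω i / s) ∈ {ω : ℕ → ℝ | ∃ j ≤ k, a / s ≤ |S j ω|}} =
        {ω | ∃ j ≤ k, a ≤ |S j ω|} := by
      ext ω
      have e1 : ∀ j, S j (fun i => ω i / s) = S j ω / s := fun j => by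
        unfold S
        rw [Finset.sum_div]
      simp only [Set.mem_ofPred_eq, e1, abs_div, abs_of_pos hspos]
      refine exists_congr fun j => and_congr_right fun _ => ?_
      exact div_le_div_iff_of_pos_right hspos
    rw [e] at h3
    refine h3.trans (le_of_eq ?_)
    rw [div_pow, hs2]
    field_simp

/-- **[STB-A5]** PROOF. Let `M` be the constant of `Reg.mom1`. If `n Lam y ≥ 1/(2M)` take `K ≥ 2M`. Otherwise truncate:
`g x = if |x| ≤ y then x else 0`, `m = ∫ g ∂ρ`; as `ρ` is centred `|m| = |∫_{|x|>y} x| ≤ M y Lam y`, so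
`n |m| ≤ y/2`. Let `ρ' = ρ.map (fun x => g x - m)`, centred, `∫ x² ∂ρ' ≤ ∫ g² ∂ρ ≤ y² Lam y` (`trunc_le_Lam`). If all
`|ω i| ≤ y` for `i < n` then `S j ω = S j ω' + j m` with `ω' i = g (ω i) - m`, `j ≤ n`, so `y ≤ |S j ω|` implies
`y/2 ≤ |S j ω'|`. Hence the probability is at most
`∑_{i<n} ρ{|x| > y} + (seqLaw ρ') {∃ j ≤ n, y/2 ≤ |S j|} ≤ n Lam y + n y² Lam y/(y/2)² = 5 n Lam y`
(`map_seqLaw`, `kolm_gen`, `tail_le_Lam`). -/
theorem Reg.maxi (h : Reg ρ p C x₀) : ∃ K : ℝ, 1 ≤ K ∧ ∀ n : ℕ, ∀ y : ℝ, 1 ≤ y →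
    (seqLaw ρ).real {ω | ∃ j ≤ n, y ≤ |S j ω|} ≤ K * (n * Lam ρ y) := by
  have := h.cen.prob
  have hps := A5_prob ρ
  obtain ⟨M, hM1, hM⟩ := h.mom1
  refine ⟨2 * M + 5, by linarith, fun n y hy => ?_⟩
  have hy0 : 0 < y := by linarith
  have hM0 : 0 < M := by linarith
  have hLn : 0 ≤ (n : ℝ) * Lam ρ y := mul_nonneg (Nat.cast_nonneg n) (Lam_nonneg ρ y)
  by_cases hbig : 1 / (2 * M) ≤ n * Lam ρ y
  · have h1 : 1 ≤ 2 * M * (n * Lam ρ y) := by
      rw [div_le_iff₀ (by positivity)] at hbig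
      linarith
    have h2 : (seqLaw ρ).real {ω | ∃ j ≤ n, y ≤ |S j ω|} ≤ 1 := measureReal_le_one
    nlinarith
  rw [not_le, lt_div_iff₀ (by positivity)] at hbig
  set g : ℝ → ℝ := fun x => if |x| ≤ y then x else 0 with hg
  have hset : MeasurableSet {x : ℝ | |x| ≤ y} := measurableSet_le measurable_abs measurable_const
  have hgm : Measurable g := Measurable.ite hset measurable_id measurable_const
  have hgb : ∀ x, |g x| ≤ y := by
    intro x
    rw [hg]
    dsimp only
    split_ifs with hx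
    · exact hx
    · rw [abs_zero]
      exact hy0.le
  have hgi : Integrable g ρ := Integrable.mono' (integrable_const y) hgm.aestronglyMeasurable
    (ae_of_all _ fun x => hgb x)
  set m : ℝ := ∫ x, g x ∂ρ with hm
  -- the mean of the truncated law
  have hmle : |m| ≤ M * (y * Lam ρ y) := by
    have h1 : m = ∫ x, (g x - x) ∂ρ := by
      rw [integral_sub hgi h.cen.int, h.cen.mean, sub_zero]
    have hset2 : MeasurableSet {x : ℝ | y ≤ |x|} := measurableSet_le measurable_const measurable_abs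
    rw [h1]
    refine abs_integral_le_integral_abs.trans ?_
    refine le_trans ?_ (hM y hy)
    rw [← integral_indicator hset2]
    refine integral_mono_of_nonneg (ae_of_all _ fun x => abs_nonneg _)
      (h.cen.int.abs.indicator hset2) (ae_of_all _ fun x => ?_)
    by_cases hx : |x| ≤ y
    · have e : g x = x := by rw [hg]; exact if_pos hx
      dsimp only
      rw [e, sub_self, abs_zero]
      exact Set.indicator_nonneg (fun _ _ => abs_nonneg _) _
    · have e : g x = 0 := by rw [hg]; exact if_neg hx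
      dsimp only
      rw [e, zero_sub, abs_neg, Set.indicator_of_mem (show x ∈ {x : ℝ | y ≤ |x|} from (not_le.1 hx).le)]
  have hnm : (n : ℝ) * |m| ≤ y / 2 := by
    have h1 : (n : ℝ) * |m| ≤ n * (M * (y * Lam ρ y)) :=
      mul_le_mul_of_nonneg_left hmle (Nat.cast_nonneg n)
    nlinarith
  set g' : ℝ → ℝ := fun x => g x - m with hg'
  have hgm' : Measurable g' := hgm.sub_const m
  have hgb' : ∀ x, |g' x| ≤ y + |m| := fun x => (abs_sub _ _).trans (add_le_add (hgb x) le_rfl)
  have hpr : IsProbabilityMeasure (ρ.map g') := Measure.isProbabilityMeasure_map hgm'.aemeasurable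
  have hi2 : Integrable (fun x => g' x ^ 2) ρ := by
    refine Integrable.mono' (integrable_const ((y + |m|) ^ 2)) (hgm'.pow_const 2).aestronglyMeasurable
      (ae_of_all _ fun x => ?_)
    rw [Real.norm_eq_abs, abs_of_nonneg (sq_nonneg _)]
    have := hgb' x
    exact sq_le_sq' (by linarith [neg_abs_le (g' x)]) (by linarith [le_abs_self (g' x)])
  have hmap2 : Integrable (fun x : ℝ => x ^ 2) (ρ.map g') :=
    (integrable_map_measure (g := fun x : ℝ => x ^ 2)
      (measurable_id.pow_const 2).aestronglyMeasurable hgm'.aemeasurable).2 hi2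
  have hmean : ∫ x, x ∂(ρ.map g') = 0 := by
    rw [integral_map (f := fun x : ℝ => x) hgm'.aemeasurable measurable_id.aestronglyMeasurable]
    rw [hg']
    dsimp only
    rw [integral_sub hgi (integrable_const _)]
    simp [hm]
  have hvar : ∫ x, x ^ 2 ∂(ρ.map g') ≤ y ^ 2 * Lam ρ y := by
    rw [integral_map (f := fun x : ℝ => x ^ 2) hgm'.aemeasurable
      (measurable_id.pow_const 2).aestronglyMeasurable]
    have hgi2 : Integrable (fun x => g x ^ 2) ρ := by
      refine Integrable.mono' (integrable_const (y ^ 2)) (hgm.pow_const 2).aestronglyMeasurable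
        (ae_of_all _ fun x => ?_)
      rw [Real.norm_eq_abs, abs_of_nonneg (sq_nonneg _)]
      have := hgb x
      exact sq_le_sq' (by linarith [neg_abs_le (g x)]) (by linarith [le_abs_self (g x)])
    have e1 : ∫ x, g' x ^ 2 ∂ρ = ∫ x, g x ^ 2 ∂ρ - m ^ 2 := by
      have e2 : ∀ x, g' x ^ 2 = g x ^ 2 - 2 * m * g x + m ^ 2 := fun x => by
        rw [hg']
        ring
      simp only [e2]
      have i1 : Integrable (fun x => g x ^ 2 - 2 * m * g x) ρ := hgi2.sub (hgi.const_mul _)
      rw [integral_add i1 (integrable_const _), integral_sub hgi2 (hgi.const_mul _),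
        integral_const_mul]
      simp only [integral_const, probReal_univ, one_smul]
      rw [← hm]
      ring
    have e3 : ∫ x, g x ^ 2 ∂ρ = ∫ x in {x | |x| ≤ y}, x ^ 2 ∂ρ := by
      rw [← integral_indicator hset]
      refine integral_congr_ae (ae_of_all _ fun x => ?_)
      by_cases hx : |x| ≤ y
      · have e : g x = x := by rw [hg]; exact if_pos hx
        dsimp only
        rw [e, Set.indicator_of_mem (show x ∈ {x : ℝ | |x| ≤ y} from hx)]
      · have e : g x = 0 := by rw [hg]; exact if_neg hx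
        dsimp only
        rw [e, Set.indicator_of_notMem (show x ∉ {x : ℝ | |x| ≤ y} from hx)]
        norm_num
    rw [e1, e3]
    have := trunc_le_Lam (ρ := ρ) hy0
    nlinarith [sq_nonneg m]
  have hk := kolm_gen (ρ.map g') hmap2 hmean n (y / 2) (by positivity)
  rw [A5_map ρ g' hgm' (A5_meas n (y / 2))] at hk
  have hk2 : (n : ℝ) * (∫ x, x ^ 2 ∂(ρ.map g')) / (y / 2) ^ 2 ≤ 4 * (n * Lam ρ y) := by
    rw [div_le_iff₀ (by positivity)]
    have h1 : (n : ℝ) * (∫ x, x ^ 2 ∂(ρ.map g')) ≤ n * (y ^ 2 * Lam ρ y) :=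
      mul_le_mul_of_nonneg_left hvar (Nat.cast_nonneg n)
    refine h1.trans (le_of_eq ?_)
    ring
  -- the large steps
  set E : ℕ → Set (ℕ → ℝ) := fun i => {ω | y ≤ |ω i|} with hE
  have hEi : ∀ i, (seqLaw ρ).real (E i) ≤ Lam ρ y := by
    intro i
    have hset2 : MeasurableSet {x : ℝ | y ≤ |x|} := measurableSet_le measurable_const measurable_abs
    have h1 : (seqLaw ρ).real (E i) = ρ.real {x | y ≤ |x|} := by
      have h2 := map_measureReal_apply (μ := seqLaw ρ) (f := fun ω : ℕ → ℝ => ω i)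
        (measurable_pi_apply i) hset2
      rw [(A5_mp ρ i).map_eq] at h2
      exact h2.symm
    rw [h1]
    exact tail_le_Lam hy0
  have hsub : {ω : ℕ → ℝ | ∃ j ≤ n, y ≤ |S j ω|} ⊆
      (⋃ i ∈ Finset.range n, E i) ∪
        {ω | (fun i => g' (ω i)) ∈ {ω : ℕ → ℝ | ∃ j ≤ n, y / 2 ≤ |S j ω|}} := by
    rintro ω ⟨j, hj, hjy⟩
    by_cases hall : ∃ i < n, y ≤ |ω i|
    · left
      obtain ⟨i, hi, hiy⟩ := hall
      exact Set.mem_biUnion (Finset.mem_coe.2 (Finset.mem_range.2 hi)) hiy
    · right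
      push Not at hall
      refine ⟨j, hj, ?_⟩
      have e : S j (fun i => g' (ω i)) = S j ω - j * m := by
        unfold S
        have e1 : ∀ i ∈ Finset.range j, g' (ω i) = ω i - m := by
          intro i hi
          have hi' : i < n := lt_of_lt_of_le (Finset.mem_range.1 hi) hj
          rw [hg', hg]
          dsimp only
          rw [if_pos (hall i hi').le]
        rw [Finset.sum_congr rfl e1, Finset.sum_sub_distrib]
        simp
      rw [e]
      have h1 : |(j : ℝ) * m| ≤ y / 2 := by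
        rw [abs_mul, abs_of_nonneg (Nat.cast_nonneg j)]
        refine le_trans ?_ hnm
        exact mul_le_mul_of_nonneg_right (by exact_mod_cast hj) (abs_nonneg m)
      have h2 := abs_sub_abs_le_abs_sub (S j ω) ((j : ℝ) * m)
      linarith
  calc (seqLaw ρ).real {ω | ∃ j ≤ n, y ≤ |S j ω|}
      ≤ (seqLaw ρ).real ((⋃ i ∈ Finset.range n, E i) ∪
        {ω | (fun i => g' (ω i)) ∈ {ω : ℕ → ℝ | ∃ j ≤ n, y / 2 ≤ |S j ω|}}) := measureReal_mono hsub
    _ ≤ (seqLaw ρ).real (⋃ i ∈ Finset.range n, E i) +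
        (seqLaw ρ).real {ω | (fun i => g' (ω i)) ∈ {ω : ℕ → ℝ | ∃ j ≤ n, y / 2 ≤ |S j ω|}} :=
        measureReal_union_le _ _
    _ ≤ ∑ i ∈ Finset.range n, (seqLaw ρ).real (E i) + 4 * (n * Lam ρ y) :=
        add_le_add (measureReal_biUnion_finset_le _ _) (hk.trans hk2)
    _ ≤ n * Lam ρ y + 4 * (n * Lam ρ y) := by
        refine add_le_add ?_ le_rfl
        refine (Finset.sum_le_sum fun i _ => hEi i).trans (le_of_eq ?_)
        simp
    _ ≤ (2 * M + 5) * (n * Lam ρ y) := by nlinarith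

end Pool.Agent.BPT
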