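import Pool.Agent.MP_99a865_pr.ST.Defs
import Pool.Agent.MP_99a865_pr.CV.K5
import Pool.Agent.MP_99a865_pr.CV.K11

/-!
# [STB-A7] The renewal functions `vr` and `vd`: elementary facts
-/

open MeasureTheory ProbabilityTheory Filter Topology
open scoped ENNReal NNReal

namespace Pool.Agent.BPT

variable {D : Set ℝ} {ρ τ : Measure ℝ} {p C x₀ : ℝ}

/-- Truncated Wald identity, lower bound. PROOF. As `wald_ge` (CV/K5.lean): with `c = ∫ min(h,a) ∂τ`, show
`z ≤ c W_R(z) + z · ww R z` for `0 ≤ z ≤ a` by induction on `R` (`W_R = ∑_{r<R} ww r`): `W_0 = 0`, `ww 0 = 1`; step: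
`c W_{R+1}(z) + z ww (R+1) z ≥ c + ∫_{z-h∈D} (z - h)` (`sum_ww_rec`, for `h ≥ 0` one has `z - h ≤ z`), and
`c ≥ ∫_{z-h∈D} h + ∫_{z-h∉D} z` (`h ≤ z ≤ a` in the first case, `h ≥ z`, `a ≥ z` in the second), so the total is
`≥ z τ(univ) = z`. As `VT z < ∞`, `ww R z → 0`. -/
theorem wald_trunc (hD : Dom D) (h1 : τ Set.univ = 1) (h0 : τ (Set.Iio 0) = 0) (z a : ℝ) (hz : 0 ≤ z)
    (ha : z ≤ a) (hfin : VT D τ z ≠ ⊤) :
    ENNReal.ofReal z ≤ (∫⁻ h, ENNReal.ofReal (min h a) ∂τ) * VT D τ z := by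
  have : IsFiniteMeasure τ := ⟨by rw [h1]; exact ENNReal.one_lt_top⟩
  have hae := K5_ae h0
  set c := ∫⁻ h, ENNReal.ofReal (min h a) ∂τ with hc
  have key : ∀ R : ℕ, ∀ z : ℝ, 0 ≤ z → z ≤ a → ENNReal.ofReal z ≤
      c * ∑ r ∈ Finset.range R, ww D τ r z + ENNReal.ofReal z * ww D τ R z := by
    intro R
    induction R with
    | zero => intro z hz _; simp [ww]
    | succ R ih =>
      intro z hz hza
      have hA := K5_meas hD z
      have hw : ww D τ (R + 1) z = ∫⁻ h in {h | z - h ∈ D}, ww D τ R (z - h) ∂τ := rfl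
      rw [sum_ww_rec hD R z, mul_add, mul_one, hw]
      set A : Set ℝ := {h : ℝ | z - h ∈ D} with hAd
      have hwm : Measurable fun h : ℝ => ww D τ R (z - h) :=
        (measurable_ww hD R).comp (measurable_const.sub measurable_id)
      rw [← lintegral_const_mul _ (K5_meas_sum hD R z), ← lintegral_const_mul _ hwm, add_assoc,
        ← lintegral_add_left ((K5_meas_sum hD R z).const_mul c)]
      have e1 : ∫⁻ h in A, ENNReal.ofReal (z - h) ∂τ ≤
          ∫⁻ h in A, (c * ∑ r ∈ Finset.range R, ww D τ r (z - h) +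
            ENNReal.ofReal z * ww D τ R (z - h)) ∂τ := by
        apply setLIntegral_mono_ae' hA
        filter_upwards [hae] with h hh hhA
        refine (ih (z - h) (hD.nonneg hhA) (by linarith)).trans ?_
        gcongr
        linarith
      have e2 : ∫⁻ h in A, ENNReal.ofReal (min h a) ∂τ + ∫⁻ h in Aᶜ, ENNReal.ofReal (min h a) ∂τ = c := by
        rw [hc, lintegral_add_compl _ hA]
      calc ENNReal.ofReal z = ENNReal.ofReal z * τ Set.univ := by rw [h1, mul_one]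
        _ = ∫⁻ _h in A, ENNReal.ofReal z ∂τ + ∫⁻ _h in Aᶜ, ENNReal.ofReal z ∂τ := by
            rw [lintegral_add_compl _ hA, lintegral_const]
        _ ≤ ∫⁻ h in A, (ENNReal.ofReal (min h a) + ENNReal.ofReal (z - h)) ∂τ +
            ∫⁻ h in Aᶜ, ENNReal.ofReal (min h a) ∂τ := by
            apply add_le_add
            · apply setLIntegral_mono' hA
              intro h hh
              have h3 : 0 ≤ z - h := hD.nonneg hh
              rw [min_eq_left (by linarith : h ≤ a)]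
              calc ENNReal.ofReal z = ENNReal.ofReal (h + (z - h)) := by
                    congr 1
                    ring
                _ ≤ _ := ENNReal.ofReal_add_le
            · apply setLIntegral_mono' hA.compl
              intro h hh
              apply ENNReal.ofReal_le_ofReal
              have := hD.not_mem hh
              exact le_min (by linarith) hza
        _ = (∫⁻ h in A, ENNReal.ofReal (min h a) ∂τ + ∫⁻ h in A, ENNReal.ofReal (z - h) ∂τ) +
            ∫⁻ h in Aᶜ, ENNReal.ofReal (min h a) ∂τ := by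
            rw [lintegral_add_left (by fun_prop)]
        _ = c + ∫⁻ h in A, ENNReal.ofReal (z - h) ∂τ := by
            rw [← e2]
            ring
        _ ≤ _ := by gcongr
  have hT : Tendsto (fun R : ℕ => c * VT D τ z + ENNReal.ofReal z * ww D τ R z) atTop
      (𝓝 (c * VT D τ z + ENNReal.ofReal z * 0)) := by
    apply Tendsto.add tendsto_const_nhds
    apply ENNReal.Tendsto.const_mul
    · exact ENNReal.tendsto_atTop_zero_of_tsum_ne_top hfin
    · exact Or.inr ENNReal.ofReal_ne_top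
  rw [mul_zero, add_zero] at hT
  apply ge_of_tendsto' hT
  intro R
  refine (key R z hz ha).trans ?_
  gcongr
  unfold VT
  exact ENNReal.sum_le_tsum _

/-- Subadditivity. PROOF. For `W_R = ∑_{r<R} ww r` show `W_R (x+y) ≤ W_R x + VT y` by induction on `R`
(`sum_ww_rec`): `W_{R+1}(x+y) = 1 + ∫_{x+y-h∈D} W_R(x+y-h)`. Where `x-h ∈ D` (so `x-h ≥ 0`), `W_R((x-h)+y) ≤ W_R(x-h) +
VT y`; where `x-h ∉ D` we have `x - h ≤ 0`, so `x+y-h ≤ y` and `W_R (x+y-h) ≤ VT (x+y-h) ≤ VT y` (`VT_mono`). In total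
`≤ 1 + ∫_{x-h∈D} W_R(x-h) + VT y · τ univ ≤ W_{R+1} x + VT y`. Let `R → ∞`. -/
theorem VT_add_le (hD : Dom D) (h1 : τ Set.univ ≤ 1) (h0 : τ (Set.Iio 0) = 0) {x y : ℝ} (hx : 0 ≤ x)
    (hy : 0 ≤ y) : VT D τ (x + y) ≤ VT D τ x + VT D τ y := by
  have : IsFiniteMeasure τ := ⟨lt_of_le_of_lt h1 ENNReal.one_lt_top⟩
  have key : ∀ R : ℕ, ∀ x : ℝ, 0 ≤ x →
      ∑ r ∈ Finset.range R, ww D τ r (x + y) ≤ ∑ r ∈ Finset.range R, ww D τ r x + VT D τ y := by
    intro R
    induction R with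
    | zero => intro x _; simp
    | succ R ih =>
      intro x hx
      have hA := K5_meas hD (x + y)
      have hB := K5_meas hD x
      rw [sum_ww_rec hD R (x + y), sum_ww_rec hD R x]
      set A : Set ℝ := {h : ℝ | x + y - h ∈ D} with hAd
      set B : Set ℝ := {h : ℝ | x - h ∈ D} with hBd
      have hmB : Measurable fun h : ℝ => ∑ r ∈ Finset.range R, ww D τ r (x - h) :=
        K5_meas_sum hD R x
      have e0 : ∫⁻ h in A, ∑ r ∈ Finset.range R, ww D τ r (x + y - h) ∂τ ≤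
          ∫⁻ h in B, ∑ r ∈ Finset.range R, ww D τ r (x + y - h) ∂τ +
            ∫⁻ h in A \ B, ∑ r ∈ Finset.range R, ww D τ r (x + y - h) ∂τ := by
        refine (lintegral_mono_set (fun h hh => ?_)).trans (lintegral_union_le _ _ _)
        by_cases hb : h ∈ B
        · exact Or.inl hb
        · exact Or.inr ⟨hh, hb⟩
      have e1 : ∫⁻ h in B, ∑ r ∈ Finset.range R, ww D τ r (x + y - h) ∂τ ≤
          ∫⁻ h in B, ∑ r ∈ Finset.range R, ww D τ r (x - h) ∂τ + VT D τ y * τ B := by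
        calc ∫⁻ h in B, ∑ r ∈ Finset.range R, ww D τ r (x + y - h) ∂τ
            ≤ ∫⁻ h in B, (∑ r ∈ Finset.range R, ww D τ r (x - h) + VT D τ y) ∂τ := by
              apply setLIntegral_mono' hB
              intro h hh
              have := ih (x - h) (hD.nonneg hh)
              rwa [show x - h + y = x + y - h by ring] at this
          _ = _ := by
              rw [lintegral_add_right _ measurable_const, setLIntegral_const]
      have e2 : ∫⁻ h in A \ B, ∑ r ∈ Finset.range R, ww D τ r (x + y - h) ∂τ ≤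
          VT D τ y * τ (A \ B) := by
        rw [← setLIntegral_const]
        apply setLIntegral_mono' (hA.diff hB)
        intro h hh
        have h3 : x - h ≤ 0 := hD.not_mem hh.2
        refine le_trans ?_ (VT_mono hD (by linarith : x + y - h ≤ y))
        unfold VT
        exact ENNReal.sum_le_tsum _
      have e3 : τ B + τ (A \ B) ≤ 1 := by
        rw [← measure_union Set.disjoint_sdiff_right (hA.diff hB)]
        exact (measure_mono (Set.subset_univ _)).trans h1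
      calc 1 + ∫⁻ h in A, ∑ r ∈ Finset.range R, ww D τ r (x + y - h) ∂τ
          ≤ 1 + ((∫⁻ h in B, ∑ r ∈ Finset.range R, ww D τ r (x - h) ∂τ + VT D τ y * τ B) +
              VT D τ y * τ (A \ B)) := by
            gcongr
            exact e0.trans (add_le_add e1 e2)
        _ = 1 + ∫⁻ h in B, ∑ r ∈ Finset.range R, ww D τ r (x - h) ∂τ +
              VT D τ y * (τ B + τ (A \ B)) := by ring
        _ ≤ 1 + ∫⁻ h in B, ∑ r ∈ Finset.range R, ww D τ r (x - h) ∂τ + VT D τ y * 1 := by gcongr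
        _ = _ := by rw [mul_one]
  have hx' : VT D τ (x + y) = ⨆ R : ℕ, ∑ r ∈ Finset.range R, ww D τ r (x + y) :=
    ENNReal.tsum_eq_iSup_nat
  rw [hx']
  refine iSup_le fun R => (key R x hx).trans ?_
  gcongr
  unfold VT
  exact ENNReal.sum_le_tsum _

/-- PROOF. `wald_le` with `a = 1`, `∫ min(h,1) ∂(ladS) > 0` (`ladS_pos`, `K11_pos`), `ladS_le_one`, `ladS_neg`; for
`x < 0` use `VT_mono`. -/
theorem VV_fin (hD : Dom D) (hρ : Cen ρ) (x : ℝ) : VV D ρ x ≠ ⊤ := by
  have := hρ.prob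
  have h1 := ladS_le_one (ρ := ρ) hD
  have h0 := K11_pos (ladS_pos hD hρ)
  have h2 := wald_le hD h1 (ladS_neg hD) (max x 0) 1 (le_max_right _ _) zero_le_one
  have h3 : VV D ρ x ≤ VT D (ladS D ρ) (max x 0) := VT_mono hD (le_max_left _ _)
  intro h4
  rw [h4, top_le_iff] at h3
  rw [h3, ENNReal.mul_top h0, top_le_iff] at h2
  exact ENNReal.ofReal_ne_top h2

theorem VV_eq (hD : Dom D) (hρ : Cen ρ) (x : ℝ) : VV D ρ x = ENNReal.ofReal (vr D ρ x) := by
  rw [vr, ENNReal.ofReal_toReal (VV_fin hD hρ x)]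

theorem measurable_VV (hD : Dom D) (hρ : Cen ρ) : Measurable (VV D ρ) := by
  have := hρ.prob
  have : IsFiniteMeasure (ladS D ρ) :=
    ⟨lt_of_le_of_lt (ladS_le_one (ρ := ρ) hD) ENNReal.one_lt_top⟩
  exact measurable_VT hD

theorem measurable_vr (hD : Dom D) (hρ : Cen ρ) : Measurable (vr D ρ) := by
  exact (measurable_VV hD hρ).ennreal_toReal

theorem one_le_vr (hD : Dom D) (hρ : Cen ρ) (x : ℝ) : 1 ≤ vr D ρ x := by
  have h := ENNReal.toReal_mono (VV_fin hD hρ x) (one_le_VT (D := D) (τ := ladS D ρ) x)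
  rwa [ENNReal.toReal_one] at h

theorem vr_mono (hD : Dom D) (hρ : Cen ρ) : Monotone (vr D ρ) := by
  intro x y h
  exact ENNReal.toReal_mono (VV_fin hD hρ y) (VT_mono hD h)

theorem vr_add_le (hD : Dom D) (hρ : Cen ρ) {x y : ℝ} (hx : 0 ≤ x) (hy : 0 ≤ y) :
    vr D ρ (x + y) ≤ vr D ρ x + vr D ρ y := by
  have := hρ.prob
  have h := VT_add_le (τ := ladS D ρ) hD (ladS_le_one hD) (ladS_neg hD) hx hy
  have h' := ENNReal.toReal_mono (ENNReal.add_ne_top.2 ⟨VV_fin hD hρ x, VV_fin hD hρ y⟩) h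
  have e := ENNReal.toReal_add (VV_fin hD hρ x) (VV_fin hD hρ y)
  unfold vr
  rw [← e]
  exact h'

/-- PROOF. `z ≤ n y` with `n = ⌈z/y⌉ ≤ 1 + z/y`, `vr_mono`, and `vr (n y) ≤ n vr y` for `n ≥ 1` (`vr_add_le`). -/
theorem vr_ratio (hD : Dom D) (hρ : Cen ρ) {y z : ℝ} (hy : 0 < y) (h : y ≤ z) :
    vr D ρ z ≤ (1 + z / y) * vr D ρ y := by
  have key : ∀ n : ℕ, vr D ρ ((n + 1 : ℕ) * y) ≤ (n + 1 : ℕ) * vr D ρ y := by
    intro n
    induction n with
    | zero => simp
    | succ n ih =>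
      have h1 := vr_add_le hD hρ (x := ((n + 1 : ℕ) : ℝ) * y) (y := y) (by positivity) hy.le
      have e : (((n + 1 + 1 : ℕ) : ℝ)) * y = ((n + 1 : ℕ) : ℝ) * y + y := by
        push_cast; ring
      rw [e]
      refine h1.trans ?_
      have e2 : (((n + 1 + 1 : ℕ) : ℝ)) * vr D ρ y = ((n + 1 : ℕ) : ℝ) * vr D ρ y + vr D ρ y := by
        push_cast; ring
      rw [e2]
      linarith
  have hzy : 1 ≤ z / y := by rwa [le_div_iff₀ hy, one_mul]
  obtain ⟨n, hn⟩ : ∃ n : ℕ, ⌈z / y⌉₊ = n + 1 := by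
    have : 0 < ⌈z / y⌉₊ := Nat.ceil_pos.2 (by linarith)
    exact ⟨⌈z / y⌉₊ - 1, by omega⟩
  have h2 : z / y ≤ ((n + 1 : ℕ) : ℝ) := by
    rw [← hn]; exact Nat.le_ceil _
  have h3 : ((n + 1 : ℕ) : ℝ) ≤ 1 + z / y := by
    rw [← hn]
    have := Nat.ceil_lt_add_one (by linarith : 0 ≤ z / y)
    linarith
  have h4 : z ≤ ((n + 1 : ℕ) : ℝ) * y := (div_le_iff₀ hy).1 h2
  have h5 : 0 ≤ vr D ρ y := zero_le_one.trans (one_le_vr hD hρ y)
  calc vr D ρ z ≤ vr D ρ (((n + 1 : ℕ) : ℝ) * y) := vr_mono hD hρ h4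
    _ ≤ ((n + 1 : ℕ) : ℝ) * vr D ρ y := key n
    _ ≤ (1 + z / y) * vr D ρ y := mul_le_mul_of_nonneg_right h3 h5

theorem one_le_vd (hD : Dom D) (hρ : Cen ρ) (x : ℝ) : 1 ≤ vd D ρ x := by
  exact one_le_vr (dom_Dst hD) hρ.dual x

theorem vd_mono (hD : Dom D) (hρ : Cen ρ) : Monotone (vd D ρ) := by
  exact vr_mono (dom_Dst hD) hρ.dual

theorem vd_ratio (hD : Dom D) (hρ : Cen ρ) {y z : ℝ} (hy : 0 < y) (h : y ≤ z) :
    vd D ρ z ≤ (1 + z / y) * vd D ρ y := by
  exact vr_ratio (dom_Dst hD) hρ.dual hy h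

end Pool.Agent.BPT
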