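import Pool.Agent.MP_99a865_pr.ST.A7
import Pool.Agent.MP_99a865_pr.CV.K7
import Pool.Agent.MP_99a865_pr.FV.A8

/-!
# [STB-A7b] Survival probabilities: elementary facts

All by `kap_univ_eq`, `alive_add`, `surv_anti`, `kap_add_apply`, `kap_shift_le` (`A = B = univ`), `arcsine`, `kap_compl`.
-/

open MeasureTheory ProbabilityTheory Filter Topology
open scoped ENNReal NNReal

namespace Pool.Agent.BPT

variable {D : Set ℝ} {ρ : Measure ℝ} {p C x₀ : ℝ}

private theorem A7b_ne_top [IsProbabilityMeasure ρ] (k : ℕ) (x : ℝ) : kap D ρ k x Set.univ ≠ ⊤ :=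
  ne_top_of_le_ne_top ENNReal.one_ne_top (kap_univ_le_one k x)

private theorem A7b_nonneg_of_mem (hD : Dom D) {y : ℝ} (hy : y ∈ D) : 0 ≤ y := by
  rcases hD with rfl | rfl
  · exact hy
  · exact (Set.mem_Ioi.mp hy).le

theorem al_eq (hD : Dom D) [IsProbabilityMeasure ρ] (n : ℕ) (x : ℝ) :
    al D ρ n x = (seqLaw ρ).real {ω | Alive D x n ω} := by
  unfold al
  rw [Measure.real, Measure.real, kap_univ_eq hD]

theorem al_ofReal (hD : Dom D) [IsProbabilityMeasure ρ] (n : ℕ) (x : ℝ) :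
    ENNReal.ofReal (al D ρ n x) = kap D ρ n x Set.univ := by
  have _ := hD
  unfold al
  rw [Measure.real, ENNReal.ofReal_toReal (A7b_ne_top n x)]

theorem al_nonneg (D : Set ℝ) (ρ : Measure ℝ) (n : ℕ) (x : ℝ) : 0 ≤ al D ρ n x :=
  measureReal_nonneg

theorem al_le_one [IsProbabilityMeasure ρ] (n : ℕ) (x : ℝ) : al D ρ n x ≤ 1 := by
  unfold al
  rw [Measure.real]
  have := ENNReal.toReal_mono ENNReal.one_ne_top (kap_univ_le_one (D := D) (ρ := ρ) n x)
  simpa using this

theorem al_zero [IsProbabilityMeasure ρ] (x : ℝ) : al D ρ 0 x = 1 := by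
  unfold al
  rw [kap_zero, Measure.real]
  simp

theorem al_anti [IsProbabilityMeasure ρ] (hD : Dom D) (x : ℝ) : Antitone fun n => al D ρ n x := by
  intro k l hkl
  exact ENNReal.toReal_mono (A7b_ne_top k x) (surv_anti hD x hkl)

theorem al_mono [IsProbabilityMeasure ρ] (hD : Dom D) (n : ℕ) : Monotone (al D ρ n) := by
  intro x y hxy
  have h := kap_shift_le hD (ρ := ρ) n x (y - x) (sub_nonneg.mpr hxy) Set.univ Set.univ MeasurableSet.univ
    MeasurableSet.univ (fun _ _ => trivial)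
  rw [add_sub_cancel] at h
  exact ENNReal.toReal_mono (A7b_ne_top n y) h

theorem measurable_al [IsProbabilityMeasure ρ] (hD : Dom D) (n : ℕ) : Measurable (al D ρ n) :=
  (al_mono hD n).measurable

/-- the larger domain and the shift: for any two domains, alive in `D` from `x` implies alive in `D'` from `x + 1` -/
theorem al_dom [IsProbabilityMeasure ρ] (hD : Dom D) {D' : Set ℝ} (hD' : Dom D') (n : ℕ) (x : ℝ) :
    al D ρ n x ≤ al D' ρ n (x + 1) := by
  rw [al_eq hD, al_eq hD']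
  apply measureReal_mono _ (measure_ne_top _ _)
  intro ω h j h1 h2
  have h3 := A7b_nonneg_of_mem hD (h j h1 h2)
  have h4 : 0 < x + 1 + S j ω := by linarith
  rcases hD' with rfl | rfl
  · exact h4.le
  · exact h4

theorem al_add [IsProbabilityMeasure ρ] (hD : Dom D) (k l : ℕ) (x : ℝ) :
    al D ρ (k + l) x = ∫ z, al D ρ l z ∂(kap D ρ k x) := by
  rw [integral_eq_lintegral_of_nonneg_ae (ae_of_all _ fun z => al_nonneg D ρ l z)
    (measurable_al hD l).aestronglyMeasurable]
  unfold al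
  rw [Measure.real, kap_add_apply hD k l x Set.univ MeasurableSet.univ]
  congr 1
  apply lintegral_congr
  intro z
  rw [Measure.real, ENNReal.ofReal_toReal (A7b_ne_top l z)]

/-- the killed walk at a time `≥ 1`, or started at `x ≥ 0`, is at a nonnegative position -/
theorem kap_ae_nonneg [IsProbabilityMeasure ρ] (hD : Dom D) (n : ℕ) {x : ℝ} (hx : 0 ≤ x) :
    ∀ᵐ z ∂(kap D ρ n x), 0 ≤ z := by
  by_cases hn : 1 ≤ n
  · have hae : ∀ᵐ w ∂(kap D ρ n x), w ∈ D :=
      mem_ae_iff.mpr (kap_compl hD (ρ := ρ) n x (Or.inl hn))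
    filter_upwards [hae] with w hw
    exact A7b_nonneg_of_mem hD hw
  · have hn0 : n = 0 := by omega
    subst hn0
    rw [kap_zero]
    exact (ae_dirac_iff measurableSet_Ici).mpr hx

/-- Markov property with a uniform bound for the second part (`A8_split`, also for `k = 0`) -/
theorem kap_split_le [IsProbabilityMeasure ρ] (hD : Dom D) (k l : ℕ) {x : ℝ} (hx : 0 ≤ x) (J : Set ℝ)
    (hJ : MeasurableSet J) (B : ℝ) (hB0 : 0 ≤ B) (hB : ∀ w, 0 ≤ w → (kap D ρ l w).real J ≤ B) :
    (kap D ρ (k + l) x).real J ≤ al D ρ k x * B := by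
  by_cases hk : 1 ≤ k
  · exact A8_split hD k l hk x J hJ B hB0 hB
  · have hk0 : k = 0 := by omega
    subst hk0
    rw [al_zero, one_mul, zero_add]
    exact hB x hx

/-- `arcsine` for real numbers -/
theorem arcsine_real [IsProbabilityMeasure ρ] (hD : Dom D) (n : ℕ) :
    ∑ k ∈ Finset.range (n + 1), al (Dst D) (dual ρ) k 0 * al D ρ (n - k) 0 = 1 := by
  have := prob_dual (ρ := ρ)
  have h := arcsine (ρ := ρ) hD n
  have h2 := congrArg ENNReal.toReal h
  rw [ENNReal.toReal_sum (fun k _ => ENNReal.mul_ne_top (A7b_ne_top k 0) (A7b_ne_top (n - k) 0)),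
    ENNReal.toReal_one] at h2
  rw [← h2]
  apply Finset.sum_congr rfl
  intro k _
  rw [ENNReal.toReal_mul]
  rfl

end Pool.Agent.BPT
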