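import Pool.Agent.MP_99a865_pr.ST.A6
import Pool.Agent.MP_99a865_pr.ST.A7

/-!
# [STB-A9] The renewal function beyond a level, free walk
-/

open MeasureTheory ProbabilityTheory Filter Topology
open scoped ENNReal NNReal

namespace Pool.Agent.BPT

variable {D : Set ℝ} {ρ : Measure ℝ} {p C x₀ : ℝ}

/-- PROOF. The left side is `∫⁻ ω in {a < s + S l ω}, VV (s + S l ω)`. On this set `s + S_l > a ≥ y`, so by
`vr_ratio` `VV (s+S_l) ≤ ofReal ((1 + (s+S_l)/y) vr y) ≤ ofReal (2 (s+S_l)/y · vr y)`, and `S_l > a - s ≥ a/2 ≥ s`, so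
`s + S_l ≤ 2 S_l` and `a/2 ≤ |S_l|`. By `Reg.momS` at the level `a/2 ≥ 1` and `Lam (a/2) ≤ 4 Lam a` (`Lam_sq`) the integral is
at most `(4 vr y/y) K (a/2) (l Lam (a/2)) ≤ 8 K (a/y) (l Lam a) vr y`. -/
theorem Reg.over (hD : Dom D) (h : Reg ρ p C x₀) : ∃ K : ℝ, 1 ≤ K ∧ ∀ (l : ℕ) (y a s : ℝ), 1 ≤ y → y ≤ a →
    2 ≤ a → 0 ≤ s → s ≤ a / 2 →
    ∫⁻ z in Set.Ioi a, VV D ρ z ∂(fre ρ l s) ≤
      ENNReal.ofReal (K * (a / y) * (l * Lam ρ a) * vr D ρ y) := by
  have hρ := h.cen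
  have := hρ.prob
  obtain ⟨K, hK1, hK⟩ := h.momS
  refine ⟨8 * K, by linarith, ?_⟩
  intro l y a s hy hya ha hs hsa
  have hy0 : 0 < y := by linarith
  have hg : Measurable fun ω : ℕ → ℝ => s + S l ω := measurable_const.add (measurable_S l)
  have hv0 : 0 ≤ vr D ρ y := zero_le_one.trans (one_le_vr hD hρ y)
  rw [fre, setLIntegral_map measurableSet_Ioi (measurable_VV hD hρ) hg]
  have hpre : MeasurableSet ((fun ω : ℕ → ℝ => s + S l ω) ⁻¹' Set.Ioi a) := hg measurableSet_Ioi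
  have hset : MeasurableSet {ω : ℕ → ℝ | a / 2 ≤ |S l ω|} :=
    measurableSet_le measurable_const (measurable_S l).abs
  have hsub : ((fun ω : ℕ → ℝ => s + S l ω) ⁻¹' Set.Ioi a) ⊆ {ω : ℕ → ℝ | a / 2 ≤ |S l ω|} := by
    intro ω hω
    have h1 : a < s + S l ω := hω
    have h2 : a / 2 ≤ S l ω := by linarith
    exact h2.trans (le_abs_self _)
  have e1 : ∫⁻ ω in (fun ω : ℕ → ℝ => s + S l ω) ⁻¹' Set.Ioi a, VV D ρ (s + S l ω) ∂(seqLaw ρ) ≤
      ∫⁻ ω in (fun ω : ℕ → ℝ => s + S l ω) ⁻¹' Set.Ioi a,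
        ENNReal.ofReal (4 / y * vr D ρ y) * ENNReal.ofReal |S l ω| ∂(seqLaw ρ) := by
    apply setLIntegral_mono' hpre
    intro ω hω
    have h1 : a < s + S l ω := hω
    have h2 : a / 2 ≤ S l ω := by linarith
    have h3 : 0 ≤ S l ω := by linarith
    rw [VV_eq hD hρ, ← ENNReal.ofReal_mul (by positivity)]
    apply ENNReal.ofReal_le_ofReal
    refine (vr_ratio hD hρ hy0 (by linarith : y ≤ s + S l ω)).trans ?_
    have h4 : 1 + (s + S l ω) / y ≤ 4 / y * |S l ω| := by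
      rw [abs_of_nonneg h3]
      have h5 : 1 ≤ (s + S l ω) / y := by
        rw [le_div_iff₀ hy0]
        linarith
      have h6 : (s + S l ω) / y ≤ 2 * S l ω / y := by
        apply div_le_div_of_nonneg_right _ hy0.le
        linarith
      have h7 : 4 / y * S l ω = 2 * (2 * S l ω / y) := by ring
      rw [h7]
      linarith
    calc (1 + (s + S l ω) / y) * vr D ρ y ≤ (4 / y * |S l ω|) * vr D ρ y :=
          mul_le_mul_of_nonneg_right h4 hv0
      _ = 4 / y * vr D ρ y * |S l ω| := by ring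
  refine e1.trans ?_
  have e2 : ∫⁻ ω in (fun ω : ℕ → ℝ => s + S l ω) ⁻¹' Set.Ioi a,
        ENNReal.ofReal (4 / y * vr D ρ y) * ENNReal.ofReal |S l ω| ∂(seqLaw ρ) ≤
      ∫⁻ ω in {ω : ℕ → ℝ | a / 2 ≤ |S l ω|},
        ENNReal.ofReal (4 / y * vr D ρ y) * ENNReal.ofReal |S l ω| ∂(seqLaw ρ) :=
    lintegral_mono_set hsub
  refine e2.trans ?_
  rw [lintegral_const_mul _ (measurable_S l).abs.ennreal_ofReal]
  have e3 := hK l (a / 2) (by linarith)
  have e4 : Lam ρ (a / 2) ≤ 4 * Lam ρ a := by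
    have := Lam_sq (ρ := ρ) (y := a / 2) (r := 2) (by linarith) (by norm_num)
    have e5 : (2 : ℝ) * (a / 2) = a := by ring
    rw [e5] at this
    norm_num at this
    exact this
  have hl : (0 : ℝ) ≤ l := Nat.cast_nonneg l
  calc ENNReal.ofReal (4 / y * vr D ρ y) *
        ∫⁻ ω in {ω : ℕ → ℝ | a / 2 ≤ |S l ω|}, ENNReal.ofReal |S l ω| ∂(seqLaw ρ)
      ≤ ENNReal.ofReal (4 / y * vr D ρ y) * ENNReal.ofReal (K * (a / 2 * (l * Lam ρ (a / 2)))) := by
        gcongr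
    _ = ENNReal.ofReal (4 / y * vr D ρ y * (K * (a / 2 * (l * Lam ρ (a / 2))))) := by
        rw [← ENNReal.ofReal_mul (by positivity)]
    _ ≤ ENNReal.ofReal (8 * K * (a / y) * (l * Lam ρ a) * vr D ρ y) := by
        apply ENNReal.ofReal_le_ofReal
        have h1 : 4 / y * vr D ρ y * (K * (a / 2 * (l * Lam ρ (a / 2)))) =
          (2 * K * (a / y) * l * vr D ρ y) * Lam ρ (a / 2) := by ring
        have h2 : 8 * K * (a / y) * (l * Lam ρ a) * vr D ρ y =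
          (2 * K * (a / y) * l * vr D ρ y) * (4 * Lam ρ a) := by ring
        rw [h1, h2]
        apply mul_le_mul_of_nonneg_left e4
        positivity

end Pool.Agent.BPT
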