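import Pool.Agent.MP_99a865_pr.ST.N4b
import Pool.Agent.MP_99a865_pr.ST.A23

/-!
# [STB-AC1] Contract, free walk

Throughout: `Reg` from `N4_reg` (`p = (1+α)/2`), `1/C₁ ≤ n Lam (a n) ≤ C₁` from `N4_lam`, `a n → ∞` from `N4_top`.
-/

open MeasureTheory ProbabilityTheory Filter Topology
open scoped ENNReal NNReal

namespace Pool.Agent.BPT

variable {α : ℝ} {ζ ρ : Measure ℝ} {a : ℕ → ℝ} {D : Set ℝ}

lemma AC1_lam (h : DA α ζ ρ a) : ∃ C : ℝ, 1 ≤ C ∧ ∀ᶠ n : ℕ in atTop, 1 ≤ n ∧ 1 ≤ a n ∧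
    1 / C ≤ n * Lam ρ (a n) ∧ n * Lam ρ (a n) ≤ C := by
  obtain ⟨C, hC, hl⟩ := N4_lam h
  refine ⟨C, hC, ?_⟩
  filter_upwards [eventually_ge_atTop 1, (N4_top h).eventually (eventually_ge_atTop 1)] with n h1 h2
  exact ⟨h1, h2, hl n h1⟩

theorem AC_reg (h : DA α ζ ρ a) : ∃ p C x₀ : ℝ, Reg ρ p C x₀ :=
  ⟨(1 + α) / 2, N4_reg h (by linarith [h.one]) (by linarith [h.one])⟩

/-- PROOF. `m = 0`: the event is empty. Let `m ≥ 1`, `a n ≥ 1`. If `r (a n) < 1`: the probability is at most one, and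
`(m/n)(1/r²) ≥ (a n)²/n ≥ Lam 1/C₁` because `Lam (a n) ≥ Lam 1/(a n)²` (`Lam_sq`) and `n Lam (a n) ≤ C₁`. If `r (a n) ≥ 1`:
`Reg.maxi` gives `≤ K m Lam (r a n)`; for `r ≤ 1`, `Lam (r a n) ≤ Lam (a n)/r²` (`Lam_sq`), for `r ≥ 1`,
`Lam (r a n) ≤ K₁ r^{-p} Lam (a n) ≤ K₁ Lam (a n)/r` (`Reg.all`); and `m Lam (a n) ≤ C₁ m/n`. -/
theorem AC_max (h : DA α ζ ρ a) : ∃ C > (0 : ℝ), ∀ᶠ n : ℕ in atTop, ∀ m ≤ n, ∀ r > (0 : ℝ),
    (seqLaw ρ).real {ω | ∃ k ≤ m, r * a n ≤ |S k ω|} ≤ C * ((m : ℝ) / n) * (1 / r + 1 / r ^ 2) := by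
  obtain ⟨p, C, x₀, hR⟩ := AC_reg h
  have hcen := hR.cen
  have hp := hcen.prob
  obtain ⟨C₁, hC₁, hlam⟩ := AC1_lam h
  obtain ⟨K, hK, hmax⟩ := hR.maxi
  obtain ⟨K₁, hK₁, hall⟩ := hR.all
  have hL1 : 0 < Lam ρ 1 := Lam_pos hcen one_pos
  refine ⟨C₁ / Lam ρ 1 + K * K₁ * C₁, by positivity, ?_⟩
  filter_upwards [hlam] with n ⟨hn, ha, _, hl⟩ m hm r hr
  have hn0 : (0 : ℝ) < n := by exact_mod_cast hn
  have ha0 : 0 < a n := h.pos n
  rcases Nat.eq_zero_or_pos m with rfl | hm0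
  · have hem : {ω : ℕ → ℝ | ∃ k ≤ 0, r * a n ≤ |S k ω|} = ∅ := by
      ext ω
      simp only [Set.mem_ofPred_eq, Set.mem_empty_iff_false, iff_false, not_exists, not_and, not_le]
      intro k hk
      have hk0 : k = 0 := by omega
      subst hk0
      rw [A1_S_zero, abs_zero]
      exact mul_pos hr ha0
    rw [hem, measureReal_empty]
    simp
  · have hm1 : (1 : ℝ) ≤ m := by exact_mod_cast hm0
    rcases lt_or_ge (r * a n) 1 with h1 | h1
    · refine (measureReal_le_one (μ := seqLaw ρ)).trans ?_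
      have h2 := Lam_sq (ρ := ρ) (y := 1) (r := a n) one_pos ha
      rw [mul_one] at h2
      have h3 : a n ^ 2 ≤ 1 / r + 1 / r ^ 2 := by
        have h4 : a n ≤ 1 / r := by
          rw [le_div_iff₀ hr]
          linarith
        have h5 : a n ^ 2 ≤ (1 / r) ^ 2 := pow_le_pow_left₀ ha0.le h4 2
        rw [one_div_pow] at h5
        have h6 : 0 < 1 / r := by positivity
        linarith
      have h4 : Lam ρ 1 * n ≤ a n ^ 2 * C₁ := by
        calc Lam ρ 1 * n ≤ a n ^ 2 * Lam ρ (a n) * n := mul_le_mul_of_nonneg_right h2 hn0.le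
          _ = a n ^ 2 * (n * Lam ρ (a n)) := by ring
          _ ≤ a n ^ 2 * C₁ := mul_le_mul_of_nonneg_left hl (by positivity)
      have h5 : 1 ≤ C₁ / Lam ρ 1 * (1 / n) * a n ^ 2 := by
        rw [div_mul_div_comm, mul_one, div_mul_eq_mul_div, le_div_iff₀ (by positivity)]
        linarith
      have h6 : (1 : ℝ) / n ≤ (m : ℝ) / n := div_le_div_of_nonneg_right hm1 hn0.le
      refine h5.trans (mul_le_mul ?_ h3 (by positivity) (by positivity))
      refine mul_le_mul ?_ h6 (by positivity) (by positivity)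
      have : 0 ≤ K * K₁ * C₁ := by positivity
      linarith
    · refine (hmax m (r * a n) h1).trans ?_
      have hLa : 0 < Lam ρ (a n) := Lam_pos hcen ha0
      have h2 : Lam ρ (r * a n) ≤ K₁ * (1 / r + 1 / r ^ 2) * Lam ρ (a n) := by
        rcases le_total r 1 with hr1 | hr1
        · have h3 := Lam_sq (ρ := ρ) (y := r * a n) (r := 1 / r) (by positivity)
            (by rw [le_div_iff₀ hr]; linarith)
          have h4 : 1 / r * (r * a n) = a n := by field_simp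
          rw [h4] at h3
          refine h3.trans (mul_le_mul_of_nonneg_right ?_ hLa.le)
          rw [one_div_pow]
          have h5 : 0 < 1 / r := by positivity
          have h6 : 0 < 1 / r ^ 2 := by positivity
          nlinarith
        · refine (hall (a n) ha r hr1).trans (mul_le_mul_of_nonneg_right ?_ hLa.le)
          refine mul_le_mul_of_nonneg_left ?_ (by linarith)
          have h5 : r ^ (-p) ≤ 1 / r := by
            rw [one_div, ← Real.rpow_neg_one]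
            exact Real.rpow_le_rpow_of_exponent_le hr1 (by linarith [hR.p1])
          have h6 : 0 < 1 / r ^ 2 := by positivity
          linarith
      have h3 : (m : ℝ) * Lam ρ (a n) ≤ C₁ * ((m : ℝ) / n) := by
        calc (m : ℝ) * Lam ρ (a n) = (n * Lam ρ (a n)) * ((m : ℝ) / n) := by field_simp
          _ ≤ C₁ * ((m : ℝ) / n) := mul_le_mul_of_nonneg_right hl (by positivity)
      calc K * ((m : ℝ) * Lam ρ (r * a n)) ≤ K * ((m : ℝ) * (K₁ * (1 / r + 1 / r ^ 2) * Lam ρ (a n))) := by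
            refine mul_le_mul_of_nonneg_left (mul_le_mul_of_nonneg_left h2 (by positivity)) (by positivity)
        _ = K * K₁ * (1 / r + 1 / r ^ 2) * ((m : ℝ) * Lam ρ (a n)) := by ring
        _ ≤ K * K₁ * (1 / r + 1 / r ^ 2) * (C₁ * ((m : ℝ) / n)) :=
            mul_le_mul_of_nonneg_left h3 (by positivity)
        _ = K * K₁ * C₁ * ((m : ℝ) / n) * (1 / r + 1 / r ^ 2) := by ring
        _ ≤ (C₁ / Lam ρ 1 + K * K₁ * C₁) * ((m : ℝ) / n) * (1 / r + 1 / r ^ 2) := by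
            refine mul_le_mul_of_nonneg_right (mul_le_mul_of_nonneg_right ?_ (by positivity)) (by positivity)
            have : 0 ≤ C₁ / Lam ρ 1 := by positivity
            linarith

/-- common part of `AC_conc` and `AC_win` -/
lemma AC1_win (h : DA α ζ ρ a) {c : ℝ} (hc : 0 < c) : ∃ K > (0 : ℝ),
    ∀ᶠ n : ℕ in atTop, ∀ m : ℕ, c * n ≤ m → ∀ x z w : ℝ, 1 ≤ w →
      (fre ρ m x).real (Set.Ico z (z + w)) ≤ K * (w / a n) := by
  obtain ⟨p, C, x₀, hR⟩ := AC_reg h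
  obtain ⟨C₁, hC₁, hlam⟩ := AC1_lam h
  obtain ⟨K, hK, hwin⟩ := hR.win_free (c / C₁) (by positivity)
  refine ⟨K, by linarith, ?_⟩
  filter_upwards [hlam] with n ⟨hn, ha, hl, _⟩ m hm x z w hw
  have hn0 : (0 : ℝ) < n := by exact_mod_cast hn
  have hm0 : (0 : ℝ) < m := lt_of_lt_of_le (mul_pos hc hn0) hm
  refine (hwin m (a n) w x z (by exact_mod_cast hm0) ha hw ?_).1
  have h1 : c * n * Lam ρ (a n) ≤ m * Lam ρ (a n) := mul_le_mul_of_nonneg_right hm (Lam_nonneg _ _)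
  have h2 : c * (1 / C₁) ≤ c * (n * Lam ρ (a n)) := mul_le_mul_of_nonneg_left hl hc.le
  calc c / C₁ = c * (1 / C₁) := by ring
    _ ≤ c * (n * Lam ρ (a n)) := h2
    _ = c * n * Lam ρ (a n) := by ring
    _ ≤ _ := h1

/-- PROOF. `Reg.win_free` with the constant `c/C₁` (`m Lam (a n) ≥ c n Lam (a n) ≥ c/C₁`, `m ≥ 1`), `y = a n`, `w = δ a n + 1 ≤ 2 δ a n`
for `n` large (`Icc z (z + δ a n) ⊆ Ico z (z + w)`), `δ = ε/(2 K)`. -/
theorem AC_conc (h : DA α ζ ρ a) {c : ℝ} (hc : 0 < c) : ∀ ε > (0 : ℝ), ∃ δ > (0 : ℝ),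
    ∀ᶠ n : ℕ in atTop, ∀ m : ℕ, c * n ≤ m → ∀ x z : ℝ,
      (fre ρ m x).real (Set.Icc z (z + δ * a n)) ≤ ε := by
  have hp := h.prob
  intro ε hε
  obtain ⟨K, hK, hwin⟩ := AC1_win h hc
  refine ⟨ε / (2 * K), by positivity, ?_⟩
  have ht := (N4_top h).eventually (eventually_ge_atTop (1 / (ε / (2 * K))))
  filter_upwards [hwin, ht] with n h1 h2 m hm x z
  have ha0 : 0 < a n := h.pos n
  have hδ : 0 < ε / (2 * K) := by positivity
  set δ := ε / (2 * K) with hδd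
  have h3 : 1 ≤ δ * a n := by
    rw [div_le_iff₀ hδ] at h2
    linarith
  refine (measureReal_mono (s₂ := Set.Ico z (z + 2 * (δ * a n))) fun u hu => ⟨hu.1, ?_⟩).trans
    ((h1 m hm x z (2 * (δ * a n)) (by linarith)).trans (le_of_eq ?_))
  · have := hu.2
    linarith
  · rw [hδd]
    field_simp

/-- PROOF. As `AC_conc`, `w = 2`. -/
theorem AC_win (h : DA α ζ ρ a) {c : ℝ} (hc : 0 < c) : ∃ C > (0 : ℝ), ∀ᶠ n : ℕ in atTop,
    ∀ m : ℕ, c * n ≤ m → ∀ x z : ℝ, (fre ρ m x).real (Set.Icc z (z + 1)) ≤ C / a n := by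
  have hp := h.prob
  obtain ⟨K, hK, hwin⟩ := AC1_win h hc
  refine ⟨K * 2, by positivity, ?_⟩
  filter_upwards [hwin] with n h1 m hm x z
  refine (measureReal_mono (s₂ := Set.Ico z (z + 2)) fun u hu => ⟨hu.1, ?_⟩).trans
    ((h1 m hm x z 2 (by norm_num)).trans (le_of_eq ?_))
  · have := hu.2
    linarith
  · ring

/-- PROOF. WLOG `r ≤ 1`. `m = 0`: `|z - x| ≥ r a n > 1` for `n` large, the probability is `0`. Let `m ≥ 1`, `m ≤ δ n`,
`d = r (a n)/2` (`≥ 1`; every `u ∈ Ico z (z+2)` satisfies `|u - x| ≥ r a n - 2 ≥ d`), `y` with `c ≤ m Lam y ≤ 1`, `1 ≤ y` (`Reg.scale`).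
Since `Lam y ≥ c/m ≥ (c/(δ n)) ≥ (c/(δ C₁)) Lam (a n)` (`N4_lam`): if `δ < c/C₁` then `y < a n` (`Lam_anti`), and
`Lam y ≤ (a n/y)² Lam (a n)` (`Lam_sq`) gives `(y/a n)² ≤ δ C₁/c`. For `δ` small, `y ≤ d`. `Reg.far` (`w = 2`):
the probability is at most `K (m Lam d)(2/y)`, `m ≤ 1/Lam y`, `Lam d ≤ (4/r²) Lam (a n)` (`Lam_sq`) and
`Lam (a n) ≤ K₁ (a n/y)^{-p} Lam y` (`Reg.all`): total `≤ (8 K K₁/r²) (y/a n)^p/y = (8 K K₁/r²)(y/a n)^{p-1}/a n ≤ ε/a n` for `δ`
small. -/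
theorem AC_far (h : DA α ζ ρ a) {r : ℝ} (hr : 0 < r) : ∀ ε > (0 : ℝ), ∃ δ > (0 : ℝ),
    ∀ᶠ n : ℕ in atTop, ∀ m : ℕ, (m : ℝ) ≤ δ * n → ∀ x z : ℝ, r * a n ≤ |z - x| →
      (fre ρ m x).real (Set.Icc z (z + 1)) ≤ ε / a n := by
  have hp := h.prob
  -- WLOG `r ≤ 1`
  suffices H : ∀ r : ℝ, 0 < r → r ≤ 1 → ∀ ε > (0 : ℝ), ∃ δ > (0 : ℝ),
      ∀ᶠ n : ℕ in atTop, ∀ m : ℕ, (m : ℝ) ≤ δ * n → ∀ x z : ℝ, r * a n ≤ |z - x| →
        (fre ρ m x).real (Set.Icc z (z + 1)) ≤ ε / a n by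
    intro ε hε
    obtain ⟨δ, hδ, h1⟩ := H (min r 1) (lt_min hr one_pos) (min_le_right _ _) ε hε
    refine ⟨δ, hδ, ?_⟩
    filter_upwards [h1] with n h2 m hm x z hz
    refine h2 m hm x z (le_trans (mul_le_mul_of_nonneg_right (min_le_left _ _) (h.pos n).le) hz)
  intro r hr hr1 ε hε
  obtain ⟨p, C, x₀, hR⟩ := AC_reg h
  have hcen := hR.cen
  have hp1 := hR.p1
  obtain ⟨C₁, hC₁, hlam⟩ := AC1_lam h
  obtain ⟨K₁, hK₁, hall⟩ := hR.all
  obtain ⟨cs, hcs, hscale⟩ := hR.scale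
  obtain ⟨K, hK, hfar⟩ := hR.far cs hcs
  set B : ℝ := 8 * K * K₁ / r ^ 2 with hB
  have hB0 : 0 < B := by positivity
  obtain ⟨η, hη0, hη1, hη2⟩ : ∃ η > (0 : ℝ), η ≤ r / 2 ∧ B * η ^ (p - 1) ≤ ε := by
    have hq : 0 < p - 1 := by linarith
    refine ⟨min (r / 2) ((ε / B) ^ (1 / (p - 1))), by positivity, min_le_left _ _, ?_⟩
    have h1 : (min (r / 2) ((ε / B) ^ (1 / (p - 1)))) ^ (p - 1) ≤ ((ε / B) ^ (1 / (p - 1))) ^ (p - 1) :=
      Real.rpow_le_rpow (by positivity) (min_le_right _ _) hq.le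
    rw [← Real.rpow_mul (by positivity), one_div_mul_cancel hq.ne', Real.rpow_one] at h1
    rw [le_div_iff₀ hB0] at h1
    linarith
  refine ⟨η ^ 2 * cs / C₁, by positivity, ?_⟩
  have ht := (N4_top h).eventually (eventually_ge_atTop (4 / r))
  filter_upwards [hlam, ht] with n ⟨hn, ha, _, hl⟩ h4 m hm x z hz
  have hn0 : (0 : ℝ) < n := by exact_mod_cast hn
  have ha0 : 0 < a n := h.pos n
  have hra : 4 ≤ r * a n := by
    rw [div_le_iff₀ hr] at h4
    linarith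
  have hLa : 0 < Lam ρ (a n) := Lam_pos hcen ha0
  rcases Nat.eq_zero_or_pos m with rfl | hm0
  · rw [fre_zero, Measure.real, Measure.dirac_apply' _ measurableSet_Icc]
    rw [Set.indicator_of_notMem, ENNReal.toReal_zero]
    · positivity
    · intro hx
      have h5 : |z - x| ≤ 1 := by
        rw [abs_le]
        constructor <;> linarith [hx.1, hx.2]
      linarith
  · have hm1 : (0 : ℝ) < m := by exact_mod_cast hm0
    obtain ⟨y, hy, hy1, hy2⟩ := hscale m hm0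
    have hy0 : 0 < y := by linarith
    have hLy : 0 < Lam ρ y := Lam_pos hcen hy0
    -- `C₁ ≤ η² n Lam y`
    have e1 : C₁ ≤ η ^ 2 * (n * Lam ρ y) := by
      have h5 : cs * C₁ ≤ η ^ 2 * cs * n * Lam ρ y := by
        have h6 : (m : ℝ) * C₁ ≤ η ^ 2 * cs * n := by
          have := mul_le_mul_of_nonneg_right hm (by linarith : 0 ≤ C₁)
          refine this.trans (le_of_eq ?_)
          field_simp
        calc cs * C₁ ≤ (m * Lam ρ y) * C₁ := mul_le_mul_of_nonneg_right hy1 (by linarith)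
          _ = (m * C₁) * Lam ρ y := by ring
          _ ≤ _ := mul_le_mul_of_nonneg_right h6 hLy.le
      have h7 : cs * C₁ ≤ cs * (η ^ 2 * (n * Lam ρ y)) := h5.trans (le_of_eq (by ring))
      exact le_of_mul_le_mul_left h7 hcs
    have hη3 : η ^ 2 < 1 := by nlinarith
    have hya : y < a n := by
      by_contra hcon
      have h5 : Lam ρ y ≤ Lam ρ (a n) := Lam_anti ha0 (not_lt.1 hcon)
      have h6 : n * Lam ρ y ≤ n * Lam ρ (a n) := mul_le_mul_of_nonneg_left h5 hn0.le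
      have h7 : 0 < n * Lam ρ y := mul_pos hn0 hLy
      nlinarith
    have hq0 : 0 < y / a n := by positivity
    have hr2 : 1 ≤ a n / y := by
      rw [le_div_iff₀ hy0]
      linarith
    have hqη : y / a n ≤ η := by
      have h5 := Lam_sq (ρ := ρ) (y := y) (r := a n / y) hy0 hr2
      rw [div_mul_cancel₀ _ hy0.ne'] at h5
      have h6 : n * Lam ρ y ≤ (a n / y) ^ 2 * C₁ := by
        calc n * Lam ρ y ≤ n * ((a n / y) ^ 2 * Lam ρ (a n)) := mul_le_mul_of_nonneg_left h5 hn0.le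
          _ = (a n / y) ^ 2 * (n * Lam ρ (a n)) := by ring
          _ ≤ _ := mul_le_mul_of_nonneg_left hl (by positivity)
      have h7 : C₁ ≤ η ^ 2 * ((a n / y) ^ 2 * C₁) := e1.trans (mul_le_mul_of_nonneg_left h6 (by positivity))
      have h8 : 1 ≤ (η * (a n / y)) ^ 2 := by
        have h9 : 1 * C₁ ≤ (η * (a n / y)) ^ 2 * C₁ := by
          rw [one_mul, mul_pow]
          linarith
        exact le_of_mul_le_mul_right h9 (by linarith)
      have h10 : 1 ≤ η * (a n / y) := by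
        by_contra hcon
        have h11 : 0 ≤ η * (a n / y) := by positivity
        nlinarith [not_le.1 hcon]
      rw [div_le_iff₀ ha0]
      rw [← mul_div_assoc, le_div_iff₀ hy0] at h10
      linarith
    set d : ℝ := r * a n / 2 with hd
    have hyd : y ≤ d := by
      rw [div_le_iff₀ ha0] at hqη
      rw [hd]
      nlinarith
    have hF := hfar m y 2 d x z hm0 hy (by norm_num) hyd hy1 (by
      intro u hu
      have h5 : |z - x| ≤ |u - x| + 2 := by
        have h6 : |z - x| ≤ |u - x| + |u - z| := by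
          have := abs_sub_abs_le_abs_sub (z - x) (u - x)
          have h7 : z - x - (u - x) = -(u - z) := by ring
          rw [h7, abs_neg] at this
          linarith
        have h8 : |u - z| ≤ 2 := by
          rw [abs_le]
          constructor <;> linarith [hu.1, hu.2]
        linarith
      rw [hd]
      linarith)
    have hsub : (fre ρ m x).real (Set.Icc z (z + 1)) ≤ (fre ρ m x).real (Set.Ico z (z + 2)) :=
      measureReal_mono fun u hu => ⟨hu.1, by linarith [hu.2]⟩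
    refine hsub.trans (hF.trans ?_)
    have hLd : Lam ρ d ≤ 4 / r ^ 2 * Lam ρ (a n) := by
      have h5 := Lam_sq (ρ := ρ) (y := d) (r := 2 / r) (by positivity) (by rw [le_div_iff₀ hr]; linarith)
      have h6 : 2 / r * d = a n := by
        rw [hd]
        field_simp
      rw [h6] at h5
      refine h5.trans (le_of_eq ?_)
      ring
    have hLan : Lam ρ (a n) ≤ K₁ * ((y / a n) ^ (p - 1) * (y / a n)) * Lam ρ y := by
      have h5 := hall y hy (a n / y) hr2
      rw [div_mul_cancel₀ _ hy0.ne'] at h5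
      have h6 : (a n / y) ^ (-p) = (y / a n) ^ (p - 1) * (y / a n) := by
        rw [← Real.rpow_add_one hq0.ne', sub_add_cancel, Real.rpow_neg (by positivity), ← Real.inv_rpow (by positivity), inv_div]
      rwa [h6] at h5
    have hqp : (y / a n) ^ (p - 1) ≤ η ^ (p - 1) := Real.rpow_le_rpow hq0.le hqη (by linarith)
    have hqp0 : 0 < (y / a n) ^ (p - 1) := Real.rpow_pos_of_pos hq0 _
    calc K * (m * Lam ρ d) * (2 / y)
        ≤ K * (m * (4 / r ^ 2 * (K₁ * ((y / a n) ^ (p - 1) * (y / a n)) * Lam ρ y))) * (2 / y) := by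
          refine mul_le_mul_of_nonneg_right (mul_le_mul_of_nonneg_left (mul_le_mul_of_nonneg_left
            (hLd.trans (mul_le_mul_of_nonneg_left hLan (by positivity))) hm1.le) (by linarith)) (by positivity)
      _ = B * ((y / a n) ^ (p - 1)) * (m * Lam ρ y) / a n := by
          rw [hB]
          field_simp
          ring
      _ ≤ B * ((y / a n) ^ (p - 1)) * 1 / a n := by
          refine div_le_div_of_nonneg_right (mul_le_mul_of_nonneg_left hy2 (by positivity)) ha0.le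
      _ ≤ ε / a n := by
          refine div_le_div_of_nonneg_right ?_ ha0.le
          rw [mul_one]
          exact (mul_le_mul_of_nonneg_left hqp hB0.le).trans hη2

end Pool.Agent.BPT
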