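import Pool.Agent.MP_99a865_pr.ST.N4b
import Pool.Agent.MP_99a865_pr.ST.A22
import Pool.Agent.MP_99a865_pr.ST.A24

/-!
# [STB-AC2] Contract, killed walk

Throughout: `Reg` from `N4_reg` (`p = (1+α)/2`), `Cen` from `N4_cen`, `1/C₁ ≤ n Lam (a n) ≤ C₁` from `N4_lam`, `a n → ∞` (`N4_top`), so
`a n ≥ 1` eventually; for `c n ≤ m`, `n` large: `m ≥ 1`, `m Lam (a n) ≥ c/C₁`.
-/

open MeasureTheory ProbabilityTheory Filter Topology
open scoped ENNReal NNReal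

namespace Pool.Agent.BPT

variable {α : ℝ} {ζ ρ : Measure ℝ} {a : ℕ → ℝ} {D : Set ℝ}

lemma AC2_reg (h : DA α ζ ρ a) : ∃ p C x₀ : ℝ, Reg ρ p C x₀ :=
  ⟨(1 + α) / 2, N4_reg h (by linarith [h.one]) (by linarith [h.one])⟩

lemma AC2_lam (h : DA α ζ ρ a) : ∃ C : ℝ, 1 ≤ C ∧ ∀ᶠ n : ℕ in atTop, 1 ≤ n ∧ 1 ≤ a n ∧
    1 / C ≤ n * Lam ρ (a n) ∧ n * Lam ρ (a n) ≤ C := by
  obtain ⟨C, hC, hl⟩ := N4_lam h
  refine ⟨C, hC, ?_⟩
  filter_upwards [eventually_ge_atTop 1, (N4_top h).eventually (eventually_ge_atTop 1)] with n h1 h2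
  exact ⟨h1, h2, hl n h1⟩

/-- (`VV_fin`, `one_le_vr`, `vr_mono`) -/
theorem AC_vr_facts (hD : Dom D) (hρ : Cen ρ) : (∀ x, VV D ρ x ≠ ∞) ∧ (∀ x, 1 ≤ vr D ρ x) ∧
    Monotone (vr D ρ) :=
  ⟨fun x => VV_fin hD hρ x, fun x => one_le_vr hD hρ x, vr_mono hD hρ⟩

/-- (`vr_ratio`; `x = 0` separately) -/
theorem AC_vr_mul (hD : Dom D) (hρ : Cen ρ) (x r : ℝ) (hx : 0 ≤ x) (hr : 1 ≤ r) :
    vr D ρ (r * x) ≤ 2 * r * vr D ρ x := by
  have h1 := one_le_vr hD hρ x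
  rcases eq_or_lt_of_le hx with rfl | hx0
  · rw [mul_zero]
    nlinarith
  · have h2 : x ≤ r * x := by nlinarith
    have h3 := vr_ratio hD hρ hx0 h2
    rw [mul_div_assoc, div_self hx0.ne', mul_one] at h3
    nlinarith

/-- PROOF. `Reg.vr_lower` with `y = δ a n ≥ 1`, `r = 1/δ`: `vr (a n) ≥ c δ^{1-p} vr (δ a n)`. -/
theorem AC_vr_small (h : DA α ζ ρ a) (hD : Dom D) : ∀ ε > (0 : ℝ), ∃ δ > (0 : ℝ),
    ∀ᶠ n : ℕ in atTop, vr D ρ (δ * a n) ≤ ε * vr D ρ (a n) := by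
  obtain ⟨p, C, x₀, hR⟩ := AC2_reg h
  have hcen := hR.cen
  have hp1 : 0 < p - 1 := by linarith [hR.p1]
  obtain ⟨c, hc, hlow⟩ := hR.vr_lower hD
  intro ε hε
  obtain ⟨δ, hδ0, hδ1, hδ2⟩ : ∃ δ > (0 : ℝ), δ ≤ 1 ∧ 1 ≤ ε * (c * (1 / δ) ^ (p - 1)) := by
    refine ⟨min 1 ((ε * c) ^ (1 / (p - 1))), by positivity, min_le_left _ _, ?_⟩
    set δ := min 1 ((ε * c) ^ (1 / (p - 1))) with hδ
    have h0 : 0 < δ := by positivity
    have h1 : δ ^ (p - 1) ≤ ((ε * c) ^ (1 / (p - 1))) ^ (p - 1) :=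
      Real.rpow_le_rpow h0.le (min_le_right _ _) hp1.le
    rw [← Real.rpow_mul (by positivity), one_div_mul_cancel hp1.ne', Real.rpow_one] at h1
    rw [Real.div_rpow zero_le_one h0.le, Real.one_rpow, ← mul_assoc, mul_one_div,
      le_div_iff₀ (Real.rpow_pos_of_pos h0 _), one_mul]
    exact h1
  refine ⟨δ, hδ0, ?_⟩
  filter_upwards [(N4_top h).eventually (eventually_ge_atTop (1 / δ))] with n hn
  have h1 : 1 ≤ δ * a n := by
    rw [div_le_iff₀ hδ0] at hn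
    linarith
  have h2 := hlow (δ * a n) (1 / δ) h1 (by rw [le_div_iff₀ hδ0]; linarith)
  have h3 : 1 / δ * (δ * a n) = a n := by field_simp
  rw [h3] at h2
  have h4 : 0 < vr D ρ (δ * a n) := lt_of_lt_of_le one_pos (one_le_vr hD hcen _)
  calc vr D ρ (δ * a n) = 1 * vr D ρ (δ * a n) := (one_mul _).symm
    _ ≤ ε * (c * (1 / δ) ^ (p - 1)) * vr D ρ (δ * a n) := mul_le_mul_of_nonneg_right hδ2 h4.le
    _ = ε * (c * (1 / δ) ^ (p - 1) * vr D ρ (δ * a n)) := by ring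
    _ ≤ ε * vr D ρ (a n) := mul_le_mul_of_nonneg_left h2 hε.le

/-- (`Reg.prod_le`, `Reg.prod_ge`) -/
theorem AC_vv (h : DA α ζ ρ a) (hD : Dom D) : ∃ C > (0 : ℝ), ∀ᶠ n : ℕ in atTop,
    n ≤ C * (vr D ρ (a n) * vd D ρ (a n)) ∧ vr D ρ (a n) * vd D ρ (a n) ≤ C * n := by
  obtain ⟨p, C, x₀, hR⟩ := AC2_reg h
  have hcen := hR.cen
  obtain ⟨C₁, hC₁, hlam⟩ := AC2_lam h
  obtain ⟨K, hK, hle⟩ := hR.prod_le hD
  obtain ⟨c, hc, hge⟩ := hR.prod_ge hD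
  refine ⟨C₁ / c + C₁ * K, by positivity, ?_⟩
  filter_upwards [hlam] with n ⟨hn, ha, hl1, hl2⟩
  have hn0 : (0 : ℝ) < n := by exact_mod_cast hn
  have hL : 0 < Lam ρ (a n) := Lam_pos hcen (by linarith)
  have hv : 0 < vr D ρ (a n) := lt_of_lt_of_le one_pos (one_le_vr hD hcen _)
  have hw : 0 < vd D ρ (a n) := lt_of_lt_of_le one_pos (one_le_vd hD hcen _)
  have h1 := hle (a n) ha
  have h2 := hge (a n) ha
  set V : ℝ := vr D ρ (a n) * vd D ρ (a n) with hV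
  have hV0 : 0 < V := mul_pos hv hw
  have h1' : Lam ρ (a n) * V ≤ K := by rw [hV, ← mul_assoc]; exact h1
  have h2' : c ≤ Lam ρ (a n) * V := by rw [hV, ← mul_assoc]; exact h2
  constructor
  · -- `c n ≤ n Lam V ≤ C₁ V`
    have h3 : c * n ≤ C₁ * V := by
      calc c * n ≤ Lam ρ (a n) * V * n := mul_le_mul_of_nonneg_right h2' hn0.le
        _ = n * Lam ρ (a n) * V := by ring
        _ ≤ C₁ * V := mul_le_mul_of_nonneg_right hl2 hV0.le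
    have h4 : (n : ℝ) ≤ C₁ / c * V := by
      rw [div_mul_eq_mul_div, le_div_iff₀ hc]
      linarith
    have h5 : 0 ≤ C₁ * K * V := by positivity
    linarith
  · have h3 : V ≤ C₁ * K * n := by
      have h4 : 1 ≤ C₁ * (n * Lam ρ (a n)) := by
        rw [div_le_iff₀ (by linarith)] at hl1
        linarith
      calc V = 1 * V := (one_mul _).symm
        _ ≤ C₁ * (n * Lam ρ (a n)) * V := mul_le_mul_of_nonneg_right h4 hV0.le
        _ = C₁ * n * (Lam ρ (a n) * V) := by ring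
        _ ≤ C₁ * n * K := mul_le_mul_of_nonneg_left h1' (by positivity)
        _ = C₁ * K * n := by ring
    have h5 : 0 ≤ C₁ / c * n := by positivity
    linarith

/-- (`Reg.surv`, `c = 1/C₁`) -/
theorem AC_al_le (h : DA α ζ ρ a) (hD : Dom D) : ∃ C > (0 : ℝ), ∀ᶠ m : ℕ in atTop,
    ∀ x, 0 ≤ x → al D ρ m x ≤ C * (vr D ρ x / vr D ρ (a m)) := by
  obtain ⟨p, C, x₀, hR⟩ := AC2_reg h
  obtain ⟨C₁, hC₁, hlam⟩ := AC2_lam h
  obtain ⟨K, hK, hs⟩ := hR.surv hD (1 / C₁) (by positivity)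
  refine ⟨K, by linarith, ?_⟩
  filter_upwards [hlam] with m ⟨hm, ha, hl1, _⟩ x hx
  exact hs m (a m) hm ha hl1 x hx

/-- (`Reg.surv_ge`, `M = C₁`) -/
theorem AC_le_al (h : DA α ζ ρ a) (hD : Dom D) : ∃ c > (0 : ℝ), ∀ᶠ m : ℕ in atTop,
    ∀ x, 0 ≤ x → x ≤ a m → c * (vr D ρ x / vr D ρ (a m)) ≤ al D ρ m x := by
  obtain ⟨p, C, x₀, hR⟩ := AC2_reg h
  have hcen := hR.cen
  obtain ⟨C₁, hC₁, hlam⟩ := AC2_lam h
  obtain ⟨c, hc, hs⟩ := hR.surv_ge hD C₁ (by linarith)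
  refine ⟨c, hc, ?_⟩
  filter_upwards [hlam] with m ⟨hm, ha, _, hl2⟩ x hx hxa
  have h1 := hs m (a m) x ha hl2 hx
  have h2 : vr D ρ x / vr D ρ (a m) ≤ 1 :=
    (div_le_one (lt_of_lt_of_le one_pos (one_le_vr hD hcen _))).2 (vr_mono hD hcen hxa)
  rwa [min_eq_right h2] at h1

/-- (`Reg.ui`, `VV_eq`, `m Lam (a n) ≤ C₁`, `R^{1-p} → 0`) -/
theorem AC_tail (h : DA α ζ ρ a) (hD : Dom D) : ∀ ε > (0 : ℝ), ∃ R > (0 : ℝ),
    ∀ᶠ n : ℕ in atTop, ∀ m ≤ n, ∀ x, 0 ≤ x → x ≤ a n →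
      ∫⁻ y in Set.Ioi (R * a n), ENNReal.ofReal (vr D ρ y) ∂(kap D ρ m x) ≤
        ENNReal.ofReal (ε * vr D ρ x) := by
  obtain ⟨p, C, x₀, hR⟩ := AC2_reg h
  have hcen := hR.cen
  have hp1 : 0 < p - 1 := by linarith [hR.p1]
  obtain ⟨C₁, hC₁, hlam⟩ := AC2_lam h
  obtain ⟨K, hK, hui⟩ := hR.ui hD
  intro ε hε
  have hB : 0 < K * (1 + C₁) := by positivity
  obtain ⟨R, hR4, hR2⟩ : ∃ R : ℝ, 4 ≤ R ∧ K * R ^ (1 - p) * (1 + C₁) ≤ ε := by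
    have ht : Tendsto (fun R : ℝ => K * R ^ (1 - p) * (1 + C₁)) atTop (𝓝 (K * 0 * (1 + C₁))) := by
      refine (Tendsto.const_mul K ?_).mul_const _
      have := tendsto_rpow_neg_atTop hp1
      rwa [neg_sub] at this
    rw [mul_zero, zero_mul] at ht
    obtain ⟨R, h1, h2⟩ := ((eventually_ge_atTop (4 : ℝ)).and (ht.eventually (ge_mem_nhds hε))).exists
    exact ⟨R, h1, h2⟩
  refine ⟨R, by linarith, ?_⟩
  filter_upwards [hlam] with n ⟨hn, ha, _, hl2⟩ m hm x hx hxa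
  have h1 := hui m (a n) R x ha hR4 hx hxa
  simp_rw [← VV_eq hD hcen]
  refine h1.trans (ENNReal.ofReal_le_ofReal ?_)
  have hv : 0 < vr D ρ x := lt_of_lt_of_le one_pos (one_le_vr hD hcen _)
  refine mul_le_mul_of_nonneg_right (le_trans (mul_le_mul_of_nonneg_left ?_ (by positivity)) hR2) hv.le
  have h2 : (m : ℝ) * Lam ρ (a n) ≤ n * Lam ρ (a n) :=
    mul_le_mul_of_nonneg_right (by exact_mod_cast hm) (Lam_nonneg _ _)
  linarith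

/-- (`Reg.near` with `w = 2 δ a n`) -/
theorem AC_near (h : DA α ζ ρ a) (hD : Dom D) {c : ℝ} (hc : 0 < c) : ∀ ε > (0 : ℝ), ∃ δ > (0 : ℝ),
    ∀ᶠ n : ℕ in atTop, ∀ m : ℕ, c * n ≤ m → ∀ x, 0 ≤ x →
      (kap D ρ m x).real (Set.Iic (δ * a n)) ≤ ε * (vr D ρ x / vr D ρ (a n)) := by
  obtain ⟨p, C, x₀, hR⟩ := AC2_reg h
  have hcen := hR.cen
  have hp := hcen.prob
  obtain ⟨C₁, hC₁, hlam⟩ := AC2_lam h
  obtain ⟨K, hK, hnear⟩ := hR.near hD (c / C₁) (by positivity)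
  intro ε hε
  have hδ0 : 0 < ε / (2 * K) := by positivity
  refine ⟨ε / (2 * K), hδ0, ?_⟩
  filter_upwards [hlam, (N4_top h).eventually (eventually_ge_atTop (1 / (ε / (2 * K))))] with n ⟨hn, ha, hl, _⟩ h2 m hm x hx
  have hn0 : (0 : ℝ) < n := by exact_mod_cast hn
  have ha0 : 0 < a n := h.pos n
  have hm0 : (0 : ℝ) < m := lt_of_lt_of_le (mul_pos hc hn0) hm
  set δ := ε / (2 * K) with hδd
  have h3 : 1 ≤ δ * a n := by
    rw [div_le_iff₀ hδ0] at h2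
    linarith
  have hcm : c / C₁ ≤ m * Lam ρ (a n) := by
    have h1 : c * n * Lam ρ (a n) ≤ m * Lam ρ (a n) := mul_le_mul_of_nonneg_right hm (Lam_nonneg _ _)
    have h2 : c * (1 / C₁) ≤ c * (n * Lam ρ (a n)) := mul_le_mul_of_nonneg_left hl hc.le
    calc c / C₁ = c * (1 / C₁) := by ring
      _ ≤ c * (n * Lam ρ (a n)) := h2
      _ = c * n * Lam ρ (a n) := by ring
      _ ≤ _ := h1
  have h4 := hnear m (a n) (2 * (δ * a n)) x (by exact_mod_cast hm0) ha (by linarith) hcm hx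
  refine (measureReal_mono fun u hu => ?_).trans (h4.trans (le_of_eq ?_))
  · have h5 : u ≤ δ * a n := hu
    show u < 2 * (δ * a n)
    linarith
  · rw [hδd]
    field_simp

end Pool.Agent.BPT
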