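import Pool.Agent.MP_99a865_pr.ST.N4b
import Pool.Agent.MP_99a865_pr.ST.A22
import Pool.Agent.MP_99a865_pr.ST.A24

/-!
# [STB-AC3] Contract, killed walk

Throughout: `Reg` from `N4_reg` (`p = (1+α)/2`), `Cen` from `N4_cen`, `1/C₁ ≤ n Lam (a n) ≤ C₁` from `N4_lam`, `a n → ∞` (`N4_top`), so
`a n ≥ 1` eventually; for `c n ≤ m`, `n` large: `m ≥ 1`, `m Lam (a n) ≥ c/C₁`.
-/

open MeasureTheory ProbabilityTheory Filter Topology
open scoped ENNReal NNReal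

namespace Pool.Agent.BPT

variable {α : ℝ} {ζ ρ : Measure ℝ} {a : ℕ → ℝ} {D : Set ℝ}

lemma AC3_reg (h : DA α ζ ρ a) : ∃ p C x₀ : ℝ, Reg ρ p C x₀ :=
  ⟨(1 + α) / 2, N4_reg h (by linarith [h.one]) (by linarith [h.one])⟩

lemma AC3_lam (h : DA α ζ ρ a) : ∃ C : ℝ, 1 ≤ C ∧ ∀ᶠ n : ℕ in atTop, 1 ≤ n ∧ 1 ≤ a n ∧
    1 / C ≤ n * Lam ρ (a n) ∧ n * Lam ρ (a n) ≤ C := by
  obtain ⟨C, hC, hl⟩ := N4_lam h
  refine ⟨C, hC, ?_⟩
  filter_upwards [eventually_ge_atTop 1, (N4_top h).eventually (eventually_ge_atTop 1)] with n h1 h2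
  exact ⟨h1, h2, hl n h1⟩

lemma AC3_cm {c C₁ : ℝ} (hc : 0 < c) {n m : ℕ} {L : ℝ} (hL : 0 ≤ L) (hm : c * n ≤ m)
    (hl : 1 / C₁ ≤ n * L) : c / C₁ ≤ m * L := by
  have h1 : c * n * L ≤ m * L := mul_le_mul_of_nonneg_right hm hL
  have h2 : c * (1 / C₁) ≤ c * (n * L) := mul_le_mul_of_nonneg_left hl hc.le
  calc c / C₁ = c * (1 / C₁) := by ring
    _ ≤ c * (n * L) := h2
    _ = c * n * L := by ring
    _ ≤ _ := h1

lemma AC3_vv (h : DA α ζ ρ a) (hD : Dom D) : ∃ C > (0 : ℝ), ∀ᶠ n : ℕ in atTop,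
    n ≤ C * (vr D ρ (a n) * vd D ρ (a n)) ∧ vr D ρ (a n) * vd D ρ (a n) ≤ C * n := by
  obtain ⟨p, C, x₀, hR⟩ := AC3_reg h
  have hcen := hR.cen
  obtain ⟨C₁, hC₁, hlam⟩ := AC3_lam h
  obtain ⟨K, hK, hle⟩ := hR.prod_le hD
  obtain ⟨c, hc, hge⟩ := hR.prod_ge hD
  refine ⟨C₁ / c + C₁ * K, by positivity, ?_⟩
  filter_upwards [hlam] with n ⟨hn, ha, hl1, hl2⟩
  have hn0 : (0 : ℝ) < n := by exact_mod_cast hn
  have hL : 0 < Lam ρ (a n) := Lam_pos hcen (by linarith)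
  have hv : 0 < vr D ρ (a n) := lt_of_lt_of_le one_pos (one_le_vr hD hcen _)
  have hw : 0 < vd D ρ (a n) := lt_of_lt_of_le one_pos (one_le_vd hD hcen _)
  have h1 := hle (a n) ha
  have h2 := hge (a n) ha
  set V : ℝ := vr D ρ (a n) * vd D ρ (a n) with hV
  have hV0 : 0 < V := mul_pos hv hw
  have h1' : Lam ρ (a n) * V ≤ K := by rw [hV, ← mul_assoc]; exact h1
  have h2' : c ≤ Lam ρ (a n) * V := by rw [hV, ← mul_assoc]; exact h2
  constructor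
  · -- `c n ≤ n Lam V ≤ C₁ V`
    have h3 : c * n ≤ C₁ * V := by
      calc c * n ≤ Lam ρ (a n) * V * n := mul_le_mul_of_nonneg_right h2' hn0.le
        _ = n * Lam ρ (a n) * V := by ring
        _ ≤ C₁ * V := mul_le_mul_of_nonneg_right hl2 hV0.le
    have h4 : (n : ℝ) ≤ C₁ / c * V := by
      rw [div_mul_eq_mul_div, le_div_iff₀ hc]
      linarith
    have h5 : 0 ≤ C₁ * K * V := by positivity
    linarith
  · have h3 : V ≤ C₁ * K * n := by
      have h4 : 1 ≤ C₁ * (n * Lam ρ (a n)) := by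
        rw [div_le_iff₀ (by linarith)] at hl1
        linarith
      calc V = 1 * V := (one_mul _).symm
        _ ≤ C₁ * (n * Lam ρ (a n)) * V := mul_le_mul_of_nonneg_right h4 hV0.le
        _ = C₁ * n * (Lam ρ (a n) * V) := by ring
        _ ≤ C₁ * n * K := mul_le_mul_of_nonneg_left h1' (by positivity)
        _ = C₁ * K * n := by ring
    have h5 : 0 ≤ C₁ / c * n := by positivity
    linarith

/-- (`Reg.win_vd` with `w = 2`, `vd (z+2) ≤ 3 vd (z+1)`) -/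
theorem AC_kap_win (h : DA α ζ ρ a) (hD : Dom D) {c : ℝ} (hc : 0 < c) : ∃ C > (0 : ℝ),
    ∀ᶠ n : ℕ in atTop, ∀ m : ℕ, c * n ≤ m → ∀ x z : ℝ, 0 ≤ x → 0 ≤ z →
      (kap D ρ m x).real (Set.Icc z (z + 1)) ≤ C / a n * (vd D ρ (z + 1) / vd D ρ (a n)) := by
  obtain ⟨p, C, x₀, hR⟩ := AC3_reg h
  have hcen := hR.cen
  have hp := hcen.prob
  obtain ⟨C₁, hC₁, hlam⟩ := AC3_lam h
  obtain ⟨K, hK, hwin⟩ := hR.win_vd hD (c / C₁) (by positivity)
  refine ⟨6 * K, by linarith, ?_⟩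
  filter_upwards [hlam] with n ⟨hn, ha, hl, _⟩ m hm x z hx hz
  have hn0 : (0 : ℝ) < n := by exact_mod_cast hn
  have ha0 : 0 < a n := h.pos n
  have hm0 : (0 : ℝ) < m := lt_of_lt_of_le (mul_pos hc hn0) hm
  have hw : 0 < vd D ρ (a n) := lt_of_lt_of_le one_pos (one_le_vd hD hcen _)
  have h1 := hwin m (a n) 2 x z (by exact_mod_cast hm0) ha (by norm_num)
    (AC3_cm hc (Lam_nonneg _ _) hm hl) hx hz
  have h2 : vd D ρ (z + 2) ≤ 3 * vd D ρ (z + 1) := by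
    have h3 := vd_ratio hD hcen (y := z + 1) (z := z + 2) (by linarith) (by linarith)
    refine h3.trans (mul_le_mul_of_nonneg_right ?_ (le_trans zero_le_one (one_le_vd hD hcen _)))
    have h4 : (z + 2) / (z + 1) ≤ 2 := by
      rw [div_le_iff₀ (by linarith)]
      linarith
    linarith
  refine (measureReal_mono (s₂ := Set.Ico z (z + 2)) fun u hu => ⟨hu.1, by linarith [hu.2]⟩).trans
    (h1.trans ?_)
  calc K * (2 / a n) * (vd D ρ (z + 2) / vd D ρ (a n))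
      ≤ K * (2 / a n) * (3 * vd D ρ (z + 1) / vd D ρ (a n)) :=
        mul_le_mul_of_nonneg_left (div_le_div_of_nonneg_right h2 hw.le) (by positivity)
    _ = 6 * K / a n * (vd D ρ (z + 1) / vd D ρ (a n)) := by ring

/-- (`Reg.hit_le`, `Lam (a n) ≤ C₁/n`. For `x < 0`: `m ≥ 2`, `hit m x = ∫ hit (m-1) ∂(kap 1 x)` (`hit_add`), `kap 1 x` lives on `[0,∞)`,
and `(m - 1) Lam (a n) ≥ c/(2 C₁)`.) -/
theorem AC_hit_le (h : DA α ζ ρ a) (hD : Dom D) {c : ℝ} (hc : 0 < c) : ∃ C > (0 : ℝ),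
    ∀ᶠ n : ℕ in atTop, ∀ m : ℕ, c * n ≤ m → (∀ x, hit D ρ m x ≤ C / n) ∧
      ∀ x, 0 ≤ x → hit D ρ m x ≤ C / n * (vr D ρ x / vr D ρ (a n)) := by
  obtain ⟨p, C, x₀, hR⟩ := AC3_reg h
  have hcen := hR.cen
  have hp := hcen.prob
  obtain ⟨C₁, hC₁, hlam⟩ := AC3_lam h
  obtain ⟨K, hK, hhit⟩ := hR.hit_le hD (c / 2 / C₁) (by positivity)
  refine ⟨K * C₁, by positivity, ?_⟩
  filter_upwards [hlam, tendsto_natCast_atTop_atTop.eventually (eventually_ge_atTop (2 / c))] with n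
    ⟨hn, ha, hl, hl2⟩ hn2 m hm
  have hn0 : (0 : ℝ) < n := by exact_mod_cast hn
  have ha0 : 0 < a n := h.pos n
  have hm2 : (2 : ℝ) ≤ m := by
    rw [div_le_iff₀ hc] at hn2
    linarith
  have hm2' : 2 ≤ m := by exact_mod_cast hm2
  have hLn : Lam ρ (a n) ≤ C₁ / n := by
    rw [le_div_iff₀ hn0]
    linarith
  have hK' : K * Lam ρ (a n) ≤ K * C₁ / n := by
    rw [mul_div_assoc]
    exact mul_le_mul_of_nonneg_left hLn (by linarith)
  obtain ⟨m', rfl⟩ : ∃ m', m = 1 + m' := ⟨m - 1, by omega⟩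
  have hc1 : c / 2 / C₁ ≤ ((1 + m' : ℕ) : ℝ) * Lam ρ (a n) := by
    have hc' : c / 2 * n ≤ ((1 + m' : ℕ) : ℝ) := by
      have : 0 ≤ c * n := by positivity
      linarith
    exact AC3_cm (half_pos hc) (Lam_nonneg _ _) hc' hl
  have hc2 : c / 2 / C₁ ≤ (m' : ℝ) * Lam ρ (a n) := by
    have hc' : c / 2 * n ≤ (m' : ℝ) := by
      push_cast at hm hm2
      linarith
    exact AC3_cm (half_pos hc) (Lam_nonneg _ _) hc' hl
  constructor
  · intro x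
    rcases le_or_gt 0 x with hx | hx
    · exact ((hhit (1 + m') (a n) x (by omega) ha hc1 hx).1).trans hK'
    · have h1 := hit_add hD (ρ := ρ) 1 m' (by omega) x
      have h0 : 0 ≤ K * C₁ / n := by positivity
      rw [← ENNReal.ofReal_le_ofReal_iff h0, h1]
      have h2 : ∀ᵐ w ∂(kap D ρ 1 x), ENNReal.ofReal (hit D ρ m' w) ≤ ENNReal.ofReal (K * C₁ / n) := by
        have h3 := kap_compl hD (ρ := ρ) 1 x (Or.inl le_rfl)
        have h4 : ∀ᵐ w ∂(kap D ρ 1 x), w ∈ D := h3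
        filter_upwards [h4] with w hw
        exact ENNReal.ofReal_le_ofReal
          (((hhit m' (a n) w (by omega) ha hc2 (hD.nonneg hw)).1).trans hK')
      refine (lintegral_mono_ae h2).trans ?_
      rw [lintegral_const]
      exact mul_le_of_le_one_right zero_le (kap_univ_le_one 1 x)
  · intro x hx
    have hv : 0 ≤ vr D ρ x / vr D ρ (a n) :=
      div_nonneg (le_trans zero_le_one (one_le_vr hD hcen _)) (le_trans zero_le_one (one_le_vr hD hcen _))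
    exact ((hhit (1 + m') (a n) x (by omega) ha hc1 hx).2).trans (mul_le_mul_of_nonneg_right hK' hv)

/-- (`ex_sum_le`, `Reg.ex_sum_ge`; `1/vr (a n) ≍ vd (a n)/n` by `AC_vv`) -/
theorem AC_ex_sum (h : DA α ζ ρ a) (hD : Dom D) : ∃ C > (0 : ℝ), ∀ᶠ n : ℕ in atTop,
    ∫⁻ w in Set.Icc 0 (a n), ex D ρ w * ENNReal.ofReal (vd D ρ (w + 1)) ≤
      ENNReal.ofReal (C * (a n * vd D ρ (a n) / n)) ∧
    ENNReal.ofReal (a n * vd D ρ (a n) / (C * n)) ≤
      ∫⁻ w in Set.Icc 0 (a n), ex D ρ w * ENNReal.ofReal (vd D ρ w) := by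
  obtain ⟨p, C, x₀, hR⟩ := AC3_reg h
  have hcen := hR.cen
  obtain ⟨C₁, hC₁, hlam⟩ := AC3_lam h
  obtain ⟨C₂, hC₂, hvv⟩ := AC3_vv h hD
  obtain ⟨K, hK, hle⟩ := ex_sum_le hD hcen
  obtain ⟨c, hc, hge⟩ := hR.ex_sum_ge hD
  refine ⟨K * C₂ + C₂ / c, by positivity, ?_⟩
  filter_upwards [hlam, hvv] with n ⟨hn, ha, _, _⟩ ⟨hv1, hv2⟩
  have hn0 : (0 : ℝ) < n := by exact_mod_cast hn
  have ha0 : 0 < a n := h.pos n
  have hv : 0 < vr D ρ (a n) := lt_of_lt_of_le one_pos (one_le_vr hD hcen _)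
  have hw : 0 < vd D ρ (a n) := lt_of_lt_of_le one_pos (one_le_vd hD hcen _)
  constructor
  · refine (hle (a n) ha).trans (ENNReal.ofReal_le_ofReal ?_)
    have h1 : a n / vr D ρ (a n) ≤ C₂ * (a n * vd D ρ (a n) / n) := by
      rw [← mul_div_assoc, div_le_div_iff₀ hv hn0]
      calc a n * n ≤ a n * (C₂ * (vr D ρ (a n) * vd D ρ (a n))) := mul_le_mul_of_nonneg_left hv1 ha0.le
        _ = C₂ * (a n * vd D ρ (a n)) * vr D ρ (a n) := by ring
    have h2 : 0 ≤ C₂ / c * (a n * vd D ρ (a n) / n) := by positivity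
    calc K * (a n / vr D ρ (a n)) ≤ K * (C₂ * (a n * vd D ρ (a n) / n)) :=
          mul_le_mul_of_nonneg_left h1 (by linarith)
      _ ≤ (K * C₂ + C₂ / c) * (a n * vd D ρ (a n) / n) := by linarith
  · refine le_trans (ENNReal.ofReal_le_ofReal ?_) (hge (a n) ha)
    have h1 : C₂ / c ≤ K * C₂ + C₂ / c := by
      have : 0 ≤ K * C₂ := by positivity
      linarith
    have h2 : a n * vd D ρ (a n) / ((K * C₂ + C₂ / c) * n) ≤ a n * vd D ρ (a n) / (C₂ / c * n) := by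
      refine div_le_div_of_nonneg_left (by positivity) (by positivity) ?_
      exact mul_le_mul_of_nonneg_right h1 hn0.le
    refine h2.trans ?_
    have h3 : a n * vd D ρ (a n) / (C₂ / c * n) = c * (a n * vd D ρ (a n) / (C₂ * n)) := by
      field_simp
    rw [h3]
    refine mul_le_mul_of_nonneg_left ?_ hc.le
    rw [div_le_div_iff₀ (by positivity) hv]
    calc a n * vd D ρ (a n) * vr D ρ (a n) = a n * (vr D ρ (a n) * vd D ρ (a n)) := by ring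
      _ ≤ a n * (C₂ * n) := mul_le_mul_of_nonneg_left hv2 ha0.le

/-- (`Reg.ex_tail`, `Lam (R a n) ≤ K₁ R^{-p} Lam (a n)`) -/
theorem AC_ex_tail (h : DA α ζ ρ a) (hD : Dom D) : ∃ C > (0 : ℝ), ∀ ε > (0 : ℝ), ∃ R > (0 : ℝ),
    ∀ᶠ n : ℕ in atTop, ∫⁻ w in Set.Ioi (a n), ex D ρ w ≤ ENNReal.ofReal (C * (a n / n)) ∧
      ∫⁻ w in Set.Ioi (R * a n), ex D ρ w ≤ ENNReal.ofReal (ε * (a n / n)) := by
  obtain ⟨p, C, x₀, hR⟩ := AC3_reg h
  have hcen := hR.cen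
  have hp1 : 0 < p - 1 := by linarith [hR.p1]
  obtain ⟨C₁, hC₁, hlam⟩ := AC3_lam h
  obtain ⟨K, hK, htail⟩ := hR.ex_tail hD
  obtain ⟨K₁, hK₁, hall⟩ := hR.all
  refine ⟨K * C₁, by positivity, fun ε hε => ?_⟩
  obtain ⟨R, hR1, hR2⟩ : ∃ R : ℝ, 1 ≤ R ∧ K * K₁ * C₁ * R ^ (1 - p) ≤ ε := by
    have ht : Tendsto (fun R : ℝ => K * K₁ * C₁ * R ^ (1 - p)) atTop (𝓝 (K * K₁ * C₁ * 0)) := by
      refine Tendsto.const_mul _ ?_
      have := tendsto_rpow_neg_atTop hp1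
      rwa [neg_sub] at this
    rw [mul_zero] at ht
    obtain ⟨R, h1, h2⟩ := ((eventually_ge_atTop (1 : ℝ)).and (ht.eventually (ge_mem_nhds hε))).exists
    exact ⟨R, h1, h2⟩
  have hR0 : 0 < R := by linarith
  refine ⟨R, hR0, ?_⟩
  filter_upwards [hlam] with n ⟨hn, ha, _, hl2⟩
  have hn0 : (0 : ℝ) < n := by exact_mod_cast hn
  have ha0 : 0 < a n := h.pos n
  have hLn : Lam ρ (a n) ≤ C₁ / n := by
    rw [le_div_iff₀ hn0]
    linarith
  constructor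
  · refine (htail (a n) ha).trans (ENNReal.ofReal_le_ofReal ?_)
    calc K * (a n * Lam ρ (a n)) ≤ K * (a n * (C₁ / n)) :=
          mul_le_mul_of_nonneg_left (mul_le_mul_of_nonneg_left hLn ha0.le) (by linarith)
      _ = K * C₁ * (a n / n) := by ring
  · refine (htail (R * a n) (by nlinarith)).trans (ENNReal.ofReal_le_ofReal ?_)
    have h1 := hall (a n) ha R hR1
    have h2 : R * R ^ (-p) = R ^ (1 - p) := by
      rw [sub_eq_add_neg, Real.rpow_add hR0, Real.rpow_one]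
    calc K * (R * a n * Lam ρ (R * a n)) ≤ K * (R * a n * (K₁ * R ^ (-p) * (C₁ / n))) := by
          refine mul_le_mul_of_nonneg_left (mul_le_mul_of_nonneg_left
            (h1.trans (mul_le_mul_of_nonneg_left hLn (by positivity))) (by positivity)) (by linarith)
      _ = K * K₁ * C₁ * (R * R ^ (-p)) * (a n / n) := by ring
      _ = K * K₁ * C₁ * R ^ (1 - p) * (a n / n) := by rw [h2]
      _ ≤ ε * (a n / n) := mul_le_mul_of_nonneg_right hR2 (by positivity)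

end Pool.Agent.BPT
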