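import Pool.Agent.MP_99a865_pr.ST.N4b
import Pool.Agent.MP_99a865_pr.ST.A15
import Pool.Agent.MP_99a865_pr.ST.A3
import Pool.Agent.MP_99a865_pr.ST.A6

/-!
# [STB-AC4] Contract, supplements

Throughout: `Reg` from `N4_reg` (`p = (1+α)/2`), `1/C₁ ≤ n Lam (a n) ≤ C₁` from `N4_lam`, `a n → ∞` (`N4_top`), so `a n ≥ 1` eventually.
-/

open MeasureTheory ProbabilityTheory Filter Topology
open scoped ENNReal NNReal

namespace Pool.Agent.BPT

variable {α : ℝ} {ζ ρ : Measure ℝ} {a : ℕ → ℝ} {D : Set ℝ}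

private theorem AC4_reg (h : DA α ζ ρ a) : ∃ p C x₀ : ℝ, Reg ρ p C x₀ :=
  ⟨(1 + α) / 2, N4_reg h (by linarith [h.one]) (by linarith [h.one])⟩

/-- PROOF. `c₀, t₀` from `Reg.char`, `δ = min t₀ 1`, `K₁` from `Reg.all`, `c = c₀/(K₁ C₁)`, `C = exp c`. `|s| < 1`: the left side is at most
one (`norm_charFun_le_one`). `|s| ≥ 1`: `t = s/a k`, `|t| ≤ δ`, `1/|t| = a k/|s| ≥ 1`; `Reg.all` with `y = 1/|t|`, `r = |s|`:
`Lam (a k) ≤ K₁ |s|^{-p} Lam (1/|t|)`, so `k Lam (1/|t|) ≥ |s|^p/(K₁ C₁) ≥ |s|/(K₁ C₁)`. -/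
theorem AC_char_dom (h : DA α ζ ρ a) : ∃ c > (0 : ℝ), ∃ δ > (0 : ℝ), ∃ C : ℝ, ∀ᶠ k : ℕ in atTop, ∀ s : ℝ,
    |s| ≤ δ * a k → ‖charFun ρ (s / a k)‖ ^ k ≤ C * Real.exp (-c * |s|) := by
  obtain ⟨p, C, x₀, hR⟩ := AC4_reg h
  have := h.prob
  obtain ⟨C₁, hC₁, hlam⟩ := N4_lam h
  obtain ⟨c₀, hc₀, t₀, ht₀, hchar⟩ := hR.char
  obtain ⟨K₁, hK₁, hall⟩ := hR.all
  have hp1 := hR.p1
  have hC₁0 : 0 < C₁ := by linarith
  have hK₁0 : 0 < K₁ := by linarith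
  set c : ℝ := c₀ / (K₁ * C₁) with hc
  have hc0 : 0 < c := by positivity
  refine ⟨c, hc0, min t₀ 1, lt_min ht₀ one_pos, Real.exp c, ?_⟩
  filter_upwards [eventually_ge_atTop 1] with k hk s hs
  have ha := h.pos k
  have hk0 : (0 : ℝ) < k := by exact_mod_cast hk
  rcases lt_or_ge |s| 1 with hs1 | hs1
  · have h1 : ‖charFun ρ (s / a k)‖ ^ k ≤ 1 := pow_le_one₀ (norm_nonneg _) (norm_charFun_le_one _)
    refine h1.trans ?_
    rw [← Real.exp_add]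
    refine Real.one_le_exp ?_
    nlinarith
  · have hs0 : 0 < |s| := by linarith
    set t : ℝ := s / a k with ht
    have htabs : |t| = |s| / a k := by rw [ht, abs_div, abs_of_pos ha]
    have ht0 : 0 < |t| := by rw [htabs]; positivity
    have htd : |t| ≤ min t₀ 1 := by rw [htabs, div_le_iff₀ ha]; exact hs
    have h1 := hchar t ht0 (htd.trans (min_le_left _ _))
    have hinv : 1 ≤ 1 / |t| := by
      rw [le_div_iff₀ ht0, one_mul]
      exact htd.trans (min_le_right _ _)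
    have h2 := hall (1 / |t|) hinv |s| hs1
    have e : |s| * (1 / |t|) = a k := by
      rw [htabs]
      field_simp
    rw [e] at h2
    have h3 := (hlam k hk).1
    have hLt : 0 ≤ Lam ρ (1 / |t|) := Lam_nonneg ρ _
    have hsp : |s| * |s| ^ (-p) ≤ 1 := by
      have h4 : |s| * |s| ^ (-p) = |s| ^ (1 + -p) := by
        rw [Real.rpow_add hs0, Real.rpow_one]
      rw [h4]
      exact Real.rpow_le_one_of_one_le_of_nonpos hs1 (by linarith)
    have h4 : |s| * (1 / C₁) ≤ K₁ * (k * Lam ρ (1 / |t|)) := by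
      calc |s| * (1 / C₁) ≤ |s| * (k * Lam ρ (a k)) := mul_le_mul_of_nonneg_left h3 hs0.le
        _ ≤ |s| * (k * (K₁ * |s| ^ (-p) * Lam ρ (1 / |t|))) :=
          mul_le_mul_of_nonneg_left (mul_le_mul_of_nonneg_left h2 hk0.le) hs0.le
        _ = (|s| * |s| ^ (-p)) * (K₁ * (k * Lam ρ (1 / |t|))) := by ring
        _ ≤ 1 * (K₁ * (k * Lam ρ (1 / |t|))) := mul_le_mul_of_nonneg_right hsp (by positivity)
        _ = K₁ * (k * Lam ρ (1 / |t|)) := one_mul _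
    have h5 : c * |s| ≤ c₀ * (k * Lam ρ (1 / |t|)) := by
      have h6 : c * |s| = c₀ / K₁ * (|s| * (1 / C₁)) := by
        rw [hc]
        field_simp
      rw [h6]
      calc c₀ / K₁ * (|s| * (1 / C₁)) ≤ c₀ / K₁ * (K₁ * (k * Lam ρ (1 / |t|))) :=
            mul_le_mul_of_nonneg_left h4 (by positivity)
        _ = c₀ * (k * Lam ρ (1 / |t|)) := by field_simp
    calc ‖charFun ρ t‖ ^ k ≤ Real.exp (-(c₀ * Lam ρ (1 / |t|))) ^ k :=
          pow_le_pow_left₀ (norm_nonneg _) h1 k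
      _ = Real.exp (-(c₀ * (k * Lam ρ (1 / |t|)))) := by
          rw [← Real.exp_nat_mul]
          congr 1
          ring
      _ ≤ Real.exp (-c * |s|) := Real.exp_le_exp.2 (by linarith)
      _ = 1 * Real.exp (-c * |s|) := (one_mul _).symm
      _ ≤ Real.exp c * Real.exp (-c * |s|) :=
          mul_le_mul_of_nonneg_right (Real.one_le_exp hc0.le) (Real.exp_pos _).le

/-- PROOF. `Reg.cheb` (`x = 0`) at the level `r a n ≥ 1`, `Lam (r a n) ≤ K₁ r^{-p} Lam (a n)` (`Reg.all`), `n Lam (a n) ≤ C₁`. -/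
theorem AC_upper (h : DA α ζ ρ a) : ∃ p > (1 : ℝ), ∃ C : ℝ, ∀ᶠ n : ℕ in atTop, ∀ r ≥ (1 : ℝ),
    (fre ρ n 0).real {y | r * a n ≤ |y|} ≤ C * r ^ (-p) := by
  obtain ⟨p, C, x₀, hR⟩ := AC4_reg h
  obtain ⟨C₁, hC₁, hlam⟩ := N4_lam h
  obtain ⟨K, hK, hcheb⟩ := hR.cheb
  obtain ⟨K₁, hK₁, hall⟩ := hR.all
  refine ⟨p, hR.p1, K * K₁ * C₁, ?_⟩
  filter_upwards [(N4_top h).eventually_ge_atTop 1, eventually_ge_atTop 1] with n hn hn1 r hr
  have hr0 : 0 < r := by linarith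
  have h1 : 1 ≤ r * a n := by nlinarith
  have h2 := (hcheb n (r * a n) h1).2.1 0
  have e : {z : ℝ | r * a n ≤ |z - 0|} = {y | r * a n ≤ |y|} := by
    ext z
    simp
  rw [e] at h2
  have h3 := hall (a n) hn r hr
  have h4 := (hlam n hn1).2
  have hrp : 0 < r ^ (-p) := Real.rpow_pos_of_pos hr0 _
  refine h2.trans ?_
  calc K * (n * Lam ρ (r * a n)) ≤ K * (n * (K₁ * r ^ (-p) * Lam ρ (a n))) :=
        mul_le_mul_of_nonneg_left (mul_le_mul_of_nonneg_left h3 (Nat.cast_nonneg n)) (by linarith)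
    _ = K * K₁ * r ^ (-p) * (n * Lam ρ (a n)) := by ring
    _ ≤ K * K₁ * r ^ (-p) * C₁ := mul_le_mul_of_nonneg_left h4 (by positivity)
    _ = K * K₁ * C₁ * r ^ (-p) := by ring

/-- PROOF. `Reg.vr_dom` for `dual ρ` (`Reg.rev`) and the domains `D`, `Dst D` (`dom_Dst`), both ways; `vd D ρ = vr (Dst D) (dual ρ)`. -/
theorem AC_vd_comp (h : DA α ζ ρ a) (hD : Dom D) : ∃ C > (0 : ℝ), ∀ x, 0 ≤ x →
    vr D (Pool.Agent.BPT.dual ρ) x ≤ C * vd D ρ x ∧ vd D ρ x ≤ C * vr D (Pool.Agent.BPT.dual ρ) x := by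
  obtain ⟨p, C, x₀, hR⟩ := AC4_reg h
  obtain ⟨K, hK, h1⟩ := Reg.vr_dom hD (dom_Dst hD) hR.rev
  obtain ⟨K', hK', h2⟩ := Reg.vr_dom (dom_Dst hD) hD hR.rev
  have := hR.rev.cen
  refine ⟨max K K', lt_of_lt_of_le (by linarith) (le_max_left _ _), fun x hx => ⟨?_, ?_⟩⟩
  · refine (h1 x hx).trans (mul_le_mul_of_nonneg_right (le_max_left _ _) ?_)
    exact zero_le_one.trans (one_le_vr (dom_Dst hD) this x)
  · refine (h2 x hx).trans (mul_le_mul_of_nonneg_right (le_max_right _ _) ?_)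
    exact zero_le_one.trans (one_le_vr hD this x)

end Pool.Agent.BPT
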