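import Pool.Agent.MP_99a865_pr.ST.N4a

/-! **[STB-N4b]** Regularity of the scale function. -/

open MeasureTheory ProbabilityTheory Filter Topology
open scoped ENNReal NNReal

namespace Pool.Agent.BPT

variable {α : ℝ} {ζ ρ : Measure ℝ} {a : ℕ → ℝ}

theorem N4b_dirac [IsProbabilityMeasure ρ] (h : ∀ᵐ x ∂ρ, x = 0) : ρ = Measure.dirac 0 := by
  have h0 : ρ {x : ℝ | ¬ x = 0} = 0 := h
  refine Measure.ext fun s hs => ?_
  by_cases h1 : (0 : ℝ) ∈ s
  · rw [Measure.dirac_apply_of_mem h1]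
    rw [← prob_compl_eq_zero_iff hs]
    refine measure_mono_null (fun x hx => ?_) h0
    rintro rfl
    exact hx h1
  · rw [Measure.dirac_apply' _ hs, Set.indicator_of_notMem h1]
    refine measure_mono_null (fun x hx => ?_) h0
    rintro rfl
    exact h1 hx

/-- a centred law which is not a point mass charges the negative half-line -/
theorem N4_cen (h : DA α ζ ρ a) : Cen ρ := by
  refine ⟨h.prob, h.int, h.mean, fun h0 => ?_⟩
  have := h.prob
  have h1 : ∀ᵐ x ∂ρ, 0 ≤ x := by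
    rw [ae_iff]
    simp only [not_le]
    exact h0
  have h2 : (fun x : ℝ => x) =ᵐ[ρ] 0 :=
    (integral_eq_zero_iff_of_nonneg_ae h1 h.int).1 h.mean
  exact h.nd 0 (N4b_dirac h2)

theorem N4b_Lam_nonneg (y : ℝ) : 0 ≤ Lam ρ y :=
  integral_nonneg fun _ => le_min zero_le_one (sq_nonneg _)

theorem N4b_GS_nonneg [IsProbabilityMeasure ρ] (y : ℝ) : 0 ≤ GS ρ y := by
  refine integral_nonneg fun p => ?_
  have h1 : -(p.1 - p.2) ^ 2 / (2 * y ^ 2) ≤ 0 := by
    apply div_nonpos_of_nonpos_of_nonneg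
    · have := sq_nonneg (p.1 - p.2)
      linarith
    · positivity
  have h2 := Real.exp_le_one_iff.2 h1
  simpa using h2

/-- **[STB-N4d]** PROOF. Let `1 < p < α`. By `DA.GS_reg` with `r = 2`, `GS(2y) ≤ 2^{-p} GS(y)` for `y ≥ y₁`. Iterate and
use `GS_anti`: for `2^k ≤ r < 2^{k+1}`, `GS(ry) ≤ GS(2^k y) ≤ 2^{-kp} GS y ≤ 2^p r^{-p} GS y`. By `GS_le_Lam`,
`Lam_le_GS`: `Lam(ry) ≤ C GS(ry) ≤ C 2^p r^{-p} GS y ≤ 2 C 2^p r^{-p} Lam y` for `y ≥ x₀ = max 1 (max y₀ y₁)`.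
-/
theorem N4_reg (h : DA α ζ ρ a) {p : ℝ} (hp : 1 < p) (hpα : p < α) : ∃ C x₀ : ℝ, Reg ρ p C x₀ := by
  have := h.prob
  obtain ⟨C, hC, y₀, hy₀, hLG⟩ := Lam_le_GS h.int h.mean h.nd
  have h1 := h.GS_reg (r := 2) two_pos
  have h2 : (2 : ℝ) ^ (-α) < 2 ^ (-p) := Real.rpow_lt_rpow_of_exponent_lt one_lt_two (by linarith)
  obtain ⟨y₁, hy₁⟩ := (h1.eventually_lt_const h2).exists_forall_of_atTop
  set x₀ : ℝ := max 1 (max y₀ y₁) with hx₀
  have hx1 : 1 ≤ x₀ := le_max_left _ _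
  have hx2 : y₀ ≤ x₀ := le_trans (le_max_left _ _) (le_max_right _ _)
  have hx3 : y₁ ≤ x₀ := le_trans (le_max_right _ _) (le_max_right _ _)
  have h3 : ∀ y, x₀ ≤ y → GS ρ (2 * y) ≤ 2 ^ (-p) * GS ρ y := by
    intro y hy
    have h4 := hy₁ y (hx3.trans hy)
    have h5 : 0 < GS ρ y := GS_pos h.nd (by linarith)
    rw [div_lt_iff₀ h5] at h4
    exact h4.le
  have h4 : ∀ k : ℕ, ∀ y, x₀ ≤ y → GS ρ (2 ^ k * y) ≤ ((2 : ℝ) ^ k) ^ (-p) * GS ρ y := by
    intro k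
    induction k with
    | zero => intro y _; simp
    | succ k ih =>
      intro y hy
      have h5 : x₀ ≤ 2 ^ k * y := by
        have h6 : (1 : ℝ) ≤ 2 ^ k := one_le_pow₀ one_le_two
        nlinarith
      have h6 := h3 _ h5
      have h7 : (2 : ℝ) ^ (k + 1) * y = 2 * (2 ^ k * y) := by ring
      rw [h7, pow_succ, Real.mul_rpow (by positivity) two_pos.le]
      refine h6.trans ?_
      have h8 := mul_le_mul_of_nonneg_left (ih y hy) (Real.rpow_nonneg two_pos.le (-p))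
      calc (2 : ℝ) ^ (-p) * GS ρ (2 ^ k * y) ≤ 2 ^ (-p) * (((2 : ℝ) ^ k) ^ (-p) * GS ρ y) := h8
        _ = _ := by ring
  have h5 : ∀ r : ℝ, 1 ≤ r → ∀ y, x₀ ≤ y → GS ρ (r * y) ≤ 2 ^ p * r ^ (-p) * GS ρ y := by
    intro r hr y hy
    obtain ⟨k, hk1, hk2⟩ := exists_nat_pow_near hr one_lt_two
    have hy0 : 0 < y := by linarith
    have h6 : GS ρ (r * y) ≤ GS ρ (2 ^ k * y) :=
      GS_anti (by positivity) (mul_le_mul_of_nonneg_right hk1 hy0.le)
    have h7 : ((2 : ℝ) ^ k) ^ (-p) ≤ 2 ^ p * r ^ (-p) := by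
      have h8 : r / 2 ≤ 2 ^ k := by
        rw [pow_succ] at hk2
        linarith
      have h9 : ((2 : ℝ) ^ k) ^ (-p) ≤ (r / 2) ^ (-p) :=
        Real.rpow_le_rpow_of_nonpos (by linarith) h8 (by linarith)
      refine h9.trans_eq ?_
      rw [Real.div_rpow (by linarith) two_pos.le, Real.rpow_neg two_pos.le, div_inv_eq_mul]
      ring
    exact h6.trans ((h4 k y hy).trans
      (mul_le_mul_of_nonneg_right h7 (N4b_GS_nonneg y)))
  refine ⟨max 1 (C * 2 ^ p * 2), x₀, N4_cen h, hp, by linarith [h.two], le_max_left _ _, hx1, ?_⟩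
  intro y hy r hr
  have hy0 : 0 < y := by linarith
  have hry : x₀ ≤ r * y := by nlinarith
  have h6 := hLG (r * y) (hx2.trans hry)
  have h7 := h5 r hr y hy
  have h8 : GS ρ y ≤ 2 * Lam ρ y := GS_le_Lam hy0
  have hr0 : 0 ≤ r ^ (-p) := Real.rpow_nonneg (by linarith) _
  have h20 : (0 : ℝ) ≤ 2 ^ p := Real.rpow_nonneg two_pos.le _
  calc Lam ρ (r * y) ≤ C * GS ρ (r * y) := h6
    _ ≤ C * (2 ^ p * r ^ (-p) * GS ρ y) := mul_le_mul_of_nonneg_left h7 hC.le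
    _ ≤ C * (2 ^ p * r ^ (-p) * (2 * Lam ρ y)) := by
        refine mul_le_mul_of_nonneg_left (mul_le_mul_of_nonneg_left h8 ?_) hC.le
        positivity
    _ = (C * 2 ^ p * 2) * (r ^ (-p) * Lam ρ y) := by ring
    _ ≤ max 1 (C * 2 ^ p * 2) * (r ^ (-p) * Lam ρ y) :=
        mul_le_mul_of_nonneg_right (le_max_right _ _) (mul_nonneg hr0 (N4b_Lam_nonneg y))
    _ = _ := by ring

theorem N4b_bdd {x : ℕ → ℝ} (hx : ∀ n, 1 ≤ n → 0 < x n) {A B : ℝ} (hA : 0 < A)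
    (h : ∀ᶠ n in atTop, A ≤ x n ∧ x n ≤ B) :
    ∃ C : ℝ, 1 ≤ C ∧ ∀ n : ℕ, 1 ≤ n → 1 / C ≤ x n ∧ x n ≤ C := by
  obtain ⟨N, hN⟩ := eventually_atTop.1 h
  set s : ℝ := ∑ n ∈ Finset.range N, (|x n| + |(x n)⁻¹|) with hs
  have hs0 : 0 ≤ s := Finset.sum_nonneg fun n _ => by positivity
  have hterm : ∀ n, n < N → |x n| ≤ s ∧ |(x n)⁻¹| ≤ s := by
    intro n hn
    have h1 : |x n| + |(x n)⁻¹| ≤ s :=
      Finset.single_le_sum (f := fun n => |x n| + |(x n)⁻¹|) (fun n _ => by positivity)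
        (Finset.mem_range.2 hn)
    constructor
    · linarith [abs_nonneg (x n)⁻¹]
    · linarith [abs_nonneg (x n)]
  set C : ℝ := 1 + |B| + A⁻¹ + s with hC
  have hAi : 0 < A⁻¹ := inv_pos.2 hA
  have hC1 : 1 ≤ C := by
    have := abs_nonneg B
    rw [hC]; linarith
  have hC0 : 0 < C := by linarith
  refine ⟨C, hC1, fun n hn => ?_⟩
  have hxn := hx n hn
  have key : (x n)⁻¹ ≤ C ∧ x n ≤ C := by
    rcases lt_or_ge n N with h1 | h1
    · obtain ⟨h2, h3⟩ := hterm n h1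
      have h4 := le_abs_self (x n)
      have h5 := le_abs_self (x n)⁻¹
      have := abs_nonneg B
      constructor <;> rw [hC] <;> linarith
    · obtain ⟨h2, h3⟩ := hN n h1
      have h4 : (x n)⁻¹ ≤ A⁻¹ := inv_anti₀ hA h2
      have h5 := le_abs_self B
      have := abs_nonneg B
      constructor <;> rw [hC] <;> linarith
  refine ⟨?_, key.2⟩
  rw [one_div]
  exact inv_le_of_inv_le₀ hxn key.1

/-- **[STB-N4e]** PROOF. For `n ≥ n₀` (`a n ≥ y₀`, `N4_top`) `n Lam (a n)` is between `n GS(a n)/2` and `C n GS (a n)`, and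
`n GS (a n) → κ > 0`. For the finitely many other `n ≥ 1`, `0 < Lam ρ (a n) ≤ 1` (`Lam ρ y > 0` for `y > 0` since `ρ` is not
`dirac 0`). -/
theorem N4_lam (h : DA α ζ ρ a) : ∃ C : ℝ, 1 ≤ C ∧ ∀ n : ℕ, 1 ≤ n →
    1 / C ≤ n * Lam ρ (a n) ∧ n * Lam ρ (a n) ≤ C := by
  have := h.prob
  obtain ⟨C, hC, y₀, hy₀, hLG⟩ := Lam_le_GS h.int h.mean h.nd
  obtain ⟨κ, hκ, hlim⟩ := h.GS_lim
  have h1 := hlim 1 one_pos
  simp only [div_one, Real.one_rpow, mul_one] at h1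
  refine N4b_bdd (x := fun n : ℕ => n * Lam ρ (a n)) ?_ (A := κ / 4) (B := C * (2 * κ)) (by positivity) ?_
  · intro n hn
    have h2 : 0 < GS ρ (a n) := GS_pos h.nd (h.pos n)
    have h3 : GS ρ (a n) ≤ 2 * Lam ρ (a n) := GS_le_Lam (h.pos n)
    have h4 : (0 : ℝ) < n := by exact_mod_cast hn
    have h5 : 0 < Lam ρ (a n) := by linarith
    positivity
  · filter_upwards [h1.eventually_lt_const (show κ < 2 * κ by linarith),
      h1.eventually_const_lt (show κ / 2 < κ by linarith), (N4_top h).eventually_ge_atTop y₀]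
      with n h2 h3 h4
    have h5 : GS ρ (a n) ≤ 2 * Lam ρ (a n) := GS_le_Lam (h.pos n)
    have h6 := hLG _ h4
    have h7 : (0 : ℝ) ≤ n := Nat.cast_nonneg n
    have h8 := mul_le_mul_of_nonneg_left h5 h7
    have h9 := mul_le_mul_of_nonneg_left h6 h7
    constructor
    · linarith
    · calc (n : ℝ) * Lam ρ (a n) ≤ n * (C * GS ρ (a n)) := h9
        _ = C * (n * GS ρ (a n)) := by ring
        _ ≤ C * (2 * κ) := mul_le_mul_of_nonneg_left h2.le hC.le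

/-- **[STB-N4f]** PROOF. With `p > 1` as in `N4_reg` and `y = a n ≥ x₀`, `r = a n / x₀ ≥ 1`:
`1/(C n) ≤ Lam(a_n) ≤ C (a_n/x₀)^{-p} Lam(x₀)`, so `a_n^p ≤ C' n` and `n / a_n ≥ n^{1 - 1/p} / C''`. -/
theorem N4_sub (h : DA α ζ ρ a) : Tendsto (fun n : ℕ => (n : ℝ) / a n) atTop atTop := by
  have := h.prob
  have hα := h.one
  obtain ⟨p, hp1, hp2⟩ : ∃ p : ℝ, 1 < p ∧ p < α := ⟨(1 + α) / 2, by linarith, by linarith⟩
  obtain ⟨C, x₀, hreg⟩ := N4_reg h hp1 hp2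
  obtain ⟨C', hC', hlam⟩ := N4_lam h
  have hp0 : 0 < p := by linarith
  have hx₀ : 0 < x₀ := by linarith [hreg.x1]
  have hC0 : 0 < C := by linarith [hreg.C1]
  have hC'0 : 0 < C' := by linarith
  -- the constant
  set K : ℝ := C * C' * (Lam ρ x₀ + 1) with hK
  have hL0 : 0 ≤ Lam ρ x₀ := N4b_Lam_nonneg x₀
  have hK0 : 0 < K := by positivity
  have hlow : ∀ᶠ n : ℕ in atTop, (n : ℝ) ^ (1 - 1 / p) / (x₀ * K ^ (1 / p)) ≤ (n : ℝ) / a n := by
    filter_upwards [(N4_top h).eventually_ge_atTop x₀, eventually_ge_atTop 1] with n hn hn1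
    have hn0 : (0 : ℝ) < n := by exact_mod_cast hn1
    have hr : 1 ≤ a n / x₀ := by rw [le_div_iff₀ hx₀]; linarith
    have hr0 : 0 < a n / x₀ := by linarith
    have h1 := hreg.reg x₀ le_rfl (a n / x₀) hr
    rw [div_mul_cancel₀ _ hx₀.ne'] at h1
    have h2 := (hlam n hn1).1
    have h3 : 1 / C' ≤ n * (C * (a n / x₀) ^ (-p) * Lam ρ x₀) :=
      h2.trans (mul_le_mul_of_nonneg_left h1 hn0.le)
    have h4 : (a n / x₀) ^ p ≤ K * n := by
      have h5 : 0 < (a n / x₀) ^ p := Real.rpow_pos_of_pos hr0 p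
      rw [Real.rpow_neg hr0.le] at h3
      have h6 : (a n / x₀) ^ p * (1 / C') ≤ n * (C * Lam ρ x₀) := by
        have h7 := mul_le_mul_of_nonneg_left h3 h5.le
        refine h7.trans_eq ?_
        field_simp
      have h8 : (a n / x₀) ^ p ≤ n * (C * Lam ρ x₀) * C' := by
        rw [mul_one_div, div_le_iff₀ hC'0] at h6
        exact h6
      refine h8.trans ?_
      rw [hK]
      have : (0 : ℝ) ≤ n * C * C' := by positivity
      nlinarith
    have h5 : a n / x₀ ≤ (K * n) ^ (1 / p) := by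
      have h6 := Real.rpow_le_rpow (Real.rpow_nonneg hr0.le p) h4 (one_div_nonneg.2 hp0.le)
      rwa [← Real.rpow_mul hr0.le, mul_one_div_cancel hp0.ne', Real.rpow_one] at h6
    rw [Real.mul_rpow hK0.le hn0.le, div_le_iff₀ hx₀] at h5
    rw [div_le_div_iff₀ (by positivity) (h.pos n)]
    have h6 : (n : ℝ) ^ (1 - 1 / p) * (n : ℝ) ^ (1 / p) = n := by
      rw [← Real.rpow_add hn0]
      simp
    have h7 : 0 ≤ (n : ℝ) ^ (1 - 1 / p) := Real.rpow_nonneg hn0.le _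
    calc (n : ℝ) ^ (1 - 1 / p) * a n ≤ (n : ℝ) ^ (1 - 1 / p) * (K ^ (1 / p) * (n : ℝ) ^ (1 / p) * x₀) :=
          mul_le_mul_of_nonneg_left h5 h7
      _ = ((n : ℝ) ^ (1 - 1 / p) * (n : ℝ) ^ (1 / p)) * (x₀ * K ^ (1 / p)) := by ring
      _ = _ := by rw [h6]
  refine tendsto_atTop_mono' atTop hlow ?_
  refine Tendsto.atTop_div_const (by positivity) ?_
  have h1 : 0 < 1 - 1 / p := by
    rw [sub_pos, div_lt_one hp0]
    exact hp1
  exact (tendsto_rpow_atTop h1).comp tendsto_natCast_atTop_atTop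

theorem N4b_char (μ : Measure ℝ) (t : ℝ) : charFun (dual μ) t = charFun μ (-t) := by
  have h1 : dual μ = μ.map (fun x => (-1 : ℝ) * x) := by
    unfold dual
    congr 1
    funext x
    ring
  rw [h1, charFun_map_mul]
  congr 1
  ring

/-- (`charFun (dual ρ) t = charFun ρ (-t)`, which tends to `charFun ζ (-t) = charFun (dual ζ) t`) -/
theorem N4_dual (h : DA α ζ ρ a) : DA α (dual ζ) (dual ρ) a := by
  have := h.prob
  refine ⟨h.one, h.two, h.ss.dual, Measure.isProbabilityMeasure_map (by fun_prop), ?_, ?_, h.pos, ?_⟩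
  · unfold dual
    rw [integrable_map_measure (by fun_prop) (by fun_prop)]
    exact h.int.neg
  · unfold dual
    rw [integral_map (by fun_prop) (by fun_prop), integral_neg, h.mean, neg_zero]
  · intro t
    have h1 := h.lim (-t)
    rw [N4b_char]
    refine h1.congr fun n => ?_
    rw [N4b_char, neg_div]

end Pool.Agent.BPT
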