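import Pool.Agent.MP_99a865_pr.ST.QD
import Pool.Agent.MP_99a865_pr.ST.N4b
import Pool.Agent.MP_99a865_pr.ST.A25
import Pool.Agent.MP_99a865_pr.ST.A26

/-!
# [STB-AQ] The estimates used by the queue block (structure `QS`) from the potential theory
-/

open MeasureTheory ProbabilityTheory Filter Topology
open scoped ENNReal NNReal

namespace Pool.Agent.BPT

variable {α : ℝ} {ζ ρ μ ν : Measure ℝ} {a : ℕ → ℝ} {D : Set ℝ} {p C x₀ : ℝ}

/-- PROOF. `x ≥ 0`: `Reg.hit_sup`. `x < 0`: `m = 1`: `hit ≤ 1`. `m ≥ 2`: `ofReal (hit m x) = ∫⁻ z, ofReal (hit (m-1) z) ∂(kap D ρ 1 x)`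
(`hit_add`), `kap D ρ 1 x` lives on `D ⊆ [0,∞)` (`kap_compl`) and has mass at most one, so `hit m x ≤ K/(m-1) ≤ 2K/m`. -/
theorem Reg.hit_all (hD : Dom D) (h : Reg ρ p C x₀) : ∃ K : ℝ, 1 ≤ K ∧ ∀ (m : ℕ) (x : ℝ), 1 ≤ m →
    hit D ρ m x ≤ K / m := by
  have hpr := h.cen.prob
  obtain ⟨K, hK, hs⟩ := h.hit_sup hD
  refine ⟨2 * K, by linarith, ?_⟩
  intro m x hm
  have hm0 : (0 : ℝ) < m := by exact_mod_cast hm
  rcases le_or_gt 0 x with hx | hx
  · refine (hs m x hm hx).trans ?_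
    exact div_le_div_of_nonneg_right (by linarith) hm0.le
  · rcases Nat.lt_or_ge 1 m with h1 | h1
    · obtain ⟨l, rfl⟩ : ∃ l, m = 1 + l := ⟨m - 1, by omega⟩
      have hl : 1 ≤ l := by omega
      have hl0 : (0 : ℝ) < l := by exact_mod_cast hl
      have e := hit_add hD (ρ := ρ) 1 l hl x
      have hb : ∫⁻ w, ENNReal.ofReal (hit D ρ l w) ∂(kap D ρ 1 x) ≤ ENNReal.ofReal (K / l) := by
        have hc := kap_compl (ρ := ρ) hD 1 x (Or.inl le_rfl)
        calc ∫⁻ w, ENNReal.ofReal (hit D ρ l w) ∂(kap D ρ 1 x)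
            ≤ ∫⁻ _, ENNReal.ofReal (K / l) ∂(kap D ρ 1 x) := by
              refine lintegral_mono_ae ?_
              have hae : ∀ᵐ w ∂(kap D ρ 1 x), w ∈ D := by
                rw [ae_iff]
                exact hc
              filter_upwards [hae] with w hw
              refine ENNReal.ofReal_le_ofReal (hs l w hl ?_)
              rcases hD with rfl | rfl
              · exact hw
              · exact le_of_lt hw
          _ = ENNReal.ofReal (K / l) * kap D ρ 1 x Set.univ := by rw [lintegral_const]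
          _ ≤ ENNReal.ofReal (K / l) * 1 := mul_le_mul' le_rfl (kap_univ_le_one 1 x)
          _ = ENNReal.ofReal (K / l) := mul_one _
      rw [← e] at hb
      have h2 : hit D ρ (1 + l) x ≤ K / l := by
        rwa [ENNReal.ofReal_le_ofReal_iff (by positivity)] at hb
      refine h2.trans ?_
      rw [div_le_div_iff₀ hl0 hm0]
      push_cast
      have : (1 : ℝ) ≤ l := by exact_mod_cast hl
      nlinarith
    · have : m = 1 := by omega
      subst this
      refine (hit_le_one 1 x).trans ?_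
      rw [Nat.cast_one, div_one]
      linarith

/-- PROOF. `alive_max` with `x = 0`, `vr_zero`; transfer by `steps 1` (`map_steps_gen`, `Q1_alive_iff`, `Q1_S`). -/
theorem queue_alive_max (hD : Dom D) (hQ : QI μ ν) (hρ : Cen (stepLaw μ ν 1)) (n : ℕ) (y : ℝ) :
    (PQ μ ν).real {ω | ∃ j ≤ n, AliveQ D j ω ∧ y ≤ Zw j ω} ≤ 1 / vr D (stepLaw μ ν 1) y := by
  have hpμ := hQ.probμ
  have hpν := hQ.probν
  have hpr := hρ.prob
  have h1 := alive_max hD hρ n 0 y le_rfl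
  rw [vr_zero hD hρ] at h1
  refine le_trans ?_ h1
  have e : {ω : ℕ → ℝ × ℝ | ∃ j ≤ n, AliveQ D j ω ∧ y ≤ Zw j ω} =
      steps 1 ⁻¹' {ω : ℕ → ℝ | ∃ j ≤ n, Alive D 0 j ω ∧ y ≤ 0 + S j ω} := by
    ext ω
    show (∃ j ≤ n, AliveQ D j ω ∧ y ≤ Zw j ω) ↔
      (∃ j ≤ n, Alive D 0 j (steps 1 ω) ∧ y ≤ 0 + S j (steps 1 ω))
    simp only [Q1_alive_iff hD, Q1_S, zero_add]
  rw [measureReal_def, measureReal_def, e]
  refine ENNReal.toReal_mono (measure_ne_top _ _) ?_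
  rw [← map_steps_gen (μ := μ) (ν := ν) 1]
  exact Measure.le_map_apply measurable_steps.aemeasurable _

private theorem AQ_L_le {ρ : Measure ℝ} (h : Reg ρ p C x₀) : ∀ᶠ K : ℝ in atTop, ∀ y r : ℝ, 16 ≤ y → 1 ≤ r →
    r ^ p * Lam ρ (r * y) ≤ K * Lam ρ y := by
  obtain ⟨K₁, hK₁, h1⟩ := h.all
  filter_upwards [eventually_ge_atTop K₁] with K hK y r hy hr
  have h2 := h1 y (by linarith) r hr
  have hr0 : 0 < r := by linarith
  have h3 : 0 < r ^ p := Real.rpow_pos_of_pos hr0 p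
  have h4 : r ^ p * (K₁ * r ^ (-p) * Lam ρ y) = K₁ * Lam ρ y := by
    rw [Real.rpow_neg hr0.le]
    field_simp
  calc r ^ p * Lam ρ (r * y) ≤ r ^ p * (K₁ * r ^ (-p) * Lam ρ y) :=
        mul_le_mul_of_nonneg_left h2 h3.le
    _ = K₁ * Lam ρ y := h4
    _ ≤ K * Lam ρ y := mul_le_mul_of_nonneg_right hK (Lam_nonneg _ _)

private theorem AQ_L_a {ρ : Measure ℝ} (h : DA α ζ ρ a) : ∀ᶠ K : ℝ in atTop, ∀ n : ℕ, 1 ≤ n →
    1 ≤ K * (n * Lam ρ (max (a n) 16)) ∧ n * Lam ρ (max (a n) 16) ≤ K := by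
  have hρ := N4_cen h
  have hpr := hρ.prob
  obtain ⟨C₁, hC₁, h1⟩ := N4_lam h
  have hl : 0 < Lam ρ 16 := Lam_pos hρ (by norm_num)
  filter_upwards [eventually_ge_atTop C₁, eventually_ge_atTop (1 / Lam ρ 16)] with K hK hK2 n hn
  have hn1 : (1 : ℝ) ≤ n := by exact_mod_cast hn
  obtain ⟨h2, h3⟩ := h1 n hn
  have hC0 : 0 < C₁ := by linarith
  constructor
  · rcases le_total 16 (a n) with ha | ha
    · rw [max_eq_left ha]
      rw [div_le_iff₀ hC0] at h2
      have h4 : 0 ≤ n * Lam ρ (a n) := by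
        have := Lam_nonneg ρ (a n)
        positivity
      nlinarith
    · rw [max_eq_right ha]
      rw [div_le_iff₀ hl] at hK2
      have hK0 : 0 < K := by linarith
      have : Lam ρ 16 ≤ n * Lam ρ 16 := by nlinarith
      calc (1 : ℝ) ≤ K * Lam ρ 16 := hK2
        _ ≤ K * (n * Lam ρ 16) := mul_le_mul_of_nonneg_left this hK0.le
  · have h4 : Lam ρ (max (a n) 16) ≤ Lam ρ (a n) := Lam_anti (h.pos n) (le_max_left _ _)
    have h5 : n * Lam ρ (max (a n) 16) ≤ n * Lam ρ (a n) := mul_le_mul_of_nonneg_left h4 (by linarith)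
    linarith

private theorem AQ_V_ge {ρ : Measure ℝ} (hD : Dom D) (h : Reg ρ p C x₀) : ∀ᶠ K : ℝ in atTop,
    ∀ y r : ℝ, 16 ≤ y → 1 ≤ r → r ^ (p - 1) * vr D ρ y ≤ K * vr D ρ (r * y) := by
  obtain ⟨c, hc, h1⟩ := h.vr_lower hD
  filter_upwards [eventually_ge_atTop (1 / c)] with K hK y r hy hr
  have h2 := h1 y r (by linarith) hr
  rw [div_le_iff₀ hc] at hK
  have hv : 1 ≤ vr D ρ (r * y) := one_le_vr hD h.cen _
  have hr0 : 0 < r := by linarith
  have h3 : 0 < r ^ (p - 1) := Real.rpow_pos_of_pos hr0 _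
  have hv2 : 1 ≤ vr D ρ y := one_le_vr hD h.cen _
  have hK0 : 0 < K := by
    by_contra hcon
    push Not at hcon
    nlinarith
  calc r ^ (p - 1) * vr D ρ y ≤ (K * c) * (r ^ (p - 1) * vr D ρ y) := by
        have : 0 < r ^ (p - 1) * vr D ρ y := by positivity
        nlinarith
    _ = K * (c * r ^ (p - 1) * vr D ρ y) := by ring
    _ ≤ K * vr D ρ (r * y) := mul_le_mul_of_nonneg_left h2 hK0.le

private theorem AQ_V_le {ρ : Measure ℝ} (hD : Dom D) (hρ : Cen ρ) : ∀ᶠ K : ℝ in atTop,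
    ∀ y r : ℝ, 16 ≤ y → 1 ≤ r → vr D ρ (r * y) ≤ K * r * vr D ρ y := by
  filter_upwards [eventually_ge_atTop 2] with K hK y r hy hr
  have hy0 : 0 < y := by linarith
  have h1 := vr_ratio hD hρ hy0 (z := r * y) (by nlinarith)
  have h2 : r * y / y = r := by field_simp
  rw [h2] at h1
  have hv2 : 1 ≤ vr D ρ y := one_le_vr hD hρ _
  refine h1.trans (mul_le_mul_of_nonneg_right ?_ (by linarith))
  nlinarith

private theorem AQ_LVV {ρ : Measure ℝ} (hD : Dom D) (h : Reg ρ p C x₀) : ∀ᶠ K : ℝ in atTop,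
    ∀ y, 1 ≤ y → 1 ≤ K * (Lam ρ y * vr D ρ y * vd D ρ y) ∧ Lam ρ y * vr D ρ y * vd D ρ y ≤ K := by
  obtain ⟨c, hc, h1⟩ := h.prod_ge hD
  obtain ⟨K₂, hK₂, h2⟩ := h.prod_le hD
  filter_upwards [eventually_ge_atTop (1 / c), eventually_ge_atTop K₂] with K hK hK' y hy
  rw [div_le_iff₀ hc] at hK
  refine ⟨?_, (h2 y hy).trans hK'⟩
  have hK0 : 0 < K := by linarith
  exact hK.trans (mul_le_mul_of_nonneg_left (h1 y hy) hK0.le)

private theorem AQ_green {ρ : Measure ℝ} (hD : Dom D) (h : Reg ρ p C x₀) : ∀ᶠ K : ℝ in atTop,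
    ∀ y, 16 ≤ y → GG D ρ y ≤ ENNReal.ofReal (K * vd D ρ y) := by
  have hpr := h.cen.prob
  filter_upwards [eventually_ge_atTop 3] with K hK y hy
  refine (GG_le hD y (by linarith)).trans ?_
  rw [VV_eq (dom_Dst hD) h.rev.cen]
  refine ENNReal.ofReal_le_ofReal ?_
  show vd D ρ (y + 1) ≤ K * vd D ρ y
  have hy0 : 0 < y := by linarith
  have h1 := vd_ratio hD h.cen hy0 (z := y + 1) (by linarith)
  have hv2 : 1 ≤ vd D ρ y := one_le_vd hD h.cen _
  refine h1.trans (mul_le_mul_of_nonneg_right ?_ (by linarith))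
  have : (y + 1) / y ≤ 2 := by rw [div_le_iff₀ hy0]; linarith
  linarith

private theorem AQ_c {ρ : Measure ℝ} (h : DA α ζ ρ a) : ∃ K₇ : ℝ, 1 ≤ K₇ ∧ (∀ n : ℕ, 1 ≤ n →
    n * Lam ρ (max (a n) 16) ≤ K₇) ∧ ∀ n i : ℕ, 1 ≤ n → n ≤ 4 * i →
      1 / (4 * K₇) ≤ i * Lam ρ (max (a n) 16) := by
  have hρ := N4_cen h
  have hpr := hρ.prob
  obtain ⟨K₇, h7, hK₇⟩ := ((AQ_L_a h).and (eventually_ge_atTop 1)).exists
  refine ⟨K₇, hK₇, fun n hn => (h7 n hn).2, ?_⟩
  intro n i hn hni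
  have h1 := (h7 n hn).1
  have hK0 : 0 < K₇ := by linarith
  have hL := Lam_nonneg ρ (max (a n) 16)
  have h2 : (n : ℝ) ≤ 4 * i := by exact_mod_cast hni
  rw [div_le_iff₀ (by positivity)]
  have h3 : n * Lam ρ (max (a n) 16) ≤ 4 * i * Lam ρ (max (a n) 16) :=
    mul_le_mul_of_nonneg_right h2 hL
  nlinarith

private theorem AQ_kap {ρ : Measure ℝ} (hD : Dom D) (hda : DA α ζ ρ a) (h : Reg ρ p C x₀) :
    ∀ᶠ K : ℝ in atTop, ∀ n i : ℕ, 1 ≤ n → n ≤ 4 * i → i ≤ 2 * n → ∀ z : ℝ, 0 ≤ z →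
      (kap D ρ i 0).real (Set.Ico z (z + 1)) ≤
        K * vd D ρ (z + 16) / (n * max (a n) 16) := by
  have hpr := h.cen.prob
  obtain ⟨K₇, hK₇, hup, hlo⟩ := AQ_c hda
  obtain ⟨K₁, hK₁, hw⟩ := h.win hD (1 / (4 * K₇)) (by positivity)
  obtain ⟨c, hc, hpg⟩ := h.prod_ge hD
  filter_upwards [eventually_ge_atTop (K₁ * K₇ / c)] with K hK n i hn hni _ z hz
  have hn0 : (0 : ℝ) < n := by exact_mod_cast hn
  have hi : 1 ≤ i := by omega
  set y := max (a n) 16 with hy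
  have hy16 : 16 ≤ y := le_max_right _ _
  have hy1 : 1 ≤ y := by linarith
  have hy0 : 0 < y := by linarith
  have h1 := hw i y 1 0 z hi hy1 le_rfl (hlo n i hn hni) le_rfl hz
  rw [vr_zero hD h.cen] at h1
  have hvr : 1 ≤ vr D ρ y := one_le_vr hD h.cen _
  have hvd : 1 ≤ vd D ρ y := one_le_vd hD h.cen _
  have hvdz : vd D ρ (z + 1) ≤ vd D ρ (z + 16) := vd_mono hD h.cen (by linarith)
  have hvdz1 : 1 ≤ vd D ρ (z + 1) := one_le_vd hD h.cen _
  have hvdz16 : 1 ≤ vd D ρ (z + 16) := one_le_vd hD h.cen _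
  have hLp : 0 < Lam ρ y := Lam_pos h.cen hy0
  have h2 : c * n ≤ K₇ * (vr D ρ y * vd D ρ y) := by
    have e1 := hpg y hy1
    have e2 := hup n hn
    have e3 : 0 < vr D ρ y * vd D ρ y := by positivity
    calc c * n ≤ Lam ρ y * vr D ρ y * vd D ρ y * n := mul_le_mul_of_nonneg_right e1 hn0.le
      _ = (n * Lam ρ y) * (vr D ρ y * vd D ρ y) := by ring
      _ ≤ K₇ * (vr D ρ y * vd D ρ y) := mul_le_mul_of_nonneg_right e2 e3.le
  refine h1.trans ?_
  have hprod : 0 < vr D ρ y * vd D ρ y := by positivity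
  have e4 : 1 / (vr D ρ y * vd D ρ y) ≤ K₇ / (c * n) := by
    rw [div_le_div_iff₀ hprod (by positivity)]
    linarith
  calc K₁ * (1 / y) * (1 / vr D ρ y) * (vd D ρ (z + 1) / vd D ρ y)
      = K₁ / y * vd D ρ (z + 1) * (1 / (vr D ρ y * vd D ρ y)) := by field_simp
    _ ≤ K₁ / y * vd D ρ (z + 16) * (K₇ / (c * n)) := by
        apply mul_le_mul _ e4 (by positivity) (by positivity)
        exact mul_le_mul_of_nonneg_left hvdz (by positivity)
    _ = (K₁ * K₇ / c) * vd D ρ (z + 16) / (n * y) := by field_simp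
    _ ≤ K * vd D ρ (z + 16) / (n * y) := by
        apply div_le_div_of_nonneg_right _ (by positivity)
        exact mul_le_mul_of_nonneg_right hK (by linarith)

private theorem AQ_hitV {ρ : Measure ℝ} (hD : Dom D) (hda : DA α ζ ρ a) (h : Reg ρ p C x₀) :
    ∀ᶠ K : ℝ in atTop, ∀ (n m : ℕ) (x : ℝ), 1 ≤ m → m ≤ n → n ≤ 4 * m → 0 ≤ x →
      hit D ρ m x ≤ K * vr D ρ x / (n * vr D ρ (max (a n) 16)) := by
  have hpr := h.cen.prob
  obtain ⟨K₇, hK₇, hup, hlo⟩ := AQ_c hda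
  obtain ⟨K₁, hK₁, hw⟩ := h.hit_le hD (1 / (4 * K₇)) (by positivity)
  filter_upwards [eventually_ge_atTop (K₁ * K₇)] with K hK n m x hm hmn hnm hx
  have hn : 1 ≤ n := hm.trans hmn
  have hn0 : (0 : ℝ) < n := by exact_mod_cast hn
  set y := max (a n) 16 with hy
  have hy16 : 16 ≤ y := le_max_right _ _
  have hy1 : 1 ≤ y := by linarith
  have h1 := (hw m y x hm hy1 (hlo n m hn hnm) hx).2
  have hvr : 1 ≤ vr D ρ y := one_le_vr hD h.cen _
  have hvx : 1 ≤ vr D ρ x := one_le_vr hD h.cen _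
  have h2 : Lam ρ y ≤ K₇ / n := by
    rw [le_div_iff₀ hn0]
    have := hup n hn
    linarith
  refine h1.trans ?_
  calc K₁ * Lam ρ y * (vr D ρ x / vr D ρ y)
      ≤ K₁ * (K₇ / n) * (vr D ρ x / vr D ρ y) := by
        apply mul_le_mul_of_nonneg_right _ (by positivity)
        exact mul_le_mul_of_nonneg_left h2 (by linarith)
    _ = K₁ * K₇ * vr D ρ x / (n * vr D ρ y) := by field_simp
    _ ≤ K * vr D ρ x / (n * vr D ρ y) := by
        apply div_le_div_of_nonneg_right _ (by positivity)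
        exact mul_le_mul_of_nonneg_right hK (by linarith)

private theorem AQ_hit_ge {ρ : Measure ℝ} (hD : Dom D) (hda : DA α ζ ρ a) (h : Reg ρ p C x₀)
    (hge : ∃ c > (0 : ℝ), ∀ᶠ n : ℕ in atTop, hit D ρ n 0 ≠ 0 →
      c / (n * vr D ρ (a n)) ≤ hit D ρ n 0) :
    ∀ᶠ K : ℝ in atTop, ∀ n : ℕ, 1 ≤ n → hit D ρ n 0 ≠ 0 →
      1 / (n * vr D ρ (max (a n) 16)) ≤ K * hit D ρ n 0 := by
  obtain ⟨c, hc, h1⟩ := hge
  obtain ⟨n₀, hn₀⟩ := eventually_atTop.1 (h1.and ((N4_top hda).eventually_ge_atTop 16))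
  filter_upwards [eventually_ge_atTop (1 / c),
    eventually_ge_atTop (∑ n ∈ Finset.range n₀, 1 / hit D ρ n 0)] with K hK hK2 n hn hne
  have hpos : 0 < hit D ρ n 0 := lt_of_le_of_ne (hit_nonneg n 0) (Ne.symm hne)
  have hn1 : (1 : ℝ) ≤ n := by exact_mod_cast hn
  have hvr : 1 ≤ vr D ρ (max (a n) 16) := one_le_vr hD h.cen _
  rcases lt_or_ge n n₀ with hlt | hle
  · have h2 : 1 / hit D ρ n 0 ≤ K := by
      refine le_trans ?_ hK2
      exact Finset.single_le_sum (f := fun n => 1 / hit D ρ n 0)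
        (fun i _ => one_div_nonneg.2 (hit_nonneg i 0)) (Finset.mem_range.2 hlt)
    rw [div_le_iff₀ hpos] at h2
    refine le_trans ?_ h2
    rw [div_le_one (by positivity)]
    nlinarith
  · obtain ⟨h2, h3⟩ := hn₀ n hle
    have h4 := h2 hne
    rw [max_eq_left h3] at hvr ⊢
    have hK' : 1 ≤ K * c := by rwa [div_le_iff₀ hc] at hK
    have hK0 : 0 < K := by
      by_contra hcon
      push Not at hcon
      nlinarith
    calc 1 / (n * vr D ρ (a n)) ≤ (K * c) * (1 / (n * vr D ρ (a n))) := by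
          have : 0 < 1 / (n * vr D ρ (a n)) := by positivity
          nlinarith
      _ = K * (c / (n * vr D ρ (a n))) := by ring
      _ ≤ K * hit D ρ n 0 := mul_le_mul_of_nonneg_left h4 hK0.le

/-- PROOF. `ρ = stepLaw μ ν 1`, `p, C, x₀` of `Reg` from `N4_reg` (`p = (1+α)/2 < α`); take the threshold `16` (all bounds of the A block hold
for `y ≥ 1`) and `a' n = max (a n) 16`. `L_a`: if `a n ≥ 16`, `N4_lam`; if `a n < 16` then `n Lam 16 ≤ n Lam (a n) ≤ C₁` (`Lam_anti`,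
`DA.pos`) and `n Lam 16 ≥ Lam 16 > 0`. `V_zero`: `vr_zero`. `V_le`, `V'_le`: `vr_ratio`, `vd_ratio`. `V_ge`, `V'_ge`: `Reg.vr_lower`,
`Reg.vd_lower`. `LVV`: `Reg.prod_le`, `Reg.prod_ge`. `green`: `GG_le`, `vd (y+1) ≤ 3 vd y`. `maxZ`, `maxA`: `Reg.queue_max`.
`kap_loc`: `Reg.win` (`c = 1/(4K)`, `y = a' n`, `w = 1`, `x = 0`) and `vr (a' n) vd (a' n) ≥ c/Lam (a' n) ≥ c' n`. `hit_m`: `Reg.hit_all`. `hit_L`:
`Reg.hit_far`. `hit_V`: `Reg.hit_le` (`c = 1/(4K)`, `y = a' n`), `Lam (a' n) ≤ K/n`. `hit_ge`: for `n ≥ n₀` by `hge` (`a' n = a n` for large `n`,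
`N4_top`), for the finitely many other `n` with `hit n 0 ≠ 0` the numbers `hit n 0 > 0` are bounded below. `harm`: `queue_alive_max`.
`K` is the maximum of all the constants. -/
theorem QS_of_ge (hD : Dom D) (hQ : QI μ ν) (h : DA α ζ (stepLaw μ ν 1) a)
    (hge : ∃ c > (0 : ℝ), ∀ᶠ n : ℕ in atTop, hit D (stepLaw μ ν 1) n 0 ≠ 0 →
      c / (n * vr D (stepLaw μ ν 1) (a n)) ≤ hit D (stepLaw μ ν 1) n 0) : ∃ p K x₀ : ℝ,
    QS D μ ν (fun n => max (a n) x₀) (Lam (stepLaw μ ν 1)) (vr D (stepLaw μ ν 1))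
      (vd D (stepLaw μ ν 1)) p K x₀ := by
  have hρ := N4_cen h
  have hpr := hρ.prob
  have hα1 := h.one
  have hα2 := h.two
  obtain ⟨C, x₁, hR⟩ := N4_reg h (p := (1 + α) / 2) (by linarith) (by linarith)
  obtain ⟨Kq, hKq, hq⟩ := Reg.queue_max hQ hR
  obtain ⟨Km, hKm, hm⟩ := Reg.hit_all hD hR
  obtain ⟨Kf, hKf, hf⟩ := Reg.hit_far hD hR
  have hev := (AQ_L_le hR).and <| (AQ_L_a h).and <| (AQ_V_ge hD hR).and <|
    (AQ_V_ge (dom_Dst hD) hR.rev).and <| (AQ_V_le hD hρ).and <|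
    (AQ_V_le (dom_Dst hD) hR.rev.cen).and <| (AQ_LVV hD hR).and <| (AQ_green hD hR).and <|
    (AQ_kap hD h hR).and <| (AQ_hitV hD h hR).and <| (AQ_hit_ge hD h hR hge).and <|
    (eventually_ge_atTop Kq).and <| (eventually_ge_atTop Km).and <| (eventually_ge_atTop Kf).and
    (eventually_ge_atTop 1)
  obtain ⟨K, g1, g2, g3, g4, g5, g6, g7, g8, g9, g10, g11, g12, g13, g14, g15⟩ := hev.exists
  refine ⟨(1 + α) / 2, K, 16, ?_⟩
  exact
    { dom := hD
      qi := hQ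
      p_gt := by linarith
      p_le := by linarith
      K_ge := g15
      x_ge := le_rfl
      L_pos := fun y hy => Lam_pos hρ (by linarith)
      L_anti := fun x y hx hxy => Lam_anti (by linarith) hxy
      L_le := g1
      L_ge := fun y r hy hr => by
        have h1 := Lam_sq (ρ := stepLaw μ ν 1) (y := y) (r := r) (by linarith) hr
        have h2 := Lam_nonneg (stepLaw μ ν 1) (r * y)
        have h3 : 0 ≤ r ^ 2 * Lam (stepLaw μ ν 1) (r * y) := by positivity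
        nlinarith
      a_ge := fun n _ => le_max_right _ _
      L_a := g2
      V_mono := vr_mono hD hρ
      V_one := fun y => one_le_vr hD hρ y
      V_zero := by rw [vr_zero hD hρ]; exact g15
      V_le := g5
      V_ge := g3
      V'_mono := vd_mono hD hρ
      V'_one := fun y => one_le_vd hD hρ y
      V'_le := g6
      V'_ge := g4
      LVV := fun y hy => g7 y (by linarith)
      green := g8
      maxZ := fun w y hy => by
        refine (hq w y (by linarith)).2.2.trans (mul_le_mul_of_nonneg_right g12 ?_)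
        have := Lam_nonneg (stepLaw μ ν 1) y
        positivity
      maxA := fun w y hy => by
        refine (hq w y (by linarith)).1.trans (mul_le_mul_of_nonneg_right g12 ?_)
        have := Lam_nonneg (stepLaw μ ν 1) y
        positivity
      kap_loc := g9
      hit_m := fun m x hm1 => (hm m x hm1).trans
        (div_le_div_of_nonneg_right g13 (Nat.cast_nonneg m))
      hit_L := fun m x hm1 hx => (hf m x hm1 (by linarith)).trans
        (mul_le_mul_of_nonneg_right g14 (Lam_nonneg _ _))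
      hit_V := g10
      hit_ge := g11
      harm := fun n y _ => (queue_alive_max hD hQ hρ n y).trans
        (div_le_div_of_nonneg_right g15 (zero_le_one.trans (one_le_vr hD hρ y))) }

end Pool.Agent.BPT
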