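import Pool.Agent.MP_99a865_pr.ST.N4b
import Pool.Agent.MP_99a865_pr.ST.AC1
import Pool.Agent.MP_99a865_pr.ST.AC2
import Pool.Agent.MP_99a865_pr.ST.AC3
import Pool.Agent.MP_99a865_pr.ST.AC4

/-!
# Contract: consequences of the potential theory (blocks 0-4) and of the domain of attraction, in terms of `a n`

All statements are for `DA α ζ ρ a` and `Dom D`. `∀ᶠ n in atTop` is used throughout. They follow from the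
`Reg`-form of the estimates (files `ST/A*.lean`) and from `1/C ≤ n Lam (a n) ≤ C`.
-/

open MeasureTheory ProbabilityTheory Filter Topology
open scoped ENNReal NNReal

namespace Pool.Agent.BPT

variable {α : ℝ} {ζ ρ : Measure ℝ} {a : ℕ → ℝ} {D : Set ℝ}

/-! ## the norming sequence (N-block) -/

theorem DA.cen (h : DA α ζ ρ a) : Cen ρ := N4_cen h

theorem DA.dual (h : DA α ζ ρ a) : DA α (dual ζ) (dual ρ) a := N4_dual h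

/-- `p` can be taken as close to `α` as one wishes -/
theorem DA.reg (h : DA α ζ ρ a) : ∃ p C x₀ : ℝ, Reg ρ p C x₀ :=
  ⟨(1 + α) / 2, N4_reg h (by linarith [h.one]) (by linarith [h.one])⟩

theorem DA.top (h : DA α ζ ρ a) : Tendsto a atTop atTop := N4_top h

theorem DA.lam (h : DA α ζ ρ a) : ∃ C : ℝ, 1 ≤ C ∧ ∀ n : ℕ, 1 ≤ n →
    1 / C ≤ n * Lam ρ (a n) ∧ n * Lam ρ (a n) ≤ C := N4_lam h

theorem DA.ratio (h : DA α ζ ρ a) {n k : ℕ → ℕ} {t : ℝ} (hT : Tm n k t) (ht : 0 < t) :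
    Tendsto (fun j => a (k j) / a (n j)) atTop (𝓝 (t ^ (1 / α))) := N4_ratio h hT ht

/-- `n / a_n → ∞` -/
theorem DA.sub (h : DA α ζ ρ a) : Tendsto (fun n : ℕ => (n : ℝ) / a n) atTop atTop := N4_sub h

/-! ## the free walk -/

/-- maximal inequality -/
theorem DA.max (h : DA α ζ ρ a) : ∃ C > (0 : ℝ), ∀ᶠ n : ℕ in atTop, ∀ m ≤ n, ∀ r > (0 : ℝ),
    (seqLaw ρ).real {ω | ∃ k ≤ m, r * a n ≤ |S k ω|} ≤ C * ((m : ℝ) / n) * (1 / r + 1 / r ^ 2) :=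
  AC_max h

/-- domination of the characteristic function (from `‖charFun ρ t‖ ≤ exp (-c Lam (1/|t|))` near zero and `Reg`) -/
theorem DA.char_dom (h : DA α ζ ρ a) : ∃ c > (0 : ℝ), ∃ δ > (0 : ℝ), ∃ C : ℝ, ∀ᶠ k : ℕ in atTop, ∀ s : ℝ,
    |s| ≤ δ * a k → ‖charFun ρ (s / a k)‖ ^ k ≤ C * Real.exp (-c * |s|) :=
  AC_char_dom h

/-- uniform integrability: `P(|S_n| ≥ r a_n) ≤ C r^{-p}` with some `p > 1` -/
theorem DA.upper (h : DA α ζ ρ a) : ∃ p > (1 : ℝ), ∃ C : ℝ, ∀ᶠ n : ℕ in atTop, ∀ r ≥ (1 : ℝ),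
    (fre ρ n 0).real {y | r * a n ≤ |y|} ≤ C * r ^ (-p) :=
  AC_upper h

/-- concentration -/
theorem DA.conc (h : DA α ζ ρ a) {c : ℝ} (hc : 0 < c) : ∀ ε > (0 : ℝ), ∃ δ > (0 : ℝ),
    ∀ᶠ n : ℕ in atTop, ∀ m : ℕ, c * n ≤ m → ∀ x z : ℝ,
      (fre ρ m x).real (Set.Icc z (z + δ * a n)) ≤ ε :=
  AC_conc h hc

/-- unit windows -/
theorem DA.win (h : DA α ζ ρ a) {c : ℝ} (hc : 0 < c) : ∃ C > (0 : ℝ), ∀ᶠ n : ℕ in atTop,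
    ∀ m : ℕ, c * n ≤ m → ∀ x z : ℝ, (fre ρ m x).real (Set.Icc z (z + 1)) ≤ C / a n :=
  AC_win h hc

/-- unit windows far from the starting point, short times -/
theorem DA.far (h : DA α ζ ρ a) {r : ℝ} (hr : 0 < r) : ∀ ε > (0 : ℝ), ∃ δ > (0 : ℝ),
    ∀ᶠ n : ℕ in atTop, ∀ m : ℕ, (m : ℝ) ≤ δ * n → ∀ x z : ℝ, r * a n ≤ |z - x| →
      (fre ρ m x).real (Set.Icc z (z + 1)) ≤ ε / a n :=
  AC_far h hr

/-! ## the scale functions -/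

/-- `vr` is finite, positive, monotone -/
theorem vr_facts (hD : Dom D) (hρ : Cen ρ) : (∀ x, VV D ρ x ≠ ∞) ∧ (∀ x, 1 ≤ vr D ρ x) ∧
    Monotone (vr D ρ) :=
  AC_vr_facts hD hρ

theorem vr_mul (hD : Dom D) (hρ : Cen ρ) (x r : ℝ) (hx : 0 ≤ x) (hr : 1 ≤ r) :
    vr D ρ (r * x) ≤ 2 * r * vr D ρ x :=
  AC_vr_mul hD hρ x r hx hr

/-- the two versions of the scale function of the dual walk -/
theorem DA.vd_comp (h : DA α ζ ρ a) (hD : Dom D) : ∃ C > (0 : ℝ), ∀ x, 0 ≤ x →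
    vr D (Pool.Agent.BPT.dual ρ) x ≤ C * vd D ρ x ∧ vd D ρ x ≤ C * vr D (Pool.Agent.BPT.dual ρ) x :=
  AC_vd_comp h hD

theorem DA.vr_small (h : DA α ζ ρ a) (hD : Dom D) : ∀ ε > (0 : ℝ), ∃ δ > (0 : ℝ),
    ∀ᶠ n : ℕ in atTop, vr D ρ (δ * a n) ≤ ε * vr D ρ (a n) :=
  AC_vr_small h hD

/-- `V(a_n) V^(a_n) ≍ n` -/
theorem DA.vv (h : DA α ζ ρ a) (hD : Dom D) : ∃ C > (0 : ℝ), ∀ᶠ n : ℕ in atTop,
    n ≤ C * (vr D ρ (a n) * vd D ρ (a n)) ∧ vr D ρ (a n) * vd D ρ (a n) ≤ C * n :=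
  AC_vv h hD

/-! ## survival -/

theorem DA.al_le (h : DA α ζ ρ a) (hD : Dom D) : ∃ C > (0 : ℝ), ∀ᶠ m : ℕ in atTop,
    ∀ x, 0 ≤ x → al D ρ m x ≤ C * (vr D ρ x / vr D ρ (a m)) :=
  AC_al_le h hD

theorem DA.le_al (h : DA α ζ ρ a) (hD : Dom D) : ∃ c > (0 : ℝ), ∀ᶠ m : ℕ in atTop,
    ∀ x, 0 ≤ x → x ≤ a m → c * (vr D ρ x / vr D ρ (a m)) ≤ al D ρ m x :=
  AC_le_al h hD

/-- little `V`-mass far away -/
theorem DA.tail (h : DA α ζ ρ a) (hD : Dom D) : ∀ ε > (0 : ℝ), ∃ R > (0 : ℝ),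
    ∀ᶠ n : ℕ in atTop, ∀ m ≤ n, ∀ x, 0 ≤ x → x ≤ a n →
      ∫⁻ y in Set.Ioi (R * a n), ENNReal.ofReal (vr D ρ y) ∂(kap D ρ m x) ≤
        ENNReal.ofReal (ε * vr D ρ x) :=
  AC_tail h hD

/-- little mass near zero -/
theorem DA.near (h : DA α ζ ρ a) (hD : Dom D) {c : ℝ} (hc : 0 < c) : ∀ ε > (0 : ℝ), ∃ δ > (0 : ℝ),
    ∀ᶠ n : ℕ in atTop, ∀ m : ℕ, c * n ≤ m → ∀ x, 0 ≤ x →
      (kap D ρ m x).real (Set.Iic (δ * a n)) ≤ ε * (vr D ρ x / vr D ρ (a n)) :=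
  AC_near h hD hc

/-! ## local bounds -/

theorem DA.kap_win (h : DA α ζ ρ a) (hD : Dom D) {c : ℝ} (hc : 0 < c) : ∃ C > (0 : ℝ),
    ∀ᶠ n : ℕ in atTop, ∀ m : ℕ, c * n ≤ m → ∀ x z : ℝ, 0 ≤ x → 0 ≤ z →
      (kap D ρ m x).real (Set.Icc z (z + 1)) ≤ C / a n * (vd D ρ (z + 1) / vd D ρ (a n)) :=
  AC_kap_win h hD hc

theorem DA.hit_le (h : DA α ζ ρ a) (hD : Dom D) {c : ℝ} (hc : 0 < c) : ∃ C > (0 : ℝ),
    ∀ᶠ n : ℕ in atTop, ∀ m : ℕ, c * n ≤ m → (∀ x, hit D ρ m x ≤ C / n) ∧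
      ∀ x, 0 ≤ x → hit D ρ m x ≤ C / n * (vr D ρ x / vr D ρ (a n)) :=
  AC_hit_le h hD hc

/-! ## exit weights -/

/-- `∫_0^{a_n} P(X < -w) V^(w) dw ≍ a_n V^(a_n) / n` -/
theorem DA.ex_sum (h : DA α ζ ρ a) (hD : Dom D) : ∃ C > (0 : ℝ), ∀ᶠ n : ℕ in atTop,
    ∫⁻ w in Set.Icc 0 (a n), ex D ρ w * ENNReal.ofReal (vd D ρ (w + 1)) ≤
      ENNReal.ofReal (C * (a n * vd D ρ (a n) / n)) ∧
    ENNReal.ofReal (a n * vd D ρ (a n) / (C * n)) ≤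
      ∫⁻ w in Set.Icc 0 (a n), ex D ρ w * ENNReal.ofReal (vd D ρ w) :=
  AC_ex_sum h hD

theorem DA.ex_tail (h : DA α ζ ρ a) (hD : Dom D) : ∃ C > (0 : ℝ), ∀ ε > (0 : ℝ), ∃ R > (0 : ℝ),
    ∀ᶠ n : ℕ in atTop, ∫⁻ w in Set.Ioi (a n), ex D ρ w ≤ ENNReal.ofReal (C * (a n / n)) ∧
      ∫⁻ w in Set.Ioi (R * a n), ex D ρ w ≤ ENNReal.ofReal (ε * (a n / n)) :=
  AC_ex_tail h hD

end Pool.Agent.BPT
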