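import Pool.Agent.MP_99a865_pr.CV.CDefs

/-!
# Busy-period trees in a stable domain of attraction: definitions

`D` is `Ici 0` or `Ioi 0` (`Dom D`), `ρ` the law of a step of the walk (`v - u`), `kap D ρ k x` the law at
time `k` of the walk started at `x` and killed when it is outside `D` at one of the times `1, 2, …`,
`fre ρ k x` the law of the free walk, `hit D ρ m x` the probability that it is killed exactly at time `m`.
-/

open MeasureTheory ProbabilityTheory Filter Topology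
open scoped ENNReal NNReal

namespace Pool.Agent.BPT

/-! ## scale function, truncation -/

/-- the scale function `E min(1, (X/y)²)`; `m * Lam ρ y` is the dimensionless time at level `y` -/
noncomputable def Lam (ρ : Measure ℝ) (y : ℝ) : ℝ := ∫ x, min 1 ((x / y) ^ 2) ∂ρ

/-- renewal function of the descending ladder heights (real valued) -/
noncomputable def vr (D : Set ℝ) (ρ : Measure ℝ) (x : ℝ) : ℝ := (VV D ρ x).toReal

/-- the same for the dual walk (ascending ladder heights) -/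
noncomputable def vd (D : Set ℝ) (ρ : Measure ℝ) (x : ℝ) : ℝ := vr (Dst D) (dual ρ) x

/-- `P_x(alive at time m)` -/
noncomputable def al (D : Set ℝ) (ρ : Measure ℝ) (m : ℕ) (x : ℝ) : ℝ := (kap D ρ m x).real Set.univ

/-- regularity of a centred law: the scale function decreases at least like `y^{-p}`, `1 < p ≤ 2`,
above `x₀` -/
structure Reg (ρ : Measure ℝ) (p C x₀ : ℝ) : Prop where
  cen : Cen ρ
  p1 : 1 < p
  p2 : p ≤ 2
  C1 : 1 ≤ C
  x1 : 1 ≤ x₀
  reg : ∀ y, x₀ ≤ y → ∀ r, 1 ≤ r → Lam ρ (r * y) ≤ C * r ^ (-p) * Lam ρ y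

/-! ## stable laws and their domains of attraction -/

/-- `ζ` is a strictly stable law with index `α`, not a point mass -/
structure SS (α : ℝ) (ζ : Measure ℝ) : Prop where
  prob : IsProbabilityMeasure ζ
  nd : ∀ x, ζ ≠ Measure.dirac x
  st : ∀ m : ℕ, 1 ≤ m → ∀ t : ℝ, charFun ζ t ^ m = charFun ζ ((m : ℝ) ^ (1 / α) * t)

/-- centred law in the domain of attraction of the strictly stable law `ζ` with index `α ∈ (1,2]`,
norming sequence `a` -/
structure DA (α : ℝ) (ζ ρ : Measure ℝ) (a : ℕ → ℝ) : Prop where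
  one : 1 < α
  two : α ≤ 2
  ss : SS α ζ
  prob : IsProbabilityMeasure ρ
  int : Integrable (fun x : ℝ => x) ρ
  mean : ∫ x, x ∂ρ = 0
  pos : ∀ n, 0 < a n
  lim : ∀ t : ℝ, Tendsto (fun n : ℕ => charFun ρ (t / a n) ^ n) atTop (𝓝 (charFun ζ t))

/-- law at time `t` of the Lévy process with `ζ` at time one -/
noncomputable def Zt (α : ℝ) (ζ : Measure ℝ) (t : ℝ) : Measure ℝ := ζ.map fun x => t ^ (1 / α) * x

/-- density of `ζ` -/
noncomputable def dens (ζ : Measure ℝ) (x : ℝ) : ℝ :=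
  (∫ s : ℝ, Complex.exp (-(s * x) * Complex.I) * charFun ζ s).re / (2 * Real.pi)

/-- density of `Zt α ζ t` -/
noncomputable def dt (α : ℝ) (ζ : Measure ℝ) (t x : ℝ) : ℝ := dens ζ (x / t ^ (1 / α)) / t ^ (1 / α)

/-- the semigroup of the Lévy process killed when it is not in `(0,∞)` at one of `K` equally spaced
times -/
noncomputable def QK (α : ℝ) (ζ : Measure ℝ) (K : ℕ) (t : ℝ) (f : ℝ → ℝ) (x : ℝ) : ℝ :=
  ∫ y, f y ∂(kap (Set.Ioi 0) (Zt α ζ (t / K)) K x)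

/-- the semigroup of the Lévy process killed on leaving `(0,∞)` -/
noncomputable def QT (α : ℝ) (ζ : Measure ℝ) (t : ℝ) (f : ℝ → ℝ) (x : ℝ) : ℝ :=
  limUnder atTop fun j : ℕ => QK α ζ (2 ^ j) t f x

/-- survival probability `P_x(τ > t)` of the Lévy process -/
noncomputable def QO (α : ℝ) (ζ : Measure ℝ) (t x : ℝ) : ℝ := QT α ζ t (fun _ => 1) x

/-- density of the killed semigroup: `lim_{s ↓ 0} ∫ Q_{t-s}(x, dz) p_s(y - z)` -/
noncomputable def qT (α : ℝ) (ζ : Measure ℝ) (t x y : ℝ) : ℝ :=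
  limUnder (𝓝[>] (0 : ℝ)) fun s => QT α ζ (t - s) (fun z => dt α ζ s (y - z)) x

/-- density at `t` of the time `τ` at which the Lévy process started at `x` leaves `(0,∞)`:
`lim_{η ↓ 0} P_x(t < τ ≤ t + η) / η` -/
noncomputable def hQ (α : ℝ) (ζ : Measure ℝ) (t x : ℝ) : ℝ :=
  limUnder (𝓝[>] (0 : ℝ)) fun η => (QO α ζ t x - QO α ζ (t + η) x) / η

/-- `lim_{η ↓ 0} (1/η) ∫ g(y) P_y(t < τ ≤ t + η) dy` -/
noncomputable def bet (α : ℝ) (ζ : Measure ℝ) (t : ℝ) (g : ℝ → ℝ) : ℝ :=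
  limUnder (𝓝[>] (0 : ℝ)) fun η => (∫ y in Set.Ioi (0 : ℝ), g y * (QO α ζ t y - QO α ζ (t + η) y)) / η

/-- entrance law: limit of the law at time `t` given survival up to `t`, as the starting point tends
to zero -/
noncomputable def EA (α : ℝ) (ζ : Measure ℝ) (t : ℝ) (f : ℝ → ℝ) : ℝ :=
  limUnder (𝓝[>] (0 : ℝ)) fun x => QT α ζ t f x / QO α ζ t x

/-- `E_x[f₁(Y_{t₁}) f₂(Y_{t₁+t₂}) ⋯ g(Y_{t₁+⋯+t_K}); τ > t₁ + ⋯ + t_K]` -/
noncomputable def IS (α : ℝ) (ζ : Measure ℝ) : List (ℝ × (ℝ → ℝ)) → (ℝ → ℝ) → ℝ → ℝ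
  | [], g => g
  | (t, f) :: l, g => QT α ζ t fun y => f y * IS α ζ l g y

/-- total time -/
noncomputable def sumt (ts : List (ℝ × (ℝ → ℝ))) : ℝ := (ts.map Prod.fst).sum

/-- finite-dimensional distributions of the excursion of length one: limit as `x ↓ 0` of
`E_x[f₁(Y_{t₁}) f₂(Y_{t₁+t₂}) ⋯ | τ = 1]` -/
noncomputable def exc (α : ℝ) (ζ : Measure ℝ) (ts : List (ℝ × (ℝ → ℝ))) : ℝ :=
  limUnder (𝓝[>] (0 : ℝ)) fun x => IS α ζ ts (hQ α ζ (1 - sumt ts)) x / hQ α ζ 1 x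

/-- increments of the times `τ 0 < τ 1 < ⋯ < τ (K-1)` with functions `f 0, …, f (K-1)` -/
noncomputable def tts (τ : ℕ → ℝ) (f : ℕ → ℝ → ℝ) (K : ℕ) : List (ℝ × (ℝ → ℝ)) :=
  (List.range K).map fun j => (τ j - (if j = 0 then 0 else τ (j - 1)), f j)

/-- the local limit property with step lattice `b + hℤ` (`h = 0`: non-lattice), norming `a` -/
structure LatS (ζ ρ : Measure ℝ) (a : ℕ → ℝ) (b h : ℝ) : Prop where
  nonneg : 0 ≤ h
  step : ∀ᵐ x ∂ρ, Cos h b x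
  llt : ∀ D, Dom D → ∀ L > (0 : ℝ), ∀ ε > (0 : ℝ), ∃ K : ℕ, ∀ k ≥ K, ∀ x u w : ℝ, u ≤ w → w ≤ u + L →
    |a k * (fre ρ k x).real (IV D u w) -
      (lam h (x + k * b)).real (IV D u w) * dens ζ ((u - x) / a k)| ≤ ε

/-! ## convergence of functions, locally uniformly on `(0,∞)` along cosets -/

/-- `F j` is close to `f (· / s j)` uniformly on the points of `c j + hℤ` in `[ε s_j, s_j / ε]` -/
def UC (h : ℝ) (c s : ℕ → ℝ) (F : ℕ → ℝ → ℝ) (f : ℝ → ℝ) : Prop :=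
  ∀ ε > (0 : ℝ), ∀ η > (0 : ℝ), ∀ᶠ j in atTop, ∀ y : ℝ, Cos h (c j) y → ε * s j ≤ y → y ≤ s j / ε →
    |F j y - f (y / s j)| ≤ η

/-- bounded by `M` and continuous on `(0,∞)` -/
structure BCo (M : ℝ) (f : ℝ → ℝ) : Prop where
  bd : ∀ x, 0 < x → |f x| ≤ M
  cont : ContinuousOn f (Set.Ioi 0)

/-- times: `n j → ∞`, `k j / n j → t` -/
structure Tm (n k : ℕ → ℕ) (t : ℝ) : Prop where
  top : Tendsto n atTop atTop
  lim : Tendsto (fun j => (k j : ℝ) / n j) atTop (𝓝 t)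

/-- measurable functions bounded by `M` -/
def MB (M : ℝ) (F : ℕ → ℝ → ℝ) : Prop := ∀ j, Measurable (F j) ∧ ∀ y, |F j y| ≤ M

/-- the walk observed at the times `k₁, k₁ + k₂, …` only -/
noncomputable def sk (D : Set ℝ) (ρ : Measure ℝ) : List ℕ → (ℝ → ℝ) → ℝ → ℝ
  | [], F => F
  | k :: l, F => fun x => ∫ y in D, sk D ρ l F y ∂(fre ρ k x)

/-- `K` nearly equal pieces of `k` -/
def pc (K k : ℕ) : List ℕ := List.replicate (K - 1) (k / K) ++ [k - (K - 1) * (k / K)]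

/-- `∫_D g(y/s) hit_l(y) d(lam h c)`: the exit measure -/
noncomputable def bl (D : Set ℝ) (ρ : Measure ℝ) (h c s : ℝ) (l : ℕ) (g : ℝ → ℝ) : ℝ :=
  ∫ y in D, g (y / s) * hit D ρ l y ∂(lam h c)

/-- continuous, values in `[0,1]`, `1` on `[δ, 1/δ]`, `0` outside `[δ/2, 2/δ]` (for `0 < δ < 1`) -/
noncomputable def cut (δ x : ℝ) : ℝ := max 0 (min 1 (min (2 * x / δ - 1) (2 - δ * x)))

end Pool.Agent.BPT
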