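import Pool.Agent.MP_99a865_pr.ST.K6a

/-! **[STB-K6c]** Survival probabilities, tightness. -/

open MeasureTheory ProbabilityTheory Filter Topology
open scoped ENNReal NNReal

namespace Pool.Agent.BPT

variable {α : ℝ} {ζ ρ : Measure ℝ} {a : ℕ → ℝ} {D : Set ℝ}

lemma K6c_one : BCo 1 (fun _ : ℝ => (1 : ℝ)) := ⟨fun x _ => by rw [abs_one], continuousOn_const⟩

lemma K6c_scal (h : DA α ζ ρ a) (x : ℝ) : Tendsto (fun j : ℕ => x * a j / a j) atTop (𝓝 x) := by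
  have : (fun i => x * a i / a i) = fun _ => x := by
    funext i
    rw [mul_div_assoc, div_self (h.pos i).ne', mul_one]
  rw [this]
  exact tendsto_const_nhds

lemma K6c_floor {t : ℝ} (ht : 0 < t) : Tm (fun j => j) (fun j => ⌊t * j⌋₊) t :=
  Tm.floor (n := fun j => j) tendsto_id ht.le

lemma K6c_al (h : DA α ζ ρ a) {t x : ℝ} (ht : 0 < t) (hx : 0 < x) :
    Tendsto (fun j : ℕ => al (Set.Ioi 0) ρ ⌊t * j⌋₊ (x * a j)) atTop (𝓝 (QO α ζ t x)) :=
  al_seq h (Or.inr rfl) (K6c_floor ht) ht hx (K6c_scal h x)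

lemma K6c_al_anti [IsProbabilityMeasure ρ] (hD : Dom D) {k l : ℕ} (hkl : k ≤ l) (x : ℝ) :
    al D ρ l x ≤ al D ρ k x := by
  unfold al Measure.real
  refine ENNReal.toReal_mono (measure_ne_top _ _) ?_
  rw [kap_univ_eq hD, kap_univ_eq hD]
  exact measure_mono fun ω hω j h1 h2 => hω j h1 (h2.trans hkl)

lemma K6c_al_mono [IsProbabilityMeasure ρ] (hD : Dom D) (k : ℕ) {x y : ℝ} (hxy : x ≤ y) :
    al D ρ k x ≤ al D ρ k y := by
  unfold al Measure.real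
  refine ENNReal.toReal_mono (measure_ne_top _ _) ?_
  have h1 := kap_shift_le (ρ := ρ) hD k x (y - x) (sub_nonneg.2 hxy) Set.univ Set.univ MeasurableSet.univ
    MeasurableSet.univ (fun _ _ => Set.mem_univ _)
  rwa [add_sub_cancel] at h1

/-- `0 ≤ QO ≤ 1`; nonincreasing in time, nondecreasing in the starting point, continuous -/
theorem QO_facts (h : DA α ζ ρ a) : (∀ t > 0, ∀ x > 0, 0 ≤ QO α ζ t x ∧ QO α ζ t x ≤ 1) ∧
    (∀ s > 0, ∀ t, s ≤ t → ∀ x > 0, QO α ζ t x ≤ QO α ζ s x) ∧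
    (∀ t > 0, ∀ x > 0, ∀ y, x ≤ y → QO α ζ t x ≤ QO α ζ t y) ∧
    (∀ t > 0, BCo 1 (QO α ζ t)) := by
  have hp := h.prob
  have hD : Dom (Set.Ioi (0 : ℝ)) := Or.inr rfl
  have h4 : ∀ t > 0, BCo 1 (QO α ζ t) := fun t ht => QT_BCo h ht K6c_one
  refine ⟨fun t ht x hx => ⟨?_, ?_⟩, fun s hs t hst x hx => ?_, fun t ht x hx y hxy => ?_, h4⟩
  · exact QT_nonneg h ht K6c_one (fun _ _ => zero_le_one) hx
  · exact (le_abs_self _).trans ((h4 t ht).bd x hx)
  · have ht : 0 < t := lt_of_lt_of_le hs hst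
    refine le_of_tendsto_of_tendsto' (K6c_al h ht hx) (K6c_al h hs hx) fun j => ?_
    refine K6c_al_anti hD (Nat.floor_mono ?_) _
    exact mul_le_mul_of_nonneg_right hst (Nat.cast_nonneg _)
  · refine le_of_tendsto_of_tendsto' (K6c_al h ht hx) (K6c_al h ht (lt_of_lt_of_le hx hxy)) fun j => ?_
    exact K6c_al_mono hD _ (mul_le_mul_of_nonneg_right hxy (h.pos j).le)

/-- an indicator bound -/
lemma K6c_ind {δ : ℝ} {f : ℝ → ℝ} (hf : BCo 1 f) (hv : ∀ y, δ ≤ y → y ≤ 1 / δ → f y = 0) (s : ℝ) (hs : 0 < s) (y : ℝ) :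
    |(Set.Ioi (0 : ℝ)).indicator f (y / s)| ≤ (Set.Icc 0 (0 + δ * s) ∪ Set.Ici (s / δ)).indicator (fun _ => (1 : ℝ)) y := by
  by_cases hy : y / s ∈ Set.Ioi (0 : ℝ)
  · rw [Set.indicator_of_mem hy]
    have hy0 : 0 < y / s := hy
    have hy1 : 0 < y := by
      have := mul_pos hy0 hs
      rwa [div_mul_cancel₀ _ hs.ne'] at this
    by_cases h1 : y ∈ Set.Icc 0 (0 + δ * s) ∪ Set.Ici (s / δ)
    · rw [Set.indicator_of_mem h1]
      exact hf.bd _ hy
    · rw [Set.indicator_of_notMem h1]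
      rw [Set.mem_union, not_or, Set.mem_Icc, Set.mem_Ici, not_and, not_le, not_le] at h1
      have h2 := h1.1 hy1.le
      have h3 := h1.2
      rw [hv, abs_zero]
      · rw [le_div_iff₀ hs]
        linarith
      · rw [div_le_iff₀ hs, one_div_mul_eq_div]
        exact h3.le
  · rw [Set.indicator_of_notMem hy, abs_zero]
    exact Set.indicator_nonneg (fun _ _ => zero_le_one) _

lemma K6c_upper (h : DA α ζ ρ a) {t : ℝ} (ht : 0 < t) (x : ℝ) (hx : 0 < x) : ∀ ε > (0 : ℝ), ∃ R > (0 : ℝ),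
    ∀ᶠ j : ℕ in atTop, (fre ρ ⌊t * j⌋₊ (x * a j)).real (Set.Ici (R * a j)) ≤ ε := by
  have hp := h.prob
  intro ε hε
  obtain ⟨C, hC, hmax⟩ := h.max
  have hk := (K6c_floor ht).top' ht
  have hr := h.ratio (K6c_floor ht) ht
  set u : ℝ := t ^ (1 / α) with hu
  have hu0 : 0 < u := Real.rpow_pos_of_pos ht _
  obtain ⟨r, hr1, hr2⟩ : ∃ r : ℝ, 1 ≤ r ∧ C * (1 / r + 1 / r ^ 2) ≤ ε := by
    refine ⟨max 1 (2 * C / ε), le_max_left _ _, ?_⟩
    set r := max 1 (2 * C / ε) with hrr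
    have h1 : 1 ≤ r := le_max_left _ _
    have h2 : 2 * C / ε ≤ r := le_max_right _ _
    have h3 : 1 / r ^ 2 ≤ 1 / r := by
      apply one_div_le_one_div_of_le (by linarith)
      nlinarith
    have h4 : C * (1 / r + 1 / r ^ 2) ≤ 2 * C / r := by
      have : C * (1 / r + 1 / r ^ 2) ≤ C * (1 / r + 1 / r) := mul_le_mul_of_nonneg_left (by linarith) hC.le
      refine this.trans (le_of_eq ?_)
      ring
    refine h4.trans ?_
    rw [div_le_iff₀ (by linarith)]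
    rw [div_le_iff₀ hε] at h2
    linarith
  refine ⟨x + r * (2 * u), by positivity, ?_⟩
  have e1 : ∀ᶠ j : ℕ in atTop, a ⌊t * j⌋₊ / a j < 2 * u := hr.eventually (gt_mem_nhds (by linarith))
  filter_upwards [e1, hk.eventually hmax, hk.eventually (eventually_ge_atTop 1)] with j h1 h2 h3
  have h4 := h2 ⌊t * j⌋₊ le_rfl r (by linarith)
  have h5 : ((⌊t * j⌋₊ : ℕ) : ℝ) / ((⌊t * j⌋₊ : ℕ) : ℝ) = 1 := by
    apply div_self
    have : (1 : ℝ) ≤ ((⌊t * j⌋₊ : ℕ) : ℝ) := by exact_mod_cast h3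
    linarith
  rw [h5, mul_one] at h4
  refine le_trans ?_ (h4.trans hr2)
  rw [div_lt_iff₀ (h.pos j)] at h1
  unfold fre Measure.real
  rw [Measure.map_apply (A1_meas_add _ _) measurableSet_Ici]
  refine ENNReal.toReal_mono (measure_ne_top _ _) (measure_mono fun ω hω => ?_)
  have h6 : (x + r * (2 * u)) * a j ≤ x * a j + S ⌊t * j⌋₊ ω := hω
  refine ⟨⌊t * j⌋₊, le_rfl, ?_⟩
  have h7 : r * a ⌊t * j⌋₊ ≤ r * (2 * u * a j) := mul_le_mul_of_nonneg_left h1.le (by linarith)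
  refine le_trans ?_ (le_abs_self _)
  nlinarith

/-- **[STB-K6c]** Monotone continuity: if `0 ≤ f_i ≤ M` are continuous, increase to `f` on `(0,∞)` (`f` continuous) then
`Q_t f_i → Q_t f`. PROOF. `Q_t (f - f_i)(x) ≤ M · Q_t(1 - cut δ)(x) + sup_{[δ/2, 2/δ]} (f - f_i)` (Dini), and `Q_t (1 - cut δ)(x)` is the limit of
`∫ (1 - cut δ)(y/a) ∂kap ≤ P(S ≤ δ a) + P(S ≥ a/δ)`, small with `δ` (`DA.conc`, `DA.max`). -/
theorem QT_tight (h : DA α ζ ρ a) {t : ℝ} (ht : 0 < t) (x : ℝ) (hx : 0 < x) : ∀ ε > (0 : ℝ), ∃ δ > (0 : ℝ),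
    δ < 1 ∧ ∀ f : ℝ → ℝ, BCo 1 f → (∀ y, δ ≤ y → y ≤ 1 / δ → f y = 0) → |QT α ζ t f x| ≤ ε := by
  have hp := h.prob
  have hD : Dom (Set.Ioi (0 : ℝ)) := Or.inr rfl
  intro ε hε
  obtain ⟨R, hR, hup⟩ := K6c_upper h ht x hx (ε / 2) (half_pos hε)
  obtain ⟨δ₁, hδ₁, hlow⟩ := h.conc (half_pos ht) (ε / 2) (half_pos hε)
  obtain ⟨δ, h0, h1, h2, h3⟩ : ∃ δ > (0 : ℝ), δ < 1 ∧ δ ≤ δ₁ ∧ δ ≤ 1 / R :=
    ⟨min (1 / 2) (min δ₁ (1 / R)), by positivity, lt_of_le_of_lt (min_le_left _ _) (by norm_num),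
      (min_le_right _ _).trans (min_le_left _ _), (min_le_right _ _).trans (min_le_right _ _)⟩
  refine ⟨δ, h0, h1, fun f hf hv => ?_⟩
  have hk := (K6c_floor ht).lim
  have l := kap_seq h hD (K6c_floor ht) ht hf hx (K6c_scal h x)
  refine le_of_tendsto l.abs ?_
  have e1 : ∀ᶠ j : ℕ in atTop, t / 2 < ((⌊t * j⌋₊ : ℕ) : ℝ) / j := hk.eventually (lt_mem_nhds (by linarith))
  filter_upwards [e1, hup, hlow, eventually_gt_atTop 0] with j g1 g2 g3 g4
  have hj : (0 : ℝ) < j := by exact_mod_cast g4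
  have hs := h.pos j
  rw [lt_div_iff₀ hj] at g1
  have g5 := g3 ⌊t * j⌋₊ g1.le (x * a j) 0
  set m := ⌊t * j⌋₊ with hm
  set A : Set ℝ := Set.Icc 0 (0 + δ * a j) ∪ Set.Ici (a j / δ) with hA
  have hAm : MeasurableSet A := measurableSet_Icc.union measurableSet_Ici
  have b1 : |∫ y, (Set.Ioi (0 : ℝ)).indicator f (y / a j) ∂(kap (Set.Ioi 0) ρ m (x * a j))| ≤
      ∫ y, A.indicator (fun _ => (1 : ℝ)) y ∂(kap (Set.Ioi 0) ρ m (x * a j)) := by
    rw [← Real.norm_eq_abs]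
    refine norm_integral_le_of_norm_le ((integrable_const (1 : ℝ)).indicator hAm) (Eventually.of_forall fun y => ?_)
    rw [Real.norm_eq_abs]
    exact K6c_ind hf hv (a j) hs y
  refine b1.trans ?_
  rw [integral_indicator_const _ hAm, smul_eq_mul, mul_one]
  have b2 : (kap (Set.Ioi 0) ρ m (x * a j)).real A ≤ (fre ρ m (x * a j)).real A := by
    unfold Measure.real
    exact ENNReal.toReal_mono (measure_ne_top _ _) (kap_le_fre hD m _ A)
  refine b2.trans ((measureReal_union_le _ _).trans ?_)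
  have b3 : (fre ρ m (x * a j)).real (Set.Icc 0 (0 + δ * a j)) ≤ ε / 2 := by
    refine le_trans (measureReal_mono ?_) g5
    refine Set.Icc_subset_Icc le_rfl ?_
    have := mul_le_mul_of_nonneg_right h2 hs.le
    linarith
  have b4 : (fre ρ m (x * a j)).real (Set.Ici (a j / δ)) ≤ ε / 2 := by
    refine le_trans (measureReal_mono ?_) g2
    refine Set.Ici_subset_Ici.2 ?_
    rw [le_div_iff₀ hR] at h3
    rw [le_div_iff₀ h0]
    nlinarith
  linarith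

/-- `QO → 0` as `t → ∞` is not needed; `QO α ζ t x > 0` for `x > 0` (limit of `al ≥ c V(x a)/V(a) ≥ c'`: `DA.le_al`, `vr_mul`) -/
theorem QO_pos (h : DA α ζ ρ a) {t x : ℝ} (ht : 0 < t) (hx : 0 < x) : 0 < QO α ζ t x := by
  have hp := h.prob
  have hD : Dom (Set.Ioi (0 : ℝ)) := Or.inr rfl
  obtain ⟨c, hc, hle⟩ := h.le_al hD
  have hk := (K6c_floor ht).top' ht
  have hr := h.ratio (K6c_floor ht) ht
  set u : ℝ := t ^ (1 / α) with hu
  have hu0 : 0 < u := Real.rpow_pos_of_pos ht _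
  set x' : ℝ := min x (u / 2) with hx'
  have hx0 : 0 < x' := lt_min hx (half_pos hu0)
  have hxu : x' ≤ u / 2 := min_le_right _ _
  set r : ℝ := 2 * u / x' with hrr
  have hr1 : 1 ≤ r := by
    rw [hrr, le_div_iff₀ hx0]
    linarith
  have hVf := vr_facts hD h.cen
  have key : c / (2 * r) ≤ QO α ζ t x' := by
    refine ge_of_tendsto (K6c_al h ht hx0) ?_
    have e1 : ∀ᶠ j : ℕ in atTop, a ⌊t * j⌋₊ / a j < 2 * u := hr.eventually (gt_mem_nhds (by linarith))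
    have e2 : ∀ᶠ j : ℕ in atTop, u / 2 < a ⌊t * j⌋₊ / a j := hr.eventually (lt_mem_nhds (by linarith))
    filter_upwards [e1, e2, hk.eventually hle] with j g1 g2 g3
    have hs := h.pos j
    rw [div_lt_iff₀ hs] at g1
    rw [lt_div_iff₀ hs] at g2
    have g4 := g3 (x' * a j) (mul_pos hx0 hs).le (by nlinarith)
    refine le_trans ?_ g4
    have v1 : vr (Set.Ioi 0) ρ (a ⌊t * j⌋₊) ≤ 2 * r * vr (Set.Ioi 0) ρ (x' * a j) := by
      refine le_trans (hVf.2.2 ?_) (vr_mul hD h.cen (x' * a j) r (mul_pos hx0 hs).le hr1)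
      have : r * (x' * a j) = 2 * u * a j := by
        rw [hrr, ← mul_assoc, div_mul_cancel₀ _ hx0.ne']
      rw [this]
      exact g1.le
    have v2 : 1 ≤ vr (Set.Ioi 0) ρ (a ⌊t * j⌋₊) := hVf.2.1 _
    have v3 : 1 / (2 * r) ≤ vr (Set.Ioi 0) ρ (x' * a j) / vr (Set.Ioi 0) ρ (a ⌊t * j⌋₊) := by
      rw [div_le_div_iff₀ (by linarith) (by linarith)]
      linarith
    calc c / (2 * r) = c * (1 / (2 * r)) := by ring
      _ ≤ _ := mul_le_mul_of_nonneg_left v3 hc.le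
  have h1 : 0 < c / (2 * r) := by positivity
  exact lt_of_lt_of_le h1 (key.trans ((QO_facts h).2.2.1 t ht x' hx0 x (min_le_left _ _)))

end Pool.Agent.BPT
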