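import Pool.Agent.MP_99a865_pr.ST.K6b
import Pool.Agent.MP_99a865_pr.ST.K6c
import Pool.Agent.MP_99a865_pr.CV.K1

/-! **[STB-E1a]** Estimates for the limit semigroup near zero. -/

open MeasureTheory ProbabilityTheory Filter Topology
open scoped ENNReal NNReal

namespace Pool.Agent.BPT

variable {α : ℝ} {ζ ρ : Measure ℝ} {a : ℕ → ℝ} {D : Set ℝ}

private theorem E1a_floor_top {T : ℝ} (hT : 0 < T) : Tendsto (fun n : ℕ => ⌊T * n⌋₊) atTop atTop :=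
  (Tm.floor (n := fun j => j) tendsto_id hT.le).top' hT

private theorem E1a_ratio (h : DA α ζ ρ a) {T : ℝ} (hT : 0 < T) :
    Tendsto (fun n : ℕ => a ⌊T * n⌋₊ / a n) atTop (𝓝 (T ^ (1 / α))) :=
  h.ratio (Tm.floor (n := fun j => j) tendsto_id hT.le) hT

/-- the ratio of the norming constants -/
private theorem E1a_two (h : DA α ζ ρ a) {T : ℝ} (hT : 1 ≤ T) :
    ∀ᶠ n : ℕ in atTop, a ⌊(T + 1) * n⌋₊ ≤ 2 * a ⌊T * n⌋₊ := by
  have hT0 : 0 < T := by linarith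
  have h1 := E1a_ratio h (T := T + 1) (by linarith)
  have h2 := E1a_ratio h hT0
  have hα : 0 < 1 / α := by have := h.one; positivity
  have hα1 : 1 / α < 1 := by
    rw [div_lt_one (by linarith [h.one])]
    exact h.one
  have hlt : (T + 1) ^ (1 / α) < 2 * T ^ (1 / α) := by
    have h3 : (T + 1) ^ (1 / α) ≤ (2 * T) ^ (1 / α) :=
      Real.rpow_le_rpow (by linarith) (by linarith) hα.le
    have h4 : (2 * T) ^ (1 / α) = 2 ^ (1 / α) * T ^ (1 / α) :=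
      Real.mul_rpow (by norm_num) hT0.le
    have h5 : (2 : ℝ) ^ (1 / α) < 2 := by
      have := Real.rpow_lt_rpow_of_exponent_lt (x := 2) (by norm_num) hα1
      rwa [Real.rpow_one] at this
    have h6 : 0 < T ^ (1 / α) := Real.rpow_pos_of_pos hT0 _
    rw [h4] at h3
    nlinarith
  have h7 := h1.eventually_lt (h2.const_mul 2) hlt
  filter_upwards [h7] with n hn
  have hpos := h.pos n
  have h8 : a ⌊(T + 1) * n⌋₊ / a n < 2 * a ⌊T * n⌋₊ / a n := by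
    rw [mul_div_assoc]
    exact hn
  exact ((div_lt_div_iff_of_pos_right hpos).1 h8).le

private theorem E1a_one (h : DA α ζ ρ a) {T : ℝ} (hT : 1 < T) :
    ∀ᶠ n : ℕ in atTop, a n ≤ a ⌊T * n⌋₊ := by
  have h1 := E1a_ratio h (T := T) (by linarith)
  have hα : 0 < 1 / α := by have := h.one; positivity
  have hlt : 1 < T ^ (1 / α) := Real.one_lt_rpow hT hα
  filter_upwards [h1.eventually (lt_mem_nhds hlt)] with n hn
  rw [one_lt_div (h.pos n)] at hn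
  exact hn.le

/-- **[STB-E1a]** Comparison with `V` (any `D`, say `Ioi 0`), for `T ≥ 1`: eventually in `n`, for all `x ≥ 0`,
`al D ρ ⌊T n⌋ x ≤ C V(x)/V(a_{⌊Tn⌋})` and, for `x ≤ a_n`, `al D ρ ⌊(T+1) n⌋ x ≥ c V(x)/V(a_{⌊Tn⌋})`. PROOF. `DA.al_le`, `DA.le_al`,
`V(a_{⌊(T+1)n⌋}) ≤ 4 V(a_{⌊Tn⌋})` for `n` large (`vr_mul`, `DA.ratio`: the ratio of the norming constants tends to
`((T+1)/T)^{1/α} < 2`), and `x ≤ a_n ≤ a_{⌊(T+1)n⌋}` for `n` large. -/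
theorem E1_comp (h : DA α ζ ρ a) (hD : Dom D) : ∃ C > (0 : ℝ), ∀ T : ℝ, 1 ≤ T → ∀ᶠ n : ℕ in atTop,
    (∀ x, 0 ≤ x → al D ρ ⌊T * n⌋₊ x ≤ C * (vr D ρ x / vr D ρ (a ⌊T * n⌋₊))) ∧
    ∀ x, 0 ≤ x → x ≤ a n → vr D ρ x / vr D ρ (a ⌊T * n⌋₊) ≤ C * al D ρ ⌊(T + 1) * n⌋₊ x := by
  obtain ⟨C₁, hC₁, hup⟩ := h.al_le hD
  obtain ⟨c, hc, hlo⟩ := h.le_al hD
  obtain ⟨_, hv1, hvm⟩ := vr_facts hD h.cen
  refine ⟨C₁ + 4 / c, by positivity, fun T hT => ?_⟩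
  have hT0 : 0 < T := by linarith
  filter_upwards [(E1a_floor_top hT0).eventually hup,
    (E1a_floor_top (T := T + 1) (by linarith)).eventually hlo, E1a_two h hT,
    E1a_one h (T := T + 1) (by linarith)] with n h1 h2 h3 h4
  have hVT : 0 < vr D ρ (a ⌊T * n⌋₊) := lt_of_lt_of_le one_pos (hv1 _)
  have hVT1 : 0 < vr D ρ (a ⌊(T + 1) * n⌋₊) := lt_of_lt_of_le one_pos (hv1 _)
  have h4c : 0 < 4 / c := by positivity
  refine ⟨fun x hx => ?_, fun x hx hxa => ?_⟩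
  · refine (h1 x hx).trans (mul_le_mul_of_nonneg_right (by linarith) ?_)
    exact div_nonneg (zero_le_one.trans (hv1 x)) hVT.le
  · have h5 := h2 x hx (hxa.trans h4)
    have hal : 0 ≤ al D ρ ⌊(T + 1) * n⌋₊ x := measureReal_nonneg
    have h6 : vr D ρ (a ⌊(T + 1) * n⌋₊) ≤ 4 * vr D ρ (a ⌊T * n⌋₊) := by
      have h7 := hvm h3
      have h8 := vr_mul hD h.cen (a ⌊T * n⌋₊) 2 (h.pos _).le (by norm_num)
      linarith
    have h7 : vr D ρ x / vr D ρ (a ⌊T * n⌋₊) ≤ 4 * (vr D ρ x / vr D ρ (a ⌊(T + 1) * n⌋₊)) := by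
      rw [mul_div_assoc', div_le_div_iff₀ hVT hVT1]
      have := mul_le_mul_of_nonneg_left h6 (zero_le_one.trans (hv1 x))
      linarith
    calc vr D ρ x / vr D ρ (a ⌊T * n⌋₊) ≤ 4 * (vr D ρ x / vr D ρ (a ⌊(T + 1) * n⌋₊)) := h7
      _ = 4 / c * (c * (vr D ρ x / vr D ρ (a ⌊(T + 1) * n⌋₊))) := by field_simp
      _ ≤ 4 / c * al D ρ ⌊(T + 1) * n⌋₊ x := mul_le_mul_of_nonneg_left h5 h4c.le
      _ ≤ (C₁ + 4 / c) * al D ρ ⌊(T + 1) * n⌋₊ x := mul_le_mul_of_nonneg_right (by linarith) hal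

private theorem E1a_anti (hD : Dom D) [IsProbabilityMeasure ρ] {k l : ℕ} (hkl : k ≤ l) (x : ℝ) :
    al D ρ l x ≤ al D ρ k x :=
  ENNReal.toReal_mono (ne_top_of_le_ne_top ENNReal.one_ne_top (kap_univ_le_one _ _))
    (surv_anti hD x hkl)

private theorem E1a_mono (hD : Dom D) [IsProbabilityMeasure ρ] (k : ℕ) {x y : ℝ} (hxy : x ≤ y) :
    al D ρ k x ≤ al D ρ k y := by
  have h1 := kap_shift_le hD (ρ := ρ) k x (y - x) (by linarith) Set.univ Set.univ MeasurableSet.univ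
    MeasurableSet.univ fun _ _ => Set.mem_univ _
  rw [add_sub_cancel] at h1
  exact ENNReal.toReal_mono (ne_top_of_le_ne_top ENNReal.one_ne_top (kap_univ_le_one _ _)) h1

/-- **[STB-E1c]** PROOF. `QO (T+1) x ≤ QO T x`-type comparison through `V`: with `x_n = x a_n`, `y_n = y a_n ≥ a_n`:
`al ⌊(T+1)n⌋ x_n ≤ al ⌊Tn⌋ x_n ≤ C V(x_n)/V(a_{⌊Tn⌋})`; `al ⌊n⌋ x_n ≤ C V(x_n)/V(a_n)` — we need a LOWER bound of `QO T y / QO (T+1) x` by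
`c / QO 1 x`: `al ⌊Tn⌋ y_n ≥ al ⌊(T+1)n⌋ a_n ≥ V(a_n)/(C V(a_{⌊Tn⌋}))`, so
`al ⌊Tn⌋ y_n · V(x_n)/V(a_n) ≥ V(x_n)/(C V(a_{⌊Tn⌋})) ≥ al ⌊(T+1)n⌋ x_n / C²`, and `V(x_n)/V(a_n) ≤ C' al ⌊n⌋ x_n` (`DA.le_al`, or `E1_comp` with `T = 1`
and `al` nonincreasing in time: `al ⌊2n⌋ x_n ≤ al n x_n`, `V(a_{⌊1·n⌋}) = V(a_n)`). -/
theorem E1_low (h : DA α ζ ρ a) : ∃ c > (0 : ℝ), ∀ T : ℝ, 1 ≤ T → ∀ x y : ℝ, 0 < x → x ≤ 1 → 1 ≤ y →
    c * QO α ζ (T + 1) x ≤ QO α ζ T y * QO α ζ 1 x := by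
  have hD : Dom (Set.Ioi (0 : ℝ)) := Or.inr rfl
  have := h.prob
  obtain ⟨C, hC, hcomp⟩ := E1_comp h hD
  obtain ⟨_, hv1, hvm⟩ := vr_facts hD h.cen
  refine ⟨1 / C ^ 3, by positivity, fun T hT x y hx hx1 hy => ?_⟩
  have hT0 : 0 < T := by linarith
  have hy0 : 0 < y := by linarith
  have hlim : ∀ (s z : ℝ), 0 < s → 0 < z →
      Tendsto (fun n : ℕ => al (Set.Ioi 0) ρ ⌊s * n⌋₊ (z * a n)) atTop (𝓝 (QO α ζ s z)) := by
    intro s z hs hz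
    refine al_seq h hD (n := fun j => j) (Tm.floor (n := fun j => j) tendsto_id hs.le) hs hz ?_
    refine tendsto_const_nhds.congr fun n => ?_
    rw [mul_div_cancel_right₀ _ (h.pos n).ne']
  have l1 := hlim (T + 1) x (by linarith) hx
  have l2 := hlim T y hT0 hy0
  have l3 := hlim 1 x one_pos hx
  have key : ∀ᶠ n : ℕ in atTop, al (Set.Ioi 0) ρ ⌊(T + 1) * n⌋₊ (x * a n) ≤
      C ^ 3 * (al (Set.Ioi 0) ρ ⌊T * n⌋₊ (y * a n) * al (Set.Ioi 0) ρ ⌊1 * (n : ℝ)⌋₊ (x * a n)) := by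
    filter_upwards [hcomp T hT, hcomp 1 le_rfl] with n h1 h2
    have ha := h.pos n
    have hxa : 0 ≤ x * a n := by positivity
    have hxa1 : x * a n ≤ a n := by nlinarith
    have hf1 : ⌊T * (n : ℝ)⌋₊ ≤ ⌊(T + 1) * (n : ℝ)⌋₊ :=
      Nat.floor_mono (by nlinarith [(Nat.cast_nonneg n : (0 : ℝ) ≤ n)])
    have hf2 : ⌊1 * (n : ℝ)⌋₊ ≤ ⌊(1 + 1) * (n : ℝ)⌋₊ :=
      Nat.floor_mono (by nlinarith [(Nat.cast_nonneg n : (0 : ℝ) ≤ n)])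
    have hfn : ⌊1 * (n : ℝ)⌋₊ = n := by rw [one_mul, Nat.floor_natCast]
    set V := vr (Set.Ioi 0) ρ with hV
    have hVT : 0 < V (a ⌊T * n⌋₊) := lt_of_lt_of_le one_pos (hv1 _)
    have hVn : 0 < V (a n) := lt_of_lt_of_le one_pos (hv1 _)
    have hVx : 0 < V (x * a n) := lt_of_lt_of_le one_pos (hv1 _)
    have e1 : al (Set.Ioi 0) ρ ⌊(T + 1) * n⌋₊ (x * a n) ≤ C * (V (x * a n) / V (a ⌊T * n⌋₊)) :=
      (E1a_anti hD hf1 _).trans (h1.1 _ hxa)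
    have e2 : V (a n) / V (a ⌊T * n⌋₊) ≤ C * al (Set.Ioi 0) ρ ⌊T * n⌋₊ (y * a n) := by
      refine (h1.2 (a n) ha.le le_rfl).trans (mul_le_mul_of_nonneg_left ?_ hC.le)
      exact (E1a_anti hD hf1 _).trans (E1a_mono hD _ (by nlinarith))
    have e3 : V (x * a n) / V (a n) ≤ C * al (Set.Ioi 0) ρ ⌊1 * (n : ℝ)⌋₊ (x * a n) := by
      have h3 := h2.2 (x * a n) hxa hxa1
      rw [hfn] at h3
      rw [hfn]
      refine h3.trans (mul_le_mul_of_nonneg_left ?_ hC.le)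
      rw [hfn] at hf2
      exact E1a_anti hD hf2 _
    have e4 : V (x * a n) / V (a ⌊T * n⌋₊) = V (x * a n) / V (a n) * (V (a n) / V (a ⌊T * n⌋₊)) := by
      field_simp
    have e5 : V (x * a n) / V (a n) * (V (a n) / V (a ⌊T * n⌋₊)) ≤
        C * al (Set.Ioi 0) ρ ⌊1 * (n : ℝ)⌋₊ (x * a n) * (C * al (Set.Ioi 0) ρ ⌊T * n⌋₊ (y * a n)) :=
      mul_le_mul e3 e2 (by positivity) (mul_nonneg hC.le measureReal_nonneg)
    calc al (Set.Ioi 0) ρ ⌊(T + 1) * n⌋₊ (x * a n) ≤ C * (V (x * a n) / V (a ⌊T * n⌋₊)) := e1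
      _ ≤ C * (C * al (Set.Ioi 0) ρ ⌊1 * (n : ℝ)⌋₊ (x * a n) *
          (C * al (Set.Ioi 0) ρ ⌊T * n⌋₊ (y * a n))) := by
        rw [e4]
        exact mul_le_mul_of_nonneg_left e5 hC.le
      _ = _ := by ring
  have hfin := le_of_tendsto_of_tendsto l1 ((l2.mul l3).const_mul (C ^ 3)) key
  rw [one_div, ← div_eq_inv_mul, div_le_iff₀ (by positivity)]
  linarith

end Pool.Agent.BPT
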