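import Pool.Agent.MP_99a865_pr.ST.E1a

/-! **[STB-E1b]** Little mass far away, for the process conditioned to survive. -/

open MeasureTheory ProbabilityTheory Filter Topology
open scoped ENNReal NNReal

namespace Pool.Agent.BPT

variable {α : ℝ} {ζ ρ : Measure ℝ} {a : ℕ → ℝ} {D : Set ℝ}

lemma E1b_cos (b z : ℝ) : Cos 0 b z := fun h => absurd rfl h

lemma E1b_meas {M : ℝ} {f : ℝ → ℝ} (hf : BCo M f) : Measurable ((Set.Ioi (0 : ℝ)).indicator f) := by
  classical
  rw [← Set.piecewise_eq_indicator]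
  exact hf.cont.measurable_piecewise continuousOn_const measurableSet_Ioi

lemma E1b_bd {M : ℝ} {f : ℝ → ℝ} (hf : BCo M f) (y : ℝ) : |(Set.Ioi (0 : ℝ)).indicator f y| ≤ M := by
  by_cases hy : y ∈ Set.Ioi (0 : ℝ)
  · rw [Set.indicator_of_mem hy]
    exact hf.bd _ hy
  · rw [Set.indicator_of_notMem hy, abs_zero]
    exact (abs_nonneg _).trans (hf.bd 1 one_pos)

lemma E1b_al_meas (hD : Dom D) [IsProbabilityMeasure ρ] (m : ℕ) : Measurable (al D ρ m) := by
  unfold al Measure.real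
  exact ((Measure.measurable_coe MeasurableSet.univ).comp (measurable_kap hD m)).ennreal_toReal

lemma E1b_al_nonneg (m : ℕ) (x : ℝ) : 0 ≤ al D ρ m x := measureReal_nonneg

lemma E1b_al_le_one [IsProbabilityMeasure ρ] (m : ℕ) (x : ℝ) : al D ρ m x ≤ 1 := by
  unfold al Measure.real
  have := kap_univ_le_one (D := D) (ρ := ρ) m x
  exact ENNReal.toReal_le_of_le_ofReal zero_le_one (by simpa using this)

/-- **[STB-E1b]** Little mass far away, for the process conditioned to survive. -/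
theorem E1_tail (h : DA α ζ ρ a) : ∀ ε > (0 : ℝ), ∃ R > (1 : ℝ), ∀ T : ℝ, 1 ≤ T → ∀ x : ℝ, 0 < x → x ≤ 1 →
    ∀ f : ℝ → ℝ, BCo 1 f → (∀ y, y ≤ R → f y = 0) →
      |QT α ζ 1 (fun y => f y * QO α ζ T y) x| ≤ ε * QO α ζ (T + 1) x := by
  have hD : Dom (Set.Ioi (0 : ℝ)) := Or.inr rfl
  have hp := h.prob
  obtain ⟨C, hC, hcomp⟩ := E1_comp h hD
  intro ε hε
  obtain ⟨R, hR, htail⟩ := h.tail hD (ε / (C * C)) (by positivity)
  refine ⟨max R 2, lt_of_lt_of_le (by norm_num) (le_max_right _ _), fun T hT x hx hx1 f hf hf0 => ?_⟩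
  have hT0 : 0 < T := by linarith
  set F : ℕ → ℝ → ℝ := fun n y => (Set.Ioi (0 : ℝ)).indicator f (y / a n) * al (Set.Ioi 0) ρ ⌊T * n⌋₊ y with hF
  have hFm : MB 1 F := by
    intro n
    refine ⟨((E1b_meas hf).comp (measurable_id.div_const _)).mul (E1b_al_meas hD _), fun y => ?_⟩
    rw [hF]
    beta_reduce
    rw [abs_mul, abs_of_nonneg (E1b_al_nonneg _ _)]
    have h1 := E1b_bd hf (y / a n)
    have h2 := E1b_al_le_one (D := Set.Ioi (0 : ℝ)) (ρ := ρ) ⌊T * n⌋₊ y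
    nlinarith [abs_nonneg ((Set.Ioi (0 : ℝ)).indicator f (y / a n)),
      E1b_al_nonneg (D := Set.Ioi (0 : ℝ)) (ρ := ρ) ⌊T * n⌋₊ y]
  have hQ := (QO_facts h).2.2.2 T hT0
  have hlim : BCo 1 (fun y => f y * QO α ζ T y) := by
    refine ⟨fun y hy => ?_, hf.cont.mul hQ.cont⟩
    rw [abs_mul]
    have h1 := hf.bd y hy
    have h2 := hQ.bd y hy
    nlinarith [abs_nonneg (f y), abs_nonneg (QO α ζ T y)]
  have hid : Tendsto (fun n : ℕ => n) atTop atTop := tendsto_id
  have hTT : Tm (fun n => n) (fun n => ⌊T * n⌋₊) T := Tm.floor (n := fun n => n) hid hT0.le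
  have hT1 : Tm (fun n => n) (fun n => n) 1 := by
    refine ⟨hid, ?_⟩
    refine tendsto_const_nhds.congr' ?_
    filter_upwards [eventually_ge_atTop 1] with n hn
    have : (n : ℝ) ≠ 0 := by positivity
    exact (div_self this).symm
  have hTT1 : Tm (fun n => n) (fun n => ⌊(T + 1) * n⌋₊) (T + 1) :=
    Tm.floor (n := fun n => n) hid (by linarith)
  have hU : UC 0 (fun _ => 0) (fun n => a n) F (fun y => f y * QO α ζ T y) := by
    refine UC_of_seq (fun n => h.pos n) hlim.cont fun φ hφ ys _ y hy hl => ?_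
    have hys : ∀ᶠ i in atTop, 0 < ys i / a (φ i) := hl.eventually (eventually_gt_nhds hy)
    have t1 : Tendsto (fun i => f (ys i / a (φ i))) atTop (𝓝 (f y)) :=
      ((hf.cont.continuousAt (Ioi_mem_nhds hy)).tendsto).comp hl
    have t2 : Tendsto (fun i => al (Set.Ioi 0) ρ ⌊T * (φ i : ℕ)⌋₊ (ys i)) atTop (𝓝 (QO α ζ T y)) :=
      al_seq h hD (n := fun i => φ i) (k := fun i => ⌊T * (φ i : ℕ)⌋₊)
        (hTT.sub hφ.tendsto_atTop) hT0 hy hl
    refine (t1.mul t2).congr' ?_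
    filter_upwards [hys] with i hi
    rw [hF]
    beta_reduce
    rw [Set.indicator_of_mem (show ys i / a (φ i) ∈ Set.Ioi (0 : ℝ) from hi)]
  have h1 := kap_UC h hD (b := 0) (h := 0) (Eventually.of_forall fun x => E1b_cos 0 x) hT1 one_pos
    (c := fun _ => 0) hFm hlim hU
  have hl : Tendsto (fun n : ℕ => x * a n / a n) atTop (𝓝 x) := by
    refine tendsto_const_nhds.congr fun n => ?_
    rw [mul_div_assoc, div_self (h.pos n).ne', mul_one]
  have h2 := h1.seq (fun n => h.pos n) (QT_BCo h one_pos hlim).cont (φ := fun n => n) hid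
    (ys := fun n => x * a n) (fun n => E1b_cos _ _) hx hl
  have h3 := al_seq h hD hTT1 (by linarith) (xs := fun n => x * a n) hx hl
  refine le_of_tendsto_of_tendsto h2.abs (h3.const_mul ε) ?_
  filter_upwards [hcomp T hT, htail, h.top.eventually (eventually_ge_atTop 1)] with n c1 c2 _
  have han := h.pos n
  have hxn : 0 ≤ x * a n := (mul_pos hx han).le
  have hxn1 : x * a n ≤ a n := by nlinarith
  have hVT : 0 < vr (Set.Ioi 0) ρ (a ⌊T * n⌋₊) := lt_of_lt_of_le one_pos ((vr_facts hD h.cen).2.1 _)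
  set VT' := vr (Set.Ioi 0) ρ (a ⌊T * n⌋₊) with hVT'
  have hpt : ∀ y, ENNReal.ofReal ‖F n y‖ ≤ (Set.Ioi (R * a n)).indicator
      (fun y => ENNReal.ofReal (C / VT') * ENNReal.ofReal (vr (Set.Ioi 0) ρ y)) y := by
    intro y
    by_cases hy : y ∈ Set.Ioi (R * a n)
    · rw [Set.indicator_of_mem hy, ← ENNReal.ofReal_mul (by positivity)]
      refine ENNReal.ofReal_le_ofReal ?_
      have hy0 : 0 ≤ y := (mul_pos hR han).le.trans (le_of_lt hy)
      have b1 := c1.1 y hy0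
      rw [hF]
      beta_reduce
      rw [Real.norm_eq_abs, abs_mul, abs_of_nonneg (E1b_al_nonneg _ _)]
      have b2 := E1b_bd hf (y / a n)
      have b3 := E1b_al_nonneg (D := Set.Ioi (0 : ℝ)) (ρ := ρ) ⌊T * n⌋₊ y
      have b4 : |(Set.Ioi (0 : ℝ)).indicator f (y / a n)| * al (Set.Ioi 0) ρ ⌊T * n⌋₊ y ≤
          1 * al (Set.Ioi 0) ρ ⌊T * n⌋₊ y := mul_le_mul_of_nonneg_right b2 b3
      have b5 : C * (vr (Set.Ioi 0) ρ y / VT') = C / VT' * vr (Set.Ioi 0) ρ y := by ring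
      linarith
    · have hle : y / a n ≤ R := by
        rw [div_le_iff₀ han]
        exact not_lt.1 hy
      have hz : F n y = 0 := by
        rw [hF]
        beta_reduce
        by_cases hp' : y / a n ∈ Set.Ioi (0 : ℝ)
        · rw [Set.indicator_of_mem hp', hf0 _ (hle.trans (le_max_left _ _)), zero_mul]
        · rw [Set.indicator_of_notMem hp', zero_mul]
      rw [hz]
      simp
  have e1 : ∫⁻ y, ENNReal.ofReal ‖F n y‖ ∂(kap (Set.Ioi 0) ρ n (x * a n)) ≤
      ENNReal.ofReal (C / VT' * (ε / (C * C) * vr (Set.Ioi 0) ρ (x * a n))) := by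
    refine (lintegral_mono hpt).trans ?_
    rw [lintegral_indicator measurableSet_Ioi, lintegral_const_mul' _ _ ENNReal.ofReal_ne_top,
      ENNReal.ofReal_mul (by positivity)]
    exact mul_le_mul_right (c2 n le_rfl _ hxn hxn1) _
  have hV0 : 0 < vr (Set.Ioi 0) ρ (x * a n) := lt_of_lt_of_le one_pos ((vr_facts hD h.cen).2.1 _)
  have e2 : ‖∫ y, F n y ∂(kap (Set.Ioi 0) ρ n (x * a n))‖ ≤
      C / VT' * (ε / (C * C) * vr (Set.Ioi 0) ρ (x * a n)) := by
    refine (norm_integral_le_lintegral_norm _).trans ?_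
    exact ENNReal.toReal_le_of_le_ofReal (by positivity) e1
  rw [Real.norm_eq_abs] at e2
  refine e2.trans ?_
  have e3 := c1.2 _ hxn hxn1
  have e4 : C / VT' * (ε / (C * C) * vr (Set.Ioi 0) ρ (x * a n)) =
      ε / C * (vr (Set.Ioi 0) ρ (x * a n) / VT') := by
    field_simp
  rw [e4]
  calc ε / C * (vr (Set.Ioi 0) ρ (x * a n) / VT')
      ≤ ε / C * (C * al (Set.Ioi 0) ρ ⌊(T + 1) * n⌋₊ (x * a n)) :=
        mul_le_mul_of_nonneg_left e3 (by positivity)
    _ = ε * al (Set.Ioi 0) ρ ⌊(T + 1) * n⌋₊ (x * a n) := by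
        field_simp

end Pool.Agent.BPT
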