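import Pool.Agent.MP_99a865_pr.ST.P1
import Pool.Agent.MP_99a865_pr.ST.E1a

/-! **[STB-E1c]** Minorisation. -/

open MeasureTheory ProbabilityTheory Filter Topology
open scoped ENNReal NNReal

namespace Pool.Agent.BPT

variable {α : ℝ} {ζ ρ : Measure ℝ} {a : ℕ → ℝ} {D : Set ℝ}

lemma E1c_cut {δ : ℝ} (h0 : 0 < δ) (h1 : δ < 1) : BCo 1 (cut δ) ∧ BCo 1 (fun y => 1 - cut δ y) := by
  obtain ⟨k1, k2, _⟩ := cut_facts h0 h1
  refine ⟨⟨fun x _ => ?_, k1.continuousOn⟩, ⟨fun x _ => ?_, (continuous_const.sub k1).continuousOn⟩⟩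
  · rw [abs_le]; constructor <;> linarith [(k2 x).1, (k2 x).2]
  · rw [abs_le]; constructor <;> linarith [(k2 x).1, (k2 x).2]

lemma E1c_meas {M : ℝ} {f : ℝ → ℝ} (hf : BCo M f) : Measurable ((Set.Ioi (0 : ℝ)).indicator f) := by
  classical
  rw [← Set.piecewise_eq_indicator]
  exact hf.cont.measurable_piecewise continuousOn_const measurableSet_Ioi

/-- at time one half a positive part of the mass is in `[δ, 1/δ]` -/
lemma E1c_mid (h : DA α ζ ρ a) : ∃ δ : ℝ, 0 < δ ∧ δ < 1 ∧ ∀ x : ℝ, 0 < x → x ≤ 1 →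
    (1 / 2) * QO α ζ 1 x ≤ QT α ζ (1 / 2) (cut δ) x := by
  have hD : Dom (Set.Ioi (0 : ℝ)) := Or.inr rfl
  have hp := h.prob
  obtain ⟨c, hc, hlow⟩ := h.le_al hD
  set ε : ℝ := c / 4 with hε
  have hε0 : 0 < ε := by positivity
  obtain ⟨δ₁, hδ₁, hnear⟩ := h.near hD (c := 1 / 4) (by norm_num) ε hε0
  obtain ⟨R, hR, htail⟩ := h.tail hD ε hε0
  set R' : ℝ := max R 1 with hR'
  have hR1 : 1 ≤ R' := le_max_right _ _
  have hR0 : 0 < R' := by linarith
  set δ : ℝ := min (min δ₁ (1 / 2)) (1 / R') with hδ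
  have hδ0 : 0 < δ := lt_min (lt_min hδ₁ (by norm_num)) (by positivity)
  have hδa : δ ≤ δ₁ := (min_le_left _ _).trans (min_le_left _ _)
  have hδb : δ ≤ 1 / 2 := (min_le_left _ _).trans (min_le_right _ _)
  have hδc : R' ≤ 1 / δ := by
    have : δ ≤ 1 / R' := min_le_right _ _
    rw [le_div_iff₀ hR0] at this
    rw [le_div_iff₀ hδ0]
    linarith
  have hδ1 : δ < 1 := by linarith
  obtain ⟨k1, k2, k3, _, _⟩ := cut_facts hδ0 hδ1
  obtain ⟨b1, b2⟩ := E1c_cut hδ0 hδ1
  refine ⟨δ, hδ0, hδ1, fun x hx hx1 => ?_⟩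
  have hid : Tendsto (fun n : ℕ => n) atTop atTop := tendsto_id
  have hTT : Tm (fun n => n) (fun n => ⌊(1 / 2 : ℝ) * n⌋₊) (1 / 2) :=
    Tm.floor (n := fun n => n) hid (by norm_num)
  have hT1 : Tm (fun n => n) (fun n => n) 1 := by
    refine ⟨hid, ?_⟩
    refine tendsto_const_nhds.congr' ?_
    filter_upwards [eventually_ge_atTop 1] with n hn
    have : (n : ℝ) ≠ 0 := by positivity
    exact (div_self this).symm
  have hl : Tendsto (fun n : ℕ => x * a n / a n) atTop (𝓝 x) := by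
    refine tendsto_const_nhds.congr fun n => ?_
    rw [mul_div_assoc, div_self (h.pos n).ne', mul_one]
  have t1 := kap_seq h hD hTT (by norm_num) b2 hx (xs := fun n => x * a n) hl
  have t2 := al_seq h hD hT1 one_pos (xs := fun n => x * a n) hx hl
  have key : QT α ζ (1 / 2) (fun y => 1 - cut δ y) x ≤ 1 / 2 * QO α ζ 1 x := by
    refine le_of_tendsto_of_tendsto t1 (t2.const_mul (1 / 2)) ?_
    filter_upwards [hlow, hnear, htail, eventually_ge_atTop 4] with n c1 c2 c3 hn4
    have han := h.pos n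
    have hxn : 0 ≤ x * a n := (mul_pos hx han).le
    have hxn1 : x * a n ≤ a n := by nlinarith
    have hn4' : (4 : ℝ) ≤ n := by exact_mod_cast hn4
    set m : ℕ := ⌊(1 / 2 : ℝ) * n⌋₊ with hm
    have hm1 : 1 / 4 * (n : ℝ) ≤ m := by
      have := Nat.lt_floor_add_one ((1 / 2 : ℝ) * n)
      rw [← hm] at this
      linarith
    have hm2 : m ≤ n := by
      have : (m : ℝ) ≤ 1 / 2 * n := Nat.floor_le (by positivity)
      have : (m : ℝ) ≤ n := by linarith
      exact_mod_cast this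
    set κ := kap (Set.Ioi 0) ρ m (x * a n) with hκ
    set V := vr (Set.Ioi 0) ρ (x * a n) with hV
    set W := vr (Set.Ioi 0) ρ (a n) with hW
    have hW0 : 0 < W := lt_of_lt_of_le one_pos ((vr_facts hD h.cen).2.1 _)
    have hV0 : 0 < V := lt_of_lt_of_le one_pos ((vr_facts hD h.cen).2.1 _)
    have hκf : IsFiniteMeasure κ := ⟨lt_of_le_of_lt (kap_univ_le_one m _) ENNReal.one_lt_top⟩
    have d1 : κ.real (Set.Iic (δ₁ * a n)) ≤ ε * (V / W) := c2 m hm1 _ hxn
    have d2 : κ.real (Set.Ioi (R' * a n)) ≤ ε * (V / W) := by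
      have e1 : κ (Set.Ioi (R' * a n)) * ENNReal.ofReal W ≤ ENNReal.ofReal (ε * V) := by
        refine le_trans ?_ (c3 m hm2 _ hxn hxn1)
        calc κ (Set.Ioi (R' * a n)) * ENNReal.ofReal W
            = ∫⁻ _ in Set.Ioi (R' * a n), ENNReal.ofReal W ∂κ := by
              rw [setLIntegral_const, mul_comm]
          _ ≤ ∫⁻ y in Set.Ioi (R' * a n), ENNReal.ofReal (vr (Set.Ioi 0) ρ y) ∂κ := by
              refine setLIntegral_mono' measurableSet_Ioi fun y hy => ENNReal.ofReal_le_ofReal ?_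
              refine (vr_facts hD h.cen).2.2 ?_
              have : a n ≤ R' * a n := by nlinarith
              exact this.trans (le_of_lt hy)
          _ ≤ ∫⁻ y in Set.Ioi (R * a n), ENNReal.ofReal (vr (Set.Ioi 0) ρ y) ∂κ := by
              refine lintegral_mono_set (Set.Ioi_subset_Ioi ?_)
              exact mul_le_mul_of_nonneg_right (le_max_left _ _) han.le
      have e2 := ENNReal.toReal_le_of_le_ofReal (by positivity) e1
      rw [ENNReal.toReal_mul, ENNReal.toReal_ofReal hW0.le] at e2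
      have e3 : κ.real (Set.Ioi (R' * a n)) * W ≤ ε * V := e2
      have e4 : ε * (V / W) = ε * V / W := by ring
      rw [e4, le_div_iff₀ hW0]
      exact e3
    have d3 : c * (V / W) ≤ al (Set.Ioi 0) ρ n (x * a n) := c1 _ hxn hxn1
    have hm3 : Measurable (fun y => (Set.Ioi (0 : ℝ)).indicator (fun y => 1 - cut δ y) (y / a n)) :=
      (E1c_meas b2).comp (measurable_id.div_const _)
    have hpt : ∀ y, (Set.Ioi (0 : ℝ)).indicator (fun y => 1 - cut δ y) (y / a n) ≤
        (Set.Iic (δ₁ * a n)).indicator (fun _ => (1 : ℝ)) y +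
          (Set.Ioi (R' * a n)).indicator (fun _ => (1 : ℝ)) y := by
      intro y
      have n1 : 0 ≤ (Set.Iic (δ₁ * a n)).indicator (fun _ => (1 : ℝ)) y :=
        Set.indicator_nonneg (fun _ _ => zero_le_one) y
      have n2 : 0 ≤ (Set.Ioi (R' * a n)).indicator (fun _ => (1 : ℝ)) y :=
        Set.indicator_nonneg (fun _ _ => zero_le_one) y
      by_cases hy : y / a n ∈ Set.Ioi (0 : ℝ)
      swap
      · rw [Set.indicator_of_notMem hy]
        linarith
      rw [Set.indicator_of_mem hy]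
      by_cases h1 : y / a n < δ
      · have : y ∈ Set.Iic (δ₁ * a n) := by
          have := (div_lt_iff₀ han).1 h1
          exact (this.le).trans (mul_le_mul_of_nonneg_right hδa han.le)
        rw [Set.indicator_of_mem this]
        linarith [(k2 (y / a n)).1]
      · by_cases h2 : 1 / δ < y / a n
        · have : y ∈ Set.Ioi (R' * a n) := by
            have := (lt_div_iff₀ han).1 h2
            exact lt_of_le_of_lt (mul_le_mul_of_nonneg_right hδc han.le) this
          rw [Set.indicator_of_mem this]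
          linarith [(k2 (y / a n)).1]
        · rw [k3 _ (not_lt.1 h1) (not_lt.1 h2)]
          linarith
    have hint : ∫ y, (Set.Ioi (0 : ℝ)).indicator (fun y => 1 - cut δ y) (y / a n) ∂κ ≤
        κ.real (Set.Iic (δ₁ * a n)) + κ.real (Set.Ioi (R' * a n)) := by
      have i1 : Integrable ((Set.Iic (δ₁ * a n)).indicator (fun _ => (1 : ℝ))) κ :=
        (integrable_const _).indicator measurableSet_Iic
      have i2 : Integrable ((Set.Ioi (R' * a n)).indicator (fun _ => (1 : ℝ))) κ :=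
        (integrable_const _).indicator measurableSet_Ioi
      have i3 : Integrable (fun y => (Set.Ioi (0 : ℝ)).indicator (fun y => 1 - cut δ y) (y / a n)) κ := by
        refine Integrable.of_bound hm3.aestronglyMeasurable 1 (Eventually.of_forall fun y => ?_)
        rw [Real.norm_eq_abs]
        by_cases hy : y / a n ∈ Set.Ioi (0 : ℝ)
        · rw [Set.indicator_of_mem hy]
          exact b2.bd _ hy
        · rw [Set.indicator_of_notMem hy, abs_zero]
          exact zero_le_one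
      refine (integral_mono i3 (i1.add i2) hpt).trans ?_
      simp only [Pi.add_apply]
      rw [integral_add i1 i2, integral_indicator_const _ measurableSet_Iic,
        integral_indicator_const _ measurableSet_Ioi]
      simp
    have e5 : ε * (V / W) = c * (V / W) / 4 := by rw [hε]; ring
    rw [e5] at d1 d2
    linarith
  have hadd := QT_add h (t := 1 / 2) (by norm_num) b2 b1 hx
  have e : (fun y => 1 - cut δ y + cut δ y) = fun _ => (1 : ℝ) := by
    funext y
    ring
  rw [e] at hadd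
  have hQ : QT α ζ (1 / 2) (fun _ => 1) x = QO α ζ (1 / 2) x := rfl
  have hmono := (QO_facts h).2.1 (1 / 2) (by norm_num) 1 (by norm_num) x hx
  linarith

/-- **[STB-E1d]** Minorisation. -/
theorem E1_minor (h : DA α ζ ρ a) : ∃ c > (0 : ℝ), ∀ x : ℝ, 0 < x → x ≤ 1 → ∀ (M : ℝ) (f : ℝ → ℝ), BCo M f →
    (∀ y > 0, 0 ≤ f y) → c * QO α ζ 1 x * ∫ y in (1 : ℝ)..2, f y ≤ QT α ζ 1 f x := by
  obtain ⟨δ, hδ0, hδ1, hmid⟩ := E1c_mid h
  have hR : 1 < 2 / δ := by
    rw [lt_div_iff₀ hδ0]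
    linarith
  have hR2 : 2 ≤ 2 / δ := by
    rw [le_div_iff₀ hδ0]
    linarith
  obtain ⟨c', hc', hpos⟩ := P1_pos h (t := 1 / 2) (by norm_num) hR
  obtain ⟨k1, k2, k3, k4, k5⟩ := cut_facts hδ0 hδ1
  obtain ⟨b1, _⟩ := E1c_cut hδ0 hδ1
  refine ⟨c' / 2, by positivity, fun x hx hx1 M f hf hf0 => ?_⟩
  have hIcc : Set.Icc (1 : ℝ) 2 ⊆ Set.Ioi 0 := fun z hz => lt_of_lt_of_le one_pos hz.1
  have hIoc : Set.Ioc (1 : ℝ) 2 ⊆ Set.Ioi 0 := fun z hz => lt_trans one_pos hz.1
  have hI0 : 0 ≤ ∫ y in (1 : ℝ)..2, f y :=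
    intervalIntegral.integral_nonneg (by norm_num) fun y hy => hf0 y (hIcc hy)
  set I : ℝ := ∫ y in (1 : ℝ)..2, f y with hI
  have hfi : IntegrableOn f (Set.Ioc 1 2) := by
    have : IntegrableOn f (Set.Icc 1 2) := (hf.cont.mono hIcc).integrableOn_compact isCompact_Icc
    exact this.mono_set Set.Ioc_subset_Icc_self
  have hB := QT_BCo h (t := 1 / 2) (by norm_num) hf
  have hlow : ∀ y > 0, c' * I * cut δ y ≤ QT α ζ (1 / 2) f y := by
    intro y hy
    have hnn : 0 ≤ QT α ζ (1 / 2) f y := QT_nonneg h (by norm_num) hf hf0 hy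
    by_cases h1 : y ≤ δ / 2
    · rw [k4 y h1, mul_zero]
      exact hnn
    by_cases h2 : 2 / δ ≤ y
    · rw [k5 y h2, mul_zero]
      exact hnn
    push Not at h1 h2
    have hcut : cut δ y ≤ 1 := (k2 y).2
    have hcI : 0 ≤ c' * I := mul_nonneg hc'.le hI0
    have m1 : c' * I * cut δ y ≤ c' * I := by nlinarith
    refine m1.trans ?_
    obtain ⟨i1, i2⟩ := qT_int h (t := 1 / 2) (by norm_num) hf hy
    rw [← i2]
    have hnn2 : ∀ z ∈ Set.Ioi (0 : ℝ), 0 ≤ qT α ζ (1 / 2) y z * f z := fun z hz =>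
      mul_nonneg (qT_nonneg h (by norm_num) hy hz) (hf0 z hz)
    have m2 : ∫ z in Set.Ioc (1 : ℝ) 2, qT α ζ (1 / 2) y z * f z ≤
        ∫ z in Set.Ioi (0 : ℝ), qT α ζ (1 / 2) y z * f z := by
      refine setIntegral_mono_set i1 ?_ (HasSubset.Subset.eventuallyLE hIoc)
      exact (ae_restrict_iff' measurableSet_Ioi).2 (Eventually.of_forall hnn2)
    refine le_trans ?_ m2
    rw [hI, intervalIntegral.integral_of_le (by norm_num), ← integral_const_mul]
    refine setIntegral_mono_on (hfi.const_mul _) (i1.mono_set hIoc) measurableSet_Ioc fun z hz => ?_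
    have hz0 := hIoc hz
    refine mul_le_mul_of_nonneg_right ?_ (hf0 z hz0)
    have e1 : 1 / (2 / δ) = δ / 2 := by field_simp
    refine hpos y z ?_ h2.le ?_ ?_
    · rw [e1]; exact h1.le
    · rw [e1]; linarith [hz.1]
    · linarith [hz.2]
  have hs := QT_semi h (s := 1 / 2) (t := 1 / 2) (by norm_num) (by norm_num) hf hx
  have e2 : (1 / 2 + 1 / 2 : ℝ) = 1 := by norm_num
  rw [e2] at hs
  rw [← hs]
  have hbc : BCo (c' * I) (fun y => c' * I * cut δ y) := by
    refine ⟨fun y hy => ?_, (continuous_const.mul k1).continuousOn⟩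
    have hcI : 0 ≤ c' * I := mul_nonneg hc'.le hI0
    rw [abs_of_nonneg (mul_nonneg hcI (k2 y).1)]
    nlinarith [(k2 y).2]
  have m3 := QT_mono h (t := 1 / 2) (by norm_num) hbc hB hlow hx
  rw [QT_smul h (by norm_num) b1 (c' * I) hx] at m3
  refine le_trans ?_ m3
  have m4 := hmid x hx hx1
  have hcI : 0 ≤ c' * I := mul_nonneg hc'.le hI0
  calc c' / 2 * QO α ζ 1 x * I = c' * I * (1 / 2 * QO α ζ 1 x) := by ring
    _ ≤ c' * I * QT α ζ (1 / 2) (cut δ) x := mul_le_mul_of_nonneg_left m4 hcI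

end Pool.Agent.BPT
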