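import Pool.Agent.MP_99a865_pr.ST.E1b
import Pool.Agent.MP_99a865_pr.ST.E1c

/-! **[STB-E2a]** The entrance law: one step of the contraction. -/

open MeasureTheory ProbabilityTheory Filter Topology
open scoped ENNReal NNReal

namespace Pool.Agent.BPT

variable {α : ℝ} {ζ ρ : Measure ℝ} {a : ℕ → ℝ} {D : Set ℝ}

/-- `E_x[f(Y_T) | τ > T]` -/
noncomputable def rT (α : ℝ) (ζ : Measure ℝ) (T : ℝ) (f : ℝ → ℝ) (x : ℝ) : ℝ := QT α ζ T f x / QO α ζ T x

theorem rT_BCo (h : DA α ζ ρ a) {T M : ℝ} (hT : 0 < T) {f : ℝ → ℝ} (hf : BCo M f) : BCo M (rT α ζ T f) := by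
  refine ⟨fun x hx => ?_, ?_⟩
  · have h1 := QT_abs_le h hT hf hx
    have h2 := QO_pos h hT hx
    unfold rT
    rw [abs_div, abs_of_pos h2, div_le_iff₀ h2]
    exact h1
  · exact (QT_BCo h hT hf).cont.div ((QO_facts h).2.2.2 T hT).cont fun x hx => (QO_pos h hT hx).ne'

private theorem E2a_one : BCo 1 (fun _ : ℝ => (1 : ℝ)) := ⟨fun _ _ => by simp, continuousOn_const⟩

/-- scaling (`QT_scale`) -/
theorem rT_scale (h : DA α ζ ρ a) {T l M : ℝ} (hT : 0 < T) (hl : 0 < l) {f : ℝ → ℝ} (hf : BCo M f) {x : ℝ} (hx : 0 < x) :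
    rT α ζ (l ^ α * T) f (l * x) = rT α ζ T (fun y => f (l * y)) x := by
  unfold rT QO
  rw [QT_scale h hT hl hf hx, QT_scale h hT hl E2a_one hx]

private theorem E2a_M0 {M : ℝ} {f : ℝ → ℝ} (hf : BCo M f) : 0 ≤ M :=
  (abs_nonneg _).trans (hf.bd 1 one_pos)

private theorem E2a_mul {M N : ℝ} {f g : ℝ → ℝ} (hf : BCo M f) (hg : BCo N g) :
    BCo (M * N) (fun y => f y * g y) := by
  refine ⟨fun x hx => ?_, hf.cont.mul hg.cont⟩
  rw [abs_mul]
  exact mul_le_mul (hf.bd x hx) (hg.bd x hx) (abs_nonneg _) (E2a_M0 hf)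

private theorem E2a_mulQ (h : DA α ζ ρ a) {T M : ℝ} (hT : 0 < T) {f : ℝ → ℝ} (hf : BCo M f) :
    BCo M (fun y => f y * QO α ζ T y) := by
  have := E2a_mul hf ((QO_facts h).2.2.2 T hT)
  rwa [mul_one] at this

private theorem E2a_ii {M : ℝ} {f : ℝ → ℝ} (hf : BCo M f) : IntervalIntegrable f volume 1 2 := by
  refine ContinuousOn.intervalIntegrable (hf.cont.mono ?_)
  intro y hy
  rw [Set.uIcc_of_le (by norm_num : (1 : ℝ) ≤ 2)] at hy
  exact lt_of_lt_of_le one_pos hy.1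

/-- minorisation for the process conditioned to survive -/
private theorem E2a_minor (h : DA α ζ ρ a) : ∃ c₀ > (0 : ℝ), c₀ < 1 ∧ ∀ T : ℝ, 1 ≤ T → ∀ x : ℝ, 0 < x → x ≤ 1 →
    ∀ (M : ℝ) (f : ℝ → ℝ), BCo M f → (∀ y > 0, 0 ≤ f y) →
      c₀ * QO α ζ (T + 1) x * ∫ y in (1 : ℝ)..2, f y ≤ QT α ζ 1 (fun y => f y * QO α ζ T y) x := by
  obtain ⟨c, hc, hmin⟩ := E1_minor h
  obtain ⟨c', hc', hlow⟩ := E1_low h
  refine ⟨min (c * c') (1 / 2), lt_min (by positivity) (by norm_num),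
    lt_of_le_of_lt (min_le_right _ _) (by norm_num), fun T hT x hx hx1 M f hf hf0 => ?_⟩
  have hT0 : 0 < T := by linarith
  have hfQ := E2a_mulQ h hT0 hf
  have hI0 : 0 ≤ ∫ y in (1 : ℝ)..2, f y :=
    intervalIntegral.integral_nonneg (by norm_num) fun y hy => hf0 y (lt_of_lt_of_le one_pos hy.1)
  have hN : 0 ≤ QO α ζ (T + 1) x := (QO_pos h (by linarith) hx).le
  have h1 := hmin x hx hx1 M _ hfQ fun y hy => mul_nonneg (hf0 y hy) (QO_pos h hT0 hy).le
  have h2 : c' * QO α ζ (T + 1) x * ∫ y in (1 : ℝ)..2, f y ≤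
      QO α ζ 1 x * ∫ y in (1 : ℝ)..2, f y * QO α ζ T y := by
    rw [← intervalIntegral.integral_const_mul, ← intervalIntegral.integral_const_mul]
    refine intervalIntegral.integral_mono_on (by norm_num) ((E2a_ii hf).const_mul _)
      ((E2a_ii hfQ).const_mul _) fun y hy => ?_
    have h3 := hlow T hT x y hx hx1 hy.1
    have h4 := mul_le_mul_of_nonneg_right h3 (hf0 y (lt_of_lt_of_le one_pos hy.1))
    calc c' * QO α ζ (T + 1) x * f y ≤ QO α ζ T y * QO α ζ 1 x * f y := h4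
      _ = QO α ζ 1 x * (f y * QO α ζ T y) := by ring
  calc min (c * c') (1 / 2) * QO α ζ (T + 1) x * ∫ y in (1 : ℝ)..2, f y
      ≤ c * c' * QO α ζ (T + 1) x * ∫ y in (1 : ℝ)..2, f y :=
        mul_le_mul_of_nonneg_right (mul_le_mul_of_nonneg_right (min_le_left _ _) hN) hI0
    _ = c * (c' * QO α ζ (T + 1) x * ∫ y in (1 : ℝ)..2, f y) := by ring
    _ ≤ c * (QO α ζ 1 x * ∫ y in (1 : ℝ)..2, f y * QO α ζ T y) := mul_le_mul_of_nonneg_left h2 hc.le
    _ = c * QO α ζ 1 x * ∫ y in (1 : ℝ)..2, f y * QO α ζ T y := by ring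
    _ ≤ _ := h1

/-- cutoff: `1` on `(-∞, R]`, `0` on `[2R, ∞)` -/
private noncomputable def E2a_chi (R y : ℝ) : ℝ := max 0 (min 1 (2 - y / R))

private theorem E2a_chi_cont (R : ℝ) : Continuous (E2a_chi R) :=
  continuous_const.max (continuous_const.min (continuous_const.sub (continuous_id.div_const R)))

private theorem E2a_chi_bd (R y : ℝ) : 0 ≤ E2a_chi R y ∧ E2a_chi R y ≤ 1 :=
  ⟨le_max_left _ _, max_le zero_le_one (min_le_left _ _)⟩

private theorem E2a_chi_one {R y : ℝ} (hR : 0 < R) (hy : y ≤ R) : E2a_chi R y = 1 := by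
  unfold E2a_chi
  have h1 : y / R ≤ 1 := (div_le_one hR).2 hy
  rw [min_eq_left (by linarith), max_eq_right zero_le_one]

private theorem E2a_chi_zero {R y : ℝ} (hR : 0 < R) (hy : 2 * R ≤ y) : E2a_chi R y = 0 := by
  unfold E2a_chi
  have h1 : 2 ≤ y / R := (le_div_iff₀ hR).2 hy
  exact max_eq_left ((min_le_right _ _).trans (by linarith))

/-- lower bound for functions which are nonnegative on `(0, R]` only -/
private theorem E2a_low (h : DA α ζ ρ a) : ∃ c₀ > (0 : ℝ), c₀ < 1 ∧ ∀ ε > (0 : ℝ), ∃ R > (1 : ℝ), ∀ T : ℝ, 1 ≤ T →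
    ∀ x : ℝ, 0 < x → x ≤ 1 → ∀ f : ℝ → ℝ, BCo 4 f → (∀ y, 0 < y → y ≤ R → 0 ≤ f y) →
      c₀ * QO α ζ (T + 1) x * (∫ y in (1 : ℝ)..2, f y) - ε * QO α ζ (T + 1) x ≤
        QT α ζ 1 (fun y => f y * QO α ζ T y) x := by
  obtain ⟨c₀, hc₀, hc₁, hmin⟩ := E2a_minor h
  refine ⟨c₀, hc₀, hc₁, fun ε hε => ?_⟩
  obtain ⟨R₁, hR₁, htail⟩ := E1_tail h (ε / 4) (by positivity)
  set R : ℝ := max R₁ 2 with hR
  have hR0 : 0 < R := lt_of_lt_of_le (by norm_num) (le_max_right R₁ 2)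
  have hR2 : 2 ≤ R := le_max_right _ _
  refine ⟨2 * R, by linarith, fun T hT x hx hx1 f hf hf0 => ?_⟩
  have hT0 : 0 < T := by linarith
  -- the two parts
  have hchi : BCo 1 (E2a_chi R) := ⟨fun y _ => by
    rw [abs_of_nonneg (E2a_chi_bd R y).1]
    exact (E2a_chi_bd R y).2, (E2a_chi_cont R).continuousOn⟩
  have hchi' : BCo 1 (fun y => 1 - E2a_chi R y) := ⟨fun y _ => by
    rw [abs_of_nonneg (by linarith [(E2a_chi_bd R y).2])]
    linarith [(E2a_chi_bd R y).1], continuousOn_const.sub (E2a_chi_cont R).continuousOn⟩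
  have hf1 : BCo 4 (fun y => E2a_chi R y * f y) := by
    have := E2a_mul hchi hf
    rwa [one_mul] at this
  have hf2 : BCo 1 (fun y => (1 - E2a_chi R y) * f y / 4) := by
    have h1 := E2a_mul hchi' hf
    rw [one_mul] at h1
    refine ⟨fun y hy => ?_, h1.cont.div_const 4⟩
    rw [abs_div, abs_of_pos (by norm_num : (0 : ℝ) < 4), div_le_one (by norm_num)]
    exact h1.bd y hy
  have hf2' : BCo 4 (fun y => 4 * ((1 - E2a_chi R y) * f y / 4 * QO α ζ T y)) := by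
    have h1 := E2a_mulQ h hT0 hf2
    refine ⟨fun y hy => ?_, continuousOn_const.mul h1.cont⟩
    rw [abs_mul, abs_of_pos (by norm_num : (0 : ℝ) < 4)]
    linarith [h1.bd y hy]
  have hsplit : QT α ζ 1 (fun y => f y * QO α ζ T y) x =
      QT α ζ 1 (fun y => E2a_chi R y * f y * QO α ζ T y) x +
        4 * QT α ζ 1 (fun y => (1 - E2a_chi R y) * f y / 4 * QO α ζ T y) x := by
    rw [← QT_smul h one_pos (E2a_mulQ h hT0 hf2) 4 hx, ← QT_add h one_pos (E2a_mulQ h hT0 hf1) hf2' hx]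
    refine QT_congr h.ss (fun y _ => ?_) x
    ring
  have hp1 := hmin T hT x hx hx1 4 _ hf1 (fun y hy => by
    by_cases hyR : y ≤ 2 * R
    · exact mul_nonneg (E2a_chi_bd R y).1 (hf0 y hy hyR)
    · rw [E2a_chi_zero hR0 (not_le.1 hyR).le, zero_mul])
  have hI : ∫ y in (1 : ℝ)..2, E2a_chi R y * f y = ∫ y in (1 : ℝ)..2, f y := by
    refine intervalIntegral.integral_congr fun y hy => ?_
    rw [Set.uIcc_of_le (by norm_num : (1 : ℝ) ≤ 2)] at hy
    rw [E2a_chi_one hR0 (hy.2.trans hR2), one_mul]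
  rw [hI] at hp1
  have hp2 := htail T hT x hx hx1 _ hf2 (fun y hy => by
    rw [E2a_chi_one hR0 (hy.trans (le_max_left _ _)), sub_self, zero_mul, zero_div])
  rw [hsplit]
  have h3 := (abs_le.1 hp2).1
  linarith

/-- **[STB-E2a]** One step of the contraction. PROOF. For `0 < x ≤ 1` and `g` bounded continuous let `Π_x(g) = QT 1 (g · QO T) x / QO (T+1) x`. `Π_x` is linear and
positive, `Π_x(1) = 1` and `Π_x(rT T f) = QT 1 (QT T f) x / QO (T+1) x = rT (T+1) f x` (`QT_semi`; `rT T f · QO T = QT T f`). By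
`E1_minor` and `E1_low`: for `g ≥ 0`, `Π_x(g) ≥ c₀ ∫_1^2 g`. (`QT 1 (g QO T) x ≥ c QO 1 x ∫_1^2 g QO T ≥ c c' QO (T+1) x ∫_1^2 g`; take `c₀ < 1`, independent
of `R, ε, T`.) Given `ε` choose `R ≥ 2` by `E1_tail` such that `|Π_x(g)| ≤ ε/8` for `|g| ≤ 1`, `g = 0` on `(0,R]`. Let `g = rT T f`, `m ≤ g ≤ m'` on
`(0, R']` with `m' - m ≤ θ`, where `R' = 2R` (so that a continuous cutoff between `R` and `2R` is available; take `2R` as the `R` of the statement),
`|m|, |m'| ≤ 1`. Then `Π_x(m' - g) ≥ c₀ ∫_1^2 (m' - g) - ε/2` and `Π_{x'}(g - m) ≥ c₀ ∫_1^2 (g - m) - ε/2` (write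
`m' - g = χ (m' - g) + (1-χ)(m'-g)`, `χ = 1` on `(0,R]`, `0` on `[2R,∞)`; the first part is `≥ 0`, the second has `|·| ≤ 2`); add:
`(m' - m) - (Π_x(g) - Π_{x'}(g)) ≥ c₀ (m' - m) - ε`. -/
theorem E2_step (h : DA α ζ ρ a) : ∃ c₀ > (0 : ℝ), c₀ < 1 ∧ ∀ ε > (0 : ℝ), ∃ R > (1 : ℝ), ∀ T : ℝ, 1 ≤ T →
    ∀ f : ℝ → ℝ, BCo 1 f → ∀ θ : ℝ,
      (∀ x x' : ℝ, 0 < x → x ≤ R → 0 < x' → x' ≤ R → |rT α ζ T f x - rT α ζ T f x'| ≤ θ) →
      ∀ x x' : ℝ, 0 < x → x ≤ 1 → 0 < x' → x' ≤ 1 →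
        |rT α ζ (T + 1) f x - rT α ζ (T + 1) f x'| ≤ (1 - c₀) * θ + ε := by
  obtain ⟨c₀, hc₀, hc₁, hlow⟩ := E2a_low h
  refine ⟨c₀, hc₀, hc₁, fun ε hε => ?_⟩
  obtain ⟨R, hR, hlowR⟩ := hlow (ε / 2) (by positivity)
  refine ⟨R, hR, fun T hT f hf θ hθ => ?_⟩
  have hT0 : 0 < T := by linarith
  have hT1 : 0 < T + 1 := by linarith
  have hg := rT_BCo h hT0 hf
  set g : ℝ → ℝ := rT α ζ T f with hgd
  -- `P x g` and `P x 1`
  have hPg : ∀ x, 0 < x → QT α ζ 1 (fun y => g y * QO α ζ T y) x =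
      QO α ζ (T + 1) x * rT α ζ (T + 1) f x := by
    intro x hx
    have h1 : QT α ζ 1 (fun y => g y * QO α ζ T y) x = QT α ζ 1 (QT α ζ T f) x := by
      refine QT_congr h.ss (fun y hy => ?_) x
      rw [hgd]
      unfold rT
      exact div_mul_cancel₀ _ (QO_pos h hT0 hy).ne'
    rw [h1, QT_semi h one_pos hT0 hf hx, add_comm 1 T]
    unfold rT
    rw [mul_div_cancel₀ _ (QO_pos h hT1 hx).ne']
  have hP1 : ∀ x, 0 < x → QT α ζ 1 (QO α ζ T) x = QO α ζ (T + 1) x := by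
    intro x hx
    have h1 : QT α ζ 1 (QO α ζ T) x = QT α ζ 1 (QT α ζ T fun _ => 1) x := rfl
    rw [h1, QT_semi h one_pos hT0 E2a_one hx, add_comm 1 T]
    rfl
  have hlin : ∀ x, 0 < x → ∀ r s : ℝ, QT α ζ 1 (fun y => (r + s * g y) * QO α ζ T y) x =
      QO α ζ (T + 1) x * (r + s * rT α ζ (T + 1) f x) := by
    intro x hx r s
    have b1 : BCo |r| (fun y => r * QO α ζ T y) := by
      have h1 := (QO_facts h).2.2.2 T hT0
      refine ⟨fun y hy => ?_, continuousOn_const.mul h1.cont⟩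
      rw [abs_mul]
      exact mul_le_of_le_one_right (abs_nonneg r) (h1.bd y hy)
    have b2 : BCo |s| (fun y => s * (g y * QO α ζ T y)) := by
      have h1 := E2a_mulQ h hT0 hg
      refine ⟨fun y hy => ?_, continuousOn_const.mul h1.cont⟩
      rw [abs_mul]
      exact mul_le_of_le_one_right (abs_nonneg s) (h1.bd y hy)
    have e1 : QT α ζ 1 (fun y => (r + s * g y) * QO α ζ T y) x =
        QT α ζ 1 (fun y => r * QO α ζ T y + s * (g y * QO α ζ T y)) x := by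
      refine QT_congr h.ss (fun y _ => ?_) x
      ring
    rw [e1, QT_add h one_pos b1 b2 hx, QT_smul h one_pos ((QO_facts h).2.2.2 T hT0) r hx,
      QT_smul h one_pos (E2a_mulQ h hT0 hg) s hx, hPg x hx]
    have e2 : QT α ζ 1 (QO α ζ T) x = QO α ζ (T + 1) x := hP1 x hx
    rw [e2]
    ring
  -- oscillation
  set θ' : ℝ := min θ 2 with hθ'
  have hosc : ∀ x x' : ℝ, 0 < x → x ≤ R → 0 < x' → x' ≤ R → g x - g x' ≤ θ' := by
    intro x x' h1 h2 h3 h4
    refine le_min ((le_abs_self _).trans (hθ x x' h1 h2 h3 h4)) ?_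
    linarith [(abs_le.1 (hg.bd x h1)).2, (abs_le.1 (hg.bd x' h3)).1]
  have hθ'0 : 0 ≤ θ' := by
    have := hosc 1 1 one_pos hR.le one_pos hR.le
    linarith
  have hθ'2 : θ' ≤ 2 := min_le_right _ _
  set A : Set ℝ := g '' Set.Ioc 0 R with hA
  have hAne : A.Nonempty := ⟨g 1, 1, ⟨one_pos, hR.le⟩, rfl⟩
  have hAb : BddBelow A := ⟨-1, by
    rintro _ ⟨y, hy, rfl⟩
    exact (abs_le.1 (hg.bd y hy.1)).1⟩
  set m : ℝ := sInf A with hm
  have hmle : ∀ y, 0 < y → y ≤ R → m ≤ g y := fun y h1 h2 => csInf_le hAb ⟨y, ⟨h1, h2⟩, rfl⟩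
  have hmge : ∀ y, 0 < y → y ≤ R → g y ≤ m + θ' := by
    intro y h1 h2
    have : g y - θ' ≤ m := by
      refine le_csInf hAne ?_
      rintro _ ⟨z, hz, rfl⟩
      linarith [hosc y z h1 h2 hz.1 hz.2]
    linarith
  have hm1 : |m| ≤ 1 := by
    rw [abs_le]
    constructor
    · refine le_csInf hAne ?_
      rintro _ ⟨z, hz, rfl⟩
      exact (abs_le.1 (hg.bd z hz.1)).1
    · exact (hmle 1 one_pos hR.le).trans (abs_le.1 (hg.bd 1 one_pos)).2
  have hm1' := abs_le.1 hm1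
  have hb1 : BCo 4 (fun y => (m + θ') + (-1) * g y) := by
    refine ⟨fun y hy => ?_, continuousOn_const.add (continuousOn_const.mul hg.cont)⟩
    have := abs_le.1 (hg.bd y hy)
    rw [abs_le]
    constructor <;> linarith [this.1, this.2, hm1'.1, hm1'.2]
  have hb2 : BCo 4 (fun y => (-m) + 1 * g y) := by
    refine ⟨fun y hy => ?_, continuousOn_const.add (continuousOn_const.mul hg.cont)⟩
    have := abs_le.1 (hg.bd y hy)
    rw [abs_le]
    constructor <;> linarith [this.1, this.2, hm1'.1, hm1'.2]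
  have hone : ∀ x x' : ℝ, 0 < x → x ≤ 1 → 0 < x' → x' ≤ 1 →
      rT α ζ (T + 1) f x - rT α ζ (T + 1) f x' ≤ (1 - c₀) * θ' + ε := by
    intro x x' hx hx1 hx' hx1'
    have h1 := hlowR T hT x hx hx1 _ hb1 fun y hy hyR => by linarith [hmge y hy hyR]
    have h2 := hlowR T hT x' hx' hx1' _ hb2 fun y hy hyR => by linarith [hmle y hy hyR]
    rw [hlin x hx] at h1
    rw [hlin x' hx'] at h2
    have hN := QO_pos h hT1 hx
    have hN' := QO_pos h hT1 hx'
    set N := QO α ζ (T + 1) x with hNd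
    set N' := QO α ζ (T + 1) x' with hNd'
    set r := rT α ζ (T + 1) f x with hr
    set r' := rT α ζ (T + 1) f x' with hr'
    set I := ∫ y in (1 : ℝ)..2, g y with hI
    have i1 : ∫ y in (1 : ℝ)..2, ((m + θ') + (-1) * g y) = (m + θ') - I := by
      rw [intervalIntegral.integral_add (by simp) ((E2a_ii hg).const_mul _),
        intervalIntegral.integral_const_mul, intervalIntegral.integral_const, smul_eq_mul]
      ring
    have i2 : ∫ y in (1 : ℝ)..2, ((-m) + 1 * g y) = (-m) + I := by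
      rw [intervalIntegral.integral_add (by simp) ((E2a_ii hg).const_mul _),
        intervalIntegral.integral_const_mul, intervalIntegral.integral_const, smul_eq_mul]
      ring
    rw [i1] at h1
    rw [i2] at h2
    have h3 : c₀ * ((m + θ') - I) - ε / 2 ≤ (m + θ') + (-1) * r := by
      have : N * (c₀ * ((m + θ') - I) - ε / 2) ≤ N * ((m + θ') + (-1) * r) := by
        calc N * (c₀ * ((m + θ') - I) - ε / 2) = c₀ * N * ((m + θ') - I) - ε / 2 * N := by ring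
          _ ≤ _ := h1
      exact le_of_mul_le_mul_left this hN
    have h4 : c₀ * ((-m) + I) - ε / 2 ≤ (-m) + 1 * r' := by
      have : N' * (c₀ * ((-m) + I) - ε / 2) ≤ N' * ((-m) + 1 * r') := by
        calc N' * (c₀ * ((-m) + I) - ε / 2) = c₀ * N' * ((-m) + I) - ε / 2 * N' := by ring
          _ ≤ _ := h2
      exact le_of_mul_le_mul_left this hN'
    nlinarith
  intro x x' hx hx1 hx' hx1'
  have hfin : (1 - c₀) * θ' + ε ≤ (1 - c₀) * θ + ε := by
    have : (1 - c₀) * θ' ≤ (1 - c₀) * θ := mul_le_mul_of_nonneg_left (min_le_left _ _) (by linarith)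
    linarith
  rw [abs_le]
  constructor
  · have := hone x' x hx' hx1' hx hx1
    linarith
  · have := hone x x' hx hx1 hx' hx1'
    linarith

end Pool.Agent.BPT
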