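import Pool.Agent.MP_99a865_pr.ST.E2a

/-! **[STB-E2b]** Contraction of the oscillation. -/

open MeasureTheory ProbabilityTheory Filter Topology
open scoped ENNReal NNReal

namespace Pool.Agent.BPT

variable {α : ℝ} {ζ ρ : Measure ℝ} {a : ℕ → ℝ} {D : Set ℝ}

private theorem E2b_scaleB {M l : ℝ} (hl : 0 < l) {f : ℝ → ℝ} (hf : BCo M f) :
    BCo M (fun y => f (l * y)) := by
  constructor
  · intro x hx
    exact hf.bd _ (mul_pos hl hx)
  · have h1 : ContinuousOn (fun y : ℝ => l * y) (Set.Ioi 0) := by fun_prop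
    have h2 : Set.MapsTo (fun y : ℝ => l * y) (Set.Ioi 0) (Set.Ioi 0) :=
      fun y hy => mul_pos hl hy
    exact ContinuousOn.comp (g := f) (f := fun y : ℝ => l * y) hf.cont h1 h2

/-- one scaled step -/
private theorem E2b_one (h : DA α ζ ρ a) {c₀ ε R : ℝ}
    (hstep : ∀ T : ℝ, 1 ≤ T → ∀ f : ℝ → ℝ, BCo 1 f → ∀ θ : ℝ,
      (∀ x x' : ℝ, 0 < x → x ≤ R → 0 < x' → x' ≤ R → |rT α ζ T f x - rT α ζ T f x'| ≤ θ) →
      ∀ x x' : ℝ, 0 < x → x ≤ 1 → 0 < x' → x' ≤ 1 →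
        |rT α ζ (T + 1) f x - rT α ζ (T + 1) f x'| ≤ (1 - c₀) * θ + ε)
    {s t : ℝ} (hs : 0 < s) (ht : s ^ α ≤ t) {f : ℝ → ℝ} (hf : BCo 1 f) {θ : ℝ}
    (hθ : ∀ x x' : ℝ, 0 < x → x ≤ R * s → 0 < x' → x' ≤ R * s →
      |rT α ζ t f x - rT α ζ t f x'| ≤ θ) :
    ∀ x x' : ℝ, 0 < x → x ≤ s → 0 < x' → x' ≤ s →
      |rT α ζ (t + s ^ α) f x - rT α ζ (t + s ^ α) f x'| ≤ (1 - c₀) * θ + ε := by
  have hsα : 0 < s ^ α := Real.rpow_pos_of_pos hs _
  have hT : 1 ≤ t / s ^ α := (one_le_div hsα).2 ht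
  have hT0 : 0 < t / s ^ α := by linarith
  have hg := E2b_scaleB hs hf
  have e1 : s ^ α * (t / s ^ α) = t := by field_simp
  have e2 : s ^ α * (t / s ^ α + 1) = t + s ^ α := by rw [mul_add, e1, mul_one]
  have h1 := hstep (t / s ^ α) hT (fun y => f (s * y)) hg θ (by
    intro x x' hx hxR hx' hxR'
    rw [← rT_scale h hT0 hs hf hx, ← rT_scale h hT0 hs hf hx', e1]
    exact hθ _ _ (by positivity) (by nlinarith) (by positivity) (by nlinarith))
  intro x x' hx hxs hx' hxs'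
  have h2 := h1 (x / s) (x' / s) (by positivity) ((div_le_one hs).2 hxs) (by positivity)
    ((div_le_one hs).2 hxs')
  rw [← rT_scale h (by linarith : 0 < t / s ^ α + 1) hs hf (by positivity : 0 < x / s),
    ← rT_scale h (by linarith : 0 < t / s ^ α + 1) hs hf (by positivity : 0 < x' / s), e2,
    mul_div_cancel₀ x hs.ne', mul_div_cancel₀ x' hs.ne'] at h2
  exact h2

private theorem E2b_iter (h : DA α ζ ρ a) {c₀ ε R : ℝ} (hc : 0 < c₀) (hR : 1 < R) (hε : 0 ≤ ε)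
    (hstep : ∀ T : ℝ, 1 ≤ T → ∀ f : ℝ → ℝ, BCo 1 f → ∀ θ : ℝ,
      (∀ x x' : ℝ, 0 < x → x ≤ R → 0 < x' → x' ≤ R → |rT α ζ T f x - rT α ζ T f x'| ≤ θ) →
      ∀ x x' : ℝ, 0 < x → x ≤ 1 → 0 < x' → x' ≤ 1 →
        |rT α ζ (T + 1) f x - rT α ζ (T + 1) f x'| ≤ (1 - c₀) * θ + ε) (I : ℕ) :
    ∀ s t : ℝ, 0 < s → ((I : ℝ) + 1) * (R ^ I * s) ^ α ≤ t → ∀ f : ℝ → ℝ, BCo 1 f →
      ∀ x x' : ℝ, 0 < x → x ≤ s → 0 < x' → x' ≤ s →
        |rT α ζ t f x - rT α ζ t f x'| ≤ 2 * (1 - c₀) ^ I + ε / c₀ := by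
  have hα : 0 < α := by linarith [h.one]
  induction I with
  | zero =>
    intro s t hs ht f hf x x' hx hxs hx' hxs'
    have ht0 : 0 < t := by
      have : 0 < s ^ α := Real.rpow_pos_of_pos hs _
      simp only [Nat.cast_zero, zero_add, pow_zero, one_mul] at ht
      linarith
    have hb := rT_BCo h ht0 hf
    have h1 := abs_le.1 (hb.bd x hx)
    have h2 := abs_le.1 (hb.bd x' hx')
    have h3 : 0 ≤ ε / c₀ := by positivity
    rw [pow_zero, abs_le]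
    constructor <;> linarith [h1.1, h1.2, h2.1, h2.2]
  | succ I ih =>
    intro s t hs ht f hf
    have hRs : 0 < R * s := by positivity
    have hRI : 1 ≤ R ^ (I + 1) := one_le_pow₀ hR.le
    have hle : s ^ α ≤ (R ^ (I + 1) * s) ^ α :=
      Real.rpow_le_rpow hs.le (by nlinarith) hα.le
    have hsα : 0 < s ^ α := Real.rpow_pos_of_pos hs _
    have e : R ^ I * (R * s) = R ^ (I + 1) * s := by ring
    push_cast at ht
    have ht' : ((I : ℝ) + 1) * (R ^ I * (R * s)) ^ α ≤ t - s ^ α := by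
      rw [e]
      nlinarith
    have h1 := ih (R * s) (t - s ^ α) hRs ht' f hf
    have hI : (0 : ℝ) ≤ I := Nat.cast_nonneg I
    have h2 := E2b_one h hstep hs (t := t - s ^ α) (by
      refine le_trans ?_ ht'
      rw [e]
      nlinarith) hf h1
    intro x x' hx hxs hx' hxs'
    have h3 := h2 x x' hx hxs hx' hxs'
    rw [sub_add_cancel] at h3
    refine h3.trans (le_of_eq ?_)
    rw [pow_succ]
    field_simp
    ring

/-- **[STB-E2]** PROOF. Given `κ`, let `c₀` be as in `E2_step`, `ε = κ c₀ / 2`, `R` the corresponding radius, `I` with `2 (1 - c₀)^I ≤ κ/2`. For `s > 0` small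
let `s_i = R^i s` (`0 ≤ i ≤ I`) and assume `∑_{i<I} s_i^α ≤ 1/2` and `s_i^α ≤ 1/4` for `i < I`. With `t_i = t - ∑_{j<i} s_j^α ∈ [1/2, 1]·…` claim:
`osc_{t_i}(s_i) ≤ (1 - c₀) osc_{t_{i+1}}(s_{i+1}) + ε` for every `f` with `BCo 1`, where
`osc_t(s) = sup_{0<x,x'≤s} |rT t f x - rT t f x'|`: by `rT_scale` with `l = s_i`, `rT t_i f (s_i x) = rT (t_i / s_i^α) (f(s_i ·)) x` and
`t_i / s_i^α = T + 1` with `T = t_{i+1}/s_i^α ≥ 1`; apply `E2_step` to `f(s_i ·)` and scale back (`rT T (f(s_i·)) y = rT t_{i+1} f (s_i y)`, `y ≤ R`).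
Hence `osc_t(s) ≤ (1-c₀)^I · 2 + ε/c₀ ≤ κ` for all `t ∈ [1, 2]`, uniformly in `f`. (Start: `t ∈ [1,2]`, so all `t_i ≥ 1/2`.) -/
theorem E2_osc (h : DA α ζ ρ a) : ∀ κ > (0 : ℝ), ∃ s > (0 : ℝ), ∀ t : ℝ, 1 ≤ t → t ≤ 2 → ∀ f : ℝ → ℝ, BCo 1 f →
    ∀ x x' : ℝ, 0 < x → x ≤ s → 0 < x' → x' ≤ s → |rT α ζ t f x - rT α ζ t f x'| ≤ κ := by
  intro κ hκ
  have hα : 0 < α := by linarith [h.one]
  obtain ⟨c₀, hc, hc1, hst⟩ := E2_step h
  obtain ⟨R, hR, hstep⟩ := hst (κ * c₀ / 2) (by positivity)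
  obtain ⟨I, hI⟩ := exists_pow_lt_of_lt_one (show 0 < κ / 4 by positivity)
    (show 1 - c₀ < 1 by linarith)
  have hI0 : (0 : ℝ) < (I : ℝ) + 1 := by positivity
  have hRI : 0 < R ^ I := by positivity
  refine ⟨(((I : ℝ) + 1)⁻¹) ^ (1 / α) / R ^ I, by positivity, ?_⟩
  intro t ht _ f hf x x' hx hxs hx' hxs'
  have h1 := E2b_iter h hc hR (by positivity : 0 ≤ κ * c₀ / 2) hstep I
    ((((I : ℝ) + 1)⁻¹) ^ (1 / α) / R ^ I) t (by positivity) (by
      rw [mul_div_cancel₀ _ hRI.ne', ← Real.rpow_mul (by positivity), one_div_mul_cancel hα.ne',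
        Real.rpow_one, mul_inv_cancel₀ hI0.ne']
      exact ht) f hf x x' hx hxs hx' hxs'
  refine h1.trans ?_
  have e : κ * c₀ / 2 / c₀ = κ / 2 := by field_simp
  rw [e]
  linarith

/-- **[STB-E2b]** general times, by `rT_scale` (`l^α = t/…`), functions bounded by `M` by homogeneity (`QT_smul`; `M = 0` is trivial) -/
theorem E2_osc' (h : DA α ζ ρ a) {t₀ t₁ : ℝ} (ht₀ : 0 < t₀) : ∀ κ > (0 : ℝ), ∃ s > (0 : ℝ), ∀ t : ℝ, t₀ ≤ t → t ≤ t₁ →
    ∀ (M : ℝ) (f : ℝ → ℝ), BCo M f → ∀ x x' : ℝ, 0 < x → x ≤ s → 0 < x' → x' ≤ s →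
      |rT α ζ t f x - rT α ζ t f x'| ≤ M * κ := by
  intro κ hκ
  have hα : 0 < α := by linarith [h.one]
  obtain ⟨s₁, hs₁, h1⟩ := E2_osc h κ hκ
  have ht₀α : 0 < t₀ ^ (1 / α) := Real.rpow_pos_of_pos ht₀ _
  refine ⟨s₁ * t₀ ^ (1 / α), by positivity, ?_⟩
  intro t ht _ M f hf x x' hx hxs hx' hxs'
  have ht0 : 0 < t := by linarith
  -- first for functions bounded by one
  have key : ∀ g : ℝ → ℝ, BCo 1 g → |rT α ζ t g x - rT α ζ t g x'| ≤ κ := by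
    intro g hg
    set l : ℝ := t ^ (1 / α) with hl
    have hl0 : 0 < l := Real.rpow_pos_of_pos ht0 _
    have hlt : t₀ ^ (1 / α) ≤ l := Real.rpow_le_rpow ht₀.le ht (by positivity)
    have e1 : l ^ α * 1 = t := by
      rw [hl, mul_one, ← Real.rpow_mul ht0.le, one_div_mul_cancel hα.ne', Real.rpow_one]
    have hx2 : x / l ≤ s₁ := by
      rw [div_le_iff₀ hl0]
      nlinarith
    have hx2' : x' / l ≤ s₁ := by
      rw [div_le_iff₀ hl0]
      nlinarith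
    have h2 := h1 1 le_rfl (by norm_num) (fun y => g (l * y)) (E2b_scaleB hl0 hg) (x / l) (x' / l)
      (by positivity) hx2 (by positivity) hx2'
    rw [← rT_scale h one_pos hl0 hg (by positivity : 0 < x / l),
      ← rT_scale h one_pos hl0 hg (by positivity : 0 < x' / l), e1,
      mul_div_cancel₀ x hl0.ne', mul_div_cancel₀ x' hl0.ne'] at h2
    exact h2
  have hM : 0 ≤ M := (abs_nonneg _).trans (hf.bd 1 one_pos)
  rcases hM.eq_or_lt with hM0 | hM0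
  · have hb := rT_BCo h ht0 hf
    have k1 := hb.bd x hx
    have k2 := hb.bd x' hx'
    rw [← hM0] at k1 k2 ⊢
    have k3 := abs_nonpos_iff.1 k1
    have k4 := abs_nonpos_iff.1 k2
    rw [k3, k4]
    simp
  · have hg : BCo 1 (fun y => M⁻¹ * f y) := by
      constructor
      · intro y hy
        rw [abs_mul, abs_inv, abs_of_pos hM0, inv_mul_le_iff₀ hM0, mul_one]
        exact hf.bd y hy
      · exact continuousOn_const.mul hf.cont
    have k := key _ hg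
    have e : ∀ y : ℝ, 0 < y → rT α ζ t (fun y => M⁻¹ * f y) y = M⁻¹ * rT α ζ t f y := by
      intro y hy
      unfold rT
      rw [QT_smul h ht0 hf M⁻¹ hy, mul_div_assoc]
    rw [e x hx, e x' hx', ← mul_sub, abs_mul, abs_inv, abs_of_pos hM0,
      inv_mul_le_iff₀ hM0] at k
    exact k

end Pool.Agent.BPT
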