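import Pool.Agent.MP_99a865_pr.ST.E2b

/-! **[STB-E2c]** The entrance law exists. -/

open MeasureTheory ProbabilityTheory Filter Topology
open scoped ENNReal NNReal

namespace Pool.Agent.BPT

variable {α : ℝ} {ζ ρ : Measure ℝ} {a : ℕ → ℝ} {D : Set ℝ}

lemma E2c_M0 {M : ℝ} {f : ℝ → ℝ} (hf : BCo M f) : 0 ≤ M := (abs_nonneg _).trans (hf.bd 1 one_pos)

/-- **[STB-E2c]** The entrance law exists. -/
theorem EA_tendsto (h : DA α ζ ρ a) {t M : ℝ} (ht : 0 < t) {f : ℝ → ℝ} (hf : BCo M f) :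
    Tendsto (fun x => QT α ζ t f x / QO α ζ t x) (𝓝[>] (0 : ℝ)) (𝓝 (EA α ζ t f)) := by
  have hM := E2c_M0 hf
  unfold EA
  refine tendsto_nhds_limUnder ?_
  rw [← cauchy_map_iff_exists_tendsto, Metric.cauchy_iff]
  refine ⟨inferInstance, fun ε hε => ?_⟩
  obtain ⟨s, hs, hosc⟩ := E2_osc' h (t₀ := t) (t₁ := t) ht (ε / (2 * (M + 1))) (by positivity)
  refine ⟨(fun x => QT α ζ t f x / QO α ζ t x) '' Set.Ioc 0 s,
    image_mem_map (Ioc_mem_nhdsGT hs), ?_⟩
  rintro _ ⟨x, hx, rfl⟩ _ ⟨y, hy, rfl⟩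
  have h1 := hosc t le_rfl le_rfl M f hf x y hx.1 hx.2 hy.1 hy.2
  rw [Real.dist_eq]
  refine lt_of_le_of_lt h1 ?_
  rw [mul_div_assoc', div_lt_iff₀ (by positivity)]
  nlinarith

/-- cutoff -/
noncomputable def E2c_chi (r z : ℝ) : ℝ := max 0 (min 1 (2 - z / r))

lemma E2c_chi_cont (r : ℝ) : Continuous (E2c_chi r) := by
  unfold E2c_chi
  fun_prop

lemma E2c_chi_01 (r z : ℝ) : 0 ≤ E2c_chi r z ∧ E2c_chi r z ≤ 1 := by
  unfold E2c_chi
  exact ⟨le_max_left _ _, max_le zero_le_one (min_le_left _ _)⟩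

lemma E2c_chi_one {r z : ℝ} (hr : 0 < r) (hz : z ≤ r) : E2c_chi r z = 1 := by
  unfold E2c_chi
  have : z / r ≤ 1 := (div_le_one hr).2 hz
  rw [min_eq_left (by linarith)]
  exact max_eq_right zero_le_one

lemma E2c_chi_zero {r z : ℝ} (hr : 0 < r) (hz : 2 * r ≤ z) : E2c_chi r z = 0 := by
  unfold E2c_chi
  have : 2 ≤ z / r := by rw [le_div_iff₀ hr]; exact hz
  exact max_eq_left ((min_le_right _ _).trans (by linarith))

lemma E2c_QO_scale (h : DA α ζ ρ a) {T s : ℝ} (hT : 0 < T) (hs : 0 < s) {y : ℝ} (hy : 0 < y) :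
    QO α ζ (s ^ α * T) (s * y) = QO α ζ T y := by
  have h1 : BCo 1 (fun _ : ℝ => (1 : ℝ)) := ⟨fun x _ => by simp, continuousOn_const⟩
  have := QT_scale h (t := T) (l := s) hT hs h1 hy
  exact this

/-- the tail estimate at scale `s` -/
lemma E2c_tail (h : DA α ζ ρ a) {ε R₁ : ℝ} (hε : 0 < ε)
    (hR : ∀ T : ℝ, 1 ≤ T → ∀ x : ℝ, 0 < x → x ≤ 1 → ∀ f : ℝ → ℝ, BCo 1 f → (∀ y, y ≤ R₁ → f y = 0) →
      |QT α ζ 1 (fun y => f y * QO α ζ T y) x| ≤ ε * QO α ζ (T + 1) x)
    {t s : ℝ} (hs : 0 < s) (hst : 2 * s ^ α ≤ t) {N : ℝ} {φ : ℝ → ℝ} (hφ : BCo N φ)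
    (hφ0 : ∀ z, z ≤ R₁ * s → φ z = 0) {x : ℝ} (hx : 0 < x) (hxs : x ≤ s) :
    |QT α ζ (s ^ α) (fun z => φ z * QO α ζ (t - s ^ α) z) x| ≤ N * ε * QO α ζ t x := by
  have hN := E2c_M0 hφ
  have hsα : 0 < s ^ α := Real.rpow_pos_of_pos hs α
  have ht : 0 < t := by linarith
  have htt : 0 < t - s ^ α := by linarith
  have hQ := (QO_facts h).2.2.2 _ htt
  have hprod : ∀ {N' : ℝ} {ψ : ℝ → ℝ}, BCo N' ψ → BCo N' (fun z => ψ z * QO α ζ (t - s ^ α) z) := by
    intro N' ψ hψ
    refine ⟨fun z hz => ?_, hψ.cont.mul hQ.cont⟩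
    rw [abs_mul]
    have h1 := hψ.bd z hz
    have h2 := hQ.bd z hz
    have h3 := E2c_M0 hψ
    calc |ψ z| * |QO α ζ (t - s ^ α) z| ≤ N' * 1 := mul_le_mul h1 h2 (abs_nonneg _) h3
      _ = N' := mul_one _
  rcases hN.eq_or_lt with h0 | h0
  · have h1 := QT_abs_le h hsα (hprod hφ) hx
    rw [← h0] at h1 ⊢
    simpa using h1
  · set ψ : ℝ → ℝ := fun z => φ z / N with hψ
    have hψB : BCo 1 ψ := by
      refine ⟨fun z hz => ?_, hφ.cont.div_const _⟩
      rw [hψ]
      beta_reduce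
      rw [abs_div, abs_of_pos h0, div_le_one h0]
      exact hφ.bd z hz
    have e1 : (fun z => φ z * QO α ζ (t - s ^ α) z) = fun z => N * (ψ z * QO α ζ (t - s ^ α) z) := by
      funext z
      rw [hψ]
      field_simp
    rw [e1, QT_smul h hsα (hprod hψB) N hx, abs_mul, abs_of_pos h0, mul_assoc]
    refine mul_le_mul_of_nonneg_left ?_ hN
    -- scaling
    set T : ℝ := (t - s ^ α) / s ^ α with hT
    have hT1 : 1 ≤ T := by
      rw [hT, le_div_iff₀ hsα]
      linarith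
    have hT0 : 0 < T := by linarith
    have e2 : s ^ α * T = t - s ^ α := by rw [hT]; field_simp
    have e3 : s ^ α * (T + 1) = t := by rw [mul_add, e2]; ring
    set x₁ : ℝ := x / s with hx₁
    have hx₁0 : 0 < x₁ := div_pos hx hs
    have hx₁1 : x₁ ≤ 1 := (div_le_one hs).2 hxs
    have e4 : s * x₁ = x := by rw [hx₁]; field_simp
    have s1 := QT_scale h (t := 1) (l := s) one_pos hs (hprod hψB) hx₁0
    rw [mul_one, e4] at s1
    rw [s1]
    have s2 : QT α ζ 1 (fun y => ψ (s * y) * QO α ζ (t - s ^ α) (s * y)) x₁ =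
        QT α ζ 1 (fun y => ψ (s * y) * QO α ζ T y) x₁ := by
      refine QT_congr h.ss (fun y hy => ?_) x₁
      rw [← e2, E2c_QO_scale h hT0 hs hy]
    rw [s2]
    have hψs : BCo 1 (fun y => ψ (s * y)) := by
      refine ⟨fun y hy => hψB.bd _ (mul_pos hs hy), ?_⟩
      refine hψB.cont.comp (continuous_const.mul continuous_id).continuousOn fun y hy => ?_
      exact mul_pos hs hy
    have h1 := hR T hT1 x₁ hx₁0 hx₁1 (fun y => ψ (s * y)) hψs (fun y hy => by
      rw [hψ]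
      beta_reduce
      rw [hφ0 (s * y) (by nlinarith), zero_div])
    have e5 : QO α ζ (T + 1) x₁ = QO α ζ t x := by
      rw [← E2c_QO_scale h (by linarith : 0 < T + 1) hs hx₁0, e3, e4]
    rw [e5] at h1
    exact h1

/-- **[STB-E2d]** Uniformity also in the time. -/
theorem EA_unif (h : DA α ζ ρ a) {t : ℝ} (ht : 0 < t) {R : ℝ} (hR : 0 < R) : ∀ κ > (0 : ℝ), ∃ s₀ > (0 : ℝ),
    ∀ s, 0 < s → s ≤ s₀ → s ^ α < t ∧ ∀ (M : ℝ) (f : ℝ → ℝ), BCo M f → ∀ y, 0 < y → y ≤ R * s →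
      |rT α ζ (t - s ^ α) f y - EA α ζ t f| ≤ M * κ := by
  intro κ hκ
  have hα : 0 < α := by linarith [h.one]
  obtain ⟨R₁, hR₁, htail⟩ := E1_tail h (κ / 8) (by positivity)
  obtain ⟨s₁, hs₁, hosc⟩ := E2_osc' h (t₀ := t / 2) (t₁ := t) (by positivity) (κ / 4) (by positivity)
  set Rm : ℝ := max R (2 * R₁) with hRm
  have hRm0 : 0 < Rm := lt_of_lt_of_le hR (le_max_left _ _)
  set s₀ : ℝ := min ((t / 2) ^ (1 / α)) (s₁ / Rm) with hs₀
  have hs₀0 : 0 < s₀ := lt_min (Real.rpow_pos_of_pos (by positivity) _) (by positivity)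
  refine ⟨s₀, hs₀0, fun s hs hss => ?_⟩
  have hsα0 : 0 < s ^ α := Real.rpow_pos_of_pos hs α
  have hsα : s ^ α ≤ t / 2 := by
    have h1 : s ≤ (t / 2) ^ (1 / α) := hss.trans (min_le_left _ _)
    have h2 := Real.rpow_le_rpow hs.le h1 hα.le
    rw [← Real.rpow_mul (by positivity), one_div_mul_cancel hα.ne', Real.rpow_one] at h2
    exact h2
  have hRs : Rm * s ≤ s₁ := by
    have h1 : s ≤ s₁ / Rm := hss.trans (min_le_right _ _)
    rw [le_div_iff₀ hRm0] at h1
    linarith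
  refine ⟨by linarith, fun M f hf y hy hyR => ?_⟩
  have hM := E2c_M0 hf
  have htt : 0 < t - s ^ α := by linarith
  set g : ℝ → ℝ := rT α ζ (t - s ^ α) f with hg
  have hgB : BCo M g := rT_BCo h htt hf
  set C : ℝ := g y with hC
  have hCM : |C| ≤ M := hgB.bd y hy
  have hQ := (QO_facts h).2.2.2 _ htt
  set H : ℝ → ℝ := QO α ζ (t - s ^ α) with hH
  have hH0 : ∀ z > 0, 0 ≤ H z := fun z hz => ((QO_facts h).1 _ htt z hz).1
  have hprod : ∀ {N' : ℝ} {ψ : ℝ → ℝ}, BCo N' ψ → BCo N' (fun z => ψ z * H z) := by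
    intro N' ψ hψ
    refine ⟨fun z hz => ?_, hψ.cont.mul hQ.cont⟩
    rw [abs_mul]
    calc |ψ z| * |H z| ≤ N' * 1 := mul_le_mul (hψ.bd z hz) (hQ.bd z hz) (abs_nonneg _) (E2c_M0 hψ)
      _ = N' := mul_one _
  set r : ℝ := R₁ * s with hr
  have hr0 : 0 < r := by positivity
  -- the two parts
  have hA : BCo (M * (κ / 4)) (fun z => E2c_chi r z * (g z - C)) := by
    refine ⟨fun z hz => ?_, (E2c_chi_cont r).continuousOn.mul (hgB.cont.sub continuousOn_const)⟩
    by_cases h1 : 2 * r ≤ z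
    · rw [E2c_chi_zero hr0 h1, zero_mul, abs_zero]
      positivity
    · push Not at h1
      have hz1 : z ≤ s₁ := by
        have : 2 * R₁ * s ≤ Rm * s := mul_le_mul_of_nonneg_right (le_max_right _ _) hs.le
        rw [hr] at h1
        linarith
      have hy1 : y ≤ s₁ := by
        have : R * s ≤ Rm * s := mul_le_mul_of_nonneg_right (le_max_left _ _) hs.le
        linarith
      have h2 := hosc (t - s ^ α) (by linarith) (by linarith) M f hf z y hz hz1 hy hy1
      rw [abs_mul, abs_of_nonneg (E2c_chi_01 r z).1]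
      calc E2c_chi r z * |g z - C| ≤ 1 * (M * (κ / 4)) :=
            mul_le_mul (E2c_chi_01 r z).2 h2 (abs_nonneg _) zero_le_one
        _ = M * (κ / 4) := one_mul _
  have hB : BCo (2 * M) (fun z => (1 - E2c_chi r z) * (g z - C)) := by
    refine ⟨fun z hz => ?_, (continuous_const.sub (E2c_chi_cont r)).continuousOn.mul
      (hgB.cont.sub continuousOn_const)⟩
    have h1 := E2c_chi_01 r z
    have h2 : |g z - C| ≤ 2 * M := by
      have := hgB.bd z hz
      rw [abs_le] at this hCM ⊢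
      constructor <;> linarith [this.1, this.2, hCM.1, hCM.2]
    rw [abs_mul, abs_of_nonneg (by linarith [h1.2])]
    calc (1 - E2c_chi r z) * |g z - C| ≤ 1 * (2 * M) :=
          mul_le_mul (by linarith [h1.1]) h2 (abs_nonneg _) zero_le_one
      _ = 2 * M := one_mul _
  have hone : BCo 1 (fun _ : ℝ => (1 : ℝ)) := ⟨fun x _ => by simp, continuousOn_const⟩
  have key : ∀ x, 0 < x → x ≤ s → |rT α ζ t f x - C| ≤ M * κ := by
    intro x hx hxs
    have hpos : 0 < QO α ζ t x := QO_pos h ht hx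
    have est : s ^ α + (t - s ^ α) = t := by ring
    have q1 : QT α ζ (s ^ α) H x = QO α ζ t x := by
      have := QT_semi h hsα0 htt hone hx
      rw [est] at this
      exact this
    have q2 : QT α ζ (s ^ α) (fun z => g z * H z) x = QT α ζ t f x := by
      have h1 := QT_semi h hsα0 htt hf hx
      rw [est] at h1
      rw [← h1]
      refine QT_congr h.ss (fun z hz => ?_) x
      rw [hg]
      unfold rT
      exact div_mul_cancel₀ _ (QO_pos h htt hz).ne'
    have q3 : QT α ζ (s ^ α) (fun z => g z * H z) x = C * QT α ζ (s ^ α) H x +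
        (QT α ζ (s ^ α) (fun z => E2c_chi r z * (g z - C) * H z) x +
          QT α ζ (s ^ α) (fun z => (1 - E2c_chi r z) * (g z - C) * H z) x) := by
      have hCH : BCo |C| (fun z => C * H z) := by
        refine ⟨fun z hz => ?_, continuousOn_const.mul hQ.cont⟩
        rw [abs_mul]
        calc |C| * |H z| ≤ |C| * 1 := mul_le_mul_of_nonneg_left (hQ.bd z hz) (abs_nonneg _)
          _ = |C| := mul_one _
      rw [← QT_smul h hsα0 hQ C hx, ← QT_add h hsα0 (hprod hA) (hprod hB) hx]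
      have hAB : BCo (M * (κ / 4) + 2 * M)
          (fun z => E2c_chi r z * (g z - C) * H z + (1 - E2c_chi r z) * (g z - C) * H z) := by
        refine ⟨fun z hz => ?_, (hprod hA).cont.add (hprod hB).cont⟩
        exact (abs_add_le _ _).trans (add_le_add ((hprod hA).bd z hz) ((hprod hB).bd z hz))
      rw [← QT_add h hsα0 hCH hAB hx]
      congr 1
      funext z
      ring
    have q4 : |QT α ζ (s ^ α) (fun z => E2c_chi r z * (g z - C) * H z) x| ≤
        M * (κ / 4) * QO α ζ t x := by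
      have hcH : BCo (M * (κ / 4)) (fun z => M * (κ / 4) * H z) := by
        refine ⟨fun z hz => ?_, continuousOn_const.mul hQ.cont⟩
        rw [abs_mul, abs_of_nonneg (by positivity)]
        calc M * (κ / 4) * |H z| ≤ M * (κ / 4) * 1 :=
              mul_le_mul_of_nonneg_left (hQ.bd z hz) (by positivity)
          _ = M * (κ / 4) := mul_one _
      have hcH' : BCo (M * (κ / 4)) (fun z => -(M * (κ / 4)) * H z) := by
        refine ⟨fun z hz => ?_, continuousOn_const.mul hQ.cont⟩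
        have := hcH.bd z hz
        rwa [neg_mul, abs_neg]
      have u1 := QT_mono h hsα0 (hprod hA) hcH (fun z hz =>
        mul_le_mul_of_nonneg_right ((abs_le.1 (hA.bd z hz)).2) (hH0 z hz)) hx
      have u2 := QT_mono h hsα0 hcH' (hprod hA) (fun z hz =>
        mul_le_mul_of_nonneg_right ((abs_le.1 (hA.bd z hz)).1) (hH0 z hz)) hx
      rw [QT_smul h hsα0 hQ _ hx, q1] at u1 u2
      rw [abs_le]
      constructor
      · linarith
      · exact u1
    have q5 := E2c_tail h (by positivity : (0 : ℝ) < κ / 8) htail hs (by linarith : 2 * s ^ α ≤ t) hB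
      (fun z hz => by rw [E2c_chi_one hr0 hz, sub_self, zero_mul]) hx hxs
    have q6 : |QT α ζ t f x - C * QO α ζ t x| ≤ M * κ / 2 * QO α ζ t x := by
      rw [← q2, q3, q1]
      have e : C * QO α ζ t x + (QT α ζ (s ^ α) (fun z => E2c_chi r z * (g z - C) * H z) x +
          QT α ζ (s ^ α) (fun z => (1 - E2c_chi r z) * (g z - C) * H z) x) - C * QO α ζ t x =
        QT α ζ (s ^ α) (fun z => E2c_chi r z * (g z - C) * H z) x +
          QT α ζ (s ^ α) (fun z => (1 - E2c_chi r z) * (g z - C) * H z) x := by ring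
      rw [e]
      refine (abs_add_le _ _).trans ?_
      have : M * κ / 2 * QO α ζ t x = M * (κ / 4) * QO α ζ t x + 2 * M * (κ / 8) * QO α ζ t x := by ring
      rw [this]
      exact add_le_add q4 q5
    have q7 : rT α ζ t f x - C = (QT α ζ t f x - C * QO α ζ t x) / QO α ζ t x := by
      unfold rT
      field_simp
    rw [q7, abs_div, abs_of_pos hpos, div_le_iff₀ hpos]
    refine q6.trans (mul_le_mul_of_nonneg_right ?_ hpos.le)
    have : 0 ≤ M * κ := by positivity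
    linarith
  have l1 : Tendsto (fun x => |C - QT α ζ t f x / QO α ζ t x|) (𝓝[>] (0 : ℝ)) (𝓝 |C - EA α ζ t f|) :=
    (tendsto_const_nhds.sub (EA_tendsto h ht hf)).abs
  refine le_of_tendsto l1 ?_
  filter_upwards [Ioc_mem_nhdsGT hs] with x hx
  rw [abs_sub_comm]
  exact key x hx.1 hx.2

end Pool.Agent.BPT
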