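import Pool.Agent.MP_99a865_pr.ST.E2c

/-! **[STB-E3a]** Elementary properties of the entrance functional. -/

open MeasureTheory ProbabilityTheory Filter Topology
open scoped ENNReal NNReal

namespace Pool.Agent.BPT

variable {α : ℝ} {ζ ρ : Measure ℝ} {a : ℕ → ℝ} {D : Set ℝ}

private theorem E3a_add {M N : ℝ} {f g : ℝ → ℝ} (hf : BCo M f) (hg : BCo N g) :
    BCo (M + N) (fun y => f y + g y) :=
  ⟨fun x hx => (abs_add_le _ _).trans (add_le_add (hf.bd x hx) (hg.bd x hx)), hf.cont.add hg.cont⟩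

private theorem E3a_smul {M : ℝ} {f : ℝ → ℝ} (hf : BCo M f) (r : ℝ) :
    BCo (|r| * M) (fun y => r * f y) :=
  ⟨fun x hx => by rw [abs_mul]; exact mul_le_mul_of_nonneg_left (hf.bd x hx) (abs_nonneg r),
    continuousOn_const.mul hf.cont⟩

/-- elementary properties of the entrance functional (limits of those of `QT`) -/
theorem EA_add (h : DA α ζ ρ a) {t M N : ℝ} (ht : 0 < t) {f g : ℝ → ℝ} (hf : BCo M f) (hg : BCo N g) :
    EA α ζ t (fun y => f y + g y) = EA α ζ t f + EA α ζ t g := by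
  have h1 := (EA_tendsto h ht hf).add (EA_tendsto h ht hg)
  have h2 := EA_tendsto h ht (E3a_add hf hg)
  refine tendsto_nhds_unique h2 (h1.congr' ?_)
  filter_upwards [self_mem_nhdsWithin] with x hx
  rw [QT_add h ht hf hg hx, add_div]

theorem EA_smul (h : DA α ζ ρ a) {t M : ℝ} (ht : 0 < t) {f : ℝ → ℝ} (hf : BCo M f) (r : ℝ) :
    EA α ζ t (fun y => r * f y) = r * EA α ζ t f := by
  have h1 := (EA_tendsto h ht hf).const_mul r
  have h2 := EA_tendsto h ht (E3a_smul hf r)
  refine tendsto_nhds_unique h2 (h1.congr' ?_)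
  filter_upwards [self_mem_nhdsWithin] with x hx
  rw [QT_smul h ht hf r hx, mul_div_assoc]

theorem EA_mono (h : DA α ζ ρ a) {t M N : ℝ} (ht : 0 < t) {f g : ℝ → ℝ} (hf : BCo M f) (hg : BCo N g)
    (hfg : ∀ y > 0, f y ≤ g y) : EA α ζ t f ≤ EA α ζ t g := by
  refine le_of_tendsto_of_tendsto (EA_tendsto h ht hf) (EA_tendsto h ht hg) ?_
  filter_upwards [self_mem_nhdsWithin] with x hx
  exact div_le_div_of_nonneg_right (QT_mono h ht hf hg hfg hx) (QO_pos h ht hx).le

theorem EA_one (h : DA α ζ ρ a) {t : ℝ} (ht : 0 < t) : EA α ζ t (fun _ => 1) = 1 := by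
  have hf : BCo 1 (fun _ : ℝ => (1 : ℝ)) := ⟨fun x _ => by simp, continuousOn_const⟩
  have h2 := EA_tendsto h ht hf
  refine tendsto_nhds_unique h2 (tendsto_const_nhds.congr' ?_)
  filter_upwards [self_mem_nhdsWithin] with x hx
  have : QT α ζ t (fun _ => 1) x = QO α ζ t x := rfl
  rw [this, div_self (QO_pos h ht hx).ne']

end Pool.Agent.BPT
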