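import Pool.Agent.MP_99a865_pr.ST.E2c

/-! **[STB-E3b]** The entrance law as the limit of the conditioned walk. -/

open MeasureTheory ProbabilityTheory Filter Topology
open scoped ENNReal NNReal

namespace Pool.Agent.BPT

variable {α : ℝ} {ζ ρ : Measure ℝ} {a : ℕ → ℝ} {D : Set ℝ}

theorem E3b_al_eq (m : ℕ) (x : ℝ) : al D ρ m x = ∫ _, (1 : ℝ) ∂(kap D ρ m x) := by
  rw [integral_const, smul_eq_mul, mul_one]
  rfl

theorem E3b_al_nonneg (m : ℕ) (x : ℝ) : 0 ≤ al D ρ m x := measureReal_nonneg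

theorem E3b_al_le_one [IsProbabilityMeasure ρ] (m : ℕ) (x : ℝ) : al D ρ m x ≤ 1 := by
  unfold al
  rw [Measure.real]
  have h1 := kap_univ_le_one (D := D) (ρ := ρ) m x
  exact ENNReal.toReal_le_of_le_ofReal zero_le_one (by rwa [ENNReal.ofReal_one])

theorem E3b_al_meas (hD : Dom D) [IsProbabilityMeasure ρ] (m : ℕ) : Measurable (al D ρ m) := by
  have h1 := measurable_integral_kap hD (ρ := ρ) m (fun _ => (1 : ℝ)) measurable_const 1
    (fun _ => by simp)
  have h2 : al D ρ m = fun y => ∫ _, (1 : ℝ) ∂(kap D ρ m y) := by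
    funext y
    exact E3b_al_eq m y
  rw [h2]
  exact h1

theorem E3b_al_add (hD : Dom D) [IsProbabilityMeasure ρ] (k l : ℕ) (x : ℝ) :
    al D ρ (k + l) x = ∫ z, al D ρ l z ∂(kap D ρ k x) := by
  rw [E3b_al_eq, integral_kap_add hD k l x (fun _ => (1 : ℝ)) measurable_const 1
    (fun _ => by simp)]
  simp_rw [← E3b_al_eq]

theorem E3b_int_le [IsProbabilityMeasure ρ] (m : ℕ) (x : ℝ) {M : ℝ} {F : ℝ → ℝ} (hF : ∀ y, |F y| ≤ M) :
    |∫ y, F y ∂(kap D ρ m x)| ≤ M * al D ρ m x := by
  have h1 := norm_integral_le_of_norm_le_const (μ := kap D ρ m x) (f := F) (C := M)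
    (Eventually.of_forall fun y => by rw [Real.norm_eq_abs]; exact hF y)
  rw [Real.norm_eq_abs] at h1
  exact h1

theorem E3b_pow {t α w : ℝ} (ht : 0 < t) (hα : 1 < α) (hw : w ≤ t / 2) :
    t ^ (1 / α) < 2 * (t - w) ^ (1 / α) := by
  have hα0 : 0 < α := by linarith
  have h1 : (t / 2) ^ (1 / α) ≤ (t - w) ^ (1 / α) :=
    Real.rpow_le_rpow (by linarith) (by linarith) (by positivity)
  have h2 : (t / 2) ^ (1 / α) = t ^ (1 / α) * (1 / 2 : ℝ) ^ (1 / α) := by
    rw [← Real.mul_rpow ht.le (by norm_num)]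
    congr 1
    ring
  have h3 : (1 / 2 : ℝ) ^ (1 : ℝ) < (1 / 2 : ℝ) ^ (1 / α) :=
    Real.rpow_lt_rpow_of_exponent_gt (by norm_num) (by norm_num) (by
      rw [div_lt_one hα0]; exact hα)
  rw [Real.rpow_one] at h3
  have h4 : 0 < t ^ (1 / α) := Real.rpow_pos_of_pos ht _
  nlinarith

theorem E3b_root {s α : ℝ} (hs : 0 < s) (hα : 1 < α) : (s ^ α) ^ (1 / α) = s := by
  rw [← Real.rpow_mul hs.le, mul_one_div_cancel (by linarith), Real.rpow_one]

/-- step (1): the mass outside the window -/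
theorem E3b_mass (hda : DA α ζ ρ a) (hD : Dom D) {n k : ℕ → ℕ} {t : ℝ}
    (hT : Tm n k t) (ht : 0 < t) {xs : ℕ → ℝ} (hx0 : ∀ j, 0 ≤ xs j)
    (hx : Tendsto (fun j => xs j / a (n j)) atTop (𝓝 0)) : ∀ κ > (0 : ℝ), ∃ R > (1 : ℝ),
    ∀ s : ℝ, 0 < s → s ^ α ≤ t / 2 → ∀ᶠ j in atTop, ⌊s ^ α * n j⌋₊ ≤ k j ∧ 0 < al D ρ (k j) (xs j) ∧
      ∫ z in {z | z < s * a (n j) / R ∨ R * s * a (n j) < z},
        al D ρ (k j - ⌊s ^ α * n j⌋₊) z ∂(kap D ρ ⌊s ^ α * n j⌋₊ (xs j)) ≤ κ * al D ρ (k j) (xs j) := by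
  have hp := hda.prob
  have hρ := hda.cen
  obtain ⟨-, hV1, hVm⟩ := vr_facts hD hρ
  have hVpos : ∀ x, 0 < vr D ρ x := fun x => lt_of_lt_of_le one_pos (hV1 x)
  obtain ⟨C, hC, hAle⟩ := hda.al_le hD
  obtain ⟨c, hc, hAge⟩ := hda.le_al hD
  intro κ hκ
  set ε := κ * c / (8 * C) with hε
  have hε0 : 0 < ε := by positivity
  obtain ⟨R', hR', htail⟩ := hda.tail hD ε hε0
  obtain ⟨δ', hδ', hnear⟩ := hda.near hD one_pos ε hε0
  set δ := min δ' 1 with hδ
  have hδ0 : 0 < δ := lt_min hδ' one_pos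
  have hδ1 : δ ≤ 1 := min_le_right _ _
  refine ⟨max (2 * R') (max (2 / δ) 2), ?_, ?_⟩
  · exact lt_of_lt_of_le one_lt_two ((le_max_right _ _).trans (le_max_right _ _))
  intro s hs hst
  set R := max (2 * R') (max (2 / δ) 2) with hR
  have hR2 : 2 ≤ R := (le_max_right _ _).trans (le_max_right _ _)
  have hRδ : 2 / δ ≤ R := (le_max_left _ _).trans (le_max_right _ _)
  have hRR : 2 * R' ≤ R := le_max_left _ _
  have hR0 : 0 < R := by linarith
  set w := s ^ α with hw
  have hw0 : 0 < w := Real.rpow_pos_of_pos hs _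
  have hTu : Tm n (fun j => ⌊w * n j⌋₊) w := Tm.floor hT.top hw0.le
  have hkn : Tendsto (fun j => (k j : ℝ) / n j) atTop (𝓝 t) := hT.lim
  have hun : Tendsto (fun j => ((⌊w * n j⌋₊ : ℕ) : ℝ) / n j) atTop (𝓝 w) := hTu.lim
  have hle : ∀ᶠ j in atTop, ⌊w * n j⌋₊ ≤ k j := by
    have h1 : ∀ᶠ j in atTop, ((⌊w * n j⌋₊ : ℕ) : ℝ) / n j < (k j : ℝ) / n j :=
      hun.eventually_lt hkn (by linarith)
    have h2 : ∀ᶠ j in atTop, 1 ≤ n j := hT.top.eventually_ge_atTop 1
    filter_upwards [h1, h2] with j h3 h4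
    have h5 : (0 : ℝ) < n j := by exact_mod_cast h4
    rw [div_lt_div_iff_of_pos_right h5] at h3
    exact_mod_cast h3.le
  have hTd : Tm n (fun j => k j - ⌊w * n j⌋₊) (t - w) := hT.sub' hTu hle
  have htw : 0 < t - w := by linarith
  have htopu : Tendsto (fun j => ⌊w * n j⌋₊) atTop atTop := hTu.top' hw0
  have htopk : Tendsto k atTop atTop := hT.top' ht
  have htopd : Tendsto (fun j => k j - ⌊w * n j⌋₊) atTop atTop := hTd.top' htw
  have hru : Tendsto (fun j => a ⌊w * n j⌋₊ / a (n j)) atTop (𝓝 s) := by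
    have := hda.ratio hTu hw0
    rwa [E3b_root hs hda.one] at this
  have hrk := hda.ratio hT ht
  have hrd := hda.ratio hTd htw
  have e1 : ∀ᶠ j in atTop, xs j / a (n j) < a ⌊w * n j⌋₊ / a (n j) := hx.eventually_lt hru hs
  have e2 : ∀ᶠ j in atTop, xs j / a (n j) < a (k j) / a (n j) :=
    hx.eventually_lt hrk (Real.rpow_pos_of_pos ht _)
  have e3 : ∀ᶠ j in atTop, a (k j) / a (n j) < 2 * (a (k j - ⌊w * n j⌋₊) / a (n j)) :=
    hrk.eventually_lt (hrd.const_mul 2) (E3b_pow ht hda.one hst)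
  have e4 : ∀ᶠ j in atTop, a ⌊w * n j⌋₊ / a (n j) < 2 * s :=
    hru.eventually_lt_const (by linarith)
  have e5 : ∀ᶠ j in atTop, s / 2 < a ⌊w * n j⌋₊ / a (n j) :=
    hru.eventually_const_lt (by linarith)
  have e6 := htopd.eventually hAle
  have e7 := htopk.eventually hAge
  have e8 := htopu.eventually htail
  have e9 := htopu.eventually hnear
  have e10 : ∀ᶠ j in atTop, 1 ≤ ⌊w * n j⌋₊ := htopu.eventually_ge_atTop 1
  filter_upwards [hle, e1, e2, e3, e4, e5, e6, e7, e8, e9, e10] with j hle e1 e2 e3 e4 e5 e6 e7 e8 e9 e10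
  set u := ⌊w * n j⌋₊ with hu
  have han : 0 < a (n j) := hda.pos _
  have hau : 0 < a u := hda.pos _
  have hxu : xs j < a u := (div_lt_div_iff_of_pos_right han).1 e1
  have hxk : xs j < a (k j) := (div_lt_div_iff_of_pos_right han).1 e2
  have hak : a (k j) ≤ 2 * a (k j - u) := by
    rw [← mul_div_assoc] at e3
    exact ((div_lt_div_iff_of_pos_right han).1 e3).le
  have hau2 : a u ≤ 2 * s * a (n j) := by
    rw [div_lt_iff₀ han] at e4
    exact e4.le
  have hau3 : s / 2 * a (n j) ≤ a u := by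
    rw [lt_div_iff₀ han] at e5
    exact e5.le
  -- the lower bound for `al k x`
  have hlow : vr D ρ (xs j) / vr D ρ (a (k j - u)) ≤ 4 / c * al D ρ (k j) (xs j) := by
    have h1 := e7 (xs j) (hx0 j) hxk.le
    have h2 : vr D ρ (a (k j)) ≤ 4 * vr D ρ (a (k j - u)) := by
      have h3 := vr_mul hD hρ (a (k j - u)) 2 (hda.pos _).le one_le_two
      have h4 := hVm hak
      linarith
    have h3 : vr D ρ (xs j) / vr D ρ (a (k j - u)) ≤ 4 * (vr D ρ (xs j) / vr D ρ (a (k j))) := by
      rw [← mul_div_assoc, div_le_div_iff₀ (hVpos _) (hVpos _)]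
      have := hVpos (xs j)
      nlinarith
    have h4 : vr D ρ (xs j) / vr D ρ (a (k j)) ≤ al D ρ (k j) (xs j) / c := by
      rw [le_div_iff₀ hc]
      linarith
    calc vr D ρ (xs j) / vr D ρ (a (k j - u)) ≤ 4 * (vr D ρ (xs j) / vr D ρ (a (k j))) := h3
      _ ≤ 4 * (al D ρ (k j) (xs j) / c) := by linarith
      _ = 4 / c * al D ρ (k j) (xs j) := by ring
  have hq0 : 0 < vr D ρ (xs j) / vr D ρ (a (k j - u)) := div_pos (hVpos _) (hVpos _)
  have halpos : 0 < al D ρ (k j) (xs j) := by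
    have h1 : 0 < 4 / c * al D ρ (k j) (xs j) := lt_of_lt_of_le hq0 hlow
    have h2 : 0 < 4 / c := by positivity
    exact (mul_pos_iff_of_pos_left h2).1 h1
  refine ⟨hle, halpos, ?_⟩
  -- upper bound for the two parts
  set μ := kap D ρ u (xs j) with hμ
  set A : ℝ → ℝ≥0∞ := fun z => ENNReal.ofReal (al D ρ (k j - u) z) with hA
  have hApt : ∀ z, 0 ≤ z → al D ρ (k j - u) z ≤ C * (vr D ρ z / vr D ρ (a (k j - u))) := e6
  have hup : ∫⁻ z in Set.Ioi (R' * a u), A z ∂μ ≤
      ENNReal.ofReal (C * ε * (vr D ρ (xs j) / vr D ρ (a (k j - u)))) := by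
    calc ∫⁻ z in Set.Ioi (R' * a u), A z ∂μ
        ≤ ∫⁻ z in Set.Ioi (R' * a u), ENNReal.ofReal (C / vr D ρ (a (k j - u))) *
            ENNReal.ofReal (vr D ρ z) ∂μ := by
          refine setLIntegral_mono' measurableSet_Ioi fun z hz => ?_
          rw [← ENNReal.ofReal_mul (by have := hVpos (a (k j - u)); positivity)]
          refine ENNReal.ofReal_le_ofReal ?_
          have hz0 : 0 ≤ z := le_trans (by positivity) (le_of_lt hz)
          have := hApt z hz0
          calc al D ρ (k j - u) z ≤ C * (vr D ρ z / vr D ρ (a (k j - u))) := this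
            _ = C / vr D ρ (a (k j - u)) * vr D ρ z := by ring
      _ = ENNReal.ofReal (C / vr D ρ (a (k j - u))) *
            ∫⁻ z in Set.Ioi (R' * a u), ENNReal.ofReal (vr D ρ z) ∂μ := by
          rw [lintegral_const_mul]
          exact hVm.measurable.ennreal_ofReal
      _ ≤ ENNReal.ofReal (C / vr D ρ (a (k j - u))) * ENNReal.ofReal (ε * vr D ρ (xs j)) := by
          gcongr
          exact e8 u le_rfl (xs j) (hx0 j) hxu.le
      _ = ENNReal.ofReal (C * ε * (vr D ρ (xs j) / vr D ρ (a (k j - u)))) := by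
          rw [← ENNReal.ofReal_mul (by have := hVpos (a (k j - u)); positivity)]
          congr 1
          ring
  have hlo : ∫⁻ z in Set.Iic (δ * a u), A z ∂μ ≤
      ENNReal.ofReal (C * ε * (vr D ρ (xs j) / vr D ρ (a (k j - u)))) := by
    have hsupp : ∀ᵐ z ∂μ, z ∈ D := by
      rw [ae_iff]
      exact kap_compl hD u (xs j) (Or.inl e10)
    have hDnn : ∀ z ∈ D, (0 : ℝ) ≤ z := by
      intro z hz
      rcases hD with rfl | rfl
      · exact hz
      · exact le_of_lt hz
    calc ∫⁻ z in Set.Iic (δ * a u), A z ∂μ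
        ≤ ∫⁻ z in Set.Iic (δ * a u),
            ENNReal.ofReal (C * (vr D ρ (a u) / vr D ρ (a (k j - u)))) ∂μ := by
          refine setLIntegral_mono_ae measurable_const.aemeasurable ?_
          filter_upwards [hsupp] with z hz hzi
          refine ENNReal.ofReal_le_ofReal ?_
          have hz0 := hDnn z hz
          refine (hApt z hz0).trans ?_
          have hzu : z ≤ a u := le_trans hzi (by nlinarith)
          have := hVm hzu
          have h0 := hVpos (a (k j - u))
          gcongr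
      _ = ENNReal.ofReal (C * (vr D ρ (a u) / vr D ρ (a (k j - u)))) * μ (Set.Iic (δ * a u)) := by
          rw [setLIntegral_const]
      _ ≤ ENNReal.ofReal (C * (vr D ρ (a u) / vr D ρ (a (k j - u)))) *
            ENNReal.ofReal (ε * (vr D ρ (xs j) / vr D ρ (a u))) := by
          gcongr
          have h1 := e9 u (by simp) (xs j) (hx0 j)
          have h2 : μ (Set.Iic (δ * a u)) ≤ μ (Set.Iic (δ' * a u)) := by
            apply measure_mono
            apply Set.Iic_subset_Iic.2
            exact mul_le_mul_of_nonneg_right (min_le_left _ _) hau.le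
          refine h2.trans ?_
          rw [← ofReal_measureReal]
          exact ENNReal.ofReal_le_ofReal h1
      _ = ENNReal.ofReal (C * ε * (vr D ρ (xs j) / vr D ρ (a (k j - u)))) := by
          have h0 := hVpos (a (k j - u))
          have h1 := hVpos (a u)
          rw [← ENNReal.ofReal_mul (by positivity)]
          congr 1
          field_simp
  have hBsub : {z | z < s * a (n j) / R ∨ R * s * a (n j) < z} ⊆
      Set.Ioi (R' * a u) ∪ Set.Iic (δ * a u) := by
    rintro z (hz | hz)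
    · right
      refine le_trans (le_of_lt hz) ?_
      rw [div_le_iff₀ hR0]
      have h1 : 2 ≤ R * δ := by
        rw [div_le_iff₀ hδ0] at hRδ
        linarith
      have h2 : s * a (n j) ≤ 2 * a u := by linarith
      calc s * a (n j) ≤ 2 * a u := h2
        _ ≤ (R * δ) * a u := by gcongr
        _ = δ * a u * R := by ring
    · left
      refine lt_of_le_of_lt ?_ hz
      calc R' * a u ≤ R' * (2 * s * a (n j)) := by gcongr
        _ = (2 * R') * (s * a (n j)) := by ring
        _ ≤ R * (s * a (n j)) := by gcongr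
        _ = R * s * a (n j) := by ring
  have htot : ∫⁻ z in {z | z < s * a (n j) / R ∨ R * s * a (n j) < z}, A z ∂μ ≤
      ENNReal.ofReal (κ * al D ρ (k j) (xs j)) := by
    calc ∫⁻ z in {z | z < s * a (n j) / R ∨ R * s * a (n j) < z}, A z ∂μ
        ≤ ∫⁻ z in Set.Ioi (R' * a u) ∪ Set.Iic (δ * a u), A z ∂μ := lintegral_mono_set hBsub
      _ ≤ ∫⁻ z in Set.Ioi (R' * a u), A z ∂μ + ∫⁻ z in Set.Iic (δ * a u), A z ∂μ :=
          lintegral_union_le _ _ _
      _ ≤ ENNReal.ofReal (C * ε * (vr D ρ (xs j) / vr D ρ (a (k j - u)))) +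
          ENNReal.ofReal (C * ε * (vr D ρ (xs j) / vr D ρ (a (k j - u)))) := add_le_add hup hlo
      _ = ENNReal.ofReal (2 * (C * ε * (vr D ρ (xs j) / vr D ρ (a (k j - u))))) := by
          rw [← ENNReal.ofReal_add (by positivity) (by positivity)]
          congr 1
          ring
      _ ≤ ENNReal.ofReal (κ * al D ρ (k j) (xs j)) := by
          refine ENNReal.ofReal_le_ofReal ?_
          calc 2 * (C * ε * (vr D ρ (xs j) / vr D ρ (a (k j - u))))
              ≤ 2 * (C * ε * (4 / c * al D ρ (k j) (xs j))) := by gcongr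
            _ = κ * al D ρ (k j) (xs j) := by
                rw [hε]
                field_simp
                ring
  rw [integral_eq_lintegral_of_nonneg_ae (Eventually.of_forall fun z => E3b_al_nonneg _ _)
    (E3b_al_meas hD _).aestronglyMeasurable]
  exact ENNReal.toReal_le_of_le_ofReal (by positivity) htot

theorem E3b_EA_le (h : DA α ζ ρ a) {t M : ℝ} (ht : 0 < t) {f : ℝ → ℝ} (hf : BCo M f) :
    |EA α ζ t f| ≤ M := by
  have h1 := (EA_tendsto h ht hf).abs
  refine le_of_tendsto h1 ?_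
  filter_upwards [self_mem_nhdsWithin] with x hx
  have hx' : 0 < x := hx
  have h2 := QO_pos h ht hx'
  rw [abs_div, abs_of_pos h2, div_le_iff₀ h2]
  exact QT_abs_le h ht hf hx'

/-- **[STB-E3]** PROOF. Fix `κ > 0`. (1) Choose `R > 1` such that for `s` small, `u_j = ⌊s^α n_j⌋` and all `j` large the masses
`∫_{z ∉ [s a_n/R, R s a_n]} al D ρ (k_j - u_j) z ∂(kap D ρ u_j x_j)(z) ≤ κ al D ρ k_j x_j`: `z > R s a_n`: `al (k-u) z ≤ C V(z)/V(a_{k-u})` and `DA.tail`
(for the time `u_j`, `a_{u_j}/a_{n_j} → s`, `x_j ≤ a_{u_j}` for `j` large since `x_j/a_n → 0`); `z < s a_n/R`: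
`al (k-u) z ≤ C V(s a_n)/V(a_{k-u})` and `DA.near` (time `u_j`: mass `≤ ε V(x_j)/V(a_{u_j})`, `V(s a_n) ≤ C V(a_{u_j})`); and
`al k x ≥ c V(x)/V(a_k)`, `V(a_k) ≤ C V(a_{k-u})`; the constants do not depend on `s`, `R`. (2) For `z/a_n ∈ [s/R, R s]`, in the coset, by `kap_UC`
(`Tm` with `t - s^α`) `∫ F_j ∂(kap (k-u) z) = QT (t - s^α) f (z/a_n) + o(1)` and `al (k-u) z = QO (t - s^α) (z/a_n) + o(1)` uniformly; as
`QO (t-s^α)` is bounded below on `[s/R, R s]` (`QO_pos`, monotone), `|∫ F_j ∂(kap (k-u) z) - EA t f · al (k-u) z| ≤ (M κ + o(1)) al (k-u) z` for `s ≤ s₀`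
(`EA_unif`). (3) Integrate over `kap u_j x_j` (Markov property `kap_add`), use (1) for the rest (`|EA t f| ≤ M`), divide by `al k x`. -/
theorem entrance (hda : DA α ζ ρ a) (hD : Dom D) {b h : ℝ} (hstep : ∀ᵐ x ∂ρ, Cos h b x) {n k : ℕ → ℕ} {t : ℝ}
    (hT : Tm n k t) (ht : 0 < t) {M : ℝ} {c : ℕ → ℝ} {F : ℕ → ℝ → ℝ} {f : ℝ → ℝ} (hF : MB M F) (hf : BCo M f)
    (hU : UC h c (fun j => a (n j)) F f) {xs : ℕ → ℝ} (hx0 : ∀ j, 0 ≤ xs j)
    (hxc : ∀ j, Cos h (c j - k j * b) (xs j)) (hx : Tendsto (fun j => xs j / a (n j)) atTop (𝓝 0)) :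
    Tendsto (fun j => (∫ y, F j y ∂(kap D ρ (k j) (xs j))) / al D ρ (k j) (xs j)) atTop (𝓝 (EA α ζ t f)) := by
  have hp := hda.prob
  have hM0 : 0 ≤ M := (abs_nonneg _).trans ((hF 0).2 0)
  have hE : |EA α ζ t f| ≤ M := E3b_EA_le hda ht hf
  set E := EA α ζ t f with hEdef
  have hα0 : 0 < α := by linarith [hda.one]
  -- the key estimate
  have key : ∀ κ > (0 : ℝ), ∀ᶠ j in atTop,
      |(∫ y, F j y ∂(kap D ρ (k j) (xs j))) / al D ρ (k j) (xs j) - E| ≤ (3 * M + 1) * κ := by
    intro κ hκ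
    obtain ⟨R, hR1, hmass⟩ := E3b_mass hda hD hT ht hx0 hx κ hκ
    have hR0 : 0 < R := by linarith
    obtain ⟨s₀, hs₀, hunif⟩ := EA_unif hda ht hR0 κ hκ
    set s := min s₀ ((t / 2) ^ (1 / α)) with hs
    have hs0 : 0 < s := lt_min hs₀ (Real.rpow_pos_of_pos (by positivity) _)
    have hsα : s ^ α ≤ t / 2 := by
      have h1 : s ^ α ≤ ((t / 2) ^ (1 / α)) ^ α :=
        Real.rpow_le_rpow hs0.le (min_le_right _ _) hα0.le
      rwa [← Real.rpow_mul (by positivity), one_div_mul_cancel hα0.ne', Real.rpow_one] at h1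
    obtain ⟨-, hunif⟩ := hunif s hs0 (min_le_left _ _)
    have hm := hmass s hs0 hsα
    set w := s ^ α with hw
    have hw0 : 0 < w := Real.rpow_pos_of_pos hs0 _
    have htw : 0 < t - w := by linarith
    have hTu : Tm n (fun j => ⌊w * n j⌋₊) w := Tm.floor hT.top hw0.le
    have hle : ∀ᶠ j in atTop, ⌊w * n j⌋₊ ≤ k j := hm.mono fun j hj => hj.1
    have hTd : Tm n (fun j => k j - ⌊w * n j⌋₊) (t - w) := hT.sub' hTu hle
    -- lower bound for the survival probability in the window
    set q₀ := QO α ζ (t - w) (s / R) with hq₀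
    have hq₀0 : 0 < q₀ := QO_pos hda htw (by positivity)
    set η := min (q₀ / 2) (κ * q₀ / (2 * (1 + M + M * κ))) with hη
    have hη0 : 0 < η := by
      refine lt_min (by positivity) ?_
      positivity
    set ε := min (s / R) (1 / (R * s)) with hε
    have hε0 : 0 < ε := by
      refine lt_min (by positivity) (by positivity)
    have hUF := kap_UC hda hD hstep hTd htw hF hf hU ε hε0 η hη0
    have hone : BCo 1 (fun _ : ℝ => (1 : ℝ)) := ⟨fun x _ => by simp, continuousOn_const⟩
    have hU1 := kap_UC hda hD hstep hTd htw (M := 1) (F := fun _ _ => (1 : ℝ))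
      (fun j => ⟨measurable_const, fun y => by simp⟩) hone
      (UC.const (c := c) (s := fun j => a (n j)) (h := h) (fun _ : ℝ => (1 : ℝ))) ε hε0 η hη0
    filter_upwards [hm, hUF, hU1] with j hmj hUFj hU1j
    obtain ⟨hlej, halpos, hmassj⟩ := hmj
    set u := ⌊w * n j⌋₊ with hu
    set m := k j - u with hmdef
    have hkm : u + m = k j := by omega
    have han : 0 < a (n j) := hda.pos _
    set μ := kap D ρ u (xs j) with hμ
    set A : ℝ → ℝ := fun z => al D ρ m z with hA
    set I : ℝ → ℝ := fun z => ∫ y, F j y ∂(kap D ρ m z) with hI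
    have hAm : Measurable A := E3b_al_meas hD m
    have hIm : Measurable I := measurable_integral_kap hD m (F j) (hF j).1 M (hF j).2
    have hA0 : ∀ z, 0 ≤ A z := fun z => E3b_al_nonneg _ _
    have hA1 : ∀ z, A z ≤ 1 := fun z => E3b_al_le_one _ _
    have hIA : ∀ z, |I z| ≤ M * A z := fun z => E3b_int_le m z (hF j).2
    set B : Set ℝ := {z | z < s * a (n j) / R ∨ R * s * a (n j) < z} with hB
    have hBm : MeasurableSet B :=
      (measurableSet_Iio (a := s * a (n j) / R)).union (measurableSet_Ioi (a := R * s * a (n j)))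
    -- the estimate in the window
    have hwin : ∀ z, z ∉ B → Cos h (c j - (m : ℝ) * b) z → |I z - E * A z| ≤ (M + 1) * κ * A z := by
      intro z hz hcz
      have hz1 : s * a (n j) / R ≤ z := not_lt.1 fun h' => hz (Or.inl h')
      have hz2 : z ≤ R * s * a (n j) := not_lt.1 fun h' => hz (Or.inr h')
      have hy1 : s / R ≤ z / a (n j) := by
        rw [le_div_iff₀ han]
        calc s / R * a (n j) = s * a (n j) / R := by ring
          _ ≤ z := hz1
      have hy2 : z / a (n j) ≤ R * s := by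
        rw [div_le_iff₀ han]; exact hz2
      have hy0 : 0 < z / a (n j) := lt_of_lt_of_le (by positivity) hy1
      have hc1 : ε * a (n j) ≤ z := by
        calc ε * a (n j) ≤ s / R * a (n j) := by gcongr; exact min_le_left _ _
          _ = s * a (n j) / R := by ring
          _ ≤ z := hz1
      have hc2 : z ≤ a (n j) / ε := by
        rw [le_div_iff₀ hε0]
        calc z * ε ≤ (R * s * a (n j)) * (1 / (R * s)) := by
              apply mul_le_mul hz2 (min_le_right _ _) hε0.le
              positivity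
          _ = a (n j) := by field_simp
      have h1 : |I z - QT α ζ (t - w) f (z / a (n j))| ≤ η := hUFj z hcz hc1 hc2
      have h2 : |A z - QO α ζ (t - w) (z / a (n j))| ≤ η := by
        have := hU1j z hcz hc1 hc2
        rw [← E3b_al_eq] at this
        exact this
      set q := QO α ζ (t - w) (z / a (n j)) with hq
      have hq0 : 0 < q := QO_pos hda htw hy0
      have hqq : q₀ ≤ q := (QO_facts hda).2.2.1 (t - w) htw (s / R) (by positivity) _ hy1
      have hq1 : q ≤ 1 := ((QO_facts hda).1 (t - w) htw _ hy0).2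
      have h3 : |QT α ζ (t - w) f (z / a (n j)) - E * q| ≤ M * κ * q := by
        have h4 := hunif M f hf (z / a (n j)) hy0 hy2
        unfold rT at h4
        have h5 : QT α ζ (t - w) f (z / a (n j)) - E * q =
            (QT α ζ (t - w) f (z / a (n j)) / q - E) * q := by
          field_simp
        rw [h5, abs_mul, abs_of_pos hq0]
        exact mul_le_mul_of_nonneg_right h4 hq0.le
      have h4 : |E * q - E * A z| ≤ M * η := by
        rw [← mul_sub, abs_mul]
        rw [abs_sub_comm] at h2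
        exact mul_le_mul hE h2 (abs_nonneg _) hM0
      have hqA : q ≤ A z + η := by
        have := (abs_le.1 h2).1
        linarith
      have hAq : q₀ / 2 ≤ A z := by
        have h5 : η ≤ q₀ / 2 := min_le_left _ _
        linarith
      have hηκ : (1 + M + M * κ) * η ≤ κ * A z := by
        have h5 : η ≤ κ * q₀ / (2 * (1 + M + M * κ)) := min_le_right _ _
        have h6 : 0 < 1 + M + M * κ := by positivity
        calc (1 + M + M * κ) * η ≤ (1 + M + M * κ) * (κ * q₀ / (2 * (1 + M + M * κ))) := by gcongr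
          _ = κ * (q₀ / 2) := by field_simp
          _ ≤ κ * A z := by gcongr
      have h5 : |I z - E * A z| ≤ η + M * κ * q + M * η := by
        have h6 : I z - E * A z = (I z - QT α ζ (t - w) f (z / a (n j))) +
            (QT α ζ (t - w) f (z / a (n j)) - E * q) + (E * q - E * A z) := by ring
        rw [h6]
        refine (abs_add_three _ _ _).trans ?_
        linarith
      have h6 : M * κ * q ≤ M * κ * (A z + η) := by gcongr
      calc |I z - E * A z| ≤ η + M * κ * q + M * η := h5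
        _ ≤ η + M * κ * (A z + η) + M * η := by linarith
        _ = (1 + M + M * κ) * η + M * κ * A z := by ring
        _ ≤ κ * A z + M * κ * A z := by linarith
        _ = (M + 1) * κ * A z := by ring
    -- the estimate everywhere
    have hcos : ∀ᵐ z ∂μ, Cos h (c j - (m : ℝ) * b) z := by
      filter_upwards [ae_kap hD b h hstep u (xs j)] with z hz
      have h1 : Cos h ((c j - (m : ℝ) * b) - (u : ℝ) * b) (xs j) := by
        have h2 : (c j - (m : ℝ) * b) - (u : ℝ) * b = c j - (k j : ℝ) * b := by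
          rw [← hkm]
          push_cast
          ring
        rw [h2]
        exact hxc j
      exact Cos_shift h1 hz
    have hall : ∀ᵐ z ∂μ, |I z - E * A z| ≤ (M + 1) * κ * A z + 2 * M * B.indicator A z := by
      filter_upwards [hcos] with z hz
      by_cases hzB : z ∈ B
      · rw [Set.indicator_of_mem hzB]
        have h1 : |I z - E * A z| ≤ |I z| + |E * A z| := abs_sub _ _
        have h2 : |E * A z| ≤ M * A z := by
          rw [abs_mul, abs_of_nonneg (hA0 z)]
          exact mul_le_mul_of_nonneg_right hE (hA0 z)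
        have h3 := hIA z
        have h4 : 0 ≤ (M + 1) * κ * A z := mul_nonneg (by positivity) (hA0 z)
        linarith
      · rw [Set.indicator_of_notMem hzB, mul_zero, add_zero]
        exact hwin z hzB hz
    have hAint : Integrable A μ := by
      refine Integrable.of_bound hAm.aestronglyMeasurable 1 (Eventually.of_forall fun z => ?_)
      rw [Real.norm_eq_abs, abs_of_nonneg (hA0 z)]
      exact hA1 z
    have hIint : Integrable I μ := by
      refine Integrable.of_bound hIm.aestronglyMeasurable M (Eventually.of_forall fun z => ?_)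
      rw [Real.norm_eq_abs]
      refine (hIA z).trans ?_
      have := hA1 z
      nlinarith
    have hsum1 : ∫ y, F j y ∂(kap D ρ (k j) (xs j)) = ∫ z, I z ∂μ := by
      rw [← hkm]
      exact integral_kap_add hD u m (xs j) (F j) (hF j).1 M (hF j).2
    have hsum2 : al D ρ (k j) (xs j) = ∫ z, A z ∂μ := by
      rw [← hkm]
      exact E3b_al_add hD u m (xs j)
    have hsum3 : ∫ z, B.indicator A z ∂μ ≤ κ * al D ρ (k j) (xs j) := by
      rw [integral_indicator hBm]
      exact hmassj
    have hdiff : |(∫ y, F j y ∂(kap D ρ (k j) (xs j))) - E * al D ρ (k j) (xs j)| ≤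
        (3 * M + 1) * κ * al D ρ (k j) (xs j) := by
      rw [hsum1, hsum2, ← integral_const_mul, ← integral_sub hIint (hAint.const_mul E)]
      calc |∫ z, (I z - E * A z) ∂μ| ≤ ∫ z, |I z - E * A z| ∂μ := abs_integral_le_integral_abs
        _ ≤ ∫ z, ((M + 1) * κ * A z + 2 * M * B.indicator A z) ∂μ := by
            refine integral_mono_ae (hIint.sub (hAint.const_mul E)).abs ?_ hall
            exact (hAint.const_mul _).add ((hAint.indicator hBm).const_mul _)
        _ = (M + 1) * κ * ∫ z, A z ∂μ + 2 * M * ∫ z, B.indicator A z ∂μ := by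
            rw [integral_add (hAint.const_mul _) ((hAint.indicator hBm).const_mul _),
              integral_const_mul, integral_const_mul]
        _ ≤ (M + 1) * κ * ∫ z, A z ∂μ + 2 * M * (κ * ∫ z, A z ∂μ) := by
            rw [← hsum2]
            gcongr
        _ = (3 * M + 1) * κ * ∫ z, A z ∂μ := by ring
    rw [div_sub' halpos.ne', abs_div, abs_of_pos halpos, div_le_iff₀ halpos, mul_comm _ E]
    exact hdiff
  rw [Metric.tendsto_atTop]
  intro ε hε
  have h1 := key (ε / (2 * (3 * M + 1))) (by positivity)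
  rw [eventually_atTop] at h1
  obtain ⟨N, hN⟩ := h1
  refine ⟨N, fun j hj => ?_⟩
  rw [Real.dist_eq]
  refine lt_of_le_of_lt (hN j hj) ?_
  have h2 : (3 * M + 1) * (ε / (2 * (3 * M + 1))) = ε / 2 := by
    field_simp
  rw [h2]
  linarith

end Pool.Agent.BPT
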