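import Pool.Agent.MP_99a865_pr.ST.X9a

/-! **[STB-X9b]** Semigroup property of the exit density. -/

open MeasureTheory ProbabilityTheory Filter Topology
open scoped ENNReal NNReal

namespace Pool.Agent.BPT

variable {α : ℝ} {ζ ρ : Measure ℝ} {a : ℕ → ℝ} {D : Set ℝ}

theorem X9b_key (hda : DA α ζ ρ a) {s u : ℝ} (hs : 0 < s) (hu : 0 < u) {x : ℝ} (hx : 0 < x) :
    IntegrableOn (fun y => qT α ζ s x y * QO α ζ u y) (Set.Ioi 0) ∧
      ∫ y in Set.Ioi (0 : ℝ), qT α ζ s x y * QO α ζ u y = QO α ζ (s + u) x := by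
  obtain ⟨-, -, -, hQO⟩ := QO_facts hda
  have h1 := qT_int hda hs (hQO u hu) hx
  have hone : BCo 1 (fun _ : ℝ => (1 : ℝ)) := ⟨fun x _ => by simp, continuousOn_const⟩
  exact ⟨h1.1, h1.2.trans (QT_semi hda hs hu hone hx)⟩

theorem X9b_diff (hda : DA α ζ ρ a) {s u η : ℝ} (hs : 0 < s) (hu : 0 < u) (hη : 0 < η) {x : ℝ} (hx : 0 < x) :
    IntegrableOn (fun y => qT α ζ s x y * (QO α ζ u y - QO α ζ (u + η) y)) (Set.Ioi 0) ∧
      ∫ y in Set.Ioi (0 : ℝ), qT α ζ s x y * (QO α ζ u y - QO α ζ (u + η) y) =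
        QO α ζ (s + u) x - QO α ζ (s + u + η) x := by
  have h1 := X9b_key hda hs hu hx
  have h2 := X9b_key hda hs (show 0 < u + η by linarith) hx
  have e : (fun y => qT α ζ s x y * (QO α ζ u y - QO α ζ (u + η) y)) =
      fun y => qT α ζ s x y * QO α ζ u y - qT α ζ s x y * QO α ζ (u + η) y := by
    funext y
    ring
  rw [e]
  refine ⟨h1.1.sub h2.1, ?_⟩
  rw [integral_sub h1.1 h2.1, h1.2, h2.2, add_assoc]

/-- uniform bound of the difference quotients -/
theorem X9b_bd (hda : DA α ζ ρ a) {s : ℝ} (hs : 0 < s) : ∃ M > (0 : ℝ), ∃ η₀ > (0 : ℝ), ∀ η, 0 < η → η < η₀ →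
    ∀ y, 0 < y → |(QO α ζ s y - QO α ζ (s + η) y) / η| ≤ M := by
  set r := min (s / 2) (1 / 2) with hrdef
  have hr : 0 < r := lt_min (by positivity) (by norm_num)
  have hr1 : r < 1 := (min_le_right _ _).trans_lt (by norm_num)
  have hrt : r ≤ s / 2 := min_le_left _ _
  have hsr : 0 < s - r := by linarith
  obtain ⟨C', hC', hX, -⟩ := X3_tail hda hr hr1
  obtain ⟨C, hC, hq⟩ := qT_bdd hda hsr
  obtain ⟨-, hanti, -, -⟩ := QO_facts hda
  refine ⟨C * C', by positivity, 1 - r, by linarith, fun η hη hη1 y hy => ?_⟩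
  have hη2 : r + η < 1 := by linarith
  obtain ⟨hi, hle⟩ := hX η hη hη2
  have h1 := X9b_diff hda hsr hr hη hy
  rw [sub_add_cancel] at h1
  have h2 : 0 ≤ QO α ζ s y - QO α ζ (s + η) y := by
    have := hanti s hs (s + η) (by linarith) y hy
    linarith
  rw [abs_of_nonneg (by positivity), div_le_iff₀ hη, ← h1.2]
  calc ∫ z in Set.Ioi (0 : ℝ), qT α ζ (s - r) y z * (QO α ζ r z - QO α ζ (r + η) z)
      ≤ ∫ z in Set.Ioi (0 : ℝ), C * (QO α ζ r z - QO α ζ (r + η) z) := by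
        refine setIntegral_mono_on h1.1 (hi.const_mul C) measurableSet_Ioi fun z hz => ?_
        have h3 := hanti r hr (r + η) (by linarith) z hz
        exact mul_le_mul_of_nonneg_right (hq y z hy hz) (by linarith)
    _ = C * ∫ z in Set.Ioi (0 : ℝ), (QO α ζ r z - QO α ζ (r + η) z) := integral_const_mul _ _
    _ ≤ C * (C' * η) := mul_le_mul_of_nonneg_left hle hC.le
    _ = C * C' * η := by ring

theorem X9b_tendsto (hda : DA α ζ ρ a) {t : ℝ} (ht : 0 < t) {x : ℝ} (hx : 0 < x) :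
    Tendsto (fun η : ℝ => (QO α ζ t x - QO α ζ (t + η) x) / η) (𝓝[>] (0 : ℝ)) (𝓝 (hQ α ζ t x)) := by
  set r := min (t / 2) (1 / 2) with hrdef
  have hr : 0 < r := lt_min (by positivity) (by norm_num)
  have hr1 : r < 1 := (min_le_right _ _).trans_lt (by norm_num)
  have hrt : r ≤ t / 2 := min_le_left _ _
  have hs : 0 < t - r := by linarith
  have h1 := hQ_tendsto hda hs hr hr1 hx
  rw [← hQ_eq hda hs hr hr1 hx, sub_add_cancel] at h1
  exact h1

/-- **[STB-X9d]** PROOF. `hQ s y = bet r (qT (s-r) y)`, `QT u` of it: `QT u (fun y => (QO s y - QO (s+η) y)/η) x = (QO (u+s) x - QO (u+s+η) x)/η → hQ (u+s) x`, and the functions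
`(QO s y - QO (s+η) y)/η = (1/η) ∫ qT (s-r) y z (QO r z - QO (r+η) z) dz` are bounded (`qT_bdd`, `X3_tail`) and converge to `hQ s y` locally uniformly in `y ∈ (0,∞)` (they are equicontinuous on
compacts); use `QT_tight`. -/
theorem QT_hQ (hda : DA α ζ ρ a) {u s : ℝ} (hu : 0 < u) (hs : 0 < s) {x : ℝ} (hx : 0 < x) :
    QT α ζ u (hQ α ζ s) x = hQ α ζ (u + s) x := by
  obtain ⟨M₁, -, hM₁⟩ := hQ_BCo hda hs
  rw [← (qT_int hda hu hM₁ hx).2]
  obtain ⟨M, hM, η₀, hη₀, hbd⟩ := X9b_bd hda hs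
  have hone : BCo 1 (fun _ : ℝ => (1 : ℝ)) := ⟨fun x _ => by simp, continuousOn_const⟩
  have hqi := (qT_int hda hu hone hx).1
  simp only [mul_one] at hqi
  have h1 : Tendsto (fun η : ℝ => ∫ y in Set.Ioi (0 : ℝ), qT α ζ u x y * ((QO α ζ s y - QO α ζ (s + η) y) / η))
      (𝓝[>] (0 : ℝ)) (𝓝 (∫ y in Set.Ioi (0 : ℝ), qT α ζ u x y * hQ α ζ s y)) := by
    refine tendsto_integral_filter_of_dominated_convergence (fun y => M * qT α ζ u x y) ?_ ?_ ?_ ?_
    · filter_upwards [self_mem_nhdsWithin] with η hη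
      have hη' : 0 < η := hη
      have h2 := ((X9b_diff hda hu hs hη' hx).1.div_const η).aestronglyMeasurable
      have e : (fun y => qT α ζ u x y * ((QO α ζ s y - QO α ζ (s + η) y) / η)) =
          fun y => qT α ζ u x y * (QO α ζ s y - QO α ζ (s + η) y) / η := by
        funext y
        ring
      rw [e]
      exact h2
    · have h3 : ∀ᶠ η in 𝓝[>] (0 : ℝ), η < η₀ := by
        filter_upwards [Ioo_mem_nhdsGT hη₀] with η hη
        exact hη.2
      filter_upwards [self_mem_nhdsWithin, h3] with η hη hη2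
      filter_upwards [ae_restrict_mem measurableSet_Ioi] with y hy
      rw [Real.norm_eq_abs, abs_mul, abs_of_nonneg (qT_nonneg hda hu hx hy), mul_comm]
      exact mul_le_mul_of_nonneg_right (hbd η hη hη2 y hy) (qT_nonneg hda hu hx hy)
    · exact hqi.const_mul M
    · filter_upwards [ae_restrict_mem measurableSet_Ioi] with y hy
      exact (X9b_tendsto hda hs hy).const_mul _
  have h2 := X9b_tendsto hda (show 0 < u + s by linarith) hx
  refine tendsto_nhds_unique h1 (h2.congr' ?_)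
  filter_upwards [self_mem_nhdsWithin] with η hη
  have hη' : 0 < η := hη
  rw [← (X9b_diff hda hu hs hη' hx).2, ← integral_div]
  refine integral_congr_ae (Eventually.of_forall fun y => ?_)
  show qT α ζ u x y * (QO α ζ s y - QO α ζ (s + η) y) / η = _
  ring

end Pool.Agent.BPT
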