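import Pool.Agent.MP_99a865_pr.ST.X9a

/-! **[STB-X9c]** Local asymptotics of the exit time. -/

open MeasureTheory ProbabilityTheory Filter Topology
open scoped ENNReal NNReal

namespace Pool.Agent.BPT

variable {α : ℝ} {ζ ρ : Measure ℝ} {a : ℕ → ℝ} {D : Set ℝ}

theorem X9c_t0 {f : ℕ → ℝ} (h : ∀ ε > (0 : ℝ), ∀ᶠ i in atTop, |f i| ≤ ε) :
    Tendsto f atTop (𝓝 0) := by
  rw [Metric.tendsto_nhds]
  intro ε hε
  filter_upwards [h (ε / 2) (by positivity)] with i hi
  rw [Real.dist_eq, sub_zero]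
  linarith

/-- half of the time -/
theorem X9c_half {n m : ℕ → ℕ} {t : ℝ} (hT : Tm n m t) : Tm n (fun j => m j / 2) (t / 2) := by
  refine ⟨hT.top, ?_⟩
  have hn : Tendsto (fun j => (n j : ℝ)) atTop atTop := tendsto_natCast_atTop_atTop.comp hT.top
  have h1 : Tendsto (fun j => (m j : ℝ) / n j / 2) atTop (𝓝 (t / 2)) := hT.lim.div_const 2
  have h2 : Tendsto (fun j => (1 : ℝ) / n j) atTop (𝓝 0) := tendsto_const_nhds.div_atTop hn
  have h3 : Tendsto (fun j => (m j : ℝ) / n j / 2 - 1 / n j) atTop (𝓝 (t / 2)) := by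
    have := h1.sub h2
    rwa [sub_zero] at this
  refine tendsto_of_tendsto_of_tendsto_of_le_of_le' h3 h1 ?_ ?_
  · filter_upwards [hn.eventually_gt_atTop 0] with j hj
    have h4 : (m j : ℝ) / 2 - 1 ≤ ((m j / 2 : ℕ) : ℝ) := by
      have h5 : m j ≤ 2 * (m j / 2) + 1 := by omega
      have h6 : (m j : ℝ) ≤ 2 * ((m j / 2 : ℕ) : ℝ) + 1 := by exact_mod_cast h5
      linarith
    calc (m j : ℝ) / n j / 2 - 1 / n j = ((m j : ℝ) / 2 - 1) / n j := by ring
      _ ≤ ((m j / 2 : ℕ) : ℝ) / n j := by gcongr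
  · filter_upwards [hn.eventually_gt_atTop 0] with j hj
    have h4 : ((m j / 2 : ℕ) : ℝ) ≤ (m j : ℝ) / 2 := by
      have h5 : 2 * (m j / 2) ≤ m j := by omega
      have h6 : 2 * ((m j / 2 : ℕ) : ℝ) ≤ (m j : ℝ) := by exact_mod_cast h5
      linarith
    calc ((m j / 2 : ℕ) : ℝ) / n j ≤ (m j : ℝ) / 2 / n j := by gcongr
      _ = (m j : ℝ) / n j / 2 := by ring

theorem X9c_bz (hda : DA α ζ ρ a) {r C : ℝ} (hr : 0 < r)
    (hC : ∀ x y : ℝ, 0 < x → 0 < y → qT α ζ r x y ≤ C) {x : ℝ} (hx : 0 < x) :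
    BZ C ((Set.Ioi (0 : ℝ)).indicator (qT α ζ r x)) := by
  refine ⟨⟨?_, ?_⟩, ?_⟩
  · intro u hu
    rw [Set.indicator_of_mem (Set.mem_Ioi.mpr hu), abs_of_nonneg (qT_nonneg hda hr hx hu)]
    exact hC x u hx hu
  · have h1 : ContinuousOn (fun u : ℝ => qT α ζ r x u) (Set.Ioi 0) :=
      (qT_cont hda hr).comp (f := fun u : ℝ => (x, u)) (by fun_prop) (fun u hu => ⟨hx, hu⟩)
    exact h1.congr fun u hu => Set.indicator_of_mem hu _
  · intro u hu
    exact Set.indicator_of_notMem (not_lt.mpr hu) _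

/-- `qT r x` is close to `qT r y` on compacts -/
theorem X9c_unif (hda : DA α ζ ρ a) {r : ℝ} (hr : 0 < r) {y : ℝ} (hy : 0 < y) {δ R κ : ℝ} (hδ : 0 < δ)
    (hκ : 0 < κ) : ∃ η > (0 : ℝ), ∀ x : ℝ, |x - y| < η → 0 < x ∧ ∀ u : ℝ, δ ≤ u → u ≤ R →
      |qT α ζ r x u - qT α ζ r y u| ≤ κ := by
  have hK : IsCompact (Set.Icc (y / 2) (2 * y) ×ˢ Set.Icc δ R) := isCompact_Icc.prod isCompact_Icc
  have hsub : Set.Icc (y / 2) (2 * y) ×ˢ Set.Icc δ R ⊆ Set.Ioi (0 : ℝ) ×ˢ Set.Ioi (0 : ℝ) := by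
    rintro ⟨x, u⟩ ⟨h1, h2⟩
    have h3 : y / 2 ≤ x := h1.1
    have h4 : δ ≤ u := h2.1
    exact ⟨Set.mem_Ioi.mpr (by linarith), Set.mem_Ioi.mpr (by linarith)⟩
  have huc := hK.uniformContinuousOn_of_continuous ((qT_cont hda hr).mono hsub)
  rw [Metric.uniformContinuousOn_iff] at huc
  obtain ⟨η, hη, h⟩ := huc κ hκ
  refine ⟨min η (y / 2), by positivity, fun x hx => ?_⟩
  have h1 : |x - y| < η := lt_of_lt_of_le hx (min_le_left _ _)
  have h2 : |x - y| < y / 2 := lt_of_lt_of_le hx (min_le_right _ _)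
  have h3 := abs_lt.mp h2
  refine ⟨by linarith, fun u hu hu' => ?_⟩
  have h4 := h (x, u) ⟨⟨by linarith, by linarith⟩, ⟨hu, hu'⟩⟩ (y, u)
    ⟨⟨by linarith, by linarith⟩, ⟨hu, hu'⟩⟩ (by
      rw [Prod.dist_eq, dist_self, Real.dist_eq]
      exact max_lt h1 hη)
  rw [Real.dist_eq] at h4
  exact h4.le

theorem X9c_meas {M : ℝ} {f : ℝ → ℝ} (hf : BZ M f) : Measurable f := by
  classical
  have h1 : f = (Set.Ioi (0 : ℝ)).piecewise f (fun _ => 0) := by
    funext x
    by_cases hx : x ∈ Set.Ioi (0 : ℝ)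
    · rw [Set.piecewise_eq_of_mem _ _ _ hx]
    · rw [Set.piecewise_eq_of_notMem _ _ _ hx]
      exact hf.zero x (not_lt.mp hx)
  rw [h1]
  exact hf.bco.cont.measurable_piecewise continuousOn_const measurableSet_Ioi

theorem X9c_bd {M : ℝ} (hM : 0 ≤ M) {f : ℝ → ℝ} (hf : BZ M f) (x : ℝ) : |f x| ≤ M := by
  rcases le_or_gt x 0 with hx | hx
  · rw [hf.zero x hx, abs_zero]
    exact hM
  · exact hf.bco.bd x hx

/-- the exit measure: functions which are close on compacts -/
theorem X9c_diff (hda : DA α ζ ρ a) (hD : Dom D) {b h : ℝ} (hh : 0 ≤ h) (hstep : ∀ᵐ x ∂ρ, Cos h b x)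
    {n l : ℕ → ℕ} {r : ℝ} (hr : 0 < r) (hr1 : r < 1) (hT : Tm n l r) {C : ℝ} (hC : 0 < C) :
    ∀ ε > (0 : ℝ), ∃ δ > (0 : ℝ), ∃ R > (0 : ℝ), ∃ κ > (0 : ℝ), ∀ᶠ j in atTop, ∀ (c : ℝ) (f g : ℝ → ℝ),
      BZ C f → BZ C g → (∀ u, δ ≤ u → u ≤ R → |f u - g u| ≤ κ) →
      |(n j : ℝ) / a (n j) * bl D ρ h c (a (n j)) (l j) f -
        (n j : ℝ) / a (n j) * bl D ρ h c (a (n j)) (l j) g| ≤ ε := by
  have hprob := hda.prob
  intro ε hε
  obtain ⟨C1, hC1, hmass⟩ := X1_mass hda hD hh hstep (c₀ := r / 2) (by positivity)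
  obtain ⟨δ, hδ, hnear⟩ := X1_near hda hD hh (c₀ := r / 2) (by positivity) (ε / (6 * C)) (by positivity)
  obtain ⟨R, hR, hfar⟩ := X1_far hda hD hh hstep (ε / (6 * C)) (by positivity)
  refine ⟨δ, hδ, R, hR, ε / (3 * C1), by positivity, ?_⟩
  have hn : Tendsto (fun j => (n j : ℝ)) atTop atTop := tendsto_natCast_atTop_atTop.comp hT.top
  have e1 : ∀ᶠ j in atTop, r / 2 < (l j : ℝ) / n j := hT.lim.eventually_const_lt (by linarith)
  have e2 : ∀ᶠ j in atTop, (l j : ℝ) / n j < 1 := hT.lim.eventually_lt_const hr1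
  filter_upwards [hT.top.eventually hmass, hT.top.eventually hnear, hT.top.eventually hfar, e1, e2,
    hn.eventually_gt_atTop 0] with j hmass hnear hfar h1 h2 hnj
  intro c f g hf hg hfg
  have haj := hda.pos (n j)
  rw [lt_div_iff₀ hnj] at h1
  rw [div_lt_one hnj] at h2
  have hl1 : 1 ≤ l j := by
    have : (0 : ℝ) < l j := lt_of_le_of_lt (by positivity) h1
    exact_mod_cast this
  have hl2 : l j ≤ n j := by exact_mod_cast h2.le
  have m1 := hmass (l j) h1.le hl2 c
  have m2 := hnear (l j) h1.le c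
  have m3 := hfar (l j) hl1 hl2 c
  have hhm : Measurable (hit D ρ (l j)) := measurable_hit hD (l j)
  set Λ : Measure ℝ := (lam h c).restrict D with hΛ
  have hint : Integrable (hit D ρ (l j)) Λ := by
    refine ⟨hhm.aestronglyMeasurable, ?_⟩
    rw [hasFiniteIntegral_iff_ofReal (Eventually.of_forall fun y => hit_nonneg _ _)]
    exact m1.trans_lt ENNReal.ofReal_lt_top
  have hintf : ∀ f : ℝ → ℝ, BZ C f → Integrable (fun y => f (y / a (n j)) * hit D ρ (l j) y) Λ := by
    intro f hf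
    refine (hint.const_mul C).mono' ?_ (Eventually.of_forall fun y => ?_)
    · exact (((X9c_meas hf).comp (measurable_id.div_const _)).mul hhm).aestronglyMeasurable
    · rw [Real.norm_eq_abs, abs_mul, abs_of_nonneg (hit_nonneg (l j) y)]
      exact mul_le_mul_of_nonneg_right (X9c_bd hC.le hf _) (hit_nonneg _ _)
  have hsub : bl D ρ h c (a (n j)) (l j) f - bl D ρ h c (a (n j)) (l j) g =
      ∫ y, (f (y / a (n j)) - g (y / a (n j))) * hit D ρ (l j) y ∂Λ := by
    unfold bl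
    rw [← integral_sub (hintf f hf) (hintf g hg)]
    refine integral_congr_ae (Eventually.of_forall fun y => ?_)
    simp only
    ring
  have key : |bl D ρ h c (a (n j)) (l j) f - bl D ρ h c (a (n j)) (l j) g| ≤
      ε * (a (n j) / n j) := by
    rw [hsub]
    have h3 : ENNReal.ofReal |∫ y, (f (y / a (n j)) - g (y / a (n j))) * hit D ρ (l j) y ∂Λ| ≤
        ENNReal.ofReal (ε * (a (n j) / n j)) := by
      have hmh : Measurable fun y => ENNReal.ofReal (hit D ρ (l j) y) := hhm.ennreal_ofReal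
      calc ENNReal.ofReal |∫ y, (f (y / a (n j)) - g (y / a (n j))) * hit D ρ (l j) y ∂Λ|
          = ‖∫ y, (f (y / a (n j)) - g (y / a (n j))) * hit D ρ (l j) y ∂Λ‖ₑ := by
            rw [← Real.norm_eq_abs, ofReal_norm]
        _ ≤ ∫⁻ y, ‖(f (y / a (n j)) - g (y / a (n j))) * hit D ρ (l j) y‖ₑ ∂Λ :=
            enorm_integral_le_lintegral_enorm _
        _ ≤ ∫⁻ y, (ENNReal.ofReal (ε / (3 * C1)) * ENNReal.ofReal (hit D ρ (l j) y) +
              ENNReal.ofReal (2 * C) * (Set.Iic (δ * a (n j))).indicator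
                (fun y => ENNReal.ofReal (hit D ρ (l j) y)) y +
              ENNReal.ofReal (2 * C) * (Set.Ioi (R * a (n j))).indicator
                (fun y => ENNReal.ofReal (hit D ρ (l j) y)) y) ∂Λ := by
            refine lintegral_mono fun y => ?_
            have h4 : ‖(f (y / a (n j)) - g (y / a (n j))) * hit D ρ (l j) y‖ₑ =
                ENNReal.ofReal |f (y / a (n j)) - g (y / a (n j))| *
                  ENNReal.ofReal (hit D ρ (l j) y) := by
              rw [← ofReal_norm, Real.norm_eq_abs, abs_mul,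
                abs_of_nonneg (hit_nonneg (l j) y), ENNReal.ofReal_mul (abs_nonneg _)]
            have h5 : |f (y / a (n j)) - g (y / a (n j))| ≤ 2 * C := by
              have h6 := X9c_bd hC.le hf (y / a (n j))
              have h7 := X9c_bd hC.le hg (y / a (n j))
              have h8 := abs_sub (f (y / a (n j))) (g (y / a (n j)))
              linarith
            show ‖(f (y / a (n j)) - g (y / a (n j))) * hit D ρ (l j) y‖ₑ ≤ _
            rw [h4]
            by_cases hy1 : y ≤ δ * a (n j)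
            · rw [Set.indicator_of_mem (Set.mem_Iic.mpr hy1)]
              refine le_trans ?_ le_self_add
              refine le_trans ?_ le_add_self
              gcongr
            · by_cases hy2 : R * a (n j) < y
              · rw [Set.indicator_of_mem (Set.mem_Ioi.mpr hy2)]
                refine le_trans ?_ le_add_self
                gcongr
              · refine le_trans ?_ le_self_add
                refine le_trans ?_ le_self_add
                gcongr
                refine hfg _ ?_ ?_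
                · rw [le_div_iff₀ haj]
                  exact (not_le.mp hy1).le
                · rw [div_le_iff₀ haj]
                  exact not_lt.mp hy2
        _ = ENNReal.ofReal (ε / (3 * C1)) * ∫⁻ y in D, ENNReal.ofReal (hit D ρ (l j) y) ∂(lam h c) +
              ENNReal.ofReal (2 * C) * (∫⁻ y in D ∩ Set.Iic (δ * a (n j)),
                ENNReal.ofReal (hit D ρ (l j) y) ∂(lam h c)) +
              ENNReal.ofReal (2 * C) * (∫⁻ y in D ∩ Set.Ioi (R * a (n j)),
                ENNReal.ofReal (hit D ρ (l j) y) ∂(lam h c)) := by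
            have i1 : Measurable ((Set.Iic (δ * a (n j))).indicator
                (fun y => ENNReal.ofReal (hit D ρ (l j) y))) := hmh.indicator measurableSet_Iic
            have i2 : Measurable ((Set.Ioi (R * a (n j))).indicator
                (fun y => ENNReal.ofReal (hit D ρ (l j) y))) := hmh.indicator measurableSet_Ioi
            rw [lintegral_add_right _ (i2.const_mul _), lintegral_add_right _ (i1.const_mul _),
              lintegral_const_mul _ hmh, lintegral_const_mul _ i1, lintegral_const_mul _ i2,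
              lintegral_indicator measurableSet_Iic, lintegral_indicator measurableSet_Ioi, hΛ,
              Measure.restrict_restrict measurableSet_Iic, Measure.restrict_restrict measurableSet_Ioi,
              Set.inter_comm (Set.Iic _) D, Set.inter_comm (Set.Ioi _) D]
        _ ≤ ENNReal.ofReal (ε / (3 * C1)) * ENNReal.ofReal (C1 * (a (n j) / n j)) +
              ENNReal.ofReal (2 * C) * ENNReal.ofReal (ε / (6 * C) * (a (n j) / n j)) +
              ENNReal.ofReal (2 * C) * ENNReal.ofReal (ε / (6 * C) * (a (n j) / n j)) := by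
            gcongr
        _ = ENNReal.ofReal (ε * (a (n j) / n j)) := by
            rw [← ENNReal.ofReal_mul (by positivity), ← ENNReal.ofReal_mul (by positivity),
              ← ENNReal.ofReal_add (by positivity) (by positivity),
              ← ENNReal.ofReal_add (by positivity) (by positivity)]
            congr 1
            field_simp
            ring
    exact (ENNReal.ofReal_le_ofReal_iff (by positivity)).mp h3
  rw [← mul_sub, abs_mul, abs_of_nonneg (by positivity)]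
  calc (n j : ℝ) / a (n j) * |bl D ρ h c (a (n j)) (l j) f - bl D ρ h c (a (n j)) (l j) g| ≤
        (n j : ℝ) / a (n j) * (ε * (a (n j) / n j)) := by gcongr
    _ = ε := by field_simp

theorem X9c_bet {r : ℝ} (g : ℝ → ℝ) :
    bet α ζ r ((Set.Ioi (0 : ℝ)).indicator g) = bet α ζ r g := by
  unfold bet
  congr 1
  funext η
  congr 1
  refine setIntegral_congr_fun measurableSet_Ioi fun y hy => ?_
  rw [Set.indicator_of_mem hy]

/-- **[STB-X9e]** Main statement. PROOF. `l_j = m_j / 2`, `k_j = m_j - l_j`, `r = t/2`; `κ` from `exit_lim` (for `(n, l)`). For `z` in the coset of `(n-m) b`, `lam h (z + k b) = lam h ((n - l) b)` (`lam_congr`). By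
`X8_hit`, `n hit m z = (n/a) bl .. (q_{z/a}) + o(1)` uniformly for `z/a ∈ [ε, 1/ε]`, `q_x = indicator (Ioi 0) (qT r x)`. By `UC_of_seq` (continuity: `hQ_BCo`) take `z_j/a → x`: then `q_{z_j/a} → q_x` uniformly on compacts of
`(0,∞)` and boundedly, so `(n/a) bl .. (q_{z_j/a} - q_x) → 0` (`X1_far`, `X1_near`, `X1_mass`), and `(n/a) bl .. q_x / κ → bet r (qT r x) = hQ t x` (`exit_lim`, `hQ_eq`). -/
theorem hit_UC (hda : DA α ζ ρ a) (hD : Dom D) {b h : ℝ} (hL : LatS ζ ρ a b h) {n m : ℕ → ℕ} {t : ℝ} (ht : 0 < t)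
    (ht1 : t ≤ 1) (hT : Tm n m t) (hhit : ∀ j, 0 < hit D ρ (n j) 0) :
    ∃ κ : ℕ → ℝ, (∃ c > (0 : ℝ), ∃ C : ℝ, ∀ᶠ j in atTop, c ≤ κ j ∧ κ j ≤ C) ∧
      UC h (fun j => ((n j : ℝ) - m j) * b) (fun j => a (n j)) (fun j z => n j * hit D ρ (m j) z / κ j) (hQ α ζ t) := by
  have hprob := hda.prob
  set r : ℝ := t / 2 with hr_def
  have hr : 0 < r := by positivity
  have hr1 : r < 1 := by linarith
  have hTl : Tm n (fun j => m j / 2) r := X9c_half hT
  have hTk : Tm n (fun j => m j - m j / 2) r := by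
    have h1 := hT.sub' hTl (Eventually.of_forall fun j => by
      show m j / 2 ≤ m j
      omega)
    have h2 : t - r = r := by rw [hr_def]; ring
    rwa [h2] at h1
  obtain ⟨κ, ⟨c, hc, C, hκ⟩, hlim⟩ := exit_lim hda hD hL.nonneg hL.step hr hr1 hTl hhit
  refine ⟨κ, ⟨c, hc, C, hκ⟩, ?_⟩
  obtain ⟨M, hM, hMb⟩ := hQ_BCo hda ht
  refine UC_of_seq (fun j => hda.pos _) hMb.cont ?_
  intro φ hφ ys hcos y hy hlimy
  obtain ⟨Cq, hCq, hq⟩ := qT_bdd hda hr
  have hφ' := hφ.tendsto_atTop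
  -- step 1
  have s1 : Tendsto (fun i => (n (φ i) : ℝ) * hit D ρ (m (φ i)) (ys i) -
      (n (φ i) : ℝ) / a (n (φ i)) * bl D ρ h (((n (φ i) : ℝ) - (m (φ i) / 2 : ℕ)) * b) (a (n (φ i)))
        (m (φ i) / 2) ((Set.Ioi (0 : ℝ)).indicator (qT α ζ r (ys i / a (n (φ i)))))) atTop (𝓝 0) := by
    refine X9c_t0 fun κ' hκ' => ?_
    set ε₀ : ℝ := min (y / 2) (1 / (2 * y)) with hε₀
    have hε0 : 0 < ε₀ := by positivity
    have hε1 : ε₀ < y := lt_of_le_of_lt (min_le_left _ _) (by linarith)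
    have hε2 : y < 1 / ε₀ := by
      rw [lt_div_iff₀ hε0]
      calc y * ε₀ ≤ y * (1 / (2 * y)) := by
            gcongr
            exact min_le_right _ _
        _ = 1 / 2 := by field_simp
        _ < 1 := by norm_num
    have h1 := X8_hit hda hD hL hTk hr hTl hr hr1 ε₀ hε0 κ' hκ'
    filter_upwards [hφ'.eventually h1, hlimy.eventually_const_lt hε1, hlimy.eventually_lt_const hε2]
      with i h1 h2 h3
    have hai := hda.pos (n (φ i))
    rw [lt_div_iff₀ hai] at h2
    rw [div_lt_iff₀ hai] at h3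
    have h4 := h1 (ys i) h2.le (by
      refine h3.le.trans (le_of_eq ?_)
      ring)
    have h5 : m (φ i) - m (φ i) / 2 + m (φ i) / 2 = m (φ i) := by omega
    have h6 : Cos h (((n (φ i) : ℝ) - (m (φ i) / 2 : ℕ)) * b)
        (ys i + ((m (φ i) - m (φ i) / 2 : ℕ) : ℝ) * b) := by
      intro h0
      obtain ⟨j, hj⟩ := hcos i h0
      refine ⟨j, ?_⟩
      have h7 : ((m (φ i) - m (φ i) / 2 : ℕ) : ℝ) = (m (φ i) : ℝ) - ((m (φ i) / 2 : ℕ) : ℝ) := by
        rw [Nat.cast_sub (Nat.div_le_self _ _)]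
      rw [h7, hj]
      ring
    rw [h5] at h4
    unfold bl at h4 ⊢
    rw [lam_congr _ _ _ h6] at h4
    exact h4
  -- step 2
  have s2 : Tendsto (fun i =>
      (n (φ i) : ℝ) / a (n (φ i)) * bl D ρ h (((n (φ i) : ℝ) - (m (φ i) / 2 : ℕ)) * b) (a (n (φ i)))
        (m (φ i) / 2) ((Set.Ioi (0 : ℝ)).indicator (qT α ζ r (ys i / a (n (φ i))))) -
      (n (φ i) : ℝ) / a (n (φ i)) * bl D ρ h (((n (φ i) : ℝ) - (m (φ i) / 2 : ℕ)) * b) (a (n (φ i)))
        (m (φ i) / 2) ((Set.Ioi (0 : ℝ)).indicator (qT α ζ r y))) atTop (𝓝 0) := by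
    refine X9c_t0 fun ε hε => ?_
    obtain ⟨δ, hδ, R, hR, κ', hκ', h1⟩ := X9c_diff hda hD hL.nonneg hL.step hr hr1 hTl hCq ε hε
    obtain ⟨η, hη, h2⟩ := X9c_unif hda hr hy (R := R) hδ hκ'
    have h3 : ∀ᶠ i in atTop, |ys i / a (n (φ i)) - y| < η := by
      have := (Metric.tendsto_nhds.mp hlimy) η hη
      simpa only [Real.dist_eq] using this
    filter_upwards [hφ'.eventually h1, h3] with i h1 h3
    obtain ⟨h4, h5⟩ := h2 _ h3
    refine h1 _ _ _ (X9c_bz hda hr hq h4) (X9c_bz hda hr hq hy) fun u hu hu' => ?_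
    have hu0 : u ∈ Set.Ioi (0 : ℝ) := Set.mem_Ioi.mpr (by linarith)
    rw [Set.indicator_of_mem hu0, Set.indicator_of_mem hu0]
    exact h5 u hu hu'
  -- step 3
  have s3 : Tendsto (fun i =>
      (n (φ i) : ℝ) / a (n (φ i)) * bl D ρ h (((n (φ i) : ℝ) - (m (φ i) / 2 : ℕ)) * b) (a (n (φ i)))
        (m (φ i) / 2) ((Set.Ioi (0 : ℝ)).indicator (qT α ζ r y)) / κ (φ i)) atTop
      (𝓝 (hQ α ζ t y)) := by
    have h1 := (hlim Cq _ (X9c_bz hda hr hq hy)).comp hφ'
    have h2 : bet α ζ r ((Set.Ioi (0 : ℝ)).indicator (qT α ζ r y)) = hQ α ζ t y := by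
      rw [X9c_bet, ← hQ_eq hda hr hr hr1 hy]
      congr 1
      rw [hr_def]
      ring
    rw [h2] at h1
    exact h1
  -- division by `κ`
  have s4 : Tendsto (fun i => ((n (φ i) : ℝ) * hit D ρ (m (φ i)) (ys i) -
      (n (φ i) : ℝ) / a (n (φ i)) * bl D ρ h (((n (φ i) : ℝ) - (m (φ i) / 2 : ℕ)) * b) (a (n (φ i)))
        (m (φ i) / 2) ((Set.Ioi (0 : ℝ)).indicator (qT α ζ r y))) / κ (φ i)) atTop (𝓝 0) := by
    have h1 := s1.add s2
    rw [add_zero] at h1
    refine X9c_t0 fun ε hε => ?_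
    have h2 := (Metric.tendsto_nhds.mp h1) (ε * c) (by positivity)
    filter_upwards [h2, hφ'.eventually hκ] with i h2 h3
    rw [Real.dist_eq, sub_zero, sub_add_sub_cancel] at h2
    have h4 : 0 < κ (φ i) := lt_of_lt_of_le hc h3.1
    rw [abs_div, abs_of_pos h4, div_le_iff₀ h4]
    refine h2.le.trans ?_
    gcongr
    exact h3.1
  have s5 := s4.add s3
  rw [zero_add] at s5
  refine s5.congr fun i => ?_
  rw [← add_div]
  congr 1
  ring

end Pool.Agent.BPT
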