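import Pool.Agent.MP_99a865_pr.FV.E1b
import Pool.Agent.MP_99a865_pr.ST.X9b
import Pool.Agent.MP_99a865_pr.ST.X9c
import Pool.Agent.MP_99a865_pr.ST.E3a

/-! **[STB-F0a]** The limit finite-dimensional functionals. -/

open MeasureTheory ProbabilityTheory Filter Topology
open scoped ENNReal NNReal

namespace Pool.Agent.BPT

variable {α : ℝ} {ζ ρ : Measure ℝ} {a : ℕ → ℝ} {D : Set ℝ}

theorem BL.bco {M : ℝ} {f : ℝ → ℝ} (hf : BL M f) : BCo M f :=
  ⟨fun x _ => hf.bd x, (E1b_BL_cont hf).continuousOn⟩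

theorem F0a_nn {M : ℝ} {f : ℝ → ℝ} (hf : BCo M f) : 0 ≤ M := (abs_nonneg _).trans (hf.bd 1 one_pos)

theorem BCo.mul {M N : ℝ} {f g : ℝ → ℝ} (hf : BCo M f) (hg : BCo N g) : BCo (M * N) fun y => f y * g y :=
  ⟨fun x hx => by
    rw [abs_mul]
    exact mul_le_mul (hf.bd x hx) (hg.bd x hx) (abs_nonneg _) (F0a_nn hf), hf.cont.mul hg.cont⟩

/-- `IS` preserves bounded continuous functions (induction, `QT_BCo`) -/
theorem IS_BCo (hda : DA α ζ ρ a) (ts : List (ℝ × (ℝ → ℝ))) {M N : ℝ} (hts : ∀ p ∈ ts, 0 < p.1 ∧ BCo M p.2)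
    {g : ℝ → ℝ} (hg : BCo N g) : ∃ N' : ℝ, BCo N' (IS α ζ ts g) := by
  induction ts with
  | nil => exact ⟨N, hg⟩
  | cons q l ih =>
    obtain ⟨t, f⟩ := q
    obtain ⟨N', hN'⟩ := ih (fun p hp => hts p (List.mem_cons_of_mem _ hp))
    obtain ⟨ht, hf⟩ := hts (t, f) List.mem_cons_self
    exact ⟨M * N', QT_BCo hda ht (hf.mul hN')⟩

/-- with all functions equal to one: `IS` of `hQ s` is `hQ (s + total)` (`QT_hQ`), on `(0,∞)` -/
theorem IS_one (hda : DA α ζ ρ a) (ts : List (ℝ × (ℝ → ℝ))) (hts : ∀ p ∈ ts, 0 < p.1 ∧ p.2 = fun _ => (1 : ℝ))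
    {s : ℝ} (hs : 0 < s) {x : ℝ} (hx : 0 < x) : IS α ζ ts (hQ α ζ s) x = hQ α ζ (s + sumt ts) x := by
  induction ts generalizing x with
  | nil =>
    show hQ α ζ s x = hQ α ζ (s + sumt []) x
    simp [sumt]
  | cons q l ih =>
    obtain ⟨t, f⟩ := q
    obtain ⟨ht, hf⟩ := hts (t, f) List.mem_cons_self
    have hl : ∀ p ∈ l, 0 < p.1 ∧ p.2 = fun _ => (1 : ℝ) := fun p hp => hts p (List.mem_cons_of_mem _ hp)
    have hf' : f = fun _ => (1 : ℝ) := hf
    have hsl : 0 ≤ sumt l := by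
      unfold sumt
      refine List.sum_nonneg ?_
      intro r hr
      obtain ⟨p, hp, rfl⟩ := List.mem_map.1 hr
      exact (hl p hp).1.le
    show QT α ζ t (fun y => f y * IS α ζ l (hQ α ζ s) y) x = hQ α ζ (s + sumt ((t, f) :: l)) x
    have h1 : ∀ y > 0, f y * IS α ζ l (hQ α ζ s) y = hQ α ζ (s + sumt l) y := by
      intro y hy
      rw [hf', one_mul]
      exact ih hl hy
    rw [QT_congr hda.ss h1 x, QT_hQ hda ht (by linarith) hx]
    congr 1
    unfold sumt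
    rw [List.map_cons, List.sum_cons]
    ring

end Pool.Agent.BPT
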