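import Pool.Agent.MP_99a865_pr.ST.F0a

/-! **[STB-F0b]** Entrance law: tightness, positivity; the excursion functional. -/

open MeasureTheory ProbabilityTheory Filter Topology
open scoped ENNReal NNReal

namespace Pool.Agent.BPT

variable {α : ℝ} {ζ ρ : Measure ℝ} {a : ℕ → ℝ} {D : Set ℝ}

theorem F0b_Tm {t : ℝ} (ht : 0 < t) : Tm (fun j : ℕ => j) (fun j : ℕ => ⌊t * (j : ℝ)⌋₊) t := by
  refine ⟨tendsto_id, ?_⟩
  exact (tendsto_nat_floor_mul_div_atTop ht.le).comp tendsto_natCast_atTop_atTop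

theorem F0b_top {t : ℝ} (ht : 0 < t) : Tendsto (fun j : ℕ => ⌊t * (j : ℝ)⌋₊) atTop atTop :=
  tendsto_nat_floor_atTop.comp (tendsto_natCast_atTop_atTop.const_mul_atTop ht)

/-- the functions `f (· / a)` on `(0,∞)` -/
theorem F0b_MB {M : ℝ} {f : ℝ → ℝ} (hf : BCo M f) (hpos : ∀ n, 0 < a n) :
    MB M (fun j y => (Set.Ioi (0 : ℝ)).indicator f (y / a j)) := by
  intro j
  constructor
  · have h1 : Measurable ((Set.Ioi (0 : ℝ)).indicator f) := by
      rw [← Set.piecewise_eq_indicator]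
      exact hf.cont.measurable_piecewise continuousOn_const measurableSet_Ioi
    exact h1.comp (measurable_id.div_const _)
  · intro y
    show |(Set.Ioi (0 : ℝ)).indicator f (y / a j)| ≤ M
    by_cases h1 : y / a j ∈ Set.Ioi (0 : ℝ)
    · rw [Set.indicator_of_mem h1]
      exact hf.bd _ h1
    · rw [Set.indicator_of_notMem h1, abs_zero]
      exact F0a_nn hf

theorem F0b_UC (f : ℝ → ℝ) (hpos : ∀ n, 0 < a n) (c : ℕ → ℝ) :
    UC 0 c (fun j : ℕ => a j) (fun j y => (Set.Ioi (0 : ℝ)).indicator f (y / a j)) f := by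
  intro ε hε η hη
  refine Eventually.of_forall fun j y _ hy _ => ?_
  have h1 : y / a j ∈ Set.Ioi (0 : ℝ) := by
    have : 0 < ε * a j := mul_pos hε (hpos j)
    exact div_pos (by linarith) (hpos j)
  show |(Set.Ioi (0 : ℝ)).indicator f (y / a j) - f (y / a j)| ≤ η
  rw [Set.indicator_of_mem h1, sub_self, abs_zero]
  exact hη.le

/-- the entrance law as a limit of the killed walks started at zero -/
theorem F0b_lim (hda : DA α ζ ρ a) {t M : ℝ} (ht : 0 < t) {f : ℝ → ℝ} (hf : BCo M f) :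
    Tendsto (fun j : ℕ => (∫ y, (Set.Ioi (0 : ℝ)).indicator f (y / a j)
      ∂(kap (Set.Ioi 0) ρ ⌊t * (j : ℝ)⌋₊ 0)) / al (Set.Ioi 0) ρ ⌊t * (j : ℝ)⌋₊ 0) atTop (𝓝 (EA α ζ t f)) := by
  have hstep : ∀ᵐ x ∂ρ, Cos 0 0 x := Eventually.of_forall fun x h => absurd rfl h
  exact entrance hda (Or.inr rfl) hstep (F0b_Tm ht) ht (F0b_MB hf hda.pos) hf (F0b_UC f hda.pos fun _ => 0)
    (xs := fun _ => 0) (fun _ => le_rfl) (fun _ h => absurd rfl h) (by simp)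

/-- **[STB-F0a]** Tightness of the entrance law in `(0,∞)`. PROOF. By `entrance` (`D = Ioi 0`, `x_j = 0`, `F_j = f(·/a)` on `(0,∞)`) `EA t f` is a limit of
`∫ F_j ∂(kap k_j 0)/al k_j 0`, and the mass of `kap D ρ k 0` outside `[δ a, a/δ]` is at most `ε V(0)/V(a)` (`DA.near`, `DA.tail`), `al k 0 ≥ c V(0)/V(a_k)`. -/
theorem EA_tail (hda : DA α ζ ρ a) {t : ℝ} (ht : 0 < t) : ∀ ε > (0 : ℝ), ∃ δ > (0 : ℝ), δ < 1 ∧
    ∀ f : ℝ → ℝ, BCo 1 f → (∀ y, δ ≤ y → y ≤ 1 / δ → f y = 0) → |EA α ζ t f| ≤ ε := by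
  intro ε hε
  have hD : Dom (Set.Ioi (0 : ℝ)) := Or.inr rfl
  have hpr := hda.prob
  obtain ⟨c, hc, hle⟩ := hda.le_al hD
  obtain ⟨ε₁, hε₁⟩ : ∃ ε₁ : ℝ, ε₁ = ε * c / 2 := ⟨_, rfl⟩
  have hε₁0 : 0 < ε₁ := by rw [hε₁]; positivity
  obtain ⟨δ₁, hδ₁, hnear⟩ := hda.near hD one_pos ε₁ hε₁0
  obtain ⟨R₀, hR₀, htail⟩ := hda.tail hD ε₁ hε₁0
  obtain ⟨-, hV1, hVm⟩ := vr_facts hD hda.cen
  obtain ⟨R, hR⟩ : ∃ R : ℝ, R = max R₀ 1 := ⟨_, rfl⟩
  have hR1 : 1 ≤ R := by rw [hR]; exact le_max_right _ _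
  have hRR : R₀ ≤ R := by rw [hR]; exact le_max_left _ _
  obtain ⟨τ, hτ⟩ : ∃ τ : ℝ, τ = t ^ (1 / α) := ⟨_, rfl⟩
  have hτ0 : 0 < τ := by rw [hτ]; exact Real.rpow_pos_of_pos ht _
  obtain ⟨δ, hδ⟩ : ∃ δ : ℝ, δ = min (min (δ₁ * (τ / 2)) (1 / (2 * τ * R))) (1 / 2) := ⟨_, rfl⟩
  have hδ0 : 0 < δ := by rw [hδ]; positivity
  have hδa : δ ≤ δ₁ * (τ / 2) := by rw [hδ]; exact (min_le_left _ _).trans (min_le_left _ _)
  have hδb : δ ≤ 1 / (2 * τ * R) := by rw [hδ]; exact (min_le_left _ _).trans (min_le_right _ _)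
  have hδc : δ ≤ 1 / 2 := by rw [hδ]; exact min_le_right _ _
  refine ⟨δ, hδ0, by linarith, ?_⟩
  intro f hf hf0
  have hlim := F0b_lim hda ht hf
  have hratio := hda.ratio (F0b_Tm ht) ht
  rw [← hτ] at hratio
  have hr1 : ∀ᶠ j : ℕ in atTop, a ⌊t * (j : ℝ)⌋₊ / a j < 2 * τ :=
    hratio.eventually (gt_mem_nhds (by linarith))
  have hr2 : ∀ᶠ j : ℕ in atTop, τ / 2 < a ⌊t * (j : ℝ)⌋₊ / a j :=
    hratio.eventually (lt_mem_nhds (by linarith))
  have htop := F0b_top ht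
  refine le_of_tendsto hlim.abs ?_
  filter_upwards [hr1, hr2, htop.eventually hnear, htop.eventually htail, htop.eventually hle] with
    j h1 h2 h3 h4 h5
  obtain ⟨k, hk⟩ : ∃ k : ℕ, k = ⌊t * (j : ℝ)⌋₊ := ⟨_, rfl⟩
  rw [← hk] at h1 h2 h3 h4 h5 ⊢
  have haj := hda.pos j
  have hak := hda.pos k
  rw [div_lt_iff₀ haj] at h1
  rw [lt_div_iff₀ haj] at h2
  have hVk : 0 < vr (Set.Ioi 0) ρ (a k) := lt_of_lt_of_le one_pos (hV1 _)
  have hV0 : 0 < vr (Set.Ioi 0) ρ 0 := lt_of_lt_of_le one_pos (hV1 _)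
  have g3 := h3 k (by rw [one_mul]) 0 le_rfl
  have g4 := h4 k le_rfl 0 le_rfl hak.le
  have g5 := h5 0 le_rfl hak.le
  have hal : 0 < al (Set.Ioi 0) ρ k 0 := lt_of_lt_of_le (by positivity) g5
  -- the mass far away
  have hfin : IsFiniteMeasure (kap (Set.Ioi 0) ρ k 0) := inferInstance
  have hfar : (kap (Set.Ioi 0) ρ k 0).real (Set.Ioi (R * a k)) ≤
      ε₁ * (vr (Set.Ioi 0) ρ 0 / vr (Set.Ioi 0) ρ (a k)) := by
    have e1 : kap (Set.Ioi 0) ρ k 0 (Set.Ioi (R * a k)) * ENNReal.ofReal (vr (Set.Ioi 0) ρ (a k)) ≤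
        ENNReal.ofReal (ε₁ * vr (Set.Ioi 0) ρ 0) := by
      refine le_trans ?_ g4
      calc kap (Set.Ioi 0) ρ k 0 (Set.Ioi (R * a k)) * ENNReal.ofReal (vr (Set.Ioi 0) ρ (a k))
          = ∫⁻ _ in Set.Ioi (R * a k), ENNReal.ofReal (vr (Set.Ioi 0) ρ (a k)) ∂(kap (Set.Ioi 0) ρ k 0) := by
            rw [setLIntegral_const, mul_comm]
        _ ≤ ∫⁻ y in Set.Ioi (R * a k), ENNReal.ofReal (vr (Set.Ioi 0) ρ y) ∂(kap (Set.Ioi 0) ρ k 0) := by
            refine setLIntegral_mono' measurableSet_Ioi fun y hy => ?_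
            refine ENNReal.ofReal_le_ofReal (hVm ?_)
            have h6 : R * a k < y := hy
            nlinarith
        _ ≤ ∫⁻ y in Set.Ioi (R₀ * a k), ENNReal.ofReal (vr (Set.Ioi 0) ρ y) ∂(kap (Set.Ioi 0) ρ k 0) := by
            refine lintegral_mono_set (Set.Ioi_subset_Ioi ?_)
            gcongr
    have e2 : (kap (Set.Ioi 0) ρ k 0).real (Set.Ioi (R * a k)) * vr (Set.Ioi 0) ρ (a k) ≤
        ε₁ * vr (Set.Ioi 0) ρ 0 := by
      rw [← ofReal_measureReal, ← ENNReal.ofReal_mul measureReal_nonneg] at e1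
      exact (ENNReal.ofReal_le_ofReal_iff (by positivity)).1 e1
    rw [← mul_div_assoc, le_div_iff₀ hVk]
    exact e2
  -- the integral
  have hint : |∫ y, (Set.Ioi (0 : ℝ)).indicator f (y / a j) ∂(kap (Set.Ioi 0) ρ k 0)| ≤
      (kap (Set.Ioi 0) ρ k 0).real (Set.Iic (δ₁ * a k)) + (kap (Set.Ioi 0) ρ k 0).real (Set.Ioi (R * a k)) := by
    have i1 : Integrable ((Set.Iic (δ₁ * a k)).indicator fun _ => (1 : ℝ)) (kap (Set.Ioi 0) ρ k 0) :=
      (integrable_const 1).indicator measurableSet_Iic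
    have i2 : Integrable ((Set.Ioi (R * a k)).indicator fun _ => (1 : ℝ)) (kap (Set.Ioi 0) ρ k 0) :=
      (integrable_const 1).indicator measurableSet_Ioi
    have e3 : ∫ y, ((Set.Iic (δ₁ * a k)).indicator (fun _ => (1 : ℝ)) y +
        (Set.Ioi (R * a k)).indicator (fun _ => (1 : ℝ)) y) ∂(kap (Set.Ioi 0) ρ k 0) =
        (kap (Set.Ioi 0) ρ k 0).real (Set.Iic (δ₁ * a k)) + (kap (Set.Ioi 0) ρ k 0).real (Set.Ioi (R * a k)) := by
      rw [integral_add i1 i2, integral_indicator_const _ measurableSet_Iic,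
        integral_indicator_const _ measurableSet_Ioi, smul_eq_mul, smul_eq_mul, mul_one, mul_one]
    rw [← e3, ← Real.norm_eq_abs]
    refine norm_integral_le_of_norm_le (i1.add i2) (Eventually.of_forall fun y => ?_)
    rw [Real.norm_eq_abs]
    show |(Set.Ioi (0 : ℝ)).indicator f (y / a j)| ≤ (Set.Iic (δ₁ * a k)).indicator (fun _ => (1 : ℝ)) y +
        (Set.Ioi (R * a k)).indicator (fun _ => (1 : ℝ)) y
    have hb : |(Set.Ioi (0 : ℝ)).indicator f (y / a j)| ≤ 1 := ((F0b_MB hf hda.pos) j).2 y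
    have hn1 : 0 ≤ (Set.Iic (δ₁ * a k)).indicator (fun _ => (1 : ℝ)) y :=
      Set.indicator_nonneg (fun _ _ => zero_le_one) y
    have hn2 : 0 ≤ (Set.Ioi (R * a k)).indicator (fun _ => (1 : ℝ)) y :=
      Set.indicator_nonneg (fun _ _ => zero_le_one) y
    rcases le_or_gt y (δ₁ * a k) with h6 | h6
    · rw [Set.indicator_of_mem (show y ∈ Set.Iic (δ₁ * a k) from h6)]
      linarith
    rcases lt_or_ge (R * a k) y with h7 | h7
    · rw [Set.indicator_of_mem (show y ∈ Set.Ioi (R * a k) from h7)]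
      linarith
    · have h8 : δ ≤ y / a j := by
        rw [le_div_iff₀ haj]
        nlinarith
      have h9 : y / a j ≤ 1 / δ := by
        rw [div_le_iff₀ haj]
        have h10 : 2 * τ * R ≤ 1 / δ := by
          rw [le_div_iff₀ hδ0]
          rw [le_div_iff₀ (by positivity)] at hδb
          linarith
        nlinarith
      have h11 : (Set.Ioi (0 : ℝ)).indicator f (y / a j) = 0 := by
        rw [Set.indicator_of_mem (show y / a j ∈ Set.Ioi (0 : ℝ) from lt_of_lt_of_le hδ0 h8)]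
        exact hf0 _ h8 h9
      rw [h11, abs_zero]
      linarith
  rw [abs_div, abs_of_pos hal, div_le_iff₀ hal]
  have hq : 0 < vr (Set.Ioi 0) ρ 0 / vr (Set.Ioi 0) ρ (a k) := by positivity
  calc |∫ y, (Set.Ioi (0 : ℝ)).indicator f (y / a j) ∂(kap (Set.Ioi 0) ρ k 0)|
      ≤ ε₁ * (vr (Set.Ioi 0) ρ 0 / vr (Set.Ioi 0) ρ (a k)) +
        ε₁ * (vr (Set.Ioi 0) ρ 0 / vr (Set.Ioi 0) ρ (a k)) := hint.trans (add_le_add g3 hfar)
    _ = ε * (c * (vr (Set.Ioi 0) ρ 0 / vr (Set.Ioi 0) ρ (a k))) := by rw [hε₁]; ring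
    _ ≤ ε * al (Set.Ioi 0) ρ k 0 := by gcongr

/-- positivity: `g ≥ c cut δ` with `c = min over [δ/2, 2/δ] > 0`, `EA t (cut δ) ≥ 1 - ε` -/
theorem EA_pos (hda : DA α ζ ρ a) {t M : ℝ} (ht : 0 < t) {g : ℝ → ℝ} (hg : BCo M g) (hpos : ∀ y > 0, 0 < g y) :
    0 < EA α ζ t g := by
  obtain ⟨δ, hδ, hδ1, htail⟩ := EA_tail hda ht (1 / 2) (by norm_num)
  obtain ⟨c1, c2, c3, c4, c5⟩ := cut_facts hδ hδ1
  have hcut : BCo 1 (cut δ) := ⟨fun x _ => by rw [abs_of_nonneg (c2 x).1]; exact (c2 x).2, c1.continuousOn⟩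
  have hone : BCo 1 (fun _ : ℝ => (1 : ℝ)) := ⟨fun x _ => by rw [abs_one], continuousOn_const⟩
  have hneg : BCo 1 (fun x => (-1 : ℝ) * cut δ x) :=
    ⟨fun x _ => by
      rw [abs_mul, abs_neg, abs_one, one_mul, abs_of_nonneg (c2 x).1]
      exact (c2 x).2, (continuous_const.mul c1).continuousOn⟩
  have hdiff : BCo 1 (fun x => 1 + (-1 : ℝ) * cut δ x) :=
    ⟨fun x _ => by
      have h1 := c2 x
      rw [abs_le]
      constructor <;> linarith, (continuous_const.add (continuous_const.mul c1)).continuousOn⟩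
  have h1 := htail _ hdiff (fun y h2 h3 => by rw [c3 y h2 h3]; norm_num)
  have h2 : EA α ζ t (fun x => 1 + (-1 : ℝ) * cut δ x) = 1 - EA α ζ t (cut δ) := by
    rw [EA_add hda ht hone hneg, EA_one hda ht, EA_smul hda ht hcut]
    ring
  rw [h2] at h1
  have h3 : 1 / 2 ≤ EA α ζ t (cut δ) := by
    have := (abs_le.1 h1).2
    linarith
  -- the minimum of `g`
  have hle : δ / 2 ≤ 2 / δ := by
    rw [div_le_div_iff₀ (by norm_num) hδ]
    nlinarith
  have hsub : Set.Icc (δ / 2) (2 / δ) ⊆ Set.Ioi 0 := fun x hx => lt_of_lt_of_le (by positivity) hx.1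
  obtain ⟨x₁, hx₁, hmin⟩ := isCompact_Icc.exists_isMinOn (Set.nonempty_Icc.2 hle) (hg.cont.mono hsub)
  have hgx : 0 < g x₁ := hpos x₁ (hsub hx₁)
  have h4 : ∀ y > 0, g x₁ * cut δ y ≤ g y := by
    intro y hy
    rcases le_or_gt y (δ / 2) with h5 | h5
    · rw [c4 y h5, mul_zero]
      exact (hpos y hy).le
    rcases le_or_gt (2 / δ) y with h6 | h6
    · rw [c5 y h6, mul_zero]
      exact (hpos y hy).le
    · have h7 : g x₁ ≤ g y := hmin ⟨h5.le, h6.le⟩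
      have h8 := c2 y
      nlinarith
  have hgc : BCo (g x₁ * 1) (fun y => g x₁ * cut δ y) :=
    ⟨fun x _ => by
      rw [abs_mul, abs_of_pos hgx, abs_of_nonneg (c2 x).1]
      exact mul_le_mul_of_nonneg_left (c2 x).2 hgx.le, (continuous_const.mul c1).continuousOn⟩
  have h5 := EA_mono hda ht hgc hg h4
  rw [EA_smul hda ht hcut] at h5
  have h6 : 0 < g x₁ * EA α ζ t (cut δ) := mul_pos hgx (by linarith)
  linarith

/-- **[STB-F0b]** The excursion functional through the entrance law. PROOF. For `ts = (t, f) :: l`, `T = sumt ts < 1`: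
`IS ts (hQ (1-T)) x / hQ 1 x = [QT t G x / QO t x] / [QT t (hQ (1-t)) x / QO t x]` with `G = f · IS l (hQ (1-T))` (`QT_hQ`); `EA_tendsto` twice, `EA_pos`. -/
theorem exc_eq (hda : DA α ζ ρ a) (t : ℝ) (f : ℝ → ℝ) (l : List (ℝ × (ℝ → ℝ))) (hts : Adm ((t, f) :: l)) :
    exc α ζ ((t, f) :: l) =
      EA α ζ t (fun y => f y * IS α ζ l (hQ α ζ (1 - sumt ((t, f) :: l))) y) / EA α ζ t (hQ α ζ (1 - t)) ∧
    Tendsto (fun x => IS α ζ ((t, f) :: l) (hQ α ζ (1 - sumt ((t, f) :: l))) x / hQ α ζ 1 x) (𝓝[>] (0 : ℝ))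
      (𝓝 (exc α ζ ((t, f) :: l))) := by
  obtain ⟨hp, hsum, M, hM, hBL⟩ := hts
  have ht : 0 < t := hp (t, f) List.mem_cons_self
  have hf : BL M f := hBL (t, f) List.mem_cons_self
  obtain ⟨T, hT⟩ : ∃ T : ℝ, T = sumt ((t, f) :: l) := ⟨_, rfl⟩
  have hT1 : T < 1 := by rw [hT]; exact hsum
  have hTt : t ≤ T := by
    rw [hT]
    unfold sumt
    rw [List.map_cons, List.sum_cons]
    have : 0 ≤ (l.map Prod.fst).sum := by
      refine List.sum_nonneg ?_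
      intro r hr
      obtain ⟨q, hq, rfl⟩ := List.mem_map.1 hr
      exact (hp q (List.mem_cons_of_mem _ hq)).le
    show t ≤ t + (l.map Prod.fst).sum
    linarith
  rw [← hT]
  have h1T : 0 < 1 - T := by linarith
  have h1t : 0 < 1 - t := by linarith
  obtain ⟨N, -, hN⟩ := hQ_BCo hda h1T
  obtain ⟨N₁, -, hN₁⟩ := hQ_BCo hda h1t
  obtain ⟨N', hN'⟩ := IS_BCo hda l (M := M) (fun p hpl => ⟨hp p (List.mem_cons_of_mem _ hpl),
    (hBL p (List.mem_cons_of_mem _ hpl)).bco⟩) hN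
  have hG : BCo (M * N') (fun y => f y * IS α ζ l (hQ α ζ (1 - T)) y) := hf.bco.mul hN'
  have hpos : 0 < EA α ζ t (hQ α ζ (1 - t)) := EA_pos hda ht hN₁ (fun y hy => hQ_pos hda h1t hy)
  have hlim : Tendsto (fun x => IS α ζ ((t, f) :: l) (hQ α ζ (1 - T)) x / hQ α ζ 1 x) (𝓝[>] (0 : ℝ))
      (𝓝 (EA α ζ t (fun y => f y * IS α ζ l (hQ α ζ (1 - T)) y) / EA α ζ t (hQ α ζ (1 - t)))) := by
    refine ((EA_tendsto hda ht hG).div (EA_tendsto hda ht hN₁) hpos.ne').congr' ?_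
    filter_upwards [self_mem_nhdsWithin] with x hx
    have hx0 : 0 < x := hx
    have hQO := QO_pos hda ht hx0
    have e1 : QT α ζ t (hQ α ζ (1 - t)) x = hQ α ζ 1 x := by
      rw [QT_hQ hda ht h1t hx0]
      congr 1
      ring
    show QT α ζ t (fun y => f y * IS α ζ l (hQ α ζ (1 - T)) y) x / QO α ζ t x /
      (QT α ζ t (hQ α ζ (1 - t)) x / QO α ζ t x) =
      QT α ζ t (fun y => f y * IS α ζ l (hQ α ζ (1 - T)) y) x / hQ α ζ 1 x
    rw [e1, div_div_div_cancel_right₀ hQO.ne']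
  have hexc : exc α ζ ((t, f) :: l) =
      EA α ζ t (fun y => f y * IS α ζ l (hQ α ζ (1 - T)) y) / EA α ζ t (hQ α ζ (1 - t)) := by
    unfold exc
    rw [← hT]
    exact hlim.limUnder_eq
  exact ⟨hexc, by rw [hexc]; exact hlim⟩

end Pool.Agent.BPT
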