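import Pool.Agent.MP_99a865_pr.FV.E1d
import Pool.Agent.MP_99a865_pr.ST.F0b

/-! **[STB-F1a]** Chains of killed kernels. -/

open MeasureTheory ProbabilityTheory Filter Topology
open scoped ENNReal NNReal

namespace Pool.Agent.BPT

variable {α : ℝ} {ζ ρ : Measure ℝ} {a : ℕ → ℝ} {D : Set ℝ}

theorem F1a_BCo_mono {M N : ℝ} {f : ℝ → ℝ} (hf : BCo M f) (h : M ≤ N) : BCo N f :=
  ⟨fun x hx => (hf.bd x hx).trans h, hf.cont⟩

theorem F1a_split {n : ℕ → ℕ} {t : ℝ} {f : ℝ → ℝ} {ts : List (ℝ × (ℝ → ℝ))} (ls : ℕ → List (ℕ × (ℝ → ℝ)))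
    (hls : ∀ j, Match (n j) (ls j) ((t, f) :: ts)) : ∃ (k : ℕ → ℕ) (l' : ℕ → List (ℕ × (ℝ → ℝ))),
      ∀ j, ls j = (k j, f) :: l' j ∧ |(k j : ℝ) - t * n j| ≤ 2 ∧ Match (n j) (l' j) ts ∧
        tot (ls j) = k j + tot (l' j) := by
  have h : ∀ j, ∃ (k : ℕ) (l' : List (ℕ × (ℝ → ℝ))), ls j = (k, f) :: l' ∧ |(k : ℝ) - t * n j| ≤ 2 ∧
      Match (n j) l' ts ∧ tot (ls j) = k + tot l' := by
    intro j
    have h1 := hls j
    unfold Match at h1
    obtain ⟨q, l', h2, h3, h4⟩ := List.forall₂_cons_right_iff.1 h1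
    obtain ⟨k, f'⟩ := q
    obtain ⟨h5, h6⟩ := h2
    have h5' : f' = f := h5
    subst h5'
    exact ⟨k, l', h4, h6, h3, by rw [h4]; simp [tot]⟩
  choose k l' hkl using h
  exact ⟨k, l', hkl⟩

theorem F1a_Tm {n k : ℕ → ℕ} {t : ℝ} (hn : Tendsto n atTop atTop) (hk : ∀ j, |(k j : ℝ) - t * n j| ≤ 2) :
    Tm n k t := by
  refine ⟨hn, ?_⟩
  have hn' : Tendsto (fun j => (n j : ℝ)) atTop atTop := tendsto_natCast_atTop_atTop.comp hn
  have h0 : Tendsto (fun j => (2 : ℝ) / n j) atTop (𝓝 0) := hn'.const_div_atTop 2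
  rw [tendsto_iff_norm_sub_tendsto_zero]
  refine squeeze_zero' (Eventually.of_forall fun _ => norm_nonneg _) ?_ h0
  filter_upwards [hn'.eventually_gt_atTop 0] with j hj
  rw [Real.norm_eq_abs]
  have h1 : (k j : ℝ) / n j - t = ((k j : ℝ) - t * n j) / n j := by
    field_simp
  rw [h1, abs_div, abs_of_pos hj]
  exact div_le_div_of_nonneg_right (hk j) hj.le

/-- **[STB-F1a]** PROOF. Induction on `ts`. `ls j = (k_j, f) :: l'_j` with `k_j / n_j → t` (`Match`: `|k_j - t n_j| ≤ 2`), `IQ (ls j) (G j) x = ∫ f(y/a) IQ (l'_j) (G j) y ∂(kap k_j x)`; the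
integrand is bounded, measurable and converges (UC, coset `c j - tot l'_j b`) to `f · IS ts' g` (`UC.mul`, `UC.const`, induction hypothesis); `kap_UC`; `tot (ls j) = k_j + tot l'_j`. -/
theorem IQ_UC (hda : DA α ζ ρ a) (hD : Dom D) {b h : ℝ} (hstep : ∀ᵐ x ∂ρ, Cos h b x) (ts : List (ℝ × (ℝ → ℝ)))
    {n : ℕ → ℕ} (hn : Tendsto n atTop atTop) (ls : ℕ → List (ℕ × (ℝ → ℝ))) (hls : ∀ j, Match (n j) (ls j) ts) {M N : ℝ}
    (hts : ∀ p ∈ ts, 0 < p.1 ∧ BL M p.2) {c : ℕ → ℝ} {G : ℕ → ℝ → ℝ} {g : ℝ → ℝ} (hG : MB N G) (hg : BCo N g)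
    (hU : UC h c (fun j => a (n j)) G g) :
    (∃ N' : ℝ, MB N' (fun j => IQ D ρ (a (n j)) (ls j) (G j))) ∧
    UC h (fun j => c j - tot (ls j) * b) (fun j => a (n j)) (fun j => IQ D ρ (a (n j)) (ls j) (G j)) (IS α ζ ts g) := by
  have hprob := hda.prob
  induction ts generalizing ls with
  | nil =>
    have h0 : ∀ j, ls j = [] := by
      intro j
      have h1 := hls j
      unfold Match at h1
      simpa using h1
    have e1 : (fun j => IQ D ρ (a (n j)) (ls j) (G j)) = G := by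
      funext j
      rw [h0 j]
      rfl
    have e2 : (fun j => c j - tot (ls j) * b) = c := by
      funext j
      rw [h0 j]
      simp [tot]
    rw [e1, e2]
    exact ⟨⟨N, hG⟩, hU⟩
  | cons q ts ih =>
    obtain ⟨t, f⟩ := q
    obtain ⟨k, l', hkl⟩ := F1a_split ls hls
    have hts' : ∀ p ∈ ts, 0 < p.1 ∧ BL M p.2 := fun p hp => hts p (List.mem_cons_of_mem _ hp)
    obtain ⟨ht0, hf⟩ := hts (t, f) List.mem_cons_self
    obtain ⟨⟨N', hN'⟩, hU'⟩ := ih l' (fun j => (hkl j).2.2.1) hts'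
    obtain ⟨N'', hN''⟩ := IS_BCo hda ts (fun p hp => ⟨(hts' p hp).1, BL.bco (hts' p hp).2⟩) hg
    have hs : ∀ j, 0 < a (n j) := fun j => hda.pos _
    have hM0 : 0 ≤ M := E1b_BL_nonneg hf
    have hfm : Measurable f := E1b_BL_meas hf
    set F : ℕ → ℝ → ℝ := fun j y => f (y / a (n j)) * IQ D ρ (a (n j)) (l' j) (G j) y with hF
    have hFm : ∀ j, Measurable (F j) := fun j => (hfm.comp (measurable_id.div_const _)).mul (hN' j).1
    have hFb : ∀ j y, |F j y| ≤ M * N' := by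
      intro j y
      rw [hF, abs_mul]
      exact mul_le_mul (hf.bd _) ((hN' j).2 y) (abs_nonneg _) hM0
    have hFU : UC h (fun j => c j - tot (l' j) * b) (fun j => a (n j)) F (fun y => f y * IS α ζ ts g y) :=
      UC.mul (M := max M N'') (UC.const f) hU' (fun j y => (hf.bd _).trans (le_max_left _ _))
        (fun y hy => (hN''.bd y hy).trans (le_max_right _ _)) hs
    have hB := BCo.mul (BL.bco hf) hN''
    have hK := kap_UC hda hD hstep (F1a_Tm hn fun j => (hkl j).2.1) ht0 (M := max (M * N') (M * N''))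
      (fun j => ⟨hFm j, fun y => (hFb j y).trans (le_max_left _ _)⟩) (F1a_BCo_mono hB (le_max_right _ _)) hFU
    have e1 : (fun j => IQ D ρ (a (n j)) (ls j) (G j)) = fun j x => ∫ y, F j y ∂(kap D ρ (k j) x) := by
      funext j
      rw [(hkl j).1]
      rfl
    have e2 : (fun j => c j - tot (ls j) * b) = fun j => c j - tot (l' j) * b - k j * b := by
      funext j
      rw [(hkl j).2.2.2, Nat.cast_add]
      ring
    rw [e1, e2]
    refine ⟨⟨M * N', fun j => ⟨measurable_integral_kap hD (k j) _ (hFm j) _ (hFb j), fun x => ?_⟩⟩, hK⟩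
    have h1 := norm_integral_le_of_norm_le_const (μ := kap D ρ (k j) x) (C := M * N')
      (Filter.Eventually.of_forall fun y => (Real.norm_eq_abs _).trans_le (hFb j y))
    rw [Real.norm_eq_abs] at h1
    refine h1.trans ?_
    have h2 : (kap D ρ (k j) x).real Set.univ ≤ 1 := E1b_mass (k j) x
    have h3 : 0 ≤ M * N' := (abs_nonneg _).trans (hFb j 0)
    nlinarith

end Pool.Agent.BPT
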