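import Pool.Agent.MP_99a865_pr.ST.F1a

/-! **[STB-F1b]** Finite-dimensional distributions given `N = n`, sequences. -/

open MeasureTheory ProbabilityTheory Filter Topology
open scoped ENNReal NNReal

namespace Pool.Agent.BPT

variable {α : ℝ} {ζ ρ : Measure ℝ} {a : ℕ → ℝ} {D : Set ℝ}

theorem F1b_UC_congr {h : ℝ} {c c' s : ℕ → ℝ} {F F' : ℕ → ℝ → ℝ} {f : ℝ → ℝ} (hU : UC h c s F f)
    (H : ∀ᶠ j in atTop, c j = c' j ∧ F j = F' j) : UC h c' s F' f := by
  intro ε hε η hη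
  filter_upwards [hU ε hε η hη, H] with j h1 h2 y hy h3 h4
  rw [← h2.1] at hy
  rw [← h2.2]
  exact h1 y hy h3 h4

theorem F1b_tot {n : ℕ} {l : List (ℕ × (ℝ → ℝ))} {ts : List (ℝ × (ℝ → ℝ))} (h : Match n l ts) :
    |(tot l : ℝ) - sumt ts * n| ≤ 2 * ts.length := by
  unfold Match at h
  induction h with
  | nil => simp [tot, sumt]
  | cons h1 _ ih =>
    rename_i p q l₁ l₂ _
    have h2 := h1.2
    have e : (tot (p :: l₁) : ℝ) - sumt (q :: l₂) * n =
        ((p.1 : ℝ) - q.1 * n) + ((tot l₁ : ℝ) - sumt l₂ * n) := by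
      simp only [tot, sumt, List.map_cons, List.sum_cons, Nat.cast_add]
      ring
    rw [e, List.length_cons]
    push_cast
    refine (abs_add_le _ _).trans ?_
    linarith

theorem F1b_Tm {ts : List (ℝ × (ℝ → ℝ))} (hsum : sumt ts < 1) {n : ℕ → ℕ} (hn : Tendsto n atTop atTop)
    (ls : ℕ → List (ℕ × (ℝ → ℝ))) (hls : ∀ j, Match (n j) (ls j) ts) :
    (∀ᶠ j in atTop, tot (ls j) < n j) ∧ Tm n (fun j => n j - tot (ls j)) (1 - sumt ts) := by
  have hn' : Tendsto (fun j => (n j : ℝ)) atTop atTop := tendsto_natCast_atTop_atTop.comp hn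
  have hs : 0 < 1 - sumt ts := by linarith
  have h1 : ∀ᶠ j in atTop, tot (ls j) < n j := by
    filter_upwards [(hn'.const_mul_atTop hs).eventually_gt_atTop (2 * (ts.length : ℝ))] with j hj
    have h2 := (abs_le.1 (F1b_tot (hls j))).2
    have h3 : (tot (ls j) : ℝ) < n j := by nlinarith
    exact_mod_cast h3
  refine ⟨h1, hn, ?_⟩
  have h0 : Tendsto (fun j => (2 * (ts.length : ℝ)) / n j) atTop (𝓝 0) := hn'.const_div_atTop _
  rw [tendsto_iff_norm_sub_tendsto_zero]
  refine squeeze_zero' (Eventually.of_forall fun _ => norm_nonneg _) ?_ h0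
  filter_upwards [hn'.eventually_gt_atTop 0, h1] with j hj hlt
  rw [Real.norm_eq_abs, Nat.cast_sub hlt.le]
  have h2 : ((n j : ℝ) - tot (ls j)) / n j - (1 - sumt ts) = -(((tot (ls j) : ℝ) - sumt ts * n j) / n j) := by
    field_simp
    ring
  rw [h2, abs_neg, abs_div, abs_of_pos hj]
  exact div_le_div_of_nonneg_right (F1b_tot (hls j)) hj.le

theorem F1b_smul (s : ℝ) (l : List (ℕ × (ℝ → ℝ))) (r : ℝ) (G : ℝ → ℝ) (x : ℝ) :
    IQ D ρ s l (fun z => r * G z) x = r * IQ D ρ s l G x := by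
  induction l generalizing x with
  | nil => rfl
  | cons q l ih =>
    obtain ⟨k, f⟩ := q
    show ∫ y, f (y / s) * IQ D ρ s l (fun z => r * G z) y ∂(kap D ρ k x) =
      r * ∫ y, f (y / s) * IQ D ρ s l G y ∂(kap D ρ k x)
    simp only [ih]
    rw [← integral_const_mul]
    congr 1
    funext y
    ring

/-- first increment -/
def F1b_k (l : List (ℕ × (ℝ → ℝ))) : ℕ := (l.map Prod.fst).headD 0

theorem F1b_core (hda : DA α ζ ρ a) (hD : Dom D) {b h : ℝ} (hstep : ∀ᵐ x ∂ρ, Cos h b x) {t : ℝ} {f : ℝ → ℝ}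
    {ts : List (ℝ × (ℝ → ℝ))} {n : ℕ → ℕ} (hn : Tendsto n atTop atTop) (ls : ℕ → List (ℕ × (ℝ → ℝ)))
    (hls : ∀ j, Match (n j) (ls j) ((t, f) :: ts)) {M N : ℝ} (hts : ∀ p ∈ (t, f) :: ts, 0 < p.1 ∧ BL M p.2)
    {G : ℕ → ℝ → ℝ} {g : ℝ → ℝ} (hG : MB N G) (hg : BCo N g)
    (hU : UC h (fun j => tot (ls j) * b) (fun j => a (n j)) G g) :
    Tendsto (fun j => IQ D ρ (a (n j)) (ls j) (G j) 0 / al D ρ (F1b_k (ls j)) 0) atTop
      (𝓝 (EA α ζ t fun y => f y * IS α ζ ts g y)) := by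
  have hprob := hda.prob
  obtain ⟨k, l', hkl⟩ := F1a_split ls hls
  have hts' : ∀ p ∈ ts, 0 < p.1 ∧ BL M p.2 := fun p hp => hts p (List.mem_cons_of_mem _ hp)
  obtain ⟨ht0, hf⟩ := hts (t, f) List.mem_cons_self
  obtain ⟨⟨N', hN'⟩, hU'⟩ := IQ_UC hda hD hstep ts hn l' (fun j => (hkl j).2.2.1) hts' hG hg hU
  obtain ⟨N'', hN''⟩ := IS_BCo hda ts (fun p hp => ⟨(hts' p hp).1, BL.bco (hts' p hp).2⟩) hg
  have hs : ∀ j, 0 < a (n j) := fun j => hda.pos _
  have hM0 : 0 ≤ M := E1b_BL_nonneg hf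
  have hfm : Measurable f := E1b_BL_meas hf
  set F : ℕ → ℝ → ℝ := fun j y => f (y / a (n j)) * IQ D ρ (a (n j)) (l' j) (G j) y with hF
  have hFm : ∀ j, Measurable (F j) := fun j => (hfm.comp (measurable_id.div_const _)).mul (hN' j).1
  have hFb : ∀ j y, |F j y| ≤ M * N' := by
    intro j y
    rw [hF, abs_mul]
    exact mul_le_mul (hf.bd _) ((hN' j).2 y) (abs_nonneg _) hM0
  have hFU : UC h (fun j => tot (ls j) * b - tot (l' j) * b) (fun j => a (n j)) F
      (fun y => f y * IS α ζ ts g y) :=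
    UC.mul (M := max M N'') (UC.const f) hU' (fun j y => (hf.bd _).trans (le_max_left _ _))
      (fun y hy => (hN''.bd y hy).trans (le_max_right _ _)) hs
  have hB := BCo.mul (BL.bco hf) hN''
  have hK := entrance hda hD hstep (F1a_Tm hn fun j => (hkl j).2.1) ht0 (M := max (M * N') (M * N''))
    (fun j => ⟨hFm j, fun y => (hFb j y).trans (le_max_left _ _)⟩) (F1a_BCo_mono hB (le_max_right _ _)) hFU
    (xs := fun _ => 0) (fun _ => le_rfl) (fun j _ => ⟨0, by
      rw [(hkl j).2.2.2, Nat.cast_add]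
      push_cast
      ring⟩) (by simp)
  have e1 : (fun j => IQ D ρ (a (n j)) (ls j) (G j) 0 / al D ρ (F1b_k (ls j)) 0) =
      fun j => (∫ y, F j y ∂(kap D ρ (k j) 0)) / al D ρ (k j) 0 := by
    funext j
    rw [(hkl j).1]
    rfl
  rw [e1]
  exact hK

theorem F1b_map (l : List (ℕ × (ℝ → ℝ))) :
    F1b_k (l.map fun p : ℕ × (ℝ → ℝ) => (p.1, fun _ : ℝ => (1 : ℝ))) = F1b_k l := by
  simp [F1b_k, Function.comp_def]

theorem F1b_sumt_nonneg {ts : List (ℝ × (ℝ → ℝ))} (h : ∀ p ∈ ts, 0 < p.1) : 0 ≤ sumt ts :=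
  E1b_sum_nonneg ts h

/-- **[STB-F1b]** PROOF. Sequence form. `ts = (t, f) :: ts'`, `ls j = (k_j, f) :: l'_j`, `m_j = n_j - tot (ls j)`, `m_j/n_j → s = 1 - sumt ts ∈ (0,1)`; `κ` from `hit_UC` for `(n, m)`; `G j z = n_j hit D ρ (m_j) z / κ j`, for `j`
large bounded by some `N` (`DA.hit_le`, `κ ≥ c`; for the other `j` replace `G j` by `0`, which changes nothing in the limit). `(n - m) b = tot (ls j) b`. By `IQ_UC` for `ts'` and `UC.mul`:
`F j y = f(y/a) IQ l'_j (G j) y` converges (UC, coset `tot (ls j) b - tot l'_j b = k_j b`) to `f · IS ts' (hQ s)`, so by `entrance` with `x_j = 0`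
(`Cos h (k_j b - k_j b) 0`): `IQ (ls j) (G j) 0 / al k_j 0 → EA t (f · IS ts' (hQ s))`. With all functions replaced by `1`: `E1d_IQ_one`: `n_j hit n_j 0/(κ_j al k_j 0) → EA t (IS 1 (hQ s)) = EA t (hQ (1 - t)) > 0`
(`IS_one`, `EA_pos`, `hQ_pos`). Divide; `exc_eq`. -/
theorem F1_seq (hda : DA α ζ ρ a) (hD : Dom D) (ts : List (ℝ × (ℝ → ℝ))) (hts : Adm ts) (hne : ts ≠ [])
    {n : ℕ → ℕ} (hn : Tendsto n atTop atTop) (hhit : ∀ j, 0 < hit D ρ (n j) 0) (ls : ℕ → List (ℕ × (ℝ → ℝ)))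
    (hls : ∀ j, Match (n j) (ls j) ts) :
    Tendsto (fun j => IQ D ρ (a (n j)) (ls j) (hit D ρ (n j - tot (ls j))) 0 / hit D ρ (n j) 0) atTop (𝓝 (exc α ζ ts)) ∧
    ∃ c > (0 : ℝ), ∀ᶠ j in atTop, c / (n j * vr D ρ (a (n j))) ≤ hit D ρ (n j) 0 := by
  classical
  have hprob := hda.prob
  match ts, hts, hne, hls with
  | [], _, hne, _ => exact absurd rfl hne
  | (t, f) :: ts, hts, _, hls =>
    obtain ⟨b, h, hL⟩ := hda.exists_lat
    obtain ⟨hpos, hsum, M, hM, hBL⟩ := id hts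
    have ht0 : 0 < t := hpos (t, f) List.mem_cons_self
    have hsum' : sumt ((t, f) :: ts) < 1 := hsum
    have htss : 0 ≤ sumt ts := F1b_sumt_nonneg fun p hp => hpos p (List.mem_cons_of_mem _ hp)
    have hst : sumt ((t, f) :: ts) = t + sumt ts := by simp [sumt]
    set s : ℝ := 1 - sumt ((t, f) :: ts) with hs
    have hs0 : 0 < s := by linarith
    have hs1 : s ≤ 1 := by linarith
    obtain ⟨hlt, hTm⟩ := F1b_Tm hsum' hn ls hls
    obtain ⟨κ, ⟨c₁, hc₁, C₁, hκ⟩, hU⟩ := hit_UC hda hD hL hs0 hs1 hTm hhit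
    obtain ⟨C, hC, hhle⟩ := hda.hit_le hD (c := s / 2) (by positivity)
    have hn' : Tendsto (fun j => (n j : ℝ)) atTop atTop := tendsto_natCast_atTop_atTop.comp hn
    have hge : ∀ᶠ j in atTop, s / 2 * (n j : ℝ) ≤ ((n j - tot (ls j) : ℕ) : ℝ) := by
      filter_upwards [hTm.lim.eventually_const_lt (show s / 2 < s by linarith), hn'.eventually_gt_atTop 0]
        with j h1 h2
      rw [lt_div_iff₀ h2] at h1
      exact h1.le
    -- the good indices
    set P : ℕ → Prop := fun j => 1 ≤ n j ∧ tot (ls j) < n j ∧ c₁ ≤ κ j ∧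
      ∀ x, hit D ρ (n j - tot (ls j)) x ≤ C / n j with hP
    have hPe : ∀ᶠ j in atTop, P j := by
      filter_upwards [hn.eventually_ge_atTop 1, hlt, hκ, hn.eventually hhle, hge] with j h1 h2 h3 h4 h5
      exact ⟨h1, h2, h3.1, (h4 _ h5).1⟩
    set G : ℕ → ℝ → ℝ := fun j z => if P j then (n j / κ j) * hit D ρ (n j - tot (ls j)) z else 0 with hG
    have hGP : ∀ j, P j → G j = fun z => (n j / κ j) * hit D ρ (n j - tot (ls j)) z := by
      intro j hj
      funext z
      rw [hG]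
      simp only [if_pos hj]
    have hGm : ∀ j, Measurable (G j) := by
      intro j
      by_cases hj : P j
      · rw [hGP j hj]
        exact (measurable_hit hD _).const_mul _
      · have : G j = fun _ => 0 := by
          funext z
          rw [hG]
          simp only [if_neg hj]
        rw [this]
        exact measurable_const
    have hGb : ∀ j z, |G j z| ≤ C / c₁ := by
      intro j z
      by_cases hj : P j
      · rw [hGP j hj]
        obtain ⟨h1, -, h3, h4⟩ := hj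
        have hnj : (0 : ℝ) < n j := by exact_mod_cast h1
        have hκj : 0 < κ j := hc₁.trans_le h3
        have h5 := hit_nonneg (D := D) (ρ := ρ) (n j - tot (ls j)) z
        have h6 : 0 ≤ (n j : ℝ) / κ j * hit D ρ (n j - tot (ls j)) z := by positivity
        rw [abs_of_nonneg h6]
        calc (n j : ℝ) / κ j * hit D ρ (n j - tot (ls j)) z ≤ (n j : ℝ) / κ j * (C / n j) :=
              mul_le_mul_of_nonneg_left (h4 z) (by positivity)
          _ = C / κ j := by field_simp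
          _ ≤ C / c₁ := div_le_div_of_nonneg_left hC.le hc₁ h3
      · rw [hG]
        simp only [if_neg hj]
        rw [abs_zero]
        positivity
    obtain ⟨M₁, -, hM₁⟩ := hQ_BCo hda hs0
    have hGMB : MB (max (C / c₁) M₁) G := fun j => ⟨hGm j, fun y => (hGb j y).trans (le_max_left _ _)⟩
    have hgB : BCo (max (C / c₁) M₁) (hQ α ζ s) := F1a_BCo_mono hM₁ (le_max_right _ _)
    have hUG : UC h (fun j => tot (ls j) * b) (fun j => a (n j)) G (hQ α ζ s) := by
      refine F1b_UC_congr hU ?_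
      filter_upwards [hPe] with j hj
      refine ⟨?_, ?_⟩
      · rw [Nat.cast_sub hj.2.1.le]
        ring
      · rw [hGP j hj]
        funext z
        ring
    -- the two limits
    have hA := F1b_core hda hD hL.step hn ls hls (fun p hp => ⟨hpos p hp, hBL p hp⟩) hGMB hgB hUG
    have hls1 : ∀ j, Match (n j) ((ls j).map fun p : ℕ × (ℝ → ℝ) => (p.1, fun _ : ℝ => (1 : ℝ)))
        ((t, fun _ : ℝ => (1 : ℝ)) :: ts.map fun p : ℝ × (ℝ → ℝ) => (p.1, fun _ : ℝ => (1 : ℝ))) :=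
      fun j => E1d_match_map (hls j)
    have hU1 : UC h (fun j => tot ((ls j).map fun p : ℕ × (ℝ → ℝ) => (p.1, fun _ : ℝ => (1 : ℝ))) * b) (fun j => a (n j)) G
        (hQ α ζ s) := by
      simp only [E1d_tot_map]
      exact hUG
    have hone : BL (1 : ℝ) (fun _ : ℝ => (1 : ℝ)) := ⟨fun x => by simp, fun x y => by simp⟩
    have hts1 : ∀ p ∈ ts.map (fun p : ℝ × (ℝ → ℝ) => (p.1, fun _ : ℝ => (1 : ℝ))), 0 < p.1 ∧ p.2 = fun _ => (1 : ℝ) := by
      intro p hp
      obtain ⟨q, hq, rfl⟩ := List.mem_map.1 hp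
      exact ⟨hpos q (List.mem_cons_of_mem _ hq), rfl⟩
    have hB := F1b_core hda hD hL.step (M := 1) hn (fun j => (ls j).map fun p : ℕ × (ℝ → ℝ) => (p.1, fun _ : ℝ => (1 : ℝ))) hls1
      (fun p hp => by
        rcases List.mem_cons.1 hp with rfl | hp
        · exact ⟨ht0, hone⟩
        · have h1 := hts1 p hp
          refine ⟨h1.1, ?_⟩
          rw [h1.2]
          exact hone) hGMB hgB hU1
    simp only [F1b_map] at hB
    have ht1 : 0 < 1 - t := by linarith
    obtain ⟨M₂, -, hM₂⟩ := hQ_BCo hda ht1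
    have hsm : sumt (ts.map fun p : ℝ × (ℝ → ℝ) => (p.1, fun _ : ℝ => (1 : ℝ))) = sumt ts := by
      simp [sumt, Function.comp_def]
    have hIS : ∀ y, 0 < y → (1 : ℝ) * IS α ζ (ts.map fun p : ℝ × (ℝ → ℝ) => (p.1, fun _ : ℝ => (1 : ℝ))) (hQ α ζ s) y = hQ α ζ (1 - t) y := by
      intro y hy
      rw [one_mul, IS_one hda _ hts1 hs0 hy, hsm]
      congr 1
      rw [hs, hst]
      ring
    obtain ⟨N₃, hN₃⟩ := IS_BCo hda (ts.map fun p : ℝ × (ℝ → ℝ) => (p.1, fun _ : ℝ => (1 : ℝ))) (M := 1) (fun p hp => by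
      have h1 := hts1 p hp
      refine ⟨h1.1, ?_⟩
      rw [h1.2]
      exact BL.bco hone) hM₁
    have hEB : EA α ζ t (fun y => (1 : ℝ) * IS α ζ (ts.map fun p : ℝ × (ℝ → ℝ) => (p.1, fun _ : ℝ => (1 : ℝ))) (hQ α ζ s) y) =
        EA α ζ t (hQ α ζ (1 - t)) :=
      le_antisymm (EA_mono hda ht0 (BCo.mul (BL.bco hone) hN₃) hM₂ fun y hy => (hIS y hy).le)
        (EA_mono hda ht0 hM₂ (BCo.mul (BL.bco hone) hN₃) fun y hy => (hIS y hy).ge)
    rw [hEB] at hB
    have hBpos : 0 < EA α ζ t (hQ α ζ (1 - t)) := EA_pos hda ht0 hM₂ fun y hy => hQ_pos hda ht1 hy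
    -- the values of the second sequence
    have hval : ∀ j, P j → IQ D ρ (a (n j)) ((ls j).map fun p : ℕ × (ℝ → ℝ) => (p.1, fun _ : ℝ => (1 : ℝ))) (G j) 0 =
        (n j / κ j) * hit D ρ (n j) 0 := by
      intro j hj
      rw [hGP j hj, F1b_smul]
      congr 1
      have h1 := E1d_IQ_one hD (ρ := ρ) (a (n j)) ((ls j).map fun p : ℕ × (ℝ → ℝ) => (p.1, fun _ : ℝ => (1 : ℝ))) (by
        intro p hp
        obtain ⟨q, hq, rfl⟩ := List.mem_map.1 hp
        rfl) (n j) (by rw [E1d_tot_map]; exact hj.2.1) 0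
      rw [E1d_tot_map] at h1
      exact h1
    have hBev : ∀ᶠ j in atTop, EA α ζ t (hQ α ζ (1 - t)) / 2 <
        IQ D ρ (a (n j)) ((ls j).map fun p : ℕ × (ℝ → ℝ) => (p.1, fun _ : ℝ => (1 : ℝ))) (G j) 0 / al D ρ (F1b_k (ls j)) 0 :=
      hB.eventually_const_lt (by linarith)
    constructor
    · have h1 := hA.div hB hBpos.ne'
      rw [← (exc_eq hda t f ts hts).1] at h1
      refine h1.congr' ?_
      filter_upwards [hPe, hBev] with j hj hBj
      have hal : al D ρ (F1b_k (ls j)) 0 ≠ 0 := by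
        intro h0
        rw [h0, div_zero] at hBj
        linarith
      have hnj : (0 : ℝ) < n j := by exact_mod_cast hj.1
      have hκj : 0 < κ j := hc₁.trans_le hj.2.2.1
      have hhj := hhit j
      rw [Pi.div_apply, hval j hj, hGP j hj, F1b_smul]
      field_simp
    · obtain ⟨k, l', hkl⟩ := F1a_split ls hls
      have hkk : ∀ j, F1b_k (ls j) = k j := by
        intro j
        rw [(hkl j).1]
        rfl
      have hTk := F1a_Tm hn fun j => (hkl j).2.1
      have hktop : Tendsto k atTop atTop := by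
        have h1 : Tendsto (fun j => (k j : ℝ)) atTop atTop := by
          refine tendsto_atTop_mono' _ ?_ (hn'.const_mul_atTop (show 0 < t / 2 by positivity))
          filter_upwards [hTk.lim.eventually_const_lt (show t / 2 < t by linarith), hn'.eventually_gt_atTop 0]
            with j h2 h3
          rw [lt_div_iff₀ h3] at h2
          exact h2.le
        exact tendsto_natCast_atTop_iff.1 h1
      obtain ⟨c₂, hc₂, hle⟩ := hda.le_al hD
      have hratio := hda.ratio hTk ht0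
      have hα : 0 < 1 / α := by
        have := hda.one
        positivity
      have ht1' : t ^ (1 / α) < 1 := Real.rpow_lt_one ht0.le (by linarith) hα
      obtain ⟨-, hv1, hvm⟩ := vr_facts hD hda.cen
      refine ⟨EA α ζ t (hQ α ζ (1 - t)) / 2 * c₁ * c₂, by positivity, ?_⟩
      filter_upwards [hPe, hBev, hktop.eventually hle, hratio.eventually_lt_const ht1'] with j hj hBj h3 h4
      have hnj : (0 : ℝ) < n j := by exact_mod_cast hj.1
      have hκj : 0 < κ j := hc₁.trans_le hj.2.2.1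
      have hkn : a (k j) ≤ a (n j) := by
        rw [div_lt_one (hda.pos _)] at h4
        exact h4.le
      have h5 := h3 0 le_rfl (hda.pos _).le
      have hvn : 0 < vr D ρ (a (n j)) := lt_of_lt_of_le one_pos (hv1 _)
      have hvk : 0 < vr D ρ (a (k j)) := lt_of_lt_of_le one_pos (hv1 _)
      have h6 : c₂ / vr D ρ (a (n j)) ≤ al D ρ (k j) 0 := by
        refine le_trans ?_ h5
        rw [div_eq_mul_one_div]
        refine mul_le_mul_of_nonneg_left ?_ hc₂.le
        exact div_le_div₀ (by linarith [hv1 0]) (hv1 0) hvk (hvm hkn)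
      have hal : 0 < al D ρ (k j) 0 := lt_of_lt_of_le (by positivity) h6
      rw [hval j hj, hkk, lt_div_iff₀ hal] at hBj
      have h7 : EA α ζ t (hQ α ζ (1 - t)) / 2 * (c₂ / vr D ρ (a (n j))) ≤ n j / κ j * hit D ρ (n j) 0 :=
        (mul_le_mul_of_nonneg_left h6 (by positivity)).trans hBj.le
      have h8 : (n j : ℝ) / κ j * hit D ρ (n j) 0 ≤ n j / c₁ * hit D ρ (n j) 0 :=
        mul_le_mul_of_nonneg_right (div_le_div_of_nonneg_left hnj.le hc₁ hj.2.2.1) (hhit j).le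
      have h9 := h7.trans h8
      rw [div_le_iff₀ (by positivity)]
      calc EA α ζ t (hQ α ζ (1 - t)) / 2 * c₁ * c₂
          = (EA α ζ t (hQ α ζ (1 - t)) / 2 * (c₂ / vr D ρ (a (n j)))) * (c₁ * vr D ρ (a (n j))) := by
            field_simp
        _ ≤ (n j / c₁ * hit D ρ (n j) 0) * (c₁ * vr D ρ (a (n j))) :=
            mul_le_mul_of_nonneg_right h9 (by positivity)
        _ = hit D ρ (n j) 0 * (n j * vr D ρ (a (n j))) := by
            field_simp

end Pool.Agent.BPT
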