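import Pool.Agent.MP_99a865_pr.ST.F1b

/-! **[STB-F1c]** Finite-dimensional distributions given `N = n`. -/

open MeasureTheory ProbabilityTheory Filter Topology
open scoped ENNReal NNReal

namespace Pool.Agent.BPT

variable {α : ℝ} {ζ ρ : Measure ℝ} {a : ℕ → ℝ} {D : Set ℝ}

/-- **[STB-F1]** (from `F1_seq` by contradiction) -/
theorem fddS (hda : DA α ζ ρ a) (hD : Dom D) (ts : List (ℝ × (ℝ → ℝ))) (hts : Adm ts) (hne : ts ≠ []) :
    ∀ ε > (0 : ℝ), ∃ n₀ : ℕ, ∀ n ≥ n₀, 0 < hit D ρ n 0 → ∀ l, Match n l ts →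
      |IQ D ρ (a n) l (hit D ρ (n - tot l)) 0 / hit D ρ n 0 - exc α ζ ts| ≤ ε := by
  intro ε hε
  by_contra hcon
  push Not at hcon
  choose n hn hhit l hl hlt using hcon
  have htop : Tendsto n atTop atTop := tendsto_atTop_mono hn tendsto_id
  have key := (F1_seq hda hD ts hts hne htop hhit l hl).1
  have h1 := key.eventually (Metric.ball_mem_nhds _ hε)
  obtain ⟨j, hj⟩ := h1.exists
  rw [Real.dist_eq] at hj
  exact absurd hj (not_lt.2 (hlt j).le)

/-- **[STB-F1c]** lower bound for `P(N = n)` (`F1_seq` with `ts = [(1/2, 1)]`, by contradiction) -/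
theorem le_hitS (hda : DA α ζ ρ a) (hD : Dom D) : ∃ c > (0 : ℝ), ∃ n₀ : ℕ, ∀ n ≥ n₀, 0 < hit D ρ n 0 →
    c / (n * vr D ρ (a n)) ≤ hit D ρ n 0 := by
  by_contra hcon
  push Not at hcon
  have h1 : ∀ j : ℕ, ∃ n : ℕ, j + 1 ≤ n ∧ 0 < hit D ρ n 0 ∧
      hit D ρ n 0 < (1 / ((j : ℝ) + 1)) / (n * vr D ρ (a n)) := by
    intro j
    obtain ⟨n, hn, h2, h3⟩ := hcon (1 / ((j : ℝ) + 1)) (by positivity) (j + 1)
    exact ⟨n, hn, h2, h3⟩
  choose n hn hhit hlt using h1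
  have htop : Tendsto n atTop atTop :=
    tendsto_atTop_mono (fun j => (Nat.le_succ j).trans (hn j)) tendsto_id
  have hBL : BL 1 (fun _ : ℝ => (1 : ℝ)) := by
    refine ⟨fun x => by rw [abs_one], fun x y => ?_⟩
    rw [sub_self, abs_zero, one_mul]
    exact abs_nonneg _
  have hAdm : Adm [((1 / 2 : ℝ), fun _ : ℝ => (1 : ℝ))] := by
    refine ⟨?_, ?_, 1, one_pos, ?_⟩
    · intro p hp
      rw [List.mem_singleton] at hp
      rw [hp]
      norm_num
    · simp only [List.map_cons, List.map_nil, List.sum_cons, List.sum_nil]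
      norm_num
    · intro p hp
      rw [List.mem_singleton] at hp
      rw [hp]
      exact hBL
  have hMatch : ∀ j, Match (n j) [((n j) / 2, fun _ : ℝ => (1 : ℝ))] [((1 / 2 : ℝ), fun _ : ℝ => (1 : ℝ))] := by
    intro j
    refine List.Forall₂.cons ⟨rfl, ?_⟩ List.Forall₂.nil
    show |(((n j) / 2 : ℕ) : ℝ) - 1 / 2 * (n j : ℝ)| ≤ 2
    have h2 : (2 * ((n j) / 2) + (n j) % 2 : ℕ) = n j := Nat.div_add_mod _ _
    have h3 : (n j) % 2 < 2 := Nat.mod_lt _ (by norm_num)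
    have h4 : (2 * (((n j) / 2 : ℕ) : ℝ) + (((n j) % 2 : ℕ) : ℝ)) = (n j : ℝ) := by exact_mod_cast h2
    have h5 : (((n j) % 2 : ℕ) : ℝ) < 2 := by exact_mod_cast h3
    have h6 : 0 ≤ (((n j) % 2 : ℕ) : ℝ) := Nat.cast_nonneg _
    rw [abs_le]
    constructor <;> linarith
  obtain ⟨c, hc, hev⟩ := (F1_seq hda hD _ hAdm (by simp) htop hhit _ hMatch).2
  have h2 : ∀ᶠ j : ℕ in atTop, 1 / ((j : ℝ) + 1) < c :=
    tendsto_one_div_add_atTop_nhds_zero_nat.eventually (gt_mem_nhds hc)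
  obtain ⟨j, h3, h4⟩ := (hev.and h2).exists
  have h5 : 0 < (n j : ℝ) * vr D ρ (a (n j)) := by
    have h6 : (1 : ℝ) ≤ n j := by exact_mod_cast (Nat.le_add_left 1 j).trans (hn j)
    have h7 := (vr_facts hD hda.cen).2.1 (a (n j))
    positivity
  have h6 := hlt j
  have h7 : (1 / ((j : ℝ) + 1)) / (n j * vr D ρ (a (n j))) < c / (n j * vr D ρ (a (n j))) :=
    div_lt_div_of_pos_right h4 h5
  linarith

end Pool.Agent.BPT
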