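import Pool.Agent.MP_99a865_pr.FV.F11a
import Pool.Agent.MP_99a865_pr.CV.Z1
import Pool.Agent.MP_99a865_pr.CV.Q1
import Pool.Agent.MP_99a865_pr.ST.F1c

/-! **[STB-F2]** Finite-dimensional distributions of the queue given `N = n`. -/

open MeasureTheory ProbabilityTheory Filter Topology
open scoped ENNReal NNReal

namespace Pool.Agent.BPT

variable {α : ℝ} {ζ ρ μ ν : Measure ℝ} {a : ℕ → ℝ} {D : Set ℝ}

/-- `P(N = n)` (as `PQ_EvN` in FV, without variances, `σ = 1`) -/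
theorem PQ_EvN_one (hD : Dom D) (hQ : QI μ ν) (n : ℕ) : (PQ μ ν).real (EvN D n) = hit D (stepLaw μ ν 1) n 0 := by
  have := hQ.probμ
  have := hQ.probν
  exact PQ_EvN_gen hD n

/-- transfer to the walk -/
theorem F2_transfer (hD : Dom D) (hQ : QI μ ν) (n : ℕ) (hn : 1 ≤ n) (F : (ℕ → ℝ) → ℝ)
    (hF : Measurable F) : ∫ ω in EvN D n, F (steps 1 ω) ∂(PQ μ ν) =
      ∫ ω in {ω | ((0 : ℝ), ω) ∈ F11a_E D n}, F ω ∂(seqLaw (stepLaw μ ν 1)) := by
  have := hQ.probμ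
  have := hQ.probν
  have hE : MeasurableSet {ω : ℕ → ℝ | ((0 : ℝ), ω) ∈ F11a_E D n} :=
    measurable_prodMk_left (F11a_meas_E hD n)
  have h1 : EvN D n = steps 1 ⁻¹' {ω : ℕ → ℝ | ((0 : ℝ), ω) ∈ F11a_E D n} := by
    ext ω
    have a1 := aliveQ_iff hD (σ := 1) one_pos (n - 1) ω
    have a2 := Zw_mem hD (σ := 1) one_pos n ω
    rw [nz_eq] at a2
    simp only [EvN, F11a_E, Set.mem_ofPred_eq, Set.mem_preimage, zero_add, a1, a2, hn, true_and]
  rw [← map_steps_gen, h1, setIntegral_map hE hF.aestronglyMeasurable measurable_steps.aemeasurable]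

/-- the integer times -/
noncomputable def F2_g (τ : ℕ → ℝ) (K n j : ℕ) : ℕ := ⌊τ (min j (K - 1)) * n⌋₊

theorem F2_mono {K : ℕ} {τ : ℕ → ℝ} (hτ : ∀ i j, i < j → j < K → τ i < τ j) (hK : 1 ≤ K) (n : ℕ) :
    Monotone (F2_g τ K n) := by
  intro i j hij
  unfold F2_g
  refine Nat.floor_mono (mul_le_mul_of_nonneg_right ?_ (Nat.cast_nonneg n))
  rcases Nat.lt_or_ge (min i (K - 1)) (min j (K - 1)) with h | h
  · exact (hτ _ _ h (by omega)).le
  · rw [show min i (K - 1) = min j (K - 1) by omega]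

theorem F2_eq {K : ℕ} {τ : ℕ → ℝ} {n j : ℕ} (hj : j < K) : F2_g τ K n j = ⌊τ j * n⌋₊ := by
  unfold F2_g
  rw [show min j (K - 1) = j by omega]

theorem F2_pos {K : ℕ} {τ : ℕ → ℝ} (h0 : 0 < τ 0) (hτ : ∀ i j, i < j → j < K → τ i < τ j) {j : ℕ} (hj : j < K) :
    0 < τ j := by
  rcases Nat.eq_zero_or_pos j with rfl | h
  · exact h0
  · exact h0.trans (hτ 0 j h hj)

theorem F2_tts {K : ℕ} (hK : 1 ≤ K) (τ : ℕ → ℝ) (f : ℕ → ℝ → ℝ) :
    tts τ f K = (τ 0, f 0) :: (List.range (K - 1)).map fun j => (τ (j + 1) - τ j, f (j + 1)) := by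
  obtain ⟨k, rfl⟩ : ∃ k, K = k + 1 := ⟨K - 1, by omega⟩
  unfold tts
  rw [List.range_succ_eq_map, List.map_cons, List.map_map]
  simp [Function.comp_def]

theorem F2_match {K : ℕ} (hK : 1 ≤ K) {τ : ℕ → ℝ} (h0 : 0 < τ 0) (hτ : ∀ i j, i < j → j < K → τ i < τ j)
    (f : ℕ → ℝ → ℝ) (n : ℕ) :
    Match n ((F2_g τ K n 0, f 0) :: F11a_L (F2_g τ K n) f 0 (K - 1)) (tts τ f K) := by
  have hn0 : (0 : ℝ) ≤ n := Nat.cast_nonneg n
  have hfl : ∀ j : ℕ, j < K → |(F2_g τ K n j : ℝ) - τ j * n| ≤ 1 := by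
    intro j hj
    rw [F2_eq hj]
    have h1 : (0 : ℝ) ≤ τ j * n := mul_nonneg (F2_pos h0 hτ hj).le hn0
    have h2 := Nat.floor_le h1
    have h3 := Nat.lt_floor_add_one (τ j * n)
    rw [abs_le]
    constructor <;> linarith
  rw [F2_tts hK]
  refine List.Forall₂.cons ⟨rfl, ?_⟩ ?_
  · have := hfl 0 (by omega)
    simp only
    linarith
  · unfold F11a_L
    rw [List.forall₂_map_left_iff, List.forall₂_map_right_iff, List.forall₂_same]
    intro j hj
    have hj' : j < K - 1 := List.mem_range.1 hj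
    refine ⟨by simp, ?_⟩
    simp only [zero_add]
    have h1 := hfl j (by omega)
    have h2 := hfl (j + 1) (by omega)
    have h3 := F2_mono hτ hK n (Nat.le_succ j)
    rw [Nat.cast_sub h3]
    push_cast at h2 ⊢
    rw [abs_le] at *
    constructor <;> nlinarith [h1.1, h1.2, h2.1, h2.2]

theorem F2_sum {K : ℕ} (hK : 1 ≤ K) (τ : ℕ → ℝ) (f : ℕ → ℝ → ℝ) :
    ((tts τ f K).map Prod.fst).sum = τ (K - 1) := by
  rw [F2_tts hK, List.map_cons, List.sum_cons, List.map_map]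
  have h : ∀ r : ℕ, τ 0 + ((List.range r).map (Prod.fst ∘ fun j : ℕ => (τ (j + 1) - τ j, f (j + 1)))).sum = τ r := by
    intro r
    induction r with
    | zero => simp
    | succ r ih =>
      rw [List.range_succ, List.map_append, List.sum_append, ← add_assoc, ih]
      simp
  exact h (K - 1)

theorem F2_adm {K : ℕ} (hK : 1 ≤ K) {τ : ℕ → ℝ} (h0 : 0 < τ 0) (hτ : ∀ i j, i < j → j < K → τ i < τ j)
    (h1 : τ (K - 1) < 1) {M : ℝ} (hM : 0 < M) (f : ℕ → ℝ → ℝ) (hf : ∀ j, BL M (f j)) : Adm (tts τ f K) := by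
  refine ⟨?_, by rw [F2_sum hK]; exact h1, M, hM, ?_⟩
  · intro p hp
    rw [F2_tts hK] at hp
    rcases List.mem_cons.1 hp with rfl | hp
    · exact h0
    · obtain ⟨j, hj, rfl⟩ := List.mem_map.1 hp
      have hj' : j < K - 1 := List.mem_range.1 hj
      have := hτ j (j + 1) (by omega) (by omega)
      simp only
      linarith
  · intro p hp
    rw [F2_tts hK] at hp
    rcases List.mem_cons.1 hp with rfl | hp
    · exact hf 0
    · obtain ⟨j, _, rfl⟩ := List.mem_map.1 hp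
      exact hf (j + 1)

/-- **[STB-F2]** PROOF. As `grid_product` (FV/F11a), with the times `g j = ⌊τ j n⌋` instead of the grid (strictly increasing and positive times; for `n` large
`g` is monotone with `g (K-1) < n`), `σ = 1`, `√n` replaced by `a n`, `fdd` by `fddS`: `F11a_IQ` (general `ρ`), the transfer to `seqLaw (stepLaw μ ν 1)` (redo `F11a_transfer` for `QI`,
see `transferP0` and the variance-free versions in CV), `Match n ((g 0, f 0) :: F11a_L g f 0 (K-1)) (tts τ f K)` (`|g (j+1) - g j - (τ (j+1) - τ j) n| ≤ 2`), `Adm (tts τ f K)`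
(total `τ (K-1) < 1`). (`nz 1 = Zw`.) -/
theorem fddQ (hD : Dom D) (hQ : QI μ ν) (hda : DA α ζ (stepLaw μ ν 1) a) (K : ℕ) (hK : 1 ≤ K) (τ : ℕ → ℝ)
    (h0 : 0 < τ 0) (hτ : ∀ i j, i < j → j < K → τ i < τ j) (h1 : τ (K - 1) < 1) {M : ℝ} (hM : 0 < M) (f : ℕ → ℝ → ℝ)
    (hf : ∀ j, BL M (f j)) : ∀ ε > (0 : ℝ), ∃ n₀ : ℕ, ∀ n ≥ n₀, PQ μ ν (EvN D n) ≠ 0 →
      |EN D μ ν n (fun ω => ∏ j ∈ Finset.range K, f j (Zw ⌊τ j * n⌋₊ ω / a n)) - exc α ζ (tts τ f K)| ≤ ε := by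
  intro ε hε
  have := hda.prob
  have := hQ.probμ
  have := hQ.probν
  obtain ⟨n₀, hn₀⟩ := fddS hda hD (tts τ f K) (F2_adm hK h0 hτ h1 hM f hf) (by rw [F2_tts hK]; simp) ε hε
  refine ⟨max n₀ 1, fun n hn hne => ?_⟩
  have hn1 : 1 ≤ n := (le_max_right _ _).trans hn
  have hn0 : (0 : ℝ) < n := by exact_mod_cast hn1
  have hpos : 0 < hit D (stepLaw μ ν 1) n 0 := by
    rw [← PQ_EvN_one hD hQ n]
    exact ENNReal.toReal_pos hne (measure_ne_top _ _)
  have h2 := hn₀ n ((le_max_left _ _).trans hn) hpos _ (F2_match hK h0 hτ f n)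
  have hmono := F2_mono hτ hK n
  have hlt : F2_g τ K n (K - 1) < n := by
    rw [F2_eq (by omega), Nat.floor_lt' (by omega)]
    calc τ (K - 1) * (n : ℝ) < 1 * n := mul_lt_mul_of_pos_right h1 hn0
      _ = n := one_mul _
  set l := (F2_g τ K n 0, f 0) :: F11a_L (F2_g τ K n) f 0 (K - 1) with hl
  have htot : tot l = F2_g τ K n (K - 1) := by
    have := F11a_tot_L (F2_g τ K n) hmono f (K - 1) 0
    rw [zero_add] at this
    rw [← this, hl]
    simp [tot]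
  have hmem : ∀ p ∈ l, ∃ j, p.2 = f j := by
    intro p hp
    rcases List.mem_cons.1 hp with rfl | hp
    · exact ⟨0, rfl⟩
    · obtain ⟨j, _, rfl⟩ := List.mem_map.1 hp
      exact ⟨_, rfl⟩
  have hmeas : ∀ p ∈ l, Measurable p.2 := by
    intro p hp
    obtain ⟨j, hj⟩ := hmem p hp
    rw [hj]
    exact F11a_BL_meas (hf j)
  have hbd : ∀ p ∈ l, ∃ C, ∀ x, |p.2 x| ≤ C := by
    intro p hp
    obtain ⟨j, hj⟩ := hmem p hp
    rw [hj]
    exact ⟨M, (hf j).bd⟩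
  have h3 := (F11a_IQ hD (ρ := stepLaw μ ν 1) (a n) (n - tot l) (by omega) l hmeas hbd).2 0
  have h4 : tot l + (n - tot l) = n := by omega
  rw [h4] at h3
  have h5 : ∀ ω : ℕ → ℝ × ℝ, ∏ j ∈ Finset.range K, f j (Zw ⌊τ j * n⌋₊ ω / a n) =
      F11a_P (a n) l (0, steps 1 ω) := by
    intro ω
    have h6 : ∏ j ∈ Finset.range K, f j (Zw ⌊τ j * n⌋₊ ω / a n) =
        ∏ j ∈ Finset.range K, f j (S (F2_g τ K n j) (steps 1 ω) / a n) := by
      refine Finset.prod_congr rfl fun j hj => ?_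
      rw [F2_eq (Finset.mem_range.1 hj), ← nz_eq, nz, div_one]
    rw [h6, hl, F11a_P, zero_add, F11a_P_L _ _ hmono, mul_comm]
    have hK' : K = (K - 1) + 1 := by omega
    rw [hK', Finset.prod_range_succ']
    simp only [zero_add, Nat.add_sub_cancel]
  have h6 : EN D μ ν n (fun ω => ∏ j ∈ Finset.range K, f j (Zw ⌊τ j * n⌋₊ ω / a n)) =
      IQ D (stepLaw μ ν 1) (a n) l (hit D (stepLaw μ ν 1) (n - tot l)) 0 /
        hit D (stepLaw μ ν 1) n 0 := by
    unfold EN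
    rw [PQ_EvN_one hD hQ n, ← h3]
    congr 1
    rw [← F2_transfer hD hQ n hn1 (fun ω => F11a_P (a n) l (0, ω))
      ((F11a_meas_P (a n) l hmeas).comp measurable_prodMk_left)]
    exact integral_congr_ae (Filter.Eventually.of_forall h5)
  rw [h6]
  exact h2

end Pool.Agent.BPT
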