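import Pool.Agent.MP_99a865_pr.ST.QW6

/-! **[STB-QW11a]** The sums `YS` are close to the grid sums `YK`. -/

open MeasureTheory ProbabilityTheory Filter Topology
open scoped ENNReal NNReal

namespace Pool.Agent.BPT

variable {D : Set ℝ} {μ ν : Measure ℝ} {a : ℕ → ℝ} {L V V' : ℝ → ℝ} {p K x₀ : ℝ}

/-- Oscillation in the bulk. PROOF. `win` with `b = i`, window `k - i`, `B = {|Zw (k-i)| ≥ ε a n}`, `A = univ`: at most
`K/(n-k) · P(AliveQ i) · K (k-i) L (ε a n) ≤ (K/(δ n)) (C_δ/V (a n)) · K (κ n + 1) C_ε/n` (`surv`, `maxZ`, `scale`), which is `≤ θ bb n` if `κ` is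
small and `n` large. -/
theorem QS.osc (h : QS D μ ν a L V V' p K x₀) : ∀ δ > (0 : ℝ), ∀ ε > (0 : ℝ), ∀ θ > (0 : ℝ),
    ∃ κ > (0 : ℝ), ∃ n₀ : ℕ, ∀ n ≥ n₀, ∀ i k : ℕ, i ≤ k → δ * n ≤ i → (k : ℝ) ≤ (1 - δ) * n →
      (k : ℝ) ≤ i + κ * n → PQ μ ν (EvN D n ∩ {ω | ε * a n ≤ |Zw k ω - Zw i ω|}) ≤
        ENNReal.ofReal (θ * bb V a n) := by
  intro δ hδ ε hε θ hθ
  have hpμ := h.qi.probμ
  have hpν := h.qi.probν
  obtain ⟨C₁, hC₁, hs⟩ := h.surv hδ
  obtain ⟨C₂, hC₂, n₁, hn₁, hsc⟩ := h.scale hε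
  have hK : 0 < K := lt_of_lt_of_le one_pos h.K_ge
  have hC₂' : 0 < C₂ := lt_of_lt_of_le one_pos hC₂
  have hD0 : 0 < K * C₁ * K * C₂ := by positivity
  refine ⟨θ * δ / (K * C₁ * K * C₂), by positivity, n₁, ?_⟩
  intro n hn i k hik hi hk hki
  have hn1 : 1 ≤ n := hn₁.trans hn
  have hnpos : (0 : ℝ) < n := by exact_mod_cast hn1
  have hipos : (0 : ℝ) < i := lt_of_lt_of_le (by positivity) hi
  have hi1 : 1 ≤ i := by exact_mod_cast hipos
  have hkn : (k : ℝ) < n := lt_of_le_of_lt hk (by nlinarith)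
  have hkn' : k < n := by exact_mod_cast hkn
  obtain ⟨hx, hL1, -, -, -⟩ := hsc n hn
  have hV : 0 < V (a n) := lt_of_lt_of_le one_pos (h.V_one _)
  have hset : EvN D n ∩ {ω | ε * a n ≤ |Zw k ω - Zw i ω|} =
      EvN D n ∩ Set.univ ∩ {ω | shift i ω ∈ {η : ℕ → ℝ × ℝ | ε * a n ≤ |Zw (k - i) η|}} := by
    ext ω
    have h1 : Zw k ω - Zw i ω = Zw (k - i) (shift i ω) := by
      have h2 := Q1_Zw_add i (k - i) ω
      rw [Nat.add_sub_cancel' hik] at h2
      rw [h2, add_sub_cancel_left]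
      exact Q1_S (k - i) (shift i ω)
    simp only [Set.mem_inter_iff, Set.mem_setOf_eq, Set.mem_univ, and_true, h1]
  rw [hset]
  have hB : MeasurableSet {η : ℕ → ℝ × ℝ | ε * a n ≤ |Zw (k - i) η|} :=
    measurableSet_le measurable_const (measurable_Zw _).abs
  refine (h.win n i (k - i) (by omega) Set.univ _ MeasurableSet.univ hB (fun _ _ _ => Iff.rfl)
    ?_).trans ?_
  · intro ω ω' hω
    simp only [Set.mem_setOf_eq]
    rw [Q1_Zw_congr (k - i) hω]
  have hnk : n - i - (k - i) = n - k := by omega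
  rw [hnk, Set.univ_inter]
  have h2 := hs n i hi1 (by omega) hi
  have h3 : PQ μ ν {η : ℕ → ℝ × ℝ | ε * a n ≤ |Zw (k - i) η|} ≤
      ENNReal.ofReal (K * (((k - i : ℕ) : ℝ) * L (ε * a n))) := by
    have h4 := h.maxZ (k - i) (ε * a n) hx
    rw [← ENNReal.ofReal_le_ofReal_iff, ofReal_measureReal] at h4
    · refine le_trans (measure_mono ?_) h4
      intro η hη
      exact ⟨k - i, le_rfl, hη⟩
    · have := (h.L_pos _ hx).le
      positivity
  have hkir : ((k - i : ℕ) : ℝ) ≤ θ * δ / (K * C₁ * K * C₂) * n := by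
    rw [Nat.cast_sub hik]; linarith
  have hLpos := (h.L_pos _ hx).le
  have hnkr : δ * n ≤ ((n - k : ℕ) : ℝ) := by
    rw [Nat.cast_sub hkn'.le]; linarith
  refine (mul_le_mul' le_rfl (mul_le_mul' h2 h3)).trans ?_
  rw [← ENNReal.ofReal_mul (by positivity), ← ENNReal.ofReal_mul (by positivity)]
  refine ENNReal.ofReal_le_ofReal ?_
  have e1 : K / ((n - k : ℕ) : ℝ) ≤ K / (δ * n) := by
    apply div_le_div_of_nonneg_left hK.le (by positivity) hnkr
  have e2 : K * (((k - i : ℕ) : ℝ) * L (ε * a n)) ≤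
      K * (θ * δ / (K * C₁ * K * C₂) * n * (C₂ / n)) := by
    apply mul_le_mul_of_nonneg_left _ hK.le
    exact mul_le_mul hkir hL1 hLpos (by positivity)
  calc K / ((n - k : ℕ) : ℝ) * (C₁ / V (a n) * (K * (((k - i : ℕ) : ℝ) * L (ε * a n))))
      ≤ K / (δ * n) * (C₁ / V (a n) * (K * (θ * δ / (K * C₁ * K * C₂) * n * (C₂ / n)))) := by
        apply mul_le_mul e1 _ (by positivity) (by positivity)
        exact mul_le_mul_of_nonneg_left e2 (by positivity)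
    _ = θ * bb V a n := by
        unfold bb
        field_simp

end Pool.Agent.BPT
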