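import Pool.Agent.MP_99a865_pr.ST.QW6
import Pool.Agent.MP_99a865_pr.ST.QW11a

/-! **[STB-QW11b]** The sums `YS` are close to the grid sums `YK`. -/

open MeasureTheory ProbabilityTheory Filter Topology
open scoped ENNReal NNReal

namespace Pool.Agent.BPT

variable {D : Set ℝ} {μ ν : Measure ℝ} {a : ℕ → ℝ} {L V V' : ℝ → ℝ} {p K x₀ : ℝ}

/-- the index of the block of `i` -/
lemma QW11b_idx {k n i : ℕ} (hk : 1 ≤ k) (hn : 1 ≤ n) :
    ((k * i / n : ℕ) : ℝ) / k ≤ (i : ℝ) / n ∧ (i : ℝ) / n < ((k * i / n : ℕ) : ℝ) / k + 1 / k := by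
  have hk0 : (0 : ℝ) < k := by exact_mod_cast hk
  have hn0 : (0 : ℝ) < n := by exact_mod_cast hn
  have h1 : (k * i / n) * n ≤ k * i := Nat.div_mul_le_self _ _
  have h2 : k * i < (k * i / n + 1) * n := by
    have := Nat.lt_div_mul_add (a := k * i) (b := n) (by omega)
    nlinarith
  have h1' : ((k * i / n : ℕ) : ℝ) * n ≤ k * i := by exact_mod_cast h1
  have h2' : (k : ℝ) * i < (((k * i / n : ℕ) : ℝ) + 1) * n := by exact_mod_cast h2
  constructor
  · rw [div_le_div_iff₀ hk0 hn0]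
    linarith
  · rw [← add_div, div_lt_div_iff₀ hn0 hk0]
    linarith

lemma QW11b_gg {k n i : ℕ} (hk : 1 ≤ k) (hn : 1 ≤ n) :
    gg k n (k * i / n) ≤ i ∧ (i : ℝ) < gg k n (k * i / n) + (n : ℝ) / k + 1 := by
  have hk0 : (0 : ℝ) < k := by exact_mod_cast hk
  have hn0 : (0 : ℝ) < n := by exact_mod_cast hn
  obtain ⟨h1, h2⟩ := QW11b_idx (i := i) hk hn
  have e1 : ((k * i / n : ℕ) : ℝ) / k * n ≤ i := by
    have := mul_le_mul_of_nonneg_right h1 hn0.le
    rwa [div_mul_cancel₀ _ hn0.ne'] at this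
  have e2 : (i : ℝ) < ((k * i / n : ℕ) : ℝ) / k * n + (n : ℝ) / k := by
    have := mul_lt_mul_of_pos_right h2 hn0
    rw [div_mul_cancel₀ _ hn0.ne'] at this
    calc (i : ℝ) < _ := this
      _ = _ := by ring
  constructor
  · have : ⌊((k * i / n : ℕ) : ℝ) / k * n⌋₊ ≤ ⌊(i : ℝ)⌋₊ := Nat.floor_mono e1
    rw [Nat.floor_natCast] at this
    exact this
  · have := Nat.lt_floor_add_one (((k * i / n : ℕ) : ℝ) / k * n)
    unfold gg
    linarith

lemma QW11b_card {k n j : ℕ} (hk : 1 ≤ k) (hn : 1 ≤ n) (hj : j < k) :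
    |((((Finset.range n).filter fun i => k * i / n = j).card : ℕ) : ℝ) - (n : ℝ) / k| ≤ 1 := by
  have hk0 : (0 : ℝ) < k := by exact_mod_cast hk
  have hn0 : (0 : ℝ) < n := by exact_mod_cast hn
  have hset : (Finset.range n).filter (fun i => k * i / n = j) =
      Finset.Ico ⌈(j : ℝ) * n / k⌉₊ ⌈((j : ℝ) + 1) * n / k⌉₊ := by
    ext i
    rw [Finset.mem_filter, Finset.mem_range, Finset.mem_Ico, Nat.ceil_le, Nat.lt_ceil,
      div_le_iff₀ hk0, lt_div_iff₀ hk0]
    constructor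
    · rintro ⟨_, h2⟩
      have h3 : (k * i / n) * n ≤ k * i := Nat.div_mul_le_self _ _
      have h4 : k * i < (k * i / n + 1) * n := by
        have := Nat.lt_div_mul_add (a := k * i) (b := n) (by omega)
        nlinarith
      rw [h2] at h3 h4
      have h3' : (j : ℝ) * n ≤ k * i := by exact_mod_cast h3
      have h4' : (k : ℝ) * i < ((j : ℝ) + 1) * n := by exact_mod_cast h4
      constructor <;> linarith
    · rintro ⟨h1, h2⟩
      have h1' : j * n ≤ k * i := by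
        have : (j : ℝ) * n ≤ k * i := by linarith
        exact_mod_cast this
      have h2' : k * i < (j + 1) * n := by
        have : (k : ℝ) * i < ((j : ℝ) + 1) * n := by linarith
        exact_mod_cast this
      constructor
      · have h3 : (j + 1) * n ≤ k * n := Nat.mul_le_mul_right n hj
        have h4 : k * i < k * n := lt_of_lt_of_le h2' h3
        exact lt_of_mul_lt_mul_left h4 (Nat.zero_le k)
      · apply Nat.div_eq_of_lt_le
        · exact h1'
        · exact h2'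
  rw [hset, Nat.card_Ico]
  have h1 : ⌈(j : ℝ) * n / k⌉₊ ≤ ⌈((j : ℝ) + 1) * n / k⌉₊ := by
    apply Nat.ceil_mono
    gcongr
    linarith
  rw [Nat.cast_sub h1]
  have a1 := Nat.le_ceil ((j : ℝ) * n / k)
  have a2 := Nat.ceil_lt_add_one (show (0 : ℝ) ≤ (j : ℝ) * n / k by positivity)
  have a3 := Nat.le_ceil (((j : ℝ) + 1) * n / k)
  have a4 := Nat.ceil_lt_add_one (show (0 : ℝ) ≤ ((j : ℝ) + 1) * n / k by positivity)
  have a5 : ((j : ℝ) + 1) * n / k = (j : ℝ) * n / k + (n : ℝ) / k := by ring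
  rw [abs_le]
  constructor <;> linarith

/-- sums over blocks -/
lemma QW11b_block {k n : ℕ} (hk : 1 ≤ k) (hn : 1 ≤ n) {G : ℕ → ℝ} {B : ℝ} (hG : ∀ j, |G j| ≤ B) :
    |(∑ i ∈ Finset.range n, G (k * i / n)) / n - (∑ j ∈ Finset.Ico 1 k, G j) / k| ≤
      B * (k / n + 1 / k) := by
  have hk0 : (0 : ℝ) < k := by exact_mod_cast hk
  have hn0 : (0 : ℝ) < n := by exact_mod_cast hn
  have hB : 0 ≤ B := (abs_nonneg _).trans (hG 0)
  have hmaps : ∀ i ∈ Finset.range n, k * i / n ∈ Finset.range k := by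
    intro i hi
    rw [Finset.mem_range] at hi ⊢
    rw [Nat.div_lt_iff_lt_mul (by omega)]
    exact Nat.mul_lt_mul_of_pos_left hi (by omega)
  have e1 : ∑ i ∈ Finset.range n, G (k * i / n) =
      ∑ j ∈ Finset.range k, (((Finset.range n).filter fun i => k * i / n = j).card : ℝ) * G j := by
    rw [← Finset.sum_fiberwise_of_maps_to hmaps]
    refine Finset.sum_congr rfl fun j _ => ?_
    rw [Finset.sum_congr rfl (g := fun _ => G j) (fun i hi => by rw [(Finset.mem_filter.mp hi).2]),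
      Finset.sum_const, nsmul_eq_mul]
  have e2 : ∑ j ∈ Finset.range k, G j = G 0 + ∑ j ∈ Finset.Ico 1 k, G j := by
    rw [Finset.range_eq_Ico, Finset.sum_eq_sum_Ico_succ_bot (by omega)]
  have e3 : (∑ i ∈ Finset.range n, G (k * i / n)) / n - (∑ j ∈ Finset.Ico 1 k, G j) / k =
      (∑ j ∈ Finset.range k, ((((Finset.range n).filter fun i => k * i / n = j).card : ℝ) / n - 1 / k) * G j) +
        G 0 / k := by
    rw [e1]
    have : ∑ j ∈ Finset.Ico 1 k, G j = ∑ j ∈ Finset.range k, G j - G 0 := by rw [e2]; ring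
    rw [this, Finset.sum_div]
    simp only [sub_mul, Finset.sum_sub_distrib]
    rw [← Finset.mul_sum]
    have : ∑ j ∈ Finset.range k, (((Finset.range n).filter fun i => k * i / n = j).card : ℝ) * G j / n =
        ∑ j ∈ Finset.range k, (((Finset.range n).filter fun i => k * i / n = j).card : ℝ) / n * G j :=
      Finset.sum_congr rfl fun j _ => by ring
    rw [this]
    ring
  rw [e3]
  have h1 : |∑ j ∈ Finset.range k, ((((Finset.range n).filter fun i => k * i / n = j).card : ℝ) / n - 1 / k) * G j|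
      ≤ ∑ j ∈ Finset.range k, (1 / n) * B := by
    refine (Finset.abs_sum_le_sum_abs _ _).trans (Finset.sum_le_sum fun j hj => ?_)
    rw [abs_mul]
    refine mul_le_mul ?_ (hG j) (abs_nonneg _) (by positivity)
    have := QW11b_card hk hn (Finset.mem_range.mp hj)
    have e4 : (((Finset.range n).filter fun i => k * i / n = j).card : ℝ) / n - 1 / k =
        ((((Finset.range n).filter fun i => k * i / n = j).card : ℝ) - (n : ℝ) / k) / n := by
      field_simp
    rw [e4, abs_div, abs_of_pos hn0]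
    exact div_le_div_of_nonneg_right this hn0.le
  rw [Finset.sum_const, Finset.card_range, nsmul_eq_mul] at h1
  have h2 : |G 0 / k| ≤ B / k := by
    rw [abs_div, abs_of_pos hk0]
    exact div_le_div_of_nonneg_right (hG 0) hk0.le
  calc _ ≤ _ := abs_add_le _ _
    _ ≤ k * ((1 / n) * B) + B / k := add_le_add h1 h2
    _ = _ := by ring

/-- deterministic comparison -/
lemma QW11b_det {c φ : ℝ → ℝ} {M : ℝ} (hM : 0 < M) (hc : BL M c) (hφ : BL M φ) {k n : ℕ} (hk : 1 ≤ k)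
    (hn : 1 ≤ n) (z : ℕ → ℝ) {A δ ε : ℝ} (hA : 0 < A) (hδ : 0 < δ) (hδ1 : δ < 1) (hε : 0 < ε) :
    |(∑ i ∈ Finset.range n, c (i / n) * φ (z i / A)) / n -
      (∑ j ∈ Finset.Ico 1 k, c ((j : ℝ) / k) * φ (z (gg k n j) / A)) / k| ≤
      M ^ 2 * (ε + 4 * δ + 4 / k + (k + 6) / n) +
      2 * M ^ 2 / n * ∑ i ∈ (Finset.range n).filter (fun i : ℕ => δ * n ≤ gg k n (k * i / n) ∧
        (i : ℝ) ≤ (1 - δ) * n), (if ε * A ≤ |z i - z (gg k n (k * i / n))| then (1 : ℝ) else 0) := by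
  have hk0 : (0 : ℝ) < k := by exact_mod_cast hk
  have hn0 : (0 : ℝ) < n := by exact_mod_cast hn
  obtain ⟨G, hGdef⟩ : ∃ G : ℕ → ℝ, G = fun j : ℕ => c ((j : ℝ) / k) * φ (z (gg k n j) / A) := ⟨_, rfl⟩
  have hG : ∀ j, |G j| ≤ M ^ 2 := by
    intro j
    rw [hGdef]
    show |c ((j : ℝ) / k) * φ (z (gg k n j) / A)| ≤ M ^ 2
    rw [abs_mul, sq]
    exact mul_le_mul (hc.bd _) (hφ.bd _) (abs_nonneg _) hM.le
  have hb := QW11b_block hk hn hG
  obtain ⟨bulk, hbulk⟩ : ∃ s : Finset ℕ, s = (Finset.range n).filter (fun i : ℕ => δ * n ≤ gg k n (k * i / n) ∧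
        (i : ℝ) ≤ (1 - δ) * n) := ⟨_, rfl⟩
  -- pointwise
  have hpt : ∀ i ∈ Finset.range n, |c (i / n) * φ (z i / A) - G (k * i / n)| ≤
      M ^ 2 / k + M ^ 2 * ε + 2 * M ^ 2 * (if i ∈ bulk then
        (if ε * A ≤ |z i - z (gg k n (k * i / n))| then (1 : ℝ) else 0) else 1) := by
    intro i hi
    obtain ⟨h1, h2⟩ := QW11b_idx (i := i) hk hn
    have e1 : |c (i / n) - c (((k * i / n : ℕ) : ℝ) / k)| ≤ M / k := by
      refine (hc.lip _ _).trans ?_
      rw [abs_of_nonneg (by linarith), div_eq_mul_one_div M k]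
      exact mul_le_mul_of_nonneg_left (by linarith) hM.le
    have e2 : |φ (z i / A) - φ (z (gg k n (k * i / n)) / A)| ≤ 2 * M := by
      have := hφ.bd (z i / A)
      have := hφ.bd (z (gg k n (k * i / n)) / A)
      calc _ ≤ |φ (z i / A)| + |φ (z (gg k n (k * i / n)) / A)| := abs_sub _ _
        _ ≤ 2 * M := by linarith
    have e3 : |φ (z i / A) - φ (z (gg k n (k * i / n)) / A)| ≤
        M * ε + 2 * M * (if i ∈ bulk then
        (if ε * A ≤ |z i - z (gg k n (k * i / n))| then (1 : ℝ) else 0) else 1) := by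
      have hMε : 0 ≤ M * ε := by positivity
      by_cases hib : i ∈ bulk
      · rw [if_pos hib]
        by_cases hz : ε * A ≤ |z i - z (gg k n (k * i / n))|
        · rw [if_pos hz]
          linarith
        · rw [if_neg hz, mul_zero, add_zero]
          refine (hφ.lip _ _).trans ?_
          rw [← sub_div, abs_div, abs_of_pos hA]
          refine mul_le_mul_of_nonneg_left ?_ hM.le
          rw [div_le_iff₀ hA]
          push Not at hz
          exact hz.le
      · rw [if_neg hib]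
        linarith
    have e4 : c (i / n) * φ (z i / A) - G (k * i / n) =
        (c (i / n) - c (((k * i / n : ℕ) : ℝ) / k)) * φ (z i / A) +
        c (((k * i / n : ℕ) : ℝ) / k) * (φ (z i / A) - φ (z (gg k n (k * i / n)) / A)) := by
      rw [hGdef]
      ring
    rw [e4]
    refine (abs_add_le _ _).trans ?_
    rw [abs_mul, abs_mul]
    have e5 : |c (i / n) - c (((k * i / n : ℕ) : ℝ) / k)| * |φ (z i / A)| ≤ M / k * M :=
      mul_le_mul e1 (hφ.bd _) (abs_nonneg _) (by positivity)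
    have e6 := mul_le_mul (hc.bd (((k * i / n : ℕ) : ℝ) / k)) e3 (abs_nonneg _) hM.le
    calc _ ≤ _ := add_le_add e5 e6
      _ = _ := by ring
  have hsum : |(∑ i ∈ Finset.range n, c (i / n) * φ (z i / A)) / n -
      (∑ i ∈ Finset.range n, G (k * i / n)) / n| ≤
      M ^ 2 / k + M ^ 2 * ε + 2 * M ^ 2 / n * (∑ i ∈ Finset.range n, (if i ∈ bulk then
        (if ε * A ≤ |z i - z (gg k n (k * i / n))| then (1 : ℝ) else 0) else 1)) := by
    rw [← sub_div, ← Finset.sum_sub_distrib, abs_div, abs_of_pos hn0, div_le_iff₀ hn0]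
    refine (Finset.abs_sum_le_sum_abs _ _).trans ((Finset.sum_le_sum hpt).trans (le_of_eq ?_))
    rw [Finset.sum_add_distrib, Finset.sum_const, Finset.card_range, nsmul_eq_mul, ← Finset.mul_sum]
    field_simp
  -- the number of the other indices
  have hsplit : ∑ i ∈ Finset.range n, (if i ∈ bulk then
        (if ε * A ≤ |z i - z (gg k n (k * i / n))| then (1 : ℝ) else 0) else 1) =
      ∑ i ∈ bulk, (if ε * A ≤ |z i - z (gg k n (k * i / n))| then (1 : ℝ) else 0) +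
        (((Finset.range n).filter fun i => i ∉ bulk).card : ℝ) := by
    have hfb : (Finset.range n).filter (fun i => i ∈ bulk) = bulk := by
      ext i
      rw [Finset.mem_filter, hbulk, Finset.mem_filter]
      tauto
    rw [← Finset.sum_filter_add_sum_filter_not (Finset.range n) (fun i => i ∈ bulk)]
    congr 1
    · rw [hfb]
      exact Finset.sum_congr rfl fun i hi => if_pos hi
    · rw [Finset.sum_congr rfl (g := fun _ => (1 : ℝ)) (fun i hi => if_neg (Finset.mem_filter.mp hi).2),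
        Finset.sum_const, nsmul_eq_mul, mul_one]
  have hcard : (((Finset.range n).filter fun i => i ∉ bulk).card : ℝ) ≤ 2 * δ * n + n / k + 3 := by
    have hsub : (Finset.range n).filter (fun i => i ∉ bulk) ⊆
        Finset.range ⌈δ * n + n / k + 1⌉₊ ∪ Finset.Ico ⌊(1 - δ) * n⌋₊ n := by
      intro i hi
      rw [Finset.mem_filter, hbulk, Finset.mem_filter, Finset.mem_range] at hi
      rw [Finset.mem_union, Finset.mem_range, Finset.mem_Ico]
      obtain ⟨hin, hnb⟩ := hi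
      by_cases h1 : δ * n ≤ gg k n (k * i / n)
      · right
        have h2 : ¬ (i : ℝ) ≤ (1 - δ) * n := fun h => hnb ⟨hin, h1, h⟩
        push Not at h2
        refine ⟨?_, hin⟩
        have : ⌊(1 - δ) * n⌋₊ ≤ ⌊(i : ℝ)⌋₊ := Nat.floor_mono h2.le
        rwa [Nat.floor_natCast] at this
      · left
        push Not at h1
        rw [Nat.lt_ceil]
        have := (QW11b_gg (i := i) hk hn).2
        linarith
    have h1 : (0 : ℝ) ≤ (1 - δ) * n := mul_nonneg (by linarith) hn0.le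
    have h2 : ⌊(1 - δ) * n⌋₊ ≤ n := by
      have : ⌊(1 - δ) * n⌋₊ ≤ ⌊(n : ℝ)⌋₊ := Nat.floor_mono (by nlinarith)
      rwa [Nat.floor_natCast] at this
    have h3 := (Finset.card_le_card hsub).trans (Finset.card_union_le _ _)
    rw [Finset.card_range, Nat.card_Ico] at h3
    have h4 : (((Finset.range n).filter fun i => i ∉ bulk).card : ℝ) ≤
        (⌈δ * n + n / k + 1⌉₊ : ℝ) + ((n : ℝ) - ⌊(1 - δ) * n⌋₊) := by
      rw [← Nat.cast_sub h2]
      exact_mod_cast h3
    have h5 := Nat.ceil_lt_add_one (show (0 : ℝ) ≤ δ * n + n / k + 1 by positivity)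
    have h6 := Nat.lt_floor_add_one ((1 - δ) * (n : ℝ))
    linarith
  rw [hsplit] at hsum
  rw [← hbulk]
  have hGs : (∑ j ∈ Finset.Ico 1 k, c ((j : ℝ) / k) * φ (z (gg k n j) / A)) = ∑ j ∈ Finset.Ico 1 k, G j := by
    rw [hGdef]
  rw [hGs]
  have h7 : 2 * M ^ 2 / n * (((Finset.range n).filter fun i => i ∉ bulk).card : ℝ) ≤
      2 * M ^ 2 / n * (2 * δ * n + n / k + 3) := mul_le_mul_of_nonneg_left hcard (by positivity)
  have h8 : 2 * M ^ 2 / n * (2 * δ * n + n / k + 3) = M ^ 2 * (4 * δ + 2 / k + 6 / n) := by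
    field_simp
    ring
  have h9 : ∀ x y w : ℝ, |x - w| ≤ |x - y| + |y - w| := fun x y w => abs_sub_le x y w
  have h10 := h9 ((∑ i ∈ Finset.range n, c (i / n) * φ (z i / A)) / n)
    ((∑ i ∈ Finset.range n, G (k * i / n)) / n) ((∑ j ∈ Finset.Ico 1 k, G j) / k)
  have h11 : M ^ 2 / k + M ^ 2 * ε + M ^ 2 * (4 * δ + 2 / k + 6 / n) + M ^ 2 * (k / n + 1 / k) =
      M ^ 2 * (ε + 4 * δ + 4 / k + (k + 6) / n) := by
    ring
  rw [mul_add (2 * M ^ 2 / (n : ℝ))] at hsum
  linarith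

/-- the probability of `N = n` -/
lemma QW11b_prob (h : QS D μ ν a L V V' p K x₀) {n : ℕ} (hn : 1 ≤ n) :
    PQ μ ν (EvN D n) ≤ ENNReal.ofReal (K ^ 2 * bb V a n) := by
  have hpμ := h.qi.probμ
  have hpν := h.qi.probν
  have hPQ : IsProbabilityMeasure (PQ μ ν) := by
    unfold PQ seqLaw
    infer_instance
  rw [← ofReal_measureReal, PQ_EvN_gen h.dom n]
  apply ENNReal.ofReal_le_ofReal
  have h1 := h.hit_V n n 0 hn le_rfl (by omega) le_rfl
  refine h1.trans ?_
  unfold bb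
  have hV : 0 < V (a n) := lt_of_lt_of_le one_pos (h.V_one _)
  have hn0 : (0 : ℝ) < n := by exact_mod_cast hn
  have hK := h.K_ge
  have hV0 := h.V_zero
  rw [mul_one_div]
  apply div_le_div_of_nonneg_right _ (by positivity)
  nlinarith

/-- PROOF. `n YS = ∑_{i<n} c(i/n) φ(Z_i/a_n)`. Put `i ∈ [gg k n j, gg k n (j+1))`, `j = 0, …, k-1`, into the `j`-th block (length
`n/k + O(1)`). Blocks with `j/k ≤ δ` or `j/k ≥ 1 - 2δ`: they contribute at most `(4δ + C/k + C k/n) M²` to both sides. In the other blocks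
`|c(i/n) - c(j/k)| ≤ M (1/k + 1/n)`, and `E|φ(Z_i/a_n) - φ(Z_{gg j}/a_n)| 1_{N=n} ≤ M ε P(N = n) + 2M P(N = n, |Z_i - Z_{gg j}| ≥ ε a_n)`
with `osc`; `|(length)/n - 1/k| ≤ 2/n`. Choose `δ`, `ε`, `θ` small, then `k ≥ 2/κ`, then `n` large; `P(N = n) ≤ C bb n`. -/
theorem QS.YK_approx (h : QS D μ ν a L V V' p K x₀) (c φ : ℝ → ℝ) (M : ℝ) (hM : 0 < M)
    (hc : BL M c) (hφ : BL M φ) : ∀ τ > (0 : ℝ), ∃ k₀ : ℕ, ∀ k ≥ k₀, ∃ n₀ : ℕ, ∀ n ≥ n₀,
    ∫⁻ ω in EvN D n, ENNReal.ofReal |YS a c φ n ω - YK a c φ k n ω| ∂(PQ μ ν) ≤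
      ENNReal.ofReal (τ * bb V a n) := by
  intro τ hτ
  have hpμ := h.qi.probμ
  have hpν := h.qi.probν
  have hPQ : IsProbabilityMeasure (PQ μ ν) := by
    unfold PQ seqLaw
    infer_instance
  have hK0 : 0 < K := by linarith [h.K_ge]
  obtain ⟨q, hq0, hq⟩ : ∃ q > (0 : ℝ), 6 * ((K ^ 2 * M ^ 2 + 1) * q) = τ :=
    ⟨τ / (6 * (K ^ 2 * M ^ 2 + 1)), by positivity, by field_simp⟩
  obtain ⟨θ, hθ0, hθ⟩ : ∃ θ > (0 : ℝ), 6 * ((M ^ 2 + 1) * θ) = τ :=
    ⟨τ / (6 * (M ^ 2 + 1)), by positivity, by field_simp⟩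
  obtain ⟨δ, hδ0, hδ1, hδq⟩ : ∃ δ > (0 : ℝ), δ < 1 ∧ 4 * δ ≤ q :=
    ⟨min (q / 4) (1 / 2), lt_min (by positivity) (by norm_num),
      lt_of_le_of_lt (min_le_right _ _) (by norm_num), by linarith [min_le_left (q / 4) (1 / 2 : ℝ)]⟩
  obtain ⟨κ, hκ0, n₁, hosc⟩ := h.osc δ hδ0 q hq0 θ hθ0
  refine ⟨max ⌈4 / q⌉₊ ⌈2 / κ⌉₊ + 1, fun k hk => ⟨max n₁ (max ⌈((k : ℝ) + 6) / q⌉₊ ⌈2 / κ⌉₊) + 1,
    fun n hn => ?_⟩⟩
  have hk1 : 1 ≤ k := le_trans (Nat.le_add_left 1 _) hk
  have hn1 : 1 ≤ n := le_trans (Nat.le_add_left 1 _) hn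
  have hk0 : (0 : ℝ) < k := by exact_mod_cast hk1
  have hn0 : (0 : ℝ) < n := by exact_mod_cast hn1
  have hnn : n₁ ≤ n := (le_max_left _ _).trans ((Nat.le_succ _).trans hn)
  have hkq : 4 / (k : ℝ) ≤ q := by
    have h1 : ⌈4 / q⌉₊ ≤ k := (le_max_left _ _).trans ((Nat.le_succ _).trans hk)
    have h2 : 4 / q ≤ k := (Nat.le_ceil _).trans (by exact_mod_cast h1)
    rw [div_le_iff₀ hq0] at h2
    rw [div_le_iff₀ hk0]
    linarith
  have hkκ : 2 ≤ κ * k := by
    have h1 : ⌈2 / κ⌉₊ ≤ k := (le_max_right _ _).trans ((Nat.le_succ _).trans hk)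
    have h2 : 2 / κ ≤ k := (Nat.le_ceil _).trans (by exact_mod_cast h1)
    rw [div_le_iff₀ hκ0] at h2
    linarith
  have hnq : ((k : ℝ) + 6) / n ≤ q := by
    have h1 : ⌈((k : ℝ) + 6) / q⌉₊ ≤ n :=
      (le_max_left _ _).trans ((le_max_right _ _).trans ((Nat.le_succ _).trans hn))
    have h2 : ((k : ℝ) + 6) / q ≤ n := (Nat.le_ceil _).trans (by exact_mod_cast h1)
    rw [div_le_iff₀ hq0] at h2
    rw [div_le_iff₀ hn0]
    linarith
  have hnκ : 2 ≤ κ * n := by
    have h1 : ⌈2 / κ⌉₊ ≤ n := (le_max_right _ _).trans ((le_max_right _ _).trans ((Nat.le_succ _).trans hn))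
    have h2 : 2 / κ ≤ n := (Nat.le_ceil _).trans (by exact_mod_cast h1)
    rw [div_le_iff₀ hκ0] at h2
    linarith
  have han : 0 < a n := by
    have := h.a_ge n hn1
    have := h.x_ge
    linarith
  have hbb : 0 ≤ bb V a n := by
    unfold bb
    have hV : 0 < V (a n) := lt_of_lt_of_le one_pos (h.V_one _)
    positivity
  obtain ⟨bulk, hbulk⟩ : ∃ s : Finset ℕ, s = (Finset.range n).filter (fun i : ℕ => δ * n ≤ gg k n (k * i / n) ∧
        (i : ℝ) ≤ (1 - δ) * n) := ⟨_, rfl⟩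
  obtain ⟨E, hE⟩ : ∃ E : ℕ → Set (ℕ → ℝ × ℝ), E = fun i =>
      {ω | q * a n ≤ |Zw i ω - Zw (gg k n (k * i / n)) ω|} := ⟨_, rfl⟩
  have hEm : ∀ i, MeasurableSet (E i) := by
    intro i
    rw [hE]
    exact measurableSet_le measurable_const ((measurable_Zw i).sub (measurable_Zw _)).abs
  have hpt : ∀ ω, ENNReal.ofReal |YS a c φ n ω - YK a c φ k n ω| ≤ ENNReal.ofReal (M ^ 2 * (4 * q)) +
      ∑ i ∈ bulk, (E i).indicator (fun _ => ENNReal.ofReal (2 * M ^ 2 / n)) ω := by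
    intro ω
    have h1 := QW11b_det hM hc hφ hk1 hn1 (fun i => Zw i ω) han hδ0 hδ1 hq0
    rw [← hbulk] at h1
    have h2 : |YS a c φ n ω - YK a c φ k n ω| ≤ M ^ 2 * (4 * q) + ∑ i ∈ bulk,
        (E i).indicator (fun _ => 2 * M ^ 2 / (n : ℝ)) ω := by
      unfold YS YK
      refine h1.trans (add_le_add ?_ (le_of_eq ?_))
      · refine mul_le_mul_of_nonneg_left ?_ (by positivity)
        linarith
      · rw [Finset.mul_sum]
        refine Finset.sum_congr rfl fun i _ => ?_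
        rw [hE]
        simp only [Set.indicator, Set.mem_ofPred_eq]
        split_ifs <;> simp
    refine (ENNReal.ofReal_le_ofReal h2).trans ?_
    have h0 : ∀ i ∈ bulk, 0 ≤ (E i).indicator (fun _ => 2 * M ^ 2 / (n : ℝ)) ω := fun i _ =>
      Set.indicator_nonneg (fun _ _ => by positivity) _
    rw [ENNReal.ofReal_add (by positivity) (Finset.sum_nonneg h0), ENNReal.ofReal_sum_of_nonneg h0]
    refine add_le_add_right (le_of_eq (Finset.sum_congr rfl fun i _ => ?_)) _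
    by_cases hi : ω ∈ E i
    · rw [Set.indicator_of_mem hi, Set.indicator_of_mem hi]
    · rw [Set.indicator_of_notMem hi, Set.indicator_of_notMem hi, ENNReal.ofReal_zero]
  refine (lintegral_mono hpt).trans ?_
  rw [lintegral_add_left measurable_const, lintegral_finsetSum _ (fun i _ => measurable_const.indicator (hEm i)),
    setLIntegral_const]
  have hEi : ∀ i ∈ bulk, ∫⁻ ω in EvN D n, (E i).indicator (fun _ => ENNReal.ofReal (2 * M ^ 2 / n)) ω ∂(PQ μ ν) ≤
      ENNReal.ofReal (2 * M ^ 2 / n * (θ * bb V a n)) := by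
    intro i hi
    rw [lintegral_indicator (hEm i), lintegral_const, Measure.restrict_apply_univ, Measure.restrict_apply (hEm i),
      ENNReal.ofReal_mul (by positivity)]
    refine mul_le_mul_right ?_ _
    rw [Set.inter_comm]
    rw [hbulk, Finset.mem_filter, Finset.mem_range] at hi
    obtain ⟨hin, hi1, hi2⟩ := hi
    obtain ⟨hg1, hg2⟩ := QW11b_gg (i := i) hk1 hn1
    rw [hE]
    refine hosc n hnn (gg k n (k * i / n)) i hg1 hi1 hi2 ?_
    have h3 : (n : ℝ) / k ≤ κ * n / 2 := by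
      rw [div_le_iff₀ hk0]
      nlinarith
    linarith
  refine (add_le_add (mul_le_mul_right (QW11b_prob h hn1) _) (Finset.sum_le_sum hEi)).trans ?_
  rw [Finset.sum_const, nsmul_eq_mul]
  have hcb : (bulk.card : ℝ≥0∞) ≤ ENNReal.ofReal n := by
    rw [ENNReal.ofReal_natCast]
    have : bulk.card ≤ n := by
      rw [hbulk]
      exact (Finset.card_filter_le _ _).trans (by rw [Finset.card_range])
    exact_mod_cast this
  calc ENNReal.ofReal (M ^ 2 * (4 * q)) * ENNReal.ofReal (K ^ 2 * bb V a n) +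
        (bulk.card : ℝ≥0∞) * ENNReal.ofReal (2 * M ^ 2 / n * (θ * bb V a n))
      ≤ ENNReal.ofReal (M ^ 2 * (4 * q)) * ENNReal.ofReal (K ^ 2 * bb V a n) +
        ENNReal.ofReal n * ENNReal.ofReal (2 * M ^ 2 / n * (θ * bb V a n)) :=
        add_le_add_right (mul_le_mul_left hcb _) _
    _ = ENNReal.ofReal (M ^ 2 * (4 * q) * (K ^ 2 * bb V a n) + n * (2 * M ^ 2 / n * (θ * bb V a n))) := by
        rw [← ENNReal.ofReal_mul (by positivity), ← ENNReal.ofReal_mul (by positivity),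
          ENNReal.ofReal_add (by positivity) (by positivity)]
    _ ≤ ENNReal.ofReal (τ * bb V a n) := by
        apply ENNReal.ofReal_le_ofReal
        have e1 : (n : ℝ) * (2 * M ^ 2 / n * (θ * bb V a n)) = 2 * M ^ 2 * θ * bb V a n := by
          field_simp
        rw [e1]
        have e2 : M ^ 2 * (4 * q) * K ^ 2 + 2 * M ^ 2 * θ ≤ τ := by nlinarith
        calc _ = (M ^ 2 * (4 * q) * K ^ 2 + 2 * M ^ 2 * θ) * bb V a n := by ring
          _ ≤ _ := mul_le_mul_of_nonneg_right e2 hbb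

end Pool.Agent.BPT
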