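import Pool.Agent.MP_99a865_pr.ST.QD

/-! **[STB-QW12a]** From products to bounded Lipschitz functions of a vector (Stone–Weierstrass). -/

open MeasureTheory ProbabilityTheory Filter Topology
open scoped ENNReal NNReal

namespace Pool.Agent.BPT

/-- `x` clamped to `[-R, R]` -/
noncomputable def clamp (R x : ℝ) : ℝ := max (-R) (min R x)

theorem QW12a_abs {R : ℝ} (hR : 0 < R) (x : ℝ) : |clamp R x| ≤ R := by
  unfold clamp
  rw [abs_le]
  exact ⟨le_max_left _ _, max_le (by linarith) (min_le_left _ _)⟩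

theorem QW12a_lip (R x y : ℝ) : |clamp R x - clamp R y| ≤ |x - y| := by
  have h : LipschitzWith 1 (fun x : ℝ => max (-R) (min R x)) :=
    (LipschitzWith.id.const_min R).const_max (-R)
  have := h.dist_le_mul x y
  rw [Real.dist_eq, Real.dist_eq] at this
  simpa [clamp] using this

theorem QW12a_eq {R x : ℝ} (h : |x| ≤ R) : clamp R x = x := by
  unfold clamp
  rw [abs_le] at h
  rw [min_eq_right h.2, max_eq_right h.1]

private theorem QW12a_pow {R : ℝ} (hR : 0 < R) (d : ℕ) {M : ℝ} (h1 : R ^ d ≤ M)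
    (h2 : d * R ^ (d - 1) ≤ M) : BL M (fun x => clamp R x ^ d) := by
  constructor
  · intro x
    rw [abs_pow]
    exact (pow_le_pow_left₀ (abs_nonneg _) (QW12a_abs hR x) d).trans h1
  · intro x y
    refine (abs_pow_sub_pow_le (clamp R x) (clamp R y) d).trans ?_
    have h3 : max |clamp R x| |clamp R y| ^ (d - 1) ≤ R ^ (d - 1) :=
      pow_le_pow_left₀ (le_max_of_le_left (abs_nonneg _))
        (max_le (QW12a_abs hR x) (QW12a_abs hR y)) _
    have h4 : |clamp R x - clamp R y| ≤ |x - y| := QW12a_lip R x y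
    calc |clamp R x - clamp R y| * d * max |clamp R x| |clamp R y| ^ (d - 1)
        = |clamp R x - clamp R y| * (d * max |clamp R x| |clamp R y| ^ (d - 1)) := by ring
      _ ≤ |x - y| * (d * R ^ (d - 1)) := by
          apply mul_le_mul h4 _ _ (abs_nonneg _)
          · exact mul_le_mul_of_nonneg_left h3 (Nat.cast_nonneg _)
          · exact mul_nonneg (Nat.cast_nonneg _) (pow_nonneg (le_max_of_le_left (abs_nonneg _)) _)
      _ ≤ |x - y| * M := mul_le_mul_of_nonneg_left h2 (abs_nonneg _)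
      _ = M * |x - y| := by ring

private noncomputable def QW12a_co (m : ℕ) (j : Fin m) : C(Fin m → ℝ, ℝ) :=
  ⟨fun x => x j, continuous_apply j⟩

private theorem QW12a_eval (m : ℕ) (p : MvPolynomial (Fin m) ℝ) (x : Fin m → ℝ) :
    (MvPolynomial.aeval (QW12a_co m) p) x = MvPolynomial.eval x p := by
  induction p using MvPolynomial.induction_on with
  | C a =>
    rw [MvPolynomial.aeval_C, MvPolynomial.eval_C]
    rfl
  | add p q hp hq => simp [hp, hq]
  | mul_X p j hp =>
    rw [map_mul, map_mul, MvPolynomial.aeval_X, MvPolynomial.eval_X, ContinuousMap.mul_apply, hp]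
    rfl

/-- PROOF. The polynomial functions separate the points of the compact set `Icc (fun _ => -R) (fun _ => R)` of `Fin m → ℝ`, so (Stone–Weierstrass,
`ContinuousMap.subalgebra_topologicalClosure_eq_top_of_separatesPoints`) `G` is uniformly within `ε` of a polynomial on it, i.e. of a finite
sum of terms `c ∏_i x_i^{e_i}`; apply it at the point `clamp R x_i`. The functions `x ↦ (clamp R x)^e` are bounded and Lipschitz. -/
theorem stone (m : ℕ) (G : (Fin m → ℝ) → ℝ) (hG : Continuous G) (R : ℝ) (hR : 0 < R) (ε : ℝ)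
    (hε : 0 < ε) : ∃ (r : ℕ) (c : Fin r → ℝ) (f : Fin r → Fin m → ℝ → ℝ) (M : ℝ), 0 < M ∧
      (∀ i j, BL M (f i j)) ∧
      ∀ x : Fin m → ℝ, |G (fun j => clamp R (x j)) - ∑ i, c i * ∏ j, f i j (x j)| ≤ ε := by
  classical
  have hsep : (MvPolynomial.aeval (QW12a_co m) : MvPolynomial (Fin m) ℝ →ₐ[ℝ] _).range.SeparatesPoints := by
    intro x y hxy
    obtain ⟨j, hj⟩ := Function.ne_iff.1 hxy
    refine ⟨_, ⟨MvPolynomial.aeval (QW12a_co m) (MvPolynomial.X j), ⟨MvPolynomial.X j, rfl⟩, rfl⟩, ?_⟩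
    show (MvPolynomial.aeval (QW12a_co m) (MvPolynomial.X j)) x ≠
      (MvPolynomial.aeval (QW12a_co m) (MvPolynomial.X j)) y
    rw [MvPolynomial.aeval_X]
    exact hj
  obtain ⟨g, ⟨P, rfl⟩, hg⟩ :=
    ContinuousMap.exists_mem_subalgebra_near_continuous_of_isCompact_of_separatesPoints hsep
      ⟨G, hG⟩ (isCompact_Icc (a := fun _ : Fin m => -R) (b := fun _ => R)) hε
  set e := P.support.equivFin.symm
  set d : Fin P.support.card → Fin m → ℕ := fun i j => ((e i : Fin m →₀ ℕ)) j with hd
  set M : ℝ := 1 + ∑ i, ∑ j, (R ^ (d i j) + d i j * R ^ (d i j - 1)) with hM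
  have hterm : ∀ i j, 0 ≤ R ^ (d i j) + d i j * R ^ (d i j - 1) := fun i j => by positivity
  have hle : ∀ i j, R ^ (d i j) + d i j * R ^ (d i j - 1) ≤ M := by
    intro i j
    have h1 : R ^ (d i j) + d i j * R ^ (d i j - 1) ≤ ∑ j, (R ^ (d i j) + d i j * R ^ (d i j - 1)) :=
      Finset.single_le_sum (f := fun j => R ^ (d i j) + d i j * R ^ (d i j - 1))
        (fun j _ => hterm i j) (Finset.mem_univ j)
    have h2 : ∑ j, (R ^ (d i j) + d i j * R ^ (d i j - 1)) ≤
        ∑ i, ∑ j, (R ^ (d i j) + d i j * R ^ (d i j - 1)) :=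
      Finset.single_le_sum (f := fun i => ∑ j, (R ^ (d i j) + d i j * R ^ (d i j - 1)))
        (fun i _ => Finset.sum_nonneg fun j _ => hterm i j) (Finset.mem_univ i)
    rw [hM]
    linarith
  have hM0 : 0 < M := by
    have : 0 ≤ ∑ i, ∑ j, (R ^ (d i j) + d i j * R ^ (d i j - 1)) :=
      Finset.sum_nonneg fun i _ => Finset.sum_nonneg fun j _ => hterm i j
    rw [hM]
    linarith
  refine ⟨P.support.card, fun i => P.coeff (e i), fun i j x => clamp R x ^ (d i j), M, hM0, ?_, ?_⟩
  · intro i j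
    have h1 := hle i j
    have h2 : 0 ≤ R ^ (d i j) := by positivity
    have h3 : (0 : ℝ) ≤ d i j * R ^ (d i j - 1) := by positivity
    exact QW12a_pow hR (d i j) (by linarith) (by linarith)
  · intro x
    have hx : (fun j => clamp R (x j)) ∈ Set.Icc (fun _ : Fin m => -R) (fun _ => R) := by
      constructor
      · intro j
        exact (abs_le.1 (QW12a_abs hR (x j))).1
      · intro j
        exact (abs_le.1 (QW12a_abs hR (x j))).2
    have h1 := hg _ hx
    have h2 : (MvPolynomial.aeval (QW12a_co m) P) (fun j => clamp R (x j)) =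
        ∑ i, P.coeff (e i) * ∏ j, clamp R (x j) ^ (d i j) := by
      rw [QW12a_eval, MvPolynomial.eval_eq']
      rw [← Finset.sum_coe_sort]
      exact (Equiv.sum_comp e fun i : P.support =>
        P.coeff (i : Fin m →₀ ℕ) * ∏ j, clamp R (x j) ^ ((i : Fin m →₀ ℕ) j)).symm
    rw [abs_sub_comm, ← h2, ← Real.norm_eq_abs]
    exact h1.le

end Pool.Agent.BPT
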