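import Pool.Agent.MP_99a865_pr.ST.QD
import Pool.Agent.MP_99a865_pr.ST.QW12a

/-! **[STB-QW12b]** From products to bounded Lipschitz functions of a vector (Stone–Weierstrass). -/

open MeasureTheory ProbabilityTheory Filter Topology
open scoped ENNReal NNReal

namespace Pool.Agent.BPT

private theorem QW12b_cont {M : ℝ} {f : ℝ → ℝ} (h : BL M f) : Continuous f := by
  have h0 : ∀ x y, dist (f x) (f y) ≤ M.toNNReal * dist x y := by
    intro x y
    rw [Real.dist_eq, Real.dist_eq]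
    exact (h.lip x y).trans (mul_le_mul_of_nonneg_right (Real.le_coe_toNNReal M) (abs_nonneg _))
  exact (LipschitzWith.of_dist_le_mul h0).continuous

private theorem QW12b_est {Ω : Type} [MeasurableSpace Ω] (P : Measure Ω) [IsProbabilityMeasure P]
    {m : ℕ} (G : (Fin m → ℝ) → ℝ) (hG : Continuous G) (M : ℝ) (hGM : ∀ x, |G x| ≤ M) (R : ℝ)
    {ε : ℝ} {r : ℕ} (c : Fin r → ℝ) (f : Fin r → Fin m → ℝ → ℝ) {MM : ℝ}
    (hf : ∀ i j, BL MM (f i j))
    (hst : ∀ x : Fin m → ℝ, |G (fun j => clamp R (x j)) - ∑ i, c i * ∏ j, f i j (x j)| ≤ ε)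
    (X : Ω → Fin m → ℝ) (hX : ∀ j, Measurable fun ω => X ω j) :
    |∫ ω, G (X ω) ∂P - ∑ i, c i * ∫ ω, ∏ j, f i j (X ω j) ∂P| ≤
      ε + 2 * M * P.real {ω | ∃ j, R < |X ω j|} := by
  have hXm : Measurable X := measurable_pi_iff.2 hX
  have hE : MeasurableSet {ω | ∃ j, R < |X ω j|} := by
    have : {ω | ∃ j, R < |X ω j|} = ⋃ j, {ω | R < |X ω j|} := by
      ext ω
      simp
    rw [this]
    exact MeasurableSet.iUnion fun j => measurableSet_lt measurable_const (hX j).abs
  have hGi : Integrable (fun ω => G (X ω)) P :=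
    Integrable.of_bound ((hG.measurable.comp hXm).aestronglyMeasurable) M
      (Eventually.of_forall fun ω => by rw [Real.norm_eq_abs]; exact hGM _)
  have hfi : ∀ i, Integrable (fun ω => ∏ j, f i j (X ω j)) P := by
    intro i
    refine Integrable.of_bound (Finset.measurable_prod _ fun j _ =>
      (QW12b_cont (hf i j)).measurable.comp (hX j)).aestronglyMeasurable (∏ _j : Fin m, MM)
      (Eventually.of_forall fun ω => ?_)
    rw [norm_prod]
    exact Finset.prod_le_prod (fun j _ => norm_nonneg _) (fun j _ => by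
      rw [Real.norm_eq_abs]; exact (hf i j).bd _)
  have hsum : ∑ i, c i * ∫ ω, ∏ j, f i j (X ω j) ∂P =
      ∫ ω, ∑ i, c i * ∏ j, f i j (X ω j) ∂P := by
    rw [integral_finsetSum _ (fun i _ => (hfi i).const_mul (c i))]
    apply Finset.sum_congr rfl
    intro i _
    rw [integral_const_mul]
  have hsi : Integrable (fun ω => ∑ i, c i * ∏ j, f i j (X ω j)) P :=
    integrable_finsetSum _ fun i _ => (hfi i).const_mul (c i)
  rw [hsum, ← integral_sub hGi hsi]
  refine (abs_integral_le_integral_abs).trans ?_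
  have hb : ∀ ω, |G (X ω) - ∑ i, c i * ∏ j, f i j (X ω j)| ≤
      ε + {ω | ∃ j, R < |X ω j|}.indicator (fun _ => 2 * M) ω := by
    intro ω
    have h1 := hst (X ω)
    by_cases hω : ω ∈ {ω | ∃ j, R < |X ω j|}
    · rw [Set.indicator_of_mem hω]
      have h2 := hGM (X ω)
      have h3 := hGM (fun j => clamp R (X ω j))
      have h4 := abs_sub_le (G (X ω)) (G (fun j => clamp R (X ω j)))
        (∑ i, c i * ∏ j, f i j (X ω j))
      have h5 := abs_sub (G (X ω)) (G (fun j => clamp R (X ω j)))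
      linarith
    · rw [Set.indicator_of_notMem hω, add_zero]
      have h2 : (fun j => clamp R (X ω j)) = X ω := by
        funext j
        apply QW12a_eq
        by_contra hc
        exact hω ⟨j, not_le.1 hc⟩
      rw [h2] at h1
      exact h1
  have hint : Integrable (fun ω => ε + {ω | ∃ j, R < |X ω j|}.indicator (fun _ => 2 * M) ω) P :=
    (integrable_const _).add ((integrable_const _).indicator hE)
  refine (integral_mono (hGi.sub hsi).abs hint hb).trans (le_of_eq ?_)
  rw [integral_add (integrable_const _) ((integrable_const _).indicator hE), integral_const,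
    integral_indicator_const _ hE]
  simp only [probReal_univ, smul_eq_mul, one_mul]
  ring

/-- Abstract statement: laws on `ℝ^m` whose integrals of products of bounded Lipschitz functions converge, and which are tight. The limit
`c` of `∫ G` exists for `G` bounded and continuous, and depends on `G` and on the limits `Ψ` of the products only. `ι` indexes the models,
`l i` is the filter and `P i n` the law, `X i n` the vector of the model `i`.
PROOF. If all the filters are trivial, nothing to prove. Otherwise: for `r ≥ 1` take `R = r`, `ε = 1/r` in `stone`, giving `c_r = ∑ c_i Ψ (f_i)`. For every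
model, `|∫ G - ∑ c_i ∫ ∏ f_i| ≤ 1/r + 2 M P(some |X_j| > r)`, and the last probability is at most `θ` for `n` late if `r ≥ R_θ` (tightness of
the model). So `limsup |∫ G - c_r| ≤ 1/r + 2 M θ_i(r)`, where `θ_i(r) → 0`; comparing `c_r`, `c_{r'}` through one model with a nontrivial
filter, `c_r` is a Cauchy sequence, with limit `c`, and `∫ G → c` for every model. -/
theorem vec_lim (m : ℕ) (Ψ : (Fin m → ℝ → ℝ) → ℝ) (G : (Fin m → ℝ) → ℝ) (hG : Continuous G)
    (M : ℝ) (hGM : ∀ x, |G x| ≤ M) : ∃ c : ℝ, ∀ (Ω : Type) (mΩ : MeasurableSpace Ω) (l : Filter ℕ)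
      (P : ℕ → Measure Ω) (X : ℕ → Ω → Fin m → ℝ), (∀ n, IsFiniteMeasure (P n)) →
      (∀ᶠ n in l, IsProbabilityMeasure (P n)) → (∀ n j, Measurable fun ω => X n ω j) →
      (∀ f : Fin m → ℝ → ℝ, (∃ B > (0 : ℝ), ∀ j, BL B (f j)) →
        Tendsto (fun n => ∫ ω, ∏ j, f j (X n ω j) ∂(P n)) l (𝓝 (Ψ f))) →
      (∀ θ > (0 : ℝ), ∃ R : ℝ, ∀ᶠ n in l, (P n).real {ω | ∃ j, R < |X n ω j|} ≤ θ) →
      Tendsto (fun n => ∫ ω, G (X n ω) ∂(P n)) l (𝓝 c) := by
  classical
  have hM0 : 0 ≤ M := (abs_nonneg _).trans (hGM 0)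
  have hst : ∀ k : ℕ, ∃ (r : ℕ) (c : Fin r → ℝ) (f : Fin r → Fin m → ℝ → ℝ) (MM : ℝ), 0 < MM ∧
      (∀ i j, BL MM (f i j)) ∧ ∀ x : Fin m → ℝ,
        |G (fun j => clamp ((k : ℝ) + 1) (x j)) - ∑ i, c i * ∏ j, f i j (x j)| ≤ 1 / ((k : ℝ) + 1) :=
    fun k => stone m G hG ((k : ℝ) + 1) (by positivity) (1 / ((k : ℝ) + 1)) (by positivity)
  choose r cc f MM hMM hBL hap using hst
  set s : ℕ → ℝ := fun k => ∑ i, cc k i * Ψ (f k i) with hs
  refine ⟨if h : ∃ c, Tendsto s atTop (𝓝 c) then h.choose else 0, ?_⟩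
  intro Ω mΩ l P X hfin hprob hX hconv htight
  rcases l.eq_or_neBot with hl | hl
  · subst hl
    exact tendsto_bot
  -- the main estimate
  have key : ∀ θ > (0 : ℝ), ∃ K : ℕ, ∀ k ≥ K, ∀ᶠ n in l,
      |∫ ω, G (X n ω) ∂(P n) - s k| ≤ (2 * M + 2) * θ := by
    intro θ hθ
    obtain ⟨R, hR⟩ := htight θ hθ
    obtain ⟨K1, hK1⟩ := exists_nat_gt R
    obtain ⟨K2, hK2⟩ := exists_nat_gt (1 / θ)
    refine ⟨max K1 K2, fun k hk => ?_⟩
    have hkR : R ≤ (k : ℝ) + 1 := by
      have : (K1 : ℝ) ≤ k := by exact_mod_cast (le_max_left _ _).trans hk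
      linarith
    have hkθ : 1 / ((k : ℝ) + 1) ≤ θ := by
      have : (K2 : ℝ) ≤ k := by exact_mod_cast (le_max_right _ _).trans hk
      rw [div_le_iff₀ (by positivity)]
      rw [div_lt_iff₀ hθ] at hK2
      nlinarith
    have hlim : Tendsto (fun n => ∑ i, cc k i * ∫ ω, ∏ j, f k i j (X n ω j) ∂(P n)) l (𝓝 (s k)) := by
      rw [hs]
      apply tendsto_finsetSum
      intro i _
      exact (hconv (f k i) ⟨MM k, hMM k, hBL k i⟩).const_mul (cc k i)
    have hev := (Metric.tendsto_nhds.1 hlim) θ hθ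
    filter_upwards [hev, hprob, hR] with n h1 h2 h3
    have h4 := QW12b_est (P n) G hG M hGM ((k : ℝ) + 1) (cc k) (f k) (hBL k) (hap k) (X n) (hX n)
    rw [Real.dist_eq] at h1
    have h5 : (P n).real {ω | ∃ j, (k : ℝ) + 1 < |X n ω j|} ≤ θ := by
      refine (measureReal_mono ?_).trans h3
      rintro ω ⟨j, hj⟩
      exact ⟨j, lt_of_le_of_lt hkR hj⟩
    have h6 := abs_sub_le (∫ ω, G (X n ω) ∂(P n))
      (∑ i, cc k i * ∫ ω, ∏ j, f k i j (X n ω j) ∂(P n)) (s k)
    have h7 : 2 * M * (P n).real {ω | ∃ j, (k : ℝ) + 1 < |X n ω j|} ≤ 2 * M * θ :=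
      mul_le_mul_of_nonneg_left h5 (by linarith)
    linarith
  have hC : 0 < 2 * M + 2 := by linarith
  have hcau : CauchySeq s := by
    rw [Metric.cauchySeq_iff]
    intro ε hε
    obtain ⟨K, hK⟩ := key (ε / (4 * (2 * M + 2))) (by positivity)
    refine ⟨K, fun k hk k' hk' => ?_⟩
    obtain ⟨n, h1, h2⟩ := ((hK k hk).and (hK k' hk')).exists
    have e1 : (2 * M + 2) * (ε / (4 * (2 * M + 2))) = ε / 4 := by
      field_simp
    rw [e1] at h1 h2
    rw [Real.dist_eq]
    have h3 := abs_sub_le (s k) (∫ ω, G (X n ω) ∂(P n)) (s k')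
    rw [abs_sub_comm (s k) (∫ ω, G (X n ω) ∂(P n))] at h3
    linarith
  have hex : ∃ c, Tendsto s atTop (𝓝 c) := cauchySeq_tendsto_of_complete hcau
  rw [dif_pos hex]
  have hc := hex.choose_spec
  set c := hex.choose
  rw [Metric.tendsto_nhds]
  intro ε hε
  obtain ⟨K, hK⟩ := key (ε / (4 * (2 * M + 2))) (by positivity)
  have e1 : (2 * M + 2) * (ε / (4 * (2 * M + 2))) = ε / 4 := by
    field_simp
  obtain ⟨K', hK'⟩ := Metric.tendsto_atTop.1 hc (ε / 4) (by positivity)
  have h1 := hK (max K K') (le_max_left _ _)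
  have h2 := hK' (max K K') (le_max_right _ _)
  rw [e1] at h1
  filter_upwards [h1] with n h3
  rw [Real.dist_eq] at h2 ⊢
  have h4 := abs_sub_le (∫ ω, G (X n ω) ∂(P n)) (s (max K K')) c
  linarith

end Pool.Agent.BPT
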