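import Pool.Agent.MP_99a865_pr.ST.QW6
import Pool.Agent.MP_99a865_pr.ST.QW12

/-! **[STB-QW13]** Functions of the walk at the grid points: universal limits. -/

open MeasureTheory ProbabilityTheory Filter Topology
open scoped ENNReal NNReal

namespace Pool.Agent.BPT

variable {D : Set ℝ} {μ ν : Measure ℝ} {a : ℕ → ℝ} {L V V' : ℝ → ℝ} {p K x₀ : ℝ}

/-- extend a vector by zero -/
noncomputable def QW13_ext (k : ℕ) {E : Type} (z : E) (x : Fin (k - 1) → E) : ℕ → E := fun j =>
  if h : 1 ≤ j ∧ j < k then x ⟨j - 1, by omega⟩ else z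

theorem QW13_ext_of {k : ℕ} {E : Type} (z : E) (x : Fin (k - 1) → E) {j : ℕ} (h : 1 ≤ j ∧ j < k) :
    QW13_ext k z x j = x ⟨j - 1, by omega⟩ := by
  unfold QW13_ext
  rw [dif_pos h]

theorem QW13_prod {k : ℕ} (f : Fin (k - 1) → ℝ → ℝ) (y : ℕ → ℝ) :
    ∏ j ∈ Finset.Ico 1 k, QW13_ext k (fun _ => 0) f j (y j) = ∏ j : Fin (k - 1), f j (y (j + 1)) := by
  rw [Finset.prod_Ico_eq_prod_range, Finset.prod_range]
  refine Finset.prod_congr rfl fun j _ => ?_
  have hj := j.2
  rw [QW13_ext_of _ _ (show 1 ≤ 1 + (j : ℕ) ∧ 1 + (j : ℕ) < k by omega)]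
  have e1 : (⟨1 + (j : ℕ) - 1, by omega⟩ : Fin (k - 1)) = j := by
    apply Fin.ext
    simp
  rw [e1, add_comm 1 (j : ℕ)]

theorem QW13_cond_integral {Ω : Type} [MeasurableSpace Ω] (Q : Measure Ω) (s : Set Ω) (F : Ω → ℝ) :
    ∫ ω, F ω ∂(cond Q s) = (∫ ω in s, F ω ∂Q) / Q.real s := by
  unfold ProbabilityTheory.cond
  rw [integral_smul_measure, ENNReal.toReal_inv, smul_eq_mul, div_eq_inv_mul]
  rfl

theorem QW13_cond_fin {Ω : Type} [MeasurableSpace Ω] (Q : Measure Ω) [IsFiniteMeasure Q] (s : Set Ω) :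
    IsFiniteMeasure (cond Q s) := by
  refine ⟨?_⟩
  unfold ProbabilityTheory.cond
  rw [Measure.smul_apply, Measure.restrict_apply_univ, smul_eq_mul]
  exact lt_of_le_of_lt (ENNReal.inv_mul_le_one _) ENNReal.one_lt_top

theorem grid_lim (Φ : List (ℝ × (ℝ → ℝ)) → ℝ) (k : ℕ) (hk : 2 ≤ k) (G : (ℕ → ℝ) → ℝ)
    (hG : Continuous G) (hGk : ∀ x y : ℕ → ℝ, (∀ j, 1 ≤ j → j < k → x j = y j) → G x = G y)
    (M : ℝ) (hGM : ∀ x, |G x| ≤ M) : ∃ c : ℝ, (∀ (D : Set ℝ) (μ ν : Measure ℝ) (a : ℕ → ℝ),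
      QC Φ D μ ν a → Tendsto (fun n => EN D μ ν n fun ω => G fun j => Zw (gg k n j) ω / a n)
        (lQ D μ ν) (𝓝 c)) ∧
      ∀ (Ω : Type) (mΩ : MeasurableSpace Ω) (P : Measure Ω) (e : ℝ → Ω → ℝ), EP Φ P e →
        ∫ ω, G (fun j => e ((j : ℝ) / k) ω) ∂P = c := by
  classical
  have hGc : Continuous fun x : Fin (k - 1) → ℝ => G (QW13_ext k 0 x) := by
    refine hG.comp (continuous_pi fun j => ?_)
    unfold QW13_ext
    by_cases h : 1 ≤ j ∧ j < k
    · simp only [dif_pos h]
      exact continuous_apply _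
    · simp only [dif_neg h]
      exact continuous_const
  have hGe : ∀ y : ℕ → ℝ, G (QW13_ext k 0 fun i : Fin (k - 1) => y (i + 1)) = G y := by
    intro y
    refine hGk _ _ fun j h1 h2 => ?_
    rw [QW13_ext_of _ _ ⟨h1, h2⟩]
    show y (j - 1 + 1) = y j
    rw [Nat.sub_add_cancel h1]
  have hBL : ∀ (f : Fin (k - 1) → ℝ → ℝ), (∃ B > (0 : ℝ), ∀ j, BL B (f j)) →
      ∃ B > (0 : ℝ), ∀ j, BL B (QW13_ext k (fun _ : ℝ => (0 : ℝ)) f j) := by
    rintro f ⟨B, hB, hf⟩
    refine ⟨B, hB, fun j => ?_⟩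
    unfold QW13_ext
    by_cases h : 1 ≤ j ∧ j < k
    · rw [dif_pos h]
      exact hf _
    · rw [dif_neg h]
      constructor
      · intro x; rw [abs_zero]; exact hB.le
      · intro x y; rw [sub_zero, abs_zero]; positivity
  obtain ⟨c, hc⟩ := vec_lim (k - 1) (fun f => Φ (gl k (QW13_ext k (fun _ => 0) f)))
    (fun x => G (QW13_ext k 0 x)) hGc M (fun x => hGM _)
  refine ⟨c, ?_, ?_⟩
  · rintro D μ ν a ⟨hFdd, L, V, V', p, K, x₀, h⟩
    have hμ := h.qi.probμ
    have hν := h.qi.probν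
    have hPQ : IsProbabilityMeasure (PQ μ ν) := by
      unfold PQ seqLaw
      infer_instance
    have hEN : ∀ n (F : (ℕ → ℝ × ℝ) → ℝ), EN D μ ν n F = ∫ ω, F ω ∂(cond (PQ μ ν) (EvN D n)) := by
      intro n F
      rw [QW13_cond_integral]
      rfl
    have hmem : ∀ᶠ n in lQ D μ ν, PQ μ ν (EvN D n) ≠ 0 :=
      mem_inf_of_right (mem_principal_self _)
    have hlate : ∀ᶠ n in lQ D μ ν, 1 ≤ n := mem_inf_of_left (eventually_ge_atTop 1)
    have hlim := hc (ℕ → ℝ × ℝ) inferInstance (lQ D μ ν) (fun n => cond (PQ μ ν) (EvN D n))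
      (fun n ω j => Zw (gg k n (j + 1)) ω / a n) (fun n => QW13_cond_fin _ _) ?_ ?_ ?_ ?_
    · refine hlim.congr fun n => ?_
      rw [hEN]
      refine integral_congr_ae (Eventually.of_forall fun ω => ?_)
      exact hGe (fun j => Zw (gg k n j) ω / a n)
    · filter_upwards [hmem] with n hn
      exact cond_isProbabilityMeasure hn
    · intro n j
      exact (measurable_Zw _).div_const _
    · intro f hf
      refine (hFdd k hk _ (hBL f hf)).congr fun n => ?_
      rw [hEN]
      refine integral_congr_ae (Eventually.of_forall fun ω => ?_)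
      exact QW13_prod f (fun j => Zw (gg k n j) ω / a n)
    · intro θ hθ
      have hK : 0 < K := lt_of_lt_of_le one_pos h.K_ge
      obtain ⟨R, hR1, hR⟩ := h.tight (θ / K) (by positivity)
      refine ⟨R, ?_⟩
      filter_upwards [hmem, hlate] with n hn hn1
      have hx : 0 < x₀ := lt_of_lt_of_le (by norm_num) h.x_ge
      have ha : 0 < a n := lt_of_lt_of_le hx (h.a_ge n hn1)
      have hbb : 0 < bb V a n := h.bb_pos n hn1
      have hP : bb V a n ≤ K * (PQ μ ν).real (EvN D n) := by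
        rw [PQ_EvN_gen h.dom]
        refine h.hit_ge n hn1 ?_
        rw [← PQ_EvN_gen h.dom, measureReal_def]
        exact (ENNReal.toReal_pos hn (measure_ne_top _ _)).ne'
      have hPpos : 0 < (PQ μ ν).real (EvN D n) := by
        rw [measureReal_def]
        exact ENNReal.toReal_pos hn (measure_ne_top _ _)
      have hsub : EvN D n ∩ {ω | ∃ j : Fin (k - 1), R < |Zw (gg k n (j + 1)) ω / a n|} ⊆
          EvN D n ∩ {ω | ∃ i < n, R * a n ≤ Zw i ω} := by
        rintro ω ⟨hω, j, hj⟩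
        refine ⟨hω, ?_⟩
        have hgg : gg k n (j + 1) < n := by
          unfold gg
          have hkpos : (0 : ℝ) < k := by
            have : 0 < k := by omega
            exact_mod_cast this
          have hn0 : (0 : ℝ) < n := by exact_mod_cast hn1
          rw [Nat.floor_lt (by positivity)]
          have hjk : (((j : ℕ) + 1 : ℕ) : ℝ) < k := by
            have := j.2
            have h3 : (j : ℕ) + 1 < k := by omega
            exact_mod_cast h3
          have h4 : (((j : ℕ) + 1 : ℕ) : ℝ) / k < 1 := (div_lt_one hkpos).2 hjk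
          calc (((j : ℕ) + 1 : ℕ) : ℝ) / k * n < 1 * n := mul_lt_mul_of_pos_right h4 hn0
            _ = n := one_mul _
        have hnn : 0 ≤ Zw (gg k n (j + 1)) ω := by
          refine Zw_nonneg h.dom (D := D) ?_
          intro i hi1 hi2
          exact hω.2.1 i hi1 (by omega)
        refine ⟨gg k n (j + 1), hgg, ?_⟩
        rw [abs_of_nonneg (div_nonneg hnn ha.le), lt_div_iff₀ ha] at hj
        exact hj.le
      show (cond (PQ μ ν) (EvN D n)).real _ ≤ θ
      rw [measureReal_def, cond_apply (measurableSet_EvN h.dom n), ENNReal.toReal_mul,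
        ENNReal.toReal_inv, ← measureReal_def, inv_mul_le_iff₀ hPpos]
      have h5 : (PQ μ ν) (EvN D n ∩ {ω | ∃ j : Fin (k - 1), R < |Zw (gg k n (j + 1)) ω / a n|}) ≤
          ENNReal.ofReal (θ / K * bb V a n) := (measure_mono hsub).trans (hR n hn1)
      refine (ENNReal.toReal_le_of_le_ofReal (by positivity) h5).trans ?_
      calc θ / K * bb V a n ≤ θ / K * (K * (PQ μ ν).real (EvN D n)) :=
            mul_le_mul_of_nonneg_left hP (by positivity)
        _ = (PQ μ ν).real (EvN D n) * θ := by field_simp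
  · intro Ω mΩ P e he
    have hPp := he.prob
    have hlim := hc Ω mΩ atTop (fun _ => P) (fun _ ω j => e (((j + 1 : ℕ) : ℝ) / k) ω)
      (fun _ => inferInstance) (Eventually.of_forall fun _ => hPp) ?_ ?_ ?_
    · have h1 : ∫ ω, G (QW13_ext k 0 fun i : Fin (k - 1) => e (((i + 1 : ℕ) : ℝ) / k) ω) ∂P = c :=
        tendsto_nhds_unique tendsto_const_nhds hlim
      rw [← h1]
      refine integral_congr_ae (Eventually.of_forall fun ω => ?_)
      exact (hGe (fun j => e ((j : ℝ) / k) ω)).symm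
    · intro n j
      exact he.meas _
    · intro f hf
      have h2 := he.fdd k hk _ (hBL f hf)
      have h3 : ∫ ω, ∏ j, f j (e (((j + 1 : ℕ) : ℝ) / k) ω) ∂P =
          Φ (gl k (QW13_ext k (fun _ => 0) f)) := by
        rw [← h2]
        refine integral_congr_ae (Eventually.of_forall fun ω => ?_)
        exact (QW13_prod f (fun j => e ((j : ℝ) / k) ω)).symm
      rw [h3]
      exact tendsto_const_nhds
    · intro θ hθ
      have hmS : ∀ r : ℕ, MeasurableSet {ω | ∃ j : Fin (k - 1), (r : ℝ) < |e (((j + 1 : ℕ) : ℝ) / k) ω|} := by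
        intro r
        have : {ω | ∃ j : Fin (k - 1), (r : ℝ) < |e (((j + 1 : ℕ) : ℝ) / k) ω|} =
            ⋃ j : Fin (k - 1), {ω | (r : ℝ) < |e (((j + 1 : ℕ) : ℝ) / k) ω|} := by
          ext ω
          simp
        rw [this]
        exact MeasurableSet.iUnion fun j => measurableSet_lt measurable_const (he.meas _).abs
      have hanti : Antitone fun r : ℕ => {ω | ∃ j : Fin (k - 1), (r : ℝ) < |e (((j + 1 : ℕ) : ℝ) / k) ω|} := by
        intro r r' hrr ω
        rintro ⟨j, hj⟩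
        have : (r : ℝ) ≤ r' := by exact_mod_cast hrr
        exact ⟨j, lt_of_le_of_lt this hj⟩
      have hempty : (⋂ r : ℕ, {ω | ∃ j : Fin (k - 1), (r : ℝ) < |e (((j + 1 : ℕ) : ℝ) / k) ω|}) = ∅ := by
        rw [Set.eq_empty_iff_forall_notMem]
        intro ω hω
        rw [Set.mem_iInter] at hω
        obtain ⟨r, hr⟩ := exists_nat_ge (∑ j : Fin (k - 1), |e (((j + 1 : ℕ) : ℝ) / k) ω|)
        obtain ⟨j, hj⟩ := hω r
        have h4 := Finset.single_le_sum (f := fun j : Fin (k - 1) => |e (((j + 1 : ℕ) : ℝ) / k) ω|)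
          (fun _ _ => abs_nonneg _) (Finset.mem_univ j)
        have h5 : |e (((j + 1 : ℕ) : ℝ) / k) ω| ≤ (r : ℝ) := h4.trans hr
        linarith
      have hlim0 := tendsto_measure_iInter_atTop (μ := P) (fun r => (hmS r).nullMeasurableSet) hanti
        ⟨0, measure_ne_top _ _⟩
      rw [hempty, measure_empty] at hlim0
      have hθ' : (0 : ℝ≥0∞) < ENNReal.ofReal θ := ENNReal.ofReal_pos.2 hθ
      obtain ⟨r, hr⟩ := (hlim0.eventually (gt_mem_nhds hθ')).exists
      refine ⟨r, Eventually.of_forall fun _ => ?_⟩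
      rw [measureReal_def]
      exact ENNReal.toReal_le_of_le_ofReal hθ.le hr.le

end Pool.Agent.BPT
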