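import Pool.Agent.MP_99a865_pr.ST.QW6

/-! **[STB-QW14a]** Comparison of conditional expectations; common limits of several models. -/

open MeasureTheory ProbabilityTheory Filter Topology
open scoped ENNReal NNReal

namespace Pool.Agent.BPT

variable {D : Set ℝ} {μ ν : Measure ℝ} {a : ℕ → ℝ} {L V V' : ℝ → ℝ} {p K x₀ : ℝ}

private lemma QW14a_meas_BL {M : ℝ} {F : ℝ → ℝ} (hF : BL M F) : Measurable F := by
  have hM : 0 ≤ M := (abs_nonneg _).trans (hF.bd 0)
  have : LipschitzWith (Real.toNNReal M) F := by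
    apply LipschitzWith.of_dist_le_mul
    intro x y
    rw [Real.dist_eq, Real.dist_eq, Real.coe_toNNReal _ hM]
    exact hF.lip x y
  exact this.continuous.measurable

/-- PROOF. `|F x - F y| ≤ 2 min(1, |x - y|)`, so the difference is at most `2 τ bb n/P(N = n) ≤ 2 K τ` (`hit_ge`, `PQ_EvN_gen`). -/
theorem QS.EN_close (h : QS D μ ν a L V V' p K x₀) {F : ℝ → ℝ} (hF : BL 1 F) {n : ℕ} (hn : 1 ≤ n)
    (hP : PQ μ ν (EvN D n) ≠ 0) {X Y : (ℕ → ℝ × ℝ) → ℝ} (hX : Measurable X) (hY : Measurable Y)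
    {τ : ℝ} (hτ : 0 ≤ τ)
    (hXY : ∫⁻ ω in EvN D n, ENNReal.ofReal (min 1 |X ω - Y ω|) ∂(PQ μ ν) ≤
      ENNReal.ofReal (τ * bb V a n)) :
    |EN D μ ν n (fun ω => F (X ω)) - EN D μ ν n (fun ω => F (Y ω))| ≤ 2 * K * τ := by
  have hpμ := h.qi.probμ
  have hpν := h.qi.probν
  have hF' := QW14a_meas_BL hF
  have hbbpos := h.bb_pos n hn
  have hint : ∀ Z : (ℕ → ℝ × ℝ) → ℝ, Measurable Z →
      Integrable (fun ω => F (Z ω)) ((PQ μ ν).restrict (EvN D n)) := by
    intro Z hZ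
    refine Integrable.of_bound (hF'.comp hZ).aestronglyMeasurable 1 ?_
    exact Eventually.of_forall fun ω => by rw [Real.norm_eq_abs]; exact hF.bd _
  have hPr : 0 < (PQ μ ν).real (EvN D n) := by
    rw [measureReal_def]
    exact ENNReal.toReal_pos hP (measure_ne_top _ _)
  unfold EN
  rw [← sub_div, ← integral_sub (hint X hX) (hint Y hY), abs_div, abs_of_pos hPr,
    div_le_iff₀ hPr]
  have hmin : Measurable fun ω => min 1 |X ω - Y ω| := measurable_const.min (hX.sub hY).abs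
  have hminn : ∀ ω, 0 ≤ min 1 |X ω - Y ω| := fun ω => le_min zero_le_one (abs_nonneg _)
  have hintm : Integrable (fun ω => min 1 |X ω - Y ω|) ((PQ μ ν).restrict (EvN D n)) := by
    refine Integrable.of_bound hmin.aestronglyMeasurable 1 ?_
    exact Eventually.of_forall fun ω => by
      rw [Real.norm_eq_abs, abs_of_nonneg (hminn ω)]; exact min_le_left _ _
  have h1 : |∫ ω in EvN D n, (F (X ω) - F (Y ω)) ∂(PQ μ ν)| ≤
      ∫ ω in EvN D n, 2 * min 1 |X ω - Y ω| ∂(PQ μ ν) := by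
    refine (abs_integral_le_integral_abs).trans ?_
    refine integral_mono ((hint X hX).sub (hint Y hY)).abs (hintm.const_mul 2) ?_
    intro ω
    show |F (X ω) - F (Y ω)| ≤ 2 * min 1 |X ω - Y ω|
    rcases le_total 1 |X ω - Y ω| with h2 | h2
    · rw [min_eq_left h2]
      have h3 := hF.bd (X ω)
      have h4 := hF.bd (Y ω)
      have h5 : |F (X ω) - F (Y ω)| ≤ |F (X ω)| + |F (Y ω)| := abs_sub _ _
      linarith
    · rw [min_eq_right h2]
      have h3 := hF.lip (X ω) (Y ω)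
      have := abs_nonneg (X ω - Y ω)
      linarith
  have h2 : ∫ ω in EvN D n, min 1 |X ω - Y ω| ∂(PQ μ ν) ≤ τ * bb V a n := by
    rw [integral_eq_lintegral_of_nonneg_ae (Eventually.of_forall hminn) hmin.aestronglyMeasurable]
    exact ENNReal.toReal_le_of_le_ofReal (by positivity) hXY
  rw [integral_const_mul] at h1
  have h3 : bb V a n ≤ K * (PQ μ ν).real (EvN D n) := by
    rw [PQ_EvN_gen h.dom]
    refine h.hit_ge n hn ?_
    rw [← PQ_EvN_gen h.dom]
    exact hPr.ne'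
  calc |∫ ω in EvN D n, (F (X ω) - F (Y ω)) ∂(PQ μ ν)|
      ≤ 2 * (τ * bb V a n) := h1.trans (by linarith)
    _ ≤ 2 * (τ * (K * (PQ μ ν).real (EvN D n))) := by
        have := mul_le_mul_of_nonneg_left h3 hτ
        linarith
    _ = 2 * K * τ * (PQ μ ν).real (EvN D n) := by ring

/-- the same with an exceptional event. PROOF. `min 1 |X - Y| ≤ τ + 1_A` on `EvN D n`, `P(N = n) ≤ C bb n` (`hit_V`, `V_zero`: `C = K²`). -/
theorem QS.close_of_event (h : QS D μ ν a L V V' p K x₀) {n : ℕ} (hn : 1 ≤ n)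
    {X Y : (ℕ → ℝ × ℝ) → ℝ} {A : Set (ℕ → ℝ × ℝ)} {τ : ℝ} (hτ : 0 ≤ τ)
    (hA : PQ μ ν (EvN D n ∩ A) ≤ ENNReal.ofReal (τ * bb V a n))
    (hXY : ∀ ω, ω ∈ EvN D n → NN ω → ω ∉ A → |X ω - Y ω| ≤ τ) :
    ∫⁻ ω in EvN D n, ENNReal.ofReal (min 1 |X ω - Y ω|) ∂(PQ μ ν) ≤
      ENNReal.ofReal ((K ^ 2 + 1) * τ * bb V a n) := by
  classical
  have hpμ := h.qi.probμ
  have hpν := h.qi.probν
  have hK : 0 < K := lt_of_lt_of_le one_pos h.K_ge
  have hbbpos := h.bb_pos n hn
  set A' := toMeasurable (PQ μ ν) (EvN D n ∩ A) with hA'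
  have hA'm : MeasurableSet A' := measurableSet_toMeasurable _ _
  have hA'v : PQ μ ν A' ≤ ENNReal.ofReal (τ * bb V a n) := by
    rw [hA', measure_toMeasurable]; exact hA
  have hEm : MeasurableSet (EvN D n) := measurableSet_EvN h.dom n
  have h1 : ∫⁻ ω in EvN D n, ENNReal.ofReal (min 1 |X ω - Y ω|) ∂(PQ μ ν) ≤
      ∫⁻ ω in EvN D n, (ENNReal.ofReal τ + A'.indicator 1 ω) ∂(PQ μ ν) := by
    refine lintegral_mono_ae ?_
    refine (ae_restrict_iff' hEm).2 ?_
    filter_upwards [ae_NN h.qi] with ω hω hE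
    by_cases hωA : ω ∈ A
    · have h2 : ω ∈ A' := subset_toMeasurable _ _ ⟨hE, hωA⟩
      rw [Set.indicator_of_mem h2]
      refine le_trans ?_ le_add_self
      have : min 1 |X ω - Y ω| ≤ 1 := min_le_left _ _
      calc ENNReal.ofReal (min 1 |X ω - Y ω|) ≤ ENNReal.ofReal 1 := ENNReal.ofReal_le_ofReal this
        _ = (1 : (ℕ → ℝ × ℝ) → ℝ≥0∞) ω := by simp
    · refine le_trans (ENNReal.ofReal_le_ofReal ?_) le_self_add
      exact (min_le_right _ _).trans (hXY ω hE hω hωA)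
  refine h1.trans ?_
  rw [lintegral_add_left measurable_const, setLIntegral_const]
  have h2 : ∫⁻ ω in EvN D n, A'.indicator 1 ω ∂(PQ μ ν) ≤ PQ μ ν A' := by
    rw [lintegral_indicator_one hA'm]
    exact Measure.restrict_apply_le _ _
  have h3 : PQ μ ν (EvN D n) ≤ ENNReal.ofReal (K ^ 2 * bb V a n) := by
    rw [← ofReal_measureReal, PQ_EvN_gen h.dom]
    refine ENNReal.ofReal_le_ofReal ?_
    have h4 := h.hit_V n n 0 hn le_rfl (by omega) le_rfl
    refine h4.trans ?_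
    have hnp : (0 : ℝ) < n := by exact_mod_cast hn
    have hV : 0 < V (a n) := lt_of_lt_of_le one_pos (h.V_one _)
    unfold bb
    rw [mul_one_div]
    apply div_le_div_of_nonneg_right _ (by positivity)
    have := mul_le_mul_of_nonneg_left h.V_zero hK.le
    nlinarith
  calc ENNReal.ofReal τ * PQ μ ν (EvN D n) + ∫⁻ ω in EvN D n, A'.indicator 1 ω ∂(PQ μ ν)
      ≤ ENNReal.ofReal τ * ENNReal.ofReal (K ^ 2 * bb V a n) + ENNReal.ofReal (τ * bb V a n) :=
        add_le_add (mul_le_mul' le_rfl h3) (h2.trans hA'v)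
    _ = ENNReal.ofReal ((K ^ 2 + 1) * τ * bb V a n) := by
        rw [← ENNReal.ofReal_mul hτ, ← ENNReal.ofReal_add (by positivity) (by positivity)]
        congr 1
        ring

/-- Common limit of several models. PROOF. If all the filters are `⊥`, every `c` will do. Otherwise fix `i₀` with `l i₀ ≠ ⊥`. With `i = j = i₀` the
hypothesis says that `x i₀` is Cauchy along `l i₀`; let `c` be the limit. For `j` and `τ` take `c'` for `(i₀, j)`: `|c - c'| ≤ τ`, so eventually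
`|x j n - c| ≤ 2τ`. -/
theorem common_lim {ι : Type*} (l : ι → Filter ℕ) (x : ι → ℕ → ℝ)
    (h : ∀ i j, ∀ τ > (0 : ℝ), ∃ c : ℝ, (∀ᶠ n in l i, |x i n - c| ≤ τ) ∧
      ∀ᶠ n in l j, |x j n - c| ≤ τ) : ∃ c : ℝ, ∀ i, Tendsto (x i) (l i) (𝓝 c) := by
  by_cases hall : ∀ i, l i = ⊥
  · refine ⟨0, fun i => ?_⟩
    rw [hall i]
    exact tendsto_bot
  · push Not at hall
    obtain ⟨i₀, hi₀⟩ := hall
    have hne : (l i₀).NeBot := hi₀
    have hcau : Cauchy (map (x i₀) (l i₀)) := by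
      rw [Metric.cauchy_iff]
      refine ⟨hne.map _, ?_⟩
      intro ε hε
      obtain ⟨c, hc, -⟩ := h i₀ i₀ (ε / 4) (by positivity)
      refine ⟨Metric.closedBall c (ε / 4), ?_, ?_⟩
      · rw [mem_map]
        filter_upwards [hc] with n hn
        exact hn
      · intro y hy z hz
        have h1 := dist_triangle_right y z c
        have h2 := Metric.mem_closedBall.1 hy
        have h3 := Metric.mem_closedBall.1 hz
        linarith
    obtain ⟨c, hc⟩ := CompleteSpace.complete hcau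
    have hc' : Tendsto (x i₀) (l i₀) (𝓝 c) := hc
    refine ⟨c, fun j => ?_⟩
    rw [Metric.tendsto_nhds]
    intro ε hε
    obtain ⟨c', hc1, hc2⟩ := h i₀ j (ε / 3) (by positivity)
    have h1 : |c - c'| ≤ ε / 3 := by
      have h2 : Tendsto (fun n => |x i₀ n - c'|) (l i₀) (𝓝 |c - c'|) :=
        (hc'.sub_const c').abs
      exact le_of_tendsto h2 hc1
    filter_upwards [hc2] with n hn
    rw [Real.dist_eq]
    have h3 : |x j n - c| ≤ |x j n - c'| + |c' - c| := abs_sub_le _ _ _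
    rw [abs_sub_comm c' c] at h3
    linarith

end Pool.Agent.BPT
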