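import Pool.Agent.MP_99a865_pr.ST.QW6
import Pool.Agent.MP_99a865_pr.ST.QW14a

/-! **[STB-QW14b]** Comparison of conditional expectations; common limits of several models. -/

open MeasureTheory ProbabilityTheory Filter Topology
open scoped ENNReal NNReal

namespace Pool.Agent.BPT

variable {D : Set ℝ} {μ ν : Measure ℝ} {a : ℕ → ℝ} {L V V' : ℝ → ℝ} {p K x₀ : ℝ}

/-- truncation of one law -/
theorem QW14b_trunc {Ω : Type} [MeasurableSpace Ω] (Q : Measure Ω) (X : Ω → ℝ) (hX : Measurable X)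
    (R : ℕ → ℝ) (hR0 : ∀ k, 0 ≤ R k) (hRm : Monotone R) :
    ∃ W : Measure ℝ, IsProbabilityMeasure W ∧
      (∀ k : ℕ, W.real (Set.Icc (-R k) (R k))ᶜ ≤ 1 / ((k : ℝ) + 1)) ∧
      ∀ k : ℕ, (IsProbabilityMeasure Q ∧ ∀ j ≤ k, Q.real {ω | R j < |X ω|} ≤ 1 / ((j : ℝ) + 1)) →
        ∀ (f : ℝ → ℝ) (B : ℝ), Measurable f → (∀ x, |f x| ≤ B) →
          |∫ x, f x ∂W - ∫ ω, f (X ω) ∂Q| ≤ 2 * B / ((k : ℝ) + 1) := by
  classical
  have hIcc : ∀ (k : ℕ) (x : ℝ), x ∈ (Set.Icc (-R k) (R k))ᶜ ↔ R k < |x| := by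
    intro k x
    rw [Set.mem_compl_iff, Set.mem_Icc, ← abs_le, not_le]
  have hdirac : ∀ k : ℕ, (Measure.dirac (0 : ℝ)).real (Set.Icc (-R k) (R k))ᶜ ≤ 1 / ((k : ℝ) + 1) := by
    intro k
    have h1 : (Measure.dirac (0 : ℝ)) (Set.Icc (-R k) (R k))ᶜ = 0 := by
      rw [Measure.dirac_apply' _ measurableSet_Icc.compl, Set.indicator_of_notMem]
      rw [hIcc]
      simpa using hR0 k
    rw [measureReal_def, h1, ENNReal.toReal_zero]
    positivity
  by_cases hQ : IsProbabilityMeasure Q
  swap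
  · exact ⟨Measure.dirac 0, inferInstance, hdirac, fun k hk => absurd hk.1 hQ⟩
  by_cases hall : ∀ j, Q.real {ω | R j < |X ω|} ≤ 1 / ((j : ℝ) + 1)
  · refine ⟨Q.map X, Measure.isProbabilityMeasure_map hX.aemeasurable, ?_, ?_⟩
    · intro k
      have e1 : (Q.map X) (Set.Icc (-R k) (R k))ᶜ = Q {ω | R k < |X ω|} := by
        rw [Measure.map_apply hX measurableSet_Icc.compl]
        congr 1
        ext ω
        exact hIcc k (X ω)
      rw [measureReal_def, e1]
      exact hall k
    · intro k _ f B hf hB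
      have e : ∫ x, f x ∂(Q.map X) = ∫ ω, f (X ω) ∂Q :=
        integral_map hX.aemeasurable hf.aestronglyMeasurable
      rw [e, sub_self, abs_zero]
      have : 0 ≤ B := (abs_nonneg _).trans (hB 0)
      positivity
  · have hex : ∃ j, ¬ Q.real {ω | R j < |X ω|} ≤ 1 / ((j : ℝ) + 1) := not_forall.1 hall
    rcases Nat.eq_zero_or_pos (Nat.find hex) with h0 | hpos
    · refine ⟨Measure.dirac 0, inferInstance, hdirac, fun k hk => ?_⟩
      have h1 := Nat.find_spec hex
      rw [h0] at h1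
      exact absurd (hk.2 0 (Nat.zero_le k)) h1
    · obtain ⟨κ, hκ⟩ : ∃ κ, Nat.find hex = κ + 1 := ⟨Nat.find hex - 1, by omega⟩
      have hgood : ∀ j ≤ κ, Q.real {ω | R j < |X ω|} ≤ 1 / ((j : ℝ) + 1) := by
        intro j hj
        have := Nat.find_min hex (m := j) (by omega)
        exact not_not.1 this
      -- the truncated variable
      have hYm : Measurable fun ω => max (-R κ) (min (R κ) (X ω)) :=
        measurable_const.max (measurable_const.min hX)
      have hYle : ∀ ω, |max (-R κ) (min (R κ) (X ω))| ≤ |X ω| := by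
        intro ω
        have h0 := hR0 κ
        rw [abs_le]
        constructor
        · rcases le_total (R κ) (X ω) with h1 | h1
          · rw [min_eq_left h1, max_eq_right (by linarith)]
            linarith [abs_nonneg (X ω)]
          · rw [min_eq_right h1]
            exact (neg_abs_le (X ω)).trans (le_max_right _ _)
        · refine max_le ?_ ((min_le_right _ _).trans (le_abs_self _))
          linarith [abs_nonneg (X ω)]
      have hYR : ∀ ω, |max (-R κ) (min (R κ) (X ω))| ≤ R κ := by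
        intro ω
        have h0 := hR0 κ
        rw [abs_le]
        exact ⟨le_max_left _ _, max_le (by linarith) (min_le_left _ _)⟩
      have hYeq : ∀ ω, ¬ R κ < |X ω| → max (-R κ) (min (R κ) (X ω)) = X ω := by
        intro ω hω
        rw [not_lt, abs_le] at hω
        rw [min_eq_right hω.2, max_eq_right hω.1]
      refine ⟨Q.map fun ω => max (-R κ) (min (R κ) (X ω)),
        Measure.isProbabilityMeasure_map hYm.aemeasurable, ?_, ?_⟩
      · intro k
        have e1 : (Q.map fun ω => max (-R κ) (min (R κ) (X ω))) (Set.Icc (-R k) (R k))ᶜ =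
            Q {ω | R k < |max (-R κ) (min (R κ) (X ω))|} := by
          rw [Measure.map_apply hYm measurableSet_Icc.compl]
          congr 1
          ext ω
          exact hIcc k _
        rw [measureReal_def, e1, ← measureReal_def]
        by_cases hk : k ≤ κ
        · refine le_trans (measureReal_mono ?_ (measure_ne_top Q _)) (hgood k hk)
          intro ω hω
          exact lt_of_lt_of_le hω (hYle ω)
        · have hempty : {ω | R k < |max (-R κ) (min (R κ) (X ω))|} = ∅ := by
            rw [Set.eq_empty_iff_forall_notMem]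
            intro ω hω
            have h1 : R κ ≤ R k := hRm (by omega)
            have h2 := hYR ω
            have h3 : R k < |max (-R κ) (min (R κ) (X ω))| := hω
            linarith
          rw [hempty, measureReal_empty]
          positivity
      · intro k hk f B hf hB
        have hB0 : 0 ≤ B := (abs_nonneg _).trans (hB 0)
        have hkκ : k ≤ κ := by
          by_contra hcon
          have h1 := Nat.find_spec hex
          exact h1 (hk.2 _ (by omega))
        have e : ∫ x, f x ∂(Q.map fun ω => max (-R κ) (min (R κ) (X ω))) =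
            ∫ ω, f (max (-R κ) (min (R κ) (X ω))) ∂Q :=
          integral_map hYm.aemeasurable hf.aestronglyMeasurable
        rw [e]
        have hi1 : Integrable (fun ω => f (max (-R κ) (min (R κ) (X ω)))) Q :=
          Integrable.of_bound (hf.comp hYm).aestronglyMeasurable B
            (Eventually.of_forall fun ω => hB _)
        have hi2 : Integrable (fun ω => f (X ω)) Q :=
          Integrable.of_bound (hf.comp hX).aestronglyMeasurable B
            (Eventually.of_forall fun ω => hB _)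
        rw [← integral_sub hi1 hi2]
        have hmS : MeasurableSet {ω | R κ < |X ω|} := measurableSet_lt measurable_const hX.abs
        have h1 : |∫ ω, (f (max (-R κ) (min (R κ) (X ω))) - f (X ω)) ∂Q| ≤
            ∫ ω, Set.indicator {ω | R κ < |X ω|} (fun _ => 2 * B) ω ∂Q := by
          rw [← Real.norm_eq_abs]
          refine norm_integral_le_of_norm_le ((integrable_const _).indicator hmS) ?_
          refine Eventually.of_forall fun ω => ?_
          rw [Real.norm_eq_abs]
          by_cases hω : R κ < |X ω|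
          · rw [Set.indicator_of_mem (by exact hω)]
            refine (abs_sub _ _).trans ?_
            linarith [hB (max (-R κ) (min (R κ) (X ω))), hB (X ω)]
          · rw [Set.indicator_of_notMem (by exact hω), hYeq ω hω, sub_self, abs_zero]
        refine h1.trans ?_
        rw [integral_indicator_const _ hmS, smul_eq_mul]
        have h2 := hgood κ le_rfl
        have h3 : 1 / ((κ : ℝ) + 1) ≤ 1 / ((k : ℝ) + 1) := by
          have : (k : ℝ) ≤ κ := by exact_mod_cast hkκ
          gcongr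
        calc Q.real {ω | R κ < |X ω|} * (2 * B) ≤ 1 / ((k : ℝ) + 1) * (2 * B) := by
              refine mul_le_mul_of_nonneg_right (h2.trans h3) (by linarith)
          _ = 2 * B / ((k : ℝ) + 1) := by ring

/-- one model -/
theorem QW14b_one {Ω : Type} [MeasurableSpace Ω] (l : Filter ℕ) (P : ℕ → Measure Ω) (X : ℕ → Ω → ℝ)
    (hP : ∀ᶠ n in l, IsProbabilityMeasure (P n)) (hX : ∀ n, Measurable (X n))
    (ht : ∀ θ > (0 : ℝ), ∃ R : ℝ, ∀ᶠ n in l, (P n).real {ω | R < |X n ω|} ≤ θ) :
    ∃ (W : ℕ → ProbabilityMeasure ℝ) (T : Set (ProbabilityMeasure ℝ)), IsCompact T ∧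
      (∀ n, W n ∈ T) ∧ ∀ (f : ℝ → ℝ) (B : ℝ), Measurable f → (∀ x, |f x| ≤ B) →
        Tendsto (fun n => ∫ x, f x ∂(W n : Measure ℝ) - ∫ ω, f (X n ω) ∂(P n)) l (𝓝 0) := by
  choose R hR using fun k : ℕ => ht (1 / ((k : ℝ) + 1)) (by positivity)
  obtain ⟨R', hR'⟩ : ∃ R' : ℕ → ℝ, R' = fun k => ∑ j ∈ Finset.range (k + 1), |R j| := ⟨_, rfl⟩
  have hR0 : ∀ k, 0 ≤ R' k := by
    intro k
    rw [hR']
    exact Finset.sum_nonneg fun _ _ => abs_nonneg _
  have hRm : Monotone R' := by
    intro i j hij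
    rw [hR']
    exact Finset.sum_le_sum_of_subset_of_nonneg (Finset.range_mono (by omega))
      fun _ _ _ => abs_nonneg _
  have hRR : ∀ k, R k ≤ R' k := by
    intro k
    rw [hR']
    exact (le_abs_self _).trans
      (Finset.single_le_sum (f := fun j => |R j|) (fun _ _ => abs_nonneg _) (Finset.self_mem_range_succ k))
  choose W₁ hW₁p hW1 hW2 using fun n => QW14b_trunc (P n) (X n) (hX n) R' hR0 hRm
  obtain ⟨W, hW⟩ : ∃ W : ℕ → ProbabilityMeasure ℝ, W = fun n => ⟨W₁ n, hW₁p n⟩ := ⟨_, rfl⟩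
  have hu : Tendsto (fun k : ℕ => (1 / ((k : ℝ≥0) + 1))) atTop (𝓝 0) := by
    rw [← NNReal.tendsto_coe]
    push_cast
    exact tendsto_one_div_add_atTop_nhds_zero_nat
  refine ⟨W, {μ | ∀ k, μ (Set.Icc (-R' k) (R' k))ᶜ ≤ (1 / ((k : ℝ≥0) + 1))},
    isCompact_setOfPred_probabilityMeasure_mass_eq_compl_isCompact_le hu (fun k => isCompact_Icc)
      (Or.inl inferInstance), ?_, ?_⟩
  · intro n k
    have h3 := hW1 n k
    rw [← NNReal.coe_le_coe]
    have e : ((W n (Set.Icc (-R' k) (R' k))ᶜ : ℝ≥0) : ℝ) = (W₁ n).real (Set.Icc (-R' k) (R' k))ᶜ := by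
      rw [hW]
      rfl
    rw [e]
    push_cast
    exact h3
  intro f B hf hB
  have hB0 : 0 ≤ B := (abs_nonneg _).trans (hB 0)
  rw [Metric.tendsto_nhds]
  intro ε hε
  obtain ⟨k, hk⟩ : ∃ k : ℕ, 2 * B / ((k : ℝ) + 1) < ε := by
    have h1 : Tendsto (fun k : ℕ => 2 * B * (1 / ((k : ℝ) + 1))) atTop (𝓝 (2 * B * 0)) :=
      tendsto_one_div_add_atTop_nhds_zero_nat.const_mul _
    rw [mul_zero] at h1
    obtain ⟨k, hk⟩ := (h1.eventually (gt_mem_nhds hε)).exists
    exact ⟨k, by rwa [mul_one_div] at hk⟩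
  have h1 : ∀ᶠ n in l, ∀ j ∈ Finset.range (k + 1), (P n).real {ω | R j < |X n ω|} ≤ 1 / ((j : ℝ) + 1) := by
    rw [Filter.eventually_all_finset]
    exact fun j _ => hR j
  filter_upwards [h1, hP] with n hn1 hn2
  have h2 := hW2 n k ⟨hn2, fun j hj => ?_⟩ f B hf hB
  · rw [Real.dist_eq, sub_zero]
    rw [hW]
    exact lt_of_le_of_lt h2 hk
  · refine le_trans (measureReal_mono ?_ (measure_ne_top _ _)) (hn1 j (Finset.mem_range.2 (by omega)))
    intro ω hω
    exact lt_of_le_of_lt (hRR j) hω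

/-- bounded Lipschitz functions determine the law -/
theorem QW14b_uniq (W W' : ProbabilityMeasure ℝ)
    (h : ∀ F : ℝ → ℝ, BL 1 F → ∫ x, F x ∂(W : Measure ℝ) = ∫ x, F x ∂(W' : Measure ℝ)) : W = W' := by
  have h1 : Tendsto (fun _ : ℕ => W) atTop (𝓝 W') := by
    rw [tendsto_iff_forall_lipschitz_integral_tendsto]
    rintro f ⟨C, hC⟩ ⟨Lf, hLf⟩
    obtain ⟨M, hM⟩ : ∃ M : ℝ, M = |f 0| + |C| + Lf + 1 := ⟨_, rfl⟩
    have hM0 : 0 < M := by rw [hM]; positivity
    have hBL : BL 1 (fun x => f x / M) := by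
      constructor
      · intro x
        rw [abs_div, abs_of_pos hM0, div_le_one hM0]
        have h2 := hC x 0
        rw [Real.dist_eq] at h2
        have h3 : |f x| ≤ |f x - f 0| + |f 0| := by
          have := abs_add_le (f x - f 0) (f 0)
          rwa [sub_add_cancel] at this
        have h4 := le_abs_self C
        have h5 : (0 : ℝ) ≤ Lf := Lf.2
        rw [hM]
        linarith
      · intro x y
        rw [one_mul, ← sub_div, abs_div, abs_of_pos hM0, div_le_iff₀ hM0]
        have h2 := hLf.dist_le_mul x y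
        rw [Real.dist_eq, Real.dist_eq] at h2
        refine h2.trans ?_
        rw [mul_comm]
        refine mul_le_mul_of_nonneg_left ?_ (abs_nonneg _)
        rw [hM]
        linarith [abs_nonneg (f 0), abs_nonneg C]
    have h2 := h _ hBL
    rw [integral_div, integral_div, div_left_inj' hM0.ne'] at h2
    rw [h2]
    exact tendsto_const_nhds
  exact tendsto_nhds_unique tendsto_const_nhds h1

theorem law_lim {ι : Type*} (l : ι → Filter ℕ) (Ω : ι → Type) [mΩ : ∀ i, MeasurableSpace (Ω i)]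
    (P : ∀ i, ℕ → Measure (Ω i)) (X : ∀ i, ℕ → Ω i → ℝ)
    (hP : ∀ i, ∀ᶠ n in l i, IsProbabilityMeasure (P i n)) (hX : ∀ i n, Measurable (X i n))
    (hlim : ∀ F : ℝ → ℝ, BL 1 F → ∃ c : ℝ, ∀ i, Tendsto (fun n => ∫ ω, F (X i n ω) ∂(P i n)) (l i) (𝓝 c))
    (ht : ∀ i, ∀ θ > (0 : ℝ), ∃ R : ℝ, ∀ᶠ n in l i, (P i n).real {ω | R < |X i n ω|} ≤ θ) :
    ∃ W : Measure ℝ, IsProbabilityMeasure W ∧ ∀ (f : BoundedContinuousFunction ℝ ℝ) (i : ι),
      Tendsto (fun n => ∫ ω, f (X i n ω) ∂(P i n)) (l i) (𝓝 (∫ x, f x ∂W)) := by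
  by_cases hbot : ∀ i, l i = ⊥
  · refine ⟨Measure.dirac 0, inferInstance, fun f i => ?_⟩
    rw [hbot i]
    exact tendsto_bot
  push Not at hbot
  obtain ⟨i₀, hi₀⟩ := hbot
  have hne : (l i₀).NeBot := hi₀
  choose W T hT hWT hWf using fun i => QW14b_one (l i) (P i) (X i) (hP i) (hX i) (ht i)
  have hcont : ∀ F : ℝ → ℝ, BL 1 F → Continuous F := by
    intro F hF
    have : LipschitzWith 1 F := LipschitzWith.of_dist_le_mul fun x y => by
      rw [Real.dist_eq, Real.dist_eq]
      exact hF.lip x y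
    exact this.continuous
  -- limits of the integrals along ultrafilters
  have hint : ∀ (i : ι) (U : Ultrafilter ℕ) (_ : (U : Filter ℕ) ≤ l i) (W' : ProbabilityMeasure ℝ),
      Tendsto (W i) U (𝓝 W') → ∀ (F : ℝ → ℝ) (_ : BL 1 F) (c : ℝ),
        Tendsto (fun n => ∫ ω, F (X i n ω) ∂(P i n)) (l i) (𝓝 c) →
          ∫ x, F x ∂(W' : Measure ℝ) = c := by
    intro i U hU W' hW' F hF c hc
    have h1 := (ProbabilityMeasure.tendsto_iff_forall_integral_tendsto.1 hW')
      (BoundedContinuousFunction.ofNormedAddCommGroup F (hcont F hF) 1 hF.bd)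
    have h2 := (hWf i F 1 (hcont F hF).measurable hF.bd).mono_left hU
    have h3 := h2.add (hc.mono_left hU)
    simp only [sub_add_cancel, zero_add] at h3
    exact tendsto_nhds_unique h1 h3
  -- the limit law
  have hU₀ : (Ultrafilter.of (l i₀) : Filter ℕ) ≤ l i₀ := Ultrafilter.of_le _
  have hcl : ∀ (i : ι) (U : Ultrafilter ℕ), ∃ W', Tendsto (W i) U (𝓝 W') := by
    intro i U
    obtain ⟨W', -, hW'⟩ := (hT i).ultrafilter_le_nhds (U.map (W i)) (by
      rw [le_principal_iff]
      exact Filter.mem_map.2 (Filter.Eventually.of_forall (hWT i)))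
    exact ⟨W', hW'⟩
  obtain ⟨W₀, hW₀⟩ := hcl i₀ (Ultrafilter.of (l i₀))
  have hW₀c : ∀ (F : ℝ → ℝ) (_ : BL 1 F), ∀ i, Tendsto (fun n => ∫ ω, F (X i n ω) ∂(P i n)) (l i)
      (𝓝 (∫ x, F x ∂(W₀ : Measure ℝ))) := by
    intro F hF i
    obtain ⟨c, hc⟩ := hlim F hF
    rw [hint i₀ _ hU₀ W₀ hW₀ F hF c (hc i₀)]
    exact hc i
  refine ⟨W₀, inferInstance, fun f i => ?_⟩
  have hWi : Tendsto (W i) (l i) (𝓝 W₀) := by
    rw [tendsto_iff_ultrafilter]
    intro U hU
    obtain ⟨W', hW'⟩ := hcl i U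
    have : W' = W₀ := QW14b_uniq _ _ fun F hF => hint i U hU W' hW' F hF _ (hW₀c F hF i)
    rw [← this]
    exact hW'
  have h1 := (ProbabilityMeasure.tendsto_iff_forall_integral_tendsto.1 hWi) f
  have h2 := hWf i f ‖f‖ f.continuous.measurable f.norm_coe_le_norm
  have h3 := h1.sub h2
  simp only [sub_sub_cancel, sub_zero] at h3
  exact h3

end Pool.Agent.BPT
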