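import Pool.Agent.MP_99a865_pr.ST.QW10
import Pool.Agent.MP_99a865_pr.ST.QW11
import Pool.Agent.MP_99a865_pr.ST.QW13
import Pool.Agent.MP_99a865_pr.ST.QW14

/-! **[STB-QW15a]** Height and total height: universal limits. -/

open MeasureTheory ProbabilityTheory Filter Topology
open scoped ENNReal NNReal

namespace Pool.Agent.BPT

theorem QW15a_cont {M : ℝ} {f : ℝ → ℝ} (hf : BL M f) : Continuous f := by
  have hM : 0 ≤ M := (abs_nonneg _).trans (hf.bd 0)
  have : LipschitzWith ⟨M, hM⟩ f := LipschitzWith.of_dist_le_mul fun x y => by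
    rw [Real.dist_eq, Real.dist_eq]
    exact hf.lip x y
  exact this.continuous

/-- PROOF. `grid_lim` with `G x = F ((∑_{1≤j<k} c(j/k) φ(x j))/k)`. -/
theorem YK_lim (Φ : List (ℝ × (ℝ → ℝ)) → ℝ) (k : ℕ) (hk : 2 ≤ k) (c φ : ℝ → ℝ) {M : ℝ} (hc : BL M c)
    (hφ : BL M φ) (F : ℝ → ℝ) (hF : BL 1 F) : ∃ v : ℝ, (∀ (D : Set ℝ) (μ ν : Measure ℝ) (a : ℕ → ℝ),
      QC Φ D μ ν a → Tendsto (fun n => EN D μ ν n fun ω => F (YK a c φ k n ω)) (lQ D μ ν) (𝓝 v)) ∧
      ∀ (Ω : Type) (mΩ : MeasurableSpace Ω) (P : Measure Ω) (e : ℝ → Ω → ℝ), EP Φ P e →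
        ∫ ω, F (YE e c φ k ω) ∂P = v := by
  have hG : Continuous fun x : ℕ → ℝ => F ((∑ j ∈ Finset.Ico 1 k, c ((j : ℝ) / k) * φ (x j)) / k) := by
    refine (QW15a_cont hF).comp (Continuous.div_const (continuous_finsetSum _ fun j _ => ?_) _)
    exact continuous_const.mul ((QW15a_cont hφ).comp (continuous_apply j))
  have hGk : ∀ x y : ℕ → ℝ, (∀ j, 1 ≤ j → j < k → x j = y j) →
      F ((∑ j ∈ Finset.Ico 1 k, c ((j : ℝ) / k) * φ (x j)) / k) =
        F ((∑ j ∈ Finset.Ico 1 k, c ((j : ℝ) / k) * φ (y j)) / k) := by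
    intro x y hxy
    have : ∑ j ∈ Finset.Ico 1 k, c ((j : ℝ) / k) * φ (x j) =
        ∑ j ∈ Finset.Ico 1 k, c ((j : ℝ) / k) * φ (y j) := by
      refine Finset.sum_congr rfl fun j hj => ?_
      rw [Finset.mem_Ico] at hj
      rw [hxy j hj.1 hj.2]
    rw [this]
  obtain ⟨v, h1, h2⟩ := grid_lim Φ k hk
    (fun x => F ((∑ j ∈ Finset.Ico 1 k, c ((j : ℝ) / k) * φ (x j)) / k)) hG hGk 1 (fun x => hF.bd _)
  exact ⟨v, h1, h2⟩

/-- Riemann sums with right end points, deterministic -/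
theorem QW15a_riemann (g : ℝ → ℝ) (B : ℝ) (hB : ∀ t, |g t| ≤ B)
    (hg : ∀ t, 0 < t → t < 1 → ContinuousWithinAt g (Set.Ici t) t) :
    Tendsto (fun k : ℕ => (∑ j ∈ Finset.Ico 1 k, g ((j : ℝ) / k)) / k) atTop
      (𝓝 (∫ t in Set.Ioo (0 : ℝ) 1, g t)) := by
  have hB0 : 0 ≤ B := (abs_nonneg _).trans (hB 0)
  obtain ⟨h, hh⟩ : ∃ h : ℕ → ℕ → ℝ, h = fun (k j : ℕ) => if 1 ≤ j ∧ j < k then g ((j : ℝ) / k) else 0 :=
    ⟨_, rfl⟩
  have hhB : ∀ k j, |h k j| ≤ B := by
    intro k j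
    rw [hh]
    dsimp only
    split_ifs
    · exact hB _
    · rw [abs_zero]; exact hB0
  have hmeas : ∀ k : ℕ, Measurable fun t : ℝ => h k ⌈(k : ℝ) * t⌉₊ := by
    intro k
    exact (measurable_from_top (f := h k)).comp (Nat.measurable_ceil.comp (measurable_const.mul measurable_id))
  -- the integral of the step function
  have hint : ∀ k : ℕ, 1 ≤ k → ∫ t in Set.Ioo (0 : ℝ) 1, h k ⌈(k : ℝ) * t⌉₊ =
      (∑ j ∈ Finset.Ico 1 k, g ((j : ℝ) / k)) / k := by
    intro k hk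
    have hk0 : (0 : ℝ) < k := by exact_mod_cast hk
    rw [← integral_Ioc_eq_integral_Ioo, ← intervalIntegral.integral_of_le zero_le_one]
    have hii : ∀ x y : ℝ, IntervalIntegrable (fun t : ℝ => h k ⌈(k : ℝ) * t⌉₊) volume x y := by
      intro x y
      rw [intervalIntegrable_iff, Set.uIoc]
      refine Integrable.of_bound (hmeas k).aestronglyMeasurable B (Eventually.of_forall fun t => ?_)
      rw [Real.norm_eq_abs]
      exact hhB _ _
    have h1 := intervalIntegral.sum_integral_adjacent_intervals (a := fun i : ℕ => (i : ℝ) / k)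
      (n := k) (μ := volume) (f := fun t : ℝ => h k ⌈(k : ℝ) * t⌉₊) (fun i _ => hii _ _)
    simp only [Nat.cast_zero, zero_div, div_self hk0.ne'] at h1
    rw [← h1]
    have h2 : ∀ i ∈ Finset.range k, (∫ t in (i : ℝ) / k..((i + 1 : ℕ) : ℝ) / k, h k ⌈(k : ℝ) * t⌉₊) =
        h k (i + 1) / k := by
      intro i _
      have hle : (i : ℝ) / k ≤ ((i + 1 : ℕ) : ℝ) / k := by
        gcongr
        push_cast
        linarith
      rw [intervalIntegral.integral_of_le hle]
      have h3 : ∫ t in Set.Ioc ((i : ℝ) / k) (((i + 1 : ℕ) : ℝ) / k), h k ⌈(k : ℝ) * t⌉₊ =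
          ∫ _ in Set.Ioc ((i : ℝ) / k) (((i + 1 : ℕ) : ℝ) / k), h k (i + 1) := by
        refine setIntegral_congr_fun measurableSet_Ioc fun t ht => ?_
        have h4 : ⌈(k : ℝ) * t⌉₊ = i + 1 := by
          rw [Nat.ceil_eq_iff (by omega)]
          obtain ⟨h5, h6⟩ := ht
          rw [div_lt_iff₀ hk0] at h5
          rw [le_div_iff₀ hk0] at h6
          constructor
          · simp only [Nat.add_sub_cancel]
            linarith
          · linarith
        show h k ⌈(k : ℝ) * t⌉₊ = h k (i + 1)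
        rw [h4]
      rw [h3, setIntegral_const, smul_eq_mul, measureReal_def, Real.volume_Ioc, ENNReal.toReal_ofReal (by linarith)]
      push_cast
      field_simp
      ring
    rw [Finset.sum_congr rfl h2, ← Finset.sum_div]
    congr 1
    have h5 : ∑ i ∈ Finset.range k, h k (i + 1) = ∑ j ∈ Finset.Ico 1 (k + 1), h k j := by
      rw [Finset.sum_Ico_eq_sum_range]
      refine Finset.sum_congr (by simp) fun i _ => by rw [add_comm]
    rw [h5, Finset.sum_Ico_succ_top hk]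
    have h6 : h k k = 0 := by
      rw [hh]
      simp
    rw [h6, add_zero]
    refine Finset.sum_congr rfl fun j hj => ?_
    rw [Finset.mem_Ico] at hj
    rw [hh]
    simp [hj.1, hj.2]
  -- dominated convergence
  have hlim : Tendsto (fun k : ℕ => ∫ t in Set.Ioo (0 : ℝ) 1, h k ⌈(k : ℝ) * t⌉₊) atTop
      (𝓝 (∫ t in Set.Ioo (0 : ℝ) 1, g t)) := by
    refine tendsto_integral_of_dominated_convergence (fun _ => B)
      (fun k => (hmeas k).aestronglyMeasurable) (integrable_const _) ?_ ?_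
    · intro k
      refine Eventually.of_forall fun t => ?_
      rw [Real.norm_eq_abs]
      exact hhB _ _
    · refine (ae_restrict_iff' measurableSet_Ioo).2 (Eventually.of_forall fun t ht => ?_)
      obtain ⟨ht0, ht1⟩ := ht
      have h1 : Tendsto (fun k : ℕ => (⌈t * (k : ℝ)⌉₊ : ℝ) / k) atTop (𝓝 t) :=
        (tendsto_nat_ceil_mul_div_atTop ht0.le).comp tendsto_natCast_atTop_atTop
      have h2 : Tendsto (fun k : ℕ => (⌈t * (k : ℝ)⌉₊ : ℝ) / k) atTop (𝓝[Set.Ici t] t) := by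
        refine tendsto_nhdsWithin_iff.2 ⟨h1, ?_⟩
        filter_upwards [eventually_ge_atTop 1] with k hk
        have hk0 : (0 : ℝ) < k := by exact_mod_cast hk
        rw [Set.mem_Ici, le_div_iff₀ hk0]
        exact Nat.le_ceil _
      have h3 : Tendsto (fun k : ℕ => g ((⌈t * (k : ℝ)⌉₊ : ℝ) / k)) atTop (𝓝 (g t)) :=
        (hg t ht0 ht1).tendsto.comp h2
      refine h3.congr' ?_
      have h4 : Tendsto (fun k : ℕ => (k : ℝ) * (1 - t)) atTop atTop :=
        tendsto_natCast_atTop_atTop.atTop_mul_const (by linarith)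
      filter_upwards [eventually_ge_atTop 1, h4.eventually_ge_atTop 1] with k hk hk1
      have hk0 : (0 : ℝ) < k := by exact_mod_cast hk
      have h5 : 1 ≤ ⌈(k : ℝ) * t⌉₊ := Nat.one_le_ceil_iff.2 (by positivity)
      have h6 : ⌈(k : ℝ) * t⌉₊ < k := by
        have := Nat.ceil_lt_add_one (a := (k : ℝ) * t) (by positivity)
        have h7 : (⌈(k : ℝ) * t⌉₊ : ℝ) < k := by nlinarith
        exact_mod_cast h7
      rw [hh]
      simp only [h5, h6, and_self, if_true]
      rw [mul_comm]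
  refine hlim.congr' ?_
  filter_upwards [eventually_ge_atTop 1] with k hk
  exact hint k hk

/-- Riemann sums with right end points. -/
theorem YE_IE {Φ : List (ℝ × (ℝ → ℝ)) → ℝ} {Ω : Type} [MeasurableSpace Ω] {P : Measure Ω}
    {e : ℝ → Ω → ℝ} (he : EP Φ P e) (c φ : ℝ → ℝ) {M : ℝ} (hc : BL M c) (hφ : BL M φ) :
    (∀ᵐ ω ∂P, Tendsto (fun k => YE e c φ k ω) atTop (𝓝 (IE e c φ ω))) ∧
      AEMeasurable (IE e c φ) P := by
  have h1 : ∀ᵐ ω ∂P, Tendsto (fun k => YE e c φ k ω) atTop (𝓝 (IE e c φ ω)) := by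
    filter_upwards [he.path] with ω hω
    refine QW15a_riemann (fun t => c t * φ (e t ω)) (M * M) (fun t => ?_) (fun t ht0 ht1 => ?_)
    · rw [abs_mul]
      have hM : 0 ≤ M := (abs_nonneg _).trans (hc.bd 0)
      exact mul_le_mul (hc.bd _) (hφ.bd _) (abs_nonneg _) hM
    · refine ((QW15a_cont hc).continuousWithinAt).mul ?_
      exact (QW15a_cont hφ).continuousAt.comp_continuousWithinAt (hω t ht0 ht1).2
  refine ⟨h1, ?_⟩
  refine aemeasurable_of_tendsto_metrizable_ae atTop (fun k => ?_) h1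
  refine Measurable.aemeasurable ?_
  unfold YE
  refine Measurable.div_const (Finset.measurable_sum _ fun j _ => ?_) _
  exact measurable_const.mul ((QW15a_cont hφ).measurable.comp (he.meas _))

end Pool.Agent.BPT
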