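import Pool.Agent.MP_99a865_pr.ST.QW10
import Pool.Agent.MP_99a865_pr.ST.QW11
import Pool.Agent.MP_99a865_pr.ST.QW13
import Pool.Agent.MP_99a865_pr.ST.QW14
import Pool.Agent.MP_99a865_pr.ST.QW15a
import Pool.Agent.MP_99a865_pr.FV.F10m

/-! **[STB-QW15b]** Height and total height: universal limits. -/

open MeasureTheory ProbabilityTheory Filter Topology
open scoped ENNReal NNReal

namespace Pool.Agent.BPT

lemma QW15b_cont {M : ℝ} {f : ℝ → ℝ} (hf : BL M f) : Continuous f := by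
  have hM : 0 ≤ M := (abs_nonneg _).trans (hf.bd 0)
  rw [Metric.continuous_iff]
  intro x ε hε
  refine ⟨ε / (M + 1), by positivity, fun y hy => ?_⟩
  rw [Real.dist_eq] at hy ⊢
  have h1 := hf.lip y x
  have h2 : M * |y - x| ≤ (M + 1) * |y - x| := by nlinarith [abs_nonneg (y - x)]
  have h3 : (M + 1) * |y - x| < ε := by
    rw [lt_div_iff₀ (by linarith)] at hy
    linarith
  linarith

lemma QW15b_meas_YS (a : ℕ → ℝ) {c φ : ℝ → ℝ} (hφ : Continuous φ) (n : ℕ) :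
    Measurable (YS a c φ n) := by
  unfold YS
  refine Measurable.div_const (Finset.measurable_fun_sum _ fun i _ => ?_) _
  exact measurable_const.mul (hφ.measurable.comp ((measurable_Zw i).div_const _))

lemma QW15b_meas_YK (a : ℕ → ℝ) {c φ : ℝ → ℝ} (hφ : Continuous φ) (k n : ℕ) :
    Measurable (YK a c φ k n) := by
  unfold YK
  refine Measurable.div_const (Finset.measurable_fun_sum _ fun i _ => ?_) _
  exact measurable_const.mul (hφ.measurable.comp ((measurable_Zw _).div_const _))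

/-- eventually along `lQ` -/
lemma QW15b_ev {D : Set ℝ} {μ ν : Measure ℝ} (n₀ : ℕ) :
    ∀ᶠ n in lQ D μ ν, n₀ ≤ n ∧ PQ μ ν (EvN D n) ≠ 0 := by
  unfold lQ
  rw [eventually_inf_principal]
  filter_upwards [eventually_ge_atTop n₀] with n hn h
  exact ⟨hn, h⟩

/-- one model for the sums: close to the grid values -/
lemma QW15b_queue {D : Set ℝ} {μ ν : Measure ℝ} {a : ℕ → ℝ} {L V V' : ℝ → ℝ} {p K x₀ : ℝ}
    (h : QS D μ ν a L V V' p K x₀) {c φ : ℝ → ℝ} {M : ℝ} (hM : 0 < M) (hc : BL M c) (hφ : BL M φ)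
    {F : ℝ → ℝ} (hF : BL 1 F) {v : ℕ → ℝ}
    (hv : ∀ k, 2 ≤ k → Tendsto (fun n => EN D μ ν n fun ω => F (YK a c φ k n ω)) (lQ D μ ν) (𝓝 (v k))) :
    ∀ τ > (0 : ℝ), ∃ k₀ : ℕ, ∀ k ≥ k₀, ∀ᶠ n in lQ D μ ν,
      |(EN D μ ν n fun ω => F (YS a c φ n ω)) - v k| ≤ τ := by
  intro τ hτ
  have hK : 0 < K := by linarith [h.K_ge]
  obtain ⟨k₀, hk₀⟩ := h.YK_approx c φ M hM hc hφ (τ / (4 * K)) (by positivity)
  refine ⟨max k₀ 2, fun k hk => ?_⟩
  obtain ⟨n₀, hn₀⟩ := hk₀ k ((le_max_left _ _).trans hk)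
  have h1 := hv k ((le_max_right _ _).trans hk)
  have h2 : ∀ᶠ n in lQ D μ ν, |(EN D μ ν n fun ω => F (YK a c φ k n ω)) - v k| ≤ τ / 2 := by
    have := h1.eventually (Metric.ball_mem_nhds (v k) (show 0 < τ / 2 by linarith))
    filter_upwards [this] with n hn
    rw [Real.dist_eq] at hn
    exact hn.le
  filter_upwards [h2, QW15b_ev (D := D) (μ := μ) (ν := ν) (max n₀ 1)] with n hn1 hn2
  have h3 : ∫⁻ ω in EvN D n, ENNReal.ofReal (min 1 |YS a c φ n ω - YK a c φ k n ω|) ∂(PQ μ ν) ≤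
      ENNReal.ofReal (τ / (4 * K) * bb V a n) := by
    refine le_trans (lintegral_mono fun ω => ENNReal.ofReal_le_ofReal (min_le_right _ _)) ?_
    exact hn₀ n ((le_max_left _ _).trans hn2.1)
  have h4 := h.EN_close hF ((le_max_right _ _).trans hn2.1) hn2.2 (QW15b_meas_YS a (QW15b_cont hφ) n)
    (QW15b_meas_YK a (QW15b_cont hφ) k n) (by positivity) h3
  have h5 : 2 * K * (τ / (4 * K)) = τ / 2 := by
    field_simp
    ring
  rw [h5] at h4
  calc _ ≤ _ := abs_sub_le _ (EN D μ ν n fun ω => F (YK a c φ k n ω)) _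
    _ ≤ τ / 2 + τ / 2 := add_le_add h4 hn1
    _ = τ := by ring

lemma QW15b_process {Φ : List (ℝ × (ℝ → ℝ)) → ℝ} {Ω : Type} [mΩ : MeasurableSpace Ω] {P : Measure Ω}
    {e : ℝ → Ω → ℝ} (he : EP Φ P e) {c φ : ℝ → ℝ} {M : ℝ} (hc : BL M c) (hφ : BL M φ)
    {F : ℝ → ℝ} (hF : BL 1 F) {v : ℕ → ℝ} (hv : ∀ k, 2 ≤ k → ∫ ω, F (YE e c φ k ω) ∂P = v k) :
    Tendsto v atTop (𝓝 (∫ ω, F (IE e c φ ω) ∂P)) := by
  have hP := he.prob
  obtain ⟨h1, h2⟩ := YE_IE he c φ hc hφ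
  have hFc := QW15b_cont hF
  have hφc := QW15b_cont hφ
  have h3 : Tendsto (fun k => ∫ ω, F (YE e c φ k ω) ∂P) atTop (𝓝 (∫ ω, F (IE e c φ ω) ∂P)) := by
    refine tendsto_integral_of_dominated_convergence (fun _ => 1) ?_ (integrable_const _) ?_ ?_
    · intro k
      refine (hFc.measurable.comp ?_).aestronglyMeasurable
      unfold YE
      refine Measurable.div_const (Finset.measurable_fun_sum _ fun i _ => ?_) _
      exact measurable_const.mul (hφc.measurable.comp (he.meas _))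
    · intro k
      exact Eventually.of_forall fun ω => hF.bd _
    · filter_upwards [h1] with ω hω
      exact (hFc.tendsto _).comp hω
  refine h3.congr' ?_
  filter_upwards [eventually_ge_atTop 2] with k hk
  exact hv k hk

/-- PROOF. `common_lim` over the models (`ι` = (quadruples with `QC`) ⊕ (processes with `EP`); for a process the filter is `atTop` and the
sequence is the constant `∫ F (IE e c φ ω) ∂P`): for two models and `τ`, choose `k` large for both in `YK_approx` (with `EN_close`,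
`min 1 |x| ≤ |x|`), resp. in `YE_IE` (dominated convergence in `ω`), and `YK_lim` with this `k`. -/
theorem YS_lim (Φ : List (ℝ × (ℝ → ℝ)) → ℝ) (c φ : ℝ → ℝ) {M : ℝ} (hM : 0 < M) (hc : BL M c)
    (hφ : BL M φ) (F : ℝ → ℝ) (hF : BL 1 F) : ∃ v : ℝ, (∀ (D : Set ℝ) (μ ν : Measure ℝ) (a : ℕ → ℝ),
      QC Φ D μ ν a → Tendsto (fun n => EN D μ ν n fun ω => F (YS a c φ n ω)) (lQ D μ ν) (𝓝 v)) ∧
      ∀ (Ω : Type) (mΩ : MeasurableSpace Ω) (P : Measure Ω) (e : ℝ → Ω → ℝ), EP Φ P e →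
        ∫ ω, F (IE e c φ ω) ∂P = v := by
  choose u hu using fun (k : ℕ) (hk : 2 ≤ k) => YK_lim Φ k hk c φ hc hφ F hF
  obtain ⟨v, hv⟩ : ∃ v : ℕ → ℝ, ∀ k (hk : 2 ≤ k), v k = u k hk :=
    ⟨fun k => if hk : 2 ≤ k then u k hk else 0, fun k hk => dif_pos hk⟩
  obtain ⟨w, hw⟩ := common_lim (ι := {q : Filter ℕ × (ℕ → ℝ) // ∀ τ > (0 : ℝ), ∃ k₀ : ℕ, ∀ k ≥ k₀,
      ∀ᶠ n in q.1, |q.2 n - v k| ≤ τ}) (fun q => q.1.1) (fun q => q.1.2) (by
    rintro ⟨q, hq⟩ ⟨q', hq'⟩ τ hτ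
    obtain ⟨k₀, hk₀⟩ := hq τ hτ
    obtain ⟨k₁, hk₁⟩ := hq' τ hτ
    exact ⟨v (max k₀ k₁), hk₀ _ (le_max_left _ _), hk₁ _ (le_max_right _ _)⟩)
  refine ⟨w, ?_, ?_⟩
  · rintro D μ ν a hQ
    obtain ⟨L, V, V', p, K, x₀, h⟩ := hQ.2
    have h1 := QW15b_queue h hM hc hφ hF (v := v) (fun k hk => by
      rw [hv k hk]
      exact (hu k hk).1 D μ ν a hQ)
    exact hw ⟨(lQ D μ ν, fun n => EN D μ ν n fun ω => F (YS a c φ n ω)), h1⟩
  · intro Ω mΩ P e he
    have h1 := QW15b_process he hc hφ hF (v := v) (fun k hk => by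
      rw [hv k hk]
      exact (hu k hk).2 Ω mΩ P e he)
    have h2 := hw ⟨(atTop, fun _ => ∫ ω, F (IE e c φ ω) ∂P), by
      intro τ hτ
      obtain ⟨k₀, hk₀⟩ := (Metric.tendsto_atTop.mp h1) τ hτ
      refine ⟨k₀, fun k hk => Eventually.of_forall fun _ => ?_⟩
      have := hk₀ k hk
      rw [Real.dist_eq, abs_sub_comm] at this
      exact this.le⟩
    exact tendsto_nhds_unique tendsto_const_nhds h2

lemma QW15b_phi {η : ℝ} (hη : 0 < η) : BL (1 + 1 / η + 1 / η ^ 2) (fun x => 1 / max x η) := by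
  have hm : ∀ x : ℝ, η ≤ max x η := fun x => le_max_right _ _
  have hm0 : ∀ x : ℝ, 0 < max x η := fun x => lt_of_lt_of_le hη (hm x)
  refine ⟨fun x => ?_, fun x y => ?_⟩
  · rw [abs_of_nonneg (by have := hm0 x; positivity)]
    have h1 : 1 / max x η ≤ 1 / η := one_div_le_one_div_of_le hη (hm x)
    have h2 : 0 < 1 / η ^ 2 := by positivity
    linarith
  · have h1 : 1 / max x η - 1 / max y η = (max y η - max x η) / (max x η * max y η) := by
      have := (hm0 x).ne'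
      have := (hm0 y).ne'
      field_simp
    have h2 : |max y η - max x η| ≤ |x - y| := by
      rw [abs_sub_comm x y]
      exact abs_max_sub_max_le_abs _ _ _
    have h3 : η ^ 2 ≤ max x η * max y η := by
      rw [sq]
      exact mul_le_mul (hm x) (hm y) hη.le (hm0 x).le
    have h4 : 0 < max x η * max y η := mul_pos (hm0 x) (hm0 y)
    show |1 / max x η - 1 / max y η| ≤ _
    rw [h1, abs_div, abs_of_pos h4]
    calc |max y η - max x η| / (max x η * max y η) ≤ |x - y| / η ^ 2 :=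
          div_le_div₀ (abs_nonneg _) h2 (by positivity) h3
      _ = 1 / η ^ 2 * |x - y| := by ring
      _ ≤ (1 + 1 / η + 1 / η ^ 2) * |x - y| := by
          refine mul_le_mul_of_nonneg_right ?_ (abs_nonneg _)
          have : 0 < 1 / η := by positivity
          linarith

lemma QW15b_lin {M : ℝ} (hM : 1 ≤ M) : BL M (fun t => max 0 (min 1 (1 - t))) := by
  refine ⟨fun x => ?_, fun x y => ?_⟩
  · rw [abs_of_nonneg (le_max_left _ _)]
    exact max_le (by linarith) ((min_le_left _ _).trans hM)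
  · have h1 : |max 0 (min 1 (1 - x)) - max 0 (min 1 (1 - y))| ≤ |min 1 (1 - x) - min 1 (1 - y)| := by
      rw [max_comm 0, max_comm 0]
      exact abs_max_sub_max_le_abs _ _ _
    have h2 : |min 1 (1 - x) - min 1 (1 - y)| ≤ |(1 - x) - (1 - y)| := by
      rw [min_comm 1, min_comm 1]
      exact abs_inf_sub_inf_le_abs _ _ _
    have h3 : |(1 - x) - (1 - y)| = |x - y| := by
      rw [abs_sub_comm x y]
      congr 1
      ring
    rw [h3] at h2
    have h4 : |x - y| ≤ M * |x - y| := by nlinarith [abs_nonneg (x - y)]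
    exact h1.trans (h2.trans h4)

/-- one model for the height or the total height -/
lemma QW15b_height {D : Set ℝ} {μ ν : Measure ℝ} {a : ℕ → ℝ} {L V V' : ℝ → ℝ} {p K x₀ : ℝ}
    (h : QS D μ ν a L V V' p K x₀) {F : ℝ → ℝ} (hF : BL 1 F) {v : ℝ → ℝ}
    {X : ℕ → (ℕ → ℝ × ℝ) → ℝ} {Y : ℝ → ℕ → (ℕ → ℝ × ℝ) → ℝ} (hX : ∀ n, Measurable (X n))
    (hY : ∀ η > 0, ∀ n, Measurable (Y η n))
    (hv : ∀ η > 0, Tendsto (fun n => EN D μ ν n fun ω => F (Y η n ω)) (lQ D μ ν) (𝓝 (v η)))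
    (happ : ∀ τ > (0 : ℝ), ∃ η₀ > (0 : ℝ), ∀ η : ℝ, 0 < η → η ≤ η₀ → ∃ n₀ : ℕ, ∀ n ≥ n₀,
      ∫⁻ ω in EvN D n, ENNReal.ofReal (min 1 |X n ω - Y η n ω|) ∂(PQ μ ν) ≤
        ENNReal.ofReal (τ * bb V a n)) :
    ∀ τ > (0 : ℝ), ∃ η₀ > (0 : ℝ), ∀ η, 0 < η → η ≤ η₀ → ∀ᶠ n in lQ D μ ν,
      |(EN D μ ν n fun ω => F (X n ω)) - v η| ≤ τ := by
  intro τ hτ
  have hK : 0 < K := by linarith [h.K_ge]
  obtain ⟨η₀, hη₀, h1⟩ := happ (τ / (4 * K)) (by positivity)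
  refine ⟨η₀, hη₀, fun η hη hηη => ?_⟩
  obtain ⟨n₀, hn₀⟩ := h1 η hη hηη
  have h2 : ∀ᶠ n in lQ D μ ν, |(EN D μ ν n fun ω => F (Y η n ω)) - v η| ≤ τ / 2 := by
    have := (hv η hη).eventually (Metric.ball_mem_nhds (v η) (show 0 < τ / 2 by linarith))
    filter_upwards [this] with n hn
    rw [Real.dist_eq] at hn
    exact hn.le
  filter_upwards [h2, QW15b_ev (D := D) (μ := μ) (ν := ν) (max n₀ 1)] with n hn1 hn2
  have h4 := h.EN_close hF ((le_max_right _ _).trans hn2.1) hn2.2 (hX n) (hY η hη n) (by positivity)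
    (hn₀ n ((le_max_left _ _).trans hn2.1))
  have h5 : 2 * K * (τ / (4 * K)) = τ / 2 := by
    field_simp
    ring
  rw [h5] at h4
  calc _ ≤ _ := abs_sub_le _ (EN D μ ν n fun ω => F (Y η n ω)) _
    _ ≤ τ / 2 + τ / 2 := add_le_add h4 hn1
    _ = τ := by ring

/-- common limits indexed by `η → 0` -/
lemma QW15b_common (v : ℝ → ℝ) : ∃ w : ℝ, ∀ (l : Filter ℕ) (x : ℕ → ℝ),
    (∀ τ > (0 : ℝ), ∃ η₀ > (0 : ℝ), ∀ η, 0 < η → η ≤ η₀ → ∀ᶠ n in l, |x n - v η| ≤ τ) →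
      Tendsto x l (𝓝 w) := by
  obtain ⟨w, hw⟩ := common_lim (ι := {q : Filter ℕ × (ℕ → ℝ) // ∀ τ > (0 : ℝ), ∃ η₀ > (0 : ℝ), ∀ η,
      0 < η → η ≤ η₀ → ∀ᶠ n in q.1, |q.2 n - v η| ≤ τ}) (fun q => q.1.1) (fun q => q.1.2) (by
    rintro ⟨q, hq⟩ ⟨q', hq'⟩ τ hτ
    obtain ⟨η₀, hη₀, h0⟩ := hq τ hτ
    obtain ⟨η₁, hη₁, h1⟩ := hq' τ hτ
    exact ⟨v (min η₀ η₁), h0 _ (lt_min hη₀ hη₁) (min_le_left _ _), h1 _ (lt_min hη₀ hη₁) (min_le_right _ _)⟩)
  exact ⟨w, fun l x hx => hw ⟨(l, x), hx⟩⟩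

/-- PROOF. `common_lim` again: for two models and `τ`, choose `η` small for both in `HT_approx`, `EN_close`, `YS_lim` (`φ x = 1/max x η` and
`c = 1`, `c t = 1 - t` are `BL M` after changing `c` outside `[0,1]`: `YS` only uses `c (i/n)`, `i < n`, e.g. `c t = max 0 (min 1 (1 - t))`). -/
theorem HT_lim (Φ : List (ℝ × (ℝ → ℝ)) → ℝ) (F : ℝ → ℝ) (hF : BL 1 F) : ∃ v w : ℝ,
    ∀ (D : Set ℝ) (μ ν : Measure ℝ) (a : ℕ → ℝ), QC Φ D μ ν a →
      Tendsto (fun n => EN D μ ν n fun ω => F (a n / n * HB D n ω)) (lQ D μ ν) (𝓝 v) ∧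
      Tendsto (fun n => EN D μ ν n fun ω => F (a n / n ^ 2 * TB D n ω)) (lQ D μ ν) (𝓝 w) := by
  have hM : ∀ η : ℝ, 0 < η → 1 ≤ 1 + 1 / η + 1 / η ^ 2 := fun η hη => by
    have h1 : 0 < 1 / η := by positivity
    have h2 : 0 < 1 / η ^ 2 := by positivity
    linarith
  have hc1 : ∀ η : ℝ, 0 < η → BL (1 + 1 / η + 1 / η ^ 2) (fun _ : ℝ => (1 : ℝ)) := fun η hη =>
    ⟨fun x => by rw [abs_one]; exact hM η hη, fun x y => by
      rw [sub_self, abs_zero]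
      have := hM η hη
      positivity⟩
  choose u1 hu1 using fun (η : ℝ) (hη : 0 < η) =>
    YS_lim Φ (fun _ => 1) (fun x => 1 / max x η) (lt_of_lt_of_le one_pos (hM η hη)) (hc1 η hη)
      (QW15b_phi hη) F hF
  choose u2 hu2 using fun (η : ℝ) (hη : 0 < η) =>
    YS_lim Φ (fun t => max 0 (min 1 (1 - t))) (fun x => 1 / max x η) (lt_of_lt_of_le one_pos (hM η hη))
      (QW15b_lin (hM η hη)) (QW15b_phi hη) F hF
  obtain ⟨v1, hv1⟩ : ∃ v : ℝ → ℝ, ∀ η (hη : 0 < η), v η = u1 η hη :=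
    ⟨fun η => if hη : 0 < η then u1 η hη else 0, fun η hη => dif_pos hη⟩
  obtain ⟨v2, hv2⟩ : ∃ v : ℝ → ℝ, ∀ η (hη : 0 < η), v η = u2 η hη :=
    ⟨fun η => if hη : 0 < η then u2 η hη else 0, fun η hη => dif_pos hη⟩
  obtain ⟨w1, hw1⟩ := QW15b_common v1
  obtain ⟨w2, hw2⟩ := QW15b_common v2
  refine ⟨w1, w2, fun D μ ν a hQ => ?_⟩
  obtain ⟨L, V, V', p, K, x₀, h⟩ := hQ.2
  have hcut : ∀ (η : ℝ) (n : ℕ) (ω : ℕ → ℝ × ℝ), YS a (fun t => 1 - t) (fun x => 1 / max x η) n ω =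
      YS a (fun t => max 0 (min 1 (1 - t))) (fun x => 1 / max x η) n ω := by
    intro η n ω
    unfold YS
    congr 1
    refine Finset.sum_congr rfl fun i hi => ?_
    have hin := Finset.mem_range.mp hi
    have hn0 : (0 : ℝ) < n := by exact_mod_cast (by omega : 0 < n)
    have h1 : (i : ℝ) / n ≤ 1 := by
      rw [div_le_one hn0]
      exact_mod_cast hin.le
    have h2 : (0 : ℝ) ≤ (i : ℝ) / n := by positivity
    congr 1
    show 1 - (i : ℝ) / n = max 0 (min 1 (1 - (i : ℝ) / n))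
    rw [min_eq_right (by linarith), max_eq_right (by linarith)]
  have hmeasHB : ∀ n, Measurable fun ω : ℕ → ℝ × ℝ => a n / n * (HB D n ω : ℝ) := fun n =>
    measurable_const.mul ((measurable_from_top (f := fun m : ℕ => (m : ℝ))).comp (measurable_HB h.dom n).1)
  have hmeasTB : ∀ n, Measurable fun ω : ℕ → ℝ × ℝ => a n / n ^ 2 * (TB D n ω : ℝ) := fun n =>
    measurable_const.mul ((measurable_from_top (f := fun m : ℕ => (m : ℝ))).comp (measurable_HB h.dom n).2)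
  constructor
  · refine hw1 _ _ (QW15b_height h hF hmeasHB (Y := fun η n => YS a (fun _ => 1) (fun x => 1 / max x η) n)
      (fun η hη n => QW15b_meas_YS a (QW15b_cont (QW15b_phi hη)) n) ?_ ?_)
    · intro η hη
      rw [hv1 η hη]
      exact (hu1 η hη).1 D μ ν a hQ
    · intro τ hτ
      obtain ⟨η₀, hη₀, h1⟩ := h.HT_approx τ hτ
      refine ⟨η₀, hη₀, fun η hη hηη => ?_⟩
      obtain ⟨n₀, hn₀⟩ := h1 η hη hηη
      exact ⟨n₀, fun n hn => (hn₀ n hn).1⟩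
  · refine hw2 _ _ (QW15b_height h hF hmeasTB
      (Y := fun η n => YS a (fun t => max 0 (min 1 (1 - t))) (fun x => 1 / max x η) n)
      (fun η hη n => QW15b_meas_YS a (QW15b_cont (QW15b_phi hη)) n) ?_ ?_)
    · intro η hη
      rw [hv2 η hη]
      exact (hu2 η hη).1 D μ ν a hQ
    · intro τ hτ
      obtain ⟨η₀, hη₀, h1⟩ := h.HT_approx τ hτ
      refine ⟨η₀, hη₀, fun η hη hηη => ?_⟩
      obtain ⟨n₀, hn₀⟩ := h1 η hη hηη
      refine ⟨n₀, fun n hn => ?_⟩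
      have := (hn₀ n hn).2
      simp only [hcut] at this
      exact this

end Pool.Agent.BPT
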