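import Pool.Agent.MP_99a865_pr.ST.QW10
import Pool.Agent.MP_99a865_pr.ST.QW11
import Pool.Agent.MP_99a865_pr.ST.QW13
import Pool.Agent.MP_99a865_pr.ST.QW14
import Pool.Agent.MP_99a865_pr.ST.QW15a
import Pool.Agent.MP_99a865_pr.ST.QW15b

/-! **[STB-QW15c]** Height and total height: universal limits. -/

open MeasureTheory ProbabilityTheory Filter Topology
open scoped ENNReal NNReal

namespace Pool.Agent.BPT

theorem QW15c_phi {η : ℝ} (hη : 0 < η) : BL (1 + 1 / η + 1 / η ^ 2) (fun x => 1 / max x η) := by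
  have h1 : 0 < 1 / η := by positivity
  have h2 : 0 < 1 / η ^ 2 := by positivity
  refine ⟨fun x => ?_, fun x y => ?_⟩
  · have hm : η ≤ max x η := le_max_right _ _
    rw [abs_of_pos (by positivity)]
    have h3 : 1 / max x η ≤ 1 / η := one_div_le_one_div_of_le hη hm
    linarith
  · have hx : η ≤ max x η := le_max_right _ _
    have hy : η ≤ max y η := le_max_right _ _
    have hx0 : 0 < max x η := hη.trans_le hx
    have hy0 : 0 < max y η := hη.trans_le hy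
    have e : 1 / max x η - 1 / max y η = (max y η - max x η) / (max x η * max y η) := by
      field_simp
    rw [e, abs_div, abs_of_pos (mul_pos hx0 hy0)]
    have h3 : |max y η - max x η| ≤ |x - y| := by
      rw [abs_sub_comm x y]
      exact abs_max_sub_max_le_abs y x η
    have h4 : η ^ 2 ≤ max x η * max y η := by nlinarith
    calc |max y η - max x η| / (max x η * max y η) ≤ |x - y| / η ^ 2 :=
          div_le_div₀ (abs_nonneg _) h3 (by positivity) h4
      _ = 1 / η ^ 2 * |x - y| := by ring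
      _ ≤ (1 + 1 / η + 1 / η ^ 2) * |x - y| :=
          mul_le_mul_of_nonneg_right (by linarith) (abs_nonneg _)

theorem QW15c_one {η : ℝ} (hη : 0 < η) : BL (1 + 1 / η + 1 / η ^ 2) (fun _ : ℝ => (1 : ℝ)) := by
  have h1 : 0 < 1 / η := by positivity
  have h2 : 0 < 1 / η ^ 2 := by positivity
  refine ⟨fun x => ?_, fun x y => ?_⟩
  · rw [abs_one]
    linarith
  · rw [sub_self, abs_zero]
    positivity

theorem QW15c_c {η : ℝ} (hη : 0 < η) :
    BL (1 + 1 / η + 1 / η ^ 2) (fun t : ℝ => max 0 (min 1 (1 - t))) := by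
  have h1 : 0 < 1 / η := by positivity
  have h2 : 0 < 1 / η ^ 2 := by positivity
  refine ⟨fun x => ?_, fun x y => ?_⟩
  · rw [abs_of_nonneg (le_max_left _ _)]
    exact (max_le zero_le_one (min_le_left _ _)).trans (by linarith)
  · have h3 : |max 0 (min 1 (1 - x)) - max 0 (min 1 (1 - y))| ≤ |min 1 (1 - x) - min 1 (1 - y)| := by
      rw [max_comm 0, max_comm 0]
      exact abs_max_sub_max_le_abs _ _ _
    have h4 : |min 1 (1 - x) - min 1 (1 - y)| ≤ |(1 - x) - (1 - y)| := by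
      refine (abs_min_sub_min_le_max _ _ _ _).trans (max_le ?_ le_rfl)
      rw [sub_self, abs_zero]
      exact abs_nonneg _
    have h5 : |(1 - x) - (1 - y)| = |x - y| := by
      rw [show (1 - x) - (1 - y) = -(x - y) by ring, abs_neg]
    have h6 : |x - y| ≤ (1 + 1 / η + 1 / η ^ 2) * |x - y| := by
      have := abs_nonneg (x - y)
      nlinarith
    rw [h5] at h4
    exact (h3.trans h4).trans h6

theorem QW15c_YS (a : ℕ → ℝ) (φ : ℝ → ℝ) (n : ℕ) (ω : ℕ → ℝ × ℝ) :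
    YS a (fun t => max 0 (min 1 (1 - t))) φ n ω = YS a (fun t => 1 - t) φ n ω := by
  unfold YS
  congr 1
  refine Finset.sum_congr rfl fun i hi => ?_
  have hi' : (i : ℝ) < n := by exact_mod_cast Finset.mem_range.1 hi
  have hn : (0 : ℝ) < n := (Nat.cast_nonneg i).trans_lt hi'
  have h1 : (i : ℝ) / n ≤ 1 := (div_le_one hn).2 hi'.le
  have h2 : 0 ≤ (i : ℝ) / n := by positivity
  show max 0 (min 1 (1 - (i : ℝ) / n)) * _ = (1 - (i : ℝ) / n) * _
  rw [min_eq_right (by linarith), max_eq_right (by linarith)]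

theorem QW15c_IE {Ω : Type} (e : ℝ → Ω → ℝ) (φ : ℝ → ℝ) (ω : Ω) :
    IE e (fun t => max 0 (min 1 (1 - t))) φ ω = IE e (fun t => 1 - t) φ ω := by
  unfold IE
  refine setIntegral_congr_fun measurableSet_Ioo fun t ht => ?_
  show max 0 (min 1 (1 - t)) * _ = (1 - t) * _
  rw [min_eq_right (by linarith [ht.1]), max_eq_right (by linarith [ht.2])]

theorem QW15c_meas (a : ℕ → ℝ) (c φ : ℝ → ℝ) (hφ : Measurable φ) (n : ℕ) :
    Measurable (YS a c φ n) := by
  unfold YS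
  refine Measurable.div_const (Finset.measurable_fun_sum _ fun i _ => ?_) _
  exact (hφ.comp ((measurable_Zw i).div_const _)).const_mul _

theorem QW15c_bd (a : ℕ → ℝ) (c φ : ℝ → ℝ) {n : ℕ} (hn : 1 ≤ n) {B : ℝ}
    (hc : ∀ i < n, |c ((i : ℝ) / n)| ≤ 1) (hφ : ∀ x, |φ x| ≤ B) (ω : ℕ → ℝ × ℝ) :
    |YS a c φ n ω| ≤ B := by
  have hn0 : (0 : ℝ) < n := by exact_mod_cast hn
  unfold YS
  rw [abs_div, abs_of_pos hn0, div_le_iff₀ hn0]
  refine (Finset.abs_sum_le_sum_abs _ _).trans ?_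
  have h1 : ∀ i ∈ Finset.range n, |c ((i : ℝ) / n) * φ (Zw i ω / a n)| ≤ B := by
    intro i hi
    rw [abs_mul]
    calc |c ((i : ℝ) / n)| * |φ (Zw i ω / a n)| ≤ 1 * B :=
          mul_le_mul (hc i (Finset.mem_range.1 hi)) (hφ _) (abs_nonneg _) zero_le_one
      _ = B := one_mul B
  refine (Finset.sum_le_sum h1).trans ?_
  rw [Finset.sum_const, Finset.card_range, nsmul_eq_mul, mul_comm]

theorem QW15c_tight {D : Set ℝ} {μ ν : Measure ℝ} {a : ℕ → ℝ} {L V V' : ℝ → ℝ} {p K x₀ : ℝ}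
    (h : QS D μ ν a L V V' p K x₀) {n : ℕ} (hn : 1 ≤ n) (hP : PQ μ ν (EvN D n) ≠ 0)
    {X Y : (ℕ → ℝ × ℝ) → ℝ} (hX : Measurable X) (hY : Measurable Y) {θ : ℝ} (hθ : 0 < θ) {B : ℝ}
    (hB : ∀ ω, |Y ω| ≤ B)
    (hXY : ∫⁻ ω in EvN D n, ENNReal.ofReal (min 1 |X ω - Y ω|) ∂(PQ μ ν) ≤
      ENNReal.ofReal (θ / K * bb V a n)) :
    (cond (PQ μ ν) (EvN D n)).real {ω | B + 1 < |X ω|} ≤ θ := by
  have := h.qi.probμ
  have := h.qi.probν
  have hK : 0 < K := lt_of_lt_of_le one_pos h.K_ge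
  have hE := PQ_EvN_gen (μ := μ) (ν := ν) h.dom n
  have hP' : (PQ μ ν).real (EvN D n) ≠ 0 := by
    rw [measureReal_def]
    exact ENNReal.toReal_ne_zero.2 ⟨hP, measure_ne_top _ _⟩
  have hPpos : 0 < (PQ μ ν).real (EvN D n) := lt_of_le_of_ne measureReal_nonneg hP'.symm
  have hbb : bb V a n ≤ K * (PQ μ ν).real (EvN D n) := by
    rw [hE]
    exact h.hit_ge n hn (by rw [← hE]; exact hP')
  have hbb0 : 0 ≤ bb V a n := by
    unfold bb
    have := h.V_one (a n)
    positivity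
  have hmf : Measurable fun ω => ENNReal.ofReal (min 1 |X ω - Y ω|) := by
    have h1 : Measurable fun ω => |X ω - Y ω| := (hX.sub hY).abs
    exact (measurable_const.min h1).ennreal_ofReal
  have hmt : MeasurableSet {ω | (1 : ℝ≥0∞) ≤ ENNReal.ofReal (min 1 |X ω - Y ω|)} :=
    measurableSet_le measurable_const hmf
  have h1 := mul_meas_ge_le_lintegral (μ := (PQ μ ν).restrict (EvN D n)) hmf 1
  rw [one_mul, Measure.restrict_apply hmt] at h1
  have hsub : EvN D n ∩ {ω | B + 1 < |X ω|} ⊆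
      {ω | (1 : ℝ≥0∞) ≤ ENNReal.ofReal (min 1 |X ω - Y ω|)} ∩ EvN D n := by
    rintro ω ⟨h2, h3⟩
    refine ⟨?_, h2⟩
    have h4 : B + 1 < |X ω| := h3
    have h5 : 1 ≤ |X ω - Y ω| := by
      have h6 := abs_sub_abs_le_abs_sub (X ω) (Y ω)
      have h7 := hB ω
      linarith
    show (1 : ℝ≥0∞) ≤ ENNReal.ofReal (min 1 |X ω - Y ω|)
    rw [min_eq_left h5, ENNReal.ofReal_one]
  have h2 : (PQ μ ν) (EvN D n ∩ {ω | B + 1 < |X ω|}) ≤ ENNReal.ofReal (θ / K * bb V a n) :=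
    ((measure_mono hsub).trans h1).trans hXY
  have h3 : (PQ μ ν).real (EvN D n ∩ {ω | B + 1 < |X ω|}) ≤ θ / K * bb V a n := by
    rw [measureReal_def]
    exact ENNReal.toReal_le_of_le_ofReal (by positivity) h2
  rw [measureReal_def, cond_apply (measurableSet_EvN h.dom n), ENNReal.toReal_mul, ENNReal.toReal_inv,
    ← measureReal_def, ← measureReal_def]
  rw [inv_mul_le_iff₀ hPpos]
  refine h3.trans ?_
  calc θ / K * bb V a n ≤ θ / K * (K * (PQ μ ν).real (EvN D n)) :=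
        mul_le_mul_of_nonneg_left hbb (by positivity)
    _ = (PQ μ ν).real (EvN D n) * θ := by field_simp

theorem QW15c_lim {D : Set ℝ} {μ ν : Measure ℝ} (hne : (lQ D μ ν).NeBot) {x y : ℕ → ℝ} {v v' τ : ℝ}
    (hx : Tendsto x (lQ D μ ν) (𝓝 v)) (hy : Tendsto y (lQ D μ ν) (𝓝 v')) (n₀ : ℕ)
    (h : ∀ n ≥ n₀, 1 ≤ n → PQ μ ν (EvN D n) ≠ 0 → |x n - y n| ≤ τ) : |v' - v| ≤ τ := by
  have h1 := (hx.sub hy).abs
  have h2 : ∀ᶠ n in lQ D μ ν, |x n - y n| ≤ τ := by
    unfold lQ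
    rw [Filter.eventually_inf_principal]
    filter_upwards [eventually_ge_atTop n₀, eventually_ge_atTop 1] with n h3 h4 h5
    exact h n h3 h4 h5
  rw [abs_sub_comm]
  exact le_of_tendsto h1 h2

/-- The limit through a process. PROOF. `K` from `QC`. `η₀` from `HT_approx` with `τ/(4K)`; for `η ≤ η₀`, `EN_close` gives
`|EN F(H) - EN F(YS_η)| ≤ τ/2` for all late `n` of the filter, and both sides converge (`YS_lim`: the second one to `∫ F (IE …)`). For `c t = 1 - t` replace `c` by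
`max 0 (min 1 (1 - t))` (same `YS`, and same `IE` as only `t ∈ (0,1)` counts). -/
theorem HT_id {Φ : List (ℝ × (ℝ → ℝ)) → ℝ} {D : Set ℝ} {μ ν : Measure ℝ} {a : ℕ → ℝ}
    (h : QC Φ D μ ν a) (hne : (lQ D μ ν).NeBot) {F : ℝ → ℝ} (hF : BL 1 F) {v w : ℝ}
    (hv : Tendsto (fun n => EN D μ ν n fun ω => F (a n / n * HB D n ω)) (lQ D μ ν) (𝓝 v))
    (hw : Tendsto (fun n => EN D μ ν n fun ω => F (a n / n ^ 2 * TB D n ω)) (lQ D μ ν) (𝓝 w))
    {Ω : Type} [MeasurableSpace Ω] {P : Measure Ω} {e : ℝ → Ω → ℝ} (he : EP Φ P e) :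
    ∀ τ > (0 : ℝ), ∃ η₀ > (0 : ℝ), ∀ η : ℝ, 0 < η → η ≤ η₀ →
      |∫ ω, F (IE e (fun _ => 1) (fun x => 1 / max x η) ω) ∂P - v| ≤ τ ∧
      |∫ ω, F (IE e (fun t => 1 - t) (fun x => 1 / max x η) ω) ∂P - w| ≤ τ := by
  intro τ hτ
  have hQ := h
  obtain ⟨-, L, V, V', p, K, x₀, hS⟩ := h
  have hK : 0 < K := lt_of_lt_of_le one_pos hS.K_ge
  obtain ⟨η₀, hη₀, hA⟩ := hS.HT_approx (τ / (4 * K)) (by positivity)
  refine ⟨η₀, hη₀, fun η hη hηη => ?_⟩
  obtain ⟨n₀, hn₀⟩ := hA η hη hηη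
  have hM : 0 < 1 + 1 / η + 1 / η ^ 2 := by positivity
  have hφm : Measurable fun x : ℝ => 1 / max x η :=
    measurable_const.div (measurable_id.max measurable_const)
  have e1 : 2 * K * (τ / (4 * K)) = τ / 2 := by
    field_simp
    norm_num
  have hHm := measurable_HB hS.dom
  constructor
  · obtain ⟨v', h1, h2⟩ := YS_lim Φ (fun _ => 1) (fun x => 1 / max x η) hM (QW15c_one hη) (QW15c_phi hη) F hF
    rw [h2 Ω _ P e he]
    have h3 := QW15c_lim hne hv (h1 D μ ν a hQ) (τ := τ / 2) n₀ fun n hn hn1 hP => by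
      rw [← e1]
      refine hS.EN_close hF hn1 hP ?_ (QW15c_meas a _ _ hφm n) (by positivity) (hn₀ n hn).1
      exact (measurable_from_nat.comp (hHm n).1).const_mul _
    linarith
  · obtain ⟨v', h1, h2⟩ := YS_lim Φ (fun t => max 0 (min 1 (1 - t))) (fun x => 1 / max x η) hM (QW15c_c hη)
      (QW15c_phi hη) F hF
    have h2' := h2 Ω _ P e he
    have h1' := h1 D μ ν a hQ
    simp only [QW15c_IE] at h2'
    simp only [QW15c_YS] at h1'
    rw [h2']
    have h3 := QW15c_lim hne hw h1' (τ := τ / 2) n₀ fun n hn hn1 hP => by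
      rw [← e1]
      refine hS.EN_close hF hn1 hP ?_ (QW15c_meas a _ _ hφm n) (by positivity) (hn₀ n hn).2
      exact (measurable_from_nat.comp (hHm n).2).const_mul _
    linarith

/-- Tightness of the height and of the total height. PROOF. `HT_approx` with `τ = θ/K` and one `η`; `0 ≤ YS ≤ 1/η`. -/
theorem HT_tight (Φ : List (ℝ × (ℝ → ℝ)) → ℝ) (D : Set ℝ) (μ ν : Measure ℝ) (a : ℕ → ℝ)
    (h : QC Φ D μ ν a) : ∀ θ > (0 : ℝ), ∃ R : ℝ, ∀ᶠ n in lQ D μ ν,
      (cond (PQ μ ν) (EvN D n)).real {ω | R < |a n / n * HB D n ω|} ≤ θ ∧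
      (cond (PQ μ ν) (EvN D n)).real {ω | R < |a n / n ^ 2 * TB D n ω|} ≤ θ := by
  intro θ hθ
  obtain ⟨-, L, V, V', p, K, x₀, hS⟩ := h
  have hK : 0 < K := lt_of_lt_of_le one_pos hS.K_ge
  obtain ⟨η, hη, hA⟩ := hS.HT_approx (θ / K) (by positivity)
  obtain ⟨n₀, hn₀⟩ := hA η hη le_rfl
  have hφm : Measurable fun x : ℝ => 1 / max x η :=
    measurable_const.div (measurable_id.max measurable_const)
  have hHm := measurable_HB hS.dom
  have hφ : ∀ x, |1 / max x η| ≤ 1 / η := by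
    intro x
    have hm : η ≤ max x η := le_max_right _ _
    rw [abs_of_pos (by positivity)]
    exact one_div_le_one_div_of_le hη hm
  refine ⟨1 / η + 1, ?_⟩
  unfold lQ
  rw [Filter.eventually_inf_principal]
  filter_upwards [eventually_ge_atTop n₀, eventually_ge_atTop 1] with n h3 h4 hP
  constructor
  · refine QW15c_tight hS h4 hP ?_ (QW15c_meas a _ _ hφm n) hθ (QW15c_bd a _ _ h4 ?_ hφ) (hn₀ n h3).1
    · exact (measurable_from_nat.comp (hHm n).1).const_mul _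
    · intro i _
      rw [abs_one]
  · refine QW15c_tight hS h4 hP ?_ (QW15c_meas a _ _ hφm n) hθ (QW15c_bd a _ _ h4 ?_ hφ) (hn₀ n h3).2
    · exact (measurable_from_nat.comp (hHm n).2).const_mul _
    · intro i hi
      have hi' : (i : ℝ) < n := by exact_mod_cast hi
      have hn : (0 : ℝ) < n := (Nat.cast_nonneg i).trans_lt hi'
      have h1 : (i : ℝ) / n ≤ 1 := (div_le_one hn).2 hi'.le
      have h2 : 0 ≤ (i : ℝ) / n := by positivity
      rw [abs_of_nonneg (by linarith)]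
      linarith

end Pool.Agent.BPT
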