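import Pool.Agent.MP_99a865_pr.ST.QW6

/-! **[STB-QW16a]** Late first passage, and the maximum compared with the maximum over a grid. -/

open MeasureTheory ProbabilityTheory Filter Topology
open scoped ENNReal NNReal

namespace Pool.Agent.BPT

variable {D : Set ℝ} {μ ν : Measure ℝ} {a : ℕ → ℝ} {L V V' : ℝ → ℝ} {p K x₀ : ℝ}

theorem measurable_MZ (n : ℕ) : Measurable (MZ n) := by
  unfold MZ
  exact Measurable.iSup fun i => measurable_Zw (i : ℕ)

theorem measurable_MK (k n : ℕ) : Measurable (MK k n) := by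
  unfold MK
  exact Measurable.iSup fun j => measurable_Zw (gg k n (j : ℕ))

/-- PROOF. Finite supremum; `Zw i ≥ 0` for `i < n` on `EvN D n` (`Zw 0 = 0`), attained. -/
theorem MZ_facts (hD : Dom D) {n : ℕ} (hn : 1 ≤ n) {ω : ℕ → ℝ × ℝ} (hN : ω ∈ EvN D n) :
    (∀ i < n, Zw i ω ≤ MZ n ω) ∧ 0 ≤ MZ n ω ∧ ∃ i < n, Zw i ω = MZ n ω := by
  have hbdd : BddAbove (Set.range fun i : Fin n => Zw (i : ℕ) ω) := Set.finite_range _ |>.bddAbove
  have h1 : ∀ i < n, Zw i ω ≤ MZ n ω := fun i hi => le_ciSup hbdd (⟨i, hi⟩ : Fin n)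
  have hne : Nonempty (Fin n) := ⟨⟨0, hn⟩⟩
  refine ⟨h1, ?_, ?_⟩
  · have h0 : Zw 0 ω = 0 := by simp [Zw, Dp, Ar]
    have := h1 0 hn
    rwa [h0] at this
  · obtain ⟨i, hi⟩ := exists_eq_ciSup_of_finite (f := fun i : Fin n => Zw (i : ℕ) ω)
    exact ⟨i, i.2, hi⟩

end Pool.Agent.BPT
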