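import Pool.Agent.MP_99a865_pr.ST.QW6
import Pool.Agent.MP_99a865_pr.ST.QW16a

/-! **[STB-QW16b]** Late first passage, and the maximum compared with the maximum over a grid. -/

open MeasureTheory ProbabilityTheory Filter Topology
open scoped ENNReal NNReal

namespace Pool.Agent.BPT

variable {D : Set ℝ} {μ ν : Measure ℝ} {a : ℕ → ℝ} {L V V' : ℝ → ℝ} {p K x₀ : ℝ}

lemma QW16b_Zw_add (t i : ℕ) (ω : ℕ → ℝ × ℝ) : Zw (t + i) ω = Zw t ω + Zw i (shift t ω) := by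
  unfold Zw Dp Ar shift
  rw [Finset.sum_range_add, Finset.sum_range_add]
  ring

/-- the bad windows -/
def QW16b_B (w : ℕ) (e : ℝ) : Set (ℕ → ℝ × ℝ) := {η | ∃ j ≤ w, e ≤ |Zw j η|}

lemma QW16b_B_meas (w : ℕ) (e : ℝ) : MeasurableSet (QW16b_B w e) := by
  have h : QW16b_B w e = ⋃ j : ℕ, ⋃ (_ : j ≤ w), {η | e ≤ |Zw j η|} := by
    ext η
    simp [QW16b_B]
  rw [h]
  exact MeasurableSet.iUnion fun j => MeasurableSet.iUnion fun _ =>
    measurableSet_le measurable_const (measurable_Zw j).norm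

/-- independence -/
lemma QW16b_indep [IsProbabilityMeasure μ] [IsProbabilityMeasure ν] (i : ℕ) (A B : Set (ℕ → ℝ × ℝ))
    (hA : MeasurableSet A) (hB : MeasurableSet B)
    (hAd : ∀ ω ω', (∀ j < i, ω j = ω' j) → (ω ∈ A ↔ ω' ∈ A)) :
    PQ μ ν (A ∩ {ω | shift i ω ∈ B}) = PQ μ ν A * PQ μ ν B := by
  classical
  have hs := lintegral_split (μ.prod ν) i
    (fun ω η => A.indicator (fun _ => (1 : ℝ≥0∞)) ω * B.indicator (fun _ => (1 : ℝ≥0∞)) η)
    (((measurable_const.indicator hA).comp measurable_fst).mul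
      ((measurable_const.indicator hB).comp measurable_snd)) (by
      intro ω ω' η h
      have h1 := hAd ω ω' h
      by_cases h2 : ω ∈ A
      · rw [Set.indicator_of_mem h2, Set.indicator_of_mem (h1.1 h2)]
      · rw [Set.indicator_of_notMem h2, Set.indicator_of_notMem (fun h3 => h2 (h1.2 h3))])
  have hm : MeasurableSet (A ∩ {ω | shift i ω ∈ B}) := hA.inter ((measurable_shift i) hB)
  have e1 : ∀ ω : ℕ → ℝ × ℝ, A.indicator (fun _ => (1 : ℝ≥0∞)) ω * B.indicator (fun _ => (1 : ℝ≥0∞)) (shift i ω) =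
      (A ∩ {ω | shift i ω ∈ B}).indicator (fun _ => (1 : ℝ≥0∞)) ω := by
    intro ω
    by_cases h1 : ω ∈ A <;> by_cases h2 : shift i ω ∈ B <;> simp [h1, h2]
  simp_rw [e1] at hs
  rw [lintegral_indicator hm, lintegral_one, Measure.restrict_apply_univ] at hs
  have e2 : ∀ ω : ℕ → ℝ × ℝ, ∫⁻ η, A.indicator (fun _ => (1 : ℝ≥0∞)) ω * B.indicator (fun _ => (1 : ℝ≥0∞)) η
      ∂(seqLaw (μ.prod ν)) = A.indicator (fun _ => (1 : ℝ≥0∞)) ω * seqLaw (μ.prod ν) B := by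
    intro ω
    rw [lintegral_const_mul _ (measurable_const.indicator hB), lintegral_indicator hB, lintegral_one,
      Measure.restrict_apply_univ]
  simp_rw [e2] at hs
  rw [lintegral_mul_const _ (measurable_const.indicator hA), lintegral_indicator hA, lintegral_one,
    Measure.restrict_apply_univ] at hs
  exact hs

/-- the law of the killed walk -/
lemma QW16b_kap (hD : Dom D) [IsProbabilityMeasure μ] [IsProbabilityMeasure ν] (k : ℕ) {s : Set ℝ}
    (hs : MeasurableSet s) : PQ μ ν ({ω | Zw k ω ∈ s} ∩ {ω | AliveQ D k ω}) = kap D (stepLaw μ ν 1) k 0 s := by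
  have hpr : IsProbabilityMeasure (stepLaw μ ν 1) := prob_stepLaw 1
  have h1 : MeasurableSet ({η : ℕ → ℝ | 0 + S k η ∈ s} ∩ {η | Alive D 0 k η}) :=
    ((A1_meas_add k 0) hs).inter (measurableSet_alive hD 0 k)
  unfold kap
  rw [Measure.map_apply (A1_meas_add k 0) hs, Measure.restrict_apply ((A1_meas_add k 0) hs), ← map_steps_gen]
  have h2 := Measure.map_apply (μ := PQ μ ν) (measurable_steps (σ := 1)) h1
  refine Eq.trans ?_ h2.symm
  congr 1
  ext ω
  show (Zw k ω ∈ s ∧ AliveQ D k ω) ↔ (0 + S k (steps 1 ω) ∈ s ∧ Alive D 0 k (steps 1 ω))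
  rw [zero_add, Q1_S, Q1_alive_iff hD]

/-- mass of an interval by unit windows -/
lemma QW16b_cover (m : Measure ℝ) {y' y : ℝ} (hy : y' ≤ y) (B : ℝ≥0∞)
    (hB : ∀ z : ℝ, y' ≤ z → z ≤ y → m (Set.Ico z (z + 1)) ≤ B) :
    m (Set.Ico y' y) ≤ ENNReal.ofReal (y - y' + 1) * B := by
  have h0 : 0 ≤ y - y' := by linarith
  have hsub : Set.Ico y' y ⊆ ⋃ i ∈ Finset.range (⌊y - y'⌋₊ + 1), Set.Ico (y' + (i : ℝ)) (y' + i + 1) := by
    intro u hu
    rw [Set.mem_iUnion₂]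
    have h1 : 0 ≤ u - y' := by linarith [hu.1]
    refine ⟨⌊u - y'⌋₊, ?_, ?_, ?_⟩
    · rw [Finset.mem_range]
      have : ⌊u - y'⌋₊ ≤ ⌊y - y'⌋₊ := Nat.floor_mono (by linarith [hu.2])
      omega
    · have := Nat.floor_le h1
      linarith
    · have := Nat.lt_floor_add_one (u - y')
      linarith
  refine (measure_mono hsub).trans ((measure_biUnion_finset_le _ _).trans ?_)
  have h2 : ∀ i ∈ Finset.range (⌊y - y'⌋₊ + 1), m (Set.Ico (y' + (i : ℝ)) (y' + i + 1)) ≤ B := by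
    intro i hi
    refine hB _ (by linarith [(Nat.cast_nonneg i : (0 : ℝ) ≤ i)]) ?_
    have h3 : i ≤ ⌊y - y'⌋₊ := by
      have := Finset.mem_range.1 hi
      omega
    have h4 : (i : ℝ) ≤ y - y' := (by exact_mod_cast h3 : (i : ℝ) ≤ (⌊y - y'⌋₊ : ℝ)).trans (Nat.floor_le h0)
    linarith
  refine (Finset.sum_le_sum h2).trans ?_
  rw [Finset.sum_const, Finset.card_range, nsmul_eq_mul]
  refine mul_le_mul' ?_ le_rfl
  rw [← ENNReal.ofReal_natCast]
  refine ENNReal.ofReal_le_ofReal ?_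
  push_cast
  linarith [Nat.floor_le h0]

/-- A first passage over `x a_n` in the last `δ n` steps is unlikely. PROOF. Let `y = x a n`, `i₀ = ⌊(1-δ) n⌋₊` (`δ ≤ 1/4`), `y' = (x - ε') a n`
with `ε' ≤ x/2`. On the event `FP y t`, `i₀ < t < n`, we have `Zw i₀ < y`.
(A) `y' ≤ Zw i₀ < y`: `q_exit` with `r = i₀`, `hit_L`: at most `K L y' · kap D ρ i₀ 0 [y', y) ≤ (C_x/n) · (ε' a n + 2) K V' (y + x₀)/(n a n)`
(`kap_loc`, unit windows) `≤ C_x' ε' V' (a n)/n² ≤ C_x'' ε' bb n` (`VV_n`), for `n` large.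
(B) `Zw i₀ < y'`: by `FP_exit` with `A = {Zw i₀ < y'}` the sum over `t ∈ (i₀, n)` is at most
`K L y ∑_t P(FP y t, AliveQ t, Zw i₀ < y') ≤ K L y · P(AliveQ i₀, ∃ j ≤ n - i₀, ε' a n ≤ |Zw j (shift i₀ ω)|)` (disjointness)
`≤ K L y · P(AliveQ i₀) · K (δ n + 1) L (ε' a n) ≤ (C_x/n) (C/V (a n)) · C_{ε'} (δ + 1/n)` (`surv`, `maxZ`, `scale`).
Choose `ε'`, then `δ`, then `n`. -/
theorem QS.late (h : QS D μ ν a L V V' p K x₀) : ∀ x > (0 : ℝ), ∀ θ > (0 : ℝ), ∃ δ₀ > (0 : ℝ),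
    ∀ δ : ℝ, 0 < δ → δ ≤ δ₀ → ∃ n₀ : ℕ, ∀ n ≥ n₀,
      PQ μ ν (EvN D n ∩ {ω | ∃ t < n, (1 - δ) * n < t ∧ ω ∈ FP (x * a n) t}) ≤
        ENNReal.ofReal (θ * bb V a n) := by
  classical
  intro x hx θ hθ
  have hPμ := h.qi.probμ
  have hPν := h.qi.probν
  have hPQ : IsProbabilityMeasure (PQ μ ν) := by
    unfold PQ seqLaw
    infer_instance
  have hD := h.dom
  have hK : 1 ≤ K := h.K_ge
  obtain ⟨C₁, hC₁, n₁, -, hs₁⟩ := h.scale (half_pos hx)
  obtain ⟨C₂, hC₂, n₂, -, hs₂⟩ := h.scale (show 0 < 2 * x by linarith)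
  obtain ⟨C₃, hC₃, hVV⟩ := h.VV_n
  obtain ⟨C₄, hC₄, hsurv⟩ := h.surv (δ := 1 / 2) (by norm_num)
  obtain ⟨C₅, hC₅, n₅, -, hs₅⟩ := h.scale hx
  set CA : ℝ := 2 * K ^ 2 * C₁ * C₂ * C₃ with hCA
  have hCA0 : 0 < CA := by positivity
  obtain ⟨e, he, he1, he2⟩ : ∃ e > (0 : ℝ), e ≤ x / 2 ∧ CA * e ≤ θ / 2 := by
    refine ⟨min (x / 2) (θ / (2 * CA)), by positivity, min_le_left _ _, ?_⟩
    have h1 : CA * min (x / 2) (θ / (2 * CA)) ≤ CA * (θ / (2 * CA)) :=
      mul_le_mul_of_nonneg_left (min_le_right _ _) hCA0.le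
    refine h1.trans (le_of_eq ?_)
    field_simp
  obtain ⟨C₆, hC₆, n₆, -, hs₆⟩ := h.scale he
  set CB : ℝ := 2 * K ^ 2 * C₄ * C₅ * C₆ with hCB
  have hCB0 : 0 < CB := by positivity
  obtain ⟨n₇, hn₇⟩ := eventually_atTop.1 (h.a_top.eventually (eventually_ge_atTop (1 / e)))
  refine ⟨min (1 / 4) (θ / (2 * CB)), by positivity, fun δ hδ hδ1 => ?_⟩
  have hδ4 : δ ≤ 1 / 4 := hδ1.trans (min_le_left _ _)
  have hδθ : CB * δ ≤ θ / 2 := by
    have h1 : CB * δ ≤ CB * (θ / (2 * CB)) := mul_le_mul_of_nonneg_left (hδ1.trans (min_le_right _ _)) hCB0.le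
    refine h1.trans (le_of_eq ?_)
    field_simp
  refine ⟨max (max (max n₁ n₂) (max n₅ n₆)) (max n₇ (max 8 ⌈1 / δ⌉₊)), fun n hn => ?_⟩
  have hn1 : n₁ ≤ n := le_trans (le_trans (le_trans (le_max_left _ _) (le_max_left _ _)) (le_max_left _ _)) hn
  have hn2 : n₂ ≤ n := le_trans (le_trans (le_trans (le_max_right _ _) (le_max_left _ _)) (le_max_left _ _)) hn
  have hn5 : n₅ ≤ n := le_trans (le_trans (le_trans (le_max_left _ _) (le_max_right _ _)) (le_max_left _ _)) hn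
  have hn6 : n₆ ≤ n := le_trans (le_trans (le_trans (le_max_right _ _) (le_max_right _ _)) (le_max_left _ _)) hn
  have hn7 : n₇ ≤ n := le_trans (le_trans (le_max_left _ _) (le_max_right _ _)) hn
  have hn8 : 8 ≤ n := le_trans (le_trans (le_trans (le_max_left _ _) (le_max_right _ _)) (le_max_right _ _)) hn
  have hn9 : ⌈1 / δ⌉₊ ≤ n := le_trans (le_trans (le_trans (le_max_right _ _) (le_max_right _ _)) (le_max_right _ _)) hn
  have hn8R : (8 : ℝ) ≤ n := by exact_mod_cast hn8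
  have hnR : (0 : ℝ) < n := by linarith
  have hn0 : 1 ≤ n := by omega
  have hδn : 1 ≤ δ * n := by
    have h1 : 1 / δ ≤ n := (Nat.le_ceil _).trans (by exact_mod_cast hn9)
    rw [div_le_iff₀ hδ] at h1
    linarith
  have han : 0 < a n := lt_of_lt_of_le (by linarith [h.x_ge]) (h.a_ge n hn0)
  have hx₀ : 0 < x₀ := by linarith [h.x_ge]
  have hVn : 0 < V (a n) := lt_of_lt_of_le one_pos (h.V_one _)
  have hV'n : 0 < V' (a n) := lt_of_lt_of_le one_pos (h.V'_one _)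
  have hea : 1 ≤ e * a n := by
    have h1 : 1 / e ≤ a n := hn₇ n hn7
    rw [div_le_iff₀ he] at h1
    linarith
  obtain ⟨u1, u2, -, -, -⟩ := hs₁ n hn1
  obtain ⟨-, -, -, -, v5⟩ := hs₂ n hn2
  obtain ⟨w1, w2, -, -, -⟩ := hs₅ n hn5
  obtain ⟨z1, z2, -, -, -⟩ := hs₆ n hn6
  set y : ℝ := x * a n with hy
  set y' : ℝ := (x - e) * a n with hy'
  have hyy' : y - y' = e * a n := by rw [hy, hy']; ring
  have hy'0 : x / 2 * a n ≤ y' := mul_le_mul_of_nonneg_right (by linarith) han.le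
  have hy'x : x₀ ≤ y' := u1.trans hy'0
  have hyx : x₀ ≤ y := w1
  have hLy' : 0 < L y' := h.L_pos _ hy'x
  have hLy : 0 < L y := h.L_pos _ hyx
  set i₀ : ℕ := ⌊(1 - δ) * n⌋₊ with hi₀
  have hi1 : (i₀ : ℝ) ≤ (1 - δ) * n := Nat.floor_le (mul_nonneg (by linarith) hnR.le)
  have hi2 : (1 - δ) * n < i₀ + 1 := Nat.lt_floor_add_one _
  have hi34 : 3 / 4 * (n : ℝ) ≤ (1 - δ) * n := mul_le_mul_of_nonneg_right (by linarith) hnR.le
  have hi_half : (1 / 2 : ℝ) * n ≤ i₀ := by linarith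
  have hi_n : i₀ < n := by
    have h1 : (1 - δ) * n = n - δ * n := by ring
    have : (i₀ : ℝ) < n := by linarith
    exact_mod_cast this
  have hi_1 : 1 ≤ i₀ := by
    have : (1 : ℝ) ≤ i₀ := by linarith
    exact_mod_cast this
  have hi_4 : n ≤ 4 * i₀ := by
    have : (n : ℝ) ≤ 4 * i₀ := by linarith
    exact_mod_cast this
  -- the two events
  set SA : Set (ℕ → ℝ × ℝ) := {ω | Zw i₀ ω ∈ Set.Ico y' y} with hSA
  set SB : Set (ℕ → ℝ × ℝ) := {ω | Zw i₀ ω < y'} with hSB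
  have hSAm : MeasurableSet SA := (measurable_Zw i₀) measurableSet_Ico
  have hSBm : MeasurableSet SB := (measurable_Zw i₀) measurableSet_Iio
  set T : Finset ℕ := Finset.Ioo i₀ n with hT
  have hsub : EvN D n ∩ {ω | ∃ t < n, (1 - δ) * n < t ∧ ω ∈ FP (x * a n) t} ⊆
      (EvN D n ∩ SA) ∪ ⋃ t ∈ T, (EvN D n ∩ SB ∩ FP y t) := by
    rintro ω ⟨hN, t, htn, ht1, hFP⟩
    have hit : i₀ < t := by
      have : (i₀ : ℝ) < t := lt_of_le_of_lt hi1 ht1
      exact_mod_cast this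
    have hlt : Zw i₀ ω < y := hFP.2 i₀ hit
    rcases lt_or_ge (Zw i₀ ω) y' with h1 | h1
    · right
      rw [Set.mem_iUnion₂]
      exact ⟨t, Finset.mem_Ioo.2 ⟨hit, htn⟩, ⟨hN, h1⟩, hFP⟩
    · exact Or.inl ⟨hN, h1, hlt⟩
  -- part A
  have hPA : PQ μ ν (EvN D n ∩ SA) ≤ ENNReal.ofReal (θ / 2 * bb V a n) := by
    have hHm : Measurable (SA.indicator fun _ => (1 : ℝ≥0∞)) := measurable_const.indicator hSAm
    have hHd : ∀ ω ω' : ℕ → ℝ × ℝ, (∀ j < i₀, ω j = ω' j) →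
        SA.indicator (fun _ => (1 : ℝ≥0∞)) ω = SA.indicator (fun _ => (1 : ℝ≥0∞)) ω' := by
      intro ω ω' hω
      have h1 : ω ∈ SA ↔ ω' ∈ SA := by
        show Zw i₀ ω ∈ Set.Ico y' y ↔ Zw i₀ ω' ∈ Set.Ico y' y
        rw [Q1_Zw_congr i₀ hω]
      by_cases h2 : ω ∈ SA
      · rw [Set.indicator_of_mem h2, Set.indicator_of_mem (h1.1 h2)]
      · rw [Set.indicator_of_notMem h2, Set.indicator_of_notMem (fun h3 => h2 (h1.2 h3))]
    have hex := q_exit (μ := μ) (ν := ν) hD i₀ n hi_n _ hHm hHd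
    have h1 : ∫⁻ ω in EvN D n, SA.indicator (fun _ => (1 : ℝ≥0∞)) ω ∂(PQ μ ν) = PQ μ ν (EvN D n ∩ SA) := by
      rw [lintegral_indicator hSAm, lintegral_one, Measure.restrict_restrict hSAm, Measure.restrict_apply_univ,
        Set.inter_comm]
    have h2 : ∫⁻ ω in {ω | AliveQ D i₀ ω}, SA.indicator (fun _ => (1 : ℝ≥0∞)) ω *
        ENNReal.ofReal (hit D (stepLaw μ ν 1) (n - i₀) (Zw i₀ ω)) ∂(PQ μ ν) ≤
        ∫⁻ ω in {ω | AliveQ D i₀ ω}, SA.indicator (fun _ => (1 : ℝ≥0∞)) ω * ENNReal.ofReal (K * L y') ∂(PQ μ ν) := by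
      refine lintegral_mono fun ω => ?_
      by_cases h3 : ω ∈ SA
      · refine mul_le_mul' le_rfl (ENNReal.ofReal_le_ofReal ?_)
        have h4 : y' ≤ Zw i₀ ω := h3.1
        exact (h.hit_L (n - i₀) (Zw i₀ ω) (by omega) (hy'x.trans h4)).trans
          (mul_le_mul_of_nonneg_left (h.L_anti _ _ hy'x h4) (by linarith))
      · rw [Set.indicator_of_notMem h3, zero_mul, zero_mul]
    have h3 : ∫⁻ ω in {ω | AliveQ D i₀ ω}, SA.indicator (fun _ => (1 : ℝ≥0∞)) ω * ENNReal.ofReal (K * L y')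
        ∂(PQ μ ν) = kap D (stepLaw μ ν 1) i₀ 0 (Set.Ico y' y) * ENNReal.ofReal (K * L y') := by
      rw [lintegral_mul_const _ hHm, lintegral_indicator hSAm, lintegral_one, Measure.restrict_restrict hSAm,
        Measure.restrict_apply_univ, ← QW16b_kap hD i₀ measurableSet_Ico]
    have hpr : IsProbabilityMeasure (stepLaw μ ν 1) := prob_stepLaw 1
    have h4 : kap D (stepLaw μ ν 1) i₀ 0 (Set.Ico y' y) ≤
        ENNReal.ofReal (2 * (e * a n)) * ENNReal.ofReal (K * (C₂ * V' (a n)) / (n * a n)) := by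
      refine (QW16b_cover _ (by linarith) (ENNReal.ofReal (K * (C₂ * V' (a n)) / (n * a n))) ?_).trans
        (mul_le_mul' (ENNReal.ofReal_le_ofReal (by rw [hyy']; linarith)) le_rfl)
      intro z hz1 hz2
      have h5 := h.kap_loc n i₀ hn0 hi_4 (by omega) z (by linarith)
      rw [← ofReal_measureReal (μ := kap D (stepLaw μ ν 1) i₀ 0) (s := Set.Ico z (z + 1))]
      refine ENNReal.ofReal_le_ofReal (h5.trans ?_)
      refine div_le_div_of_nonneg_right (mul_le_mul_of_nonneg_left ?_ (by linarith)) (by positivity)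
      refine (h.V'_mono ?_).trans v5
      have h6 : 2 * x * a n = 2 * y := by rw [hy]; ring
      rw [h6]
      linarith
    rw [← h1, hex]
    refine h2.trans ?_
    rw [h3]
    refine (mul_le_mul' h4 le_rfl).trans ?_
    rw [← ENNReal.ofReal_mul (by positivity), ← ENNReal.ofReal_mul (by positivity)]
    refine ENNReal.ofReal_le_ofReal ?_
    have h5 : L y' ≤ C₁ / n := (h.L_anti _ _ u1 hy'0).trans u2
    have h6 : V' (a n) ≤ C₃ * n / V (a n) := by
      rw [le_div_iff₀ hVn]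
      calc V' (a n) * V (a n) = V (a n) * V' (a n) := mul_comm _ _
        _ ≤ C₃ * n := (hVV n hn0).1
    calc 2 * (e * a n) * (K * (C₂ * V' (a n)) / (n * a n)) * (K * L y')
        ≤ 2 * (e * a n) * (K * (C₂ * (C₃ * n / V (a n))) / (n * a n)) * (K * (C₁ / n)) := by
          refine mul_le_mul (mul_le_mul_of_nonneg_left (div_le_div_of_nonneg_right (mul_le_mul_of_nonneg_left
            (mul_le_mul_of_nonneg_left h6 (by linarith)) (by linarith)) (by positivity)) (by positivity))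
            (mul_le_mul_of_nonneg_left h5 (by linarith)) (by positivity) (by positivity)
      _ = CA * e * bb V a n := by
          unfold bb
          rw [hCA]
          field_simp
      _ ≤ θ / 2 * bb V a n := mul_le_mul_of_nonneg_right he2 (h.bb_pos n hn0).le
  -- part B
  have hPB : ∑ t ∈ T, PQ μ ν (EvN D n ∩ SB ∩ FP y t) ≤ ENNReal.ofReal (θ / 2 * bb V a n) := by
    have hSBd : ∀ t ∈ T, ∀ ω ω' : ℕ → ℝ × ℝ, (∀ j < t, ω j = ω' j) → (ω ∈ SB ↔ ω' ∈ SB) := by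
      intro t ht ω ω' hω
      show Zw i₀ ω < y' ↔ Zw i₀ ω' < y'
      have := (Finset.mem_Ioo.1 ht).1
      rw [Q1_Zw_congr i₀ (fun j hj => hω j (by omega))]
    have h1 : ∀ t ∈ T, PQ μ ν (EvN D n ∩ SB ∩ FP y t) ≤
        ENNReal.ofReal (K * L y) * PQ μ ν (SB ∩ FP y t ∩ {ω | AliveQ D t ω}) := fun t ht =>
      h.FP_exit n t (Finset.mem_Ioo.1 ht).2 y hyx SB hSBm (hSBd t ht)
    refine (Finset.sum_le_sum h1).trans ?_
    rw [← Finset.mul_sum]
    set w : ℕ := n - i₀ with hw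
    set B := QW16b_B w (e * a n) with hB
    have h2 : ∑ t ∈ T, PQ μ ν (SB ∩ FP y t ∩ {ω | AliveQ D t ω}) ≤
        PQ μ ν ({ω | AliveQ D i₀ ω} ∩ {ω | shift i₀ ω ∈ B}) := by
      rw [← measure_biUnion_finset]
      · refine measure_mono ?_
        intro ω hω
        rw [Set.mem_iUnion₂] at hω
        obtain ⟨t, ht, ⟨g1, g2⟩, g3⟩ := hω
        obtain ⟨t1, t2⟩ := Finset.mem_Ioo.1 ht
        have g1' : Zw i₀ ω < y' := g1
        have g2' : y ≤ Zw t ω := g2.1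
        refine ⟨fun j hj1 hj2 => g3 j hj1 (by omega), t - i₀, by omega, ?_⟩
        obtain ⟨m, rfl⟩ := Nat.exists_eq_add_of_le t1.le
        rw [Nat.add_sub_cancel_left]
        rw [QW16b_Zw_add] at g2'
        refine le_trans ?_ (le_abs_self _)
        linarith
      · intro s _ t _ hst
        rw [Function.onFun, Set.disjoint_left]
        rintro ω ⟨⟨-, g1⟩, -⟩ ⟨⟨-, g2⟩, -⟩
        rcases lt_or_gt_of_ne hst with h3 | h3
        · exact absurd g1.1 (not_le.2 (g2.2 s h3))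
        · exact absurd g2.1 (not_le.2 (g1.2 t h3))
      · intro t _
        exact (hSBm.inter (measurableSet_FP y t)).inter (measurableSet_aliveQ hD t)
    have h3 := QW16b_indep (μ := μ) (ν := ν) i₀ {ω | AliveQ D i₀ ω} B (measurableSet_aliveQ hD i₀)
      (QW16b_B_meas _ _) (fun ω ω' hω => Q1_alive_congr i₀ hω)
    rw [h3] at h2
    have h4 : PQ μ ν B ≤ ENNReal.ofReal (K * (2 * δ * C₆)) := by
      rw [← ofReal_measureReal (μ := PQ μ ν) (s := B)]
      refine ENNReal.ofReal_le_ofReal ((h.maxZ w (e * a n) z1).trans ?_)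
      refine mul_le_mul_of_nonneg_left ?_ (by linarith)
      have h5 : (w : ℝ) ≤ 2 * δ * n := by
        rw [hw, Nat.cast_sub hi_n.le]
        have h6 : (1 - δ) * n = n - δ * n := by ring
        linarith
      have h6 : 0 < L (e * a n) := h.L_pos _ z1
      calc (w : ℝ) * L (e * a n) ≤ (2 * δ * n) * (C₆ / n) := mul_le_mul h5 z2 h6.le (by positivity)
        _ = 2 * δ * C₆ := by field_simp
    refine (mul_le_mul' le_rfl (h2.trans (mul_le_mul' (hsurv n i₀ hi_1 hi_n.le hi_half) h4))).trans ?_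
    rw [← ENNReal.ofReal_mul (by positivity), ← ENNReal.ofReal_mul (by positivity)]
    refine ENNReal.ofReal_le_ofReal ?_
    calc K * L y * (C₄ / V (a n) * (K * (2 * δ * C₆)))
        ≤ K * (C₅ / n) * (C₄ / V (a n) * (K * (2 * δ * C₆))) :=
          mul_le_mul_of_nonneg_right (mul_le_mul_of_nonneg_left w2 (by linarith)) (by positivity)
      _ = CB * δ * bb V a n := by
          unfold bb
          rw [hCB]
          field_simp
      _ ≤ θ / 2 * bb V a n := mul_le_mul_of_nonneg_right hδθ (h.bb_pos n hn0).le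
  have hbb : 0 < bb V a n := h.bb_pos n hn0
  calc PQ μ ν (EvN D n ∩ {ω | ∃ t < n, (1 - δ) * n < t ∧ ω ∈ FP (x * a n) t})
      ≤ PQ μ ν (EvN D n ∩ SA) + ∑ t ∈ T, PQ μ ν (EvN D n ∩ SB ∩ FP y t) :=
        (measure_mono hsub).trans ((measure_union_le _ _).trans
          (add_le_add le_rfl (measure_biUnion_finset_le _ _)))
    _ ≤ ENNReal.ofReal (θ / 2 * bb V a n) + ENNReal.ofReal (θ / 2 * bb V a n) := add_le_add hPA hPB
    _ = ENNReal.ofReal (θ * bb V a n) := by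
        rw [← ENNReal.ofReal_add (by positivity) (by positivity)]
        congr 1
        ring

end Pool.Agent.BPT
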