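import Pool.Agent.MP_99a865_pr.ST.QW6
import Pool.Agent.MP_99a865_pr.ST.QW16a
import Pool.Agent.MP_99a865_pr.ST.QW16b

/-! **[STB-QW16c]** Late first passage, and the maximum compared with the maximum over a grid. -/

open MeasureTheory ProbabilityTheory Filter Topology
open scoped ENNReal NNReal

namespace Pool.Agent.BPT

variable {D : Set ℝ} {μ ν : Measure ℝ} {a : ℕ → ℝ} {L V V' : ℝ → ℝ} {p K x₀ : ℝ}

lemma QW16c_Zw_add (t i : ℕ) (ω : ℕ → ℝ × ℝ) : Zw (t + i) ω = Zw t ω + Zw i (shift t ω) := by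
  unfold Zw Dp Ar shift
  rw [Finset.sum_range_add, Finset.sum_range_add]
  ring

/-- the bad windows -/
def QW16c_B (w : ℕ) (e : ℝ) : Set (ℕ → ℝ × ℝ) := {η | ∃ j ≤ w, e ≤ |Zw j η|}

lemma QW16c_B_meas (w : ℕ) (e : ℝ) : MeasurableSet (QW16c_B w e) := by
  have h : QW16c_B w e = ⋃ j : ℕ, ⋃ (_ : j ≤ w), {η | e ≤ |Zw j η|} := by
    ext η
    simp [QW16c_B]
  rw [h]
  exact MeasurableSet.iUnion fun j => MeasurableSet.iUnion fun _ =>
    measurableSet_le measurable_const (measurable_Zw j).norm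

lemma QW16c_B_dep (w : ℕ) (e : ℝ) (ω ω' : ℕ → ℝ × ℝ) (h : ∀ j < w, ω j = ω' j) :
    ω ∈ QW16c_B w e ↔ ω' ∈ QW16c_B w e := by
  show (∃ j ≤ w, e ≤ |Zw j ω|) ↔ (∃ j ≤ w, e ≤ |Zw j ω'|)
  constructor
  · rintro ⟨j, hj, h1⟩
    exact ⟨j, hj, by rw [← Q1_Zw_congr j (fun l hl => h l (by omega))]; exact h1⟩
  · rintro ⟨j, hj, h1⟩
    exact ⟨j, hj, by rw [Q1_Zw_congr j (fun l hl => h l (by omega))]; exact h1⟩

lemma QW16c_FP_dep (y : ℝ) (t : ℕ) (ω ω' : ℕ → ℝ × ℝ) (h : ∀ j < t, ω j = ω' j) :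
    ω ∈ FP y t ↔ ω' ∈ FP y t := by
  have key : ∀ ω ω' : ℕ → ℝ × ℝ, (∀ j < t, ω j = ω' j) → ω ∈ FP y t → ω' ∈ FP y t := by
    rintro ω ω' h ⟨h1, h2⟩
    refine ⟨?_, fun j hj => ?_⟩
    · rw [← Q1_Zw_congr t h]
      exact h1
    · rw [← Q1_Zw_congr j (fun l hl => h l (by omega))]
      exact h2 j hj
  exact ⟨key ω ω' h, key ω' ω (fun j hj => (h j hj).symm)⟩

/-- first passage exists -/
lemma QW16c_FP_ex {y : ℝ} {i : ℕ} {ω : ℕ → ℝ × ℝ} (h : y ≤ Zw i ω) : ∃ t ≤ i, ω ∈ FP y t := by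
  classical
  have hex : ∃ t, y ≤ Zw t ω := ⟨i, h⟩
  exact ⟨Nat.find hex, Nat.find_min' hex h, Nat.find_spec hex, fun j hj => not_le.1 (Nat.find_min hex hj)⟩

lemma QW16c_le_MK {k : ℕ} (n : ℕ) (ω : ℕ → ℝ × ℝ) {j : ℕ} (hj : j < k) : Zw (gg k n j) ω ≤ MK k n ω := by
  unfold MK
  exact le_ciSup (f := fun j : Fin k => Zw (gg k n j) ω) (Set.finite_range _).bddAbove ⟨j, hj⟩

/-- PROOF. Let `y = (x + ε) a n`. The first time `t` at which `Zw t ≥ y` exists on the event. The event `t > (1-δ) n`: `late`. If `t ≤ (1-δ) n` let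
`j` be the least index with `gg k n j ≥ t` (`t ≤ gg k n j ≤ t + n/k + 1`, `j < k` if `1/k < δ`, `n` large): `Zw (gg j) ≤ x a n`, so `|Zw i (shift t ω)| ≥ ε a n` for some
`i ≤ w = ⌈n/k⌉₊ + 1`. By `win` (`b = t`, `A = FP y t`) and `FP_sum`: at most
`∑_t K/(n - t - w) · P(FP y t, AliveQ t) · K w L (ε a n) ≤ (2K/(δ n)) (K/V y) K w C_ε/n ≤ C_{δ,ε,x} (1/k + 2/n) bb n`. -/
theorem QS.MK_approx (h : QS D μ ν a L V V' p K x₀) : ∀ x > (0 : ℝ), ∀ ε > (0 : ℝ), ∀ θ > (0 : ℝ),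
    ∃ k₀ : ℕ, ∀ k ≥ k₀, ∃ n₀ : ℕ, ∀ n ≥ n₀,
      PQ μ ν (EvN D n ∩ {ω | (x + ε) * a n ≤ MZ n ω ∧ MK k n ω ≤ x * a n}) ≤
        ENNReal.ofReal (θ * bb V a n) := by
  intro x hx ε hε θ hθ
  have hPμ := h.qi.probμ
  have hPν := h.qi.probν
  have hPQ : IsProbabilityMeasure (PQ μ ν) := by
    unfold PQ seqLaw
    infer_instance
  have hK : 1 ≤ K := h.K_ge
  have hs : 0 < x + ε := by linarith
  obtain ⟨δ₀, hδ₀, hlate⟩ := h.late (x + ε) hs (θ / 2) (half_pos hθ)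
  set δ : ℝ := min δ₀ (1 / 2) with hδd
  have hδ : 0 < δ := lt_min hδ₀ (by norm_num)
  have hδ1 : δ ≤ 1 / 2 := min_le_right _ _
  obtain ⟨n₁, hn₁⟩ := hlate δ hδ (min_le_left _ _)
  obtain ⟨Cs, hCs, n₂, hn₂, hsc⟩ := h.scale hs
  obtain ⟨Ce, hCe, n₃, hn₃, hse⟩ := h.scale hε
  refine ⟨⌈4 * K ^ 3 * Ce * Cs / (δ * θ)⌉₊ + ⌈2 / δ⌉₊ + 1, fun k hk => ?_⟩
  have hk1 : 4 * K ^ 3 * Ce * Cs / (δ * θ) ≤ k := by
    refine (Nat.le_ceil _).trans ?_
    exact_mod_cast (by omega : ⌈4 * K ^ 3 * Ce * Cs / (δ * θ)⌉₊ ≤ k)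
  have hk2 : 2 / δ ≤ k := by
    refine (Nat.le_ceil _).trans ?_
    exact_mod_cast (by omega : ⌈2 / δ⌉₊ ≤ k)
  have hk0 : (0 : ℝ) < k := by exact_mod_cast (by omega : 0 < k)
  have hδk : 2 ≤ δ * k := by
    rw [div_le_iff₀ hδ] at hk2
    linarith
  refine ⟨max n₁ (max n₂ n₃), fun n hn => ?_⟩
  have hn1 : n₁ ≤ n := le_trans (le_max_left _ _) hn
  have hn2 : n₂ ≤ n := le_trans (le_trans (le_max_left _ _) (le_max_right _ _)) hn
  have hn3 : n₃ ≤ n := le_trans (le_trans (le_max_right _ _) (le_max_right _ _)) hn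
  have hn0 : 1 ≤ n := hn₂.trans hn2
  have hnR : (0 : ℝ) < n := by exact_mod_cast hn0
  obtain ⟨s1, -, -, s4, -⟩ := hsc n hn2
  obtain ⟨e1, e2, -, -, -⟩ := hse n hn3
  have hVn : 0 < V (a n) := lt_of_lt_of_le one_pos (h.V_one _)
  set y : ℝ := (x + ε) * a n with hy
  have hVy : 0 < V y := lt_of_lt_of_le one_pos (h.V_one _)
  set w : ℕ := ⌊(n : ℝ) / k⌋₊ with hw
  have hwR : (w : ℝ) ≤ n / k := Nat.floor_le (by positivity)
  have hnk : (n : ℝ) / k ≤ δ * n / 2 := by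
    rw [div_le_iff₀ hk0]
    nlinarith
  set B := QW16c_B w (ε * a n) with hB
  set T : Finset ℕ := (Finset.range n).filter (fun t => (t : ℝ) ≤ (1 - δ) * n) with hT
  -- the inclusion
  have hsub : EvN D n ∩ {ω | (x + ε) * a n ≤ MZ n ω ∧ MK k n ω ≤ x * a n} ⊆
      (EvN D n ∩ {ω | ∃ t < n, (1 - δ) * n < t ∧ ω ∈ FP ((x + ε) * a n) t}) ∪
        ⋃ t ∈ T, (EvN D n ∩ FP y t ∩ {ω | shift t ω ∈ B}) := by
    rintro ω ⟨hN, hMZ, hMK⟩
    obtain ⟨-, -, i, hi, hiM⟩ := MZ_facts h.dom hn0 hN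
    have h1 : y ≤ Zw i ω := by
      rw [hiM]
      exact hMZ
    obtain ⟨t, hti, hFP⟩ := QW16c_FP_ex h1
    have htn : t < n := lt_of_le_of_lt hti hi
    rcases lt_or_ge ((1 - δ) * n) (t : ℝ) with h2 | h2
    · exact Or.inl ⟨hN, t, htn, h2, hFP⟩
    · right
      rw [Set.mem_iUnion₂]
      refine ⟨t, Finset.mem_filter.2 ⟨Finset.mem_range.2 htn, h2⟩, ⟨hN, hFP⟩, ?_⟩
      -- the grid point
      set j : ℕ := ⌈(t : ℝ) * k / n⌉₊ with hj
      have hj1 : (t : ℝ) * k / n ≤ j := Nat.le_ceil _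
      have hj2 : (j : ℝ) < (t : ℝ) * k / n + 1 := Nat.ceil_lt_add_one (by positivity)
      have hjk : j < k := by
        have h3 : (t : ℝ) * k / n ≤ (1 - δ) * k := by
          rw [div_le_iff₀ hnR]
          calc (t : ℝ) * k ≤ ((1 - δ) * n) * k := mul_le_mul_of_nonneg_right h2 hk0.le
            _ = (1 - δ) * k * n := by ring
        have h4 : (j : ℝ) < k := by linarith
        exact_mod_cast h4
      have hg1 : t ≤ gg k n j := by
        unfold gg
        refine Nat.le_floor ?_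
        rw [div_mul_eq_mul_div, le_div_iff₀ hk0]
        rw [div_le_iff₀ hnR] at hj1
        exact hj1
      have hg2 : (gg k n j : ℝ) < t + n / k := by
        have h3 : (gg k n j : ℝ) ≤ (j : ℝ) / k * n := by
          unfold gg
          exact Nat.floor_le (by positivity)
        refine lt_of_le_of_lt h3 ?_
        have h4 : (j : ℝ) * n < ((t : ℝ) * k / n + 1) * n := mul_lt_mul_of_pos_right hj2 hnR
        have h5 : ((t : ℝ) * k / n + 1) * n = t * k + n := by field_simp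
        rw [h5] at h4
        rw [div_mul_eq_mul_div, div_lt_iff₀ hk0, add_mul, div_mul_cancel₀ _ hk0.ne']
        exact h4
      obtain ⟨i', hi'⟩ := Nat.exists_eq_add_of_le hg1
      have hi'w : i' ≤ w := by
        refine Nat.le_floor ?_
        rw [hi'] at hg2
        push_cast at hg2
        linarith
      have hZ : Zw (t + i') ω ≤ x * a n := by
        rw [← hi']
        exact (QW16c_le_MK n ω hjk).trans hMK
      rw [QW16c_Zw_add] at hZ
      have hZt : y ≤ Zw t ω := hFP.1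
      refine ⟨i', hi'w, ?_⟩
      refine le_trans ?_ (neg_le_abs _)
      rw [hy] at hZt
      linarith
  have hBm : MeasurableSet B := QW16c_B_meas _ _
  -- bounds
  have hPB : PQ μ ν B ≤ ENNReal.ofReal (K * Ce / k) := by
    have h1 := h.maxZ w (ε * a n) e1
    have h2 : PQ μ ν B = ENNReal.ofReal ((PQ μ ν).real B) := (ofReal_measureReal).symm
    rw [h2]
    refine ENNReal.ofReal_le_ofReal (h1.trans ?_)
    have h3 : (w : ℝ) * L (ε * a n) ≤ (n / k) * (Ce / n) := by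
      have h4 : 0 < L (ε * a n) := h.L_pos _ e1
      exact mul_le_mul hwR e2 h4.le (by positivity)
    have h5 : ((n : ℝ) / k) * (Ce / n) = Ce / k := by field_simp
    rw [h5] at h3
    calc K * (w * L (ε * a n)) ≤ K * (Ce / k) := mul_le_mul_of_nonneg_left h3 (by linarith)
      _ = K * Ce / k := by ring
  have hterm : ∀ t ∈ T, PQ μ ν (EvN D n ∩ FP y t ∩ {ω | shift t ω ∈ B}) ≤
      ENNReal.ofReal (2 * K / (δ * n)) * ENNReal.ofReal (K * Ce / k) *
        PQ μ ν (FP y t ∩ {ω | AliveQ D t ω}) := by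
    intro t ht
    obtain ⟨ht1, ht2⟩ := Finset.mem_filter.1 ht
    have htn : t < n := Finset.mem_range.1 ht1
    have h1 : ((t + w : ℕ) : ℝ) ≤ n - δ * n / 2 := by
      push_cast
      linarith
    have h2 : t + w < n := by
      have h3 : ((t + w : ℕ) : ℝ) < n := by
        have : 0 < δ * n := by positivity
        linarith
      exact_mod_cast h3
    have h3 := h.win n t w h2 (FP y t) B (measurableSet_FP y t) hBm (QW16c_FP_dep y t)
      (QW16c_B_dep w _)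
    refine h3.trans ?_
    have h4 : K / ((n - t - w : ℕ) : ℝ) ≤ 2 * K / (δ * n) := by
      have h5 : ((n - t - w : ℕ) : ℝ) = n - ((t + w : ℕ) : ℝ) := by
        rw [Nat.sub_sub, Nat.cast_sub h2.le]
      rw [h5]
      have h6 : 0 < δ * n := by positivity
      rw [div_le_div_iff₀ (by linarith) h6]
      have h7 : δ * n ≤ 2 * (n - ((t + w : ℕ) : ℝ)) := by linarith
      calc K * (δ * n) ≤ K * (2 * (n - ((t + w : ℕ) : ℝ))) := mul_le_mul_of_nonneg_left h7 (by linarith)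
        _ = 2 * K * (n - ((t + w : ℕ) : ℝ)) := by ring
    calc ENNReal.ofReal (K / ((n - t - w : ℕ) : ℝ)) * (PQ μ ν (FP y t ∩ {ω | AliveQ D t ω}) * PQ μ ν B)
        ≤ ENNReal.ofReal (2 * K / (δ * n)) * (PQ μ ν (FP y t ∩ {ω | AliveQ D t ω}) * ENNReal.ofReal (K * Ce / k)) :=
          mul_le_mul' (ENNReal.ofReal_le_ofReal h4) (mul_le_mul' le_rfl hPB)
      _ = _ := by ring
  have hFPs := h.FP_sum n y s1 T (fun t ht => (Finset.mem_range.1 (Finset.mem_filter.1 ht).1).le)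
  have hfin : 2 * K / (δ * n) * (K * Ce / k) * (K / V y) ≤ θ / 2 * bb V a n := by
    have h1 : K / V y ≤ K * Cs / V (a n) := by
      rw [div_le_div_iff₀ hVy hVn]
      calc K * V (a n) ≤ K * (Cs * V y) := mul_le_mul_of_nonneg_left s4 (by linarith)
        _ = K * Cs * V y := by ring
    have h2 : 4 * K ^ 3 * Ce * Cs ≤ k * (δ * θ) := by
      rwa [div_le_iff₀ (by positivity)] at hk1
    calc 2 * K / (δ * n) * (K * Ce / k) * (K / V y)
        ≤ 2 * K / (δ * n) * (K * Ce / k) * (K * Cs / V (a n)) := mul_le_mul_of_nonneg_left h1 (by positivity)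
      _ = (4 * K ^ 3 * Ce * Cs) * (1 / (2 * δ * k)) * (1 / (n * V (a n))) := by
          field_simp
          ring
      _ ≤ (k * (δ * θ)) * (1 / (2 * δ * k)) * (1 / (n * V (a n))) := by
          refine mul_le_mul_of_nonneg_right (mul_le_mul_of_nonneg_right h2 (by positivity)) (by positivity)
      _ = θ / 2 * bb V a n := by
          unfold bb
          field_simp
  have hbb : 0 < bb V a n := h.bb_pos n hn0
  calc PQ μ ν (EvN D n ∩ {ω | (x + ε) * a n ≤ MZ n ω ∧ MK k n ω ≤ x * a n})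
      ≤ PQ μ ν (EvN D n ∩ {ω | ∃ t < n, (1 - δ) * n < t ∧ ω ∈ FP ((x + ε) * a n) t}) +
        ∑ t ∈ T, PQ μ ν (EvN D n ∩ FP y t ∩ {ω | shift t ω ∈ B}) :=
        (measure_mono hsub).trans ((measure_union_le _ _).trans
          (add_le_add le_rfl (measure_biUnion_finset_le _ _)))
    _ ≤ ENNReal.ofReal (θ / 2 * bb V a n) + ENNReal.ofReal (θ / 2 * bb V a n) := by
        refine add_le_add (hn₁ n hn1) ?_
        refine (Finset.sum_le_sum hterm).trans ?_
        rw [← Finset.mul_sum]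
        refine (mul_le_mul' le_rfl hFPs).trans ?_
        rw [← ENNReal.ofReal_mul (by positivity), ← ENNReal.ofReal_mul (by positivity)]
        exact ENNReal.ofReal_le_ofReal hfin
    _ = ENNReal.ofReal (θ * bb V a n) := by
        rw [← ENNReal.ofReal_add (by positivity) (by positivity)]
        congr 1
        ring

/-- PROOF. `MK k n ≤ MZ n` (`gg k n j < n`). If `MZ > MK + τ a n` and `MZ < R a n` (`tight`), let `j ≥ 1` be the least natural number with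
`j τ/4 ≥ MK/a n` (`MK ≥ Zw 0 = 0`): `MK ≤ x_j a n`, `x_j = j τ/4 ≤ MK/a n + τ/4`, so `MZ ≥ (x_j + τ/2) a n`. Union over `j ≤ 4R/τ + 1` of `MK_approx`. -/
theorem QS.MZ_MK (h : QS D μ ν a L V V' p K x₀) : ∀ τ > (0 : ℝ), ∀ θ > (0 : ℝ),
    ∃ k₀ : ℕ, ∀ k ≥ k₀, ∃ n₀ : ℕ, ∀ n ≥ n₀,
      PQ μ ν (EvN D n ∩ {ω | τ * a n < |MZ n ω - MK k n ω|}) ≤
        ENNReal.ofReal (θ * bb V a n) := by
  intro τ hτ θ hθ
  obtain ⟨R, hR, htight⟩ := h.tight (θ / 2) (half_pos hθ)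
  set J : ℕ := ⌈4 * R / τ⌉₊ + 1 with hJ
  have hJ0 : (0 : ℝ) < J := by exact_mod_cast (by omega : 0 < J)
  have hap : ∀ j ∈ Finset.Icc 1 J, ∀ᶠ k : ℕ in atTop, ∀ᶠ n : ℕ in atTop,
      PQ μ ν (EvN D n ∩ {ω | ((j : ℝ) * τ / 4 + τ / 2) * a n ≤ MZ n ω ∧ MK k n ω ≤ (j : ℝ) * τ / 4 * a n}) ≤
        ENNReal.ofReal (θ / (2 * J) * bb V a n) := by
    intro j hj
    have hj1 : (0 : ℝ) < j := by exact_mod_cast (Finset.mem_Icc.1 hj).1
    obtain ⟨k₀, hk₀⟩ := h.MK_approx ((j : ℝ) * τ / 4) (by positivity) (τ / 2) (by positivity)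
      (θ / (2 * J)) (by positivity)
    refine eventually_atTop.2 ⟨k₀, fun k hk => ?_⟩
    obtain ⟨n₀, hn₀⟩ := hk₀ k hk
    exact eventually_atTop.2 ⟨n₀, hn₀⟩
  obtain ⟨k₀, hk₀⟩ := eventually_atTop.1 ((Filter.eventually_all_finset _).2 hap)
  refine ⟨max k₀ 1, fun k hk => ?_⟩
  have hk1 : 1 ≤ k := le_trans (le_max_right _ _) hk
  have hkR : (0 : ℝ) < k := by exact_mod_cast hk1
  obtain ⟨n₀, hn₀⟩ := eventually_atTop.1 ((Filter.eventually_all_finset _).2 (hk₀ k (le_trans (le_max_left _ _) hk)))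
  refine ⟨max n₀ 1, fun n hn => ?_⟩
  have hn1 : 1 ≤ n := le_trans (le_max_right _ _) hn
  have hnR : (0 : ℝ) < n := by exact_mod_cast hn1
  have ha0 : 0 < a n := lt_of_lt_of_le (by linarith [h.x_ge]) (h.a_ge n hn1)
  have hbb : 0 < bb V a n := h.bb_pos n hn1
  have hsub : EvN D n ∩ {ω | τ * a n < |MZ n ω - MK k n ω|} ⊆
      (EvN D n ∩ {ω | ∃ i < n, R * a n ≤ Zw i ω}) ∪
        ⋃ j ∈ Finset.Icc 1 J, (EvN D n ∩
          {ω | ((j : ℝ) * τ / 4 + τ / 2) * a n ≤ MZ n ω ∧ MK k n ω ≤ (j : ℝ) * τ / 4 * a n}) := by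
    rintro ω ⟨hN, hω⟩
    have hω' : τ * a n < |MZ n ω - MK k n ω| := hω
    obtain ⟨h1, -, i, hi, hiM⟩ := MZ_facts h.dom hn1 hN
    have hle : MK k n ω ≤ MZ n ω := by
      unfold MK
      have : Nonempty (Fin k) := ⟨⟨0, hk1⟩⟩
      refine ciSup_le fun j => h1 _ ?_
      have h3 : (((j : ℕ) : ℝ) / k * n) < n := by
        have h4 : ((j : ℕ) : ℝ) < k := by exact_mod_cast j.2
        rw [div_mul_eq_mul_div, div_lt_iff₀ hkR]
        nlinarith
      unfold gg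
      exact (Nat.floor_lt (by positivity)).2 h3
    have h0 : 0 ≤ MK k n ω := by
      have h3 := QW16c_le_MK n ω (show 0 < k by omega)
      have h4 : gg k n 0 = 0 := by
        unfold gg
        simp
      have h5 : Zw 0 ω = 0 := by simp [Zw, Dp, Ar]
      rw [h4, h5] at h3
      exact h3
    rw [abs_of_nonneg (by linarith)] at hω'
    rcases le_or_gt (R * a n) (MZ n ω) with h2 | h2
    · exact Or.inl ⟨hN, i, hi, by rw [hiM]; exact h2⟩
    · right
      rw [Set.mem_iUnion₂]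
      set q : ℝ := MK k n ω / a n with hq
      have hq0 : 0 ≤ q := div_nonneg h0 ha0.le
      have hMq : MK k n ω = q * a n := by
        rw [hq, div_mul_cancel₀ _ ha0.ne']
      set j : ℕ := max 1 ⌈4 * q / τ⌉₊ with hj
      have hj1 : q ≤ (j : ℝ) * τ / 4 := by
        have h3 : 4 * q / τ ≤ j := (Nat.le_ceil _).trans (by exact_mod_cast le_max_right _ _)
        rw [div_le_iff₀ hτ] at h3
        linarith
      have hj2 : (j : ℝ) * τ / 4 ≤ q + τ / 4 := by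
        have h3 : (j : ℝ) ≤ 4 * q / τ + 1 := by
          rcases le_total ⌈4 * q / τ⌉₊ 1 with h4 | h4
          · rw [hj, max_eq_left h4, Nat.cast_one]
            have : 0 ≤ 4 * q / τ := by positivity
            linarith
          · rw [hj, max_eq_right h4]
            exact (Nat.ceil_lt_add_one (by positivity)).le
        have h4 : (j : ℝ) * τ ≤ (4 * q / τ + 1) * τ := mul_le_mul_of_nonneg_right h3 hτ.le
        have h5 : (4 * q / τ + 1) * τ = 4 * q + τ := by field_simp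
        linarith
      have hjJ : j ≤ J := by
        refine max_le (by omega) ?_
        have h3 : q ≤ R := by
          rw [hq, div_le_iff₀ ha0]
          linarith
        have h4 : ⌈4 * q / τ⌉₊ ≤ ⌈4 * R / τ⌉₊ := by
          refine Nat.ceil_mono ?_
          exact div_le_div_of_nonneg_right (by linarith) hτ.le
        omega
      refine ⟨j, Finset.mem_Icc.2 ⟨le_max_left _ _, hjJ⟩, hN, ?_, ?_⟩
      · have h3 : ((j : ℝ) * τ / 4 + τ / 2) * a n ≤ (q + τ) * a n :=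
          mul_le_mul_of_nonneg_right (by linarith) ha0.le
        have h4 : (q + τ) * a n = MK k n ω + τ * a n := by rw [hMq]; ring
        linarith
      · rw [hMq]
        exact mul_le_mul_of_nonneg_right hj1 ha0.le
  calc PQ μ ν (EvN D n ∩ {ω | τ * a n < |MZ n ω - MK k n ω|})
      ≤ PQ μ ν (EvN D n ∩ {ω | ∃ i < n, R * a n ≤ Zw i ω}) +
        ∑ j ∈ Finset.Icc 1 J, PQ μ ν (EvN D n ∩
          {ω | ((j : ℝ) * τ / 4 + τ / 2) * a n ≤ MZ n ω ∧ MK k n ω ≤ (j : ℝ) * τ / 4 * a n}) :=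
        (measure_mono hsub).trans ((measure_union_le _ _).trans
          (add_le_add le_rfl (measure_biUnion_finset_le _ _)))
    _ ≤ ENNReal.ofReal (θ / 2 * bb V a n) + ∑ _j ∈ Finset.Icc 1 J, ENNReal.ofReal (θ / (2 * J) * bb V a n) :=
        add_le_add (htight n hn1) (Finset.sum_le_sum fun j hj => hn₀ n (le_trans (le_max_left _ _) hn) j hj)
    _ = ENNReal.ofReal (θ * bb V a n) := by
        rw [Finset.sum_const, Nat.card_Icc, Nat.add_sub_cancel, nsmul_eq_mul, ← ENNReal.ofReal_natCast J,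
          ← ENNReal.ofReal_mul (by positivity), ← ENNReal.ofReal_add (by positivity) (by positivity)]
        congr 1
        field_simp
        ring

end Pool.Agent.BPT
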