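import Pool.Agent.MP_99a865_pr.ST.QW8
import Pool.Agent.MP_99a865_pr.ST.QW16

/-! **[STB-QW17a]** The width is close to the maximum of the walk. -/

open MeasureTheory ProbabilityTheory Filter Topology
open scoped ENNReal NNReal

namespace Pool.Agent.BPT

variable {D : Set ℝ} {μ ν : Measure ℝ} {a : ℕ → ℝ} {L V V' : ℝ → ℝ} {p K x₀ : ℝ}

/-- Upper bound. PROOF. `W = 1` or `W = b' - b` for consecutive boundaries `b < b' ≤ n` (`b < n`), and `gap_le`; `Zw b ≤ MZ n`, `0 ≤ MZ n`. -/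
theorem W_upper (hD : Dom D) {n q : ℕ} {ω : ℕ → ℝ × ℝ} (hN : ω ∈ EvN D n) (hnn : NN ω) {ε : ℝ}
    (hε : 0 < ε) (hε1 : ε < 1) (hq : 1 ≤ q) (hF : ω ∉ FA ε q n) {W : ℕ} (hW : IsW D n ω W) :
    (W : ℝ) ≤ MZ n ω / (1 - ε) + q := by
  have hn : 1 ≤ n := hN.1
  obtain ⟨hM, hM0, -⟩ := MZ_facts hD hn hN
  have h1 : 0 < 1 - ε := by linarith
  have hq' : (1 : ℝ) ≤ q := by exact_mod_cast hq
  rcases hW.2.2 with h | ⟨b, b', hb, hbn, h⟩
  · have : 0 ≤ MZ n ω / (1 - ε) := div_nonneg hM0 h1.le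
    rw [h]
    push_cast
    linarith
  · have hlt : b < b' := hb.2.2.1
    have h2 := gap_le hD hN hnn hε hε1 hq hF hb hbn
    have h3 : Zw b ω / (1 - ε) ≤ MZ n ω / (1 - ε) :=
      div_le_div_of_nonneg_right (hM b (by omega)) h1.le
    have h4 : (W : ℝ) = (b' : ℝ) - b := by
      rw [← h, Nat.cast_sub hlt.le]
    rw [h4]
    linarith

private theorem QW17a_last {P : ℕ → Prop} {t : ℕ} (h1 : P 1) (ht : 1 ≤ t) :
    ∃ b, b ≤ t ∧ P b ∧ ∀ c, b < c → c ≤ t → ¬ P c := by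
  classical
  induction t with
  | zero => omega
  | succ t ih =>
    by_cases hP : P (t + 1)
    · exact ⟨t + 1, le_rfl, hP, fun c h2 h3 => by omega⟩
    · rcases Nat.eq_zero_or_pos t with h0 | h0
      · subst h0
        exact absurd h1 hP
      · obtain ⟨b, hb, hPb, hc⟩ := ih h0
        refine ⟨b, by omega, hPb, fun c h2 h3 => ?_⟩
        rcases Nat.eq_or_lt_of_le h3 with h4 | h4
        · rw [h4]; exact hP
        · exact hc c h2 (by omega)

/-- Lower bound. PROOF. Let `t` be the first time with `Zw t ≥ y > 0` (`1 ≤ t < n`), followed by a good window of length `w`; so `|Zw k - Zw t| < e`,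
`|Ar k - Ar t - (k-t)| < e` for `t ≤ k ≤ t + w`. Let `b ≤ t < b'` be consecutive boundaries, `b' ≤ n` (`Bd.one`, `exists_next`: the last
boundary `b ≤ t`). By `Nxt_prop`, `Ar (b'-1) - Ar b ≤ Zw b ≤ Ar b' - Ar b`.
Case `b = t`: `Zw t ≤ Ar b' - Ar t`; if `b' ≤ t + w` this is `≤ (b'-t) + e`, so `W ≥ b' - b ≥ y - e`; otherwise `b' - t > w ≥ y`.
Case `b < t`: `Zw b < y`. First `b' - 1 ≤ t + w`: otherwise `w - e < Ar (t+w) - Ar t ≤ Ar (b'-1) - Ar b < y`, but `w ≥ y + e`. So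
`(b'-1-t) - e < y`, i.e. `b' < t + y + e + 1`. As `Zw b' > y - e > 0`, `b' < n` (`Zw n ∉ D` on `EvN D n`; `0 < Zw b'` implies `∈ D`). Let `b''` be the next boundary
(`exists_next`), `Zw b' ≤ Ar b'' - Ar b'`. If `b'' ≤ t + w`: `Ar b'' - Ar b' ≤ (b'' - b') + 2e`, so `W ≥ b'' - b' ≥ y - 3e`. If `b'' > t + w`:
`b'' - b' ≥ w - (y + e + 1) ≥ y`. -/
theorem W_lower (hD : Dom D) {n w t : ℕ} {ω : ℕ → ℝ × ℝ} (hN : ω ∈ EvN D n) (hnn : NN ω)
    {y e : ℝ} (he : 1 ≤ e) (hy : 4 * e ≤ y) (hw : 2 * y + 2 * e + 2 ≤ w) (ht : t < n)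
    (hF : ω ∈ FP y t) (hg : shift t ω ∉ BWd w e) {W : ℕ} (hW : IsW D n ω W) : y - 3 * e ≤ W := by
  obtain ⟨hF1, hF2⟩ := hF
  have hgood : ∀ k, t ≤ k → k ≤ t + w → |Zw k ω - Zw t ω| < e ∧ |Ar k ω - Ar t ω - ((k : ℝ) - t)| < e := by
    intro k h1 h2
    obtain ⟨j, rfl⟩ := Nat.exists_eq_add_of_le h1
    have hj : j ≤ w := by omega
    have h3 : ¬ (e ≤ |Zw j (shift t ω)| ∨ e ≤ |Ar j (shift t ω) - j|) := fun h => hg ⟨j, hj, h⟩
    push Not at h3
    have h4 : Ar (t + j) ω = Ar t ω + Ar j (shift t ω) := Ar_add t j ω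
    have h5 : Dp (t + j) ω = Dp t ω + Dp j (shift t ω) := Dp_add t j ω
    have h6 : Zw (t + j) ω - Zw t ω = Zw j (shift t ω) := by
      unfold Zw; rw [h4, h5]; ring
    refine ⟨by rw [h6]; exact h3.1, ?_⟩
    have h7 : Ar (t + j) ω - Ar t ω - (((t + j : ℕ) : ℝ) - t) = Ar j (shift t ω) - j := by
      rw [h4]; push_cast; ring
    rw [h7]
    exact h3.2
  have hy0 : 0 < y := by linarith
  have ht1 : 1 ≤ t := by
    rcases Nat.eq_zero_or_pos t with h | h
    · subst h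
      have : Zw 0 ω = 0 := by simp [Zw, Dp, Ar]
      rw [this] at hF1
      linarith
    · exact h
  have hWge : ∀ c c' : ℕ, Nxt D ω c c' → c' ≤ n → (c' : ℝ) - c ≤ W := by
    intro c c' h1 h2
    have h3 : c' - c ≤ W := hW.2.1 c c' h1 h2
    have h4 : ((c' - c : ℕ) : ℝ) ≤ W := by exact_mod_cast h3
    rw [Nat.cast_sub h1.2.2.1.le] at h4
    exact h4
  obtain ⟨b, hbt, hb, hblast⟩ := QW17a_last (P := Bd D ω) Bd.one ht1
  obtain ⟨b', hb'n, hnx, hin, hout⟩ := exists_next hD hN hnn hb (by omega)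
  have hb't : t < b' := by
    by_contra h
    push Not at h
    exact hblast b' hnx.2.2.1 h hnx.2.1
  have hin' : 0 ≤ Dp b ω - Ar (b' - 1) ω := hD.nonneg hin
  have hout' : Dp b ω - Ar b' ω ≤ 0 := hD.not_mem hout
  have hZb : Zw b ω = Dp b ω - Ar b ω := rfl
  rcases Nat.eq_or_lt_of_le hbt with hbt' | hbt'
  · -- b = t
    subst hbt'
    have h1 := hWge b b' hnx hb'n
    by_cases h2 : b' ≤ b + w
    · have h3 := (abs_lt.1 (hgood b' hb't.le h2).2).2
      linarith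
    · push Not at h2
      have h3 : ((b + w : ℕ) : ℝ) < b' := by exact_mod_cast h2
      push_cast at h3
      linarith
  · -- b < t
    have hZlt : Zw b ω < y := hF2 b hbt'
    have hArb : Ar b ω ≤ Ar t ω := F5_Ar_mono hnn hbt
    have h1 : b' - 1 ≤ t + w := by
      by_contra h
      push Not at h
      have h2 : Ar (t + w) ω ≤ Ar (b' - 1) ω := F5_Ar_mono hnn h.le
      have h3 := (abs_lt.1 (hgood (t + w) (by omega) le_rfl).2).1
      push_cast at h3
      linarith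
    have h2 := (abs_lt.1 (hgood (b' - 1) (by omega) h1).2).1
    rw [Nat.cast_sub (by omega : 1 ≤ b')] at h2
    push_cast at h2
    have h3 : (b' : ℝ) < t + y + e + 1 := by linarith
    have h4 : b' ≤ t + w := by
      have : (b' : ℝ) ≤ ((t + w : ℕ) : ℝ) := by push_cast; linarith
      exact_mod_cast this
    obtain ⟨h5, h6⟩ := hgood b' hb't.le h4
    have h7 : y - e < Zw b' ω := by
      have := (abs_lt.1 h5).1
      linarith
    have hb'lt : b' < n := by
      rcases Nat.eq_or_lt_of_le hb'n with h | h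
      · exfalso
        have h8 := hN.2.2
        rw [← h] at h8
        have := hD.not_mem h8
        linarith
      · exact h
    obtain ⟨b'', hb''n, hnx', -, hout''⟩ := exists_next hD hN hnn hnx.2.1 hb'lt
    have h8 : Dp b' ω - Ar b'' ω ≤ 0 := hD.not_mem hout''
    have hZb' : Zw b' ω = Dp b' ω - Ar b' ω := rfl
    have h9 := hWge b' b'' hnx' hb''n
    have hlt : b' < b'' := hnx'.2.2.1
    by_cases h10 : b'' ≤ t + w
    · have h11 := (abs_lt.1 (hgood b'' (by omega) h10).2).2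
      have h12 := (abs_lt.1 h6).1
      linarith
    · push Not at h10
      have h11 : ((t + w : ℕ) : ℝ) < b'' := by exact_mod_cast h10
      push_cast at h11
      linarith

end Pool.Agent.BPT
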