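import Pool.Agent.MP_99a865_pr.ST.QW8
import Pool.Agent.MP_99a865_pr.ST.QW16
import Pool.Agent.MP_99a865_pr.ST.QW17a

/-! **[STB-QW17b]** The width is close to the maximum of the walk. -/

open MeasureTheory ProbabilityTheory Filter Topology
open scoped ENNReal NNReal

namespace Pool.Agent.BPT

variable {D : Set ℝ} {μ ν : Measure ℝ} {a : ℕ → ℝ} {L V V' : ℝ → ℝ} {p K x₀ : ℝ}

theorem QW17b_Zw {t : ℕ} {ω ω' : ℕ → ℝ × ℝ} (h : ∀ j < t, ω j = ω' j) {i : ℕ} (hi : i ≤ t) :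
    Zw i ω = Zw i ω' := by
  unfold Zw Dp Ar
  have h1 : ∀ j ∈ Finset.range i, ω j = ω' j := fun j hj => h j (by
    rw [Finset.mem_range] at hj
    omega)
  have h2 : ∑ j ∈ Finset.range i, (ω j).2 = ∑ j ∈ Finset.range i, (ω' j).2 :=
    Finset.sum_congr rfl fun j hj => by rw [h1 j hj]
  have h3 : ∑ j ∈ Finset.range i, (ω j).1 = ∑ j ∈ Finset.range i, (ω' j).1 :=
    Finset.sum_congr rfl fun j hj => by rw [h1 j hj]
  rw [h2, h3]

theorem QW17b_FP_dep (y : ℝ) (t : ℕ) (ω ω' : ℕ → ℝ × ℝ) (h : ∀ j < t, ω j = ω' j) :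
    ω ∈ FP y t ↔ ω' ∈ FP y t := by
  unfold FP
  simp only [Set.mem_ofPred_eq]
  rw [QW17b_Zw h le_rfl]
  refine and_congr Iff.rfl (forall₂_congr fun j hj => ?_)
  rw [QW17b_Zw h hj.le]

theorem QW17b_small (h : QS D μ ν a L V V' p K x₀) : Tendsto (fun n : ℕ => a n / n) atTop (𝓝 0) := by
  have hx : 0 < x₀ := lt_of_lt_of_le (by norm_num) h.x_ge
  refine squeeze_zero' ?_ ?_ h.a_small
  · filter_upwards [eventually_ge_atTop 1] with n hn
    have ha0 : 0 < a n := lt_of_lt_of_le hx (h.a_ge n hn)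
    positivity
  · filter_upwards [eventually_ge_atTop 1] with n hn
    have hn1 : (1 : ℝ) ≤ n := by exact_mod_cast hn
    have ha0 : 0 < a n := lt_of_lt_of_le hx (h.a_ge n hn)
    have := Real.log_nonneg hn1
    gcongr
    nlinarith

/-- the numerical estimate -/
theorem QW17b_num (h : QS D μ ν a L V V' p K x₀) {x ε δ θ : ℝ} (hx : 0 < x) (hε : 0 < ε)
    (hδ : 0 < δ) (hθ : 0 < θ) : ∃ n₀ : ℕ, 1 ≤ n₀ ∧ ∀ n ≥ n₀,
      x₀ ≤ (x + ε) * a n ∧ x₀ ≤ ε * a n / 4 ∧ 2 ≤ ε * a n / 2 ∧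
      (∀ t : ℕ, (t : ℝ) ≤ (1 - δ) * n → t + ⌈(2 * (x + ε) + ε) * a n⌉₊ < n ∧
        δ * n / 2 ≤ ((n - t - ⌈(2 * (x + ε) + ε) * a n⌉₊ : ℕ) : ℝ)) ∧
      (2 * K / (δ * n)) * (K / V ((x + ε) * a n)) *
        (2 * K * ((⌈(2 * (x + ε) + ε) * a n⌉₊ : ℝ) * L (ε * a n / 4))) ≤ θ * bb V a n := by
  have hK : 0 < K := lt_of_lt_of_le one_pos h.K_ge
  have hx0 : 0 < x₀ := lt_of_lt_of_le (by norm_num) h.x_ge
  have hx16 := h.x_ge
  obtain ⟨C₁, hC₁, n₁, hn₁, H₁⟩ := h.scale (s := x + ε) (by positivity)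
  obtain ⟨C₂, hC₂, n₂, hn₂, H₂⟩ := h.scale (s := ε / 4) (by positivity)
  obtain ⟨B, hB⟩ : ∃ B : ℝ, B = 2 * (x + ε) + ε + 1 := ⟨_, rfl⟩
  have hB0 : 0 < B := by rw [hB]; positivity
  obtain ⟨C, hC⟩ : ∃ C : ℝ, C = (4 * K ^ 3 / δ) * C₁ * C₂ * B := ⟨_, rfl⟩
  have hC0 : 0 < C := by rw [hC]; positivity
  have hs := QW17b_small h
  have e1 := hs.eventually (gt_mem_nhds (show (0 : ℝ) < θ / C by positivity))
  have e2 := hs.eventually (gt_mem_nhds (show (0 : ℝ) < δ / (2 * B) by positivity))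
  have e3 := h.a_top.eventually_ge_atTop (4 / ε)
  obtain ⟨n₃, hn₃⟩ := Filter.eventually_atTop.1 (e1.and (e2.and e3))
  refine ⟨max (max n₁ n₂) n₃, le_trans hn₁ ((le_max_left _ _).trans (le_max_left _ _)), fun n hn => ?_⟩
  have hn1 : n₁ ≤ n := le_trans ((le_max_left _ _).trans (le_max_left _ _)) hn
  have hn2 : n₂ ≤ n := le_trans ((le_max_right _ _).trans (le_max_left _ _)) hn
  have hn3 : n₃ ≤ n := le_trans (le_max_right _ _) hn
  have hn0 : 1 ≤ n := le_trans hn₁ hn1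
  have hnr : (0 : ℝ) < n := by exact_mod_cast hn0
  obtain ⟨f1, f2, f3⟩ := hn₃ n hn3
  obtain ⟨g1, -, -, g2, -⟩ := H₁ n hn1
  obtain ⟨g3, g4, -, -, -⟩ := H₂ n hn2
  have e4 : ε / 4 * a n = ε * a n / 4 := by ring
  rw [e4] at g3 g4
  have ha := h.a_ge n hn0
  have ha1 : 1 ≤ a n := by linarith
  have ha0 : 0 < a n := by linarith
  have hw1 : (⌈(2 * (x + ε) + ε) * a n⌉₊ : ℝ) ≤ B * a n := by
    have := Nat.ceil_lt_add_one (a := (2 * (x + ε) + ε) * a n) (by positivity)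
    rw [hB]
    linarith
  rw [div_lt_iff₀ hnr] at f1 f2
  have hBa : B * a n < δ * n / 2 := by
    calc B * a n < B * (δ / (2 * B) * n) := mul_lt_mul_of_pos_left f2 hB0
      _ = δ * n / 2 := by field_simp
  refine ⟨g1, g3, ?_, ?_, ?_⟩
  · rw [div_le_iff₀ hε] at f3
    linarith
  · intro t ht
    have h5 : (t : ℝ) + (⌈(2 * (x + ε) + ε) * a n⌉₊ : ℝ) < n := by nlinarith
    have h6 : t + ⌈(2 * (x + ε) + ε) * a n⌉₊ < n := by exact_mod_cast h5
    refine ⟨h6, ?_⟩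
    have h7 : ((n - t - ⌈(2 * (x + ε) + ε) * a n⌉₊ : ℕ) : ℝ) =
        (n : ℝ) - t - (⌈(2 * (x + ε) + ε) * a n⌉₊ : ℝ) := by
      rw [Nat.cast_sub (by omega), Nat.cast_sub (by omega)]
    rw [h7]
    nlinarith
  · have hV0 : 0 < V (a n) := lt_of_lt_of_le one_pos (h.V_one _)
    have hVs : 0 < V ((x + ε) * a n) := lt_of_lt_of_le one_pos (h.V_one _)
    have h8 : K / V ((x + ε) * a n) ≤ K * C₁ / V (a n) := by
      rw [div_le_div_iff₀ hVs hV0]
      nlinarith [mul_le_mul_of_nonneg_left g2 hK.le]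
    have hL0 : 0 ≤ L (ε * a n / 4) := (h.L_pos _ g3).le
    calc (2 * K / (δ * n)) * (K / V ((x + ε) * a n)) *
        (2 * K * ((⌈(2 * (x + ε) + ε) * a n⌉₊ : ℝ) * L (ε * a n / 4)))
        ≤ (2 * K / (δ * n)) * (K * C₁ / V (a n)) * (2 * K * ((B * a n) * (C₂ / n))) := by
          gcongr
      _ = C * a n / n * (1 / (n * V (a n))) := by
          rw [hC]
          field_simp
          ring
      _ ≤ θ * (1 / (n * V (a n))) := by
          refine mul_le_mul_of_nonneg_right ?_ (by positivity)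
          rw [div_le_iff₀ hnr]
          calc C * a n ≤ C * (θ / C * n) := mul_le_mul_of_nonneg_left f1.le hC0.le
            _ = θ * n := by field_simp
      _ = θ * bb V a n := rfl

theorem QS.W_low (h : QS D μ ν a L V V' p K x₀) : ∀ x > (0 : ℝ), ∀ ε > (0 : ℝ), ε ≤ x → ∀ θ > (0 : ℝ),
    ∃ n₀ : ℕ, ∀ n ≥ n₀, PQ μ ν (EvN D n ∩ {ω | NN ω ∧ (x + ε) * a n ≤ MZ n ω ∧
      ∃ W, IsW D n ω W ∧ (W : ℝ) ≤ x * a n}) ≤ ENNReal.ofReal (θ * bb V a n) := by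
  classical
  intro x hx ε hε hεx θ hθ
  have hK : 0 < K := lt_of_lt_of_le one_pos h.K_ge
  have hx0 : 0 < x₀ := lt_of_lt_of_le (by norm_num) h.x_ge
  obtain ⟨δ, hδ, hlate⟩ := h.late (x + ε) (by positivity) (θ / 2) (by positivity)
  obtain ⟨n₁, hn₁⟩ := hlate δ hδ le_rfl
  obtain ⟨n₂, hn₂1, hn₂⟩ := QW17b_num h hx hε hδ (half_pos hθ)
  refine ⟨max n₁ n₂, fun n hn => ?_⟩
  obtain ⟨k1, k2, k3, k4, k5⟩ := hn₂ n (le_trans (le_max_right _ _) hn)
  have hn1 : 1 ≤ n := le_trans hn₂1 (le_trans (le_max_right _ _) hn)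
  have hnr : (0 : ℝ) < n := by exact_mod_cast hn1
  have hl := hn₁ n (le_trans (le_max_left _ _) hn)
  have ha0 : 0 < a n := lt_of_lt_of_le hx0 (h.a_ge n hn1)
  obtain ⟨y, hy⟩ : ∃ y, y = (x + ε) * a n := ⟨_, rfl⟩
  obtain ⟨e, he⟩ : ∃ e, e = ε * a n / 4 := ⟨_, rfl⟩
  obtain ⟨w, hw⟩ : ∃ w : ℕ, w = ⌈(2 * (x + ε) + ε) * a n⌉₊ := ⟨_, rfl⟩
  rw [← hw] at k4 k5
  rw [← he] at k2 k5
  rw [← hy] at k1 k5 hl
  have he1 : 1 ≤ e := by
    have := h.x_ge
    linarith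
  have h4e : 4 * e ≤ y := by
    rw [he, hy]
    nlinarith
  have hww : 2 * y + 2 * e + 2 ≤ w := by
    have := Nat.le_ceil ((2 * (x + ε) + ε) * a n)
    rw [← hw] at this
    rw [hy, he]
    nlinarith
  -- the cover
  have hcov : (EvN D n ∩ {ω | NN ω ∧ (x + ε) * a n ≤ MZ n ω ∧
      ∃ W, IsW D n ω W ∧ (W : ℝ) ≤ x * a n}) ⊆
      (EvN D n ∩ {ω | ∃ t < n, (1 - δ) * n < t ∧ ω ∈ FP y t}) ∪
      ⋃ t ∈ (Finset.range n).filter (fun t : ℕ => (t : ℝ) ≤ (1 - δ) * n),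
        (EvN D n ∩ FP y t ∩ {ω | shift t ω ∈ BWd w e}) := by
    rintro ω ⟨hω, hnn, hMZ, W, hW, hWx⟩
    obtain ⟨-, -, i, hi, hiM⟩ := MZ_facts h.dom hn1 hω
    rw [← hy, ← hiM] at hMZ
    have hex : ∃ t, y ≤ Zw t ω := ⟨i, hMZ⟩
    have hti : Nat.find hex ≤ i := Nat.find_min' hex hMZ
    have htn : Nat.find hex < n := by omega
    have hFP : ω ∈ FP y (Nat.find hex) := by
      refine ⟨Nat.find_spec hex, fun j hj => ?_⟩
      exact not_le.1 (Nat.find_min hex hj)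
    by_cases ht : (1 - δ) * n < (Nat.find hex : ℝ)
    · exact Or.inl ⟨hω, Nat.find hex, htn, ht, hFP⟩
    · right
      simp only [Set.mem_iUnion]
      refine ⟨Nat.find hex, Finset.mem_filter.2 ⟨Finset.mem_range.2 htn, not_lt.1 ht⟩, ⟨hω, hFP⟩, ?_⟩
      by_contra hgood
      have h1 := W_lower h.dom hω hnn he1 h4e hww htn hFP hgood hW
      rw [hy, he] at h1
      nlinarith
  have hbbpos := h.bb_pos n hn1
  -- the second part
  have hsecond : PQ μ ν (⋃ t ∈ (Finset.range n).filter (fun t : ℕ => (t : ℝ) ≤ (1 - δ) * n),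
        (EvN D n ∩ FP y t ∩ {ω | shift t ω ∈ BWd w e})) ≤ ENNReal.ofReal (θ / 2 * bb V a n) := by
    refine (measure_biUnion_finset_le _ _).trans ?_
    have hterm : ∀ t ∈ (Finset.range n).filter (fun t : ℕ => (t : ℝ) ≤ (1 - δ) * n),
        PQ μ ν (EvN D n ∩ FP y t ∩ {ω | shift t ω ∈ BWd w e}) ≤
          ENNReal.ofReal (2 * K / (δ * n)) * (PQ μ ν (FP y t ∩ {ω | AliveQ D t ω}) *
            PQ μ ν (BWd w e)) := by
      intro t ht
      rw [Finset.mem_filter] at ht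
      obtain ⟨h1, h2⟩ := k4 t ht.2
      refine (h.win n t w h1 (FP y t) (BWd w e) (measurableSet_FP y t) (measurableSet_BWd w e)
        (QW17b_FP_dep y t) (BWd_dep w e)).trans ?_
      refine mul_le_mul_left (ENNReal.ofReal_le_ofReal ?_) _
      rw [div_le_div_iff₀ (lt_of_lt_of_le (by positivity) h2) (by positivity)]
      nlinarith
    refine (Finset.sum_le_sum hterm).trans ?_
    rw [← Finset.mul_sum, ← Finset.sum_mul]
    have h1 := h.FP_sum n y k1 ((Finset.range n).filter (fun t : ℕ => (t : ℝ) ≤ (1 - δ) * n))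
      (fun t ht => (Finset.mem_range.1 (Finset.mem_filter.1 ht).1).le)
    have h2 := h.prob_BWd w e k2
    calc ENNReal.ofReal (2 * K / (δ * n)) *
          ((∑ t ∈ (Finset.range n).filter (fun t : ℕ => (t : ℝ) ≤ (1 - δ) * n),
            PQ μ ν (FP y t ∩ {ω | AliveQ D t ω})) * PQ μ ν (BWd w e))
        ≤ ENNReal.ofReal (2 * K / (δ * n)) * (ENNReal.ofReal (K / V y) *
            ENNReal.ofReal (2 * K * (w * L e))) := by gcongr
      _ = ENNReal.ofReal (2 * K / (δ * n) * (K / V y) * (2 * K * (w * L e))) := by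
          have hV0 : 0 < V y := lt_of_lt_of_le one_pos (h.V_one _)
          rw [← ENNReal.ofReal_mul (by positivity), ← ENNReal.ofReal_mul (by positivity)]
          congr 1
          ring
      _ ≤ ENNReal.ofReal (θ / 2 * bb V a n) := ENNReal.ofReal_le_ofReal k5
  refine (measure_mono hcov).trans ((measure_union_le _ _).trans ?_)
  refine (add_le_add hl hsecond).trans (le_of_eq ?_)
  rw [← ENNReal.ofReal_add (by positivity) (by positivity)]
  congr 1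
  ring

theorem QS.W_MZ (h : QS D μ ν a L V V' p K x₀) : ∀ τ > (0 : ℝ), ∀ θ > (0 : ℝ), ∃ n₀ : ℕ, ∀ n ≥ n₀,
    PQ μ ν (EvN D n ∩ {ω | NN ω ∧ ∃ W, IsW D n ω W ∧ τ * a n < |(W : ℝ) - MZ n ω|}) ≤
      ENNReal.ofReal (θ * bb V a n) := by
  intro τ hτ θ hθ
  have hx0 : 0 < x₀ := lt_of_lt_of_le (by norm_num) h.x_ge
  obtain ⟨R, hR1, hR⟩ := h.tight (θ / 3) (by positivity)
  have hR0 : 0 < R := lt_of_lt_of_le one_pos hR1
  obtain ⟨ε', hε'⟩ : ∃ ε' : ℝ, ε' = min (1 / 2) (τ / (8 * R)) := ⟨_, rfl⟩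
  have hε0 : 0 < ε' := by rw [hε']; exact lt_min (by norm_num) (by positivity)
  have hεh : ε' ≤ 1 / 2 := by rw [hε']; exact min_le_left _ _
  have hεR : ε' ≤ τ / (8 * R) := by rw [hε']; exact min_le_right _ _
  obtain ⟨n₁, hn₁⟩ := h.fast (ε := ε') (δ := τ / 4) (θ := θ / 3) hε0 (by linarith) (by positivity)
    (by positivity)
  obtain ⟨J, hJ⟩ : ∃ J : ℕ, J = ⌈4 * R / τ⌉₊ := ⟨_, rfl⟩
  have hWl : ∀ j : ℕ, ∃ n₀ : ℕ, 1 ≤ j → ∀ n ≥ n₀, PQ μ ν (EvN D n ∩ {ω | NN ω ∧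
      (j * τ / 4 + τ / 4) * a n ≤ MZ n ω ∧
      ∃ W, IsW D n ω W ∧ (W : ℝ) ≤ j * τ / 4 * a n}) ≤
        ENNReal.ofReal (θ / (3 * (J + 1)) * bb V a n) := by
    intro j
    by_cases hj : 1 ≤ j
    · have hjr : (1 : ℝ) ≤ j := by exact_mod_cast hj
      obtain ⟨n₀, hn₀⟩ := h.W_low (j * τ / 4) (by positivity) (τ / 4) (by positivity)
        (by nlinarith) (θ / (3 * (J + 1))) (by positivity)
      exact ⟨n₀, fun _ => hn₀⟩
    · exact ⟨0, fun h' => absurd h' hj⟩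
  choose n₂ hn₂ using hWl
  obtain ⟨n₃, hn₃⟩ := Filter.eventually_atTop.1 (h.a_top.eventually_ge_atTop (4 / τ))
  refine ⟨max (max n₁ 1) (max n₃ ((Finset.range (J + 1)).sup n₂)), fun n hn => ?_⟩
  have hn1 : n₁ ≤ n := le_trans ((le_max_left _ _).trans (le_max_left _ _)) hn
  have hn0 : 1 ≤ n := le_trans ((le_max_right _ _).trans (le_max_left _ _)) hn
  have hn3 : n₃ ≤ n := le_trans ((le_max_left _ _).trans (le_max_right _ _)) hn
  have hnj : ∀ j ≤ J, n₂ j ≤ n := fun j hj =>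
    le_trans (Finset.le_sup (f := n₂) (Finset.mem_range.2 (by omega)))
      (le_trans ((le_max_right _ _).trans (le_max_right _ _)) hn)
  have ha0 : 0 < a n := lt_of_lt_of_le hx0 (h.a_ge n hn0)
  have hτa : 1 ≤ τ * a n / 4 := by
    have := hn₃ n hn3
    rw [div_le_iff₀ hτ] at this
    linarith
  have hbbpos := h.bb_pos n hn0
  have hq1 : 1 ≤ ⌈τ / 4 * a n⌉₊ := Nat.one_le_ceil_iff.2 (by positivity)
  have hfast := hn₁ n hn1 ⌈τ / 4 * a n⌉₊ (Nat.le_ceil _)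
  have hcov : (EvN D n ∩ {ω | NN ω ∧ ∃ W, IsW D n ω W ∧ τ * a n < |(W : ℝ) - MZ n ω|}) ⊆
      (EvN D n ∩ {ω | ∃ i < n, R * a n ≤ Zw i ω}) ∪ (FA ε' ⌈τ / 4 * a n⌉₊ n ∪
        ⋃ j ∈ Finset.Icc 1 J, (EvN D n ∩ {ω | NN ω ∧ (j * τ / 4 + τ / 4) * a n ≤ MZ n ω ∧
          ∃ W, IsW D n ω W ∧ (W : ℝ) ≤ j * τ / 4 * a n})) := by
    rintro ω ⟨hω, hnn, W, hW, hWM⟩
    obtain ⟨-, hM0, i, hi, hiM⟩ := MZ_facts h.dom hn0 hω
    by_cases hMR : R * a n ≤ MZ n ω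
    · exact Or.inl ⟨hω, i, hi, by rw [hiM]; exact hMR⟩
    right
    rw [not_le] at hMR
    by_cases hF : ω ∈ FA ε' ⌈τ / 4 * a n⌉₊ n
    · exact Or.inl hF
    right
    have hup := W_upper h.dom hω hnn hε0 (by linarith) hq1 hF hW
    have hq2 := Nat.ceil_lt_add_one (a := τ / 4 * a n) (by positivity)
    have h1 : MZ n ω / (1 - ε') ≤ MZ n ω + 2 * ε' * MZ n ω := by
      rw [div_le_iff₀ (by linarith)]
      nlinarith [mul_nonneg hM0 hε0.le]
    have h2 : 2 * ε' * MZ n ω ≤ τ * a n / 4 := by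
      have h3 : ε' * (8 * R) ≤ τ := by rwa [le_div_iff₀ (by positivity)] at hεR
      nlinarith [mul_nonneg hε0.le hM0, mul_le_mul_of_nonneg_right h3 ha0.le,
        mul_le_mul_of_nonneg_left hMR.le hε0.le]
    have hupper : (W : ℝ) - MZ n ω ≤ τ * a n := by nlinarith
    have hlow : (W : ℝ) + τ * a n < MZ n ω := by
      rcases abs_cases ((W : ℝ) - MZ n ω) with ⟨h3, _⟩ | ⟨h3, _⟩
      · rw [h3] at hWM
        linarith
      · rw [h3] at hWM
        linarith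
    have hW1 : (1 : ℝ) ≤ W := by exact_mod_cast hW.1
    have hta : 0 < τ * a n := by positivity
    obtain ⟨j, hj⟩ : ∃ j : ℕ, j = ⌈4 * (W : ℝ) / (τ * a n)⌉₊ := ⟨_, rfl⟩
    have hj1 : 1 ≤ j := by
      rw [hj]
      exact Nat.one_le_ceil_iff.2 (by positivity)
    have hjl : 4 * (W : ℝ) ≤ j * (τ * a n) := by
      have := Nat.le_ceil (4 * (W : ℝ) / (τ * a n))
      rw [← hj, div_le_iff₀ hta] at this
      exact this
    have hju : j * (τ * a n) < 4 * (W : ℝ) + τ * a n := by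
      have := Nat.ceil_lt_add_one (a := 4 * (W : ℝ) / (τ * a n)) (by positivity)
      rw [← hj] at this
      have h3 : (j : ℝ) * (τ * a n) < (4 * (W : ℝ) / (τ * a n) + 1) * (τ * a n) :=
        mul_lt_mul_of_pos_right this hta
      rw [add_mul, div_mul_cancel₀ _ hta.ne', one_mul] at h3
      exact h3
    have hjJ : j ≤ J := by
      have h3 : (j : ℝ) ≤ 4 * R / τ := by
        rw [le_div_iff₀ hτ]
        have h4 : (j : ℝ) * τ * a n ≤ 4 * R * a n := by nlinarith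
        exact le_of_mul_le_mul_right h4 ha0
      have h4 : (j : ℝ) ≤ J := by
        rw [hJ]
        exact h3.trans (Nat.le_ceil _)
      exact_mod_cast h4
    simp only [Set.mem_iUnion]
    refine ⟨j, Finset.mem_Icc.2 ⟨hj1, hjJ⟩, hω, hnn, ?_, W, hW, ?_⟩
    · nlinarith
    · nlinarith
  have hthird : PQ μ ν (⋃ j ∈ Finset.Icc 1 J, (EvN D n ∩ {ω | NN ω ∧
      ((j : ℝ) * τ / 4 + τ / 4) * a n ≤ MZ n ω ∧
          ∃ W, IsW D n ω W ∧ (W : ℝ) ≤ j * τ / 4 * a n})) ≤ ENNReal.ofReal (θ / 3 * bb V a n) := by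
    refine (measure_biUnion_finset_le _ _).trans ?_
    refine (Finset.sum_le_sum fun j hj => hn₂ j (Finset.mem_Icc.1 hj).1 n
      (hnj j (Finset.mem_Icc.1 hj).2)).trans ?_
    rw [Finset.sum_const, Nat.card_Icc, nsmul_eq_mul, ← ENNReal.ofReal_natCast,
      ← ENNReal.ofReal_mul (Nat.cast_nonneg _)]
    refine ENNReal.ofReal_le_ofReal ?_
    rw [← mul_assoc]
    refine mul_le_mul_of_nonneg_right ?_ hbbpos.le
    have hJ1 : ((J + 1 - 1 : ℕ) : ℝ) = J := by norm_num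
    rw [hJ1, mul_div_assoc', div_le_div_iff₀ (by positivity) (by norm_num)]
    nlinarith
  refine (measure_mono hcov).trans ((measure_union_le _ _).trans ?_)
  refine (add_le_add (hR n hn0) ((measure_union_le _ _).trans (add_le_add hfast hthird))).trans
    (le_of_eq ?_)
  rw [← ENNReal.ofReal_add (by positivity) (by positivity),
    ← ENNReal.ofReal_add (by positivity) (by positivity)]
  congr 1
  ring

end Pool.Agent.BPT
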