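import Pool.Agent.MP_99a865_pr.ST.QW13
import Pool.Agent.MP_99a865_pr.ST.QW14
import Pool.Agent.MP_99a865_pr.ST.QW16

/-! **[STB-QW18]** The maximum: universal limits. -/

open MeasureTheory ProbabilityTheory Filter Topology
open scoped ENNReal NNReal

namespace Pool.Agent.BPT

variable {D : Set ℝ} {μ ν : Measure ℝ} {a : ℕ → ℝ} {L V V' : ℝ → ℝ} {p K x₀ : ℝ}

theorem QW18_cont {F : ℝ → ℝ} (hF : BL 1 F) : Continuous F := by
  have h : LipschitzWith 1 F := by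
    refine LipschitzWith.of_dist_le_mul fun x y => ?_
    rw [Real.dist_eq, Real.dist_eq, NNReal.coe_one]
    exact hF.lip x y
  exact h.continuous

theorem QW18_sup {k : ℕ} (hk : 2 ≤ k) : Continuous fun x : ℕ → ℝ =>
    ⨆ j : Fin k, if (j : ℕ) = 0 then (0 : ℝ) else x j := by
  have hne : Nonempty (Fin k) := ⟨⟨0, by omega⟩⟩
  have h : (fun x : ℕ → ℝ => ⨆ j : Fin k, if (j : ℕ) = 0 then (0 : ℝ) else x j) =
      fun x => Finset.univ.sup' Finset.univ_nonempty fun j : Fin k => if (j : ℕ) = 0 then (0 : ℝ) else x j := by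
    funext x
    rw [Finset.sup'_univ_eq_ciSup]
  rw [h]
  refine Continuous.finset_sup'_apply _ fun j _ => ?_
  by_cases hj : (j : ℕ) = 0
  · simp only [hj, if_true]
    exact continuous_const
  · simp only [hj, if_false]
    exact continuous_apply _

theorem QW18_Zw0 (ω : ℕ → ℝ × ℝ) : Zw 0 ω = 0 := by
  simp [Zw, Dp, Ar]

theorem QW18_MK {k n : ℕ} {s : ℝ} (hs : 0 < s) (ω : ℕ → ℝ × ℝ) :
    MK k n ω / s = ⨆ j : Fin k, if (j : ℕ) = 0 then (0 : ℝ) else Zw (gg k n j) ω / s := by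
  have h0 : gg k n 0 = 0 := by simp [gg]
  unfold MK
  rw [div_eq_mul_inv, Real.iSup_mul_of_nonneg (inv_nonneg.2 hs.le)]
  congr 1
  funext j
  split_ifs with hj
  · rw [hj, h0, QW18_Zw0, zero_mul]
  · rw [div_eq_mul_inv]

/-- PROOF. `grid_lim` with `G x = F (⨆ j : Fin k, if (j : ℕ) = 0 then 0 else x j)` (a finite supremum of continuous functions, continuous; use
`Finset.sup'` or `Continuous.finset_sup'_apply`, or prove continuity of `⨆` over `Fin k` directly). For `n ≥ 1`, `a n > 0` (`QS.a_ge`, `x_ge`):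
`MK k n ω / a n = ⨆ j : Fin k, if j = 0 then 0 else Zw (gg k n j) ω / a n` since `gg k n 0 = 0`, `Zw 0 = 0`. -/
theorem MK_lim (Φ : List (ℝ × (ℝ → ℝ)) → ℝ) (k : ℕ) (hk : 2 ≤ k) (F : ℝ → ℝ) (hF : BL 1 F) :
    ∃ v : ℝ, (∀ (D : Set ℝ) (μ ν : Measure ℝ) (a : ℕ → ℝ), QC Φ D μ ν a →
      Tendsto (fun n => EN D μ ν n fun ω => F (MK k n ω / a n)) (lQ D μ ν) (𝓝 v)) ∧
      ∀ (Ω : Type) (mΩ : MeasurableSpace Ω) (P : Measure Ω) (e : ℝ → Ω → ℝ), EP Φ P e →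
        ∫ ω, F (ME e k ω) ∂P = v := by
  obtain ⟨c, hc1, hc2⟩ := grid_lim Φ k hk (fun x => F (⨆ j : Fin k, if (j : ℕ) = 0 then (0 : ℝ) else x j))
    ((QW18_cont hF).comp (QW18_sup hk)) (fun x y hxy => by
      have h : (fun j : Fin k => if (j : ℕ) = 0 then (0 : ℝ) else x j) =
          fun j : Fin k => if (j : ℕ) = 0 then (0 : ℝ) else y j := by
        funext j
        split_ifs with hj
        · rfl
        · exact hxy j (Nat.one_le_iff_ne_zero.2 hj) j.2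
      rw [h]) 1 (fun x => hF.bd _)
  refine ⟨c, fun D μ ν a h => ?_, fun Ω mΩ P e he => hc2 Ω mΩ P e he⟩
  refine (hc1 D μ ν a h).congr' ?_
  obtain ⟨-, L, V, V', p, K, x₀, hQ⟩ := h
  have h1 : ∀ᶠ n in lQ D μ ν, 1 ≤ n := (eventually_ge_atTop 1).filter_mono inf_le_left
  filter_upwards [h1] with n hn
  have hs : 0 < a n := by
    have h2 := hQ.a_ge n hn
    have h3 := hQ.x_ge
    linarith
  congr 1
  funext ω
  rw [QW18_MK hs]

/-- the maximum and the maximum over a grid, conditional expectations -/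
theorem QW18_close {D : Set ℝ} {μ ν : Measure ℝ} {a : ℕ → ℝ} {L V V' : ℝ → ℝ} {p K x₀ : ℝ}
    (h : QS D μ ν a L V V' p K x₀) {F : ℝ → ℝ} (hF : BL 1 F) {τ : ℝ} (hτ : 0 < τ) :
    ∃ k₀ : ℕ, ∀ k ≥ k₀, ∀ᶠ n in lQ D μ ν,
      |EN D μ ν n (fun ω => F (MZ n ω / a n)) - EN D μ ν n (fun ω => F (MK k n ω / a n))| ≤ τ := by
  have hK := h.K_ge
  have hC : 0 < 2 * K * (K ^ 2 + 1) := by positivity
  have hτ' : 0 < τ / (2 * K * (K ^ 2 + 1)) := div_pos hτ hC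
  set τ' := τ / (2 * K * (K ^ 2 + 1)) with hτ'def
  obtain ⟨k₀, hk₀⟩ := h.MZ_MK τ' hτ' τ' hτ'
  refine ⟨k₀, fun k hk => ?_⟩
  obtain ⟨n₀, hn₀⟩ := hk₀ k hk
  have h1 : ∀ᶠ n in lQ D μ ν, max 1 n₀ ≤ n := (eventually_ge_atTop _).filter_mono inf_le_left
  have h2 : ∀ᶠ n in lQ D μ ν, PQ μ ν (EvN D n) ≠ 0 :=
    (eventually_principal.2 fun n hn => hn : ∀ᶠ n in 𝓟 {n | PQ μ ν (EvN D n) ≠ 0}, PQ μ ν (EvN D n) ≠ 0).filter_mono
      inf_le_right
  filter_upwards [h1, h2] with n hn hP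
  have hn1 : 1 ≤ n := (le_max_left _ _).trans hn
  have hs : 0 < a n := by
    have h3 := h.a_ge n hn1
    have h4 := h.x_ge
    linarith
  have h3 := h.close_of_event hn1 (X := fun ω => MZ n ω / a n) (Y := fun ω => MK k n ω / a n)
    (A := {ω | τ' * a n < |MZ n ω - MK k n ω|}) hτ'.le (hn₀ n ((le_max_right _ _).trans hn)) (fun ω _ _ hA => by
      have hA' : ¬ τ' * a n < |MZ n ω - MK k n ω| := hA
      rw [← sub_div, abs_div, abs_of_pos hs, div_le_iff₀ hs]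
      exact not_lt.1 hA')
  have h4 := h.EN_close hF hn1 hP ((measurable_MZ n).div_const _) ((measurable_MK k n).div_const _)
    (τ := (K ^ 2 + 1) * τ') (by positivity) h3
  refine h4.trans (le_of_eq ?_)
  rw [hτ'def]
  field_simp

/-- PROOF. `common_lim` over the quadruples with `QC`: for two models and `τ`, take `k` large for both in `MZ_MK` (with `τ' a n`, `τ' = θ = τ/(4 K³+4)`, small for both
models), `close_of_event` (with `X = MZ/a n`, `Y = MK/a n`, `A = {τ' a n < |MZ - MK|}`), `EN_close`, and `MK_lim`. -/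
theorem MZ_lim (Φ : List (ℝ × (ℝ → ℝ)) → ℝ) (F : ℝ → ℝ) (hF : BL 1 F) : ∃ v : ℝ,
    ∀ (D : Set ℝ) (μ ν : Measure ℝ) (a : ℕ → ℝ), QC Φ D μ ν a →
      Tendsto (fun n => EN D μ ν n fun ω => F (MZ n ω / a n)) (lQ D μ ν) (𝓝 v) := by
  obtain ⟨c, hc⟩ := common_lim
    (ι := {q : Set ℝ × Measure ℝ × Measure ℝ × (ℕ → ℝ) // QC Φ q.1 q.2.1 q.2.2.1 q.2.2.2})
    (fun q => lQ q.1.1 q.1.2.1 q.1.2.2.1)
    (fun q n => EN q.1.1 q.1.2.1 q.1.2.2.1 n fun ω => F (MZ n ω / q.1.2.2.2 n)) (by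
      rintro ⟨⟨D, μ, ν, a⟩, h⟩ ⟨⟨D', μ', ν', a'⟩, h'⟩ τ hτ
      have hτ2 : 0 < τ / 2 := half_pos hτ
      obtain ⟨L, V, V', p, K, x₀, hQ⟩ := h.2
      obtain ⟨L', W, W', p', K', x₀', hQ'⟩ := h'.2
      obtain ⟨k₁, hk₁⟩ := QW18_close hQ hF hτ2
      obtain ⟨k₂, hk₂⟩ := QW18_close hQ' hF hτ2
      obtain ⟨v, hv, -⟩ := MK_lim Φ (max 2 (max k₁ k₂)) (le_max_left _ _) F hF
      have hk1 := hk₁ (max 2 (max k₁ k₂)) ((le_max_left _ _).trans (le_max_right _ _))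
      have hk2 := hk₂ (max 2 (max k₁ k₂)) ((le_max_right _ _).trans (le_max_right _ _))
      refine ⟨v, ?_, ?_⟩
      · have h1 := (Metric.tendsto_nhds.1 (hv D μ ν a h)) (τ / 2) hτ2
        filter_upwards [h1, hk1] with n h2 h3
        rw [Real.dist_eq] at h2
        calc _ ≤ |EN D μ ν n (fun ω => F (MZ n ω / a n)) -
              EN D μ ν n (fun ω => F (MK (max 2 (max k₁ k₂)) n ω / a n))| +
              |EN D μ ν n (fun ω => F (MK (max 2 (max k₁ k₂)) n ω / a n)) - v| := abs_sub_le _ _ _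
          _ ≤ τ := by linarith
      · have h1 := (Metric.tendsto_nhds.1 (hv D' μ' ν' a' h')) (τ / 2) hτ2
        filter_upwards [h1, hk2] with n h2 h3
        rw [Real.dist_eq] at h2
        calc _ ≤ |EN D' μ' ν' n (fun ω => F (MZ n ω / a' n)) -
              EN D' μ' ν' n (fun ω => F (MK (max 2 (max k₁ k₂)) n ω / a' n))| +
              |EN D' μ' ν' n (fun ω => F (MK (max 2 (max k₁ k₂)) n ω / a' n)) - v| := abs_sub_le _ _ _
          _ ≤ τ := by linarith)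
  exact ⟨c, fun D μ ν a h => hc ⟨(D, μ, ν, a), h⟩⟩

/-- The limit through a process. PROOF. As for `HT_id`: `MZ_MK`, `close_of_event`, `EN_close`, `MK_lim`. -/
theorem MZ_id {Φ : List (ℝ × (ℝ → ℝ)) → ℝ} {D : Set ℝ} {μ ν : Measure ℝ} {a : ℕ → ℝ}
    (h : QC Φ D μ ν a) (hne : (lQ D μ ν).NeBot) {F : ℝ → ℝ} (hF : BL 1 F) {v : ℝ}
    (hv : Tendsto (fun n => EN D μ ν n fun ω => F (MZ n ω / a n)) (lQ D μ ν) (𝓝 v))
    {Ω : Type} [MeasurableSpace Ω] {P : Measure Ω} {e : ℝ → Ω → ℝ} (he : EP Φ P e) :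
    Tendsto (fun k => ∫ ω, F (ME e k ω) ∂P) atTop (𝓝 v) := by
  rw [Metric.tendsto_atTop]
  intro τ hτ
  have hτ2 : 0 < τ / 2 := half_pos hτ
  obtain ⟨L, V, V', p, K, x₀, hQ⟩ := h.2
  obtain ⟨k₀, hk₀⟩ := QW18_close hQ hF hτ2
  refine ⟨max 2 k₀, fun k hk => ?_⟩
  obtain ⟨w, hw1, hw2⟩ := MK_lim Φ k ((le_max_left _ _).trans hk) F hF
  rw [hw2 Ω _ P e he]
  have h1 := hw1 D μ ν a h
  have h2 : Tendsto (fun n => |EN D μ ν n (fun ω => F (MZ n ω / a n)) -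
      EN D μ ν n (fun ω => F (MK k n ω / a n))|) (lQ D μ ν) (𝓝 |v - w|) := (hv.sub h1).abs
  have h3 : |v - w| ≤ τ / 2 := le_of_tendsto h2 (hk₀ k ((le_max_right _ _).trans hk))
  rw [dist_comm, Real.dist_eq]
  linarith

/-- PROOF. `tight` (`θ/K`), `hit_ge`, `PQ_EvN_gen`, `MZ_facts`. -/
theorem MZ_tight (Φ : List (ℝ × (ℝ → ℝ)) → ℝ) (D : Set ℝ) (μ ν : Measure ℝ) (a : ℕ → ℝ)
    (h : QC Φ D μ ν a) : ∀ θ > (0 : ℝ), ∃ R : ℝ, ∀ᶠ n in lQ D μ ν,
      (cond (PQ μ ν) (EvN D n)).real {ω | R < |MZ n ω / a n|} ≤ θ := by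
  intro θ hθ
  obtain ⟨L, V, V', p, K, x₀, hQ⟩ := h.2
  have hμ := hQ.qi.probμ
  have hν := hQ.qi.probν
  have hK := hQ.K_ge
  have hK0 : 0 < K := by linarith
  obtain ⟨R, hR1, hR⟩ := hQ.tight (θ / K) (div_pos hθ hK0)
  refine ⟨R, ?_⟩
  have h1 : ∀ᶠ n in lQ D μ ν, 1 ≤ n := (eventually_ge_atTop 1).filter_mono inf_le_left
  have h2 : ∀ᶠ n in lQ D μ ν, PQ μ ν (EvN D n) ≠ 0 :=
    (eventually_principal.2 fun n hn => hn : ∀ᶠ n in 𝓟 {n | PQ μ ν (EvN D n) ≠ 0}, PQ μ ν (EvN D n) ≠ 0).filter_mono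
      inf_le_right
  filter_upwards [h1, h2] with n hn hP
  have hs : 0 < a n := by
    have h3 := hQ.a_ge n hn
    have h4 := hQ.x_ge
    linarith
  have hE := PQ_EvN_gen (μ := μ) (ν := ν) hQ.dom n
  have hE0 : 0 < (PQ μ ν).real (EvN D n) := by
    rw [Measure.real, ENNReal.toReal_pos_iff]
    exact ⟨pos_iff_ne_zero.2 hP, measure_lt_top _ _⟩
  have hhit : bb V a n ≤ K * (PQ μ ν).real (EvN D n) := by
    rw [hE]
    exact hQ.hit_ge n hn (by rw [← hE]; exact hE0.ne')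
  have hb : 0 < bb V a n := hQ.bb_pos n hn
  have hsub : EvN D n ∩ {ω | R < |MZ n ω / a n|} ⊆ EvN D n ∩ {ω | ∃ i < n, R * a n ≤ Zw i ω} := by
    rintro ω ⟨hN, hω⟩
    refine ⟨hN, ?_⟩
    obtain ⟨-, h3, i, hi, h4⟩ := MZ_facts hQ.dom hn hN
    have h5 : R < |MZ n ω / a n| := hω
    rw [abs_of_nonneg (div_nonneg h3 hs.le), lt_div_iff₀ hs] at h5
    exact ⟨i, hi, by rw [h4]; exact h5.le⟩
  have h5 : (PQ μ ν).real (EvN D n ∩ {ω | R < |MZ n ω / a n|}) ≤ θ / K * bb V a n := by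
    refine (ENNReal.toReal_mono ENNReal.ofReal_ne_top ((measure_mono hsub).trans (hR n hn))).trans (le_of_eq ?_)
    rw [ENNReal.toReal_ofReal]
    positivity
  have h6 : (cond (PQ μ ν) (EvN D n)).real {ω | R < |MZ n ω / a n|} =
      ((PQ μ ν).real (EvN D n))⁻¹ * (PQ μ ν).real (EvN D n ∩ {ω | R < |MZ n ω / a n|}) := by
    rw [Measure.real, cond_apply (measurableSet_EvN hQ.dom n), ENNReal.toReal_mul, ENNReal.toReal_inv]
    rfl
  rw [h6, inv_mul_le_iff₀ hE0]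
  calc _ ≤ θ / K * bb V a n := h5
    _ ≤ θ / K * (K * (PQ μ ν).real (EvN D n)) := by
        refine mul_le_mul_of_nonneg_left hhit ?_
        positivity
    _ = (PQ μ ν).real (EvN D n) * θ := by
        field_simp

end Pool.Agent.BPT
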