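import Pool.Agent.MP_99a865_pr.CV.Z1
import Pool.Agent.MP_99a865_pr.ST.QW15
import Pool.Agent.MP_99a865_pr.ST.QW17
import Pool.Agent.MP_99a865_pr.ST.QW18

/-! **[STB-QW23a]** The limit laws of height, width and total height. -/

open MeasureTheory ProbabilityTheory Filter Topology
open scoped ENNReal NNReal

namespace Pool.Agent.BPT

/-- PROOF. As `transfer` in FV/Y1.lean (with `ae_pos_queue0`, `queue_busy0` of CV/Z1.lean). -/
theorem transfer_gen {μ ν : Measure ℝ} (h : Hyp0 μ ν) (c : Bool) (n : ℕ)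
    (Z : (ℕ → ℝ) × (ℕ → ℝ) → ℝ) (G : (ℕ → ℝ × ℝ) → ℝ) (hG : Measurable G)
    (hZG : ∀ p, p ∈ busyEvent c n → (∀ k, 0 < p.1 k) → (∀ k, 0 < p.2 k) → Z p = G (zip p.1 p.2)) :
    ∫ p, Z p ∂(cond (queueLaw μ ν) (busyEvent c n)) = EN (DD' c) μ ν n G := by
  have := h.probμ
  have := h.probν
  unfold ProbabilityTheory.cond EN
  rw [integral_smul_measure, ENNReal.toReal_inv, smul_eq_mul, div_eq_inv_mul]
  congr 1
  · rw [queue_busy0 h]; rfl
  · have h1 : ∫ p in busyEvent c n, Z p ∂(queueLaw μ ν) =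
        ∫ p in busyEvent c n, G (zip p.1 p.2) ∂(queueLaw μ ν) := by
      apply setIntegral_congr_ae (measurableSet_busy c n)
      filter_upwards [ae_pos_queue0 h] with p hp hpb
      exact hZG p hpb hp.1 hp.2
    rw [h1, ← map_zip μ ν, busyEvent_eq,
      setIntegral_map (measurableSet_EvN (dom_DD' c) n) hG.aestronglyMeasurable
        measurable_zip.aemeasurable]


/-- PROOF. `queue_busy0`. -/
theorem lq_eq {μ ν : Measure ℝ} (h : Hyp0 μ ν) (c : Bool) : lq c μ ν = lQ (DD' c) μ ν := by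
  unfold lq lQ
  simp only [queue_busy0 h]


/-- PROOF. `transfer_gen` and `height_eq` (FV/T1d); `measurable_HB` for measurability. -/
theorem queue_HT {μ ν : Measure ℝ} (h : Hyp0 μ ν) (c : Bool) (n : ℕ) (r : ℝ) {F : ℝ → ℝ}
    (hF : Measurable F) :
    ∫ p, F (r * height c p.1 p.2 n) ∂(cond (queueLaw μ ν) (busyEvent c n)) =
      EN (DD' c) μ ν n (fun ω => F (r * HB (DD' c) n ω)) ∧
    ∫ p, F (r * totalHeight c p.1 p.2 n) ∂(cond (queueLaw μ ν) (busyEvent c n)) =
      EN (DD' c) μ ν n (fun ω => F (r * TB (DD' c) n ω)) := by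
  have hHB := measurable_HB (dom_DD' c) n
  constructor
  · refine transfer_gen h c n _ (fun ω => F (r * HB (DD' c) n ω))
      (hF.comp ((meas_cast_nat.comp hHB.1).const_mul r)) ?_
    intro p hp h1 h2
    rw [(height_eq c p.1 p.2 h1 h2 n hp).1]
  · refine transfer_gen h c n _ (fun ω => F (r * TB (DD' c) n ω))
      (hF.comp ((meas_cast_nat.comp hHB.2).const_mul r)) ?_
    intro p hp h1 h2
    rw [(height_eq c p.1 p.2 h1 h2 n hp).2.1]


/-- The width. PROOF. Let `A = {ω | NN ω ∧ ∃ W, IsW D n ω W ∧ τ' a n < |W - MZ n ω|}`, `P(EvN n ∩ A) ≤ θ bb n` (`W_MZ`, outer measure). By `height_eq`, for `p` in the busy event with positive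
entries, `IsW (zip p) (width p)` and `NN (zip p)`, so `{p busy, positive, τ' a n < |width - MZ (zip p)|} ⊆ zip⁻¹ (EvN n ∩ A)`, of `queueLaw`-measure
`≤ PQ (EvN n ∩ A)` (`map_zip`, `Measure.le_map_apply`). Off this set `|F (width/a n) - F (MZ (zip p)/a n)| ≤ τ'`, on it `≤ 2`. So
`|∫ F(width/a n) - ∫ F(MZ (zip p)/a n)| ≤ τ' + 2 θ bb n/P(N=n) ≤ τ' + 2 K θ` (`hit_ge`, `PQ_EvN_gen`), and the last integral is `EN F(MZ/a n)` (`transfer_gen`). -/
theorem queue_W {c : Bool} {μ ν : Measure ℝ} {a : ℕ → ℝ} {L V V' : ℝ → ℝ} {p K x₀ : ℝ}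
    (h : QS (DD' c) μ ν a L V V' p K x₀) (h0 : Hyp0 μ ν) {F : ℝ → ℝ} (hF : BL 1 F) :
    ∀ τ > (0 : ℝ), ∀ᶠ n in lq c μ ν,
      |∫ p, F (width c p.1 p.2 n / a n) ∂(cond (queueLaw μ ν) (busyEvent c n)) -
        EN (DD' c) μ ν n (fun ω => F (MZ n ω / a n))| ≤ τ := by
  classical
  have := h0.probμ
  have := h0.probν
  have hQp : IsProbabilityMeasure (queueLaw μ ν) := by unfold queueLaw; infer_instance
  intro τ hτ
  have hK0 : 0 < K := by linarith [h.K_ge]
  have hθ : 0 < τ / (4 * K) := by positivity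
  obtain ⟨n₀, hn₀⟩ := h.W_MZ (τ / 2) (by positivity) (τ / (4 * K)) hθ
  unfold lq
  rw [eventually_inf_principal]
  filter_upwards [eventually_ge_atTop (max n₀ 1)] with n hn hne
  have hn1 : n₀ ≤ n := (le_max_left _ _).trans hn
  have hn2 : 1 ≤ n := (le_max_right _ _).trans hn
  have hne' : queueLaw μ ν (busyEvent c n) ≠ 0 := hne
  have hP : IsProbabilityMeasure (ProbabilityTheory.cond (queueLaw μ ν) (busyEvent c n)) :=
    cond_isProbabilityMeasure hne'
  have han : 0 < a n := lt_of_lt_of_le (by linarith [h.x_ge]) (h.a_ge n hn2)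
  have hMZ : Measurable (fun p : (ℕ → ℝ) × (ℕ → ℝ) => MZ n (zip p.1 p.2)) :=
    (measurable_MZ n).comp measurable_zip
  have hG : Measurable fun ω : ℕ → ℝ × ℝ => F (MZ n ω / a n) :=
    hF.measurable.comp ((measurable_MZ n).div_const _)
  have e1 := transfer_gen h0 c n (fun p => F (MZ n (zip p.1 p.2) / a n)) _ hG
    (fun p _ _ _ => rfl)
  rw [← e1]
  have i1 : Integrable (fun p : (ℕ → ℝ) × (ℕ → ℝ) => F (width c p.1 p.2 n / a n))
      (ProbabilityTheory.cond (queueLaw μ ν) (busyEvent c n)) :=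
    integrable_BL _ hF ((meas_w c n).div_const _)
  have i2 : Integrable (fun p : (ℕ → ℝ) × (ℕ → ℝ) => F (MZ n (zip p.1 p.2) / a n))
      (ProbabilityTheory.cond (queueLaw μ ν) (busyEvent c n)) :=
    integrable_BL _ hF (hMZ.div_const _)
  set A : Set ((ℕ → ℝ) × (ℕ → ℝ)) :=
    {p | τ / 2 * a n < |(width c p.1 p.2 n : ℝ) - MZ n (zip p.1 p.2)|} with hA
  have hAm : MeasurableSet A :=
    measurableSet_lt measurable_const ((meas_w c n).sub hMZ).abs
  rw [← integral_sub i1 i2]
  have hb : ∀ p : (ℕ → ℝ) × (ℕ → ℝ),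
      |F (width c p.1 p.2 n / a n) - F (MZ n (zip p.1 p.2) / a n)| ≤
        τ / 2 + A.indicator (fun _ => (2 : ℝ)) p := by
    intro p
    by_cases hp : p ∈ A
    · rw [Set.indicator_of_mem hp]
      have h1 := hF.bd (width c p.1 p.2 n / a n)
      have h2 := hF.bd (MZ n (zip p.1 p.2) / a n)
      rw [abs_le] at h1 h2 ⊢
      constructor <;> linarith [h1.1, h1.2, h2.1, h2.2]
    · rw [Set.indicator_of_notMem hp, add_zero]
      refine (hF.lip _ _).trans ?_
      rw [one_mul, ← sub_div, abs_div, abs_of_pos han, div_le_iff₀ han]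
      exact not_lt.mp hp
  have i3 : Integrable (fun p => τ / 2 + A.indicator (fun _ => (2 : ℝ)) p)
      (ProbabilityTheory.cond (queueLaw μ ν) (busyEvent c n)) :=
    (integrable_const _).add ((integrable_const _).indicator hAm)
  have hAle : (ProbabilityTheory.cond (queueLaw μ ν) (busyEvent c n)).real A ≤ τ / 4 := by
    have h1 : queueLaw μ ν (busyEvent c n ∩ A) ≤ ENNReal.ofReal (τ / (4 * K) * bb V a n) := by
      refine le_trans ?_ (hn₀ n hn1)
      rw [← map_zip μ ν]
      refine le_trans ?_ (Measure.le_map_apply measurable_zip.aemeasurable _)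
      apply measure_mono_ae
      filter_upwards [ae_pos_queue0 h0] with p hp
      rintro ⟨hp1, hp2⟩
      have hp1' : p ∈ busyEvent c n := hp1
      refine ⟨?_, fun k => ⟨(hp.1 k).le, (hp.2 k).le⟩, width c p.1 p.2 n, ?_, hp2⟩
      · rw [busyEvent_eq] at hp1'
        exact hp1'
      · exact (height_eq c p.1 p.2 hp.1 hp.2 n hp1).2.2
    have h2 : 0 < (queueLaw μ ν).real (busyEvent c n) :=
      ENNReal.toReal_pos hne' (measure_ne_top _ _)
    have h3 : (queueLaw μ ν).real (busyEvent c n) = hit (DD' c) (stepLaw μ ν 1) n 0 := by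
      rw [← PQ_EvN_gen (dom_DD' c) n, measureReal_def, measureReal_def, queue_busy0 h0]
    have h4 := h.hit_ge n hn2 (by rw [← h3]; exact h2.ne')
    rw [← h3] at h4
    have h5 : (queueLaw μ ν).real (busyEvent c n ∩ A) ≤ τ / (4 * K) * bb V a n := by
      rw [measureReal_def]
      exact ENNReal.toReal_le_of_le_ofReal
        (mul_nonneg hθ.le (by
          unfold bb
          have := h.V_one (a n)
          positivity)) h1
    have h6 : (ProbabilityTheory.cond (queueLaw μ ν) (busyEvent c n)).real A =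
        (queueLaw μ ν).real (busyEvent c n ∩ A) / (queueLaw μ ν).real (busyEvent c n) := by
      rw [measureReal_def, cond_apply (measurableSet_busy c n), ENNReal.toReal_mul,
        ENNReal.toReal_inv, div_eq_inv_mul]
      rfl
    rw [h6, div_le_iff₀ h2]
    refine h5.trans ?_
    calc τ / (4 * K) * bb V a n ≤ τ / (4 * K) * (K * (queueLaw μ ν).real (busyEvent c n)) :=
          mul_le_mul_of_nonneg_left h4 hθ.le
      _ = τ / 4 * (queueLaw μ ν).real (busyEvent c n) := by field_simp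
  calc |∫ p, (F (width c p.1 p.2 n / a n) - F (MZ n (zip p.1 p.2) / a n))
        ∂(ProbabilityTheory.cond (queueLaw μ ν) (busyEvent c n))|
      ≤ ∫ p, |F (width c p.1 p.2 n / a n) - F (MZ n (zip p.1 p.2) / a n)|
        ∂(ProbabilityTheory.cond (queueLaw μ ν) (busyEvent c n)) := abs_integral_le_integral_abs
    _ ≤ ∫ p, (τ / 2 + A.indicator (fun _ => (2 : ℝ)) p)
        ∂(ProbabilityTheory.cond (queueLaw μ ν) (busyEvent c n)) :=
        integral_mono (i1.sub i2).abs i3 hb
    _ = τ / 2 + 2 * (ProbabilityTheory.cond (queueLaw μ ν) (busyEvent c n)).real A := by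
        rw [integral_add (integrable_const _) ((integrable_const _).indicator hAm),
          integral_indicator hAm, setIntegral_const, integral_const]
        simp [mul_comm]
    _ ≤ τ := by linarith


end Pool.Agent.BPT
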