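import Pool.Agent.MP_99a865_pr.CV.Z1
import Pool.Agent.MP_99a865_pr.ST.QW15
import Pool.Agent.MP_99a865_pr.ST.QW17
import Pool.Agent.MP_99a865_pr.ST.QW18
import Pool.Agent.MP_99a865_pr.ST.QW23a

/-! **[STB-QW23b]** The limit laws of height, width and total height. -/

open MeasureTheory ProbabilityTheory Filter Topology
open scoped ENNReal NNReal

namespace Pool.Agent.BPT

/-- the family of all models -/
def QW23b_I (Φ : List (ℝ × (ℝ → ℝ)) → ℝ) : Type :=
  {q : Bool × Measure ℝ × Measure ℝ × (ℕ → ℝ) //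
    Hyp0 q.2.1 q.2.2.1 ∧ QC Φ (DD' q.1) q.2.1 q.2.2.1 q.2.2.2}

theorem QW23b_cond {μ ν : Measure ℝ} (_h : Hyp0 μ ν) (c : Bool) (n : ℕ) (B : Set (ℕ → ℝ × ℝ)) :
    (ProbabilityTheory.cond (PQ μ ν) (EvN (DD' c) n)).real B = PN (DD' c) μ ν n B := by
  unfold PN
  rw [measureReal_def, cond_apply (measurableSet_EvN (dom_DD' c) n), ENNReal.toReal_mul,
    ENNReal.toReal_inv, div_eq_inv_mul]
  rfl

theorem QW23b_prob {μ ν : Measure ℝ} (h : Hyp0 μ ν) (c : Bool) : ∀ᶠ n in lq c μ ν,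
    IsProbabilityMeasure (ProbabilityTheory.cond (queueLaw μ ν) (busyEvent c n)) := by
  have := h.probμ
  have := h.probν
  have h0 : IsProbabilityMeasure (queueLaw μ ν) := by unfold queueLaw; infer_instance
  unfold lq
  rw [eventually_inf_principal]
  exact Eventually.of_forall fun n hn => cond_isProbabilityMeasure hn

/-- PROOF. `law_lim` with `ι` = the set of all `(c, μ, ν, a)` with `Hyp0 μ ν` and `QC Φ (DD' c) μ ν a`, `l = lq c μ ν`, `Ω = (ℕ → ℝ) × (ℕ → ℝ)`,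
`P n = cond (queueLaw μ ν) (busyEvent c n)`, `X n p = a n / n * height`. `hlim`: `queue_HT`, `HT_lim`; tightness: `HT_tight` transferred (`transferP0`, or `queue_HT` with indicator functions).
Measurability: `meas_h` (CV/Z1). `IsProbabilityMeasure (P n)` for `queueLaw μ ν (busyEvent c n) ≠ 0`: `cond_isProbabilityMeasure`. -/
theorem H_law (Φ : List (ℝ × (ℝ → ℝ)) → ℝ) : ∃ LH : Measure ℝ, IsProbabilityMeasure LH ∧
    ∀ (c : Bool) (μ ν : Measure ℝ) (a : ℕ → ℝ), Hyp0 μ ν → QC Φ (DD' c) μ ν a →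
      ∀ f : BoundedContinuousFunction ℝ ℝ,
        Tendsto (fun n : ℕ => ∫ p, f (a n / n * height c p.1 p.2 n)
          ∂(cond (queueLaw μ ν) (busyEvent c n))) (lq c μ ν) (𝓝 (∫ x, f x ∂LH)) := by
  have H := law_lim (ι := QW23b_I Φ) (fun i => lq i.1.1 i.1.2.1 i.1.2.2.1)
    (fun _ => (ℕ → ℝ) × (ℕ → ℝ))
    (fun i n => ProbabilityTheory.cond (queueLaw i.1.2.1 i.1.2.2.1) (busyEvent i.1.1 n))
    (fun i n p => i.1.2.2.2 n / n * height i.1.1 p.1 p.2 n)
    (fun i => QW23b_prob i.2.1 i.1.1)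
    (fun i n => (meas_h i.1.1 n).const_mul _)
  refine Exists.elim (H ?_ ?_) fun W hW => ⟨W, hW.1, fun c μ ν a h1 h2 f => hW.2 f ⟨(c, μ, ν, a), h1, h2⟩⟩
  · intro F hF
    obtain ⟨v, w, hvw⟩ := HT_lim Φ F hF
    refine ⟨v, fun i => ?_⟩
    have h1 := (hvw _ _ _ _ i.2.2).1
    rw [← lq_eq i.2.1 i.1.1] at h1
    refine h1.congr fun n => ?_
    exact (queue_HT i.2.1 i.1.1 n (i.1.2.2.2 n / n) hF.measurable).1.symm
  · intro i θ hθ
    obtain ⟨R, hR⟩ := HT_tight Φ _ _ _ _ i.2.2 θ hθ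
    refine ⟨R, ?_⟩
    rw [← lq_eq i.2.1 i.1.1] at hR
    filter_upwards [hR] with n hn
    refine le_trans (le_of_eq ?_) hn.1
    rw [QW23b_cond i.2.1]
    refine transferP0 i.2.1 i.1.1 n _ _
      (measurableSet_lt measurable_const ((meas_h i.1.1 n).const_mul _).abs)
      (measurableSet_lt measurable_const ((meas_hb i.1.1 n).const_mul _).abs) ?_
    intro p hp h1 h2
    simp only [Set.mem_ofPred_eq]
    rw [(height_eq i.1.1 p.1 p.2 h1 h2 n hp).1]


/-- PROOF. The same for the total height. -/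
theorem T_law (Φ : List (ℝ × (ℝ → ℝ)) → ℝ) : ∃ LT : Measure ℝ, IsProbabilityMeasure LT ∧
    ∀ (c : Bool) (μ ν : Measure ℝ) (a : ℕ → ℝ), Hyp0 μ ν → QC Φ (DD' c) μ ν a →
      ∀ f : BoundedContinuousFunction ℝ ℝ,
        Tendsto (fun n : ℕ => ∫ p, f (a n / n ^ 2 * totalHeight c p.1 p.2 n)
          ∂(cond (queueLaw μ ν) (busyEvent c n))) (lq c μ ν) (𝓝 (∫ x, f x ∂LT)) := by
  have H := law_lim (ι := QW23b_I Φ) (fun i => lq i.1.1 i.1.2.1 i.1.2.2.1)
    (fun _ => (ℕ → ℝ) × (ℕ → ℝ))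
    (fun i n => ProbabilityTheory.cond (queueLaw i.1.2.1 i.1.2.2.1) (busyEvent i.1.1 n))
    (fun i n p => i.1.2.2.2 n / n ^ 2 * totalHeight i.1.1 p.1 p.2 n)
    (fun i => QW23b_prob i.2.1 i.1.1)
    (fun i n => (meas_t i.1.1 n).const_mul _)
  refine Exists.elim (H ?_ ?_) fun W hW => ⟨W, hW.1, fun c μ ν a h1 h2 f => hW.2 f ⟨(c, μ, ν, a), h1, h2⟩⟩
  · intro F hF
    obtain ⟨v, w, hvw⟩ := HT_lim Φ F hF
    refine ⟨w, fun i => ?_⟩
    have h1 := (hvw _ _ _ _ i.2.2).2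
    rw [← lq_eq i.2.1 i.1.1] at h1
    refine h1.congr fun n => ?_
    exact (queue_HT i.2.1 i.1.1 n (i.1.2.2.2 n / n ^ 2) hF.measurable).2.symm
  · intro i θ hθ
    obtain ⟨R, hR⟩ := HT_tight Φ _ _ _ _ i.2.2 θ hθ
    refine ⟨R, ?_⟩
    rw [← lq_eq i.2.1 i.1.1] at hR
    filter_upwards [hR] with n hn
    refine le_trans (le_of_eq ?_) hn.2
    rw [QW23b_cond i.2.1]
    refine transferP0 i.2.1 i.1.1 n _ _
      (measurableSet_lt measurable_const ((meas_t i.1.1 n).const_mul _).abs)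
      (measurableSet_lt measurable_const
        ((meas_cast_nat.comp (measurable_HB (dom_DD' i.1.1) n).2).const_mul _).abs) ?_
    intro p hp h1 h2
    simp only [Set.mem_ofPred_eq]
    rw [(height_eq i.1.1 p.1 p.2 h1 h2 n hp).2.1]


/-- PROOF. `law_lim` as for `H_law`; `hlim`: `queue_W` (with `τ → 0`) and `MZ_lim`; tightness: for the function `F x = min 1 (max 0 (|x| - R))` (`BL 1`), `P(|X| > R + 1) ≤ E F(X)`; `queue_W`
with this `F` and `MZ_tight`. -/
theorem W_law (Φ : List (ℝ × (ℝ → ℝ)) → ℝ) : ∃ LW : Measure ℝ, IsProbabilityMeasure LW ∧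
    ∀ (c : Bool) (μ ν : Measure ℝ) (a : ℕ → ℝ), Hyp0 μ ν → QC Φ (DD' c) μ ν a →
      ∀ f : BoundedContinuousFunction ℝ ℝ,
        Tendsto (fun n : ℕ => ∫ p, f (width c p.1 p.2 n / a n)
          ∂(cond (queueLaw μ ν) (busyEvent c n))) (lq c μ ν) (𝓝 (∫ x, f x ∂LW)) := by
  have H := law_lim (ι := QW23b_I Φ) (fun i => lq i.1.1 i.1.2.1 i.1.2.2.1)
    (fun _ => (ℕ → ℝ) × (ℕ → ℝ))
    (fun i n => ProbabilityTheory.cond (queueLaw i.1.2.1 i.1.2.2.1) (busyEvent i.1.1 n))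
    (fun i n p => width i.1.1 p.1 p.2 n / i.1.2.2.2 n)
    (fun i => QW23b_prob i.2.1 i.1.1)
    (fun i n => (meas_w i.1.1 n).div_const _)
  refine Exists.elim (H ?_ ?_) fun W hW => ⟨W, hW.1, fun c μ ν a h1 h2 f => hW.2 f ⟨(c, μ, ν, a), h1, h2⟩⟩
  · intro F hF
    obtain ⟨v, hv⟩ := MZ_lim Φ F hF
    refine ⟨v, fun i => ?_⟩
    have h1 := hv _ _ _ _ i.2.2
    rw [← lq_eq i.2.1 i.1.1] at h1
    obtain ⟨L, V, V', p, K, x₀, hQS⟩ := i.2.2.2
    rw [Metric.tendsto_nhds] at h1 ⊢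
    intro ε hε
    filter_upwards [h1 (ε / 2) (by positivity), queue_W hQS i.2.1 hF (ε / 2) (by positivity)]
      with n h2 h3
    rw [Real.dist_eq] at h2 ⊢
    calc _ ≤ _ := abs_sub_le _ (EN (DD' i.1.1) i.1.2.1 i.1.2.2.1 n
          (fun ω => F (MZ n ω / i.1.2.2.2 n))) _
      _ < ε := by linarith
  · intro i θ hθ
    obtain ⟨R, hR⟩ := MZ_tight Φ _ _ _ _ i.2.2 (θ / 2) (by positivity)
    rw [← lq_eq i.2.1 i.1.1] at hR
    obtain ⟨L, V, V', p, K, x₀, hQS⟩ := i.2.2.2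
    have := i.2.1.probμ
    have := i.2.1.probν
    set F : ℝ → ℝ := fun x => min 1 (max 0 (|x| - R)) with hFdef
    have hF : BL 1 F := by
      constructor
      · intro x
        rw [abs_of_nonneg (le_min zero_le_one (le_max_left _ _))]
        exact min_le_left _ _
      · intro x y
        have h1 : |min 1 (max 0 (|x| - R)) - min 1 (max 0 (|y| - R))| ≤
            |max 0 (|x| - R) - max 0 (|y| - R)| := by
          have := abs_min_sub_min_le_max 1 (max 0 (|x| - R)) 1 (max 0 (|y| - R))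
          simpa using this
        have h2 : |max 0 (|x| - R) - max 0 (|y| - R)| ≤ |(|x| - R) - (|y| - R)| := by
          have := abs_max_sub_max_le_abs (|x| - R) (|y| - R) 0
          simpa [max_comm] using this
        have h3 : |(|x| - R) - (|y| - R)| ≤ |x - y| := by
          rw [sub_sub_sub_cancel_right]
          exact abs_abs_sub_abs_le_abs_sub x y
        rw [one_mul]
        exact h1.trans (h2.trans h3)
    refine ⟨R + 1, ?_⟩
    filter_upwards [hR, queue_W hQS i.2.1 hF (θ / 2) (by positivity), QW23b_prob i.2.1 i.1.1]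
      with n h2 h3 h4
    set P := ProbabilityTheory.cond (queueLaw i.1.2.1 i.1.2.2.1) (busyEvent i.1.1 n) with hP
    have i1 : Integrable (fun p : (ℕ → ℝ) × (ℕ → ℝ) => F (width i.1.1 p.1 p.2 n / i.1.2.2.2 n)) P :=
      integrable_BL _ hF ((meas_w i.1.1 n).div_const _)
    have hm : MeasurableSet {p : (ℕ → ℝ) × (ℕ → ℝ) |
        R + 1 < |(width i.1.1 p.1 p.2 n : ℝ) / i.1.2.2.2 n|} :=
      measurableSet_lt measurable_const ((meas_w i.1.1 n).div_const _).abs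
    have h5 : P.real {p | R + 1 < |(width i.1.1 p.1 p.2 n : ℝ) / i.1.2.2.2 n|} ≤
        ∫ p, F (width i.1.1 p.1 p.2 n / i.1.2.2.2 n) ∂P := by
      rw [← integral_indicator_one hm]
      refine integral_mono ((integrable_const _).indicator hm) i1 fun p => ?_
      by_cases hp : R + 1 < |(width i.1.1 p.1 p.2 n : ℝ) / i.1.2.2.2 n|
      · rw [Set.indicator_of_mem (show p ∈ {p : (ℕ → ℝ) × (ℕ → ℝ) |
          R + 1 < |(width i.1.1 p.1 p.2 n : ℝ) / i.1.2.2.2 n|} from hp)]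
        simp only [Pi.one_apply, hFdef]
        rw [max_eq_right (by linarith), min_eq_left (by linarith)]
      · rw [Set.indicator_of_notMem (show p ∉ {p : (ℕ → ℝ) × (ℕ → ℝ) |
          R + 1 < |(width i.1.1 p.1 p.2 n : ℝ) / i.1.2.2.2 n|} from hp)]
        exact le_min zero_le_one (le_max_left _ _)
    have h6 : EN (DD' i.1.1) i.1.2.1 i.1.2.2.1 n (fun ω => F (MZ n ω / i.1.2.2.2 n)) ≤
        (ProbabilityTheory.cond (PQ i.1.2.1 i.1.2.2.1) (EvN (DD' i.1.1) n)).real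
          {ω | R < |MZ n ω / i.1.2.2.2 n|} := by
      have hm2 : MeasurableSet {ω : ℕ → ℝ × ℝ | R < |MZ n ω / i.1.2.2.2 n|} :=
        measurableSet_lt measurable_const ((measurable_MZ n).div_const _).abs
      rw [QW23b_cond i.2.1, ← EN_indicator (dom_DD' i.1.1) n _ hm2]
      refine EN_le (dom_DD' i.1.1) (integrable_BL _ hF ((measurable_MZ n).div_const _))
        ((integrable_const _).indicator hm2) fun ω _ => ?_
      by_cases hp : R < |MZ n ω / i.1.2.2.2 n|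
      · rw [Set.indicator_of_mem (show ω ∈ {ω : ℕ → ℝ × ℝ | R < |MZ n ω / i.1.2.2.2 n|} from hp)]
        exact min_le_left _ _
      · rw [Set.indicator_of_notMem
          (show ω ∉ {ω : ℕ → ℝ × ℝ | R < |MZ n ω / i.1.2.2.2 n|} from hp)]
        simp only [hFdef]
        rw [max_eq_left (by linarith)]
        exact min_le_right _ _
    rw [abs_le] at h3
    linarith [h3.2]


end Pool.Agent.BPT
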