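import Pool.Agent.MP_99a865_pr.ST.QW15

/-! **[STB-QW24a]** Functionals of a positive right-continuous process with given finite dimensional distributions. -/

open MeasureTheory ProbabilityTheory Filter Topology
open scoped ENNReal NNReal

namespace Pool.Agent.BPT

theorem QW24a_cont {M : ℝ} {F : ℝ → ℝ} (hF : BL M F) : Continuous F := by
  have hM : 0 ≤ M := le_trans (abs_nonneg _) (hF.bd 0)
  rw [Metric.continuous_iff]
  intro x ε hε
  refine ⟨ε / (M + 1), by positivity, fun y hy => ?_⟩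
  rw [Real.dist_eq] at hy ⊢
  have h1 := hF.lip y x
  have h2 : (M + 1) * |y - x| < ε := by
    have := (lt_div_iff₀ (by linarith : (0:ℝ) < M + 1)).1 hy
    linarith
  have h3 := abs_nonneg (y - x)
  linarith


/-- Bounded Lipschitz functions determine a law. PROOF. For a closed set `F` the functions `max 0 (1 - m dist(x,F))` decrease to `1_F` and are multiples of functions
with `BL 1` (Mathlib: `thickenedIndicator`); or portmanteau with constant sequences. -/
theorem law_ext {P Q : Measure ℝ} [IsProbabilityMeasure P] [IsProbabilityMeasure Q]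
    (h : ∀ F : ℝ → ℝ, BL 1 F → ∫ x, F x ∂P = ∫ x, F x ∂Q) : P = Q := by
  apply Measure.ext_of_charFun
  funext t
  rw [charFun_apply_real, charFun_apply_real]
  have key : ∀ f : ℝ → ℝ, (∀ x, |f x| ≤ 1) → (∀ x y, |f x - f y| ≤ |t| * |x - y|) →
      ∫ x, f x ∂P = ∫ x, f x ∂Q := by
    intro f h1 h2
    have hm1 : 1 ≤ max 1 |t| := le_max_left _ _
    have hmt : |t| ≤ max 1 |t| := le_max_right _ _
    generalize max 1 |t| = m at hm1 hmt
    have hm0 : 0 < m := by linarith
    have hBL : BL 1 (fun x => f x / m) := by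
      refine ⟨fun x => ?_, fun x y => ?_⟩
      · rw [abs_div, abs_of_pos hm0, div_le_one hm0]
        linarith [h1 x]
      · rw [← sub_div, abs_div, abs_of_pos hm0, one_mul, div_le_iff₀ hm0]
        calc _ ≤ |t| * |x - y| := h2 x y
          _ ≤ m * |x - y| := mul_le_mul_of_nonneg_right hmt (abs_nonneg _)
          _ = _ := mul_comm _ _
    have h3 := h _ hBL
    rw [integral_div, integral_div] at h3
    exact (div_left_inj' hm0.ne').1 h3
  have hcos := key (fun x => Real.cos (t * x)) (fun x => Real.abs_cos_le_one _) (by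
    intro x y
    have h1 := Real.abs_cos_sub_cos_le (t * x) (t * y)
    rwa [← mul_sub, abs_mul] at h1)
  have hsin := key (fun x => Real.sin (t * x)) (fun x => Real.abs_sin_le_one _) (by
    intro x y
    have h1 := Real.abs_sin_sub_sin_le (t * x) (t * y)
    rwa [← mul_sub, abs_mul] at h1)
  have he : ∀ ρ : Measure ℝ, IsProbabilityMeasure ρ → ∫ x : ℝ, Complex.exp (t * x * Complex.I) ∂ρ
      = ((∫ x, Real.cos (t * x) ∂ρ : ℝ) : ℂ) + ((∫ x, Real.sin (t * x) ∂ρ : ℝ) : ℂ) * Complex.I := by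
    intro ρ hR
    have h1 : ∀ x : ℝ, Complex.exp (t * x * Complex.I)
        = ((Real.cos (t * x) : ℝ) : ℂ) + ((Real.sin (t * x) : ℝ) : ℂ) * Complex.I := by
      intro x
      rw [Complex.exp_mul_I]
      push_cast
      ring
    have i0 : Integrable (fun x : ℝ => Real.cos (t * x)) ρ :=
      Integrable.of_bound (by fun_prop) 1 (ae_of_all _ fun x => by
        simpa using Real.abs_cos_le_one (t * x))
    have i0' : Integrable (fun x : ℝ => Real.sin (t * x)) ρ :=
      Integrable.of_bound (by fun_prop) 1 (ae_of_all _ fun x => by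
        simpa using Real.abs_sin_le_one (t * x))
    have i1 : Integrable (fun x : ℝ => ((Real.cos (t * x) : ℝ) : ℂ)) ρ := i0.ofReal
    have i2 : Integrable (fun x : ℝ => ((Real.sin (t * x) : ℝ) : ℂ) * Complex.I) ρ :=
      i0'.ofReal.mul_const _
    rw [integral_congr_ae (ae_of_all _ h1), integral_add i1 i2, integral_mul_const,
      integral_complex_ofReal, integral_complex_ofReal]
  rw [he P inferInstance, he Q inferInstance]
  rw [hcos, hsin]

/-- A right-continuous function on `(0,1)` is a.e. measurable. -/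
theorem QW24a_meas {g : ℝ → ℝ}
    (hg : ∀ t, 0 < t → t < 1 → ContinuousWithinAt g (Set.Ici t) t) :
    AEMeasurable g (volume.restrict (Set.Ioo 0 1)) := by
  refine aemeasurable_of_tendsto_metrizable_ae'
    (f := fun (k : ℕ) (t : ℝ) => g ((⌈((k : ℝ) + 1) * t⌉ : ℝ) / ((k : ℝ) + 1))) ?_ ?_
  · intro k
    have h1 : Measurable fun z : ℤ => g ((z : ℝ) / ((k : ℝ) + 1)) := measurable_from_top
    have h2 : Measurable fun t : ℝ => ⌈((k : ℝ) + 1) * t⌉ :=
      (measurable_const.mul measurable_id).ceil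
    exact (h1.comp h2).aemeasurable
  · rw [ae_restrict_iff' measurableSet_Ioo]
    refine ae_of_all _ fun t ht => ?_
    refine (hg t ht.1 ht.2).tendsto.comp ?_
    rw [tendsto_nhdsWithin_iff]
    have hlo : ∀ k : ℕ, t ≤ (⌈((k : ℝ) + 1) * t⌉ : ℝ) / ((k : ℝ) + 1) := by
      intro k
      have hk : (0 : ℝ) < (k : ℝ) + 1 := by positivity
      rw [le_div_iff₀ hk]
      have := Int.le_ceil (((k : ℝ) + 1) * t)
      linarith
    have hup : ∀ k : ℕ, (⌈((k : ℝ) + 1) * t⌉ : ℝ) / ((k : ℝ) + 1) ≤ t + 1 / ((k : ℝ) + 1) := by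
      intro k
      have hk : (0 : ℝ) < (k : ℝ) + 1 := by positivity
      have h1 := Int.ceil_lt_add_one (((k : ℝ) + 1) * t)
      rw [div_le_iff₀ hk]
      have h2 : (t + 1 / ((k : ℝ) + 1)) * ((k : ℝ) + 1) = ((k : ℝ) + 1) * t + 1 := by
        field_simp
      rw [h2]
      exact h1.le
    refine ⟨?_, Eventually.of_forall hlo⟩
    refine tendsto_of_tendsto_of_tendsto_of_le_of_le tendsto_const_nhds ?_ hlo hup
    have h3 := tendsto_one_div_add_atTop_nhds_zero_nat (𝕜 := ℝ)
    simpa using h3.const_add t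

/-- truncated integral -/
theorem QW24a_lim {g c : ℝ → ℝ}
    (hg : ∀ t, 0 < t → t < 1 → 0 < g t ∧ ContinuousWithinAt g (Set.Ici t) t)
    (hcm : Measurable c) (hc0 : ∀ t, 0 < t → t < 1 → 0 ≤ c t ∧ c t ≤ 1) :
    (∀ m : ℕ, 0 ≤ ∫ t in Set.Ioo (0 : ℝ) 1, c t * (1 / max (g t) (1 / ((m : ℝ) + 1)))) ∧
    (Monotone fun m : ℕ => ∫ t in Set.Ioo (0 : ℝ) 1, c t * (1 / max (g t) (1 / ((m : ℝ) + 1)))) ∧
    ∀ B : ℝ, (∀ m : ℕ, ∫ t in Set.Ioo (0 : ℝ) 1, c t * (1 / max (g t) (1 / ((m : ℝ) + 1))) ≤ B) →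
      IntegrableOn (fun t => c t / g t) (Set.Ioo 0 1) ∧
      Tendsto (fun m : ℕ => ∫ t in Set.Ioo (0 : ℝ) 1, c t * (1 / max (g t) (1 / ((m : ℝ) + 1))))
        atTop (𝓝 (∫ t in Set.Ioo (0 : ℝ) 1, c t / g t)) := by
  have hgm := QW24a_meas fun t h0 h1 => (hg t h0 h1).2
  have hη : ∀ m : ℕ, (0 : ℝ) < 1 / ((m : ℝ) + 1) := fun m => by positivity
  have hmeas : ∀ m : ℕ, AEStronglyMeasurable (fun t => c t * (1 / max (g t) (1 / ((m : ℝ) + 1))))
      (volume.restrict (Set.Ioo 0 1)) := fun m =>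
    (hcm.aemeasurable.mul ((hgm.max aemeasurable_const).const_div 1)).aestronglyMeasurable
  have hnn : ∀ (m : ℕ) (t : ℝ), 0 < t → t < 1 →
      0 ≤ c t * (1 / max (g t) (1 / ((m : ℝ) + 1))) := by
    intro m t h0 h1
    have := lt_max_of_lt_left (b := g t) (c := 1 / ((m : ℝ) + 1)) (hg t h0 h1).1
    exact mul_nonneg (hc0 t h0 h1).1 (by positivity)
  have hle : ∀ (m : ℕ) (t : ℝ), 0 < t → t < 1 →
      c t * (1 / max (g t) (1 / ((m : ℝ) + 1))) ≤ (m : ℝ) + 1 := by
    intro m t h0 h1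
    have h2 : 1 / max (g t) (1 / ((m : ℝ) + 1)) ≤ (m : ℝ) + 1 := by
      rw [div_le_iff₀ (lt_max_of_lt_right (hη m))]
      have h3 : 1 / ((m : ℝ) + 1) ≤ max (g t) (1 / ((m : ℝ) + 1)) := le_max_right _ _
      have h4 : (0 : ℝ) < (m : ℝ) + 1 := by positivity
      calc (1 : ℝ) = ((m : ℝ) + 1) * (1 / ((m : ℝ) + 1)) := by field_simp
        _ ≤ _ := mul_le_mul_of_nonneg_left h3 h4.le
    have h5 : 0 ≤ 1 / max (g t) (1 / ((m : ℝ) + 1)) :=
      div_nonneg zero_le_one (lt_max_of_lt_right (hη m)).le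
    calc _ ≤ 1 * (1 / max (g t) (1 / ((m : ℝ) + 1))) :=
          mul_le_mul_of_nonneg_right (hc0 t h0 h1).2 h5
      _ ≤ _ := by rw [one_mul]; exact h2
  have hint : ∀ m : ℕ, Integrable (fun t => c t * (1 / max (g t) (1 / ((m : ℝ) + 1))))
      (volume.restrict (Set.Ioo 0 1)) := by
    intro m
    refine Integrable.of_bound (hmeas m) ((m : ℝ) + 1) ?_
    rw [ae_restrict_iff' measurableSet_Ioo]
    refine ae_of_all _ fun t ht => ?_
    rw [Real.norm_eq_abs, abs_of_nonneg (hnn m t ht.1 ht.2)]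
    exact hle m t ht.1 ht.2
  have hmono : ∀ t, 0 < t → t < 1 →
      Monotone fun m : ℕ => c t * (1 / max (g t) (1 / ((m : ℝ) + 1))) := by
    intro t h0 h1 m m' hmm
    refine mul_le_mul_of_nonneg_left ?_ (hc0 t h0 h1).1
    refine one_div_le_one_div_of_le (lt_max_of_lt_right (hη m')) (max_le_max le_rfl ?_)
    refine one_div_le_one_div_of_le (by positivity) ?_
    have : (m : ℝ) ≤ (m' : ℝ) := Nat.cast_le.2 hmm
    linarith
  have htend : ∀ t, 0 < t → t < 1 →
      Tendsto (fun m : ℕ => c t * (1 / max (g t) (1 / ((m : ℝ) + 1)))) atTop (𝓝 (c t / g t)) := by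
    intro t h0 h1
    obtain ⟨N, hN⟩ := exists_nat_one_div_lt (hg t h0 h1).1
    refine tendsto_const_nhds.congr' ?_
    filter_upwards [eventually_ge_atTop N] with m hm
    have h2 : 1 / ((m : ℝ) + 1) ≤ 1 / ((N : ℝ) + 1) := by
      refine one_div_le_one_div_of_le (by positivity) ?_
      have : (N : ℝ) ≤ (m : ℝ) := Nat.cast_le.2 hm
      linarith
    rw [max_eq_left (by linarith), mul_one_div]
  have hnn' : ∀ m : ℕ, 0 ≤ᵐ[volume.restrict (Set.Ioo (0 : ℝ) 1)]
      fun t => c t * (1 / max (g t) (1 / ((m : ℝ) + 1))) := by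
    intro m
    rw [EventuallyLE, ae_restrict_iff' measurableSet_Ioo]
    exact ae_of_all _ fun t ht => hnn m t ht.1 ht.2
  have htend' : ∀ᵐ t ∂(volume.restrict (Set.Ioo (0 : ℝ) 1)),
      Tendsto (fun m : ℕ => c t * (1 / max (g t) (1 / ((m : ℝ) + 1)))) atTop (𝓝 (c t / g t)) := by
    rw [ae_restrict_iff' measurableSet_Ioo]
    exact ae_of_all _ fun t ht => htend t ht.1 ht.2
  refine ⟨fun m => integral_nonneg_of_ae (hnn' m), ?_, ?_⟩
  · intro m m' hmm
    refine integral_mono_ae (hint m) (hint m') ?_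
    rw [EventuallyLE, ae_restrict_iff' measurableSet_Ioo]
    exact ae_of_all _ fun t ht => hmono t ht.1 ht.2 hmm
  · intro B hB
    have hI : Integrable (fun t => c t / g t) (volume.restrict (Set.Ioo 0 1)) := by
      refine integrable_of_tendsto htend' hmeas ?_
      have h1 : ∀ m : ℕ, ∫⁻ t in Set.Ioo (0 : ℝ) 1,
          ‖c t * (1 / max (g t) (1 / ((m : ℝ) + 1)))‖ₑ ≤ ENNReal.ofReal B := by
        intro m
        have h2 : ∫⁻ t in Set.Ioo (0 : ℝ) 1, ‖c t * (1 / max (g t) (1 / ((m : ℝ) + 1)))‖ₑ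
            = ∫⁻ t in Set.Ioo (0 : ℝ) 1,
              ENNReal.ofReal (c t * (1 / max (g t) (1 / ((m : ℝ) + 1)))) := by
          refine lintegral_congr_ae ?_
          filter_upwards [hnn' m] with t ht
          exact Real.enorm_of_nonneg ht
        rw [h2, ← ofReal_integral_eq_lintegral_ofReal (hint m) (hnn' m)]
        exact ENNReal.ofReal_le_ofReal (hB m)
      refine ne_top_of_le_ne_top (ENNReal.ofReal_ne_top (r := B)) ?_
      refine le_trans (liminf_le_liminf (Eventually.of_forall h1)) ?_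
      rw [liminf_const]
    refine ⟨hI, ?_⟩
    refine integral_tendsto_of_tendsto_of_monotone hint hI ?_ htend'
    rw [ae_restrict_iff' measurableSet_Ioo]
    exact ae_of_all _ fun t ht => hmono t ht.1 ht.2

theorem QW24a_BLphi (m : ℕ) :
    BL (((m : ℝ) + 1) ^ 2) (fun x => 1 / max x (1 / ((m : ℝ) + 1))) := by
  have hm : (1 : ℝ) ≤ (m : ℝ) + 1 := by
    have : (0 : ℝ) ≤ (m : ℝ) := Nat.cast_nonneg m
    linarith
  generalize (m : ℝ) + 1 = M at hm
  have hM : 0 < M := by linarith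
  have h1 : ∀ x : ℝ, 1 / M ≤ max x (1 / M) := fun x => le_max_right _ _
  have h0 : ∀ x : ℝ, 0 < max x (1 / M) := fun x => lt_of_lt_of_le (by positivity) (h1 x)
  have h2 : ∀ x : ℝ, 1 / max x (1 / M) ≤ M := by
    intro x
    rw [div_le_iff₀ (h0 x)]
    calc (1 : ℝ) = M * (1 / M) := by field_simp
      _ ≤ _ := mul_le_mul_of_nonneg_left (h1 x) hM.le
  have h3 : ∀ x : ℝ, 0 < 1 / max x (1 / M) := fun x => div_pos one_pos (h0 x)
  refine ⟨fun x => ?_, fun x y => ?_⟩
  · rw [abs_of_pos (h3 x)]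
    have := h2 x
    nlinarith
  · have h4 : 1 / max x (1 / M) - 1 / max y (1 / M)
        = (max y (1 / M) - max x (1 / M)) * ((1 / max x (1 / M)) * (1 / max y (1 / M))) := by
      have := (h0 x).ne'
      have := (h0 y).ne'
      field_simp
    rw [h4, abs_mul, abs_mul, abs_of_pos (h3 x), abs_of_pos (h3 y), mul_comm]
    have h5 : |max y (1 / M) - max x (1 / M)| ≤ |x - y| := by
      rw [abs_sub_comm x y]
      exact abs_max_sub_max_le_abs y x (1 / M)
    have h6 : (1 / max x (1 / M)) * (1 / max y (1 / M)) ≤ M ^ 2 := by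
      calc _ ≤ M * M := mul_le_mul (h2 x) (h2 y) (h3 y).le hM.le
        _ = _ := by ring
    exact mul_le_mul h6 h5 (abs_nonneg _) (by positivity)

theorem QW24a_BLc {c : ℝ → ℝ} (hc : c = (fun _ => 1) ∨ c = (fun t => 1 - t)) (m : ℕ) :
    BL (((m : ℝ) + 1) ^ 2) (fun t => max 0 (min 1 (c t))) := by
  have hm : (1 : ℝ) ≤ ((m : ℝ) + 1) ^ 2 := by
    have : (0 : ℝ) ≤ (m : ℝ) := Nat.cast_nonneg m
    nlinarith
  have hlip : ∀ x y, |c x - c y| ≤ |x - y| := by
    intro x y
    rcases hc with rfl | rfl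
    · simp
    · rw [abs_sub_comm x y]
      exact le_of_eq (by congr 1; ring)
  refine ⟨fun x => ?_, fun x y => ?_⟩
  · rw [abs_of_nonneg (le_max_left _ _)]
    exact le_trans (max_le zero_le_one (min_le_left _ _)) hm
  · have h1 : |max 0 (min 1 (c x)) - max 0 (min 1 (c y))| ≤ |min 1 (c x) - min 1 (c y)| := by
      rw [max_comm 0, max_comm 0]
      exact abs_max_sub_max_le_abs _ _ _
    have h2 : |min 1 (c x) - min 1 (c y)| ≤ |c x - c y| := by
      have := abs_min_sub_min_le_max 1 (c x) 1 (c y)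
      simpa using this
    have h3 := abs_nonneg (x - y)
    calc _ ≤ |x - y| := le_trans h1 (le_trans h2 (hlip x y))
      _ ≤ _ := by nlinarith

theorem QW24a_FR (R : ℝ) : BL 1 (fun x => min 1 (max 0 (x - R))) := by
  refine ⟨fun x => ?_, fun x y => ?_⟩
  · rw [abs_of_nonneg (le_min zero_le_one (le_max_left _ _))]
    exact min_le_left _ _
  · have h1 : |min 1 (max 0 (x - R)) - min 1 (max 0 (y - R))|
        ≤ |max 0 (x - R) - max 0 (y - R)| := by
      have := abs_min_sub_min_le_max 1 (max 0 (x - R)) 1 (max 0 (y - R))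
      simpa using this
    have h2 : |max 0 (x - R) - max 0 (y - R)| ≤ |(x - R) - (y - R)| := by
      rw [max_comm 0, max_comm 0]
      exact abs_max_sub_max_le_abs _ _ _
    rw [one_mul]
    refine le_trans h1 (le_trans h2 (le_of_eq ?_))
    congr 1
    ring


/-- PROOF. Fix `ω` with the property `path`. `1/max x η` is `BL M`, so `I_η := IE e c (1/max · η)` is a.e. measurable (`YE_IE`; replace `c t = 1 - t` by `max 0 (min 1 (1 - t))`,
same integral over `(0,1)`). `I_η ≥ 0` increases as `η ↓ 0` (e.g. `η = 1/(m+1)`) to `I = ∫⁻ c/e ∈ [0, ∞]` (monotone convergence; `t ↦ e t ω` is measurable on `(0,1)`: limit of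
the step functions `e (⌈k t⌉/k)`). With `F_R x = min 1 (max 0 (x - R))` (`BL 1`): `P(I_η > R+1) ≤ ∫ F_R(I_η) ≤ ∫ F_R ∂W + τ` for `η ≤ η₀`; `η ↓ 0`, then `τ ↓ 0`:
`P(I > R+1) ≤ W (Ioi R)`; `R → ∞`: `I < ∞` a.e. So the integral exists and `I_η → ∫ c/e` a.e.; for `BL 1` functions `F`: `∫ F(∫ c/e) ∂P = lim ∫ F(I_η) ∂P = ∫ F ∂W` (dominated
convergence), and `law_ext`. -/
theorem EP.id_int {Φ : List (ℝ × (ℝ → ℝ)) → ℝ} {Ω : Type} [MeasurableSpace Ω] {P : Measure Ω}
    {e : ℝ → Ω → ℝ} (he : EP Φ P e) (c : ℝ → ℝ) (hc : c = (fun _ => 1) ∨ c = (fun t => 1 - t))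
    (W : Measure ℝ) (hWp : IsProbabilityMeasure W)
    (hW : ∀ F : ℝ → ℝ, BL 1 F → ∀ τ > (0 : ℝ), ∃ η₀ > (0 : ℝ), ∀ η : ℝ, 0 < η → η ≤ η₀ →
      |∫ ω, F (IE e c (fun x => 1 / max x η) ω) ∂P - ∫ x, F x ∂W| ≤ τ) :
    (∀ᵐ ω ∂P, IntegrableOn (fun t => c t / e t ω) (Set.Ioo 0 1)) ∧
      P.map (fun ω => ∫ t in Set.Ioo (0 : ℝ) 1, c t / e t ω) = W := by
  have := he.prob
  set I : ℕ → Ω → ℝ := fun m => IE e c (fun x => 1 / max x (1 / ((m : ℝ) + 1))) with hI
  have hc01 : ∀ t, 0 < t → t < 1 → 0 ≤ c t ∧ c t ≤ 1 := by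
    intro t h0 h1
    rcases hc with rfl | rfl
    · simp
    · simp only
      constructor <;> linarith
  have hcm : Measurable c := by
    rcases hc with rfl | rfl
    · exact measurable_const
    · exact measurable_const.sub measurable_id
  -- measurability
  have hIm : ∀ m, AEMeasurable (I m) P := by
    intro m
    have h1 := (YE_IE he (fun t => max 0 (min 1 (c t))) (fun x => 1 / max x (1 / ((m : ℝ) + 1)))
      (QW24a_BLc hc m) (QW24a_BLphi m)).2
    have h2 : I m = IE e (fun t => max 0 (min 1 (c t)))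
        (fun x => 1 / max x (1 / ((m : ℝ) + 1))) := by
      funext ω
      simp only [hI, IE]
      refine setIntegral_congr_fun measurableSet_Ioo fun t ht => ?_
      have h3 := hc01 t ht.1 ht.2
      rw [min_eq_right h3.2, max_eq_right h3.1]
    rw [h2]
    exact h1
  -- limit of the expectations
  have hlim : ∀ F : ℝ → ℝ, BL 1 F →
      Tendsto (fun m => ∫ ω, F (I m ω) ∂P) atTop (𝓝 (∫ x, F x ∂W)) := by
    intro F hF
    rw [Metric.tendsto_atTop]
    intro ε hε
    obtain ⟨η₀, h0, h1⟩ := hW F hF (ε / 2) (by linarith)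
    obtain ⟨N, hN⟩ := exists_nat_one_div_lt h0
    refine ⟨N, fun m hm => ?_⟩
    have h2 : 1 / ((m : ℝ) + 1) ≤ 1 / ((N : ℝ) + 1) := by
      refine one_div_le_one_div_of_le (by positivity) ?_
      have : (N : ℝ) ≤ (m : ℝ) := Nat.cast_le.2 hm
      linarith
    have h3 := h1 (1 / ((m : ℝ) + 1)) (by positivity) (by linarith)
    rw [Real.dist_eq]
    exact lt_of_le_of_lt h3 (by linarith)
  -- paths
  have hpath : ∀ᵐ ω ∂P, ∀ t, 0 < t → t < 1 →
      0 < e t ω ∧ ContinuousWithinAt (fun s => e s ω) (Set.Ici t) t := he.path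
  have hImono : ∀ᵐ ω ∂P, Monotone fun m => I m ω := by
    filter_upwards [hpath] with ω hω
    exact (QW24a_lim hω hcm hc01).2.1
  -- boundedness
  have hbdd : ∀ᵐ ω ∂P, ∃ B : ℝ, ∀ m, I m ω ≤ B := by
    rw [ae_iff]
    have hF0 : Tendsto (fun n : ℕ => ENNReal.ofReal (∫ x, min 1 (max 0 (x - (n : ℝ))) ∂W)) atTop
        (𝓝 0) := by
      have h1 : Tendsto (fun n : ℕ => ∫ x, min 1 (max 0 (x - (n : ℝ))) ∂W) atTop
          (𝓝 (∫ _, (0 : ℝ) ∂W)) := by
        refine tendsto_integral_of_dominated_convergence (fun _ => (1 : ℝ)) ?_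
          (integrable_const _) ?_ ?_
        · intro n
          exact (QW24a_cont (QW24a_FR (n : ℝ))).aestronglyMeasurable
        · intro n
          exact ae_of_all _ fun x => (QW24a_FR (n : ℝ)).bd x
        · refine ae_of_all _ fun x => ?_
          refine tendsto_const_nhds.congr' ?_
          filter_upwards [eventually_ge_atTop ⌈x⌉₊] with n hn
          have h2 : x ≤ n := le_trans (Nat.le_ceil x) (Nat.cast_le.2 hn)
          rw [max_eq_left (by linarith), min_eq_right zero_le_one]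
      rw [integral_zero] at h1
      have h2 := (ENNReal.continuous_ofReal.tendsto 0).comp h1
      rw [ENNReal.ofReal_zero] at h2
      exact h2
    refine le_antisymm (ge_of_tendsto' hF0 fun n => ?_) bot_le
    -- the limit of `F_n (I m)`
    have hFBL := QW24a_FR (n : ℝ)
    have hFmono : Monotone fun x : ℝ => min 1 (max 0 (x - (n : ℝ))) := by
      intro x y hxy
      exact min_le_min le_rfl (max_le_max le_rfl (by linarith))
    have hG : ∀ᵐ ω ∂P, Tendsto (fun m => min 1 (max 0 (I m ω - (n : ℝ)))) atTop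
        (𝓝 (⨆ m, min 1 (max 0 (I m ω - (n : ℝ))))) := by
      filter_upwards [hImono] with ω hω
      refine tendsto_atTop_ciSup (hFmono.comp hω) ⟨1, ?_⟩
      rintro _ ⟨m, rfl⟩
      exact min_le_left _ _
    have hFI : ∀ m, AEMeasurable (fun ω => min 1 (max 0 (I m ω - (n : ℝ)))) P := fun m =>
      (QW24a_cont hFBL).measurable.comp_aemeasurable (hIm m)
    have hGm : AEMeasurable (fun ω => ⨆ m, min 1 (max 0 (I m ω - (n : ℝ)))) P :=
      aemeasurable_of_tendsto_metrizable_ae' hFI hG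
    have hG01 : ∀ ω, 0 ≤ (⨆ m, min 1 (max 0 (I m ω - (n : ℝ)))) ∧
        (⨆ m, min 1 (max 0 (I m ω - (n : ℝ)))) ≤ 1 := by
      intro ω
      constructor
      · exact Real.iSup_nonneg fun m => le_min zero_le_one (le_max_left _ _)
      · exact ciSup_le fun m => min_le_left _ _
    have hGint : Integrable (fun ω => ⨆ m, min 1 (max 0 (I m ω - (n : ℝ)))) P := by
      refine Integrable.of_bound hGm.aestronglyMeasurable 1 (ae_of_all _ fun ω => ?_)
      rw [Real.norm_eq_abs, abs_of_nonneg (hG01 ω).1]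
      exact (hG01 ω).2
    have hGeq : ∫ ω, (⨆ m, min 1 (max 0 (I m ω - (n : ℝ)))) ∂P
        = ∫ x, min 1 (max 0 (x - (n : ℝ))) ∂W := by
      refine tendsto_nhds_unique ?_ (hlim _ hFBL)
      refine tendsto_integral_of_dominated_convergence (fun _ => (1 : ℝ))
        (fun m => (hFI m).aestronglyMeasurable) (integrable_const _) ?_ hG
      intro m
      exact ae_of_all _ fun ω => hFBL.bd (I m ω)
    rw [← hGeq, ofReal_integral_eq_lintegral_ofReal hGint (ae_of_all _ fun ω => (hG01 ω).1)]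
    have hMk := mul_meas_ge_le_lintegral₀ hGm.ennreal_ofReal 1 (μ := P)
    rw [one_mul] at hMk
    refine le_trans (measure_mono ?_) hMk
    intro ω hω
    simp only [Set.mem_ofPred_eq, not_exists, not_forall, not_le] at hω ⊢
    obtain ⟨m, hm⟩ := hω ((n : ℝ) + 1)
    rw [← ENNReal.ofReal_one]
    refine ENNReal.ofReal_le_ofReal ?_
    refine le_trans ?_ (le_ciSup (f := fun m => min 1 (max 0 (I m ω - (n : ℝ)))) ⟨1, ?_⟩ m)
    · refine le_min le_rfl (le_trans ?_ (le_max_right _ _))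
      linarith
    · rintro _ ⟨m', rfl⟩
      exact min_le_left _ _
  have hfin : ∀ᵐ ω ∂P, IntegrableOn (fun t => c t / e t ω) (Set.Ioo 0 1) ∧
      Tendsto (fun m => I m ω) atTop (𝓝 (∫ t in Set.Ioo (0 : ℝ) 1, c t / e t ω)) := by
    filter_upwards [hpath, hbdd] with ω hω hB
    obtain ⟨B, hB⟩ := hB
    exact (QW24a_lim hω hcm hc01).2.2 B hB
  refine ⟨hfin.mono fun ω h => h.1, ?_⟩
  have hlimm : ∀ᵐ ω ∂P, Tendsto (fun m => I m ω) atTop
      (𝓝 (∫ t in Set.Ioo (0 : ℝ) 1, c t / e t ω)) := hfin.mono fun ω h => h.2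
  have hZm : AEMeasurable (fun ω => ∫ t in Set.Ioo (0 : ℝ) 1, c t / e t ω) P :=
    aemeasurable_of_tendsto_metrizable_ae' hIm hlimm
  have : IsProbabilityMeasure (P.map (fun ω => ∫ t in Set.Ioo (0 : ℝ) 1, c t / e t ω)) :=
    Measure.isProbabilityMeasure_map hZm
  refine law_ext fun F hF => ?_
  rw [integral_map hZm (QW24a_cont hF).aestronglyMeasurable]
  refine tendsto_nhds_unique ?_ (hlim F hF)
  refine tendsto_integral_of_dominated_convergence (fun _ => (1 : ℝ))
    (fun m => ((QW24a_cont hF).measurable.comp_aemeasurable (hIm m)).aestronglyMeasurable)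
    (integrable_const _) ?_ ?_
  · intro m
    exact ae_of_all _ fun ω => hF.bd (I m ω)
  · filter_upwards [hlimm] with ω hω
    exact ((QW24a_cont hF).tendsto _).comp hω


end Pool.Agent.BPT
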