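import Pool.Agent.MP_99a865_pr.ST.QW15
import Pool.Agent.MP_99a865_pr.ST.QW24a

/-! **[STB-QW24b]** Functionals of a positive right-continuous process with given finite dimensional distributions. -/

open MeasureTheory ProbabilityTheory Filter Topology
open scoped ENNReal NNReal

namespace Pool.Agent.BPT

private theorem QW24b_cont {F : ℝ → ℝ} (h : BL 1 F) : Continuous F := by
  have : LipschitzWith 1 F := LipschitzWith.of_dist_le_mul fun x y => by
    rw [Real.dist_eq, Real.dist_eq]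
    simpa using h.lip x y
  exact this.continuous

/-- the test functions -/
private noncomputable def QW24b_F (R x : ℝ) : ℝ := min 1 (max 0 (x - R))

private theorem QW24b_F_BL (R : ℝ) : BL 1 (QW24b_F R) := by
  constructor
  · intro x
    unfold QW24b_F
    rw [abs_of_nonneg (le_min zero_le_one (le_max_left _ _))]
    exact min_le_left _ _
  · intro x y
    unfold QW24b_F
    have h1 := abs_min_sub_min_le_max 1 (max 0 (x - R)) 1 (max 0 (y - R))
    have h2 := abs_max_sub_max_le_max 0 (x - R) 0 (y - R)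
    have h3 : x - R - (y - R) = x - y := by ring
    rw [h3] at h2
    simp only [sub_self, abs_zero] at h1 h2
    have h4 : max 0 |x - y| = |x - y| := max_eq_right (abs_nonneg _)
    have h5 : max 0 |max 0 (x - R) - max 0 (y - R)| = |max 0 (x - R) - max 0 (y - R)| := max_eq_right (abs_nonneg _)
    rw [h4] at h2
    rw [h5] at h1
    linarith

private theorem QW24b_F_nonneg (R x : ℝ) : 0 ≤ QW24b_F R x := le_min zero_le_one (le_max_left _ _)

private theorem QW24b_F_one {R x : ℝ} (h : R + 1 < x) : 1 ≤ QW24b_F R x :=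
  le_min le_rfl (le_max_of_le_right (by linarith))

private theorem QW24b_ME_meas {Ω : Type} [MeasurableSpace Ω] {e : ℝ → Ω → ℝ} (h : ∀ t, Measurable (e t)) (k : ℕ) :
    Measurable (ME e k) := by
  unfold ME
  apply Measurable.iSup
  intro j
  by_cases hj : (j : ℕ) = 0
  · simp only [hj, if_true]
    exact measurable_const
  · simp only [hj, if_false]
    exact h _

private theorem QW24b_le_ME {Ω : Type} {e : ℝ → Ω → ℝ} (k j : ℕ) (hj : j < k) (hj0 : j ≠ 0) (ω : Ω) :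
    e ((j : ℝ) / k) ω ≤ ME e k ω := by
  unfold ME
  have h := le_ciSup (f := fun j : Fin k => if (j : ℕ) = 0 then 0 else e (((j : ℕ) : ℝ) / k) ω)
    (Set.finite_range _).bddAbove ⟨j, hj⟩
  simpa [hj0] using h

private theorem QW24b_ME_nonneg {Ω : Type} {e : ℝ → Ω → ℝ} (k : ℕ) (hk : 0 < k) (ω : Ω) : 0 ≤ ME e k ω := by
  unfold ME
  have h := le_ciSup (f := fun j : Fin k => if (j : ℕ) = 0 then 0 else e (((j : ℕ) : ℝ) / k) ω)
    (Set.finite_range _).bddAbove ⟨0, hk⟩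
  simpa using h

private theorem QW24b_ME_le {Ω : Type} {e : ℝ → Ω → ℝ} (k : ℕ) (hk : 0 < k) (ω : Ω) {C : ℝ} (hC : 0 ≤ C)
    (h : ∀ j : ℕ, j ≠ 0 → j < k → e ((j : ℝ) / k) ω ≤ C) : ME e k ω ≤ C := by
  unfold ME
  haveI : Nonempty (Fin k) := ⟨⟨0, hk⟩⟩
  apply ciSup_le
  intro j
  by_cases hj : (j : ℕ) = 0
  · rw [if_pos hj]
    exact hC
  · rw [if_neg hj]
    exact h j hj j.2

private theorem QW24b_mono {Ω : Type} {e : ℝ → Ω → ℝ} (ω : Ω) : Monotone fun m : ℕ => ME e (2 ^ m) ω := by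
  apply monotone_nat_of_le_succ
  intro m
  apply QW24b_ME_le _ (by positivity) _ (QW24b_ME_nonneg _ (by positivity) _)
  intro j hj hjk
  have h := QW24b_le_ME (e := e) (2 ^ (m + 1)) (2 * j) (by rw [pow_succ]; omega) (by omega) ω
  have h2 : (((2 * j : ℕ) : ℝ) / ((2 ^ (m + 1) : ℕ) : ℝ)) = (j : ℝ) / ((2 ^ m : ℕ) : ℝ) := by
    push_cast
    rw [pow_succ]
    field_simp
  rw [h2] at h
  exact h

private theorem QW24b_lim {Ω : Type} {e : ℝ → Ω → ℝ} {ω : Ω} (hp : ∀ t, 0 < t → t < 1 →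
    0 < e t ω ∧ ContinuousWithinAt (fun s => e s ω) (Set.Ici t) t) {C : ℝ} (hC : ∀ m : ℕ, ME e (2 ^ m) ω ≤ C)
    {t : ℝ} (ht0 : 0 < t) (ht1 : t < 1) : e t ω ≤ C := by
  have hs : Tendsto (fun m : ℕ => ((⌊t * (2 : ℝ) ^ m⌋₊ + 1 : ℕ) : ℝ) / (2 : ℝ) ^ m) atTop (𝓝 t) := by
    have h1 : Tendsto (fun m : ℕ => (⌊t * (2 : ℝ) ^ m⌋₊ : ℝ) / (2 : ℝ) ^ m) atTop (𝓝 t) :=
      (tendsto_nat_floor_mul_div_atTop ht0.le).comp (tendsto_pow_atTop_atTop_of_one_lt (by norm_num : (1 : ℝ) < 2))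
    have h2 : Tendsto (fun m : ℕ => 1 / (2 : ℝ) ^ m) atTop (𝓝 0) := by
      simp only [one_div]
      exact tendsto_inv_atTop_zero.comp (tendsto_pow_atTop_atTop_of_one_lt (by norm_num : (1 : ℝ) < 2))
    have h3 := h1.add h2
    rw [add_zero] at h3
    refine h3.congr fun m => ?_
    push_cast
    ring
  have hge : ∀ m : ℕ, t ≤ ((⌊t * (2 : ℝ) ^ m⌋₊ + 1 : ℕ) : ℝ) / (2 : ℝ) ^ m := by
    intro m
    rw [le_div_iff₀ (by positivity)]
    push_cast
    exact (Nat.lt_floor_add_one _).le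
  have hw : Tendsto (fun m : ℕ => ((⌊t * (2 : ℝ) ^ m⌋₊ + 1 : ℕ) : ℝ) / (2 : ℝ) ^ m) atTop (𝓝[Set.Ici t] t) :=
    tendsto_nhdsWithin_iff.mpr ⟨hs, Eventually.of_forall hge⟩
  have hlim : Tendsto (fun m : ℕ => e (((⌊t * (2 : ℝ) ^ m⌋₊ + 1 : ℕ) : ℝ) / (2 : ℝ) ^ m) ω) atTop (𝓝 (e t ω)) :=
    Tendsto.comp (hp t ht0 ht1).2 hw
  refine le_of_tendsto hlim ?_
  filter_upwards [hs.eventually_lt_const ht1] with m hm
  have hm2 : ⌊t * (2 : ℝ) ^ m⌋₊ + 1 < 2 ^ m := by
    rw [div_lt_one (by positivity)] at hm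
    exact_mod_cast hm
  have h := QW24b_le_ME (e := e) (2 ^ m) (⌊t * (2 : ℝ) ^ m⌋₊ + 1) hm2 (by omega) ω
  have h2 : (((2 ^ m : ℕ)) : ℝ) = (2 : ℝ) ^ m := by push_cast; rfl
  rw [h2] at h
  exact h.trans (hC m)

/-- PROOF. For `ω` with the property `path`, `ME e (2^m) ω` is nondecreasing in `m` (for `m ≥ 1`; the grid of mesh `2^{-m}` is contained in the next one, all values are positive), and every
`t ∈ (0,1)` is a limit from the right of dyadic points of `(0,1)`; so `S = sup_{(0,1)} e ∈ (0, ∞]` is the limit. `P(S > R+1) = lim_m P(ME e (2^m) > R+1) ≤ lim ∫ F_R (ME) = ∫ F_R ∂W ≤ W (Ioi R)`, with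
`F_R` as in `id_int`; `R → ∞`: `S < ∞` a.e. Then `∫ F(S) = lim ∫ F(ME e (2^m)) = ∫ F ∂W`, `law_ext`. -/
theorem EP.id_sup {Φ : List (ℝ × (ℝ → ℝ)) → ℝ} {Ω : Type} [MeasurableSpace Ω] {P : Measure Ω}
    {e : ℝ → Ω → ℝ} (he : EP Φ P e) (W : Measure ℝ) (hWp : IsProbabilityMeasure W)
    (hW : ∀ F : ℝ → ℝ, BL 1 F → Tendsto (fun k => ∫ ω, F (ME e k ω) ∂P) atTop (𝓝 (∫ x, F x ∂W))) :
    (∀ᵐ ω ∂P, BddAbove (Set.range fun t : Set.Ioo (0 : ℝ) 1 => e t ω)) ∧
      P.map (fun ω => ⨆ t : Set.Ioo (0 : ℝ) 1, e t ω) = W := by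
  have := he.prob
  have hmeas := he.meas
  have hME := fun k => QW24b_ME_meas hmeas k
  have h2 : Tendsto (fun m : ℕ => (2 : ℕ) ^ m) atTop atTop := tendsto_pow_atTop_atTop_of_one_lt (by norm_num)
  have hW2 : ∀ F : ℝ → ℝ, BL 1 F → Tendsto (fun m : ℕ => ∫ ω, F (ME e (2 ^ m) ω) ∂P) atTop (𝓝 (∫ x, F x ∂W)) :=
    fun F hF => (hW F hF).comp h2
  -- the bound of the probability
  have hbound : ∀ R : ℕ, P.real (⋃ m : ℕ, {ω | (R : ℝ) + 1 < ME e (2 ^ m) ω}) ≤ ∫ x, QW24b_F R x ∂W := by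
    intro R
    have hmono : Monotone fun m : ℕ => {ω | (R : ℝ) + 1 < ME e (2 ^ m) ω} := by
      intro m m' hm ω hω
      exact lt_of_lt_of_le hω (QW24b_mono ω hm)
    have hlim : Tendsto (fun m : ℕ => P.real {ω | (R : ℝ) + 1 < ME e (2 ^ m) ω}) atTop
        (𝓝 (P.real (⋃ m : ℕ, {ω | (R : ℝ) + 1 < ME e (2 ^ m) ω}))) :=
      (ENNReal.tendsto_toReal (measure_ne_top _ _)).comp (tendsto_measure_iUnion_atTop hmono)
    refine le_of_tendsto_of_tendsto' hlim (hW2 _ (QW24b_F_BL R)) ?_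
    intro m
    have hms : MeasurableSet {ω | (R : ℝ) + 1 < ME e (2 ^ m) ω} := measurableSet_lt measurable_const (hME _)
    rw [← integral_indicator_one hms]
    refine integral_mono_of_nonneg (Eventually.of_forall fun ω => ?_) ?_ (Eventually.of_forall fun ω => ?_)
    · exact Set.indicator_nonneg (fun _ _ => zero_le_one) _
    · refine Integrable.of_bound (C := 1)
        (((QW24b_cont (QW24b_F_BL R)).measurable.comp (hME _)).aestronglyMeasurable) ?_
      exact Eventually.of_forall fun ω => (QW24b_F_BL R).bd _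
    · by_cases hω : ω ∈ {ω | (R : ℝ) + 1 < ME e (2 ^ m) ω}
      · simp only [Set.indicator_of_mem hω, Pi.one_apply]
        exact QW24b_F_one hω
      · simp only [Set.indicator_of_notMem hω]
        exact QW24b_F_nonneg _ _
  have hzero : Tendsto (fun R : ℕ => ∫ x, QW24b_F R x ∂W) atTop (𝓝 0) := by
    have h := tendsto_integral_of_dominated_convergence (μ := W) (F := fun (R : ℕ) x => QW24b_F R x)
      (f := fun _ => (0 : ℝ)) (fun _ => (1 : ℝ)) (fun R => (QW24b_cont (QW24b_F_BL R)).aestronglyMeasurable)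
      (integrable_const 1) (fun R => Eventually.of_forall fun x => (QW24b_F_BL R).bd x) ?_
    · simpa using h
    · refine Eventually.of_forall fun x => ?_
      refine tendsto_const_nhds.congr' ?_
      filter_upwards [eventually_ge_atTop ⌈x⌉₊] with R hR
      have h1 : x ≤ R := (Nat.le_ceil x).trans (by exact_mod_cast hR)
      unfold QW24b_F
      rw [max_eq_left (by linarith), min_eq_right zero_le_one]
  have hnull : P {ω | ¬ BddAbove (Set.range fun m : ℕ => ME e (2 ^ m) ω)} = 0 := by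
    have h1 : ∀ R : ℕ, P.real {ω | ¬ BddAbove (Set.range fun m : ℕ => ME e (2 ^ m) ω)} ≤ ∫ x, QW24b_F R x ∂W := by
      intro R
      refine le_trans (measureReal_mono ?_) (hbound R)
      intro ω hω
      rw [Set.mem_iUnion]
      by_contra hcon
      push Not at hcon
      apply hω
      refine ⟨(R : ℝ) + 1, ?_⟩
      rintro _ ⟨m, rfl⟩
      exact not_lt.1 (hcon m)
    have h3 : P.real {ω | ¬ BddAbove (Set.range fun m : ℕ => ME e (2 ^ m) ω)} ≤ 0 := ge_of_tendsto' hzero h1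
    have h4 : P.real {ω | ¬ BddAbove (Set.range fun m : ℕ => ME e (2 ^ m) ω)} = 0 := le_antisymm h3 measureReal_nonneg
    rwa [measureReal_eq_zero_iff] at h4
  have hbdd : ∀ᵐ ω ∂P, BddAbove (Set.range fun m : ℕ => ME e (2 ^ m) ω) := by
    rw [ae_iff]
    exact hnull
  have hae : ∀ᵐ ω ∂P, BddAbove (Set.range fun t : Set.Ioo (0 : ℝ) 1 => e t ω) ∧
      Tendsto (fun m : ℕ => ME e (2 ^ m) ω) atTop (𝓝 (⨆ t : Set.Ioo (0 : ℝ) 1, e t ω)) := by
    filter_upwards [hbdd, he.path] with ω hb hp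
    have hC : ∀ m : ℕ, ME e (2 ^ m) ω ≤ ⨆ m : ℕ, ME e (2 ^ m) ω := fun m => le_ciSup hb m
    have hle : ∀ t : Set.Ioo (0 : ℝ) 1, e t ω ≤ ⨆ m : ℕ, ME e (2 ^ m) ω := fun t =>
      QW24b_lim hp hC t.2.1 t.2.2
    have hba : BddAbove (Set.range fun t : Set.Ioo (0 : ℝ) 1 => e t ω) := by
      refine ⟨⨆ m : ℕ, ME e (2 ^ m) ω, ?_⟩
      rintro _ ⟨t, rfl⟩
      exact hle t
    refine ⟨hba, ?_⟩
    haveI : Nonempty (Set.Ioo (0 : ℝ) 1) := ⟨⟨1 / 2, by norm_num, by norm_num⟩⟩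
    have hpos : 0 ≤ ⨆ t : Set.Ioo (0 : ℝ) 1, e t ω :=
      le_trans (hp (1 / 2) (by norm_num) (by norm_num)).1.le
        (le_ciSup hba (⟨1 / 2, by norm_num, by norm_num⟩ : Set.Ioo (0 : ℝ) 1))
    have heq : (⨆ t : Set.Ioo (0 : ℝ) 1, e t ω) = ⨆ m : ℕ, ME e (2 ^ m) ω := by
      apply le_antisymm
      · exact ciSup_le hle
      · apply ciSup_le
        intro m
        apply QW24b_ME_le _ (by positivity) _ hpos
        intro j hj hjk
        have hk : (0 : ℝ) < ((2 ^ m : ℕ) : ℝ) := by positivity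
        have hj' : (0 : ℝ) < j := by exact_mod_cast Nat.pos_of_ne_zero hj
        have hjk' : (j : ℝ) < ((2 ^ m : ℕ) : ℝ) := by exact_mod_cast hjk
        exact le_ciSup hba (⟨(j : ℝ) / ((2 ^ m : ℕ) : ℝ), div_pos hj' hk, (div_lt_one hk).2 hjk'⟩ : Set.Ioo (0 : ℝ) 1)
    rw [heq]
    exact tendsto_atTop_ciSup (QW24b_mono ω) hb
  refine ⟨hae.mono fun ω h => h.1, ?_⟩
  have hS : AEMeasurable (fun ω => ⨆ t : Set.Ioo (0 : ℝ) 1, e t ω) P :=
    aemeasurable_of_tendsto_metrizable_ae atTop (fun m => (hME (2 ^ m)).aemeasurable) (hae.mono fun ω h => h.2)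
  haveI : IsProbabilityMeasure (P.map (fun ω => ⨆ t : Set.Ioo (0 : ℝ) 1, e t ω)) :=
    Measure.isProbabilityMeasure_map hS
  apply law_ext
  intro F hF
  have hFc := QW24b_cont hF
  rw [integral_map hS hFc.aestronglyMeasurable]
  refine tendsto_nhds_unique ?_ (hW2 F hF)
  refine tendsto_integral_of_dominated_convergence (fun _ => (1 : ℝ))
    (fun m => (hFc.measurable.comp (hME _)).aestronglyMeasurable) (integrable_const 1)
    (fun m => Eventually.of_forall fun ω => hF.bd _) ?_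
  filter_upwards [hae] with ω h
  exact (hFc.tendsto _).comp h.2

end Pool.Agent.BPT
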