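import Pool.Agent.MP_99a865_pr.ST.QW22
import Pool.Agent.MP_99a865_pr.ST.QW23
import Pool.Agent.MP_99a865_pr.ST.QW24

/-! **[STB-QW25a]** The limit theorem for queues whose walk satisfies `QC Φ`. -/

open MeasureTheory ProbabilityTheory Filter Topology
open scoped ENNReal NNReal

namespace Pool.Agent.BPT

/-- given `N = n`, and as `n → ∞` along the `n` with `P(N = n) > 0`, `X n` converges weakly to `L` -/
def CV1 (c : Bool) (μ ν : Measure ℝ) (X : ℕ → (ℕ → ℝ) × (ℕ → ℝ) → ℝ) (L : Measure ℝ) : Prop :=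
  ∀ f : BoundedContinuousFunction ℝ ℝ,
    Tendsto (fun n : ℕ => ∫ p, f (X n p) ∂(cond (queueLaw μ ν) (busyEvent c n))) (lq c μ ν)
      (𝓝 (∫ x, f x ∂L))

/-- `L_H`, `L_W`, `L_T` are the laws of `∫ dt/e`, `sup e`, `∫ (1-t) dt/e` -/
def IdL {Ω : Type} [MeasurableSpace Ω] (P : Measure Ω) (e : ℝ → Ω → ℝ) (LH LW LT : Measure ℝ) : Prop :=
  (∀ᵐ ω ∂P, IntegrableOn (fun t => 1 / e t ω) (Set.Ioo 0 1)) ∧
  P.map (fun ω => ∫ t in Set.Ioo (0 : ℝ) 1, 1 / e t ω) = LH ∧
  (∀ᵐ ω ∂P, BddAbove (Set.range fun t : Set.Ioo (0 : ℝ) 1 => e t ω)) ∧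
  P.map (fun ω => ⨆ t : Set.Ioo (0 : ℝ) 1, e t ω) = LW ∧
  (∀ᵐ ω ∂P, IntegrableOn (fun t => (1 - t) / e t ω) (Set.Ioo 0 1)) ∧
  P.map (fun ω => ∫ t in Set.Ioo (0 : ℝ) 1, (1 - t) / e t ω) = LT

/-- PROOF. Nondegeneracy: `nondeg_of_large` with the model `P n = cond (queueLaw μ ν) (busyEvent c n)` and `lq c μ ν`; the lower bounds `HT_large`, `MZ_large` are transferred with `transferP0`
(height, total height), and for the width: `P(W/a n ≥ r) ≥ P(MZ/a n ≥ r + 1) - P(|W - MZ| > a n/2)`, `W_MZ` with `τ = 1/2`, `θ = c/(2 K')`. (Or: the width through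
`queue_W` with `F x = min 1 (max 0 (x - r))` and `MZ_large (r + 1)`.)  -/
theorem queue_nondeg (Φ : List (ℝ × (ℝ → ℝ)) → ℝ) {c : Bool} {μ ν : Measure ℝ} {a : ℕ → ℝ}
    (h0 : Hyp0 μ ν) (hQ : QC Φ (DD' c) μ ν a) (hp : QP (DD' c) μ ν a) (hne : (lq c μ ν).NeBot)
    {LH LW LT : Measure ℝ} (hH : CV1 c μ ν (fun n p => a n / n * height c p.1 p.2 n) LH)
    (hW : CV1 c μ ν (fun n p => width c p.1 p.2 n / a n) LW)
    (hT : CV1 c μ ν (fun n p => a n / n ^ 2 * totalHeight c p.1 p.2 n) LT) (x : ℝ) :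
    LH ≠ Measure.dirac x ∧ LW ≠ Measure.dirac x ∧ LT ≠ Measure.dirac x := by
  have := h0.probμ
  have := h0.probν
  obtain ⟨L, V, V', p, K, x₀, hS⟩ := hQ.2
  have hPr := QW23b_prob h0 c
  refine ⟨?_, ?_, ?_⟩
  · refine nondeg_of_large hne (fun n => (meas_h c n).const_mul _) hPr hH (fun r => ?_) x
    obtain ⟨c₀, hc₀, hc⟩ := HT_large hS hp r
    refine ⟨c₀, hc₀, ?_⟩
    rw [← lq_eq h0 c] at hc
    filter_upwards [hc] with n hn
    refine hn.1.trans (le_of_eq ?_)
    rw [QW23b_cond h0]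
    symm
    refine transferP0 h0 c n _ _
      (measurableSet_le measurable_const ((meas_h c n).const_mul _))
      (measurableSet_le measurable_const ((meas_hb c n).const_mul _)) ?_
    intro p hp h1 h2
    simp only [Set.mem_ofPred_eq]
    rw [(height_eq c p.1 p.2 h1 h2 n hp).1]
  · refine nondeg_of_large hne (fun n => (meas_w c n).div_const _) hPr hW (fun r => ?_) x
    obtain ⟨c₀, hc₀, hc⟩ := MZ_large hS hp (r + 1)
    refine ⟨c₀ / 2, by positivity, ?_⟩
    rw [← lq_eq h0 c] at hc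
    set F : ℝ → ℝ := fun x => min 1 (max 0 (x - r)) with hFdef
    have hF : BL 1 F := by
      constructor
      · intro x
        rw [abs_of_nonneg (le_min zero_le_one (le_max_left _ _))]
        exact min_le_left _ _
      · intro x y
        have h1 : |min 1 (max 0 (x - r)) - min 1 (max 0 (y - r))| ≤
            |max 0 (x - r) - max 0 (y - r)| := by
          have := abs_min_sub_min_le_max 1 (max 0 (x - r)) 1 (max 0 (y - r))
          simpa using this
        have h2 : |max 0 (x - r) - max 0 (y - r)| ≤ |(x - r) - (y - r)| := by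
          have := abs_max_sub_max_le_abs (x - r) (y - r) 0
          simpa [max_comm] using this
        rw [one_mul]
        rw [sub_sub_sub_cancel_right] at h2
        exact h1.trans h2
    filter_upwards [hc, queue_W hS h0 hF (c₀ / 2) (by positivity), hPr] with n h2 h3 h4
    set P := ProbabilityTheory.cond (queueLaw μ ν) (busyEvent c n) with hP
    have i1 : Integrable (fun p : (ℕ → ℝ) × (ℕ → ℝ) => F (width c p.1 p.2 n / a n)) P :=
      integrable_BL _ hF ((meas_w c n).div_const _)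
    have hm : MeasurableSet {p : (ℕ → ℝ) × (ℕ → ℝ) | r ≤ (width c p.1 p.2 n : ℝ) / a n} :=
      measurableSet_le measurable_const ((meas_w c n).div_const _)
    have h5 : ∫ p, F (width c p.1 p.2 n / a n) ∂P ≤
        P.real {p | r ≤ (width c p.1 p.2 n : ℝ) / a n} := by
      rw [← integral_indicator_one hm]
      refine integral_mono i1 ((integrable_const _).indicator hm) fun p => ?_
      by_cases hp : r ≤ (width c p.1 p.2 n : ℝ) / a n
      · rw [Set.indicator_of_mem (show p ∈ {p : (ℕ → ℝ) × (ℕ → ℝ) |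
          r ≤ (width c p.1 p.2 n : ℝ) / a n} from hp)]
        exact min_le_left _ _
      · rw [Set.indicator_of_notMem (show p ∉ {p : (ℕ → ℝ) × (ℕ → ℝ) |
          r ≤ (width c p.1 p.2 n : ℝ) / a n} from hp)]
        simp only [hFdef]
        rw [max_eq_left (by linarith)]
        exact min_le_right _ _
    have h6 : (ProbabilityTheory.cond (PQ μ ν) (EvN (DD' c) n)).real
          {ω | r + 1 ≤ MZ n ω / a n} ≤ EN (DD' c) μ ν n (fun ω => F (MZ n ω / a n)) := by
      have hm2 : MeasurableSet {ω : ℕ → ℝ × ℝ | r + 1 ≤ MZ n ω / a n} :=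
        measurableSet_le measurable_const ((measurable_MZ n).div_const _)
      rw [QW23b_cond h0, ← EN_indicator (dom_DD' c) n _ hm2]
      refine EN_le (dom_DD' c) ((integrable_const _).indicator hm2)
        (integrable_BL _ hF ((measurable_MZ n).div_const _)) fun ω _ => ?_
      by_cases hp : r + 1 ≤ MZ n ω / a n
      · rw [Set.indicator_of_mem (show ω ∈ {ω : ℕ → ℝ × ℝ | r + 1 ≤ MZ n ω / a n} from hp)]
        simp only [hFdef]
        rw [max_eq_right (by linarith), min_eq_left (by linarith)]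
      · rw [Set.indicator_of_notMem
          (show ω ∉ {ω : ℕ → ℝ × ℝ | r + 1 ≤ MZ n ω / a n} from hp)]
        exact le_min zero_le_one (le_max_left _ _)
    rw [abs_le] at h3
    linarith [h3.1]
  · refine nondeg_of_large hne (fun n => (meas_t c n).const_mul _) hPr hT (fun r => ?_) x
    obtain ⟨c₀, hc₀, hc⟩ := HT_large hS hp r
    refine ⟨c₀, hc₀, ?_⟩
    rw [← lq_eq h0 c] at hc
    filter_upwards [hc] with n hn
    refine hn.2.trans (le_of_eq ?_)
    rw [QW23b_cond h0]
    symm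
    refine transferP0 h0 c n _ _
      (measurableSet_le measurable_const ((meas_t c n).const_mul _))
      (measurableSet_le measurable_const
        ((meas_cast_nat.comp (measurable_HB (dom_DD' c) n).2).const_mul _)) ?_
    intro p hp h1 h2
    simp only [Set.mem_ofPred_eq]
    rw [(height_eq c p.1 p.2 h1 h2 n hp).2.1]


end Pool.Agent.BPT
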