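import Pool.Agent.MP_99a865_pr.ST.QW22
import Pool.Agent.MP_99a865_pr.ST.QW23
import Pool.Agent.MP_99a865_pr.ST.QW24
import Pool.Agent.MP_99a865_pr.ST.QW25a

/-! **[STB-QW25b]** The limit theorem for queues whose walk satisfies `QC Φ`. -/

open MeasureTheory ProbabilityTheory Filter Topology
open scoped ENNReal NNReal

namespace Pool.Agent.BPT

/-- bounded Lipschitz functions as bounded continuous functions -/
theorem QW25b_bcf {F : ℝ → ℝ} (hF : BL 1 F) : ∃ f : BoundedContinuousFunction ℝ ℝ, ∀ x, f x = F x :=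
  ⟨BoundedContinuousFunction.ofNormedAddCommGroup F hF.continuous 1 (fun x => by
    rw [Real.norm_eq_abs]; exact hF.bd x), fun x => rfl⟩

/-- PROOF. For `BL 1` functions `F`: `EN F(a n/n HB) → ∫ F ∂LH` (`queue_HT`, `lq_eq`, `hH` with `F` as a bounded continuous function), so `HT_id` gives the hypothesis of `EP.id_int`; the same for
the total height; for the width `queue_W` gives `EN F(MZ/a n) → ∫ F ∂LW`, then `MZ_id` and `EP.id_sup`. -/
theorem queue_id (Φ : List (ℝ × (ℝ → ℝ)) → ℝ) {c : Bool} {μ ν : Measure ℝ} {a : ℕ → ℝ}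
    (h0 : Hyp0 μ ν) (hQ : QC Φ (DD' c) μ ν a) (hne : (lq c μ ν).NeBot)
    {LH LW LT : Measure ℝ} (h1 : IsProbabilityMeasure LH) (h2 : IsProbabilityMeasure LW)
    (h3 : IsProbabilityMeasure LT) (hH : CV1 c μ ν (fun n p => a n / n * height c p.1 p.2 n) LH)
    (hW : CV1 c μ ν (fun n p => width c p.1 p.2 n / a n) LW)
    (hT : CV1 c μ ν (fun n p => a n / n ^ 2 * totalHeight c p.1 p.2 n) LT)
    {Ω : Type} [MeasurableSpace Ω] {P : Measure Ω} {e : ℝ → Ω → ℝ} (he : EP Φ P e) :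
    IdL P e LH LW LT := by
  have := h0.probμ
  have := h0.probν
  have hne' : (lQ (DD' c) μ ν).NeBot := by rw [← lq_eq h0 c]; exact hne
  have hHF : ∀ F : ℝ → ℝ, BL 1 F → Tendsto (fun n => EN (DD' c) μ ν n
      fun ω => F (a n / n * HB (DD' c) n ω)) (lQ (DD' c) μ ν) (𝓝 (∫ x, F x ∂LH)) := by
    intro F hF
    obtain ⟨f, hf⟩ := QW25b_bcf hF
    have h4 := hH f
    simp only [hf] at h4
    rw [lq_eq h0 c] at h4
    exact h4.congr fun n => (queue_HT h0 c n (a n / n) hF.measurable).1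
  have hTF : ∀ F : ℝ → ℝ, BL 1 F → Tendsto (fun n => EN (DD' c) μ ν n
      fun ω => F (a n / n ^ 2 * TB (DD' c) n ω)) (lQ (DD' c) μ ν) (𝓝 (∫ x, F x ∂LT)) := by
    intro F hF
    obtain ⟨f, hf⟩ := QW25b_bcf hF
    have h4 := hT f
    simp only [hf] at h4
    rw [lq_eq h0 c] at h4
    exact h4.congr fun n => (queue_HT h0 c n (a n / n ^ 2) hF.measurable).2
  have hWF : ∀ F : ℝ → ℝ, BL 1 F → Tendsto (fun n => EN (DD' c) μ ν n
      fun ω => F (MZ n ω / a n)) (lQ (DD' c) μ ν) (𝓝 (∫ x, F x ∂LW)) := by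
    intro F hF
    obtain ⟨f, hf⟩ := QW25b_bcf hF
    have h4 := hW f
    simp only [hf] at h4
    obtain ⟨L, V, V', p, K, x₀, hS⟩ := hQ.2
    rw [← lq_eq h0 c]
    rw [Metric.tendsto_nhds] at h4 ⊢
    intro ε hε
    filter_upwards [h4 (ε / 2) (by positivity), queue_W hS h0 hF (ε / 2) (by positivity)]
      with n h5 h6
    rw [Real.dist_eq] at h5 ⊢
    rw [abs_sub_comm] at h6
    calc _ ≤ _ := abs_sub_le _ (∫ p, F (width c p.1 p.2 n / a n)
          ∂(ProbabilityTheory.cond (queueLaw μ ν) (busyEvent c n))) _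
      _ < ε := by linarith
  have r1 := he.id_int (fun _ => 1) (Or.inl rfl) LH h1 fun F hF τ hτ => by
    obtain ⟨η₀, hη₀, h4⟩ := HT_id hQ hne' hF (hHF F hF) (hTF F hF) he τ hτ
    exact ⟨η₀, hη₀, fun η h5 h6 => (h4 η h5 h6).1⟩
  have r2 := he.id_int (fun t => 1 - t) (Or.inr rfl) LT h3 fun F hF τ hτ => by
    obtain ⟨η₀, hη₀, h4⟩ := HT_id hQ hne' hF (hHF F hF) (hTF F hF) he τ hτ
    exact ⟨η₀, hη₀, fun η h5 h6 => (h4 η h5 h6).2⟩
  have r3 := he.id_sup LW h2 fun F hF => MZ_id hQ hne' hF (hWF F hF) he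
  exact ⟨r1.1, r1.2, r3.1, r3.2, r2.1, r2.2⟩


/-- PROOF. `H_law`, `W_law`, `T_law`, `queue_nondeg`, `queue_id`. -/
theorem queue_main (Φ : List (ℝ × (ℝ → ℝ)) → ℝ) : ∃ LH LW LT : Measure ℝ,
    IsProbabilityMeasure LH ∧ IsProbabilityMeasure LW ∧ IsProbabilityMeasure LT ∧
    ∀ (c : Bool) (μ ν : Measure ℝ) (a : ℕ → ℝ), Hyp0 μ ν → QC Φ (DD' c) μ ν a →
      CV1 c μ ν (fun n p => a n / n * height c p.1 p.2 n) LH ∧
      CV1 c μ ν (fun n p => width c p.1 p.2 n / a n) LW ∧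
      CV1 c μ ν (fun n p => a n / n ^ 2 * totalHeight c p.1 p.2 n) LT ∧
      ((lq c μ ν).NeBot → (QP (DD' c) μ ν a →
          ∀ x, LH ≠ Measure.dirac x ∧ LW ≠ Measure.dirac x ∧ LT ≠ Measure.dirac x) ∧
        ∀ (Ω : Type) (mΩ : MeasurableSpace Ω) (P : Measure Ω) (e : ℝ → Ω → ℝ), EP Φ P e →
          IdL P e LH LW LT) := by
  obtain ⟨LH, h1, hH⟩ := H_law Φ
  obtain ⟨LW, h2, hW⟩ := W_law Φ
  obtain ⟨LT, h3, hT⟩ := T_law Φ
  refine ⟨LH, LW, LT, h1, h2, h3, fun c μ ν a h0 hQ => ?_⟩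
  have hH' : CV1 c μ ν (fun n p => a n / n * height c p.1 p.2 n) LH := hH c μ ν a h0 hQ
  have hW' : CV1 c μ ν (fun n p => width c p.1 p.2 n / a n) LW := hW c μ ν a h0 hQ
  have hT' : CV1 c μ ν (fun n p => a n / n ^ 2 * totalHeight c p.1 p.2 n) LT := hT c μ ν a h0 hQ
  refine ⟨hH', hW', hT', fun hne => ⟨fun hp x => ?_, fun Ω mΩ P e he => ?_⟩⟩
  · exact queue_nondeg Φ h0 hQ hp hne hH' hW' hT' x
  · exact queue_id Φ h0 hQ hne h1 h2 h3 hH' hW' hT' he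


end Pool.Agent.BPT
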