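import Pool.Agent.MP_99a865_pr.ST.QD
import Pool.Agent.MP_99a865_pr.ST.F2

/-! **[STB-U2]** The finite-dimensional distributions in the form used by the queue block. -/

open MeasureTheory ProbabilityTheory Filter Topology
open scoped ENNReal NNReal

namespace Pool.Agent.BPT

variable {α : ℝ} {ζ μ ν : Measure ℝ} {a : ℕ → ℝ} {D : Set ℝ}

/-- the grid times -/
noncomputable def U2_tau (k j : ℕ) : ℝ := ((j : ℝ) + 1) / k

lemma U2_tts (k : ℕ) (f : ℕ → ℝ → ℝ) :
    tts (U2_tau k) (fun j => f (j + 1)) (k - 1) = gl k f := by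
  unfold tts gl
  refine List.map_congr_left fun j _ => ?_
  refine Prod.ext ?_ rfl
  change U2_tau k j - (if j = 0 then 0 else U2_tau k (j - 1)) = 1 / k
  unfold U2_tau
  by_cases hj : j = 0
  · subst hj
    simp
  · rw [if_neg hj]
    have h1 : ((j - 1 : ℕ) : ℝ) = (j : ℝ) - 1 := by
      rw [Nat.cast_sub (Nat.one_le_iff_ne_zero.2 hj)]
      simp
    rw [h1]
    ring

/-- the finite dimensional distributions along the grid -/
theorem Fdd_of_DA (hD : Dom D) (hQ : QI μ ν) (h : DA α ζ (stepLaw μ ν 1) a) (x₀ : ℝ) :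
    Fdd (exc α ζ) D μ ν (fun n => max (a n) x₀) := by
  intro k hk f hf
  obtain ⟨M, hM, hfM⟩ := hf
  have hk0 : (0 : ℝ) < k := by
    have : 0 < k := by omega
    exact_mod_cast this
  have hF := fddQ hD hQ h (k - 1) (by omega) (U2_tau k)
    (by unfold U2_tau; positivity)
    (fun i j hij _ => by
      unfold U2_tau
      have : (i : ℝ) < j := by exact_mod_cast hij
      exact (div_lt_div_iff_of_pos_right hk0).2 (by linarith))
    (by
      unfold U2_tau
      rw [div_lt_one hk0]
      have h1 : ((k - 1 - 1 : ℕ) : ℝ) = (k : ℝ) - 2 := by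
        rw [Nat.sub_sub, Nat.cast_sub hk]
        norm_num
      rw [h1]
      linarith) hM (fun j => f (j + 1)) (fun j => hfM _)
  rw [U2_tts] at hF
  rw [Metric.tendsto_nhds]
  intro ε hε
  obtain ⟨n₀, hn₀⟩ := hF (ε / 2) (half_pos hε)
  unfold lQ
  rw [eventually_inf_principal]
  filter_upwards [eventually_ge_atTop n₀, h.top.eventually (eventually_ge_atTop x₀)] with n h1 h2 h3
  have h4 := hn₀ n h1 h3
  have e : (fun ω => ∏ j ∈ Finset.Ico 1 k, f j (Zw (gg k n j) ω / max (a n) x₀)) =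
      fun ω => ∏ j ∈ Finset.range (k - 1), f (j + 1) (Zw ⌊U2_tau k j * n⌋₊ ω / a n) := by
    funext ω
    rw [Finset.prod_Ico_eq_prod_range, max_eq_left h2]
    refine Finset.prod_congr rfl fun j _ => ?_
    have e1 : gg k n (1 + j) = ⌊U2_tau k j * n⌋₊ := by
      unfold gg U2_tau
      push_cast
      rw [add_comm (1 : ℝ)]
    rw [e1, add_comm 1 j]
  rw [Real.dist_eq, e]
  linarith

end Pool.Agent.BPT
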