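import Pool.Agent.MP_99a865_pr.ST.Z2b

/-! **[STB-Z2c]** The density is positive everywhere. -/

open MeasureTheory ProbabilityTheory Filter Topology
open scoped ENNReal NNReal

namespace Pool.Agent.BPT

variable {α : ℝ} {ζ ρ : Measure ℝ} {a : ℕ → ℝ}

/-- a set of positive measure contains a point where the density is positive -/
private lemma Z2c_pt (h : SS α ζ) (hα : 1 < α) (A : Set ℝ) (hA : MeasurableSet A) (h1 : ζ A ≠ 0) :
    ∃ x ∈ A, 0 < dens ζ x := by
  by_contra hcon
  push Not at hcon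
  apply h1
  rw [h.withDensity hα, withDensity_apply _ hA]
  rw [setLIntegral_congr_fun hA (g := fun _ => 0)]
  · simp
  · intro x hx
    exact ENNReal.ofReal_eq_zero.2 (hcon x hx)

/-- around a point where the density is positive there is an interval -/
private lemma Z2c_ball (h : SS α ζ) (hα : 1 < α) (x : ℝ) (hx : 0 < dens ζ x) :
    ∃ r > (0 : ℝ), ∀ y, |y - x| ≤ r → 0 < dens ζ y := by
  have hev : ∀ᶠ y in 𝓝 x, 0 < dens ζ y :=
    (h.dens_cont hα).continuousAt.eventually (lt_mem_nhds hx)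
  obtain ⟨r, hr, hr2⟩ := Metric.eventually_nhds_iff.1 hev
  refine ⟨r / 2, by linarith, fun y hy => hr2 ?_⟩
  rw [Real.dist_eq]
  linarith

/-- the intervals of the sums of `i` elements of `[p, q]` and `m - i` elements of `[-q', -p']`
cover `[-m q', m q]` -/
private lemma Z2c_cover (p q p' q' : ℝ) (hp : 0 < p) (hpq : p < q) (hp' : 0 < p')
    (hpq' : p' < q') (m : ℕ) (hm1 : p + q' ≤ m * (q - p)) (hm2 : p + q' ≤ m * (q' - p')) (y : ℝ)
    (hy1 : -(m * q') ≤ y) (hy2 : y ≤ m * q) :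
    ∃ i : ℕ, i ≤ m ∧ i * p - (m - i) * q' ≤ y ∧ y ≤ i * q - (m - i) * p' := by
  obtain ⟨i0, hi0⟩ : ∃ i0 : ℕ, i0 = ⌊(y + m * q') / (p + q')⌋₊ := ⟨_, rfl⟩
  have hpq0 : 0 < p + q' := by linarith
  have hnn : 0 ≤ (y + m * q') / (p + q') := by
    apply div_nonneg <;> linarith
  have h1 : (i0 : ℝ) * (p + q') ≤ y + m * q' := by
    have := Nat.floor_le hnn
    rw [← hi0, le_div_iff₀ hpq0] at this
    exact this
  have h2 : y + m * q' < (i0 + 1 : ℝ) * (p + q') := by
    have := Nat.lt_floor_add_one ((y + m * q') / (p + q'))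
    rw [← hi0, div_lt_iff₀ hpq0] at this
    exact this
  by_cases hi : i0 ≤ m
  · refine ⟨i0, hi, by linarith, ?_⟩
    have hi' : (i0 : ℝ) ≤ m := by exact_mod_cast hi
    have hi0' : (0 : ℝ) ≤ i0 := Nat.cast_nonneg _
    have key : p + q' ≤ i0 * (q - p) + (m - i0) * (q' - p') := by
      rcases le_total (q - p) (q' - p') with hle | hle
      · nlinarith
      · nlinarith
    nlinarith
  · refine ⟨m, le_rfl, ?_, by linarith⟩
    have hi' : (m : ℝ) ≤ i0 := by
      have : m ≤ i0 := by omega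
      exact_mod_cast this
    have := mul_le_mul_of_nonneg_right hi' hpq0.le
    nlinarith

/-- **[STB-Z2c]** The density is positive everywhere. PROOF. `{dens ζ > 0}` is open and meets both half-lines, so it contains
`(p, q)` with `0 < p < q` and `(-q', -p')` with `0 < p' < q'`. Sums of `i` elements of the first interval and `m - i` elements
of the second fill the interval `I_i = (i p - (m-i) q', i q - (m-i) p')`; its length is at least `m λ`,
`λ = min (q-p) (q'-p')`, and consecutive left end points differ by `p + q'`, so for `m λ > p + q'` the union over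
`0 ≤ i ≤ m` is `(-m q', m q)`. As `α > 1`, `m^{1/α} |x| < m min q q'` for `m` large. Hence `m^{1/α} x` is such a sum and
`dens ζ x > 0` by `Z2_sum`. -/
theorem Z2_pos (h : SS α ζ) (hα : 1 < α) (h1 : ζ (Set.Ioi 0) ≠ 0) (h2 : ζ (Set.Iio 0) ≠ 0) (x : ℝ) :
    0 < dens ζ x := by
  obtain ⟨z, hz0, hz⟩ := Z2c_pt h hα _ measurableSet_Ioi h1
  obtain ⟨z', hz0', hz'⟩ := Z2c_pt h hα _ measurableSet_Iio h2
  rw [Set.mem_Ioi] at hz0
  rw [Set.mem_Iio] at hz0'
  obtain ⟨r, hr, hr2⟩ := Z2c_ball h hα z hz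
  obtain ⟨r', hr', hr2'⟩ := Z2c_ball h hα z' hz'
  -- the intervals
  obtain ⟨p, q, hp, hpq, hpos⟩ : ∃ p q : ℝ, 0 < p ∧ p < q ∧ ∀ y, p ≤ y → y ≤ q → 0 < dens ζ y := by
    refine ⟨z, z + r, hz0, by linarith, fun y hy1 hy2 => hr2 y ?_⟩
    rw [abs_le]
    constructor <;> linarith
  obtain ⟨p', q', hp', hpq', hpos'⟩ : ∃ p' q' : ℝ, 0 < p' ∧ p' < q' ∧
      ∀ y, p' ≤ y → y ≤ q' → 0 < dens ζ (-y) := by
    refine ⟨-z', -z' + r', by linarith, by linarith, fun y hy1 hy2 => hr2' (-y) ?_⟩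
    rw [abs_le]
    constructor <;> linarith
  -- the number of summands
  have hexp : 0 < 1 - 1 / α := by
    have h3 : 1 / α < 1 := (div_lt_one (by linarith)).2 hα
    linarith
  have ht1 : Tendsto (fun m : ℕ => (m : ℝ) ^ (1 - 1 / α)) atTop atTop :=
    (tendsto_rpow_atTop hexp).comp tendsto_natCast_atTop_atTop
  have ht2 : Tendsto (fun m : ℕ => (m : ℝ)) atTop atTop := tendsto_natCast_atTop_atTop
  obtain ⟨m, hm1, hm2, hm3, hm4, hm5⟩ := ((eventually_ge_atTop 1).and
    ((ht2.eventually_ge_atTop ((p + q') / (q - p))).and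
    ((ht2.eventually_ge_atTop ((p + q') / (q' - p'))).and
    ((ht1.eventually_ge_atTop (|x| / q)).and (ht1.eventually_ge_atTop (|x| / q')))))).exists
  have hm0 : (0 : ℝ) < m := by exact_mod_cast (show 0 < m by omega)
  rw [div_le_iff₀ (by linarith)] at hm2 hm3 hm4 hm5
  have hmα : (0 : ℝ) < (m : ℝ) ^ (1 / α) := Real.rpow_pos_of_pos hm0 _
  have hmm : (m : ℝ) ^ (1 / α) * (m : ℝ) ^ (1 - 1 / α) = m := by
    rw [← Real.rpow_add hm0]
    simp
  have hy : ∀ c : ℝ, |x| ≤ (m : ℝ) ^ (1 - 1 / α) * c → |(m : ℝ) ^ (1 / α) * x| ≤ m * c := by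
    intro c hc
    rw [abs_mul, abs_of_pos hmα]
    calc (m : ℝ) ^ (1 / α) * |x| ≤ (m : ℝ) ^ (1 / α) * ((m : ℝ) ^ (1 - 1 / α) * c) :=
          mul_le_mul_of_nonneg_left hc hmα.le
      _ = m * c := by rw [← mul_assoc, hmm]
  obtain ⟨y, hydef⟩ : ∃ y, y = (m : ℝ) ^ (1 / α) * x := ⟨_, rfl⟩
  have hyq := hy q hm4
  have hyq' := hy q' hm5
  rw [← hydef] at hyq hyq'
  obtain ⟨i, him, hlo, hhi⟩ := Z2c_cover p q p' q' hp hpq hp' hpq' m hm2 hm3 y
    (abs_le.1 hyq').1 (abs_le.1 hyq).2
  have him' : (i : ℝ) ≤ m := by exact_mod_cast him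
  have hi0 : (0 : ℝ) ≤ i := Nat.cast_nonneg _
  -- the parameter
  have hlen : 0 < i * (q - p) + (m - i) * (q' - p') := by
    rcases eq_or_lt_of_le hi0 with h0 | h0
    · rw [← h0]
      have : 0 < (m : ℝ) * (q' - p') := mul_pos hm0 (by linarith)
      linarith
    · have h3 : 0 < i * (q - p) := mul_pos h0 (by linarith)
      have h4 : 0 ≤ (m - i) * (q' - p') := mul_nonneg (by linarith) (by linarith)
      linarith
  obtain ⟨l, hl⟩ : ∃ l, l = (y - (i * p - (m - i) * q')) / (i * (q - p) + (m - i) * (q' - p')) :=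
    ⟨_, rfl⟩
  have hl0 : 0 ≤ l := by
    rw [hl]
    exact div_nonneg (by linarith) hlen.le
  have hl1 : l ≤ 1 := by
    rw [hl, div_le_one hlen]
    linarith
  have hly : y = i * (p + l * (q - p)) + (m - i) * (-(q' - l * (q' - p'))) := by
    have h3 : l * (i * (q - p) + (m - i) * (q' - p')) = y - (i * p - (m - i) * q') := by
      rw [hl]
      exact div_mul_cancel₀ _ hlen.ne'
    linarith
  have hsum := Z2_sum h hα m hm1 (fun j => if j < i then p + l * (q - p) else -(q' - l * (q' - p')))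
    (by
      intro j _
      show 0 < dens ζ (if j < i then p + l * (q - p) else -(q' - l * (q' - p')))
      split_ifs
      · apply hpos
        · nlinarith
        · nlinarith
      · apply hpos'
        · nlinarith
        · nlinarith)
  have hS : ∑ j ∈ Finset.range m,
      (if j < i then p + l * (q - p) else -(q' - l * (q' - p'))) = y := by
    rw [← Finset.sum_range_add_sum_Ico _ him]
    rw [Finset.sum_congr rfl (g := fun _ => p + l * (q - p))
      (fun j hj => if_pos (Finset.mem_range.1 hj))]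
    rw [Finset.sum_congr rfl (g := fun _ => -(q' - l * (q' - p')))
      (fun j hj => if_neg (by have := Finset.mem_Ico.1 hj; omega))]
    rw [Finset.sum_const, Finset.sum_const, Finset.card_range, Nat.card_Ico, nsmul_eq_mul,
      nsmul_eq_mul, Nat.cast_sub him]
    linarith
  have h5 : (∑ j ∈ Finset.range m,
      (if j < i then p + l * (q - p) else -(q' - l * (q' - p')))) / (m : ℝ) ^ (1 / α) = x := by
    rw [hS, hydef, mul_comm, mul_div_assoc, div_self hmα.ne', mul_one]
  rw [h5] at hsum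
  exact hsum

end Pool.Agent.BPT
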