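import Pool.Agent.MP_99a865_pr.ST.Z2a
import Pool.Agent.MP_99a865_pr.ST.Z2c

open MeasureTheory ProbabilityTheory Filter Topology

namespace Pool.Agent.BPT

/-- the density of `ζ` is positive everywhere if `ζ` has a domain of attraction as in `DA` -/
theorem DA.dens_pos {α : ℝ} {ζ ρ : Measure ℝ} {a : ℕ → ℝ} (h : DA α ζ ρ a) (x : ℝ) : 0 < dens ζ x := by
  obtain ⟨p, h1, C, hp⟩ := h.upper
  have h2 := Z2_both h h1 hp
  exact Z2_pos h.ss h.one h2.1 h2.2 x

end Pool.Agent.BPT
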