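import Pool.Agent.MP_99a865_pr.ST.QD
import Pool.Agent.MP_99a865_pr.ST.F2
import Pool.Agent.MP_99a865_pr.ST.Z3

/-! **[STB-U3]** Positivity facts for the queue block. -/

open MeasureTheory ProbabilityTheory Filter Topology
open scoped ENNReal NNReal

namespace Pool.Agent.BPT

variable {α : ℝ} {ζ μ ν : Measure ℝ} {a : ℕ → ℝ} {D : Set ℝ}

/-- the law of the walk -/
lemma U3_law (hQ : QI μ ν) (w : ℕ) {A : Set ℝ} (hA : MeasurableSet A) :
    (PQ μ ν).real {ω | Zw w ω ∈ A} = (fre (stepLaw μ ν 1) w 0).real A := by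
  have h1 := hQ.probμ
  have h2 := hQ.probν
  unfold fre
  rw [← map_steps_gen (μ := μ) (ν := ν) 1, Measure.map_map (A1_meas_add w 0) measurable_steps,
    map_measureReal_apply ((A1_meas_add w 0).comp measurable_steps) hA]
  congr 1
  ext ω
  simp only [Set.mem_preimage, Function.comp_apply, zero_add, Q1_S]
  rfl

/-- the test function: continuous, `0` below `e`, `1` above `2e` -/
noncomputable def U3_f (e : ℝ) : BoundedContinuousFunction ℝ ℝ :=
  BoundedContinuousFunction.ofNormedAddCommGroup (fun y => max 0 (min 1 (y / e - 1))) (by fun_prop) 1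
    (fun y => by
      rw [Real.norm_eq_abs, abs_of_nonneg (le_max_left _ _)]
      exact max_le zero_le_one (min_le_left _ _))

lemma U3_f_apply (e y : ℝ) : U3_f e y = max 0 (min 1 (y / e - 1)) := rfl

lemma U3_f_nonneg (e y : ℝ) : 0 ≤ U3_f e y := le_max_left _ _

lemma U3_f_le {e : ℝ} (he : 0 < e) (y : ℝ) : U3_f e y ≤ (Set.Ici e).indicator (fun _ => (1 : ℝ)) y := by
  by_cases hy : y ∈ Set.Ici e
  · rw [Set.indicator_of_mem hy, U3_f_apply]
    exact max_le zero_le_one (min_le_left _ _)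
  · rw [Set.indicator_of_notMem hy, U3_f_apply]
    have h1 : y / e ≤ 1 := (div_le_one he).2 (le_of_lt (not_le.1 hy))
    exact max_le le_rfl ((min_le_right _ _).trans (by linarith))

lemma U3_f_one {e : ℝ} (he : 0 < e) {y : ℝ} (hy : 2 * e ≤ y) : U3_f e y = 1 := by
  rw [U3_f_apply]
  have h1 : 2 ≤ y / e := by rw [le_div_iff₀ he]; exact hy
  rw [min_eq_left (by linarith)]
  exact max_eq_right zero_le_one

/-- a law in the domain of attraction of `ζ` charges the scale on the right -/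
lemma U3_right {ρ ζ : Measure ℝ} {a : ℕ → ℝ} [IsProbabilityMeasure ζ] [IsProbabilityMeasure ρ]
    (ha : ∀ n, 0 < a n)
    (hw : ∀ f : BoundedContinuousFunction ℝ ℝ,
      Tendsto (fun n : ℕ => ∫ y, f (y / a n) ∂(fre ρ n 0)) atTop (𝓝 (∫ y, f y ∂ζ)))
    (hζ : ζ (Set.Ioi 0) ≠ 0) : ∃ c > (0 : ℝ), ∃ e > (0 : ℝ), ∀ᶠ w : ℕ in atTop,
      c ≤ (fre ρ w 0).real (Set.Ici (e * a w)) := by
  have hex : ∃ k : ℕ, ζ (Set.Ioi (2 * (1 / ((k : ℝ) + 1)))) ≠ 0 := by
    by_contra hcon
    push Not at hcon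
    have h1 : Set.Ioi (0 : ℝ) = ⋃ k : ℕ, Set.Ioi (2 * (1 / ((k : ℝ) + 1))) := by
      ext y
      rw [Set.mem_iUnion]
      constructor
      · intro hy
        have hy0 : (0 : ℝ) < y := hy
        obtain ⟨k, hk⟩ := exists_nat_gt (2 / y)
        refine ⟨k, ?_⟩
        change 2 * (1 / ((k : ℝ) + 1)) < y
        rw [div_lt_iff₀ hy0] at hk
        have hk1 : (0 : ℝ) < (k : ℝ) + 1 := by positivity
        rw [mul_one_div, div_lt_iff₀ hk1]
        nlinarith
      · rintro ⟨k, hk⟩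
        have : (0 : ℝ) < 2 * (1 / ((k : ℝ) + 1)) := by positivity
        exact lt_trans this hk
    rw [h1] at hζ
    exact hζ (measure_iUnion_null hcon)
  obtain ⟨k, hk⟩ := hex
  set e : ℝ := 1 / ((k : ℝ) + 1) with he
  have he0 : 0 < e := by positivity
  have hpos : 0 < ∫ y, U3_f e y ∂ζ := by
    have h1 : ζ.real (Set.Ioi (2 * e)) ≤ ∫ y, U3_f e y ∂ζ := by
      have h2 : ∫ y, (Set.Ioi (2 * e)).indicator (fun _ => (1 : ℝ)) y ∂ζ = ζ.real (Set.Ioi (2 * e)) := by
        rw [integral_indicator_const _ measurableSet_Ioi]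
        simp
      rw [← h2]
      refine integral_mono ((integrable_const _).indicator measurableSet_Ioi) ((U3_f e).integrable _)
        fun y => ?_
      by_cases hy : y ∈ Set.Ioi (2 * e)
      · rw [Set.indicator_of_mem hy, U3_f_one he0 (le_of_lt hy)]
      · rw [Set.indicator_of_notMem hy]
        exact U3_f_nonneg e y
    refine lt_of_lt_of_le ?_ h1
    rw [measureReal_def]
    exact ENNReal.toReal_pos hk (measure_ne_top _ _)
  refine ⟨(∫ y, U3_f e y ∂ζ) / 2, half_pos hpos, e, he0, ?_⟩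
  filter_upwards [(hw (U3_f e)).eventually (eventually_gt_nhds (half_lt_self hpos))] with w hw'
  refine hw'.le.trans ?_
  have hpf : IsProbabilityMeasure (fre ρ w 0) := by
    unfold fre
    have : IsProbabilityMeasure (seqLaw ρ) := by unfold seqLaw; infer_instance
    exact Measure.isProbabilityMeasure_map (A1_meas_add w 0).aemeasurable
  have haw := ha w
  have h3 : ∫ y, (Set.Ici (e * a w)).indicator (fun _ => (1 : ℝ)) y ∂(fre ρ w 0) =
      (fre ρ w 0).real (Set.Ici (e * a w)) := by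
    rw [integral_indicator_const _ measurableSet_Ici]
    simp
  rw [← h3]
  have hint : Integrable (fun y => U3_f e (y / a w)) (fre ρ w 0) := by
    refine Integrable.of_bound ((U3_f e).continuous.comp (continuous_id.div_const _)).aestronglyMeasurable 1
      (Eventually.of_forall fun y => ?_)
    rw [Real.norm_eq_abs, abs_of_nonneg (U3_f_nonneg _ _), U3_f_apply]
    exact max_le zero_le_one (min_le_left _ _)
  refine integral_mono hint ((integrable_const _).indicator measurableSet_Ici) fun y => ?_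
  refine (U3_f_le he0 (y / a w)).trans ?_
  by_cases hy : y ∈ Set.Ici (e * a w)
  · rw [Set.indicator_of_mem hy]
    by_cases hy2 : y / a w ∈ Set.Ici e
    · rw [Set.indicator_of_mem hy2]
    · rw [Set.indicator_of_notMem hy2]
      exact zero_le_one
  · rw [Set.indicator_of_notMem hy]
    have : y / a w ∉ Set.Ici e := by
      intro h
      exact hy ((le_div_iff₀ haw).1 h)
    rw [Set.indicator_of_notMem this]

/-- the same on the left, with the test function reflected -/
lemma U3_left {ρ ζ : Measure ℝ} {a : ℕ → ℝ} [IsProbabilityMeasure ζ] [IsProbabilityMeasure ρ]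
    (ha : ∀ n, 0 < a n)
    (hw : ∀ f : BoundedContinuousFunction ℝ ℝ,
      Tendsto (fun n : ℕ => ∫ y, f (y / a n) ∂(fre ρ n 0)) atTop (𝓝 (∫ y, f y ∂ζ)))
    (hζ : ζ (Set.Iio 0) ≠ 0) : ∃ c > (0 : ℝ), ∃ e > (0 : ℝ), ∀ᶠ w : ℕ in atTop,
      c ≤ (fre ρ w 0).real (Set.Iic (-(e * a w))) := by
  have hex : ∃ k : ℕ, ζ (Set.Iio (-(2 * (1 / ((k : ℝ) + 1))))) ≠ 0 := by
    by_contra hcon
    push Not at hcon
    have h1 : Set.Iio (0 : ℝ) = ⋃ k : ℕ, Set.Iio (-(2 * (1 / ((k : ℝ) + 1)))) := by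
      ext y
      rw [Set.mem_iUnion]
      constructor
      · intro hy
        have hy0 : (0 : ℝ) < -y := neg_pos.2 hy
        obtain ⟨k, hk⟩ := exists_nat_gt (2 / (-y))
        refine ⟨k, ?_⟩
        change y < -(2 * (1 / ((k : ℝ) + 1)))
        rw [div_lt_iff₀ hy0] at hk
        have hk1 : (0 : ℝ) < (k : ℝ) + 1 := by positivity
        rw [lt_neg, mul_one_div, div_lt_iff₀ hk1]
        nlinarith
      · rintro ⟨k, hk⟩
        have h2 : (0 : ℝ) < 2 * (1 / ((k : ℝ) + 1)) := by positivity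
        have h3 : y < -(2 * (1 / ((k : ℝ) + 1))) := hk
        change y < 0
        linarith
    rw [h1] at hζ
    exact hζ (measure_iUnion_null hcon)
  obtain ⟨k, hk⟩ := hex
  set e : ℝ := 1 / ((k : ℝ) + 1) with he
  have he0 : 0 < e := by positivity
  set g : BoundedContinuousFunction ℝ ℝ := (U3_f e).compContinuous ⟨fun y => -y, continuous_neg⟩ with hg
  have hga : ∀ y, g y = U3_f e (-y) := fun y => rfl
  have hpos : 0 < ∫ y, g y ∂ζ := by
    have h1 : ζ.real (Set.Iio (-(2 * e))) ≤ ∫ y, g y ∂ζ := by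
      have h2 : ∫ y, (Set.Iio (-(2 * e))).indicator (fun _ => (1 : ℝ)) y ∂ζ = ζ.real (Set.Iio (-(2 * e))) := by
        rw [integral_indicator_const _ measurableSet_Iio]
        simp
      rw [← h2]
      refine integral_mono ((integrable_const _).indicator measurableSet_Iio) (g.integrable _)
        fun y => ?_
      by_cases hy : y ∈ Set.Iio (-(2 * e))
      · have h3 : y < -(2 * e) := hy
        rw [Set.indicator_of_mem hy, hga, U3_f_one he0 (by linarith)]
      · rw [Set.indicator_of_notMem hy]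
        exact U3_f_nonneg e _
    refine lt_of_lt_of_le ?_ h1
    rw [measureReal_def]
    exact ENNReal.toReal_pos hk (measure_ne_top _ _)
  refine ⟨(∫ y, g y ∂ζ) / 2, half_pos hpos, e, he0, ?_⟩
  filter_upwards [(hw g).eventually (eventually_gt_nhds (half_lt_self hpos))] with w hw'
  refine hw'.le.trans ?_
  have hpf : IsProbabilityMeasure (fre ρ w 0) := by
    unfold fre
    have : IsProbabilityMeasure (seqLaw ρ) := by unfold seqLaw; infer_instance
    exact Measure.isProbabilityMeasure_map (A1_meas_add w 0).aemeasurable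
  have haw := ha w
  have h3 : ∫ y, (Set.Iic (-(e * a w))).indicator (fun _ => (1 : ℝ)) y ∂(fre ρ w 0) =
      (fre ρ w 0).real (Set.Iic (-(e * a w))) := by
    rw [integral_indicator_const _ measurableSet_Iic]
    simp
  rw [← h3]
  have hint : Integrable (fun y => g (y / a w)) (fre ρ w 0) := by
    refine Integrable.of_bound (g.continuous.comp (continuous_id.div_const _)).aestronglyMeasurable 1
      (Eventually.of_forall fun y => ?_)
    rw [Real.norm_eq_abs, hga, abs_of_nonneg (U3_f_nonneg _ _), U3_f_apply]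
    exact max_le zero_le_one (min_le_left _ _)
  refine integral_mono hint ((integrable_const _).indicator measurableSet_Iic) fun y => ?_
  beta_reduce
  rw [hga]
  refine (U3_f_le he0 (-(y / a w))).trans ?_
  by_cases hy : y ∈ Set.Iic (-(e * a w))
  · rw [Set.indicator_of_mem hy]
    by_cases hy2 : -(y / a w) ∈ Set.Ici e
    · rw [Set.indicator_of_mem hy2]
    · rw [Set.indicator_of_notMem hy2]
      exact zero_le_one
  · rw [Set.indicator_of_notMem hy]
    have : -(y / a w) ∉ Set.Ici e := by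
      intro h
      have h4 : e ≤ -(y / a w) := h
      rw [← neg_div, le_div_iff₀ haw] at h4
      exact hy (by change y ≤ -(e * a w); linarith)
    rw [Set.indicator_of_notMem this]

/-- the hitting part -/
lemma U3_hitp (hD : Dom D) (hqi : QI μ ν) (h : DA α ζ (stepLaw μ ν 1) a) :
    ∃ c > (0 : ℝ), ∀ᶠ n in lQ D μ ν, ∀ᵐ z ∂(kap D (stepLaw μ ν 1) (gg 8 n 7) 0),
      a n ≤ z → z ≤ 2 * a n → c / n ≤ hit D (stepLaw μ ν 1) (n - gg 8 n 7) z := by
  by_contra hcon
  push Not at hcon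
  have hp := h.prob
  obtain ⟨b, s, hL⟩ := h.exists_lat
  have hex : ∀ i : ℕ, ∃ n : ℕ, i ≤ n ∧ PQ μ ν (EvN D n) ≠ 0 ∧
      ¬ ∀ᵐ z ∂(kap D (stepLaw μ ν 1) (gg 8 n 7) 0),
        a n ≤ z → z ≤ 2 * a n → (1 / ((i : ℝ) + 1)) / n ≤ hit D (stepLaw μ ν 1) (n - gg 8 n 7) z := by
    intro i
    have h1 := hcon (1 / ((i : ℝ) + 1)) (by positivity)
    have h2 : ∃ᶠ n in lQ D μ ν, ¬ ∀ᵐ z ∂(kap D (stepLaw μ ν 1) (gg 8 n 7) 0),
        a n ≤ z → z ≤ 2 * a n → (1 / ((i : ℝ) + 1)) / n ≤ hit D (stepLaw μ ν 1) (n - gg 8 n 7) z := by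
      first
        | exact h1
        | exact Filter.not_eventually.1 (by simpa using h1)
    unfold lQ at h2
    rw [frequently_inf_principal] at h2
    obtain ⟨n, ⟨h3, h4⟩, h5⟩ := (h2.and_eventually (eventually_ge_atTop i)).exists
    exact ⟨n, h5, h3, h4⟩
  choose n hn1 hn2 hn3 using hex
  have hnt : Tendsto n atTop atTop := tendsto_atTop_mono hn1 tendsto_id
  have hT1 : Tm n (fun j => gg 8 (n j) 7) (((7 : ℕ) : ℝ) / ((8 : ℕ) : ℝ)) :=
    Tm.floor hnt (by positivity)
  have hT0 : Tm n n 1 := by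
    refine ⟨hnt, ?_⟩
    refine tendsto_const_nhds.congr' ?_
    filter_upwards [hnt.eventually (eventually_ge_atTop 1)] with j hj
    have : (n j : ℝ) ≠ 0 := by positivity
    exact (div_self this).symm
  have hgle : ∀ k : ℕ, gg 8 k 7 ≤ k := by
    intro k
    unfold gg
    refine Nat.floor_le_of_le ?_
    have : (0 : ℝ) ≤ k := Nat.cast_nonneg k
    norm_num
    linarith
  have hT : Tm n (fun j => n j - gg 8 (n j) 7) (1 / 8) := by
    have h1 := hT0.sub' hT1 (Eventually.of_forall fun j => hgle _)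
    have h2 : (1 : ℝ) - ((7 : ℕ) : ℝ) / ((8 : ℕ) : ℝ) = 1 / 8 := by norm_num
    rwa [h2] at h1
  have hhit : ∀ j, 0 < hit D (stepLaw μ ν 1) (n j) 0 := by
    intro j
    rw [← PQ_EvN_one hD hqi, measureReal_def]
    have hq1 := hqi.probμ
    have hq2 := hqi.probν
    have : IsProbabilityMeasure (PQ μ ν) := by unfold PQ seqLaw; infer_instance
    exact ENNReal.toReal_pos (hn2 j) (measure_ne_top _ _)
  obtain ⟨κ, ⟨c, hc, C, hκ⟩, hU⟩ := hit_UC h hD hL (t := 1 / 8) (by norm_num) (by norm_num) hT hhit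
  obtain ⟨M, hM, hB⟩ := hQ_BCo h (t := 1 / 8) (by norm_num)
  -- minimum on `[1,2]`
  obtain ⟨y₀, hy₀, hmin⟩ := isCompact_Icc.exists_isMinOn (Set.nonempty_Icc.2 (by norm_num : (1 : ℝ) ≤ 2))
    (hB.cont.mono (fun y hy => lt_of_lt_of_le one_pos hy.1))
  have hq : 0 < hQ α ζ (1 / 8) y₀ := hQ_pos h (by norm_num) (lt_of_lt_of_le one_pos hy₀.1)
  set q : ℝ := hQ α ζ (1 / 8) y₀ with hqdef
  have hqmin : ∀ y, 1 ≤ y → y ≤ 2 → q ≤ hQ α ζ (1 / 8) y := fun y h1 h2 => hmin ⟨h1, h2⟩
  have hU' := hU (1 / 2) (by norm_num) (q / 2) (half_pos hq)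
  have hci : ∀ᶠ j : ℕ in atTop, 1 / ((j : ℝ) + 1) ≤ c * (q / 2) := by
    have h1 : Tendsto (fun j : ℕ => 1 / ((j : ℝ) + 1)) atTop (𝓝 0) := tendsto_one_div_add_atTop_nhds_zero_nat
    filter_upwards [h1.eventually (gt_mem_nhds (by positivity : 0 < c * (q / 2)))] with j hj
    exact le_of_lt hj
  obtain ⟨j, h1, h2, h3, h4⟩ := (hU'.and (hκ.and (hci.and (eventually_ge_atTop 1)))).exists
  refine hn3 j ?_
  have han := h.pos (n j)
  have hnj : (0 : ℝ) < n j := by
    have : 1 ≤ n j := h4.trans (hn1 j)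
    exact_mod_cast this
  filter_upwards [ae_kap hD b s hL.step (gg 8 (n j) 7) 0] with z hz hz1 hz2
  have e1 : ((n j : ℝ) - ((n j - gg 8 (n j) 7 : ℕ) : ℝ)) * b = 0 + (gg 8 (n j) 7 : ℕ) * b := by
    rw [Nat.cast_sub (hgle _)]
    ring
  beta_reduce at h1
  have h5 := h1 z (by rw [e1]; exact hz) (by linarith) (by linarith)
  have hza : 1 ≤ z / a (n j) := by rw [le_div_iff₀ han]; linarith
  have hza2 : z / a (n j) ≤ 2 := by rw [div_le_iff₀ han]; linarith
  have h6 := hqmin _ hza hza2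
  have h7 := (abs_le.1 h5).1
  have hκ0 : 0 < κ j := lt_of_lt_of_le hc h2.1
  have h8 : q / 2 ≤ n j * hit D (stepLaw μ ν 1) (n j - gg 8 (n j) 7) z / κ j := by linarith
  rw [le_div_iff₀ hκ0] at h8
  rw [div_le_iff₀ hnj]
  have h9 : c * (q / 2) ≤ q / 2 * κ j := by
    rw [mul_comm]
    exact mul_le_mul_of_nonneg_left h2.1 (half_pos hq).le
  linarith

/-- Positivity facts for the queue block. -/
theorem QP_of_DA (hD : Dom D) (hQ : QI μ ν) (h : DA α ζ (stepLaw μ ν 1) a) (x₀ : ℝ) :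
    QP D μ ν (fun n => max (a n) x₀) := by
  have hp := h.prob
  have hζ := h.ss.prob
  have htop : ∀ᶠ n : ℕ in atTop, max (a n) x₀ = a n := by
    filter_upwards [h.top.eventually (eventually_ge_atTop x₀)] with n hn
    exact max_eq_left hn
  obtain ⟨p, hp1, C, hpC⟩ := h.upper
  obtain ⟨hz1, hz2⟩ := Z2_both h hp1 hpC
  refine ⟨?_, ?_⟩
  · obtain ⟨c₁, hc₁, e₁, he₁, hr⟩ := U3_right h.pos (fun f => h.weak f) hz1
    obtain ⟨c₂, hc₂, e₂, he₂, hl⟩ := U3_left h.pos (fun f => h.weak f) hz2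
    have hfin : ∀ w, IsProbabilityMeasure (fre (stepLaw μ ν 1) w 0) := by
      intro w
      unfold fre
      have : IsProbabilityMeasure (seqLaw (stepLaw μ ν 1)) := by unfold seqLaw; infer_instance
      exact Measure.isProbabilityMeasure_map (A1_meas_add w 0).aemeasurable
    refine ⟨min c₁ c₂, lt_min hc₁ hc₂, min e₁ e₂, lt_min he₁ he₂, ?_⟩
    filter_upwards [hr, hl, htop] with w h1 h2 h3
    rw [h3]
    have haw := h.pos w
    have := hfin w
    constructor
    · have h4 := U3_law hQ w (A := Set.Ici (min e₁ e₂ * a w)) measurableSet_Ici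
      have h5 : (PQ μ ν).real {ω | min e₁ e₂ * a w ≤ Zw w ω} =
          (fre (stepLaw μ ν 1) w 0).real (Set.Ici (min e₁ e₂ * a w)) := h4
      rw [h5]
      refine (min_le_left _ _).trans (h1.trans ?_)
      exact measureReal_mono (Set.Ici_subset_Ici.2
        (mul_le_mul_of_nonneg_right (min_le_left _ _) haw.le))
    · have h4 := U3_law hQ w (A := Set.Iic (-(min e₁ e₂ * a w))) measurableSet_Iic
      have h5 : (PQ μ ν).real {ω | Zw w ω ≤ -(min e₁ e₂ * a w)} =
          (fre (stepLaw μ ν 1) w 0).real (Set.Iic (-(min e₁ e₂ * a w))) := h4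
      rw [h5]
      refine (min_le_right _ _).trans (h2.trans ?_)
      exact measureReal_mono (Set.Iic_subset_Iic.2
        (neg_le_neg (mul_le_mul_of_nonneg_right (min_le_right _ _) haw.le)))
  · obtain ⟨c, hc, hh⟩ := U3_hitp hD hQ h
    refine ⟨c, hc, 1, 2, one_pos, by norm_num, ?_⟩
    have htop' : ∀ᶠ n in lQ D μ ν, max (a n) x₀ = a n := htop.filter_mono inf_le_left
    filter_upwards [hh, htop'] with n h1 h2
    rw [h2]
    simpa using h1

end Pool.Agent.BPT
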