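import Pool.Agent.MP_99a865_pr.ST.QXa
import Pool.Agent.MP_99a865_pr.ST.U2
import Pool.Agent.MP_99a865_pr.ST.U3

/-! **[STB-QX]** The interface of the queue block. -/

open MeasureTheory ProbabilityTheory Filter Topology
open scoped ENNReal NNReal

namespace Pool.Agent.BPT

variable {α : ℝ} {ζ μ ν : Measure ℝ} {a : ℕ → ℝ} {D : Set ℝ}

theorem QC_of_DA (hD : Dom D) (hQ : QI μ ν) (h : DA α ζ (stepLaw μ ν 1) a) : ∃ x₀ : ℝ,
    QC (exc α ζ) D μ ν (fun n => max (a n) x₀) ∧ QP D μ ν (fun n => max (a n) x₀) := by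
  obtain ⟨p, K, x₀, hS⟩ := QS_of_DA hD hQ h
  exact ⟨x₀, ⟨Fdd_of_DA hD hQ h x₀, _, _, _, _, _, _, hS⟩, QP_of_DA hD hQ h x₀⟩

end Pool.Agent.BPT
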