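import Pool.Agent.MP_99a865_pr.FV.T0

/-!
# Busy-period trees: strictly stable laws and their domains of attraction (statement level)
-/

open MeasureTheory ProbabilityTheory Filter Topology

namespace Pool.Agent.BPT

/-- `ζ` is strictly stable with index `α` and not a point mass: the sum of `m` independent variables
with law `ζ` has the law of `m^{1/α}` times one of them -/
def StrictlyStable (α : ℝ) (ζ : Measure ℝ) : Prop :=
  IsProbabilityMeasure ζ ∧ (∀ x, ζ ≠ Measure.dirac x) ∧ ∀ m : ℕ, 1 ≤ m →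
    (Measure.infinitePi fun _ : ℕ => ζ).map (fun x => ∑ i ∈ Finset.range m, x i) =
      ζ.map fun x => (m : ℝ) ^ (1 / α) * x

/-- the law of `((v₁ - u₁) + ⋯ + (vₙ - uₙ)) / aₙ` converges weakly to `ζ` -/
def Attracted (μ ν ζ : Measure ℝ) (a : ℕ → ℝ) : Prop :=
  (∀ n, 0 < a n) ∧ ∀ f : BoundedContinuousFunction ℝ ℝ,
    Tendsto (fun n : ℕ => ∫ p, f ((∑ i ∈ Finset.range n, (p.2 i - p.1 i)) / a n) ∂(queueLaw μ ν)) atTop
      (𝓝 (∫ x, f x ∂ζ))

end Pool.Agent.BPT
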