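import Pool.Agent.MP_99a865_pr.CV.Z3
import Pool.Agent.MP_99a865_pr.ST.QW25
import Pool.Agent.MP_99a865_pr.ST.QXb
import Pool.Agent.MP_99a865_pr.ST.U1

/-! **[STB-FIN]** The limit theorem in the domain of attraction of a strictly stable law. -/

open MeasureTheory ProbabilityTheory Filter Topology
open scoped ENNReal NNReal

namespace Pool.Agent.BPT

lemma neBot_attr {α : ℝ} {ζ μ ν : Measure ℝ} {a : ℕ → ℝ} (h0 : Hyp0 μ ν) (hs : StrictlyStable α ζ)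
    (ha : Attracted μ ν ζ a) (c : Bool) : (lq c μ ν).NeBot := by
  have hne := Attracted.ne h0 hs ha
  by_cases hv : Integrable (fun x : ℝ => x ^ 2) μ ∧ Integrable (fun x : ℝ => x ^ 2) ν
  · obtain ⟨σ, h⟩ := exists_hyp h0 hne hv.1 hv.2
    exact neBot_fin h c
  · exact neBot_inf h0 hv c

lemma CV1_congr {c : Bool} {μ ν : Measure ℝ} {X Y : ℕ → (ℕ → ℝ) × (ℕ → ℝ) → ℝ} {L : Measure ℝ}
    (h : ∀ᶠ n : ℕ in atTop, X n = Y n) (hX : CV1 c μ ν X L) : CV1 c μ ν Y L := by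
  intro f
  refine (hX f).congr' ?_
  have h1 : ∀ᶠ n : ℕ in lq c μ ν, X n = Y n := Filter.Eventually.filter_mono inf_le_left h
  filter_upwards [h1] with n hn
  rw [hn]

theorem stable_main : ∃ LH LW LT : ℝ → Measure ℝ → Measure ℝ,
    ∀ (α : ℝ) (ζ : Measure ℝ) (c : Bool) (μ ν : Measure ℝ) (a : ℕ → ℝ), 1 < α → α ≤ 2 →
      StrictlyStable α ζ → Hyp0 μ ν → Attracted μ ν ζ a →
      (lq c μ ν).NeBot ∧
      (IsProbabilityMeasure (LH α ζ) ∧ IsProbabilityMeasure (LW α ζ) ∧ IsProbabilityMeasure (LT α ζ)) ∧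
      (∀ x, LH α ζ ≠ Measure.dirac x ∧ LW α ζ ≠ Measure.dirac x ∧ LT α ζ ≠ Measure.dirac x) ∧
      CV1 c μ ν (fun n p => a n / n * height c p.1 p.2 n) (LH α ζ) ∧
      CV1 c μ ν (fun n p => width c p.1 p.2 n / a n) (LW α ζ) ∧
      CV1 c μ ν (fun n p => a n / n ^ 2 * totalHeight c p.1 p.2 n) (LT α ζ) ∧
      ∀ (Ω : Type) (mΩ : MeasurableSpace Ω) (P : Measure Ω) (e : ℝ → Ω → ℝ), EP (exc α ζ) P e →
        IdL P e (LH α ζ) (LW α ζ) (LT α ζ) := by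
  choose LH LW LT h1 h2 h3 hL using fun p : ℝ × Measure ℝ => queue_main (exc p.1 p.2)
  refine ⟨fun α ζ => LH (α, ζ), fun α ζ => LW (α, ζ), fun α ζ => LT (α, ζ), ?_⟩
  intro α ζ c μ ν a hα1 hα2 hs h0 ha
  have hne := neBot_attr h0 hs ha c
  have hda := Attracted.da h0 hα1 hα2 hs ha
  obtain ⟨x₀, hQC, hQP⟩ := QC_of_DA (dom_DD' c) h0.qi hda
  obtain ⟨c1, c2, c3, c4⟩ := hL (α, ζ) c μ ν _ h0 hQC
  obtain ⟨c5, c6⟩ := c4 hne
  have he : ∀ᶠ n : ℕ in atTop, max (a n) x₀ = a n := by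
    filter_upwards [hda.top.eventually_ge_atTop x₀] with n hn
    exact max_eq_left hn
  refine ⟨hne, ⟨h1 _, h2 _, h3 _⟩, c5 hQP, CV1_congr ?_ c1, CV1_congr ?_ c2, CV1_congr ?_ c3, c6⟩
  · filter_upwards [he] with n hn
    simp only [hn]
  · filter_upwards [he] with n hn
    simp only [hn]
  · filter_upwards [he] with n hn
    simp only [hn]

end Pool.Agent.BPT
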