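import Pool.Agent.MP_99a865_pr.FV.C0b
import Pool.Agent.MP_99a865_pr.FV.Y1
import Pool.Agent.MP_99a865_pr.FV.F1
import Pool.Agent.MP_99a865_pr.ST.U1

/-! **[STB-G1]** Finite variance: attraction to the normal law. -/

open MeasureTheory ProbabilityTheory Filter Topology
open scoped ENNReal NNReal

namespace Pool.Agent.BPT

variable {μ ν ζ : Measure ℝ} {a : ℕ → ℝ}

private lemma G1_fre (ρ : Measure ℝ) (m : ℕ) :
    (seqLaw ρ).map (fun x => ∑ i ∈ Finset.range m, x i) = fre ρ m 0 := by
  unfold fre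
  congr 1
  funext x
  simp [S]

private lemma G1_law (h0 : Hyp0 μ ν) (n : ℕ) (s : ℝ) (f : BoundedContinuousFunction ℝ ℝ) :
    ∫ p, f ((∑ i ∈ Finset.range n, (p.2 i - p.1 i)) / s) ∂(queueLaw μ ν) =
      ∫ y, f (y / s) ∂(fre (stepLaw μ ν 1) n 0) := by
  have hμ := h0.probμ
  have hν := h0.probν
  have hρ : IsProbabilityMeasure (stepLaw μ ν 1) := prob_stepLaw 1
  have hfm : Measurable fun y : ℝ => f (y / s) := f.continuous.measurable.comp (measurable_id'.div_const s)
  have hsum : Measurable fun x : ℕ → ℝ => ∑ i ∈ Finset.range n, x i :=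
    Finset.measurable_sum _ fun i _ => measurable_pi_apply i
  have hg : Measurable fun x : ℕ → ℝ => f ((∑ i ∈ Finset.range n, x i) / s) := hfm.comp hsum
  have hg2 : Measurable fun ω : ℕ → ℝ × ℝ => f ((∑ i ∈ Finset.range n, steps 1 ω i) / s) := hg.comp measurable_steps
  have e1 : ∫ y, f (y / s) ∂(fre (stepLaw μ ν 1) n 0) =
      ∫ x, f ((∑ i ∈ Finset.range n, x i) / s) ∂(seqLaw (stepLaw μ ν 1)) := by
    rw [← G1_fre, integral_map hsum.aemeasurable hfm.aestronglyMeasurable]
  have e2 : ∫ x, f ((∑ i ∈ Finset.range n, x i) / s) ∂(seqLaw (stepLaw μ ν 1)) =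
      ∫ ω, f ((∑ i ∈ Finset.range n, steps 1 ω i) / s) ∂(PQ μ ν) := by
    rw [← map_steps_gen (μ := μ) (ν := ν) 1]
    exact integral_map measurable_steps.aemeasurable hg.aestronglyMeasurable
  have e3 : ∫ ω, f ((∑ i ∈ Finset.range n, steps 1 ω i) / s) ∂(PQ μ ν) =
      ∫ p, f ((∑ i ∈ Finset.range n, steps 1 (zip p.1 p.2) i) / s) ∂(queueLaw μ ν) := by
    rw [← map_zip μ ν]
    exact integral_map measurable_zip.aemeasurable hg2.aestronglyMeasurable
  rw [e1, e2, e3]
  refine integral_congr_ae (Eventually.of_forall fun p => ?_)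
  simp [steps, zip]

/-- Weak convergence from the convergence of the characteristic functions. -/
theorem attracted_of_char (h0 : Hyp0 μ ν) (hζ : IsProbabilityMeasure ζ) (hpos : ∀ n, 0 < a n)
    (hlim : ∀ t : ℝ, Tendsto (fun n : ℕ => charFun (stepLaw μ ν 1) (t / a n) ^ n) atTop (𝓝 (charFun ζ t))) :
    Attracted μ ν ζ a := by
  have hμ := h0.probμ
  have hν := h0.probν
  have hρ : IsProbabilityMeasure (stepLaw μ ν 1) := prob_stepLaw 1
  refine ⟨hpos, fun f => ?_⟩
  have hfre : ∀ n, IsProbabilityMeasure (fre (stepLaw μ ν 1) n 0) := fun n => by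
    rw [← G1_fre]
    exact Measure.isProbabilityMeasure_map
      (Finset.measurable_sum _ fun i _ => measurable_pi_apply i).aemeasurable
  have hm : ∀ n, Measurable fun y : ℝ => (a n)⁻¹ * y := fun n => measurable_const_mul _
  have hpr : ∀ n, IsProbabilityMeasure ((fre (stepLaw μ ν 1) n 0).map fun y => (a n)⁻¹ * y) := fun n =>
    Measure.isProbabilityMeasure_map (hm n).aemeasurable
  let κ : ℕ → ProbabilityMeasure ℝ := fun n => ⟨(fre (stepLaw μ ν 1) n 0).map fun y => (a n)⁻¹ * y, hpr n⟩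
  let κ0 : ProbabilityMeasure ℝ := ⟨ζ, hζ⟩
  have h1 : Tendsto κ atTop (𝓝 κ0) := by
    rw [ProbabilityMeasure.tendsto_iff_tendsto_charFun]
    intro t
    have e : ∀ n, charFun (κ n : Measure ℝ) t = charFun (stepLaw μ ν 1) (t / a n) ^ n := by
      intro n
      change charFun ((fre (stepLaw μ ν 1) n 0).map fun y => (a n)⁻¹ * y) t = _
      rw [charFun_map_mul, charFun_fre]
      simp [div_eq_inv_mul]
    simp_rw [e]
    exact hlim t
  rw [ProbabilityMeasure.tendsto_iff_forall_integral_tendsto] at h1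
  refine (h1 f).congr fun n => ?_
  rw [G1_law h0]
  change ∫ y, f y ∂((fre (stepLaw μ ν 1) n 0).map fun y => (a n)⁻¹ * y) = _
  rw [integral_map (hm n).aemeasurable f.continuous.aestronglyMeasurable]
  simp only [div_eq_inv_mul]

/-- the step law with the standard deviation taken out -/
theorem charFun_stepLaw_scale [IsProbabilityMeasure μ] [IsProbabilityMeasure ν] {σ : ℝ} (hσ : 0 < σ) (t : ℝ) :
    charFun (stepLaw μ ν 1) t = charFun (stepLaw μ ν σ) (σ * t) := by
  have e : stepLaw μ ν 1 = (stepLaw μ ν σ).map fun x => σ * x := by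
    unfold stepLaw
    rw [Measure.map_map (measurable_const_mul σ) (by fun_prop)]
    congr 1
    funext p
    simp only [Function.comp_apply]
    field_simp
  rw [e, charFun_map_mul]

/-- **Central limit theorem** for the walk of the queue. -/
theorem attracted_gauss {σ : ℝ} (h : Hyp μ ν σ) :
    Attracted μ ν (gaussianReal 0 1) (fun n => σ * √(max n 1)) := by
  have hμ := h.probμ
  have hν := h.probν
  have hσ := h.pos
  have hstd := h.qstd.std
  refine attracted_of_char ⟨h.probμ, h.probν, h.posμ, h.posν, h.meanμ, h.meanν⟩ inferInstance (fun n => mul_pos hσ (Real.sqrt_pos.2 (lt_max_of_lt_right one_pos)))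
    fun t => ?_
  have h1 := charFun_clt hstd t
  have h2 : charFun (gaussianReal 0 1) t = Complex.exp (-(t : ℂ) ^ 2 / 2) := by
    rw [charFun_gaussianReal]
    congr 1
    simp
    ring
  rw [h2]
  refine h1.congr' ?_
  filter_upwards [eventually_ge_atTop 1] with n hn
  have h3 : max (n : ℝ) 1 = n := max_eq_left (by exact_mod_cast hn)
  have h4 : (0 : ℝ) < √n := Real.sqrt_pos.2 (by exact_mod_cast hn)
  rw [charFun_stepLaw_scale hσ, h3]
  congr 2
  field_simp

end Pool.Agent.BPT
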