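import Pool.Agent.MP_99a865_pr.CV.Z3
import Pool.Agent.MP_99a865_pr.ST.G1

/-! **[STB-G2]** The limit laws in the normal case. -/

open MeasureTheory ProbabilityTheory Filter Topology
open scoped ENNReal NNReal

namespace Pool.Agent.BPT

variable {μ ν : Measure ℝ}

/-- a law on `{1/2, 3/2}` with mean one -/
noncomputable def mu2 : Measure ℝ := (2 : ℝ≥0∞)⁻¹ • Measure.dirac (1 / 2) + (2 : ℝ≥0∞)⁻¹ • Measure.dirac (3 / 2)

lemma prob_mu2 : IsProbabilityMeasure mu2 := ⟨by
  unfold mu2
  simp [ENNReal.inv_two_add_inv_two]⟩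

lemma mu2_int (f : ℝ → ℝ) : Integrable f mu2 ∧ ∫ x, f x ∂mu2 = (f (1 / 2) + f (3 / 2)) / 2 := by
  have i1 : Integrable f ((2 : ℝ≥0∞)⁻¹ • Measure.dirac (1 / 2)) :=
    (integrable_dirac (by simp)).smul_measure (by simp)
  have i2 : Integrable f ((2 : ℝ≥0∞)⁻¹ • Measure.dirac (3 / 2)) :=
    (integrable_dirac (by simp)).smul_measure (by simp)
  refine ⟨i1.add_measure i2, ?_⟩
  unfold mu2
  rw [integral_add_measure i1 i2, integral_smul_measure, integral_smul_measure, integral_dirac, integral_dirac]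
  simp
  ring

lemma hyp_mu2 : ∃ σ, Hyp mu2 mu2 σ := by
  have h0 : Hyp0 mu2 mu2 := by
    have hz : mu2 (Set.Iic 0) = 0 := by
      unfold mu2
      rw [Measure.add_apply, Measure.smul_apply, Measure.smul_apply, Measure.dirac_apply' _ measurableSet_Iic,
        Measure.dirac_apply' _ measurableSet_Iic, Set.indicator_of_notMem (by norm_num), Set.indicator_of_notMem (by norm_num)]
      simp
    have hm : ∫ x, x ∂mu2 = 1 := by rw [(mu2_int fun x => x).2]; norm_num
    exact ⟨prob_mu2, prob_mu2, hz, hz, hm, hm⟩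
  refine exists_hyp h0 ?_ (mu2_int _).1 (mu2_int _).1
  rintro ⟨h1, -⟩
  have h2 := (mu2_int fun x => (x - 1) ^ 2).2
  rw [h1, integral_dirac] at h2
  norm_num at h2

/-- weak limits are unique -/
lemma lim_unique {Ω : Type} [MeasurableSpace Ω] {l : Filter ℕ} (hl : l.NeBot) {P : ℕ → Measure Ω} {X Y : ℕ → Ω → ℝ}
    {L L' : Measure ℝ} (hXY : ∀ᶠ n in l, X n = Y n) (h : LimLaw l P X L) (h' : LimLaw l P Y L') : L = L' := by
  have h1 := h.1
  have h2 := h'.1
  refine ext_of_forall_integral_eq_of_IsFiniteMeasure fun f => ?_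
  refine tendsto_nhds_unique (h.2 f) ((h'.2 f).congr' ?_)
  filter_upwards [hXY] with n hn
  rw [hn]

lemma map_map_mul (L : Measure ℝ) (x y : ℝ) : (L.map fun t => x * t).map (fun t => y * t) = L.map fun t => (y * x) * t := by
  rw [Measure.map_map (measurable_const_mul _) (measurable_const_mul _)]
  congr 1
  funext t
  simp only [Function.comp_apply]
  ring

/-- the law with distribution function `FF` -/
theorem law_of_FF' : ∃ L : Measure ℝ, IsProbabilityMeasure L ∧ (∀ x > 0, L.real (Set.Iic x) = FF x) ∧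
    ∀ (Ω : Type) (_ : MeasurableSpace Ω) (l : Filter ℕ) (P : ℕ → Measure Ω) (X : ℕ → Ω → ℝ),
      (∀ᶠ n in l, IsProbabilityMeasure (P n)) → (∀ n, Measurable (X n)) → (∀ n ω, 0 ≤ X n ω) →
      (∀ x > 0, Tendsto (fun n => (P n).real {ω | X n ω ≤ x}) l (𝓝 (FF x))) →
      ∀ f : BoundedContinuousFunction ℝ ℝ,
        Tendsto (fun n => ∫ ω, f (X n ω) ∂(P n)) l (𝓝 (∫ x, f x ∂L)) := by
  obtain ⟨L, hLp, -, hL⟩ := law_of_FF FF_monotone FF_continuousOn
  refine ⟨L, hLp, ?_, hL⟩
  have hprob : IsProbabilityMeasure (S4_St FF_monotone FF_continuousOn).measure :=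
    (S4_St FF_monotone FF_continuousOn).isProbabilityMeasure S4_bot S4_top
  have hG : ∀ x, (S4_St FF_monotone FF_continuousOn).measure.real (Set.Iic x) = S4_G x := by
    intro x
    rw [measureReal_def, (S4_St FF_monotone FF_continuousOn).measure_Iic S4_bot, sub_zero, ENNReal.toReal_ofReal]
    · rfl
    · change 0 ≤ S4_G x
      unfold S4_G
      split_ifs with h
      · exact le_rfl
      · exact (FF_pos (not_le.1 h)).le
  set L0 := (S4_St FF_monotone FF_continuousOn).measure with hL0
  have hGx : ∀ x > 0, S4_G x = FF x := fun x hx => if_neg (not_le.2 hx)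
  have hm : Measurable fun x : ℝ => max x 0 := measurable_id.max measurable_const
  have h1 := hL ℝ inferInstance atTop (fun _ => L0) (fun _ x => max x 0) (Eventually.of_forall fun _ => hprob)
    (fun _ => hm) (fun _ x => le_max_right _ _) (fun x hx => by
      have e : {ω : ℝ | max ω 0 ≤ x} = Set.Iic x := by
        ext y
        simp [hx.le]
      rw [e, hG, hGx x hx]
      exact tendsto_const_nhds)
  have h2 : L = L0.map fun x => max x 0 := by
    have : IsProbabilityMeasure (L0.map fun x : ℝ => max x 0) := Measure.isProbabilityMeasure_map hm.aemeasurable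
    refine ext_of_forall_integral_eq_of_IsFiniteMeasure fun f => ?_
    rw [integral_map hm.aemeasurable f.continuous.aestronglyMeasurable]
    exact tendsto_nhds_unique tendsto_const_nhds (h1 f) |>.symm
  intro x hx
  rw [h2, map_measureReal_apply hm measurableSet_Iic]
  have e : (fun x : ℝ => max x 0) ⁻¹' Set.Iic x = Set.Iic x := by
    ext y
    simp [hx.le]
  rw [e, hG, hGx x hx]

/-- The limit laws of a queue with finite variances, in the norming of the central limit theorem. -/
theorem gauss_laws {σ : ℝ} (h : Hyp μ ν σ) (c : Bool) {LH LW LT W : Measure ℝ} (hW : AreaLim W) [IsProbabilityMeasure W]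
    (hH : LimLaw (lq c μ ν) (fun n => ProbabilityTheory.cond (queueLaw μ ν) (busyEvent c n))
      (fun n p => σ * √(max n 1) / n * height c p.1 p.2 n) LH)
    (hWd : LimLaw (lq c μ ν) (fun n => ProbabilityTheory.cond (queueLaw μ ν) (busyEvent c n))
      (fun n p => width c p.1 p.2 n / (σ * √(max n 1))) LW)
    (hT : LimLaw (lq c μ ν) (fun n => ProbabilityTheory.cond (queueLaw μ ν) (busyEvent c n))
      (fun n p => σ * √(max n 1) / n ^ 2 * totalHeight c p.1 p.2 n) LT) :
    (∀ x > 0, LH.real (Set.Iic (2 * x)) = FF x ∧ LW.real (Set.Iic x) = FF x) ∧ LT = W.map fun x => 2 * x := by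
  obtain ⟨L, hLp, hLF, hL⟩ := law_of_FF'
  have hne := neBot_fin h c
  have hσ := h.pos
  have hn1 : ∀ᶠ n in lq c μ ν, 1 ≤ n := Filter.Eventually.filter_mono inf_le_left (eventually_ge_atTop 1)
  have f1 := (fwd_height hLp hL h c).scale σ (fun n p => σ * Hn c n p) (fun _ _ => rfl)
  have f2 := (fwd_width hLp hL h c).scale σ⁻¹ (fun n p => σ⁻¹ * Wn c n p) (fun _ _ => rfl)
  have f3 := (fwd_total hW h c).scale σ (fun n p => σ * Tn c n p) (fun _ _ => rfl)
  rw [map_map_mul] at f1 f2 f3
  have e1 : σ * (2 / σ) = 2 := by field_simp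
  have e2 : σ⁻¹ * σ = 1 := inv_mul_cancel₀ hσ.ne'
  rw [e1] at f1 f3
  rw [e2] at f2
  have g1 : LH = L.map fun x => 2 * x := by
    refine lim_unique hne ?_ hH f1
    filter_upwards [hn1] with n hn
    funext p
    have h3 : max (n : ℝ) 1 = n := max_eq_left (by exact_mod_cast hn)
    have h5 : (0 : ℝ) < n := by exact_mod_cast hn
    have h4 : (0 : ℝ) < √n := Real.sqrt_pos.2 h5
    have h6 : (√n : ℝ) * √n = n := Real.mul_self_sqrt h5.le
    rw [h3]
    unfold Hn
    have h7 : σ * √(n : ℝ) / n = σ * (1 / √n) := by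
      rw [mul_div_assoc]
      congr 1
      rw [div_eq_div_iff h5.ne' h4.ne', one_mul]
      exact h6
    rw [h7]
    ring
  have g2 : LW = L := by
    have : LW = L.map fun x => 1 * x := by
      refine lim_unique hne ?_ hWd f2
      filter_upwards [hn1] with n hn
      funext p
      have h3 : max (n : ℝ) 1 = n := max_eq_left (by exact_mod_cast hn)
      rw [h3]
      unfold Wn
      field_simp
    rw [this]
    simp
  have g3 : LT = W.map fun x => 2 * x := by
    refine lim_unique hne ?_ hT f3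
    filter_upwards [hn1] with n hn
    funext p
    have h3 : max (n : ℝ) 1 = n := max_eq_left (by exact_mod_cast hn)
    have h5 : (0 : ℝ) < n := by exact_mod_cast hn
    have h4 : (0 : ℝ) < √n := Real.sqrt_pos.2 h5
    have h6 : (√n : ℝ) * √n = n := Real.mul_self_sqrt h5.le
    rw [h3]
    unfold Tn
    have h7 : √(n : ℝ) / (n : ℝ) ^ 2 = 1 / (n * √n) := by
      rw [div_eq_div_iff (by positivity) (by positivity)]
      nlinarith [h6]
    calc σ * √(n : ℝ) / (n : ℝ) ^ 2 * totalHeight c p.1 p.2 n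
        = σ * (√(n : ℝ) / (n : ℝ) ^ 2) * totalHeight c p.1 p.2 n := by ring
      _ = σ * ((totalHeight c p.1 p.2 n : ℝ) / (n * √n)) := by rw [h7]; ring
  refine ⟨fun x hx => ⟨?_, ?_⟩, g3⟩
  · rw [g1, map_measureReal_apply (measurable_const_mul _) measurableSet_Iic]
    have e : (fun y : ℝ => 2 * y) ⁻¹' Set.Iic (2 * x) = Set.Iic x := by
      ext y
      simp
    rw [e]
    exact hLF x hx
  · rw [g2]
    exact hLF x hx

end Pool.Agent.BPT
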