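import Pool.Agent.MP_99a865_pr.ST.Defs
import Pool.Agent.MP_99a865_pr.ST.UDefs

/-!
# Busy-period trees in a stable domain of attraction: definitions used in the statement
-/

open MeasureTheory ProbabilityTheory Filter Topology
open scoped ENNReal NNReal

namespace Pool.Agent.BPT

/-- the limits in the definitions of `QT` (stable process killed on leaving `(0,∞)`), `hQ` (density of the
exit time) and `exc` (normalised excursion) exist -/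
structure ExcLimits (α : ℝ) (ζ : Measure ℝ) : Prop where
  kill : ∀ t > (0 : ℝ), ∀ (M : ℝ) (f : ℝ → ℝ), BCo M f → ∀ x > (0 : ℝ),
    Tendsto (fun j : ℕ => QK α ζ (2 ^ j) t f x) atTop (𝓝 (QT α ζ t f x))
  exit : ∀ t > (0 : ℝ), ∀ x > (0 : ℝ), 0 < hQ α ζ t x ∧
    Tendsto (fun η : ℝ => (QO α ζ t x - QO α ζ (t + η) x) / η) (𝓝[>] (0 : ℝ)) (𝓝 (hQ α ζ t x))
  excn : ∀ l : List (ℝ × (ℝ → ℝ)), l ≠ [] → Adm l →
    Tendsto (fun x => IS α ζ l (hQ α ζ (1 - sumt l)) x / hQ α ζ 1 x) (𝓝[>] (0 : ℝ)) (𝓝 (exc α ζ l))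

/-- finitely many times `0 < τ 0 < τ 1 < ⋯ < τ (K-1) < 1` -/
structure Times (K : ℕ) (τ : ℕ → ℝ) : Prop where
  one : 1 ≤ K
  pos : 0 < τ 0
  incr : ∀ i j, i < j → j < K → τ i < τ j
  lt : τ (K - 1) < 1

/-- `e` is the normalised excursion: a positive right-continuous process on `(0,1)` with
`E[f₀(e(τ₀)) ⋯ f_{K-1}(e(τ_{K-1}))] = exc α ζ [(τ₀, f₀), (τ₁ - τ₀, f₁), …]` -/
structure IsExcursion (α : ℝ) (ζ : Measure ℝ) {Ω : Type} [MeasurableSpace Ω] (P : Measure Ω) (e : ℝ → Ω → ℝ) :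
    Prop where
  prob : IsProbabilityMeasure P
  meas : ∀ t, Measurable (e t)
  path : ∀ᵐ ω ∂P, ∀ t, 0 < t → t < 1 →
    0 < e t ω ∧ ContinuousWithinAt (fun s => e s ω) (Set.Ici t) t
  fdd : ∀ (K : ℕ) (τ : ℕ → ℝ), Times K τ → ∀ f : ℕ → ℝ → ℝ, (∃ M > (0 : ℝ), ∀ j, BL M (f j)) →
    ∫ ω, ∏ j ∈ Finset.range K, f j (e (τ j) ω) ∂P = exc α ζ (tts τ f K)

/-- `LH`, `LW`, `LT` are the laws of `∫₀¹ dt/e(t)`, `sup e`, `∫₀¹ (1-t) dt/e(t)` -/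
def ExcursionLaws {Ω : Type} [MeasurableSpace Ω] (P : Measure Ω) (e : ℝ → Ω → ℝ) (LH LW LT : Measure ℝ) : Prop :=
  (∀ᵐ ω ∂P, IntegrableOn (fun t => 1 / e t ω) (Set.Ioo 0 1)) ∧
  P.map (fun ω => ∫ t in Set.Ioo (0 : ℝ) 1, 1 / e t ω) = LH ∧
  (∀ᵐ ω ∂P, BddAbove (Set.range fun t : Set.Ioo (0 : ℝ) 1 => e t ω)) ∧
  P.map (fun ω => ⨆ t : Set.Ioo (0 : ℝ) 1, e t ω) = LW ∧
  (∀ᵐ ω ∂P, IntegrableOn (fun t => (1 - t) / e t ω) (Set.Ioo 0 1)) ∧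
  P.map (fun ω => ∫ t in Set.Ioo (0 : ℝ) 1, (1 - t) / e t ω) = LT

end Pool.Agent.BPT
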