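import Pool.Agent.MP_99a865_pr.ST.N1
import Pool.Agent.MP_99a865_pr.FV.A3

/-! **[STB-V1]** Every non-degenerate limit law of `S_n / a_n` is strictly stable. -/

open MeasureTheory ProbabilityTheory Filter Topology
open scoped ENNReal NNReal

namespace Pool.Agent.BPT

variable {α : ℝ} {ζ ρ : Measure ℝ} {a : ℕ → ℝ}

private lemma V1_exp (s t x : ℝ) :
    ‖Complex.exp (s * x * Complex.I) - Complex.exp (t * x * Complex.I)‖ ≤ min 2 (|s - t| * |x|) := by
  have h1 : ∀ y : ℝ, ‖Complex.exp (y * Complex.I)‖ = 1 := Complex.norm_exp_ofReal_mul_I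
  refine le_min ?_ ?_
  · refine (norm_sub_le _ _).trans ?_
    have e1 : ((s : ℂ) * x * Complex.I) = ((s * x : ℝ) : ℂ) * Complex.I := by push_cast; ring
    have e2 : ((t : ℂ) * x * Complex.I) = ((t * x : ℝ) : ℂ) * Complex.I := by push_cast; ring
    rw [e1, e2, h1, h1]
    norm_num
  · have e1 : Complex.exp (s * x * Complex.I) - Complex.exp (t * x * Complex.I) =
        Complex.exp (((t * x : ℝ) : ℂ) * Complex.I) *
          (Complex.exp (Complex.I * (((s - t) * x : ℝ) : ℂ)) - 1) := by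
      rw [mul_sub, mul_one, ← Complex.exp_add]
      push_cast
      congr 2
      · ring
    rw [e1, norm_mul, h1, one_mul, ← abs_mul]
    exact Real.norm_exp_I_mul_ofReal_sub_one_le

private lemma V1_cont {ι : Type} {l : Filter ι} {ν : ι → ProbabilityMeasure ℝ} {μ : ProbabilityMeasure ℝ}
    (hν : Tendsto ν l (𝓝 μ)) {s : ι → ℝ} {s0 : ℝ} (hs : Tendsto s l (𝓝 s0)) :
    Tendsto (fun i => charFun (ν i : Measure ℝ) (s i)) l (𝓝 (charFun (μ : Measure ℝ) s0)) := by
  have h1 : Tendsto (fun i => charFun (ν i : Measure ℝ) s0) l (𝓝 (charFun (μ : Measure ℝ) s0)) := by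
    rw [ProbabilityMeasure.tendsto_iff_forall_integral_rclike_tendsto ℂ] at hν
    simp_rw [charFun_eq_integral_innerProbChar]
    exact hν (BoundedContinuousFunction.innerProbChar s0)
  -- the test functions
  have hgc : ∀ δ : ℝ, Continuous fun x : ℝ => min (2 : ℝ) (δ * |x|) := fun δ => by fun_prop
  have hgb : ∀ δ : ℝ, 0 ≤ δ → ∀ x : ℝ, ‖min (2 : ℝ) (δ * |x|)‖ ≤ 2 := by
    intro δ hδ x
    rw [Real.norm_eq_abs, abs_of_nonneg (le_min (by norm_num) (by positivity))]
    exact min_le_left _ _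
  have hlim : Tendsto (fun k : ℕ => ∫ x, min (2 : ℝ) (1 / ((k : ℝ) + 1) * |x|) ∂(μ : Measure ℝ)) atTop
      (𝓝 (∫ _x : ℝ, (0 : ℝ) ∂(μ : Measure ℝ))) := by
    refine tendsto_integral_of_dominated_convergence (fun _ => 2) ?_ (integrable_const _) ?_ ?_
    · exact fun k => (hgc _).aestronglyMeasurable
    · exact fun k => Eventually.of_forall fun x => hgb _ (by positivity) x
    · refine Eventually.of_forall fun x => ?_
      have h2 : Tendsto (fun k : ℕ => 1 / ((k : ℝ) + 1) * |x|) atTop (𝓝 (0 * |x|)) :=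
        tendsto_one_div_add_atTop_nhds_zero_nat.mul_const _
      rw [zero_mul] at h2
      have h3 : Tendsto (fun k : ℕ => min (2 : ℝ) (1 / ((k : ℝ) + 1) * |x|)) atTop (𝓝 (min 2 0)) :=
        tendsto_const_nhds.min h2
      rwa [min_eq_right (by norm_num)] at h3
  rw [integral_zero] at hlim
  have hbound : ∀ i, ∀ δ : ℝ, |s i - s0| ≤ δ →
      ‖charFun (ν i : Measure ℝ) (s i) - charFun (ν i : Measure ℝ) s0‖ ≤
        ∫ x, min (2 : ℝ) (δ * |x|) ∂(ν i : Measure ℝ) := by
    intro i δ hδ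
    have hδ0 : 0 ≤ δ := (abs_nonneg _).trans hδ
    rw [charFun_apply_real, charFun_apply_real, ← integral_sub]
    · refine (norm_integral_le_integral_norm _).trans (integral_mono_of_nonneg
        (Eventually.of_forall fun x => norm_nonneg _) ?_ (Eventually.of_forall fun x => ?_))
      · exact Integrable.of_bound (hgc δ).aestronglyMeasurable 2 (Eventually.of_forall fun x => hgb δ hδ0 x)
      · exact (V1_exp (s i) s0 x).trans (min_le_min_left _ (mul_le_mul_of_nonneg_right hδ (abs_nonneg _)))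
    · refine Integrable.of_bound (by fun_prop) 1 (Eventually.of_forall fun x => ?_)
      have e1 : ((s i : ℂ) * x * Complex.I) = ((s i * x : ℝ) : ℂ) * Complex.I := by push_cast; ring
      rw [e1, Complex.norm_exp_ofReal_mul_I]
    · refine Integrable.of_bound (by fun_prop) 1 (Eventually.of_forall fun x => ?_)
      have e1 : ((s0 : ℂ) * x * Complex.I) = ((s0 * x : ℝ) : ℂ) * Complex.I := by push_cast; ring
      rw [e1, Complex.norm_exp_ofReal_mul_I]
  have hdiff : Tendsto (fun i => charFun (ν i : Measure ℝ) (s i) - charFun (ν i : Measure ℝ) s0) l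
      (𝓝 0) := by
    rw [Metric.tendsto_nhds]
    intro ε hε
    obtain ⟨k, hk⟩ := (hlim.eventually (gt_mem_nhds hε)).exists
    have h2 := (ProbabilityMeasure.tendsto_iff_forall_integral_tendsto.1 hν)
      (BoundedContinuousFunction.ofNormedAddCommGroup (fun x : ℝ => min (2 : ℝ) (1 / ((k : ℝ) + 1) * |x|))
        (hgc _) 2 (fun x => hgb _ (by positivity) x))
    have h3 := h2.eventually (gt_mem_nhds (show _ < ε from hk))
    have h4 : ∀ᶠ i in l, |s i - s0| ≤ 1 / ((k : ℝ) + 1) := by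
      have h5 := (Metric.tendsto_nhds.1 hs) (1 / ((k : ℝ) + 1)) (by positivity)
      filter_upwards [h5] with i hi
      rw [Real.dist_eq] at hi
      exact hi.le
    filter_upwards [h3, h4] with i hi1 hi2
    rw [dist_zero_right]
    exact (hbound i _ hi2).trans_lt hi1
  have h6 := hdiff.add h1
  simpa using h6

/-- **[STB-V1a]** Convergence of types. PROOF. `φ_n(t) = charFun ρ (t/a_n)^n → φ(t) = charFun ζ t`, locally uniformly in `t` (Lévy: `φ_n` is the characteristic function of the law of `S_n/a_n`, these laws are tight by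
`isTightMeasureSet_of_tendsto_charFun`, hence the `φ_n` are equicontinuous: `|φ_n(s) - φ_n(t)| ≤ E min(2, |s - t| |S_n/a_n|)`). With `r_n = a_{mn}/a_n`:
`charFun ρ (t/a_n)^{mn} = φ_{mn}(r_n t)`, and it tends to `φ(t)^m`. Choose a subsequence along which `r_n → r ∈ [0, ∞]`. `r = 0`: `φ_{mn}(r_n t) → φ 0 = 1`, so `φ(t)^m = 1` for all `t`, `‖φ‖ = 1`, `ζ` is a point mass
(`eq_dirac_of_norm_charFun`). `r = ∞`: `φ_{mn}(t) = (φ_n(t/r_n))^m → 1`, so `φ = 1`, the same. So `0 < r < ∞` and `φ(r t) = φ(t)^m`. -/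
theorem V1_types (hρ : IsProbabilityMeasure ρ) (hζ : IsProbabilityMeasure ζ) (hnd : ∀ x, ζ ≠ Measure.dirac x)
    (hpos : ∀ n, 0 < a n) (hlim : ∀ t : ℝ, Tendsto (fun n : ℕ => charFun ρ (t / a n) ^ n) atTop (𝓝 (charFun ζ t)))
    (m : ℕ) (hm : 1 ≤ m) : ∃ r > (0 : ℝ), ∀ t : ℝ, charFun ζ (r * t) = charFun ζ t ^ m := by
  -- the laws of `S_n / a_n`
  have hprob : ∀ n, IsProbabilityMeasure ((fre ρ n 0).map fun x => (a n)⁻¹ * x) := by
    intro n
    have h1 : IsProbabilityMeasure (fre ρ n 0) := by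
      unfold fre
      exact Measure.isProbabilityMeasure_map ((measurable_S n).const_add 0).aemeasurable
    exact Measure.isProbabilityMeasure_map (by fun_prop)
  obtain ⟨P, hP⟩ : ∃ P : ℕ → ProbabilityMeasure ℝ, ∀ n t, charFun (P n : Measure ℝ) t =
      charFun ρ (t / a n) ^ n := by
    refine ⟨fun n => ⟨_, hprob n⟩, fun n t => ?_⟩
    show charFun ((fre ρ n 0).map fun x => (a n)⁻¹ * x) t = _
    rw [charFun_map_mul, charFun_fre]
    simp only [Complex.ofReal_zero, mul_zero, zero_mul, Complex.exp_zero, one_mul]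
    rw [div_eq_inv_mul]
  have hPlim : Tendsto P atTop (𝓝 (⟨ζ, hζ⟩ : ProbabilityMeasure ℝ)) := by
    refine ProbabilityMeasure.tendsto_of_tendsto_charFun fun t => ?_
    simp only [hP]
    exact hlim t
  obtain ⟨r, hr⟩ : ∃ r : ℕ → ℝ, ∀ n, r n = a (m * n) / a n := ⟨_, fun _ => rfl⟩
  have hrpos : ∀ n, 0 < r n := fun n => by
    rw [hr]
    exact div_pos (hpos _) (hpos _)
  have hU : ((hyperfilter ℕ : Ultrafilter ℕ) : Filter ℕ) ≤ atTop := Nat.hyperfilter_le_atTop
  obtain ⟨U, hUe⟩ : ∃ U : Ultrafilter ℕ, U = hyperfilter ℕ := ⟨_, rfl⟩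
  rw [← hUe] at hU
  obtain ⟨L, -, hL⟩ := isCompact_univ.ultrafilter_le_nhds (U.map fun n => ENNReal.ofReal (r n)) (by simp)
  have hL' : Tendsto (fun n => ENNReal.ofReal (r n)) (U : Filter ℕ) (𝓝 L) := hL
  have hmt : Tendsto (fun n : ℕ => m * n) (U : Filter ℕ) atTop :=
    (tendsto_id.const_mul_atTop' (by omega)).mono_left hU
  have hPm : Tendsto (fun n => P (m * n)) (U : Filter ℕ) (𝓝 (⟨ζ, hζ⟩ : ProbabilityMeasure ℝ)) :=
    hPlim.comp hmt
  have hPU : Tendsto P (U : Filter ℕ) (𝓝 (⟨ζ, hζ⟩ : ProbabilityMeasure ℝ)) := hPlim.mono_left hU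
  have hpt : ∀ t, Tendsto (fun n => charFun (P n : Measure ℝ) t) (U : Filter ℕ) (𝓝 (charFun ζ t)) := by
    intro t
    exact V1_cont hPU tendsto_const_nhds
  have hdir : (∀ t : ℝ, charFun ζ t ^ m = 1) → False := by
    intro h1
    obtain ⟨x, hx⟩ := eq_dirac_of_norm_charFun (ζ := ζ) fun t => by
      have h2 := congrArg norm (h1 t)
      rw [norm_pow, norm_one] at h2
      exact (pow_eq_one_iff_of_nonneg (norm_nonneg _) (by omega)).1 h2
    exact hnd x hx
  have hone : charFun ζ 0 = 1 := by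
    rw [charFun_zero]
    simp
  by_cases hLt : L = ⊤
  · exfalso
    rw [hLt] at hL'
    have h1 : Tendsto (fun n => (r n)⁻¹) (U : Filter ℕ) (𝓝 0) := by
      have h2 : Tendsto (fun n => (ENNReal.ofReal (r n))⁻¹) (U : Filter ℕ) (𝓝 0) := by
        rw [← ENNReal.inv_top]
        exact ENNReal.tendsto_inv_iff.2 hL'
      have h3 := (ENNReal.tendsto_toReal ENNReal.zero_ne_top).comp h2
      rw [ENNReal.toReal_zero] at h3
      refine h3.congr fun n => ?_
      rw [Function.comp_apply, ENNReal.toReal_inv, ENNReal.toReal_ofReal (hrpos n).le]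
    refine hdir fun t => ?_
    have h2 : Tendsto (fun n => charFun (P n : Measure ℝ) (t * (r n)⁻¹)) (U : Filter ℕ) (𝓝 (charFun ζ 0)) := by
      refine V1_cont hPU ?_
      have h3 := h1.const_mul t
      rwa [mul_zero] at h3
    have h3 : Tendsto (fun n => charFun (P (m * n) : Measure ℝ) t) (U : Filter ℕ) (𝓝 (charFun ζ t)) :=
      V1_cont hPm tendsto_const_nhds
    have h4 : ∀ n, charFun (P (m * n) : Measure ℝ) t = charFun (P n : Measure ℝ) (t * (r n)⁻¹) ^ m := by
      intro n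
      rw [hP, hP, ← pow_mul, mul_comm m n]
      congr 2
      rw [hr, inv_div, mul_comm m n]
      have := (hpos n).ne'
      have := (hpos (n * m)).ne'
      field_simp
    have h5 := h2.pow m
    rw [hone, one_pow] at h5
    have h6 : charFun ζ t = 1 := tendsto_nhds_unique h3 (h5.congr fun n => (h4 n).symm)
    rw [h6, one_pow]
  · have h1 : Tendsto r (U : Filter ℕ) (𝓝 L.toReal) := by
      refine ((ENNReal.tendsto_toReal hLt).comp hL').congr fun n => ?_
      rw [Function.comp_apply, ENNReal.toReal_ofReal (hrpos n).le]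
    have hkey : ∀ t, charFun ζ (L.toReal * t) = charFun ζ t ^ m := by
      intro t
      have h2 : Tendsto (fun n => charFun (P (m * n) : Measure ℝ) (r n * t)) (U : Filter ℕ)
          (𝓝 (charFun ζ (L.toReal * t))) := V1_cont hPm (h1.mul_const t)
      have h4 : ∀ n, charFun (P (m * n) : Measure ℝ) (r n * t) = charFun (P n : Measure ℝ) t ^ m := by
        intro n
        rw [hP, hP, ← pow_mul, mul_comm m n]
        congr 2
        rw [hr, mul_comm m n]
        have := (hpos n).ne'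
        have := (hpos (n * m)).ne'
        field_simp
      exact tendsto_nhds_unique h2 (((hpt t).pow m).congr fun n => (h4 n).symm)
    refine ⟨L.toReal, lt_of_le_of_ne ENNReal.toReal_nonneg fun h0 => hdir fun t => ?_, hkey⟩
    rw [← hkey t, ← h0, zero_mul, hone]

/-- monotonicity of the scaling constants -/
theorem V1b_mono {u : ℝ → ℝ} {c : ℕ → ℝ} (hu : Continuous u) (h0 : u 0 = 1) (hn : ∀ t, 0 ≤ u t) (h1 : ∀ t, u t ≤ 1)
    (hne : ∃ t, u t ≠ 1) (hc : ∀ m, 1 ≤ m → 0 < c m) (hcu : ∀ m, 1 ≤ m → ∀ t, u (c m * t) = u t ^ m) {m k : ℕ} (hm : 1 ≤ m)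
    (hmk : m < k) : c m < c k := by
  by_contra hcon
  push Not at hcon
  have hcm := hc m hm
  have hck := hc k (by omega)
  set q := c k / c m with hq
  have hq0 : 0 < q := div_pos hck hcm
  have hq1 : q ≤ 1 := (div_le_one hcm).2 hcon
  have hm0 : (m : ℝ) ≠ 0 := by
    have : 0 < m := hm
    exact_mod_cast this.ne'
  set e : ℝ := (k : ℝ) / m with he
  have he1 : 1 < e := by
    rw [he, one_lt_div (by exact_mod_cast (show 0 < m from hm))]
    exact_mod_cast hmk
  have hstep : ∀ s, u (q * s) = u s ^ e := by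
    intro s
    have e1 : u s = u (s / c m) ^ m := by
      rw [← hcu m hm]
      congr 1
      field_simp
    have e2 : u (q * s) = u (s / c m) ^ k := by
      rw [← hcu k (by omega)]
      congr 1
      rw [hq]
      ring
    rw [e2, e1, ← Real.rpow_natCast (u (s / c m)) m, ← Real.rpow_mul (hn _), he, mul_div_cancel₀ _ hm0, Real.rpow_natCast]
  have hiter : ∀ (j : ℕ) (s : ℝ), u (q ^ j * s) = u s ^ (e ^ j) := by
    intro j
    induction j with
    | zero => intro s; rw [pow_zero, pow_zero, one_mul, Real.rpow_one]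
    | succ j ih =>
      intro s
      rw [pow_succ, mul_assoc, ih, hstep, ← Real.rpow_mul (hn _), pow_succ, mul_comm e]
  have hlim0 : ∀ s, u s < 1 → Tendsto (fun j : ℕ => u (q ^ j * s)) atTop (𝓝 0) := by
    intro s hs
    have h2 : Tendsto (fun j : ℕ => e ^ j) atTop atTop := tendsto_pow_atTop_atTop_of_one_lt he1
    have h3 := (tendsto_rpow_atTop_of_base_lt_one (u s) (by linarith [hn s]) hs).comp h2
    refine h3.congr fun j => ?_
    rw [Function.comp_apply, hiter]
  obtain ⟨t0, ht0⟩ := hne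
  have ht1 : u t0 < 1 := lt_of_le_of_ne (h1 _) ht0
  rcases hq1.lt_or_eq with hq2 | hq2
  · have h2 : Tendsto (fun j : ℕ => q ^ j * t0) atTop (𝓝 0) := by
      have := (tendsto_pow_atTop_nhds_zero_of_lt_one hq0.le hq2).mul_const t0
      rwa [zero_mul] at this
    have h3 : Tendsto (fun j : ℕ => u (q ^ j * t0)) atTop (𝓝 1) := by
      rw [← h0]
      exact (hu.tendsto 0).comp h2
    exact zero_ne_one (tendsto_nhds_unique (hlim0 t0 ht1) h3)
  · have hz : ∀ s, u s < 1 → u s = 0 := by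
      intro s hs
      have h2 := hlim0 s hs
      rw [hq2] at h2
      simp only [one_pow, one_mul] at h2
      exact tendsto_nhds_unique tendsto_const_nhds h2
    obtain ⟨s, hs⟩ := mem_range_of_exists_le_of_exists_ge hu (c := (1 / 2 : ℝ)) ⟨t0, by rw [hz t0 ht1]; norm_num⟩ ⟨0, by rw [h0]; norm_num⟩
    have := hz s (by rw [hs]; norm_num)
    rw [hs] at this
    norm_num at this

/-- uniqueness of the scaling constant -/
theorem V1b_unique {u : ℝ → ℝ} (hu : Continuous u) (h0 : u 0 = 1) (hne : ∃ t, u t ≠ 1) {r r' : ℝ} (hr : 0 < r) (hr' : 0 < r')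
    (h : ∀ t, u (r * t) = u (r' * t)) : r = r' := by
  have key : ∀ {r r' : ℝ}, 0 < r → 0 < r' → (∀ t, u (r * t) = u (r' * t)) → ¬ r < r' := by
    intro r r' hr hr' h hlt
    obtain ⟨t0, ht0⟩ := hne
    apply ht0
    set q := r / r' with hq
    have hq0 : 0 < q := div_pos hr hr'
    have hq1 : q < 1 := (div_lt_one hr').2 hlt
    have hst : ∀ s, u (q * s) = u s := by
      intro s
      have h2 := h (s / r')
      have e1 : r * (s / r') = q * s := by rw [hq]; ring
      have e2 : r' * (s / r') = s := by field_simp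
      rwa [e1, e2] at h2
    have hit : ∀ j : ℕ, u (q ^ j * t0) = u t0 := by
      intro j
      induction j with
      | zero => rw [pow_zero, one_mul]
      | succ j ih => rw [pow_succ', mul_assoc, hst, ih]
    have h2 : Tendsto (fun j : ℕ => q ^ j * t0) atTop (𝓝 0) := by
      have := (tendsto_pow_atTop_nhds_zero_of_lt_one hq0.le hq1).mul_const t0
      rwa [zero_mul] at this
    have h3 : Tendsto (fun j : ℕ => u (q ^ j * t0)) atTop (𝓝 1) := by
      rw [← h0]
      exact (hu.tendsto 0).comp h2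
    simp only [hit] at h3
    exact tendsto_nhds_unique tendsto_const_nhds h3
  exact le_antisymm (not_lt.1 (key hr' hr (fun t => (h t).symm))) (not_lt.1 (key hr hr' h))

/-- a strictly increasing multiplicative function is a power -/
theorem V1b_power {c : ℕ → ℝ} (hc : ∀ m, 1 ≤ m → 0 < c m) (hmul : ∀ m k, 1 ≤ m → 1 ≤ k → c (m * k) = c m * c k)
    (hmono : ∀ m k, 1 ≤ m → m < k → c m < c k) :
    ∃ α : ℝ, 0 < α ∧ ∀ m : ℕ, 1 ≤ m → c m = (m : ℝ) ^ (1 / α) := by
  have hc1 : c 1 = 1 := by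
    have h1 := hmul 1 1 le_rfl le_rfl
    rw [mul_one] at h1
    have h2 := hc 1 le_rfl
    have h3 : c 1 * (c 1 - 1) = 0 := by linear_combination -h1
    rcases mul_eq_zero.1 h3 with h4 | h4
    · linarith
    · linarith
  have hpow : ∀ m j, 1 ≤ m → c (m ^ j) = c m ^ j := by
    intro m j hm
    induction j with
    | zero => rw [pow_zero, pow_zero, hc1]
    | succ j ih => rw [pow_succ, hmul _ _ (Nat.one_le_pow _ _ hm) hm, ih, pow_succ]
  have hmono' : ∀ m k, 1 ≤ m → m ≤ k → c m ≤ c k := by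
    intro m k hm hmk
    rcases hmk.lt_or_eq with h | h
    · exact (hmono m k hm h).le
    · rw [h]
  have hc2 : 1 < c 2 := by
    rw [← hc1]
    exact hmono 1 2 le_rfl (by norm_num)
  set L := Real.log (c 2) with hL
  have hL0 : 0 < L := Real.log_pos hc2
  have hl2 : 0 < Real.log 2 := Real.log_pos (by norm_num)
  have hkey : ∀ m : ℕ, 1 ≤ m → Real.log (c m) * Real.log 2 = Real.log m * L := by
    intro m hm
    have hb : ∀ j : ℕ, (j : ℝ) * |Real.log (c m) * Real.log 2 - Real.log m * L| ≤ L * Real.log 2 := by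
      intro j
      have hmj : m ^ j ≠ 0 := Nat.one_le_iff_ne_zero.1 (Nat.one_le_pow _ _ hm)
      set i := Nat.log 2 (m ^ j) with hi
      have a1 : 2 ^ i ≤ m ^ j := Nat.pow_log_le_self 2 hmj
      have a2 : m ^ j < 2 ^ (i + 1) := Nat.lt_pow_succ_log_self (by norm_num) _
      have hmR : (0 : ℝ) < m := by exact_mod_cast (show 0 < m from hm)
      have b1 : (i : ℝ) * L ≤ j * Real.log (c m) := by
        have := hmono' _ _ (Nat.one_le_two_pow) a1
        rw [hpow 2 i (by norm_num), hpow m j hm] at this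
        have h2 := Real.log_le_log (pow_pos (hc 2 (by norm_num)) i) this
        rwa [Real.log_pow, Real.log_pow] at h2
      have b2 : j * Real.log (c m) ≤ ((i : ℝ) + 1) * L := by
        have := hmono' _ _ (Nat.one_le_pow _ _ hm) a2.le
        rw [hpow 2 (i + 1) (by norm_num), hpow m j hm] at this
        have h2 := Real.log_le_log (pow_pos (hc m hm) j) this
        rw [Real.log_pow, Real.log_pow] at h2
        push_cast at h2
        exact h2
      have b3 : (i : ℝ) * Real.log 2 ≤ j * Real.log m := by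
        have h2 : Real.log ((2 : ℝ) ^ i) ≤ Real.log ((m : ℝ) ^ j) :=
          Real.log_le_log (by positivity) (by exact_mod_cast a1)
        rwa [Real.log_pow, Real.log_pow] at h2
      have b4 : j * Real.log m ≤ ((i : ℝ) + 1) * Real.log 2 := by
        have h2 : Real.log ((m : ℝ) ^ j) ≤ Real.log ((2 : ℝ) ^ (i + 1)) :=
          Real.log_le_log (by positivity) (by exact_mod_cast a2.le)
        rw [Real.log_pow, Real.log_pow] at h2
        push_cast at h2
        exact h2
      have hj : (0 : ℝ) ≤ j := Nat.cast_nonneg j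
      have e1 : (j : ℝ) * |Real.log (c m) * Real.log 2 - Real.log m * L| =
          |(j * Real.log (c m)) * Real.log 2 - (j * Real.log m) * L| := by
        rw [← abs_of_nonneg hj, ← abs_mul, abs_of_nonneg hj]
        congr 1
        ring
      rw [e1, abs_le]
      constructor
      · nlinarith
      · nlinarith
    by_contra hne
    have hpos : 0 < |Real.log (c m) * Real.log 2 - Real.log m * L| := abs_pos.2 (sub_ne_zero.2 hne)
    obtain ⟨j, hj⟩ := exists_nat_gt (L * Real.log 2 / |Real.log (c m) * Real.log 2 - Real.log m * L|)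
    have h2 := hb j
    rw [div_lt_iff₀ hpos] at hj
    linarith
  refine ⟨Real.log 2 / L, div_pos hl2 hL0, fun m hm => ?_⟩
  have hmR : (0 : ℝ) < m := by exact_mod_cast (show 0 < m from hm)
  rw [one_div_div, Real.rpow_def_of_pos hmR, ← Real.exp_log (hc m hm)]
  congr 1
  have := hkey m hm
  field_simp
  linarith

/-- the symmetrisation -/
theorem V1b_double (hζ : IsProbabilityMeasure ζ) (t : ℝ) : 1 - ‖charFun ζ (2 * t)‖ ^ 2 ≤ 4 * (1 - ‖charFun ζ t‖ ^ 2) := by
  set κ := ζ ∗ (ζ.map (fun x => (-1 : ℝ) * x)) with hκ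
  have h1 : IsProbabilityMeasure (ζ.map (fun x => (-1 : ℝ) * x)) :=
    Measure.isProbabilityMeasure_map (measurable_const_mul _).aemeasurable
  have h2 : IsProbabilityMeasure κ := by rw [hκ]; infer_instance
  have h3 : ∀ s : ℝ, ‖charFun ζ s‖ ^ 2 = ∫ x, Real.cos (s * x) ∂κ := by
    intro s
    have e1 : charFun κ s = ((‖charFun ζ s‖ ^ 2 : ℝ) : ℂ) := by
      rw [hκ, charFun_conv, charFun_map_mul, neg_one_mul, charFun_neg, Complex.mul_conj, Complex.normSq_eq_norm_sq]
    have e2 : (charFun κ s).re = ∫ x, Real.cos (s * x) ∂κ := by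
      rw [charFun_apply_real]
      have hint : Integrable (fun x : ℝ => Complex.exp (s * x * Complex.I)) κ := by
        refine Integrable.of_bound (by fun_prop) 1 (Eventually.of_forall fun x => ?_)
        have : (s * x * Complex.I : ℂ) = ((s * x : ℝ) : ℂ) * Complex.I := by push_cast; ring
        rw [this, Complex.norm_exp_ofReal_mul_I]
      have h4 := integral_re (𝕜 := ℂ) hint
      rw [← RCLike.re_eq_complex_re, ← h4]
      refine integral_congr_ae (Eventually.of_forall fun x => ?_)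
      show (Complex.exp (s * x * Complex.I)).re = _
      have : (s * x * Complex.I : ℂ) = ((s * x : ℝ) : ℂ) * Complex.I := by push_cast; ring
      rw [this, Complex.exp_ofReal_mul_I_re]
    rw [← e2, e1, Complex.ofReal_re]
  have hi : ∀ s : ℝ, Integrable (fun x => Real.cos (s * x)) κ := by
    intro s
    refine Integrable.of_bound (by fun_prop) 1 (Eventually.of_forall fun x => ?_)
    rw [Real.norm_eq_abs]
    exact Real.abs_cos_le_one _
  rw [h3, h3]
  have h4 : (1 : ℝ) - ∫ x, Real.cos (2 * t * x) ∂κ = ∫ x, (1 - Real.cos (2 * t * x)) ∂κ := by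
    rw [integral_sub (integrable_const _) (hi _)]
    simp
  have h5 : 4 * ((1 : ℝ) - ∫ x, Real.cos (t * x) ∂κ) = ∫ x, 4 * (1 - Real.cos (t * x)) ∂κ := by
    rw [integral_const_mul, integral_sub (integrable_const _) (hi _)]
    simp
  rw [h4, h5]
  refine integral_mono ((integrable_const _).sub (hi _)) (((integrable_const _).sub (hi _)).const_mul _) fun x => ?_
  show 1 - Real.cos (2 * t * x) ≤ 4 * (1 - Real.cos (t * x))
  have e1 : 2 * t * x = 2 * (t * x) := by ring
  rw [e1, Real.cos_two_mul]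
  nlinarith [sq_nonneg (1 - Real.cos (t * x))]

/-- **[STB-V1b]** PROOF. Let `c_m` be the number of `V1_types`. (1) Uniqueness: if `charFun ζ (r t) = charFun ζ (r' t)` for all `t` and `r < r'` then `charFun ζ t = charFun ζ (q t) = charFun ζ (q^j t) → 1` (`q = r/r' < 1`), so `ζ = dirac 0`. Hence
`c_{mk} = c_m c_k`, `c_1 = 1`. (2) `m < k` implies `c_m < c_k`: let `u = ‖charFun ζ ·‖`; if `q = c_k/c_m ≤ 1` then with `s = c_m t`, `u(q s) = u(c_k t) = u(t)^k = (u(t)^m)^{k/m} = u(s)^{k/m}`, so `u(q^j s) = u(s)^{(k/m)^j}` for all `s`; for a given `s` with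
`u s < 1` the right side tends to `0` while for small `s` (`u > 1/2` near `0`, `q^j s` stays in the neighbourhood) it stays `≥ 1/2`: take `s` in this neighbourhood with `u s < 1` — it exists: otherwise `u = 1` near `0` and then everywhere (`u (c_2 t) = u(t)^2`, `c_2 > 1` or `< 1` …; if `u = 1` near
zero then `1 - u(2t)^2 ≤ 4 (1 - u(t)^2)` gives `u = 1` everywhere). (3) A strictly increasing multiplicative function of `m ≥ 1` is a power: with `1/α = log c_2 / log 2 > 0`, from `2^i ≤ m^j < 2^{i+1}`: `c_2^i ≤ c_m^j ≤ c_2^{i+1}`, so `c_m = m^{1/α}`.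
(4) `α ≤ 2`: by `SS.norm` `‖charFun ζ t‖ = exp (-c |t|^α)`, so `1 - ‖charFun ζ t‖² ≤ 2c |t|^α`, and `1 - ‖charFun ζ t‖² = E[1 - cos (t (Y - Y'))] ≥ (t²/4) E[(Y-Y')²; |Y - Y'| ≤ 1/|t|] ≥ c' t²` for small `t`, `c' > 0`. -/
theorem V1_stable (hρ : IsProbabilityMeasure ρ) (hζ : IsProbabilityMeasure ζ) (hnd : ∀ x, ζ ≠ Measure.dirac x)
    (hpos : ∀ n, 0 < a n) (hlim : ∀ t : ℝ, Tendsto (fun n : ℕ => charFun ρ (t / a n) ^ n) atTop (𝓝 (charFun ζ t))) :
    ∃ α : ℝ, 0 < α ∧ α ≤ 2 ∧ SS α ζ := by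
  have hr := fun m hm => V1_types hρ hζ hnd hpos hlim m hm
  choose! c hc0 hcφ using hr
  set u : ℝ → ℝ := fun t => ‖charFun ζ t‖ with hu
  have huc : Continuous u := continuous_charFun.norm
  have hu0 : u 0 = 1 := by rw [hu]; simp
  have hun : ∀ t, 0 ≤ u t := fun t => norm_nonneg _
  have hu1 : ∀ t, u t ≤ 1 := fun t => norm_charFun_le_one t
  have hne : ∃ t, u t ≠ 1 := by
    by_contra hcon
    push Not at hcon
    obtain ⟨x, hx⟩ := eq_dirac_of_norm_charFun hcon
    exact hnd x hx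
  have hcu : ∀ m, 1 ≤ m → ∀ t, u (c m * t) = u t ^ m := by
    intro m hm t
    rw [hu]
    show ‖charFun ζ (c m * t)‖ = ‖charFun ζ t‖ ^ m
    rw [hcφ m hm t, norm_pow]
  have hmul : ∀ m k, 1 ≤ m → 1 ≤ k → c (m * k) = c m * c k := by
    intro m k hm hk
    have hmk : 1 ≤ m * k := Nat.mul_pos hm hk
    refine V1b_unique huc hu0 hne (hc0 _ hmk) (mul_pos (hc0 _ hm) (hc0 _ hk)) fun t => ?_
    rw [hcu _ hmk, mul_assoc, hcu _ hm, hcu _ hk, ← pow_mul, mul_comm]
  obtain ⟨α, hα, hcα⟩ := V1b_power hc0 hmul (fun m k hm hmk => V1b_mono huc hu0 hun hu1 hne hc0 hcu hm hmk)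
  have hSS : SS α ζ := ⟨hζ, hnd, fun m hm t => by rw [← hcα m hm, hcφ m hm t]⟩
  refine ⟨α, hα, ?_, hSS⟩
  by_contra h2
  push Not at h2
  obtain ⟨C, hC, hCn⟩ := hSS.norm hα
  -- `w (2 ^ j t) ≤ 4 ^ j w t`
  have hw : ∀ (j : ℕ) (t : ℝ), 1 - u (2 ^ j * t) ^ 2 ≤ 4 ^ j * (1 - u t ^ 2) := by
    intro j
    induction j with
    | zero => intro t; rw [pow_zero, pow_zero, one_mul, one_mul]
    | succ j ih =>
      intro t
      have e1 : (2 : ℝ) ^ (j + 1) * t = 2 * (2 ^ j * t) := by ring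
      rw [e1]
      have h3 := V1b_double hζ (2 ^ j * t)
      have h4 := ih t
      have h5 : 1 - u (2 * (2 ^ j * t)) ^ 2 ≤ 4 * (1 - u (2 ^ j * t) ^ 2) := h3
      calc 1 - u (2 * (2 ^ j * t)) ^ 2 ≤ 4 * (1 - u (2 ^ j * t) ^ 2) := h5
        _ ≤ 4 * (4 ^ j * (1 - u t ^ 2)) := by linarith
        _ = 4 ^ (j + 1) * (1 - u t ^ 2) := by ring
  have hup : ∀ t : ℝ, 0 ≤ t → 1 - u t ^ 2 ≤ 2 * C * t ^ α := by
    intro t ht
    have h3 : u t = Real.exp (-C * |t| ^ α) := hCn t
    rw [h3, ← Real.exp_nat_mul, abs_of_nonneg ht]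
    have h4 := Real.add_one_le_exp (((2 : ℕ) : ℝ) * (-C * t ^ α))
    push_cast at h4 ⊢
    linarith
  have hb : ∀ j : ℕ, 1 - u 1 ^ 2 ≤ 2 * C * ((4 : ℝ) / 2 ^ α) ^ j := by
    intro j
    have h3 := hw j (1 / 2 ^ j)
    have e1 : (2 : ℝ) ^ j * (1 / 2 ^ j) = 1 := by field_simp
    rw [e1] at h3
    refine h3.trans ?_
    have h4 := hup (1 / 2 ^ j) (by positivity)
    have h5 : ((1 : ℝ) / 2 ^ j) ^ α = (1 / 2 ^ α) ^ j := by
      rw [← one_div_pow, ← Real.rpow_natCast ((1 : ℝ) / 2) j, ← Real.rpow_mul (by norm_num), mul_comm, Real.rpow_mul (by norm_num), Real.rpow_natCast,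
        Real.div_rpow (by norm_num) (by norm_num), Real.one_rpow]
    rw [h5] at h4
    calc (4 : ℝ) ^ j * (1 - u (1 / 2 ^ j) ^ 2) ≤ 4 ^ j * (2 * C * (1 / 2 ^ α) ^ j) := mul_le_mul_of_nonneg_left h4 (by positivity)
      _ = 2 * C * ((4 : ℝ) / 2 ^ α) ^ j := by rw [div_pow, div_pow, one_pow]; ring
  have hlt : (4 : ℝ) / 2 ^ α < 1 := by
    rw [div_lt_one (by positivity)]
    have e4 : (4 : ℝ) = 2 ^ (2 : ℝ) := by norm_num
    rw [e4]
    exact Real.rpow_lt_rpow_of_exponent_lt (by norm_num) h2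
  have hlim2 : Tendsto (fun j : ℕ => 2 * C * ((4 : ℝ) / 2 ^ α) ^ j) atTop (𝓝 (2 * C * 0)) :=
    (tendsto_pow_atTop_nhds_zero_of_lt_one (by positivity) hlt).const_mul _
  have h3 : 1 - u 1 ^ 2 ≤ 2 * C * 0 := ge_of_tendsto hlim2 (Eventually.of_forall hb)
  have h4 : u 1 = Real.exp (-C) := by
    have := hCn 1
    rw [abs_one, Real.one_rpow, mul_one] at this
    exact this
  have h5 : u 1 < 1 := by
    rw [h4, ← Real.exp_zero]
    exact Real.exp_lt_exp.2 (by linarith)
  nlinarith [hun 1]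

/-- **[STB-V1c]** Integrable strictly stable laws have index greater than one. PROOF. `1 - ‖charFun ζ t‖² = E[1 - cos (t (Y - Y'))] = o(t)` as `t → 0+` (dominated convergence: `(1 - cos (t x))/t ≤ |x|` and it tends to `0`), while by `SS.norm` it equals
`1 - exp (-2c t^α) ≥ c t^α ≥ c t` for small `t` if `α ≤ 1`. -/
theorem SS.one_lt (h : SS α ζ) (hα : 0 < α) (hint : Integrable (fun x : ℝ => x) ζ) : 1 < α := by
  have hζ := h.prob
  by_contra hcon
  push Not at hcon
  obtain ⟨C, hC, hCn⟩ := h.norm hα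
  have hmem : MemLp id (1 : ℕ) ζ := by
    rw [Nat.cast_one, memLp_one_iff_integrable]
    exact hint
  have hcd : ContDiff ℝ 1 (charFun ζ) := by
    have := contDiff_charFun hmem
    exact_mod_cast this
  have hd : DifferentiableAt ℝ (fun t : ℝ => ‖charFun ζ t‖ ^ 2) 0 :=
    ((hcd.differentiable (by norm_num)).differentiableAt).norm_sq ℝ
  obtain ⟨g', hg'⟩ : ∃ g', HasDerivAt (fun t : ℝ => ‖charFun ζ t‖ ^ 2) g' 0 := ⟨_, hd.hasDerivAt⟩
  have hg0 : g' = 0 := by
    have h1 : HasDerivAt (fun t : ℝ => ‖charFun ζ (-t)‖ ^ 2) (g' * -1) 0 := by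
      have h2 : HasDerivAt (fun t : ℝ => ‖charFun ζ t‖ ^ 2) g' (-(0 : ℝ)) := by rw [neg_zero]; exact hg'
      exact h2.comp (0 : ℝ) (hasDerivAt_neg (0 : ℝ))
    have h3 : (fun t : ℝ => ‖charFun ζ (-t)‖ ^ 2) = fun t : ℝ => ‖charFun ζ t‖ ^ 2 := by
      funext t
      rw [charFun_neg, RCLike.norm_conj]
    rw [h3] at h1
    have h4 := h1.unique hg'
    linarith
  rw [hg0] at hg'
  have he : HasDerivAt (fun t : ℝ => Real.exp (-(2 * C) * t)) (-(2 * C)) 0 := by
    have h1 : HasDerivAt (fun t : ℝ => -(2 * C) * t) (-(2 * C)) 0 := by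
      simpa using (hasDerivAt_id (0 : ℝ)).const_mul (-(2 * C))
    have h2 := h1.exp
    simpa using h2
  have s1 := (hasDerivAt_iff_tendsto_slope_zero.1 hg').mono_left (nhdsGT_le_nhdsNE 0)
  have s2 := (hasDerivAt_iff_tendsto_slope_zero.1 he).mono_left (nhdsGT_le_nhdsNE 0)
  have hle : (0 : ℝ) ≤ -(2 * C) := by
    refine le_of_tendsto_of_tendsto s1 s2 ?_
    have h1 : ∀ᶠ t : ℝ in 𝓝[>] (0 : ℝ), t < 1 := eventually_nhdsWithin_of_eventually_nhds (gt_mem_nhds one_pos)
    filter_upwards [self_mem_nhdsWithin, h1] with t ht ht1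
    have ht0 : (0 : ℝ) < t := ht
    have h2 : t ≤ t ^ α := by
      have := Real.rpow_le_rpow_of_exponent_ge ht0 ht1.le hcon
      rwa [Real.rpow_one] at this
    have h3 : ‖charFun ζ (0 + t)‖ ^ 2 ≤ Real.exp (-(2 * C) * (0 + t)) := by
      rw [zero_add, hCn t, ← Real.exp_nat_mul, abs_of_pos ht0]
      apply Real.exp_le_exp.2
      push_cast
      nlinarith
    have h4 : ‖charFun ζ 0‖ ^ 2 = 1 := by simp
    rw [smul_eq_mul, smul_eq_mul, h4, mul_zero, Real.exp_zero]
    exact mul_le_mul_of_nonneg_left (by linarith) (inv_nonneg.2 ht0.le)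
  linarith

/-- the index is determined by the law -/
theorem SS.index_unique {α β : ℝ} (h : SS α ζ) (h' : SS β ζ) (hα : 0 < α) (hβ : 0 < β) : α = β := by
  obtain ⟨c, hc, h1⟩ := h.norm hα
  obtain ⟨c', hc', h2⟩ := h'.norm hβ
  have h3 : ∀ t : ℝ, c * |t| ^ α = c' * |t| ^ β := by
    intro t
    have h4 := (h1 t).symm.trans (h2 t)
    have h5 := Real.exp_injective h4
    linarith
  have h4 := h3 1
  rw [abs_one, Real.one_rpow, Real.one_rpow, mul_one, mul_one] at h4
  have h5 := h3 2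
  rw [h4] at h5
  have h6 : (2 : ℝ) ^ α = 2 ^ β := by
    have := mul_left_cancel₀ hc'.ne' h5
    rwa [abs_of_pos (by norm_num : (0 : ℝ) < 2)] at this
  have h7 := congrArg Real.log h6
  rw [Real.log_rpow (by norm_num), Real.log_rpow (by norm_num)] at h7
  exact mul_right_cancel₀ (Real.log_pos (by norm_num : (1 : ℝ) < 2)).ne' h7

end Pool.Agent.BPT
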