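import Pool.Agent.MP_99a865_pr.ST.U1
import Pool.Agent.MP_99a865_pr.ST.V1

/-! **[STB-V2]** From the statement level: stability is automatic. -/

open MeasureTheory ProbabilityTheory Filter Topology
open scoped ENNReal NNReal

namespace Pool.Agent.BPT

variable {α : ℝ} {ζ μ ν : Measure ℝ} {a : ℕ → ℝ}

private lemma V2_fre (ρ : Measure ℝ) (m : ℕ) :
    (seqLaw ρ).map (fun x => ∑ i ∈ Finset.range m, x i) = fre ρ m 0 := by
  unfold fre
  congr 1
  funext x
  simp [S]

/-- (characteristic functions, as `StrictlyStable.ss`) -/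
theorem SS.strictlyStable (h : SS α ζ) : StrictlyStable α ζ := by
  have hp := h.prob
  refine ⟨h.prob, h.nd, fun m hm => ?_⟩
  have h6 : (Measure.infinitePi fun _ : ℕ => ζ).map (fun x => ∑ i ∈ Finset.range m, x i) = fre ζ m 0 := V2_fre ζ m
  have hsum : Measurable fun x : ℕ → ℝ => ∑ i ∈ Finset.range m, x i :=
    Finset.measurable_sum _ fun i _ => measurable_pi_apply i
  have h7 : IsProbabilityMeasure ((Measure.infinitePi fun _ : ℕ => ζ).map (fun x => ∑ i ∈ Finset.range m, x i)) :=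
    Measure.isProbabilityMeasure_map hsum.aemeasurable
  have h8 : IsProbabilityMeasure (ζ.map fun x => (m : ℝ) ^ (1 / α) * x) :=
    Measure.isProbabilityMeasure_map (measurable_const_mul _).aemeasurable
  apply Measure.ext_of_charFun
  funext t
  rw [charFun_map_mul, ← h.st m hm t, h6, charFun_fre]
  simp

private lemma V2_law (h0 : Hyp0 μ ν) (n : ℕ) (s : ℝ) (f : BoundedContinuousFunction ℝ ℝ) :
    ∫ p, f ((∑ i ∈ Finset.range n, (p.2 i - p.1 i)) / s) ∂(queueLaw μ ν) =
      ∫ y, f (y / s) ∂(fre (stepLaw μ ν 1) n 0) := by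
  have hμ := h0.probμ
  have hν := h0.probν
  have hρ : IsProbabilityMeasure (stepLaw μ ν 1) := prob_stepLaw 1
  have hfm : Measurable fun y : ℝ => f (y / s) := f.continuous.measurable.comp (measurable_id'.div_const s)
  have hsum : Measurable fun x : ℕ → ℝ => ∑ i ∈ Finset.range n, x i :=
    Finset.measurable_sum _ fun i _ => measurable_pi_apply i
  have hg : Measurable fun x : ℕ → ℝ => f ((∑ i ∈ Finset.range n, x i) / s) := hfm.comp hsum
  have hg2 : Measurable fun ω : ℕ → ℝ × ℝ => f ((∑ i ∈ Finset.range n, steps 1 ω i) / s) := hg.comp measurable_steps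
  have e1 : ∫ y, f (y / s) ∂(fre (stepLaw μ ν 1) n 0) =
      ∫ x, f ((∑ i ∈ Finset.range n, x i) / s) ∂(seqLaw (stepLaw μ ν 1)) := by
    rw [← V2_fre, integral_map hsum.aemeasurable hfm.aestronglyMeasurable]
  have e2 : ∫ x, f ((∑ i ∈ Finset.range n, x i) / s) ∂(seqLaw (stepLaw μ ν 1)) =
      ∫ ω, f ((∑ i ∈ Finset.range n, steps 1 ω i) / s) ∂(PQ μ ν) := by
    rw [← map_steps_gen (μ := μ) (ν := ν) 1]
    exact integral_map measurable_steps.aemeasurable hg.aestronglyMeasurable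
  have e3 : ∫ ω, f ((∑ i ∈ Finset.range n, steps 1 ω i) / s) ∂(PQ μ ν) =
      ∫ p, f ((∑ i ∈ Finset.range n, steps 1 (zip p.1 p.2) i) / s) ∂(queueLaw μ ν) := by
    rw [← map_zip μ ν]
    exact integral_map measurable_zip.aemeasurable hg2.aestronglyMeasurable
  rw [e1, e2, e3]
  refine integral_congr_ae (Eventually.of_forall fun p => ?_)
  simp [steps, zip]

private lemma V2_lim (h0 : Hyp0 μ ν) (hζ : IsProbabilityMeasure ζ) (ha : Attracted μ ν ζ a) (t : ℝ) :
    Tendsto (fun n : ℕ => charFun (stepLaw μ ν 1) (t / a n) ^ n) atTop (𝓝 (charFun ζ t)) := by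
  have hμ := h0.probμ
  have hν := h0.probν
  have hρ : IsProbabilityMeasure (stepLaw μ ν 1) := prob_stepLaw 1
  let C : BoundedContinuousFunction ℝ ℝ := BoundedContinuousFunction.ofNormedAddCommGroup (fun x => Real.cos (t * x))
    (by fun_prop) 1 (fun x => by rw [Real.norm_eq_abs]; exact Real.abs_cos_le_one _)
  let Sn : BoundedContinuousFunction ℝ ℝ := BoundedContinuousFunction.ofNormedAddCommGroup (fun x => Real.sin (t * x))
    (by fun_prop) 1 (fun x => by rw [Real.norm_eq_abs]; exact Real.abs_sin_le_one _)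
  have key : ∀ (κ : Measure ℝ) [IsProbabilityMeasure κ] (s : ℝ), charFun κ (t / s) =
      ((∫ y, C (y / s) ∂κ : ℝ) : ℂ) + ((∫ y, Sn (y / s) ∂κ : ℝ) : ℂ) * Complex.I := by
    intro κ _ s
    have i1 : Integrable (fun y : ℝ => ((C (y / s) : ℝ) : ℂ)) κ := by
      refine Integrable.ofReal (Integrable.of_bound ?_ 1 (Eventually.of_forall fun y => ?_))
      · exact (C.continuous.measurable.comp (measurable_id'.div_const s)).aestronglyMeasurable
      · show ‖Real.cos (t * (y / s))‖ ≤ 1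
        rw [Real.norm_eq_abs]; exact Real.abs_cos_le_one _
    have i2 : Integrable (fun y : ℝ => ((Sn (y / s) : ℝ) : ℂ) * Complex.I) κ := by
      refine (Integrable.ofReal (Integrable.of_bound ?_ 1 (Eventually.of_forall fun y => ?_))).mul_const _
      · exact (Sn.continuous.measurable.comp (measurable_id'.div_const s)).aestronglyMeasurable
      · show ‖Real.sin (t * (y / s))‖ ≤ 1
        rw [Real.norm_eq_abs]; exact Real.abs_sin_le_one _
    rw [← integral_complex_ofReal, ← integral_complex_ofReal, ← integral_mul_const, ← integral_add i1 i2, charFun_apply_real]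
    refine integral_congr_ae (Eventually.of_forall fun y => ?_)
    show Complex.exp (↑(t / s) * ↑y * Complex.I) = (Real.cos (t * (y / s)) : ℂ) + (Real.sin (t * (y / s)) : ℂ) * Complex.I
    have e : (↑(t / s) * ↑y * Complex.I : ℂ) = ((t * (y / s) : ℝ) : ℂ) * Complex.I := by
      push_cast
      ring
    rw [e, Complex.exp_mul_I, Complex.ofReal_cos, Complex.ofReal_sin]
  have h1 := ha.2 C
  have h2 := ha.2 Sn
  simp_rw [V2_law h0] at h1 h2
  have h3 : Tendsto (fun n : ℕ => ((∫ y, C (y / a n) ∂(fre (stepLaw μ ν 1) n 0) : ℝ) : ℂ) +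
      ((∫ y, Sn (y / a n) ∂(fre (stepLaw μ ν 1) n 0) : ℝ) : ℂ) * Complex.I) atTop
      (𝓝 (((∫ y, C y ∂ζ : ℝ) : ℂ) + ((∫ y, Sn y ∂ζ : ℝ) : ℂ) * Complex.I)) :=
    ((Complex.continuous_ofReal.tendsto _).comp h1).add
      (((Complex.continuous_ofReal.tendsto _).comp h2).mul_const _)
  have h4 : charFun ζ t = ((∫ y, C y ∂ζ : ℝ) : ℂ) + ((∫ y, Sn y ∂ζ : ℝ) : ℂ) * Complex.I := by
    have := key ζ 1
    simpa using this
  rw [h4]
  refine h3.congr fun n => ?_
  rw [← key, charFun_fre]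
  simp


/-- PROOF. As `Attracted.da` the hypothesis gives `charFun (stepLaw μ ν 1) (t / a n) ^ n → charFun ζ t`; then `V1_stable`, `SS.one_lt`, `SS.strictlyStable`. -/
theorem Attracted.stable (h0 : Hyp0 μ ν) (hp : IsProbabilityMeasure ζ) (hnd : ∀ x, ζ ≠ Measure.dirac x)
    (hint : Integrable (fun x : ℝ => x) ζ) (ha : Attracted μ ν ζ a) :
    ∃ α : ℝ, 1 < α ∧ α ≤ 2 ∧ StrictlyStable α ζ := by
  have hμ := h0.probμ
  have hν := h0.probν
  obtain ⟨α, h1, h2, h3⟩ := V1_stable (prob_stepLaw 1) hp hnd ha.1 (V2_lim h0 hp ha)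
  exact ⟨α, h3.one_lt h1 hint, h2, h3.strictlyStable⟩

end Pool.Agent.BPT
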