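import Pool.Agent.MP_99a865_pr.ST.Fin
import Pool.Agent.MP_99a865_pr.ST.V2
import Pool.Agent.MP_99a865_pr.ST.G2
import Pool.Agent.MP_99a865_pr.ST.X9b
import Pool.Agent.MP_99a865_pr.ST.F0b
import Pool.Agent.MP_99a865_pr.ST.SDefs

/-! **[STB-FIN2]** The limit theorem in the domain of attraction of a stable law, final form. -/

open MeasureTheory ProbabilityTheory Filter Topology
open scoped ENNReal NNReal

namespace Pool.Agent.BPT

theorem DA.excLimits {α : ℝ} {ζ ρ : Measure ℝ} {a : ℕ → ℝ} (h : DA α ζ ρ a) : ExcLimits α ζ where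
  kill := fun _ ht _ _ hf _ hx => QT_tendsto h ht hf hx
  exit := fun _ ht _ hx => ⟨hQ_pos h ht hx, X9b_tendsto h ht hx⟩
  excn := fun l hl hA => by
    cases l with
    | nil => exact absurd rfl hl
    | cons p l => exact (exc_eq h p.1 p.2 l hA).2

lemma IsExcursion.ep {α : ℝ} {ζ : Measure ℝ} {Ω : Type} [MeasurableSpace Ω] {P : Measure Ω} {e : ℝ → Ω → ℝ}
    (h : IsExcursion α ζ P e) : EP (exc α ζ) P e where
  prob := h.prob
  meas := h.meas
  path := h.path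
  fdd := by
    intro k hk f hf
    obtain ⟨M, hM, hfM⟩ := hf
    have hk0 : (0 : ℝ) < k := by
      have : 0 < k := by omega
      exact_mod_cast this
    have hT : Times (k - 1) (U2_tau k) := by
      refine ⟨by omega, by unfold U2_tau; positivity, fun i j hij _ => ?_, ?_⟩
      · unfold U2_tau
        have : (i : ℝ) < j := by exact_mod_cast hij
        exact (div_lt_div_iff_of_pos_right hk0).2 (by linarith)
      · unfold U2_tau
        rw [div_lt_one hk0]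
        have h1 : ((k - 1 - 1 : ℕ) : ℝ) = (k : ℝ) - 2 := by
          rw [Nat.sub_sub, Nat.cast_sub hk]
          norm_num
        rw [h1]
        linarith
    have h1 := h.fdd (k - 1) (U2_tau k) hT (fun j => f (j + 1)) ⟨M, hM, fun j => hfM _⟩
    rw [U2_tts] at h1
    rw [← h1]
    congr 1
    funext ω
    rw [Finset.prod_Ico_eq_prod_range]
    refine Finset.prod_congr rfl fun j _ => ?_
    unfold U2_tau
    push_cast
    rw [add_comm (1 : ℝ), add_comm 1 j]

/-- the index of a strictly stable law -/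
noncomputable def idx (ζ : Measure ℝ) : ℝ := sInf {α : ℝ | 1 < α ∧ α ≤ 2 ∧ StrictlyStable α ζ}

lemma idx_eq {α : ℝ} {ζ : Measure ℝ} (h1 : 1 < α) (h2 : α ≤ 2) (hs : StrictlyStable α ζ) : idx ζ = α := by
  have : {β : ℝ | 1 < β ∧ β ≤ 2 ∧ StrictlyStable β ζ} = {α} := by
    ext β
    simp only [Set.mem_ofPred_eq, Set.mem_singleton_iff]
    constructor
    · rintro ⟨h3, h4, h5⟩
      exact SS.index_unique h5.ss hs.ss (by linarith) (by linarith)
    · rintro rfl
      exact ⟨h1, h2, hs⟩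
  unfold idx
  rw [this, csInf_singleton]

/-- the transfer of the walk -/
lemma walk_transfer {μ ν : Measure ℝ} (h : Hyp0 μ ν) (c : Bool) (n K : ℕ) (t : ℕ → ℕ) (s : ℝ) (f : ℕ → ℝ → ℝ)
    (hf : ∀ j, Measurable (f j)) :
    ∫ p, ∏ j ∈ Finset.range K, f j ((∑ i ∈ Finset.range (t j), (p.2 i - p.1 i)) / s)
      ∂(ProbabilityTheory.cond (queueLaw μ ν) (busyEvent c n)) =
      EN (DD' c) μ ν n fun ω => ∏ j ∈ Finset.range K, f j (Zw (t j) ω / s) := by
  refine transfer_gen h c n _ _ ?_ fun p _ _ _ => ?_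
  · exact Finset.measurable_prod _ fun j _ => (hf j).comp ((measurable_Zw (t j)).div_const s)
  · refine Finset.prod_congr rfl fun j _ => ?_
    unfold Zw Dp Ar zip
    rw [Finset.sum_sub_distrib]

/-- **Limit theorem in a stable domain of attraction.** -/
theorem stable_fin : ∃ LH LW LT : Measure ℝ → Measure ℝ,
    ∀ (ζ : Measure ℝ) (c : Bool) (μ ν : Measure ℝ) (a : ℕ → ℝ),
      IsProbabilityMeasure ζ → Integrable (fun x : ℝ => x) ζ → (∀ x, ζ ≠ Measure.dirac x) →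
      Hyp0 μ ν → Attracted μ ν ζ a →
      (lq c μ ν).NeBot ∧
      (∀ x, LH ζ ≠ Measure.dirac x ∧ LW ζ ≠ Measure.dirac x ∧ LT ζ ≠ Measure.dirac x) ∧
      LimLaw (lq c μ ν) (fun n => ProbabilityTheory.cond (queueLaw μ ν) (busyEvent c n))
        (fun n p => a n / n * height c p.1 p.2 n) (LH ζ) ∧
      LimLaw (lq c μ ν) (fun n => ProbabilityTheory.cond (queueLaw μ ν) (busyEvent c n))
        (fun n p => width c p.1 p.2 n / a n) (LW ζ) ∧
      LimLaw (lq c μ ν) (fun n => ProbabilityTheory.cond (queueLaw μ ν) (busyEvent c n))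
        (fun n p => a n / n ^ 2 * totalHeight c p.1 p.2 n) (LT ζ) ∧
      ∃ α : ℝ, 1 < α ∧ α ≤ 2 ∧ StrictlyStable α ζ ∧ ExcLimits α ζ ∧
        (∀ (K : ℕ) (τ : ℕ → ℝ), Times K τ → ∀ f : ℕ → ℝ → ℝ, (∃ M > (0 : ℝ), ∀ j, BL M (f j)) →
          Tendsto (fun n : ℕ => ∫ p, ∏ j ∈ Finset.range K,
              f j ((∑ i ∈ Finset.range ⌊τ j * n⌋₊, (p.2 i - p.1 i)) / a n)
              ∂(ProbabilityTheory.cond (queueLaw μ ν) (busyEvent c n)))
            (lq c μ ν) (𝓝 (exc α ζ (tts τ f K)))) ∧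
        ∀ (Ω : Type) (_ : MeasurableSpace Ω) (P : Measure Ω) (e : ℝ → Ω → ℝ), IsExcursion α ζ P e →
          ExcursionLaws P e (LH ζ) (LW ζ) (LT ζ) := by
  obtain ⟨LH, LW, LT, hL⟩ := stable_main
  refine ⟨fun ζ => LH (idx ζ) ζ, fun ζ => LW (idx ζ) ζ, fun ζ => LT (idx ζ) ζ, ?_⟩
  intro ζ c μ ν a hp hint hnd h0 ha
  obtain ⟨α, h1, h2, hs⟩ := Attracted.stable h0 hp hnd hint ha
  have hi := idx_eq h1 h2 hs
  have hda := Attracted.da h0 h1 h2 hs ha
  obtain ⟨c1, ⟨c2, c3, c4⟩, c5, c6, c7, c8, c9⟩ := hL α ζ c μ ν a h1 h2 hs h0 ha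
  simp only [hi]
  refine ⟨c1, c5, ⟨c2, c6⟩, ⟨c3, c7⟩, ⟨c4, c8⟩, α, h1, h2, hs, hda.excLimits, ?_, fun Ω mΩ P e he => c9 Ω mΩ P e he.ep⟩
  intro K τ hτ f hf
  obtain ⟨M, hM, hfM⟩ := hf
  have hF := fddQ (dom_DD' c) h0.qi hda K hτ.one τ hτ.pos hτ.incr hτ.lt hM f hfM
  rw [lq_eq h0 c, Metric.tendsto_nhds]
  intro ε hε
  obtain ⟨n₀, hn₀⟩ := hF (ε / 2) (half_pos hε)
  unfold lQ
  rw [eventually_inf_principal]
  filter_upwards [eventually_ge_atTop n₀] with n h3 h4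
  rw [walk_transfer h0 c n K (fun j => ⌊τ j * n⌋₊) (a n) f fun j => (hfM j).measurable, Real.dist_eq]
  have h5 := hn₀ n h3 h4
  linarith

/-- The limit laws for the standard normal law. -/
theorem stable_gauss {LH LW LT : Measure ℝ → Measure ℝ} {W : Measure ℝ} [IsProbabilityMeasure W] (hW : AreaLim W)
    (hL : ∀ (c : Bool) (μ ν : Measure ℝ) (a : ℕ → ℝ), Hyp0 μ ν → Attracted μ ν (gaussianReal 0 1) a →
      LimLaw (lq c μ ν) (fun n => ProbabilityTheory.cond (queueLaw μ ν) (busyEvent c n))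
        (fun n p => a n / n * height c p.1 p.2 n) (LH (gaussianReal 0 1)) ∧
      LimLaw (lq c μ ν) (fun n => ProbabilityTheory.cond (queueLaw μ ν) (busyEvent c n))
        (fun n p => width c p.1 p.2 n / a n) (LW (gaussianReal 0 1)) ∧
      LimLaw (lq c μ ν) (fun n => ProbabilityTheory.cond (queueLaw μ ν) (busyEvent c n))
        (fun n p => a n / n ^ 2 * totalHeight c p.1 p.2 n) (LT (gaussianReal 0 1))) :
    (∀ x > 0, (LH (gaussianReal 0 1)).real (Set.Iic (2 * x)) = FF x ∧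
      (LW (gaussianReal 0 1)).real (Set.Iic x) = FF x) ∧
    LT (gaussianReal 0 1) = W.map fun x => 2 * x := by
  obtain ⟨σ, h⟩ := hyp_mu2
  obtain ⟨h1, h2, h3⟩ := hL true mu2 mu2 _ ⟨h.probμ, h.probν, h.posμ, h.posν, h.meanμ, h.meanν⟩ (attracted_gauss h)
  exact gauss_laws h true hW h1 h2 h3

end Pool.Agent.BPT
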