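import Pool.Agent.MP_99a865_pr.ST.QE8b
import Pool.Agent.MP_99a865_pr.ST.Fin

/-! **[STB-QE9]** Existence of the normalised excursion, statement level. -/

open MeasureTheory ProbabilityTheory Filter Topology
open scoped ENNReal NNReal

namespace Pool.Agent.BPT

/-- **Existence of the normalised excursion**: positive, right-continuous with positive left limits on `(0,1)` -/
theorem exists_excursion {α : ℝ} {ζ μ ν : Measure ℝ} {a : ℕ → ℝ} (h0 : Hyp0 μ ν) (h1 : 1 < α) (h2 : α ≤ 2)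
    (hs : StrictlyStable α ζ) (ha : Attracted μ ν ζ a) (c : Bool) :
    ∃ P : Measure (ℚ → ℝ), IsExcursion α ζ P eR ∧
      ∀ᵐ x ∂P, ∀ t : ℝ, 0 < t → t < 1 → ∃ l > (0 : ℝ), Tendsto (fun s => eR s x) (𝓝[<] t) (𝓝 l) := by
  have hne := neBot_attr h0 hs ha c
  rw [lq_eq h0 c] at hne
  exact exists_excursion_DA (dom_DD' c) h0.qi (Attracted.da h0 h1 h2 hs ha) hne

end Pool.Agent.BPT
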