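import Pool.Agent.MP_99a865_pr.ST.Fin2
import Pool.Agent.MP_99a865_pr.ST.QE9

/-! **[STB-FIN3]** The limit theorem in the domain of attraction of a stable law, with the excursion process. -/

open MeasureTheory ProbabilityTheory Filter Topology
open scoped ENNReal NNReal

namespace Pool.Agent.BPT

/-- `P` is a law of the normalised excursion (coordinates at rational times; the process is `eR`) -/
def ExcLaw (ζ : Measure ℝ) (P : Measure (ℚ → ℝ)) : Prop :=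
  ∃ α : ℝ, 1 < α ∧ α ≤ 2 ∧ StrictlyStable α ζ ∧ IsExcursion α ζ P eR ∧
    ∀ᵐ x ∂P, ∀ t : ℝ, 0 < t → t < 1 → ∃ l > (0 : ℝ), Tendsto (fun s => eR s x) (𝓝[<] t) (𝓝 l)

/-- **Limit theorem in a stable domain of attraction.** There are probability measures `P ζ` and a process
`e` on `(0,1)`, positive, right-continuous with positive left limits, such that for all queues with
`((v₁ - u₁) + ⋯ + (vₙ - uₙ))/aₙ ⇒ ζ`, `ζ` integrable and not a point mass, … -/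
theorem stable_exc : ∃ (P : Measure ℝ → Measure (ℚ → ℝ)) (e : ℝ → (ℚ → ℝ) → ℝ),
    ∀ (ζ : Measure ℝ) (c : Bool) (μ ν : Measure ℝ) (a : ℕ → ℝ),
      IsProbabilityMeasure ζ → Integrable (fun x : ℝ => x) ζ → (∀ x, ζ ≠ Measure.dirac x) →
      Hyp0 μ ν → Attracted μ ν ζ a →
      (lq c μ ν).NeBot ∧
      (∃ α : ℝ, 1 < α ∧ α ≤ 2 ∧ StrictlyStable α ζ ∧ ExcLimits α ζ ∧ IsExcursion α ζ (P ζ) e ∧
        ∀ (K : ℕ) (τ : ℕ → ℝ), Times K τ → ∀ f : ℕ → ℝ → ℝ, (∃ M > (0 : ℝ), ∀ j, BL M (f j)) →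
          Tendsto (fun n : ℕ => ∫ p, ∏ j ∈ Finset.range K,
              f j ((∑ i ∈ Finset.range ⌊τ j * n⌋₊, (p.2 i - p.1 i)) / a n)
              ∂(ProbabilityTheory.cond (queueLaw μ ν) (busyEvent c n)))
            (lq c μ ν) (𝓝 (∫ x, ∏ j ∈ Finset.range K, f j (e (τ j) x) ∂(P ζ)))) ∧
      (∀ᵐ x ∂(P ζ), (∀ t : ℝ, 0 < t → t < 1 → ∃ l > (0 : ℝ), Tendsto (fun s => e s x) (𝓝[<] t) (𝓝 l)) ∧
        IntegrableOn (fun t => 1 / e t x) (Set.Ioo 0 1) ∧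
        BddAbove (Set.range fun t : Set.Ioo (0 : ℝ) 1 => e t x)) ∧
      LimLaw (lq c μ ν) (fun n => ProbabilityTheory.cond (queueLaw μ ν) (busyEvent c n))
        (fun n p => a n / n * height c p.1 p.2 n)
        ((P ζ).map fun x => ∫ t in Set.Ioo (0 : ℝ) 1, 1 / e t x) ∧
      LimLaw (lq c μ ν) (fun n => ProbabilityTheory.cond (queueLaw μ ν) (busyEvent c n))
        (fun n p => width c p.1 p.2 n / a n)
        ((P ζ).map fun x => ⨆ t : Set.Ioo (0 : ℝ) 1, e t x) ∧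
      LimLaw (lq c μ ν) (fun n => ProbabilityTheory.cond (queueLaw μ ν) (busyEvent c n))
        (fun n p => a n / n ^ 2 * totalHeight c p.1 p.2 n)
        ((P ζ).map fun x => ∫ t in Set.Ioo (0 : ℝ) 1, (1 - t) / e t x) ∧
      ∀ y : ℝ, ((P ζ).map fun x => ∫ t in Set.Ioo (0 : ℝ) 1, 1 / e t x) ≠ Measure.dirac y ∧
        ((P ζ).map fun x => ⨆ t : Set.Ioo (0 : ℝ) 1, e t x) ≠ Measure.dirac y ∧
        ((P ζ).map fun x => ∫ t in Set.Ioo (0 : ℝ) 1, (1 - t) / e t x) ≠ Measure.dirac y := by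
  classical
  obtain ⟨LH, LW, LT, hL⟩ := stable_fin
  refine ⟨fun ζ => if h : ∃ P, ExcLaw ζ P then h.choose else 0, eR, ?_⟩
  intro ζ c μ ν a hp hint hnd h0 ha
  obtain ⟨c1, c2, c3, c4, c5, α, h1, h2, hs, c6, c7, c8⟩ := hL ζ c μ ν a hp hint hnd h0 ha
  have hex : ∃ P, ExcLaw ζ P := by
    obtain ⟨P, hP1, hP2⟩ := exists_excursion h0 h1 h2 hs ha c
    exact ⟨P, α, h1, h2, hs, hP1, hP2⟩
  simp only [dif_pos hex]
  obtain ⟨α', h1', h2', hs', hE, hl⟩ := hex.choose_spec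
  have hα : α' = α := by rw [← idx_eq h1' h2' hs', idx_eq h1 h2 hs]
  subst hα
  obtain ⟨d1, d2, d3, d4, d5, d6⟩ := c8 _ _ _ _ hE
  rw [d2, d4, d6]
  refine ⟨c1, ⟨α', h1, h2, hs, c6, hE, fun K τ hτ f hf => ?_⟩, ?_, c3, c4, c5, c2⟩
  · rw [hE.fdd K τ hτ f hf]
    exact c7 K τ hτ f hf
  · filter_upwards [hl, d1, d3] with x e1 e2 e3
    exact ⟨e1, e2, e3⟩

end Pool.Agent.BPT
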