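import Pool.Agent.MP_99a865_pr.ST.Defs

/-! **[STB-K0a]** Locally uniform convergence along cosets: elementary facts. -/

open MeasureTheory ProbabilityTheory Filter Topology
open scoped ENNReal NNReal

namespace Pool.Agent.BPT

variable {α : ℝ} {ζ ρ : Measure ℝ} {a : ℕ → ℝ} {D : Set ℝ}

/-- **[STB-K0a]** `UC` from sequences. PROOF. By contradiction: there are `ε, η > 0` and, for infinitely many `j`, points `y_j` of the coset
with `y_j/s_j ∈ [ε, 1/ε]` and `|F j y_j - f (y_j/s_j)| > η`; extract a subsequence along which `y_j/s_j` converges to some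
`y ∈ [ε, 1/ε]` (compactness); then `F j y_j → f y` by hypothesis and `f (y_j/s_j) → f y` by continuity. (If `ε > 1/ε` the set is
empty.) -/
theorem UC_of_seq {h : ℝ} {c s : ℕ → ℝ} {F : ℕ → ℝ → ℝ} {f : ℝ → ℝ} (hs : ∀ j, 0 < s j)
    (hf : ContinuousOn f (Set.Ioi 0))
    (H : ∀ φ : ℕ → ℕ, StrictMono φ → ∀ ys : ℕ → ℝ, (∀ i, Cos h (c (φ i)) (ys i)) → ∀ y > (0 : ℝ),
      Tendsto (fun i => ys i / s (φ i)) atTop (𝓝 y) → Tendsto (fun i => F (φ i) (ys i)) atTop (𝓝 (f y))) :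
    UC h c s F f := by
  by_contra hcon
  unfold UC at hcon
  push Not at hcon
  obtain ⟨ε, hε, η, hη, hfr⟩ := hcon
  obtain ⟨φ, hφ, hP⟩ := extraction_of_frequently_atTop hfr
  choose ys hc h1 h2 h3 using hP
  have hz : ∀ i, ys i / s (φ i) ∈ Set.Icc ε (1 / ε) := fun i => by
    refine ⟨(le_div_iff₀ (hs _)).2 (h1 i), (div_le_iff₀ (hs _)).2 ?_⟩
    have := h2 i
    rwa [div_mul_eq_mul_div, one_mul]
  obtain ⟨y, hy, ψ, hψ, hl⟩ := isCompact_Icc.tendsto_subseq hz
  have hy0 : 0 < y := lt_of_lt_of_le hε hy.1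
  have t1 := H (φ ∘ ψ) (hφ.comp hψ) (fun i => ys (ψ i)) (fun i => hc (ψ i)) y hy0 hl
  have t2 : Tendsto (fun i => f (ys (ψ i) / s (φ (ψ i)))) atTop (𝓝 (f y)) :=
    ((hf.continuousAt (Ioi_mem_nhds hy0)).tendsto).comp hl
  have t3 := (t1.sub t2).abs
  rw [sub_self, abs_zero] at t3
  have t4 : η ≤ 0 := ge_of_tendsto t3 (Eventually.of_forall fun i => (h3 (ψ i)).le)
  exact absurd t4 (not_le.2 hη)

/-- **[STB-K0b]** and conversely (also along subsequences) -/
theorem UC.seq {h : ℝ} {c s : ℕ → ℝ} {F : ℕ → ℝ → ℝ} {f : ℝ → ℝ} (hU : UC h c s F f)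
    (hs : ∀ j, 0 < s j) (hf : ContinuousOn f (Set.Ioi 0)) {φ : ℕ → ℕ} (hφ : Tendsto φ atTop atTop)
    {ys : ℕ → ℝ} (hc : ∀ i, Cos h (c (φ i)) (ys i)) {y : ℝ} (hy : 0 < y)
    (hl : Tendsto (fun i => ys i / s (φ i)) atTop (𝓝 y)) :
    Tendsto (fun i => F (φ i) (ys i)) atTop (𝓝 (f y)) := by
  have t2 : Tendsto (fun i => f (ys i / s (φ i))) atTop (𝓝 (f y)) :=
    ((hf.continuousAt (Ioi_mem_nhds hy)).tendsto).comp hl
  have t1 : Tendsto (fun i => F (φ i) (ys i) - f (ys i / s (φ i))) atTop (𝓝 0) := by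
    rw [Metric.tendsto_nhds]
    intro η hη
    set ε : ℝ := min (y / 2) (1 / (2 * y)) with hε
    have hε0 : 0 < ε := lt_min (by positivity) (by positivity)
    have e1 : ε < y := lt_of_le_of_lt (min_le_left _ _) (by linarith)
    have e2 : y < 1 / ε := by
      rw [lt_div_iff₀ hε0]
      have : ε ≤ 1 / (2 * y) := min_le_right _ _
      have h2 : y * ε ≤ y * (1 / (2 * y)) := mul_le_mul_of_nonneg_left this hy.le
      have h3 : y * (1 / (2 * y)) = 1 / 2 := by field_simp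
      linarith
    have hev := hφ.eventually (hU ε hε0 (η / 2) (half_pos hη))
    filter_upwards [hev, hl.eventually (eventually_gt_nhds e1), hl.eventually (eventually_lt_nhds e2)]
      with i h1 h2 h3
    have hsi := hs (φ i)
    have := h1 (ys i) (hc i) ((le_div_iff₀ hsi).1 h2.le) (by
      have := (div_le_iff₀ hsi).1 h3.le
      rwa [div_mul_eq_mul_div, one_mul] at this)
    rw [Real.dist_eq, sub_zero]
    linarith
  have := t1.add t2
  simpa using this

/-- subsequences -/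
theorem UC.sub {h : ℝ} {c s : ℕ → ℝ} {F : ℕ → ℝ → ℝ} {f : ℝ → ℝ} (hU : UC h c s F f)
    {φ : ℕ → ℕ} (hφ : Tendsto φ atTop atTop) :
    UC h (fun i => c (φ i)) (fun i => s (φ i)) (fun i => F (φ i)) f := by
  intro ε hε η hη
  exact hφ.eventually (hU ε hε η hη)

/-- products -/
theorem UC.mul {h : ℝ} {c s : ℕ → ℝ} {F G : ℕ → ℝ → ℝ} {f g : ℝ → ℝ} {M : ℝ} (hF : UC h c s F f)
    (hG : UC h c s G g) (hMF : ∀ j y, |F j y| ≤ M) (hMg : ∀ y > 0, |g y| ≤ M) (hs : ∀ j, 0 < s j) :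
    UC h c s (fun j y => F j y * G j y) (fun y => f y * g y) := by
  intro ε hε η hη
  have hM : 0 ≤ M := (abs_nonneg _).trans (hMF 0 0)
  have hη' : 0 < η / (2 * (M + 1)) := by positivity
  filter_upwards [hF ε hε _ hη', hG ε hε _ hη'] with j h1 h2 y hc e1 e2
  have b1 := h1 y hc e1 e2
  have b2 := h2 y hc e1 e2
  have hy : 0 < y / s j := div_pos (lt_of_lt_of_le (mul_pos hε (hs j)) e1) (hs j)
  have e : F j y * G j y - f (y / s j) * g (y / s j) =
      F j y * (G j y - g (y / s j)) + (F j y - f (y / s j)) * g (y / s j) := by ring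
  rw [e]
  refine (abs_add_le _ _).trans ?_
  rw [abs_mul, abs_mul]
  have m1 : |F j y| * |G j y - g (y / s j)| ≤ M * (η / (2 * (M + 1))) :=
    mul_le_mul (hMF j y) b2 (abs_nonneg _) hM
  have m2 : |F j y - f (y / s j)| * |g (y / s j)| ≤ (η / (2 * (M + 1))) * M :=
    mul_le_mul b1 (hMg _ hy) (abs_nonneg _) hη'.le
  have m3 : M * (η / (2 * (M + 1))) ≤ η / 2 := by
    rw [mul_div_assoc', div_le_div_iff₀ (by positivity) (by positivity)]
    nlinarith
  linarith

/-- sums -/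
theorem UC.add {h : ℝ} {c s : ℕ → ℝ} {F G : ℕ → ℝ → ℝ} {f g : ℝ → ℝ} (hF : UC h c s F f)
    (hG : UC h c s G g) : UC h c s (fun j y => F j y + G j y) (fun y => f y + g y) := by
  intro ε hε η hη
  filter_upwards [hF ε hε _ (half_pos hη), hG ε hε _ (half_pos hη)] with j h1 h2 y hc e1 e2
  have b1 := h1 y hc e1 e2
  have b2 := h2 y hc e1 e2
  have e : F j y + G j y - (f (y / s j) + g (y / s j)) =
      (F j y - f (y / s j)) + (G j y - g (y / s j)) := by ring
  rw [e]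
  exact (abs_add_le _ _).trans (by linarith)

/-- a fixed function -/
theorem UC.const {h : ℝ} {c s : ℕ → ℝ} (f : ℝ → ℝ) : UC h c s (fun j y => f (y / s j)) f := by
  intro ε hε η hη
  refine Eventually.of_forall fun j y _ _ _ => ?_
  simp only [sub_self, abs_zero]
  exact hη.le

end Pool.Agent.BPT
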