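import Pool.Agent.MP_99a865_pr.ST.Z1b
import Pool.Agent.MP_99a865_pr.FV.A3

/-! **[STB-Z1a]** Scaling and convolution. -/

open MeasureTheory ProbabilityTheory Filter Topology
open scoped ENNReal NNReal

namespace Pool.Agent.BPT

variable {α : ℝ} {ζ ρ : Measure ℝ} {a : ℕ → ℝ}

/-- no atoms -/
theorem SS.atom (h : SS α ζ) (hα : 1 < α) (x : ℝ) : ζ {x} = 0 := by
  rw [h.withDensity hα]
  exact (withDensity_absolutelyContinuous _ _) (measure_singleton x)

/-- `Zt α ζ t` is a probability law with density `dt α ζ t` (change of variables), for `t > 0` -/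
theorem SS.Zt_withDensity (h : SS α ζ) (hα : 1 < α) {t : ℝ} (ht : 0 < t) :
    Zt α ζ t = volume.withDensity fun x => ENNReal.ofReal (dt α ζ t x) := by
  have hc : 0 < t ^ (1 / α) := Real.rpow_pos_of_pos ht _
  set c := t ^ (1 / α) with hcdef
  have hm : Measurable fun x : ℝ => c * x := measurable_const_mul c
  have hd : Continuous (dens ζ) := h.dens_cont hα
  ext s hs
  have hg : Measurable (s.indicator fun y : ℝ => ENNReal.ofReal (dens ζ (y / c))) := by
    apply Measurable.indicator _ hs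
    exact (hd.comp (continuous_id.div_const c)).measurable.ennreal_ofReal
  have e1 : Zt α ζ t s = ∫⁻ x, s.indicator (fun y : ℝ => ENNReal.ofReal (dens ζ (y / c))) (c * x) := by
    unfold Zt
    rw [Measure.map_apply hm hs]
    conv_lhs => rw [h.withDensity hα]
    rw [withDensity_apply _ (hm hs), ← lintegral_indicator (hm hs)]
    apply lintegral_congr
    intro x
    by_cases hx : c * x ∈ s
    · rw [Set.indicator_of_mem hx, Set.indicator_of_mem (show x ∈ (fun x => c * x) ⁻¹' s from hx),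
        mul_div_cancel_left₀ x hc.ne']
    · rw [Set.indicator_of_notMem hx, Set.indicator_of_notMem (show x ∉ (fun x => c * x) ⁻¹' s from hx)]
  have e2 : ∫⁻ x, s.indicator (fun y : ℝ => ENNReal.ofReal (dens ζ (y / c))) (c * x) =
      ∫⁻ y, s.indicator (fun y : ℝ => ENNReal.ofReal (dens ζ (y / c))) y ∂(volume.map fun x : ℝ => c * x) := by
    rw [lintegral_map hg hm]
  rw [e1, e2, Real.map_volume_mul_left hc.ne', lintegral_smul_measure, lintegral_indicator hs,
    withDensity_apply _ hs, smul_eq_mul, ← lintegral_const_mul']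
  · apply lintegral_congr
    intro y
    unfold dt
    rw [← hcdef, abs_of_pos (inv_pos.mpr hc), ← ENNReal.ofReal_mul (inv_pos.mpr hc).le]
    congr 1
    field_simp
  · exact ENNReal.ofReal_ne_top

theorem SS.Zt_prob (h : SS α ζ) (t : ℝ) : IsProbabilityMeasure (Zt α ζ t) := by
  have := h.prob
  exact Measure.isProbabilityMeasure_map (measurable_const_mul _).aemeasurable

/-- **[STB-Z1b]** Convolution semigroup: `fre (Zt (t/K)) K 0 = Zt t`. PROOF. Characteristic functions:
`charFun (Zt t) s = charFun ζ (t^{1/α} s)`, `charFun (fre (Zt (t/K)) K 0) s = charFun ζ ((t/K)^{1/α} s)^K =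
charFun ζ (K^{1/α} (t/K)^{1/α} s)` by `SS.st`. -/
theorem SS.Zt_fre (h : SS α ζ) {K : ℕ} (hK : 1 ≤ K) {t : ℝ} (ht : 0 ≤ t) :
    fre (Zt α ζ (t / K)) K 0 = Zt α ζ t := by
  have := h.prob
  have hp1 : IsProbabilityMeasure (Zt α ζ (t / K)) := h.Zt_prob _
  have hp2 : IsProbabilityMeasure (Zt α ζ t) := h.Zt_prob _
  have hp3 : IsFiniteMeasure (fre (Zt α ζ (t / K)) K 0) := by
    unfold fre; infer_instance
  apply Measure.ext_of_charFun
  funext s
  rw [charFun_fre]
  have hcf : ∀ r : ℝ, charFun (Zt α ζ r) s = charFun ζ (r ^ (1 / α) * s) := by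
    intro r
    unfold Zt
    rw [charFun_map_mul]
  rw [hcf, hcf, h.st K hK, ← mul_assoc, ← Real.mul_rpow (Nat.cast_nonneg K) (div_nonneg ht (Nat.cast_nonneg K)),
    mul_div_cancel₀ t (by positivity : (K : ℝ) ≠ 0)]
  simp

end Pool.Agent.BPT
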