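import Pool.Agent.MP_99a865_pr.ST.K0a
import Pool.Agent.MP_99a865_pr.ST.Ctr
import Pool.Agent.MP_99a865_pr.ST.Z1a

/-! **[STB-K0b]** Lattices, cutoff functions, times. -/

open MeasureTheory ProbabilityTheory Filter Topology
open scoped ENNReal NNReal

namespace Pool.Agent.BPT

variable {α : ℝ} {ζ ρ : Measure ℝ} {a : ℕ → ℝ} {D : Set ℝ}

lemma K0b_measCos (h c : ℝ) : MeasurableSet {z | Cos h c z} := by
  by_cases h0 : h = 0
  · have : {z | Cos h c z} = Set.univ := by
      ext z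
      simp [Cos, h0]
    rw [this]
    exact MeasurableSet.univ
  · have : {z | Cos h c z} = Set.range (fun j : ℤ => c + h * j) := by
      ext z
      simp only [Cos, Set.mem_setOf_eq, Set.mem_range]
      constructor
      · intro h1
        obtain ⟨j, hj⟩ := h1 h0
        exact ⟨j, hj.symm⟩
      · rintro ⟨j, hj⟩ _
        exact ⟨j, hj.symm⟩
    rw [this]
    exact (Set.countable_range _).measurableSet

/-- the free walk stays on its lattice (as `ae_kap` in FV/A2b) -/
theorem ae_fre [IsProbabilityMeasure ρ] (b h : ℝ) (hstep : ∀ᵐ x ∂ρ, Cos h b x) (k : ℕ) (x : ℝ) :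
    ∀ᵐ z ∂(fre ρ k x), Cos h (x + k * b) z := by
  unfold fre
  rw [ae_map_iff ((measurable_S k).const_add x).aemeasurable (K0b_measCos _ _)]
  have h2 : ∀ᵐ ω ∂(seqLaw ρ), ∀ i : ℕ, Cos h b (ω i) := by
    rw [ae_all_iff]
    intro i
    have h3 := (measurePreserving_eval_infinitePi (fun _ : ℕ => ρ) i).quasiMeasurePreserving.ae
      hstep
    exact h3
  filter_upwards [h2] with ω hω
  intro h0
  have h4 : ∀ i : ℕ, ∃ j : ℤ, ω i = b + h * j := fun i => hω i h0
  choose j hj using h4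
  refine ⟨∑ i ∈ Finset.range k, j i, ?_⟩
  unfold S
  rw [Finset.sum_congr rfl (fun i _ => hj i), Finset.sum_add_distrib, Finset.sum_const,
    Finset.card_range, nsmul_eq_mul, ← Finset.mul_sum]
  push_cast
  ring

/-- arithmetic of cosets -/
theorem Cos_shift {h c x d z : ℝ} (hx : Cos h (c - d) x) (hz : Cos h (x + d) z) : Cos h c z := by
  intro h0
  obtain ⟨i, hi⟩ := hx h0
  obtain ⟨j, hj⟩ := hz h0
  refine ⟨i + j, ?_⟩
  rw [hj, hi]
  push_cast
  ring

/-- cutoff functions: `cut δ` is continuous, has values in `[0,1]`, is `1` on `[δ, 1/δ]` and `0` outside `(δ/2, 2/δ)` -/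
theorem cut_facts {δ : ℝ} (h0 : 0 < δ) (h1 : δ < 1) : Continuous (cut δ) ∧ (∀ x, 0 ≤ cut δ x ∧ cut δ x ≤ 1) ∧
    (∀ x, δ ≤ x → x ≤ 1 / δ → cut δ x = 1) ∧ (∀ x, x ≤ δ / 2 → cut δ x = 0) ∧ (∀ x, 2 / δ ≤ x → cut δ x = 0) := by
  have h2 : 0 < 2 / δ := by positivity
  refine ⟨?_, ?_, ?_, ?_, ?_⟩
  · unfold cut
    fun_prop
  · intro x
    unfold cut
    exact ⟨le_max_left _ _, max_le zero_le_one (min_le_left _ _)⟩
  · intro x hx hx'
    unfold cut
    have e1 : 1 ≤ 2 * x / δ - 1 := by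
      have : 2 ≤ 2 * x / δ := by rw [le_div_iff₀ h0]; linarith
      linarith
    have e2 : 1 ≤ 2 - δ * x := by
      have := (le_div_iff₀ h0).1 hx'
      linarith
    rw [min_eq_left (le_min e1 e2)]
    exact max_eq_right zero_le_one
  · intro x hx
    unfold cut
    have e1 : 2 * x / δ - 1 ≤ 0 := by
      have : 2 * x / δ ≤ 1 := by rw [div_le_iff₀ h0]; linarith
      linarith
    exact max_eq_left ((min_le_right _ _).trans ((min_le_left _ _).trans e1))
  · intro x hx
    unfold cut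
    have e1 : 2 - δ * x ≤ 0 := by
      have := (div_le_iff₀ h0).1 hx
      linarith
    exact max_eq_left ((min_le_right _ _).trans ((min_le_right _ _).trans e1))

/-- times of a subsequence -/
theorem Tm.sub {n k : ℕ → ℕ} {t : ℝ} (hT : Tm n k t) {φ : ℕ → ℕ} (hφ : Tendsto φ atTop atTop) :
    Tm (fun i => n (φ i)) (fun i => k (φ i)) t := by
  exact ⟨hT.top.comp hφ, hT.lim.comp hφ⟩

/-- sums and differences of times; positive times tend to infinity -/
theorem Tm.add {n k l : ℕ → ℕ} {t u : ℝ} (hk : Tm n k t) (hl : Tm n l u) : Tm n (fun j => k j + l j) (t + u) := by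
  refine ⟨hk.top, ?_⟩
  have := hk.lim.add hl.lim
  refine this.congr fun j => ?_
  push_cast
  ring

theorem Tm.sub' {n k l : ℕ → ℕ} {t u : ℝ} (hk : Tm n k t) (hl : Tm n l u) (hle : ∀ᶠ j in atTop, l j ≤ k j) :
    Tm n (fun j => k j - l j) (t - u) := by
  refine ⟨hk.top, ?_⟩
  have := hk.lim.sub hl.lim
  refine this.congr' ?_
  filter_upwards [hle] with j hj
  rw [Nat.cast_sub hj]
  ring

theorem Tm.top' {n k : ℕ → ℕ} {t : ℝ} (hk : Tm n k t) (ht : 0 < t) : Tendsto k atTop atTop := by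
  have h1 : Tendsto (fun j => (n j : ℝ)) atTop atTop := tendsto_natCast_atTop_atTop.comp hk.top
  have h2 : Tendsto (fun j => (k j : ℝ) / n j * n j) atTop atTop := hk.lim.pos_mul_atTop ht h1
  have h3 : Tendsto (fun j => (k j : ℝ)) atTop atTop := by
    refine h2.congr' ?_
    filter_upwards [hk.top.eventually (eventually_ge_atTop 1)] with j hj
    have : (n j : ℝ) ≠ 0 := by
      have : 0 < n j := hj
      positivity
    exact div_mul_cancel₀ _ this
  exact tendsto_natCast_atTop_iff.1 h3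

/-- `⌊t n⌋` -/
theorem Tm.floor {n : ℕ → ℕ} (hn : Tendsto n atTop atTop) {t : ℝ} (ht : 0 ≤ t) : Tm n (fun j => ⌊t * n j⌋₊) t := by
  refine ⟨hn, ?_⟩
  exact (tendsto_nat_floor_mul_div_atTop ht).comp (tendsto_natCast_atTop_atTop.comp hn)

end Pool.Agent.BPT
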