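import Pool.Agent.MP_99a865_pr.ST.K0b

/-! **[STB-K1]** Weak convergence of the free walk. -/

open MeasureTheory ProbabilityTheory Filter Topology
open scoped ENNReal NNReal

namespace Pool.Agent.BPT

variable {α : ℝ} {ζ ρ : Measure ℝ} {a : ℕ → ℝ} {D : Set ℝ}

lemma K1_fre_prob [IsProbabilityMeasure ρ] (k : ℕ) (x : ℝ) : IsProbabilityMeasure (fre ρ k x) := by
  unfold fre
  have : IsProbabilityMeasure (seqLaw ρ) := by unfold seqLaw; infer_instance
  exact Measure.isProbabilityMeasure_map (A1_meas_add k x).aemeasurable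

lemma K1_fre_shift [IsProbabilityMeasure ρ] (k : ℕ) (x : ℝ) {g : ℝ → ℝ} (hg : Measurable g) :
    ∫ y, g y ∂(fre ρ k x) = ∫ y, g (x + y) ∂(fre ρ k 0) := by
  unfold fre
  have e1 := integral_map (μ := seqLaw ρ) (A1_meas_add k x).aemeasurable (f := g)
    hg.aestronglyMeasurable
  have e2 := integral_map (μ := seqLaw ρ) (A1_meas_add k 0).aemeasurable (f := fun y => g (x + y))
    (hg.comp (measurable_const_add x)).aestronglyMeasurable
  rw [e1, e2]
  refine integral_congr_ae (Eventually.of_forall fun s => ?_)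
  simp only [zero_add]

/-- uniform estimate behind the convergence -/
lemma K1_close (f : BoundedContinuousFunction ℝ ℝ) (x v R : ℝ) {ε : ℝ} (hε : 0 < ε) :
    ∃ δ > (0 : ℝ), ∀ u w : ℝ, |u - x| ≤ δ → |w - v| ≤ δ → ∀ y : ℝ, |y| ≤ R →
      |f (u + w * y) - f (x + v * y)| ≤ ε := by
  by_cases hR : 0 ≤ R
  swap
  · refine ⟨1, one_pos, fun u w _ _ y hy => ?_⟩
    exact absurd ((abs_nonneg y).trans hy) hR
  set B : ℝ := |x| + |v| * R + 1 + R with hB
  have hcomp : IsCompact (Set.Icc (-B) B) := isCompact_Icc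
  have huc := hcomp.uniformContinuousOn_of_continuous (f.continuous.continuousOn)
  rw [Metric.uniformContinuousOn_iff] at huc
  obtain ⟨δ₀, hδ₀, H⟩ := huc ε hε
  have hR1 : 0 < 1 + R := by linarith
  refine ⟨min 1 (δ₀ / (2 * (1 + R))), lt_min one_pos (by positivity), fun u w hu hw y hy => ?_⟩
  have hu1 := hu.trans (min_le_left _ _)
  have hw1 := hw.trans (min_le_left _ _)
  have hu2 := hu.trans (min_le_right _ _)
  have hw2 := hw.trans (min_le_right _ _)
  have e1 : |(u + w * y) - (x + v * y)| ≤ |u - x| + |w - v| * R := by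
    have : (u + w * y) - (x + v * y) = (u - x) + (w - v) * y := by ring
    rw [this]
    refine (abs_add_le _ _).trans ?_
    rw [abs_mul]
    have := mul_le_mul_of_nonneg_left hy (abs_nonneg (w - v))
    linarith
  have e2 : |u - x| + |w - v| * R < δ₀ := by
    have h1 : |w - v| * R ≤ δ₀ / (2 * (1 + R)) * R := mul_le_mul_of_nonneg_right hw2 hR
    have h2 : δ₀ / (2 * (1 + R)) + δ₀ / (2 * (1 + R)) * R = δ₀ / 2 := by field_simp
    linarith
  have m2 : x + v * y ∈ Set.Icc (-B) B := by
    refine Set.mem_Icc.2 (abs_le.1 ?_)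
    refine (abs_add_le _ _).trans ?_
    rw [abs_mul]
    have := mul_le_mul_of_nonneg_left hy (abs_nonneg v)
    rw [hB]; linarith
  have m1 : u + w * y ∈ Set.Icc (-B) B := by
    refine Set.mem_Icc.2 (abs_le.1 ?_)
    have h3 : |u + w * y| ≤ |(u + w * y) - (x + v * y)| + |x + v * y| := by
      have : u + w * y = ((u + w * y) - (x + v * y)) + (x + v * y) := by ring
      calc |u + w * y| = |((u + w * y) - (x + v * y)) + (x + v * y)| := by rw [← this]
        _ ≤ _ := abs_add_le _ _
    have h4 : |x + v * y| ≤ |x| + |v| * R := by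
      refine (abs_add_le _ _).trans ?_
      rw [abs_mul]
      have := mul_le_mul_of_nonneg_left hy (abs_nonneg v)
      linarith
    have h5 : |w - v| * R ≤ 1 * R := mul_le_mul_of_nonneg_right hw1 hR
    rw [hB]; linarith
  have := H _ m1 _ m2 (by rw [Real.dist_eq]; exact lt_of_le_of_lt e1 e2)
  rw [Real.dist_eq] at this
  exact this.le

/-- **[STB-K1]** -/
theorem K1_free (h : DA α ζ ρ a) {n k : ℕ → ℕ} {t : ℝ} (hT : Tm n k t) (ht : 0 < t) {xs : ℕ → ℝ} {x : ℝ}
    (hx : Tendsto (fun j => xs j / a (n j)) atTop (𝓝 x)) (f : BoundedContinuousFunction ℝ ℝ) :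
    Tendsto (fun j => ∫ y, f (y / a (n j)) ∂(fre ρ (k j) (xs j))) atTop
      (𝓝 (∫ y, f (x + y) ∂(Zt α ζ t))) := by
  have hp := h.prob
  have hζ := h.ss.prob
  set v : ℝ := t ^ (1 / α) with hv
  have hk : Tendsto k atTop atTop := hT.top' ht
  have hr := h.ratio hT ht
  -- the limit
  have hlim : ∫ y, f (x + y) ∂(Zt α ζ t) = ∫ y, f (x + v * y) ∂ζ := by
    unfold Zt
    rw [integral_map (by fun_prop) (by fun_prop)]
  rw [hlim]
  -- the comparison function
  let g : BoundedContinuousFunction ℝ ℝ := BoundedContinuousFunction.compContinuous f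
    ⟨fun y => x + v * y, by fun_prop⟩
  have hg : ∀ y, g y = f (x + v * y) := fun y => rfl
  have hweak : Tendsto (fun j => ∫ y, g (y / a (k j)) ∂(fre ρ (k j) 0)) atTop (𝓝 (∫ y, g y ∂ζ)) :=
    (h.weak g).comp hk
  have hcmp : Tendsto (fun j => ∫ y, f (y / a (n j)) ∂(fre ρ (k j) (xs j)) -
      ∫ y, g (y / a (k j)) ∂(fre ρ (k j) 0)) atTop (𝓝 0) := by
    rw [Metric.tendsto_nhds]
    intro η hη
    have hN : 0 ≤ ‖f‖ := norm_nonneg f
    obtain ⟨R, hR, htight⟩ := h.tight (η / (8 * (‖f‖ + 1))) (by positivity)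
    obtain ⟨δ, hδ, hcl⟩ := K1_close f x v R (ε := η / 4) (by positivity)
    have c1 : ∀ᶠ j in atTop, |xs j / a (n j) - x| ≤ δ := by
      have := (Metric.tendsto_nhds.1 hx) δ hδ
      filter_upwards [this] with j hj
      rw [Real.dist_eq] at hj
      exact hj.le
    have c2 : ∀ᶠ j in atTop, |a (k j) / a (n j) - v| ≤ δ := by
      have := (Metric.tendsto_nhds.1 hr) δ hδ
      filter_upwards [this] with j hj
      rw [Real.dist_eq] at hj
      exact hj.le
    filter_upwards [c1, c2] with j h1 h2
    have := K1_fre_prob (ρ := ρ) (k j) 0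
    have hfm : Measurable fun y : ℝ => f (y / a (n j)) :=
      (f.continuous.measurable).comp (measurable_id.div_const _)
    rw [Real.dist_eq, sub_zero, K1_fre_shift (k j) (xs j) hfm]
    have hbd : ∀ y, |f y| ≤ ‖f‖ := fun y => f.norm_coe_le_norm y
    have i1 : Integrable (fun y => f ((xs j + y) / a (n j))) (fre ρ (k j) 0) :=
      Integrable.of_bound (hfm.comp (measurable_const_add (xs j))).aestronglyMeasurable ‖f‖
        (Eventually.of_forall fun y => by rw [Real.norm_eq_abs]; exact hbd _)
    have hgm : Measurable fun y : ℝ => g (y / a (k j)) :=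
      (g.continuous.measurable).comp (measurable_id.div_const _)
    have i2 : Integrable (fun y => g (y / a (k j))) (fre ρ (k j) 0) :=
      Integrable.of_bound hgm.aestronglyMeasurable ‖f‖
        (Eventually.of_forall fun y => by rw [Real.norm_eq_abs, hg]; exact hbd _)
    rw [← integral_sub i1 i2]
    set bad : Set ℝ := {y | R * a (k j) ≤ |y|} with hbad
    have mbad : MeasurableSet bad := measurableSet_le measurable_const (by fun_prop)
    have hpt : ∀ y, |f ((xs j + y) / a (n j)) - g (y / a (k j))| ≤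
        η / 4 + bad.indicator (fun _ => 2 * ‖f‖) y := by
      intro y
      by_cases hy : y ∈ bad
      · rw [Set.indicator_of_mem hy, hg]
        have := abs_sub (f ((xs j + y) / a (n j))) (f (x + v * (y / a (k j))))
        have := hbd ((xs j + y) / a (n j))
        have := hbd (x + v * (y / a (k j)))
        linarith
      · rw [Set.indicator_of_notMem hy, hg]
        have hak := h.pos (k j)
        have han := h.pos (n j)
        have hy' : |y / a (k j)| ≤ R := by
          rw [abs_div, abs_of_pos hak, div_le_iff₀ hak]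
          exact le_of_not_ge hy
        have e : (xs j + y) / a (n j) = xs j / a (n j) + a (k j) / a (n j) * (y / a (k j)) := by
          field_simp
        rw [e]
        have := hcl _ _ h1 h2 _ hy'
        linarith
    have i3 : Integrable (fun y => η / 4 + bad.indicator (fun _ => 2 * ‖f‖) y) (fre ρ (k j) 0) :=
      (integrable_const _).add ((integrable_const _).indicator mbad)
    refine lt_of_le_of_lt ((abs_integral_le_integral_abs).trans
      (integral_mono (i1.sub i2).abs i3 hpt)) ?_
    rw [integral_add (integrable_const _) ((integrable_const _).indicator mbad), integral_const,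
      integral_indicator_const _ mbad]
    simp only [probReal_univ, smul_eq_mul, one_mul]
    have h3 := htight (k j)
    have h4 : (fre ρ (k j) 0).real bad * (2 * ‖f‖) ≤ η / (8 * (‖f‖ + 1)) * (2 * ‖f‖) :=
      mul_le_mul_of_nonneg_right h3 (by positivity)
    have h5 : η / (8 * (‖f‖ + 1)) * (2 * ‖f‖) ≤ η / 4 := by
      rw [div_mul_eq_mul_div, div_le_div_iff₀ (by positivity) (by norm_num)]
      nlinarith
    linarith
  have := hcmp.add hweak
  simp only [sub_add_cancel, zero_add, hg] at this
  exact this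

end Pool.Agent.BPT
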