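import Pool.Agent.MP_99a865_pr.ST.K1
import Pool.Agent.MP_99a865_pr.FV.B3

/-! **[STB-K2]** One step of the skeleton. -/

open MeasureTheory ProbabilityTheory Filter Topology
open scoped ENNReal NNReal

namespace Pool.Agent.BPT

variable {α : ℝ} {ζ ρ : Measure ℝ} {a : ℕ → ℝ} {D : Set ℝ}

lemma K2_M0 {M : ℝ} {f : ℝ → ℝ} (hf : BCo M f) : 0 ≤ M := (abs_nonneg _).trans (hf.bd 1 one_pos)

/-- the function set to zero on the negative half-line -/
noncomputable def K2_g (f : ℝ → ℝ) : ℝ → ℝ := (Set.Ioi 0).indicator f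

lemma K2_g_pos (f : ℝ → ℝ) {y : ℝ} (hy : 0 < y) : K2_g f y = f y := Set.indicator_of_mem (by exact hy) _

lemma K2_g_neg (f : ℝ → ℝ) {y : ℝ} (hy : y ≤ 0) : K2_g f y = 0 :=
  Set.indicator_of_notMem (by simpa using hy) _

lemma K2_g_meas {M : ℝ} {f : ℝ → ℝ} (hf : BCo M f) : Measurable (K2_g f) := by
  classical
  unfold K2_g
  rw [← Set.piecewise_eq_indicator]
  exact ContinuousOn.measurable_piecewise hf.cont continuousOn_const measurableSet_Ioi

lemma K2_g_bd {M : ℝ} {f : ℝ → ℝ} (hf : BCo M f) (y : ℝ) : |K2_g f y| ≤ M := by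
  rcases le_or_gt y 0 with h | h
  · rw [K2_g_neg f h, abs_zero]
    exact K2_M0 hf
  · rw [K2_g_pos f h]
    exact hf.bd y h

lemma K2_g_cont {M : ℝ} {f : ℝ → ℝ} (hf : BCo M f) {z : ℝ} (hz : z ≠ 0) : ContinuousAt (K2_g f) z := by
  rcases lt_or_gt_of_ne hz with h | h
  · have : K2_g f =ᶠ[𝓝 z] fun _ => 0 := by
      filter_upwards [Iio_mem_nhds h] with y hy
      exact K2_g_neg f (le_of_lt hy)
    exact continuousAt_const.congr this.symm
  · have : K2_g f =ᶠ[𝓝 z] f := by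
      filter_upwards [Ioi_mem_nhds h] with y hy
      exact K2_g_pos f hy
    exact (hf.cont.continuousAt (Ioi_mem_nhds h)).congr this.symm

lemma K2_eq [IsProbabilityMeasure ρ] {M : ℝ} {f : ℝ → ℝ} (hf : BCo M f) (x : ℝ) :
    ∫ y, f y ∂(kap (Set.Ioi 0) ρ 1 x) = ∫ y, K2_g f (x + y) ∂ρ := by
  have hD : Dom (Set.Ioi (0:ℝ)) := Or.inr rfl
  have h1 : ∫ y, f y ∂(kap (Set.Ioi 0) ρ 1 x) = ∫ y, K2_g f y ∂(kap (Set.Ioi 0) ρ 1 x) := by
    refine integral_congr_ae ?_
    have : ∀ᵐ y ∂(kap (Set.Ioi 0) ρ 1 x), y ∈ Set.Ioi (0:ℝ) := by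
      rw [ae_iff]
      exact kap_compl hD 1 x (Or.inl le_rfl)
    filter_upwards [this] with y hy
    exact (K2_g_pos f hy).symm
  rw [h1, B3_kap_one hD x _ (K2_g_meas hf)]
  refine setIntegral_eq_integral_of_forall_compl_eq_zero fun y hy => ?_
  exact K2_g_neg f (by simpa using hy)

lemma K2_atom (h : SS α ζ) (hα : 1 < α) {t : ℝ} (ht : 0 < t) (z : ℝ) : Zt α ζ t {z} = 0 := by
  have hp : 0 < t ^ (1 / α) := Real.rpow_pos_of_pos ht _
  unfold Zt
  rw [Measure.map_apply (measurable_const_mul _) (measurableSet_singleton z)]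
  have : (fun x : ℝ => t ^ (1 / α) * x) ⁻¹' {z} ⊆ {z / t ^ (1 / α)} := by
    intro y hy
    simp only [Set.mem_preimage, Set.mem_singleton_iff] at hy ⊢
    rw [eq_div_iff hp.ne', mul_comm]
    exact hy
  exact measure_mono_null this (h.atom hα _)

/-- the one-step operator of the Lévy process maps bounded functions continuous on `(0,∞)` to functions continuous everywhere
(`Zt` has a density, no atoms; dominated convergence, or `∫_{z>0} f z dt (z - x) dz` and continuity of translation in `L¹`) -/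
theorem K2_cont (h : SS α ζ) (hα : 1 < α) {t M : ℝ} (ht : 0 < t) {f : ℝ → ℝ} (hf : BCo M f) :
    Continuous (fun x => ∫ y, f y ∂(kap (Set.Ioi 0) (Zt α ζ t) 1 x)) ∧
      ∀ x, |∫ y, f y ∂(kap (Set.Ioi 0) (Zt α ζ t) 1 x)| ≤ M := by
  have := h.Zt_prob t
  have hM := K2_M0 hf
  simp_rw [K2_eq hf]
  constructor
  · rw [continuous_iff_continuousAt]
    intro x₀
    refine continuousAt_of_dominated (bound := fun _ => M) ?_ ?_ (integrable_const M) ?_
    · exact Filter.Eventually.of_forall fun x =>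
        ((K2_g_meas hf).comp (measurable_const_add x)).aestronglyMeasurable
    · exact Filter.Eventually.of_forall fun x => Filter.Eventually.of_forall fun y => K2_g_bd hf _
    · have h1 : ∀ᵐ y ∂(Zt α ζ t), y ≠ -x₀ := by
        rw [ae_iff]
        simpa using K2_atom h hα ht (-x₀)
      filter_upwards [h1] with y hy
      have h2 : x₀ + y ≠ 0 := fun h => hy (by linarith)
      exact ContinuousAt.comp (f := fun x : ℝ => x + y) (g := K2_g f) (K2_g_cont hf h2)
        (continuous_add_const y).continuousAt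
  · intro x
    have h1 := norm_integral_le_of_norm_le_const (μ := Zt α ζ t) (f := fun y => K2_g f (x + y))
      (C := M) (Filter.Eventually.of_forall fun y => K2_g_bd hf _)
    simpa using h1

/-- a continuous function which is `1` near zero and near infinity (on the positive half-line) -/
noncomputable def K2_psi (δ y : ℝ) : ℝ := max 0 (min (1 - cut δ y) (1 + y / δ))

lemma K2_psi_cont {δ : ℝ} (h0 : 0 < δ) (h1 : δ < 1) : Continuous (K2_psi δ) := by
  unfold K2_psi
  exact continuous_const.max ((continuous_const.sub (cut_facts h0 h1).1).min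
    (continuous_const.add (continuous_id.div_const δ)))

lemma K2_psi_nonneg (δ y : ℝ) : 0 ≤ K2_psi δ y := le_max_left _ _

lemma K2_psi_le {δ : ℝ} (h0 : 0 < δ) (h1 : δ < 1) (y : ℝ) : K2_psi δ y ≤ 1 := by
  unfold K2_psi
  refine max_le zero_le_one ((min_le_left _ _).trans ?_)
  linarith [((cut_facts h0 h1).2.1 y).1]

lemma K2_psi_pos {δ : ℝ} (h0 : 0 < δ) (h1 : δ < 1) {y : ℝ} (hy : 0 ≤ y) : K2_psi δ y = 1 - cut δ y := by
  unfold K2_psi
  have h2 := (cut_facts h0 h1).2.1 y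
  have h3 : 0 ≤ y / δ := by positivity
  rw [min_eq_left (by linarith), max_eq_right (by linarith)]

lemma K2_psi_zero {δ : ℝ} (h0 : 0 < δ) (h1 : δ < 1) {y : ℝ} (hy : δ ≤ |y|) (hy' : |y| ≤ 1 / δ) :
    K2_psi δ y = 0 := by
  rcases le_or_gt 0 y with h | h
  · rw [abs_of_nonneg h] at hy hy'
    rw [K2_psi_pos h0 h1 h, (cut_facts h0 h1).2.2.1 y hy hy', sub_self]
  · rw [abs_of_neg h] at hy
    unfold K2_psi
    refine max_eq_left ((min_le_right _ _).trans ?_)
    have : y / δ ≤ -1 := by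
      rw [div_le_iff₀ h0]
      linarith
    linarith

/-- the `ψ`-integral of an atomless law is small -/
lemma K2_small (μ : Measure ℝ) [IsProbabilityMeasure μ] (x : ℝ) (hμ : μ {-x} = 0) {ε : ℝ} (hε : 0 < ε) :
    ∃ δ : ℝ, 0 < δ ∧ δ < 1 ∧ ∫ y, K2_psi δ (x + y) ∂μ < ε := by
  have hd0 : ∀ m : ℕ, 0 < 1 / ((m : ℝ) + 2) := fun m => by positivity
  have hd1 : ∀ m : ℕ, 1 / ((m : ℝ) + 2) < 1 := fun m => by
    rw [div_lt_one (by positivity)]
    have : (0 : ℝ) ≤ m := Nat.cast_nonneg m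
    linarith
  have hlim : Tendsto (fun m : ℕ => ∫ y, K2_psi (1 / ((m : ℝ) + 2)) (x + y) ∂μ) atTop
      (𝓝 (∫ _ : ℝ, (0 : ℝ) ∂μ)) := by
    refine tendsto_integral_of_dominated_convergence (fun _ => 1) ?_ (integrable_const 1) ?_ ?_
    · intro m
      exact ((K2_psi_cont (hd0 m) (hd1 m)).measurable.comp (measurable_const_add x)).aestronglyMeasurable
    · intro m
      refine Filter.Eventually.of_forall fun y => ?_
      rw [Real.norm_eq_abs, abs_of_nonneg (K2_psi_nonneg _ _)]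
      exact K2_psi_le (hd0 m) (hd1 m) _
    · have h1 : ∀ᵐ y ∂μ, y ≠ -x := by
        rw [ae_iff]
        simpa using hμ
      filter_upwards [h1] with y hy
      have h2 : 0 < |x + y| := abs_pos.mpr fun h => hy (by linarith)
      refine tendsto_const_nhds.congr' ?_
      obtain ⟨m₁, hm₁⟩ := exists_nat_ge (1 / |x + y|)
      obtain ⟨m₂, hm₂⟩ := exists_nat_ge |x + y|
      filter_upwards [eventually_ge_atTop (max m₁ m₂)] with m hm
      have h3 : (m₁ : ℝ) ≤ m := by exact_mod_cast (le_max_left _ _).trans hm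
      have h4 : (m₂ : ℝ) ≤ m := by exact_mod_cast (le_max_right _ _).trans hm
      refine (K2_psi_zero (hd0 m) (hd1 m) ?_ ?_).symm
      · rw [div_le_iff₀ (by positivity)]
        rw [div_le_iff₀ h2] at hm₁
        nlinarith
      · rw [one_div_one_div]
        linarith
  rw [integral_zero] at hlim
  obtain ⟨m, hm⟩ := (hlim.eventually (gt_mem_nhds hε)).exists
  exact ⟨_, hd0 m, hd1 m, hm⟩

/-- `cut δ * f`, zero on the negative half-line -/
noncomputable def K2_G (δ : ℝ) (f : ℝ → ℝ) (y : ℝ) : ℝ := cut δ y * K2_g f y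

lemma K2_G_cont {δ : ℝ} (h0 : 0 < δ) (h1 : δ < 1) {M : ℝ} {f : ℝ → ℝ} (hf : BCo M f) :
    Continuous (K2_G δ f) := by
  rw [continuous_iff_continuousAt]
  intro z
  by_cases hz : z = 0
  · have : K2_G δ f =ᶠ[𝓝 z] fun _ => 0 := by
      filter_upwards [Iio_mem_nhds (show z < δ / 2 by rw [hz]; positivity)] with y hy
      unfold K2_G
      rw [(cut_facts h0 h1).2.2.2.1 y (le_of_lt hy), zero_mul]
    exact continuousAt_const.congr this.symm
  · exact (cut_facts h0 h1).1.continuousAt.mul (K2_g_cont hf hz)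

lemma K2_G_bd {δ : ℝ} (h0 : 0 < δ) (h1 : δ < 1) {M : ℝ} {f : ℝ → ℝ} (hf : BCo M f) (y : ℝ) :
    |K2_G δ f y| ≤ M := by
  unfold K2_G
  have h2 := (cut_facts h0 h1).2.1 y
  rw [abs_mul, abs_of_nonneg h2.1]
  calc cut δ y * |K2_g f y| ≤ 1 * M := by
        exact mul_le_mul h2.2 (K2_g_bd hf y) (abs_nonneg _) zero_le_one
    _ = M := one_mul M

lemma K2_G_sub {δ : ℝ} (h0 : 0 < δ) (h1 : δ < 1) {M : ℝ} {f : ℝ → ℝ} (hf : BCo M f) (y : ℝ) :
    |K2_G δ f y - K2_g f y| ≤ M * K2_psi δ y := by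
  have hM := K2_M0 hf
  rcases le_or_gt y 0 with h | h
  · unfold K2_G
    rw [K2_g_neg f h, mul_zero, sub_zero, abs_zero]
    exact mul_nonneg hM (K2_psi_nonneg _ _)
  · unfold K2_G
    have h2 := (cut_facts h0 h1).2.1 y
    have h3 : cut δ y * K2_g f y - K2_g f y = -((1 - cut δ y) * K2_g f y) := by ring
    rw [h3, abs_neg, abs_mul, abs_of_nonneg (by linarith), K2_psi_pos h0 h1 h.le, mul_comm M]
    exact mul_le_mul_of_nonneg_left (K2_g_bd hf y) (by linarith)

/-- pointwise comparison on the coset -/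
lemma K2_pt (hD : Dom D) {δ : ℝ} (h0 : 0 < δ) (h1 : δ < 1) {M : ℝ} {f : ℝ → ℝ} (hf : BCo M f)
    {A η : ℝ} (hA : 0 < A) (hη : 0 ≤ η) {F : ℝ → ℝ} (hF : ∀ y, |F y| ≤ M) {y : ℝ}
    (hU : δ / 2 * A ≤ y → y ≤ A / (δ / 2) → |F y - f (y / A)| ≤ η) :
    |D.indicator F y - K2_G δ f (y / A)| ≤ η + M * K2_psi δ (y / A) := by
  have hM := K2_M0 hf
  have hψ := K2_psi_nonneg δ (y / A)
  have hMψ : 0 ≤ M * K2_psi δ (y / A) := mul_nonneg hM hψ
  by_cases hy : y ∈ D
  · rw [Set.indicator_of_mem hy]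
    have hy0 := hD.nonneg hy
    have hz0 : 0 ≤ y / A := by positivity
    by_cases hz : δ / 2 ≤ y / A ∧ y / A ≤ 2 / δ
    · have hzpos : 0 < y / A := lt_of_lt_of_le (by positivity) hz.1
      have h3 : |F y - f (y / A)| ≤ η := by
        refine hU ?_ ?_
        · have := hz.1
          rw [le_div_iff₀ hA] at this
          exact this
        · have := hz.2
          rw [div_le_iff₀ hA] at this
          calc y ≤ 2 / δ * A := this
            _ = A / (δ / 2) := by field_simp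
      have h4 := K2_G_sub h0 h1 hf (y / A)
      rw [K2_g_pos f hzpos] at h4
      calc |F y - K2_G δ f (y / A)| = |(F y - f (y / A)) - (K2_G δ f (y / A) - f (y / A))| := by
            congr 1
            ring
        _ ≤ |F y - f (y / A)| + |K2_G δ f (y / A) - f (y / A)| := abs_sub _ _
        _ ≤ η + M * K2_psi δ (y / A) := add_le_add h3 h4
    · have h5 : cut δ (y / A) = 0 := by
        rw [not_and_or, not_le, not_le] at hz
        rcases hz with hz | hz
        · exact (cut_facts h0 h1).2.2.2.1 _ hz.le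
        · exact (cut_facts h0 h1).2.2.2.2 _ hz.le
      rw [K2_psi_pos h0 h1 hz0]
      unfold K2_G
      rw [h5, zero_mul, sub_zero, sub_zero, mul_one]
      linarith [hF y]
  · rw [Set.indicator_of_notMem hy]
    have hy0 := hD.not_mem hy
    have hz : y / A ≤ 0 := div_nonpos_of_nonpos_of_nonneg hy0 hA.le
    unfold K2_G
    rw [K2_g_neg f hz, mul_zero, sub_zero, abs_zero]
    linarith

/-- the limit along a sequence of starting points -/
lemma K2_lim (hda : DA α ζ ρ a) (hD : Dom D) {b h : ℝ} (hstep : ∀ᵐ x ∂ρ, Cos h b x) {n k : ℕ → ℕ} {t : ℝ}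
    (hT : Tm n k t) (ht : 0 < t) {M : ℝ} {c : ℕ → ℝ} {F : ℕ → ℝ → ℝ} {f : ℝ → ℝ} (hF : MB M F) (hf : BCo M f)
    (hU : UC h c (fun j => a (n j)) F f) {xs : ℕ → ℝ} (hxs : ∀ i, Cos h (c i - k i * b) (xs i)) {x : ℝ}
    (hx : Tendsto (fun i => xs i / a (n i)) atTop (𝓝 x)) :
    Tendsto (fun i => ∫ y in D, F i y ∂(fre ρ (k i) (xs i))) atTop
      (𝓝 (∫ y, f y ∂(kap (Set.Ioi 0) (Zt α ζ t) 1 x))) := by
  have := hda.prob
  have := hda.ss.Zt_prob t
  have hM := K2_M0 hf
  rw [K2_eq hf, Metric.tendsto_atTop']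
  intro ε hε
  set ε' : ℝ := ε / (8 * (M + 1)) with hε'
  have hε'0 : 0 < ε' := by positivity
  have hMε : M * ε' ≤ ε / 8 := by
    rw [hε']
    calc M * (ε / (8 * (M + 1))) = (M / (M + 1)) * (ε / 8) := by field_simp
      _ ≤ 1 * (ε / 8) := by
          refine mul_le_mul_of_nonneg_right ?_ (by positivity)
          rw [div_le_one (by positivity)]
          linarith
      _ = ε / 8 := one_mul _
  obtain ⟨δ, h0, h1, hδ⟩ := K2_small (Zt α ζ t) x (K2_atom hda.ss hda.one ht (-x)) hε'0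
  let ψ : BoundedContinuousFunction ℝ ℝ := BoundedContinuousFunction.ofNormedAddCommGroup (K2_psi δ)
    (K2_psi_cont h0 h1) 1 (fun y => by
      rw [Real.norm_eq_abs, abs_of_nonneg (K2_psi_nonneg _ _)]
      exact K2_psi_le h0 h1 _)
  let G : BoundedContinuousFunction ℝ ℝ := BoundedContinuousFunction.ofNormedAddCommGroup (K2_G δ f)
    (K2_G_cont h0 h1 hf) M (fun y => K2_G_bd h0 h1 hf y)
  have hψl : Tendsto (fun j => ∫ y, K2_psi δ (y / a (n j)) ∂(fre ρ (k j) (xs j))) atTop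
      (𝓝 (∫ y, K2_psi δ (x + y) ∂(Zt α ζ t))) := K1_free hda hT ht hx ψ
  have hGl : Tendsto (fun j => ∫ y, K2_G δ f (y / a (n j)) ∂(fre ρ (k j) (xs j))) atTop
      (𝓝 (∫ y, K2_G δ f (x + y) ∂(Zt α ζ t))) := K1_free hda hT ht hx G
  have h3 : |∫ y, K2_G δ f (x + y) ∂(Zt α ζ t) - ∫ y, K2_g f (x + y) ∂(Zt α ζ t)| ≤ ε / 8 := by
    have hi1 : Integrable (fun y => K2_G δ f (x + y)) (Zt α ζ t) :=
      Integrable.of_bound ((K2_G_cont h0 h1 hf).measurable.comp (measurable_const_add x)).aestronglyMeasurable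
        M (Filter.Eventually.of_forall fun y => K2_G_bd h0 h1 hf _)
    have hi2 : Integrable (fun y => K2_g f (x + y)) (Zt α ζ t) :=
      Integrable.of_bound ((K2_g_meas hf).comp (measurable_const_add x)).aestronglyMeasurable
        M (Filter.Eventually.of_forall fun y => K2_g_bd hf _)
    have hi3 : Integrable (fun y => K2_psi δ (x + y)) (Zt α ζ t) :=
      Integrable.of_bound ((K2_psi_cont h0 h1).measurable.comp (measurable_const_add x)).aestronglyMeasurable
        1 (Filter.Eventually.of_forall fun y => by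
          rw [Real.norm_eq_abs, abs_of_nonneg (K2_psi_nonneg _ _)]
          exact K2_psi_le h0 h1 _)
    rw [← integral_sub hi1 hi2]
    calc |∫ y, (K2_G δ f (x + y) - K2_g f (x + y)) ∂(Zt α ζ t)|
        ≤ ∫ y, |K2_G δ f (x + y) - K2_g f (x + y)| ∂(Zt α ζ t) := abs_integral_le_integral_abs
      _ ≤ ∫ y, M * K2_psi δ (x + y) ∂(Zt α ζ t) :=
          integral_mono (hi1.sub hi2).abs (hi3.const_mul M) fun y => K2_G_sub h0 h1 hf _
      _ = M * ∫ y, K2_psi δ (x + y) ∂(Zt α ζ t) := integral_const_mul _ _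
      _ ≤ M * ε' := mul_le_mul_of_nonneg_left hδ.le hM
      _ ≤ ε / 8 := hMε
  have e1 := hψl.eventually (gt_mem_nhds (show ∫ y, K2_psi δ (x + y) ∂(Zt α ζ t) < 2 * ε' by linarith))
  have e2 := (Metric.tendsto_atTop'.mp hGl) (ε / 8) (by positivity)
  have e2' : ∀ᶠ j in atTop, dist (∫ y, K2_G δ f (y / a (n j)) ∂(fre ρ (k j) (xs j)))
      (∫ y, K2_G δ f (x + y) ∂(Zt α ζ t)) < ε / 8 := by
    obtain ⟨N, hN⟩ := e2
    filter_upwards [eventually_gt_atTop N] with j hj using hN j hj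
  have e3 := hU (δ / 2) (by positivity) (ε / 8) (by positivity)
  obtain ⟨N, hN⟩ := ((e1.and e2').and e3).exists_forall_of_atTop
  refine ⟨N, fun j hj => ?_⟩
  obtain ⟨⟨f1, f2⟩, f3⟩ := hN j (le_of_lt hj)
  have hA := hda.pos (n j)
  have hi1 : Integrable (fun y => D.indicator (F j) y) (fre ρ (k j) (xs j)) := by
    refine Integrable.of_bound ((hF j).1.indicator hD.meas).aestronglyMeasurable M
      (Filter.Eventually.of_forall fun y => ?_)
    by_cases hy : y ∈ D
    · rw [Set.indicator_of_mem hy]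
      exact (hF j).2 y
    · rw [Set.indicator_of_notMem hy, norm_zero]
      exact hM
  have hi2 : Integrable (fun y => K2_G δ f (y / a (n j))) (fre ρ (k j) (xs j)) :=
    Integrable.of_bound ((K2_G_cont h0 h1 hf).measurable.comp
      (measurable_id.div_const _)).aestronglyMeasurable
        M (Filter.Eventually.of_forall fun y => K2_G_bd h0 h1 hf _)
  have hi3 : Integrable (fun y => K2_psi δ (y / a (n j))) (fre ρ (k j) (xs j)) :=
    Integrable.of_bound ((K2_psi_cont h0 h1).measurable.comp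
      (measurable_id.div_const _)).aestronglyMeasurable
        1 (Filter.Eventually.of_forall fun y => by
          rw [Real.norm_eq_abs, abs_of_nonneg (K2_psi_nonneg _ _)]
          exact K2_psi_le h0 h1 _)
  have hcos : ∀ᵐ y ∂(fre ρ (k j) (xs j)), Cos h (c j) y := by
    filter_upwards [ae_fre b h hstep (k j) (xs j)] with y hy
    exact Cos_shift (hxs j) hy
  have g1 : |∫ y in D, F j y ∂(fre ρ (k j) (xs j)) - ∫ y, K2_G δ f (y / a (n j)) ∂(fre ρ (k j) (xs j))|
      ≤ ε / 8 + M * (2 * ε') := by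
    rw [← integral_indicator hD.meas, ← integral_sub hi1 hi2]
    calc |∫ y, (D.indicator (F j) y - K2_G δ f (y / a (n j))) ∂(fre ρ (k j) (xs j))|
        ≤ ∫ y, |D.indicator (F j) y - K2_G δ f (y / a (n j))| ∂(fre ρ (k j) (xs j)) :=
          abs_integral_le_integral_abs
      _ ≤ ∫ y, (ε / 8 + M * K2_psi δ (y / a (n j))) ∂(fre ρ (k j) (xs j)) := by
          refine integral_mono_ae (hi1.sub hi2).abs ((integrable_const _).add (hi3.const_mul M)) ?_
          filter_upwards [hcos] with y hy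
          exact K2_pt hD h0 h1 hf hA (by positivity) (hF j).2 (f3 y hy)
      _ = ε / 8 + M * ∫ y, K2_psi δ (y / a (n j)) ∂(fre ρ (k j) (xs j)) := by
          rw [integral_add (integrable_const _) (hi3.const_mul M), integral_const_mul]
          simp
      _ ≤ ε / 8 + M * (2 * ε') := by
          have := mul_le_mul_of_nonneg_left f1.le hM
          linarith
  rw [Real.dist_eq] at f2 ⊢
  have key : ∀ p q r s : ℝ, |p - s| ≤ |p - q| + |q - r| + |r - s| := by
    intro p q r s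
    calc |p - s| ≤ |p - q| + |q - s| := abs_sub_le _ _ _
      _ ≤ |p - q| + (|q - r| + |r - s|) := by linarith [abs_sub_le q r s]
      _ = _ := by ring
  have g2 := key (∫ y in D, F j y ∂(fre ρ (k j) (xs j))) (∫ y, K2_G δ f (y / a (n j)) ∂(fre ρ (k j) (xs j)))
    (∫ y, K2_G δ f (x + y) ∂(Zt α ζ t)) (∫ y, K2_g f (x + y) ∂(Zt α ζ t))
  linarith

/-- **[STB-K2]** PROOF. By `UC_of_seq` (continuity of the limit: `K2_cont`) it is enough to show, along a subsequence (`UC.sub`,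
`Tm.sub`), that for `x_j` in the coset of `c_j - k_j b` with `x_j/a_n → x > 0` the integrals `∫_D F_j ∂(fre ρ k_j x_j)` converge to
`∫ f ∂(kap (Ioi 0) (Zt t) 1 x) = ∫ 1_{x+y>0} f(x+y) ∂(Zt t)(y)`. Let `0 < δ < 1`, `χ = cut δ`, and `g = χ f` on `(0,∞)`, `0` on `(-∞,0]`: bounded and
continuous on `ℝ`. (i) `|∫_D F_j - ∫ g(·/a_n) ∂fre| ≤ sup |F_j y - f(y/a_n)|` over the points of the coset in `[δ a_n/2, 2a_n/δ]`
(tends to `0`; the law `fre ρ k_j x_j` lives on the coset `Cos h (c j)` by `ae_fre`, `Cos_shift`) `+ 2M P(x_j + S_k ∈ [0, δ a_n]) +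
2M P(x_j + S_k ≥ a_n/δ)`; the last two are small with `δ`, uniformly in `j` large (`DA.conc`, `DA.max`). (ii)
`∫ g(·/a_n) ∂fre → ∫ g(x+y) ∂(Zt t)` by `K1_free`. (iii) `|∫ g(x+y) ∂(Zt t) - ∫ 1_{x+y>0} f(x+y) ∂(Zt t)| ≤ M (Zt t){0 < x+y < δ or x+y > 1/δ}`,
small with `δ`. -/
theorem K2_step (hda : DA α ζ ρ a) (hD : Dom D) {b h : ℝ} (hstep : ∀ᵐ x ∂ρ, Cos h b x) {n k : ℕ → ℕ} {t : ℝ}
    (hT : Tm n k t) (ht : 0 < t) {M : ℝ} {c : ℕ → ℝ} {F : ℕ → ℝ → ℝ} {f : ℝ → ℝ} (hF : MB M F) (hf : BCo M f)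
    (hU : UC h c (fun j => a (n j)) F f) :
    UC h (fun j => c j - k j * b) (fun j => a (n j)) (fun j x => ∫ y in D, F j y ∂(fre ρ (k j) x))
      (fun x => ∫ y, f y ∂(kap (Set.Ioi 0) (Zt α ζ t) 1 x)) := by
  refine UC_of_seq (fun j => hda.pos (n j)) (K2_cont hda.ss hda.one ht hf).1.continuousOn ?_
  intro φ hφ ys hys y _ hy
  have hφ' := hφ.tendsto_atTop
  exact K2_lim hda hD hstep (hT.sub hφ') ht (c := fun i => c (φ i)) (F := fun i => F (φ i))
    (fun j => hF (φ j)) hf (hU.sub hφ') hys hy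

end Pool.Agent.BPT
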