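import Pool.Agent.MP_99a865_pr.ST.K2

/-! **[STB-K3]** The skeleton. -/

open MeasureTheory ProbabilityTheory Filter Topology
open scoped ENNReal NNReal

namespace Pool.Agent.BPT

variable {α : ℝ} {ζ ρ : Measure ℝ} {a : ℕ → ℝ} {D : Set ℝ}

lemma K3_fre_prob [IsProbabilityMeasure ρ] (k : ℕ) (x : ℝ) : IsProbabilityMeasure (fre ρ k x) := by
  unfold fre
  have : IsProbabilityMeasure (seqLaw ρ) := by unfold seqLaw; infer_instance
  exact Measure.isProbabilityMeasure_map (A1_meas_add k x).aemeasurable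

/-- measurability of one step of the skeleton -/
lemma K3_step_meas (hD : Dom D) [IsProbabilityMeasure ρ] (k : ℕ) {g : ℝ → ℝ} (hg : Measurable g) :
    Measurable fun x => ∫ y in D, g y ∂(fre ρ k x) := by
  have : IsProbabilityMeasure (seqLaw ρ) := by unfold seqLaw; infer_instance
  have h1 : ∀ x, ∫ y in D, g y ∂(fre ρ k x) = ∫ ω, D.indicator g (x + S k ω) ∂(seqLaw ρ) := by
    intro x
    rw [← integral_indicator hD.meas]
    unfold fre
    rw [integral_map (A1_meas_add k x).aemeasurable (hg.indicator hD.meas).aestronglyMeasurable]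
  simp_rw [h1]
  have h2 : Measurable fun p : ℝ × (ℕ → ℝ) => D.indicator g (p.1 + S k p.2) :=
    (hg.indicator hD.meas).comp (A1_meas_add' k)
  exact (h2.stronglyMeasurable.integral_prod_right' (ν := seqLaw ρ)).measurable

lemma K3_step_bd [IsProbabilityMeasure ρ] (k : ℕ) {g : ℝ → ℝ} {M : ℝ}
    (hM : ∀ y, |g y| ≤ M) (x : ℝ) : |∫ y in D, g y ∂(fre ρ k x)| ≤ M := by
  have := K3_fre_prob (ρ := ρ) k x
  have hM0 : 0 ≤ M := (abs_nonneg _).trans (hM 0)
  have h1 : ‖∫ y in D, g y ∂(fre ρ k x)‖ ≤ M * ((fre ρ k x).restrict D).real Set.univ :=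
    norm_integral_le_of_norm_le_const (Filter.Eventually.of_forall fun y => by
      rw [Real.norm_eq_abs]; exact hM y)
  rw [Real.norm_eq_abs] at h1
  refine h1.trans ?_
  have h2 : ((fre ρ k x).restrict D).real Set.univ ≤ 1 := by
    rw [measureReal_restrict_apply_univ]
    exact measureReal_le_one
  nlinarith

/-- `sk` maps measurable functions bounded by `M` to such functions -/
theorem sk_meas (hD : Dom D) [IsProbabilityMeasure ρ] (l : List ℕ) {M : ℝ} {F : ℝ → ℝ} (hF : Measurable F)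
    (hM : ∀ y, |F y| ≤ M) : Measurable (sk D ρ l F) ∧ ∀ y, |sk D ρ l F y| ≤ M := by
  induction l with
  | nil => exact ⟨hF, hM⟩
  | cons k l ih => exact ⟨K3_step_meas hD k ih.1, fun y => K3_step_bd k ih.2 y⟩

/-- the killed walk at a positive time lives on the open half-line -/
lemma K3_ind [IsProbabilityMeasure ρ] {i : ℕ} (hi : 1 ≤ i) (f : ℝ → ℝ) (x : ℝ) :
    ∫ y, f y ∂(kap (Set.Ioi 0) ρ i x) = ∫ y, (Set.Ioi (0 : ℝ)).indicator f y ∂(kap (Set.Ioi 0) ρ i x) := by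
  refine integral_congr_ae ?_
  have h1 : ∀ᵐ y ∂(kap (Set.Ioi 0) ρ i x), y ∈ Set.Ioi (0 : ℝ) := by
    rw [ae_iff]
    exact kap_compl (Or.inr rfl) i x (Or.inl hi)
  filter_upwards [h1] with y hy
  rw [Set.indicator_of_mem hy]

lemma KS3_meas {M : ℝ} {f : ℝ → ℝ} (hf : BCo M f) : Measurable ((Set.Ioi (0 : ℝ)).indicator f) := by
  classical
  rw [← Set.piecewise_eq_indicator]
  exact hf.cont.measurable_piecewise continuousOn_const measurableSet_Ioi

lemma K3_bd {M : ℝ} {f : ℝ → ℝ} (hf : BCo M f) (y : ℝ) : |(Set.Ioi (0 : ℝ)).indicator f y| ≤ M := by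
  by_cases hy : y ∈ Set.Ioi (0 : ℝ)
  · rw [Set.indicator_of_mem hy]
    exact hf.bd _ hy
  · rw [Set.indicator_of_notMem hy, abs_zero]
    exact (abs_nonneg _).trans (hf.bd 1 one_pos)

/-- Markov property after one step -/
lemma K3_add [IsProbabilityMeasure ρ] {M : ℝ} {f : ℝ → ℝ} (hf : BCo M f) {i : ℕ} (hi : 1 ≤ i) (x : ℝ) :
    ∫ y, f y ∂(kap (Set.Ioi 0) ρ (i + 1) x) =
      ∫ z, (∫ y, f y ∂(kap (Set.Ioi 0) ρ i z)) ∂(kap (Set.Ioi 0) ρ 1 x) := by
  have h1 := integral_kap_add (D := Set.Ioi (0 : ℝ)) (Or.inr rfl) (ρ := ρ) 1 i x _ (KS3_meas hf) M (K3_bd hf)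
  rw [K3_ind (by omega : 1 ≤ i + 1) f x, add_comm i 1, h1]
  refine integral_congr_ae (Eventually.of_forall fun z => ?_)
  exact (K3_ind hi f z).symm

lemma K3_iter (h : SS α ζ) (hα : 1 < α) {t M : ℝ} (ht : 0 < t) {f : ℝ → ℝ} (hf : BCo M f) (i : ℕ) :
    BCo M (fun x => ∫ y, f y ∂(kap (Set.Ioi 0) (Zt α ζ t) (i + 1) x)) := by
  have hp := h.Zt_prob t
  induction i with
  | zero =>
    obtain ⟨h1, h2⟩ := K2_cont h hα ht hf
    exact ⟨fun x _ => h2 x, h1.continuousOn⟩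
  | succ i ih =>
    have e : (fun x => ∫ y, f y ∂(kap (Set.Ioi 0) (Zt α ζ t) (i + 1 + 1) x)) =
        fun x => ∫ z, (∫ y, f y ∂(kap (Set.Ioi 0) (Zt α ζ t) (i + 1) z)) ∂(kap (Set.Ioi 0) (Zt α ζ t) 1 x) := by
      funext x
      exact K3_add hf (by omega) x
    rw [e]
    obtain ⟨h1, h2⟩ := K2_cont h hα ht ih
    exact ⟨fun x _ => h2 x, h1.continuousOn⟩

/-- `QK` with `K ≥ 1`: bounded by `M`, continuous (induction on the number of steps with `K2_cont` and
`integral_kap_add`) -/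
theorem QK_BCo (h : SS α ζ) (hα : 1 < α) {K : ℕ} (hK : 1 ≤ K) {t M : ℝ} (ht : 0 < t) {f : ℝ → ℝ} (hf : BCo M f) :
    BCo M (QK α ζ K t f) := by
  obtain ⟨i, rfl⟩ := Nat.exists_eq_add_of_le' hK
  exact K3_iter h hα (div_pos ht (by positivity)) hf i

/-- the two sizes of the pieces -/
lemma K3_Tm_div {n k : ℕ → ℕ} {t : ℝ} (hT : Tm n k t) {K : ℕ} (hK : 1 ≤ K) :
    Tm n (fun j => k j / K) (t / K) := by
  have hK0 : (0 : ℝ) < K := by exact_mod_cast hK
  refine ⟨hT.top, ?_⟩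
  have hn : Tendsto (fun j => (n j : ℝ)) atTop atTop := tendsto_natCast_atTop_atTop.comp hT.top
  have h1 : Tendsto (fun j => (k j : ℝ) / n j / K) atTop (𝓝 (t / K)) := hT.lim.div_const _
  have h2 : Tendsto (fun j => (1 : ℝ) / n j) atTop (𝓝 0) := hn.const_div_atTop 1
  have h3 : Tendsto (fun j => (k j : ℝ) / n j / K - 1 / n j) atTop (𝓝 (t / K)) := by
    simpa using h1.sub h2
  refine tendsto_of_tendsto_of_tendsto_of_le_of_le' h3 h1 ?_ ?_
  · filter_upwards [hT.top.eventually (eventually_ge_atTop 1)] with j hj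
    have hnj : (0 : ℝ) < n j := by exact_mod_cast hj
    have e1 : (k j : ℝ) / K - 1 ≤ ((k j / K : ℕ) : ℝ) := by
      have := Nat.lt_div_mul_add (a := k j) (b := K) (by omega)
      have h4 : (k j : ℝ) < ((k j / K : ℕ) : ℝ) * K + K := by exact_mod_cast this
      rw [sub_le_iff_le_add, div_le_iff₀ hK0]
      nlinarith
    have e2 : (k j : ℝ) / n j / K - 1 / n j = ((k j : ℝ) / K - 1) / n j := by ring
    rw [e2]
    exact (div_le_div_iff_of_pos_right hnj).2 e1
  · filter_upwards [hT.top.eventually (eventually_ge_atTop 1)] with j hj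
    have hnj : (0 : ℝ) < n j := by exact_mod_cast hj
    have e1 : ((k j / K : ℕ) : ℝ) ≤ (k j : ℝ) / K := Nat.cast_div_le
    have e2 : (k j : ℝ) / n j / K = ((k j : ℝ) / K) / n j := by ring
    rw [e2]
    exact (div_le_div_iff_of_pos_right hnj).2 e1

lemma K3_le (k K : ℕ) : (K - 1) * (k / K) ≤ k :=
  (Nat.mul_le_mul_right _ (Nat.sub_le K 1)).trans (Nat.mul_div_le k K)

lemma K3_Tm_last {n k : ℕ → ℕ} {t : ℝ} (hT : Tm n k t) {K : ℕ} (hK : 1 ≤ K) :
    Tm n (fun j => k j - (K - 1) * (k j / K)) (t / K) := by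
  have hK0 : (0 : ℝ) < K := by exact_mod_cast hK
  refine ⟨hT.top, ?_⟩
  have h1 := (K3_Tm_div hT hK).lim
  have h2 := hT.lim.sub (h1.const_mul ((K : ℝ) - 1))
  have e : t - ((K : ℝ) - 1) * (t / K) = t / K := by field_simp; ring
  rw [e] at h2
  refine h2.congr fun j => ?_
  rw [Nat.cast_sub (K3_le _ _), Nat.cast_mul, Nat.cast_sub hK]
  push_cast
  ring

/-- **[STB-K3]** The skeleton converges to the skeleton of the limit process. -/
theorem K3_sk (hda : DA α ζ ρ a) (hD : Dom D) {b h : ℝ} (hstep : ∀ᵐ x ∂ρ, Cos h b x) {n k : ℕ → ℕ} {t : ℝ}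
    (hT : Tm n k t) (ht : 0 < t) {K : ℕ} (hK : 1 ≤ K) {M : ℝ} {c : ℕ → ℝ} {F : ℕ → ℝ → ℝ} {f : ℝ → ℝ}
    (hF : MB M F) (hf : BCo M f) (hU : UC h c (fun j => a (n j)) F f) :
    UC h (fun j => c j - k j * b) (fun j => a (n j)) (fun j => sk D ρ (pc K (k j)) (F j)) (QK α ζ K t f) := by
  have hp := hda.prob
  have hK0 : (0 : ℝ) < K := by exact_mod_cast hK
  have ht' : 0 < t / K := div_pos ht hK0
  have hZ := hda.ss.Zt_prob (t / K)
  have T1 := K3_Tm_div hT hK
  have T2 := K3_Tm_last hT hK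
  have key : ∀ i : ℕ, UC h (fun j => c j - ((i * (k j / K) + (k j - (K - 1) * (k j / K)) : ℕ) : ℝ) * b)
      (fun j => a (n j))
      (fun j => sk D ρ (List.replicate i (k j / K) ++ [k j - (K - 1) * (k j / K)]) (F j))
      (fun x => ∫ y, f y ∂(kap (Set.Ioi 0) (Zt α ζ (t / K)) (i + 1) x)) := by
    intro i
    induction i with
    | zero =>
      have h1 := K2_step hda hD hstep T2 ht' hF hf hU
      simpa [sk] using h1
    | succ i ih =>
      have hF' : MB M (fun j => sk D ρ (List.replicate i (k j / K) ++ [k j - (K - 1) * (k j / K)]) (F j)) :=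
        fun j => sk_meas hD _ (hF j).1 (hF j).2
      have h1 := K2_step hda hD hstep T1 ht' hF' (K3_iter hda.ss hda.one ht' hf i) ih
      have e1 : (fun x => ∫ y, f y ∂(kap (Set.Ioi 0) (Zt α ζ (t / K)) (i + 1 + 1) x)) =
          fun x => ∫ z, (∫ y, f y ∂(kap (Set.Ioi 0) (Zt α ζ (t / K)) (i + 1) z))
            ∂(kap (Set.Ioi 0) (Zt α ζ (t / K)) 1 x) := by
        funext x
        exact K3_add hf (by omega) x
      have e2 : (fun j => c j - (((i + 1) * (k j / K) + (k j - (K - 1) * (k j / K)) : ℕ) : ℝ) * b) =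
          fun j => c j - ((i * (k j / K) + (k j - (K - 1) * (k j / K)) : ℕ) : ℝ) * b -
            ((k j / K : ℕ) : ℝ) * b := by
        funext j
        push_cast
        ring
      rw [e1, e2]
      exact h1
  have h1 := key (K - 1)
  have e0 : K - 1 + 1 = K := by omega
  have e2 : (fun j => c j - (((K - 1) * (k j / K) + (k j - (K - 1) * (k j / K)) : ℕ) : ℝ) * b) =
      fun j => c j - (k j : ℝ) * b := by
    funext j
    rw [Nat.add_sub_cancel' (K3_le _ _)]
  rw [e0, e2] at h1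
  exact h1

end Pool.Agent.BPT
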