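import Pool.Agent.MP_99a865_pr.ST.Ctr
import Pool.Agent.MP_99a865_pr.CV.K1

/-! **[STB-K4b]** Modulus of continuity of the survival probability. -/

open MeasureTheory ProbabilityTheory Filter Topology
open scoped ENNReal NNReal

namespace Pool.Agent.BPT

variable {α : ℝ} {ζ ρ : Measure ℝ} {a : ℕ → ℝ} {D : Set ℝ}

/-- independence of the past and of the shifted walk -/
lemma K4b_ind [IsProbabilityMeasure ρ] (k : ℕ) (A B : Set (ℕ → ℝ)) (hA : MeasurableSet A)
    (hB : MeasurableSet B) (hdep : ∀ ω ω', (∀ i < k, ω i = ω' i) → (ω ∈ A ↔ ω' ∈ A)) :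
    seqLaw ρ (A ∩ shift k ⁻¹' B) = seqLaw ρ A * seqLaw ρ B := by
  classical
  have h := lintegral_split ρ k
    (fun ω η => A.indicator (fun _ => (1 : ℝ≥0∞)) ω * B.indicator (fun _ => (1 : ℝ≥0∞)) η)
    (((measurable_const.indicator hA).comp measurable_fst).mul
      ((measurable_const.indicator hB).comp measurable_snd)) (fun ω ω' η hω => by
        have := hdep ω ω' hω
        by_cases h : ω ∈ A
        · rw [Set.indicator_of_mem h, Set.indicator_of_mem (this.1 h)]
        · rw [Set.indicator_of_notMem h, Set.indicator_of_notMem (fun h' => h (this.2 h'))])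
  have e1 : ∀ ω : ℕ → ℝ, A.indicator (fun _ => (1 : ℝ≥0∞)) ω * B.indicator (fun _ => (1 : ℝ≥0∞)) (shift k ω) =
      (A ∩ shift k ⁻¹' B).indicator (fun _ => (1 : ℝ≥0∞)) ω := by
    intro ω
    by_cases h1 : ω ∈ A <;> by_cases h2 : shift k ω ∈ B <;> simp [h1, h2, Set.indicator]
  simp_rw [e1] at h
  rw [lintegral_indicator_const (hA.inter (measurable_shift k hB)), one_mul] at h
  rw [h]
  have e2 : ∀ ω : ℕ → ℝ, ∫⁻ η, A.indicator (fun _ => (1 : ℝ≥0∞)) ω * B.indicator (fun _ => (1 : ℝ≥0∞)) η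
      ∂(seqLaw ρ) = A.indicator (fun _ => (1 : ℝ≥0∞)) ω * seqLaw ρ B := by
    intro ω
    rw [lintegral_const_mul _ (measurable_const.indicator hB), lintegral_indicator_const hB, one_mul]
  simp_rw [e2]
  rw [lintegral_mul_const _ (measurable_const.indicator hA), lintegral_indicator_const hA, one_mul]

lemma K4b_dep (x : ℝ) (j : ℕ) (ω ω' : ℕ → ℝ) (h : ∀ i < j, ω i = ω' i) :
    ω ∈ K1_E D x j ↔ ω' ∈ K1_E D x j := by
  unfold K1_E
  simp only [Set.mem_setOf_eq]
  rw [A1b_alive_congr (j - 1) x (fun i hi => h i (by omega)), A1b_S_congr j h le_rfl]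

lemma K4b_case1 (hD : Dom D) [IsProbabilityMeasure ρ] (x : ℝ) (r : ℕ) (B : Set (ℕ → ℝ))
    (hB : MeasurableSet B) :
    seqLaw ρ (⋃ j ∈ Finset.range r, (K1_E D x j ∩ shift j ⁻¹' B)) ≤ seqLaw ρ B := by
  calc seqLaw ρ (⋃ j ∈ Finset.range r, (K1_E D x j ∩ shift j ⁻¹' B))
      ≤ ∑ j ∈ Finset.range r, seqLaw ρ (K1_E D x j ∩ shift j ⁻¹' B) := measure_biUnion_finset_le _ _
    _ = ∑ j ∈ Finset.range r, seqLaw ρ (K1_E D x j) * seqLaw ρ B := by
        refine Finset.sum_congr rfl fun j _ => ?_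
        exact K4b_ind j _ _ (K1_meas hD x j) hB (K4b_dep x j)
    _ = (∑ j ∈ Finset.range r, seqLaw ρ (K1_E D x j)) * seqLaw ρ B := by rw [Finset.sum_mul]
    _ ≤ 1 * seqLaw ρ B := by
        refine mul_le_mul_left ?_ _
        rw [← measure_biUnion_finset (fun i _ j _ hij => K1_disj x hij) (fun j _ => K1_meas hD x j)]
        exact prob_le_one
    _ = seqLaw ρ B := one_mul _

lemma K4b_incl (hD : Dom D) {x s R : ℝ} (hx : 0 ≤ x) (hs : 0 ≤ s) {k m : ℕ} (hm : m ≤ k) :
    {ω | Alive D (x + s) k ω} \ {ω | Alive D x k ω} ⊆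
      (⋃ j ∈ Finset.range (k - m + 1), (K1_E D x j ∩ shift j ⁻¹' {ω | Alive D s m ω})) ∪
      ({ω | x + S (k - m) ω ∈ Set.Icc (-s) R} ∪ shift (k - m) ⁻¹' {ω | ∃ i ≤ m, R ≤ |S i ω|}) := by
  classical
  rintro ω ⟨h1, h2⟩
  have h2' : ∃ j, 1 ≤ j ∧ j ≤ k ∧ x + S j ω ∉ D := by
    by_contra hc
    push Not at hc
    exact h2 fun j hj1 hj2 => hc j hj1 hj2
  obtain ⟨hj1, hjk, hj⟩ := Nat.find_spec h2'
  have hmin : ∀ i < Nat.find h2', ¬ (1 ≤ i ∧ i ≤ k ∧ x + S i ω ∉ D) := fun i hi => Nat.find_min h2' hi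
  generalize Nat.find h2' = j at hj1 hjk hj hmin
  have halive : Alive D x (j - 1) ω := by
    intro i hi1 hi2
    by_contra hc
    exact hmin i (by omega) ⟨hi1, by omega, hc⟩
  have hjle : x + S j ω ≤ 0 := hD.not_mem hj
  by_cases hc : j ≤ k - m
  · left
    refine Set.mem_biUnion (x := j) (Finset.mem_coe.mpr (Finset.mem_range.mpr (by omega)))
      ⟨⟨hj1, halive, hj⟩, ?_⟩
    intro i hi1 hi2
    have h3 := h1 (j + i) (by omega) (by omega)
    rw [S_shift] at h3
    refine hD.up h3 ?_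
    linarith
  · right
    have hq : 0 ≤ x + s + S (k - m) ω := by
      by_cases h0 : k - m = 0
      · rw [h0, A1_S_zero]
        linarith
      · exact hD.nonneg (h1 (k - m) (by omega) (by omega))
    by_cases hR : x + S (k - m) ω ≤ R
    · left
      exact ⟨by linarith, hR⟩
    · right
      refine ⟨j - (k - m), by omega, ?_⟩
      have e : S j ω = S (k - m) ω + S (j - (k - m)) (shift (k - m) ω) := by
        rw [← S_shift]
        congr 1
        omega
      have h4 : R ≤ -S (j - (k - m)) (shift (k - m) ω) := by linarith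
      exact h4.trans (neg_le_abs _)

lemma K4b_measMax (m : ℕ) (R : ℝ) : MeasurableSet {ω : ℕ → ℝ | ∃ i ≤ m, R ≤ |S i ω|} := by
  have : {ω : ℕ → ℝ | ∃ i ≤ m, R ≤ |S i ω|} = ⋃ i : ℕ, ⋃ (_ : i ≤ m), {ω | R ≤ |S i ω|} := by
    ext ω
    simp
  rw [this]
  exact MeasurableSet.iUnion fun i => MeasurableSet.iUnion fun _ =>
    measurableSet_le measurable_const (measurable_S i).abs

lemma K4b_bound (hD : Dom D) [IsProbabilityMeasure ρ] {x s R : ℝ} (hx : 0 ≤ x) (hs : 0 ≤ s)
    {k m : ℕ} (hm : m ≤ k) :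
    al D ρ k (x + s) - al D ρ k x ≤ al D ρ m s + ((fre ρ (k - m) x).real (Set.Icc (-s) R) +
      (seqLaw ρ).real {ω | ∃ i ≤ m, R ≤ |S i ω|}) := by
  have hal : ∀ n y, al D ρ n y = (seqLaw ρ).real {ω | Alive D y n ω} := by
    intro n y
    unfold al
    rw [Measure.real, kap_univ_eq hD, Measure.real]
  have hprob : IsProbabilityMeasure (seqLaw ρ) := by
    unfold seqLaw
    infer_instance
  have h1 : al D ρ k (x + s) ≤ al D ρ k x +
      (seqLaw ρ).real ({ω | Alive D (x + s) k ω} \ {ω | Alive D x k ω}) := by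
    rw [hal, hal]
    refine le_trans (measureReal_mono (s₂ := {ω | Alive D x k ω} ∪
      ({ω | Alive D (x + s) k ω} \ {ω | Alive D x k ω})) ?_) (measureReal_union_le _ _)
    intro ω hω
    by_cases h : ω ∈ {ω | Alive D x k ω}
    · exact Or.inl h
    · exact Or.inr ⟨hω, h⟩
  have h2 := measureReal_mono (μ := seqLaw ρ) (K4b_incl (R := R) hD hx hs hm)
  have h3 := h2.trans (measureReal_union_le _ _)
  have h4 : (seqLaw ρ).real (⋃ j ∈ Finset.range (k - m + 1), (K1_E D x j ∩ shift j ⁻¹' {ω | Alive D s m ω}))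
      ≤ al D ρ m s := by
    rw [hal]
    exact ENNReal.toReal_mono (measure_ne_top _ _)
      (K4b_case1 hD x (k - m + 1) _ (measurableSet_alive hD s m))
  have h5 : (seqLaw ρ).real {ω | x + S (k - m) ω ∈ Set.Icc (-s) R} = (fre ρ (k - m) x).real (Set.Icc (-s) R) := by
    unfold fre
    rw [Measure.real, Measure.real, Measure.map_apply (A1_meas_add (k - m) x) measurableSet_Icc]
    rfl
  have h6 : (seqLaw ρ).real (shift (k - m) ⁻¹' {ω | ∃ i ≤ m, R ≤ |S i ω|}) =
      (seqLaw ρ).real {ω | ∃ i ≤ m, R ≤ |S i ω|} := by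
    rw [Measure.real, ← Measure.map_apply (measurable_shift (k - m)) (K4b_measMax m R),
      map_shift, Measure.real]
  have h7 := measureReal_union_le (μ := seqLaw ρ) {ω | x + S (k - m) ω ∈ Set.Icc (-s) R}
    (shift (k - m) ⁻¹' {ω | ∃ i ≤ m, R ≤ |S i ω|})
  rw [h5, h6] at h7
  linarith

/-- **[STB-K4b]** Modulus of continuity of the survival probability, uniform in the starting point. PROOF. Couple: the walk from
`x + ε a_k` survives up to `k` and the walk from `x` does not: let `τ ≤ k` be the first time with `x + S_τ ∉ D`; then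
`p = x + ε a_k + S_τ ≤ ε a_k` (and `p ∈ D`) and the walk from `p` survives `k - τ` steps. Let `0 < θ < 1/2`, `m = ⌊θ k⌋`.
* `τ ≤ k - m`: by the Markov property at `τ` (decompose over the values of `τ`; `al` is monotone in the starting point,
  nonincreasing in time) the probability is at most `al D ρ m (ε a_k) ≤ C V(ε a_k)/V(a_m)` (`DA.al_le`), which for fixed `θ` is small
  with `ε` (`DA.vr_small`, `DA.ratio`, `vr_mul`).
* `k - m < τ ≤ k`: then at time `k - m` the walk from `x + ε a_k` is at some `q ≥ 0` and within the next `m` steps it comes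
  below `ε a_k`. So either `q ≤ (ε + R) a_k`, probability at most `P(x + S_{k-m} ∈ [-ε a_k, R a_k])`, small with `ε + R`
  (`DA.conc`, `k - m ≥ k/2`), or `max_{i≤m} |S'_i| ≥ R a_k`, probability `≤ C θ (1/R + 1/R²)` (`DA.max`).
First choose `R`, then `θ`, then `ε`. -/
theorem K4_mod (h : DA α ζ ρ a) (hD : Dom D) : ∀ η > (0 : ℝ), ∃ ε > (0 : ℝ), ∀ᶠ k : ℕ in atTop, ∀ x, 0 ≤ x →
    al D ρ k (x + ε * a k) - al D ρ k x ≤ η := by
  intro η hη
  have hprob := h.prob
  have hcen := h.cen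
  obtain ⟨_, hV1, hVm⟩ := vr_facts hD hcen
  obtain ⟨δ, hδ, hconc⟩ := h.conc (c := 1 / 2) (by norm_num) (η / 3) (by positivity)
  obtain ⟨C, hC, hmax⟩ := h.max
  set R : ℝ := δ / 2 with hR
  have hR0 : 0 < R := by positivity
  set Q : ℝ := 1 / R + 1 / R ^ 2 with hQ
  have hQ0 : 0 < Q := by positivity
  set θ : ℝ := min (1 / 4) (η / (3 * C * Q)) with hθ
  have hθ0 : 0 < θ := lt_min (by norm_num) (by positivity)
  have hθ1 : θ ≤ 1 / 4 := min_le_left _ _
  have hθ2 : C * θ * Q ≤ η / 3 := by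
    have h1 : θ ≤ η / (3 * C * Q) := min_le_right _ _
    rw [le_div_iff₀ (by positivity)] at h1
    nlinarith
  obtain ⟨C', hC', hal⟩ := h.al_le hD
  have hα : 0 < 1 / α := by
    have := h.one
    positivity
  set β : ℝ := θ ^ (1 / α) with hβ
  have hβ0 : 0 < β := Real.rpow_pos_of_pos hθ0 _
  have hβ1 : β ≤ 1 := Real.rpow_le_one hθ0.le (by linarith) hα.le
  obtain ⟨δ1, hδ1, hsmall⟩ := h.vr_small hD (η / 3 * β / (4 * C')) (by positivity)
  refine ⟨min (δ / 2) δ1, lt_min (by positivity) hδ1, ?_⟩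
  set ε : ℝ := min (δ / 2) δ1 with hε
  have hε0 : 0 < ε := lt_min (by positivity) hδ1
  have hε1 : ε ≤ δ / 2 := min_le_left _ _
  have hε2 : ε ≤ δ1 := min_le_right _ _
  have hT : Tm (fun j => j) (fun j => ⌊θ * (j : ℝ)⌋₊) θ :=
    ⟨tendsto_id, (tendsto_nat_floor_mul_div_atTop hθ0.le).comp tendsto_natCast_atTop_atTop⟩
  have hm_top : Tendsto (fun j : ℕ => ⌊θ * (j : ℝ)⌋₊) atTop atTop :=
    tendsto_nat_floor_atTop.comp (tendsto_natCast_atTop_atTop.const_mul_atTop hθ0)
  have hrat := h.ratio hT hθ0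
  have hrat' := hrat.eventually (lt_mem_nhds (show β / 2 < β by linarith))
  filter_upwards [hconc, hmax, hm_top.eventually hal, hrat', hsmall, eventually_ge_atTop 1]
    with k hc1 hm1 ha1 hr1 hs1 hk1 x hx
  set m : ℕ := ⌊θ * (k : ℝ)⌋₊ with hm
  have hk0 : (0 : ℝ) < k := by exact_mod_cast hk1
  have hmk : (m : ℝ) ≤ θ * k := Nat.floor_le (by positivity)
  have hmk' : m ≤ k := by
    have : (m : ℝ) ≤ k := by nlinarith
    exact_mod_cast this
  have hak : 0 < a k := h.pos k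
  have ham : 0 < a m := h.pos m
  have hs0 : 0 ≤ ε * a k := by positivity
  have hb := K4b_bound (ρ := ρ) (R := R * a k) hD hx hs0 hmk'
  -- first term
  have hVpos : 0 < vr D ρ (a m) := lt_of_lt_of_le one_pos (hV1 _)
  have t1 : al D ρ m (ε * a k) ≤ η / 3 := by
    have h1 := ha1 (ε * a k) hs0
    have h2 : vr D ρ (ε * a k) ≤ η / 3 * β / (4 * C') * vr D ρ (a k) :=
      (hVm (mul_le_mul_of_nonneg_right hε2 hak.le)).trans hs1
    have h3 : vr D ρ (a k) ≤ 4 / β * vr D ρ (a m) := by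
      have h4 : a k ≤ 2 / β * a m := by
        rw [lt_div_iff₀ hak] at hr1
        rw [div_mul_eq_mul_div, le_div_iff₀ hβ0]
        linarith
      have h5 := vr_mul hD hcen (a m) (2 / β) ham.le (by
        rw [le_div_iff₀ hβ0]
        linarith)
      calc vr D ρ (a k) ≤ vr D ρ (2 / β * a m) := hVm h4
        _ ≤ 2 * (2 / β) * vr D ρ (a m) := h5
        _ = 4 / β * vr D ρ (a m) := by ring
    have h6 : vr D ρ (ε * a k) ≤ η / (3 * C') * vr D ρ (a m) := by
      calc vr D ρ (ε * a k) ≤ η / 3 * β / (4 * C') * vr D ρ (a k) := h2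
        _ ≤ η / 3 * β / (4 * C') * (4 / β * vr D ρ (a m)) :=
            mul_le_mul_of_nonneg_left h3 (by positivity)
        _ = η / (3 * C') * vr D ρ (a m) := by field_simp
    calc al D ρ m (ε * a k) ≤ C' * (vr D ρ (ε * a k) / vr D ρ (a m)) := h1
      _ ≤ C' * (η / (3 * C')) := by
          refine mul_le_mul_of_nonneg_left ?_ hC'.le
          rw [div_le_iff₀ hVpos]
          exact h6
      _ = η / 3 := by field_simp
  -- second term
  have t2 : (fre ρ (k - m) x).real (Set.Icc (-(ε * a k)) (R * a k)) ≤ η / 3 := by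
    refine (measureReal_mono (Set.Icc_subset_Icc_right ?_)).trans
      (hc1 (k - m) ?_ x (-(ε * a k)))
    · have : (R + ε) * a k ≤ δ * a k := mul_le_mul_of_nonneg_right (by rw [hR]; linarith) hak.le
      linarith
    · rw [Nat.cast_sub hmk']
      nlinarith
  -- third term
  have t3 : (seqLaw ρ).real {ω | ∃ i ≤ m, R * a k ≤ |S i ω|} ≤ η / 3 := by
    refine (hm1 m hmk' R hR0).trans ?_
    have h1 : (m : ℝ) / k ≤ θ := by
      rw [div_le_iff₀ hk0]
      exact hmk
    calc C * ((m : ℝ) / k) * (1 / R + 1 / R ^ 2) ≤ C * θ * Q :=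
          mul_le_mul_of_nonneg_right (mul_le_mul_of_nonneg_left h1 hC.le) hQ0.le
      _ ≤ η / 3 := hθ2
  linarith

end Pool.Agent.BPT
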