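import Pool.Agent.MP_99a865_pr.ST.Ctr
import Pool.Agent.MP_99a865_pr.FV.B3

/-! **[STB-K4c]** Bad blocks. -/

open MeasureTheory ProbabilityTheory Filter Topology
open scoped ENNReal NNReal

namespace Pool.Agent.BPT

variable {α : ℝ} {ζ ρ : Measure ℝ} {a : ℕ → ℝ} {D : Set ℝ}

/-- the skeleton survival probability in `[0,∞]` -/
noncomputable def K4c_L (D : Set ℝ) (ρ : Measure ℝ) : List ℕ → ℝ → ℝ≥0∞
  | [] => fun _ => 1
  | k :: l => fun x => ∫⁻ y in D, K4c_L D ρ l y ∂(fre ρ k x)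

/-- `P(max_{j ≤ m} |S_j| ≥ δ)` -/
noncomputable def K4c_q (ρ : Measure ℝ) (δ : ℝ) (m : ℕ) : ℝ≥0∞ :=
  seqLaw ρ {ω | ∃ j ≤ m, δ ≤ |S j ω|}

theorem K4c_meas (hD : Dom D) [IsProbabilityMeasure ρ] (l : List ℕ) : Measurable (K4c_L D ρ l) := by
  induction l with
  | nil => exact measurable_const
  | cons k l ih =>
    have h := B3_meas_fre (ρ := ρ) k (D.indicator (K4c_L D ρ l)) (ih.indicator hD.meas)
    have e : K4c_L D ρ (k :: l) = fun y => ∫⁻ z, D.indicator (K4c_L D ρ l) z ∂(fre ρ k y) := by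
      funext y
      rw [lintegral_indicator hD.meas]
      rfl
    rw [e]
    exact h

theorem K4c_le_one [IsProbabilityMeasure ρ] (l : List ℕ) (x : ℝ) :
    K4c_L D ρ l x ≤ 1 := by
  induction l generalizing x with
  | nil => exact le_rfl
  | cons k l ih =>
    calc K4c_L D ρ (k :: l) x ≤ ∫⁻ y in D, 1 ∂(fre ρ k x) := lintegral_mono fun y => ih y
      _ ≤ ∫⁻ _, 1 ∂(fre ρ k x) := setLIntegral_le_lintegral _ _
      _ = 1 := by simp

theorem K4c_sk (hD : Dom D) [IsProbabilityMeasure ρ] (l : List ℕ) :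
    sk D ρ l (fun _ => 1) = fun x => (K4c_L D ρ l x).toReal := by
  induction l with
  | nil =>
    funext x
    simp [sk, K4c_L]
  | cons k l ih =>
    funext x
    change ∫ y in D, sk D ρ l (fun _ => 1) y ∂(fre ρ k x) = (∫⁻ y in D, K4c_L D ρ l y ∂(fre ρ k x)).toReal
    rw [ih]
    exact integral_toReal (K4c_meas hD l).aemeasurable
      (ae_of_all _ fun y => (K4c_le_one l y).trans_lt ENNReal.one_lt_top)

/-- the exit probability of the walk started at `x + δ` -/
theorem K4c_exit (hD : Dom D) [IsProbabilityMeasure ρ] (m : ℕ) {x δ : ℝ} (hx : 0 ≤ x) :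
    ∑ i ∈ Finset.range m, ∫⁻ w, ex D ρ w ∂(kap D ρ i (x + δ)) ≤ K4c_q ρ δ m := by
  have h1 := exit_mass hD (ρ := ρ) 0 m (Nat.zero_le m) (x + δ)
  rw [Nat.Ico_zero_eq_range, kap_zero, kap_univ_eq hD, measure_univ] at h1
  have h2 : seqLaw ρ {ω | Alive D (x + δ) m ω} + seqLaw ρ {ω | Alive D (x + δ) m ω}ᶜ = 1 := by
    rw [measure_add_measure_compl (measurableSet_alive hD _ _)]
    have : IsProbabilityMeasure (seqLaw ρ) := by
      unfold seqLaw
      infer_instance
    exact measure_univ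
  have hfin : seqLaw ρ {ω | Alive D (x + δ) m ω} ≠ ∞ := by
    intro h
    rw [h] at h2
    simp at h2
  have h3 : ∑ i ∈ Finset.range m, ∫⁻ w, ex D ρ w ∂(kap D ρ i (x + δ)) =
      seqLaw ρ {ω | Alive D (x + δ) m ω}ᶜ := by
    rw [← h2, add_comm] at h1
    exact (ENNReal.add_right_inj hfin).1 h1
  rw [h3]
  refine measure_mono fun ω hω => ?_
  have hω' : ¬ Alive D (x + δ) m ω := hω
  unfold Alive at hω'
  push Not at hω'
  obtain ⟨j, _, hj, hjD⟩ := hω'
  refine ⟨j, hj, ?_⟩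
  have h4 := hD.not_mem hjD
  have h5 := neg_abs_le (S j ω)
  linarith

/-- after an exit the walk has to go up by `δ` -/
theorem K4c_up (hD : Dom D) [IsProbabilityMeasure ρ] (m j : ℕ) (hj : j ≤ m) {δ v : ℝ} (hv : v ∉ D)
    (g : ℝ → ℝ≥0∞) (hg : ∀ z, g z ≤ {z : ℝ | z - δ ∈ D}.indicator (fun _ => 1) z) :
    ∫⁻ z, g z ∂(fre ρ j v) ≤ K4c_q ρ δ m := by
  have hm : MeasurableSet {z : ℝ | z - δ ∈ D} := (measurable_id.sub_const δ) hD.meas
  refine (lintegral_mono hg).trans ?_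
  rw [lintegral_indicator hm, lintegral_one, Measure.restrict_apply_univ]
  unfold fre
  rw [Measure.map_apply (A1_meas_add j v) hm]
  refine measure_mono fun ω hω => ⟨j, hj, ?_⟩
  have h1 : v + S j ω - δ ∈ D := hω
  have h2 := hD.nonneg h1
  have h3 := hD.not_mem hv
  have h4 := le_abs_self (S j ω)
  linarith

theorem K4c_shift (hD : Dom D) [IsProbabilityMeasure ρ] (m : ℕ) (x δ : ℝ) (f : ℝ → ℝ≥0∞)
    (hf : Measurable f) :
    ∫⁻ y in D, f (y + δ) ∂(fre ρ m x) =
      ∫⁻ z, {z : ℝ | z - δ ∈ D}.indicator f z ∂(fre ρ m (x + δ)) := by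
  have hm : MeasurableSet {z : ℝ | z - δ ∈ D} := (measurable_id.sub_const δ) hD.meas
  rw [← lintegral_indicator hD.meas]
  unfold fre
  rw [lintegral_map (f := D.indicator fun y => f (y + δ))
      ((hf.comp (measurable_add_const δ)).indicator hD.meas) (A1_meas_add m x),
    lintegral_map (hf.indicator hm) (A1_meas_add m (x + δ))]
  refine lintegral_congr fun ω => ?_
  have e : x + S m ω + δ = x + δ + S m ω := by ring
  have e2 : x + δ + S m ω - δ = x + S m ω := by ring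
  by_cases h : x + S m ω ∈ D
  · rw [Set.indicator_of_mem h, Set.indicator_of_mem (show x + δ + S m ω ∈ {z : ℝ | z - δ ∈ D} by
      change x + δ + S m ω - δ ∈ D
      rw [e2]
      exact h)]
    change f (x + S m ω + δ) = f (x + δ + S m ω)
    rw [e]
  · rw [Set.indicator_of_notMem h, Set.indicator_of_notMem (show x + δ + S m ω ∉ {z : ℝ | z - δ ∈ D} by
      change ¬ (x + δ + S m ω - δ ∈ D)
      rw [e2]
      exact h)]

/-- the induction over the blocks -/
theorem K4c_main (hD : Dom D) [IsProbabilityMeasure ρ] (δ : ℝ) (l : List ℕ) (x : ℝ) (hx : 0 ≤ x) :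
    K4c_L D ρ l x ≤ kap D ρ l.sum (x + δ) Set.univ + (l.map fun m => K4c_q ρ δ m ^ 2).sum := by
  induction l generalizing x with
  | nil =>
    simp [K4c_L, kap_zero]
  | cons m l ih =>
    set E : ℝ≥0∞ := (l.map fun m => K4c_q ρ δ m ^ 2).sum with hE
    set f : ℝ → ℝ≥0∞ := fun z => kap D ρ l.sum z Set.univ with hf
    have hfm : Measurable f := by
      have := B3_meas_kap hD (ρ := ρ) l.sum (fun _ => 1) measurable_const
      simpa [hf] using this
    have hf1 : ∀ z, f z ≤ 1 := fun z => kap_univ_le_one _ _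
    have h1 : K4c_L D ρ (m :: l) x ≤ ∫⁻ y in D, f (y + δ) ∂(fre ρ m x) + E := by
      calc K4c_L D ρ (m :: l) x ≤ ∫⁻ y in D, (f (y + δ) + E) ∂(fre ρ m x) :=
            setLIntegral_mono' hD.meas fun y hy => ih y (hD.nonneg hy)
        _ = ∫⁻ y in D, f (y + δ) ∂(fre ρ m x) + E * (fre ρ m x) D := by
            rw [lintegral_add_right _ measurable_const, setLIntegral_const]
        _ ≤ ∫⁻ y in D, f (y + δ) ∂(fre ρ m x) + E := by
            refine add_le_add le_rfl ?_
            calc E * (fre ρ m x) D ≤ E * 1 := mul_le_mul_right prob_le_one E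
              _ = E := mul_one E
    have hm : MeasurableSet {z : ℝ | z - δ ∈ D} := (measurable_id.sub_const δ) hD.meas
    have hgm : Measurable ({z : ℝ | z - δ ∈ D}.indicator f) := hfm.indicator hm
    have h2 : ∫⁻ z, {z : ℝ | z - δ ∈ D}.indicator f z ∂(fre ρ m (x + δ)) ≤
        kap D ρ (m + l.sum) (x + δ) Set.univ + K4c_q ρ δ m ^ 2 := by
      rw [exit_decomp_lintegral hD m (x + δ) _ hgm]
      refine add_le_add ?_ ?_
      · rw [kap_add_apply hD m l.sum (x + δ) Set.univ MeasurableSet.univ]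
        exact lintegral_mono fun z => Set.indicator_le_self _ _ z
      · have h3 : ∀ i ∈ Finset.range m, ∫⁻ w, (∫⁻ y in {y | w + y ∉ D},
            (∫⁻ z, {z : ℝ | z - δ ∈ D}.indicator f z ∂(fre ρ (m - 1 - i) (w + y))) ∂ρ)
              ∂(kap D ρ i (x + δ)) ≤ (∫⁻ w, ex D ρ w ∂(kap D ρ i (x + δ))) * K4c_q ρ δ m := by
          intro i _
          rw [← lintegral_mul_const _ (measurable_ex hD)]
          refine lintegral_mono fun w => ?_
          have hms : MeasurableSet {y : ℝ | w + y ∉ D} := (B3_meas_set hD w).compl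
          calc ∫⁻ y in {y | w + y ∉ D},
                (∫⁻ z, {z : ℝ | z - δ ∈ D}.indicator f z ∂(fre ρ (m - 1 - i) (w + y))) ∂ρ
              ≤ ∫⁻ _ in {y | w + y ∉ D}, K4c_q ρ δ m ∂ρ := by
                refine setLIntegral_mono' hms fun y hy => ?_
                refine K4c_up hD m (m - 1 - i) (by omega) hy _ fun z => ?_
                exact Set.indicator_le_indicator (hf1 z)
            _ = ex D ρ w * K4c_q ρ δ m := by
                rw [setLIntegral_const, mul_comm]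
                rfl
        refine (Finset.sum_le_sum h3).trans ?_
        rw [← Finset.sum_mul, sq]
        exact mul_le_mul_left (K4c_exit hD m hx) _
    rw [K4c_shift hD m x δ f hfm] at h1
    rw [List.sum_cons, List.map_cons, List.sum_cons]
    calc K4c_L D ρ (m :: l) x ≤ kap D ρ (m + l.sum) (x + δ) Set.univ + K4c_q ρ δ m ^ 2 + E :=
          h1.trans (add_le_add h2 le_rfl)
      _ = kap D ρ (m + l.sum) (x + δ) Set.univ + (K4c_q ρ δ m ^ 2 + E) := add_assoc _ _ _

theorem K4c_pc_sum (K k : ℕ) : (pc K k).sum = k := by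
  unfold pc
  rw [List.sum_append, List.sum_replicate, List.sum_singleton, smul_eq_mul]
  have h1 : (K - 1) * (k / K) ≤ k := by
    calc (K - 1) * (k / K) ≤ K * (k / K) := Nat.mul_le_mul_right _ (Nat.sub_le _ _)
      _ ≤ k := Nat.mul_div_le k K
  omega

theorem K4c_pc_length (K k : ℕ) (hK : 1 ≤ K) : (pc K k).length = K := by
  unfold pc
  simp
  omega

theorem K4c_pc_le (K k : ℕ) (hK : 1 ≤ K) (hk : K ^ 2 ≤ k) : ∀ m ∈ pc K k, m ≤ k ∧
    (m : ℝ) / k ≤ 2 / K := by
  intro m hm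
  have hKpos : (0 : ℝ) < K := by exact_mod_cast hK
  have hk0 : 1 ≤ k := le_trans (Nat.one_le_pow _ _ hK) hk
  have hkpos : (0 : ℝ) < k := by exact_mod_cast hk0
  have hle : m ≤ k / K + K ∧ m ≤ k := by
    unfold pc at hm
    rw [List.mem_append, List.mem_replicate, List.mem_singleton] at hm
    rcases hm with ⟨_, rfl⟩ | rfl
    · exact ⟨Nat.le_add_right _ _, Nat.div_le_self _ _⟩
    · refine ⟨?_, Nat.sub_le _ _⟩
      have h1 := Nat.div_add_mod k K
      have h2 := Nat.mod_lt k (by omega : K > 0)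
      obtain ⟨K', rfl⟩ : ∃ K', K = K' + 1 := ⟨K - 1, by omega⟩
      have h3 : (K' + 1 - 1) * (k / (K' + 1)) + k / (K' + 1) = (K' + 1) * (k / (K' + 1)) := by
        rw [Nat.add_sub_cancel]
        ring
      generalize (K' + 1) * (k / (K' + 1)) = A at h1 h3
      generalize (K' + 1 - 1) * (k / (K' + 1)) = B at h3 ⊢
      generalize k / (K' + 1) = t at h3 ⊢
      generalize k % (K' + 1) = r at h1 h2
      omega
  refine ⟨hle.2, ?_⟩
  rw [div_le_div_iff₀ hkpos hKpos]
  have h1 : ((k / K : ℕ) : ℝ) ≤ (k : ℝ) / K := Nat.cast_div_le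
  have h2 : (m : ℝ) ≤ ((k / K : ℕ) : ℝ) + K := by exact_mod_cast hle.1
  have h3 : (K : ℝ) ^ 2 ≤ k := by exact_mod_cast hk
  have h4 : (m : ℝ) * K ≤ ((k : ℝ) / K + K) * K := mul_le_mul_of_nonneg_right (h2.trans (by linarith)) hKpos.le
  have h5 : ((k : ℝ) / K + K) * K = k + (K : ℝ) ^ 2 := by
    field_simp
  linarith

/-- **[STB-K4c]** Bad blocks. PROOF. Suppose that the walk from `x` is in `D` at all skeleton times but the walk from `x + ε a_k` is not in `D`
at some time `i ≤ k`: `x + S_i ≤ -ε a_k`; let `[u, v]` be the block of `i` (between two consecutive skeleton times, `x + S_u ≥ 0`,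
`x + S_v ≥ 0`), and `i₀ ≥ u` the first time after `u` with `x + S_{i₀} ≤ -ε a_k`: within the block the walk goes down by `ε a_k` before
`i₀` and then up by `ε a_k` between `i₀` and `v`. By the Markov property at `u` and at `i₀` the probability for a block of length
`v - u = m` is at most `P(max_{j≤m}|S_j| ≥ ε a_k)²`, and `≤ (C (m/k)(1/ε + 1/ε²))²` by `DA.max` (`n = k`, `m ≤ k/K + K ≤ 2k/K` for `k ≥ K²`). Sum over the `K` blocks:
`sk D ρ (pc K k) 1 x ≤ al D ρ k (x + ε a_k) + K (2C/K · (1/ε + 1/ε²))²`. -/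
theorem K4_bad (h : DA α ζ ρ a) (hD : Dom D) : ∃ C > (0 : ℝ), ∀ ε > (0 : ℝ), ∀ K : ℕ, 1 ≤ K →
    ∀ᶠ k : ℕ in atTop, ∀ x, 0 ≤ x →
      sk D ρ (pc K k) (fun _ => 1) x ≤ al D ρ k (x + ε * a k) + C * (1 / ε + 1 / ε ^ 2) ^ 2 / K := by
  have := h.prob
  have hps : IsProbabilityMeasure (seqLaw ρ) := by
    unfold seqLaw
    infer_instance
  obtain ⟨C, hC, hmax⟩ := h.max
  refine ⟨4 * C ^ 2, by positivity, fun ε hε K hK => ?_⟩
  filter_upwards [hmax, eventually_ge_atTop (K ^ 2)] with k hk hkK x hx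
  have hKpos : (0 : ℝ) < K := by exact_mod_cast hK
  set B : ℝ := 1 / ε + 1 / ε ^ 2 with hB
  have hBpos : 0 < B := by positivity
  set Q : ℝ := C * (2 / K) * B with hQ
  have hQpos : 0 < Q := by positivity
  have hq : ∀ m ∈ pc K k, K4c_q ρ (ε * a k) m ^ 2 ≤ ENNReal.ofReal (Q ^ 2) := by
    intro m hm
    obtain ⟨hm1, hm2⟩ := K4c_pc_le K k hK hkK m hm
    have h1 := hk m hm1 ε hε
    have h2 : C * ((m : ℝ) / k) * (1 / ε + 1 / ε ^ 2) ≤ Q := by
      rw [hQ]
      exact mul_le_mul_of_nonneg_right (mul_le_mul_of_nonneg_left hm2 hC.le) hBpos.le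
    have h3 : K4c_q ρ (ε * a k) m ≤ ENNReal.ofReal Q := by
      unfold K4c_q
      rw [← ofReal_measureReal]
      exact ENNReal.ofReal_le_ofReal (h1.trans h2)
    calc K4c_q ρ (ε * a k) m ^ 2 ≤ ENNReal.ofReal Q ^ 2 := pow_le_pow_left' h3 2
      _ = ENNReal.ofReal (Q ^ 2) := (ENNReal.ofReal_pow hQpos.le 2).symm
  have hsum : ((pc K k).map fun m => K4c_q ρ (ε * a k) m ^ 2).sum ≤ ENNReal.ofReal (K * Q ^ 2) := by
    have h1 : ((pc K k).map fun m => K4c_q ρ (ε * a k) m ^ 2).sum ≤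
        ((pc K k).map fun m => K4c_q ρ (ε * a k) m ^ 2).length • ENNReal.ofReal (Q ^ 2) := by
      apply List.sum_le_card_nsmul
      intro y hy
      obtain ⟨m, hm, rfl⟩ := List.mem_map.1 hy
      exact hq m hm
    rw [List.length_map, K4c_pc_length K k hK, nsmul_eq_mul] at h1
    refine h1.trans (le_of_eq ?_)
    rw [ENNReal.ofReal_mul hKpos.le, ENNReal.ofReal_natCast]
  have hmain := K4c_main hD (ρ := ρ) (ε * a k) (pc K k) x hx
  rw [K4c_pc_sum] at hmain
  rw [K4c_sk hD]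
  change (K4c_L D ρ (pc K k) x).toReal ≤ _
  have hfin : kap D ρ k (x + ε * a k) Set.univ ≠ ∞ :=
    ne_top_of_le_ne_top ENNReal.one_ne_top (kap_univ_le_one _ _)
  have h2 : (K4c_L D ρ (pc K k) x).toReal ≤
      (kap D ρ k (x + ε * a k) Set.univ + ENNReal.ofReal (K * Q ^ 2)).toReal :=
    ENNReal.toReal_mono (ENNReal.add_ne_top.2 ⟨hfin, ENNReal.ofReal_ne_top⟩)
      (hmain.trans (add_le_add le_rfl hsum))
  rw [ENNReal.toReal_add hfin ENNReal.ofReal_ne_top, ENNReal.toReal_ofReal (by positivity)] at h2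
  have e : (K : ℝ) * Q ^ 2 = 4 * C ^ 2 * B ^ 2 / K := by
    rw [hQ]
    field_simp
    ring
  rw [e] at h2
  exact h2

end Pool.Agent.BPT
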