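import Pool.Agent.MP_99a865_pr.ST.K4a
import Pool.Agent.MP_99a865_pr.ST.K4b
import Pool.Agent.MP_99a865_pr.ST.K4c

/-! **[STB-K4]** The skeleton is close to the killed walk, uniformly in the starting point. -/

open MeasureTheory ProbabilityTheory Filter Topology
open scoped ENNReal NNReal

namespace Pool.Agent.BPT

variable {α : ℝ} {ζ ρ : Measure ℝ} {a : ℕ → ℝ} {D : Set ℝ}

/-- **[STB-K4]** (from `K4_sk_kap`, `K4_mod`, `K4_bad`) -/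
theorem K4_skel (h : DA α ζ ρ a) (hD : Dom D) : ∀ ε > (0 : ℝ), ∃ K₀ : ℕ, ∀ K ≥ K₀, ∀ᶠ k : ℕ in atTop,
    ∀ (M : ℝ) (F : ℝ → ℝ), Measurable F → (∀ y, |F y| ≤ M) → ∀ x, 0 ≤ x →
      |sk D ρ (pc K k) F x - ∫ y, F y ∂(kap D ρ k x)| ≤ M * ε := by
  have hp := h.prob
  obtain ⟨C, hC, hbad⟩ := K4_bad h hD
  intro ε hε
  obtain ⟨ε₁, hε₁, hmod⟩ := K4_mod h hD (ε / 2) (half_pos hε)
  set A := C * (1 / ε₁ + 1 / ε₁ ^ 2) ^ 2 with hA
  have hA0 : 0 ≤ A := by positivity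
  refine ⟨⌈2 * A / ε⌉₊ + 1, fun K hK => ?_⟩
  have hK1 : 1 ≤ K := le_trans (Nat.le_add_left 1 _) hK
  have hK0 : (0 : ℝ) < K := by exact_mod_cast hK1
  have hAK : A / K ≤ ε / 2 := by
    rw [div_le_iff₀ hK0]
    have h1 : 2 * A / ε ≤ K := (Nat.le_ceil _).trans (by exact_mod_cast (Nat.le_succ _).trans hK)
    rw [div_le_iff₀ hε] at h1
    linarith
  filter_upwards [hmod, hbad ε₁ hε₁ K hK1, eventually_ge_atTop K] with k h1 h2 h0 M F hF hM x hx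
  have h3 := K4_sk_kap hD (ρ := ρ) (pc K k) (pc_pos hK1 h0) hF hM x
  rw [pc_sum hK1] at h3
  have hM0 : 0 ≤ M := (abs_nonneg _).trans (hM 0)
  refine h3.trans (mul_le_mul_of_nonneg_left ?_ hM0)
  have := h1 x hx
  have := h2 x hx
  linarith

end Pool.Agent.BPT
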