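import Pool.Agent.MP_99a865_pr.ST.Defs
import Pool.Agent.MP_99a865_pr.FV.A1b

/-! **[STB-K4a]** The skeleton and the killed walk. -/

open MeasureTheory ProbabilityTheory Filter Topology
open scoped ENNReal NNReal

namespace Pool.Agent.BPT

variable {α : ℝ} {ζ ρ : Measure ℝ} {a : ℕ → ℝ} {D : Set ℝ}

lemma K4a_fre_prob [IsProbabilityMeasure ρ] (k : ℕ) (x : ℝ) : IsProbabilityMeasure (fre ρ k x) := by
  unfold fre
  haveI : IsProbabilityMeasure (seqLaw ρ) := by unfold seqLaw; infer_instance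
  exact Measure.isProbabilityMeasure_map (A1_meas_add k x).aemeasurable

lemma K4a_kap_fin [IsProbabilityMeasure ρ] (k : ℕ) (x : ℝ) : IsFiniteMeasure (kap D ρ k x) :=
  ⟨lt_of_le_of_lt (kap_univ_le_one k x) ENNReal.one_lt_top⟩

/-- measurability of one step of the skeleton -/
lemma K4a_step_meas (hD : Dom D) [IsProbabilityMeasure ρ] (k : ℕ) {g : ℝ → ℝ} (hg : Measurable g) :
    Measurable fun x => ∫ y in D, g y ∂(fre ρ k x) := by
  haveI : IsProbabilityMeasure (seqLaw ρ) := by unfold seqLaw; infer_instance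
  have h1 : ∀ x, ∫ y in D, g y ∂(fre ρ k x) = ∫ ω, D.indicator g (x + S k ω) ∂(seqLaw ρ) := by
    intro x
    rw [← integral_indicator hD.meas]
    unfold fre
    rw [integral_map (A1_meas_add k x).aemeasurable (hg.indicator hD.meas).aestronglyMeasurable]
  simp_rw [h1]
  have h2 : Measurable fun p : ℝ × (ℕ → ℝ) => D.indicator g (p.1 + S k p.2) :=
    (hg.indicator hD.meas).comp (A1_meas_add' k)
  exact (h2.stronglyMeasurable.integral_prod_right' (ν := seqLaw ρ)).measurable

lemma K4a_step_bd [IsProbabilityMeasure ρ] (k : ℕ) {g : ℝ → ℝ} {M : ℝ}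
    (hM : ∀ y, |g y| ≤ M) (x : ℝ) : |∫ y in D, g y ∂(fre ρ k x)| ≤ M := by
  haveI := K4a_fre_prob (ρ := ρ) k x
  have hM0 : 0 ≤ M := (abs_nonneg _).trans (hM 0)
  have h1 : ‖∫ y in D, g y ∂(fre ρ k x)‖ ≤ M * ((fre ρ k x).restrict D).real Set.univ :=
    norm_integral_le_of_norm_le_const (Filter.Eventually.of_forall fun y => by
      rw [Real.norm_eq_abs]; exact hM y)
  rw [Real.norm_eq_abs] at h1
  refine h1.trans ?_
  have h2 : ((fre ρ k x).restrict D).real Set.univ ≤ 1 := by
    rw [measureReal_restrict_apply_univ]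
    exact measureReal_le_one
  nlinarith

lemma K4a_sk_meas (hD : Dom D) [IsProbabilityMeasure ρ] (l : List ℕ) {M : ℝ} {F : ℝ → ℝ} (hF : Measurable F)
    (hM : ∀ y, |F y| ≤ M) : Measurable (sk D ρ l F) ∧ ∀ y, |sk D ρ l F y| ≤ M := by
  induction l with
  | nil => exact ⟨hF, hM⟩
  | cons k l ih =>
    exact ⟨K4a_step_meas hD k ih.1, fun y => K4a_step_bd k ih.2 y⟩

/-- comparison of two measures -/
lemma K4a_cmp {μ ν : Measure ℝ} [IsFiniteMeasure ν] (hμν : μ ≤ ν) {G H : ℝ → ℝ} (hG : Measurable G)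
    (hH : Measurable H) {C : ℝ} (hC : ∀ y, |H y| ≤ C) (hGH : ∀ y, |G y| ≤ H y) :
    |∫ y, G y ∂ν - ∫ y, G y ∂μ| ≤ ∫ y, H y ∂ν - ∫ y, H y ∂μ := by
  haveI : IsFiniteMeasure μ := isFiniteMeasure_of_le ν hμν
  have hGC : ∀ y, |G y| ≤ C := fun y => (hGH y).trans ((le_abs_self _).trans (hC y))
  have iG : Integrable G ν := Integrable.of_bound hG.aestronglyMeasurable C
    (Filter.Eventually.of_forall fun y => by rw [Real.norm_eq_abs]; exact hGC y)
  have iH : Integrable H ν := Integrable.of_bound hH.aestronglyMeasurable C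
    (Filter.Eventually.of_forall fun y => by rw [Real.norm_eq_abs]; exact hC y)
  have iG' : Integrable G μ := iG.mono_measure hμν
  have iH' : Integrable H μ := iH.mono_measure hμν
  have h1 : ∫ y, (H y - G y) ∂μ ≤ ∫ y, (H y - G y) ∂ν :=
    integral_mono_measure hμν (Filter.Eventually.of_forall fun y => by
      have := (abs_le.1 (hGH y)).2
      simp only [Pi.zero_apply]; linarith) (iH.sub iG)
  have h2 : ∫ y, (H y + G y) ∂μ ≤ ∫ y, (H y + G y) ∂ν :=
    integral_mono_measure hμν (Filter.Eventually.of_forall fun y => by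
      have := (abs_le.1 (hGH y)).1
      simp only [Pi.zero_apply]; linarith) (iH.add iG)
  rw [integral_sub iH' iG', integral_sub iH iG] at h1
  rw [integral_add iH' iG', integral_add iH iG] at h2
  rw [abs_le]
  constructor <;> linarith

lemma K4a_al_eq [IsProbabilityMeasure ρ] (m : ℕ) (x : ℝ) :
    al D ρ m x = ∫ _y, (1 : ℝ) ∂(kap D ρ m x) := by
  unfold al
  rw [integral_const]
  simp

/-- **[STB-K4a]** The killed walk is below the skeleton, and the difference of the expectations of a function bounded by `M` is at most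
`M` times the difference of the masses (all pieces are `≥ 1`). -/
theorem K4_sk_kap (hD : Dom D) [IsProbabilityMeasure ρ] (l : List ℕ) (hl : ∀ m ∈ l, 1 ≤ m) {M : ℝ} {F : ℝ → ℝ}
    (hF : Measurable F) (hM : ∀ y, |F y| ≤ M) (x : ℝ) :
    |sk D ρ l F x - ∫ y, F y ∂(kap D ρ l.sum x)| ≤ M * (sk D ρ l (fun _ => 1) x - al D ρ l.sum x) := by
  induction l generalizing x with
  | nil =>
    simp only [List.sum_nil, sk]
    rw [K4a_al_eq, kap_zero]
    simp
  | cons k l ih =>
    have hk : 1 ≤ k := hl k (by simp)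
    have hl' : ∀ m ∈ l, 1 ≤ m := fun m hm => hl m (by simp [hm])
    have hM0 : 0 ≤ M := (abs_nonneg _).trans (hM 0)
    haveI := K4a_fre_prob (ρ := ρ) k x
    set ν := (fre ρ k x).restrict D with hν
    have hμν : kap D ρ k x ≤ ν := by
      have h1 : (kap D ρ k x).restrict D = kap D ρ k x := by
        apply Measure.restrict_eq_self_of_ae_mem
        rw [ae_iff]
        exact kap_compl hD k x (Or.inl hk)
      rw [← h1]
      exact Measure.restrict_mono le_rfl (kap_le_fre hD k x)
    have hone : ∀ y : ℝ, |(1 : ℝ)| ≤ 1 := fun _ => by simp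
    obtain ⟨m1, b1⟩ := K4a_sk_meas hD (ρ := ρ) l hF hM
    obtain ⟨m2, b2⟩ := K4a_sk_meas hD (ρ := ρ) l (F := fun _ => (1 : ℝ)) measurable_const hone
    set G : ℝ → ℝ := fun y => ∫ z, F z ∂(kap D ρ l.sum y) with hGdef
    set A : ℝ → ℝ := fun y => ∫ z, (1 : ℝ) ∂(kap D ρ l.sum y) with hAdef
    have mG : Measurable G := measurable_integral_kap hD l.sum F hF M hM
    have mA : Measurable A := measurable_integral_kap hD l.sum (fun _ => 1) measurable_const 1 hone
    have hA01 : ∀ y, 0 ≤ A y ∧ A y ≤ 1 := by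
      intro y
      rw [hAdef]
      simp only [integral_const, smul_eq_mul, mul_one]
      refine ⟨measureReal_nonneg, ?_⟩
      unfold Measure.real
      have := kap_univ_le_one (D := D) (ρ := ρ) l.sum y
      exact ENNReal.toReal_le_of_le_ofReal zero_le_one (by simpa using this)
    have hGA : ∀ y, |G y| ≤ M * A y := by
      intro y
      haveI := K4a_kap_fin (D := D) (ρ := ρ) l.sum y
      have h1 : ‖∫ z, F z ∂(kap D ρ l.sum y)‖ ≤ M * (kap D ρ l.sum y).real Set.univ :=
        norm_integral_le_of_norm_le_const (Filter.Eventually.of_forall fun z => by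
          rw [Real.norm_eq_abs]; exact hM z)
      rw [Real.norm_eq_abs] at h1
      simpa [hGdef, hAdef] using h1
    have hGM : ∀ y, |G y| ≤ M := fun y => (hGA y).trans (by nlinarith [hA01 y])
    -- splitting of the killed walk
    have e1 : ∫ y, F y ∂(kap D ρ (k :: l).sum x) = ∫ y, G y ∂(kap D ρ k x) := by
      rw [List.sum_cons]
      exact integral_kap_add hD k l.sum x F hF M hM
    have e2 : al D ρ (k :: l).sum x = ∫ y, A y ∂(kap D ρ k x) := by
      rw [K4a_al_eq, List.sum_cons]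
      exact integral_kap_add hD k l.sum x (fun _ => 1) measurable_const 1 hone
    have e3 : sk D ρ (k :: l) F x = ∫ y, sk D ρ l F y ∂ν := rfl
    have e4 : sk D ρ (k :: l) (fun _ => 1) x = ∫ y, sk D ρ l (fun _ => 1) y ∂ν := rfl
    have bdI : ∀ {g : ℝ → ℝ} {C : ℝ}, Measurable g → (∀ y, |g y| ≤ C) → Integrable g ν := by
      intro g C hg hC
      exact Integrable.of_bound hg.aestronglyMeasurable C
        (Filter.Eventually.of_forall fun y => by rw [Real.norm_eq_abs]; exact hC y)
    have i1 := bdI m1 b1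
    have i2 := bdI m2 b2
    have iG := bdI mG hGM
    have iA : Integrable A ν := bdI mA (C := 1) (fun y => by rw [abs_of_nonneg (hA01 y).1]; exact (hA01 y).2)
    have ih' : ∀ y, |sk D ρ l F y - G y| ≤ M * (sk D ρ l (fun _ => 1) y - A y) := by
      intro y
      have := ih hl' y
      rw [K4a_al_eq] at this
      exact this
    have s1 : |∫ y, sk D ρ l F y ∂ν - ∫ y, G y ∂ν| ≤
        M * (∫ y, sk D ρ l (fun _ => 1) y ∂ν - ∫ y, A y ∂ν) := by
      rw [← integral_sub i1 iG, ← integral_sub i2 iA, ← integral_const_mul]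
      refine (abs_integral_le_integral_abs).trans ?_
      exact integral_mono (i1.sub iG).abs ((i2.sub iA).const_mul M) ih'
    have s2 : |∫ y, G y ∂ν - ∫ y, G y ∂(kap D ρ k x)| ≤
        ∫ y, M * A y ∂ν - ∫ y, M * A y ∂(kap D ρ k x) := by
      refine K4a_cmp hμν mG (mA.const_mul M) (C := M) ?_ hGA
      intro y
      rw [abs_of_nonneg (mul_nonneg hM0 (hA01 y).1)]
      nlinarith [hA01 y]
    rw [integral_const_mul, integral_const_mul] at s2
    rw [e1, e2, e3, e4]
    have s3 := abs_sub_le (∫ y, sk D ρ l F y ∂ν) (∫ y, G y ∂ν) (∫ y, G y ∂(kap D ρ k x))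
    linarith

/-- the pieces add up -/
theorem pc_sum {K k : ℕ} (hK : 1 ≤ K) : (pc K k).sum = k := by
  unfold pc
  rw [List.sum_append, List.sum_replicate, List.sum_singleton, smul_eq_mul]
  have h1 : (K - 1) * (k / K) ≤ k := by
    calc (K - 1) * (k / K) ≤ K * (k / K) := Nat.mul_le_mul_right _ (Nat.sub_le _ _)
      _ ≤ k := Nat.mul_div_le k K
  omega

/-- the pieces are positive -/
theorem pc_pos {K k : ℕ} (hK : 1 ≤ K) (hk : K ≤ k) : ∀ m ∈ pc K k, 1 ≤ m := by
  intro m hm
  have h0 : 1 ≤ k / K := (Nat.one_le_div_iff (by omega)).2 hk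
  unfold pc at hm
  rw [List.mem_append] at hm
  rcases hm with hm | hm
  · rw [List.mem_replicate] at hm
    rw [hm.2]; exact h0
  · rw [List.mem_singleton] at hm
    subst hm
    obtain ⟨K', rfl⟩ : ∃ K', K = K' + 1 := ⟨K - 1, by omega⟩
    have h1 : (K' + 1) * (k / (K' + 1)) ≤ k := Nat.mul_div_le k (K' + 1)
    have h2 : (K' + 1) * (k / (K' + 1)) = K' * (k / (K' + 1)) + k / (K' + 1) := by ring
    simp only [Nat.add_sub_cancel]
    omega

end Pool.Agent.BPT
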