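import Pool.Agent.MP_99a865_pr.ST.K3
import Pool.Agent.MP_99a865_pr.ST.K4

/-! **[STB-K5]** The killed semigroup of the limit process. -/

open MeasureTheory ProbabilityTheory Filter Topology
open scoped ENNReal NNReal

namespace Pool.Agent.BPT

variable {α : ℝ} {ζ ρ : Measure ℝ} {a : ℕ → ℝ} {D : Set ℝ}

lemma K5_cos (b z : ℝ) : Cos 0 b z := fun h => absurd rfl h

lemma KS5_meas {M : ℝ} {f : ℝ → ℝ} (hf : BCo M f) : Measurable ((Set.Ioi (0 : ℝ)).indicator f) := by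
  classical
  rw [← Set.piecewise_eq_indicator]
  exact hf.cont.measurable_piecewise continuousOn_const measurableSet_Ioi

lemma K5_M0 {M : ℝ} {f : ℝ → ℝ} (hf : BCo M f) : 0 ≤ M := (abs_nonneg _).trans (hf.bd 1 one_pos)

lemma K5_MB {M : ℝ} {f : ℝ → ℝ} (hf : BCo M f) (s : ℕ → ℝ) :
    MB M (fun j y => (Set.Ioi (0 : ℝ)).indicator f (y / s j)) := by
  intro j
  refine ⟨(KS5_meas hf).comp (measurable_id.div_const _), fun y => ?_⟩
  beta_reduce
  by_cases hy : y / s j ∈ Set.Ioi (0 : ℝ)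
  · rw [Set.indicator_of_mem hy]
    exact hf.bd _ hy
  · rw [Set.indicator_of_notMem hy, abs_zero]
    exact K5_M0 hf

lemma K5_UC {f : ℝ → ℝ} {s : ℕ → ℝ} (hs : ∀ j, 0 < s j) (h : ℝ) (c : ℕ → ℝ) :
    UC h c s (fun j y => (Set.Ioi (0 : ℝ)).indicator f (y / s j)) f := by
  intro ε hε η hη
  refine Eventually.of_forall fun j y _ h1 _ => ?_
  have hy : 0 < y := lt_of_lt_of_le (mul_pos hε (hs j)) h1
  beta_reduce
  rw [Set.indicator_of_mem (show y / s j ∈ Set.Ioi (0 : ℝ) from div_pos hy (hs j)), sub_self, abs_zero]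
  exact hη.le

/-- the discrete skeleton converges to the skeleton of the limit process -/
lemma K5_sk (h : DA α ζ ρ a) {K : ℕ} (hK : 1 ≤ K) {t : ℝ} (ht : 0 < t) {M : ℝ} {f : ℝ → ℝ} (hf : BCo M f)
    {x : ℝ} (hx : 0 < x) :
    Tendsto (fun j : ℕ => sk (Set.Ioi 0) ρ (pc K ⌊t * j⌋₊)
      (fun y => (Set.Ioi (0 : ℝ)).indicator f (y / a j)) (x * a j)) atTop (𝓝 (QK α ζ K t f x)) := by
  have hD : Dom (Set.Ioi (0 : ℝ)) := Or.inr rfl
  have hT : Tm (fun j => j) (fun j => ⌊t * j⌋₊) t := Tm.floor (n := fun j => j) tendsto_id ht.le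
  have h3 := K3_sk h hD (b := 0) (h := 0) (Eventually.of_forall fun x => K5_cos 0 x) hT ht hK
    (c := fun _ => 0) (K5_MB hf (fun j => a j)) hf (K5_UC (fun j => h.pos j) 0 _)
  have hc := (QK_BCo h.ss h.one hK ht hf).cont
  refine h3.seq (fun j => h.pos j) hc (φ := fun j => j) tendsto_id (ys := fun j => x * a j)
    (fun i => K5_cos _ _) hx ?_
  have : (fun i => x * a i / a i) = fun _ => x := by
    funext i
    rw [mul_div_assoc, div_self (h.pos i).ne', mul_one]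
  rw [this]
  exact tendsto_const_nhds

/-- **[STB-K5a]** Uniform Cauchy property. -/
theorem K5_cauchy (h : DA α ζ ρ a) : ∀ ε > (0 : ℝ), ∃ K₀ : ℕ, ∀ K ≥ K₀, ∀ K' ≥ K₀, ∀ (t : ℝ), 0 < t →
    ∀ (M : ℝ) (f : ℝ → ℝ), BCo M f → ∀ x > (0 : ℝ), |QK α ζ K t f x - QK α ζ K' t f x| ≤ M * ε := by
  intro ε hε
  have hD : Dom (Set.Ioi (0 : ℝ)) := Or.inr rfl
  obtain ⟨K₀, hK₀⟩ := K4_skel h hD (ε / 2) (half_pos hε)
  refine ⟨max K₀ 1, fun K hK K' hK' t ht M f hf x hx => ?_⟩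
  have l1 := K5_sk h (le_trans (le_max_right _ _) hK) ht hf hx
  have l2 := K5_sk h (le_trans (le_max_right _ _) hK') ht hf hx
  have hT : Tm (fun j => j) (fun j => ⌊t * j⌋₊) t := Tm.floor (n := fun j => j) tendsto_id ht.le
  have hk := hT.top' ht
  have e1 := hk.eventually (hK₀ K (le_trans (le_max_left _ _) hK))
  have e2 := hk.eventually (hK₀ K' (le_trans (le_max_left _ _) hK'))
  refine le_of_tendsto (l1.sub l2).abs ?_
  filter_upwards [e1, e2] with j h1 h2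
  obtain ⟨m1, m2⟩ := K5_MB hf (fun j => a j) j
  have hx0 : 0 ≤ x * a j := (mul_pos hx (h.pos j)).le
  have b1 := h1 M _ m1 m2 _ hx0
  have b2 := h2 M _ m1 m2 _ hx0
  rw [abs_le] at b1 b2 ⊢
  constructor <;> linarith [b1.1, b1.2, b2.1, b2.2]

lemma K5_pow (K₀ : ℕ) : ∀ᶠ j : ℕ in atTop, K₀ ≤ 2 ^ j := by
  filter_upwards [eventually_ge_atTop K₀] with j hj
  exact hj.trans (Nat.lt_two_pow_self).le

/-- the limit exists -/
theorem QT_tendsto (h : DA α ζ ρ a) {t M : ℝ} (ht : 0 < t) {f : ℝ → ℝ} (hf : BCo M f) {x : ℝ} (hx : 0 < x) :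
    Tendsto (fun j : ℕ => QK α ζ (2 ^ j) t f x) atTop (𝓝 (QT α ζ t f x)) := by
  have hM := K5_M0 hf
  have hc : CauchySeq (fun j : ℕ => QK α ζ (2 ^ j) t f x) := by
    rw [Metric.cauchySeq_iff']
    intro ε hε
    obtain ⟨K₀, hK₀⟩ := K5_cauchy h (ε / (2 * (M + 1))) (by positivity)
    obtain ⟨N, hN⟩ := eventually_atTop.1 (K5_pow K₀)
    refine ⟨N, fun j hj => ?_⟩
    have := hK₀ (2 ^ j) (hN j hj) (2 ^ N) (hN N le_rfl) t ht M f hf x hx
    rw [Real.dist_eq]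
    refine lt_of_le_of_lt this ?_
    rw [mul_div_assoc', div_lt_iff₀ (by positivity)]
    nlinarith
  exact CauchySeq.tendsto_limUnder hc

/-- uniform rate (`2 ^ j ≥ K₀`, let the other index tend to infinity in `K5_cauchy`) -/
theorem QT_rate (h : DA α ζ ρ a) : ∀ ε > (0 : ℝ), ∃ K₀ : ℕ, ∀ K ≥ K₀, ∀ (t : ℝ), 0 < t →
    ∀ (M : ℝ) (f : ℝ → ℝ), BCo M f → ∀ x > (0 : ℝ), |QK α ζ K t f x - QT α ζ t f x| ≤ M * ε := by
  intro ε hε
  obtain ⟨K₀, hK₀⟩ := K5_cauchy h ε hε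
  refine ⟨K₀, fun K hK t ht M f hf x hx => ?_⟩
  have l := QT_tendsto h ht hf hx
  have l2 : Tendsto (fun j : ℕ => |QK α ζ K t f x - QK α ζ (2 ^ j) t f x|) atTop
      (𝓝 |QK α ζ K t f x - QT α ζ t f x|) := (tendsto_const_nhds.sub l).abs
  refine le_of_tendsto l2 ?_
  filter_upwards [K5_pow K₀] with j hj
  exact hK₀ K hK _ hj t ht M f hf x hx

/-- uniform limit of continuous functions (`QK_BCo`, `QT_rate`) -/
theorem QT_BCo (h : DA α ζ ρ a) {t M : ℝ} (ht : 0 < t) {f : ℝ → ℝ} (hf : BCo M f) : BCo M (QT α ζ t f) := by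
  have hM := K5_M0 hf
  have hB : ∀ j : ℕ, BCo M (QK α ζ (2 ^ j) t f) := fun j =>
    QK_BCo h.ss h.one Nat.one_le_two_pow ht hf
  refine ⟨fun x hx => ?_, ?_⟩
  · exact le_of_tendsto (QT_tendsto h ht hf hx).abs (Eventually.of_forall fun j => (hB j).bd x hx)
  · have hu : TendstoUniformlyOn (fun j : ℕ => QK α ζ (2 ^ j) t f) (QT α ζ t f) atTop (Set.Ioi 0) := by
      rw [Metric.tendstoUniformlyOn_iff]
      intro ε hε
      obtain ⟨K₀, hK₀⟩ := QT_rate h (ε / (2 * (M + 1))) (by positivity)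
      filter_upwards [K5_pow K₀] with j hj x hx
      rw [dist_comm, Real.dist_eq]
      refine lt_of_le_of_lt (hK₀ _ hj t ht M f hf x hx) ?_
      rw [mul_div_assoc', div_lt_iff₀ (by positivity)]
      nlinarith
    exact hu.continuousOn (Frequently.of_forall fun j => (hB j).cont)

/-- **[STB-K5b]** Convergence of the killed walk: the main statement of the block. -/
theorem kap_UC (hda : DA α ζ ρ a) (hD : Dom D) {b h : ℝ} (hstep : ∀ᵐ x ∂ρ, Cos h b x) {n k : ℕ → ℕ} {t : ℝ}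
    (hT : Tm n k t) (ht : 0 < t) {M : ℝ} {c : ℕ → ℝ} {F : ℕ → ℝ → ℝ} {f : ℝ → ℝ} (hF : MB M F) (hf : BCo M f)
    (hU : UC h c (fun j => a (n j)) F f) :
    UC h (fun j => c j - k j * b) (fun j => a (n j)) (fun j x => ∫ y, F j y ∂(kap D ρ (k j) x)) (QT α ζ t f) := by
  intro ε hε η hη
  have hM := K5_M0 hf
  obtain ⟨K₁, hK₁⟩ := K4_skel hda hD (η / (3 * (M + 1))) (by positivity)
  obtain ⟨K₂, hK₂⟩ := QT_rate hda (η / (3 * (M + 1))) (by positivity)
  set K := max (max K₁ K₂) 1 with hK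
  have k1 : K₁ ≤ K := (le_max_left _ _).trans (le_max_left _ _)
  have k2 : K₂ ≤ K := (le_max_right _ _).trans (le_max_left _ _)
  have k3 : 1 ≤ K := le_max_right _ _
  have h3 := K3_sk hda hD hstep hT ht k3 hF hf hU ε hε (η / 3) (by positivity)
  have e1 := (hT.top' ht).eventually (hK₁ K k1)
  have hs : M * (η / (3 * (M + 1))) ≤ η / 3 := by
    rw [mul_div_assoc', div_le_div_iff₀ (by positivity) (by positivity)]
    nlinarith
  filter_upwards [h3, e1] with j b3 b1 y hc h1 h2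
  have ha := hda.pos (n j)
  have hy : 0 < y := lt_of_lt_of_le (mul_pos hε ha) h1
  have c1 := b1 M (F j) (hF j).1 (hF j).2 y hy.le
  have c2 := hK₂ K k2 t ht M f hf (y / a (n j)) (div_pos hy ha)
  have c3 := b3 y hc h1 h2
  rw [abs_le] at c1 c2 c3 ⊢
  constructor <;> linarith [c1.1, c1.2, c2.1, c2.2, c3.1, c3.2]

/-- **[STB-K5c]** Sequence form with a fixed function, no cosets (`h = 0`, `UC.seq`); `f` is extended by `0`. -/
theorem kap_seq (hda : DA α ζ ρ a) (hD : Dom D) {n k : ℕ → ℕ} {t : ℝ}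
    (hT : Tm n k t) (ht : 0 < t) {M : ℝ} {f : ℝ → ℝ} (hf : BCo M f) {xs : ℕ → ℝ} {x : ℝ} (hx : 0 < x)
    (hl : Tendsto (fun j => xs j / a (n j)) atTop (𝓝 x)) :
    Tendsto (fun j => ∫ y, (Set.Ioi (0 : ℝ)).indicator f (y / a (n j)) ∂(kap D ρ (k j) (xs j))) atTop
      (𝓝 (QT α ζ t f x)) := by
  have h1 := kap_UC hda hD (b := 0) (h := 0) (Eventually.of_forall fun x => K5_cos 0 x) hT ht
    (c := fun _ => 0) (K5_MB hf (fun j => a (n j))) hf (K5_UC (fun j => hda.pos (n j)) 0 _)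
  exact h1.seq (fun j => hda.pos (n j)) (QT_BCo hda ht hf).cont (φ := fun j => j) tendsto_id
    (ys := xs) (fun i => K5_cos _ _) hx hl

/-- survival probabilities -/
theorem al_seq (hda : DA α ζ ρ a) (hD : Dom D) {n k : ℕ → ℕ} {t : ℝ}
    (hT : Tm n k t) (ht : 0 < t) {xs : ℕ → ℝ} {x : ℝ} (hx : 0 < x)
    (hl : Tendsto (fun j => xs j / a (n j)) atTop (𝓝 x)) :
    Tendsto (fun j => al D ρ (k j) (xs j)) atTop (𝓝 (QO α ζ t x)) := by
  have hf : BCo 1 (fun _ : ℝ => (1 : ℝ)) := ⟨fun x _ => by simp, continuousOn_const⟩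
  have hF : MB 1 (fun (_ : ℕ) (_ : ℝ) => (1 : ℝ)) := fun j => ⟨measurable_const, fun y => by simp⟩
  have h1 := kap_UC hda hD (b := 0) (h := 0) (Eventually.of_forall fun x => K5_cos 0 x) hT ht
    (c := fun _ => 0) hF hf (UC.const (fun _ : ℝ => (1 : ℝ)))
  have h2 := h1.seq (fun j => hda.pos (n j)) (QT_BCo hda ht hf).cont (φ := fun j => j) tendsto_id
    (ys := xs) (fun i => K5_cos _ _) hx hl
  have he : ∀ j, ∫ y, (1 : ℝ) ∂(kap D ρ (k j) (xs j)) = al D ρ (k j) (xs j) := fun j => by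
    rw [integral_const, smul_eq_mul, mul_one]
    rfl
  simp only [he] at h2
  exact h2

end Pool.Agent.BPT
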