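import Pool.Agent.MP_99a865_pr.ST.K5

/-! **[STB-K6a]** Linearity and positivity of the killed semigroup (from `QK` by `QT_tendsto`). -/

open MeasureTheory ProbabilityTheory Filter Topology
open scoped ENNReal NNReal

namespace Pool.Agent.BPT

variable {α : ℝ} {ζ ρ : Measure ℝ} {a : ℕ → ℝ} {D : Set ℝ}

private lemma K6a_ae (h : SS α ζ) {K : ℕ} (hK : 1 ≤ K) (t x : ℝ) :
    ∀ᵐ y ∂(kap (Set.Ioi 0) (Zt α ζ (t / K)) K x), y ∈ Set.Ioi (0 : ℝ) := by
  have := h.Zt_prob (t / K)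
  exact kap_compl (D := Set.Ioi (0 : ℝ)) (Or.inr rfl) K x (Or.inl hK)

private lemma K6a_fin (h : SS α ζ) (K : ℕ) (t x : ℝ) :
    IsFiniteMeasure (kap (Set.Ioi 0) (Zt α ζ (t / K)) K x) := by
  have := h.Zt_prob (t / K)
  exact ⟨(kap_univ_le_one K x).trans_lt ENNReal.one_lt_top⟩

private lemma K6a_int (h : SS α ζ) {K : ℕ} (hK : 1 ≤ K) (t x : ℝ) {M : ℝ} {f : ℝ → ℝ} (hf : BCo M f) :
    Integrable f (kap (Set.Ioi 0) (Zt α ζ (t / K)) K x) := by
  have hfin := K6a_fin h K t x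
  have hae := K6a_ae h hK t x
  have hm : AEStronglyMeasurable f (kap (Set.Ioi 0) (Zt α ζ (t / K)) K x) := by
    have h1 := hf.cont.aestronglyMeasurable (μ := kap (Set.Ioi 0) (Zt α ζ (t / K)) K x)
      measurableSet_Ioi
    rwa [Measure.restrict_eq_self_of_ae_mem hae] at h1
  refine Integrable.of_bound hm M ?_
  filter_upwards [hae] with y hy
  rw [Real.norm_eq_abs]
  exact hf.bd y hy

private lemma K6a_two (j : ℕ) : 1 ≤ 2 ^ j := Nat.one_le_two_pow

private lemma K6a_add {M N : ℝ} {f g : ℝ → ℝ} (hf : BCo M f) (hg : BCo N g) :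
    BCo (M + N) fun y => f y + g y :=
  ⟨fun x hx => (abs_add_le _ _).trans (add_le_add (hf.bd x hx) (hg.bd x hx)), hf.cont.add hg.cont⟩

private lemma K6a_smul {M : ℝ} {f : ℝ → ℝ} (hf : BCo M f) (r : ℝ) :
    BCo (|r| * M) fun y => r * f y :=
  ⟨fun x hx => by
    rw [abs_mul]
    exact mul_le_mul_of_nonneg_left (hf.bd x hx) (abs_nonneg r), continuousOn_const.mul hf.cont⟩

private lemma K6a_one : BCo 1 fun _ : ℝ => (1 : ℝ) :=
  ⟨fun _ _ => by simp, continuousOn_const⟩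

/-- values of `f` on `(0,∞)` only matter -/
theorem QT_congr (h : SS α ζ) {t : ℝ} {f g : ℝ → ℝ} (hfg : ∀ y > 0, f y = g y) (x : ℝ) : QT α ζ t f x = QT α ζ t g x := by
  unfold QT
  congr 1
  funext j
  unfold QK
  refine integral_congr_ae ?_
  have hae := K6a_ae h (K6a_two j) t x
  filter_upwards [hae] with y hy
  exact hfg y hy

theorem QT_add (h : DA α ζ ρ a) {t M N : ℝ} (ht : 0 < t) {f g : ℝ → ℝ} (hf : BCo M f) (hg : BCo N g) {x : ℝ}
    (hx : 0 < x) : QT α ζ t (fun y => f y + g y) x = QT α ζ t f x + QT α ζ t g x := by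
  refine tendsto_nhds_unique (QT_tendsto h ht (K6a_add hf hg) hx) ?_
  refine ((QT_tendsto h ht hf hx).add (QT_tendsto h ht hg hx)).congr fun j => ?_
  unfold QK
  exact (integral_add (K6a_int h.ss (K6a_two j) t x hf) (K6a_int h.ss (K6a_two j) t x hg)).symm

theorem QT_smul (h : DA α ζ ρ a) {t M : ℝ} (ht : 0 < t) {f : ℝ → ℝ} (hf : BCo M f) (r : ℝ) {x : ℝ}
    (hx : 0 < x) : QT α ζ t (fun y => r * f y) x = r * QT α ζ t f x := by
  refine tendsto_nhds_unique (QT_tendsto h ht (K6a_smul hf r) hx) ?_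
  refine ((QT_tendsto h ht hf hx).const_mul r).congr fun j => ?_
  unfold QK
  exact (integral_const_mul r f).symm

theorem QT_mono (h : DA α ζ ρ a) {t M N : ℝ} (ht : 0 < t) {f g : ℝ → ℝ} (hf : BCo M f) (hg : BCo N g)
    (hfg : ∀ y > 0, f y ≤ g y) {x : ℝ} (hx : 0 < x) : QT α ζ t f x ≤ QT α ζ t g x := by
  refine le_of_tendsto_of_tendsto' (QT_tendsto h ht hf hx) (QT_tendsto h ht hg hx) fun j => ?_
  unfold QK
  refine integral_mono_ae (K6a_int h.ss (K6a_two j) t x hf) (K6a_int h.ss (K6a_two j) t x hg) ?_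
  have hae := K6a_ae h.ss (K6a_two j) t x
  filter_upwards [hae] with y hy
  exact hfg y hy

theorem QT_nonneg (h : DA α ζ ρ a) {t M : ℝ} (ht : 0 < t) {f : ℝ → ℝ} (hf : BCo M f)
    (h0 : ∀ y > 0, 0 ≤ f y) {x : ℝ} (hx : 0 < x) : 0 ≤ QT α ζ t f x := by
  refine ge_of_tendsto' (QT_tendsto h ht hf hx) fun j => ?_
  unfold QK
  refine integral_nonneg_of_ae ?_
  have hae := K6a_ae h.ss (K6a_two j) t x
  filter_upwards [hae] with y hy
  exact h0 y hy

theorem QT_abs_le (h : DA α ζ ρ a) {t M : ℝ} (ht : 0 < t) {f : ℝ → ℝ} (hf : BCo M f) {x : ℝ}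
    (hx : 0 < x) : |QT α ζ t f x| ≤ M * QO α ζ t x := by
  unfold QO
  refine le_of_tendsto_of_tendsto' (QT_tendsto h ht hf hx).abs
    ((QT_tendsto h ht K6a_one hx).const_mul M) fun j => ?_
  unfold QK
  rw [← integral_const_mul]
  refine (abs_integral_le_integral_abs).trans (integral_mono_ae
    (K6a_int h.ss (K6a_two j) t x hf).abs ((K6a_int h.ss (K6a_two j) t x K6a_one).const_mul M) ?_)
  have hae := K6a_ae h.ss (K6a_two j) t x
  filter_upwards [hae] with y hy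
  show |f y| ≤ M * 1
  rw [mul_one]
  exact hf.bd y hy

end Pool.Agent.BPT
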