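import Pool.Agent.MP_99a865_pr.ST.K5

/-! **[STB-K6b]** Semigroup property and scaling. -/

open MeasureTheory ProbabilityTheory Filter Topology
open scoped ENNReal NNReal

namespace Pool.Agent.BPT

variable {α : ℝ} {ζ ρ : Measure ℝ} {a : ℕ → ℝ} {D : Set ℝ}

lemma K6b_cos (b z : ℝ) : Cos 0 b z := fun h => absurd rfl h

lemma K6b_meas {M : ℝ} {f : ℝ → ℝ} (hf : BCo M f) : Measurable ((Set.Ioi (0 : ℝ)).indicator f) := by
  classical
  rw [← Set.piecewise_eq_indicator]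
  exact hf.cont.measurable_piecewise continuousOn_const measurableSet_Ioi

lemma K6b_M0 {M : ℝ} {f : ℝ → ℝ} (hf : BCo M f) : 0 ≤ M := (abs_nonneg _).trans (hf.bd 1 one_pos)

lemma K6b_MB {M : ℝ} {f : ℝ → ℝ} (hf : BCo M f) (s : ℕ → ℝ) :
    MB M (fun j y => (Set.Ioi (0 : ℝ)).indicator f (y / s j)) := by
  intro j
  refine ⟨(K6b_meas hf).comp (measurable_id.div_const _), fun y => ?_⟩
  beta_reduce
  by_cases hy : y / s j ∈ Set.Ioi (0 : ℝ)
  · rw [Set.indicator_of_mem hy]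
    exact hf.bd _ hy
  · rw [Set.indicator_of_notMem hy, abs_zero]
    exact K6b_M0 hf

lemma K6b_UC {f : ℝ → ℝ} {s : ℕ → ℝ} (hs : ∀ j, 0 < s j) (h : ℝ) (c : ℕ → ℝ) :
    UC h c s (fun j y => (Set.Ioi (0 : ℝ)).indicator f (y / s j)) f := by
  intro ε hε η hη
  refine Eventually.of_forall fun j y _ h1 _ => ?_
  have hy : 0 < y := lt_of_lt_of_le (mul_pos hε (hs j)) h1
  beta_reduce
  rw [Set.indicator_of_mem (show y / s j ∈ Set.Ioi (0 : ℝ) from div_pos hy (hs j)), sub_self, abs_zero]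
  exact hη.le

/-- the mass of the killed walk is at most one -/
lemma K6b_abs [IsProbabilityMeasure ρ] (k : ℕ) (x : ℝ) {M : ℝ} (hM0 : 0 ≤ M) {f : ℝ → ℝ}
    (hM : ∀ y, |f y| ≤ M) : |∫ y, f y ∂(kap D ρ k x)| ≤ M := by
  have h1 := norm_integral_le_of_norm_le_const (μ := kap D ρ k x) (f := f) (C := M)
    (Eventually.of_forall fun y => by rw [Real.norm_eq_abs]; exact hM y)
  rw [Real.norm_eq_abs] at h1
  refine h1.trans ?_
  have h2 : (kap D ρ k x).real Set.univ ≤ 1 := by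
    unfold Measure.real
    exact ENNReal.toReal_le_of_le_ofReal zero_le_one (by rw [ENNReal.ofReal_one]; exact kap_univ_le_one k x)
  exact mul_le_of_le_one_right hM0 h2

/-- **[STB-K6a]** Chapman–Kolmogorov (from `kap_add` for the walk: `F_j = 1_{y>0} f(y/a_j)`, `k_j = ⌊s j⌋`, `l_j = ⌊t j⌋`; `kap_UC` twice and once,
`h = 0`) -/
theorem QT_semi (h : DA α ζ ρ a) {s t M : ℝ} (hs : 0 < s) (ht : 0 < t) {f : ℝ → ℝ} (hf : BCo M f) {x : ℝ}
    (hx : 0 < x) : QT α ζ s (QT α ζ t f) x = QT α ζ (s + t) f x := by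
  have hp := h.prob
  have hD : Dom (Set.Ioi (0 : ℝ)) := Or.inr rfl
  have hTs : Tm (fun j => j) (fun j => ⌊s * j⌋₊) s := Tm.floor (n := fun j => j) tendsto_id hs.le
  have hTt : Tm (fun j => j) (fun j => ⌊t * j⌋₊) t := Tm.floor (n := fun j => j) tendsto_id ht.le
  have hM0 := K6b_M0 hf
  have hstep : ∀ᵐ x ∂ρ, Cos 0 0 x := Eventually.of_forall fun x => K6b_cos 0 x
  set F : ℕ → ℝ → ℝ := fun j y => (Set.Ioi (0 : ℝ)).indicator f (y / a j) with hF
  have hFM : MB M F := K6b_MB hf (fun j => a j)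
  have h1 := kap_UC h hD hstep hTt ht (c := fun _ => 0) hFM hf (K6b_UC (fun j => h.pos j) 0 _)
  have hGM : MB M (fun j x => ∫ y, F j y ∂(kap (Set.Ioi 0) ρ ⌊t * j⌋₊ x)) := by
    intro j
    exact ⟨measurable_integral_kap hD _ (F j) (hFM j).1 M (hFM j).2, fun y => K6b_abs _ _ hM0 (hFM j).2⟩
  have hQ := QT_BCo h ht hf
  have h2 := kap_UC h hD hstep hTs hs hGM hQ h1
  have h3 := kap_UC h hD hstep (hTs.add hTt) (add_pos hs ht) (c := fun _ => 0) hFM hf
    (K6b_UC (fun j => h.pos j) 0 _)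
  have hl : Tendsto (fun i : ℕ => x * a i / a i) atTop (𝓝 x) := by
    have : (fun i => x * a i / a i) = fun _ => x := by
      funext i
      rw [mul_div_assoc, div_self (h.pos i).ne', mul_one]
    rw [this]
    exact tendsto_const_nhds
  have l2 := h2.seq (fun j => h.pos j) (QT_BCo h hs hQ).cont (φ := fun j => j) tendsto_id (ys := fun j => x * a j)
    (fun i => K6b_cos _ _) hx hl
  have l3 := h3.seq (fun j => h.pos j) (QT_BCo h (add_pos hs ht) hf).cont (φ := fun j => j) tendsto_id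
    (ys := fun j => x * a j) (fun i => K6b_cos _ _) hx hl
  refine tendsto_nhds_unique l2 (l3.congr fun j => ?_)
  exact integral_kap_add hD _ _ _ (F j) (hFM j).1 M (hFM j).2

lemma K6b_S_mul (l : ℝ) (k : ℕ) (ω : ℕ → ℝ) : S k (fun i => l * ω i) = l * S k ω := by
  unfold S
  rw [Finset.mul_sum]

lemma K6b_kap_map [IsProbabilityMeasure ρ] {l : ℝ} (hl : 0 < l) (k : ℕ) (x : ℝ) :
    kap (Set.Ioi 0) (ρ.map fun y => l * y) k (l * x) = (kap (Set.Ioi 0) ρ k x).map fun y => l * y := by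
  have hD : Dom (Set.Ioi (0 : ℝ)) := Or.inr rfl
  have hm : Measurable fun y : ℝ => l * y := measurable_const_mul l
  have hmm : Measurable fun (ω : ℕ → ℝ) (i : ℕ) => l * ω i :=
    measurable_pi_lambda _ fun i => hm.comp (measurable_pi_apply i)
  unfold kap
  rw [← map_seqLaw ρ _ hm, Measure.restrict_map hmm (measurableSet_alive hD _ _),
    Measure.map_map (A1_meas_add k _) hmm, Measure.map_map hm (A1_meas_add k x)]
  have h1 : (fun (ω : ℕ → ℝ) (i : ℕ) => l * ω i) ⁻¹' {ω | Alive (Set.Ioi 0) (l * x) k ω} =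
      {ω | Alive (Set.Ioi 0) x k ω} := by
    ext ω
    show Alive (Set.Ioi 0) (l * x) k (fun i => l * ω i) ↔ Alive (Set.Ioi 0) x k ω
    unfold Alive
    refine forall_congr' fun j => forall_congr' fun _ => forall_congr' fun hj => ?_
    rw [K6b_S_mul, ← mul_add]
    exact mul_pos_iff_of_pos_left hl
  have h2 : ((fun ω : ℕ → ℝ => l * x + S k ω) ∘ fun (ω : ℕ → ℝ) (i : ℕ) => l * ω i) =
      (fun y => l * y) ∘ fun ω => x + S k ω := by
    funext ω
    show l * x + S k (fun i => l * ω i) = l * (x + S k ω)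
    rw [K6b_S_mul, mul_add]
  rw [h1, h2]

lemma K6b_QK (h : SS α ζ) (hα : 1 < α) {t l : ℝ} (ht : 0 < t) (hl : 0 < l) (f : ℝ → ℝ) (x : ℝ) (K : ℕ) (hK : 1 ≤ K) :
    QK α ζ K (l ^ α * t) f (l * x) = QK α ζ K t (fun y => f (l * y)) x := by
  have hK0 : (0 : ℝ) < K := by exact_mod_cast hK
  have hpr := h.Zt_prob (t / K)
  have hm : Measurable fun y : ℝ => l * y := measurable_const_mul l
  have h1 : Zt α ζ (l ^ α * t / K) = (Zt α ζ (t / K)).map fun y => l * y := by
    unfold Zt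
    rw [Measure.map_map hm (measurable_const_mul _)]
    congr 1
    funext y
    show (l ^ α * t / K) ^ (1 / α) * y = l * ((t / K) ^ (1 / α) * y)
    rw [mul_div_assoc, Real.mul_rpow (Real.rpow_nonneg hl.le _) (div_pos ht hK0).le, ← Real.rpow_mul hl.le,
      mul_one_div, div_self (by linarith : α ≠ 0), Real.rpow_one, mul_assoc]
  unfold QK
  rw [h1, K6b_kap_map hl]
  have he : MeasurableEmbedding (fun y : ℝ => l * y) := (Homeomorph.mulLeft₀ l hl.ne').measurableEmbedding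
  rw [he.integral_map]

/-- **[STB-K6b]** Scaling: `Q_{l^α t} f (l x) = Q_t (f(l ·)) (x)` (already for `QK`: `Zt (l^α t/K)` is the image of `Zt (t/K)` under `y ↦ l y`; or through the
walk: `a_{⌊l^α n⌋}/a_n → l`) -/
theorem QT_scale (h : DA α ζ ρ a) {t M l : ℝ} (ht : 0 < t) (hl : 0 < l) {f : ℝ → ℝ} (hf : BCo M f) {x : ℝ}
    (hx : 0 < x) : QT α ζ (l ^ α * t) f (l * x) = QT α ζ t (fun y => f (l * y)) x := by
  have _ := hf
  have _ := hx
  unfold QT
  congr 1
  funext j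
  exact K6b_QK h.ss h.one ht hl f x (2 ^ j) Nat.one_le_two_pow

end Pool.Agent.BPT
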