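import Pool.Agent.MP_99a865_pr.FV.B3
import Pool.Agent.MP_99a865_pr.ST.Ctr

/-! **[STB-L1]** The walk rarely leaves `D` and comes back to a point far from the origin within a short time. -/

open MeasureTheory ProbabilityTheory Filter Topology
open scoped ENNReal NNReal

namespace Pool.Agent.BPT

variable {α : ℝ} {ζ ρ : Measure ℝ} {a : ℕ → ℝ} {D : Set ℝ}

/-- **[STB-L1]** PROOF. `exit_decomp_lintegral` with `g` the indicator function of `J`: the difference is a sum over the first exit time of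
`fre ρ (m - 1 - i) (w + y) J` with `w + y ∉ D`, so `w + y ≤ 0` and `|z - (w + y)| ≥ z ≥ r a_n`; by `DA.far` each is at most `ε / a_n`;
the total exit probability is at most one (`exit_mass`). (`kap ≤ fre`: `kap_le_fre`.) -/
theorem L1_return (h : DA α ζ ρ a) (hD : Dom D) {r : ℝ} (hr : 0 < r) : ∀ ε > (0 : ℝ), ∃ δ > (0 : ℝ),
    ∀ᶠ n : ℕ in atTop, ∀ m : ℕ, (m : ℝ) ≤ δ * n → ∀ x : ℝ, ∀ z, r * a n ≤ z →
      ∀ J : Set ℝ, MeasurableSet J → J ⊆ Set.Icc z (z + 1) →
        (kap D ρ m x).real J ≤ (fre ρ m x).real J ∧ (fre ρ m x).real J - (kap D ρ m x).real J ≤ ε / a n := by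
  have hp := h.prob
  intro ε hε
  obtain ⟨δ, hδ, hev⟩ := h.far hr ε hε
  refine ⟨δ, hδ, ?_⟩
  filter_upwards [hev] with n hn
  intro m hm x z hz J hJm hJ
  have han := h.pos n
  have hfin : fre ρ m x J ≠ ∞ := measure_ne_top _ _
  have hkf : kap D ρ m x J ≤ fre ρ m x J := kap_le_fre hD m x J
  have hkfin : kap D ρ m x J ≠ ∞ := ne_top_of_le_ne_top hfin hkf
  refine ⟨ENNReal.toReal_mono hfin hkf, ?_⟩
  have h1 := exit_decomp_lintegral (ρ := ρ) hD m x (J.indicator 1) (measurable_one.indicator hJm)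
  rw [lintegral_indicator_one hJm, lintegral_indicator_one hJm] at h1
  have h2 : ∑ i ∈ Finset.range m, ∫⁻ w, (∫⁻ y in {y | w + y ∉ D},
      (∫⁻ z, (J.indicator 1 : ℝ → ℝ≥0∞) z ∂(fre ρ (m - 1 - i) (w + y))) ∂ρ) ∂(kap D ρ i x) ≤
      ENNReal.ofReal (ε / a n) := by
    have h3 : ∀ i ∈ Finset.range m, ∫⁻ w, (∫⁻ y in {y | w + y ∉ D},
        (∫⁻ z, (J.indicator 1 : ℝ → ℝ≥0∞) z ∂(fre ρ (m - 1 - i) (w + y))) ∂ρ) ∂(kap D ρ i x) ≤
        ENNReal.ofReal (ε / a n) * ∫⁻ w, ex D ρ w ∂(kap D ρ i x) := by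
      intro i hi
      rw [← lintegral_const_mul _ (measurable_ex hD)]
      refine lintegral_mono fun w => ?_
      have h4 : ∫⁻ y in {y | w + y ∉ D},
          (∫⁻ z, (J.indicator 1 : ℝ → ℝ≥0∞) z ∂(fre ρ (m - 1 - i) (w + y))) ∂ρ ≤
          ∫⁻ _ in {y | w + y ∉ D}, ENNReal.ofReal (ε / a n) ∂ρ := by
        have hms : MeasurableSet {y | w + y ∉ D} := (B3_meas_set hD w).compl
        refine setLIntegral_mono measurable_const fun y hy => ?_
        rw [lintegral_indicator_one hJm]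
        have hwy : w + y ≤ 0 := hD.not_mem hy
        have h5 := hn (m - 1 - i) (by
          have : ((m - 1 - i : ℕ) : ℝ) ≤ m := by
            exact_mod_cast (by omega : m - 1 - i ≤ m)
          linarith) (w + y) z (by
          have h6 : z ≤ z - (w + y) := by linarith
          exact hz.trans (h6.trans (le_abs_self _)))
        calc fre ρ (m - 1 - i) (w + y) J ≤ fre ρ (m - 1 - i) (w + y) (Set.Icc z (z + 1)) :=
              measure_mono hJ
          _ = ENNReal.ofReal ((fre ρ (m - 1 - i) (w + y)).real (Set.Icc z (z + 1))) := by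
              rw [ofReal_measureReal (measure_ne_top _ _)]
          _ ≤ ENNReal.ofReal (ε / a n) := ENNReal.ofReal_le_ofReal h5
      refine h4.trans ?_
      rw [setLIntegral_const]
      rfl
    refine (Finset.sum_le_sum h3).trans ?_
    rw [← Finset.mul_sum]
    have h6 := exit_mass (ρ := ρ) hD 0 m (Nat.zero_le m) x
    rw [← Finset.range_eq_Ico, kap_zero, Measure.dirac_apply_of_mem (Set.mem_univ x)] at h6
    have h7 : ∑ i ∈ Finset.range m, ∫⁻ w, ex D ρ w ∂(kap D ρ i x) ≤ 1 := by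
      rw [← h6]
      exact le_self_add
    calc ENNReal.ofReal (ε / a n) * ∑ i ∈ Finset.range m, ∫⁻ w, ex D ρ w ∂(kap D ρ i x) ≤
          ENNReal.ofReal (ε / a n) * 1 := mul_le_mul' le_rfl h7
      _ = ENNReal.ofReal (ε / a n) := mul_one _
  have h8 : fre ρ m x J ≤ kap D ρ m x J + ENNReal.ofReal (ε / a n) := by
    rw [h1]
    exact add_le_add le_rfl h2
  have h9 := ENNReal.toReal_mono (ENNReal.add_ne_top.2 ⟨hkfin, ENNReal.ofReal_ne_top⟩) h8
  rw [ENNReal.toReal_add hkfin ENNReal.ofReal_ne_top, ENNReal.toReal_ofReal (by positivity)] at h9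
  unfold Measure.real
  linarith

end Pool.Agent.BPT
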