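import Pool.Agent.MP_99a865_pr.FV.C0
import Pool.Agent.MP_99a865_pr.ST.Ctr
import Pool.Agent.MP_99a865_pr.ST.Z1a

/-! **[STB-T1]** Lattice dichotomy and gap for the characteristic function. -/

open MeasureTheory ProbabilityTheory Filter Topology
open scoped ENNReal NNReal

namespace Pool.Agent.BPT

variable {α : ℝ} {ζ ρ : Measure ℝ} {a : ℕ → ℝ}

theorem T1_not_dense [IsProbabilityMeasure ρ] (hnd : ∀ x, ρ ≠ Measure.dirac x) :
    ¬ Dense (C0_T ρ : Set ℝ) := by
  intro hd
  have h1 : ∀ n : ℕ, ∃ t : ℝ, t ∈ C0_T ρ ∧ 0 < t ∧ t < 1 / ((n : ℝ) + 1) := by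
    intro n
    have hpos : (0 : ℝ) < 1 / ((n : ℝ) + 1) := by positivity
    obtain ⟨t, ht, h2⟩ := hd.exists_between hpos
    exact ⟨t, ht, h2.1, h2.2⟩
  choose t ht ht0 ht1 using h1
  choose c hc0 hc using ht
  have hall : ∀ᵐ x ∂ρ, ∀ n, Complex.exp ((t n : ℝ) * (x : ℝ) * Complex.I) = c n :=
    ae_all_iff.mpr hc
  obtain ⟨y, hy⟩ := hall.exists
  have hxy : ∀ᵐ x ∂ρ, x = y := by
    filter_upwards [hall] with x hx
    obtain ⟨n, hn⟩ := exists_nat_ge |x - y|
    apply C0_eq (ht0 n) ((hx n).trans (hy n).symm)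
    have hn1 : (0 : ℝ) < (n : ℝ) + 1 := by positivity
    calc t n * |x - y| ≤ 1 / ((n : ℝ) + 1) * |x - y| :=
          mul_le_mul_of_nonneg_right (ht1 n).le (abs_nonneg _)
      _ ≤ 1 / ((n : ℝ) + 1) * ((n : ℝ) + 1) := by
          apply mul_le_mul_of_nonneg_left _ (by positivity)
          linarith
      _ = 1 := by field_simp
      _ < 2 * Real.pi := by have := Real.pi_gt_three; linarith
  apply hnd y
  have h2 : ρ.map (fun x => x) = ρ.map (fun _ => y) := Measure.map_congr hxy
  rw [Measure.map_id', Measure.map_const, measure_univ, one_smul] at h2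
  exact h2

theorem T1_exp_int {c : ℝ} (hc : 0 < c) : Integrable (fun s : ℝ => Real.exp (-c * |s|)) := by
  rw [← integrableOn_univ, ← Set.Iic_union_Ioi (a := (0 : ℝ)), integrableOn_union]
  constructor
  · refine (integrableOn_exp_mul_Iic hc 0).congr_fun (fun s hs => ?_) measurableSet_Iic
    have : |s| = -s := abs_of_nonpos hs
    show Real.exp (c * s) = Real.exp (-c * |s|)
    rw [this]; congr 1; ring
  · refine (integrableOn_exp_mul_Ioi (neg_lt_zero.mpr hc) 0).congr_fun (fun s hs => ?_)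
      measurableSet_Ioi
    have : |s| = s := abs_of_pos hs
    show Real.exp (-c * s) = Real.exp (-c * |s|)
    rw [this]

theorem T1_norm_abs (t : ℝ) : ‖charFun ρ |t|‖ = ‖charFun ρ t‖ := by
  rcases abs_choice t with h | h
  · rw [h]
  · rw [h, charFun_neg, RCLike.norm_conj]

/-- **[STB-T1a]** PROOF. As `lattice_dichotomy` (FV/C0), where `Std ρ` is used only in `C0_not_dense`: if the group
`C0_T ρ` were dense, take `t_n ∈ C0_T ρ`, `t_n → 0`, `t_n > 0`; `exp (i t_n x)` is a.s. constant, so for `ρ ⊗ ρ`-almost all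
`(x, y)`: `exp (i t_n (x - y)) = 1` for all `n`, and for `n` large `t_n |x - y| < 2π` gives `x = y` (`C0_eq`); so `x = y` a.s.
and `ρ` is a point mass. -/
theorem T1_dichotomy [IsProbabilityMeasure ρ] (hnd : ∀ x, ρ ≠ Measure.dirac x) :
    (∀ t : ℝ, t ≠ 0 → ‖charFun ρ t‖ < 1) ∨
    (∃ b h : ℝ, 0 < h ∧ (∀ᵐ x ∂ρ, ∃ j : ℤ, x = b + h * j) ∧
      ∀ t : ℝ, 0 < t → t < 2 * Real.pi / h → ‖charFun ρ t‖ < 1) := by
  have hprob : IsProbabilityMeasure ρ := inferInstance
  rcases AddSubgroup.dense_or_cyclic (C0_T ρ) with hd | ⟨b, hb⟩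
  · exact absurd hd (T1_not_dense hnd)
  · by_cases hb0 : b = 0
    · left
      intro t ht
      by_contra hcon
      have hmem := (C0_mem hprob t).mpr hcon
      rw [hb, hb0, AddSubgroup.mem_closure_singleton] at hmem
      obtain ⟨n, hn⟩ := hmem
      simp at hn
      exact ht hn.symm
    · right
      set s := |b| with hs
      have hs0 : 0 < s := abs_pos.mpr hb0
      have hsT : s ∈ C0_T ρ := by
        have hbT : b ∈ C0_T ρ := by
          rw [hb]; exact AddSubgroup.subset_closure rfl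
        rcases abs_choice b with h | h
        · rw [hs, h]; exact hbT
        · rw [hs, h]; exact (C0_T ρ).neg_mem hbT
      obtain ⟨c, hc0, hc⟩ := hsT
      obtain ⟨y, hy⟩ := hc.exists
      refine ⟨y, 2 * Real.pi / s, by positivity, ?_, ?_⟩
      · filter_upwards [hc] with x hx
        have h1 := hx.trans hy.symm
        rw [Complex.exp_eq_exp_iff_exists_int] at h1
        obtain ⟨n, hn⟩ := h1
        refine ⟨n, ?_⟩
        have h2 : s * x = s * y + n * (2 * Real.pi) := by
          have h3 : ((s * x : ℝ) : ℂ) * Complex.I =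
              ((s * y + n * (2 * Real.pi) : ℝ) : ℂ) * Complex.I := by
            push_cast
            rw [hn]; ring
          exact_mod_cast mul_right_cancel₀ Complex.I_ne_zero h3
        field_simp
        linarith
      · intro t ht0 ht
        by_contra hcon
        have hmem := (C0_mem hprob t).mpr hcon
        rw [hb, AddSubgroup.mem_closure_singleton] at hmem
        obtain ⟨n, hn⟩ := hmem
        have h1 : 2 * Real.pi / (2 * Real.pi / s) = s := by
          field_simp
        rw [h1] at ht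
        rw [zsmul_eq_mul] at hn
        have h2 : |(n : ℝ)| * s = t := by
          rw [hs, ← abs_mul, hn, abs_of_pos ht0]
        have h3 : |(n : ℝ)| < 1 := by
          by_contra h
          push Not at h
          nlinarith
        have h4 : n = 0 := by
          have : |n| < 1 := by exact_mod_cast h3
          exact Int.abs_lt_one_iff.mp this
        rw [h4] at h2
        simp at h2
        linarith

/-- **[STB-T1b]** Domination up to `A a_k`. PROOF. `DA.char_dom` for `|s| ≤ δ a_k`; for `δ a_k ≤ |s| ≤ A a_k` compactness gives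
`‖charFun ρ t‖ ≤ θ < 1` for `δ ≤ |t| ≤ A`, so the left side is `≤ θ^k`, and `exp (-c' |s|) ≥ exp (-c' A a_k) ≥ θ^k` as soon as
`c' A a_k ≤ k log (1/θ)`, true for large `k` (`DA.sub`). -/
theorem T1_dom (h : DA α ζ ρ a) {A : ℝ} (hA : 0 < A)
    (hap : ∀ t : ℝ, 0 < t → t ≤ A → ‖charFun ρ t‖ < 1) :
    ∃ c > (0 : ℝ), ∃ C : ℝ, ∀ᶠ k : ℕ in atTop, ∀ s : ℝ,
      |s| ≤ A * a k → ‖charFun ρ (s / a k)‖ ^ k ≤ C * Real.exp (-c * |s|) := by
  have hprob := h.prob
  obtain ⟨c, hc, δ, hδ, C, hC⟩ := h.char_dom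
  -- bound away from zero
  obtain ⟨θ, hθ0, hθ1, hθ⟩ : ∃ θ : ℝ, 0 < θ ∧ θ < 1 ∧ ∀ t : ℝ, δ ≤ |t| → |t| ≤ A →
      ‖charFun ρ t‖ ≤ θ := by
    by_cases hne : (Set.Icc δ A).Nonempty
    · obtain ⟨t₀, ht₀, hmax⟩ := isCompact_Icc.exists_isMaxOn hne
        (f := fun t : ℝ => ‖charFun ρ t‖) continuous_charFun.norm.continuousOn
      refine ⟨max ‖charFun ρ t₀‖ (1 / 2), lt_of_lt_of_le (by norm_num) (le_max_right _ _),
        max_lt (hap t₀ (lt_of_lt_of_le hδ ht₀.1) ht₀.2) (by norm_num), fun t h1 h2 => ?_⟩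
      rw [← T1_norm_abs]
      exact (hmax ⟨h1, h2⟩).trans (le_max_left _ _)
    · refine ⟨1 / 2, by norm_num, by norm_num, fun t h1 h2 => ?_⟩
      exact absurd ⟨|t|, h1, h2⟩ hne
  have hlog : 0 < Real.log (1 / θ) := Real.log_pos (by rw [lt_div_iff₀ hθ0]; linarith)
  have hk := h.sub.eventually_ge_atTop (c * A / Real.log (1 / θ))
  refine ⟨c, hc, max C 1, ?_⟩
  filter_upwards [hC, hk, eventually_gt_atTop 0] with k h1 h2 hk0 s hs
  have hak := h.pos k
  by_cases hcase : |s| ≤ δ * a k
  · exact (h1 s hcase).trans (mul_le_mul_of_nonneg_right (le_max_left _ _) (Real.exp_pos _).le)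
  · push Not at hcase
    have habs : |s / a k| = |s| / a k := by rw [abs_div, abs_of_pos hak]
    have h3 : ‖charFun ρ (s / a k)‖ ≤ θ := by
      apply hθ
      · rw [habs, le_div_iff₀ hak]; exact hcase.le
      · rw [habs, div_le_iff₀ hak]; exact hs
    have h4 : c * |s| ≤ k * Real.log (1 / θ) := by
      have h5 : c * A * a k ≤ k * Real.log (1 / θ) := by
        rw [div_le_div_iff₀ hlog hak] at h2
        exact h2
      have h6 : c * |s| ≤ c * (A * a k) := mul_le_mul_of_nonneg_left hs hc.le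
      linarith
    have h7 : θ ^ k = Real.exp (-(k * Real.log (1 / θ))) := by
      rw [one_div, Real.log_inv, mul_neg, neg_neg, mul_comm, Real.exp_mul, Real.exp_log hθ0,
        Real.rpow_natCast]
    calc ‖charFun ρ (s / a k)‖ ^ k ≤ θ ^ k := pow_le_pow_left₀ (norm_nonneg _) h3 k
      _ ≤ Real.exp (-c * |s|) := by
          rw [h7]; apply Real.exp_le_exp.mpr; linarith
      _ ≤ max C 1 * Real.exp (-c * |s|) := by
          have := Real.exp_pos (-c * |s|)
          have h8 : (1 : ℝ) ≤ max C 1 := le_max_right _ _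
          nlinarith

/-- **[STB-T1c]** `L¹` comparison with a weight `W` (continuous at `0`, `W 0 = 1`, `|W| ≤ 1`). PROOF. Dominated convergence
(`DA.lim`, `T1_dom`, `SS.charFun_int`, `a k → ∞`). -/
theorem T1_dct (h : DA α ζ ρ a) {A : ℝ} (hA : 0 < A)
    (hap : ∀ t : ℝ, 0 < t → t ≤ A → ‖charFun ρ t‖ < 1) (W : ℝ → ℝ) (hW : Continuous W) (hW0 : W 0 = 1)
    (hW1 : ∀ t, |W t| ≤ 1) :
    Tendsto (fun k : ℕ => ∫ s : ℝ, ‖(Set.Ioc (-(A * a k)) (A * a k)).indicator
      (fun s : ℝ => (W (s / a k) : ℂ) * charFun ρ (s / a k) ^ k) s - charFun ζ s‖) atTop (𝓝 0) := by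
  have hprob := h.prob
  have hζ := h.ss.prob
  obtain ⟨c, hc, C, hC⟩ := T1_dom h hA hap
  have hint := h.ss.charFun_int h.one
  have hlim0 : Tendsto (fun k : ℕ => ∫ s : ℝ, ‖(Set.Ioc (-(A * a k)) (A * a k)).indicator
      (fun s : ℝ => (W (s / a k) : ℂ) * charFun ρ (s / a k) ^ k) s - charFun ζ s‖) atTop
      (𝓝 (∫ _ : ℝ, (0 : ℝ))) := by
    refine tendsto_integral_filter_of_dominated_convergence
      (fun s => |C| * Real.exp (-c * |s|) + ‖charFun ζ s‖) ?_ ?_ ?_ ?_
    · refine Eventually.of_forall fun k => ?_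
      refine AEStronglyMeasurable.norm (AEStronglyMeasurable.sub ?_
        continuous_charFun.aestronglyMeasurable)
      refine AEStronglyMeasurable.indicator ?_ measurableSet_Ioc
      refine Continuous.aestronglyMeasurable ?_
      refine Continuous.mul ?_ ?_
      · exact Complex.continuous_ofReal.comp (hW.comp (continuous_id.div_const _))
      · exact (continuous_charFun.comp (continuous_id.div_const _)).pow k
    · filter_upwards [hC] with k hk
      refine Eventually.of_forall fun s => ?_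
      rw [Real.norm_eq_abs, abs_of_nonneg (norm_nonneg _)]
      refine (norm_sub_le _ _).trans (add_le_add_left ?_ _)
      by_cases hs : s ∈ Set.Ioc (-(A * a k)) (A * a k)
      · rw [Set.indicator_of_mem hs, norm_mul, norm_pow, Complex.norm_real, Real.norm_eq_abs]
        have h1 := hk s (abs_le.mpr ⟨hs.1.le, hs.2⟩)
        have h2 := hW1 (s / a k)
        have h3 : C * Real.exp (-c * |s|) ≤ |C| * Real.exp (-c * |s|) :=
          mul_le_mul_of_nonneg_right (le_abs_self C) (Real.exp_pos _).le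
        calc |W (s / a k)| * ‖charFun ρ (s / a k)‖ ^ k ≤ 1 * ‖charFun ρ (s / a k)‖ ^ k :=
              mul_le_mul_of_nonneg_right h2 (by positivity)
          _ ≤ _ := by rw [one_mul]; exact h1.trans h3
      · rw [Set.indicator_of_notMem hs, norm_zero]
        positivity
    · exact ((T1_exp_int hc).const_mul |C|).add hint.norm
    · refine Eventually.of_forall fun s => ?_
      have h1 : Tendsto (fun k : ℕ => s / a k) atTop (𝓝 0) := h.top.const_div_atTop s
      have h2 : Tendsto (fun k : ℕ => (W (s / a k) : ℂ)) atTop (𝓝 1) := by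
        have h3 : Tendsto (fun k : ℕ => W (s / a k)) atTop (𝓝 1) := by
          rw [← hW0]; exact (hW.tendsto 0).comp h1
        have h4 := (Complex.continuous_ofReal.tendsto 1).comp h3
        rw [Complex.ofReal_one] at h4
        exact h4
      have h5 : Tendsto (fun k : ℕ => (W (s / a k) : ℂ) * charFun ρ (s / a k) ^ k) atTop
          (𝓝 (charFun ζ s)) := by
        have := h2.mul (h.lim s)
        rwa [one_mul] at this
      have h6 : Tendsto (fun k : ℕ => (Set.Ioc (-(A * a k)) (A * a k)).indicator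
          (fun s : ℝ => (W (s / a k) : ℂ) * charFun ρ (s / a k) ^ k) s) atTop
          (𝓝 (charFun ζ s)) := by
        refine h5.congr' ?_
        have h7 : Tendsto (fun k : ℕ => A * a k) atTop atTop := h.top.const_mul_atTop hA
        filter_upwards [h7.eventually_gt_atTop |s|] with k hk
        rw [Set.indicator_of_mem]
        exact ⟨(abs_lt.mp hk).1, (abs_lt.mp hk).2.le⟩
      have h8 := (h6.sub_const (charFun ζ s)).norm
      rw [sub_self, norm_zero] at h8
      exact h8
  rwa [integral_zero] at hlim0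

end Pool.Agent.BPT
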