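import Pool.Agent.MP_99a865_pr.FV.C2
import Pool.Agent.MP_99a865_pr.ST.T1

/-! **[STB-T3]** Gnedenko's local limit theorem (lattice case). -/

open MeasureTheory ProbabilityTheory Filter Topology
open scoped ENNReal NNReal

namespace Pool.Agent.BPT

variable {α : ℝ} {ζ ρ : Measure ℝ} {a : ℕ → ℝ}

theorem T3_exp_int {c : ℝ} (hc : 0 < c) : Integrable (fun s : ℝ => Real.exp (-c * |s|)) := by
  rw [← integrableOn_univ, ← Set.Iic_union_Ioi (a := (0 : ℝ))]
  apply IntegrableOn.union
  · refine (integrableOn_exp_mul_Iic hc 0).congr_fun ?_ measurableSet_Iic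
    intro s hs
    have hs' : s ≤ 0 := hs
    simp only [abs_of_nonpos hs']
    congr 1
    ring
  · refine (integrableOn_exp_mul_Ioi (neg_lt_zero.mpr hc) 0).congr_fun ?_ measurableSet_Ioi
    intro s hs
    have hs' : 0 < s := hs
    simp only [abs_of_pos hs']

/-- the first absolute moment of the characteristic function of a stable law is finite -/
theorem T3_mom (h : SS α ζ) (hα : 1 < α) : Integrable (fun s : ℝ => |s| * ‖charFun ζ s‖) := by
  have := h.prob
  obtain ⟨c, hc, hn⟩ := h.norm (by linarith)
  have hb : ∀ s : ℝ, |s| * ‖charFun ζ s‖ ≤ (2 / c * Real.exp c) * Real.exp (-(c / 2) * |s|) := by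
    intro s
    rw [hn s]
    have h1 : Real.exp (-c * |s| ^ α) ≤ Real.exp c * Real.exp (-c * |s|) := by
      rw [← Real.exp_add, Real.exp_le_exp]
      have h2 : |s| ≤ |s| ^ α + 1 := by
        rcases le_total 1 |s| with h3 | h3
        · have := Real.rpow_le_rpow_of_exponent_le h3 hα.le
          rw [Real.rpow_one] at this
          linarith
        · have := Real.rpow_nonneg (abs_nonneg s) α
          linarith
      nlinarith
    have h4 : |s| ≤ 2 / c * Real.exp (c / 2 * |s|) := by
      have h5 := Real.add_one_le_exp (c / 2 * |s|)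
      have h6 : c / 2 * |s| ≤ Real.exp (c / 2 * |s|) := by linarith
      calc |s| = 2 / c * (c / 2 * |s|) := by field_simp
        _ ≤ _ := mul_le_mul_of_nonneg_left h6 (by positivity)
    calc |s| * Real.exp (-c * |s| ^ α) ≤ (2 / c * Real.exp (c / 2 * |s|)) * (Real.exp c * Real.exp (-c * |s|)) :=
          mul_le_mul h4 h1 (Real.exp_pos _).le (by positivity)
      _ = (2 / c * Real.exp c) * (Real.exp (c / 2 * |s|) * Real.exp (-c * |s|)) := by ring
      _ = _ := by
        rw [← Real.exp_add]
        congr 2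
        ring
  refine ((T3_exp_int (c := c / 2) (by positivity)).const_mul (2 / c * Real.exp c)).mono' ?_ ?_
  · exact (continuous_abs.mul continuous_charFun.norm).aestronglyMeasurable
  · refine Eventually.of_forall fun s => ?_
    rw [Real.norm_eq_abs, abs_of_nonneg (by positivity)]
    exact hb s

/-- the density is Lipschitz -/
theorem T3_lip (h : SS α ζ) (hα : 1 < α) : ∃ M > (0 : ℝ), ∀ x y : ℝ, |dens ζ x - dens ζ y| ≤ M * |x - y| := by
  have := h.prob
  have hmom := T3_mom h hα
  have hci := h.charFun_int hα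
  have hπ := Real.pi_pos
  set m : ℝ := ∫ s : ℝ, |s| * ‖charFun ζ s‖ with hm
  have hm0 : 0 ≤ m := integral_nonneg fun s => by positivity
  refine ⟨(m + 1) / (2 * Real.pi), by positivity, ?_⟩
  intro x y
  have hE : ∀ z s : ℝ, ‖Complex.exp (-(s * z) * Complex.I)‖ = 1 := by
    intro z s
    rw [show (-((s : ℂ) * (z : ℂ)) * Complex.I) =
      ((-(s * z) : ℝ) : ℂ) * Complex.I by push_cast; ring, Complex.norm_exp_ofReal_mul_I]
  have hi : ∀ z : ℝ, Integrable (fun s : ℝ => Complex.exp (-(s * z) * Complex.I) * charFun ζ s) := by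
    intro z
    refine hci.bdd_mul (c := 1) (by fun_prop : Continuous fun s : ℝ =>
      Complex.exp (-(s * z) * Complex.I)).aestronglyMeasurable ?_
    exact Eventually.of_forall fun s => (hE z s).le
  have hb : ‖(∫ s : ℝ, Complex.exp (-(s * x) * Complex.I) * charFun ζ s) -
      ∫ s : ℝ, Complex.exp (-(s * y) * Complex.I) * charFun ζ s‖ ≤ m * |x - y| := by
    rw [← integral_sub (hi x) (hi y)]
    refine (norm_integral_le_integral_norm _).trans ?_
    rw [hm, ← integral_mul_const]
    refine integral_mono_of_nonneg (Eventually.of_forall fun s => norm_nonneg _) (hmom.mul_const _) ?_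
    refine Eventually.of_forall fun s => ?_
    simp only
    rw [← sub_mul, norm_mul]
    have h1 : ‖Complex.exp (-(s * x) * Complex.I) - Complex.exp (-(s * y) * Complex.I)‖ ≤ |s| * |x - y| := by
      have h2 : Complex.exp (-(s * x) * Complex.I) - Complex.exp (-(s * y) * Complex.I) =
          Complex.exp (-(s * y) * Complex.I) * (Complex.exp (Complex.I * ((-(s * (x - y)) : ℝ) : ℂ)) - 1) := by
        rw [mul_sub, mul_one, ← Complex.exp_add]
        congr 2
        push_cast
        ring
      rw [h2, norm_mul, hE, one_mul]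
      refine Real.norm_exp_I_mul_ofReal_sub_one_le.trans ?_
      rw [Real.norm_eq_abs, abs_neg, abs_mul]
    calc _ ≤ (|s| * |x - y|) * ‖charFun ζ s‖ := mul_le_mul_of_nonneg_right h1 (norm_nonneg _)
      _ = _ := by ring
  unfold dens
  rw [← sub_div, ← Complex.sub_re, abs_div, abs_of_pos (show 0 < 2 * Real.pi by positivity), div_mul_eq_mul_div]
  apply div_le_div_of_nonneg_right _ (by positivity)
  refine (Complex.abs_re_le_norm _).trans (hb.trans ?_)
  have := abs_nonneg (x - y)
  nlinarith

/-- the walk is on its lattice -/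
theorem T3_ae [IsProbabilityMeasure ρ] (b h : ℝ) (hstep : ∀ᵐ x ∂ρ, ∃ j : ℤ, x = b + h * j) (k : ℕ) (x : ℝ) :
    ∀ᵐ z ∂(fre ρ k x), ∃ j : ℤ, z = x + k * b + h * j := by
  have hms : MeasurableSet {z : ℝ | ∃ j : ℤ, z = x + k * b + h * j} := by
    have : {z : ℝ | ∃ j : ℤ, z = x + k * b + h * j} =
        Set.range (fun j : ℤ => x + k * b + h * j) := by
      ext z
      constructor
      · rintro ⟨j, hj⟩; exact ⟨j, hj.symm⟩
      · rintro ⟨j, hj⟩; exact ⟨j, hj.symm⟩
    rw [this]
    exact (Set.countable_range _).measurableSet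
  unfold fre
  rw [ae_map_iff ((measurable_S k).const_add x).aemeasurable hms]
  have h1 : ∀ᵐ ω ∂(seqLaw ρ), ∀ i : ℕ, ∃ j : ℤ, ω i = b + h * j := by
    rw [ae_all_iff]
    intro i
    exact (measurePreserving_eval_infinitePi (fun _ : ℕ => ρ) i).quasiMeasurePreserving.ae hstep
  filter_upwards [h1] with ω hω
  choose j hj using hω
  refine ⟨∑ i ∈ Finset.range k, j i, ?_⟩
  unfold S
  simp only [hj, Finset.sum_add_distrib, Finset.sum_const, Finset.card_range, nsmul_eq_mul,
    ← Finset.mul_sum]
  push_cast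
  ring

/-- Fourier inversion -/
theorem T3_inv [IsProbabilityMeasure ρ] (a h : ℝ) (hh : 0 < h) (hstep : ∀ᵐ x ∂ρ, ∃ j : ℤ, x = a + h * j)
    (k : ℕ) (x : ℝ) (j : ℤ) :
    ((2 * Real.pi / h : ℝ) : ℂ) * (((fre ρ k x).real {x + k * a + h * j} : ℝ) : ℂ) =
      ∫ t in (-(Real.pi / h))..(Real.pi / h),
        Complex.exp (-(t * (k * a + h * j : ℝ)) * Complex.I) * charFun ρ t ^ k := by
  set A := Real.pi / h with hA
  have hApos : 0 < A := by positivity
  set y : ℝ := x + k * a + h * j with hy
  have hsw : ∫ z, (∫ t in (-A)..A, Complex.exp (t * (z - y : ℝ) * Complex.I)) ∂(fre ρ k x) =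
      ∫ t in (-A)..A, (∫ z, Complex.exp (t * (z - y : ℝ) * Complex.I) ∂(fre ρ k x)) := by
    simp only [intervalIntegral.integral_of_le (show -A ≤ A by linarith)]
    apply integral_integral_swap
    refine Integrable.of_bound (C := 1) ?_ ?_
    · exact (by fun_prop : Continuous (Function.uncurry fun (z t : ℝ) =>
        Complex.exp (t * (z - y : ℝ) * Complex.I))).aestronglyMeasurable
    · refine Eventually.of_forall fun p => ?_
      simp only [Function.uncurry]
      rw [show ((p.2 : ℂ) * ((p.1 - y : ℝ) : ℂ) * Complex.I) =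
        ((p.2 * (p.1 - y) : ℝ) : ℂ) * Complex.I by push_cast; ring, Complex.norm_exp_ofReal_mul_I]
  have hR : ∀ t : ℝ, (∫ z, Complex.exp (t * (z - y : ℝ) * Complex.I) ∂(fre ρ k x)) =
      Complex.exp (-(t * (k * a + h * j : ℝ)) * Complex.I) * charFun ρ t ^ k := by
    intro t
    have e1 : ∀ z : ℝ, Complex.exp (t * (z - y : ℝ) * Complex.I) =
        Complex.exp (-(t * y) * Complex.I) * Complex.exp (t * z * Complex.I) := by
      intro z
      rw [← Complex.exp_add]
      congr 1
      push_cast
      ring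
    simp only [e1]
    rw [integral_const_mul, ← charFun_apply_real, charFun_fre, ← mul_assoc, ← Complex.exp_add]
    congr 2
    rw [hy]
    push_cast
    ring
  have hL : ∀ᵐ z ∂(fre ρ k x), (∫ t in (-A)..A, Complex.exp (t * (z - y : ℝ) * Complex.I)) =
      ({y} : Set ℝ).indicator (fun _ => ((2 * A : ℝ) : ℂ)) z := by
    filter_upwards [T3_ae a h hstep k x] with z hz
    obtain ⟨m, hm⟩ := hz
    by_cases hzy : z = y
    · rw [Set.indicator_of_mem (by exact hzy), hzy]
      simp
      ring
    · rw [Set.indicator_of_notMem (by exact hzy)]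
      have hmj : m ≠ j := by
        rintro rfl
        exact hzy hm
      have hne : ((z - y : ℝ) : ℂ) * Complex.I ≠ 0 := by
        apply mul_ne_zero _ Complex.I_ne_zero
        rw [Complex.ofReal_ne_zero]
        exact sub_ne_zero.mpr hzy
      have e1 : ∀ t : ℝ, Complex.exp (t * (z - y : ℝ) * Complex.I) =
          Complex.exp (((z - y : ℝ) : ℂ) * Complex.I * t) := by
        intro t
        congr 1
        ring
      simp only [e1]
      rw [integral_exp_mul_complex hne, div_eq_zero_iff]
      left
      rw [sub_eq_zero, Complex.exp_eq_exp_iff_exists_int]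
      refine ⟨m - j, ?_⟩
      have e2 : z - y = h * (m - j) := by rw [hm, hy]; ring
      rw [e2, hA]
      push_cast
      have hh' : (h : ℂ) ≠ 0 := by exact_mod_cast hh.ne'
      field_simp
      ring
  rw [integral_congr_ae hL, integral_indicator_const _ (measurableSet_singleton y)] at hsw
  have hR' : (∫ t in (-A)..A, (∫ z, Complex.exp (t * (z - y : ℝ) * Complex.I) ∂(fre ρ k x))) =
      ∫ t in (-A)..A, Complex.exp (-(t * (k * a + h * j : ℝ)) * Complex.I) * charFun ρ t ^ k := by
    congr 1
    funext t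
    exact hR t
  rw [← hR', ← hsw, Complex.real_smul, mul_comm]
  congr 1
  rw [hA]
  push_cast
  ring

/-- the local limit theorem for points -/
theorem T3_point (hda : DA α ζ ρ a) (b h : ℝ) (hh : 0 < h) (hstep : ∀ᵐ x ∂ρ, ∃ j : ℤ, x = b + h * j)
    (hap : ∀ t : ℝ, 0 < t → t < 2 * Real.pi / h → ‖charFun ρ t‖ < 1) :
    ∀ ε > (0 : ℝ), ∃ K : ℕ, ∀ k ≥ K, ∀ (x : ℝ) (j : ℤ),
      |a k * (fre ρ k x).real {x + k * b + h * j} - h * dens ζ ((k * b + h * j) / a k)| ≤ ε := by
  have := hda.prob
  have := hda.ss.prob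
  intro ε hε
  set A := Real.pi / h with hA
  have hπ := Real.pi_pos
  have hApos : 0 < A := by positivity
  have hdct := T1_dct hda hApos (fun t ht htA => hap t ht (lt_of_le_of_lt htA (by
    rw [hA]
    apply div_lt_div_of_pos_right _ hh
    linarith))) (fun _ => 1) continuous_const rfl (fun _ => by simp)
  simp only [Complex.ofReal_one, one_mul] at hdct
  have hev := hdct.eventually_lt_const (show (0 : ℝ) < ε * (2 * Real.pi / h) by positivity)
  obtain ⟨K, hK⟩ := eventually_atTop.mp hev
  refine ⟨K, ?_⟩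
  intro k hk x j
  have hk1 := hK k hk
  set r : ℝ := a k with hr
  have hrpos : 0 < r := hda.pos k
  set y : ℝ := k * b + h * j with hy
  set p : ℝ := (fre ρ k x).real {x + k * b + h * j} with hp
  have hinv := T3_inv b h hh hstep k x j
  rw [← hA, ← hy, ← hp] at hinv
  set G : ℝ → ℂ := fun s => (Set.Ioc (-(A * r)) (A * r)).indicator
    (fun s : ℝ => charFun ρ (s / r) ^ k) s with hG
  have hGint : Integrable G := by
    rw [hG]
    have : IntegrableOn (fun s : ℝ => charFun ρ (s / r) ^ k) (Set.Ioc (-(A * r)) (A * r)) := by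
      apply Continuous.integrableOn_Ioc
      exact (continuous_charFun.comp (continuous_id.div_const _)).pow k
    exact this.integrable_indicator measurableSet_Ioc
  have hgint : Integrable (charFun ζ) := hda.ss.charFun_int hda.one
  have hE : ∀ s : ℝ, ‖Complex.exp (-(s * (y / r : ℝ)) * Complex.I)‖ = 1 := by
    intro s
    rw [show (-((s : ℂ) * ((y / r : ℝ) : ℂ)) * Complex.I) =
      ((-(s * (y / r)) : ℝ) : ℂ) * Complex.I by push_cast; ring, Complex.norm_exp_ofReal_mul_I]
  have hEc : Continuous (fun s : ℝ => Complex.exp (-(s * (y / r : ℝ)) * Complex.I)) := by fun_prop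
  have hEG : Integrable (fun s : ℝ => Complex.exp (-(s * (y / r : ℝ)) * Complex.I) * G s) := by
    refine hGint.bdd_mul (c := 1) hEc.aestronglyMeasurable ?_
    exact Eventually.of_forall fun s => (hE s).le
  have hEg : Integrable (fun s : ℝ => Complex.exp (-(s * (y / r : ℝ)) * Complex.I) * charFun ζ s) := by
    refine hgint.bdd_mul (c := 1) hEc.aestronglyMeasurable ?_
    exact Eventually.of_forall fun s => (hE s).le
  have hcv : (r : ℂ) * (((2 * Real.pi / h : ℝ) : ℂ) * (p : ℂ)) =
      ∫ s : ℝ, Complex.exp (-(s * (y / r : ℝ)) * Complex.I) * G s := by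
    rw [hinv]
    have h1 := intervalIntegral.integral_comp_div (a := -(A * r)) (b := A * r)
      (fun t : ℝ => Complex.exp (-(t * (y : ℝ)) * Complex.I) * charFun ρ t ^ k) hrpos.ne'
    rw [show -(A * r) / r = -A by field_simp, show A * r / r = A by field_simp] at h1
    rw [← Complex.real_smul, ← h1, intervalIntegral.integral_of_le
      (show -(A * r) ≤ A * r by nlinarith [mul_pos hApos hrpos]), ← integral_indicator measurableSet_Ioc]
    congr 1
    funext s
    rw [hG]
    simp only
    by_cases hs : s ∈ Set.Ioc (-(A * r)) (A * r)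
    · rw [Set.indicator_of_mem hs, Set.indicator_of_mem hs]
      congr 2
      push_cast
      field_simp
    · rw [Set.indicator_of_notMem hs, Set.indicator_of_notMem hs, mul_zero]
  set I0 : ℂ := ∫ s : ℝ, Complex.exp (-(s * (y / r : ℝ)) * Complex.I) * charFun ζ s with hI0
  have hdens : dens ζ (y / r) = I0.re / (2 * Real.pi) := rfl
  have hdiff : ‖(r : ℂ) * (((2 * Real.pi / h : ℝ) : ℂ) * (p : ℂ)) - I0‖ ≤ ε * (2 * Real.pi / h) := by
    rw [hcv, hI0, ← integral_sub hEG hEg]
    refine (norm_integral_le_integral_norm _).trans ?_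
    refine le_trans (le_of_eq ?_) hk1.le
    congr 1
    funext s
    rw [← mul_sub, norm_mul, hE, one_mul]
  have hreal : |r * (2 * Real.pi / h * p) - I0.re| ≤ ε * (2 * Real.pi / h) := by
    refine le_trans (le_of_eq ?_) ((Complex.abs_re_le_norm _).trans hdiff)
    congr 1
    rw [Complex.sub_re]
    congr 1
    rw [← Complex.ofReal_mul, ← Complex.ofReal_mul, Complex.ofReal_re]
  have hfin : r * p - h * dens ζ (y / r) =
      (r * (2 * Real.pi / h * p) - I0.re) * (h / (2 * Real.pi)) := by
    rw [hdens]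
    field_simp
  rw [hfin, abs_mul, abs_of_pos (show 0 < h / (2 * Real.pi) by positivity)]
  calc _ ≤ ε * (2 * Real.pi / h) * (h / (2 * Real.pi)) :=
        mul_le_mul_of_nonneg_right hreal (by positivity)
    _ = ε := by field_simp

/-- **[STB-T3]** PROOF. As `lat_lattice` (FV/C2), `√k` replaced by `a k` and the gaussian by `dens ζ`: `C2_inv` (which needs
only that `ρ` is a probability law on `b + hℤ`; copy it), `t = s / a k`, and `T1_dct` with `A = π/h`, `W = 1`; then sum over
the at most `L/h + 1` lattice points of a window (`C2_sum`, `C2_fin`, `C2_lam`), `dens ζ` Lipschitz and bounded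
(`|dens ζ x - dens ζ y| ≤ (1/2π) ∫ |s| ‖charFun ζ s‖ ds · |x - y|`), `a k → ∞`. -/
theorem T3_lattice (hda : DA α ζ ρ a) (b h : ℝ) (hh : 0 < h)
    (hstep : ∀ᵐ x ∂ρ, ∃ j : ℤ, x = b + h * j)
    (hap : ∀ t : ℝ, 0 < t → t < 2 * Real.pi / h → ‖charFun ρ t‖ < 1) : LatS ζ ρ a b h := by
  have := hda.prob
  obtain ⟨M, hM, hlip⟩ := T3_lip hda.ss hda.one
  refine ⟨hh.le, ?_, ?_⟩
  · filter_upwards [hstep] with x hx _
    exact hx
  · intro D hD L hL ε hε
    obtain ⟨K1, hpt⟩ := T3_point hda b h hh hstep hap (ε / (2 * (L / h + 1))) (by positivity)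
    obtain ⟨K2, hK2⟩ := eventually_atTop.mp (hda.top.eventually_ge_atTop (2 * h * (M * L) * (L / h + 1) / ε))
    refine ⟨max K1 K2, ?_⟩
    intro k hk x u w huw hwL
    have hk1 : K1 ≤ k := (le_max_left _ _).trans hk
    have hk2 : K2 ≤ k := (le_max_right _ _).trans hk
    have hrpos : 0 < a k := hda.pos k
    have hr : 2 * h * (M * L) * (L / h + 1) / ε ≤ a k := hK2 k hk2
    set c : ℝ := x + k * b with hc
    obtain ⟨F, hF⟩ := C2_fin h c u w hh (IV D u w) (IV_subset hD u w)
    have hlam := C2_lam h c hh (IV D u w) (measurableSet_IV hD u w) F hF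
    have hpr : IsProbabilityMeasure (fre ρ k x) := by
      unfold fre
      exact Measure.isProbabilityMeasure_map ((measurable_S k).const_add x).aemeasurable
    have hsum := C2_sum (fre ρ k x) h c hh (T3_ae b h hstep k x) (IV D u w) F hF
    have hcard : (F.card : ℝ) ≤ L / h + 1 := by
      have h1 := lam_IV_le hD h c hh.le u w
      rw [hlam] at h1
      have h2 : max 0 (w - u) ≤ L := max_le hL.le (by linarith)
      have h3 : h * (F.card : ℝ) ≤ L + h := by linarith
      have h4 : (F.card : ℝ) ≤ (L + h) / h := by rw [le_div_iff₀ hh]; linarith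
      rwa [add_div, div_self hh.ne'] at h4
    set φ0 : ℝ := dens ζ ((u - x) / a k) with hφ0
    have hterm : ∀ j ∈ F, |a k * (fre ρ k x).real {c + h * (j : ℝ)} - h * φ0| ≤
        ε / (2 * (L / h + 1)) + h * (M * (L / a k)) := by
      intro j hj
      have h1 := hpt k hk1 x j
      rw [← hc] at h1
      have h2 : |h * dens ζ ((k * b + h * j) / a k) - h * φ0| ≤ h * (M * (L / a k)) := by
        rw [← mul_sub, abs_mul, abs_of_pos hh]
        apply mul_le_mul_of_nonneg_left _ hh.le
        rw [hφ0]
        have h3 := hlip ((k * b + h * j) / a k) ((u - x) / a k)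
        have h4 : |(k * b + h * j) / a k - (u - x) / a k| ≤ L / a k := by
          rw [← sub_div, abs_div, abs_of_pos hrpos]
          apply div_le_div_of_nonneg_right _ hrpos.le
          have h5 := IV_subset hD u w ((hF j).mp hj)
          rw [abs_le]
          constructor
          · have := h5.1
            rw [hc] at this
            linarith
          · have := h5.2
            rw [hc] at this
            linarith
        exact h3.trans (mul_le_mul_of_nonneg_left h4 hM.le)
      calc |a k * (fre ρ k x).real {c + h * (j : ℝ)} - h * φ0| =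
          |(a k * (fre ρ k x).real {c + h * (j : ℝ)} - h * dens ζ ((k * b + h * j) / a k)) +
            (h * dens ζ ((k * b + h * j) / a k) - h * φ0)| := by
              congr 1; ring
        _ ≤ _ := (abs_add_le _ _).trans (add_le_add h1 h2)
    have hall : a k * (fre ρ k x).real (IV D u w) - (lam h c).real (IV D u w) * φ0 =
        ∑ j ∈ F, (a k * (fre ρ k x).real {c + h * (j : ℝ)} - h * φ0) := by
      rw [hsum, hlam, Finset.sum_sub_distrib, Finset.mul_sum, Finset.sum_const, nsmul_eq_mul]
      ring
    rw [hall]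
    refine (Finset.abs_sum_le_sum_abs _ _).trans ?_
    refine (Finset.sum_le_sum hterm).trans ?_
    rw [Finset.sum_const, nsmul_eq_mul]
    have hLh : 0 < L / h + 1 := by positivity
    have h6 : h * (M * (L / a k)) ≤ ε / (2 * (L / h + 1)) := by
      rw [← mul_div_assoc, ← mul_div_assoc, div_le_div_iff₀ hrpos (by positivity)]
      rw [div_le_iff₀ hε] at hr
      nlinarith
    calc (F.card : ℝ) * (ε / (2 * (L / h + 1)) + h * (M * (L / a k)))
        ≤ (L / h + 1) * (ε / (2 * (L / h + 1)) + ε / (2 * (L / h + 1))) := by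
          apply mul_le_mul hcard (by linarith) (by positivity) hLh.le
      _ = ε := by field_simp; ring

end Pool.Agent.BPT
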