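import Pool.Agent.MP_99a865_pr.ST.T2
import Pool.Agent.MP_99a865_pr.ST.T3

/-! **[STB-T4]** The local limit property. -/

open MeasureTheory ProbabilityTheory Filter Topology
open scoped ENNReal NNReal

namespace Pool.Agent.BPT

variable {α : ℝ} {ζ ρ : Measure ℝ} {a : ℕ → ℝ}

theorem DA.exists_lat (h : DA α ζ ρ a) : ∃ b s : ℝ, LatS ζ ρ a b s := by
  have := h.prob
  rcases T1_dichotomy h.nd with h1 | ⟨b, s, h1, h2, h3⟩
  · exact ⟨0, 0, T2_nonlattice h h1⟩
  · exact ⟨b, s, T3_lattice h b s h1 h2 h3⟩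

/-- the dual walk: step lattice `-b + hℤ` -/
theorem LatS.dual_step {b h : ℝ} (hL : LatS ζ ρ a b h) : ∀ᵐ x ∂(Pool.Agent.BPT.dual ρ), Cos h (-b) x := by
  unfold Pool.Agent.BPT.dual
  have he : MeasurableEmbedding (fun x : ℝ => -x) := (MeasurableEquiv.neg ℝ).measurableEmbedding
  rw [he.ae_map_iff]
  filter_upwards [hL.step] with x hx hh
  obtain ⟨j, hj⟩ := hx hh
  refine ⟨-j, ?_⟩
  rw [hj]
  push_cast
  ring

end Pool.Agent.BPT
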