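import Pool.Agent.MP_99a865_pr.FV.A2b
import Pool.Agent.MP_99a865_pr.ST.K0b
import Pool.Agent.MP_99a865_pr.ST.T4

/-! **[STB-L2a]** Local limit theorem for the free walk along sequences of times. -/

open MeasureTheory ProbabilityTheory Filter Topology
open scoped ENNReal NNReal

namespace Pool.Agent.BPT

variable {α : ℝ} {ζ ρ : Measure ℝ} {a : ℕ → ℝ} {D : Set ℝ}

private theorem L2a_zero (ζ : Measure ℝ) : Tendsto (dens ζ) (cocompact ℝ) (𝓝 0) := by
  have hpi := Real.pi_pos
  have h1 := Real.tendsto_integral_exp_smul_cocompact (charFun ζ)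
  have h2 : Tendsto (fun x : ℝ => x / (2 * Real.pi)) (cocompact ℝ) (cocompact ℝ) := by
    rw [cocompact_eq_atBot_atTop]
    refine tendsto_sup.2 ⟨?_, ?_⟩
    · exact (tendsto_id.atBot_div_const (by positivity)).mono_right le_sup_left
    · exact (tendsto_id.atTop_div_const (by positivity)).mono_right le_sup_right
  have h3 := h1.comp h2
  have h4 : Tendsto (fun x : ℝ => (∫ s : ℝ, Complex.exp (-(s * x) * Complex.I) * charFun ζ s).re /
      (2 * Real.pi)) (cocompact ℝ) (𝓝 ((0 : ℂ).re / (2 * Real.pi))) := by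
    refine ((Complex.continuous_re.tendsto _).comp (h3.congr fun x => ?_)).div_const _
    refine integral_congr_ae (ae_of_all _ fun s => ?_)
    simp only [Circle.smul_def, Real.fourierChar_apply, smul_eq_mul]
    congr 2
    push_cast
    field_simp
  rw [Complex.zero_re, zero_div] at h4
  exact h4

/-- uniform closeness under a change of scale -/
private theorem L2a_unif {f : ℝ → ℝ} (hf : Continuous f) (h0 : Tendsto f (cocompact ℝ) (𝓝 0)) {ε : ℝ}
    (hε : 0 < ε) : ∃ δ > (0 : ℝ), ∀ c : ℝ, |c - 1| ≤ δ → ∀ v : ℝ, |f v - f (c * v)| ≤ ε := by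
  have hu : UniformContinuous f := hf.uniformContinuous_of_tendsto_cocompact h0
  -- radius
  have h1 := h0.eventually (Metric.ball_mem_nhds (0 : ℝ) (half_pos hε))
  rw [cocompact_eq_atBot_atTop, eventually_sup] at h1
  obtain ⟨R1, hR1⟩ := eventually_atBot.1 h1.1
  obtain ⟨R2, hR2⟩ := eventually_atTop.1 h1.2
  set R : ℝ := max 1 (max |R1| |R2|) with hR
  have hR0 : 1 ≤ R := le_max_left _ _
  have hbig : ∀ v : ℝ, R ≤ |v| → |f v| ≤ ε / 2 := by
    intro v hv
    rcases le_abs.1 hv with h2 | h2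
    · have h3 := hR2 v ((le_abs_self R2).trans ((le_max_right _ _).trans ((le_max_right _ _).trans h2)))
      have h4 : dist (f v) 0 < ε / 2 := h3
      rw [Real.dist_eq, sub_zero] at h4
      exact h4.le
    · have h3 := hR1 v (by
        have h5 : |R1| ≤ -v := (le_max_left _ _).trans ((le_max_right _ _).trans h2)
        have h6 := neg_abs_le R1
        linarith)
      have h4 : dist (f v) 0 < ε / 2 := h3
      rw [Real.dist_eq, sub_zero] at h4
      exact h4.le
  obtain ⟨η, hη, hηf⟩ := Metric.uniformContinuous_iff.1 hu ε hε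
  refine ⟨min (1 / 2) (η / (4 * R)), by positivity, fun c hc v => ?_⟩
  have hc1 : |c - 1| ≤ 1 / 2 := hc.trans (min_le_left _ _)
  have hc2 : |c - 1| ≤ η / (4 * R) := hc.trans (min_le_right _ _)
  rcases le_or_gt (2 * R) |v| with hv | hv
  · have h2 := hbig v (by linarith)
    have h3 := hbig (c * v) (by
      rw [abs_mul]
      have h4 : 1 / 2 ≤ |c| := by
        have h5 := (abs_le.1 hc1).1
        exact le_trans (by linarith) (le_abs_self c)
      calc R = 1 / 2 * (2 * R) := by ring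
        _ ≤ |c| * |v| := mul_le_mul h4 hv (by linarith) (abs_nonneg c))
    calc |f v - f (c * v)| ≤ |f v| + |f (c * v)| := abs_sub _ _
      _ ≤ ε := by linarith
  · have h2 : dist v (c * v) < η := by
      rw [Real.dist_eq]
      have h3 : v - c * v = -((c - 1) * v) := by ring
      rw [h3, abs_neg, abs_mul]
      calc |c - 1| * |v| ≤ η / (4 * R) * (2 * R) :=
            mul_le_mul hc2 hv.le (abs_nonneg v) (by positivity)
        _ = η / 2 := by field_simp; ring
        _ < η := by linarith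
    have h4 := hηf h2
    rw [Real.dist_eq] at h4
    exact h4.le

/-- **[STB-L2a]** The free walk in windows of length at most `L`: `a_n (fre ρ k x)(J) ≤ C`, and the local limit theorem along `Tm`.
PROOF. `LatS.llt` at time `k = k_j`: `a_k fre(J) = lam(J) dens((u - x)/a_k) + o(1)` uniformly; multiply by `a_n/a_k → t^{-1/α}`
(`DA.ratio`, `lam(J) ≤ L + h` by `lam_IV_le`, `dens` bounded), and `dens((u-x)/a_k)/t^{1/α}` against
`dt α ζ t ((u - x)/a_n) = dens(((u-x)/a_n)/t^{1/α})/t^{1/α}`: `dens ζ` is uniformly continuous (continuous and tending to `0` at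
infinity; or Lipschitz) but the arguments `(u-x)/a_k` and `(u-x)/(a_n t^{1/α})` may be far apart when they are both large; there both
values are small (Riemann–Lebesgue, `dens → 0` at `±∞`). -/
theorem L2_free (hda : DA α ζ ρ a) (hD : Dom D) {b h : ℝ} (hL : LatS ζ ρ a b h) {n k : ℕ → ℕ} {t : ℝ}
    (hT : Tm n k t) (ht : 0 < t) {L : ℝ} (hL0 : 0 < L) : ∀ κ > (0 : ℝ), ∀ᶠ j in atTop, ∀ x u w : ℝ,
      u ≤ w → w ≤ u + L →
      |a (n j) * (fre ρ (k j) x).real (IV D u w) -
        (lam h (x + k j * b)).real (IV D u w) * dt α ζ t ((u - x) / a (n j))| ≤ κ := by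
  intro κ hκ
  have hp := hda.prob
  have hα0 : 0 < α := by linarith [hda.one]
  obtain ⟨M, hM, hMb⟩ := SS.dens_bdd hda.ss hda.one
  have hcont := SS.dens_cont hda.ss hda.one
  set s : ℝ := t ^ (1 / α) with hs
  have hs0 : 0 < s := Real.rpow_pos_of_pos ht _
  -- ratios
  have hq : Tendsto (fun j => a (k j) / a (n j)) atTop (𝓝 s) := hda.ratio hT ht
  have hr : Tendsto (fun j => a (n j) / a (k j)) atTop (𝓝 s⁻¹) := by
    refine (hq.inv₀ hs0.ne').congr fun j => ?_
    rw [inv_div]
  have hc : Tendsto (fun j => a (k j) / a (n j) / s) atTop (𝓝 1) := by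
    have := hq.div_const s
    rwa [div_self hs0.ne'] at this
  have hkt : Tendsto k atTop atTop := hT.top' ht
  have hh := hL.nonneg
  set B : ℝ := L + h + 1 with hB
  have hB0 : 0 < B := by linarith
  have hs1 : 0 < s⁻¹ := by positivity
  -- constants
  set ε₁ : ℝ := κ / (3 * (s⁻¹ + 1)) with hε₁
  have hε₁0 : 0 < ε₁ := by positivity
  obtain ⟨K, hK⟩ := hL.llt D hD L hL0 ε₁ hε₁0
  set ε₂ : ℝ := κ / (3 * B * s⁻¹) with hε₂
  have hε₂0 : 0 < ε₂ := by positivity
  obtain ⟨δ, hδ, hδf⟩ := L2a_unif hcont (L2a_zero ζ) hε₂0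
  set ε₃ : ℝ := κ / (3 * B * M) with hε₃
  have hε₃0 : 0 < ε₃ := by positivity
  have ev1 : ∀ᶠ j in atTop, K ≤ k j := hkt.eventually_ge_atTop K
  have ev2 : ∀ᶠ j in atTop, |a (n j) / a (k j) - s⁻¹| < min 1 ε₃ := by
    have := (Metric.tendsto_nhds.1 hr) (min 1 ε₃) (by positivity)
    simpa [Real.dist_eq] using this
  have ev3 : ∀ᶠ j in atTop, |a (k j) / a (n j) / s - 1| < δ := by
    have := (Metric.tendsto_nhds.1 hc) δ hδ
    simpa [Real.dist_eq] using this
  filter_upwards [ev1, ev2, ev3] with j hj1 hj2 hj3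
  intro x u w huw hw
  have hak := hda.pos (k j)
  have han := hda.pos (n j)
  have h1 := hK (k j) hj1 x u w huw hw
  set F : ℝ := (fre ρ (k j) x).real (IV D u w) with hF
  set lm : ℝ := (lam h (x + k j * b)).real (IV D u w) with hlm
  have hlm0 : 0 ≤ lm := measureReal_nonneg
  have hlm1 : lm ≤ B := by
    have h2 := lam_IV_le hD h (x + k j * b) hh u w
    have h3 : max 0 (w - u) ≤ L := max_le hL0.le (by linarith)
    linarith
  set r : ℝ := a (n j) / a (k j) with hr'
  have hr0 : 0 < r := div_pos han hak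
  have hr1 : r ≤ s⁻¹ + 1 := by
    have h2 := (abs_lt.1 (hj2.trans_le (min_le_left _ _))).2
    linarith
  have hr2 : |r - s⁻¹| ≤ ε₃ := (hj2.trans_le (min_le_right _ _)).le
  set v : ℝ := (u - x) / a (k j) with hv
  have hdt : dt α ζ t ((u - x) / a (n j)) = dens ζ (a (k j) / a (n j) / s * v) * s⁻¹ := by
    unfold dt
    rw [← hs, div_eq_mul_inv (dens ζ _) s]
    congr 2
    rw [hv]
    field_simp
  have h4 : a (n j) * F - lm * dt α ζ t ((u - x) / a (n j)) =
      r * (a (k j) * F - lm * dens ζ v) + lm * ((r - s⁻¹) * dens ζ v) +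
        lm * (s⁻¹ * (dens ζ v - dens ζ (a (k j) / a (n j) / s * v))) := by
    have h5 : a (n j) = r * a (k j) := by
      rw [hr']
      field_simp
    rw [hdt]
    nth_rewrite 1 [h5]
    ring
  rw [h4]
  have e1 : |r * (a (k j) * F - lm * dens ζ v)| ≤ κ / 3 := by
    rw [abs_mul, abs_of_pos hr0]
    calc r * |a (k j) * F - lm * dens ζ v| ≤ (s⁻¹ + 1) * ε₁ :=
          mul_le_mul hr1 h1 (abs_nonneg _) (by positivity)
      _ = κ / 3 := by
          rw [hε₁]
          field_simp
  have e2 : |lm * ((r - s⁻¹) * dens ζ v)| ≤ κ / 3 := by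
    rw [abs_mul, abs_of_nonneg hlm0, abs_mul]
    calc lm * (|r - s⁻¹| * |dens ζ v|) ≤ B * (ε₃ * M) := by
          apply mul_le_mul hlm1 _ (by positivity) hB0.le
          exact mul_le_mul hr2 (hMb v) (abs_nonneg _) hε₃0.le
      _ = κ / 3 := by
          rw [hε₃]
          field_simp
  have e3 : |lm * (s⁻¹ * (dens ζ v - dens ζ (a (k j) / a (n j) / s * v)))| ≤ κ / 3 := by
    rw [abs_mul, abs_of_nonneg hlm0, abs_mul, abs_of_pos hs1]
    have h6 := hδf (a (k j) / a (n j) / s) hj3.le v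
    calc lm * (s⁻¹ * |dens ζ v - dens ζ (a (k j) / a (n j) / s * v)|) ≤ B * (s⁻¹ * ε₂) := by
          apply mul_le_mul hlm1 _ (by positivity) hB0.le
          exact mul_le_mul_of_nonneg_left h6 hs1.le
      _ = κ / 3 := by
          rw [hε₂]
          field_simp
  calc _ ≤ |r * (a (k j) * F - lm * dens ζ v)| + |lm * ((r - s⁻¹) * dens ζ v)| +
        |lm * (s⁻¹ * (dens ζ v - dens ζ (a (k j) / a (n j) / s * v)))| := abs_add_three _ _ _
    _ ≤ κ := by linarith

end Pool.Agent.BPT
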