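import Pool.Agent.MP_99a865_pr.ST.L1
import Pool.Agent.MP_99a865_pr.ST.K6a
import Pool.Agent.MP_99a865_pr.ST.L2a

/-! **[STB-L2b]** Local limit theorem for the killed walk, first form. -/

open MeasureTheory ProbabilityTheory Filter Topology
open scoped ENNReal NNReal

namespace Pool.Agent.BPT

variable {α : ℝ} {ζ ρ : Measure ℝ} {a : ℕ → ℝ} {D : Set ℝ}

/-- `dens ζ` tends to zero at infinity (Riemann–Lebesgue) -/
lemma L2b_dens_zero (ζ : Measure ℝ) : Tendsto (dens ζ) (cocompact ℝ) (𝓝 0) := by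
  have h1 := Real.tendsto_integral_exp_smul_cocompact (fun s : ℝ => charFun ζ s)
  have h2 : Tendsto (fun x : ℝ => x / (2 * Real.pi)) (cocompact ℝ) (cocompact ℝ) := by
    have h3 : (2 * Real.pi)⁻¹ ≠ 0 := by positivity
    have := (Homeomorph.mulRight₀ (2 * Real.pi)⁻¹ h3).isClosedEmbedding.tendsto_cocompact
    refine this.congr fun x => ?_
    simp [div_eq_mul_inv]
  have h4 := h1.comp h2
  have h5 : Tendsto (fun x : ℝ => (∫ s : ℝ, Complex.exp (-(s * x) * Complex.I) * charFun ζ s))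
      (cocompact ℝ) (𝓝 0) := by
    refine h4.congr fun x => ?_
    simp only [Function.comp]
    refine integral_congr_ae (Eventually.of_forall fun s => ?_)
    simp only [Circle.smul_def, Real.fourierChar_apply, smul_eq_mul]
    congr 2
    push_cast
    have : (Real.pi : ℂ) ≠ 0 := by exact_mod_cast Real.pi_ne_zero
    field_simp
  have h6 : Tendsto (fun z : ℂ => z.re / (2 * Real.pi)) (𝓝 0) (𝓝 0) := by
    have : Continuous fun z : ℂ => z.re / (2 * Real.pi) := by fun_prop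
    simpa using this.tendsto 0
  exact h6.comp h5

lemma L2b_dens_uc (h : SS α ζ) (hα : 1 < α) : UniformContinuous (dens ζ) := by
  exact (h.dens_cont hα).uniformContinuous_of_tendsto_cocompact (L2b_dens_zero ζ)

lemma L2b_dt_uc (h : SS α ζ) (hα : 1 < α) {s : ℝ} (hs : 0 < s) : ∀ η > (0 : ℝ), ∃ δ > (0 : ℝ),
    ∀ x y : ℝ, |x - y| < δ → |dt α ζ s x - dt α ζ s y| ≤ η := by
  intro η hη
  have hp : 0 < s ^ (1 / α) := Real.rpow_pos_of_pos hs _
  obtain ⟨δ, hδ, h1⟩ := Metric.uniformContinuous_iff.mp (L2b_dens_uc h hα) (η * s ^ (1 / α)) (by positivity)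
  refine ⟨δ * s ^ (1 / α), by positivity, fun x y hxy => ?_⟩
  unfold dt
  rw [← sub_div, abs_div, abs_of_pos hp, div_le_iff₀ hp]
  have h2 : dist (x / s ^ (1 / α)) (y / s ^ (1 / α)) < δ := by
    rw [Real.dist_eq, ← sub_div, abs_div, abs_of_pos hp, div_lt_iff₀ hp]
    exact hxy
  have := h1 h2
  rw [Real.dist_eq] at this
  exact this.le

lemma L2b_dt_cont (h : SS α ζ) (hα : 1 < α) (s : ℝ) : Continuous (dt α ζ s) := by
  unfold dt
  exact ((h.dens_cont hα).comp (continuous_id.div_const _)).div_const _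

lemma L2b_dt_bdd (h : SS α ζ) (hα : 1 < α) (s : ℝ) : ∃ M > (0 : ℝ), ∀ x, |dt α ζ s x| ≤ M := by
  obtain ⟨M, hM, h1⟩ := h.dens_bdd hα
  refine ⟨M / |s ^ (1 / α)| + 1, by positivity, fun x => ?_⟩
  unfold dt
  rw [abs_div]
  have : |dens ζ (x / s ^ (1 / α))| / |s ^ (1 / α)| ≤ M / |s ^ (1 / α)| :=
    div_le_div_of_nonneg_right (h1 _) (abs_nonneg _)
  linarith

lemma L2b_BCo (h : SS α ζ) (hα : 1 < α) {s M : ℝ} (hM : ∀ x, |dt α ζ s x| ≤ M) (y : ℝ) :
    BCo M (fun z => dt α ζ s (y - z)) :=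
  ⟨fun x _ => hM _, ((L2b_dt_cont h hα s).comp (continuous_const.sub continuous_id)).continuousOn⟩

lemma L2b_QT_le (hda : DA α ζ ρ a) {t M : ℝ} (ht : 0 < t) {f : ℝ → ℝ} (hf : BCo M f) {x : ℝ}
    (hx : 0 < x) : |QT α ζ t f x| ≤ M := (QT_BCo hda ht hf).bd x hx

lemma L2b_QT_sub (hda : DA α ζ ρ a) {t M N : ℝ} (ht : 0 < t) {f g : ℝ → ℝ} (hf : BCo M f) (hg : BCo N g)
    {x η : ℝ} (hx : 0 < x) (hη : ∀ y > 0, |f y - g y| ≤ η) :
    |QT α ζ t f x - QT α ζ t g x| ≤ η := by
  have hg' : BCo N (fun y => (-1) * g y) := by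
    refine ⟨fun y hy => ?_, continuousOn_const.mul hg.cont⟩
    rw [abs_mul, abs_neg, abs_one, one_mul]
    exact hg.bd y hy
  have h1 := QT_add hda ht hf hg' hx
  rw [QT_smul hda ht hg (-1) hx] at h1
  have h2 : BCo η (fun y => f y + (-1) * g y) := by
    refine ⟨fun y hy => ?_, hf.cont.add hg'.cont⟩
    have := hη y hy
    rwa [show f y + (-1) * g y = f y - g y by ring]
  have h3 := L2b_QT_le hda ht h2 hx
  rw [h1] at h3
  rwa [show QT α ζ t f x - QT α ζ t g x = QT α ζ t f x + -1 * QT α ζ t g x by ring]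

/-- step (iii) -/
lemma L2b_unif (hda : DA α ζ ρ a) (hD : Dom D) {n k : ℕ → ℕ} {t : ℝ} (hT : Tm n k t) (ht : 0 < t)
    {s : ℝ} (hs : 0 < s) {ε : ℝ} (hε : 0 < ε) : ∀ η > (0 : ℝ), ∀ᶠ j in atTop, ∀ x u : ℝ,
      ε * a (n j) ≤ x → x ≤ a (n j) / ε → ε * a (n j) ≤ u → u ≤ a (n j) / ε →
      |∫ z, dt α ζ s ((u - z) / a (n j)) ∂(kap D ρ (k j) x) -
        QT α ζ t (fun z => dt α ζ s (u / a (n j) - z)) (x / a (n j))| ≤ η := by
  intro η hη
  by_contra hcon
  rw [Filter.not_eventually] at hcon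
  obtain ⟨φ, hφ, hP⟩ := extraction_of_frequently_atTop hcon
  push Not at hP
  choose xs us hx1 hx2 hu1 hu2 hbad using hP
  have hpos := hda.pos
  have hα := hda.one
  have hss := hda.ss
  obtain ⟨M, hM, hMb⟩ := L2b_dt_bdd hss hα s
  have hK : IsCompact (Set.Icc ε (1 / ε) ×ˢ Set.Icc ε (1 / ε)) := isCompact_Icc.prod isCompact_Icc
  have hmem : ∀ i, (xs i / a (n (φ i)), us i / a (n (φ i))) ∈ Set.Icc ε (1 / ε) ×ˢ Set.Icc ε (1 / ε) := by
    intro i
    have hp := hpos (n (φ i))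
    refine ⟨⟨?_, ?_⟩, ⟨?_, ?_⟩⟩
    · rw [le_div_iff₀ hp]; exact hx1 i
    · rw [div_le_iff₀ hp]
      calc xs i ≤ _ := hx2 i
        _ = _ := by ring
    · rw [le_div_iff₀ hp]; exact hu1 i
    · rw [div_le_iff₀ hp]
      calc us i ≤ _ := hu2 i
        _ = _ := by ring
  obtain ⟨⟨x, y⟩, hxy, ψ, hψ, hlim⟩ := hK.tendsto_subseq hmem
  have hx0 : 0 < x := lt_of_lt_of_le hε hxy.1.1
  have hy0 : 0 < y := lt_of_lt_of_le hε hxy.2.1
  have hlx : Tendsto (fun i => xs (ψ i) / a (n (φ (ψ i)))) atTop (𝓝 x) :=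
    ((continuous_fst.tendsto _).comp hlim)
  have hlu : Tendsto (fun i => us (ψ i) / a (n (φ (ψ i)))) atTop (𝓝 y) :=
    ((continuous_snd.tendsto _).comp hlim)
  have hθ : Tendsto (fun i => φ (ψ i)) atTop atTop := hφ.tendsto_atTop.comp hψ.tendsto_atTop
  have hT' : Tm (fun i => n (φ (ψ i))) (fun i => k (φ (ψ i))) t := hT.sub hθ
  -- uniform closeness
  have hclose : ∀ η' > (0 : ℝ), ∀ᶠ i in atTop, ∀ z : ℝ,
      |dt α ζ s (us (ψ i) / a (n (φ (ψ i))) - z) - dt α ζ s (y - z)| ≤ η' := by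
    intro η' hη'
    obtain ⟨δ, hδ, hd⟩ := L2b_dt_uc hss hα hs η' hη'
    have := (Metric.tendsto_atTop.mp hlu) δ hδ
    obtain ⟨N, hN⟩ := this
    filter_upwards [eventually_ge_atTop N] with i hi z
    apply hd
    have := hN i hi
    rw [Real.dist_eq] at this
    rwa [show us (ψ i) / a (n (φ (ψ i))) - z - (y - z) = us (ψ i) / a (n (φ (ψ i))) - y by ring]
  have hstep : ∀ᵐ x ∂ρ, Cos 0 0 x := Eventually.of_forall fun x h0 => absurd rfl h0
  have hF : MB M (fun i z => dt α ζ s ((us (ψ i) - z) / a (n (φ (ψ i))))) := by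
    intro i
    refine ⟨?_, fun z => hMb _⟩
    exact ((L2b_dt_cont hss hα s).comp ((continuous_const.sub continuous_id).div_const _)).measurable
  have hf : BCo M (fun z => dt α ζ s (y - z)) := L2b_BCo hss hα hMb y
  have hU : UC 0 (fun _ => 0) (fun i => a (n (φ (ψ i))))
      (fun i z => dt α ζ s ((us (ψ i) - z) / a (n (φ (ψ i))))) (fun z => dt α ζ s (y - z)) := by
    intro ε' _ η' hη'
    filter_upwards [hclose η' hη'] with i hi z _ _ _
    have := hi (z / a (n (φ (ψ i))))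
    rwa [← sub_div] at this
  have hUC := kap_UC hda hD hstep hT' ht hF hf hU
  have hlimA := hUC.seq (φ := id) (ys := fun i => xs (ψ i)) (fun j => hpos _) (QT_BCo hda ht hf).cont
    tendsto_id (fun i h0 => absurd rfl h0) hx0 hlx
  simp only [id] at hlimA
  -- the other side
  have hlimB : Tendsto (fun i => QT α ζ t (fun z => dt α ζ s (y - z)) (xs (ψ i) / a (n (φ (ψ i)))))
      atTop (𝓝 (QT α ζ t (fun z => dt α ζ s (y - z)) x)) :=
    (((QT_BCo hda ht hf).cont x hx0).continuousAt (Ioi_mem_nhds hx0)).tendsto.comp hlx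
  have hd1 := Metric.tendsto_atTop.mp hlimA (η / 4) (by linarith)
  have hd2 := Metric.tendsto_atTop.mp hlimB (η / 4) (by linarith)
  obtain ⟨N1, hN1⟩ := hd1
  obtain ⟨N2, hN2⟩ := hd2
  obtain ⟨i, hi1, hi2, hi3⟩ := ((eventually_ge_atTop N1).and
    ((eventually_ge_atTop N2).and (hclose (η / 4) (by linarith)))).exists
  have e1 := hN1 i hi1
  have e2 := hN2 i hi2
  rw [Real.dist_eq] at e1 e2
  have hxp : 0 < xs (ψ i) / a (n (φ (ψ i))) := lt_of_lt_of_le hε (hmem (ψ i)).1.1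
  have e3 := L2b_QT_sub hda ht (L2b_BCo hss hα hMb (us (ψ i) / a (n (φ (ψ i))))) hf hxp
    (fun z _ => hi3 z)
  have e4 := hbad (ψ i)
  rw [abs_lt] at e1 e2
  rw [abs_le] at e3
  rw [lt_abs] at e4
  rcases e4 with e4 | e4
  · linarith [e1.1, e1.2, e2.1, e2.2, e3.1, e3.2]
  · linarith [e1.1, e1.2, e2.1, e2.2, e3.1, e3.2]

/-- step (i) -/
lemma L2b_cover (hda : DA α ζ ρ a) (hD : Dom D) {r : ℝ} (hr : 0 < r) {L : ℝ} :
    ∀ ε > (0 : ℝ), ∃ δ > (0 : ℝ), ∀ᶠ n : ℕ in atTop, ∀ m : ℕ, (m : ℝ) ≤ δ * n → ∀ x u w : ℝ,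
      r * a n ≤ u → w ≤ u + L →
      |a n * (fre ρ m x).real (IV D u w) - a n * (kap D ρ m x).real (IV D u w)| ≤ ε := by
  intro ε hε
  have hp := hda.prob
  have hpos := hda.pos
  set N : ℕ := ⌊L⌋₊ + 1 with hN
  have hN0 : (0 : ℝ) < N := by positivity
  obtain ⟨δ, hδ, h1⟩ := L1_return hda hD hr (ε / N) (by positivity)
  refine ⟨δ, hδ, ?_⟩
  filter_upwards [h1] with n hn m hm x u w hu hw
  set J := IV D u w with hJ
  have hJm : MeasurableSet J := measurableSet_IV hD u w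
  have hJs : J ⊆ Set.Icc u w := IV_subset hD u w
  set Ji : ℕ → Set ℝ := fun i => J ∩ Set.Ico (u + i) (u + i + 1) with hJi
  have hJim : ∀ i, MeasurableSet (Ji i) := fun i => hJm.inter measurableSet_Ico
  have hU : J = ⋃ i ∈ Finset.range N, Ji i := by
    ext y
    simp only [hJi, Set.mem_iUnion, Finset.mem_range, Set.mem_inter_iff, exists_prop]
    constructor
    · intro hy
      have h2 := hJs hy
      refine ⟨⌊y - u⌋₊, ?_, hy, ?_, ?_⟩
      · have h3 : ⌊y - u⌋₊ ≤ ⌊L⌋₊ := Nat.floor_mono (by linarith [h2.2])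
        omega
      · have := Nat.floor_le (show 0 ≤ y - u by linarith [h2.1])
        linarith
      · have := Nat.lt_floor_add_one (y - u)
        linarith
    · rintro ⟨i, _, hy, _⟩
      exact hy
  have hdis : Set.PairwiseDisjoint (↑(Finset.range N)) Ji := by
    intro i _ j _ hij
    rw [Function.onFun, Set.disjoint_left]
    rintro y ⟨_, h2⟩ ⟨_, h3⟩
    have h4 : (i : ℝ) < j + 1 := by linarith [h2.1, h3.2]
    have h5 : (j : ℝ) < i + 1 := by linarith [h3.1, h2.2]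
    have h6 : i < j + 1 := by exact_mod_cast h4
    have h7 : j < i + 1 := by exact_mod_cast h5
    omega
  have e1 : (fre ρ m x).real J = ∑ i ∈ Finset.range N, (fre ρ m x).real (Ji i) := by
    conv_lhs => rw [hU]
    exact measureReal_biUnion_finset hdis (fun i _ => hJim i)
  have e2 : (kap D ρ m x).real J = ∑ i ∈ Finset.range N, (kap D ρ m x).real (Ji i) := by
    conv_lhs => rw [hU]
    exact measureReal_biUnion_finset hdis (fun i _ => hJim i)
  have e3 : ∀ i ∈ Finset.range N, |a n * (fre ρ m x).real (Ji i) - a n * (kap D ρ m x).real (Ji i)| ≤ ε / N := by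
    intro i _
    have hi : (0 : ℝ) ≤ i := by positivity
    have h2 := hn m hm x (u + i) (by linarith) (Ji i) (hJim i)
      (fun y hy => ⟨hy.2.1, hy.2.2.le⟩)
    have h3 := mul_le_mul_of_nonneg_left h2.2 (hpos n).le
    rw [mul_div_cancel₀ _ (hpos n).ne', mul_sub] at h3
    have h4 := mul_le_mul_of_nonneg_left h2.1 (hpos n).le
    rw [abs_le]
    constructor
    · have : 0 < ε / N := by positivity
      linarith
    · exact h3
  rw [e1, e2, Finset.mul_sum, Finset.mul_sum, ← Finset.sum_sub_distrib]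
  refine (Finset.abs_sum_le_sum_abs _ _).trans ((Finset.sum_le_sum e3).trans ?_)
  rw [Finset.sum_const, Finset.card_range, nsmul_eq_mul]
  rw [mul_div_cancel₀ _ hN0.ne']

/-- **[STB-L2b]** PROOF. Split `k_j = (k_j - m_j) + m_j`, `m_j = ⌊s n_j⌋`. By the Markov property
`(kap k x)(J) = ∫ (kap m z)(J) ∂(kap (k-m) x)(z)` (`kap_add_apply`). (i) `0 ≤ a_n (fre m z)(J) - a_n (kap m z)(J) ≤ (L + 2) κ'` for
`s ≤ s₀(κ')` by `L1_return` (`r = ε`; cover `J ⊆ Icc u (u + L)` by `L + 1` unit windows). (ii) `L2_free` along `m_j`: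
`a_n (fre m z)(J) = lam h (z + m b)(J) dt s ((u - z)/a_n) + o(1)` uniformly in `z`, and `lam h (z + m b) = lam h (x + k b)` for
`kap (k-m) x`-almost all `z` (`ae_kap`, `lam_congr`/`lam_periodic`). (iii) it remains to compare
`∫ dt s ((u - z)/a_n) ∂(kap (k-m) x)(z)` with `QT (t-s) (fun z => dt s (u/a_n - z)) (x/a_n)` uniformly for `x/a_n, u/a_n ∈ [ε, 1/ε]`: by
contradiction and compactness take sequences with `u_j/a_n → y`, `x_j/a_n → x`; `F_j z = dt s ((u_j - z)/a_n)` converges (UC, `h = 0`) to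
`z ↦ dt s (y - z)`, use `kap_UC` (`Tm` with `t - s > 0`), `UC.seq`; and `QT (t-s) (dt s (u_j/a_n - ·)) (x_j/a_n) → QT (t-s) (dt s (y - ·)) x`
because `dt s (u_j/a_n - ·) → dt s (y - ·)` uniformly (`QT_abs_le`) and `QT (t-s) (dt s (y-·))` is continuous (`QT_BCo`). -/
theorem L2_pre (hda : DA α ζ ρ a) (hD : Dom D) {b h : ℝ} (hL : LatS ζ ρ a b h) {n k : ℕ → ℕ} {t : ℝ}
    (hT : Tm n k t) (ht : 0 < t) {L : ℝ} (hL0 : 0 < L) : ∀ ε > (0 : ℝ), ∀ κ > (0 : ℝ), ∃ s₀ > (0 : ℝ), s₀ < t ∧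
    ∀ s, 0 < s → s ≤ s₀ → ∀ᶠ j in atTop, ∀ x u w : ℝ, ε * a (n j) ≤ x → x ≤ a (n j) / ε →
      ε * a (n j) ≤ u → u ≤ a (n j) / ε → u ≤ w → w ≤ u + L →
      |a (n j) * (kap D ρ (k j) x).real (IV D u w) - (lam h (x + k j * b)).real (IV D u w) *
        QT α ζ (t - s) (fun z => dt α ζ s (u / a (n j) - z)) (x / a (n j))| ≤ κ := by
  intro ε hε κ hκ
  have hp := hda.prob
  have hpos := hda.pos
  have hα := hda.one
  have hss := hda.ss
  have hh := hL.nonneg
  obtain ⟨δ, hδ, h1⟩ := L2b_cover hda hD (L := L) hε (κ / 4) (by linarith)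
  refine ⟨min (t / 2) δ, lt_min (by linarith) hδ, lt_of_le_of_lt (min_le_left _ _) (by linarith), ?_⟩
  intro s hs hs0
  have hst : s < t := lt_of_le_of_lt (hs0.trans (min_le_left _ _)) (by linarith)
  have hsδ : s ≤ δ := hs0.trans (min_le_right _ _)
  obtain ⟨M, hM, hMb⟩ := L2b_dt_bdd hss hα s
  -- the short times
  set m : ℕ → ℕ := fun j => ⌊s * n j⌋₊ with hm
  have hTm : Tm n m s := Tm.floor hT.top hs.le
  have hnpos : ∀ᶠ j in atTop, 0 < n j := (hT.top.eventually_gt_atTop 0)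
  have hmk : ∀ᶠ j in atTop, m j ≤ k j := by
    filter_upwards [hT.lim.eventually (lt_mem_nhds hst), hnpos] with j hj hn
    have hn' : (0 : ℝ) < n j := by exact_mod_cast hn
    rw [lt_div_iff₀ hn'] at hj
    have : (m j : ℝ) ≤ s * n j := Nat.floor_le (by positivity)
    exact_mod_cast (this.trans hj.le)
  have hTd : Tm n (fun j => k j - m j) (t - s) := Tm.sub' hT hTm hmk
  have hLh : 0 < L + h + 1 := by linarith
  have h2 := L2b_unif hda hD hTd (by linarith) hs hε (κ / (4 * (L + h + 1))) (by positivity)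
  have h3 := L2_free hda hD hL hTm hs hL0 (κ / 4) (by linarith)
  filter_upwards [hT.top.eventually h1, h2, h3, hmk, hnpos] with j h1 h2 h3 hmk hn x u w hx1 hx2 hu1 hu2 huw hw
  set J := IV D u w with hJ
  have hJm : MeasurableSet J := measurableSet_IV hD u w
  set lJ := (lam h (x + k j * b)).real J with hlJ
  have hl0 : 0 ≤ lJ := measureReal_nonneg
  have hl1 : lJ ≤ L + h := by
    refine (lam_IV_le hD h _ hh u w).trans ?_
    have : max 0 (w - u) ≤ L := max_le hL0.le (by linarith)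
    linarith
  have hkm : k j - m j + m j = k j := Nat.sub_add_cancel hmk
  have hmd : (m j : ℝ) ≤ δ * n j := by
    have h4 : (m j : ℝ) ≤ s * n j := Nat.floor_le (by positivity)
    have h5 : s * n j ≤ δ * n j := mul_le_mul_of_nonneg_right hsδ (by positivity)
    linarith
  -- Markov
  have hmarkov : (kap D ρ (k j) x).real J = ∫ z, (kap D ρ (m j) z).real J ∂(kap D ρ (k j - m j) x) := by
    have h4 := integral_kap_add hD (ρ := ρ) (k j - m j) (m j) x (J.indicator fun _ => (1 : ℝ))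
      (measurable_const.indicator hJm) 1 (fun y => by
        by_cases hy : y ∈ J
        · simp [hy]
        · simp [hy])
    rw [hkm] at h4
    have h5 : ∀ μ : Measure ℝ, ∫ z, J.indicator (fun _ => (1 : ℝ)) z ∂μ = μ.real J := by
      intro μ
      rw [integral_indicator hJm]
      simp
    simp only [h5] at h4
    exact h4
  have hae : ∀ᵐ z ∂(kap D ρ (k j - m j) x), ‖a (n j) * (kap D ρ (m j) z).real J -
      lJ * dt α ζ s ((u - z) / a (n j))‖ ≤ κ / 2 := by
    filter_upwards [ae_kap hD (ρ := ρ) b h hL.step (k j - m j) x] with z hz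
    have h4 := h1 (m j) hmd z u w hu1 hw
    have h5 := h3 z u w huw hw
    have h6 : lam h (z + m j * b) = lam h (x + k j * b) := by
      apply lam_congr
      intro h0
      obtain ⟨i, hi⟩ := hz h0
      refine ⟨i, ?_⟩
      rw [hi]
      have h7 : ((k j - m j : ℕ) : ℝ) + m j = k j := by exact_mod_cast hkm
      rw [← h7]
      ring
    rw [h6] at h5
    rw [Real.norm_eq_abs, abs_le]
    rw [abs_le] at h4 h5
    constructor
    · linarith [h4.1, h4.2, h5.1, h5.2]
    · linarith [h4.1, h4.2, h5.1, h5.2]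
  have hmeas1 : Measurable fun z => (kap D ρ (m j) z).real J := by
    have := (Measure.measurable_coe hJm).comp (measurable_kap hD (ρ := ρ) (m j))
    exact this.ennreal_toReal
  have hint1 : Integrable (fun z => a (n j) * (kap D ρ (m j) z).real J) (kap D ρ (k j - m j) x) := by
    refine Integrable.const_mul ?_ _
    refine Integrable.of_bound hmeas1.aestronglyMeasurable 1 (Eventually.of_forall fun z => ?_)
    rw [Real.norm_eq_abs, abs_of_nonneg measureReal_nonneg]
    unfold Measure.real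
    refine ENNReal.toReal_le_of_le_ofReal zero_le_one ?_
    rw [ENNReal.ofReal_one]
    exact (measure_mono (Set.subset_univ _)).trans (kap_univ_le_one _ _)
  have hint2 : Integrable (fun z => lJ * dt α ζ s ((u - z) / a (n j))) (kap D ρ (k j - m j) x) := by
    refine Integrable.const_mul ?_ _
    refine Integrable.of_bound ?_ M (Eventually.of_forall fun z => ?_)
    · exact ((L2b_dt_cont hss hα s).comp ((continuous_const.sub continuous_id).div_const _)).aestronglyMeasurable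
    · rw [Real.norm_eq_abs]
      exact hMb _
  have hA : |a (n j) * (kap D ρ (k j) x).real J -
      lJ * ∫ z, dt α ζ s ((u - z) / a (n j)) ∂(kap D ρ (k j - m j) x)| ≤ κ / 2 := by
    rw [hmarkov, ← integral_const_mul, ← integral_const_mul, ← integral_sub hint1 hint2]
    have h4 := norm_integral_le_of_norm_le_const hae
    have h5 : (kap D ρ (k j - m j) x).real Set.univ ≤ 1 := by
      unfold Measure.real
      refine ENNReal.toReal_le_of_le_ofReal zero_le_one ?_
      rw [ENNReal.ofReal_one]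
      exact kap_univ_le_one _ _
    have h6 : κ / 2 * (kap D ρ (k j - m j) x).real Set.univ ≤ κ / 2 * 1 :=
      mul_le_mul_of_nonneg_left h5 (by linarith)
    rw [Real.norm_eq_abs] at h4
    linarith
  have hB := h2 x u hx1 hx2 hu1 hu2
  have hC : |lJ * (∫ z, dt α ζ s ((u - z) / a (n j)) ∂(kap D ρ (k j - m j) x)) - lJ *
      QT α ζ (t - s) (fun z => dt α ζ s (u / a (n j) - z)) (x / a (n j))| ≤ κ / 4 := by
    rw [← mul_sub, abs_mul, abs_of_nonneg hl0]
    calc lJ * |_| ≤ (L + h + 1) * (κ / (4 * (L + h + 1))) :=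
          mul_le_mul (by linarith) hB (abs_nonneg _) hLh.le
      _ = κ / 4 := by
          field_simp
  rw [abs_le] at hA hC ⊢
  constructor
  · linarith [hA.1, hA.2, hC.1, hC.2]
  · linarith [hA.1, hA.2, hC.1, hC.2]

end Pool.Agent.BPT
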