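import Pool.Agent.MP_99a865_pr.ST.L2b

/-! **[STB-L2c]** Local limit theorem for the killed walk. -/

open MeasureTheory ProbabilityTheory Filter Topology
open scoped ENNReal NNReal

namespace Pool.Agent.BPT

variable {α : ℝ} {ζ ρ : Measure ℝ} {a : ℕ → ℝ} {D : Set ℝ}

/-- the length of a window with exactly one lattice point -/
noncomputable def L2c_len (σ : ℝ) : ℝ := if σ = 0 then 1 else σ

lemma L2c_len_pos {σ : ℝ} (hσ : 0 ≤ σ) : 0 < L2c_len σ := by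
  unfold L2c_len
  split_ifs with h
  · exact one_pos
  · exact lt_of_le_of_ne hσ (Ne.symm h)

/-- a half-open window of length `L2c_len σ` has mass `L2c_len σ` -/
lemma L2c_lam {σ : ℝ} (hσ : 0 ≤ σ) (c u : ℝ) :
    (lam σ c).real (IV (Set.Ioi 0) u (u + L2c_len σ)) = L2c_len σ := by
  have hIV : ∀ w, IV (Set.Ioi (0 : ℝ)) u w = Set.Ioc u w := by
    intro w
    ext y
    simp only [IV, Set.mem_setOf_eq, Set.mem_Ioi, sub_pos, not_lt, Set.mem_Ioc]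
  unfold L2c_len
  split_ifs with h0
  · rw [hIV, h0, lam_zero, Measure.real, Real.volume_Ioc]
    simp
  · have hpos : 0 < σ := lt_of_le_of_ne hσ (Ne.symm h0)
    obtain ⟨j₀, hj₀, huniq⟩ := existsUnique_add_zsmul_mem_Ioc hpos c u
    have h1 := C2_lam σ c hpos (IV (Set.Ioi 0) u (u + σ)) (measurableSet_IV (Or.inr rfl) _ _) {j₀} (by
      intro j
      rw [hIV, Finset.mem_singleton]
      constructor
      · rintro rfl
        simpa [mul_comm] using hj₀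
      · intro hj
        exact huniq j (by simpa [mul_comm] using hj))
    rw [h1]
    simp

/-- a Cauchy criterion at `0+` with the limit `limUnder` -/
lemma L2c_cauchy {G : ℝ → ℝ} (hG : ∀ κ > (0 : ℝ), ∃ s₀ > (0 : ℝ), ∀ s s', 0 < s → s ≤ s₀ → 0 < s' → s' ≤ s₀ →
    |G s - G s'| ≤ κ) : Tendsto G (𝓝[>] (0 : ℝ)) (𝓝 (limUnder (𝓝[>] (0 : ℝ)) G)) := by
  refine tendsto_nhds_limUnder ?_
  refine cauchy_map_iff_exists_tendsto.1 ?_
  rw [Metric.cauchy_iff]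
  refine ⟨inferInstance, fun ε hε => ?_⟩
  obtain ⟨s₀, hs₀, h⟩ := hG (ε / 2) (by positivity)
  refine ⟨G '' (Set.Ioc 0 s₀), image_mem_map (Ioc_mem_nhdsGT hs₀), ?_⟩
  rintro _ ⟨s, hs, rfl⟩ _ ⟨s', hs', rfl⟩
  rw [Real.dist_eq]
  exact lt_of_le_of_lt (h s s' hs.1 hs.2 hs'.1 hs'.2) (by linarith)

/-- uniform Cauchy property -/
lemma L2c_pre (hda : DA α ζ ρ a) {t : ℝ} (ht : 0 < t) : ∀ ε > (0 : ℝ), ∀ κ > (0 : ℝ), ∃ s₀ > (0 : ℝ), s₀ < t ∧
    ∀ s s', 0 < s → s ≤ s₀ → 0 < s' → s' ≤ s₀ → ∀ x y : ℝ, ε ≤ x → x ≤ 1 / ε → ε ≤ y → y ≤ 1 / ε →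
      |QT α ζ (t - s) (fun z => dt α ζ s (y - z)) x - QT α ζ (t - s') (fun z => dt α ζ s' (y - z)) x| ≤ κ := by
  intro ε hε κ hκ
  obtain ⟨b, σ, hL⟩ := hda.exists_lat
  have hlen := L2c_len_pos hL.nonneg
  set L := L2c_len σ with hLdef
  have hT : Tm (fun j => j) (fun j => ⌊t * (j : ℝ)⌋₊) t := Tm.floor tendsto_id ht.le
  obtain ⟨s₀, hs₀, hs₀t, H⟩ := L2_pre hda (Or.inr rfl : Dom (Set.Ioi 0)) hL hT ht hlen ε hε (κ * L / 2)
    (by positivity)
  refine ⟨s₀, hs₀, hs₀t, ?_⟩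
  intro s s' hs1 hs2 hs1' hs2' x y hx1 hx2 hy1 hy2
  obtain ⟨j, h1, h2⟩ := ((H s hs1 hs2).and (H s' hs1' hs2')).exists
  have haj := hda.pos j
  have e1 : x * a j / a j = x := by field_simp
  have e2 : y * a j / a j = y := by field_simp
  have r1 : ε * a j ≤ x * a j := mul_le_mul_of_nonneg_right hx1 haj.le
  have r2 : x * a j ≤ a j / ε := by
    have := mul_le_mul_of_nonneg_right hx2 haj.le
    rwa [one_div_mul_eq_div] at this
  have r3 : ε * a j ≤ y * a j := mul_le_mul_of_nonneg_right hy1 haj.le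
  have r4 : y * a j ≤ a j / ε := by
    have := mul_le_mul_of_nonneg_right hy2 haj.le
    rwa [one_div_mul_eq_div] at this
  have g1 := h1 (x * a j) (y * a j) (y * a j + L) r1 r2 r3 r4 (by linarith) le_rfl
  have g2 := h2 (x * a j) (y * a j) (y * a j + L) r1 r2 r3 r4 (by linarith) le_rfl
  rw [hLdef, L2c_lam hL.nonneg, ← hLdef, e1, e2] at g1 g2
  set A := a j * (kap (Set.Ioi 0) ρ ⌊t * (j : ℝ)⌋₊ (x * a j)).real (IV (Set.Ioi 0) (y * a j) (y * a j + L)) with hA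
  set P := QT α ζ (t - s) (fun z => dt α ζ s (y - z)) x with hP
  set P' := QT α ζ (t - s') (fun z => dt α ζ s' (y - z)) x with hP'
  have g3 : |L * P - L * P'| ≤ κ * L := by
    calc |L * P - L * P'| = |(A - L * P') - (A - L * P)| := by
          congr 1
          ring
      _ ≤ |A - L * P'| + |A - L * P| := abs_sub _ _
      _ ≤ κ * L / 2 + κ * L / 2 := add_le_add g2 g1
      _ = κ * L := by ring
  rw [← mul_sub, abs_mul, abs_of_pos hlen, mul_comm] at g3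
  exact le_of_mul_le_mul_right g3 hlen

/-- **[STB-L2c]** Existence of the density, uniformly on compacts. PROOF. Apply `L2_pre` with `n_j = j`, `k_j = ⌊t j⌋`, `D = Ioi 0`, `(b, h)` from
`DA.exists_lat` (`h` called `σ` here), `L = 1` if `σ = 0` and `L = σ` if `σ > 0`: for `u` arbitrary
`(lam σ c).real (IV D u (u + L)) = L` (one lattice point, weight `σ`). So for `s, s' ≤ s₀` and `x, y ∈ [ε, 1/ε]` (`x_j = x a_j`, `u_j = y a_j`)
`L |G_s(x,y) - G_{s'}(x,y)| ≤ 2κ` with `G_s(x, y) = QT (t-s) (fun z => dt s (y - z)) x`: Cauchy as `s → 0+`. -/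
theorem L2_rate (hda : DA α ζ ρ a) {t : ℝ} (ht : 0 < t) : ∀ ε > (0 : ℝ), ∀ κ > (0 : ℝ), ∃ s₀ > (0 : ℝ), s₀ < t ∧
    ∀ s, 0 < s → s ≤ s₀ → ∀ x y : ℝ, ε ≤ x → x ≤ 1 / ε → ε ≤ y → y ≤ 1 / ε →
      |QT α ζ (t - s) (fun z => dt α ζ s (y - z)) x - qT α ζ t x y| ≤ κ := by
  intro ε hε κ hκ
  obtain ⟨s₀, hs₀, hs₀t, H⟩ := L2c_pre hda ht ε hε κ hκ
  refine ⟨s₀, hs₀, hs₀t, ?_⟩
  intro s hs1 hs2 x y hx1 hx2 hy1 hy2
  have hlim : Tendsto (fun s => QT α ζ (t - s) (fun z => dt α ζ s (y - z)) x) (𝓝[>] (0 : ℝ))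
      (𝓝 (qT α ζ t x y)) := by
    refine L2c_cauchy ?_
    intro κ' hκ'
    obtain ⟨s₁, hs₁, _, H'⟩ := L2c_pre hda ht ε hε κ' hκ'
    exact ⟨s₁, hs₁, fun s s' h1 h2 h3 h4 => H' s s' h1 h2 h3 h4 x y hx1 hx2 hy1 hy2⟩
  have h2 : Tendsto (fun s' => |QT α ζ (t - s) (fun z => dt α ζ s (y - z)) x -
      QT α ζ (t - s') (fun z => dt α ζ s' (y - z)) x|) (𝓝[>] (0 : ℝ))
      (𝓝 (|QT α ζ (t - s) (fun z => dt α ζ s (y - z)) x - qT α ζ t x y|)) :=
    (tendsto_const_nhds.sub hlim).abs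
  refine le_of_tendsto h2 ?_
  filter_upwards [Ioc_mem_nhdsGT hs₀] with s' hs'
  exact H s s' hs1 hs2 hs'.1 hs'.2 x y hx1 hx2 hy1 hy2

/-- **[STB-L2]** Killed local limit theorem (`L2_pre`, `L2_rate`, `(lam ..).real (IV D u w) ≤ L + h`). -/
theorem kllt (hda : DA α ζ ρ a) (hD : Dom D) {b h : ℝ} (hL : LatS ζ ρ a b h) {n k : ℕ → ℕ} {t : ℝ}
    (hT : Tm n k t) (ht : 0 < t) {L : ℝ} (hL0 : 0 < L) : ∀ ε > (0 : ℝ), ∀ κ > (0 : ℝ),
    ∀ᶠ j in atTop, ∀ x u w : ℝ, ε * a (n j) ≤ x → x ≤ a (n j) / ε →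
      ε * a (n j) ≤ u → u ≤ a (n j) / ε → u ≤ w → w ≤ u + L →
      |a (n j) * (kap D ρ (k j) x).real (IV D u w) - (lam h (x + k j * b)).real (IV D u w) *
        qT α ζ t (x / a (n j)) (u / a (n j))| ≤ κ := by
  intro ε hε κ hκ
  have hLh : 0 < L + h := by linarith [hL.nonneg]
  obtain ⟨s₀, hs₀, hs₀t, H⟩ := L2_pre hda hD hL hT ht hL0 ε hε (κ / 2) (by positivity)
  obtain ⟨s₁, hs₁, hs₁t, H'⟩ := L2_rate hda ht ε hε (κ / (2 * (L + h))) (by positivity)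
  have hs : 0 < min s₀ s₁ := lt_min hs₀ hs₁
  filter_upwards [H (min s₀ s₁) hs (min_le_left _ _)] with j hj x u w hx1 hx2 hu1 hu2 huw hwL
  have haj := hda.pos (n j)
  have g1 := hj x u w hx1 hx2 hu1 hu2 huw hwL
  have g2 := H' (min s₀ s₁) hs (min_le_right _ _) (x / a (n j)) (u / a (n j))
    (by rwa [le_div_iff₀ haj]) (by
      rw [div_le_iff₀ haj, one_div_mul_eq_div]
      exact hx2)
    (by rwa [le_div_iff₀ haj]) (by
      rw [div_le_iff₀ haj, one_div_mul_eq_div]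
      exact hu2)
  set A := a (n j) * (kap D ρ (k j) x).real (IV D u w) with hA
  set P := QT α ζ (t - min s₀ s₁) (fun z => dt α ζ (min s₀ s₁) (u / a (n j) - z)) (x / a (n j)) with hP
  set q := qT α ζ t (x / a (n j)) (u / a (n j)) with hq
  set m := (lam h (x + k j * b)).real (IV D u w) with hm
  have hm0 : 0 ≤ m := measureReal_nonneg
  have hm1 : m ≤ L + h := by
    refine (lam_IV_le hD h (x + k j * b) hL.nonneg u w).trans ?_
    rw [max_eq_right (by linarith)]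
    linarith
  have g3 : m * |P - q| ≤ κ / 2 := by
    calc m * |P - q| ≤ (L + h) * (κ / (2 * (L + h))) := mul_le_mul hm1 g2 (abs_nonneg _) hLh.le
      _ = κ / 2 := by field_simp
  calc |A - m * q| = |(A - m * P) + m * (P - q)| := by
        congr 1
        ring
    _ ≤ |A - m * P| + |m * (P - q)| := abs_add_le _ _
    _ = |A - m * P| + m * |P - q| := by rw [abs_mul, abs_of_nonneg hm0]
    _ ≤ κ := by linarith

end Pool.Agent.BPT
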