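import Pool.Agent.MP_99a865_pr.ST.L2c
import Pool.Agent.MP_99a865_pr.CV.K1

/-! **[STB-L3a]** Properties of the density of the killed semigroup. -/

open MeasureTheory ProbabilityTheory Filter Topology
open scoped ENNReal NNReal

namespace Pool.Agent.BPT

variable {α : ℝ} {ζ ρ : Measure ℝ} {a : ℕ → ℝ} {D : Set ℝ}

/-- uniform continuity of the density -/
private lemma L3a_unif (h : SS α ζ) (hα : 1 < α) : ∀ η > (0 : ℝ), ∃ δ > (0 : ℝ), ∀ x y : ℝ, |x - y| ≤ δ →
    |dens ζ x - dens ζ y| ≤ η := by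
  have hint : Integrable (charFun ζ) := h.charFun_int hα
  set g : ℝ → ℝ := fun d => ∫ s : ℝ, ‖Complex.exp (-(s * d) * Complex.I) - 1‖ * ‖charFun ζ s‖ with hg
  have hcont : Continuous g := by
    rw [hg]
    refine continuous_of_dominated (bound := fun s => 2 * ‖charFun ζ s‖) ?_ ?_ (hint.norm.const_mul 2) ?_
    · intro d
      refine AEStronglyMeasurable.mul ?_ hint.norm.aestronglyMeasurable
      exact (Continuous.aestronglyMeasurable (by fun_prop))
    · intro d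
      refine Eventually.of_forall fun s => ?_
      rw [Real.norm_of_nonneg (by positivity)]
      refine mul_le_mul_of_nonneg_right ?_ (norm_nonneg _)
      have h1 : ‖Complex.exp (-(s * d) * Complex.I)‖ = 1 := by
        have : (-(s * d) * Complex.I : ℂ) = ((-(s * d) : ℝ) : ℂ) * Complex.I := by push_cast; ring
        rw [this, Complex.norm_exp_ofReal_mul_I]
      calc _ ≤ ‖Complex.exp (-(s * d) * Complex.I)‖ + ‖(1:ℂ)‖ := norm_sub_le _ _
        _ = 2 := by rw [h1]; norm_num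
    · refine Eventually.of_forall fun s => ?_
      fun_prop
  have hg0 : g 0 = 0 := by simp [hg]
  have hle : ∀ x y : ℝ, |dens ζ x - dens ζ y| ≤ g (x - y) := by
    intro x y
    have hi : ∀ z : ℝ, Integrable (fun s : ℝ => Complex.exp (-(s * z) * Complex.I) * charFun ζ s) := by
      intro z
      refine hint.bdd_mul (c := 1) (Continuous.aestronglyMeasurable (by fun_prop)) ?_
      refine Eventually.of_forall fun s => ?_
      have : (-(s * z) * Complex.I : ℂ) = ((-(s * z) : ℝ) : ℂ) * Complex.I := by push_cast; ring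
      rw [this, Complex.norm_exp_ofReal_mul_I]
    unfold dens
    rw [← sub_div, ← Complex.sub_re, ← integral_sub (hi x) (hi y), abs_div]
    have h1 : |(∫ s : ℝ, (Complex.exp (-(s * x) * Complex.I) * charFun ζ s -
        Complex.exp (-(s * y) * Complex.I) * charFun ζ s)).re| ≤ g (x - y) := by
      refine (Complex.abs_re_le_norm _).trans ?_
      refine (norm_integral_le_integral_norm _).trans (le_of_eq ?_)
      rw [hg]
      refine integral_congr_ae (Eventually.of_forall fun s => ?_)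
      simp only
      have e1 : Complex.exp (-(s * x) * Complex.I) * charFun ζ s - Complex.exp (-(s * y) * Complex.I) * charFun ζ s =
          Complex.exp (-(s * y) * Complex.I) * (Complex.exp (-(s * (x - y : ℝ)) * Complex.I) - 1) * charFun ζ s := by
        have : Complex.exp (-(s * x) * Complex.I) = Complex.exp (-(s * y) * Complex.I) *
            Complex.exp (-(s * (x - y : ℝ)) * Complex.I) := by
          rw [← Complex.exp_add]
          congr 1
          push_cast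
          ring
        rw [this]
        ring
      rw [e1, norm_mul, norm_mul]
      have : (-(s * y) * Complex.I : ℂ) = ((-(s * y) : ℝ) : ℂ) * Complex.I := by push_cast; ring
      rw [this, Complex.norm_exp_ofReal_mul_I, one_mul]
    have h2 : (1:ℝ) ≤ |2 * Real.pi| := by
      rw [abs_of_pos (by positivity)]
      have := Real.pi_gt_three
      linarith
    have h3 : 0 ≤ g (x - y) := (abs_nonneg _).trans h1
    calc _ ≤ |(∫ s : ℝ, (Complex.exp (-(s * x) * Complex.I) * charFun ζ s -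
        Complex.exp (-(s * y) * Complex.I) * charFun ζ s)).re| / 1 :=
          div_le_div_of_nonneg_left (abs_nonneg _) (by norm_num) h2
      _ ≤ _ := by rw [div_one]; exact h1
  intro η hη
  have h1 := Metric.continuousAt_iff.1 (hcont.continuousAt (x := 0)) η hη
  obtain ⟨δ, hδ, h2⟩ := h1
  refine ⟨δ / 2, by positivity, fun x y hxy => ?_⟩
  have h3 : dist (x - y) 0 < δ := by
    rw [Real.dist_eq, sub_zero]
    linarith
  have h4 := h2 h3
  rw [Real.dist_eq, hg0, sub_zero] at h4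
  exact (hle x y).trans ((le_abs_self _).trans h4.le)

/-- the functions `z ↦ dt s (y - z)` -/
private lemma L3a_BCo (hda : DA α ζ ρ a) {s : ℝ} (hs : 0 < s) : ∃ M > (0 : ℝ), ∀ y : ℝ,
    BCo M (fun z => dt α ζ s (y - z)) := by
  obtain ⟨M, hM, hb⟩ := hda.ss.dens_bdd hda.one
  have hc := hda.ss.dens_cont hda.one
  have hsp : 0 < s ^ (1 / α) := Real.rpow_pos_of_pos hs _
  refine ⟨M / s ^ (1 / α), by positivity, fun y => ⟨fun x _ => ?_, ?_⟩⟩
  · unfold dt
    rw [abs_div, abs_of_pos hsp]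
    exact div_le_div_of_nonneg_right (hb _) hsp.le
  · unfold dt
    exact (by fun_prop : Continuous fun z => dens ζ ((y - z) / s ^ (1 / α)) / s ^ (1 / α)).continuousOn

private lemma L3a_unif_dt (hda : DA α ζ ρ a) {s : ℝ} (hs : 0 < s) : ∀ η > (0 : ℝ), ∃ δ > (0 : ℝ), ∀ x y : ℝ,
    |x - y| ≤ δ → |dt α ζ s x - dt α ζ s y| ≤ η := by
  have hsp : 0 < s ^ (1 / α) := Real.rpow_pos_of_pos hs _
  intro η hη
  obtain ⟨δ, hδ, h⟩ := L3a_unif hda.ss hda.one (η * s ^ (1 / α)) (by positivity)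
  refine ⟨δ * s ^ (1 / α), by positivity, fun x y hxy => ?_⟩
  unfold dt
  rw [← sub_div, abs_div, abs_of_pos hsp, div_le_iff₀ hsp]
  refine h _ _ ?_
  rw [← sub_div, abs_div, abs_of_pos hsp, div_le_iff₀ hsp]
  exact hxy

private lemma L3a_Gcont (hda : DA α ζ ρ a) {t s : ℝ} (hs : 0 < s) (hst : s < t) {x y : ℝ} (hx : 0 < x) :
    ∀ κ > (0 : ℝ), ∃ δ > (0 : ℝ), ∀ x' y' : ℝ, 0 < x' → |x' - x| ≤ δ → |y' - y| ≤ δ →
      |QT α ζ (t - s) (fun z => dt α ζ s (y' - z)) x' - QT α ζ (t - s) (fun z => dt α ζ s (y - z)) x| ≤ κ := by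
  intro κ hκ
  obtain ⟨M, hM, hB⟩ := L3a_BCo hda hs
  obtain ⟨δ₁, hδ₁, h1⟩ := L3a_unif_dt hda hs (κ / 2) (by positivity)
  have hcQ := (QT_BCo hda (t := t - s) (by linarith) (hB y)).cont
  have h2 := Metric.continuousAt_iff.1 (hcQ.continuousAt (Ioi_mem_nhds hx)) (κ / 2) (by positivity)
  obtain ⟨δ₂, hδ₂, h3⟩ := h2
  refine ⟨min δ₁ (δ₂ / 2), by positivity, fun x' y' hx' hxx hyy => ?_⟩
  have h4 : dist x' x < δ₂ := by
    rw [Real.dist_eq]
    have := min_le_right δ₁ (δ₂ / 2)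
    linarith
  have h5 := h3 h4
  rw [Real.dist_eq] at h5
  have hdiff : BCo (κ / 2) (fun z => dt α ζ s (y' - z) - dt α ζ s (y - z)) := by
    refine ⟨fun z _ => h1 _ _ ?_, (hB y').cont.sub (hB y).cont⟩
    have e : y' - z - (y - z) = y' - y := by ring
    rw [e]
    exact hyy.trans (min_le_left _ _)
  have h6 := QT_add hda (t := t - s) (by linarith) (hB y) hdiff hx'
  have e7 : (fun z => dt α ζ s (y - z) + (dt α ζ s (y' - z) - dt α ζ s (y - z))) = fun z => dt α ζ s (y' - z) := by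
    funext z
    ring
  rw [e7] at h6
  have h8 := (QT_BCo hda (t := t - s) (by linarith) hdiff).bd x' hx'
  rw [h6]
  calc |QT α ζ (t - s) (fun z => dt α ζ s (y - z)) x' +
        QT α ζ (t - s) (fun z => dt α ζ s (y' - z) - dt α ζ s (y - z)) x' -
        QT α ζ (t - s) (fun z => dt α ζ s (y - z)) x| =
      |(QT α ζ (t - s) (fun z => dt α ζ s (y - z)) x' - QT α ζ (t - s) (fun z => dt α ζ s (y - z)) x) +
        QT α ζ (t - s) (fun z => dt α ζ s (y' - z) - dt α ζ s (y - z)) x'| := by congr 1; ring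
    _ ≤ _ := abs_add_le _ _
    _ ≤ κ / 2 + κ / 2 := add_le_add h5.le h8
    _ = κ := by ring

/-- **[STB-L3a]** PROOF. By `L2_rate` it is a locally uniform limit of `(x, y) ↦ QT (t-s) (fun z => dt s (y - z)) x`, which is continuous on
`(0,∞)²`: `QT_BCo` in `x`, and `|QT (t-s) (dt s (y - ·)) x - QT (t-s) (dt s (y' - ·)) x| ≤ sup_z |dt s (y-z) - dt s (y'-z)|`
(`QT_abs_le`, `QT_add`), `dens ζ` uniformly continuous. -/
theorem qT_cont (hda : DA α ζ ρ a) {t : ℝ} (ht : 0 < t) :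
    ContinuousOn (fun p : ℝ × ℝ => qT α ζ t p.1 p.2) (Set.Ioi 0 ×ˢ Set.Ioi 0) := by
  rintro ⟨x, y⟩ ⟨hx, hy⟩
  have hx : 0 < x := hx
  have hy : 0 < y := hy
  refine ContinuousAt.continuousWithinAt ?_
  rw [Metric.continuousAt_iff]
  intro κ hκ
  -- choose ε
  obtain ⟨ε, hε, hεx, hεx', hεy, hεy'⟩ : ∃ ε > (0:ℝ), 2 * ε ≤ x ∧ x + 1 ≤ 1 / ε ∧ 2 * ε ≤ y ∧ y + 1 ≤ 1 / ε := by
    refine ⟨min (min (x / 2) (1 / (x + 1))) (min (y / 2) (1 / (y + 1))), by positivity, ?_, ?_, ?_, ?_⟩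
    · have := (min_le_left (min (x / 2) (1 / (x + 1))) (min (y / 2) (1 / (y + 1)))).trans (min_le_left _ _)
      linarith
    · rw [le_one_div (by positivity) (by positivity)]
      exact (min_le_left _ _).trans (min_le_right _ _)
    · have := (min_le_right (min (x / 2) (1 / (x + 1))) (min (y / 2) (1 / (y + 1)))).trans (min_le_left _ _)
      linarith
    · rw [le_one_div (by positivity) (by positivity)]
      exact (min_le_right _ _).trans (min_le_right _ _)
  obtain ⟨s, hs, hst, h1⟩ := L2_rate hda ht ε hε (κ / 4) (by positivity)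
  have h1' := h1 s hs le_rfl
  obtain ⟨δ, hδ, h2⟩ := L3a_Gcont hda hs hst (y := y) hx (κ / 4) (by positivity)
  refine ⟨min δ (min ε 1), by positivity, ?_⟩
  rintro ⟨x', y'⟩ hd
  rw [Prod.dist_eq, max_lt_iff, Real.dist_eq, Real.dist_eq] at hd
  simp only at hd
  have d1 : |x' - x| ≤ δ := hd.1.le.trans (min_le_left _ _)
  have d2 : |y' - y| ≤ δ := hd.2.le.trans (min_le_left _ _)
  have d3 : |x' - x| ≤ ε := hd.1.le.trans ((min_le_right _ _).trans (min_le_left _ _))
  have d4 : |y' - y| ≤ ε := hd.2.le.trans ((min_le_right _ _).trans (min_le_left _ _))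
  have d5 : |x' - x| ≤ 1 := hd.1.le.trans ((min_le_right _ _).trans (min_le_right _ _))
  have d6 : |y' - y| ≤ 1 := hd.2.le.trans ((min_le_right _ _).trans (min_le_right _ _))
  rw [abs_le] at d3 d4 d5 d6
  have g1 := h1' x y (by linarith) (by linarith) (by linarith) (by linarith)
  have g2 := h1' x' y' (by linarith) (by linarith) (by linarith) (by linarith)
  have g3 := h2 x' y' (by linarith) d1 d2
  rw [Real.dist_eq]
  simp only
  rw [abs_le] at g1 g2 g3
  rw [abs_lt]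
  constructor
  · linarith [g1.1, g1.2, g2.1, g2.2, g3.1, g3.2]
  · linarith [g1.1, g1.2, g2.1, g2.2, g3.1, g3.2]

theorem qT_nonneg (hda : DA α ζ ρ a) {t : ℝ} (ht : 0 < t) {x y : ℝ} (hx : 0 < x) (hy : 0 < y) :
    0 ≤ qT α ζ t x y := by
  refine le_of_forall_pos_le_add fun κ hκ => ?_
  obtain ⟨ε, hε, hεx, hεx', hεy, hεy'⟩ : ∃ ε > (0:ℝ), ε ≤ x ∧ x ≤ 1 / ε ∧ ε ≤ y ∧ y ≤ 1 / ε := by
    refine ⟨min (min x (1 / x)) (min y (1 / y)), by positivity, ?_, ?_, ?_, ?_⟩
    · exact (min_le_left _ _).trans (min_le_left _ _)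
    · rw [le_one_div (by positivity) (by positivity)]
      exact (min_le_left _ _).trans (min_le_right _ _)
    · exact (min_le_right _ _).trans (min_le_left _ _)
    · rw [le_one_div (by positivity) (by positivity)]
      exact (min_le_right _ _).trans (min_le_right _ _)
  obtain ⟨s, hs, hst, h1⟩ := L2_rate hda ht ε hε κ hκ
  have h2 := h1 s hs le_rfl x y hεx hεx' hεy hεy'
  obtain ⟨M, hM, hB⟩ := L3a_BCo hda hs
  have h3 : 0 ≤ QT α ζ (t - s) (fun z => dt α ζ s (y - z)) x := by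
    refine QT_nonneg hda (by linarith) (hB y) (fun z _ => ?_) hx
    unfold dt
    exact div_nonneg (hda.ss.dens_nonneg hda.one _) (Real.rpow_nonneg hs.le _)
  rw [abs_le] at h2
  linarith [h2.1, h2.2]

/-- one window of length `L` has `lam`-mass `L` -/
private lemma L3a_lam {σ : ℝ} (hσ : 0 ≤ σ) : ∃ L > (0 : ℝ), ∀ c u : ℝ,
    (lam σ c).real (IV (Set.Ioi 0) u (u + L)) = L := by
  have hIV : ∀ u L : ℝ, IV (Set.Ioi 0) u (u + L) = Set.Ioc u (u + L) := by
    intro u L
    ext y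
    simp only [IV, Set.mem_setOf_eq, Set.mem_Ioi, Set.mem_Ioc, not_lt, sub_pos, sub_nonpos]
  rcases hσ.eq_or_lt with h0 | h0
  · refine ⟨1, one_pos, fun c u => ?_⟩
    rw [← h0, hIV]
    simp [lam, Measure.real]
  · refine ⟨σ, h0, fun c u => ?_⟩
    rw [hIV]
    have h1 : σ ≠ 0 := h0.ne'
    unfold lam
    rw [if_neg h1]
    obtain ⟨m, hm, hm2⟩ := existsUnique_add_zsmul_mem_Ioc h0 c u
    have h2 : (Measure.sum fun j : ℤ => Measure.dirac (c + σ * j)) (Set.Ioc u (u + σ)) = 1 := by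
      rw [Measure.sum_apply _ measurableSet_Ioc, tsum_eq_single m]
      · rw [Measure.dirac_apply' _ measurableSet_Ioc, Set.indicator_of_mem]
        · rfl
        · simpa [zsmul_eq_mul, mul_comm] using hm
      · intro j hj
        rw [Measure.dirac_apply' _ measurableSet_Ioc, Set.indicator_of_notMem]
        intro hmem
        exact hj (hm2 j (by simpa [zsmul_eq_mul, mul_comm] using hmem))
    rw [Measure.real, Measure.smul_apply, h2, smul_eq_mul, mul_one, ENNReal.toReal_ofReal h0.le]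

private lemma L3a_cover (μ : Measure ℝ) [IsFiniteMeasure μ] (u B : ℝ) (N : ℕ)
    (hB : ∀ i : ℕ, i ≤ N → μ.real (Set.Icc (u + i) (u + i + 1)) ≤ B) :
    μ.real (Set.Icc u (u + N + 1)) ≤ (N + 1) * B := by
  induction N with
  | zero => simpa using hB 0 le_rfl
  | succ N ih =>
    have h1 := ih fun i hi => hB i (by omega)
    have h2 := hB (N + 1) le_rfl
    have hsub : Set.Icc u (u + ((N + 1 : ℕ) : ℝ) + 1) ⊆
        Set.Icc u (u + N + 1) ∪ Set.Icc (u + ((N + 1 : ℕ) : ℝ)) (u + ((N + 1 : ℕ) : ℝ) + 1) := by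
      intro z hz
      push_cast at hz ⊢
      rcases le_total z (u + N + 1) with h | h
      · exact Or.inl ⟨hz.1, h⟩
      · exact Or.inr ⟨by linarith, hz.2⟩
    calc _ ≤ μ.real (Set.Icc u (u + N + 1) ∪ Set.Icc (u + ((N + 1 : ℕ) : ℝ)) (u + ((N + 1 : ℕ) : ℝ) + 1)) :=
          measureReal_mono hsub
      _ ≤ _ := measureReal_union_le _ _
      _ ≤ (N + 1) * B + B := add_le_add h1 h2
      _ = _ := by push_cast; ring

/-- key inequality: window probabilities dominate the density -/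
private lemma L3a_key (hda : DA α ζ ρ a) {t : ℝ} (ht : 0 < t) : ∃ L > (0 : ℝ), ∃ N : ℕ, ∀ x y : ℝ, 0 < x → 0 < y →
    ∀ κ > (0 : ℝ), ∀ᶠ j : ℕ in atTop, ∀ B : ℝ,
      (∀ i : ℕ, i ≤ N → (kap (Set.Ioi 0) ρ ⌊t * j⌋₊ (x * a j)).real (Set.Icc (y * a j + i) (y * a j + i + 1)) ≤ B) →
      L * qT α ζ t x y ≤ κ + a j * ((N + 1) * B) := by
  haveI := hda.prob
  obtain ⟨b, σ, hL⟩ := hda.exists_lat
  obtain ⟨L, hL0, hlam⟩ := L3a_lam hL.nonneg
  refine ⟨L, hL0, ⌈L⌉₊, fun x y hx hy κ hκ => ?_⟩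
  have hD : Dom (Set.Ioi (0:ℝ)) := Or.inr rfl
  have hT : Tm (fun j : ℕ => j) (fun j => ⌊t * j⌋₊) t := Tm.floor tendsto_id ht.le
  obtain ⟨ε, hε, hεx, hεx', hεy, hεy'⟩ : ∃ ε > (0:ℝ), ε ≤ x ∧ x ≤ 1 / ε ∧ ε ≤ y ∧ y ≤ 1 / ε := by
    refine ⟨min (min x (1 / x)) (min y (1 / y)), by positivity, ?_, ?_, ?_, ?_⟩
    · exact (min_le_left _ _).trans (min_le_left _ _)
    · rw [le_one_div (by positivity) (by positivity)]
      exact (min_le_left _ _).trans (min_le_right _ _)
    · exact (min_le_right _ _).trans (min_le_left _ _)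
    · rw [le_one_div (by positivity) (by positivity)]
      exact (min_le_right _ _).trans (min_le_right _ _)
  have h1 := kllt hda hD hL hT ht hL0 ε hε κ hκ
  filter_upwards [h1] with j hj B hB
  have haj : 0 < a j := hda.pos j
  have h2 := hj (x * a j) (y * a j) (y * a j + L)
    (mul_le_mul_of_nonneg_right hεx haj.le)
    (by rw [le_div_iff₀ hε]; rw [le_div_iff₀ hε] at hεx'; nlinarith)
    (mul_le_mul_of_nonneg_right hεy haj.le)
    (by rw [le_div_iff₀ hε]; rw [le_div_iff₀ hε] at hεy'; nlinarith)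
    (by linarith) le_rfl
  rw [hlam, mul_div_assoc, div_self haj.ne', mul_one, mul_div_assoc, div_self haj.ne', mul_one] at h2
  have h3 : (kap (Set.Ioi 0) ρ ⌊t * j⌋₊ (x * a j)).real (IV (Set.Ioi 0) (y * a j) (y * a j + L)) ≤
      ((⌈L⌉₊ : ℝ) + 1) * B := by
    refine le_trans (measureReal_mono ?_) (L3a_cover _ (y * a j) B ⌈L⌉₊ hB)
    intro z hz
    simp only [IV, Set.mem_setOf_eq, Set.mem_Ioi, not_lt, sub_pos, sub_nonpos] at hz
    exact ⟨hz.1.le, by linarith [hz.2, Nat.le_ceil L]⟩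
  have h4 := (abs_le.1 h2).1
  have h5 := mul_le_mul_of_nonneg_left h3 haj.le
  linarith

private lemma L3a_half {t : ℝ} (ht : 0 < t) : ∀ᶠ j : ℕ in atTop, t / 2 * (j : ℝ) ≤ (⌊t * j⌋₊ : ℝ) := by
  have h1 : ∀ᶠ j : ℕ in atTop, 2 / t ≤ (j : ℝ) := tendsto_natCast_atTop_atTop.eventually_ge_atTop _
  filter_upwards [h1] with j hj
  have h2 := Nat.lt_floor_add_one (t * j)
  have h3 : 2 ≤ t * j := by
    rw [div_le_iff₀ ht] at hj
    linarith
  linarith

/-- **[STB-L3b]** PROOF. `kllt` with `J = IV D u (u + L)` as in `L2_rate` (`lam(J) = L`), `u_j = y a_j`, `x_j = x a_j`, and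
`a_n (kap k x)(Icc u (u+L)) ≤ a_n (fre k x)(Icc u (u+L)) ≤ (L+2) C` by `DA.win`. -/
theorem qT_bdd (hda : DA α ζ ρ a) {t : ℝ} (ht : 0 < t) :
    ∃ C > (0 : ℝ), ∀ x y : ℝ, 0 < x → 0 < y → qT α ζ t x y ≤ C := by
  haveI := hda.prob
  obtain ⟨L, hL, N, hkey⟩ := L3a_key hda ht
  obtain ⟨C, hC, hwin⟩ := hda.win (c := t / 2) (by positivity)
  refine ⟨(1 + (N + 1) * C) / L, by positivity, fun x y hx hy => ?_⟩
  obtain ⟨j, h1, h2, h3⟩ := ((hkey x y hx hy 1 one_pos).and (hwin.and (L3a_half ht))).exists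
  have haj : 0 < a j := hda.pos j
  have h4 := h1 (C / a j) fun i _ => by
    refine le_trans ?_ (h2 ⌊t * j⌋₊ h3 (x * a j) (y * a j + i))
    exact ENNReal.toReal_mono (measure_ne_top _ _) (kap_le_fre (Or.inr rfl) _ _ _)
  rw [le_div_iff₀ hL]
  have e : a j * ((N + 1) * (C / a j)) = (N + 1) * C := by field_simp
  rw [e] at h4
  linarith

/-- **[STB-L3c]** PROOF. The same with `DA.kap_win`: `a_n (kap k x)(Icc u (u+1)) ≤ C V^(u+1)/V^(a_n)`, `u = y a_n ≤ δ a_n`, and
`DA.vr_small` for the dual walk (`vd D ρ = vr (Dst D) (dual ρ)`, `DA.dual`, `dom_Dst`). -/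
theorem qT_near (hda : DA α ζ ρ a) {t : ℝ} (ht : 0 < t) : ∀ ε > (0 : ℝ), ∃ δ > (0 : ℝ), ∀ x y : ℝ, 0 < x →
    0 < y → y ≤ δ → qT α ζ t x y ≤ ε := by
  haveI := hda.prob
  intro ε hε
  have hD : Dom (Set.Ioi (0:ℝ)) := Or.inr rfl
  have hDs := dom_Dst hD
  obtain ⟨L, hL, N, hkey⟩ := L3a_key hda ht
  obtain ⟨C, hC, hwin⟩ := hda.kap_win hD (c := t / 2) (by positivity)
  obtain ⟨δ, hδ, hsm⟩ := hda.dual.vr_small hDs (L * ε / (2 * ((N + 1) * C))) (by positivity)
  refine ⟨δ / 2, by positivity, fun x y hx hy hyδ => ?_⟩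
  have hbig : ∀ᶠ j : ℕ in atTop, (N + 1 : ℝ) * 2 / δ ≤ a j := hda.top.eventually_ge_atTop _
  obtain ⟨j, h1, h2, h3, h4, h5⟩ := ((hkey x y hx hy (L * ε / 2) (by positivity)).and
    (hwin.and ((L3a_half ht).and (hsm.and hbig)))).exists
  have haj : 0 < a j := hda.pos j
  obtain ⟨-, hone, hmono⟩ := vr_facts hDs hda.dual.cen
  have hvd1 : 1 ≤ vr (Dst (Set.Ioi 0)) (dual ρ) (a j) := hone _
  set B : ℝ := C / a j * (L * ε / (2 * ((N + 1) * C))) with hB
  have h6 := h1 B fun i hi => by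
    have hi' : (i : ℝ) ≤ N := by exact_mod_cast hi
    refine (h2 ⌊t * j⌋₊ h3 (x * a j) (y * a j + i) (by positivity) (by positivity)).trans ?_
    rw [hB]
    refine mul_le_mul_of_nonneg_left ?_ (by positivity)
    unfold vd
    rw [div_le_iff₀ (by linarith)]
    refine le_trans (hmono ?_) h4
    rw [div_le_iff₀ hδ] at h5
    nlinarith [mul_le_mul_of_nonneg_right hyδ haj.le]
  have e : a j * ((N + 1) * B) = L * ε / 2 := by
    rw [hB]
    field_simp
  rw [e] at h6
  have h7 : L * qT α ζ t x y ≤ L * ε := by linarith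
  exact le_of_mul_le_mul_left h7 hL

end Pool.Agent.BPT
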