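import Pool.Agent.MP_99a865_pr.ST.L3a
import Pool.Agent.MP_99a865_pr.ST.K6c
import Pool.Agent.MP_99a865_pr.FV.C2

/-! **[STB-L3b]** It is the density. -/

open MeasureTheory ProbabilityTheory Filter Topology
open scoped ENNReal NNReal

namespace Pool.Agent.BPT

variable {α : ℝ} {ζ ρ : Measure ℝ} {a : ℕ → ℝ} {D : Set ℝ}

lemma L3b_IV (u w : ℝ) : IV (Set.Ioi 0) u w = Set.Ioc u w := by
  ext y
  simp only [IV, Set.mem_ofPred_eq, Set.mem_Ioi, Set.mem_Ioc, sub_pos, not_lt]

lemma L3b_lam {σ : ℝ} (hσ : 0 ≤ σ) : ∃ L > (0 : ℝ), ∀ c u : ℝ,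
    (lam σ c).real (IV (Set.Ioi 0) u (u + L)) = L := by
  rcases hσ.eq_or_lt with h0 | h0
  · refine ⟨1, one_pos, fun c u => ?_⟩
    rw [← h0, lam_zero, L3b_IV, Measure.real, Real.volume_Ioc]
    simp
  · refine ⟨σ, h0, fun c u => ?_⟩
    rw [C2_lam σ c h0 _ (measurableSet_IV (Or.inr rfl) _ _) {⌊(u - c) / σ⌋ + 1} ?_]
    · simp
    · intro j
      rw [L3b_IV, Finset.mem_singleton, Set.mem_Ioc]
      have h1 := Int.floor_le ((u - c) / σ)
      have h2 := Int.lt_floor_add_one ((u - c) / σ)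
      rw [le_div_iff₀ h0] at h1
      rw [div_lt_iff₀ h0] at h2
      constructor
      · rintro rfl
        push_cast
        constructor
        · nlinarith
        · nlinarith
      · rintro ⟨h3, h4⟩
        have h5 : ((⌊(u - c) / σ⌋ : ℤ) : ℝ) < j := by
          by_contra hcon
          push Not at hcon
          nlinarith
        have h6 : (j : ℝ) < ⌊(u - c) / σ⌋ + 2 := by
          by_contra hcon
          push Not at hcon
          nlinarith
        have h7 : ⌊(u - c) / σ⌋ < j := by exact_mod_cast h5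
        have h8 : j < ⌊(u - c) / σ⌋ + 2 := by exact_mod_cast h6
        omega

/-- sliding windows -/
lemma L3b_smooth (μ : Measure ℝ) [IsFiniteMeasure μ] (hμ : μ.real Set.univ ≤ 1) {φ : ℝ → ℝ}
    (hφc : Continuous φ) {R : ℝ} (hsupp : ∀ u, u ∉ Set.Icc (-R) R → φ u = 0) {M : ℝ}
    (hM : ∀ u, |φ u| ≤ M) {L η : ℝ} (hL : 0 < L) (hη0 : 0 ≤ η)
    (hη : ∀ u v, |u - v| ≤ L → |φ u - φ v| ≤ η) :
    |∫ z, φ z ∂μ - L⁻¹ * ∫ u, φ u * μ.real (Set.Ioc u (u + L))| ≤ η := by
  set F : ℝ → ℝ → ℝ := fun z u => (Set.Ico (z - L) z).indicator φ u with hF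
  have hset : MeasurableSet {p : ℝ × ℝ | p.1 - L ≤ p.2 ∧ p.2 < p.1} :=
    (measurableSet_le (measurable_fst.sub_const L) measurable_snd).inter
      (measurableSet_lt measurable_snd measurable_fst)
  have hFeq : Function.uncurry F = {p : ℝ × ℝ | p.1 - L ≤ p.2 ∧ p.2 < p.1}.indicator (fun p => φ p.2) := by
    funext p
    obtain ⟨z, u⟩ := p
    simp only [Function.uncurry, hF, Set.indicator, Set.mem_Ico, Set.mem_ofPred_eq]
  have hFm : Measurable (Function.uncurry F) := by
    rw [hFeq]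
    exact (hφc.measurable.comp measurable_snd).indicator hset
  have hM0 : 0 ≤ M := (abs_nonneg _).trans (hM 0)
  have hφi : Integrable φ := by
    have : Integrable ((Set.Icc (-R) R).indicator fun _ : ℝ => M) := by
      rw [integrable_indicator_iff measurableSet_Icc]
      exact continuousOn_const.integrableOn_compact isCompact_Icc
    refine this.mono' hφc.aestronglyMeasurable (Eventually.of_forall fun u => ?_)
    by_cases hu : u ∈ Set.Icc (-R) R
    · rw [Set.indicator_of_mem hu, Real.norm_eq_abs]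
      exact hM u
    · rw [Set.indicator_of_notMem hu, hsupp u hu, norm_zero]
  have hFint : Integrable (Function.uncurry F) (μ.prod volume) := by
    have h1 : Integrable (fun p : ℝ × ℝ => φ p.2) (μ.prod volume) := hφi.comp_snd μ
    rw [hFeq]
    exact h1.indicator hset
  have hswap := integral_integral_swap hFint
  have h1 : ∀ u, ∫ z, F z u ∂μ = φ u * μ.real (Set.Ioc u (u + L)) := by
    intro u
    have : (fun z => F z u) = (Set.Ioc u (u + L)).indicator fun _ => φ u := by
      funext z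
      simp only [hF, Set.indicator, Set.mem_Ico, Set.mem_Ioc]
      have : (z - L ≤ u ∧ u < z) ↔ (u < z ∧ z ≤ u + L) := by
        constructor
        · rintro ⟨a1, a2⟩; exact ⟨a2, by linarith⟩
        · rintro ⟨a1, a2⟩; exact ⟨by linarith, a1⟩
      simp only [this]
    rw [this, integral_indicator measurableSet_Ioc]
    simp [mul_comm]
  simp only [h1] at hswap
  have h2 : ∀ z, |L * φ z - ∫ u, F z u| ≤ L * η := by
    intro z
    have e1 : ∫ u, F z u = ∫ u in Set.Ico (z - L) z, φ u := integral_indicator measurableSet_Ico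
    have e2 : L * φ z = ∫ u in Set.Ico (z - L) z, φ z := by
      rw [setIntegral_const, Measure.real, Real.volume_Ico, ENNReal.toReal_ofReal (by linarith)]
      simp
    rw [e1, e2, ← integral_sub (integrable_const _) hφi.integrableOn]
    have e3 := norm_setIntegral_le_of_norm_le_const (μ := volume) (s := Set.Ico (z - L) z)
      (f := fun u => φ z - φ u) (C := η) (by rw [Real.volume_Ico]; exact ENNReal.ofReal_lt_top)
      (fun u hu => by
        rw [Real.norm_eq_abs]
        apply hη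
        rw [abs_of_nonneg (by linarith [hu.2])]
        linarith [hu.1])
    rw [Measure.real, Real.volume_Ico, ENNReal.toReal_ofReal (by linarith), Real.norm_eq_abs] at e3
    calc _ ≤ _ := e3
      _ = L * η := by ring
  have hint1 : Integrable (fun z => L * φ z) μ :=
    (Integrable.of_bound hφc.aestronglyMeasurable M (Eventually.of_forall hM)).const_mul L
  have hint2 : Integrable (fun z => ∫ u, F z u) μ := hFint.integral_prod_left
  have h3 : |∫ z, (L * φ z - ∫ u, F z u) ∂μ| ≤ L * η := by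
    have := norm_integral_le_of_norm_le_const (μ := μ) (f := fun z => L * φ z - ∫ u, F z u)
      (C := L * η) (Eventually.of_forall h2)
    rw [Real.norm_eq_abs] at this
    have h4 : L * η * μ.real Set.univ ≤ L * η * 1 := mul_le_mul_of_nonneg_left hμ (by positivity)
    linarith
  rw [integral_sub hint1 hint2, hswap, integral_const_mul] at h3
  have h4 : ∫ z, φ z ∂μ - L⁻¹ * ∫ u, φ u * μ.real (Set.Ioc u (u + L)) =
      L⁻¹ * (L * ∫ z, φ z ∂μ - ∫ u, φ u * μ.real (Set.Ioc u (u + L))) := by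
    field_simp
  rw [h4, abs_mul, abs_of_pos (inv_pos.mpr hL)]
  calc L⁻¹ * |_| ≤ L⁻¹ * (L * η) := mul_le_mul_of_nonneg_left h3 (inv_pos.mpr hL).le
    _ = η := by field_simp

lemma L3b_meas (μ : Measure ℝ) [IsFiniteMeasure μ] (L : ℝ) :
    Measurable fun u => μ.real (Set.Ioc u (u + L)) := by
  have hs : MeasurableSet {p : ℝ × ℝ | p.1 < p.2 ∧ p.2 ≤ p.1 + L} :=
    (measurableSet_lt measurable_fst measurable_snd).inter
      (measurableSet_le measurable_snd (measurable_fst.add_const L))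
  have h1 := (measurable_measure_prodMk_left (ν := μ) hs).ennreal_toReal
  exact h1

lemma L3b_notMem {f : ℝ → ℝ} {y : ℝ} (hy : ¬ 0 < y) : (Set.Ioi (0 : ℝ)).indicator f y = 0 :=
  Set.indicator_of_notMem (fun h => hy (Set.mem_Ioi.mp h)) f

lemma L3b_mem {f : ℝ → ℝ} {y : ℝ} (hy : 0 < y) : (Set.Ioi (0 : ℝ)).indicator f y = f y :=
  Set.indicator_of_mem (Set.mem_Ioi.mpr hy) f

lemma L3b_ext_cont {f : ℝ → ℝ} (hf : ContinuousOn f (Set.Ioi 0)) {δ : ℝ} (hδ : 0 < δ)
    (hs : ∀ y > 0, y ∉ Set.Icc δ (1 / δ) → f y = 0) : Continuous ((Set.Ioi (0 : ℝ)).indicator f) := by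
  rw [continuous_iff_continuousAt]
  intro y
  rcases lt_or_ge 0 y with hy | hy
  · have h1 : ContinuousAt f y := (hf y hy).continuousAt (Ioi_mem_nhds hy)
    refine h1.congr ?_
    filter_upwards [Ioi_mem_nhds hy] with z hz
    rw [Set.indicator_of_mem hz]
  · have h1 : ContinuousAt (fun _ : ℝ => (0 : ℝ)) y := continuousAt_const
    refine h1.congr ?_
    filter_upwards [Iio_mem_nhds (lt_of_le_of_lt hy hδ)] with z hz
    by_cases hz0 : 0 < z
    · rw [L3b_mem hz0, hs z hz0 (fun h => absurd h.1 (not_le.mpr hz))]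
    · rw [L3b_notMem hz0]

lemma L3b_qT_contOn (hda : DA α ζ ρ a) {t x : ℝ} (ht : 0 < t) (hx : 0 < x) :
    ContinuousOn (fun y => qT α ζ t x y) (Set.Ioi 0) := by
  have h1 := qT_cont hda ht
  have h2 : ContinuousOn (fun y : ℝ => (x, y)) (Set.Ioi 0) := by fun_prop
  have h3 : Set.MapsTo (fun y : ℝ => (x, y)) (Set.Ioi 0) (Set.Ioi 0 ×ˢ Set.Ioi 0) :=
    fun y hy => Set.mk_mem_prod (Set.mem_Ioi.mpr hx) hy
  have h4 := ContinuousOn.comp h1 h2 h3
  have h5 : ((fun p : ℝ × ℝ => qT α ζ t p.1 p.2) ∘ fun y : ℝ => (x, y)) = fun y => qT α ζ t x y := by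
    funext y
    rfl
  rw [h5] at h4
  exact h4

/-- one time: the two sides are close -/
lemma L3b_close (μ : Measure ℝ) [IsFiniteMeasure μ] (hμ1 : μ.real Set.univ ≤ 1) {ft q : ℝ → ℝ}
    (hftc : Continuous ft) {M : ℝ} (hftM : ∀ y, |ft y| ≤ M) {δ : ℝ} (hδ : 0 < δ) (hδ1 : δ < 1)
    (hfts : ∀ y, y ∉ Set.Icc δ (1 / δ) → ft y = 0) (hq : ContinuousOn q (Set.Ioi 0)) {A L η κ : ℝ}
    (haj : 0 < A) (hL0 : 0 < L) (hη : 0 ≤ η) (hκ : 0 ≤ κ)
    (hmod : ∀ u v, |u - v| ≤ L / A → |ft u - ft v| ≤ η)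
    (hk : ∀ v ∈ Set.Icc δ (1 / δ), |A * μ.real (Set.Ioc (v * A) (v * A + L)) - L * q v| ≤ κ) :
    |∫ y, ft (y / A) ∂μ - ∫ v in Set.Icc δ (1 / δ), ft v * q v| ≤ η + (M + 1) * (L⁻¹ * κ) * (1 / δ) := by
  have hM0 : 0 ≤ M := (abs_nonneg _).trans (hftM 0)
  have hsm := L3b_smooth μ hμ1 (φ := fun y => ft (y / A)) (hftc.comp (continuous_id.div_const _))
    (R := A / δ) (by
      intro u hu
      apply hfts
      intro h
      apply hu
      have h1 := h.1
      have h2 := h.2
      rw [le_div_iff₀ haj] at h1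
      rw [div_le_iff₀ haj] at h2
      have h3 : 0 < δ * A := by positivity
      have h4 : 0 < A / δ := by positivity
      constructor
      · linarith
      · calc u ≤ _ := h2
          _ = _ := by ring)
    (fun u => hftM _) hL0 hη (by
      intro u v huv
      apply hmod
      rw [← sub_div, abs_div, abs_of_pos haj]
      exact div_le_div_of_nonneg_right huv haj.le)
  have hcv : ∫ u, ft (u / A) * μ.real (Set.Ioc u (u + L)) =
      A * ∫ v, ft v * μ.real (Set.Ioc (v * A) (v * A + L)) := by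
    have := Measure.integral_comp_mul_right (fun u => ft (u / A) * μ.real (Set.Ioc u (u + L))) A
    simp only [mul_div_assoc, div_self haj.ne', mul_one, smul_eq_mul] at this
    rw [this, abs_of_pos (inv_pos.mpr haj), ← mul_assoc, mul_inv_cancel₀ haj.ne', one_mul]
  have hcv2 : ∫ v, ft v * μ.real (Set.Ioc (v * A) (v * A + L)) =
      ∫ v in Set.Icc δ (1 / δ), ft v * μ.real (Set.Ioc (v * A) (v * A + L)) := by
    refine (setIntegral_eq_integral_of_forall_compl_eq_zero ?_).symm
    intro v hv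
    rw [hfts v hv, zero_mul]
  have hmeas : Measurable fun v => μ.real (Set.Ioc (v * A) (v * A + L)) :=
    (L3b_meas μ L).comp (measurable_id.mul_const _)
  have hint1 : IntegrableOn (fun v => L⁻¹ * (A * (ft v * μ.real (Set.Ioc (v * A) (v * A + L)))))
      (Set.Icc δ (1 / δ)) := by
    refine Integrable.const_mul (Integrable.const_mul ?_ _) _
    refine Integrable.of_bound (hftc.measurable.mul hmeas).aestronglyMeasurable M
      (Eventually.of_forall fun v => ?_)
    rw [norm_mul, Real.norm_eq_abs, Real.norm_eq_abs, abs_of_nonneg measureReal_nonneg]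
    have h2 : μ.real (Set.Ioc (v * A) (v * A + L)) ≤ 1 :=
      (measureReal_mono (Set.subset_univ _) (measure_ne_top _ _)).trans hμ1
    calc |ft v| * _ ≤ M * 1 := mul_le_mul (hftM v) h2 measureReal_nonneg hM0
      _ = M := mul_one _
  have hint2 : IntegrableOn (fun v => ft v * q v) (Set.Icc δ (1 / δ)) := by
    have : ContinuousOn (fun v => ft v * q v) (Set.Icc δ (1 / δ)) :=
      hftc.continuousOn.mul (hq.mono (fun y hy => lt_of_lt_of_le hδ hy.1))
    exact this.integrableOn_compact isCompact_Icc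
  have hdiff : |L⁻¹ * (A * ∫ v in Set.Icc δ (1 / δ), ft v * μ.real (Set.Ioc (v * A) (v * A + L))) -
      ∫ v in Set.Icc δ (1 / δ), ft v * q v| ≤ (M + 1) * (L⁻¹ * κ) * (1 / δ) := by
    rw [← integral_const_mul, ← integral_const_mul, ← integral_sub hint1 hint2]
    have hb : ∀ v ∈ Set.Icc δ (1 / δ), ‖L⁻¹ * (A * (ft v * μ.real (Set.Ioc (v * A) (v * A + L)))) -
        ft v * q v‖ ≤ M * (L⁻¹ * κ) := by
      intro v hv
      have h1 := hk v hv
      have h2 : L⁻¹ * (A * (ft v * μ.real (Set.Ioc (v * A) (v * A + L)))) - ft v * q v =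
          ft v * (L⁻¹ * (A * μ.real (Set.Ioc (v * A) (v * A + L)) - L * q v)) := by
        field_simp
      rw [h2, norm_mul, norm_mul, Real.norm_eq_abs, Real.norm_eq_abs, Real.norm_eq_abs,
        abs_of_pos (inv_pos.mpr hL0)]
      exact mul_le_mul (hftM v) (mul_le_mul_of_nonneg_left h1 (inv_pos.mpr hL0).le)
        (by positivity) hM0
    have h3 := norm_setIntegral_le_of_norm_le_const (μ := volume) (s := Set.Icc δ (1 / δ))
      (by rw [Real.volume_Icc]; exact ENNReal.ofReal_lt_top) hb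
    have hδ2 : δ ≤ 1 / δ := by
      rw [le_div_iff₀ hδ]
      nlinarith
    rw [Measure.real, Real.volume_Icc, ENNReal.toReal_ofReal (by linarith), Real.norm_eq_abs] at h3
    refine h3.trans ?_
    have hLi : 0 < L⁻¹ := inv_pos.mpr hL0
    have h5 : 0 ≤ L⁻¹ * κ := by positivity
    have h4 : M * (L⁻¹ * κ) ≤ (M + 1) * (L⁻¹ * κ) := by nlinarith
    exact mul_le_mul h4 (by linarith) (by linarith) (by positivity)
  rw [hcv, hcv2] at hsm
  rw [abs_le] at hsm hdiff ⊢
  constructor
  · linarith [hsm.1, hdiff.1]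
  · linarith [hsm.2, hdiff.2]

/-- functions with compact support in `(0,∞)` -/
lemma L3b_comp (hda : DA α ζ ρ a) {t M : ℝ} (ht : 0 < t) {f : ℝ → ℝ} (hf : BCo M f) {x : ℝ} (hx : 0 < x)
    {δ : ℝ} (hδ : 0 < δ) (hδ1 : δ < 1) (hs : ∀ y > 0, y ∉ Set.Icc δ (1 / δ) → f y = 0) :
    ∫ y in Set.Ioi (0 : ℝ), qT α ζ t x y * f y = QT α ζ t f x := by
  have hp := hda.prob
  have hpos := hda.pos
  obtain ⟨b, σ, hL⟩ := hda.exists_lat
  obtain ⟨L, hL0, hlam⟩ := L3b_lam hL.nonneg
  have hD : Dom (Set.Ioi (0 : ℝ)) := Or.inr rfl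
  have hTm : Tm (fun j => j) (fun j => ⌊t * j⌋₊) t := Tm.floor tendsto_id ht.le
  have hM0 : 0 ≤ M := (abs_nonneg _).trans (hf.bd 1 one_pos)
  obtain ⟨ft, hft⟩ : ∃ ft, ft = (Set.Ioi (0 : ℝ)).indicator f := ⟨_, rfl⟩
  have hftc : Continuous ft := hft ▸ L3b_ext_cont hf.cont hδ hs
  have hftM : ∀ y, |ft y| ≤ M := by
    intro y
    rw [hft]
    by_cases hy : 0 < y
    · rw [L3b_mem hy]
      exact hf.bd y hy
    · rw [L3b_notMem hy, abs_zero]
      exact hM0
  have hfts : ∀ y, y ∉ Set.Icc δ (1 / δ) → ft y = 0 := by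
    intro y hy
    rw [hft]
    by_cases hy0 : 0 < y
    · rw [L3b_mem hy0]
      exact hs y hy0 hy
    · rw [L3b_notMem hy0]
  have hftu : UniformContinuous ft := by
    refine hftc.uniformContinuous_of_tendsto_cocompact (x := 0) ?_
    refine Tendsto.congr' (f₁ := fun _ => (0 : ℝ)) ?_ tendsto_const_nhds
    filter_upwards [(isCompact_Icc (a := δ) (b := 1 / δ)).compl_mem_cocompact] with y hy
    exact (hfts y hy).symm
  -- the left side of the limit
  have hlimA : Tendsto (fun j : ℕ => ∫ y, ft (y / a j) ∂(kap (Set.Ioi 0) ρ ⌊t * j⌋₊ (x * a j))) atTop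
      (𝓝 (QT α ζ t f x)) := by
    rw [hft]
    refine kap_seq hda hD hTm ht hf hx ?_
    refine Tendsto.congr (f₁ := fun _ => x) (fun j => ?_) tendsto_const_nhds
    rw [mul_div_assoc, div_self (hpos j).ne', mul_one]
  -- and the other one
  have hIcc : ∫ y in Set.Ioi (0 : ℝ), qT α ζ t x y * f y = ∫ y in Set.Icc δ (1 / δ), ft y * qT α ζ t x y := by
    have e1 : ∫ y in Set.Ioi (0 : ℝ), qT α ζ t x y * f y = ∫ y in Set.Ioi (0 : ℝ), ft y * qT α ζ t x y := by
      refine setIntegral_congr_fun measurableSet_Ioi fun y hy => ?_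
      show qT α ζ t x y * f y = ft y * qT α ζ t x y
      rw [hft, Set.indicator_of_mem hy, mul_comm]
    rw [e1]
    refine (setIntegral_eq_of_subset_of_forall_sdiff_eq_zero measurableSet_Ioi ?_ ?_)
    · intro y hy
      exact lt_of_lt_of_le hδ hy.1
    · intro y hy
      rw [hfts y hy.2, zero_mul]
  have hlimB : Tendsto (fun j : ℕ => ∫ y, ft (y / a j) ∂(kap (Set.Ioi 0) ρ ⌊t * j⌋₊ (x * a j))) atTop
      (𝓝 (∫ y in Set.Icc δ (1 / δ), ft y * qT α ζ t x y)) := by
    rw [Metric.tendsto_atTop]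
    intro η hη
    -- constants
    have hδi : 0 < 1 / δ := by positivity
    obtain ⟨ω, hω, hmod⟩ := Metric.uniformContinuous_iff.mp hftu (η / 4) (by linarith)
    obtain ⟨ε, hε0, hεδ, hεx, hεx'⟩ : ∃ ε > (0 : ℝ), ε ≤ δ ∧ ε ≤ x ∧ ε ≤ 1 / x :=
      ⟨min δ (min x (1 / x)), lt_min hδ (lt_min hx (by positivity)), min_le_left _ _,
        (min_le_right _ _).trans (min_le_left _ _), (min_le_right _ _).trans (min_le_right _ _)⟩
    have hxε : x ≤ 1 / ε := by
      rw [le_div_iff₀ hε0]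
      rw [le_div_iff₀ hx] at hεx'
      linarith
    have hδε : 1 / δ ≤ 1 / ε := one_div_le_one_div_of_le hε0 hεδ
    obtain ⟨κ, hκ0, hκ⟩ : ∃ κ > (0 : ℝ), (M + 1) * (L⁻¹ * κ) * (1 / δ) = η / 4 :=
      ⟨η * L / (4 * ((M + 1) * (1 / δ))), by positivity, by field_simp⟩
    have hkl := kllt hda hD hL hTm ht hL0 ε hε0 κ hκ0
    have hLa : Tendsto (fun j : ℕ => L / a j) atTop (𝓝 0) := tendsto_const_nhds.div_atTop hda.top
    have hev := (hkl.and (hLa.eventually (gt_mem_nhds hω)))
    obtain ⟨N, hN⟩ := eventually_atTop.mp hev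
    refine ⟨N, fun j hj => ?_⟩
    obtain ⟨hk, hLω⟩ := hN j hj
    have haj := hpos j
    have hμ1 : (kap (Set.Ioi 0) ρ ⌊t * j⌋₊ (x * a j)).real Set.univ ≤ 1 := by
      unfold Measure.real
      refine ENNReal.toReal_le_of_le_ofReal zero_le_one ?_
      rw [ENNReal.ofReal_one]
      exact kap_univ_le_one _ _
    have hclose := L3b_close (kap (Set.Ioi 0) ρ ⌊t * j⌋₊ (x * a j)) hμ1 hftc hftM hδ hδ1 hfts
      (L3b_qT_contOn hda ht hx) haj hL0 (show 0 ≤ η / 4 by linarith) hκ0.le (by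
        intro u v huv
        have := hmod (show dist u v < ω from lt_of_le_of_lt huv hLω)
        rw [Real.dist_eq] at this
        exact this.le) (by
        intro v hv
        have h1 := hk (x * a j) (v * a j) (v * a j + L) (mul_le_mul_of_nonneg_right hεx haj.le)
          (by
            calc x * a j ≤ (1 / ε) * a j := mul_le_mul_of_nonneg_right hxε haj.le
              _ = _ := by ring)
          (mul_le_mul_of_nonneg_right (hεδ.trans hv.1) haj.le)
          (by
            calc v * a j ≤ (1 / ε) * a j := mul_le_mul_of_nonneg_right (hv.2.trans hδε) haj.le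
              _ = _ := by ring)
          (by linarith) le_rfl
        rw [hlam, L3b_IV, mul_div_assoc, div_self haj.ne', mul_one, mul_div_assoc, div_self haj.ne',
          mul_one] at h1
        exact h1)
    rw [Real.dist_eq]
    rw [hκ] at hclose
    linarith
  rw [hIcc]
  exact tendsto_nhds_unique hlimB hlimA

lemma L3b_intOn (hda : DA α ζ ρ a) {t x : ℝ} (ht : 0 < t) (hx : 0 < x) {g : ℝ → ℝ}
    (hg : ContinuousOn g (Set.Ioi 0)) {δ : ℝ} (hδ : 0 < δ) (hs : ∀ y > 0, y ∉ Set.Icc δ (1 / δ) → g y = 0) :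
    IntegrableOn (fun y => qT α ζ t x y * g y) (Set.Ioi 0) := by
  have h1 : ContinuousOn (fun y => qT α ζ t x y * g y) (Set.Icc δ (1 / δ)) :=
    ((L3b_qT_contOn hda ht hx).mul hg).mono (fun y hy => lt_of_lt_of_le hδ hy.1)
  refine (h1.integrableOn_compact isCompact_Icc).of_forall_sdiff_eq_zero measurableSet_Ioi ?_
  intro y hy
  rw [hs y hy.1 hy.2, mul_zero]

lemma L3b_cut_supp {δ : ℝ} (h0 : 0 < δ) (h1 : δ < 1) : ∀ y > (0 : ℝ), y ∉ Set.Icc (δ / 2) (1 / (δ / 2)) →
    cut δ y = 0 := by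
  obtain ⟨_, _, _, h2, h3⟩ := cut_facts h0 h1
  intro y _ hy
  by_cases h4 : y ≤ δ / 2
  · exact h2 y h4
  · apply h3
    by_contra h5
    push Not at h4 h5
    apply hy
    refine ⟨h4.le, ?_⟩
    rw [show 1 / (δ / 2) = 2 / δ by field_simp]
    exact h5.le

lemma L3b_integrable (hda : DA α ζ ρ a) {t x : ℝ} (ht : 0 < t) (hx : 0 < x) :
    IntegrableOn (fun y => qT α ζ t x y) (Set.Ioi 0) := by
  have hq0 : ∀ y > 0, 0 ≤ qT α ζ t x y := fun y hy => qT_nonneg hda ht hx hy
  have hcov : AECover (volume.restrict (Set.Ioi (0 : ℝ))) atTop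
      (fun n : ℕ => Set.Icc (1 / ((n : ℝ) + 2)) (1 / (1 / ((n : ℝ) + 2)))) := by
    refine ⟨?_, fun _ => measurableSet_Icc⟩
    filter_upwards [ae_restrict_mem measurableSet_Ioi] with y hy
    have hy0 : 0 < y := hy
    obtain ⟨N, hN⟩ := exists_nat_ge (max y (1 / y))
    filter_upwards [eventually_ge_atTop N] with n hn
    have hn' : (N : ℝ) ≤ n := by exact_mod_cast hn
    have e1 : y ≤ n + 2 := by linarith [le_max_left y (1 / y)]
    have e2 : 1 / y ≤ n + 2 := by linarith [le_max_right y (1 / y)]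
    have hpos : (0 : ℝ) < (n : ℝ) + 2 := by positivity
    constructor
    · rw [div_le_iff₀ hpos]
      rw [div_le_iff₀ hy0] at e2
      linarith
    · rw [one_div_one_div]
      exact e1
  refine hcov.integrable_of_integral_norm_bounded 1 ?_ ?_
  · intro n
    have hpos : (0 : ℝ) < 1 / ((n : ℝ) + 2) := by positivity
    have h1 : ContinuousOn (fun y => qT α ζ t x y) (Set.Icc (1 / ((n : ℝ) + 2)) (1 / (1 / ((n : ℝ) + 2)))) :=
      (L3b_qT_contOn hda ht hx).mono (fun y hy => lt_of_lt_of_le hpos hy.1)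
    exact (h1.integrableOn_compact isCompact_Icc).mono_measure Measure.restrict_le_self
  · refine Eventually.of_forall fun n => ?_
    obtain ⟨δ, hδ⟩ : ∃ δ : ℝ, δ = 1 / ((n : ℝ) + 2) := ⟨_, rfl⟩
    have hn0 : (0 : ℝ) < (n : ℝ) + 2 := by positivity
    have hδ0 : 0 < δ := by rw [hδ]; positivity
    have hδ1 : δ < 1 := by
      rw [hδ, div_lt_one hn0]
      have : (0 : ℝ) ≤ n := by positivity
      linarith
    rw [← hδ]
    have hsub : Set.Icc δ (1 / δ) ⊆ Set.Ioi 0 := fun y hy => lt_of_lt_of_le hδ0 hy.1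
    rw [Measure.restrict_restrict_of_subset hsub]
    obtain ⟨hc1, hc2, hc3, hc4, hc5⟩ := cut_facts hδ0 hδ1
    have hcB : BCo 1 (cut δ) := ⟨fun y _ => by rw [abs_of_nonneg (hc2 y).1]; exact (hc2 y).2, hc1.continuousOn⟩
    have e1 : ∫ y in Set.Icc δ (1 / δ), ‖qT α ζ t x y‖ = ∫ y in Set.Icc δ (1 / δ), qT α ζ t x y * cut δ y := by
      refine setIntegral_congr_fun measurableSet_Icc fun y hy => ?_
      show ‖qT α ζ t x y‖ = qT α ζ t x y * cut δ y
      rw [hc3 y hy.1 hy.2, mul_one, Real.norm_eq_abs, abs_of_nonneg (hq0 y (hsub hy))]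
    rw [e1]
    have e2 : ∫ y in Set.Icc δ (1 / δ), qT α ζ t x y * cut δ y ≤ ∫ y in Set.Ioi (0 : ℝ), qT α ζ t x y * cut δ y := by
      refine setIntegral_mono_set (L3b_intOn hda ht hx hc1.continuousOn (half_pos hδ0)
        (L3b_cut_supp hδ0 hδ1)) ?_ (Eventually.of_forall hsub)
      filter_upwards [ae_restrict_mem measurableSet_Ioi] with y hy
      exact mul_nonneg (hq0 y hy) (hc2 y).1
    rw [L3b_comp hda ht hcB hx (half_pos hδ0) (by linarith) (L3b_cut_supp hδ0 hδ1)] at e2
    exact e2.trans ((le_abs_self _).trans ((QT_BCo hda ht hcB).bd x hx))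

/-- **[STB-L3d]** It is the density. PROOF. First `f` continuous with support in `[δ, 1/δ]`: with `(b, σ)`, `L` as in `L2_rate` decompose `(0,∞)` into
the windows `J_i = IV D (i L) ((i+1) L)`; `∫ f(y/a_n) ∂(kap k x_j) = ∑_i f(iL/a_n) (kap k x_j)(J_i) + o(1)` (uniform continuity of `f`),
and by `kllt` `(kap k x_j)(J_i) = L qT t (x_j/a_n) (iL/a_n)/a_n + o(1/a_n)` uniformly over the `O(a_n)` windows in question, so the sum is a
Riemann sum for `∫ f(y) qT t x y dy`; the left side tends to `QT t f x` (`kap_seq`). General `f ≥ 0`: monotone limit through `f · cut δ` (monotone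
convergence on the right; on the left `QT_tight`); `f = 1` gives integrability; then `f = f⁺ - f⁻`. -/
theorem qT_int (hda : DA α ζ ρ a) {t M : ℝ} (ht : 0 < t) {f : ℝ → ℝ} (hf : BCo M f) {x : ℝ} (hx : 0 < x) :
    IntegrableOn (fun y => qT α ζ t x y * f y) (Set.Ioi 0) ∧
      ∫ y in Set.Ioi (0 : ℝ), qT α ζ t x y * f y = QT α ζ t f x := by
  have hpos := hda.pos
  have hM0 : 0 ≤ M := (abs_nonneg _).trans (hf.bd 1 one_pos)
  have hq0 : ∀ y > 0, 0 ≤ qT α ζ t x y := fun y hy => qT_nonneg hda ht hx hy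
  have hqi := L3b_integrable hda ht hx
  have hint : IntegrableOn (fun y => qT α ζ t x y * f y) (Set.Ioi 0) := by
    refine (hqi.const_mul M).mono' ?_ ?_
    · exact ((L3b_qT_contOn hda ht hx).mul hf.cont).aestronglyMeasurable measurableSet_Ioi
    · filter_upwards [ae_restrict_mem measurableSet_Ioi] with y hy
      rw [norm_mul, Real.norm_eq_abs, Real.norm_eq_abs, abs_of_nonneg (hq0 y hy), mul_comm]
      exact mul_le_mul_of_nonneg_right (hf.bd y hy) (hq0 y hy)
  refine ⟨hint, ?_⟩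
  obtain ⟨dl, hdl⟩ : ∃ dl : ℕ → ℝ, dl = fun n : ℕ => 1 / ((n : ℝ) + 2) := ⟨_, rfl⟩
  have hdl0 : ∀ n, 0 < dl n := fun n => by rw [hdl]; positivity
  have hdl1 : ∀ n, dl n < 1 := fun n => by
    rw [hdl]
    show 1 / ((n : ℝ) + 2) < 1
    rw [div_lt_one (by positivity)]
    have : (0 : ℝ) ≤ n := by positivity
    linarith
  have hdl2 : Tendsto dl atTop (𝓝 0) := by
    rw [hdl]
    have h1 : Tendsto (fun n : ℕ => (n : ℝ) + 2) atTop atTop :=
      tendsto_atTop_add_const_right _ _ tendsto_natCast_atTop_atTop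
    exact tendsto_const_nhds.div_atTop h1
  have hcutB : ∀ n, BCo M (fun y => cut (dl n) y * f y) := by
    intro n
    obtain ⟨hc1, hc2, _⟩ := cut_facts (hdl0 n) (hdl1 n)
    refine ⟨fun y hy => ?_, hc1.continuousOn.mul hf.cont⟩
    rw [abs_mul, abs_of_nonneg (hc2 y).1]
    calc cut (dl n) y * |f y| ≤ 1 * M := mul_le_mul (hc2 y).2 (hf.bd y hy) (abs_nonneg _) zero_le_one
      _ = M := one_mul _
  -- the integrals
  have hlim1 : Tendsto (fun n : ℕ => ∫ y in Set.Ioi (0 : ℝ), qT α ζ t x y * (cut (dl n) y * f y)) atTop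
      (𝓝 (∫ y in Set.Ioi (0 : ℝ), qT α ζ t x y * f y)) := by
    refine tendsto_integral_of_dominated_convergence (fun y => M * qT α ζ t x y) ?_ (hqi.const_mul M) ?_ ?_
    · intro n
      exact ((L3b_qT_contOn hda ht hx).mul (hcutB n).cont).aestronglyMeasurable measurableSet_Ioi
    · intro n
      filter_upwards [ae_restrict_mem measurableSet_Ioi] with y hy
      rw [norm_mul, Real.norm_eq_abs, Real.norm_eq_abs, abs_of_nonneg (hq0 y hy), mul_comm]
      exact mul_le_mul_of_nonneg_right ((hcutB n).bd y hy) (hq0 y hy)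
    · filter_upwards [ae_restrict_mem measurableSet_Ioi] with y hy
      have hy0 : 0 < y := hy
      refine Tendsto.congr' (f₁ := fun _ => qT α ζ t x y * f y) ?_ tendsto_const_nhds
      filter_upwards [hdl2.eventually (gt_mem_nhds (show 0 < min y (1 / y) from lt_min hy0 (by positivity)))]
        with n hn
      obtain ⟨_, _, hc3, _⟩ := cut_facts (hdl0 n) (hdl1 n)
      have e1 : dl n ≤ y := (hn.trans_le (min_le_left _ _)).le
      have e2 : dl n ≤ 1 / y := (hn.trans_le (min_le_right _ _)).le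
      have e3 : y ≤ 1 / dl n := by
        rw [le_div_iff₀ (hdl0 n)]
        rw [le_div_iff₀ hy0] at e2
        linarith
      rw [hc3 y e1 e3, one_mul]
  -- the semigroup
  have hlim2 : Tendsto (fun n : ℕ => QT α ζ t (fun y => cut (dl n) y * f y) x) atTop (𝓝 (QT α ζ t f x)) := by
    rw [Metric.tendsto_atTop]
    intro η hη
    obtain ⟨δ₀, hδ₀, hδ₀1, htight⟩ := QT_tight hda ht x hx (η / (2 * (M + 1))) (by positivity)
    obtain ⟨N, hN⟩ := eventually_atTop.mp (hdl2.eventually (gt_mem_nhds hδ₀))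
    refine ⟨N, fun n hn => ?_⟩
    have hdn := hN n hn
    obtain ⟨hc1, hc2, hc3, _⟩ := cut_facts (hdl0 n) (hdl1 n)
    have hgB : BCo 1 (fun y => (M + 1)⁻¹ * ((1 - cut (dl n) y) * f y)) := by
      refine ⟨fun y hy => ?_, continuousOn_const.mul ((continuousOn_const.sub hc1.continuousOn).mul hf.cont)⟩
      rw [abs_mul, abs_mul, abs_of_pos (by positivity), abs_of_nonneg (by linarith [(hc2 y).2])]
      have e1 : (1 - cut (dl n) y) * |f y| ≤ 1 * M :=
        mul_le_mul (by linarith [(hc2 y).1]) (hf.bd y hy) (abs_nonneg _) zero_le_one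
      rw [inv_mul_le_iff₀ (by linarith)]
      linarith
    have hz := htight _ hgB (by
      intro y hy1 hy2
      have e1 : dl n ≤ y := hdn.le.trans hy1
      have e2 : y ≤ 1 / dl n := hy2.trans (one_div_le_one_div_of_le (hdl0 n) hdn.le)
      show (M + 1)⁻¹ * ((1 - cut (dl n) y) * f y) = 0
      rw [hc3 y e1 e2, sub_self, zero_mul, mul_zero])
    have hgB' : BCo (M + 1) (fun y => (M + 1) * ((M + 1)⁻¹ * ((1 - cut (dl n) y) * f y))) := by
      refine ⟨fun y hy => ?_, continuousOn_const.mul hgB.cont⟩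
      rw [abs_mul, abs_of_pos (show 0 < M + 1 by linarith)]
      have := hgB.bd y hy
      nlinarith
    have hadd := QT_add hda ht (hcutB n) hgB' hx
    rw [QT_smul hda ht hgB (M + 1) hx] at hadd
    have hfe : (fun y => cut (dl n) y * f y + (M + 1) * ((M + 1)⁻¹ * ((1 - cut (dl n) y) * f y))) = f := by
      funext y
      have : M + 1 ≠ 0 := by linarith
      field_simp
      ring
    rw [hfe] at hadd
    rw [Real.dist_eq, hadd]
    rw [show QT α ζ t (fun y => cut (dl n) y * f y) x - (QT α ζ t (fun y => cut (dl n) y * f y) x +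
      (M + 1) * QT α ζ t (fun y => (M + 1)⁻¹ * ((1 - cut (dl n) y) * f y)) x) =
      -((M + 1) * QT α ζ t (fun y => (M + 1)⁻¹ * ((1 - cut (dl n) y) * f y)) x) by ring, abs_neg, abs_mul,
      abs_of_pos (show 0 < M + 1 by linarith)]
    calc (M + 1) * |_| ≤ (M + 1) * (η / (2 * (M + 1))) := mul_le_mul_of_nonneg_left hz (by linarith)
      _ = η / 2 := by
          have : M + 1 ≠ 0 := by linarith
          field_simp
      _ < η := by linarith
  have heq : ∀ n, ∫ y in Set.Ioi (0 : ℝ), qT α ζ t x y * (cut (dl n) y * f y) =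
      QT α ζ t (fun y => cut (dl n) y * f y) x := by
    intro n
    refine L3b_comp hda ht (hcutB n) hx (half_pos (hdl0 n)) (by linarith [hdl1 n, hdl0 n]) ?_
    intro y hy hy2
    rw [L3b_cut_supp (hdl0 n) (hdl1 n) y hy hy2, zero_mul]
  simp only [heq] at hlim1
  exact tendsto_nhds_unique hlim1 hlim2

end Pool.Agent.BPT
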