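import Pool.Agent.MP_99a865_pr.ST.L3a

/-! **[STB-L3c]** Chapman-Kolmogorov; comparison with the free density. -/

open MeasureTheory ProbabilityTheory Filter Topology
open scoped ENNReal NNReal

namespace Pool.Agent.BPT

variable {α : ℝ} {ζ ρ : Measure ℝ} {a : ℕ → ℝ} {D : Set ℝ}

/-- the length of a window with exactly one lattice point -/
noncomputable def L3c_len (σ : ℝ) : ℝ := if σ = 0 then 1 else σ

lemma L3c_len_pos {σ : ℝ} (hσ : 0 ≤ σ) : 0 < L3c_len σ := by
  unfold L3c_len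
  split_ifs with h
  · exact one_pos
  · exact lt_of_le_of_ne hσ (Ne.symm h)

/-- a half-open window of length `L3c_len σ` has mass `L3c_len σ` -/
lemma L3c_lam {σ : ℝ} (hσ : 0 ≤ σ) (c u : ℝ) :
    (lam σ c).real (IV (Set.Ioi 0) u (u + L3c_len σ)) = L3c_len σ := by
  have hIV : ∀ w, IV (Set.Ioi (0 : ℝ)) u w = Set.Ioc u w := by
    intro w
    ext y
    simp [IV]
  unfold L3c_len
  split_ifs with h0
  · rw [hIV, h0, lam_zero, Measure.real, Real.volume_Ioc]
    simp
  · have hpos : 0 < σ := lt_of_le_of_ne hσ (Ne.symm h0)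
    obtain ⟨j₀, hj₀, huniq⟩ := existsUnique_add_zsmul_mem_Ioc hpos c u
    have h1 := C2_lam σ c hpos (IV (Set.Ioi 0) u (u + σ)) (measurableSet_IV (Or.inr rfl) _ _) {j₀} (by
      intro j
      rw [hIV, Finset.mem_singleton]
      constructor
      · rintro rfl
        simpa [mul_comm] using hj₀
      · intro hj
        exact huniq j (by simpa [mul_comm] using hj))
    rw [h1]
    simp

/-- the killed local limit theorem at fixed points, windows with exactly one lattice point -/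
lemma L3c_kllt (hda : DA α ζ ρ a) {b σ : ℝ} (hL : LatS ζ ρ a b σ) {k : ℕ → ℕ} {t : ℝ}
    (hT : Tm (fun j => j) k t) (ht : 0 < t) {x y : ℝ} (hx : 0 < x) (hy : 0 < y) :
    Tendsto (fun j => a j * (kap (Set.Ioi 0) ρ (k j) (x * a j)).real
      (IV (Set.Ioi 0) (y * a j) (y * a j + L3c_len σ))) atTop (𝓝 (L3c_len σ * qT α ζ t x y)) := by
  have hlen := L3c_len_pos hL.nonneg
  rw [Metric.tendsto_atTop']
  intro κ hκ
  set ε : ℝ := min (min x (1 / x)) (min y (1 / y)) with hε
  have hε0 : 0 < ε := lt_min (lt_min hx (by positivity)) (lt_min hy (by positivity))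
  have hε1 : ε ≤ x := (min_le_left _ _).trans (min_le_left _ _)
  have hε2 : ε ≤ 1 / x := (min_le_left _ _).trans (min_le_right _ _)
  have hε3 : ε ≤ y := (min_le_right _ _).trans (min_le_left _ _)
  have hε4 : ε ≤ 1 / y := (min_le_right _ _).trans (min_le_right _ _)
  obtain ⟨N, hN⟩ := (kllt hda (Or.inr rfl : Dom (Set.Ioi 0)) hL hT ht hlen ε hε0 (κ / 2)
    (by positivity)).exists_forall_of_atTop
  refine ⟨N, fun j hj => ?_⟩
  have haj := hda.pos j
  have e1 : x * a j / a j = x := by field_simp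
  have e2 : y * a j / a j = y := by field_simp
  have e3 : x * a j ≤ a j / ε := by
    rw [le_div_iff₀ hε0]
    rw [le_div_iff₀ hx] at hε2
    nlinarith
  have e4 : y * a j ≤ a j / ε := by
    rw [le_div_iff₀ hε0]
    rw [le_div_iff₀ hy] at hε4
    nlinarith
  have g := hN j (le_of_lt hj) (x * a j) (y * a j) (y * a j + L3c_len σ)
    (mul_le_mul_of_nonneg_right hε1 haj.le) e3 (mul_le_mul_of_nonneg_right hε3 haj.le) e4
    (by linarith) le_rfl
  simp only [e1, e2] at g
  rw [L3c_lam hL.nonneg] at g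
  rw [Real.dist_eq]
  exact lt_of_le_of_lt g (by linarith)

/-- the killed walk has bounded density at the scale of the windows -/
lemma L3c_bdd (hda : DA α ζ ρ a) {b σ : ℝ} (hL : LatS ζ ρ a b σ) {k : ℕ → ℕ} {t : ℝ}
    (hT : Tm (fun j => j) k t) (ht : 0 < t) : ∃ M > (0 : ℝ), ∀ᶠ j in atTop, ∀ x u : ℝ,
      a j * (kap (Set.Ioi 0) ρ (k j) x).real (IV (Set.Ioi 0) u (u + L3c_len σ)) ≤ M := by
  have := hda.prob
  have hlen := L3c_len_pos hL.nonneg
  obtain ⟨B, hB, hBb⟩ := hda.ss.dens_bdd hda.one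
  have htp : 0 < t ^ (1 / α) := Real.rpow_pos_of_pos ht _
  refine ⟨1 + L3c_len σ * (B / t ^ (1 / α)), by positivity, ?_⟩
  filter_upwards [L2_free hda (Or.inr rfl : Dom (Set.Ioi 0)) hL hT ht hlen 1 one_pos] with j hj x u
  have haj := hda.pos j
  have g := hj x u (u + L3c_len σ) (by linarith) le_rfl
  rw [L3c_lam hL.nonneg] at g
  have h1 : (kap (Set.Ioi 0) ρ (k j) x).real (IV (Set.Ioi 0) u (u + L3c_len σ)) ≤
      (fre ρ (k j) x).real (IV (Set.Ioi 0) u (u + L3c_len σ)) :=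
    ENNReal.toReal_mono (measure_ne_top _ _) (kap_le_fre (Or.inr rfl) (k j) x _)
  have h2 : dt α ζ t ((u - x) / a j) ≤ B / t ^ (1 / α) := by
    unfold dt
    exact div_le_div_of_nonneg_right ((le_abs_self _).trans (hBb _)) htp.le
  have h3 := (abs_le.1 g).2
  have h4 : L3c_len σ * dt α ζ t ((u - x) / a j) ≤ L3c_len σ * (B / t ^ (1 / α)) :=
    mul_le_mul_of_nonneg_left h2 hlen.le
  have h5 := mul_le_mul_of_nonneg_left h1 haj.le
  linarith

/-- `qT t · y` is bounded and continuous -/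
lemma L3c_BCo (hda : DA α ζ ρ a) {t : ℝ} (ht : 0 < t) : ∃ C > (0 : ℝ), ∀ y > (0 : ℝ),
    BCo C (fun z => qT α ζ t z y) := by
  obtain ⟨C, hC, hCb⟩ := qT_bdd hda ht
  refine ⟨C, hC, fun y hy => ⟨fun x hx => ?_, ?_⟩⟩
  · rw [abs_of_nonneg (qT_nonneg hda ht hx hy)]
    exact hCb x y hx hy
  · exact (qT_cont hda ht).comp (f := fun z : ℝ => (z, y))
      (continuous_id.prodMk continuous_const).continuousOn fun z hz => ⟨hz, hy⟩

lemma L3c_kap_add (hD : Dom D) [IsProbabilityMeasure ρ] (k l : ℕ) (x : ℝ) {J : Set ℝ}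
    (hJ : MeasurableSet J) :
    (kap D ρ (k + l) x).real J = ∫ z, (kap D ρ l z).real J ∂(kap D ρ k x) := by
  rw [Measure.real, kap_add_apply hD k l x J hJ]
  have hm : Measurable fun z => kap D ρ l z J := (Measure.measurable_coe hJ).comp (measurable_kap hD l)
  rw [← integral_toReal hm.aemeasurable (Filter.Eventually.of_forall fun z => measure_lt_top _ _)]
  rfl

/-- differences of free and killed walk in windows of arbitrary length -/
lemma L3c_cover {μ ν : Measure ℝ} [IsFiniteMeasure μ] [IsFiniteMeasure ν] {q r : ℝ}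
    (H : ∀ z, r ≤ z → ∀ J : Set ℝ, MeasurableSet J → J ⊆ Set.Icc z (z + 1) → μ.real J - ν.real J ≤ q)
    (N : ℕ) : ∀ z, r ≤ z → ∀ J : Set ℝ, MeasurableSet J → J ⊆ Set.Icc z (z + N) →
      μ.real J - ν.real J ≤ (N + 1) * q := by
  induction N with
  | zero =>
    intro z hz J hJ hJz
    have := H z hz J hJ (hJz.trans (Set.Icc_subset_Icc_right (by simp)))
    simpa using this
  | succ N ih =>
    intro z hz J hJ hJz
    have h1 := H z hz (J ∩ Set.Iic (z + 1)) (hJ.inter measurableSet_Iic) (by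
      rintro y ⟨hy1, hy2⟩
      exact ⟨(hJz hy1).1, hy2⟩)
    have h2 := ih (z + 1) (by linarith) (J \ Set.Iic (z + 1)) (hJ.diff measurableSet_Iic) (by
      rintro y ⟨hy1, hy2⟩
      have h3 := (hJz hy1).2
      push_cast at h3
      simp only [Set.mem_Iic, not_le] at hy2
      exact ⟨hy2.le, by linarith⟩)
    have e1 := measureReal_inter_add_sdiff (μ := μ) (s := J) (measurableSet_Iic (a := z + 1))
    have e2 := measureReal_inter_add_sdiff (μ := ν) (s := J) (measurableSet_Iic (a := z + 1))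
    push_cast
    linarith

/-- **[STB-L3e]** Chapman–Kolmogorov for the density. PROOF. `a_n (kap (k+l) x)(J) = ∫ a_n (kap l z)(J) ∂(kap k x)(z)`, `J = J_j = IV D u_j (u_j + L)`,
`u_j/a_n → y`, `L` as in `L2_rate` (`lam(J) = L` for every coset): `F_j z = a_n (kap l_j z)(J_j)` is bounded (`DA.win`), converges (UC, `h = 0`) to
`z ↦ L qT t z y` by `kllt` and `qT_cont`; so by `kap_UC` the right side tends to `L QT s (qT t · y) x`, the left side to
`L qT (s+t) x y`. -/
theorem qT_CK (hda : DA α ζ ρ a) {s t : ℝ} (hs : 0 < s) (ht : 0 < t) {x y : ℝ} (hx : 0 < x) (hy : 0 < y) :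
    QT α ζ s (fun z => qT α ζ t z y) x = qT α ζ (s + t) x y := by
  have := hda.prob
  have hD : Dom (Set.Ioi (0 : ℝ)) := Or.inr rfl
  obtain ⟨b, σ, hL⟩ := hda.exists_lat
  have hlen := L3c_len_pos hL.nonneg
  obtain ⟨C, hC, hBC⟩ := L3c_BCo hda ht
  have hTs : Tm (fun j => j) (fun j => ⌊s * (j : ℝ)⌋₊) s := Tm.floor tendsto_id hs.le
  have hTt : Tm (fun j => j) (fun j => ⌊t * (j : ℝ)⌋₊) t := Tm.floor tendsto_id ht.le
  have hTst := hTs.add hTt
  obtain ⟨M₀, hM₀, hM₀b⟩ := L3c_bdd hda hL hTt ht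
  set L := L3c_len σ with hLdef
  set M : ℝ := max M₀ (L * C) with hM
  have hM0 : 0 < M := lt_of_lt_of_le hM₀ (le_max_left _ _)
  -- the functions
  set F : ℕ → ℝ → ℝ := fun j z => min M (a j * (kap (Set.Ioi 0) ρ ⌊t * (j : ℝ)⌋₊ z).real
    (IV (Set.Ioi 0) (y * a j) (y * a j + L))) with hF
  have hFM : MB M F := by
    intro j
    have haj := hda.pos j
    constructor
    · refine measurable_const.min (Measurable.const_mul ?_ _)
      exact ((Measure.measurable_coe (measurableSet_IV hD _ _)).comp (measurable_kap hD _)).ennreal_toReal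
    · intro z
      have h0 : 0 ≤ F j z := le_min hM0.le (mul_nonneg haj.le measureReal_nonneg)
      rw [abs_of_nonneg h0]
      exact min_le_left _ _
  have hf : BCo M (fun z => L * qT α ζ t z y) := by
    refine ⟨fun z hz => ?_, continuousOn_const.mul (hBC y hy).cont⟩
    rw [abs_mul, abs_of_pos hlen]
    exact (mul_le_mul_of_nonneg_left ((hBC y hy).bd z hz) hlen.le).trans (le_max_right _ _)
  have hU : UC 0 (fun _ => 0) (fun j => a j) F (fun z => L * qT α ζ t z y) := by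
    intro ε hε η hη
    set ε' : ℝ := min ε (min y (1 / y)) with hε'
    have hε0 : 0 < ε' := lt_min hε (lt_min hy (by positivity))
    have hε1 : ε' ≤ ε := min_le_left _ _
    have hε3 : ε' ≤ y := (min_le_right _ _).trans (min_le_left _ _)
    have hε4 : ε' ≤ 1 / y := (min_le_right _ _).trans (min_le_right _ _)
    filter_upwards [kllt hda hD hL hTt ht hlen ε' hε0 η hη, hM₀b] with j hj hjM z _ hz1 hz2
    have haj := hda.pos j
    have e2 : y * a j / a j = y := by field_simp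
    have e4 : y * a j ≤ a j / ε' := by
      rw [le_div_iff₀ hε0]
      rw [le_div_iff₀ hy] at hε4
      nlinarith
    have g := hj z (y * a j) (y * a j + L) ((mul_le_mul_of_nonneg_right hε1 haj.le).trans hz1)
      (hz2.trans (div_le_div_of_nonneg_left haj.le hε0 hε1))
      (mul_le_mul_of_nonneg_right hε3 haj.le) e4 (by linarith) le_rfl
    simp only [e2] at g
    rw [hLdef, L3c_lam hL.nonneg, ← hLdef] at g
    have hmin : F j z = a j * (kap (Set.Ioi 0) ρ ⌊t * (j : ℝ)⌋₊ z).real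
        (IV (Set.Ioi 0) (y * a j) (y * a j + L)) :=
      min_eq_right ((hjM z (y * a j)).trans (le_max_left _ _))
    rw [hmin]
    exact g
  have hstep : ∀ᵐ x ∂ρ, Cos 0 0 x := Filter.Eventually.of_forall fun x h0 => absurd rfl h0
  have hK := kap_UC hda hD (b := 0) (h := 0) hstep hTs hs hFM hf hU
  have hQ := QT_BCo hda hs hf
  have hlim1 := hK.seq (fun j => hda.pos j) hQ.cont (φ := id) tendsto_id (ys := fun j => x * a j)
    (fun i h0 => absurd rfl h0) hx (by
      refine tendsto_const_nhds.congr fun j => ?_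
      have := hda.pos j
      simp only [id]
      field_simp)
  simp only [id] at hlim1
  have hlim2 := L3c_kllt hda hL hTst (by positivity : 0 < s + t) hx hy
  have heq : (fun j : ℕ => ∫ z, F j z ∂(kap (Set.Ioi 0) ρ ⌊s * (j : ℝ)⌋₊ (x * a j))) =ᶠ[atTop]
      fun j => a j * (kap (Set.Ioi 0) ρ (⌊s * (j : ℝ)⌋₊ + ⌊t * (j : ℝ)⌋₊) (x * a j)).real
        (IV (Set.Ioi 0) (y * a j) (y * a j + L3c_len σ)) := by
    filter_upwards [hM₀b] with j hjM
    rw [L3c_kap_add hD _ _ _ (measurableSet_IV hD _ _), ← integral_const_mul]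
    refine integral_congr_ae (Filter.Eventually.of_forall fun z => ?_)
    exact min_eq_right ((hjM z (y * a j)).trans (le_max_left _ _))
  have h3 := tendsto_nhds_unique (hlim1.congr' heq) hlim2
  have h4 := QT_smul hda hs (hBC y hy) L hx
  rw [h4] at h3
  exact mul_left_cancel₀ hlen.ne' h3

/-- **[STB-L3f]** Comparison with the free density. PROOF. `kllt`, `L2_free` and `L1_return` (windows `J` as in `L2_rate`):
`a_n ((fre k x)(J) - (kap k x)(J)) ≤ (L + 2) ε'` for `k ≤ 2 δ₀ n`, `u ≥ r a_n`. -/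
theorem qT_ge (hda : DA α ζ ρ a) {r : ℝ} (hr : 0 < r) : ∀ ε > (0 : ℝ), ∃ δ₀ > (0 : ℝ), ∀ δ, 0 < δ → δ ≤ δ₀ →
    ∀ x y : ℝ, 0 < x → r ≤ y → dt α ζ δ (y - x) - ε ≤ qT α ζ δ x y := by
  have := hda.prob
  have hD : Dom (Set.Ioi (0 : ℝ)) := Or.inr rfl
  obtain ⟨b, σ, hL⟩ := hda.exists_lat
  have hlen := L3c_len_pos hL.nonneg
  set L := L3c_len σ with hLdef
  intro ε hε
  set N : ℕ := ⌈L⌉₊ with hN
  have hLN : L ≤ N := Nat.le_ceil _
  obtain ⟨δ₀, hδ₀, Hret⟩ := L1_return hda hD hr (ε * L / (4 * (N + 1))) (by positivity)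
  refine ⟨δ₀, hδ₀, ?_⟩
  intro δ hδ hδδ x y hx hy
  have hy0 : 0 < y := lt_of_lt_of_le hr hy
  have hT : Tm (fun j => j) (fun j => ⌊δ * (j : ℝ)⌋₊) δ := Tm.floor tendsto_id hδ.le
  have hkl := L3c_kllt hda hL hT hδ hx hy0
  have h1 : ∀ᶠ j : ℕ in atTop, L * dt α ζ δ (y - x) - ε * L / 2 ≤
      a j * (kap (Set.Ioi 0) ρ ⌊δ * (j : ℝ)⌋₊ (x * a j)).real
        (IV (Set.Ioi 0) (y * a j) (y * a j + L3c_len σ)) := by
    filter_upwards [Hret, L2_free hda hD hL hT hδ hlen (ε * L / 4) (by positivity)] with j hj1 hj2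
    have haj := hda.pos j
    have hm : ((⌊δ * (j : ℝ)⌋₊ : ℕ) : ℝ) ≤ δ₀ * j :=
      (Nat.floor_le (by positivity)).trans (mul_le_mul_of_nonneg_right hδδ (Nat.cast_nonneg j))
    have g1 := L3c_cover (μ := fre ρ ⌊δ * (j : ℝ)⌋₊ (x * a j))
      (ν := kap (Set.Ioi 0) ρ ⌊δ * (j : ℝ)⌋₊ (x * a j)) (q := ε * L / (4 * (N + 1)) / a j) (r := r * a j)
      (fun z hz J hJ hJz => (hj1 _ hm (x * a j) z hz J hJ hJz).2) N (y * a j)
      (mul_le_mul_of_nonneg_right hy haj.le) (IV (Set.Ioi 0) (y * a j) (y * a j + L))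
      (measurableSet_IV hD _ _)
      ((IV_subset hD _ _).trans (Set.Icc_subset_Icc_right (by linarith)))
    have g2 := hj2 (x * a j) (y * a j) (y * a j + L) (by linarith) le_rfl
    have e1 : (y * a j - x * a j) / a j = y - x := by field_simp
    rw [hLdef, L3c_lam hL.nonneg, ← hLdef, e1] at g2
    have g3 := (abs_le.1 g2).1
    have g4 : a j * ((fre ρ ⌊δ * (j : ℝ)⌋₊ (x * a j)).real (IV (Set.Ioi 0) (y * a j) (y * a j + L)) -
        (kap (Set.Ioi 0) ρ ⌊δ * (j : ℝ)⌋₊ (x * a j)).real (IV (Set.Ioi 0) (y * a j) (y * a j + L))) ≤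
        ε * L / 4 := by
      calc _ ≤ a j * (((N : ℝ) + 1) * (ε * L / (4 * (N + 1)) / a j)) := mul_le_mul_of_nonneg_left g1 haj.le
        _ = ε * L / 4 := by field_simp
    linarith
  have h2 := ge_of_tendsto hkl h1
  have h3 : L * (dt α ζ δ (y - x) - ε) ≤ L * qT α ζ δ x y := by
    have : 0 < ε * L := by positivity
    linarith
  exact le_of_mul_le_mul_left h3 hlen

end Pool.Agent.BPT
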