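import Pool.Agent.MP_99a865_pr.ST.Defs

/-! **[STB-N1]** Strictly stable laws: modulus of the characteristic function. -/

open MeasureTheory ProbabilityTheory Filter Topology
open scoped ENNReal NNReal

namespace Pool.Agent.BPT

variable {α : ℝ} {ζ ρ : Measure ℝ}

theorem N1_dual_charFun (ζ : Measure ℝ) (t : ℝ) : charFun (Pool.Agent.BPT.dual ζ) t = charFun ζ (-t) := by
  have h : Pool.Agent.BPT.dual ζ = ζ.map (fun x => (-1 : ℝ) * x) := by
    unfold Pool.Agent.BPT.dual
    congr 1
    funext x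
    ring
  rw [h, charFun_map_mul]
  congr 1
  ring

theorem N1_map_dirac {μ : Measure ℝ} [IsProbabilityMeasure μ] {c : ℝ} (h : ∀ᵐ y ∂μ, y = c) :
    μ = Measure.dirac c := by
  have h1 : μ.map (fun y => y) = μ.map (fun _ => c) := Measure.map_congr h
  rw [Measure.map_id', Measure.map_const, measure_univ, one_smul] at h1
  exact h1

/-- a probability law with `‖charFun‖ = 1` everywhere is a point mass. PROOF. `charFun ζ t * conj (charFun ζ t)`
is the characteristic function of `Y - Y'` (independent copies), so by `Measure.ext_of_charFun` the law of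
`Y - Y'` under `ζ.prod ζ` is `dirac 0`; by Fubini there is `y'` with `Y = y'` a.s. -/
theorem eq_dirac_of_norm_charFun [IsProbabilityMeasure ζ] (h : ∀ t : ℝ, ‖charFun ζ t‖ = 1) :
    ∃ x, ζ = Measure.dirac x := by
  have hp : IsProbabilityMeasure (Pool.Agent.BPT.dual ζ) :=
    Measure.isProbabilityMeasure_map (by fun_prop)
  have h1 : (ζ.prod (Pool.Agent.BPT.dual ζ)).map (fun p => p.1 + p.2) = Measure.dirac 0 := by
    have : IsProbabilityMeasure ((ζ.prod (Pool.Agent.BPT.dual ζ)).map (fun p : ℝ × ℝ => p.1 + p.2)) :=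
      Measure.isProbabilityMeasure_map (by fun_prop)
    apply Measure.ext_of_charFun
    rw [charFun_map_add_prod_eq_mul]
    funext t
    rw [Pi.mul_apply, N1_dual_charFun, charFun_neg, charFun_dirac, Complex.mul_conj,
      Complex.normSq_eq_norm_sq, h t]
    simp
  have h2 : ∀ᵐ p ∂(ζ.prod (Pool.Agent.BPT.dual ζ)), p.1 + p.2 = 0 := by
    have h3 : ∀ᵐ z ∂((ζ.prod (Pool.Agent.BPT.dual ζ)).map (fun p : ℝ × ℝ => p.1 + p.2)), z = 0 := by
      rw [h1, ae_dirac_iff (measurableSet_eq)]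
    exact (ae_map_iff (by fun_prop) measurableSet_eq).mp h3
  have h4 : ∀ᵐ x ∂ζ, ∀ᵐ y ∂(Pool.Agent.BPT.dual ζ), x + y = 0 := Measure.ae_ae_of_ae_prod h2
  obtain ⟨x, hx⟩ := h4.exists
  have h5 : ∀ᵐ y ∂ζ, x + (-y) = 0 := by
    have : MeasurableSet {y : ℝ | x + y = 0} := measurableSet_eq_fun (by fun_prop) (by fun_prop)
    exact (ae_map_iff (by fun_prop) this).mp hx
  refine ⟨x, N1_map_dirac ?_⟩
  filter_upwards [h5] with y hy
  linarith

/-- **[STB-N1]** PROOF. `u t = ‖charFun ζ t‖` is continuous, even (`charFun ζ (-t)` is the conjugate), `u 0 = 1`,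
`0 ≤ u ≤ 1`, and `u t ^ m = u (m^{1/α} t)` for `m ≥ 1`. (1) `u > 0`: if `u t = 0` then `u (t / m^{1/α}) ^ m = u t = 0`
for all `m ≥ 1`, so `u (t / m^{1/α}) = 0`, and `m → ∞` contradicts continuity at `0`. (2) For `s ≥ 0` let
`Ψ s = - log (u (s^{1/α}))`, continuous, `Ψ ≥ 0`; `Ψ (m s) = m Ψ s` for all `m ≥ 1`, hence `Ψ (q s) = q Ψ s` for
rational `q ≥ 0`, hence (continuity) `Ψ s = s Ψ 1`. `c = Ψ 1 ≥ 0`. (3) If `c = 0` then `u = 1` everywhere and `ζ`
is a point mass by `eq_dirac_of_norm_charFun`, against `nd`. -/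
theorem SS.norm (h : SS α ζ) (hα : 0 < α) :
    ∃ c > (0 : ℝ), ∀ t : ℝ, ‖charFun ζ t‖ = Real.exp (-c * |t| ^ α) := by
  have hprob := h.prob
  have hα' : 0 < 1 / α := by positivity
  -- the modulus
  obtain ⟨u, hu⟩ : ∃ u : ℝ → ℝ, u = fun t => ‖charFun ζ t‖ := ⟨_, rfl⟩
  have huc : Continuous u := by rw [hu]; exact continuous_charFun.norm
  have hu0 : u 0 = 1 := by rw [hu]; simp [charFun_zero]
  have hnn : ∀ t, 0 ≤ u t := fun t => by rw [hu]; exact norm_nonneg _
  have hu1 : ∀ t, u t ≤ 1 := fun t => by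
    rw [hu]
    have := norm_charFun_le (μ := ζ) t
    simpa using this
  have heven : ∀ t, u (-t) = u t := fun t => by
    rw [hu]
    simp only [charFun_neg, RCLike.norm_conj]
  have hst : ∀ m : ℕ, 1 ≤ m → ∀ t, u t ^ m = u ((m : ℝ) ^ (1 / α) * t) := by
    intro m hm t
    rw [hu]
    simp only
    rw [← norm_pow, h.st m hm t]
  have hscale : Tendsto (fun m : ℕ => (m : ℝ) ^ (1 / α)) atTop atTop :=
    (tendsto_rpow_atTop hα').comp tendsto_natCast_atTop_atTop
  have hpos : ∀ t, 0 < u t := by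
    intro t
    rcases (hnn t).lt_or_eq with h1 | h1
    · exact h1
    · exfalso
      have h2 : Tendsto (fun m : ℕ => u (t / (m : ℝ) ^ (1 / α))) atTop (𝓝 (u 0)) :=
        (huc.tendsto 0).comp (hscale.const_div_atTop t)
      have h3 : ∀ᶠ m : ℕ in atTop, u (t / (m : ℝ) ^ (1 / α)) = 0 := by
        filter_upwards [eventually_ge_atTop 1] with m hm
        have hm' : (0 : ℝ) < (m : ℝ) ^ (1 / α) := Real.rpow_pos_of_pos (by exact_mod_cast hm) _
        have h4 := hst m hm (t / (m : ℝ) ^ (1 / α))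
        rw [mul_div_cancel₀ _ hm'.ne', ← h1] at h4
        exact pow_eq_zero_iff (by omega) |>.1 h4
      have h5 : Tendsto (fun m : ℕ => u (t / (m : ℝ) ^ (1 / α))) atTop (𝓝 0) :=
        tendsto_const_nhds.congr' (h3.mono fun m hm => hm.symm)
      have := tendsto_nhds_unique h2 h5
      rw [hu0] at this
      exact one_ne_zero this
  -- the exponent
  obtain ⟨L, hL⟩ : ∃ L : ℝ → ℝ, L = fun t => -Real.log (u t) := ⟨_, rfl⟩
  have hLc : Continuous L := by
    rw [hL]; exact (huc.log fun t => (hpos t).ne').neg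
  have hL0 : L 0 = 0 := by rw [hL]; simp [hu0]
  have hLnn : ∀ t, 0 ≤ L t := fun t => by
    rw [hL]
    simp only
    have := Real.log_nonpos (hnn t) (hu1 t)
    linarith
  have hLst : ∀ m : ℕ, 1 ≤ m → ∀ t, (m : ℝ) * L t = L ((m : ℝ) ^ (1 / α) * t) := by
    intro m hm t
    rw [hL]
    simp only
    rw [← hst m hm t, Real.log_pow]
    ring
  have hrat : ∀ m k : ℕ, 1 ≤ m → 1 ≤ k → L (((m : ℝ) / k) ^ (1 / α)) = (m : ℝ) / k * L 1 := by
    intro m k hm hk
    have hm' : (0 : ℝ) < m := by exact_mod_cast hm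
    have hk' : (0 : ℝ) < k := by exact_mod_cast hk
    have hkp : (0 : ℝ) < (k : ℝ) ^ (1 / α) := Real.rpow_pos_of_pos hk' _
    have e1 := hLst k hk (1 / (k : ℝ) ^ (1 / α))
    rw [mul_one_div_cancel hkp.ne'] at e1
    have e2 := hLst m hm (1 / (k : ℝ) ^ (1 / α))
    rw [Real.div_rpow hm'.le hk'.le, div_eq_mul_one_div, ← e2, ← e1]
    field_simp
  have hreal : ∀ s : ℝ, L (|s| ^ (1 / α)) = |s| * L 1 := by
    have hf : Continuous (fun s : ℝ => L (|s| ^ (1 / α))) :=
      hLc.comp ((Real.continuous_rpow_const hα'.le).comp continuous_abs)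
    have hg : Continuous (fun s : ℝ => |s| * L 1) := by fun_prop
    have hd : Dense (Set.range ((↑) : ℚ → ℝ)) := Rat.denseRange_cast
    have heq : Set.EqOn (fun s : ℝ => L (|s| ^ (1 / α))) (fun s : ℝ => |s| * L 1)
        (Set.range ((↑) : ℚ → ℝ)) := by
      rintro _ ⟨q, rfl⟩
      simp only
      have hq : |(q : ℝ)| = (q.num.natAbs : ℝ) / q.den := by
        rw [← Rat.cast_abs, Rat.cast_def, Rat.num_abs_eq_abs_num, Rat.den_abs_eq_den]
        congr 1
        rw [← Int.cast_natCast, Int.natCast_natAbs]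
      rw [hq]
      rcases Nat.eq_zero_or_pos q.num.natAbs with h0 | h0
      · rw [h0, Nat.cast_zero, zero_div, Real.zero_rpow hα'.ne', hL0, zero_mul]
      · exact hrat _ _ h0 q.den_pos
    exact fun s => congrFun (Continuous.ext_on hd hf hg heq) s
  have hfin : ∀ t : ℝ, L t = L 1 * |t| ^ α := by
    have key : ∀ t : ℝ, 0 ≤ t → L t = L 1 * |t| ^ α := by
      intro t ht
      have h1 := hreal (t ^ α)
      rw [abs_of_nonneg (Real.rpow_nonneg ht α), ← Real.rpow_mul ht, mul_one_div_cancel hα.ne',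
        Real.rpow_one] at h1
      rw [h1, abs_of_nonneg ht]
      ring
    intro t
    rcases le_total 0 t with ht | ht
    · exact key t ht
    · have h1 := key (-t) (by linarith)
      rw [abs_neg] at h1
      rw [← h1, hL]
      simp only
      rw [heven]
  have hexp : ∀ t : ℝ, u t = Real.exp (-(L 1) * |t| ^ α) := by
    intro t
    have h1 := hfin t
    rw [hL] at h1
    simp only at h1
    have h2 : Real.log (u t) = -(L 1) * |t| ^ α := by
      rw [hL]
      simp only
      linarith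
    rw [← h2, Real.exp_log (hpos t)]
  refine ⟨L 1, ?_, fun t => ?_⟩
  · rcases (hLnn 1).lt_or_eq with h1 | h1
    · exact h1
    · exfalso
      obtain ⟨x, hx⟩ := eq_dirac_of_norm_charFun (ζ := ζ) (fun t => by
        have := hexp t
        rw [← h1, hu] at this
        simpa using this)
      exact h.nd x hx
  · have := hexp t
    rw [hu] at this
    exact this

/-- (`charFun (dual ζ) t = charFun ζ (-t)`; `dual (dual ζ) = ζ`) -/
theorem SS.dual (h : SS α ζ) : SS α (dual ζ) := by
  have hprob := h.prob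
  refine ⟨Measure.isProbabilityMeasure_map (by fun_prop), ?_, ?_⟩
  · intro x hx
    apply h.nd (-x)
    have h1 : (Pool.Agent.BPT.dual ζ).map (fun y => -y) = ζ := by
      unfold Pool.Agent.BPT.dual
      rw [Measure.map_map (by fun_prop) (by fun_prop)]
      have : ((fun y : ℝ => -y) ∘ fun x : ℝ => -x) = id := by
        funext y; simp
      rw [this, Measure.map_id]
    rw [← h1, hx, Measure.map_dirac' (by fun_prop)]
  · intro m hm t
    rw [N1_dual_charFun, N1_dual_charFun, h.st m hm (-t)]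
    congr 1
    ring

end Pool.Agent.BPT
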