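import Pool.Agent.MP_99a865_pr.ST.N1
import Pool.Agent.MP_99a865_pr.FV.A3

/-! **[STB-N2]** The characteristic function of a law in the domain of attraction. -/

open MeasureTheory ProbabilityTheory Filter Topology
open scoped ENNReal NNReal

namespace Pool.Agent.BPT

variable {α : ℝ} {ζ ρ : Measure ℝ} {a : ℕ → ℝ}

/-- law of `S_n / a_n` -/
private noncomputable def N2_law (ρ : Measure ℝ) (a : ℕ → ℝ) (n : ℕ) : Measure ℝ :=
  (fre ρ n 0).map fun y => y / a n

private theorem N2_meas (a : ℕ → ℝ) (n : ℕ) : Measurable fun y : ℝ => y / a n :=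
  measurable_id.div_const _

private theorem N2_prob [IsProbabilityMeasure ρ] (a : ℕ → ℝ) (n : ℕ) :
    IsProbabilityMeasure (N2_law ρ a n) :=
  Measure.isProbabilityMeasure_map (N2_meas a n).aemeasurable

private theorem N2_char [IsProbabilityMeasure ρ] (a : ℕ → ℝ) (n : ℕ) (t : ℝ) :
    charFun (N2_law ρ a n) t = charFun ρ (t / a n) ^ n := by
  have h1 : N2_law ρ a n = (fre ρ n 0).map ((a n)⁻¹ * ·) := by
    unfold N2_law
    congr 1
    funext y
    rw [div_eq_inv_mul]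
  rw [h1, charFun_map_mul, charFun_fre]
  simp [div_eq_inv_mul]

private theorem N2_tendsto (h : DA α ζ ρ a) (t : ℝ) :
    Tendsto (fun n : ℕ => charFun (N2_law ρ a n) t) atTop (𝓝 (charFun ζ t)) := by
  have := h.prob
  simp only [N2_char]
  exact h.lim t

/-- **[STB-N2a]** The laws of `S_n / a_n` converge weakly to `ζ`. PROOF. `charFun` of the law of `S_n / a_n` at `t` is
`charFun ρ (t / a n) ^ n` (independence; see `C1_inv`/`C2_inv` in FV for the same computation, or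
`charFun_map_..`); Lévy's theorem `ProbabilityMeasure.tendsto_iff_tendsto_charFun`. -/
theorem DA.weak (h : DA α ζ ρ a) (f : BoundedContinuousFunction ℝ ℝ) :
    Tendsto (fun n : ℕ => ∫ y, f (y / a n) ∂(fre ρ n 0)) atTop (𝓝 (∫ y, f y ∂ζ)) := by
  have := h.prob
  have := h.ss.prob
  have hp : ∀ n, IsProbabilityMeasure (N2_law ρ a n) := fun n => N2_prob a n
  set μ : ℕ → ProbabilityMeasure ℝ := fun n => ⟨N2_law ρ a n, hp n⟩ with hμ
  set μ₀ : ProbabilityMeasure ℝ := ⟨ζ, h.ss.prob⟩ with hμ₀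
  have h1 : Tendsto μ atTop (𝓝 μ₀) :=
    ProbabilityMeasure.tendsto_iff_tendsto_charFun.2 fun t => N2_tendsto h t
  have h2 := (ProbabilityMeasure.tendsto_iff_forall_integral_tendsto.1 h1) f
  have h3 : ∀ n, ∫ y, f (y / a n) ∂(fre ρ n 0) = ∫ y, f y ∂(μ n : Measure ℝ) := by
    intro n
    change _ = ∫ y, f y ∂(N2_law ρ a n)
    unfold N2_law
    rw [integral_map (N2_meas a n).aemeasurable f.continuous.aestronglyMeasurable]
  simp only [h3]
  exact h2

/-- **[STB-N2b]** Tightness (`isTightMeasureSet_of_tendsto_charFun`, or from `DA.weak` with cutoff functions). -/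
theorem DA.tight (h : DA α ζ ρ a) : ∀ ε > (0 : ℝ), ∃ R > (0 : ℝ), ∀ n : ℕ,
    (fre ρ n 0).real {y | R * a n ≤ |y|} ≤ ε := by
  intro ε hε
  have := h.prob
  have := h.ss.prob
  have hp : ∀ n, IsProbabilityMeasure (N2_law ρ a n) := fun n => N2_prob a n
  have h1 : IsTightMeasureSet (Set.range (N2_law ρ a)) :=
    isTightMeasureSet_of_tendsto_charFun (f := charFun ζ) continuous_charFun.continuousAt
      fun t => N2_tendsto h t
  have h2 := tendsto_measure_norm_gt_of_isTightMeasureSet h1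
  have h3 : ∀ᶠ r : ℝ in atTop, (⨆ μ ∈ Set.range (N2_law ρ a), μ {x | r < ‖x‖}) < ENNReal.ofReal ε :=
    h2.eventually (gt_mem_nhds (ENNReal.ofReal_pos.2 hε))
  obtain ⟨r, hr⟩ := (h3.and (eventually_ge_atTop (0 : ℝ))).exists
  refine ⟨r + 1, by linarith [hr.2], fun n => ?_⟩
  have h4 : N2_law ρ a n {x | r < ‖x‖} ≤ ENNReal.ofReal ε :=
    (le_iSup₂ (f := fun (μ : Measure ℝ) (_ : μ ∈ Set.range (N2_law ρ a)) => μ {x | r < ‖x‖})
      (N2_law ρ a n) ⟨n, rfl⟩).trans hr.1.le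
  have h5 : fre ρ n 0 {y | (r + 1) * a n ≤ |y|} ≤ ENNReal.ofReal ε := by
    refine le_trans ?_ h4
    have hm : MeasurableSet {x : ℝ | r < ‖x‖} := measurableSet_lt measurable_const measurable_norm
    unfold N2_law
    rw [Measure.map_apply (N2_meas a n) hm]
    refine measure_mono fun y hy => ?_
    have hy' : (r + 1) * a n ≤ |y| := hy
    change r < ‖y / a n‖
    rw [Real.norm_eq_abs, abs_div, abs_of_pos (h.pos n), lt_div_iff₀ (h.pos n)]
    nlinarith [h.pos n]
  exact ENNReal.toReal_le_of_le_ofReal hε.le h5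

/-- **[STB-N2c]** PROOF. Fix `s`, `v_n = ‖charFun ρ (s / a n)‖`. `v_n ^ n → ‖charFun ζ s‖ = exp (-c |s|^α) > 0`, so
`v_n > 0` eventually, `n log v_n → -c|s|^α`, hence `log v_n → 0`, `v_n → 1`, and
`n (1 - v_n²) = -n log v_n · (1 - v_n²)/(-log v_n) → c |s|^α · 2` (`(1 - v²)/(-log v) → 2` as `v → 1`; the case `v_n = 1`
is trivial: then both are `0`; or use `log v ≤ v - 1` and `log v ≥ 1 - 1/v`). -/
theorem DA.char_lim (h : DA α ζ ρ a) {c : ℝ} (hc : ∀ t : ℝ, ‖charFun ζ t‖ = Real.exp (-c * |t| ^ α)) (s : ℝ) :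
    Tendsto (fun n : ℕ => n * (1 - ‖charFun ρ (s / a n)‖ ^ 2)) atTop (𝓝 (2 * c * |s| ^ α)) := by
  have := h.prob
  set v : ℕ → ℝ := fun n => ‖charFun ρ (s / a n)‖ with hv
  have h1 : Tendsto (fun n => v n ^ n) atTop (𝓝 (Real.exp (-c * |s| ^ α))) := by
    have := (h.lim s).norm
    rw [hc s] at this
    simpa only [norm_pow] using this
  have h2 : Tendsto (fun n => Real.log (v n ^ n)) atTop (𝓝 (-c * |s| ^ α)) := by
    have := h1.log (Real.exp_pos _).ne'
    rwa [Real.log_exp] at this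
  have h2' : Tendsto (fun n : ℕ => (n : ℝ) * Real.log (v n)) atTop (𝓝 (-c * |s| ^ α)) := by
    refine h2.congr fun n => ?_
    rw [Real.log_pow]
  have h3 : Tendsto (fun n : ℕ => Real.log (v n)) atTop (𝓝 0) := by
    have h4 : Tendsto (fun n : ℕ => ((n : ℝ) * Real.log (v n)) * (n : ℝ)⁻¹) atTop (𝓝 (-c * |s| ^ α * 0)) :=
      h2'.mul tendsto_inv_atTop_nhds_zero_nat
    rw [mul_zero] at h4
    refine h4.congr' ?_
    filter_upwards [eventually_gt_atTop 0] with n hn
    have : (n : ℝ) ≠ 0 := by exact_mod_cast hn.ne'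
    field_simp
  have hvpos : ∀ᶠ n in atTop, 0 < v n := by
    have h5 : ∀ᶠ n in atTop, 0 < v n ^ n := h1.eventually (lt_mem_nhds (Real.exp_pos _))
    filter_upwards [h5, eventually_gt_atTop 0] with n hn hn0
    rcases (norm_nonneg (charFun ρ (s / a n))).eq_or_lt with h6 | h6
    · exfalso
      have : v n = 0 := h6.symm
      rw [this, zero_pow hn0.ne'] at hn
      exact lt_irrefl _ hn
    · exact h6
  have h4 : Tendsto v atTop (𝓝 1) := by
    have h5 := (Real.continuous_exp.tendsto 0).comp h3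
    rw [Real.exp_zero] at h5
    refine h5.congr' ?_
    filter_upwards [hvpos] with n hn
    exact Real.exp_log hn
  have hup : Tendsto (fun n : ℕ => -2 * ((n : ℝ) * Real.log (v n))) atTop (𝓝 (2 * c * |s| ^ α)) := by
    have := h2'.const_mul (-2)
    have e : -2 * (-c * |s| ^ α) = 2 * c * |s| ^ α := by ring
    rwa [e] at this
  have hlo : Tendsto (fun n : ℕ => v n ^ 2 * (-2 * ((n : ℝ) * Real.log (v n)))) atTop
      (𝓝 (2 * c * |s| ^ α)) := by
    have := (h4.pow 2).mul hup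
    rwa [one_pow, one_mul] at this
  refine tendsto_of_tendsto_of_tendsto_of_le_of_le' hlo hup ?_ ?_
  · filter_upwards [hvpos] with n hn
    have hv2 : 0 < v n ^ 2 := by positivity
    have h5 := Real.one_sub_inv_le_log_of_pos hv2
    rw [Real.log_pow] at h5
    push_cast at h5
    have h6 : v n ^ 2 * (1 - (v n ^ 2)⁻¹) ≤ v n ^ 2 * (2 * Real.log (v n)) :=
      mul_le_mul_of_nonneg_left h5 hv2.le
    have h7 : v n ^ 2 * (1 - (v n ^ 2)⁻¹) = v n ^ 2 - 1 := by
      field_simp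
    rw [h7] at h6
    have h8 : (n : ℝ) * (v n ^ 2 - 1) ≤ (n : ℝ) * (v n ^ 2 * (2 * Real.log (v n))) :=
      mul_le_mul_of_nonneg_left h6 (Nat.cast_nonneg n)
    have e1 : v n ^ 2 * (-2 * ((n : ℝ) * Real.log (v n))) =
        -((n : ℝ) * (v n ^ 2 * (2 * Real.log (v n)))) := by ring
    have e2 : (n : ℝ) * (1 - v n ^ 2) = -((n : ℝ) * (v n ^ 2 - 1)) := by ring
    rw [e1, e2]
    exact neg_le_neg h8
  · filter_upwards [hvpos] with n hn
    have hv2 : 0 < v n ^ 2 := by positivity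
    have h5 := Real.log_le_sub_one_of_pos hv2
    rw [Real.log_pow] at h5
    push_cast at h5
    have h8 : (n : ℝ) * (2 * Real.log (v n)) ≤ (n : ℝ) * (v n ^ 2 - 1) :=
      mul_le_mul_of_nonneg_left h5 (Nat.cast_nonneg n)
    have e1 : -2 * ((n : ℝ) * Real.log (v n)) = -((n : ℝ) * (2 * Real.log (v n))) := by ring
    have e2 : (n : ℝ) * (1 - v n ^ 2) = -((n : ℝ) * (v n ^ 2 - 1)) := by ring
    rw [e1, e2]
    exact neg_le_neg h8

/-- `U(2s) ≤ 4 U(s)` -/
private theorem N2_double [IsProbabilityMeasure ρ] (s : ℝ) :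
    1 - ‖charFun ρ (2 * s)‖ ^ 2 ≤ 4 * (1 - ‖charFun ρ s‖ ^ 2) := by
  have : IsProbabilityMeasure (ρ.map fun x => (-1) * x) :=
    Measure.isProbabilityMeasure_map (measurable_const_mul (-1 : ℝ)).aemeasurable
  set μ : Measure ℝ := ρ ∗ (ρ.map fun x => (-1) * x) with hμ
  have : IsProbabilityMeasure μ := by rw [hμ]; infer_instance
  have hch : ∀ t : ℝ, (‖charFun ρ t‖ ^ 2 : ℝ) = ∫ x, Real.cos (t * x) ∂μ := by
    intro t
    have h1 : charFun μ t = ((‖charFun ρ t‖ ^ 2 : ℝ) : ℂ) := by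
      rw [hμ, charFun_conv, charFun_map_mul, neg_one_mul, charFun_neg, Complex.mul_conj,
        Complex.normSq_eq_norm_sq]
    have hint : Integrable (fun x : ℝ => Complex.exp (t * x * Complex.I)) μ := by
      refine Integrable.mono' (integrable_const (1 : ℝ)) (by fun_prop) (ae_of_all _ fun x => ?_)
      have : ((t : ℂ) * x * Complex.I) = ((t * x : ℝ) : ℂ) * Complex.I := by push_cast; ring
      rw [this, Complex.norm_exp_ofReal_mul_I]
    have h2 : (charFun μ t).re = ∫ x, Real.cos (t * x) ∂μ := by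
      rw [charFun_apply_real]
      have h3 := integral_re hint
      rw [show (∫ x, Complex.exp (t * x * Complex.I) ∂μ).re =
        RCLike.re (∫ x, Complex.exp (t * x * Complex.I) ∂μ) from rfl, ← h3]
      refine integral_congr_ae (ae_of_all _ fun x => ?_)
      have : ((t : ℂ) * x * Complex.I) = ((t * x : ℝ) : ℂ) * Complex.I := by push_cast; ring
      change (Complex.exp (t * x * Complex.I)).re = Real.cos (t * x)
      rw [this, Complex.exp_ofReal_mul_I_re]
    rw [← h2, h1, Complex.ofReal_re]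
  have hic : ∀ t : ℝ, Integrable (fun x : ℝ => Real.cos (t * x)) μ := by
    intro t
    refine Integrable.mono' (integrable_const (1 : ℝ)) (by fun_prop) (ae_of_all _ fun x => ?_)
    rw [Real.norm_eq_abs]
    exact Real.abs_cos_le_one _
  have h1 : ∀ t : ℝ, 1 - ‖charFun ρ t‖ ^ 2 = ∫ x, (1 - Real.cos (t * x)) ∂μ := by
    intro t
    rw [integral_sub (integrable_const _) (hic t), hch t]
    simp
  rw [h1, h1, ← integral_const_mul]
  refine integral_mono ((integrable_const _).sub (hic _)) (((integrable_const _).sub (hic _)).const_mul _)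
    fun x => ?_
  change 1 - Real.cos (2 * s * x) ≤ 4 * (1 - Real.cos (s * x))
  have e : 2 * s * x = 2 * (s * x) := by ring
  rw [e, Real.cos_two_mul]
  nlinarith [Real.cos_le_one (s * x), sq_nonneg (1 - Real.cos (s * x))]

private theorem N2_pow [IsProbabilityMeasure ρ] (k : ℕ) (s : ℝ) :
    1 - ‖charFun ρ (2 ^ k * s)‖ ^ 2 ≤ 4 ^ k * (1 - ‖charFun ρ s‖ ^ 2) := by
  induction k with
  | zero => simp
  | succ k ih =>
    have e : (2 : ℝ) ^ (k + 1) * s = 2 * (2 ^ k * s) := by ring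
    rw [e]
    calc 1 - ‖charFun ρ (2 * (2 ^ k * s))‖ ^ 2 ≤ 4 * (1 - ‖charFun ρ (2 ^ k * s)‖ ^ 2) := N2_double _
      _ ≤ 4 * (4 ^ k * (1 - ‖charFun ρ s‖ ^ 2)) := by linarith
      _ = 4 ^ (k + 1) * (1 - ‖charFun ρ s‖ ^ 2) := by ring

/-- lower bound of the characteristic function of `S_n / a_n` near zero -/
private theorem N2_low (h : DA α ζ ρ a) : ∃ s₀ > (0 : ℝ), ∀ (n : ℕ) (s : ℝ), |s| ≤ s₀ →
    1 / 2 ≤ ‖charFun ρ (s / a n)‖ ^ n := by
  have := h.prob
  obtain ⟨R, hR, ht⟩ := h.tight (1 / 8) (by norm_num)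
  refine ⟨1 / (4 * R), by positivity, fun n s hs => ?_⟩
  have : IsProbabilityMeasure (fre ρ n 0) := inferInstance
  have han := h.pos n
  -- the characteristic function
  have h1 : charFun ρ (s / a n) ^ n = charFun (fre ρ n 0) (s / a n) := by
    rw [charFun_fre]
    simp
  set A : Set ℝ := {y | R * a n ≤ |y|} with hA
  have hAm : MeasurableSet A := measurableSet_le measurable_const measurable_abs
  have hb : ∀ y : ℝ, ‖1 - Complex.exp ((s / a n : ℝ) * y * Complex.I)‖ ≤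
      |s| * R + A.indicator (fun _ => (2 : ℝ)) y := by
    intro y
    have e : (((s / a n : ℝ) : ℂ) * y * Complex.I) = Complex.I * ((s / a n * y : ℝ) : ℂ) := by
      push_cast; ring
    rw [e, norm_sub_rev]
    by_cases hy : y ∈ A
    · rw [Set.indicator_of_mem hy]
      have h2 : ‖Complex.exp (Complex.I * ((s / a n * y : ℝ) : ℂ)) - 1‖ ≤ 2 := by
        refine (norm_sub_le _ _).trans ?_
        rw [mul_comm, Complex.norm_exp_ofReal_mul_I, norm_one]
        norm_num
      have : 0 ≤ |s| * R := by positivity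
      linarith
    · rw [Set.indicator_of_notMem hy, add_zero]
      refine Real.norm_exp_I_mul_ofReal_sub_one_le.trans ?_
      have hy' : |y| < R * a n := not_le.1 hy
      rw [Real.norm_eq_abs, abs_mul, abs_div, abs_of_pos han]
      have : |s| / a n * |y| ≤ |s| / a n * (R * a n) :=
        mul_le_mul_of_nonneg_left hy'.le (by positivity)
      refine this.trans (le_of_eq ?_)
      field_simp
  have hint : Integrable (fun y : ℝ => Complex.exp ((s / a n : ℝ) * y * Complex.I)) (fre ρ n 0) := by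
    refine Integrable.mono' (integrable_const (1 : ℝ)) (by fun_prop) (ae_of_all _ fun x => ?_)
    have : (((s / a n : ℝ) : ℂ) * x * Complex.I) = ((s / a n * x : ℝ) : ℂ) * Complex.I := by
      push_cast; ring
    rw [this, Complex.norm_exp_ofReal_mul_I]
  have h2 : ‖1 - charFun (fre ρ n 0) (s / a n)‖ ≤ 1 / 2 := by
    have e1 : 1 - charFun (fre ρ n 0) (s / a n) =
        ∫ y, (1 - Complex.exp ((s / a n : ℝ) * y * Complex.I)) ∂(fre ρ n 0) := by
      rw [integral_sub (integrable_const _) hint, charFun_apply_real]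
      simp
    rw [e1]
    refine (norm_integral_le_integral_norm _).trans ?_
    have hi : Integrable (fun y => |s| * R + A.indicator (fun _ => (2 : ℝ)) y) (fre ρ n 0) :=
      (integrable_const _).add ((integrable_const _).indicator hAm)
    refine (integral_mono_of_nonneg (ae_of_all _ fun _ => norm_nonneg _) hi
      (ae_of_all _ hb)).trans ?_
    rw [integral_add (integrable_const _) ((integrable_const _).indicator hAm),
      integral_indicator hAm, setIntegral_const, integral_const]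
    simp only [probReal_univ, smul_eq_mul]
    have h3 : |s| * R ≤ 1 / 4 := by
      calc |s| * R ≤ 1 / (4 * R) * R := mul_le_mul_of_nonneg_right hs hR.le
        _ = 1 / 4 := by field_simp
    have h4 := ht n
    linarith
  have h3 : ‖(1 : ℂ)‖ - ‖charFun (fre ρ n 0) (s / a n)‖ ≤ 1 / 2 := (norm_sub_norm_le _ _).trans h2
  rw [norm_one] at h3
  rw [← norm_pow, h1]
  linarith

/-- **[STB-N2d]** Domination. PROOF. Let `φ_n(s) = charFun ρ (s / a n) ^ n`, the characteristic function of `S_n / a_n`.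
`|1 - φ_n(s)| ≤ E min(2, |s| |S_n / a_n|) ≤ |s| R + 2 P(|S_n| ≥ R a_n)`; with `DA.tight` (`ε = 1/8`) there is `s₀ > 0` with
`‖φ_n(s)‖ ≥ 1/2` for `|s| ≤ s₀` and all `n`. With `v = ‖charFun ρ (s/a_n)‖`, `v^n ≥ 1/2`, so
`n (1 - v²) ≤ -n log (v²) = -2 log (v^n) ≤ 2 log 2`. For larger `s`: `U(s) = 1 - ‖charFun ρ s‖² = E[1 - cos (s (X - X'))]`
satisfies `U(2s) ≤ 4 U(s)` (`1 - cos 2x ≤ 4 (1 - cos x)`), so with `k` minimal with `|s| ≤ 2^k s₀`:
`n U(s / a_n) ≤ 4^k 2 log 2 ≤ (2|s|/s₀)² 2 log 2` for `k ≥ 1`. (True for all `n`.) -/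
theorem DA.char_le (h : DA α ζ ρ a) : ∃ C > (0 : ℝ), ∀ (n : ℕ) (s : ℝ),
    n * (1 - ‖charFun ρ (s / a n)‖ ^ 2) ≤ C * (1 + s ^ 2) := by
  have := h.prob
  obtain ⟨s₀, hs₀, hlow⟩ := N2_low h
  have hl2 : 0 < Real.log 2 := Real.log_pos (by norm_num)
  -- small arguments
  have hsmall : ∀ (n : ℕ) (s : ℝ), |s| ≤ s₀ → n * (1 - ‖charFun ρ (s / a n)‖ ^ 2) ≤ 2 * Real.log 2 := by
    intro n s hs
    rcases Nat.eq_zero_or_pos n with rfl | hn
    · simp; positivity
    have h1 := hlow n s hs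
    set v : ℝ := ‖charFun ρ (s / a n)‖ with hv
    have hv0 : 0 ≤ v := norm_nonneg _
    have hvpos : 0 < v := by
      rcases hv0.eq_or_lt with h6 | h6
      · exfalso
        rw [← h6, zero_pow hn.ne'] at h1
        norm_num at h1
      · exact h6
    have hv2 : 0 < v ^ 2 := by positivity
    have h5 := Real.log_le_sub_one_of_pos hv2
    rw [Real.log_pow] at h5
    push_cast at h5
    have h8 : (n : ℝ) * (2 * Real.log v) ≤ (n : ℝ) * (v ^ 2 - 1) :=
      mul_le_mul_of_nonneg_left h5 (Nat.cast_nonneg n)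
    have h9 : Real.log (1 / 2) ≤ Real.log (v ^ n) := Real.log_le_log (by norm_num) h1
    rw [Real.log_pow, one_div, Real.log_inv] at h9
    nlinarith
  refine ⟨2 * Real.log 2 * (1 + 4 / s₀ ^ 2), by positivity, fun n s => ?_⟩
  by_cases hs : |s| ≤ s₀
  · refine (hsmall n s hs).trans ?_
    have h1 : 1 ≤ (1 + 4 / s₀ ^ 2) * (1 + s ^ 2) := by
      have : 0 ≤ 4 / s₀ ^ 2 := by positivity
      nlinarith [sq_nonneg s, mul_nonneg this (sq_nonneg s)]
    calc 2 * Real.log 2 = 2 * Real.log 2 * 1 := by ring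
      _ ≤ 2 * Real.log 2 * ((1 + 4 / s₀ ^ 2) * (1 + s ^ 2)) :=
        mul_le_mul_of_nonneg_left h1 (by positivity)
      _ = 2 * Real.log 2 * (1 + 4 / s₀ ^ 2) * (1 + s ^ 2) := by ring
  · rw [not_le] at hs
    have hx : 1 ≤ |s| / s₀ := by
      rw [le_div_iff₀ hs₀]
      linarith
    obtain ⟨k, hk1, hk2⟩ := exists_nat_pow_near hx (one_lt_two : (1 : ℝ) < 2)
    have hpos : (0 : ℝ) < 2 ^ (k + 1) := by positivity
    have h1 : |s / 2 ^ (k + 1)| ≤ s₀ := by
      rw [abs_div, abs_of_pos hpos, div_le_iff₀ hpos]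
      rw [div_lt_iff₀ hs₀] at hk2
      linarith
    have h2 := hsmall n (s / 2 ^ (k + 1)) h1
    have h3 := N2_pow (ρ := ρ) (k + 1) (s / 2 ^ (k + 1) / a n)
    have e : (2 : ℝ) ^ (k + 1) * (s / 2 ^ (k + 1) / a n) = s / a n := by
      field_simp
    rw [e] at h3
    have h4 : (n : ℝ) * (1 - ‖charFun ρ (s / a n)‖ ^ 2) ≤ 4 ^ (k + 1) * (2 * Real.log 2) := by
      calc (n : ℝ) * (1 - ‖charFun ρ (s / a n)‖ ^ 2)
          ≤ (n : ℝ) * (4 ^ (k + 1) * (1 - ‖charFun ρ (s / 2 ^ (k + 1) / a n)‖ ^ 2)) :=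
            mul_le_mul_of_nonneg_left h3 (Nat.cast_nonneg n)
        _ = 4 ^ (k + 1) * ((n : ℝ) * (1 - ‖charFun ρ (s / 2 ^ (k + 1) / a n)‖ ^ 2)) := by ring
        _ ≤ 4 ^ (k + 1) * (2 * Real.log 2) := mul_le_mul_of_nonneg_left h2 (by positivity)
    refine h4.trans ?_
    have h5 : (4 : ℝ) ^ (k + 1) ≤ 4 / s₀ ^ 2 * s ^ 2 := by
      have h6 : ((2 : ℝ) ^ k) ^ 2 ≤ (|s| / s₀) ^ 2 := by
        apply pow_le_pow_left₀ (by positivity) hk1
      have e2 : (4 : ℝ) ^ (k + 1) = 4 * ((2 : ℝ) ^ k) ^ 2 := by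
        rw [pow_succ, ← pow_mul, mul_comm k 2, pow_mul]
        norm_num
        ring
      rw [e2]
      calc 4 * ((2 : ℝ) ^ k) ^ 2 ≤ 4 * (|s| / s₀) ^ 2 := by linarith
        _ = 4 / s₀ ^ 2 * s ^ 2 := by
          rw [div_pow, sq_abs]
          ring
    have h7 : (4 : ℝ) ^ (k + 1) ≤ (1 + 4 / s₀ ^ 2) * (1 + s ^ 2) := by
      have : 0 ≤ 4 / s₀ ^ 2 := by positivity
      nlinarith [sq_nonneg s, mul_nonneg this (sq_nonneg s)]
    calc 4 ^ (k + 1) * (2 * Real.log 2) ≤ (1 + 4 / s₀ ^ 2) * (1 + s ^ 2) * (2 * Real.log 2) :=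
        mul_le_mul_of_nonneg_right h7 (by positivity)
      _ = 2 * Real.log 2 * (1 + 4 / s₀ ^ 2) * (1 + s ^ 2) := by ring

end Pool.Agent.BPT
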