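import Pool.Agent.MP_99a865_pr.ST.N2

/-! **[STB-N3a]** A smooth monotone version of the scale function. -/

open MeasureTheory ProbabilityTheory Filter Topology
open scoped ENNReal NNReal

namespace Pool.Agent.BPT

variable {α : ℝ} {ζ ρ : Measure ℝ} {a : ℕ → ℝ}

/-- `E[1 - exp (-(X - X')² / (2y²))]` for independent copies `X, X'` -/
noncomputable def GS (ρ : Measure ℝ) (y : ℝ) : ℝ :=
  ∫ p : ℝ × ℝ, (1 - Real.exp (-(p.1 - p.2) ^ 2 / (2 * y ^ 2))) ∂(ρ.prod ρ)

/-- bounded continuous functions are integrable -/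
theorem N3a_int {X : Type*} [TopologicalSpace X] [MeasurableSpace X] [OpensMeasurableSpace X]
    {μ : Measure X} [IsProbabilityMeasure μ] {f : X → ℝ} (hf : Continuous f) {C : ℝ}
    (h : ∀ x, |f x| ≤ C) : Integrable f μ :=
  Integrable.mono' (integrable_const C) hf.measurable.aestronglyMeasurable (ae_of_all _ h)

theorem N3a_exp_cont (y : ℝ) :
    Continuous (fun p : ℝ × ℝ => 1 - Real.exp (-(p.1 - p.2) ^ 2 / (2 * y ^ 2))) := by
  fun_prop

theorem N3a_exp_nonneg (y z : ℝ) : 0 ≤ 1 - Real.exp (-z ^ 2 / (2 * y ^ 2)) := by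
  have : Real.exp (-z ^ 2 / (2 * y ^ 2)) ≤ 1 := by
    rw [Real.exp_le_one_iff]
    exact div_nonpos_of_nonpos_of_nonneg (by nlinarith [sq_nonneg z]) (by positivity)
  linarith

theorem N3a_exp_int [IsProbabilityMeasure ρ] (y : ℝ) :
    Integrable (fun p : ℝ × ℝ => 1 - Real.exp (-(p.1 - p.2) ^ 2 / (2 * y ^ 2))) (ρ.prod ρ) := by
  refine N3a_int (N3a_exp_cont y) (C := 1) fun p => ?_
  rw [abs_of_nonneg (N3a_exp_nonneg y _)]
  have := Real.exp_pos (-(p.1 - p.2) ^ 2 / (2 * y ^ 2))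
  linarith

/-- Gaussian Fourier transform -/
theorem N3a_gauss (z : ℝ) : ∫ s, Real.cos (s * z) ∂(gaussianReal 0 1) = Real.exp (-z ^ 2 / 2) := by
  have h1 := charFun_gaussianReal (μ := 0) (v := 1) z
  rw [charFun_apply_real] at h1
  have h2 : ∫ s, Real.cos (s * z) ∂(gaussianReal 0 1) =
      (∫ s, Complex.exp (z * s * Complex.I) ∂(gaussianReal 0 1)).re := by
    rw [← RCLike.re_eq_complex_re, ← integral_re]
    · apply integral_congr_ae
      refine ae_of_all _ fun s => ?_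
      simp only [RCLike.re_eq_complex_re]
      rw [← Complex.ofReal_mul, Complex.exp_ofReal_mul_I_re, mul_comm]
    · refine Integrable.mono' (integrable_const (1 : ℝ)) (by fun_prop) (ae_of_all _ fun s => ?_)
      rw [← Complex.ofReal_mul, Complex.norm_exp_ofReal_mul_I]
  rw [h2, h1]
  have h3 : (z : ℂ) * (0 : ℝ) * Complex.I - ((1 : ℝ≥0) : ℝ) * (z : ℂ) ^ 2 / 2 =
      ((-z ^ 2 / 2 : ℝ) : ℂ) := by
    push_cast
    ring
  rw [h3, ← Complex.ofReal_exp, Complex.ofReal_re]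

/-- square of the modulus of a characteristic function -/
theorem N3a_norm [IsProbabilityMeasure ρ] (r : ℝ) :
    ∫ p : ℝ × ℝ, Real.cos (r * (p.1 - p.2)) ∂(ρ.prod ρ) = ‖charFun ρ r‖ ^ 2 := by
  have h1 : (∫ p : ℝ × ℝ, Complex.exp (r * p.1 * Complex.I) * Complex.exp (((-r : ℝ) : ℂ) * p.2 * Complex.I)
      ∂(ρ.prod ρ)) = charFun ρ r * charFun ρ (-r) := by
    rw [charFun_apply_real, charFun_apply_real]
    exact integral_prod_mul (μ := ρ) (ν := ρ) (fun x : ℝ => Complex.exp (r * x * Complex.I))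
      (fun x : ℝ => Complex.exp (((-r : ℝ) : ℂ) * x * Complex.I))
  rw [charFun_neg, Complex.mul_conj, Complex.normSq_eq_norm_sq] at h1
  have h2 : ∫ p : ℝ × ℝ, Real.cos (r * (p.1 - p.2)) ∂(ρ.prod ρ) =
      (∫ p : ℝ × ℝ, Complex.exp (r * p.1 * Complex.I) * Complex.exp (((-r : ℝ) : ℂ) * p.2 * Complex.I)
      ∂(ρ.prod ρ)).re := by
    rw [← RCLike.re_eq_complex_re, ← integral_re]
    · apply integral_congr_ae
      refine ae_of_all _ fun p => ?_
      simp only [RCLike.re_eq_complex_re]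
      rw [← Complex.exp_add]
      have : (r : ℂ) * p.1 * Complex.I + ((-r : ℝ) : ℂ) * p.2 * Complex.I =
          ((r * (p.1 - p.2) : ℝ) : ℂ) * Complex.I := by
        push_cast; ring
      rw [this, Complex.exp_ofReal_mul_I_re]
    · refine Integrable.mono' (integrable_const (1 : ℝ)) (by fun_prop) (ae_of_all _ fun p => ?_)
      rw [norm_mul, ← Complex.ofReal_mul, ← Complex.ofReal_mul, Complex.norm_exp_ofReal_mul_I,
        Complex.norm_exp_ofReal_mul_I, one_mul]
  rw [h2, h1, Complex.ofReal_re]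

/-- **[STB-N3a]** PROOF. `exp (-z²/2) = ∫ cos (s z) ∂(gaussianReal 0 1)` (`charFun_gaussianReal`), with `z = (X - X')/y`,
and Fubini: `∫∫ cos (s (x - x')/y) ∂ρ ∂ρ = ‖charFun ρ (s/y)‖²` (expand `charFun * conj charFun`). -/
theorem GS_eq [IsProbabilityMeasure ρ] (y : ℝ) (hy : 0 < y) :
    GS ρ y = ∫ s, (1 - ‖charFun ρ (s / y)‖ ^ 2) ∂(gaussianReal 0 1) := by
  have h1 : GS ρ y = ∫ p : ℝ × ℝ, ∫ s, (1 - Real.cos (s / y * (p.1 - p.2))) ∂(gaussianReal 0 1)
      ∂(ρ.prod ρ) := by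
    unfold GS
    apply integral_congr_ae
    refine ae_of_all _ fun p => ?_
    simp only
    rw [integral_sub (integrable_const _) (N3a_int (by fun_prop) (C := 1) fun s => Real.abs_cos_le_one _)]
    have e : ∀ s : ℝ, s / y * (p.1 - p.2) = s * ((p.1 - p.2) / y) := fun s => by ring
    simp only [e, N3a_gauss]
    simp only [integral_const, probReal_univ, one_smul]
    congr 2
    field_simp
  have h2 : ∫ s, (1 - ‖charFun ρ (s / y)‖ ^ 2) ∂(gaussianReal 0 1) =
      ∫ s, ∫ p : ℝ × ℝ, (1 - Real.cos (s / y * (p.1 - p.2))) ∂(ρ.prod ρ) ∂(gaussianReal 0 1) := by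
    apply integral_congr_ae
    refine ae_of_all _ fun s => ?_
    simp only
    rw [integral_sub (integrable_const _) (N3a_int (by fun_prop) (C := 1) fun s => Real.abs_cos_le_one _),
      N3a_norm]
    simp
  rw [h1, h2]
  apply integral_integral_swap
  refine N3a_int (C := 2) (by simp only [Function.uncurry_def]; fun_prop) fun q => ?_
  simp only [Function.uncurry_def]
  rw [abs_le]
  have := Real.cos_le_one (q.2 / y * (q.1.1 - q.1.2))
  have := Real.neg_one_le_cos (q.2 / y * (q.1.1 - q.1.2))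
  constructor <;> linarith

theorem GS_anti [IsProbabilityMeasure ρ] {x y : ℝ} (hx : 0 < x) (hxy : x ≤ y) : GS ρ y ≤ GS ρ x := by
  unfold GS
  refine integral_mono (N3a_exp_int y) (N3a_exp_int x) fun p => ?_
  simp only
  have hy : 0 < y := lt_of_lt_of_le hx hxy
  have h1 : -(p.1 - p.2) ^ 2 / (2 * x ^ 2) ≤ -(p.1 - p.2) ^ 2 / (2 * y ^ 2) := by
    rw [neg_div, neg_div, neg_le_neg_iff]
    apply div_le_div_of_nonneg_left (sq_nonneg _) (by positivity)
    have : x ^ 2 ≤ y ^ 2 := pow_le_pow_left₀ hx.le hxy 2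
    linarith
  have := Real.exp_le_exp.mpr h1
  linarith

/-- positive unless `ρ` is a point mass -/
theorem GS_pos [IsProbabilityMeasure ρ] (hρ : ∀ x, ρ ≠ Measure.dirac x) {y : ℝ} (hy : 0 < y) :
    0 < GS ρ y := by
  have hnn : 0 ≤ GS ρ y := integral_nonneg fun p => N3a_exp_nonneg y _
  rcases hnn.lt_or_eq with h | h
  · exact h
  · exfalso
    have h1 := (integral_eq_zero_iff_of_nonneg (fun p => N3a_exp_nonneg y _) (N3a_exp_int (ρ := ρ) y)).mp h.symm
    have h2 : ∀ᵐ p ∂(ρ.prod ρ), p.1 = p.2 := by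
      filter_upwards [h1] with p hp
      simp only [Pi.zero_apply] at hp
      have h3 : Real.exp (-(p.1 - p.2) ^ 2 / (2 * y ^ 2)) = 1 := by linarith
      rw [Real.exp_eq_one_iff, div_eq_zero_iff] at h3
      rcases h3 with h3 | h3
      · have : (p.1 - p.2) ^ 2 = 0 := by linarith
        have := pow_eq_zero_iff (two_ne_zero) |>.1 this
        linarith
      · exfalso
        have : 0 < 2 * y ^ 2 := by positivity
        linarith
    obtain ⟨x, hx⟩ := (Measure.ae_ae_of_ae_prod h2).exists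
    refine hρ x (N1_map_dirac ?_)
    filter_upwards [hx] with z hz
    exact hz.symm

/-- `1 - e^{-u} ≤ min 1 u`, `(x - x')²/(2y²) ≤ x²/y² + x'²/y²`, `min(1,a+b) ≤ min(1,a) + min(1,b)` -/
theorem GS_le_Lam [IsProbabilityMeasure ρ] {y : ℝ} (hy : 0 < y) : GS ρ y ≤ 2 * Lam ρ y := by
  have hmin : ∀ x : ℝ, |min 1 ((x / y) ^ 2)| ≤ 1 := fun x => by
    rw [abs_of_nonneg (le_min zero_le_one (sq_nonneg _))]
    exact min_le_left _ _
  have hf : Integrable (fun x : ℝ => min 1 ((x / y) ^ 2)) ρ :=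
    N3a_int (by fun_prop) (C := 1) hmin
  have h1 : Integrable (fun p : ℝ × ℝ => min 1 ((p.1 / y) ^ 2)) (ρ.prod ρ) :=
    N3a_int (by fun_prop) (C := 1) fun p => hmin p.1
  have h2 : Integrable (fun p : ℝ × ℝ => min 1 ((p.2 / y) ^ 2)) (ρ.prod ρ) :=
    N3a_int (by fun_prop) (C := 1) fun p => hmin p.2
  have h3 : ∫ p : ℝ × ℝ, (min 1 ((p.1 / y) ^ 2) + min 1 ((p.2 / y) ^ 2)) ∂(ρ.prod ρ) = 2 * Lam ρ y := by
    rw [integral_add h1 h2]
    have e1 := integral_fun_fst (μ := ρ) (ν := ρ) (fun x : ℝ => min 1 ((x / y) ^ 2))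
    have e2 := integral_fun_snd (μ := ρ) (ν := ρ) (fun x : ℝ => min 1 ((x / y) ^ 2))
    rw [e1, e2]
    simp only [probReal_univ, one_smul, Lam]
    ring
  rw [← h3]
  unfold GS
  refine integral_mono (N3a_exp_int y) (h1.add h2) fun p => ?_
  simp only
  set u := (p.1 - p.2) ^ 2 / (2 * y ^ 2) with hu
  have hu0 : 0 ≤ u := by positivity
  have e1 : -(p.1 - p.2) ^ 2 / (2 * y ^ 2) = -u := by rw [hu]; ring
  have e2 : 1 - Real.exp (-u) ≤ 1 := by
    have := Real.exp_pos (-u); linarith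
  have e3 : 1 - Real.exp (-u) ≤ u := by
    have := Real.add_one_le_exp (-u); linarith
  have e4 : u ≤ (p.1 / y) ^ 2 + (p.2 / y) ^ 2 := by
    rw [hu, div_pow, div_pow, ← add_div, div_le_div_iff₀ (by positivity) (by positivity)]
    have h5 : (p.1 - p.2) ^ 2 ≤ 2 * (p.1 ^ 2 + p.2 ^ 2) := by nlinarith [sq_nonneg (p.1 + p.2)]
    nlinarith [mul_le_mul_of_nonneg_right h5 (sq_nonneg y)]
  rw [e1]
  rcases le_total 1 ((p.1 / y) ^ 2) with h5 | h5
  · rw [min_eq_left h5]
    have : 0 ≤ min 1 ((p.2 / y) ^ 2) := le_min zero_le_one (sq_nonneg _)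
    linarith
  · rw [min_eq_right h5]
    rcases le_total 1 ((p.2 / y) ^ 2) with h6 | h6
    · rw [min_eq_left h6]
      have := sq_nonneg (p.1 / y)
      linarith
    · rw [min_eq_right h6]
      linarith

end Pool.Agent.BPT
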