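import Pool.Agent.MP_99a865_pr.ST.N3a

/-! **[STB-N3b]** Comparison with the scale function. -/

open MeasureTheory ProbabilityTheory Filter Topology
open scoped ENNReal NNReal

namespace Pool.Agent.BPT

variable {α : ℝ} {ζ ρ : Measure ℝ} {a : ℕ → ℝ}

/-- the open interval `(-r, r)` as a set -/
def N3b_B (r : ℝ) : Set ℝ := {x | |x| < r}

theorem N3b_meas (r : ℝ) : MeasurableSet (N3b_B r) :=
  measurableSet_lt (by fun_prop) measurable_const

theorem N3b_half {v : ℝ} (hv : 0 ≤ v) : (1 / 2) * min 1 v ≤ 1 - Real.exp (-v) := by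
  -- `1 - e^{-v} ≥ 1 - 1/(1+v)`
  have h1 : Real.exp (-v) ≤ 1 / (1 + v) := by
    rw [Real.exp_neg, ← one_div]
    apply one_div_le_one_div_of_le (by linarith)
    have := Real.add_one_le_exp v
    linarith
  have h2 : (1 / 2) * min 1 v ≤ 1 - 1 / (1 + v) := by
    have h3 : 1 - 1 / (1 + v) = v / (1 + v) := by field_simp; ring
    rw [h3, le_div_iff₀ (by linarith)]
    rcases le_total 1 v with h | h
    · rw [min_eq_left h]; nlinarith
    · rw [min_eq_right h]; nlinarith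
  linarith

/-- choice of the truncation level -/
theorem N3b_level [IsProbabilityMeasure ρ] (hint : Integrable (fun x : ℝ => x) ρ) (hm : ∫ x, x ∂ρ = 0)
    (hρ : ∀ x, ρ ≠ Measure.dirac x) :
    ∃ K : ℝ, 0 < K ∧ 1 / 2 ≤ ρ.real (N3b_B K) ∧ 1 / 2 ≤ ρ.real (N3b_B (2 * K)) ∧
      (∫ x in N3b_B (2 * K), x ∂ρ) ^ 2 ≤ (∫ x in N3b_B (2 * K), x ^ 2 ∂ρ) / 4 := by
  have hmono : Monotone (fun n : ℕ => N3b_B (n : ℝ)) := by
    intro m n hmn x hx
    have : (m : ℝ) ≤ n := by exact_mod_cast hmn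
    exact lt_of_lt_of_le hx this
  have hU : (⋃ n : ℕ, N3b_B (n : ℝ)) = Set.univ := by
    rw [Set.eq_univ_iff_forall]
    intro x
    obtain ⟨n, hn⟩ := exists_nat_gt |x|
    exact Set.mem_iUnion.mpr ⟨n, hn⟩
  have h1 : Tendsto (fun n : ℕ => ∫ x in N3b_B (n : ℝ), x ∂ρ) atTop (𝓝 0) := by
    have := tendsto_setIntegral_of_monotone (μ := ρ) (f := fun x : ℝ => x)
      (s := fun n : ℕ => N3b_B (n : ℝ)) (fun n => N3b_meas (n : ℝ)) hmono
      (by rw [hU]; exact hint.integrableOn)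
    rw [hU, Measure.restrict_univ, hm] at this
    exact this
  have h2 : Tendsto (fun n : ℕ => ∫ _x in N3b_B (n : ℝ), (1 : ℝ) ∂ρ) atTop (𝓝 1) := by
    have := tendsto_setIntegral_of_monotone (μ := ρ) (f := fun _ : ℝ => (1 : ℝ))
      (s := fun n : ℕ => N3b_B (n : ℝ)) (fun n => N3b_meas (n : ℝ)) hmono
      (by rw [hU]; exact (integrable_const _).integrableOn)
    rw [hU, Measure.restrict_univ] at this
    simpa using this
  have h2' : ∀ᶠ n : ℕ in atTop, 1 / 2 ≤ ρ.real (N3b_B (n : ℝ)) := by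
    filter_upwards [h2.eventually (eventually_gt_nhds (show (1 / 2 : ℝ) < 1 by norm_num))] with n hn
    have : ∫ _x in N3b_B (n : ℝ), (1 : ℝ) ∂ρ = ρ.real (N3b_B (n : ℝ)) := by simp
    rw [this] at hn
    exact hn.le
  have hsq : ∀ r : ℝ, IntegrableOn (fun x : ℝ => x ^ 2) (N3b_B r) ρ := by
    intro r
    refine Measure.integrableOn_of_bounded (M := r ^ 2) (measure_ne_top _ _) (by fun_prop) ?_
    rw [ae_restrict_iff' (N3b_meas r)]
    refine ae_of_all _ fun x hx => ?_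
    have hx' : |x| < r := hx
    rw [Real.norm_eq_abs, abs_of_nonneg (sq_nonneg x), ← sq_abs]
    exact pow_le_pow_left₀ (abs_nonneg x) hx'.le 2
  -- positive second moment for some level
  obtain ⟨n0, hn0⟩ : ∃ n : ℕ, 0 < ∫ x in N3b_B (n : ℝ), x ^ 2 ∂ρ := by
    by_contra hc
    push Not at hc
    refine hρ 0 (N1_map_dirac ?_)
    have h3 : ∀ n : ℕ, ∀ᵐ x ∂ρ, x ∈ N3b_B (n : ℝ) → x = 0 := by
      intro n
      have h4 : ∫ x in N3b_B (n : ℝ), x ^ 2 ∂ρ = 0 :=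
        le_antisymm (hc n) (integral_nonneg fun x => sq_nonneg x)
      have h5 := (integral_eq_zero_iff_of_nonneg (fun x => sq_nonneg x) (hsq (n : ℝ))).mp h4
      have h6 := (ae_restrict_iff' (N3b_meas (n : ℝ))).mp h5
      filter_upwards [h6] with x hx hxn
      exact pow_eq_zero_iff (two_ne_zero) |>.1 (hx hxn)
    filter_upwards [ae_all_iff.mpr h3] with x hx
    obtain ⟨n, hn⟩ := exists_nat_gt |x|
    exact hx n hn
  have h3 : Tendsto (fun n : ℕ => (∫ x in N3b_B (n : ℝ), x ∂ρ) ^ 2) atTop (𝓝 0) := by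
    have := h1.pow 2
    simpa using this
  have h4 := h3.eventually (eventually_lt_nhds (show 0 < (∫ x in N3b_B (n0 : ℝ), x ^ 2 ∂ρ) / 4 by positivity))
  obtain ⟨n1, hn1⟩ := eventually_atTop.mp (h2'.and (h4.and (eventually_ge_atTop (max n0 1))))
  have hK1 := hn1 (n1 + 1) (by omega)
  have hK2 := hn1 (2 * (n1 + 1)) (by omega)
  refine ⟨((n1 + 1 : ℕ) : ℝ), by positivity, hK1.1, ?_, ?_⟩
  · have := hK2.1
    push_cast at this ⊢
    exact this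
  · have h5 := hK2.2.1
    have h6 : N3b_B (n0 : ℝ) ⊆ N3b_B (((2 * (n1 + 1) : ℕ)) : ℝ) :=
      hmono (le_trans (le_max_left _ _) hK2.2.2)
    have h7 : ∫ x in N3b_B (n0 : ℝ), x ^ 2 ∂ρ ≤ ∫ x in N3b_B (((2 * (n1 + 1) : ℕ)) : ℝ), x ^ 2 ∂ρ :=
      setIntegral_mono_set (hsq _) (ae_of_all _ fun x => sq_nonneg x) h6.eventuallyLE
    have e : (((2 * (n1 + 1) : ℕ)) : ℝ) = 2 * (((n1 + 1 : ℕ)) : ℝ) := by push_cast; ring
    rw [e] at h5 h7
    linarith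

/-- **[STB-N3b]** PROOF. Let `K` be so large that `P(|X| ≤ K) ≥ 3/4` and `|E[X; |X| ≤ K]|² ≤ E[X²; |X| ≤ K] / 4`, with
`E[X²;|X| ≤ K] > 0` (possible: `E[X; |X| ≤ K] → E X = 0`, `E[X²; |X| ≤ K]` increases to a positive limit). Let `y ≥ 4K`.
(1) On `{|X| ≥ 2K, |X'| ≤ K}`: `|X - X'| ≥ |X|/2`, so `1 - exp (-(X-X')²/(2y²)) ≥ 1 - exp (-X²/(8y²)) ≥ c₁ min(1, X²/y²)`
(`c₁ = (1 - e^{-1/8})`, concavity), which contributes `≥ (3/4) c₁ E[min(1,X²/y²); |X| ≥ 2K]`.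
(2) On `{|X| ≤ 2K, |X'| ≤ 2K}` (disjoint from (1) up to the boundary; use half of `GS` for each, or intersect with
`|X| < 2K`): `u = (X-X')²/(2y²) ≤ 1/2`, `1 - e^{-u} ≥ u/2`, and with `K' = 2K` (choose `K` such that the two properties
hold for all `K' ≥ K`): `E[(X-X')²; |X|,|X'| < K'] = 2 P(|X|<K') E[X²;|X|<K'] - 2 E[X;|X|<K']² ≥ E[X²; |X| < K']`.
Total: `GS ρ y ≥ c (E[min(1,X²/y²); |X| ≥ K'] + y^{-2} E[X²; |X| < K']) ≥ c Lam ρ y`. -/
theorem Lam_le_GS [IsProbabilityMeasure ρ] (hint : Integrable (fun x : ℝ => x) ρ) (hm : ∫ x, x ∂ρ = 0)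
    (hρ : ∀ x, ρ ≠ Measure.dirac x) :
    ∃ C > (0 : ℝ), ∃ y₀ > (0 : ℝ), ∀ y, y₀ ≤ y → Lam ρ y ≤ C * GS ρ y := by
  obtain ⟨K, hK, hA, hB, hm2⟩ := N3b_level hint hm hρ
  refine ⟨32, by norm_num, 4 * K, by positivity, fun y hy => ?_⟩
  have hy0 : 0 < y := by linarith
  obtain ⟨B, hBdef⟩ : ∃ B, B = N3b_B (2 * K) := ⟨_, rfl⟩
  obtain ⟨A, hAdef⟩ : ∃ A, A = N3b_B K := ⟨_, rfl⟩
  rw [← hBdef] at hB hm2
  rw [← hAdef] at hA
  have hBm : MeasurableSet B := by rw [hBdef]; exact N3b_meas _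
  have hAm : MeasurableSet A := by rw [hAdef]; exact N3b_meas _
  have hBmem : ∀ x, x ∈ B ↔ |x| < 2 * K := fun x => by rw [hBdef]; exact Iff.rfl
  have hAmem : ∀ x, x ∈ A ↔ |x| < K := fun x => by rw [hAdef]; exact Iff.rfl
  obtain ⟨g, hg⟩ : ∃ g : ℝ × ℝ → ℝ, g = fun p => 1 - Real.exp (-(p.1 - p.2) ^ 2 / (2 * y ^ 2)) := ⟨_, rfl⟩
  have hgi : Integrable g (ρ.prod ρ) := by rw [hg]; exact N3a_exp_int y
  have hg0 : ∀ p, 0 ≤ g p := fun p => by rw [hg]; exact N3a_exp_nonneg y _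
  have hGS : GS ρ y = ∫ p, g p ∂(ρ.prod ρ) := by rw [hg]; rfl
  obtain ⟨h, hh⟩ : ∃ h : ℝ → ℝ, h = fun x => min 1 ((x / y) ^ 2) := ⟨_, rfl⟩
  have hh0 : ∀ x, 0 ≤ h x := fun x => by rw [hh]; exact le_min zero_le_one (sq_nonneg _)
  have hhi : Integrable h ρ := by
    rw [hh]
    refine N3a_int (by fun_prop) (C := 1) fun x => ?_
    rw [abs_of_nonneg (le_min zero_le_one (sq_nonneg _))]
    exact min_le_left _ _
  -- lower bounds of `g`
  have low : ∀ p, (1 / 2) * min 1 ((p.1 - p.2) ^ 2 / (2 * y ^ 2)) ≤ g p := by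
    intro p
    rw [hg]
    simp only
    have e : -(p.1 - p.2) ^ 2 / (2 * y ^ 2) = -((p.1 - p.2) ^ 2 / (2 * y ^ 2)) := by ring
    rw [e]
    exact N3b_half (by positivity)
  have low1 : ∀ p ∈ Bᶜ ×ˢ A, (1 / 16) * h p.1 * 1 ≤ g p := by
    rintro ⟨a, b⟩ ⟨ha, hb⟩
    simp only [Set.mem_compl_iff, hBmem, not_lt] at ha
    rw [hAmem] at hb
    simp only at hb ⊢
    refine le_trans ?_ (low (a, b))
    rw [hh]
    simp only
    have h1 : |a| / 2 ≤ |a - b| := by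
      have := abs_sub_abs_le_abs_sub a b
      linarith
    have h2 : a ^ 2 / 4 ≤ (a - b) ^ 2 := by
      rw [← sq_abs a, ← sq_abs (a - b)]
      have := pow_le_pow_left₀ (by positivity) h1 2
      calc |a| ^ 2 / 4 = (|a| / 2) ^ 2 := by ring
        _ ≤ |a - b| ^ 2 := this
    have h3 : (a / y) ^ 2 / 8 ≤ (a - b) ^ 2 / (2 * y ^ 2) := by
      rw [div_pow, div_div, div_le_div_iff₀ (by positivity) (by positivity)]
      have : a ^ 2 ≤ 4 * (a - b) ^ 2 := by linarith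
      nlinarith [mul_le_mul_of_nonneg_right this (sq_nonneg y)]
    have h4 : min 1 ((a / y) ^ 2) / 8 ≤ min 1 ((a - b) ^ 2 / (2 * y ^ 2)) := by
      apply le_min
      · have := min_le_left 1 ((a / y) ^ 2)
        linarith
      · have := min_le_right 1 ((a / y) ^ 2)
        linarith
    linarith
  have low2 : ∀ p ∈ B ×ˢ B, (1 / (4 * y ^ 2)) * (p.1 - p.2) ^ 2 ≤ g p := by
    rintro ⟨a, b⟩ ⟨ha, hb⟩
    rw [hBmem] at ha hb
    simp only at ha hb ⊢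
    refine le_trans (le_of_eq ?_) (low (a, b))
    have h1 : |a - b| ≤ 4 * K := by
      have := abs_sub a b
      linarith
    have h2 : (a - b) ^ 2 ≤ y ^ 2 := by
      rw [← sq_abs (a - b)]
      exact pow_le_pow_left₀ (abs_nonneg _) (h1.trans hy) 2
    have h3 : (a - b) ^ 2 / (2 * y ^ 2) ≤ 1 := by
      rw [div_le_one (by positivity)]
      have := sq_nonneg y
      linarith
    rw [min_eq_right h3]
    ring
  -- integrals
  have hdisj : Disjoint (Bᶜ ×ˢ A) (B ×ˢ B) := by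
    rw [Set.disjoint_left]
    rintro ⟨a, b⟩ ⟨ha, _⟩ ⟨ha', _⟩
    exact ha ha'
  have hI : ∫ p in Bᶜ ×ˢ A, g p ∂(ρ.prod ρ) + ∫ p in B ×ˢ B, g p ∂(ρ.prod ρ) ≤ GS ρ y := by
    rw [hGS, ← setIntegral_union hdisj (hBm.prod hBm) hgi.integrableOn hgi.integrableOn]
    exact setIntegral_le_integral hgi (ae_of_all _ hg0)
  have hI1 : (1 / 16) * (∫ x in Bᶜ, h x ∂ρ) * ρ.real A ≤ ∫ p in Bᶜ ×ˢ A, g p ∂(ρ.prod ρ) := by
    have e1 : (1 / 16) * (∫ x in Bᶜ, h x ∂ρ) * ρ.real A =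
        ∫ p in Bᶜ ×ˢ A, (1 / 16) * h p.1 * 1 ∂(ρ.prod ρ) := by
      have := setIntegral_prod_mul (μ := ρ) (ν := ρ) (fun x : ℝ => (1 / 16) * h x) (fun _ : ℝ => (1 : ℝ)) Bᶜ A
      rw [this, integral_const_mul]
      simp
    rw [e1]
    refine setIntegral_mono_on ?_ hgi.integrableOn (hBm.compl.prod hAm) low1
    exact (((hhi.const_mul (1 / 16)).mul_prod (integrable_const (1 : ℝ)))).integrableOn
  have hsqB : IntegrableOn (fun x : ℝ => x ^ 2) B ρ := by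
    refine Measure.integrableOn_of_bounded (M := (2 * K) ^ 2) (measure_ne_top _ _) (by fun_prop) ?_
    rw [ae_restrict_iff' hBm]
    refine ae_of_all _ fun x hx => ?_
    rw [Real.norm_eq_abs, abs_of_nonneg (sq_nonneg x), ← sq_abs]
    exact pow_le_pow_left₀ (abs_nonneg x) ((hBmem x).mp hx).le 2
  have hidB : IntegrableOn (fun x : ℝ => x) B ρ := hint.integrableOn
  have honeB : IntegrableOn (fun _ : ℝ => (1 : ℝ)) B ρ := (integrable_const _).integrableOn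
  have hI2 : (1 / (4 * y ^ 2)) * (2 * (∫ x in B, x ^ 2 ∂ρ) * ρ.real B - 2 * (∫ x in B, x ∂ρ) ^ 2) ≤
      ∫ p in B ×ˢ B, g p ∂(ρ.prod ρ) := by
    have j1 : IntegrableOn (fun p : ℝ × ℝ => p.1 ^ 2 * 1) (B ×ˢ B) (ρ.prod ρ) := by
      unfold IntegrableOn
      rw [← Measure.prod_restrict]
      exact Integrable.mul_prod hsqB honeB
    have j2 : IntegrableOn (fun p : ℝ × ℝ => p.1 * p.2) (B ×ˢ B) (ρ.prod ρ) := by
      unfold IntegrableOn
      rw [← Measure.prod_restrict]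
      exact Integrable.mul_prod hidB hidB
    have j3 : IntegrableOn (fun p : ℝ × ℝ => 1 * p.2 ^ 2) (B ×ˢ B) (ρ.prod ρ) := by
      unfold IntegrableOn
      rw [← Measure.prod_restrict]
      exact Integrable.mul_prod honeB hsqB
    have k1 := setIntegral_prod_mul (μ := ρ) (ν := ρ) (fun x : ℝ => x ^ 2) (fun _ : ℝ => (1 : ℝ)) B B
    have k2 := setIntegral_prod_mul (μ := ρ) (ν := ρ) (fun x : ℝ => x) (fun x : ℝ => x) B B
    have k3 := setIntegral_prod_mul (μ := ρ) (ν := ρ) (fun _ : ℝ => (1 : ℝ)) (fun x : ℝ => x ^ 2) B B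
    have e0 : ∫ _x in B, (1 : ℝ) ∂ρ = ρ.real B := by simp
    have e1 : ∫ p in B ×ˢ B, (1 / (4 * y ^ 2)) * (p.1 - p.2) ^ 2 ∂(ρ.prod ρ) =
        (1 / (4 * y ^ 2)) * (2 * (∫ x in B, x ^ 2 ∂ρ) * ρ.real B - 2 * (∫ x in B, x ∂ρ) ^ 2) := by
      rw [integral_const_mul]
      congr 1
      have e2 : ∀ p : ℝ × ℝ, (p.1 - p.2) ^ 2 = p.1 ^ 2 * 1 - 2 * (p.1 * p.2) + 1 * p.2 ^ 2 := fun p => by ring
      have j12 : IntegrableOn (fun p : ℝ × ℝ => p.1 ^ 2 * 1 - 2 * (p.1 * p.2)) (B ×ˢ B) (ρ.prod ρ) :=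
        j1.sub (j2.const_mul 2)
      simp only [e2]
      rw [integral_add j12 j3, integral_sub j1 (j2.const_mul 2), integral_const_mul, k1, k2, k3, e0]
      ring
    rw [← e1]
    refine setIntegral_mono_on ?_ hgi.integrableOn (hBm.prod hBm) low2
    have e2 : (fun p : ℝ × ℝ => (1 / (4 * y ^ 2)) * (p.1 - p.2) ^ 2) =
        fun p => (1 / (4 * y ^ 2)) * ((p.1 ^ 2 * 1 - 2 * (p.1 * p.2)) + 1 * p.2 ^ 2) := by
      funext p; ring
    rw [e2]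
    exact ((j1.sub (j2.const_mul 2)).add j3).const_mul _
  -- conclusion
  have hL : Lam ρ y = ∫ x in B, h x ∂ρ + ∫ x in Bᶜ, h x ∂ρ := by
    rw [integral_add_compl hBm hhi, hh]
    rfl
  have hL1 : ∫ x in B, h x ∂ρ ≤ (∫ x in B, x ^ 2 ∂ρ) / y ^ 2 := by
    rw [← integral_div]
    refine setIntegral_mono_on hhi.integrableOn (hsqB.div_const _) hBm fun x _ => ?_
    rw [hh]
    simp only
    rw [← div_pow]
    exact min_le_right _ _
  have hT1 : 0 ≤ ∫ x in Bᶜ, h x ∂ρ := integral_nonneg hh0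
  have hs2 : 0 ≤ ∫ x in B, x ^ 2 ∂ρ := integral_nonneg fun x => sq_nonneg x
  have hf1 : (1 / 32) * (∫ x in Bᶜ, h x ∂ρ) ≤ (1 / 16) * (∫ x in Bᶜ, h x ∂ρ) * ρ.real A := by
    nlinarith
  have hf2 : (1 / 8) * ((∫ x in B, x ^ 2 ∂ρ) / y ^ 2) ≤
      (1 / (4 * y ^ 2)) * (2 * (∫ x in B, x ^ 2 ∂ρ) * ρ.real B - 2 * (∫ x in B, x ∂ρ) ^ 2) := by
    have e : (1 / 8) * ((∫ x in B, x ^ 2 ∂ρ) / y ^ 2) = (1 / (4 * y ^ 2)) * ((∫ x in B, x ^ 2 ∂ρ) / 2) := by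
      field_simp; ring
    rw [e]
    apply mul_le_mul_of_nonneg_left _ (by positivity)
    nlinarith
  have hs2' : 0 ≤ (∫ x in B, x ^ 2 ∂ρ) / y ^ 2 := by positivity
  rw [hL]
  linarith

end Pool.Agent.BPT
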