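import Pool.Agent.MP_99a865_pr.ST.N3a

/-! **[STB-N3c]** Limit of the smooth scale function. -/

open MeasureTheory ProbabilityTheory Filter Topology
open scoped ENNReal NNReal

namespace Pool.Agent.BPT

variable {α : ℝ} {ζ ρ : Measure ℝ} {a : ℕ → ℝ}

theorem N3c_sq : Integrable (fun s : ℝ => 1 + s ^ 2) (gaussianReal 0 1) := by
  have h1 : MemLp (fun s : ℝ => s) 2 (gaussianReal 0 1) := by
    have := memLp_id_gaussianReal (μ := 0) (v := 1) 2
    exact_mod_cast this
  exact (integrable_const 1).add h1.integrable_sq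

theorem N3c_le {α : ℝ} (h0 : 0 < α) (h2 : α ≤ 2) (s : ℝ) : |s| ^ α ≤ 1 + s ^ 2 := by
  rcases le_total |s| 1 with h | h
  · have := Real.rpow_le_one (abs_nonneg s) h h0.le
    nlinarith [sq_nonneg s]
  · have h3 := Real.rpow_le_rpow_of_exponent_le h h2
    rw [Real.rpow_two, sq_abs] at h3
    linarith

theorem N3c_int {α : ℝ} (h0 : 0 < α) (h2 : α ≤ 2) :
    Integrable (fun s : ℝ => |s| ^ α) (gaussianReal 0 1) := by
  refine N3c_sq.mono' ?_ (ae_of_all _ fun s => ?_)
  · exact (continuous_abs.rpow_const (fun _ => Or.inr h0.le)).aestronglyMeasurable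
  · rw [Real.norm_eq_abs, abs_of_nonneg (Real.rpow_nonneg (abs_nonneg s) α)]
    exact N3c_le h0 h2 s

theorem N3c_pos {α : ℝ} (h0 : 0 < α) (h2 : α ≤ 2) :
    0 < ∫ s : ℝ, |s| ^ α ∂(gaussianReal 0 1) := by
  rw [integral_pos_iff_support_of_nonneg (fun s => Real.rpow_nonneg (abs_nonneg s) α)
    (N3c_int h0 h2)]
  have h1 : Function.support (fun s : ℝ => |s| ^ α) = {0}ᶜ := by
    ext s
    simp only [Function.mem_support, Set.mem_compl_iff, Set.mem_singleton_iff]
    constructor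
    · rintro h rfl
      apply h
      rw [abs_zero, Real.zero_rpow h0.ne']
    · intro h
      exact (Real.rpow_pos_of_pos (abs_pos.2 h) α).ne'
  rw [h1]
  have h3 : gaussianReal 0 1 ({0}ᶜ : Set ℝ) = 1 := by
    have : NullSingletonClass (gaussianReal 0 1) := nullSingletonClass_gaussianReal one_ne_zero
    rw [measure_compl (measurableSet_singleton 0) (measure_ne_top _ _), measure_singleton,
      measure_univ, tsub_zero]
  rw [h3]
  exact zero_lt_one

/-- **[STB-N3c]** PROOF. `GS_eq`, `DA.char_lim`, dominated convergence with `DA.char_le` (`1 + s²` is integrable for the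
gaussian law): `n GS(a_n/l) = ∫ n (1 - ‖charFun ρ (s l / a n)‖²) → 2c ∫ |s|^α l^α`, `κ = 2c ∫ |s|^α ∂(gaussianReal 0 1) > 0`. -/
theorem DA.GS_lim (h : DA α ζ ρ a) : ∃ κ > (0 : ℝ), ∀ l > (0 : ℝ),
    Tendsto (fun n : ℕ => n * GS ρ (a n / l)) atTop (𝓝 (κ * l ^ α)) := by
  have hα : 0 < α := lt_trans zero_lt_one h.one
  have := h.prob
  obtain ⟨c, hc, hcζ⟩ := h.ss.norm hα
  obtain ⟨C, hC, hCle⟩ := h.char_le
  refine ⟨2 * c * ∫ s : ℝ, |s| ^ α ∂(gaussianReal 0 1), by
    have := N3c_pos hα h.two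
    positivity, fun l hl => ?_⟩
  have h1 : ∀ n : ℕ, n * GS ρ (a n / l) =
      ∫ s, n * (1 - ‖charFun ρ ((s * l) / a n)‖ ^ 2) ∂(gaussianReal 0 1) := by
    intro n
    rw [GS_eq _ (div_pos (h.pos n) hl), ← integral_const_mul]
    refine integral_congr_ae (ae_of_all _ fun s => ?_)
    simp only [div_div_eq_mul_div]
  have h2 : 2 * c * (∫ s : ℝ, |s| ^ α ∂(gaussianReal 0 1)) * l ^ α =
      ∫ s : ℝ, 2 * c * |s * l| ^ α ∂(gaussianReal 0 1) := by
    have h3 : ∀ s : ℝ, 2 * c * |s * l| ^ α = (2 * c * l ^ α) * |s| ^ α := by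
      intro s
      rw [abs_mul, abs_of_pos hl, Real.mul_rpow (abs_nonneg s) hl.le]
      ring
    simp only [h3]
    rw [integral_const_mul]
    ring
  simp only [h1]
  rw [h2]
  refine tendsto_integral_of_dominated_convergence (fun s => C * (1 + (s * l) ^ 2)) ?_ ?_ ?_ ?_
  · intro n
    have h4 : Continuous (fun s : ℝ => (n : ℝ) * (1 - ‖charFun ρ ((s * l) / a n)‖ ^ 2)) := by
      have h5 : Continuous (charFun ρ) := continuous_charFun
      fun_prop
    exact h4.aestronglyMeasurable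
  · have h4 : ∀ s : ℝ, C * (1 + (s * l) ^ 2) = C * (1 - l ^ 2) + C * l ^ 2 * (1 + s ^ 2) := by
      intro s; ring
    simp only [h4]
    exact (integrable_const _).add (N3c_sq.const_mul _)
  · intro n
    refine ae_of_all _ fun s => ?_
    rw [Real.norm_eq_abs, abs_of_nonneg]
    · exact hCle n (s * l)
    · have h5 : ‖charFun ρ ((s * l) / a n)‖ ≤ 1 := norm_charFun_le_one _
      have h6 : ‖charFun ρ ((s * l) / a n)‖ ^ 2 ≤ 1 := pow_le_one₀ (norm_nonneg _) h5
      exact mul_nonneg (Nat.cast_nonneg n) (by linarith)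
  · exact ae_of_all _ fun s => h.char_lim hcζ (s * l)

/-- `ρ` is not a point mass (otherwise it is `dirac 0`, `charFun ρ = 1`, `charFun ζ = 1`, `ζ = dirac 0`) -/
theorem DA.nd (h : DA α ζ ρ a) : ∀ x, ρ ≠ Measure.dirac x := by
  rintro x rfl
  have hx : x = 0 := by
    have := h.mean
    rwa [integral_dirac] at this
  subst hx
  have := h.ss.prob
  refine h.ss.nd 0 (Measure.ext_of_charFun ?_)
  funext t
  have h1 := h.lim t
  have h2 : ∀ s : ℝ, charFun (Measure.dirac (0 : ℝ)) s = 1 := by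
    intro s
    rw [charFun_dirac]
    simp
  simp only [h2, one_pow] at h1
  rw [h2]
  exact (tendsto_nhds_unique h1 tendsto_const_nhds).symm ▸ rfl

end Pool.Agent.BPT
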