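import Pool.Agent.MP_99a865_pr.ST.N3b
import Pool.Agent.MP_99a865_pr.ST.N3c

/-! **[STB-N4a]** Regular variation of the smooth scale function; the norming sequence. -/

open MeasureTheory ProbabilityTheory Filter Topology
open scoped ENNReal NNReal

namespace Pool.Agent.BPT

variable {α : ℝ} {ζ ρ : Measure ℝ} {a : ℕ → ℝ}

/-- **[STB-N4a]** PROOF. `n GS(a_n) → κ`, so `GS (a n) → 0`; if `a n ≤ A` for infinitely many `n` then
`GS (a n) ≥ GS A > 0` (`GS_anti`, `GS_pos`, `DA.nd`) for these `n`. -/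
theorem N4_top (h : DA α ζ ρ a) : Tendsto a atTop atTop := by
  have := h.prob
  obtain ⟨κ, hκ, hlim⟩ := h.GS_lim
  have h1 := hlim 1 one_pos
  simp only [div_one, Real.one_rpow, mul_one] at h1
  rw [tendsto_atTop]
  intro A
  have hA' : 0 < max A 1 := lt_of_lt_of_le one_pos (le_max_right _ _)
  have hG : 0 < GS ρ (max A 1) := GS_pos h.nd hA'
  have e1 : ∀ᶠ n : ℕ in atTop, n * GS ρ (a n) < κ + 1 := h1.eventually_lt_const (by linarith)
  have e2 : ∀ᶠ n : ℕ in atTop, (κ + 1) / GS ρ (max A 1) < n :=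
    tendsto_natCast_atTop_atTop.eventually_gt_atTop _
  filter_upwards [e1, e2] with n hn1 hn2
  by_contra hlt
  push Not at hlt
  have h3 : GS ρ (max A 1) ≤ GS ρ (a n) := GS_anti (h.pos n) (hlt.le.trans (le_max_left _ _))
  have h4 : (κ + 1) < n * GS ρ (max A 1) := by rwa [div_lt_iff₀ hG] at hn2
  have h5 : (n : ℝ) * GS ρ (max A 1) ≤ n * GS ρ (a n) :=
    mul_le_mul_of_nonneg_left h3 n.cast_nonneg
  linarith

/-- **[STB-N4b]** PROOF. `n = n_j`, `k = k_j → ∞`. By `DA.GS_lim`: `k GS(a_k) → κ`, so `n GS(a_k) → κ/t`; for `l > 0`,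
`n GS(a_n/l) → κ l^α`. If `l^α < 1/t` then eventually `GS(a_n/l) < GS(a_k)`, so `a_k < a_n/l` (`GS_anti`); if
`l^α > 1/t` eventually `a_k > a_n/l`. Hence `a_k/a_n → t^{1/α}`. -/
theorem N4_ratio (h : DA α ζ ρ a) {n k : ℕ → ℕ} {t : ℝ} (hT : Tm n k t) (ht : 0 < t) :
    Tendsto (fun j => a (k j) / a (n j)) atTop (𝓝 (t ^ (1 / α))) := by
  have := h.prob
  have hα : 0 < α := by have := h.one; linarith
  obtain ⟨κ, hκ, hlim⟩ := h.GS_lim
  have hnR : Tendsto (fun j => (n j : ℝ)) atTop atTop := tendsto_natCast_atTop_atTop.comp hT.top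
  have hkR : Tendsto (fun j => (k j : ℝ)) atTop atTop := by
    have h1 : Tendsto (fun j => ((k j : ℝ) / n j) * n j) atTop atTop :=
      hT.lim.pos_mul_atTop ht hnR
    refine h1.congr' ?_
    filter_upwards [hnR.eventually_gt_atTop 0] with j hj
    field_simp
  have hk : Tendsto k atTop atTop := tendsto_natCast_atTop_iff.mp hkR
  have h1 : Tendsto (fun j => (k j : ℝ) * GS ρ (a (k j))) atTop (𝓝 κ) := by
    have := (hlim 1 one_pos).comp hk
    simpa only [Function.comp_def, div_one, Real.one_rpow, mul_one] using this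
  have h2 : Tendsto (fun j => (n j : ℝ) * GS ρ (a (k j))) atTop (𝓝 (κ / t)) := by
    have h3 := h1.div hT.lim ht.ne'
    refine h3.congr' ?_
    filter_upwards [hnR.eventually_gt_atTop 0, hkR.eventually_gt_atTop 0] with j hj hj'
    show (k j : ℝ) * GS ρ (a (k j)) / ((k j : ℝ) / n j) = _
    field_simp
  have h4 : ∀ l > (0 : ℝ), Tendsto (fun j => (n j : ℝ) * GS ρ (a (n j) / l)) atTop
      (𝓝 (κ * l ^ α)) := fun l hl => (hlim l hl).comp hT.top
  have hτ : 0 < t ^ (1 / α) := Real.rpow_pos_of_pos ht _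
  have hτα : (t ^ (1 / α)) ^ α = t := by
    rw [← Real.rpow_mul ht.le, one_div_mul_cancel hα.ne', Real.rpow_one]
  rw [tendsto_order]
  constructor
  · intro b hb
    set c : ℝ := max b (t ^ (1 / α) / 2) with hc
    have hc0 : 0 < c := lt_of_lt_of_le (by linarith) (le_max_right _ _)
    have hcτ : c < t ^ (1 / α) := max_lt hb (by linarith)
    have hcα : c ^ α < t := by
      have := Real.rpow_lt_rpow hc0.le hcτ hα
      rwa [hτα] at this
    have hlt : κ / t < κ * (c⁻¹) ^ α := by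
      rw [Real.inv_rpow hc0.le, div_eq_mul_inv]
      have hcα0 : 0 < c ^ α := Real.rpow_pos_of_pos hc0 _
      exact mul_lt_mul_of_pos_left ((inv_lt_inv₀ ht hcα0).mpr hcα) hκ
    filter_upwards [h2.eventually_lt (h4 c⁻¹ (inv_pos.mpr hc0)) hlt, hnR.eventually_gt_atTop 0]
      with j hj hnj
    have h5 : GS ρ (a (k j)) < GS ρ (a (n j) / c⁻¹) := lt_of_mul_lt_mul_left hj hnj.le
    have h6 : a (n j) / c⁻¹ < a (k j) := by
      by_contra hcon
      push Not at hcon
      exact absurd (GS_anti (ρ := ρ) (h.pos (k j)) hcon) (not_le.mpr h5)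
    have h7 : c < a (k j) / a (n j) := by
      rw [lt_div_iff₀ (h.pos _)]
      calc c * a (n j) = a (n j) / c⁻¹ := by rw [div_inv_eq_mul]; ring
        _ < _ := h6
    exact lt_of_le_of_lt (le_max_left _ _) h7
  · intro c hcτ
    have hc0 : 0 < c := hτ.trans hcτ
    have hcα : t < c ^ α := by
      have := Real.rpow_lt_rpow hτ.le hcτ hα
      rwa [hτα] at this
    have hlt : κ * (c⁻¹) ^ α < κ / t := by
      rw [Real.inv_rpow hc0.le, div_eq_mul_inv]
      have hcα0 : 0 < c ^ α := Real.rpow_pos_of_pos hc0 _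
      exact mul_lt_mul_of_pos_left ((inv_lt_inv₀ hcα0 ht).mpr hcα) hκ
    filter_upwards [(h4 c⁻¹ (inv_pos.mpr hc0)).eventually_lt h2 hlt, hnR.eventually_gt_atTop 0]
      with j hj hnj
    have h5 : GS ρ (a (n j) / c⁻¹) < GS ρ (a (k j)) := lt_of_mul_lt_mul_left hj hnj.le
    have h6 : a (k j) < a (n j) / c⁻¹ := by
      by_contra hcon
      push Not at hcon
      exact absurd (GS_anti (ρ := ρ) (div_pos (h.pos _) (inv_pos.mpr hc0)) hcon) (not_le.mpr h5)
    rw [div_lt_iff₀ (h.pos _)]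
    calc a (k j) < a (n j) / c⁻¹ := h6
      _ = c * a (n j) := by rw [div_inv_eq_mul]; ring

/-- **[STB-N4c]** `GS` is regularly varying. PROOF. For `y → ∞` let `n = n(y) = ⌈κ / GS y⌉₊ → ∞` (`GS y → 0` as `y → ∞` by
dominated convergence, `GS y > 0`), so `n GS y → κ`. Let `l > 1`. As `n GS(a_n l) → κ l^{-α} < κ < κ l^α ← n GS(a_n / l)`,
eventually `GS(a_n l) < GS y < GS(a_n / l)`, i.e. `a_n/l < y < a_n l` (`GS_anti`). Then
`n GS(r l a_n) ≤ n GS(r y) ≤ n GS(r a_n / l)`, and both bounds tend to `κ (r l)^{-α}`, `κ (r/l)^{-α}`; `l → 1`: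
`n GS(r y) → κ r^{-α}`, and `GS(r y)/GS(y) → r^{-α}`. -/
theorem DA.GS_reg (h : DA α ζ ρ a) {r : ℝ} (hr : 0 < r) :
    Tendsto (fun y : ℝ => GS ρ (r * y) / GS ρ y) atTop (𝓝 (r ^ (-α))) := by
  have := h.prob
  have hα : 0 < α := by have := h.one; linarith
  obtain ⟨κ, hκ, hlim⟩ := h.GS_lim
  have hpos : ∀ y, 0 < y → 0 < GS ρ y := fun y hy => GS_pos h.nd hy
  -- `GS` tends to zero
  have h1 := hlim 1 one_pos
  simp only [div_one, Real.one_rpow, mul_one] at h1
  have hGa : Tendsto (fun n : ℕ => GS ρ (a n)) atTop (𝓝 0) := by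
    have h2 := h1.mul tendsto_inv_atTop_nhds_zero_nat
    rw [mul_zero] at h2
    refine h2.congr' ?_
    filter_upwards [eventually_gt_atTop 0] with n hn
    have : (n : ℝ) ≠ 0 := by exact_mod_cast hn.ne'
    field_simp
  have hG0 : Tendsto (fun y : ℝ => GS ρ y) atTop (𝓝 0) := by
    rw [tendsto_order]
    constructor
    · intro b hb
      filter_upwards [eventually_gt_atTop 0] with y hy
      exact hb.trans (hpos y hy)
    · intro b hb
      obtain ⟨n, hn⟩ := (hGa.eventually_lt_const hb).exists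
      filter_upwards [eventually_ge_atTop (a n)] with y hy
      exact lt_of_le_of_lt (GS_anti (h.pos n) hy) hn
  set N : ℝ → ℕ := fun y => ⌈κ / GS ρ y⌉₊ with hN
  have hinv : Tendsto (fun y : ℝ => κ / GS ρ y) atTop atTop := by
    have h2 : Tendsto (fun y : ℝ => GS ρ y) atTop (𝓝[>] 0) := by
      refine tendsto_nhdsWithin_iff.mpr ⟨hG0, ?_⟩
      filter_upwards [eventually_gt_atTop 0] with y hy
      exact hpos y hy
    have h3 := (tendsto_inv_nhdsGT_zero.comp h2).const_mul_atTop hκ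
    exact h3.congr fun y => by simp [div_eq_mul_inv]
  have hNtop : Tendsto N atTop atTop := tendsto_nat_ceil_atTop.comp hinv
  have hNR : Tendsto (fun y => (N y : ℝ)) atTop atTop := tendsto_natCast_atTop_atTop.comp hNtop
  have hNG : Tendsto (fun y => (N y : ℝ) * GS ρ y) atTop (𝓝 κ) := by
    have h2 : Tendsto (fun y => κ + GS ρ y) atTop (𝓝 κ) := by
      simpa using (tendsto_const_nhds (x := κ)).add hG0
    refine tendsto_of_tendsto_of_tendsto_of_le_of_le' tendsto_const_nhds h2 ?_ ?_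
    · filter_upwards [eventually_gt_atTop 0] with y hy
      have h3 := Nat.le_ceil (κ / GS ρ y)
      rwa [div_le_iff₀ (hpos y hy)] at h3
    · filter_upwards [eventually_gt_atTop 0] with y hy
      have h3 := (Nat.ceil_lt_add_one (div_pos hκ (hpos y hy)).le).le
      have h4 := mul_le_mul_of_nonneg_right h3 (hpos y hy).le
      have h5 : (κ / GS ρ y + 1) * GS ρ y = κ + GS ρ y := by
        rw [add_mul, div_mul_cancel₀ _ (hpos y hy).ne', one_mul]
      rw [h5] at h4
      exact h4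
  have hl : ∀ l > (0 : ℝ), Tendsto (fun y => (N y : ℝ) * GS ρ (a (N y) / l)) atTop
      (𝓝 (κ * l ^ α)) := fun l hl => (hlim l hl).comp hNtop
  -- `y` is comparable with `a (N y)`
  have hcmp : ∀ l : ℝ, 1 < l → ∀ᶠ y in atTop, a (N y) / l < y ∧ y < a (N y) * l := by
    intro l hl1
    have hl0 : 0 < l := by linarith
    have hup : κ < κ * l ^ α := by
      have := Real.one_lt_rpow hl1 hα
      nlinarith
    have hlo : κ * (l⁻¹) ^ α < κ := by
      have : (l⁻¹) ^ α < 1 := Real.rpow_lt_one (inv_pos.mpr hl0).le (inv_lt_one_of_one_lt₀ hl1) hα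
      nlinarith
    filter_upwards [hNG.eventually_lt (hl l hl0) hup, (hl l⁻¹ (inv_pos.mpr hl0)).eventually_lt hNG hlo,
      hNR.eventually_gt_atTop 0, eventually_gt_atTop 0] with y h3 h4 h5 hy
    have h6 : GS ρ y < GS ρ (a (N y) / l) := lt_of_mul_lt_mul_left h3 h5.le
    have h7 : GS ρ (a (N y) / l⁻¹) < GS ρ y := lt_of_mul_lt_mul_left h4 h5.le
    constructor
    · by_contra hcon
      push Not at hcon
      exact absurd (GS_anti (ρ := ρ) hy hcon) (not_le.mpr h6)
    · by_contra hcon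
      push Not at hcon
      have h8 : a (N y) / l⁻¹ ≤ y := by rw [div_inv_eq_mul]; exact hcon
      exact absurd (GS_anti (ρ := ρ) (div_pos (h.pos _) (inv_pos.mpr hl0)) h8) (not_le.mpr h7)
  have hmain : Tendsto (fun y => (N y : ℝ) * GS ρ (r * y)) atTop (𝓝 (κ * r ^ (-α))) := by
    have hrα : κ * r ^ (-α) = κ * (r⁻¹) ^ α := by
      rw [Real.inv_rpow hr.le, Real.rpow_neg hr.le]
    rw [hrα, tendsto_order]
    constructor
    · intro b hb
      have hcont : ContinuousAt (fun l : ℝ => κ * ((r * l)⁻¹) ^ α) 1 := by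
        refine ContinuousAt.mul continuousAt_const (ContinuousAt.rpow_const ?_ (Or.inr hα.le))
        exact ContinuousAt.inv₀ (by fun_prop) (by simpa using hr.ne')
      have hev : ∀ᶠ l in 𝓝[>] (1 : ℝ), b < κ * ((r * l)⁻¹) ^ α :=
        (hcont.tendsto.eventually_const_lt (by simpa using hb)).filter_mono nhdsWithin_le_nhds
      obtain ⟨l, hlb, hl1⟩ := (hev.and self_mem_nhdsWithin).exists
      have hl1' : (1 : ℝ) < l := hl1
      have hrl : 0 < r * l := mul_pos hr (by linarith)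
      filter_upwards [(hl (r * l)⁻¹ (inv_pos.mpr hrl)).eventually_const_lt hlb, hcmp l hl1',
        eventually_gt_atTop 0, hNR.eventually_gt_atTop 0] with y h3 h4 hy h5
      refine lt_of_lt_of_le h3 (mul_le_mul_of_nonneg_left (GS_anti (mul_pos hr hy) ?_) h5.le)
      rw [div_inv_eq_mul]
      calc r * y ≤ r * (a (N y) * l) := mul_le_mul_of_nonneg_left h4.2.le hr.le
        _ = a (N y) * (r * l) := by ring
    · intro b hb
      have hcont : ContinuousAt (fun l : ℝ => κ * ((r / l)⁻¹) ^ α) 1 := by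
        refine ContinuousAt.mul continuousAt_const (ContinuousAt.rpow_const ?_ (Or.inr hα.le))
        refine ContinuousAt.inv₀ (ContinuousAt.div (by fun_prop) (by fun_prop) one_ne_zero) ?_
        simpa using hr.ne'
      have hev : ∀ᶠ l in 𝓝[>] (1 : ℝ), κ * ((r / l)⁻¹) ^ α < b :=
        (hcont.tendsto.eventually_lt_const (by simpa using hb)).filter_mono nhdsWithin_le_nhds
      obtain ⟨l, hlb, hl1⟩ := (hev.and self_mem_nhdsWithin).exists
      have hl1' : (1 : ℝ) < l := hl1
      have hl0 : (0 : ℝ) < l := by linarith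
      have hrl : 0 < r / l := div_pos hr hl0
      filter_upwards [(hl (r / l)⁻¹ (inv_pos.mpr hrl)).eventually_lt_const hlb, hcmp l hl1',
        eventually_gt_atTop 0, hNR.eventually_gt_atTop 0] with y h3 h4 hy h5
      refine lt_of_le_of_lt (mul_le_mul_of_nonneg_left (GS_anti ?_ ?_) h5.le) h3
      · rw [div_inv_eq_mul]; exact mul_pos (h.pos _) hrl
      · rw [div_inv_eq_mul]
        calc a (N y) * (r / l) = r * (a (N y) / l) := by ring
          _ ≤ r * y := mul_le_mul_of_nonneg_left h4.1.le hr.le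
  have hfin := hmain.div hNG hκ.ne'
  have hval : κ * r ^ (-α) / κ = r ^ (-α) := by field_simp
  rw [hval] at hfin
  refine hfin.congr' ?_
  filter_upwards [hNR.eventually_gt_atTop 0, eventually_gt_atTop 0] with y h5 hy
  have h6 := (hpos y hy).ne'
  show (N y : ℝ) * GS ρ (r * y) / ((N y : ℝ) * GS ρ y) = _
  rw [mul_div_mul_left _ _ h5.ne']

end Pool.Agent.BPT
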