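import Pool.Agent.MP_99a865_pr.ST.L3b
import Pool.Agent.MP_99a865_pr.ST.L3c
import Pool.Agent.MP_99a865_pr.ST.Z3

/-! **[STB-P1]** Positivity of the killed density. -/

open MeasureTheory ProbabilityTheory Filter Topology
open scoped ENNReal NNReal

namespace Pool.Agent.BPT

variable {α : ℝ} {ζ ρ : Measure ℝ} {a : ℕ → ℝ} {D : Set ℝ}

/-- **[STB-P1a]** One small step. PROOF. `m = min_{[-1,1]} dens ζ > 0` (`DA.dens_pos`, continuity). By `qT_ge` with `ε = 1`, for `δ ≤ δ₀`, `y ≥ r`,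
`|y - x| ≤ δ^{1/α}`: `qT δ x y ≥ δ^{-1/α} m - 1 ≥ (m/2) δ^{-1/α}` if also `δ^{-1/α} m ≥ 2`. -/
theorem P1_step (hda : DA α ζ ρ a) {r : ℝ} (hr : 0 < r) : ∃ δ₀ > (0 : ℝ), ∀ δ, 0 < δ → δ ≤ δ₀ → ∃ c > (0 : ℝ),
    ∀ x y : ℝ, 0 < x → r ≤ y → |y - x| ≤ δ ^ (1 / α) → c ≤ qT α ζ δ x y := by
  have hα : 0 < α := by linarith [hda.one]
  obtain ⟨δ₁, hδ₁, h1⟩ := qT_ge hda hr 1 one_pos
  obtain ⟨v, hv, hmin⟩ := (isCompact_Icc (a := (-1 : ℝ)) (b := 1)).exists_isMinOn
    ⟨0, by norm_num, by norm_num⟩ (SS.dens_cont hda.ss hda.one).continuousOn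
  have hm : 0 < dens ζ v := DA.dens_pos hda v
  set m : ℝ := dens ζ v with hmdef
  refine ⟨min δ₁ ((m / 2) ^ α), lt_min hδ₁ (Real.rpow_pos_of_pos (by linarith) _), ?_⟩
  intro δ hδ hδ'
  refine ⟨1, one_pos, ?_⟩
  intro x y hx hy hxy
  have h2 := h1 δ hδ (hδ'.trans (min_le_left _ _)) x y hx hy
  set l : ℝ := δ ^ (1 / α) with hl
  have hl0 : 0 < l := Real.rpow_pos_of_pos hδ _
  have hlm : l ≤ m / 2 := by
    have h3 : δ ≤ (m / 2) ^ α := hδ'.trans (min_le_right _ _)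
    have h4 : δ ^ (1 / α) ≤ ((m / 2) ^ α) ^ (1 / α) :=
      Real.rpow_le_rpow hδ.le h3 (by positivity)
    rw [← Real.rpow_mul (by linarith), mul_one_div_cancel hα.ne', Real.rpow_one] at h4
    exact h4
  have h5 : m ≤ dens ζ ((y - x) / l) := by
    apply hmin
    rw [abs_le] at hxy
    constructor
    · rw [le_div_iff₀ hl0]
      linarith
    · rw [div_le_iff₀ hl0]
      linarith
  have h6 : 2 ≤ dt α ζ δ (y - x) := by
    unfold dt
    rw [← hl, le_div_iff₀ hl0]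
    linarith
  linarith

private theorem P1_win {A B μ q x y : ℝ} (hμ : 0 < μ) (hq : 2 * μ ≤ q) (hx : A ≤ x)
    (hx' : x ≤ B) (hy : A ≤ y) (hy' : y ≤ B) (hxy : |x - y| ≤ q + μ) :
    ∃ lo hi : ℝ, min μ (B - A) ≤ hi - lo ∧ ∀ z, lo ≤ z → z ≤ hi →
      A ≤ z ∧ z ≤ B ∧ |z - x| ≤ 2 * μ ∧ |z - y| ≤ q := by
  rw [abs_le] at hxy
  refine ⟨max A (max (x - 2 * μ) (y - q)), min B (min (x + 2 * μ) (y + q)), ?_, ?_⟩
  · have k1 := min_le_left μ (B - A)
    have k2 := min_le_right μ (B - A)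
    have key : max A (max (x - 2 * μ) (y - q)) + min μ (B - A) ≤
        min B (min (x + 2 * μ) (y + q)) := by
      rw [← max_add_add_right, ← max_add_add_right]
      refine max_le (le_min ?_ (le_min ?_ ?_)) (max_le (le_min ?_ (le_min ?_ ?_))
        (le_min ?_ (le_min ?_ ?_))) <;> linarith [hxy.1, hxy.2]
    linarith
  · intro z h1 h2
    have a1 := (max_le_iff.1 h1).1
    have a2 := (max_le_iff.1 (max_le_iff.1 h1).2).1
    have a3 := (max_le_iff.1 (max_le_iff.1 h1).2).2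
    have b1 := (le_min_iff.1 h2).1
    have b2 := (le_min_iff.1 (le_min_iff.1 h2).2).1
    have b3 := (le_min_iff.1 (le_min_iff.1 h2).2).2
    refine ⟨a1, b1, ?_, ?_⟩
    · rw [abs_le]
      constructor <;> linarith
    · rw [abs_le]
      constructor <;> linarith

private theorem P1_K {α t δ₀ R : ℝ} (hα : 1 < α) (ht : 0 < t) (hδ₀ : 0 < δ₀) :
    ∃ K : ℕ, 1 ≤ K ∧ t / K ≤ δ₀ ∧ R ≤ K * (t / K) ^ (1 / α) := by
  have h1 : Tendsto (fun K : ℕ => t / (K : ℝ)) atTop (𝓝 0) := tendsto_const_div_atTop_nhds_zero_nat t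
  have h2 : Tendsto (fun K : ℕ => t ^ (1 / α) * (K : ℝ) ^ (1 - 1 / α)) atTop atTop := by
    apply Tendsto.const_mul_atTop (Real.rpow_pos_of_pos ht _)
    have h3 : 0 < 1 - 1 / α := by
      rw [sub_pos, div_lt_one (by linarith)]
      exact hα
    exact (tendsto_rpow_atTop h3).comp tendsto_natCast_atTop_atTop
  obtain ⟨K, hK1, hK2, hK3⟩ := ((eventually_ge_atTop 1).and ((h1.eventually (ge_mem_nhds hδ₀)).and
    (h2.eventually_ge_atTop R))).exists
  refine ⟨K, hK1, hK2, hK3.trans (le_of_eq ?_)⟩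
  have hK : (0 : ℝ) < K := by exact_mod_cast hK1
  rw [Real.div_rpow ht.le hK.le, Real.rpow_sub hK, Real.rpow_one]
  ring

private theorem P1_BCo (hda : DA α ζ ρ a) {t y : ℝ} (ht : 0 < t) (hy : 0 < y) :
    ∃ M : ℝ, BCo M (fun z => qT α ζ t z y) := by
  obtain ⟨M, hM, hbd⟩ := qT_bdd hda ht
  refine ⟨M, ⟨?_, ?_⟩⟩
  · intro z hz
    rw [abs_of_nonneg (qT_nonneg hda ht hz hy)]
    exact hbd z y hz hy
  · have hcon := qT_cont hda ht
    have h1 : ContinuousOn (fun z : ℝ => (z, y)) (Set.Ioi 0) := by fun_prop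
    have h2 : Set.MapsTo (fun z : ℝ => (z, y)) (Set.Ioi 0) (Set.Ioi 0 ×ˢ Set.Ioi 0) :=
      fun z hz => Set.mk_mem_prod hz hy
    exact ContinuousOn.comp (g := fun p : ℝ × ℝ => qT α ζ t p.1 p.2)
      (f := fun z : ℝ => (z, y)) hcon h1 h2

/-- **[STB-P1]** PROOF. Let `r = 1/R`, `δ = t/K` with `K` so large that `δ ≤ δ₀` and, with `λ = δ^{1/α}`, `K λ / 2 ≥ R` (`K λ = t^{1/α} K^{1 - 1/α} → ∞` as
`α > 1`) and `λ ≤ 1/R`. Show by induction on `j ≥ 1`: there is `c_j > 0` with `qT (j δ) x y ≥ c_j` for `x, y ∈ [1/R, R]`, `|x - y| ≤ (j+1) λ/2`. `j = 1`: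
`P1_step`. Step: `qT ((j+1) δ) x y = QT δ (qT (jδ) · y) x = ∫ qT δ x z qT (jδ) z y dz` (`qT_CK`, `qT_int`) `≥ c c_j |I|` where `I` is the set of
`z ∈ [1/R, R]` with `|z - x| ≤ λ`, `|z - y| ≤ (j+1)λ/2`; if `|x - y| ≤ (j+2) λ/2` then `I` contains an interval of length at least
`min (λ/2) (R - 1/R)`. Finally `j = K`. -/
theorem P1_pos (hda : DA α ζ ρ a) {t : ℝ} (ht : 0 < t) {R : ℝ} (hR : 1 < R) : ∃ c > (0 : ℝ), ∀ x y : ℝ,
    1 / R ≤ x → x ≤ R → 1 / R ≤ y → y ≤ R → c ≤ qT α ζ t x y := by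
  have hR0 : 0 < R := by linarith
  have hA : 0 < 1 / R := by positivity
  have hAB : 1 / R < R := by
    rw [div_lt_iff₀ hR0]
    nlinarith
  obtain ⟨δ₀, hδ₀, hstep⟩ := P1_step hda hA
  obtain ⟨K, hK1, hK2, hK3⟩ := P1_K (R := 2 * R) hda.one ht hδ₀
  have hK : (0 : ℝ) < K := by exact_mod_cast hK1
  set δ : ℝ := t / K with hδdef
  have hδ : 0 < δ := by positivity
  obtain ⟨c₁, hc₁, h1⟩ := hstep δ hδ hK2
  set μ : ℝ := δ ^ (1 / α) / 2 with hμdef
  have hμ : 0 < μ := by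
    have := Real.rpow_pos_of_pos hδ (1 / α)
    positivity
  have hμ2 : δ ^ (1 / α) = 2 * μ := by rw [hμdef]; ring
  have key : ∀ j : ℕ, ∃ c > (0 : ℝ), ∀ x y : ℝ, 1 / R ≤ x → x ≤ R → 1 / R ≤ y → y ≤ R →
      |x - y| ≤ (j + 2) * μ → c ≤ qT α ζ ((j + 1) * δ) x y := by
    intro j
    induction j with
    | zero =>
      refine ⟨c₁, hc₁, ?_⟩
      intro x y hx hx' hy hy' hxy
      have := h1 x y (by linarith) hy (by
        rw [abs_sub_comm, hμ2]
        simpa using hxy)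
      simpa using this
    | succ j ih =>
      obtain ⟨c, hc, h2⟩ := ih
      have hm : 0 < min μ (R - 1 / R) := lt_min hμ (by linarith)
      refine ⟨c₁ * c * min μ (R - 1 / R), by positivity, ?_⟩
      intro x y hx hx' hy hy' hxy
      have hx0 : 0 < x := by linarith
      have hy0 : 0 < y := by linarith
      have hjδ : 0 < ((j : ℝ) + 1) * δ := by positivity
      obtain ⟨lo, hi, h3, h4⟩ := P1_win (A := 1 / R) (B := R) (μ := μ) (q := ((j : ℝ) + 2) * μ)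
        hμ (by nlinarith [(Nat.cast_nonneg j : (0 : ℝ) ≤ j)]) hx hx' hy hy' (by
          refine hxy.trans (le_of_eq ?_)
          push_cast
          ring)
      -- the function
      obtain ⟨M, hf⟩ := P1_BCo hda hjδ hy0
      obtain ⟨hint, heq⟩ := qT_int hda hδ hf hx0
      have hCK := qT_CK hda hδ hjδ hx0 hy0
      have e1 : ((j + 1 : ℕ) + 1 : ℝ) * δ = δ + ((j : ℝ) + 1) * δ := by
        push_cast
        ring
      rw [e1, ← hCK, ← heq]
      have hlohi : lo ≤ hi := by linarith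
      have hsub : Set.Icc lo hi ⊆ Set.Ioi 0 := by
        intro z hz
        have := (h4 z hz.1 hz.2).1
        exact lt_of_lt_of_le hA this
      have h5 : ∫ z in Set.Icc lo hi, qT α ζ δ x z * qT α ζ (((j : ℝ) + 1) * δ) z y ≤
          ∫ z in Set.Ioi (0 : ℝ), qT α ζ δ x z * qT α ζ (((j : ℝ) + 1) * δ) z y := by
        apply setIntegral_mono_set hint
        · filter_upwards [ae_restrict_mem measurableSet_Ioi] with z hz
          exact mul_nonneg (qT_nonneg hda hδ hx0 hz) (qT_nonneg hda hjδ hz hy0)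
        · exact Filter.Eventually.of_forall hsub
      have h6 : ∫ z in Set.Icc lo hi, c₁ * c ≤
          ∫ z in Set.Icc lo hi, qT α ζ δ x z * qT α ζ (((j : ℝ) + 1) * δ) z y := by
        apply setIntegral_mono_on
        · exact continuousOn_const.integrableOn_Icc
        · exact hint.mono_set hsub
        · exact measurableSet_Icc
        · intro z hz
          obtain ⟨k1, k2, k3, k4⟩ := h4 z hz.1 hz.2
          have a1 : c₁ ≤ qT α ζ δ x z := h1 x z hx0 k1 (by rw [hμ2]; exact k3)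
          have a2 : c ≤ qT α ζ (((j : ℝ) + 1) * δ) z y := h2 z y k1 k2 hy hy' k4
          exact mul_le_mul a1 a2 hc.le (hc₁.le.trans a1)
      have h7 : ∫ z in Set.Icc lo hi, c₁ * c = (hi - lo) * (c₁ * c) := by
        rw [setIntegral_const]
        simp [Measure.real, Real.volume_Icc, ENNReal.toReal_ofReal (sub_nonneg.2 hlohi)]
      have h8 : c₁ * c * min μ (R - 1 / R) ≤ (hi - lo) * (c₁ * c) := by
        rw [mul_comm (hi - lo)]
        exact mul_le_mul_of_nonneg_left h3 (by positivity)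
      linarith
  obtain ⟨j, hj⟩ : ∃ j : ℕ, K = j + 1 := ⟨K - 1, by omega⟩
  obtain ⟨c, hc, h2⟩ := key j
  refine ⟨c, hc, ?_⟩
  intro x y hx hx' hy hy'
  have h3 := h2 x y hx hx' hy hy' (by
    have e : |x - y| ≤ R := by
      rw [abs_le]
      constructor <;> linarith
    refine e.trans ?_
    have e2 : 2 * R ≤ ((j : ℝ) + 1) * (2 * μ) := by
      rw [← hμ2]
      have : (K : ℝ) = (j : ℝ) + 1 := by rw [hj]; push_cast; ring
      rw [← this]
      exact hK3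
    nlinarith)
  have e : ((j : ℝ) + 1) * δ = t := by
    have : (K : ℝ) = (j : ℝ) + 1 := by rw [hj]; push_cast; ring
    rw [← this, hδdef]
    field_simp
  rwa [e] at h3

end Pool.Agent.BPT
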