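import Pool.Agent.MP_99a865_pr.CV.Q4
import Pool.Agent.MP_99a865_pr.FV.F5
import Pool.Agent.MP_99a865_pr.FV.Y1

/-!
# Busy-period trees in the stable domain: block Q (the queue). Definitions.

`QS D μ ν a L V V' p K x₀` collects what is used about the random walk of the queue: `a n` is the scale of the
walk at time `n`, `L` the scale function (`n L(a n) ≍ 1`), `V` and `V'` the renewal functions of the two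
ladder height processes, `p > 1` an exponent.
`bb V a n = 1/(n V(a n))` is the order of `P(N = n)`.
-/

open MeasureTheory ProbabilityTheory Filter Topology
open scoped ENNReal NNReal

namespace Pool.Agent.BPT

/-- What is used about the walk of the queue. (`x₀` is a threshold, `K` a constant.) -/
structure QS (D : Set ℝ) (μ ν : Measure ℝ) (a : ℕ → ℝ) (L V V' : ℝ → ℝ) (p K x₀ : ℝ) : Prop where
  dom : Dom D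
  qi : QI μ ν
  p_gt : 1 < p
  p_le : p ≤ 2
  K_ge : 1 ≤ K
  x_ge : 16 ≤ x₀
  L_pos : ∀ y, x₀ ≤ y → 0 < L y
  L_anti : ∀ x y, x₀ ≤ x → x ≤ y → L y ≤ L x
  L_le : ∀ y r : ℝ, x₀ ≤ y → 1 ≤ r → r ^ p * L (r * y) ≤ K * L y
  L_ge : ∀ y r : ℝ, x₀ ≤ y → 1 ≤ r → L y ≤ K * r ^ 2 * L (r * y)
  a_ge : ∀ n : ℕ, 1 ≤ n → x₀ ≤ a n
  L_a : ∀ n : ℕ, 1 ≤ n → 1 ≤ K * (n * L (a n)) ∧ n * L (a n) ≤ K
  V_mono : Monotone V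
  V_one : ∀ y, 1 ≤ V y
  V_zero : V 0 ≤ K
  V_le : ∀ y r : ℝ, x₀ ≤ y → 1 ≤ r → V (r * y) ≤ K * r * V y
  V_ge : ∀ y r : ℝ, x₀ ≤ y → 1 ≤ r → r ^ (p - 1) * V y ≤ K * V (r * y)
  V'_mono : Monotone V'
  V'_one : ∀ y, 1 ≤ V' y
  V'_le : ∀ y r : ℝ, x₀ ≤ y → 1 ≤ r → V' (r * y) ≤ K * r * V' y
  V'_ge : ∀ y r : ℝ, x₀ ≤ y → 1 ≤ r → r ^ (p - 1) * V' y ≤ K * V' (r * y)
  LVV : ∀ y, x₀ ≤ y → 1 ≤ K * (L y * V y * V' y) ∧ L y * V y * V' y ≤ K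
  green : ∀ y, x₀ ≤ y → GG D (stepLaw μ ν 1) y ≤ ENNReal.ofReal (K * V' y)
  maxZ : ∀ (w : ℕ) (y : ℝ), x₀ ≤ y →
    (PQ μ ν).real {η | ∃ j ≤ w, y ≤ |Zw j η|} ≤ K * (w * L y)
  maxA : ∀ (w : ℕ) (y : ℝ), x₀ ≤ y →
    (PQ μ ν).real {η | ∃ j ≤ w, y ≤ |Ar j η - j|} ≤ K * (w * L y)
  kap_loc : ∀ n i : ℕ, 1 ≤ n → n ≤ 4 * i → i ≤ 2 * n → ∀ z : ℝ, 0 ≤ z →
    (kap D (stepLaw μ ν 1) i 0).real (Set.Ico z (z + 1)) ≤ K * V' (z + x₀) / (n * a n)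
  hit_m : ∀ (m : ℕ) (x : ℝ), 1 ≤ m → hit D (stepLaw μ ν 1) m x ≤ K / m
  hit_L : ∀ (m : ℕ) (x : ℝ), 1 ≤ m → x₀ ≤ x → hit D (stepLaw μ ν 1) m x ≤ K * L x
  hit_V : ∀ (n m : ℕ) (x : ℝ), 1 ≤ m → m ≤ n → n ≤ 4 * m → 0 ≤ x →
    hit D (stepLaw μ ν 1) m x ≤ K * V x / (n * V (a n))
  hit_ge : ∀ n : ℕ, 1 ≤ n → hit D (stepLaw μ ν 1) n 0 ≠ 0 →
    1 / (n * V (a n)) ≤ K * hit D (stepLaw μ ν 1) n 0
  harm : ∀ (n : ℕ) (y : ℝ), x₀ ≤ y →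
    (PQ μ ν).real {ω | ∃ j ≤ n, AliveQ D j ω ∧ y ≤ Zw j ω} ≤ K / V y

/-- order of `P(N = n)` -/
noncomputable def bb (V : ℝ → ℝ) (a : ℕ → ℝ) (n : ℕ) : ℝ := 1 / (n * V (a n))

open Classical in
/-- number of boundaries `b < n` at levels `≤ y` -/
noncomputable def cLo (D : Set ℝ) (n : ℕ) (y : ℝ) (ω : ℕ → ℝ × ℝ) : ℕ :=
  ((Finset.range n).filter fun b => Bd D ω b ∧ Zw b ω ≤ y).card

/-- bad windows of length `w`: the walk or the arrival process deviates by `e` -/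
def BWd (w : ℕ) (e : ℝ) : Set (ℕ → ℝ × ℝ) :=
  {η | ∃ j ≤ w, e ≤ |Zw j η| ∨ e ≤ |Ar j η - j|}

open Classical in
/-- number of boundaries `b < n` at levels `≥ y` followed by a bad window -/
noncomputable def cBad (D : Set ℝ) (n w : ℕ) (y e : ℝ) (ω : ℕ → ℝ × ℝ) : ℕ :=
  ((Finset.range n).filter fun b => Bd D ω b ∧ y ≤ Zw b ω ∧ shift b ω ∈ BWd w e).card

/-- somewhere before `n` the arrivals are too fast -/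
def FA (ε : ℝ) (q n : ℕ) : Set (ℕ → ℝ × ℝ) :=
  {ω | ∃ b ≤ n, Ar (b + q) ω - Ar b ω ≤ (1 - ε) * q}

/-- `∑_{i<n} 1/max(Z_i, s)` -/
noncomputable def SH (s : ℝ) (n : ℕ) (ω : ℕ → ℝ × ℝ) : ℝ :=
  ∑ i ∈ Finset.range n, 1 / max (Zw i ω) s

/-- `∑_{i<n} (n - i)/max(Z_i, s)` -/
noncomputable def STt (s : ℝ) (n : ℕ) (ω : ℕ → ℝ × ℝ) : ℝ :=
  ∑ i ∈ Finset.range n, ((n : ℝ) - i) / max (Zw i ω) s

/-- `(1/n) ∑_{i<n} c(i/n) φ(Z_i/a_n)` -/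
noncomputable def YS (a : ℕ → ℝ) (c φ : ℝ → ℝ) (n : ℕ) (ω : ℕ → ℝ × ℝ) : ℝ :=
  (∑ i ∈ Finset.range n, c (i / n) * φ (Zw i ω / a n)) / n

/-- grid points `⌊n j/k⌋` -/
noncomputable def gg (k n j : ℕ) : ℕ := ⌊(j : ℝ) / k * n⌋₊

/-- `(1/k) ∑_{1≤j<k} c(j/k) φ(Z_{⌊nj/k⌋}/a_n)` -/
noncomputable def YK (a : ℕ → ℝ) (c φ : ℝ → ℝ) (k n : ℕ) (ω : ℕ → ℝ × ℝ) : ℝ :=
  (∑ j ∈ Finset.Ico 1 k, c ((j : ℝ) / k) * φ (Zw (gg k n j) ω / a n)) / k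

/-- `max_{i<n} Z_i` -/
noncomputable def MZ (n : ℕ) (ω : ℕ → ℝ × ℝ) : ℝ := ⨆ i : Fin n, Zw i ω

/-- `max_{j<k} Z_{⌊nj/k⌋}` -/
noncomputable def MK (k n : ℕ) (ω : ℕ → ℝ × ℝ) : ℝ := ⨆ j : Fin k, Zw (gg k n j) ω

/-- `t` is the first time at which the walk is at a level `≥ y` -/
def FP (y : ℝ) (t : ℕ) : Set (ℕ → ℝ × ℝ) := {ω | y ≤ Zw t ω ∧ ∀ j < t, Zw j ω < y}

/-- `n → ∞` along the `n` with `P(N = n) > 0` -/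
noncomputable def lQ (D : Set ℝ) (μ ν : Measure ℝ) : Filter ℕ :=
  atTop ⊓ 𝓟 {n | PQ μ ν (EvN D n) ≠ 0}

/-- the list `[(1/k, f 1), …, (1/k, f (k-1))]` (increments of times, functions) -/
noncomputable def gl (k : ℕ) (f : ℕ → ℝ → ℝ) : List (ℝ × (ℝ → ℝ)) :=
  (List.range (k - 1)).map fun j => ((1 : ℝ) / k, f (j + 1))

/-- given `N = n` the joint law of the `Z_{⌊nj/k⌋}/a_n`, `1 ≤ j < k`, converges; the limits of the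
expectations of products are the numbers `Φ (gl k f)` -/
def Fdd (Φ : List (ℝ × (ℝ → ℝ)) → ℝ) (D : Set ℝ) (μ ν : Measure ℝ) (a : ℕ → ℝ) : Prop :=
  ∀ k : ℕ, 2 ≤ k → ∀ f : ℕ → ℝ → ℝ, (∃ M > (0 : ℝ), ∀ j, BL M (f j)) →
    Tendsto (fun n => EN D μ ν n fun ω => ∏ j ∈ Finset.Ico 1 k, f j (Zw (gg k n j) ω / a n))
      (lQ D μ ν) (𝓝 (Φ (gl k f)))

/-- the queues of the theorem: `QS` for some parameters, and the limits of the finite dimensional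
distributions are given by `Φ` -/
def QC (Φ : List (ℝ × (ℝ → ℝ)) → ℝ) (D : Set ℝ) (μ ν : Measure ℝ) (a : ℕ → ℝ) : Prop :=
  Fdd Φ D μ ν a ∧ ∃ (L V V' : ℝ → ℝ) (p K x₀ : ℝ), QS D μ ν a L V V' p K x₀

/-- Positivity facts, used only for the nondegeneracy. -/
structure QP (D : Set ℝ) (μ ν : Measure ℝ) (a : ℕ → ℝ) : Prop where
  mov : ∃ c > (0 : ℝ), ∃ e > (0 : ℝ), ∀ᶠ w : ℕ in atTop,
    c ≤ (PQ μ ν).real {ω | e * a w ≤ Zw w ω} ∧ c ≤ (PQ μ ν).real {ω | Zw w ω ≤ -(e * a w)}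
  hitp : ∃ c > (0 : ℝ), ∃ r₁ r₂ : ℝ, 0 < r₁ ∧ r₁ < r₂ ∧ ∀ᶠ n in lQ D μ ν,
    ∀ᵐ z ∂(kap D (stepLaw μ ν 1) (gg 8 n 7) 0), r₁ * a n ≤ z → z ≤ r₂ * a n →
      c / n ≤ hit D (stepLaw μ ν 1) (n - gg 8 n 7) z

/-- A positive right-continuous process on `(0,1)` whose finite dimensional distributions at the grid
points `j/k` are given by `Φ`. -/
structure EP (Φ : List (ℝ × (ℝ → ℝ)) → ℝ) {Ω : Type} [MeasurableSpace Ω] (P : Measure Ω)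
    (e : ℝ → Ω → ℝ) : Prop where
  prob : IsProbabilityMeasure P
  meas : ∀ t, Measurable (e t)
  path : ∀ᵐ ω ∂P, ∀ t, 0 < t → t < 1 →
    0 < e t ω ∧ ContinuousWithinAt (fun s => e s ω) (Set.Ici t) t
  fdd : ∀ k : ℕ, 2 ≤ k → ∀ f : ℕ → ℝ → ℝ, (∃ M > (0 : ℝ), ∀ j, BL M (f j)) →
    ∫ ω, ∏ j ∈ Finset.Ico 1 k, f j (e ((j : ℝ) / k) ω) ∂P = Φ (gl k f)

/-- `(1/k) ∑_{1≤j<k} c(j/k) φ(e_{j/k})` -/
noncomputable def YE {Ω : Type} (e : ℝ → Ω → ℝ) (c φ : ℝ → ℝ) (k : ℕ) (ω : Ω) : ℝ :=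
  (∑ j ∈ Finset.Ico 1 k, c ((j : ℝ) / k) * φ (e ((j : ℝ) / k) ω)) / k

/-- `∫_0^1 c(t) φ(e_t) dt` -/
noncomputable def IE {Ω : Type} (e : ℝ → Ω → ℝ) (c φ : ℝ → ℝ) (ω : Ω) : ℝ :=
  ∫ t in Set.Ioo (0 : ℝ) 1, c t * φ (e t ω)

/-- `max_{1≤j<k} e_{j/k}` (and `0`) -/
noncomputable def ME {Ω : Type} (e : ℝ → Ω → ℝ) (k : ℕ) (ω : Ω) : ℝ :=
  ⨆ j : Fin k, if (j : ℕ) = 0 then 0 else e (((j : ℕ) : ℝ) / k) ω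

end Pool.Agent.BPT
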