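import Pool.Agent.MP_99a865_pr.ST.QD

/-!
# [STB-QE0] Existence of the limit process: definitions
-/

open MeasureTheory ProbabilityTheory Filter Topology
open scoped ENNReal NNReal

namespace Pool.Agent.BPT

/-- the path `y` has `m` disjoint oscillations of size more than `c` between the times `s` and `T` -/
def CH (c : ℝ) : ℕ → ℕ → ℕ → (ℕ → ℝ) → Prop
  | 0, _, _, _ => True
  | m + 1, s, T, y => ∃ i j : ℕ, s ≤ i ∧ i < j ∧ j ≤ T ∧ c < |y j - y i| ∧ CH c m j T y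

/-- the same for a function on the rationals -/
def CHQ (c : ℝ) : ℕ → ℝ → ℝ → (ℚ → ℝ) → Prop
  | 0, _, _, _ => True
  | m + 1, s, T, x => ∃ i j : ℚ, s ≤ i ∧ i < j ∧ (j : ℝ) ≤ T ∧ c < |x j - x i| ∧ CHQ c m j T x

/-- dyadic rationals strictly above `t`, converging to `t` -/
noncomputable def dyq (m : ℕ) (t : ℝ) : ℚ := ((⌊t * 2 ^ m⌋ : ℤ) + 1) / 2 ^ m

/-- right limit along the rationals -/
noncomputable def eR (t : ℝ) (x : ℚ → ℝ) : ℝ := limsup (fun m : ℕ => x (dyq m t)) atTop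

/-- the rescaled path at the rational times -/
noncomputable def XQ (a : ℕ → ℝ) (n : ℕ) (ω : ℕ → ℝ × ℝ) : ℚ → ℝ := fun q =>
  if 0 < q ∧ q < 1 then Zw ⌊(q : ℝ) * n⌋₊ ω / a n else 0

/-- finitely many oscillations of every size in compact subintervals of `(0,1)`, bounded away from `0` there -/
def GoodQ (x : ℚ → ℝ) : Prop := ∀ k : ℕ,
  (∃ m : ℕ, ¬ CHQ (1 / ((k : ℝ) + 1)) m (1 / ((k : ℝ) + 2)) (1 - 1 / ((k : ℝ) + 2)) x) ∧
  ∃ η > (0 : ℝ), ∀ q : ℚ, 1 / ((k : ℝ) + 2) ≤ q → (q : ℝ) ≤ 1 - 1 / ((k : ℝ) + 2) → η ≤ x q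

/-- `P` is a limit point, along `lQ`, of the laws of `XQ a n` given `N = n` -/
structure LP (D : Set ℝ) (μ ν : Measure ℝ) (a : ℕ → ℝ) (P : Measure (ℚ → ℝ)) : Prop where
  prob : IsProbabilityMeasure P
  opn : ∀ G : Set (ℚ → ℝ), IsOpen G → ∀ c : ℝ, 0 ≤ c →
    (∀ᶠ n in lQ D μ ν, (cond (PQ μ ν) (EvN D n)).real {ω | XQ a n ω ∈ G} ≤ c) → P.real G ≤ c
  int : ∀ (F : (ℚ → ℝ) → ℝ) (M v : ℝ), Continuous F → (∀ x, |F x| ≤ M) →
    Tendsto (fun n => EN D μ ν n fun ω => F (XQ a n ω)) (lQ D μ ν) (𝓝 v) → ∫ x, F x ∂P = v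

end Pool.Agent.BPT
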