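import Pool.Agent.MP_99a865_pr.ST.QD

/-! **[STB-QW19]** The free walk in a band: Markov property. -/

open MeasureTheory ProbabilityTheory Filter Topology
open scoped ENNReal NNReal

namespace Pool.Agent.BPT

variable {μ ν : Measure ℝ}

/-- probability that the walk started at `z` stays in `[lo, hi]` up to time `T` and is then in `[l, u]` -/
noncomputable def BN (μ ν : Measure ℝ) (lo hi : ℝ) (T : ℕ) (z l u : ℝ) : ℝ≥0∞ :=
  PQ μ ν {ω | (∀ j ≤ T, lo ≤ z + Zw j ω ∧ z + Zw j ω ≤ hi) ∧ l ≤ z + Zw T ω ∧ z + Zw T ω ≤ u}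

theorem BN_mono {lo lo' hi hi' l l' u u' : ℝ} (T : ℕ) (z : ℝ) (h1 : lo' ≤ lo) (h2 : hi ≤ hi')
    (h3 : l' ≤ l) (h4 : u ≤ u') : BN μ ν lo hi T z l u ≤ BN μ ν lo' hi' T z l' u' := by
  refine measure_mono ?_
  rintro ω ⟨h5, h6, h7⟩
  exact ⟨fun j hj => ⟨h1.trans (h5 j hj).1, (h5 j hj).2.trans h2⟩, h3.trans h6, h7.trans h4⟩

theorem QW19_Zw0 (ω : ℕ → ℝ × ℝ) : Zw 0 ω = 0 := by
  simp [Zw, Dp, Ar]

/-- PROOF. `T = 0`: `Zw 0 = 0`. -/
theorem BN_zero [IsProbabilityMeasure μ] [IsProbabilityMeasure ν] {lo hi l u z : ℝ} (h1 : lo ≤ z)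
    (h2 : z ≤ hi) (h3 : l ≤ z) (h4 : z ≤ u) : BN μ ν lo hi 0 z l u = 1 := by
  have h : {ω : ℕ → ℝ × ℝ | (∀ j ≤ 0, lo ≤ z + Zw j ω ∧ z + Zw j ω ≤ hi) ∧ l ≤ z + Zw 0 ω ∧ z + Zw 0 ω ≤ u} =
      Set.univ := by
    refine Set.eq_univ_of_forall fun ω => ⟨fun j hj => ?_, ?_, ?_⟩
    · have hj0 : j = 0 := by omega
      rw [hj0, QW19_Zw0, add_zero]
      exact ⟨h1, h2⟩
    · rw [QW19_Zw0, add_zero]
      exact h3
    · rw [QW19_Zw0, add_zero]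
      exact h4
  unfold BN
  rw [h]
  exact measure_univ

theorem QW19_meas (k : ℕ) : Measurable (Zw k) := (measurable_Dp k).sub (measurable_Ar k)

theorem QW19_add (k l : ℕ) (ω : ℕ → ℝ × ℝ) : Zw (k + l) ω = Zw k ω + Zw l (shift k ω) := by
  unfold Zw
  rw [Dp_add, Ar_add]
  ring

theorem QW19_dep {i j : ℕ} (hj : j ≤ i) {ω ω' : ℕ → ℝ × ℝ} (h : ∀ k < i, ω k = ω' k) : Zw j ω = Zw j ω' := by
  unfold Zw Dp Ar
  congr 1
  · refine Finset.sum_congr rfl fun k hk => ?_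
    rw [h k ((Finset.mem_range.1 hk).trans_le hj)]
  · refine Finset.sum_congr rfl fun k hk => ?_
    rw [h k ((Finset.mem_range.1 hk).trans_le hj)]

/-- the band event for the walk started at `x` -/
def QW19_B (lo hi : ℝ) (T : ℕ) (l u x : ℝ) : Set (ℕ → ℝ × ℝ) :=
  {η | (∀ j ≤ T, lo ≤ x + Zw j η ∧ x + Zw j η ≤ hi) ∧ l ≤ x + Zw T η ∧ x + Zw T η ≤ u}

theorem QW19_measB (lo hi : ℝ) (T i : ℕ) (l u z : ℝ) :
    MeasurableSet {p : (ℕ → ℝ × ℝ) × (ℕ → ℝ × ℝ) | p.2 ∈ QW19_B lo hi T l u (z + Zw i p.1)} := by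
  have hm : ∀ j : ℕ, Measurable fun p : (ℕ → ℝ × ℝ) × (ℕ → ℝ × ℝ) => z + Zw i p.1 + Zw j p.2 := fun j =>
    (measurable_const.add ((QW19_meas i).comp measurable_fst)).add ((QW19_meas j).comp measurable_snd)
  have h : {p : (ℕ → ℝ × ℝ) × (ℕ → ℝ × ℝ) | p.2 ∈ QW19_B lo hi T l u (z + Zw i p.1)} =
      (⋂ j : ℕ, ⋂ (_ : j ≤ T), ({p | lo ≤ z + Zw i p.1 + Zw j p.2} ∩ {p | z + Zw i p.1 + Zw j p.2 ≤ hi})) ∩
        ({p | l ≤ z + Zw i p.1 + Zw T p.2} ∩ {p | z + Zw i p.1 + Zw T p.2 ≤ u}) := by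
    ext p
    simp only [QW19_B, Set.mem_ofPred_eq, Set.mem_inter_iff, Set.mem_iInter]
  rw [h]
  exact (MeasurableSet.iInter fun j => MeasurableSet.iInter fun _ =>
    (measurableSet_le measurable_const (hm j)).inter (measurableSet_le (hm j) measurable_const)).inter
    ((measurableSet_le measurable_const (hm T)).inter (measurableSet_le (hm T) measurable_const))

/-- Markov property at time `i` -/
theorem QW19_split [IsProbabilityMeasure μ] [IsProbabilityMeasure ν] (i : ℕ) (A : Set (ℕ → ℝ × ℝ)) (hA : MeasurableSet A)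
    (hAd : ∀ ω ω', (∀ j < i, ω j = ω' j) → (ω ∈ A ↔ ω' ∈ A)) (B : ℝ → Set (ℕ → ℝ × ℝ))
    (hB : MeasurableSet {p : (ℕ → ℝ × ℝ) × (ℕ → ℝ × ℝ) | p.2 ∈ B (Zw i p.1)}) (c' : ℝ≥0∞)
    (h2 : ∀ ω ∈ A, c' ≤ PQ μ ν (B (Zw i ω))) :
    PQ μ ν A * c' ≤ PQ μ ν {ω | ω ∈ A ∧ shift i ω ∈ B (Zw i ω)} := by
  set E : Set ((ℕ → ℝ × ℝ) × (ℕ → ℝ × ℝ)) := {p | p.1 ∈ A} ∩ {p | p.2 ∈ B (Zw i p.1)} with hE
  have hEm : MeasurableSet E := (measurable_fst hA).inter hB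
  have hs := lintegral_split (μ.prod ν) i (fun ω η => E.indicator (fun _ => (1 : ℝ≥0∞)) (ω, η))
    (by
      have h : Function.uncurry (fun ω η => E.indicator (fun _ => (1 : ℝ≥0∞)) (ω, η)) =
          E.indicator (fun _ => (1 : ℝ≥0∞)) := by
        funext p
        rfl
      rw [h]
      exact measurable_const.indicator hEm)
    (by
      intro ω ω' η h
      have h3 : (ω, η) ∈ E ↔ (ω', η) ∈ E := by
        show (ω ∈ A ∧ η ∈ B (Zw i ω)) ↔ (ω' ∈ A ∧ η ∈ B (Zw i ω'))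
        rw [hAd ω ω' h, QW19_dep le_rfl h]
      by_cases h4 : (ω, η) ∈ E
      · rw [Set.indicator_of_mem h4, Set.indicator_of_mem (h3.1 h4)]
      · rw [Set.indicator_of_notMem h4, Set.indicator_of_notMem fun h5 => h4 (h3.2 h5)])
  have hset : MeasurableSet {ω : ℕ → ℝ × ℝ | ω ∈ A ∧ shift i ω ∈ B (Zw i ω)} :=
    (measurable_id.prodMk (measurable_shift i)) hEm
  have hL : ∫⁻ ω, E.indicator (fun _ => (1 : ℝ≥0∞)) (ω, shift i ω) ∂(seqLaw (μ.prod ν)) =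
      PQ μ ν {ω | ω ∈ A ∧ shift i ω ∈ B (Zw i ω)} := by
    rw [← lintegral_indicator_one hset]
    rfl
  rw [← hL, hs]
  calc PQ μ ν A * c' = ∫⁻ ω, A.indicator (fun _ => c') ω ∂(seqLaw (μ.prod ν)) := by
        rw [lintegral_indicator_const hA, mul_comm]
        rfl
    _ ≤ _ := by
        refine lintegral_mono fun ω => ?_
        by_cases hω : ω ∈ A
        · rw [Set.indicator_of_mem hω]
          refine (h2 ω hω).trans (le_of_eq ?_)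
          have hBm : MeasurableSet (B (Zw i ω)) := measurable_prodMk_left hB
          rw [← lintegral_indicator_one hBm]
          refine lintegral_congr fun η => ?_
          by_cases hη : η ∈ B (Zw i ω)
          · rw [Set.indicator_of_mem hη, Set.indicator_of_mem (show (ω, η) ∈ E from ⟨hω, hη⟩)]
            rfl
          · rw [Set.indicator_of_notMem hη, Set.indicator_of_notMem (show (ω, η) ∉ E from fun h => hη h.2)]
        · rw [Set.indicator_of_notMem hω]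
          exact zero_le

/-- PROOF. `lintegral_split` (FV/A0, `π = μ.prod ν`, `k = T`) with
`H ω η = 1{∀ j ≤ T, lo ≤ z + Zw j ω ≤ hi} 1{l' ≤ z + Zw T ω ≤ u'} 1{(∀ j ≤ T', lo ≤ z + Zw T ω + Zw j η ≤ hi) ∧ l ≤ z + Zw T ω + Zw T' η ≤ u}` and
`Zw (T + j) ω = Zw T ω + Zw j (shift T ω)`. The inner integral is `≥ c'` where the first two indicators do not vanish. -/
theorem BN_chain [IsProbabilityMeasure μ] [IsProbabilityMeasure ν] (T T' : ℕ)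
    (lo hi z l' u' l u : ℝ) (c c' : ℝ≥0∞) (h1 : c ≤ BN μ ν lo hi T z l' u')
    (h2 : ∀ z', l' ≤ z' → z' ≤ u' → c' ≤ BN μ ν lo hi T' z' l u) :
    c * c' ≤ BN μ ν lo hi (T + T') z l u := by
  have hA : MeasurableSet (QW19_B lo hi T l' u' z) := by
    have h3 := QW19_measB lo hi T 0 l' u' z
    have h4 : QW19_B lo hi T l' u' z = (fun ω : ℕ → ℝ × ℝ => (ω, ω)) ⁻¹'
        {p : (ℕ → ℝ × ℝ) × (ℕ → ℝ × ℝ) | p.2 ∈ QW19_B lo hi T l' u' (z + Zw 0 p.1)} := by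
      ext ω
      simp only [Set.mem_preimage, Set.mem_ofPred_eq, QW19_Zw0, add_zero]
    rw [h4]
    exact (measurable_id.prodMk measurable_id) h3
  have h3 := QW19_split (μ := μ) (ν := ν) T (QW19_B lo hi T l' u' z) hA (fun ω ω' h => by
      show ((∀ j ≤ T, lo ≤ z + Zw j ω ∧ z + Zw j ω ≤ hi) ∧ l' ≤ z + Zw T ω ∧ z + Zw T ω ≤ u') ↔
        ((∀ j ≤ T, lo ≤ z + Zw j ω' ∧ z + Zw j ω' ≤ hi) ∧ l' ≤ z + Zw T ω' ∧ z + Zw T ω' ≤ u')
      rw [QW19_dep le_rfl h]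
      refine and_congr (forall_congr' fun j => ?_) Iff.rfl
      refine imp_congr_right fun hj => ?_
      rw [QW19_dep hj h])
    (fun x => QW19_B lo hi T' l u (z + x)) (QW19_measB lo hi T' T l u z) c' (fun ω hω => h2 _ hω.2.1 hω.2.2)
  refine (mul_le_mul_left h1 c').trans (h3.trans (measure_mono ?_))
  rintro ω ⟨⟨h4, h5, h6⟩, h7, h8, h9⟩
  refine ⟨fun j hj => ?_, ?_, ?_⟩
  · by_cases hjT : j ≤ T
    · exact h4 j hjT
    · obtain ⟨i, rfl⟩ : ∃ i, j = T + i := ⟨j - T, by omega⟩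
      rw [QW19_add, ← add_assoc]
      exact h7 i (by omega)
  · rw [QW19_add, ← add_assoc]
    exact h8
  · rw [QW19_add, ← add_assoc]
    exact h9

/-- the same after an event `A` of the first `i` pairs. PROOF. `lintegral_split` with `k = i`. -/
theorem BN_after [IsProbabilityMeasure μ] [IsProbabilityMeasure ν] (i T : ℕ) (A : Set (ℕ → ℝ × ℝ))
    (hA : MeasurableSet A) (hAd : ∀ ω ω', (∀ j < i, ω j = ω' j) → (ω ∈ A ↔ ω' ∈ A))
    (lo hi l' u' l u : ℝ) (c' : ℝ≥0∞)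
    (h2 : ∀ z', l' ≤ z' → z' ≤ u' → c' ≤ BN μ ν lo hi T z' l u) :
    PQ μ ν (A ∩ {ω | l' ≤ Zw i ω ∧ Zw i ω ≤ u'}) * c' ≤
      PQ μ ν (A ∩ {ω | (∀ j, i ≤ j → j ≤ i + T → lo ≤ Zw j ω ∧ Zw j ω ≤ hi) ∧
        l ≤ Zw (i + T) ω ∧ Zw (i + T) ω ≤ u}) := by
  have hm : MeasurableSet {ω : ℕ → ℝ × ℝ | l' ≤ Zw i ω ∧ Zw i ω ≤ u'} :=
    (measurableSet_le measurable_const (QW19_meas i)).inter (measurableSet_le (QW19_meas i) measurable_const)
  have hB : MeasurableSet {p : (ℕ → ℝ × ℝ) × (ℕ → ℝ × ℝ) | p.2 ∈ QW19_B lo hi T l u (Zw i p.1)} := by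
    have h3 := QW19_measB lo hi T i l u 0
    simp only [zero_add] at h3
    exact h3
  have h3 := QW19_split (μ := μ) (ν := ν) i (A ∩ {ω | l' ≤ Zw i ω ∧ Zw i ω ≤ u'}) (hA.inter hm) (fun ω ω' h => by
      show (ω ∈ A ∧ l' ≤ Zw i ω ∧ Zw i ω ≤ u') ↔ (ω' ∈ A ∧ l' ≤ Zw i ω' ∧ Zw i ω' ≤ u')
      rw [hAd ω ω' h, QW19_dep le_rfl h])
    (fun x => QW19_B lo hi T l u x) hB c' (fun ω hω => h2 _ hω.2.1 hω.2.2)
  refine h3.trans (measure_mono ?_)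
  rintro ω ⟨⟨h4, h5, h6⟩, h7, h8, h9⟩
  refine ⟨h4, fun j hj1 hj2 => ?_, ?_, ?_⟩
  · obtain ⟨k, rfl⟩ : ∃ k, j = i + k := ⟨j - i, by omega⟩
    rw [QW19_add]
    exact h7 k (by omega)
  · rw [QW19_add]
    exact h8
  · rw [QW19_add]
    exact h9

end Pool.Agent.BPT
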