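import Pool.Agent.MP_99a865_pr.ST.QE0
import Pool.Agent.MP_99a865_pr.ST.QW19

/-! **[STB-QE1]** Oscillations of a path: deterministic lemmas, measurability. -/

open MeasureTheory ProbabilityTheory Filter Topology
open scoped ENNReal NNReal

namespace Pool.Agent.BPT

/-- PROOF. Induction on `m`. -/
theorem CH_mono {c : ℝ} {m m' s s' T T' : ℕ} {y : ℕ → ℝ} (h : CH c m s T y) (hm : m' ≤ m) (hs : s' ≤ s)
    (hT : T ≤ T') : CH c m' s' T' y := by
  induction m' generalizing m s s' with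
  | zero => trivial
  | succ m' ih =>
    obtain ⟨k, rfl⟩ : ∃ k, m = k + 1 := ⟨m - 1, by omega⟩
    obtain ⟨i, j, h1, h2, h3, h4, h5⟩ := h
    exact ⟨i, j, hs.trans h1, h2, h3.trans hT, h4, ih h5 (by omega) le_rfl⟩

/-- PROOF. Induction on `a` (for all `s`). `a = 0`: the left side is `True`. `a + 1`: let `i < j` be the first oscillation, `CH c (a + b + 1) j T y`. If `j ≤ r`: induction hypothesis
with start `j`. If `r < j`: `CH_mono` gives `CH c b r T y`. -/
theorem CH_split {c : ℝ} {a b s r T : ℕ} {y : ℕ → ℝ} (h : CH c (a + b + 1) s T y) :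
    CH c a s r y ∨ CH c b r T y := by
  induction a generalizing s with
  | zero => exact Or.inl trivial
  | succ a ih =>
    rw [show a + 1 + b + 1 = (a + b + 1) + 1 by omega] at h
    obtain ⟨i, j, h1, h2, h3, h4, h5⟩ := h
    rcases le_or_gt j r with hj | hj
    · rcases ih h5 with h6 | h6
      · exact Or.inl ⟨i, j, h1, h2, hj, h4, h6⟩
      · exact Or.inr h6
    · exact Or.inr (CH_mono h5 (by omega) hj.le le_rfl)

/-- PROOF. Induction on `k ≥ 1` (for all `s`): `k = 1`: `CH_mono`. `k + 1`: `CH_split` with `a = m`, `b = k * (m + 1)`, `r = s + T`. -/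
theorem CH_windows {c : ℝ} {m k s T : ℕ} {y : ℕ → ℝ} (hk : 1 ≤ k) (h : CH c (k * (m + 1)) s (s + k * T) y) :
    ∃ l < k, CH c m (s + l * T) (s + (l + 1) * T) y := by
  induction k, hk using Nat.le_induction generalizing s with
  | base =>
    refine ⟨0, by omega, CH_mono h (by omega) (by omega) ?_⟩
    simp
  | succ k hk ih =>
    have h1 : CH c (m + k * (m + 1) + 1) s (s + (k + 1) * T) y := by
      have : m + k * (m + 1) + 1 = (k + 1) * (m + 1) := by ring
      rw [this]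
      exact h
    rcases CH_split (r := s + T) h1 with h2 | h2
    · refine ⟨0, by omega, ?_⟩
      simpa using h2
    · have h3 : s + (k + 1) * T = (s + T) + k * T := by ring
      rw [h3] at h2
      obtain ⟨l, hl, h4⟩ := ih h2
      refine ⟨l + 1, by omega, ?_⟩
      have h5 : s + (l + 1) * T = (s + T) + l * T := by ring
      have h6 : s + (l + 1 + 1) * T = (s + T) + (l + 1) * T := by ring
      rw [h5, h6]
      exact h4

/-- the first time `t` with an oscillation in `[s, t]`. PROOF. `Nat.find`; `t ≤ j` for the first pair `(i, j)` of the chain, and `CH c m j T y`. -/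
theorem CH_first {c : ℝ} {m s T : ℕ} {y : ℕ → ℝ} (h : CH c (m + 1) s T y) :
    ∃ t, s < t ∧ t ≤ T ∧ (∃ i, s ≤ i ∧ i < t ∧ c < |y t - y i|) ∧
      (∀ t' < t, ∀ i, s ≤ i → i < t' → |y t' - y i| ≤ c) ∧ CH c m t T y := by
  classical
  obtain ⟨i, j, h1, h2, h3, h4, h5⟩ := h
  have hex : ∃ t, ∃ i, s ≤ i ∧ i < t ∧ c < |y t - y i| := ⟨j, i, h1, h2, h4⟩
  have hle : Nat.find hex ≤ j := Nat.find_min' hex ⟨i, h1, h2, h4⟩
  obtain ⟨i', h6, h7, h8⟩ := Nat.find_spec hex
  refine ⟨Nat.find hex, by omega, by omega, ⟨i', h6, h7, h8⟩, ?_, CH_mono h5 le_rfl hle le_rfl⟩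
  intro t' ht' l hl hlt
  by_contra hc
  exact Nat.find_min hex ht' ⟨l, hl, hlt, lt_of_not_ge hc⟩

/-- PROOF. Induction on `m`, `Zw (b + j) ω - Zw (b + i) ω = Zw j (shift b ω) - Zw i (shift b ω)` (`QW19_add`). -/
theorem CH_shift {c : ℝ} {m b s T : ℕ} {ω : ℕ → ℝ × ℝ} :
    CH c m (b + s) (b + T) (fun i => Zw i ω) ↔ CH c m s T (fun i => Zw i (shift b ω)) := by
  have key : ∀ i j : ℕ, Zw (b + j) ω - Zw (b + i) ω = Zw j (shift b ω) - Zw i (shift b ω) := by
    intro i j
    rw [QW19_add, QW19_add]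
    ring
  induction m generalizing s with
  | zero => exact Iff.rfl
  | succ m ih =>
    constructor
    · rintro ⟨i, j, h1, h2, h3, h4, h5⟩
      obtain ⟨i, rfl⟩ : ∃ i', i = b + i' := ⟨i - b, by omega⟩
      obtain ⟨j, rfl⟩ : ∃ j', j = b + j' := ⟨j - b, by omega⟩
      refine ⟨i, j, by omega, by omega, by omega, ?_, ih.1 h5⟩
      have h6 : c < |Zw (b + j) ω - Zw (b + i) ω| := h4
      rw [key] at h6
      exact h6
    · rintro ⟨i, j, h1, h2, h3, h4, h5⟩
      refine ⟨b + i, b + j, by omega, by omega, by omega, ?_, ih.2 h5⟩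
      have h6 : c < |Zw j (shift b ω) - Zw i (shift b ω)| := h4
      rw [← key] at h6
      exact h6

theorem CH_dep {c : ℝ} {m s T : ℕ} {ω ω' : ℕ → ℝ × ℝ} (h : ∀ j < T, ω j = ω' j) :
    CH c m s T (fun i => Zw i ω) ↔ CH c m s T (fun i => Zw i ω') := by
  have key : ∀ i, i ≤ T → Zw i ω = Zw i ω' := fun i hi => QW19_dep hi h
  induction m generalizing s with
  | zero => exact Iff.rfl
  | succ m ih =>
    constructor
    · rintro ⟨i, j, h1, h2, h3, h4, h5⟩
      refine ⟨i, j, h1, h2, h3, ?_, ih.1 h5⟩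
      have h6 : c < |Zw j ω - Zw i ω| := h4
      rw [key j h3, key i (h2.le.trans h3)] at h6
      exact h6
    · rintro ⟨i, j, h1, h2, h3, h4, h5⟩
      refine ⟨i, j, h1, h2, h3, ?_, ih.2 h5⟩
      have h6 : c < |Zw j ω' - Zw i ω'| := h4
      rw [← key j h3, ← key i (h2.le.trans h3)] at h6
      exact h6

theorem CH_meas (c : ℝ) (m s T : ℕ) : MeasurableSet {ω : ℕ → ℝ × ℝ | CH c m s T (fun i => Zw i ω)} := by
  induction m generalizing s with
  | zero =>
    have : {ω : ℕ → ℝ × ℝ | CH c 0 s T (fun i => Zw i ω)} = Set.univ :=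
      Set.eq_univ_of_forall fun ω => trivial
    rw [this]
    exact MeasurableSet.univ
  | succ m ih =>
    have h : {ω : ℕ → ℝ × ℝ | CH c (m + 1) s T (fun i => Zw i ω)} =
        ⋃ i : ℕ, ⋃ j : ℕ, ⋃ (_ : s ≤ i ∧ i < j ∧ j ≤ T),
          ({ω | c < |Zw j ω - Zw i ω|} ∩ {ω | CH c m j T (fun i => Zw i ω)}) := by
      ext ω
      simp only [Set.mem_iUnion, Set.mem_inter_iff]
      constructor
      · rintro ⟨i, j, h1, h2, h3, h4, h5⟩
        exact ⟨i, j, ⟨h1, h2, h3⟩, h4, h5⟩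
      · rintro ⟨i, j, ⟨h1, h2, h3⟩, h4, h5⟩
        exact ⟨i, j, h1, h2, h3, h4, h5⟩
    rw [h]
    refine MeasurableSet.iUnion fun i => MeasurableSet.iUnion fun j => MeasurableSet.iUnion fun _ => ?_
    exact (measurableSet_lt measurable_const ((QW19_meas j).sub (QW19_meas i)).abs).inter (ih j)

end Pool.Agent.BPT
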