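import Pool.Agent.MP_99a865_pr.ST.QW1
import Pool.Agent.MP_99a865_pr.ST.QW19

/-! **[STB-QW20a]** Steering the free walk: from any macroscopic level to any other one with probability bounded below. -/

open MeasureTheory ProbabilityTheory Filter Topology
open scoped ENNReal NNReal

namespace Pool.Agent.BPT

variable {D : Set ℝ} {μ ν : Measure ℝ} {a : ℕ → ℝ} {L V V' : ℝ → ℝ} {p K x₀ : ℝ}

/-- PROOF. If `a n ≤ a i` clear. Otherwise `r = a n/a i ≥ 1`, `L_le`: `r^p L (a n) ≤ K L (a i) ≤ K²/i`, `L (a n) ≥ 1/(K n)`, so `r^p ≤ K³ n/i`,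
`r ≤ (K³)^{1/p} (n/i)^{1/p} ≤ K³ (n/i)^{1/p}`. -/
theorem QS.a_comp2 (h : QS D μ ν a L V V' p K x₀) : ∃ C ≥ (1 : ℝ), ∀ i n : ℕ, 1 ≤ i → i ≤ n →
    a n ≤ C * ((n : ℝ) / i) ^ (1 / p) * a i := by
  have hK := h.K_ge
  have hp := h.p_gt
  have hK3 : (1 : ℝ) ≤ K ^ 3 := one_le_pow₀ hK
  refine ⟨K ^ 3, hK3, fun i n hi hin => ?_⟩
  have hi0 : (0 : ℝ) < i := by exact_mod_cast hi
  have hn : 1 ≤ n := hi.trans hin
  have hn0 : (0 : ℝ) < n := by exact_mod_cast hn
  have hin' : (i : ℝ) ≤ n := by exact_mod_cast hin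
  have hq : (1 : ℝ) ≤ (n : ℝ) / i := by rw [le_div_iff₀ hi0]; linarith
  have hai : 0 < a i := by
    have := h.a_ge i hi
    have := h.x_ge
    linarith
  have hq1 : (1 : ℝ) ≤ ((n : ℝ) / i) ^ (1 / p) := Real.one_le_rpow hq (by positivity)
  by_cases hc : a n ≤ a i
  · have h1 : (1 : ℝ) ≤ K ^ 3 * ((n : ℝ) / i) ^ (1 / p) := by nlinarith
    nlinarith
  · push Not at hc
    set r := a n / a i with hr
    have hr1 : 1 ≤ r := by rw [hr, le_div_iff₀ hai]; linarith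
    have hr0 : 0 < r := by linarith
    have h1 : r ^ p * L (r * a i) ≤ K * L (a i) := h.L_le (a i) r (h.a_ge i hi) hr1
    have h2 : r * a i = a n := by rw [hr]; field_simp
    rw [h2] at h1
    have h3 := (h.L_a i hi).2
    have h4 := (h.L_a n hn).1
    have hrp : 0 < r ^ p := Real.rpow_pos_of_pos hr0 p
    have hLn : 0 < L (a n) := h.L_pos _ (h.a_ge n hn)
    have h5 : r ^ p ≤ K ^ 3 * ((n : ℝ) / i) := by
      have h6 : r ^ p * 1 ≤ r ^ p * (K * (n * L (a n))) := mul_le_mul_of_nonneg_left h4 hrp.le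
      have h7 : r ^ p * (K * (n * L (a n))) = K * n * (r ^ p * L (a n)) := by ring
      have h8 : K * n * (r ^ p * L (a n)) ≤ K * n * (K * L (a i)) :=
        mul_le_mul_of_nonneg_left h1 (by positivity)
      have h9 : L (a i) ≤ K / i := by
        rw [le_div_iff₀ hi0]; linarith
      have h10 : K * n * (K * L (a i)) ≤ K * n * (K * (K / i)) := by
        apply mul_le_mul_of_nonneg_left _ (by positivity)
        exact mul_le_mul_of_nonneg_left h9 (by positivity)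
      have h11 : K * n * (K * (K / i)) = K ^ 3 * ((n : ℝ) / i) := by
        field_simp
      linarith
    have h6 : r ≤ (K ^ 3 * ((n : ℝ) / i)) ^ (1 / p) := by
      have h7 : (r ^ p) ^ (1 / p) ≤ (K ^ 3 * ((n : ℝ) / i)) ^ (1 / p) :=
        Real.rpow_le_rpow hrp.le h5 (by positivity)
      rw [← Real.rpow_mul hr0.le, mul_one_div_cancel (by positivity), Real.rpow_one] at h7
      exact h7
    rw [Real.mul_rpow (by positivity) (by positivity)] at h6
    have h7 : (K ^ 3) ^ (1 / p) ≤ K ^ 3 := by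
      have h8 : (K ^ 3) ^ (1 / p) ≤ (K ^ 3) ^ (1 : ℝ) := by
        apply Real.rpow_le_rpow_of_exponent_le hK3
        rw [div_le_one (by positivity)]
        linarith
      rwa [Real.rpow_one] at h8
    have h8 : r ≤ K ^ 3 * ((n : ℝ) / i) ^ (1 / p) :=
      h6.trans (mul_le_mul_of_nonneg_right h7 (by positivity))
    rw [← h2]
    exact mul_le_mul_of_nonneg_right h8 hai.le

private theorem QW20a_box (hQ : QI μ ν) (B : Set (ℝ × ℝ)) (hB : MeasurableSet B) (w : ℕ) :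
    PQ μ ν {ω | ∀ i < w, ω i ∈ B} = (μ.prod ν) B ^ w := by
  have hprob := hQ.probμ
  have hprob' := hQ.probν
  have h1 : {ω : ℕ → ℝ × ℝ | ∀ i < w, ω i ∈ B} = Set.pi (Finset.range w : Set ℕ) (fun _ => B) := by
    ext ω
    simp [Set.mem_pi]
  rw [h1]
  unfold PQ seqLaw
  rw [Measure.infinitePi_pi _ (fun i _ => hB)]
  simp

private theorem QW20a_pos1 (hQ : QI μ ν) : (μ.prod ν) {p : ℝ × ℝ | p.1 ≤ p.2} ≠ 0 ∧
    (μ.prod ν) {p : ℝ × ℝ | p.2 ≤ p.1} ≠ 0 := by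
  have hprob := hQ.probμ
  have hprob' := hQ.probν
  obtain ⟨hi1, hi2⟩ := Q1_int hQ
  have hμ : ∫ p : ℝ × ℝ, p.1 ∂(μ.prod ν) = 1 := by
    rw [integral_fun_fst (fun x : ℝ => x)]; simp [hQ.meanμ]
  have hν : ∫ p : ℝ × ℝ, p.2 ∂(μ.prod ν) = 1 := by
    rw [integral_fun_snd (fun x : ℝ => x)]; simp [hQ.meanν]
  constructor
  · intro h0
    have h1 : ∀ᵐ p ∂(μ.prod ν), ¬ p.1 ≤ p.2 := by
      rw [ae_iff]; simpa using h0
    have h2 : ∀ᵐ p ∂(μ.prod ν), 0 ≤ p.1 - p.2 := by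
      filter_upwards [h1] with p hp
      push Not at hp
      linarith
    have hzero : ∫ p : ℝ × ℝ, (p.1 - p.2) ∂(μ.prod ν) = 0 := by
      rw [integral_sub hi1 hi2, hμ, hν, sub_self]
    have h3 := (integral_eq_zero_iff_of_nonneg_ae h2 (hi1.sub hi2)).1 hzero
    obtain ⟨p, hp1, hp2⟩ := (h1.and h3).exists
    push Not at hp1
    have hp3 : p.1 - p.2 = 0 := hp2
    linarith
  · intro h0
    have h1 : ∀ᵐ p ∂(μ.prod ν), ¬ p.2 ≤ p.1 := by
      rw [ae_iff]; simpa using h0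
    have h2 : ∀ᵐ p ∂(μ.prod ν), 0 ≤ p.2 - p.1 := by
      filter_upwards [h1] with p hp
      push Not at hp
      linarith
    have hzero : ∫ p : ℝ × ℝ, (p.2 - p.1) ∂(μ.prod ν) = 0 := by
      rw [integral_sub hi2 hi1, hμ, hν, sub_self]
    have h3 := (integral_eq_zero_iff_of_nonneg_ae h2 (hi2.sub hi1)).1 hzero
    obtain ⟨p, hp1, hp2⟩ := (h1.and h3).exists
    push Not at hp1
    have hp3 : p.2 - p.1 = 0 := hp2
    linarith

/-- PROOF. Large `w`: `mov` (`e * a w ≥ 0`). Small `w`: `P(0 ≤ Zw w) ≥ P(every step ≥ 0) = P(X ≥ 0)^w` (independence), and `P(X ≥ 0) > 0`: otherwise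
`X < 0` a.s. and `E X < 0`, but `E X = 0` (`X = v - u`, `QI`, `QI.int`). The same for `≤ 0`. -/
theorem QP.pos (hQ : QI μ ν) (ha : ∀ n : ℕ, 1 ≤ n → 0 ≤ a n) (hp : QP D μ ν a) : ∃ c > (0 : ℝ), ∀ w : ℕ,
    ENNReal.ofReal c ≤ PQ μ ν {ω | 0 ≤ Zw w ω} ∧ ENNReal.ofReal c ≤ PQ μ ν {ω | Zw w ω ≤ 0} := by
  have hprob := hQ.probμ
  have hprob' := hQ.probν
  obtain ⟨c, hc, e, he, hev⟩ := hp.mov
  obtain ⟨w₀, hw₀⟩ := eventually_atTop.1 hev
  obtain ⟨hp1, hp2⟩ := QW20a_pos1 hQ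
  set B1 : Set (ℝ × ℝ) := {p | p.1 ≤ p.2} with hB1
  set B2 : Set (ℝ × ℝ) := {p | p.2 ≤ p.1} with hB2
  have hB1m : MeasurableSet B1 := measurableSet_le measurable_fst measurable_snd
  have hB2m : MeasurableSet B2 := measurableSet_le measurable_snd measurable_fst
  set q1 := ((μ.prod ν) B1).toReal with hq1
  set q2 := ((μ.prod ν) B2).toReal with hq2
  have hq1p : 0 < q1 := ENNReal.toReal_pos hp1 (measure_ne_top _ _)
  have hq2p : 0 < q2 := ENNReal.toReal_pos hp2 (measure_ne_top _ _)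
  have hq1l : q1 ≤ 1 := by
    rw [hq1]
    exact ENNReal.toReal_le_of_le_ofReal zero_le_one (by simpa using prob_le_one)
  have hq2l : q2 ≤ 1 := by
    rw [hq2]
    exact ENNReal.toReal_le_of_le_ofReal zero_le_one (by simpa using prob_le_one)
  have hZ : ∀ (w : ℕ) (ω : ℕ → ℝ × ℝ), Zw w ω = ∑ i ∈ Finset.range w, ((ω i).2 - (ω i).1) := by
    intro w ω
    unfold Zw Dp Ar
    rw [Finset.sum_sub_distrib]
  have hs1 : ∀ w : ℕ, ENNReal.ofReal (q1 ^ w) ≤ PQ μ ν {ω | 0 ≤ Zw w ω} := by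
    intro w
    have h1 : {ω : ℕ → ℝ × ℝ | ∀ i < w, ω i ∈ B1} ⊆ {ω | 0 ≤ Zw w ω} := by
      intro ω hω
      simp only [Set.mem_ofPred_eq]
      rw [hZ]
      refine Finset.sum_nonneg fun i hi => ?_
      have := hω i (Finset.mem_range.1 hi)
      have h2 : (ω i).1 ≤ (ω i).2 := this
      linarith
    refine le_trans (le_of_eq ?_) (measure_mono h1)
    rw [QW20a_box hQ B1 hB1m w, ENNReal.ofReal_pow hq1p.le, hq1,
      ENNReal.ofReal_toReal (measure_ne_top _ _)]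
  have hs2 : ∀ w : ℕ, ENNReal.ofReal (q2 ^ w) ≤ PQ μ ν {ω | Zw w ω ≤ 0} := by
    intro w
    have h1 : {ω : ℕ → ℝ × ℝ | ∀ i < w, ω i ∈ B2} ⊆ {ω | Zw w ω ≤ 0} := by
      intro ω hω
      simp only [Set.mem_ofPred_eq]
      rw [hZ]
      refine Finset.sum_nonpos fun i hi => ?_
      have := hω i (Finset.mem_range.1 hi)
      have h2 : (ω i).2 ≤ (ω i).1 := this
      linarith
    refine le_trans (le_of_eq ?_) (measure_mono h1)
    rw [QW20a_box hQ B2 hB2m w, ENNReal.ofReal_pow hq2p.le, hq2,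
      ENNReal.ofReal_toReal (measure_ne_top _ _)]
  set N := w₀ + 1 with hN
  refine ⟨min c (min (q1 ^ N) (q2 ^ N)), lt_min hc (lt_min (pow_pos hq1p _) (pow_pos hq2p _)),
    fun w => ?_⟩
  by_cases hw : w < N
  · constructor
    · refine le_trans (ENNReal.ofReal_le_ofReal ?_) (hs1 w)
      refine ((min_le_right _ _).trans (min_le_left _ _)).trans ?_
      exact pow_le_pow_of_le_one hq1p.le hq1l hw.le
    · refine le_trans (ENNReal.ofReal_le_ofReal ?_) (hs2 w)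
      refine ((min_le_right _ _).trans (min_le_right _ _)).trans ?_
      exact pow_le_pow_of_le_one hq2p.le hq2l hw.le
  · push Not at hw
    obtain ⟨h1, h2⟩ := hw₀ w (by omega)
    have haw : 0 ≤ e * a w := mul_nonneg he.le (ha w (by omega))
    constructor
    · have h3 : ENNReal.ofReal c ≤ PQ μ ν {ω | e * a w ≤ Zw w ω} := by
        rw [← ofReal_measureReal (measure_ne_top _ _)]
        exact ENNReal.ofReal_le_ofReal h1
      refine (ENNReal.ofReal_le_ofReal (min_le_left _ _)).trans (h3.trans (measure_mono ?_))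
      intro ω hω
      exact haw.trans hω
    · have h3 : ENNReal.ofReal c ≤ PQ μ ν {ω | Zw w ω ≤ -(e * a w)} := by
        rw [← ofReal_measureReal (measure_ne_top _ _)]
        exact ENNReal.ofReal_le_ofReal h2
      refine (ENNReal.ofReal_le_ofReal (min_le_left _ _)).trans (h3.trans (measure_mono ?_))
      intro ω hω
      have h4 : Zw w ω ≤ -(e * a w) := hω
      show Zw w ω ≤ 0
      linarith

/-- PROOF. `maxZ` with `w = T`, `y = ε a n ≥ x₀`, and `scale`: `K T L (ε a n) ≤ K κ n · C/n`. -/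
theorem QS.dev (h : QS D μ ν a L V V' p K x₀) {ε : ℝ} (hε : 0 < ε) : ∀ θ > (0 : ℝ), ∃ κ > (0 : ℝ),
    ∃ n₀ : ℕ, ∀ n ≥ n₀, ∀ T : ℕ, (T : ℝ) ≤ κ * n →
      PQ μ ν {ω | ∃ j ≤ T, ε * a n < |Zw j ω|} ≤ ENNReal.ofReal θ := by
  intro θ hθ
  have hprob := h.qi.probμ
  have hprob' := h.qi.probν
  have hK := h.K_ge
  obtain ⟨C, hC, n₀, hn₀, hsc⟩ := h.scale hε
  refine ⟨θ / (K * C), by positivity, n₀, fun n hn T hT => ?_⟩
  obtain ⟨h1, h2, -⟩ := hsc n hn
  have hn1 : (0 : ℝ) < n := by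
    have : 1 ≤ n := hn₀.trans hn
    exact_mod_cast this
  have h3 := h.maxZ T (ε * a n) h1
  have h4 : K * (T * L (ε * a n)) ≤ θ := by
    have h5 : (T : ℝ) * L (ε * a n) ≤ (θ / (K * C) * n) * (C / n) :=
      mul_le_mul hT h2 (h.L_pos _ h1).le (by positivity)
    have h6 : (θ / (K * C) * n) * (C / n) = θ / K := by
      field_simp
    rw [h6] at h5
    calc K * (T * L (ε * a n)) ≤ K * (θ / K) := mul_le_mul_of_nonneg_left h5 (by positivity)
      _ = θ := by field_simp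
  have h5 : PQ μ ν {ω | ∃ j ≤ T, ε * a n ≤ |Zw j ω|} ≤ ENNReal.ofReal θ := by
    rw [← ofReal_measureReal (measure_ne_top _ _)]
    exact ENNReal.ofReal_le_ofReal (h3.trans h4)
  refine (measure_mono ?_).trans h5
  rintro ω ⟨j, hj, hj'⟩
  exact ⟨j, hj, hj'.le⟩

end Pool.Agent.BPT
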