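import Pool.Agent.MP_99a865_pr.ST.QE1
import Pool.Agent.MP_99a865_pr.ST.QW20a

/-! **[STB-QE2]** The free walk has few oscillations of the order of the scale. -/

open MeasureTheory ProbabilityTheory Filter Topology
open scoped ENNReal NNReal

namespace Pool.Agent.BPT

variable {D : Set ℝ} {μ ν : Measure ℝ} {a : ℕ → ℝ} {L V V' : ℝ → ℝ} {p K x₀ : ℝ}

private theorem QE2_ind {E : Type} {A : Set E} {x x' : E} (h : x ∈ A ↔ x' ∈ A) :
    A.indicator (1 : E → ℝ≥0∞) x = A.indicator 1 x' := by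
  classical
  by_cases hx : x ∈ A
  · rw [Set.indicator_of_mem hx, Set.indicator_of_mem (h.1 hx)]
    rfl
  · rw [Set.indicator_of_notMem hx, Set.indicator_of_notMem fun hx' => hx (h.2 hx')]

/-- independence -/
private theorem QE2_indep [IsProbabilityMeasure μ] [IsProbabilityMeasure ν] (b : ℕ)
    (A B : Set (ℕ → ℝ × ℝ)) (hA : MeasurableSet A) (hB : MeasurableSet B)
    (hAd : ∀ ω ω', (∀ j < b, ω j = ω' j) → (ω ∈ A ↔ ω' ∈ A)) :
    PQ μ ν (A ∩ {ω | shift b ω ∈ B}) = PQ μ ν A * PQ μ ν B := by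
  have hS : MeasurableSet {ω : ℕ → ℝ × ℝ | shift b ω ∈ B} := (measurable_shift b) hB
  have h1 := lintegral_split (μ.prod ν) b
    (fun ω η => A.indicator (1 : (ℕ → ℝ × ℝ) → ℝ≥0∞) ω * B.indicator (1 : (ℕ → ℝ × ℝ) → ℝ≥0∞) η)
    (((measurable_one.indicator hA).comp measurable_fst).mul
      ((measurable_one.indicator hB).comp measurable_snd))
    (fun ω ω' η hω => by rw [QE2_ind (hAd ω ω' hω)])
  have h2 : ∀ ω : ℕ → ℝ × ℝ, A.indicator (1 : (ℕ → ℝ × ℝ) → ℝ≥0∞) ω *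
      B.indicator (1 : (ℕ → ℝ × ℝ) → ℝ≥0∞) (shift b ω) =
      (A ∩ {ω | shift b ω ∈ B}).indicator (1 : (ℕ → ℝ × ℝ) → ℝ≥0∞) ω := by
    intro ω
    classical
    by_cases hx : ω ∈ A
    · by_cases hy : shift b ω ∈ B
      · rw [Set.indicator_of_mem hx, Set.indicator_of_mem hy,
          Set.indicator_of_mem (show ω ∈ A ∩ {ω | shift b ω ∈ B} from ⟨hx, hy⟩)]
        simp
      · rw [Set.indicator_of_notMem hy,
          Set.indicator_of_notMem (show ω ∉ A ∩ {ω | shift b ω ∈ B} from fun h => hy h.2)]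
        simp
    · rw [Set.indicator_of_notMem hx,
        Set.indicator_of_notMem (show ω ∉ A ∩ {ω | shift b ω ∈ B} from fun h => hx h.1)]
      simp
  rw [lintegral_congr h2, lintegral_indicator_one (hA.inter hS)] at h1
  have h3 : ∀ ω : ℕ → ℝ × ℝ, ∫⁻ η, A.indicator (1 : (ℕ → ℝ × ℝ) → ℝ≥0∞) ω *
      B.indicator (1 : (ℕ → ℝ × ℝ) → ℝ≥0∞) η ∂(seqLaw (μ.prod ν)) =
      A.indicator (1 : (ℕ → ℝ × ℝ) → ℝ≥0∞) ω * PQ μ ν B := by
    intro ω
    rw [lintegral_const_mul _ (measurable_one.indicator hB), lintegral_indicator_one hB]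
    rfl
  rw [lintegral_congr h3, lintegral_mul_const _ (measurable_one.indicator hA),
    lintegral_indicator_one hA] at h1
  exact h1

/-- the first oscillation is completed at time `t` -/
private def QE2_A (c : ℝ) (t : ℕ) : Set (ℕ → ℝ × ℝ) :=
  {ω | (∃ i < t, c < |Zw t ω - Zw i ω|) ∧ ∀ t' < t, ∀ i < t', |Zw t' ω - Zw i ω| ≤ c}

private theorem QE2_A_meas (c : ℝ) (t : ℕ) : MeasurableSet (QE2_A c t) := by
  have h : QE2_A c t = (⋃ i : ℕ, ⋃ (_ : i < t), {ω : ℕ → ℝ × ℝ | c < |Zw t ω - Zw i ω|}) ∩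
      (⋂ t' : ℕ, ⋂ (_ : t' < t), ⋂ i : ℕ, ⋂ (_ : i < t'), {ω : ℕ → ℝ × ℝ | |Zw t' ω - Zw i ω| ≤ c}) := by
    ext ω
    simp only [Set.mem_iUnion, Set.mem_inter_iff, Set.mem_iInter]
    constructor
    · rintro ⟨⟨i, hi, h1⟩, h2⟩
      exact ⟨⟨i, hi, h1⟩, h2⟩
    · rintro ⟨⟨i, hi, h1⟩, h2⟩
      exact ⟨⟨i, hi, h1⟩, h2⟩
  rw [h]
  refine MeasurableSet.inter (MeasurableSet.iUnion fun i => MeasurableSet.iUnion fun _ => ?_)
    (MeasurableSet.iInter fun t' => MeasurableSet.iInter fun _ => MeasurableSet.iInter fun i =>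
      MeasurableSet.iInter fun _ => ?_)
  · exact measurableSet_lt measurable_const ((QW19_meas t).sub (QW19_meas i)).abs
  · exact measurableSet_le ((QW19_meas t').sub (QW19_meas i)).abs measurable_const

private theorem QE2_A_dep (c : ℝ) (t : ℕ) (ω ω' : ℕ → ℝ × ℝ) (h : ∀ j < t, ω j = ω' j) :
    ω ∈ QE2_A c t ↔ ω' ∈ QE2_A c t := by
  have key : ∀ ω ω' : ℕ → ℝ × ℝ, (∀ j < t, ω j = ω' j) → ω ∈ QE2_A c t → ω' ∈ QE2_A c t := by
    rintro ω ω' h ⟨⟨i, hi, h1⟩, h2⟩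
    have hz : ∀ i ≤ t, Zw i ω' = Zw i ω := fun i hi => (QW19_dep hi h).symm
    refine ⟨⟨i, hi, ?_⟩, fun t' ht' l hl => ?_⟩
    · rw [hz t le_rfl, hz i hi.le]
      exact h1
    · rw [hz t' ht'.le, hz l (hl.le.trans ht'.le)]
      exact h2 t' ht' l hl
  exact ⟨key ω ω' h, key ω' ω fun j hj => (h j hj).symm⟩

/-- PROOF. Induction on `m`. By `CH_first` (`s = 0`) the event for `m + 1` is contained in the union over `t ≤ T'` of `A_t ∩ {CH c m t T' (Zw · ω)}`, where `A_t` = (the first oscillation is completed at time `t`):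
`∃ i < t, c < |Zw t ω - Zw i ω|` and `∀ t' < t, ∀ i < t', |Zw t' ω - Zw i ω| ≤ c`. The `A_t` are disjoint and measurable, depend on the first `t` coordinates (`QW19_dep`), their union over `t ≤ T'` is contained in
`{∃ j ≤ T, c/2 < |Zw j|}` (if `|Zw t - Zw i| > c` one of the two is `> c/2`). By `CH_shift` (`b = t`, `s = 0`) the second event is `{shift t ω ∈ B}`, `B = {CH c m 0 (T' - t) (Zw · η)}` and `PQ B ≤ ρ ^ m` (induction).
Independence: `PQ (A ∩ {shift t ω ∈ B}) = PQ A * PQ B` (private lemma `QW6b_indep` in ST/QW6b: copy it). Sum over `t`: `≤ ρ * ρ ^ m`. -/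
theorem CH_short [IsProbabilityMeasure μ] [IsProbabilityMeasure ν] {c : ℝ} {ρ : ℝ≥0∞} {T : ℕ}
    (hρ : PQ μ ν {ω | ∃ j ≤ T, c / 2 < |Zw j ω|} ≤ ρ) (m T' : ℕ) (hT : T' ≤ T) :
    PQ μ ν {ω | CH c m 0 T' (fun i => Zw i ω)} ≤ ρ ^ m := by
  induction m generalizing T' with
  | zero =>
    rw [pow_zero]
    exact prob_le_one
  | succ m ih =>
    have hsub : {ω : ℕ → ℝ × ℝ | CH c (m + 1) 0 T' (fun i => Zw i ω)} ⊆
        ⋃ t ∈ Finset.range (T' + 1), (QE2_A c t ∩ {ω | shift t ω ∈ {η : ℕ → ℝ × ℝ | CH c m 0 (T' - t) (fun i => Zw i η)}}) := by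
      intro ω hω
      obtain ⟨t, h1, h2, ⟨i, -, h3, h4⟩, h5, h6⟩ := CH_first hω
      refine Set.mem_biUnion (Finset.mem_coe.2 (Finset.mem_range.2 (by omega))) ⟨⟨⟨i, h3, h4⟩, ?_⟩, ?_⟩
      · exact fun t' ht' i hi => h5 t' ht' i (Nat.zero_le i) hi
      · have h7 : CH c m (t + 0) (t + (T' - t)) (fun i => Zw i ω) := by
          rw [Nat.add_zero, Nat.add_sub_cancel' h2]
          exact h6
        exact CH_shift.1 h7
    have hdisj : Set.PairwiseDisjoint (↑(Finset.range (T' + 1))) (QE2_A c) := by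
      have key : ∀ t t' : ℕ, t < t' → ∀ ω, ω ∈ QE2_A c t → ω ∈ QE2_A c t' → False := by
        rintro t t' htt ω ⟨⟨i, hi, h1⟩, -⟩ ⟨-, h2⟩
        exact absurd (h2 t htt i hi) (not_le.2 h1)
      intro t _ t' _ hne
      refine Set.disjoint_left.2 fun ω h1 h2 => ?_
      rcases lt_or_gt_of_ne hne with h | h
      · exact key t t' h ω h1 h2
      · exact key t' t h ω h2 h1
    have hunion : PQ μ ν (⋃ t ∈ Finset.range (T' + 1), QE2_A c t) ≤ ρ := by
      refine (measure_mono ?_).trans hρ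
      intro ω hω
      simp only [Set.mem_iUnion, Finset.mem_range] at hω
      obtain ⟨t, ht, ⟨i, hi, h1⟩, -⟩ := hω
      by_contra hcon
      have h2 : ∀ j ≤ T, |Zw j ω| ≤ c / 2 := by
        intro j hj
        by_contra hh
        exact hcon ⟨j, hj, lt_of_not_ge hh⟩
      have h3 := h2 t (by omega)
      have h4 := h2 i (by omega)
      have h5 : |Zw t ω - Zw i ω| ≤ |Zw t ω| + |Zw i ω| := abs_sub _ _
      linarith
    calc PQ μ ν {ω | CH c (m + 1) 0 T' (fun i => Zw i ω)}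
        ≤ PQ μ ν (⋃ t ∈ Finset.range (T' + 1), (QE2_A c t ∩ {ω | shift t ω ∈ {η : ℕ → ℝ × ℝ | CH c m 0 (T' - t) (fun i => Zw i η)}})) :=
          measure_mono hsub
      _ ≤ ∑ t ∈ Finset.range (T' + 1), PQ μ ν (QE2_A c t ∩ {ω | shift t ω ∈ {η : ℕ → ℝ × ℝ | CH c m 0 (T' - t) (fun i => Zw i η)}}) :=
          measure_biUnion_finset_le _ _
      _ = ∑ t ∈ Finset.range (T' + 1), PQ μ ν (QE2_A c t) * PQ μ ν {η : ℕ → ℝ × ℝ | CH c m 0 (T' - t) (fun i => Zw i η)} := by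
          refine Finset.sum_congr rfl fun t _ => ?_
          exact QE2_indep t _ _ (QE2_A_meas c t) (CH_meas c m 0 (T' - t)) (QE2_A_dep c t)
      _ ≤ ∑ t ∈ Finset.range (T' + 1), PQ μ ν (QE2_A c t) * ρ ^ m := by
          refine Finset.sum_le_sum fun t _ => ?_
          exact mul_le_mul_right (ih (T' - t) (by omega)) _
      _ = PQ μ ν (⋃ t ∈ Finset.range (T' + 1), QE2_A c t) * ρ ^ m := by
          rw [measure_biUnion_finset hdisj fun t _ => QE2_A_meas c t, Finset.sum_mul]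
      _ ≤ ρ * ρ ^ m := mul_le_mul_left hunion _
      _ = ρ ^ (m + 1) := by rw [pow_succ, mul_comm]

/-- PROOF. `QS.dev` with `ε/2`, `θ = 1/2`: `κ`, `n₁`. For `n ≥ n₀` let `T = ⌊κ n⌋₊ ≥ 1`, and let `k` be fixed with `n ≤ k T` (`k = ⌈2/κ⌉₊ + 1`, `κ n ≥ 2`). If `CH (ε a n) (k (m' + 1)) 0 w` then (`CH_mono`, `w ≤ k T`)
`CH_windows` gives a window `[l T, (l + 1) T]`, `l < k`, with `m'` oscillations; by `CH_shift` and `map_shift` (the shift preserves `PQ`) each has probability `≤ (1/2) ^ m'` (`CH_short`). So the probability is `≤ k (1/2)^m' ≤ θ`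
for `m'` large; `m = k (m' + 1)`. -/
theorem QS.CH_free (h : QS D μ ν a L V V' p K x₀) {ε θ : ℝ} (hε : 0 < ε) (hθ : 0 < θ) : ∃ m n₀ : ℕ,
    ∀ n ≥ n₀, ∀ w ≤ n, PQ μ ν {ω | CH (ε * a n) m 0 w (fun i => Zw i ω)} ≤ ENNReal.ofReal θ := by
  have hprob := h.qi.probμ
  have hprob' := h.qi.probν
  obtain ⟨κ, hκ, n₁, hn₁⟩ := h.dev (half_pos hε) (1 / 2) (by norm_num)
  set k : ℕ := ⌈2 / κ⌉₊ + 1 with hk
  obtain ⟨m', hm'⟩ : ∃ m' : ℕ, (k : ℝ) * (1 / 2) ^ m' < θ := by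
    have h1 : (0 : ℝ) < θ / k := by positivity
    obtain ⟨m', hm'⟩ := exists_pow_lt_of_lt_one h1 (show (1 / 2 : ℝ) < 1 by norm_num)
    refine ⟨m', ?_⟩
    have h2 : (0 : ℝ) < k := by positivity
    rw [lt_div_iff₀ h2] at hm'
    linarith
  refine ⟨k * (m' + 1), max n₁ ⌈2 / κ⌉₊, fun n hn w hw => ?_⟩
  have hn1 : n₁ ≤ n := (le_max_left _ _).trans hn
  have hn2 : (2 : ℝ) / κ ≤ n := (Nat.le_ceil _).trans (by exact_mod_cast (le_max_right _ _).trans hn)
  have hκn : 2 ≤ κ * n := by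
    rw [div_le_iff₀ hκ] at hn2
    linarith
  set T : ℕ := ⌊κ * n⌋₊ with hT
  have hT1 : (T : ℝ) ≤ κ * n := Nat.floor_le (by linarith)
  have hT2 : κ * n < T + 1 := Nat.lt_floor_add_one _
  have hnk : n ≤ k * T := by
    have h1 : (n : ℝ) ≤ k * T := by
      have h2 : (2 / κ : ℝ) ≤ k := by
        rw [hk]
        push_cast
        have := Nat.le_ceil (2 / κ)
        linarith
      have h3 : κ * n / 2 ≤ T := by linarith
      calc (n : ℝ) = (2 / κ) * (κ * n / 2) := by field_simp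
        _ ≤ k * T := mul_le_mul h2 h3 (by positivity) (by positivity)
    exact_mod_cast h1
  have hρ : PQ μ ν {ω | ∃ j ≤ T, (ε * a n) / 2 < |Zw j ω|} ≤ ENNReal.ofReal (1 / 2) := by
    have := hn₁ n hn1 T hT1
    have e : ε / 2 * a n = (ε * a n) / 2 := by ring
    rw [e] at this
    exact this
  have hshort := CH_short (μ := μ) (ν := ν) hρ m' T le_rfl
  have hwin : ∀ l : ℕ, PQ μ ν {ω | CH (ε * a n) m' (l * T) ((l + 1) * T) (fun i => Zw i ω)} ≤
      ENNReal.ofReal (1 / 2) ^ m' := by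
    intro l
    have hmap : (PQ μ ν).map (shift (l * T)) = PQ μ ν := map_shift (μ.prod ν) (l * T)
    have e : {ω : ℕ → ℝ × ℝ | CH (ε * a n) m' (l * T) ((l + 1) * T) (fun i => Zw i ω)} =
        (shift (l * T)) ⁻¹' {η : ℕ → ℝ × ℝ | CH (ε * a n) m' 0 T (fun i => Zw i η)} := by
      ext ω
      have h1 := CH_shift (c := ε * a n) (m := m') (b := l * T) (s := 0) (T := T) (ω := ω)
      have h2 : l * T + T = (l + 1) * T := by ring
      rw [Nat.add_zero, h2] at h1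
      exact h1
    rw [e, ← Measure.map_apply (measurable_shift (l * T)) (CH_meas _ _ _ _), hmap]
    exact hshort
  have hsub : {ω : ℕ → ℝ × ℝ | CH (ε * a n) (k * (m' + 1)) 0 w (fun i => Zw i ω)} ⊆
      ⋃ l ∈ Finset.range k, {ω : ℕ → ℝ × ℝ | CH (ε * a n) m' (l * T) ((l + 1) * T) (fun i => Zw i ω)} := by
    intro ω hω
    have h1 : CH (ε * a n) (k * (m' + 1)) 0 (0 + k * T) (fun i => Zw i ω) :=
      CH_mono hω le_rfl le_rfl (by omega)
    obtain ⟨l, hl, h2⟩ := CH_windows (by omega) h1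
    rw [Nat.zero_add, Nat.zero_add] at h2
    exact Set.mem_biUnion (Finset.mem_coe.2 (Finset.mem_range.2 hl)) h2
  calc PQ μ ν {ω | CH (ε * a n) (k * (m' + 1)) 0 w (fun i => Zw i ω)}
      ≤ PQ μ ν (⋃ l ∈ Finset.range k, {ω : ℕ → ℝ × ℝ | CH (ε * a n) m' (l * T) ((l + 1) * T) (fun i => Zw i ω)}) :=
        measure_mono hsub
    _ ≤ ∑ l ∈ Finset.range k, PQ μ ν {ω : ℕ → ℝ × ℝ | CH (ε * a n) m' (l * T) ((l + 1) * T) (fun i => Zw i ω)} :=
        measure_biUnion_finset_le _ _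
    _ ≤ ∑ l ∈ Finset.range k, ENNReal.ofReal (1 / 2) ^ m' := Finset.sum_le_sum fun l _ => hwin l
    _ = ENNReal.ofReal (k * (1 / 2) ^ m') := by
        rw [Finset.sum_const, Finset.card_range, nsmul_eq_mul, ENNReal.ofReal_mul (by positivity),
          ENNReal.ofReal_pow (by norm_num), ENNReal.ofReal_natCast]
    _ ≤ ENNReal.ofReal θ := ENNReal.ofReal_le_ofReal hm'.le

end Pool.Agent.BPT
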