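import Pool.Agent.MP_99a865_pr.ST.QW1

/-! **[STB-QW6a]** Boundaries at high levels in a short block of times; Markov property with a window; first passage. -/

open MeasureTheory ProbabilityTheory Filter Topology
open scoped ENNReal NNReal

namespace Pool.Agent.BPT

variable {D : Set ℝ} {μ ν : Measure ℝ} {a : ℕ → ℝ} {L V V' : ℝ → ℝ} {p K x₀ : ℝ}

/-- no further boundary in a good window -/
theorem QW6a_det (hD : Dom D) {ω : ℕ → ℝ × ℝ} (hnn : NN ω) (b w : ℕ) (y : ℝ) (hy : 0 < y) (hb : Bd D ω b)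
    (h1 : y ≤ Zw b ω) (hg : wsum b w ω < y / 4) (b' : ℕ) (hbb' : b < b') (hb' : b' ≤ b + w) : ¬ Bd D ω b' := by
  intro hB
  have hb1 := Bd_pos hb
  obtain ⟨a, hn⟩ := exists_prev hD hnn hB (by omega)
  have hab : b ≤ a := by
    by_contra h
    push Not at h
    exact hn.2.2.2 b h hbb' hb
  have h3 := hD.not_mem (Nxt_prop hD hnn hn).2
  have h4 := F5_Dp_mono hnn hab
  have h5 := (Q3_move hnn b w b' hbb'.le hb').2
  have h6 : Zw b ω = Dp b ω - Ar b ω := rfl
  linarith

/-- PROOF. `A_b = {Bd b, AliveQ b, y ≤ Zw b}`, `G_b = {wsum b w < y/4}`: `P(A_b) ≤ 2 P(A_b ∩ G_b)` (`good_half`, `4w ≤ y/4`). As in the proof of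
`good_det`, on `A_b ∩ G_b ∩ NN` there is no boundary `b'` with `b < b' ≤ b + w` (let `b''` be the boundary following `b`:
`Ar b'' - Ar b ≥ Zw b ≥ y` but `Ar b'' - Ar b ≤ wsum b w < y/4`). So for `b ∈ [s, s+w)` the events `A_b ∩ G_b` are disjoint (mod a null set),
and their union is contained in `{∃ j ≤ s + w, AliveQ j, y ≤ Zw j}`: `harm`. -/
theorem QS.block (h : QS D μ ν a L V V' p K x₀) : ∃ C > (0 : ℝ), ∀ y : ℝ, x₀ ≤ y → ∀ w : ℕ,
    (w : ℝ) ≤ y / 16 → ∀ s : ℕ, ∑ b ∈ Finset.Ico s (s + w),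
      PQ μ ν {ω | Bd D ω b ∧ AliveQ D b ω ∧ y ≤ Zw b ω} ≤ ENNReal.ofReal (C / V y) := by
  classical
  have hD := h.dom
  have hprob := h.qi.probμ
  have hprob' := h.qi.probν
  have hPQ : IsProbabilityMeasure (PQ μ ν) := by
    unfold PQ seqLaw
    infer_instance
  have hK : 0 < K := lt_of_lt_of_le one_pos h.K_ge
  have hx := h.x_ge
  refine ⟨2 * K, by positivity, fun y hy w hw s => ?_⟩
  have hy0 : 0 < y := by linarith
  set A : ℕ → Set (ℕ → ℝ × ℝ) := fun b => {ω | Bd D ω b ∧ AliveQ D b ω ∧ y ≤ Zw b ω} with hA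
  set G : ℕ → Set (ℕ → ℝ × ℝ) := fun b => {ω | wsum b w ω < y / 4} with hGdef
  have hAm : ∀ b, MeasurableSet (A b) := by
    intro b
    have e : A b = {ω | Bd D ω b} ∩ ({ω | AliveQ D b ω} ∩ {ω | y ≤ Zw b ω}) := by
      ext ω
      simp [hA]
    rw [e]
    exact (measurableSet_Bd hD b).inter ((measurableSet_aliveQ hD b).inter
      (measurableSet_le measurable_const (measurable_Zw b)))
  have hGm : ∀ b, MeasurableSet (G b) := fun b =>
    measurableSet_lt (Q3_wsum_meas b w) measurable_const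
  have hstep : ∀ b, PQ μ ν (A b) ≤ 2 * PQ μ ν (A b ∩ G b) := by
    intro b
    have h1 := good_half h.qi b w (y / 4) (by linarith) (by linarith) ((A b).indicator 1)
      (measurable_one.indicator (hAm b)) (by
        intro ω ω' hω
        have hmem : ω ∈ A b ↔ ω' ∈ A b := by
          have hZ : ∀ j ≤ b, Zw j ω = Zw j ω' := by
            intro j hj
            unfold Zw
            rw [F5_Dp_congr hω hj, F5_Ar_congr hω hj]
          have hAl : AliveQ D b ω ↔ AliveQ D b ω' := by
            unfold AliveQ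
            constructor
            · intro h2 j h3 h4
              rw [← hZ j h4]
              exact h2 j h3 h4
            · intro h2 j h3 h4
              rw [hZ j h4]
              exact h2 j h3 h4
          have hBd : Bd D ω b ↔ Bd D ω' b := Bd_dep b ω ω' hω
          simp only [hA, Set.mem_ofPred_eq]
          rw [hBd, hAl, hZ b le_rfl]
        by_cases h2 : ω ∈ A b
        · rw [Set.indicator_of_mem h2, Set.indicator_of_mem (hmem.1 h2)]
          rfl
        · rw [Set.indicator_of_notMem h2, Set.indicator_of_notMem (fun h3 => h2 (hmem.2 h3))])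
    rw [lintegral_indicator_one (hAm b), setLIntegral_indicator (hAm b)] at h1
    simpa using h1
  set U : Set (ℕ → ℝ × ℝ) := {ω | ∃ j ≤ s + w, AliveQ D j ω ∧ y ≤ Zw j ω} with hU
  have hUm : MeasurableSet U := by
    have e : U = ⋃ j ∈ Finset.range (s + w + 1), ({ω | AliveQ D j ω} ∩ {ω | y ≤ Zw j ω}) := by
      ext ω
      simp only [hU, Set.mem_ofPred_eq, Set.mem_iUnion, Finset.mem_range, Set.mem_inter_iff, exists_prop]
      constructor
      · rintro ⟨j, hj, h1, h2⟩
        exact ⟨j, by omega, h1, h2⟩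
      · rintro ⟨j, hj, h1, h2⟩
        exact ⟨j, by omega, h1, h2⟩
    rw [e]
    exact Finset.measurableSet_biUnion _ fun j _ => (measurableSet_aliveQ hD j).inter
      (measurableSet_le measurable_const (measurable_Zw j))
  have hpt : ∀ᵐ ω ∂(PQ μ ν), ∑ b ∈ Finset.Ico s (s + w), (A b ∩ G b).indicator (1 : (ℕ → ℝ × ℝ) → ℝ≥0∞) ω ≤
      U.indicator 1 ω := by
    filter_upwards [ae_NN h.qi] with ω hnn
    have e1 : ∑ b ∈ Finset.Ico s (s + w), (A b ∩ G b).indicator (1 : (ℕ → ℝ × ℝ) → ℝ≥0∞) ω =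
        (((Finset.Ico s (s + w)).filter fun b => ω ∈ A b ∩ G b).card : ℝ≥0∞) := by
      rw [Finset.card_filter, Nat.cast_sum]
      refine Finset.sum_congr rfl fun b _ => ?_
      by_cases hb : ω ∈ A b ∩ G b
      · rw [Set.indicator_of_mem hb, if_pos hb]
        simp
      · rw [Set.indicator_of_notMem hb, if_neg hb]
        simp
    rw [e1]
    rcases ((Finset.Ico s (s + w)).filter fun b => ω ∈ A b ∩ G b).eq_empty_or_nonempty with h0 | ⟨b, hb⟩
    · rw [h0]
      simp
    · have hb' := Finset.mem_filter.1 hb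
      have hmem : ω ∈ U := ⟨b, by have := Finset.mem_Ico.1 hb'.1; omega, hb'.2.1.2.1, hb'.2.1.2.2⟩
      rw [Set.indicator_of_mem hmem]
      have hc : ((Finset.Ico s (s + w)).filter fun b => ω ∈ A b ∩ G b).card ≤ 1 := by
        rw [Finset.card_le_one]
        intro b1 hb1 b2 hb2
        have k1 := Finset.mem_filter.1 hb1
        have k2 := Finset.mem_filter.1 hb2
        have l1 := Finset.mem_Ico.1 k1.1
        have l2 := Finset.mem_Ico.1 k2.1
        rcases lt_trichotomy b1 b2 with h1 | h1 | h1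
        · exact absurd k2.2.1.1 (QW6a_det hD hnn b1 w y hy0 k1.2.1.1 k1.2.1.2.2 k1.2.2 b2 h1 (by omega))
        · exact h1
        · exact absurd k1.2.1.1 (QW6a_det hD hnn b2 w y hy0 k2.2.1.1 k2.2.1.2.2 k2.2.2 b1 h1 (by omega))
      have hc' : (((Finset.Ico s (s + w)).filter fun b => ω ∈ A b ∩ G b).card : ℝ≥0∞) ≤ 1 := by exact_mod_cast hc
      exact hc'
  have hint : ∑ b ∈ Finset.Ico s (s + w), PQ μ ν (A b ∩ G b) ≤ PQ μ ν U := by
    have h1 := lintegral_mono_ae hpt
    rw [lintegral_finsetSum _ fun b _ => measurable_one.indicator ((hAm b).inter (hGm b)),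
      lintegral_indicator_one hUm] at h1
    simp_rw [lintegral_indicator_one ((hAm _).inter (hGm _))] at h1
    exact h1
  have hVy : 0 < V y := lt_of_lt_of_le one_pos (h.V_one _)
  have hUle : PQ μ ν U ≤ ENNReal.ofReal (K / V y) := by
    rw [← ofReal_measureReal]
    exact ENNReal.ofReal_le_ofReal (h.harm (s + w) y hy)
  calc ∑ b ∈ Finset.Ico s (s + w), PQ μ ν (A b) ≤ ∑ b ∈ Finset.Ico s (s + w), 2 * PQ μ ν (A b ∩ G b) :=
        Finset.sum_le_sum fun b _ => hstep b
    _ = 2 * ∑ b ∈ Finset.Ico s (s + w), PQ μ ν (A b ∩ G b) := by rw [Finset.mul_sum]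
    _ ≤ 2 * ENNReal.ofReal (K / V y) := by
        gcongr
        exact hint.trans hUle
    _ = ENNReal.ofReal (2 * K / V y) := by
        rw [mul_div_assoc, ENNReal.ofReal_mul (by norm_num)]
        simp

end Pool.Agent.BPT
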