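import Pool.Agent.MP_99a865_pr.ST.QW1
import Pool.Agent.MP_99a865_pr.ST.QW6a

/-! **[STB-QW6b]** Boundaries at high levels in a short block of times; Markov property with a window; first passage. -/

open MeasureTheory ProbabilityTheory Filter Topology
open scoped ENNReal NNReal

namespace Pool.Agent.BPT

variable {D : Set ℝ} {μ ν : Measure ℝ} {a : ℕ → ℝ} {L V V' : ℝ → ℝ} {p K x₀ : ℝ}

private theorem QW6b_Zw {t j : ℕ} (hj : j ≤ t) {ω ω' : ℕ → ℝ × ℝ} (h : ∀ i < t, ω i = ω' i) :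
    Zw j ω = Zw j ω' := Q1_Zw_congr j fun i hi => h i (lt_of_lt_of_le hi hj)

private theorem QW6b_FP {y : ℝ} {t : ℕ} {ω ω' : ℕ → ℝ × ℝ} (h : ∀ i < t, ω i = ω' i) :
    ω ∈ FP y t ↔ ω' ∈ FP y t := by
  have key : ∀ ω ω' : ℕ → ℝ × ℝ, (∀ i < t, ω i = ω' i) → ω ∈ FP y t → ω' ∈ FP y t := by
    intro ω ω' h hω
    refine ⟨?_, fun j hj => ?_⟩
    · rw [← QW6b_Zw le_rfl h]
      exact hω.1
    · rw [← QW6b_Zw hj.le h]
      exact hω.2 j hj
  exact ⟨key ω ω' h, key ω' ω fun i hi => (h i hi).symm⟩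

private theorem QW6b_ind {E : Type} {A : Set E} {x x' : E} (h : x ∈ A ↔ x' ∈ A) :
    A.indicator (1 : E → ℝ≥0∞) x = A.indicator 1 x' := by
  classical
  by_cases hx : x ∈ A
  · rw [Set.indicator_of_mem hx, Set.indicator_of_mem (h.1 hx)]
    rfl
  · rw [Set.indicator_of_notMem hx, Set.indicator_of_notMem fun hx' => hx (h.2 hx')]

/-- independence -/
private theorem QW6b_indep [IsProbabilityMeasure μ] [IsProbabilityMeasure ν] (b : ℕ)
    (A B : Set (ℕ → ℝ × ℝ)) (hA : MeasurableSet A) (hB : MeasurableSet B)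
    (hAd : ∀ ω ω', (∀ j < b, ω j = ω' j) → (ω ∈ A ↔ ω' ∈ A)) :
    PQ μ ν (A ∩ {ω | shift b ω ∈ B}) = PQ μ ν A * PQ μ ν B := by
  have hS : MeasurableSet {ω : ℕ → ℝ × ℝ | shift b ω ∈ B} := (measurable_shift b) hB
  have h1 := lintegral_split (μ.prod ν) b
    (fun ω η => A.indicator (1 : (ℕ → ℝ × ℝ) → ℝ≥0∞) ω * B.indicator (1 : (ℕ → ℝ × ℝ) → ℝ≥0∞) η)
    (((measurable_one.indicator hA).comp measurable_fst).mul
      ((measurable_one.indicator hB).comp measurable_snd))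
    (fun ω ω' η hω => by rw [QW6b_ind (hAd ω ω' hω)])
  have h2 : ∀ ω : ℕ → ℝ × ℝ, A.indicator (1 : (ℕ → ℝ × ℝ) → ℝ≥0∞) ω *
      B.indicator (1 : (ℕ → ℝ × ℝ) → ℝ≥0∞) (shift b ω) =
      (A ∩ {ω | shift b ω ∈ B}).indicator (1 : (ℕ → ℝ × ℝ) → ℝ≥0∞) ω := by
    intro ω
    classical
    by_cases hx : ω ∈ A
    · by_cases hy : shift b ω ∈ B
      · rw [Set.indicator_of_mem hx, Set.indicator_of_mem hy,
          Set.indicator_of_mem (show ω ∈ A ∩ {ω | shift b ω ∈ B} from ⟨hx, hy⟩)]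
        simp
      · rw [Set.indicator_of_notMem hy,
          Set.indicator_of_notMem (show ω ∉ A ∩ {ω | shift b ω ∈ B} from fun h => hy h.2)]
        simp
    · rw [Set.indicator_of_notMem hx,
        Set.indicator_of_notMem (show ω ∉ A ∩ {ω | shift b ω ∈ B} from fun h => hx h.1)]
      simp
  rw [lintegral_congr h2, lintegral_indicator_one (hA.inter hS)] at h1
  have h3 : ∀ ω : ℕ → ℝ × ℝ, ∫⁻ η, A.indicator (1 : (ℕ → ℝ × ℝ) → ℝ≥0∞) ω *
      B.indicator (1 : (ℕ → ℝ × ℝ) → ℝ≥0∞) η ∂(seqLaw (μ.prod ν)) =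
      A.indicator (1 : (ℕ → ℝ × ℝ) → ℝ≥0∞) ω * PQ μ ν B := by
    intro ω
    rw [lintegral_const_mul _ (measurable_one.indicator hB), lintegral_indicator_one hB]
    rfl
  rw [lintegral_congr h3, lintegral_mul_const _ (measurable_one.indicator hA),
    lintegral_indicator_one hA] at h1
  exact h1

/-- PROOF. `q_exit` with `r = b + w`, `H = 1_A · 1_B (shift b ·)` (depends on the first `b + w` pairs) and `hit_m`; then
`{AliveQ (b+w)} ⊆ {AliveQ b}` and independence of the first `b` pairs and the pairs from `b` on (`lintegral_split`, or the measure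
preserving splitting used in CV/Q3, `good_half`). -/
theorem QS.win (h : QS D μ ν a L V V' p K x₀) (n b w : ℕ) (hb : b + w < n) (A B : Set (ℕ → ℝ × ℝ))
    (hA : MeasurableSet A) (hB : MeasurableSet B)
    (hAd : ∀ ω ω', (∀ j < b, ω j = ω' j) → (ω ∈ A ↔ ω' ∈ A))
    (hBd : ∀ ω ω', (∀ j < w, ω j = ω' j) → (ω ∈ B ↔ ω' ∈ B)) :
    PQ μ ν (EvN D n ∩ A ∩ {ω | shift b ω ∈ B}) ≤
      ENNReal.ofReal (K / ((n - b - w : ℕ) : ℝ)) * (PQ μ ν (A ∩ {ω | AliveQ D b ω}) * PQ μ ν B) := by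
  have hprob := h.qi.probμ
  have hprob' := h.qi.probν
  have hD := h.dom
  have hAl : MeasurableSet {ω : ℕ → ℝ × ℝ | AliveQ D b ω} := measurableSet_aliveQ hD b
  have hS : MeasurableSet {ω : ℕ → ℝ × ℝ | shift b ω ∈ B} := (measurable_shift b) hB
  set F : Set (ℕ → ℝ × ℝ) := A ∩ {ω | shift b ω ∈ B} with hF
  have hFm : MeasurableSet F := hA.inter hS
  have hFd : ∀ ω ω', (∀ j < b + w, ω j = ω' j) → (ω ∈ F ↔ ω' ∈ F) := by
    intro ω ω' hω
    have h1 := hAd ω ω' fun j hj => hω j (by omega)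
    have h2 := hBd (shift b ω) (shift b ω') fun j hj => hω (b + j) (by omega)
    rw [hF]
    exact and_congr h1 h2
  have h1 := q_exit (μ := μ) (ν := ν) hD (b + w) n hb (F.indicator 1) (measurable_one.indicator hFm)
    (fun ω ω' hω => QW6b_ind (hFd ω ω' hω))
  rw [lintegral_indicator_one hFm, Measure.restrict_apply hFm] at h1
  have h2 : EvN D n ∩ A ∩ {ω | shift b ω ∈ B} = F ∩ EvN D n := by
    rw [hF, Set.inter_assoc, Set.inter_comm]
  rw [h2, h1]
  have h3 : ∫⁻ ω in {ω | AliveQ D (b + w) ω}, F.indicator (1 : (ℕ → ℝ × ℝ) → ℝ≥0∞) ω *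
      ENNReal.ofReal (hit D (stepLaw μ ν 1) (n - (b + w)) (Zw (b + w) ω)) ∂(PQ μ ν) ≤
      ENNReal.ofReal (K / ((n - b - w : ℕ) : ℝ)) * PQ μ ν (A ∩ {ω | AliveQ D b ω} ∩
        {ω | shift b ω ∈ B}) := by
    calc ∫⁻ ω in {ω | AliveQ D (b + w) ω}, F.indicator (1 : (ℕ → ℝ × ℝ) → ℝ≥0∞) ω *
        ENNReal.ofReal (hit D (stepLaw μ ν 1) (n - (b + w)) (Zw (b + w) ω)) ∂(PQ μ ν) ≤
        ∫⁻ ω in {ω | AliveQ D (b + w) ω}, F.indicator (1 : (ℕ → ℝ × ℝ) → ℝ≥0∞) ω *
        ENNReal.ofReal (K / ((n - b - w : ℕ) : ℝ)) ∂(PQ μ ν) := by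
          refine lintegral_mono fun ω => ?_
          apply mul_le_mul' le_rfl
          apply ENNReal.ofReal_le_ofReal
          have h4 := h.hit_m (n - b - w) (Zw (b + w) ω) (by omega)
          rw [Nat.sub_sub] at h4 ⊢
          exact h4
      _ = (∫⁻ ω in {ω | AliveQ D (b + w) ω}, F.indicator (1 : (ℕ → ℝ × ℝ) → ℝ≥0∞) ω ∂(PQ μ ν)) *
          ENNReal.ofReal (K / ((n - b - w : ℕ) : ℝ)) :=
          lintegral_mul_const _ (measurable_one.indicator hFm)
      _ = ENNReal.ofReal (K / ((n - b - w : ℕ) : ℝ)) *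
          PQ μ ν (F ∩ {ω | AliveQ D (b + w) ω}) := by
          rw [lintegral_indicator_one hFm, Measure.restrict_apply hFm, mul_comm]
      _ ≤ _ := by
          apply mul_le_mul' le_rfl
          apply measure_mono
          rintro ω ⟨⟨h4, h5⟩, h6⟩
          exact ⟨⟨h4, fun j hj1 hj2 => h6 j hj1 (by omega)⟩, h5⟩
  refine h3.trans (le_of_eq ?_)
  rw [QW6b_indep b (A ∩ {ω | AliveQ D b ω}) B (hA.inter hAl) hB]
  intro ω ω' hω
  exact and_congr (hAd ω ω' hω) (Q1_alive_congr b hω)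

theorem measurableSet_FP (y : ℝ) (t : ℕ) : MeasurableSet (FP y t) := by
  have h1 : FP y t = {ω | y ≤ Zw t ω} ∩ ⋂ j : ℕ, ⋂ (_ : j < t), {ω | Zw j ω < y} := by
    ext ω
    simp [FP]
  rw [h1]
  exact (measurableSet_le measurable_const (measurable_Zw t)).inter
    (MeasurableSet.iInter fun j => MeasurableSet.iInter fun _ =>
      measurableSet_lt (measurable_Zw j) measurable_const)

/-- PROOF. `FP y t` depends on the first `t` pairs; disjoint for different `t`; union over `t ≤ n` inside the event of `harm`. -/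
theorem QS.FP_sum (h : QS D μ ν a L V V' p K x₀) (n : ℕ) (y : ℝ) (hy : x₀ ≤ y) (s : Finset ℕ)
    (hs : ∀ t ∈ s, t ≤ n) :
    ∑ t ∈ s, PQ μ ν (FP y t ∩ {ω | AliveQ D t ω}) ≤ ENNReal.ofReal (K / V y) := by
  have hprob := h.qi.probμ
  have hprob' := h.qi.probν
  have hD := h.dom
  rw [← measure_biUnion_finset]
  · have h1 : (⋃ t ∈ s, FP y t ∩ {ω | AliveQ D t ω}) ⊆ {ω | ∃ j ≤ n, AliveQ D j ω ∧ y ≤ Zw j ω} := by
      intro ω hω
      rw [Set.mem_iUnion₂] at hω
      obtain ⟨t, ht, h2, h3⟩ := hω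
      exact ⟨t, hs t ht, h3, h2.1⟩
    refine (measure_mono h1).trans ?_
    rw [← ofReal_measureReal (measure_ne_top _ _)]
    exact ENNReal.ofReal_le_ofReal (h.harm n y hy)
  · intro t _ t' _ htt
    rw [Function.onFun, Set.disjoint_left]
    rintro ω ⟨h1, -⟩ ⟨h2, -⟩
    rcases Nat.lt_or_gt_of_ne htt with h3 | h3
    · have := h2.2 t h3
      linarith [h1.1]
    · have := h1.2 t' h3
      linarith [h2.1]
  · intro t _
    exact (measurableSet_FP y t).inter (measurableSet_aliveQ hD t)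

/-- PROOF. `q_exit` with `r = t`, `H = 1_{A ∩ FP y t}` (`A` depends on the first `t` pairs), `hit_L` and `L_anti`. -/
theorem QS.FP_exit (h : QS D μ ν a L V V' p K x₀) (n t : ℕ) (ht : t < n) (y : ℝ) (hy : x₀ ≤ y)
    (A : Set (ℕ → ℝ × ℝ)) (hA : MeasurableSet A)
    (hAd : ∀ ω ω', (∀ j < t, ω j = ω' j) → (ω ∈ A ↔ ω' ∈ A)) :
    PQ μ ν (EvN D n ∩ A ∩ FP y t) ≤
      ENNReal.ofReal (K * L y) * PQ μ ν (A ∩ FP y t ∩ {ω | AliveQ D t ω}) := by
  have hprob := h.qi.probμ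
  have hprob' := h.qi.probν
  have hD := h.dom
  set F : Set (ℕ → ℝ × ℝ) := A ∩ FP y t with hF
  have hFm : MeasurableSet F := hA.inter (measurableSet_FP y t)
  have hFd : ∀ ω ω', (∀ j < t, ω j = ω' j) → (ω ∈ F ↔ ω' ∈ F) := fun ω ω' hω =>
    and_congr (hAd ω ω' hω) (QW6b_FP hω)
  have h1 := q_exit (μ := μ) (ν := ν) hD t n ht (F.indicator 1) (measurable_one.indicator hFm)
    (fun ω ω' hω => QW6b_ind (hFd ω ω' hω))
  rw [lintegral_indicator_one hFm, Measure.restrict_apply hFm] at h1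
  have h2 : EvN D n ∩ A ∩ FP y t = F ∩ EvN D n := by
    rw [hF, Set.inter_assoc, Set.inter_comm]
  rw [h2, h1]
  calc ∫⁻ ω in {ω | AliveQ D t ω}, F.indicator (1 : (ℕ → ℝ × ℝ) → ℝ≥0∞) ω *
        ENNReal.ofReal (hit D (stepLaw μ ν 1) (n - t) (Zw t ω)) ∂(PQ μ ν) ≤
        ∫⁻ ω in {ω | AliveQ D t ω}, F.indicator (1 : (ℕ → ℝ × ℝ) → ℝ≥0∞) ω *
        ENNReal.ofReal (K * L y) ∂(PQ μ ν) := by
          refine lintegral_mono fun ω => ?_
          by_cases hω : ω ∈ F
          · apply mul_le_mul' le_rfl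
            apply ENNReal.ofReal_le_ofReal
            have h3 : y ≤ Zw t ω := hω.2.1
            have h4 := h.hit_L (n - t) (Zw t ω) (by omega) (hy.trans h3)
            exact h4.trans (mul_le_mul_of_nonneg_left (h.L_anti y _ hy h3) (by linarith [h.K_ge]))
          · show F.indicator (1 : (ℕ → ℝ × ℝ) → ℝ≥0∞) ω * _ ≤ F.indicator (1 : (ℕ → ℝ × ℝ) → ℝ≥0∞) ω * _
            rw [Set.indicator_of_notMem hω, zero_mul, zero_mul]
    _ = (∫⁻ ω in {ω | AliveQ D t ω}, F.indicator (1 : (ℕ → ℝ × ℝ) → ℝ≥0∞) ω ∂(PQ μ ν)) *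
          ENNReal.ofReal (K * L y) :=
          lintegral_mul_const _ (measurable_one.indicator hFm)
    _ = ENNReal.ofReal (K * L y) * PQ μ ν (F ∩ {ω | AliveQ D t ω}) := by
          rw [lintegral_indicator_one hFm, Measure.restrict_apply hFm, mul_comm]

/-- Tightness of the maximum. PROOF. Decompose at the first time `t < n` with `Zw t ≥ y` (`FP_exit` with `A = univ`, `FP_sum`):
`P(N = n, ∃ i < n, y ≤ Zw i) ≤ K L y · K/V y`. With `y = R a n`: `L y ≤ K R^{-p} L (a n) ≤ K² R^{-p}/n`, `V y ≥ V (a n)`. -/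
theorem QS.tight (h : QS D μ ν a L V V' p K x₀) : ∀ θ > (0 : ℝ), ∃ R ≥ (1 : ℝ), ∀ n : ℕ, 1 ≤ n →
    PQ μ ν (EvN D n ∩ {ω | ∃ i < n, R * a n ≤ Zw i ω}) ≤ ENNReal.ofReal (θ * bb V a n) := by
  intro θ hθ
  have hprob := h.qi.probμ
  have hprob' := h.qi.probν
  have hK := h.K_ge
  have hK0 : 0 < K := by linarith
  have hp1 := h.p_gt
  have hx := h.x_ge
  refine ⟨max 1 (K ^ 4 / θ), le_max_left _ _, fun n hn => ?_⟩
  set R : ℝ := max 1 (K ^ 4 / θ) with hR
  have hR1 : 1 ≤ R := le_max_left _ _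
  have hR2 : K ^ 4 / θ ≤ R := le_max_right _ _
  have hR0 : 0 < R := by linarith
  have hn0 : (0 : ℝ) < n := by exact_mod_cast hn
  have han := h.a_ge n hn
  have han0 : 0 < a n := by linarith
  have hy : x₀ ≤ R * a n := by nlinarith
  have hyn : a n ≤ R * a n := by nlinarith
  have hV := h.V_one (a n)
  have hVy := h.V_one (R * a n)
  -- first passage
  have h1 : EvN D n ∩ {ω | ∃ i < n, R * a n ≤ Zw i ω} ⊆
      ⋃ t ∈ Finset.range n, EvN D n ∩ Set.univ ∩ FP (R * a n) t := by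
    classical
    rintro ω ⟨h2, h3⟩
    have hex : ∃ i, R * a n ≤ Zw i ω := h3.imp fun i hi => hi.2
    have h4 := Nat.find_spec hex
    have h5 : ∀ j < Nat.find hex, ¬ (R * a n ≤ Zw j ω) := fun j hj => Nat.find_min hex hj
    have h6 : Nat.find hex < n := by
      obtain ⟨i, hi, hi2⟩ := h3
      exact lt_of_le_of_lt (Nat.find_min' hex hi2) hi
    rw [Set.mem_iUnion₂]
    exact ⟨Nat.find hex, Finset.mem_range.2 h6, ⟨h2, Set.mem_univ _⟩, h4, fun j hj => not_le.1 (h5 j hj)⟩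
  refine (measure_mono h1).trans ((measure_biUnion_finset_le _ _).trans ?_)
  have h2 : ∀ t ∈ Finset.range n, PQ μ ν (EvN D n ∩ Set.univ ∩ FP (R * a n) t) ≤
      ENNReal.ofReal (K * L (R * a n)) * PQ μ ν (FP (R * a n) t ∩ {ω | AliveQ D t ω}) := by
    intro t ht
    have h3 := h.FP_exit n t (Finset.mem_range.1 ht) (R * a n) hy Set.univ MeasurableSet.univ
      (fun _ _ _ => Iff.rfl)
    rwa [Set.univ_inter] at h3
  refine (Finset.sum_le_sum h2).trans ?_
  rw [← Finset.mul_sum]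
  have h3 := h.FP_sum n (R * a n) hy (Finset.range n) fun t ht => (Finset.mem_range.1 ht).le
  have hLpos := h.L_pos _ hy
  calc ENNReal.ofReal (K * L (R * a n)) *
        ∑ t ∈ Finset.range n, PQ μ ν (FP (R * a n) t ∩ {ω | AliveQ D t ω}) ≤
        ENNReal.ofReal (K * L (R * a n)) * ENNReal.ofReal (K / V (R * a n)) := mul_le_mul' le_rfl h3
    _ = ENNReal.ofReal (K * L (R * a n) * (K / V (R * a n))) := by
        rw [← ENNReal.ofReal_mul (by positivity)]
    _ ≤ ENNReal.ofReal (θ * bb V a n) := by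
        apply ENNReal.ofReal_le_ofReal
        have h4 := h.L_le (a n) R han hR1
        have h5 := (h.L_a n hn).2
        have hRp : R ≤ R ^ p := by
          calc R = R ^ (1 : ℝ) := (Real.rpow_one R).symm
            _ ≤ R ^ p := Real.rpow_le_rpow_of_exponent_le hR1 hp1.le
        have hRp0 : 0 < R ^ p := by linarith
        -- L y ≤ K² / (R n)
        have h6 : L (R * a n) * (R * n) ≤ K ^ 2 := by
          calc L (R * a n) * (R * n) ≤ L (R * a n) * (R ^ p * n) := by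
                apply mul_le_mul_of_nonneg_left _ hLpos.le
                exact mul_le_mul_of_nonneg_right hRp hn0.le
            _ = (R ^ p * L (R * a n)) * n := by ring
            _ ≤ (K * L (a n)) * n := mul_le_mul_of_nonneg_right h4 hn0.le
            _ = K * (n * L (a n)) := by ring
            _ ≤ K * K := mul_le_mul_of_nonneg_left h5 hK0.le
            _ = K ^ 2 := by ring
        have h7 : V (a n) ≤ V (R * a n) := h.V_mono hyn
        have h8 : K ^ 4 ≤ θ * R := by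
          rw [div_le_iff₀ hθ] at hR2
          linarith
        unfold bb
        rw [mul_one_div, mul_div_assoc', div_le_div_iff₀ (by positivity) (by positivity)]
        have h9 : K * L (R * a n) * K * (n * V (a n)) * R ≤ K ^ 4 * V (R * a n) := by
          calc K * L (R * a n) * K * (n * V (a n)) * R =
                K ^ 2 * (L (R * a n) * (R * n)) * V (a n) := by ring
            _ ≤ K ^ 2 * K ^ 2 * V (R * a n) := by
                apply mul_le_mul _ h7 (by linarith) (by positivity)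
                exact mul_le_mul_of_nonneg_left h6 (by positivity)
            _ = K ^ 4 * V (R * a n) := by ring
        have h10 : K ^ 4 * V (R * a n) ≤ θ * R * V (R * a n) :=
          mul_le_mul_of_nonneg_right h8 (by linarith)
        have h11 : K * L (R * a n) * K * (n * V (a n)) * R ≤ θ * V (R * a n) * R := by linarith
        exact le_of_mul_le_mul_right h11 hR0

end Pool.Agent.BPT
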