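import Pool.Agent.MP_99a865_pr.ST.QW1
import Pool.Agent.MP_99a865_pr.ST.QW6a
import Pool.Agent.MP_99a865_pr.ST.QW6b

/-! **[STB-QW6c]** Boundaries at high levels in a short block of times; Markov property with a window; first passage. -/

open MeasureTheory ProbabilityTheory Filter Topology
open scoped ENNReal NNReal

namespace Pool.Agent.BPT

variable {D : Set ℝ} {μ ν : Measure ℝ} {a : ℕ → ℝ} {L V V' : ℝ → ℝ} {p K x₀ : ℝ}

lemma QW6c_le {Ω : Type} [MeasurableSpace Ω] {P : Measure Ω} [IsFiniteMeasure P] {s : Set Ω} {c : ℝ}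
    (h : P.real s ≤ c) : P s ≤ ENNReal.ofReal c := by
  rw [← ENNReal.ofReal_toReal (measure_ne_top P s)]
  exact ENNReal.ofReal_le_ofReal h

/-- PROOF. `BWd w e ⊆ {max |Zw| ≥ e} ∪ {max |Ar - j| ≥ e}`: `maxZ`, `maxA`. -/
theorem QS.prob_BWd (h : QS D μ ν a L V V' p K x₀) (w : ℕ) (e : ℝ) (he : x₀ ≤ e) :
    PQ μ ν (BWd w e) ≤ ENNReal.ofReal (2 * K * (w * L e)) := by
  have hpμ := h.qi.probμ
  have hpν := h.qi.probν
  have hP : IsProbabilityMeasure (PQ μ ν) := by
    unfold PQ seqLaw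
    infer_instance
  have hL := h.L_pos e he
  have hK := h.K_ge
  have h1 : BWd w e ⊆ {η | ∃ j ≤ w, e ≤ |Zw j η|} ∪ {η | ∃ j ≤ w, e ≤ |Ar j η - j|} := by
    rintro η ⟨j, hj, h1 | h1⟩
    · exact Or.inl ⟨j, hj, h1⟩
    · exact Or.inr ⟨j, hj, h1⟩
  have h2 : 0 ≤ K * (w * L e) := by positivity
  calc PQ μ ν (BWd w e)
      ≤ PQ μ ν {η | ∃ j ≤ w, e ≤ |Zw j η|} + PQ μ ν {η | ∃ j ≤ w, e ≤ |Ar j η - j|} :=
        (measure_mono h1).trans (measure_union_le _ _)
    _ ≤ ENNReal.ofReal (K * (w * L e)) + ENNReal.ofReal (K * (w * L e)) :=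
        add_le_add (QW6c_le (h.maxZ w e he)) (QW6c_le (h.maxA w e he))
    _ = ENNReal.ofReal (2 * K * (w * L e)) := by
        rw [← ENNReal.ofReal_add h2 h2]
        congr 1
        ring

theorem measurableSet_BWd (w : ℕ) (e : ℝ) : MeasurableSet (BWd w e) := by
  have : BWd w e = ⋃ j : ℕ, ⋃ (_ : j ≤ w), ({η | e ≤ |Zw j η|} ∪ {η | e ≤ |Ar j η - j|}) := by
    ext η
    simp [BWd]
  rw [this]
  exact MeasurableSet.iUnion fun j => MeasurableSet.iUnion fun _ =>
    (measurableSet_le measurable_const (measurable_Zw j).abs).union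
      (measurableSet_le measurable_const ((measurable_Ar j).sub_const _).abs)

lemma QW6c_Ar (k : ℕ) {ω ω' : ℕ → ℝ × ℝ} (h : ∀ j < k, ω j = ω' j) : Ar k ω = Ar k ω' := by
  unfold Ar
  exact Finset.sum_congr rfl fun j hj => by rw [h j (Finset.mem_range.1 hj)]

theorem BWd_dep (w : ℕ) (e : ℝ) (ω ω' : ℕ → ℝ × ℝ) (h : ∀ j < w, ω j = ω' j) :
    ω ∈ BWd w e ↔ ω' ∈ BWd w e := by
  unfold BWd
  refine exists_congr fun j => and_congr_right fun hj => ?_
  rw [Q1_Zw_congr j (fun i hi => h i (by omega)), QW6c_Ar j (fun i hi => h i (by omega))]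

lemma QW6c_low (h : QS D μ ν a L V V' p K x₀) (i : ℕ) (hi : 1 ≤ i) :
    PQ μ ν {ω | AliveQ D i ω ∧ Zw i ω ≤ a i} ≤
      ENNReal.ofReal ((a i + 1) * (K * V' (a i + x₀) / (i * a i))) := by
  have hpμ := h.qi.probμ
  have hpν := h.qi.probν
  have hps : IsProbabilityMeasure (stepLaw μ ν 1) := prob_stepLaw 1
  have hP : IsProbabilityMeasure (PQ μ ν) := by
    unfold PQ seqLaw
    infer_instance
  have hai : x₀ ≤ a i := h.a_ge i hi
  have hx := h.x_ge
  have ha0 : 0 < a i := by linarith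
  have hi0 : (0 : ℝ) < i := by exact_mod_cast hi
  have hV0 : 0 ≤ V' (a i + x₀) := zero_le_one.trans (h.V'_one _)
  have hK := h.K_ge
  set B : ℝ := K * V' (a i + x₀) / (i * a i) with hB
  have hB0 : 0 ≤ B := by positivity
  -- the law of the killed walk
  have h0 : PQ μ ν {ω | AliveQ D i ω ∧ Zw i ω ≤ a i} = kap D (stepLaw μ ν 1) i 0 (Set.Iic (a i)) := by
    have h1 := Q2_one (μ := μ) (ν := ν) h.dom 0 i (Nat.zero_le i) (fun _ => 1) measurable_const
      (fun _ _ _ => rfl) (a i)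
    have h2 : {ω : ℕ → ℝ × ℝ | AliveQ D 0 ω} = Set.univ := by
      ext ω
      simp only [Set.mem_univ, iff_true]
      intro j h3 h4
      omega
    have h3 : ∀ ω : ℕ → ℝ × ℝ, Zw 0 ω = 0 := by
      intro ω
      simp [Zw, Dp, Ar]
    simp only [h2, h3, Measure.restrict_univ, one_mul, Nat.sub_zero, lintegral_const, measure_univ,
      mul_one, Measure.restrict_apply_univ] at h1
    exact h1
  rw [h0]
  set N : ℕ := ⌊a i⌋₊ + 1 with hN
  have hcov : Set.Iic (a i) ⊆ Dᶜ ∪ ⋃ j ∈ Finset.range N, Set.Ico (j : ℝ) (j + 1) := by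
    intro y hy
    by_cases hyD : y ∈ D
    · right
      have hy0 : 0 ≤ y := h.dom.nonneg hyD
      have hy1 : y ≤ a i := hy
      refine Set.mem_biUnion (x := ⌊y⌋₊) ?_ ⟨Nat.floor_le hy0, Nat.lt_floor_add_one y⟩
      rw [Finset.mem_coe, Finset.mem_range, hN]
      exact Nat.lt_succ_of_le (Nat.floor_le_floor hy1)
    · left
      exact hyD
  calc kap D (stepLaw μ ν 1) i 0 (Set.Iic (a i))
      ≤ kap D (stepLaw μ ν 1) i 0 Dᶜ + kap D (stepLaw μ ν 1) i 0 (⋃ j ∈ Finset.range N, Set.Ico (j : ℝ) (j + 1)) :=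
        (measure_mono hcov).trans (measure_union_le _ _)
    _ ≤ 0 + ∑ j ∈ Finset.range N, kap D (stepLaw μ ν 1) i 0 (Set.Ico (j : ℝ) (j + 1)) := by
        rw [kap_compl h.dom i 0 (Or.inl hi)]
        exact add_le_add le_rfl (measure_biUnion_finset_le _ _)
    _ ≤ 0 + ∑ j ∈ Finset.range N, ENNReal.ofReal B := by
        refine add_le_add le_rfl (Finset.sum_le_sum fun j hj => ?_)
        refine QW6c_le ((h.kap_loc i i hi (by omega) (by omega) j (Nat.cast_nonneg j)).trans ?_)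
        rw [hB]
        have hj1 : (j : ℝ) ≤ a i := by
          have h1 : j ≤ ⌊a i⌋₊ := by
            have := Finset.mem_range.1 hj
            omega
          exact (Nat.le_floor_iff ha0.le).1 h1
        have hV := h.V'_mono (show (j : ℝ) + x₀ ≤ a i + x₀ by linarith)
        have : K * V' ((j : ℝ) + x₀) ≤ K * V' (a i + x₀) := mul_le_mul_of_nonneg_left hV (by linarith)
        exact div_le_div_of_nonneg_right this (by positivity)
    _ = ENNReal.ofReal (N * B) := by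
        rw [zero_add, Finset.sum_const, Finset.card_range, nsmul_eq_mul, ENNReal.ofReal_mul (Nat.cast_nonneg N),
          ENNReal.ofReal_natCast]
    _ ≤ ENNReal.ofReal ((a i + 1) * B) := by
        refine ENNReal.ofReal_le_ofReal (mul_le_mul_of_nonneg_right ?_ hB0)
        rw [hN]
        push_cast
        linarith [Nat.floor_le ha0.le]

/-- Survival. PROOF. `{AliveQ i} ⊆ {AliveQ i, Zw i ≥ a i} ∪ {AliveQ i, Zw i < a i}`. The first event has probability `≤ K/V (a i)` (`harm`); the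
second one is `kap D ρ i 0 [0, a i)`, at most `(a i + 1)` unit windows, each `≤ K V' (a i + 1 + x₀)/(i a i)` (`kap_loc` with `n = i`), total
`≤ C V' (a i)/i ≤ C'/V (a i)` (`VV_n`). Finally `V (a n) ≤ C V (a i)` for `i ≥ δ n` (`a_comp`, `V_le`). -/
theorem QS.surv (h : QS D μ ν a L V V' p K x₀) {δ : ℝ} (hδ : 0 < δ) : ∃ C > (0 : ℝ), ∀ n i : ℕ, 1 ≤ i →
    i ≤ n → δ * n ≤ i → PQ μ ν {ω | AliveQ D i ω} ≤ ENNReal.ofReal (C / V (a n)) := by
  have hpμ := h.qi.probμ
  have hpν := h.qi.probν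
  have hP : IsProbabilityMeasure (PQ μ ν) := by
    unfold PQ seqLaw
    infer_instance
  have hK := h.K_ge
  have hx := h.x_ge
  obtain ⟨C₁, hC₁, hVV⟩ := h.VV_n
  obtain ⟨C₂, hC₂, hac⟩ := h.a_comp hδ
  refine ⟨(K + 4 * K ^ 2 * C₁) * (K * C₂), by positivity, ?_⟩
  intro n i hi hin hδi
  have hn : 1 ≤ n := hi.trans hin
  have hai : x₀ ≤ a i := h.a_ge i hi
  have ha0 : 0 < a i := by linarith
  have hi0 : (0 : ℝ) < i := by exact_mod_cast hi
  have hVi : 0 < V (a i) := lt_of_lt_of_le one_pos (h.V_one _)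
  have hVn : 0 < V (a n) := lt_of_lt_of_le one_pos (h.V_one _)
  have hV'i : 0 < V' (a i) := lt_of_lt_of_le one_pos (h.V'_one _)
  have h1 : PQ μ ν {ω | AliveQ D i ω ∧ a i ≤ Zw i ω} ≤ ENNReal.ofReal (K / V (a i)) := by
    refine le_trans (measure_mono ?_) (QW6c_le (h.harm i (a i) hai))
    rintro ω ⟨hω1, hω2⟩
    exact ⟨i, le_rfl, hω1, hω2⟩
  have h2 := QW6c_low h i hi
  have h3 : (a i + 1) * (K * V' (a i + x₀) / (i * a i)) ≤ 4 * K ^ 2 * C₁ / V (a i) := by
    have e1 : V' (a i + x₀) ≤ K * 2 * V' (a i) :=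
      (h.V'_mono (show a i + x₀ ≤ 2 * a i by linarith)).trans (h.V'_le (a i) 2 hai (by norm_num))
    have e2 : a i + 1 ≤ 2 * a i := by linarith
    calc (a i + 1) * (K * V' (a i + x₀) / (i * a i))
        ≤ (2 * a i) * (K * (K * 2 * V' (a i)) / (i * a i)) := by
          refine mul_le_mul e2 ?_ ?_ (by positivity)
          · exact div_le_div_of_nonneg_right (mul_le_mul_of_nonneg_left e1 (by linarith)) (by positivity)
          · have : 0 ≤ V' (a i + x₀) := zero_le_one.trans (h.V'_one _)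
            positivity
      _ = 4 * K ^ 2 * (V' (a i) / i) := by
          field_simp
          ring
      _ ≤ 4 * K ^ 2 * (C₁ / V (a i)) := by
          refine mul_le_mul_of_nonneg_left ?_ (by positivity)
          rw [div_le_div_iff₀ hi0 hVi]
          linarith [(hVV i hi).1]
      _ = 4 * K ^ 2 * C₁ / V (a i) := by ring
  have h4 : V (a n) ≤ K * C₂ * V (a i) :=
    (h.V_mono (hac i n hi hn hδi)).trans (h.V_le (a i) C₂ hai hC₂)
  have hsub : {ω | AliveQ D i ω} ⊆ {ω : ℕ → ℝ × ℝ | AliveQ D i ω ∧ a i ≤ Zw i ω} ∪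
      {ω | AliveQ D i ω ∧ Zw i ω ≤ a i} := by
    intro ω hω
    rcases le_total (a i) (Zw i ω) with h5 | h5
    · exact Or.inl ⟨hω, h5⟩
    · exact Or.inr ⟨hω, h5⟩
  calc PQ μ ν {ω | AliveQ D i ω}
      ≤ PQ μ ν {ω | AliveQ D i ω ∧ a i ≤ Zw i ω} + PQ μ ν {ω | AliveQ D i ω ∧ Zw i ω ≤ a i} :=
        (measure_mono hsub).trans (measure_union_le _ _)
    _ ≤ ENNReal.ofReal (K / V (a i)) + ENNReal.ofReal (4 * K ^ 2 * C₁ / V (a i)) :=
        add_le_add h1 (h2.trans (ENNReal.ofReal_le_ofReal h3))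
    _ = ENNReal.ofReal ((K + 4 * K ^ 2 * C₁) / V (a i)) := by
        rw [← ENNReal.ofReal_add (by positivity) (by positivity), ← add_div]
    _ ≤ ENNReal.ofReal ((K + 4 * K ^ 2 * C₁) * (K * C₂) / V (a n)) := by
        refine ENNReal.ofReal_le_ofReal ?_
        rw [div_le_div_iff₀ hVi hVn]
        have h5 : 0 ≤ K + 4 * K ^ 2 * C₁ := by positivity
        calc (K + 4 * K ^ 2 * C₁) * V (a n) ≤ (K + 4 * K ^ 2 * C₁) * (K * C₂ * V (a i)) :=
              mul_le_mul_of_nonneg_left h4 h5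
          _ = (K + 4 * K ^ 2 * C₁) * (K * C₂) * V (a i) := by ring

end Pool.Agent.BPT
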