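import Pool.Agent.MP_99a865_pr.ST.QE2
import Pool.Agent.MP_99a865_pr.ST.QW6c
import Pool.Agent.MP_99a865_pr.ST.QW14a

/-! **[STB-QE3a]** Few oscillations given `N = n`. -/

open MeasureTheory ProbabilityTheory Filter Topology
open scoped ENNReal NNReal

namespace Pool.Agent.BPT

variable {D : Set ℝ} {μ ν : Measure ℝ} {a : ℕ → ℝ} {L V V' : ℝ → ℝ} {p K x₀ : ℝ}

/-- PROOF. For `T < s` and `m ≥ 1` the event is empty. Otherwise `QS.win` with `b = s`, `w = T - s`, `A = univ`, `B = {CH (ε a n) m 0 w (Zw · η)}` (`CH_shift`, `CH_dep`, `CH_meas`): the probability is at most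
`K/(n - T) * P(alive at s) * P(B)`; `n - T ≥ δ n`, `P(alive at s) ≤ C/V(a n)` (`QS.surv` with `δ/2`, since `s ≥ δ n - 1 ≥ δ n/2`, `s ≥ 1` for `n` large), `P(B) ≤ θ'` (`QS.CH_free`), and `K C θ'/(δ n V(a n)) = (K C θ'/δ) bb n`. -/
theorem QS.CH_cond (h : QS D μ ν a L V V' p K x₀) {δ ε θ : ℝ} (hδ : 0 < δ) (hε : 0 < ε) (hθ : 0 < θ) :
    ∃ m n₀ : ℕ, ∀ n ≥ n₀, ∀ s T : ℕ, δ * n ≤ s + 1 → (T : ℝ) ≤ (1 - δ) * n →
      PQ μ ν (EvN D n ∩ {ω | CH (ε * a n) m s T (fun i => Zw i ω)}) ≤ ENNReal.ofReal (θ * bb V a n) := by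
  have hpμ := h.qi.probμ
  have hpν := h.qi.probν
  have hK : 0 < K := lt_of_lt_of_le one_pos h.K_ge
  obtain ⟨C, hC, hsurv⟩ := h.surv (half_pos hδ)
  obtain ⟨m₁, n₁, hfree⟩ := h.CH_free hε (show 0 < θ * δ / (K * C) by positivity)
  refine ⟨m₁ + 1, n₁ + ⌈2 / δ⌉₊ + 1, fun n hn s T hs hT => ?_⟩
  have hn0 : (0 : ℝ) < n := by exact_mod_cast (by omega : 0 < n)
  have h2 : 2 ≤ δ * n := by
    have h3 : 2 / δ ≤ n := (Nat.le_ceil _).trans (by exact_mod_cast (by omega : ⌈2 / δ⌉₊ ≤ n))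
    rwa [div_le_iff₀ hδ, mul_comm] at h3
  have hs1 : 1 ≤ s := by
    have : (1 : ℝ) ≤ s := by linarith
    exact_mod_cast this
  have hTn : T < n := by
    have : (T : ℝ) < n := by nlinarith
    exact_mod_cast this
  rcases lt_or_ge T s with hlt | hle
  · have h4 : EvN D n ∩ {ω | CH (ε * a n) (m₁ + 1) s T (fun i => Zw i ω)} = ∅ := by
      rw [Set.eq_empty_iff_forall_notMem]
      rintro ω ⟨_, i, j, h5, h6, h7, _⟩
      omega
    rw [h4, measure_empty]
    exact zero_le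
  · obtain ⟨w, rfl⟩ := Nat.exists_eq_add_of_le hle
    set B : Set (ℕ → ℝ × ℝ) := {η | CH (ε * a n) m₁ 0 w (fun i => Zw i η)} with hB
    have h5 := h.win n s w hTn Set.univ B MeasurableSet.univ (CH_meas _ _ _ _) (fun _ _ _ => Iff.rfl)
      (fun ω ω' hω => CH_dep hω)
    have h6 : EvN D n ∩ {ω | CH (ε * a n) (m₁ + 1) s (s + w) (fun i => Zw i ω)} ⊆
        EvN D n ∩ Set.univ ∩ {ω | shift s ω ∈ B} := by
      rintro ω ⟨h7, h8⟩
      refine ⟨⟨h7, Set.mem_univ _⟩, ?_⟩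
      have h9 := CH_mono (s' := s) (T' := s + w) h8 (Nat.le_succ m₁) le_rfl le_rfl
      exact CH_shift.1 (by simpa using h9)
    refine (measure_mono h6).trans (h5.trans ?_)
    have hcast : ((n - s - w : ℕ) : ℝ) = n - ((s : ℝ) + w) := by
      rw [Nat.sub_sub, Nat.cast_sub hTn.le]
      push_cast
      ring
    have hV : 0 < V (a n) := lt_of_lt_of_le one_pos (h.V_one _)
    have h7 : δ * n ≤ ((n - s - w : ℕ) : ℝ) := by
      rw [hcast]
      push_cast at hT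
      linarith
    have h8 : K / ((n - s - w : ℕ) : ℝ) ≤ K / (δ * n) := div_le_div_of_nonneg_left hK.le (by positivity) h7
    have h9 : PQ μ ν (Set.univ ∩ {ω | AliveQ D s ω}) ≤ ENNReal.ofReal (C / V (a n)) := by
      rw [Set.univ_inter]
      exact hsurv n s hs1 (by omega) (by linarith)
    have h10 : PQ μ ν B ≤ ENNReal.ofReal (θ * δ / (K * C)) := hfree n (by omega) w (by omega)
    calc ENNReal.ofReal (K / ((n - s - w : ℕ) : ℝ)) * (PQ μ ν (Set.univ ∩ {ω | AliveQ D s ω}) * PQ μ ν B)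
        ≤ ENNReal.ofReal (K / (δ * n)) * (ENNReal.ofReal (C / V (a n)) * ENNReal.ofReal (θ * δ / (K * C))) :=
          mul_le_mul' (ENNReal.ofReal_le_ofReal h8) (mul_le_mul' h9 h10)
      _ = ENNReal.ofReal (θ * bb V a n) := by
          rw [← ENNReal.ofReal_mul (by positivity), ← ENNReal.ofReal_mul (by positivity)]
          congr 1
          unfold bb
          field_simp

end Pool.Agent.BPT
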