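import Pool.Agent.MP_99a865_pr.ST.QW1

/-! **[STB-QW3a]** Boundaries at levels in `(y/2, y]`, first half of the time interval. -/

open MeasureTheory ProbabilityTheory Filter Topology
open scoped ENNReal NNReal

namespace Pool.Agent.BPT

variable {D : Set ℝ} {μ ν : Measure ℝ} {a : ℕ → ℝ} {L V V' : ℝ → ℝ} {p K x₀ : ℝ}

/-- exit formula with the indicator of an event which depends on the first `b` pairs -/
theorem QW3a_term (hD : Dom D) [IsProbabilityMeasure μ] [IsProbabilityMeasure ν] {n b : ℕ}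
    (A : Set (ℕ → ℝ × ℝ)) (hA : MeasurableSet A)
    (hdep : ∀ ω ω' : ℕ → ℝ × ℝ, (∀ j < b, ω j = ω' j) → (ω ∈ A ↔ ω' ∈ A)) (hbn : b < n) (c : ℝ)
    (hc : ∀ ω ∈ A, AliveQ D b ω → hit D (stepLaw μ ν 1) (n - b) (Zw b ω) ≤ c) :
    PQ μ ν (EvN D n ∩ A) ≤ ENNReal.ofReal c * PQ μ ν ({ω | AliveQ D b ω} ∩ A) := by
  have hH : Measurable (A.indicator fun _ => (1 : ℝ≥0∞)) := measurable_const.indicator hA
  have hd : ∀ ω ω' : ℕ → ℝ × ℝ, (∀ j < b, ω j = ω' j) →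
      A.indicator (fun _ => (1 : ℝ≥0∞)) ω = A.indicator (fun _ => (1 : ℝ≥0∞)) ω' := by
    intro ω ω' hω
    have h1 := hdep ω ω' hω
    by_cases h2 : ω ∈ A
    · rw [Set.indicator_of_mem h2, Set.indicator_of_mem (h1.1 h2)]
    · rw [Set.indicator_of_notMem h2, Set.indicator_of_notMem (fun h3 => h2 (h1.2 h3))]
  have key := q_exit (μ := μ) (ν := ν) hD b n hbn _ hH hd
  rw [lintegral_indicator_const hA, one_mul, Measure.restrict_apply hA, Set.inter_comm] at key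
  rw [key]
  have h2 : ∀ ω : ℕ → ℝ × ℝ, AliveQ D b ω →
      A.indicator (fun _ => (1 : ℝ≥0∞)) ω * ENNReal.ofReal (hit D (stepLaw μ ν 1) (n - b) (Zw b ω)) ≤
        A.indicator (fun _ => (1 : ℝ≥0∞)) ω * ENNReal.ofReal c := by
    intro ω hω
    by_cases h3 : ω ∈ A
    · exact mul_le_mul_right (ENNReal.ofReal_le_ofReal (hc ω h3 hω)) _
    · rw [Set.indicator_of_notMem h3, zero_mul, zero_mul]
  refine (setLIntegral_mono' (Q2_meas_alive hD b) fun ω hω => h2 ω hω).trans ?_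
  rw [lintegral_mul_const _ hH, lintegral_indicator_const hA, one_mul, Measure.restrict_apply hA,
    Set.inter_comm, mul_comm]

/-- PROOF. Let `b ≥ 1` (`Bd_pos`), `2b ≤ n`, `m = n - b`, so `m ≤ n ≤ 4m`. By `q_exit` (`r = b`, `H` the indicator of
`{Bd b, y/2 < Zw b ≤ y}`, which depends on the first `b` pairs: `Bd_dep`, `Q1_Zw_congr`) and `hit_V`, the term is at most
`K V y/(n V (a n)) · P(Bd b, AliveQ b, y/2 < Zw b ≤ y)` (`V_mono`). Sum over `b`: `bd_time` with `r = 0`, `H = 1` (`y ≥ 16`), `time_zero`,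
`green` and `V'_le`: `(64/y) GG (2y) ≤ (64/y) K V' (2y) ≤ 128 K² V' y/y`. -/
theorem QS.first_half (h : QS D μ ν a L V V' p K x₀) : ∃ C > (0 : ℝ), ∀ n : ℕ, 1 ≤ n → ∀ y : ℝ,
    2 * x₀ ≤ y → ∑ b ∈ (Finset.range n).filter (fun b => 2 * b ≤ n),
      PQ μ ν (EvN D n ∩ {ω | Bd D ω b ∧ y / 2 < Zw b ω ∧ Zw b ω ≤ y}) ≤
        ENNReal.ofReal (C * bb V a n * (V y * V' y / y)) := by
  have hD := h.dom
  have hp1 := h.qi.probμ
  have hp2 := h.qi.probν
  have hK := h.K_ge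
  have hx := h.x_ge
  refine ⟨128 * K ^ 3, by positivity, ?_⟩
  intro n hn y hy
  have hy0 : 0 < y := by linarith
  have hyx : x₀ ≤ y := by linarith
  have hn0 : (0 : ℝ) < n := by exact_mod_cast hn
  have hVa : 0 < V (a n) := lt_of_lt_of_le one_pos (h.V_one _)
  have hVy : 0 < V y := lt_of_lt_of_le one_pos (h.V_one _)
  have hV'y : 0 < V' y := lt_of_lt_of_le one_pos (h.V'_one _)
  have hAm : ∀ b, MeasurableSet {ω : ℕ → ℝ × ℝ | Bd D ω b ∧ y / 2 < Zw b ω ∧ Zw b ω ≤ y} := by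
    intro b
    exact (measurableSet_Bd hD b).inter (((measurable_Zw b) measurableSet_Ioi).inter
      ((measurable_Zw b) measurableSet_Iic))
  have hterm : ∀ b ∈ (Finset.range n).filter (fun b => 2 * b ≤ n),
      PQ μ ν (EvN D n ∩ {ω | Bd D ω b ∧ y / 2 < Zw b ω ∧ Zw b ω ≤ y}) ≤
        ENNReal.ofReal (K * V y / (n * V (a n))) *
          PQ μ ν {ω | 0 ≤ b ∧ Bd D ω b ∧ AliveQ D b ω ∧ y / 2 < Zw b ω ∧ Zw b ω ≤ y} := by
    intro b hb
    rw [Finset.mem_filter, Finset.mem_range] at hb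
    have h1 := QW3a_term (μ := μ) (ν := ν) hD (n := n) (b := b)
      {ω | Bd D ω b ∧ y / 2 < Zw b ω ∧ Zw b ω ≤ y} (hAm b) (fun ω ω' hω => by
        show (Bd D ω b ∧ y / 2 < Zw b ω ∧ Zw b ω ≤ y) ↔ (Bd D ω' b ∧ y / 2 < Zw b ω' ∧ Zw b ω' ≤ y)
        rw [Bd_dep b ω ω' hω, Q1_Zw_congr b hω]) hb.1 (K * V y / (n * V (a n))) (by
        intro ω hω hal
        have hz : 0 ≤ Zw b ω := Zw_nonneg hD hal
        have hbp := Bd_pos hω.1
        refine (h.hit_V n (n - b) (Zw b ω) (by omega) (by omega) (by omega) hz).trans ?_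
        have h3 : V (Zw b ω) ≤ V y := h.V_mono hω.2.2
        gcongr)
    refine h1.trans (mul_le_mul_right (measure_mono ?_) _)
    rintro ω ⟨h2, h3⟩
    exact ⟨Nat.zero_le _, h3.1, h2, h3.2⟩
  have hbt := bd_time (μ := μ) (ν := ν) hD h.qi 0 (fun _ => 1) measurable_const (fun _ _ _ => rfl) y
    (by linarith)
  have hms : ∀ b, MeasurableSet {ω : ℕ → ℝ × ℝ | 0 ≤ b ∧ Bd D ω b ∧ AliveQ D b ω ∧ y / 2 < Zw b ω ∧
      Zw b ω ≤ y} := by
    intro b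
    exact (MeasurableSet.const _).inter ((measurableSet_Bd hD b).inter ((Q2_meas_alive hD b).inter
      (((measurable_Zw b) measurableSet_Ioi).inter ((measurable_Zw b) measurableSet_Iic))))
  have e1 : ∀ b, ∫⁻ ω in {ω : ℕ → ℝ × ℝ | 0 ≤ b ∧ Bd D ω b ∧ AliveQ D b ω ∧ y / 2 < Zw b ω ∧
      Zw b ω ≤ y}, (1 : ℝ≥0∞) ∂(PQ μ ν) =
      PQ μ ν {ω | 0 ≤ b ∧ Bd D ω b ∧ AliveQ D b ω ∧ y / 2 < Zw b ω ∧ Zw b ω ≤ y} := by
    intro b
    rw [lintegral_const, one_mul, Measure.restrict_apply_univ]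
  have e2 : ∀ k, ∫⁻ ω in {ω : ℕ → ℝ × ℝ | 0 ≤ k ∧ AliveQ D k ω ∧ Zw k ω ≤ 2 * y}, (1 : ℝ≥0∞) ∂(PQ μ ν) =
      PQ μ ν {ω | AliveQ D k ω ∧ Zw k ω ≤ 2 * y} := by
    intro k
    rw [lintegral_const, one_mul, Measure.restrict_apply_univ]
    congr 1
    ext ω
    simp
  simp only [e1, e2] at hbt
  rw [time_zero hD (2 * y)] at hbt
  have hg : GG D (stepLaw μ ν 1) (2 * y) ≤ ENNReal.ofReal (K * (K * 2 * V' y)) := by
    refine (h.green (2 * y) (by linarith)).trans (ENNReal.ofReal_le_ofReal ?_)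
    have := h.V'_le y 2 hyx (by norm_num)
    gcongr
  calc ∑ b ∈ (Finset.range n).filter (fun b => 2 * b ≤ n),
        PQ μ ν (EvN D n ∩ {ω | Bd D ω b ∧ y / 2 < Zw b ω ∧ Zw b ω ≤ y})
      ≤ ∑ b ∈ (Finset.range n).filter (fun b => 2 * b ≤ n), ENNReal.ofReal (K * V y / (n * V (a n))) *
          PQ μ ν {ω | 0 ≤ b ∧ Bd D ω b ∧ AliveQ D b ω ∧ y / 2 < Zw b ω ∧ Zw b ω ≤ y} :=
        Finset.sum_le_sum hterm
    _ = ENNReal.ofReal (K * V y / (n * V (a n))) *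
          ∑ b ∈ (Finset.range n).filter (fun b => 2 * b ≤ n),
          PQ μ ν {ω | 0 ≤ b ∧ Bd D ω b ∧ AliveQ D b ω ∧ y / 2 < Zw b ω ∧ Zw b ω ≤ y} := by
        rw [Finset.mul_sum]
    _ ≤ ENNReal.ofReal (K * V y / (n * V (a n))) *
          (ENNReal.ofReal (64 / y) * ENNReal.ofReal (K * (K * 2 * V' y))) := by
        refine mul_le_mul_right ((ENNReal.sum_le_tsum _).trans (hbt.trans (mul_le_mul_right hg _))) _
    _ = ENNReal.ofReal (128 * K ^ 3 * bb V a n * (V y * V' y / y)) := by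
        rw [← ENNReal.ofReal_mul (by positivity), ← ENNReal.ofReal_mul (by positivity)]
        congr 1
        unfold bb
        field_simp
        ring

end Pool.Agent.BPT
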