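import Pool.Agent.MP_99a865_pr.ST.QE0
import Pool.Agent.MP_99a865_pr.ST.QW3a
import Pool.Agent.MP_99a865_pr.ST.QW6c
import Pool.Agent.MP_99a865_pr.ST.QW14a

/-! **[STB-QE3b]** Given `N = n` the walk stays away from zero in the bulk. -/

open MeasureTheory ProbabilityTheory Filter Topology
open scoped ENNReal NNReal

namespace Pool.Agent.BPT

variable {D : Set ℝ} {μ ν : Measure ℝ} {a : ℕ → ℝ} {L V V' : ℝ → ℝ} {p K x₀ : ℝ}

theorem QE3b_eta {q κ : ℝ} (hq : 0 < q) (hκ : 0 < κ) : ∃ η > (0 : ℝ), η ≤ 1 ∧ η ^ q ≤ κ := by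
  refine ⟨min 1 (κ ^ q⁻¹), lt_min one_pos (Real.rpow_pos_of_pos hκ _), min_le_left _ _, ?_⟩
  calc (min 1 (κ ^ q⁻¹)) ^ q ≤ (κ ^ q⁻¹) ^ q :=
        Real.rpow_le_rpow (le_min zero_le_one (Real.rpow_nonneg hκ.le _)) (min_le_right _ _) hq.le
    _ = κ := Real.rpow_inv_rpow hκ.le hq.ne'

/-- the first index of `s` at which the walk is below `y` -/
def QE3bA (s : Finset ℕ) (y : ℝ) (i : ℕ) : Set (ℕ → ℝ × ℝ) := {ω | Zw i ω < y ∧ ∀ j ∈ s, j < i → ¬ Zw j ω < y}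

theorem QE3b_measA (s : Finset ℕ) (y : ℝ) (i : ℕ) : MeasurableSet (QE3bA s y i) := by
  have h : QE3bA s y i = {ω | Zw i ω < y} ∩ ⋂ j : ℕ, ⋂ (_ : j ∈ s), ⋂ (_ : j < i), {ω | Zw j ω < y}ᶜ := by
    ext ω
    simp [QE3bA]
  rw [h]
  refine (measurableSet_lt (measurable_Zw i) measurable_const).inter ?_
  exact MeasurableSet.iInter fun j => MeasurableSet.iInter fun _ => MeasurableSet.iInter fun _ =>
    (measurableSet_lt (measurable_Zw j) measurable_const).compl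

theorem QE3b_depA (s : Finset ℕ) (y : ℝ) (i : ℕ) (ω ω' : ℕ → ℝ × ℝ) (h : ∀ j < i, ω j = ω' j) :
    ω ∈ QE3bA s y i ↔ ω' ∈ QE3bA s y i := by
  have h1 : ∀ j ≤ i, Zw j ω = Zw j ω' := fun j hj => Q1_Zw_congr j fun l hl => h l (by omega)
  unfold QE3bA
  simp only [Set.mem_ofPred_eq]
  rw [h1 i le_rfl]
  refine and_congr_right fun _ => forall_congr' fun j => forall_congr' fun _ => ?_
  constructor
  · intro h2 h3
    rw [← h1 j h3.le]
    exact h2 h3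
  · intro h2 h3
    rw [h1 j h3.le]
    exact h2 h3

theorem QE3b_cover (s : Finset ℕ) (y : ℝ) {ω : ℕ → ℝ × ℝ} (h : ∃ i ∈ s, Zw i ω < y) : ∃ i ∈ s, ω ∈ QE3bA s y i := by
  classical
  have hne : (s.filter fun i => Zw i ω < y).Nonempty := by
    obtain ⟨i, hi, hi'⟩ := h
    exact ⟨i, Finset.mem_filter.2 ⟨hi, hi'⟩⟩
  refine ⟨(s.filter fun i => Zw i ω < y).min' hne, ?_, ?_⟩
  · exact (Finset.mem_filter.1 (Finset.min'_mem _ hne)).1
  · refine ⟨(Finset.mem_filter.1 (Finset.min'_mem _ hne)).2, ?_⟩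
    intro j hj hlt hj'
    exact absurd (Finset.min'_le _ j (Finset.mem_filter.2 ⟨hj, hj'⟩)) (not_le.2 hlt)

theorem QE3b_disj (s : Finset ℕ) (y : ℝ) (D : Set ℝ) : (s : Set ℕ).PairwiseDisjoint
    fun i => {ω : ℕ → ℝ × ℝ | AliveQ D i ω} ∩ QE3bA s y i := by
  intro i hi j hj hij
  rw [Function.onFun, Set.disjoint_left]
  rintro ω ⟨-, h1, h2⟩ ⟨-, h3, h4⟩
  rcases lt_or_gt_of_ne hij with h5 | h5
  · exact h4 i hi h5 h1
  · exact h2 j hj h5 h3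

/-- first entrance decomposition -/
theorem QE3b_sum (hD : Dom D) [IsProbabilityMeasure μ] [IsProbabilityMeasure ν] {n i₀ : ℕ} (s : Finset ℕ) (y c : ℝ)
    (hs : ∀ i ∈ s, i₀ ≤ i ∧ i < n)
    (hc : ∀ i ∈ s, ∀ ω : ℕ → ℝ × ℝ, Zw i ω < y → AliveQ D i ω → hit D (stepLaw μ ν 1) (n - i) (Zw i ω) ≤ c) :
    PQ μ ν (EvN D n ∩ {ω | ∃ i ∈ s, Zw i ω < y}) ≤ ENNReal.ofReal c * PQ μ ν {ω | AliveQ D i₀ ω} := by
  have h1 : EvN D n ∩ {ω | ∃ i ∈ s, Zw i ω < y} ⊆ ⋃ i ∈ s, (EvN D n ∩ QE3bA s y i) := by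
    rintro ω ⟨h2, h3⟩
    obtain ⟨i, hi, h4⟩ := QE3b_cover s y h3
    exact Set.mem_biUnion (Finset.mem_coe.2 hi) ⟨h2, h4⟩
  calc PQ μ ν (EvN D n ∩ {ω | ∃ i ∈ s, Zw i ω < y})
      ≤ ∑ i ∈ s, PQ μ ν (EvN D n ∩ QE3bA s y i) := (measure_mono h1).trans (measure_biUnion_finset_le _ _)
    _ ≤ ∑ i ∈ s, ENNReal.ofReal c * PQ μ ν ({ω | AliveQ D i ω} ∩ QE3bA s y i) := by
        refine Finset.sum_le_sum fun i hi => ?_
        exact QW3a_term hD _ (QE3b_measA s y i) (QE3b_depA s y i) (hs i hi).2 c fun ω hω hal => hc i hi ω hω.1 hal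
    _ = ENNReal.ofReal c * PQ μ ν (⋃ i ∈ s, ({ω | AliveQ D i ω} ∩ QE3bA s y i)) := by
        rw [← Finset.mul_sum, measure_biUnion_finset (QE3b_disj s y D)
          (fun i _ => (Q2_meas_alive hD i).inter (QE3b_measA s y i))]
    _ ≤ ENNReal.ofReal c * PQ μ ν {ω | AliveQ D i₀ ω} := by
        refine mul_le_mul_right (measure_mono ?_) _
        intro ω hω
        obtain ⟨i, hi, h2, -⟩ := Set.mem_iUnion₂.1 hω
        exact fun j hj1 hj2 => h2 j hj1 (hj2.trans (hs i hi).1)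

/-- PROOF. Decompose according to the first such `i`, `i ≥ i₀ = ⌈δ n - 1⌉₊ ≥ 1` (`n` large): `A_i = {Zw i < η a n, and not Zw j < η a n for i₀ ≤ j < i}` depends on the first `i` coordinates. `QW3a_term` with `b = i`:
`PQ (EvN D n ∩ A_i) ≤ ofReal c * PQ ({AliveQ D i} ∩ A_i)` where `c` bounds `hit D ρ (n - i) x` for `0 ≤ x < η a n`: with `m = n - i ≥ δ n` and `hit_V` (its `n` and `m` both equal to `m`), `V x ≤ V (η a n) ≤ K η^{p-1} V(a n)`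
(`V_ge` with `y = η a n ≥ x₀` for `n` large, `r = 1/η`), `V(a n) ≤ C V(a m)` (`QS.a_comp`, `V_mono`, `V_le`): `c = C' η^{p-1}/n`. The `A_i` are disjoint and `{AliveQ D i} ⊆ {AliveQ D i₀}`, so the sum is
`≤ ofReal c * PQ {AliveQ D i₀} ≤ C'' η^{p-1}/(n V(a n))` (`QS.surv` with `δ/2`). Take `η` small (`η ≤ 1`, `p > 1`). -/
theorem QS.low_bulk (h : QS D μ ν a L V V' p K x₀) {δ θ : ℝ} (hδ : 0 < δ) (hθ : 0 < θ) :
    ∃ η > (0 : ℝ), ∃ n₀ : ℕ, ∀ n ≥ n₀,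
      PQ μ ν (EvN D n ∩ {ω | ∃ i : ℕ, δ * n ≤ i + 1 ∧ (i : ℝ) ≤ (1 - δ) * n ∧ Zw i ω < η * a n}) ≤
        ENNReal.ofReal (θ * bb V a n) := by
  have hpμ := h.qi.probμ
  have hpν := h.qi.probν
  have hK := h.K_ge
  have hx := h.x_ge
  have hp := h.p_gt
  obtain ⟨C₁, hC₁, hac⟩ := h.a_comp hδ
  obtain ⟨C₂, hC₂, hsv⟩ := h.surv (half_pos hδ)
  have hK0 : 0 < K := by linarith
  have hC₁0 : 0 < C₁ := by linarith
  obtain ⟨η, hη, hη1, hηq⟩ := QE3b_eta (q := p - 1) (κ := θ * δ / (K ^ 3 * C₁ * C₂)) (by linarith) (by positivity)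
  obtain ⟨n₁, hn₁⟩ := eventually_atTop.1 ((h.a_top.const_mul_atTop hη).eventually_ge_atTop x₀)
  refine ⟨η, hη, max n₁ (⌈4 / δ⌉₊ + 1), ?_⟩
  intro n hn
  have hn1 : n₁ ≤ n := (le_max_left _ _).trans hn
  have hn2 : ⌈4 / δ⌉₊ + 1 ≤ n := (le_max_right _ _).trans hn
  have hnpos : 1 ≤ n := by omega
  have hn0 : (0 : ℝ) < n := by exact_mod_cast hnpos
  have hδn : 4 ≤ δ * n := by
    have h1 : 4 / δ ≤ ⌈4 / δ⌉₊ := Nat.le_ceil _
    have h2 : ((⌈4 / δ⌉₊ : ℕ) : ℝ) ≤ n := by exact_mod_cast (by omega : ⌈4 / δ⌉₊ ≤ n)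
    have h3 := h1.trans h2
    rw [div_le_iff₀ hδ] at h3
    linarith
  have hy : x₀ ≤ η * a n := hn₁ n hn1
  obtain ⟨i₀, hi₀⟩ : ∃ i₀, i₀ = ⌈δ * n - 1⌉₊ := ⟨_, rfl⟩
  have hi₀1 : δ * n - 1 ≤ i₀ := by
    rw [hi₀]
    exact Nat.le_ceil _
  have hi₀2 : 1 ≤ i₀ := by
    have : (1 : ℝ) ≤ i₀ := by linarith
    exact_mod_cast this
  classical
  set s : Finset ℕ := (Finset.range n).filter fun i => i₀ ≤ i ∧ (i : ℝ) ≤ (1 - δ) * n with hs
  have hss : EvN D n ∩ {ω | ∃ i : ℕ, δ * n ≤ i + 1 ∧ (i : ℝ) ≤ (1 - δ) * n ∧ Zw i ω < η * a n} ⊆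
      EvN D n ∩ {ω | ∃ i ∈ s, Zw i ω < η * a n} := by
    rintro ω ⟨h1, i, h2, h3, h4⟩
    refine ⟨h1, i, ?_, h4⟩
    rw [hs, Finset.mem_filter, Finset.mem_range]
    refine ⟨?_, ?_, h3⟩
    · have h5 : (i : ℝ) < n := by nlinarith
      exact_mod_cast h5
    · rw [hi₀]
      exact Nat.ceil_le.2 (by linarith)
  have hsm : ∀ i ∈ s, i₀ ≤ i ∧ i < n := by
    intro i hi
    rw [hs, Finset.mem_filter, Finset.mem_range] at hi
    exact ⟨hi.2.1, hi.1⟩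
  have hVn : 0 < V (a n) := lt_of_lt_of_le one_pos (h.V_one _)
  -- the bound of the hitting probabilities
  have hVy : V (η * a n) ≤ K * η ^ (p - 1) * V (a n) := by
    have h1 := h.V_ge (η * a n) η⁻¹ hy (one_le_inv_iff₀.2 ⟨hη, hη1⟩)
    rw [inv_mul_cancel_left₀ hη.ne', Real.inv_rpow hη.le] at h1
    have h2 : 0 < η ^ (p - 1) := Real.rpow_pos_of_pos hη _
    rw [inv_mul_le_iff₀ h2] at h1
    linarith
  set c : ℝ := K ^ 3 * C₁ * η ^ (p - 1) / (δ * n) with hcdef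
  have hηp : 0 < η ^ (p - 1) := Real.rpow_pos_of_pos hη _
  have hc : ∀ i ∈ s, ∀ ω : ℕ → ℝ × ℝ, Zw i ω < η * a n → AliveQ D i ω →
      hit D (stepLaw μ ν 1) (n - i) (Zw i ω) ≤ c := by
    intro i hi ω hω hal
    have hi1 := hsm i hi
    have hi2 : (i : ℝ) ≤ (1 - δ) * n := by
      rw [hs, Finset.mem_filter] at hi
      exact hi.2.2
    have hZ : 0 ≤ Zw i ω := h.dom.nonneg (hal i (hi₀2.trans hi1.1) le_rfl)
    obtain ⟨m, hm⟩ : ∃ m, m = n - i := ⟨_, rfl⟩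
    rw [← hm]
    have hm1 : 1 ≤ m := by omega
    have hmr : (m : ℝ) = n - i := by
      rw [hm, Nat.cast_sub hi1.2.le]
    have hmδ : δ * n ≤ m := by
      rw [hmr]
      linarith
    have hm0 : (0 : ℝ) < m := by exact_mod_cast hm1
    have h1 := h.hit_V m m (Zw i ω) hm1 le_rfl (by omega) hZ
    have ham := h.a_ge m hm1
    have hVm : 0 < V (a m) := lt_of_lt_of_le one_pos (h.V_one _)
    have h2 : V (a n) ≤ K * C₁ * V (a m) := (h.V_mono (hac m n hm1 hnpos hmδ)).trans (h.V_le (a m) C₁ ham hC₁)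
    have h3 : V (Zw i ω) ≤ K * η ^ (p - 1) * (K * C₁ * V (a m)) :=
      (h.V_mono hω.le).trans (hVy.trans (mul_le_mul_of_nonneg_left h2 (by positivity)))
    calc hit D (stepLaw μ ν 1) m (Zw i ω) ≤ K * V (Zw i ω) / (m * V (a m)) := h1
      _ ≤ K * (K * η ^ (p - 1) * (K * C₁ * V (a m))) / (m * V (a m)) := by
          refine div_le_div_of_nonneg_right (mul_le_mul_of_nonneg_left h3 hK0.le) (by positivity)
      _ = K ^ 3 * C₁ * η ^ (p - 1) / m := by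
          field_simp
      _ ≤ c := by
          rw [hcdef]
          exact div_le_div_of_nonneg_left (by positivity) (by linarith) hmδ
  have hfin := QE3b_sum (n := n) (i₀ := i₀) h.dom s (η * a n) c hsm hc
  refine (measure_mono hss).trans ?_
  rcases s.eq_empty_or_nonempty with he | ⟨i, hi⟩
  · rw [he]
    simp
  · refine hfin.trans ?_
    have hin : i₀ ≤ n := (hsm i hi).1.trans (hsm i hi).2.le
    have h5 := hsv n i₀ hi₀2 hin (by linarith)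
    have hc0 : 0 ≤ c := by positivity
    calc ENNReal.ofReal c * PQ μ ν {ω | AliveQ D i₀ ω} ≤ ENNReal.ofReal c * ENNReal.ofReal (C₂ / V (a n)) :=
          mul_le_mul_right h5 _
      _ = ENNReal.ofReal (c * (C₂ / V (a n))) := (ENNReal.ofReal_mul hc0).symm
      _ ≤ ENNReal.ofReal (θ * bb V a n) := by
          refine ENNReal.ofReal_le_ofReal ?_
          have h6 : η ^ (p - 1) * (K ^ 3 * C₁ * C₂) ≤ θ * δ := by
            rwa [le_div_iff₀ (by positivity)] at hηq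
          unfold bb
          rw [hcdef, div_mul_div_comm, mul_one_div, div_le_div_iff₀ (by positivity) (by positivity)]
          calc K ^ 3 * C₁ * η ^ (p - 1) * C₂ * (n * V (a n)) = (η ^ (p - 1) * (K ^ 3 * C₁ * C₂)) * (n * V (a n)) := by ring
            _ ≤ (θ * δ) * (n * V (a n)) := mul_le_mul_of_nonneg_right h6 (by positivity)
            _ = θ * (δ * n * V (a n)) := by ring

end Pool.Agent.BPT
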