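import Pool.Agent.MP_99a865_pr.ST.QW1
import Pool.Agent.MP_99a865_pr.ST.QW19
import Pool.Agent.MP_99a865_pr.ST.QW20a

/-! **[STB-QW20b]** Steering the free walk: from any macroscopic level to any other one with probability bounded below. -/

open MeasureTheory ProbabilityTheory Filter Topology
open scoped ENNReal NNReal

namespace Pool.Agent.BPT

variable {D : Set ℝ} {μ ν : Measure ℝ} {a : ℕ → ℝ} {L V V' : ℝ → ℝ} {p K x₀ : ℝ}

/-- One window: stay. PROOF. `c₀` from `QP.pos`, `κ` from `dev` with `θ = c₀/2`, `c = c₀/2`. If `z ≥ y a n`: on `{Zw T ≤ 0} \ {∃ j ≤ T, ε a n < |Zw j|}` we have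
`(y-ε) a n ≤ z - ε a n ≤ z + Zw T ≤ z ≤ (y+ε) a n` and `|z + Zw j - y a n| ≤ 2ε a n`. If `z ≤ y a n`: `{0 ≤ Zw T}`. -/
theorem QS.stay_one (h : QS D μ ν a L V V' p K x₀) (hp : QP D μ ν a) {ε : ℝ} (hε : 0 < ε) :
    ∃ c > (0 : ℝ), ∃ κ > (0 : ℝ), ∃ n₀ : ℕ, ∀ n ≥ n₀, ∀ T : ℕ, (T : ℝ) ≤ κ * n → ∀ y z : ℝ,
      (y - ε) * a n ≤ z → z ≤ (y + ε) * a n → ENNReal.ofReal c ≤
        BN μ ν ((y - 2 * ε) * a n) ((y + 2 * ε) * a n) T z ((y - ε) * a n) ((y + ε) * a n) := by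
  have hpμ := h.qi.probμ
  have hpν := h.qi.probν
  have ha0 : ∀ n : ℕ, 1 ≤ n → 0 ≤ a n := fun n hn => by linarith [h.a_ge n hn, h.x_ge]
  obtain ⟨c₀, hc₀, hpos⟩ := QP.pos h.qi ha0 hp
  obtain ⟨κ, hκ, n₀, hdev⟩ := h.dev hε (c₀ / 2) (by positivity)
  refine ⟨c₀ / 2, by positivity, κ, hκ, max n₀ 1, fun n hn T hT y z hz1 hz2 => ?_⟩
  have hn0 : n₀ ≤ n := (le_max_left _ _).trans hn
  have hn1 : 1 ≤ n := (le_max_right _ _).trans hn
  have han : 0 ≤ a n := ha0 n hn1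
  have hB := hdev n hn0 T hT
  set B : Set (ℕ → ℝ × ℝ) := {ω | ∃ j ≤ T, ε * a n < |Zw j ω|} with hBdef
  have key : ∀ A : Set (ℕ → ℝ × ℝ), ENNReal.ofReal c₀ ≤ PQ μ ν A →
      (A \ B ⊆ {ω | (∀ j ≤ T, (y - 2 * ε) * a n ≤ z + Zw j ω ∧ z + Zw j ω ≤ (y + 2 * ε) * a n) ∧
        (y - ε) * a n ≤ z + Zw T ω ∧ z + Zw T ω ≤ (y + ε) * a n}) →
      ENNReal.ofReal (c₀ / 2) ≤ BN μ ν ((y - 2 * ε) * a n) ((y + 2 * ε) * a n) T z ((y - ε) * a n) ((y + ε) * a n) := by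
    intro A hA hsub
    have h1 : PQ μ ν A ≤ PQ μ ν (A ∩ B) + PQ μ ν (A \ B) := measure_le_inter_add_diff _ _ _
    have h2 : PQ μ ν (A ∩ B) ≤ ENNReal.ofReal (c₀ / 2) := (measure_mono Set.inter_subset_right).trans hB
    have h3 : ENNReal.ofReal (c₀ / 2) + ENNReal.ofReal (c₀ / 2) ≤ ENNReal.ofReal (c₀ / 2) + PQ μ ν (A \ B) := by
      rw [← ENNReal.ofReal_add (by positivity) (by positivity), add_halves]
      exact (hA.trans h1).trans (add_le_add h2 le_rfl)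
    have h4 : ENNReal.ofReal (c₀ / 2) ≤ PQ μ ν (A \ B) := (ENNReal.add_le_add_iff_left ENNReal.ofReal_ne_top).1 h3
    exact h4.trans (measure_mono hsub)
  have hB' : ∀ ω ∉ B, ∀ j ≤ T, -(ε * a n) ≤ Zw j ω ∧ Zw j ω ≤ ε * a n := by
    intro ω hω j hj
    have : ¬ ε * a n < |Zw j ω| := fun hlt => hω ⟨j, hj, hlt⟩
    exact abs_le.1 (not_lt.1 this)
  rcases le_total (y * a n) z with hz | hz
  · refine key _ (hpos T).2 ?_
    rintro ω ⟨hω1, hω2⟩
    have hω1 : Zw T ω ≤ 0 := hω1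
    have h5 := hB' ω hω2
    refine ⟨fun j hj => ?_, ?_, ?_⟩
    · have := h5 j hj
      constructor <;> nlinarith
    · have := h5 T le_rfl
      nlinarith
    · nlinarith
  · refine key _ (hpos T).1 ?_
    rintro ω ⟨hω1, hω2⟩
    have hω1 : 0 ≤ Zw T ω := hω1
    have h5 := hB' ω hω2
    refine ⟨fun j hj => ?_, ?_, ?_⟩
    · have := h5 j hj
      constructor <;> nlinarith
    · nlinarith
    · have := h5 T le_rfl
      nlinarith


/-- A long time. PROOF. `w = ⌊κ n⌋₊ ≥ 1` (`n` large, `w ≥ κ n/2`); cut `T ≤ n` into `J ≤ 2/κ + 1` windows of length `w` and a remainder (`BN_chain`, induction on the number of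
windows; a window of length `≤ κ n`): the constant is `c^{J+1}` with `J = ⌈2/κ⌉ + 1` (`c ≤ 1` as `BN ≤ 1`). -/
theorem QS.stay (h : QS D μ ν a L V V' p K x₀) (hp : QP D μ ν a) {ε : ℝ} (hε : 0 < ε) :
    ∃ c > (0 : ℝ), ∃ n₀ : ℕ, ∀ n ≥ n₀, ∀ T : ℕ, T ≤ n → ∀ y z : ℝ,
      (y - ε) * a n ≤ z → z ≤ (y + ε) * a n → ENNReal.ofReal c ≤
        BN μ ν ((y - 2 * ε) * a n) ((y + 2 * ε) * a n) T z ((y - ε) * a n) ((y + ε) * a n) := by
  have hpμ := h.qi.probμ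
  have hpν := h.qi.probν
  obtain ⟨c, hc, κ, hκ, n₀, hone⟩ := h.stay_one hp hε
  set c₁ : ℝ := min c 1 with hc₁
  have hc₁0 : 0 < c₁ := lt_min hc one_pos
  have hc₁1 : c₁ ≤ 1 := min_le_right _ _
  set J₀ : ℕ := ⌈2 / κ⌉₊ with hJ₀
  refine ⟨c₁ ^ (J₀ + 1), by positivity, max n₀ (⌈2 / κ⌉₊ + 1), fun n hn T hT y z hz1 hz2 => ?_⟩
  have hn0 : n₀ ≤ n := (le_max_left _ _).trans hn
  have hn1 : 2 / κ ≤ (n : ℝ) := by
    have h1 : (⌈2 / κ⌉₊ + 1 : ℕ) ≤ n := (le_max_right _ _).trans hn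
    have h2 : (⌈2 / κ⌉₊ : ℝ) ≤ n := by exact_mod_cast (Nat.le_succ _).trans h1
    exact (Nat.le_ceil _).trans h2
  have hκn : 2 ≤ κ * n := by
    rw [div_le_iff₀ hκ] at hn1
    linarith
  set w : ℕ := ⌊κ * n⌋₊ with hw
  have hwle : (w : ℝ) ≤ κ * n := Nat.floor_le (by linarith)
  have hwge : κ * n / 2 ≤ w := by
    have := Nat.lt_floor_add_one (κ * n)
    rw [← hw] at this
    linarith
  have hw1 : 1 ≤ w := by
    have : (1 : ℝ) ≤ w := by linarith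
    exact_mod_cast this
  have hone' : ∀ T : ℕ, (T : ℝ) ≤ κ * n → ∀ z : ℝ, (y - ε) * a n ≤ z → z ≤ (y + ε) * a n →
      ENNReal.ofReal c₁ ≤ BN μ ν ((y - 2 * ε) * a n) ((y + 2 * ε) * a n) T z ((y - ε) * a n) ((y + ε) * a n) :=
    fun T hT z h1 h2 => (ENNReal.ofReal_le_ofReal (min_le_left _ _)).trans (hone n hn0 T hT y z h1 h2)
  have hchain : ∀ J : ℕ, ∀ z : ℝ, (y - ε) * a n ≤ z → z ≤ (y + ε) * a n →
      ENNReal.ofReal c₁ ^ (J + 1) ≤ BN μ ν ((y - 2 * ε) * a n) ((y + 2 * ε) * a n) (T % w + J * w) z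
        ((y - ε) * a n) ((y + ε) * a n) := by
    intro J
    induction J with
    | zero =>
      intro z h1 h2
      simp only [zero_add, pow_one, zero_mul, add_zero]
      refine hone' _ ?_ z h1 h2
      have : (T % w : ℕ) ≤ w := (Nat.mod_lt _ hw1).le
      exact (by exact_mod_cast this : ((T % w : ℕ) : ℝ) ≤ w).trans hwle
    | succ J ih =>
      intro z h1 h2
      have h3 := BN_chain (μ := μ) (ν := ν) (T % w + J * w) w _ _ z _ _ _ _ _ _ (ih z h1 h2)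
        (fun z' h1' h2' => hone' w hwle z' h1' h2')
      have e1 : T % w + J * w + w = T % w + (J + 1) * w := by ring
      rw [e1] at h3
      rw [pow_succ]
      exact h3
  have h4 := hchain (T / w) z hz1 hz2
  have e2 : T % w + T / w * w = T := by
    rw [mul_comm]
    exact Nat.mod_add_div T w
  rw [e2] at h4
  refine le_trans ?_ h4
  rw [ENNReal.ofReal_pow hc₁0.le]
  have h5 : ENNReal.ofReal c₁ ≤ 1 := by
    rw [← ENNReal.ofReal_one]
    exact ENNReal.ofReal_le_ofReal hc₁1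
  refine pow_le_pow_right_of_le_one' h5 ?_
  have h6 : T / w ≤ J₀ := by
    have h7 : ((T / w : ℕ) : ℝ) ≤ 2 / κ := by
      have h8 : ((T / w : ℕ) : ℝ) * w ≤ T := by exact_mod_cast Nat.div_mul_le_self T w
      have h9 : (T : ℝ) ≤ n := by exact_mod_cast hT
      rw [le_div_iff₀ hκ]
      by_contra hcon
      push Not at hcon
      have hnpos : (0 : ℝ) < n := by
        rcases Nat.eq_zero_or_pos n with h0 | h0
        · exfalso
          rw [h0] at hκn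
          simp at hκn
          linarith
        · exact_mod_cast h0
      have h10 : ((T / w : ℕ) : ℝ) * (κ * n / 2) ≤ ((T / w : ℕ) : ℝ) * w :=
        mul_le_mul_of_nonneg_left hwge (Nat.cast_nonneg _)
      have h11 : 2 * (n : ℝ) < ((T / w : ℕ) : ℝ) * κ * n := mul_lt_mul_of_pos_right hcon hnpos
      linarith
    exact_mod_cast h7.trans (Nat.le_ceil _)
  omega


end Pool.Agent.BPT
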