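import Pool.Agent.MP_99a865_pr.ST.QW1
import Pool.Agent.MP_99a865_pr.ST.QW19
import Pool.Agent.MP_99a865_pr.ST.QW20a
import Pool.Agent.MP_99a865_pr.ST.QW20b

/-! **[STB-QW20c]** Steering the free walk: from any macroscopic level to any other one with probability bounded below. -/

open MeasureTheory ProbabilityTheory Filter Topology
open scoped ENNReal NNReal

namespace Pool.Agent.BPT

variable {D : Set ℝ} {μ ν : Measure ℝ} {a : ℕ → ℝ} {L V V' : ℝ → ℝ} {p K x₀ : ℝ}

/-- One window: move by at least `e κ^{1/p} a_n` and at most `ε a_n`. PROOF. `c₀`, `e₀` from `mov`, `κ₀ ≤ 1` from `dev` with `θ = c₀/2`; `w = ⌊κ n⌋₊ ≥ κ n/2`, `w ≤ n`. By `a_comp2`,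
`a n ≤ C (2/κ)^{1/p} a w`, so `e₀ a w ≥ e κ^{1/p} a n` with `e = e₀/(2 C)`. -/
theorem QS.move_one (h : QS D μ ν a L V V' p K x₀) (hp : QP D μ ν a) {ε : ℝ} (hε : 0 < ε) :
    ∃ c > (0 : ℝ), ∃ e > (0 : ℝ), ∃ κ₀ > (0 : ℝ), ∀ κ : ℝ, 0 < κ → κ ≤ κ₀ → ∃ n₀ : ℕ, ∀ n ≥ n₀,
      ENNReal.ofReal c ≤ PQ μ ν {ω | (∀ j ≤ ⌊κ * n⌋₊, |Zw j ω| ≤ ε * a n) ∧
        e * κ ^ (1 / p) * a n ≤ Zw ⌊κ * n⌋₊ ω} ∧
      ENNReal.ofReal c ≤ PQ μ ν {ω | (∀ j ≤ ⌊κ * n⌋₊, |Zw j ω| ≤ ε * a n) ∧
        Zw ⌊κ * n⌋₊ ω ≤ -(e * κ ^ (1 / p) * a n)} := by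
  have hPμ := h.qi.probμ
  have hPν := h.qi.probν
  have hPQ : IsProbabilityMeasure (PQ μ ν) := by
    unfold PQ seqLaw
    infer_instance
  obtain ⟨c₀, hc₀, e₀, he₀, hmov⟩ := hp.mov
  obtain ⟨w₀, hw₀⟩ := eventually_atTop.1 hmov
  obtain ⟨κ₀, hκ₀, n₁, hdev⟩ := h.dev hε (c₀ / 2) (half_pos hc₀)
  obtain ⟨C, hC, hcomp⟩ := h.a_comp2
  have hp0 : 0 < p := by linarith [h.p_gt]
  have hpi : 0 < 1 / p := by positivity
  have hpi1 : 1 / p ≤ 1 := by
    rw [div_le_one hp0]
    linarith [h.p_gt]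
  refine ⟨c₀ / 2, half_pos hc₀, e₀ / (2 * C), by positivity, min κ₀ 1, lt_min hκ₀ one_pos, fun κ hκ hκ1 => ?_⟩
  refine ⟨max n₁ ⌈2 * (w₀ + 2) / κ⌉₊, fun n hn => ?_⟩
  have hn1 : n₁ ≤ n := le_trans (le_max_left _ _) hn
  have hn2 : 2 * (w₀ + 2) / κ ≤ n := (Nat.le_ceil _).trans (by exact_mod_cast le_trans (le_max_right _ _) hn)
  have hn3 : 2 * ((w₀ : ℝ) + 2) ≤ κ * n := by
    rw [div_le_iff₀ hκ] at hn2
    linarith
  have hw₀0 : (0 : ℝ) ≤ w₀ := Nat.cast_nonneg _
  have hκn : 0 < κ * n := by linarith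
  have hnR : (0 : ℝ) < n := by
    by_contra hcon
    have : κ * n ≤ 0 := mul_nonpos_of_nonneg_of_nonpos hκ.le (not_lt.1 hcon)
    linarith
  have hn0 : 1 ≤ n := by exact_mod_cast hnR
  set w : ℕ := ⌊κ * n⌋₊ with hw
  have hwle : (w : ℝ) ≤ κ * n := Nat.floor_le hκn.le
  have hwge : κ * n / 2 ≤ w := by
    have := Nat.lt_floor_add_one (κ * (n : ℝ))
    rw [← hw] at this
    linarith
  have hww₀ : w₀ ≤ w := by
    have : (w₀ : ℝ) ≤ w := by linarith
    exact_mod_cast this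
  have hw1 : 1 ≤ w := by
    have : (1 : ℝ) ≤ w := by linarith
    exact_mod_cast this
  have hwn : w ≤ n := by
    have h1 : κ ≤ 1 := hκ1.trans (min_le_right _ _)
    have : (w : ℝ) ≤ n := hwle.trans (mul_le_of_le_one_left hnR.le h1)
    exact_mod_cast this
  have haw : 0 < a w := lt_of_lt_of_le (by linarith [h.x_ge]) (h.a_ge w hw1)
  have han : 0 < a n := lt_of_lt_of_le (by linarith [h.x_ge]) (h.a_ge n hn0)
  have hwR : (0 : ℝ) < w := by exact_mod_cast hw1
  -- comparison of the scales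
  have hcmp : e₀ / (2 * C) * κ ^ (1 / p) * a n ≤ e₀ * a w := by
    have h1 := hcomp w n hw1 hwn
    have h2 : ((n : ℝ) / w) ^ (1 / p) ≤ (2 / κ) ^ (1 / p) := by
      refine Real.rpow_le_rpow (by positivity) ?_ hpi.le
      rw [div_le_div_iff₀ hwR hκ]
      linarith
    have h3 : (2 / κ : ℝ) ^ (1 / p) = 2 ^ (1 / p) / κ ^ (1 / p) := Real.div_rpow (by norm_num) hκ.le _
    have h4 : (2 : ℝ) ^ (1 / p) ≤ 2 := by
      calc (2 : ℝ) ^ (1 / p) ≤ 2 ^ (1 : ℝ) := Real.rpow_le_rpow_of_exponent_le (by norm_num) hpi1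
        _ = 2 := Real.rpow_one _
    have hκp : 0 < κ ^ (1 / p) := Real.rpow_pos_of_pos hκ _
    have h5 : a n ≤ C * (2 / κ ^ (1 / p)) * a w := by
      refine h1.trans (mul_le_mul_of_nonneg_right (mul_le_mul_of_nonneg_left ?_ (by linarith)) haw.le)
      rw [h3] at h2
      exact h2.trans (div_le_div_of_nonneg_right h4 hκp.le)
    calc e₀ / (2 * C) * κ ^ (1 / p) * a n ≤ e₀ / (2 * C) * κ ^ (1 / p) * (C * (2 / κ ^ (1 / p)) * a w) :=
          mul_le_mul_of_nonneg_left h5 (by positivity)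
      _ = e₀ * a w := by
          field_simp
  have hd := hdev n hn1 w (hwle.trans (mul_le_mul_of_nonneg_right (hκ1.trans (min_le_left _ _)) hnR.le))
  set Bd' : Set (ℕ → ℝ × ℝ) := {ω | ∃ j ≤ w, ε * a n < |Zw j ω|} with hBd'
  have key : ∀ A A' : Set (ℕ → ℝ × ℝ), c₀ ≤ (PQ μ ν).real A → A \ Bd' ⊆ A' →
      ENNReal.ofReal (c₀ / 2) ≤ PQ μ ν A' := by
    intro A A' h1 h2
    have h3 : ENNReal.ofReal c₀ ≤ PQ μ ν A := by
      rw [← ofReal_measureReal (μ := PQ μ ν) (s := A)]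
      exact ENNReal.ofReal_le_ofReal h1
    have h4 : ENNReal.ofReal (c₀ / 2) = ENNReal.ofReal c₀ - ENNReal.ofReal (c₀ / 2) := by
      rw [← ENNReal.ofReal_sub _ (by linarith)]
      congr 1
      ring
    rw [h4]
    exact (tsub_le_tsub h3 hd).trans (le_measure_sdiff.trans (measure_mono h2))
  obtain ⟨m1, m2⟩ := hw₀ w hww₀
  constructor
  · refine key _ _ m1 ?_
    rintro ω ⟨h1, h2⟩
    have h1' : e₀ * a w ≤ Zw w ω := h1
    refine ⟨fun j hj => ?_, hcmp.trans h1'⟩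
    by_contra hcon
    exact h2 ⟨j, hj, not_le.1 hcon⟩
  · refine key _ _ m2 ?_
    rintro ω ⟨h1, h2⟩
    have h1' : Zw w ω ≤ -(e₀ * a w) := h1
    refine ⟨fun j hj => ?_, h1'.trans (neg_le_neg hcmp)⟩
    by_contra hcon
    exact h2 ⟨j, hj, not_le.1 hcon⟩

/-- Steering. PROOF. Let `Δ = x₂ + y`, `e' = e κ^{1/p}`, `J = ⌈Δ/e'⌉₊`; since `J κ ≤ Δ κ^{1-1/p}/e + κ → 0` as `κ → 0` (`p > 1`), we may choose `κ ≤ min κ₀ κ_stay` with `J κ ≤ τ`. Let
`w = ⌊κ n⌋₊`, `lo = (min x₁ y - 2ε) a n`, `hi = (max x₂ y + 2ε) a n`. Claim, by induction on `j ≤ J`: if `(y - ε - j e') a n ≤ z ≤ (y + ε + j e') a n` and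
`min x₁ (y-ε) · a n ≤ z ≤ max x₂ (y+ε) · a n` then `c^j ≤ BN lo hi (j w) z ((y-ε) a n) ((y+ε) a n)` (`c` the smaller one of the constants of `stay_one`, `move_one`).
Step: if `|z - y a n| ≤ ε a n` use `stay_one` (`T = w`) and `BN_chain`; if `z < (y-ε) a n` use the upward move: `z' = z + Zw w` satisfies `z + e' a n ≤ z' ≤ z + ε a n ≤ y a n`,
and the walk stays in `[z - ε a n, z + ε a n]`, inside `[lo, hi]`; similarly downward. For `j = J`, every `z ∈ [x₁ a n, x₂ a n]` qualifies (`J e' ≥ x₂ + y`).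
The remaining time `T - J w ∈ [0, n]` (`J w ≤ J κ n ≤ τ n ≤ T`): `stay`. -/
theorem QS.steer (h : QS D μ ν a L V V' p K x₀) (hp : QP D μ ν a) {x₁ x₂ y ε τ : ℝ} (hε : 0 < ε)
    (hx : 4 * ε ≤ x₁) (hx2 : x₁ ≤ x₂) (hy : 4 * ε ≤ y) (hτ : 0 < τ) : ∃ c > (0 : ℝ), ∃ n₀ : ℕ,
    ∀ n ≥ n₀, ∀ T : ℕ, τ * n ≤ T → T ≤ n → ∀ z : ℝ, x₁ * a n ≤ z → z ≤ x₂ * a n →
      ENNReal.ofReal c ≤ BN μ ν ((min x₁ y - 2 * ε) * a n) ((max x₂ y + 2 * ε) * a n) T z
        ((y - ε) * a n) ((y + ε) * a n) := by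
  have hPμ := h.qi.probμ
  have hPν := h.qi.probν
  obtain ⟨c₁, hc₁, e, he, κ₁, hκ₁, hmove⟩ := h.move_one hp hε
  obtain ⟨c₂, hc₂, κ₂, hκ₂, n₂, hstay1⟩ := h.stay_one hp hε
  obtain ⟨c₃, hc₃, n₃, hstay⟩ := h.stay hp hε
  have hp0 : 0 < p := by linarith [h.p_gt]
  have hq : 0 < 1 - 1 / p := by
    have : 1 / p < 1 := by
      rw [div_lt_one hp0]
      exact h.p_gt
    linarith
  set Δ : ℝ := x₂ + y with hΔ
  have hΔ0 : 0 < Δ := by linarith
  -- the choice of `κ`
  obtain ⟨κ, hκ, hκa, hκb, hκc, hκd⟩ : ∃ κ > (0 : ℝ), κ ≤ κ₁ ∧ κ ≤ κ₂ ∧ κ ≤ τ / 2 ∧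
      Δ / e * κ ^ (1 - 1 / p) ≤ τ / 2 := by
    have hb : 0 < τ * e / (2 * Δ) := by positivity
    refine ⟨min (min κ₁ κ₂) (min (τ / 2) ((τ * e / (2 * Δ)) ^ (1 / (1 - 1 / p)))), by positivity,
      (min_le_left _ _).trans (min_le_left _ _), (min_le_left _ _).trans (min_le_right _ _),
      (min_le_right _ _).trans (min_le_left _ _), ?_⟩
    set κ := min (min κ₁ κ₂) (min (τ / 2) ((τ * e / (2 * Δ)) ^ (1 / (1 - 1 / p)))) with hκ
    have h0 : 0 < κ := by positivity
    have h1 : κ ≤ (τ * e / (2 * Δ)) ^ (1 / (1 - 1 / p)) := (min_le_right _ _).trans (min_le_right _ _)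
    have h2 : κ ^ (1 - 1 / p) ≤ τ * e / (2 * Δ) := by
      have h3 := Real.rpow_le_rpow h0.le h1 hq.le
      rwa [← Real.rpow_mul hb.le, one_div_mul_cancel hq.ne', Real.rpow_one] at h3
    calc Δ / e * κ ^ (1 - 1 / p) ≤ Δ / e * (τ * e / (2 * Δ)) := mul_le_mul_of_nonneg_left h2 (by positivity)
      _ = τ / 2 := by field_simp
  obtain ⟨n₁, hmv⟩ := hmove κ hκ hκa
  set e' : ℝ := e * κ ^ (1 / p) with he'
  have he'0 : 0 < e' := by positivity
  set J : ℕ := ⌈Δ / e'⌉₊ with hJ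
  have hJ1 : Δ ≤ J * e' := by
    have := Nat.le_ceil (Δ / e')
    rwa [div_le_iff₀ he'0] at this
  have hJκ : (J : ℝ) * κ ≤ τ := by
    have h1 : (J : ℝ) ≤ Δ / e' + 1 := (Nat.ceil_lt_add_one (by positivity)).le
    have h2 : (J : ℝ) * κ ≤ (Δ / e' + 1) * κ := mul_le_mul_of_nonneg_right h1 hκ.le
    have h3 : (Δ / e' + 1) * κ = Δ / e * κ ^ (1 - 1 / p) + κ := by
      rw [Real.rpow_sub hκ, Real.rpow_one, he']
      field_simp
    linarith
  set c : ℝ := min c₁ c₂ with hc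
  have hc0 : 0 < c := lt_min hc₁ hc₂
  refine ⟨c ^ J * c₃, by positivity, max (max n₁ n₂) (max n₃ 1), fun n hn T hT1 hT2 z hz1 hz2 => ?_⟩
  have hn1 : n₁ ≤ n := le_trans (le_trans (le_max_left _ _) (le_max_left _ _)) hn
  have hn2 : n₂ ≤ n := le_trans (le_trans (le_max_right _ _) (le_max_left _ _)) hn
  have hn3 : n₃ ≤ n := le_trans (le_trans (le_max_left _ _) (le_max_right _ _)) hn
  have hn0 : 1 ≤ n := le_trans (le_trans (le_max_right _ _) (le_max_right _ _)) hn
  have hnR : (0 : ℝ) < n := by exact_mod_cast hn0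
  have han : 0 < a n := lt_of_lt_of_le (by linarith [h.x_ge]) (h.a_ge n hn0)
  set w : ℕ := ⌊κ * n⌋₊ with hw
  have hwle : (w : ℝ) ≤ κ * n := Nat.floor_le (by positivity)
  set lo : ℝ := (min x₁ y - 2 * ε) * a n with hlo
  set hi : ℝ := (max x₂ y + 2 * ε) * a n with hhi
  have hm1 : min x₁ y - ε ≤ min x₁ (y - ε) := by
    refine le_min ?_ ?_
    · linarith [min_le_left x₁ y]
    · linarith [min_le_right x₁ y]
  have hm2 : max x₂ (y + ε) ≤ max x₂ y + ε := by
    refine max_le ?_ ?_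
    · linarith [le_max_left x₂ y]
    · linarith [le_max_right x₂ y]
  obtain ⟨mv1, mv2⟩ := hmv n hn1
  have claim : ∀ j : ℕ, ∀ z : ℝ, (y - ε - j * e') * a n ≤ z → z ≤ (y + ε + j * e') * a n →
      min x₁ (y - ε) * a n ≤ z → z ≤ max x₂ (y + ε) * a n →
      (ENNReal.ofReal c) ^ j ≤ BN μ ν lo hi (j * w) z ((y - ε) * a n) ((y + ε) * a n) := by
    intro j
    induction j with
    | zero =>
      intro z h1 h2 h3 h4
      rw [Nat.cast_zero, zero_mul, sub_zero] at h1
      rw [Nat.cast_zero, zero_mul, add_zero] at h2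
      have h5 : (min x₁ y - ε) * a n ≤ z := (mul_le_mul_of_nonneg_right hm1 han.le).trans h3
      have h6 : z ≤ (max x₂ y + ε) * a n := h4.trans (mul_le_mul_of_nonneg_right hm2 han.le)
      have hεa : 0 < ε * a n := by positivity
      rw [zero_mul, pow_zero, BN_zero (by rw [hlo]; linarith) (by rw [hhi]; linarith) h1 h2]
    | succ j ih =>
      intro z h1 h2 h3 h4
      have h5 : (min x₁ y - ε) * a n ≤ z := (mul_le_mul_of_nonneg_right hm1 han.le).trans h3
      have h6 : z ≤ (max x₂ y + ε) * a n := h4.trans (mul_le_mul_of_nonneg_right hm2 han.le)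
      have hεa : 0 < ε * a n := by positivity
      have hea : 0 < e' * a n := by positivity
      have hjea : 0 ≤ (j : ℝ) * e' * a n := by positivity
      have hmin1 : min x₁ (y - ε) * a n ≤ (y - ε) * a n := mul_le_mul_of_nonneg_right (min_le_right _ _) han.le
      have hmax1 : (y + ε) * a n ≤ max x₂ (y + ε) * a n := mul_le_mul_of_nonneg_right (le_max_right _ _) han.le
      have hlo1 : lo ≤ (y - 2 * ε) * a n := by
        rw [hlo]
        exact mul_le_mul_of_nonneg_right (by linarith [min_le_right x₁ y]) han.le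
      have hhi1 : (y + 2 * ε) * a n ≤ hi := by
        rw [hhi]
        exact mul_le_mul_of_nonneg_right (by linarith [le_max_right x₂ y]) han.le
      push_cast at h1 h2
      have hT : (j + 1) * w = w + j * w := by ring
      rw [hT, pow_succ']
      rcases lt_or_ge z ((y - ε) * a n) with h7 | h7
      · -- upwards
        refine BN_chain w (j * w) lo hi z (z + e' * a n) (z + ε * a n) _ _ _ _ ?_ ?_
        · refine (ENNReal.ofReal_le_ofReal (min_le_left _ _)).trans (mv1.trans (measure_mono ?_))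
          rintro ω ⟨g1, g2⟩
          refine ⟨fun i hi' => ?_, ?_, ?_⟩
          · have g3 := abs_le.1 (g1 i hi')
            constructor
            · rw [hlo]
              linarith [g3.1]
            · have : z + Zw i ω ≤ y * a n := by linarith [g3.2]
              linarith
          · show z + e' * a n ≤ z + Zw w ω
            linarith
          · have g3 := (abs_le.1 (g1 w le_rfl)).2
            show z + Zw w ω ≤ z + ε * a n
            linarith
        · intro z' hz'1 hz'2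
          refine ih z' ?_ ?_ ?_ ?_
          · linarith
          · linarith
          · linarith
          · linarith
      · rcases le_or_gt z ((y + ε) * a n) with h8 | h8
        · -- stay
          have h9 := hstay1 n hn2 w (hwle.trans (mul_le_mul_of_nonneg_right hκb hnR.le)) y z h7 h8
          refine BN_chain w (j * w) lo hi z ((y - ε) * a n) ((y + ε) * a n) _ _ _ _ ?_ ?_
          · exact (ENNReal.ofReal_le_ofReal (min_le_right _ _)).trans (h9.trans
              (BN_mono w z hlo1 hhi1 le_rfl le_rfl))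
          · intro z' hz'1 hz'2
            refine ih z' ?_ ?_ ?_ ?_
            · linarith
            · linarith
            · linarith
            · linarith
        · -- downwards
          refine BN_chain w (j * w) lo hi z (z - ε * a n) (z - e' * a n) _ _ _ _ ?_ ?_
          · refine (ENNReal.ofReal_le_ofReal (min_le_left _ _)).trans (mv2.trans (measure_mono ?_))
            rintro ω ⟨g1, g2⟩
            refine ⟨fun i hi' => ?_, ?_, ?_⟩
            · have g3 := abs_le.1 (g1 i hi')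
              constructor
              · have : y * a n ≤ z + Zw i ω := by linarith [g3.1]
                linarith
              · rw [hhi]
                linarith [g3.2]
            · have g3 := (abs_le.1 (g1 w le_rfl)).1
              show z - ε * a n ≤ z + Zw w ω
              linarith
            · show z + Zw w ω ≤ z - e' * a n
              linarith
          · intro z' hz'1 hz'2
            refine ih z' ?_ ?_ ?_ ?_
            · linarith
            · linarith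
            · linarith
            · linarith
  -- the conclusion
  have hJw : J * w ≤ T := by
    have h1 : ((J * w : ℕ) : ℝ) ≤ T := by
      push_cast
      calc (J : ℝ) * w ≤ J * (κ * n) := mul_le_mul_of_nonneg_left hwle (Nat.cast_nonneg _)
        _ = J * κ * n := by ring
        _ ≤ τ * n := mul_le_mul_of_nonneg_right hJκ hnR.le
        _ ≤ T := hT1
    exact_mod_cast h1
  obtain ⟨T', rfl⟩ := Nat.exists_eq_add_of_le hJw
  rw [ENNReal.ofReal_mul (by positivity), ENNReal.ofReal_pow hc0.le]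
  have hx1a : 0 < x₁ := by linarith
  refine BN_chain (J * w) T' lo hi z ((y - ε) * a n) ((y + ε) * a n) _ _ _ _ (claim J z ?_ ?_ ?_ ?_) ?_
  · have h1 : (y - ε - J * e') * a n ≤ x₁ * a n := mul_le_mul_of_nonneg_right (by linarith) han.le
    exact h1.trans hz1
  · have h1 : x₂ * a n ≤ (y + ε + J * e') * a n := mul_le_mul_of_nonneg_right (by linarith) han.le
    exact hz2.trans h1
  · exact (mul_le_mul_of_nonneg_right (min_le_left _ _) han.le).trans hz1
  · exact hz2.trans (mul_le_mul_of_nonneg_right (le_max_left _ _) han.le)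
  · intro z' h1 h2
    refine (hstay n hn3 T' (by omega) y z' h1 h2).trans (BN_mono T' z' ?_ ?_ le_rfl le_rfl)
    · rw [hlo]
      exact mul_le_mul_of_nonneg_right (by linarith [min_le_right x₁ y]) han.le
    · rw [hhi]
      exact mul_le_mul_of_nonneg_right (by linarith [le_max_right x₂ y]) han.le

end Pool.Agent.BPT
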