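import Pool.Agent.MP_99a865_pr.ST.QW6
import Pool.Agent.MP_99a865_pr.ST.QW20

/-! **[STB-QW21a]** Given `N = n`, the walk stays close to any given macroscopic level during the middle half of the time with
probability bounded below. -/

open MeasureTheory ProbabilityTheory Filter Topology
open scoped ENNReal NNReal

namespace Pool.Agent.BPT

variable {D : Set ℝ} {μ ν : Measure ℝ} {a : ℕ → ℝ} {L V V' : ℝ → ℝ} {p K x₀ : ℝ}

/-- PROOF. `lQ = atTop ⊓ 𝓟 {P(N=n) ≠ 0}`. -/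
theorem eventually_lQ {q : ℕ → Prop} : (∀ᶠ n in lQ D μ ν, q n) ↔
    ∃ n₀ : ℕ, ∀ n ≥ n₀, PQ μ ν (EvN D n) ≠ 0 → q n := by
  unfold lQ
  rw [eventually_inf_principal, eventually_atTop]
  rfl

/-- exit after time `i` from a level in `B` -/
theorem QW21a_exit (hD : Dom D) [IsProbabilityMeasure μ] [IsProbabilityMeasure ν] {i n : ℕ} (hin : i < n)
    {B : Set ℝ} (hB : MeasurableSet B) {c : ℝ}
    (hh : ∀ x, 0 ≤ x → x ∈ B → hit D (stepLaw μ ν 1) (n - i) x ≤ c) :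
    PQ μ ν (EvN D n ∩ {ω | Zw i ω ∈ B}) ≤
      ENNReal.ofReal c * PQ μ ν ({ω | AliveQ D i ω} ∩ {ω | Zw i ω ∈ B}) := by
  classical
  have hA : MeasurableSet {ω : ℕ → ℝ × ℝ | Zw i ω ∈ B} := (measurable_Zw i) hB
  have hAl := measurableSet_aliveQ hD i
  have h1 : PQ μ ν (EvN D n ∩ {ω | Zw i ω ∈ B}) =
      ∫⁻ ω in EvN D n, {ω : ℕ → ℝ × ℝ | Zw i ω ∈ B}.indicator (1 : (ℕ → ℝ × ℝ) → ℝ≥0∞) ω
        ∂(PQ μ ν) := by
    rw [lintegral_indicator_one hA, Measure.restrict_apply hA, Set.inter_comm]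
  rw [h1, q_exit hD i n hin _ (measurable_one.indicator hA) ?_]
  · have h2 : ENNReal.ofReal c * PQ μ ν ({ω | AliveQ D i ω} ∩ {ω | Zw i ω ∈ B}) =
        ∫⁻ ω in {ω | AliveQ D i ω}, ENNReal.ofReal c *
          {ω : ℕ → ℝ × ℝ | Zw i ω ∈ B}.indicator (1 : (ℕ → ℝ × ℝ) → ℝ≥0∞) ω ∂(PQ μ ν) := by
      rw [lintegral_const_mul _ (measurable_one.indicator hA), lintegral_indicator_one hA,
        Measure.restrict_apply hA, Set.inter_comm]
    rw [h2]
    refine setLIntegral_mono' hAl fun ω hω => ?_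
    by_cases hz : Zw i ω ∈ B
    · rw [Set.indicator_of_mem (show ω ∈ {ω : ℕ → ℝ × ℝ | Zw i ω ∈ B} from hz)]
      simp only [Pi.one_apply, one_mul, mul_one]
      exact ENNReal.ofReal_le_ofReal (hh _ (Zw_nonneg hD hω) hz)
    · rw [Set.indicator_of_notMem (show ω ∉ {ω : ℕ → ℝ × ℝ | Zw i ω ∈ B} from hz)]
      simp
  · intro ω ω' hw
    have h3 := Q1_Zw_congr i hw
    by_cases hz : Zw i ω ∈ B
    · rw [Set.indicator_of_mem (show ω ∈ {ω : ℕ → ℝ × ℝ | Zw i ω ∈ B} from hz),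
        Set.indicator_of_mem (show ω' ∈ {ω : ℕ → ℝ × ℝ | Zw i ω ∈ B} from by
          show Zw i ω' ∈ B
          rw [← h3]
          exact hz)]
      rfl
    · rw [Set.indicator_of_notMem (show ω ∉ {ω : ℕ → ℝ × ℝ | Zw i ω ∈ B} from hz),
        Set.indicator_of_notMem (show ω' ∉ {ω : ℕ → ℝ × ℝ | Zw i ω ∈ B} from by
          show Zw i ω' ∉ B
          rw [← h3]
          exact hz)]

/-- PROOF. Let `i = gg 8 n 1 = ⌊n/8⌋₊`, `n` large with `P(N = n) ≠ 0`, so `P(N = n) ≥ bb n/K` (`hit_ge`, `PQ_EvN_gen`). `tight` with `θ = 1/(4K)` gives `R`: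
`P(N = n, Zw i ≥ R a n) ≤ bb n/(4K)`. Near zero: `q_exit` (`r = i`), `hit_V` (`x < δ a n`, `V_mono`) and `surv`: `P(N = n, Zw i < δ a n) ≤ K V (δ a n)/(n V (a n)) · C/V (a n)`, and
`V (δ a n) ≤ K δ^{p-1} V (a n)` (`V_ge` with `y = δ a n ≥ x₀`, `r = 1/δ`), so it is `≤ C' δ^{p-1} bb n ≤ bb n/(4K)` for a suitable `δ`. Hence
`bb n/(2K) ≤ P(N = n, δ a n ≤ Zw i ≤ R a n) ≤ K/(n-i) · P(AliveQ i, δ a n ≤ Zw i ≤ R a n)` (`q_exit`, `hit_m`), `n - i ≥ n/2`. -/
theorem QS.start (h : QS D μ ν a L V V' p K x₀) : ∃ c > (0 : ℝ), ∃ δ > (0 : ℝ), ∃ R : ℝ, δ ≤ R ∧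
    ∀ᶠ n in lQ D μ ν, ENNReal.ofReal (c / V (a n)) ≤
      PQ μ ν ({ω | AliveQ D (gg 8 n 1) ω} ∩ {ω | δ * a n ≤ Zw (gg 8 n 1) ω ∧
        Zw (gg 8 n 1) ω ≤ R * a n}) := by
  have hD := h.dom
  have hprob := h.qi.probμ
  have hprob' := h.qi.probν
  have hK : 0 < K := by linarith [h.K_ge]
  have hp : 0 < p - 1 := by linarith [h.p_gt]
  obtain ⟨R, hR1, htight⟩ := h.tight (1 / (4 * K)) (by positivity)
  obtain ⟨C1, hC1, hsurv⟩ := h.surv (δ := 1 / 16) (by norm_num)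
  set δ : ℝ := min 1 ((1 / (4 * K ^ 3 * C1)) ^ (1 / (p - 1))) with hδdef
  have hδ : 0 < δ := by positivity
  have hδ1 : δ ≤ 1 := min_le_left _ _
  have hδ2 : K ^ 2 * C1 * δ ^ (p - 1) ≤ 1 / (4 * K) := by
    have h1 : δ ≤ (1 / (4 * K ^ 3 * C1)) ^ (1 / (p - 1)) := min_le_right _ _
    have h2 : δ ^ (p - 1) ≤ 1 / (4 * K ^ 3 * C1) := by
      calc δ ^ (p - 1) ≤ ((1 / (4 * K ^ 3 * C1)) ^ (1 / (p - 1))) ^ (p - 1) :=
            Real.rpow_le_rpow hδ.le h1 hp.le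
        _ = 1 / (4 * K ^ 3 * C1) := by
          rw [← Real.rpow_mul (by positivity), one_div_mul_cancel hp.ne', Real.rpow_one]
    calc K ^ 2 * C1 * δ ^ (p - 1) ≤ K ^ 2 * C1 * (1 / (4 * K ^ 3 * C1)) := by gcongr
      _ = 1 / (4 * K) := by field_simp
  refine ⟨1 / (4 * K ^ 2), by positivity, δ, hδ, R, hδ1.trans hR1, ?_⟩
  rw [eventually_lQ]
  have ha2 : ∀ᶠ n : ℕ in atTop, x₀ / δ ≤ a n := h.a_top.eventually_ge_atTop _
  obtain ⟨n₀, hn₀⟩ := eventually_atTop.mp (ha2.and (eventually_ge_atTop 16))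
  refine ⟨n₀, fun n hn hne => ?_⟩
  obtain ⟨hb2, hn16⟩ := hn₀ n hn
  have hn1 : 1 ≤ n := by omega
  have hn16' : (16 : ℝ) ≤ n := by exact_mod_cast hn16
  have hnpos : (0 : ℝ) < n := by linarith
  have hx0 : 0 < x₀ := by linarith [h.x_ge]
  have han : 0 < a n := by
    have := h.a_ge n hn1
    linarith
  have hVn : 0 < V (a n) := by linarith [h.V_one (a n)]
  have hbb := h.bb_pos n hn1
  -- the time i
  set i : ℕ := gg 8 n 1 with hi
  have hi0 : (i : ℝ) ≤ n / 8 := by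
    have : (i : ℝ) ≤ ((1 : ℕ) : ℝ) / ((8 : ℕ) : ℝ) * n := Nat.floor_le (by positivity)
    norm_num at this
    linarith
  have hi1 : (n : ℝ) / 16 ≤ i := by
    have : ((1 : ℕ) : ℝ) / ((8 : ℕ) : ℝ) * n < i + 1 := Nat.lt_floor_add_one _
    norm_num at this
    linarith
  have hi2 : 1 ≤ i := by
    have : (1 : ℝ) ≤ i := by linarith
    exact_mod_cast this
  have hi3 : 8 * i ≤ n := by
    have : 8 * (i : ℝ) ≤ n := by linarith
    exact_mod_cast this
  have hin : i < n := by omega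
  -- first estimate
  set A : Set (ℕ → ℝ × ℝ) := {ω | Zw i ω ∈ Set.Iio (δ * a n)} with hA
  set B : Set (ℕ → ℝ × ℝ) := {ω | ∃ i < n, R * a n ≤ Zw i ω} with hBdef
  set G : Set (ℕ → ℝ × ℝ) := {ω | Zw i ω ∈ Set.Icc (δ * a n) (R * a n)} with hG
  have hVδ : V (δ * a n) ≤ K * δ ^ (p - 1) * V (a n) := by
    have h1 : x₀ ≤ δ * a n := by
      rw [div_le_iff₀ hδ] at hb2
      linarith
    have h2 := h.V_ge (δ * a n) (1 / δ) h1 (by rw [le_div_iff₀ hδ]; linarith)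
    have h3 : 1 / δ * (δ * a n) = a n := by field_simp
    rw [h3, Real.div_rpow zero_le_one hδ.le, Real.one_rpow] at h2
    have h4 : 0 < δ ^ (p - 1) := Real.rpow_pos_of_pos hδ _
    rw [one_div, inv_mul_le_iff₀ h4] at h2
    linarith
  have e1 : PQ μ ν (EvN D n ∩ A) ≤ ENNReal.ofReal (1 / (4 * K) * bb V a n) := by
    have h1 : ∀ x, 0 ≤ x → x ∈ Set.Iio (δ * a n) →
        hit D (stepLaw μ ν 1) (n - i) x ≤ K * (K * δ ^ (p - 1) * V (a n)) / (n * V (a n)) := by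
      intro x hx0 hx
      refine (h.hit_V n (n - i) x (by omega) (by omega) (by omega) hx0).trans ?_
      have : V x ≤ K * δ ^ (p - 1) * V (a n) :=
        (h.V_mono (le_of_lt (Set.mem_Iio.mp hx))).trans hVδ
      gcongr
    refine (QW21a_exit hD hin measurableSet_Iio h1).trans ?_
    have h2 : PQ μ ν ({ω | AliveQ D i ω} ∩ {ω | Zw i ω ∈ Set.Iio (δ * a n)}) ≤
        ENNReal.ofReal (C1 / V (a n)) :=
      (measure_mono Set.inter_subset_left).trans (hsurv n i hi2 hin.le (by linarith))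
    calc _ ≤ ENNReal.ofReal (K * (K * δ ^ (p - 1) * V (a n)) / (n * V (a n))) *
          ENNReal.ofReal (C1 / V (a n)) := by gcongr
      _ = ENNReal.ofReal (K * (K * δ ^ (p - 1) * V (a n)) / (n * V (a n)) * (C1 / V (a n))) := by
        rw [← ENNReal.ofReal_mul (by positivity)]
      _ ≤ _ := by
        apply ENNReal.ofReal_le_ofReal
        calc K * (K * δ ^ (p - 1) * V (a n)) / (n * V (a n)) * (C1 / V (a n)) =
              (K ^ 2 * C1 * δ ^ (p - 1)) * bb V a n := by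
              unfold bb
              field_simp
          _ ≤ 1 / (4 * K) * bb V a n := by gcongr
  have e2 : PQ μ ν (EvN D n ∩ B) ≤ ENNReal.ofReal (1 / (4 * K) * bb V a n) := htight n hn1
  have hni : ((n - i : ℕ) : ℝ) = n - i := by rw [Nat.cast_sub hin.le]
  have hni0 : (n : ℝ) / 2 ≤ n - i := by linarith
  have e3 : PQ μ ν (EvN D n ∩ G) ≤ ENNReal.ofReal (2 * K / n) *
      PQ μ ν ({ω | AliveQ D i ω} ∩ G) := by
    refine QW21a_exit hD hin measurableSet_Icc fun x _ _ => ?_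
    refine (h.hit_m (n - i) x (by omega)).trans ?_
    rw [hni]
    calc K / ((n : ℝ) - i) ≤ K / (n / 2) := by gcongr
      _ = 2 * K / n := by field_simp
  have e4 : PQ μ ν (EvN D n) ≤ PQ μ ν (EvN D n ∩ A) + PQ μ ν (EvN D n ∩ B) +
      PQ μ ν (EvN D n ∩ G) := by
    refine le_trans (measure_mono ?_) ((measure_union_le _ _).trans
      (add_le_add (measure_union_le _ _) le_rfl))
    intro ω hω
    by_cases h1 : Zw i ω < δ * a n
    · exact Or.inl (Or.inl ⟨hω, h1⟩)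
    · by_cases h2 : R * a n ≤ Zw i ω
      · exact Or.inl (Or.inr ⟨hω, i, hin, h2⟩)
      · exact Or.inr ⟨hω, not_lt.mp h1, (not_le.mp h2).le⟩
  have e5 : bb V a n ≤ K * (PQ μ ν).real (EvN D n) := by
    rw [PQ_EvN_gen hD n]
    refine h.hit_ge n hn1 ?_
    rw [← PQ_EvN_gen hD n]
    exact fun h0 => hne ((measureReal_eq_zero_iff).mp h0)
  set P : ℝ := (PQ μ ν).real ({ω | AliveQ D i ω} ∩ G) with hP
  have hP0 : 0 ≤ P := measureReal_nonneg
  have hPe : PQ μ ν ({ω | AliveQ D i ω} ∩ G) = ENNReal.ofReal P := by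
    rw [hP, ofReal_measureReal]
  have e6 : (PQ μ ν).real (EvN D n) ≤ 1 / (4 * K) * bb V a n + 1 / (4 * K) * bb V a n +
      2 * K / n * P := by
    rw [measureReal_def]
    refine ENNReal.toReal_le_of_le_ofReal (by positivity) ?_
    rw [ENNReal.ofReal_add (by positivity) (by positivity),
      ENNReal.ofReal_add (by positivity) (by positivity),
      ENNReal.ofReal_mul (p := 2 * K / n) (by positivity)]
    refine e4.trans ?_
    rw [hPe] at e3
    exact add_le_add (add_le_add e1 e2) e3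
  have e7 : bb V a n ≤ bb V a n / 2 + 2 * K ^ 2 / n * P := by
    calc bb V a n ≤ K * (PQ μ ν).real (EvN D n) := e5
      _ ≤ K * (1 / (4 * K) * bb V a n + 1 / (4 * K) * bb V a n + 2 * K / n * P) := by gcongr
      _ = bb V a n / 2 + 2 * K ^ 2 / n * P := by
        field_simp
        ring
  have e8 : 1 / (4 * K ^ 2) / V (a n) ≤ P := by
    have h1 : bb V a n / 2 ≤ 2 * K ^ 2 / n * P := by linarith
    have h2 : bb V a n / 2 * (n / (2 * K ^ 2)) ≤ 2 * K ^ 2 / n * P * (n / (2 * K ^ 2)) := by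
      gcongr
    calc 1 / (4 * K ^ 2) / V (a n) = bb V a n / 2 * (n / (2 * K ^ 2)) := by
          unfold bb
          field_simp
          norm_num
      _ ≤ _ := h2
      _ = P := by field_simp
  calc ENNReal.ofReal (1 / (4 * K ^ 2) / V (a n)) ≤ ENNReal.ofReal P :=
        ENNReal.ofReal_le_ofReal e8
    _ = PQ μ ν ({ω | AliveQ D i ω} ∩ G) := hPe.symm
    _ = _ := rfl

end Pool.Agent.BPT
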