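import Pool.Agent.MP_99a865_pr.ST.QE0
import Pool.Agent.MP_99a865_pr.ST.QW18
import Pool.Agent.MP_99a865_pr.ST.QW21a

/-! **[STB-QE4]** A limit point of the laws of the rescaled paths at the rational times. -/

open MeasureTheory ProbabilityTheory Filter Topology
open scoped ENNReal NNReal

namespace Pool.Agent.BPT

variable {D : Set ℝ} {μ ν : Measure ℝ} {a : ℕ → ℝ} {L V V' : ℝ → ℝ} {p K x₀ : ℝ}

theorem measurable_XQ (a : ℕ → ℝ) (n : ℕ) : Measurable (XQ a n) := by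
  refine measurable_pi_iff.2 fun q => ?_
  unfold XQ
  by_cases h : 0 < q ∧ q < 1
  · simp only [if_pos h]
    exact (measurable_Zw _).div_const _
  · simp only [if_neg h]
    exact measurable_const

/-- from `bb`-bounds to conditional probabilities. PROOF. `hit_ge`, `PQ_EvN_gen`: `P(N = n) ≥ bb n/K` (as in QW15c_tight / MZ_tight, ST/QW18). -/
theorem QS.cond_le (h : QS D μ ν a L V V' p K x₀) {n : ℕ} (hn : 1 ≤ n) (hP : PQ μ ν (EvN D n) ≠ 0)
    {A : Set (ℕ → ℝ × ℝ)} {θ : ℝ} (hθ : 0 ≤ θ) (hA : PQ μ ν (EvN D n ∩ A) ≤ ENNReal.ofReal (θ * bb V a n)) :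
    (cond (PQ μ ν) (EvN D n)).real A ≤ K * θ := by
  have hμ := h.qi.probμ
  have hν := h.qi.probν
  have hK := h.K_ge
  have hK0 : 0 < K := by linarith
  have hE := PQ_EvN_gen (μ := μ) (ν := ν) h.dom n
  have hE0 : 0 < (PQ μ ν).real (EvN D n) := by
    rw [Measure.real, ENNReal.toReal_pos_iff]
    exact ⟨pos_iff_ne_zero.2 hP, measure_lt_top _ _⟩
  have hhit : bb V a n ≤ K * (PQ μ ν).real (EvN D n) := by
    rw [hE]
    exact h.hit_ge n hn (by rw [← hE]; exact hE0.ne')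
  have hb : 0 < bb V a n := h.bb_pos n hn
  have h5 : (PQ μ ν).real (EvN D n ∩ A) ≤ θ * bb V a n := by
    refine (ENNReal.toReal_mono ENNReal.ofReal_ne_top hA).trans (le_of_eq ?_)
    rw [ENNReal.toReal_ofReal]
    positivity
  have h6 : (cond (PQ μ ν) (EvN D n)).real A =
      ((PQ μ ν).real (EvN D n))⁻¹ * (PQ μ ν).real (EvN D n ∩ A) := by
    rw [Measure.real, cond_apply (measurableSet_EvN h.dom n), ENNReal.toReal_mul, ENNReal.toReal_inv]
    rfl
  rw [h6, inv_mul_le_iff₀ hE0]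
  calc _ ≤ θ * bb V a n := h5
    _ ≤ θ * (K * (PQ μ ν).real (EvN D n)) := mul_le_mul_of_nonneg_left hhit hθ
    _ = (PQ μ ν).real (EvN D n) * (K * θ) := by ring

theorem QE4_mem (hD : Dom D) {n : ℕ} (hn : 1 ≤ n) (ha : 0 < a n) {R : ℝ} (hR : 0 ≤ R)
    {ω : ℕ → ℝ × ℝ} (hω : ω ∈ EvN D n) (hno : ¬ ∃ i < n, R * a n ≤ Zw i ω) :
    XQ a n ω ∈ Set.pi Set.univ (fun _ : ℚ => Set.Icc (0 : ℝ) R) := by
  intro q _
  unfold XQ
  by_cases h : 0 < q ∧ q < 1
  · rw [if_pos h]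
    have hq1 : (q : ℝ) < 1 := by exact_mod_cast h.2
    have hq0 : (0 : ℝ) < q := by exact_mod_cast h.1
    have hn0 : (0 : ℝ) < n := by exact_mod_cast hn
    have hi : ⌊(q : ℝ) * n⌋₊ < n := by
      rw [Nat.floor_lt (by positivity)]
      nlinarith
    have hZ : 0 ≤ Zw ⌊(q : ℝ) * n⌋₊ ω := by
      rcases Nat.eq_zero_or_pos ⌊(q : ℝ) * n⌋₊ with h0 | h0
      · rw [h0, QW18_Zw0]
      · have h1 := hω.2.1 ⌊(q : ℝ) * n⌋₊ h0 (by omega)
        rcases hD with rfl | rfl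
        · exact h1
        · exact le_of_lt h1
    refine ⟨div_nonneg hZ ha.le, ?_⟩
    rw [div_le_iff₀ ha]
    by_contra hcon
    exact hno ⟨_, hi, (not_le.1 hcon).le⟩
  · rw [if_neg h]
    exact ⟨le_rfl, hR⟩

/-- PROOF. For `n ≥ 1` with `P(N = n) ≠ 0` let `W n : ProbabilityMeasure (ℚ → ℝ)` be the image of `cond (PQ μ ν) (EvN D n)` under `XQ a n` (`dirac 0` for the other `n`). Tightness: for `θ > 0` let `R ≥ 1` be the number of `QS.tight` for `θ/K`; on `EvN D n`, outside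
`{∃ i < n, R a n ≤ Zw i}`, all coordinates of `XQ a n ω` are in `[0, R]` (`q < 1` and `n ≥ 1`: `⌊q n⌋₊ ≤ n - 1`, alive, `Dom D`), and `Set.pi univ (fun _ => Icc 0 R)` is compact; so the laws are tight (`isTightMeasureSet_iff_exists_isCompact_measure_compl_le`).
`isCompact_closure_of_isTightMeasureSet` (Mathlib/MeasureTheory/Measure/Prokhorov): the range of `W` has compact closure. Take an ultrafilter `U` on `ℕ` with `U ≤ lQ D μ ν` (`hne`, `Ultrafilter.of`); `W` converges along `U` to some `P` in the closure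
(`IsCompact.ultrafilter_le_nhds'` for `U.map W`). `opn`: `ProbabilityMeasure.le_liminf_measure_open_of_tendsto` along `U` (`ℚ → ℝ` is Polish, Borel: `Pi.borelSpace`). `int`: `ProbabilityMeasure.tendsto_iff_forall_integral_tendsto`,
`EN D μ ν n F = ∫ F d cond` (`QW13_cond_integral`), `integral_map`, uniqueness of limits along `U ≤ lQ`. -/
theorem exists_LP (h : QS D μ ν a L V V' p K x₀) (hne : (lQ D μ ν).NeBot) :
    ∃ P : Measure (ℚ → ℝ), LP D μ ν a P := by
  classical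
  have hμ := h.qi.probμ
  have hν := h.qi.probν
  have hK := h.K_ge
  have hK0 : 0 < K := by linarith
  have hpos : ∀ n, 1 ≤ n → 0 < a n := by
    intro n hn
    have h3 := h.a_ge n hn
    have h4 := h.x_ge
    linarith
  -- the laws
  obtain ⟨W, hW1, hW2⟩ : ∃ W : ℕ → ProbabilityMeasure (ℚ → ℝ),
      (∀ n, 1 ≤ n ∧ PQ μ ν (EvN D n) ≠ 0 →
        ((W n : ProbabilityMeasure (ℚ → ℝ)) : Measure (ℚ → ℝ)) = (cond (PQ μ ν) (EvN D n)).map (XQ a n)) ∧
      (∀ n, ¬ (1 ≤ n ∧ PQ μ ν (EvN D n) ≠ 0) →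
        ((W n : ProbabilityMeasure (ℚ → ℝ)) : Measure (ℚ → ℝ)) = Measure.dirac 0) := by
    have key : ∀ n, ∃ w : ProbabilityMeasure (ℚ → ℝ),
        ((1 ≤ n ∧ PQ μ ν (EvN D n) ≠ 0) →
          (w : Measure (ℚ → ℝ)) = (cond (PQ μ ν) (EvN D n)).map (XQ a n)) ∧
        (¬ (1 ≤ n ∧ PQ μ ν (EvN D n) ≠ 0) → (w : Measure (ℚ → ℝ)) = Measure.dirac 0) := by
      intro n
      by_cases hg : 1 ≤ n ∧ PQ μ ν (EvN D n) ≠ 0
      · have h1 : IsProbabilityMeasure (cond (PQ μ ν) (EvN D n)) := cond_isProbabilityMeasure hg.2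
        have h2 : IsProbabilityMeasure ((cond (PQ μ ν) (EvN D n)).map (XQ a n)) :=
          Measure.isProbabilityMeasure_map (measurable_XQ a n).aemeasurable
        exact ⟨⟨_, h2⟩, fun _ => rfl, fun h3 => absurd hg h3⟩
      · exact ⟨⟨Measure.dirac 0, inferInstance⟩, fun h3 => absurd h3 hg, fun _ => rfl⟩
    choose W hW using key
    exact ⟨W, fun n => (hW n).1, fun n => (hW n).2⟩
  -- tightness
  have htight : IsTightMeasureSet {((w : ProbabilityMeasure (ℚ → ℝ)) : Measure (ℚ → ℝ)) | w ∈ Set.range W} := by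
    rw [isTightMeasureSet_iff_exists_isCompact_measure_compl_le]
    intro ε hε
    obtain ⟨θ, hθ, hθε⟩ : ∃ θ : ℝ, 0 < θ ∧ ENNReal.ofReal θ ≤ ε := by
      by_cases htop : ε = ⊤
      · exact ⟨1, one_pos, by rw [htop]; exact le_top⟩
      · exact ⟨ε.toReal, ENNReal.toReal_pos hε.ne' htop, by rw [ENNReal.ofReal_toReal htop]⟩
    obtain ⟨R, hR1, hR⟩ := h.tight (θ / K) (div_pos hθ hK0)
    have hR0 : 0 ≤ R := by linarith
    refine ⟨Set.pi Set.univ (fun _ : ℚ => Set.Icc (0 : ℝ) R), isCompact_univ_pi fun _ => isCompact_Icc, ?_⟩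
    have hmC : MeasurableSet (Set.pi Set.univ (fun _ : ℚ => Set.Icc (0 : ℝ) R)) :=
      MeasurableSet.univ_pi fun _ => measurableSet_Icc
    rintro _ ⟨_, ⟨n, rfl⟩, rfl⟩
    by_cases hg : 1 ≤ n ∧ PQ μ ν (EvN D n) ≠ 0
    · rw [hW1 n hg, Measure.map_apply (measurable_XQ a n) hmC.compl]
      have h1 : IsProbabilityMeasure (cond (PQ μ ν) (EvN D n)) := cond_isProbabilityMeasure hg.2
      have h2 : (cond (PQ μ ν) (EvN D n)).real
          (XQ a n ⁻¹' (Set.pi Set.univ (fun _ : ℚ => Set.Icc (0 : ℝ) R))ᶜ) ≤ K * (θ / K) := by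
        refine h.cond_le hg.1 hg.2 (div_pos hθ hK0).le ((measure_mono ?_).trans (hR n hg.1))
        rintro ω ⟨hω, hωC⟩
        refine ⟨hω, ?_⟩
        by_contra hno
        exact hωC (QE4_mem h.dom hg.1 (hpos n hg.1) hR0 hω hno)
      have h3 : K * (θ / K) = θ := by field_simp
      rw [h3] at h2
      rw [← ofReal_measureReal]
      exact (ENNReal.ofReal_le_ofReal h2).trans hθε
    · rw [hW2 n hg, Measure.dirac_apply' _ hmC.compl]
      have h1 : (0 : ℚ → ℝ) ∉ (Set.pi Set.univ (fun _ : ℚ => Set.Icc (0 : ℝ) R))ᶜ := by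
        intro hcon
        exact hcon fun q _ => ⟨le_rfl, hR0⟩
      rw [Set.indicator_of_notMem h1]
      exact zero_le
  have hcpt : IsCompact (closure (Set.range W)) := isCompact_closure_of_isTightMeasureSet htight
  -- a limit point
  have hUle : ((Ultrafilter.of (lQ D μ ν) : Ultrafilter ℕ) : Filter ℕ) ≤ lQ D μ ν := Ultrafilter.of_le _
  obtain ⟨U, hU⟩ : ∃ U : Ultrafilter ℕ, (U : Filter ℕ) ≤ lQ D μ ν := ⟨_, hUle⟩
  obtain ⟨P, -, hP⟩ := hcpt.ultrafilter_le_nhds (U.map W) (by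
    rw [le_principal_iff, Ultrafilter.coe_map, mem_map]
    exact Filter.univ_mem' fun n => subset_closure ⟨n, rfl⟩)
  have hlim : Tendsto W (U : Filter ℕ) (𝓝 P) := hP
  have hgood : ∀ᶠ n in lQ D μ ν, 1 ≤ n ∧ PQ μ ν (EvN D n) ≠ 0 := by
    have h1 : ∀ᶠ n in lQ D μ ν, 1 ≤ n := (eventually_ge_atTop 1).filter_mono inf_le_left
    have h2 : ∀ᶠ n in lQ D μ ν, PQ μ ν (EvN D n) ≠ 0 :=
      (eventually_principal.2 fun n hn => hn : ∀ᶠ n in 𝓟 {n | PQ μ ν (EvN D n) ≠ 0}, PQ μ ν (EvN D n) ≠ 0).filter_mono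
        inf_le_right
    exact h1.and h2
  refine ⟨(P : Measure (ℚ → ℝ)), P.2, ?_, ?_⟩
  · intro G hG c hc hev
    have h1 := ProbabilityMeasure.le_liminf_measure_open_of_tendsto hlim hG
    have h2 : ∀ᶠ n in (U : Filter ℕ), ((W n : ProbabilityMeasure (ℚ → ℝ)) : Measure (ℚ → ℝ)) G ≤
        ENNReal.ofReal c := by
      have h3 := (hgood.and hev).filter_mono hU
      filter_upwards [h3] with n hn
      have hpr : IsProbabilityMeasure (cond (PQ μ ν) (EvN D n)) := cond_isProbabilityMeasure hn.1.2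
      rw [hW1 n hn.1, Measure.map_apply (measurable_XQ a n) hG.measurableSet, ← ofReal_measureReal]
      exact ENNReal.ofReal_le_ofReal hn.2
    have h3 : (P : Measure (ℚ → ℝ)) G ≤ ENNReal.ofReal c :=
      h1.trans ((liminf_le_limsup).trans (limsup_le_of_le (by isBoundedDefault) h2))
    rw [Measure.real]
    exact ENNReal.toReal_le_of_le_ofReal hc h3
  · intro F M v hF hM hv
    have h1 := (ProbabilityMeasure.tendsto_iff_forall_integral_tendsto.1 hlim)
      (BoundedContinuousFunction.ofNormedAddCommGroup F hF M (fun x => by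
        rw [Real.norm_eq_abs]; exact hM x))
    have h2 : Tendsto (fun n => EN D μ ν n fun ω => F (XQ a n ω)) (U : Filter ℕ) (𝓝 (∫ x, F x ∂(P : Measure (ℚ → ℝ)))) := by
      refine h1.congr' ?_
      filter_upwards [hgood.filter_mono hU] with n hn
      rw [hW1 n hn]
      show ∫ x, F x ∂((cond (PQ μ ν) (EvN D n)).map (XQ a n)) = _
      rw [integral_map (measurable_XQ a n).aemeasurable hF.aestronglyMeasurable, QW13_cond_integral]
      rfl
    exact tendsto_nhds_unique h2 (hv.mono_left hU)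

end Pool.Agent.BPT
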