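import Pool.Agent.MP_99a865_pr.ST.QE0

/-! **[STB-QE5]** The right limits of a good function on the rationals. -/

open MeasureTheory ProbabilityTheory Filter Topology
open scoped ENNReal NNReal

namespace Pool.Agent.BPT

theorem QE5_cast (m : ℕ) (t : ℝ) : (dyq m t : ℝ) = ((⌊t * 2 ^ m⌋ : ℝ) + 1) / 2 ^ m := by
  unfold dyq
  push_cast
  rfl

theorem dyq_gt (m : ℕ) (t : ℝ) : t < dyq m t := by
  rw [QE5_cast, lt_div_iff₀ (by positivity)]
  exact Int.lt_floor_add_one _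

theorem dyq_le (m : ℕ) (t : ℝ) : (dyq m t : ℝ) ≤ t + 1 / 2 ^ m := by
  have h : (0 : ℝ) < 2 ^ m := by positivity
  rw [QE5_cast, div_le_iff₀ h, add_mul, one_div, inv_mul_cancel₀ h.ne']
  have := Int.floor_le (t * 2 ^ m)
  linarith

theorem QE5_mono {c : ℝ} {x : ℚ → ℝ} {T s s' : ℝ} (hs : s' ≤ s) :
    ∀ m : ℕ, CHQ c m s T x → CHQ c m s' T x
  | 0, _ => trivial
  | _ + 1, ⟨i, j, h1, h2⟩ => ⟨i, j, hs.trans h1, h2⟩

theorem QE5_k {t ε : ℝ} (h0 : 0 < t) (h1 : t < 1) (hε : 0 < ε) : ∃ k : ℕ,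
    1 / ((k : ℝ) + 2) < t ∧ t < 1 - 1 / ((k : ℝ) + 2) ∧ 1 / ((k : ℝ) + 1) < ε / 2 := by
  obtain ⟨k, hk⟩ := exists_nat_one_div_lt (show 0 < min (min t (1 - t)) (ε / 2) by
    refine lt_min (lt_min h0 (by linarith)) (by linarith))
  have h2 : 1 / ((k : ℝ) + 2) < 1 / ((k : ℝ) + 1) :=
    one_div_lt_one_div_of_lt (by positivity) (by linarith)
  have h3 := lt_min_iff.1 hk
  have h4 := lt_min_iff.1 h3.1
  exact ⟨k, by linarith [h4.1], by linarith [h4.2], h3.2⟩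

/-- one of two distant values is far from a third one -/
theorem QE5_far {a b c ε : ℝ} (h : ε < |a - b|) : ε / 2 < |c - a| ∨ ε / 2 < |c - b| := by
  by_contra hc
  push Not at hc
  have h1 : |a - b| ≤ |c - a| + |c - b| := by
    calc |a - b| = |(c - b) - (c - a)| := by ring_nf
      _ ≤ |c - b| + |c - a| := abs_sub _ _
      _ = _ := add_comm _ _
  linarith [hc.1, hc.2]

/-- PROOF. Take `k` with `1/(k+2) < t < 1 - 1/(k+2)` and `1/(k+1) ≤ ε/4`, and suppose the claim fails with `ε`: for every `u > t` there are rationals `q, q'` in `(t, u)` with `|x q - x q'| > ε/2`; then for a given rational `r > t` (take `u = min r (1 - 1/(k+2))`) there is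
a rational `q ∈ (t, r)` with `|x r - x q| > ε/4 ≥ 1/(k+1)`. Hence, by induction on `m`, for every rational `r` with `t < r ≤ 1 - 1/(k+2)` there are `m` disjoint oscillations in `[1/(k+2), r]`… build the chain downwards: claim(m): for every rational
`r` with `t < r ≤ 1 - 1/(k+2)` there is a rational `r' ∈ (t, r)` such that for every real `T` and `CHQ c j r T x` one has `CHQ c (j + m) r' T x`. (`m + 1`: from `r'` find `q ∈ (t, r')` with `|x r' - x q| > c`; the pair `(q, r')` is one more oscillation.) This contradicts `GoodQ`. -/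
theorem GoodQ.cauchy {x : ℚ → ℝ} (h : GoodQ x) {t : ℝ} (h0 : 0 < t) (h1 : t < 1) : ∀ ε > (0 : ℝ), ∃ u > t,
    ∀ q q' : ℚ, t < q → (q : ℝ) < u → t < q' → (q' : ℝ) < u → |x q - x q'| ≤ ε := by
  intro ε hε
  by_contra hc
  push Not at hc
  obtain ⟨k, hk1, hk2, hk3⟩ := QE5_k h0 h1 hε
  obtain ⟨M, hM⟩ := (h k).1
  apply hM
  have step : ∀ r : ℚ, t < r → ∃ q : ℚ, t < q ∧ q < r ∧ 1 / ((k : ℝ) + 1) < |x r - x q| := by
    intro r hr
    obtain ⟨q, q', h2, h3, h4, h5, h6⟩ := hc r hr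
    rcases QE5_far (c := x r) h6 with h7 | h7
    · exact ⟨q, h2, by exact_mod_cast h3, by linarith⟩
    · exact ⟨q', h4, by exact_mod_cast h5, by linarith⟩
  have claim : ∀ m : ℕ, ∃ r : ℚ, t < r ∧ (r : ℝ) ≤ 1 - 1 / ((k : ℝ) + 2) ∧
      CHQ (1 / ((k : ℝ) + 1)) m r (1 - 1 / ((k : ℝ) + 2)) x := by
    intro m
    induction m with
    | zero =>
      obtain ⟨r, hr1, hr2⟩ := exists_rat_btwn hk2
      exact ⟨r, hr1, hr2.le, trivial⟩
    | succ m ih =>
      obtain ⟨r, hr1, hr2, hr3⟩ := ih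
      obtain ⟨q, hq1, hq2, hq3⟩ := step r hr1
      have hq2' : (q : ℝ) < r := by exact_mod_cast hq2
      exact ⟨q, hq1, by linarith, q, r, le_rfl, hq2, hr2, hq3, hr3⟩
  obtain ⟨r, hr1, hr2, hr3⟩ := claim M
  exact QE5_mono (by linarith) M hr3

/-- the same on the left (the chain is built upwards) -/
theorem GoodQ.cauchy_left {x : ℚ → ℝ} (h : GoodQ x) {t : ℝ} (h0 : 0 < t) (h1 : t < 1) : ∀ ε > (0 : ℝ), ∃ u < t,
    ∀ q q' : ℚ, u < q → (q : ℝ) < t → u < q' → (q' : ℝ) < t → |x q - x q'| ≤ ε := by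
  intro ε hε
  by_contra hc
  push Not at hc
  obtain ⟨k, hk1, hk2, hk3⟩ := QE5_k h0 h1 hε
  obtain ⟨M, hM⟩ := (h k).1
  apply hM
  have step : ∀ r : ℚ, (r : ℝ) < t → ∃ q : ℚ, r < q ∧ (q : ℝ) < t ∧
      1 / ((k : ℝ) + 1) < |x q - x r| := by
    intro r hr
    obtain ⟨q, q', h2, h3, h4, h5, h6⟩ := hc r hr
    rcases QE5_far (c := x r) h6 with h7 | h7
    · exact ⟨q, by exact_mod_cast h2, h3, by rw [abs_sub_comm]; linarith⟩
    · exact ⟨q', by exact_mod_cast h4, h5, by rw [abs_sub_comm]; linarith⟩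
  have claim : ∀ m : ℕ, ∀ r : ℚ, (r : ℝ) < t →
      CHQ (1 / ((k : ℝ) + 1)) m r (1 - 1 / ((k : ℝ) + 2)) x := by
    intro m
    induction m with
    | zero => intro r _; trivial
    | succ m ih =>
      intro r hr
      obtain ⟨q, hq1, hq2, hq3⟩ := step r hr
      exact ⟨r, q, le_rfl, hq1, by linarith, hq3, ih q hq2⟩
  obtain ⟨r, hr1, hr2⟩ := exists_rat_btwn hk1
  exact QE5_mono hr1.le M (claim M r hr2)

theorem QE5_tend (t : ℝ) : Tendsto (fun m : ℕ => (dyq m t : ℝ)) atTop (𝓝 t) := by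
  have h1 : Tendsto (fun m : ℕ => t + 1 / (2 : ℝ) ^ m) atTop (𝓝 (t + 0)) := by
    refine tendsto_const_nhds.add ?_
    have h2 := tendsto_pow_atTop_nhds_zero_of_lt_one (r := (1 / 2 : ℝ)) (by norm_num) (by norm_num)
    refine h2.congr fun m => ?_
    rw [one_div_pow]
  rw [add_zero] at h1
  exact tendsto_of_tendsto_of_tendsto_of_le_of_le tendsto_const_nhds h1
    (fun m => (dyq_gt m t).le) (fun m => dyq_le m t)

theorem QE5_lt {t u : ℝ} (h : t < u) : ∀ᶠ m : ℕ in atTop, (dyq m t : ℝ) < u :=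
  (QE5_tend t).eventually (gt_mem_nhds h)

theorem QE5_conv {x : ℚ → ℝ} (h : GoodQ x) {t : ℝ} (h0 : 0 < t) (h1 : t < 1) :
    Tendsto (fun m : ℕ => x (dyq m t)) atTop (𝓝 (eR t x)) := by
  have h2 : CauchySeq fun m : ℕ => x (dyq m t) := by
    rw [Metric.cauchySeq_iff]
    intro ε hε
    obtain ⟨u, hu, hq⟩ := h.cauchy h0 h1 (ε / 2) (by linarith)
    obtain ⟨N, hN⟩ := eventually_atTop.1 (QE5_lt hu)
    refine ⟨N, fun m hm n hn => ?_⟩
    rw [Real.dist_eq]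
    have := hq (dyq m t) (dyq n t) (dyq_gt m t) (hN m hm) (dyq_gt n t) (hN n hn)
    linarith
  obtain ⟨l, hl⟩ := cauchySeq_tendsto_of_complete h2
  have h3 : eR t x = l := hl.limsup_eq
  rw [h3]
  exact hl

/-- two right limits at points of an interval on which the oscillation is small -/
theorem QE5_close {x : ℚ → ℝ} (h : GoodQ x) {s s' lo hi ε : ℝ} (hs0 : 0 < s) (hs1 : s < 1)
    (hs0' : 0 < s') (hs1' : s' < 1) (h1 : lo ≤ s) (h2 : s < hi) (h3 : lo ≤ s') (h4 : s' < hi)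
    (hq : ∀ q q' : ℚ, lo < q → (q : ℝ) < hi → lo < q' → (q' : ℝ) < hi → |x q - x q'| ≤ ε) :
    |eR s x - eR s' x| ≤ ε := by
  have h5 := ((QE5_conv h hs0 hs1).sub (QE5_conv h hs0' hs1')).abs
  refine le_of_tendsto h5 ?_
  filter_upwards [QE5_lt h2, QE5_lt h4] with m h6 h7
  exact hq _ _ (lt_of_le_of_lt h1 (dyq_gt m s)) h6 (lt_of_le_of_lt h3 (dyq_gt m s')) h7

/-- PROOF. `x (dyq m t)` is a Cauchy sequence (`GoodQ.cauchy`, `dyq_gt`, `dyq_le`), so it converges to its `limsup` `eR t x` (`Tendsto.limsup_eq`); its terms are eventually `≥ η > 0`. For `s ∈ (t, u)`: `|x (dyq m s) - x (dyq m' t)| ≤ ε` for large `m, m'`, so `|eR s x - eR t x| ≤ ε`.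
Left limit: the same with `GoodQ.cauchy_left`: `|eR s x - eR s' x| ≤ ε` for `s, s' ∈ (u, t)` (`dyq m s ∈ (u, t)` for large `m`); completeness of `ℝ`. -/
theorem GoodQ.path {x : ℚ → ℝ} (h : GoodQ x) {t : ℝ} (h0 : 0 < t) (h1 : t < 1) :
    Tendsto (fun m : ℕ => x (dyq m t)) atTop (𝓝 (eR t x)) ∧ 0 < eR t x ∧
    ContinuousWithinAt (fun s => eR s x) (Set.Ici t) t ∧ ∃ l : ℝ, Tendsto (fun s => eR s x) (𝓝[<] t) (𝓝 l) := by
  refine ⟨QE5_conv h h0 h1, ?_, ?_, ?_⟩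
  · obtain ⟨k, hk1, hk2, -⟩ := QE5_k h0 h1 one_pos
    obtain ⟨η, hη, hq⟩ := (h k).2
    refine lt_of_lt_of_le hη (ge_of_tendsto (QE5_conv h h0 h1) ?_)
    filter_upwards [QE5_lt hk2] with m hm
    exact hq _ (hk1.le.trans (dyq_gt m t).le) hm.le
  · rw [Metric.continuousWithinAt_iff]
    intro ε hε
    obtain ⟨u, hu, hq⟩ := h.cauchy h0 h1 (ε / 2) (by linarith)
    refine ⟨min (u - t) (1 - t), lt_min (by linarith) (by linarith), fun s hs hd => ?_⟩
    rw [Real.dist_eq] at hd ⊢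
    have hs' : t ≤ s := hs
    rw [abs_of_nonneg (by linarith), lt_min_iff] at hd
    have h2 := QE5_close h (s := s) (s' := t) (lo := t) (hi := u) (by linarith) (by linarith [hd.2])
      h0 h1 hs' (by linarith [hd.1]) le_rfl hu hq
    linarith
  · have h2 : Cauchy (map (fun s => eR s x) (𝓝[<] t)) := by
      rw [Metric.cauchy_iff]
      refine ⟨inferInstance, fun ε hε => ?_⟩
      obtain ⟨u, hu, hq⟩ := h.cauchy_left h0 h1 (ε / 2) (by linarith)
      have hm : max u 0 < t := max_lt hu h0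
      refine ⟨(fun s => eR s x) '' Set.Ioo (max u 0) t, image_mem_map (Ioo_mem_nhdsLT hm), ?_⟩
      rintro _ ⟨s, hs, rfl⟩ _ ⟨s', hs', rfl⟩
      have e1 := max_lt_iff.1 hs.1
      have e2 := max_lt_iff.1 hs'.1
      rw [Real.dist_eq]
      have h3 := QE5_close h (s := s) (s' := s') (lo := u) (hi := t) e1.2 (by linarith [hs.2])
        e2.2 (by linarith [hs'.2]) e1.1.le hs.2 e2.1.le hs'.2 hq
      linarith
    exact cauchy_map_iff_exists_tendsto.1 h2

end Pool.Agent.BPT
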