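import Pool.Agent.MP_99a865_pr.ST.QE3a
import Pool.Agent.MP_99a865_pr.ST.QE3b
import Pool.Agent.MP_99a865_pr.ST.QE4

/-! **[STB-QE6a]** Almost every path is good. -/

open MeasureTheory ProbabilityTheory Filter Topology
open scoped ENNReal NNReal

namespace Pool.Agent.BPT

variable {D : Set ℝ} {μ ν : Measure ℝ} {a : ℕ → ℝ} {L V V' : ℝ → ℝ} {p K x₀ : ℝ}

/-- PROOF. Induction on `m` (for all `s`): countable union of open sets (`x ↦ x q` is continuous). -/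
theorem isOpen_CHQ (c : ℝ) (m : ℕ) (s T : ℝ) : IsOpen {x : ℚ → ℝ | CHQ c m s T x} := by
  induction m generalizing s with
  | zero => exact isOpen_univ
  | succ m ih =>
    have h : {x : ℚ → ℝ | CHQ c (m + 1) s T x} = ⋃ i : ℚ, ⋃ j : ℚ,
        {x : ℚ → ℝ | (s ≤ i ∧ i < j ∧ (j : ℝ) ≤ T) ∧ c < |x j - x i| ∧ CHQ c m j T x} := by
      ext x
      simp only [CHQ, Set.mem_setOf_eq, Set.mem_iUnion, and_assoc]
    rw [h]
    refine isOpen_iUnion fun i => isOpen_iUnion fun j => ?_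
    refine IsOpen.and isOpen_const (IsOpen.and ?_ (ih j))
    exact isOpen_lt continuous_const (by fun_prop)

theorem QE6a_XQ {n : ℕ} {ω : ℕ → ℝ × ℝ} {q : ℚ} (h0 : (0 : ℝ) < q) (h1 : (q : ℝ) < 1) :
    XQ a n ω q = Zw ⌊(q : ℝ) * n⌋₊ ω / a n := by
  unfold XQ
  rw [if_pos ⟨by exact_mod_cast h0, by exact_mod_cast h1⟩]

/-- PROOF. Induction on `m` (for all `s > 0`). An oscillation `i < j` of `XQ a n ω` in `(0,1)`: `|Zw ⌊j n⌋₊ ω - Zw ⌊i n⌋₊ ω| > c a n ≥ 0`, so `⌊i n⌋₊ ≠ ⌊j n⌋₊`, hence `<` (`Nat.floor_mono`). -/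
theorem CHQ_XQ {c : ℝ} (hc : 0 ≤ c) {m n : ℕ} {s T : ℝ} (hs : 0 < s) (hT : T < 1) (ha : 0 < a n) {ω : ℕ → ℝ × ℝ}
    (h : CHQ c m s T (XQ a n ω)) : CH (c * a n) m ⌊s * n⌋₊ ⌊T * n⌋₊ (fun i => Zw i ω) := by
  induction m generalizing s with
  | zero => trivial
  | succ m ih =>
    obtain ⟨i, j, h1, h2, h3, h4, h5⟩ := h
    have hij : (i : ℝ) < j := by exact_mod_cast h2
    have hn : (0 : ℝ) ≤ n := Nat.cast_nonneg n
    have hi0 : (0 : ℝ) < i := lt_of_lt_of_le hs h1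
    rw [QE6a_XQ hi0 (by linarith), QE6a_XQ (by linarith) (by linarith), ← sub_div, abs_div,
      abs_of_pos ha, lt_div_iff₀ ha] at h4
    have h6 : ⌊(i : ℝ) * n⌋₊ ≤ ⌊(j : ℝ) * n⌋₊ := Nat.floor_mono (mul_le_mul_of_nonneg_right hij.le hn)
    have h7 : ⌊(i : ℝ) * n⌋₊ ≠ ⌊(j : ℝ) * n⌋₊ := by
      intro he
      rw [he, sub_self, abs_zero] at h4
      exact absurd (mul_nonneg hc ha.le) (not_le.2 h4)
    exact ⟨⌊(i : ℝ) * n⌋₊, ⌊(j : ℝ) * n⌋₊, Nat.floor_mono (mul_le_mul_of_nonneg_right h1 hn),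
      lt_of_le_of_ne h6 h7, Nat.floor_mono (mul_le_mul_of_nonneg_right h3 hn), h4,
      ih (s := (j : ℝ)) (by linarith) h5⟩

/-- an open set with small conditional probability -/
theorem QE6a_open (h : QS D μ ν a L V V' p K x₀) {P : Measure (ℚ → ℝ)} (hP : LP D μ ν a P)
    {G : Set (ℚ → ℝ)} (hG : IsOpen G) {θ : ℝ} (hθ : 0 < θ) (n₀ : ℕ) (A : ℕ → Set (ℕ → ℝ × ℝ))
    (hA : ∀ n ≥ n₀, PQ μ ν (EvN D n ∩ A n) ≤ ENNReal.ofReal (θ * bb V a n))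
    (hGA : ∀ n : ℕ, 0 < a n → ∀ ω, XQ a n ω ∈ G → ω ∈ A n) : P.real G ≤ K * θ := by
  have hK := h.K_ge
  refine hP.opn G hG (K * θ) (by positivity) ?_
  have e1 : ∀ᶠ n in lQ D μ ν, max n₀ 1 ≤ n := (eventually_ge_atTop _).filter_mono inf_le_left
  have e2 : ∀ᶠ n in lQ D μ ν, PQ μ ν (EvN D n) ≠ 0 :=
    (eventually_principal.2 fun n hn => hn : ∀ᶠ n in 𝓟 {n | PQ μ ν (EvN D n) ≠ 0},
      PQ μ ν (EvN D n) ≠ 0).filter_mono inf_le_right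
  filter_upwards [e1, e2] with n hn hn2
  have hn1 : 1 ≤ n := le_trans (le_max_right _ _) hn
  have hn0 : n₀ ≤ n := le_trans (le_max_left _ _) hn
  have ha : 0 < a n := by
    have h2 := h.a_ge n hn1
    have h3 := h.x_ge
    linarith
  have h1 := h.cond_le hn1 hn2 hθ.le (hA n hn0)
  refine le_trans ?_ h1
  exact measureReal_mono (fun ω hω => hGA n ha ω hω) (by finiteness)

/-- a set contained in sets of arbitrarily small measure -/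
theorem QE6a_null (hK : 1 ≤ K) {P : Measure (ℚ → ℝ)} [IsProbabilityMeasure P] {B : Set (ℚ → ℝ)}
    (hB : ∀ θ > (0 : ℝ), ∃ G, B ⊆ G ∧ P.real G ≤ K * θ) : P B = 0 := by
  have h1 : P.real B ≤ 0 := by
    refine le_of_forall_pos_le_add fun ε hε => ?_
    obtain ⟨G, h2, h3⟩ := hB (ε / K) (by positivity)
    have h4 : P.real B ≤ P.real G := measureReal_mono h2 (by finiteness)
    have h5 : K * (ε / K) = ε := by
      field_simp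
    linarith
  have h2 : P.real B = 0 := le_antisymm h1 measureReal_nonneg
  exact (measureReal_eq_zero_iff (by finiteness)).1 h2

theorem QE6a_osc (h : QS D μ ν a L V V' p K x₀) {P : Measure (ℚ → ℝ)} (hP : LP D μ ν a P) (k : ℕ) :
    P {x | ¬ ∃ m : ℕ, ¬ CHQ (1 / ((k : ℝ) + 1)) m (1 / ((k : ℝ) + 2)) (1 - 1 / ((k : ℝ) + 2)) x} = 0 := by
  have := hP.prob
  refine QE6a_null h.K_ge fun θ hθ => ?_
  have hδ : (0 : ℝ) < 1 / ((k : ℝ) + 2) := by positivity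
  obtain ⟨m, n₀, hm⟩ := h.CH_cond hδ (show (0 : ℝ) < 1 / ((k : ℝ) + 1) by positivity) hθ
  refine ⟨{x | CHQ (1 / ((k : ℝ) + 1)) m (1 / ((k : ℝ) + 2)) (1 - 1 / ((k : ℝ) + 2)) x},
    fun x hx => ?_, ?_⟩
  · by_contra hc
    exact hx ⟨m, hc⟩
  · refine QE6a_open h hP (isOpen_CHQ _ _ _ _) hθ n₀
      (fun n => {ω | CH (1 / ((k : ℝ) + 1) * a n) m ⌊1 / ((k : ℝ) + 2) * n⌋₊
        ⌊(1 - 1 / ((k : ℝ) + 2)) * n⌋₊ (fun i => Zw i ω)}) (fun n hn => ?_) fun n ha ω hω => ?_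
    · refine hm n hn _ _ (Nat.lt_floor_add_one _).le (Nat.floor_le ?_)
      have h1 : 1 / ((k : ℝ) + 2) ≤ 1 := by
        rw [div_le_one (by positivity)]
        have : (0 : ℝ) ≤ k := Nat.cast_nonneg k
        linarith
      exact mul_nonneg (by linarith) (Nat.cast_nonneg n)
    · exact CHQ_XQ (by positivity) hδ (by linarith) ha hω

theorem QE6a_low (h : QS D μ ν a L V V' p K x₀) {P : Measure (ℚ → ℝ)} (hP : LP D μ ν a P) (k : ℕ) :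
    P {x | ¬ ∃ η > (0 : ℝ), ∀ q : ℚ, 1 / ((k : ℝ) + 2) ≤ q → (q : ℝ) ≤ 1 - 1 / ((k : ℝ) + 2) →
      η ≤ x q} = 0 := by
  have := hP.prob
  refine QE6a_null h.K_ge fun θ hθ => ?_
  have hδ : (0 : ℝ) < 1 / ((k : ℝ) + 2) := by positivity
  obtain ⟨η, hη, n₀, hm⟩ := h.low_bulk hδ hθ
  refine ⟨{x | ∃ q : ℚ, (1 / ((k : ℝ) + 2) ≤ q ∧ (q : ℝ) ≤ 1 - 1 / ((k : ℝ) + 2)) ∧ x q < η},
    fun x hx => ?_, ?_⟩
  · by_contra hc
    refine hx ⟨η, hη, fun q h1 h2 => ?_⟩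
    by_contra h3
    exact hc ⟨q, ⟨h1, h2⟩, not_le.1 h3⟩
  · refine QE6a_open h hP ?_ hθ n₀ _ (fun n hn => hm n hn) fun n ha ω hω => ?_
    · have e : {x : ℚ → ℝ | ∃ q : ℚ, (1 / ((k : ℝ) + 2) ≤ q ∧ (q : ℝ) ≤ 1 - 1 / ((k : ℝ) + 2)) ∧
          x q < η} = ⋃ q : ℚ, {x : ℚ → ℝ |
          (1 / ((k : ℝ) + 2) ≤ q ∧ (q : ℝ) ≤ 1 - 1 / ((k : ℝ) + 2)) ∧ x q < η} := by
        ext x
        simp only [Set.mem_setOf_eq, Set.mem_iUnion]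
      rw [e]
      refine isOpen_iUnion fun q => IsOpen.and isOpen_const ?_
      exact isOpen_lt (continuous_apply q) continuous_const
    · obtain ⟨q, ⟨h1, h2⟩, h3⟩ := hω
      have hn : (0 : ℝ) ≤ n := Nat.cast_nonneg n
      have hq0 : (0 : ℝ) < q := lt_of_lt_of_le hδ h1
      rw [QE6a_XQ hq0 (by linarith), div_lt_iff₀ ha] at h3
      refine ⟨⌊(q : ℝ) * n⌋₊, ?_, ?_, h3⟩
      · exact (mul_le_mul_of_nonneg_right h1 hn).trans (Nat.lt_floor_add_one _).le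
      · exact (Nat.floor_le (mul_nonneg hq0.le hn)).trans (mul_le_mul_of_nonneg_right h2 hn)

/-- PROOF. For each `k` (`c = 1/(k+1)`, `δ = 1/(k+2)`). Oscillations: for every `θ > 0` there is `m` with `P {x | CHQ c m δ (1-δ) x} ≤ K θ`: `LP.opn`, `isOpen_CHQ`, `CHQ_XQ`, `QS.CH_cond` (`s = ⌊δ n⌋₊`: `δ n ≤ s + 1`; `T = ⌊(1-δ) n⌋₊`), `QS.cond_le`, `eventually_lQ`. So
`P (⋂ m, {CHQ c m δ (1-δ)}) = 0`. Low values: `{x | ∃ q : ℚ, δ ≤ q ∧ q ≤ 1 - δ ∧ x q < η}` is open and has probability `≤ K θ` by `QS.low_bulk` (`i = ⌊q n⌋₊`, `δ n ≤ q n ≤ i + 1`, `i ≤ (1-δ) n`; `XQ a n ω q < η` iff `Zw i ω < η a n`); with `η = η(θ)`, `θ → 0`: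
the complement of `{∃ η > 0, ∀ q …}` is a null set. `ae_all_iff`. -/
theorem LP.good (h : QS D μ ν a L V V' p K x₀) {P : Measure (ℚ → ℝ)} (hP : LP D μ ν a P) :
    ∀ᵐ x ∂P, GoodQ x := by
  refine ae_all_iff.2 fun k => ?_
  have h1 : ∀ᵐ x ∂P, ∃ m : ℕ,
      ¬ CHQ (1 / ((k : ℝ) + 1)) m (1 / ((k : ℝ) + 2)) (1 - 1 / ((k : ℝ) + 2)) x :=
    ae_iff.2 (QE6a_osc h hP k)
  have h2 : ∀ᵐ x ∂P, ∃ η > (0 : ℝ), ∀ q : ℚ, 1 / ((k : ℝ) + 2) ≤ q →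
      (q : ℝ) ≤ 1 - 1 / ((k : ℝ) + 2) → η ≤ x q := ae_iff.2 (QE6a_low h hP k)
  exact h1.and h2

end Pool.Agent.BPT
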