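import Pool.Agent.MP_99a865_pr.ST.QE4
import Pool.Agent.MP_99a865_pr.ST.QE5
import Pool.Agent.MP_99a865_pr.ST.QW11a

/-! **[STB-QE6b]** The right limit at a rational time is the value. -/

open MeasureTheory ProbabilityTheory Filter Topology
open scoped ENNReal NNReal

namespace Pool.Agent.BPT

variable {D : Set ℝ} {μ ν : Measure ℝ} {a : ℕ → ℝ} {L V V' : ℝ → ℝ} {p K x₀ : ℝ}

/-- convergence in probability -/
theorem QE6b_prob (h : QS D μ ν a L V V' p K x₀) {P : Measure (ℚ → ℝ)} (hP : LP D μ ν a P)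
    {q : ℚ} (h0 : 0 < q) (h1 : q < 1) {ε θ : ℝ} (hε : 0 < ε) (hθ : 0 < θ) :
    ∃ M : ℕ, ∀ m ≥ M, P.real {x : ℚ → ℝ | ε < |x (dyq m q) - x q|} ≤ θ := by
  have hK : 0 < K := lt_of_lt_of_le one_pos h.K_ge
  have h0' : (0 : ℝ) < q := by exact_mod_cast h0
  have h1' : (q : ℝ) < 1 := by exact_mod_cast h1
  set δ : ℝ := min (q : ℝ) (1 - q) / 4 with hδdef
  have hm1 : min (q : ℝ) (1 - q) ≤ q := min_le_left _ _
  have hm2 : min (q : ℝ) (1 - q) ≤ 1 - q := min_le_right _ _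
  have hm0 : 0 < min (q : ℝ) (1 - q) := lt_min h0' (by linarith)
  have hδ : 0 < δ := by positivity
  obtain ⟨κ, hκ, n₀, hosc⟩ := h.osc δ hδ ε hε (θ / K) (by positivity)
  obtain ⟨M, hM⟩ := exists_pow_lt_of_lt_one (show 0 < min (κ / 2) δ from lt_min (by positivity) hδ)
    (show (1 / 2 : ℝ) < 1 by norm_num)
  refine ⟨M, fun m hm => ?_⟩
  have hpow : 1 / (2 : ℝ) ^ m ≤ min (κ / 2) δ := by
    have h2 : (1 / 2 : ℝ) ^ m ≤ (1 / 2 : ℝ) ^ M := pow_le_pow_of_le_one (by norm_num) (by norm_num) hm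
    rw [one_div_pow] at h2
    linarith
  have hq1 : (q : ℝ) < dyq m q := dyq_gt m q
  have hq2 : (dyq m q : ℝ) ≤ q + 1 / 2 ^ m := dyq_le m q
  have hp1 : 1 / (2 : ℝ) ^ m ≤ κ / 2 := hpow.trans (min_le_left _ _)
  have hp2 : 1 / (2 : ℝ) ^ m ≤ δ := hpow.trans (min_le_right _ _)
  have hq3 : (dyq m q : ℝ) ≤ 1 - δ := by linarith
  have hq4 : (0 : ℚ) < dyq m q ∧ dyq m q < 1 := by
    constructor
    · exact_mod_cast (h0'.trans hq1)
    · have : (dyq m q : ℝ) < 1 := by linarith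
      exact_mod_cast this
  have hopen : IsOpen {x : ℚ → ℝ | ε < |x (dyq m q) - x q|} :=
    isOpen_lt continuous_const (((continuous_apply (dyq m q)).sub (continuous_apply q)).abs)
  refine hP.opn _ hopen θ hθ.le ?_
  rw [eventually_lQ]
  refine ⟨n₀ + ⌈1 / δ⌉₊ + ⌈2 / κ⌉₊ + 1, fun n hn hne => ?_⟩
  have hn0 : (0 : ℝ) < n := by exact_mod_cast (by omega : 0 < n)
  have hnδ : 1 ≤ δ * n := by
    have h3 : 1 / δ ≤ n := (Nat.le_ceil _).trans (by exact_mod_cast (by omega : ⌈1 / δ⌉₊ ≤ n))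
    rwa [div_le_iff₀ hδ, mul_comm] at h3
  have hnκ : 2 ≤ κ * n := by
    have h3 : 2 / κ ≤ n := (Nat.le_ceil _).trans (by exact_mod_cast (by omega : ⌈2 / κ⌉₊ ≤ n))
    rwa [div_le_iff₀ hκ, mul_comm] at h3
  have ha : 0 < a n := lt_of_lt_of_le (by linarith [h.x_ge]) (h.a_ge n (by omega))
  have hfl := Nat.lt_floor_add_one ((q : ℝ) * n)
  have hfu := Nat.floor_le (show 0 ≤ (dyq m q : ℝ) * n from mul_nonneg (h0'.trans hq1).le hn0.le)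
  have e1 : δ * n ≤ (⌊(q : ℝ) * n⌋₊ : ℝ) := by nlinarith
  have e2 : (⌊(dyq m q : ℝ) * n⌋₊ : ℝ) ≤ (1 - δ) * n := hfu.trans (mul_le_mul_of_nonneg_right hq3 hn0.le)
  have e3 : (⌊(dyq m q : ℝ) * n⌋₊ : ℝ) ≤ ⌊(q : ℝ) * n⌋₊ + κ * n := by
    have : (dyq m q : ℝ) * n ≤ (q + κ / 2) * n := mul_le_mul_of_nonneg_right (by linarith) hn0.le
    nlinarith
  have e4 : ⌊(q : ℝ) * n⌋₊ ≤ ⌊(dyq m q : ℝ) * n⌋₊ := Nat.floor_mono (mul_le_mul_of_nonneg_right hq1.le hn0.le)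
  have h5 := hosc n (by omega) _ _ e4 e1 e2 e3
  have h6 : PQ μ ν (EvN D n ∩ {ω | XQ a n ω ∈ {x : ℚ → ℝ | ε < |x (dyq m q) - x q|}}) ≤
      ENNReal.ofReal (θ / K * bb V a n) := by
    refine (measure_mono ?_).trans h5
    rintro ω ⟨h7, h8⟩
    refine ⟨h7, ?_⟩
    simp only [Set.mem_setOf_eq, XQ, if_pos hq4, if_pos (And.intro h0 h1)] at h8 ⊢
    rw [← sub_div, abs_div, abs_of_pos ha, lt_div_iff₀ ha] at h8
    exact h8.le
  have h7 := h.cond_le (by omega) hne (by positivity) h6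
  rwa [mul_div_cancel₀ _ hK.ne'] at h7

/-- PROOF. Let `δ > 0` with `2 δ < q < 1 - 2 δ`, `ε, θ > 0`. `QS.osc` (`δ`, `ε`, `θ`) gives `κ`. For `m` large `q < q' = dyq m q ≤ q + 1/2^m`, `1/2^m ≤ κ/2`, `q' ≤ 1 - δ`; the set `G_m = {x | ε < |x q' - x q|}` is open, and for `n` large
(`i = ⌊q n⌋₊ ≥ δ n`, `k = ⌊q' n⌋₊ ≤ (1-δ) n`, `k ≤ i + κ n`) `P(XQ a n ω ∈ G_m | N = n) ≤ K θ` (`QS.osc`, `QS.cond_le`), so `P G_m ≤ K θ` (`LP.opn`). On `GoodQ` (`hg`) `x (dyq m q) → eR q x` (`GoodQ.path`), so `{2 ε < |eR q x - x q|}` is contained in the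
`liminf` of the `G_m` up to a null set and `P {2 ε < |eR q x - x q|} ≤ liminf P G_m ≤ K θ` (`measure_liminf_le`-type lemma or: the sets `⋂_{m ≥ M} G_m` increase with `M`). `θ → 0`, then `ε = 1/j`. -/
theorem LP.fix (h : QS D μ ν a L V V' p K x₀) {P : Measure (ℚ → ℝ)} (hP : LP D μ ν a P) (hg : ∀ᵐ x ∂P, GoodQ x)
    {q : ℚ} (h0 : 0 < q) (h1 : q < 1) : ∀ᵐ x ∂P, eR q x = x q := by
  have hpr := hP.prob
  have hnull : ∀ ε : ℝ, 0 < ε → ∀ M : ℕ, P (⋂ m : ℕ, ⋂ (_ : M ≤ m), {x : ℚ → ℝ | ε < |x (dyq m q) - x q|}) = 0 := by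
    intro ε hε M
    have h2 : ∀ θ : ℝ, 0 < θ → P.real (⋂ m : ℕ, ⋂ (_ : M ≤ m), {x : ℚ → ℝ | ε < |x (dyq m q) - x q|}) ≤ θ := by
      intro θ hθ
      obtain ⟨M', hM'⟩ := QE6b_prob h hP h0 h1 hε hθ
      refine (measureReal_mono ?_).trans (hM' (max M M') (le_max_right _ _))
      exact (Set.iInter_subset _ (max M M')).trans (Set.iInter_subset _ (le_max_left _ _))
    have h3 : P.real (⋂ m : ℕ, ⋂ (_ : M ≤ m), {x : ℚ → ℝ | ε < |x (dyq m q) - x q|}) ≤ 0 :=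
      le_of_forall_pos_le_add fun θ hθ => by linarith [h2 θ hθ]
    rw [← measureReal_eq_zero_iff]
    exact le_antisymm h3 measureReal_nonneg
  have hall : ∀ᵐ x ∂P, ∀ j : ℕ, ∀ M : ℕ,
      x ∉ ⋂ m : ℕ, ⋂ (_ : M ≤ m), {x : ℚ → ℝ | 1 / ((j : ℝ) + 1) < |x (dyq m q) - x q|} := by
    rw [ae_all_iff]
    intro j
    rw [ae_all_iff]
    intro M
    exact measure_eq_zero_iff_ae_notMem.1 (hnull _ (by positivity) M)
  filter_upwards [hg, hall] with x hx hx2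
  have h3 := (hx.path (by exact_mod_cast h0 : (0 : ℝ) < q) (by exact_mod_cast h1)).1
  by_contra hne
  have hd : 0 < |eR q x - x q| := abs_pos.2 (sub_ne_zero.2 hne)
  obtain ⟨j, hj⟩ := exists_nat_one_div_lt hd
  have h4 : ∀ᶠ m : ℕ in atTop, 1 / ((j : ℝ) + 1) < |x (dyq m q) - x q| :=
    (h3.sub_const (x q)).abs.eventually_const_lt hj
  obtain ⟨M, hM⟩ := eventually_atTop.1 h4
  exact hx2 j M (Set.mem_iInter.2 fun m => Set.mem_iInter.2 fun hm => hM m hm)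

end Pool.Agent.BPT
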