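import Pool.Agent.MP_99a865_pr.ST.QE6a
import Pool.Agent.MP_99a865_pr.ST.QE6b

/-! **[STB-QE7]** Existence of the limit process. -/

open MeasureTheory ProbabilityTheory Filter Topology
open scoped ENNReal NNReal

namespace Pool.Agent.BPT

variable {D : Set ℝ} {μ ν : Measure ℝ} {a : ℕ → ℝ}

theorem QE7_cont {M : ℝ} {f : ℝ → ℝ} (hf : BL M f) : Continuous f := by
  have hM : 0 ≤ M := (abs_nonneg _).trans (hf.bd 0)
  refine (LipschitzWith.of_dist_le_mul (K := M.toNNReal) fun x y => ?_).continuous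
  rw [Real.dist_eq, Real.dist_eq, Real.coe_toNNReal _ hM]
  exact hf.lip x y

/-- PROOF. `exists_LP`, `LP.good`, `LP.fix`, `GoodQ.path`. `meas`: `Measurable.limsup`. `fdd`: `∏ f j (eR (j/k) x) = ∏ f j (x (j/k : ℚ))` almost surely (`LP.fix` for the finitely many `q = j/k`), and `∫ ∏ f j (x (j/k)) dP = Φ (gl k f)` by `LP.int` and `QC.fdd`: `XQ a n ω (j/k) = Zw (gg k n j) ω / a n`
(`gg k n j = ⌊(j:ℝ)/k * n⌋₊`). -/
theorem exists_EP {Φ : List (ℝ × (ℝ → ℝ)) → ℝ} (h : QC Φ D μ ν a) (hne : (lQ D μ ν).NeBot) :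
    ∃ P : Measure (ℚ → ℝ), EP Φ P eR ∧ ∀ᵐ x ∂P, ∀ t : ℝ, 0 < t → t < 1 → ∃ l : ℝ, Tendsto (fun s => eR s x) (𝓝[<] t) (𝓝 l) := by
  obtain ⟨hF, L, V, V', p, K, x₀, hS⟩ := h
  obtain ⟨P, hP⟩ := exists_LP hS hne
  have hg := hP.good hS
  refine ⟨P, ⟨hP.prob, fun t => Measurable.limsup fun m => measurable_pi_apply _, ?_, ?_⟩, ?_⟩
  · filter_upwards [hg] with x hx t h0 h1
    exact ⟨(hx.path h0 h1).2.1, (hx.path h0 h1).2.2.1⟩
  · intro k hk f hf
    obtain ⟨M, hM, hfM⟩ := hf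
    have hk0 : (0 : ℝ) < k := by exact_mod_cast (by omega : 0 < k)
    have hcast : ∀ j : ℕ, (((j : ℚ) / (k : ℚ) : ℚ) : ℝ) = (j : ℝ) / k := fun j => by push_cast; rfl
    have hkQ : (0 : ℚ) < k := by exact_mod_cast (by omega : 0 < k)
    have h01 : ∀ j ∈ Finset.Ico 1 k, (0 : ℚ) < (j : ℚ) / k ∧ (j : ℚ) / k < 1 := by
      intro j hj
      have hj' := Finset.mem_Ico.1 hj
      refine ⟨div_pos (by exact_mod_cast (by omega : 0 < j)) hkQ, ?_⟩
      rw [div_lt_one hkQ]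
      exact_mod_cast hj'.2
    have hfix : ∀ᵐ x ∂P, ∀ j ∈ Finset.Ico 1 k, eR ((j : ℝ) / k) x = x ((j : ℚ) / k) := by
      rw [eventually_all_finset]
      intro j hj
      have h1 := hP.fix hS hg (h01 j hj).1 (h01 j hj).2
      filter_upwards [h1] with x hx
      rw [← hcast j]
      exact hx
    have h1 : ∫ x, ∏ j ∈ Finset.Ico 1 k, f j (eR ((j : ℝ) / k) x) ∂P =
        ∫ x, ∏ j ∈ Finset.Ico 1 k, f j (x ((j : ℚ) / k)) ∂P := by
      refine integral_congr_ae ?_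
      filter_upwards [hfix] with x hx
      exact Finset.prod_congr rfl fun j hj => by rw [hx j hj]
    rw [h1]
    refine hP.int (fun x => ∏ j ∈ Finset.Ico 1 k, f j (x ((j : ℚ) / k))) (∏ _j ∈ Finset.Ico 1 k, M) _ ?_ ?_ ?_
    · exact continuous_finsetProd _ fun j _ => (QE7_cont (hfM j)).comp (continuous_apply _)
    · intro x
      rw [Finset.abs_prod]
      exact Finset.prod_le_prod (fun j _ => abs_nonneg _) fun j _ => (hfM j).bd _
    · have h2 := hF k hk f ⟨M, hM, hfM⟩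
      refine h2.congr fun n => ?_
      unfold EN
      congr 1
      refine integral_congr_ae (Eventually.of_forall fun ω => ?_)
      refine Finset.prod_congr rfl fun j hj => ?_
      unfold XQ gg
      rw [if_pos (h01 j hj), hcast]
  · filter_upwards [hg] with x hx t h0 h1
    exact (hx.path h0 h1).2.2.2

end Pool.Agent.BPT
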