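import Pool.Agent.MP_99a865_pr.ST.QW11a
import Pool.Agent.MP_99a865_pr.ST.QW14a

/-! **[STB-QE8a]** Products of functions of the walk at nearby times. -/

open MeasureTheory ProbabilityTheory Filter Topology
open scoped ENNReal NNReal

namespace Pool.Agent.BPT

variable {D : Set ℝ} {μ ν : Measure ℝ} {a : ℕ → ℝ} {L V V' : ℝ → ℝ} {p K x₀ : ℝ}

theorem QE8a_cont {M : ℝ} {f : ℝ → ℝ} (hf : BL M f) : Continuous f := by
  have hM : 0 ≤ M := (abs_nonneg _).trans (hf.bd 0)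
  refine (LipschitzWith.of_dist_le_mul (K := M.toNNReal) fun x y => ?_).continuous
  rw [Real.dist_eq, Real.dist_eq, Real.coe_toNNReal _ hM]
  exact hf.lip x y

theorem QE8a_prod {M : ℝ} (hM : 1 ≤ M) {x y : ℕ → ℝ} (hx : ∀ j, |x j| ≤ M) (hy : ∀ j, |y j| ≤ M) (m : ℕ) :
    |∏ j ∈ Finset.range m, x j - ∏ j ∈ Finset.range m, y j| ≤ M ^ m * ∑ j ∈ Finset.range m, |x j - y j| := by
  have hM0 : 0 < M := lt_of_lt_of_le one_pos hM
  induction m with
  | zero => simp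
  | succ m ih =>
    rw [Finset.prod_range_succ, Finset.prod_range_succ, Finset.sum_range_succ]
    have h1 : (∏ j ∈ Finset.range m, x j) * x m - (∏ j ∈ Finset.range m, y j) * y m =
        (∏ j ∈ Finset.range m, x j - ∏ j ∈ Finset.range m, y j) * x m +
          (∏ j ∈ Finset.range m, y j) * (x m - y m) := by ring
    have h2 : |∏ j ∈ Finset.range m, y j| ≤ M ^ m := by
      rw [Finset.abs_prod]
      refine (Finset.prod_le_prod (fun j _ => abs_nonneg _) fun j _ => hy j).trans ?_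
      simp
    have h0 : 0 ≤ ∑ j ∈ Finset.range m, |x j - y j| := Finset.sum_nonneg fun _ _ => abs_nonneg _
    rw [h1]
    refine (abs_add_le _ _).trans ?_
    rw [abs_mul, abs_mul]
    have h3 : |∏ j ∈ Finset.range m, x j - ∏ j ∈ Finset.range m, y j| * |x m| ≤
        (M ^ m * ∑ j ∈ Finset.range m, |x j - y j|) * M :=
      mul_le_mul ih (hx m) (abs_nonneg _) (by positivity)
    have h4 : |∏ j ∈ Finset.range m, y j| * |x m - y m| ≤ M ^ m * |x m - y m| :=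
      mul_le_mul_of_nonneg_right h2 (abs_nonneg _)
    have h5 : M ^ m * |x m - y m| ≤ M ^ (m + 1) * |x m - y m| :=
      mul_le_mul_of_nonneg_right (pow_le_pow_right₀ hM (Nat.le_succ m)) (abs_nonneg _)
    calc _ ≤ (M ^ m * ∑ j ∈ Finset.range m, |x j - y j|) * M + M ^ (m + 1) * |x m - y m| := by linarith
      _ = _ := by ring

/-- PROOF. `B = (max M 1)^m`, `X = ∏ f j (Zw ⌊σ j n⌋₊ / a n) / B`, `Y` with `σ'`; both are in `[-1,1]`, so with `F x = max (-1) (min 1 x)` (`BL 1 F`) `F X = X`, `F Y = Y`. `QS.EN_close` and `QS.close_of_event` with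
`A = {∃ j < m, ε a n ≤ |Zw ⌊σ' j n⌋₊ - Zw ⌊σ j n⌋₊|}`, whose probability is bounded by `QS.osc` (`δ/2`, `ε`, `θ'`; `m` times), `n` large: `(δ/2) n ≤ ⌊σ j n⌋₊`, `⌊σ' j n⌋₊ ≤ ⌊σ j n⌋₊ + 1 + (κ'/2) n`); outside `A`: `|X - Y| ≤ ∑_{j < m} M |Zw ⌊σ' j n⌋₊ - Zw ⌊σ j n⌋₊|/a n ≤ m M ε`. -/
theorem QS.prod_close (h : QS D μ ν a L V V' p K x₀) (m : ℕ) {M : ℝ} (hM : 0 < M) {f : ℕ → ℝ → ℝ} (hf : ∀ j, BL M (f j))
    {δ : ℝ} (hδ : 0 < δ) : ∀ θ > (0 : ℝ), ∃ κ > (0 : ℝ), ∀ σ σ' : ℕ → ℝ,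
      (∀ j < m, δ ≤ σ j ∧ σ j ≤ σ' j ∧ σ' j ≤ 1 - δ ∧ σ' j ≤ σ j + κ) →
      ∃ n₀ : ℕ, ∀ n ≥ n₀, PQ μ ν (EvN D n) ≠ 0 →
        |EN D μ ν n (fun ω => ∏ j ∈ Finset.range m, f j (Zw ⌊σ j * n⌋₊ ω / a n)) -
          EN D μ ν n (fun ω => ∏ j ∈ Finset.range m, f j (Zw ⌊σ' j * n⌋₊ ω / a n))| ≤ θ := by
  intro θ hθ
  have hK : 0 < K := lt_of_lt_of_le one_pos h.K_ge
  set M₁ : ℝ := max M 1 with hM₁
  have hM1 : 1 ≤ M₁ := le_max_right _ _
  have hM10 : 0 < M₁ := lt_of_lt_of_le one_pos hM1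
  set B : ℝ := M₁ ^ m with hB
  have hB0 : 0 < B := by positivity
  set τ : ℝ := θ / (2 * K * (K ^ 2 + 1) * B) with hτ
  have hτ0 : 0 < τ := by positivity
  set ε : ℝ := τ / (m * M + 1) with hε
  have hmM : 0 < (m : ℝ) * M + 1 := by positivity
  have hε0 : 0 < ε := by positivity
  obtain ⟨κ, hκ, n₀, hosc⟩ := h.osc (δ / 2) (half_pos hδ) ε hε0 (τ / (m + 1)) (by positivity)
  refine ⟨κ / 2, half_pos hκ, fun σ σ' hσ => ⟨n₀ + ⌈2 / δ⌉₊ + ⌈2 / κ⌉₊ + 1, fun n hn hP => ?_⟩⟩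
  have hn0 : (0 : ℝ) < n := by exact_mod_cast (by omega : 0 < n)
  have hnδ : 2 ≤ δ * n := by
    have h3 : 2 / δ ≤ n := (Nat.le_ceil _).trans (by exact_mod_cast (by omega : ⌈2 / δ⌉₊ ≤ n))
    rwa [div_le_iff₀ hδ, mul_comm] at h3
  have hnκ : 2 ≤ κ * n := by
    have h3 : 2 / κ ≤ n := (Nat.le_ceil _).trans (by exact_mod_cast (by omega : ⌈2 / κ⌉₊ ≤ n))
    rwa [div_le_iff₀ hκ, mul_comm] at h3
  have ha : 0 < a n := lt_of_lt_of_le (by linarith [h.x_ge]) (h.a_ge n (by omega))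
  have hbb := h.bb_pos n (by omega)
  set A : Set (ℕ → ℝ × ℝ) := {ω | ∃ j < m, ε * a n ≤ |Zw ⌊σ' j * n⌋₊ ω - Zw ⌊σ j * n⌋₊ ω|} with hA
  have hPA : PQ μ ν (EvN D n ∩ A) ≤ ENNReal.ofReal (τ * bb V a n) := by
    have h1 : EvN D n ∩ A ⊆ ⋃ j ∈ Finset.range m,
        (EvN D n ∩ {ω | ε * a n ≤ |Zw ⌊σ' j * n⌋₊ ω - Zw ⌊σ j * n⌋₊ ω|}) := by
      rintro ω ⟨h2, j, hj, h3⟩
      exact Set.mem_iUnion₂.2 ⟨j, Finset.mem_range.2 hj, h2, h3⟩
    refine (measure_mono h1).trans ((measure_biUnion_finset_le _ _).trans ?_)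
    calc ∑ j ∈ Finset.range m, PQ μ ν (EvN D n ∩ {ω | ε * a n ≤ |Zw ⌊σ' j * n⌋₊ ω - Zw ⌊σ j * n⌋₊ ω|})
        ≤ ∑ _j ∈ Finset.range m, ENNReal.ofReal (τ / (m + 1) * bb V a n) := by
          refine Finset.sum_le_sum fun j hj => ?_
          obtain ⟨s1, s2, s3, s4⟩ := hσ j (Finset.mem_range.1 hj)
          have hfl := Nat.lt_floor_add_one (σ j * n)
          have hfu := Nat.floor_le (show 0 ≤ σ' j * n from mul_nonneg (by linarith) hn0.le)
          refine hosc n (by omega) _ _ (Nat.floor_mono (mul_le_mul_of_nonneg_right s2 hn0.le)) ?_ ?_ ?_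
          · nlinarith
          · refine hfu.trans (mul_le_mul_of_nonneg_right (by linarith) hn0.le)
          · have : σ' j * n ≤ (σ j + κ / 2) * n := mul_le_mul_of_nonneg_right s4 hn0.le
            nlinarith
      _ = ENNReal.ofReal (m * (τ / (m + 1) * bb V a n)) := by
          rw [Finset.sum_const, Finset.card_range, nsmul_eq_mul, ← ENNReal.ofReal_natCast m,
            ← ENNReal.ofReal_mul (Nat.cast_nonneg m)]
      _ ≤ ENNReal.ofReal (τ * bb V a n) := by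
          refine ENNReal.ofReal_le_ofReal ?_
          have h4 : (m : ℝ) * (τ / (m + 1)) ≤ τ := by
            rw [← mul_div_assoc, div_le_iff₀ (by positivity)]
            nlinarith
          nlinarith
  set X : (ℕ → ℝ × ℝ) → ℝ := fun ω => (∏ j ∈ Finset.range m, f j (Zw ⌊σ j * n⌋₊ ω / a n)) / B with hX
  set Y : (ℕ → ℝ × ℝ) → ℝ := fun ω => (∏ j ∈ Finset.range m, f j (Zw ⌊σ' j * n⌋₊ ω / a n)) / B with hY
  have hfM1 : ∀ j x, |f j x| ≤ M₁ := fun j x => ((hf j).bd x).trans (le_max_left _ _)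
  have hbd : ∀ z : ℕ → ℝ, |(∏ j ∈ Finset.range m, f j (z j)) / B| ≤ 1 := by
    intro z
    rw [abs_div, abs_of_pos hB0, div_le_one hB0, Finset.abs_prod]
    refine (Finset.prod_le_prod (fun j _ => abs_nonneg _) fun j _ => hfM1 j (z j)).trans ?_
    simp [hB]
  have hXm : Measurable X := (Finset.measurable_prod _ fun j _ =>
    (QE8a_cont (hf j)).measurable.comp ((measurable_Zw _).div_const _)).div_const _
  have hYm : Measurable Y := (Finset.measurable_prod _ fun j _ =>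
    (QE8a_cont (hf j)).measurable.comp ((measurable_Zw _).div_const _)).div_const _
  have hXY : ∀ ω, ω ∈ EvN D n → NN ω → ω ∉ A → |X ω - Y ω| ≤ τ := by
    intro ω _ _ hω
    have h1 : ∀ j < m, |Zw ⌊σ' j * n⌋₊ ω - Zw ⌊σ j * n⌋₊ ω| < ε * a n := by
      intro j hj
      by_contra hcon
      exact hω ⟨j, hj, not_lt.1 hcon⟩
    have h2 := QE8a_prod hM1 (x := fun j => f j (Zw ⌊σ j * n⌋₊ ω / a n))
      (y := fun j => f j (Zw ⌊σ' j * n⌋₊ ω / a n)) (fun j => hfM1 j _) (fun j => hfM1 j _) m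
    have h3 : ∑ j ∈ Finset.range m, |f j (Zw ⌊σ j * n⌋₊ ω / a n) - f j (Zw ⌊σ' j * n⌋₊ ω / a n)| ≤ m * (M * ε) := by
      refine (Finset.sum_le_card_nsmul _ _ (M * ε) fun j hj => ?_).trans (by simp)
      refine ((hf j).lip _ _).trans (mul_le_mul_of_nonneg_left ?_ hM.le)
      have h4 := h1 j (Finset.mem_range.1 hj)
      rw [← sub_div, abs_div, abs_of_pos ha, div_le_iff₀ ha, abs_sub_comm]
      exact h4.le
    simp only [hX, hY]
    rw [← sub_div, abs_div, abs_of_pos hB0, div_le_iff₀ hB0]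
    refine h2.trans ?_
    have h5 : (m : ℝ) * (M * ε) ≤ τ := by
      have : (m : ℝ) * (M * ε) ≤ (m * M + 1) * ε := by nlinarith
      refine this.trans ?_
      rw [hε, mul_div_cancel₀ _ hmM.ne']
    calc M₁ ^ m * ∑ j ∈ Finset.range m, |f j (Zw ⌊σ j * n⌋₊ ω / a n) - f j (Zw ⌊σ' j * n⌋₊ ω / a n)|
        ≤ M₁ ^ m * τ := mul_le_mul_of_nonneg_left (h3.trans h5) (by positivity)
      _ = τ * B := by rw [hB]; ring
  have hF : BL 1 fun x : ℝ => max (-1) (min 1 x) := by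
    constructor
    · intro x
      rw [abs_le]
      exact ⟨le_max_left _ _, max_le (by norm_num) (min_le_left _ _)⟩
    · intro x y
      rw [one_mul]
      exact (abs_max_sub_max_le_max (-1) (min 1 x) (-1) (min 1 y)).trans
        (max_le (by simp) ((abs_min_sub_min_le_max 1 x 1 y).trans (max_le (by simp) le_rfl)))
  have hFx : ∀ x : ℝ, |x| ≤ 1 → max (-1) (min 1 x) = x := by
    intro x hx
    obtain ⟨h1, h2⟩ := abs_le.1 hx
    rw [min_eq_right h2, max_eq_right h1]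
  have hc := h.close_of_event (by omega) hτ0.le hPA hXY
  have hE := h.EN_close hF (by omega) hP hXm hYm (τ := (K ^ 2 + 1) * τ) (by positivity) hc
  have e1 : (fun ω => max (-1) (min 1 (X ω))) = X := funext fun ω => hFx _ (hbd _)
  have e2 : (fun ω => max (-1) (min 1 (Y ω))) = Y := funext fun ω => hFx _ (hbd _)
  rw [e1, e2] at hE
  have e3 : ∀ Z : (ℕ → ℝ × ℝ) → ℝ, EN D μ ν n (fun ω => Z ω / B) = EN D μ ν n Z / B := by
    intro Z
    unfold EN
    rw [integral_div]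
    ring
  have e4 : EN D μ ν n X = EN D μ ν n (fun ω => ∏ j ∈ Finset.range m, f j (Zw ⌊σ j * n⌋₊ ω / a n)) / B := e3 _
  have e5 : EN D μ ν n Y = EN D μ ν n (fun ω => ∏ j ∈ Finset.range m, f j (Zw ⌊σ' j * n⌋₊ ω / a n)) / B := e3 _
  rw [e4, e5, ← sub_div, abs_div, abs_of_pos hB0, div_le_iff₀ hB0] at hE
  refine hE.trans (le_of_eq ?_)
  rw [hτ]
  field_simp

end Pool.Agent.BPT
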