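import Pool.Agent.MP_99a865_pr.ST.QE7
import Pool.Agent.MP_99a865_pr.ST.QE8a
import Pool.Agent.MP_99a865_pr.ST.QXb
import Pool.Agent.MP_99a865_pr.ST.SDefs

/-! **[STB-QE8b]** Existence of the normalised excursion. -/

open MeasureTheory ProbabilityTheory Filter Topology
open scoped ENNReal NNReal

namespace Pool.Agent.BPT

variable {α : ℝ} {ζ μ ν : Measure ℝ} {a : ℕ → ℝ} {D : Set ℝ}

theorem QE8b_dyq (t : ℝ) : Tendsto (fun m : ℕ => (dyq m t : ℝ)) atTop (𝓝 t) := by
  have h1 : Tendsto (fun m : ℕ => t + 1 / (2 : ℝ) ^ m) atTop (𝓝 (t + 0)) := by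
    refine tendsto_const_nhds.add ?_
    have h2 := tendsto_pow_atTop_nhds_zero_of_lt_one (r := (1 / 2 : ℝ)) (by norm_num) (by norm_num)
    refine h2.congr fun m => ?_
    rw [one_div_pow]
  rw [add_zero] at h1
  exact tendsto_of_tendsto_of_tendsto_of_le_of_le tendsto_const_nhds h1 (fun m => (dyq_gt m t).le)
    fun m => dyq_le m t

/-- positive lower bound near `t` -/
theorem GoodQ.low {x : ℚ → ℝ} (h : GoodQ x) {t : ℝ} (h0 : 0 < t) (h1 : t < 1) :
    ∃ η > (0 : ℝ), ∀ᶠ s in 𝓝 t, η ≤ eR s x := by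
  obtain ⟨k, hk⟩ := exists_nat_one_div_lt (lt_min h0 (show 0 < 1 - t by linarith))
  have hk1 : 1 / ((k : ℝ) + 1) < t := hk.trans_le (min_le_left _ _)
  have hk2 : 1 / ((k : ℝ) + 1) < 1 - t := hk.trans_le (min_le_right _ _)
  have hk3 : 1 / ((k : ℝ) + 2) ≤ 1 / ((k : ℝ) + 1) := one_div_le_one_div_of_le (by positivity) (by linarith)
  obtain ⟨_, η, hη, hx⟩ := h k
  refine ⟨η, hη, ?_⟩
  have h2 : ∀ᶠ s in 𝓝 t, 1 / ((k : ℝ) + 1) < s ∧ s < 1 - 1 / ((k : ℝ) + 1) :=
    (eventually_gt_nhds hk1).and (eventually_lt_nhds (by linarith))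
  filter_upwards [h2] with s hs
  have hs0 : 0 < s := lt_trans (by positivity) hs.1
  have hs1 : s < 1 := by
    have : 0 < 1 / ((k : ℝ) + 1) := by positivity
    linarith [hs.2]
  have h3 := (h.path hs0 hs1).1
  refine ge_of_tendsto h3 ?_
  have h4 : ∀ᶠ m : ℕ in atTop, (dyq m s : ℝ) < 1 - 1 / ((k : ℝ) + 1) :=
    (QE8b_dyq s).eventually_lt_const hs.2
  filter_upwards [h4] with m hm
  refine hx _ ?_ ?_
  · linarith [dyq_gt m s, hs.1]
  · linarith

theorem QE8b_mono {K : ℕ} {τ : ℕ → ℝ} (hτ : Times K τ) {j : ℕ} (hj : j < K) : τ 0 ≤ τ j ∧ τ j ≤ τ (K - 1) := by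
  constructor
  · rcases Nat.eq_zero_or_pos j with rfl | h
    · exact le_rfl
    · exact (hτ.incr 0 j h hj).le
  · rcases (show j < K - 1 ∨ j = K - 1 by omega) with h | rfl
    · exact (hτ.incr j (K - 1) h (by omega)).le
    · exact le_rfl

/-- **Existence of the normalised excursion** (and left limits, positive). -/
theorem exists_excursion_DA (hD : Dom D) (hQ : QI μ ν) (hda : DA α ζ (stepLaw μ ν 1) a)
    (hne : (lQ D μ ν).NeBot) : ∃ P : Measure (ℚ → ℝ), IsExcursion α ζ P eR ∧
      ∀ᵐ x ∂P, ∀ t : ℝ, 0 < t → t < 1 → ∃ l > (0 : ℝ), Tendsto (fun s => eR s x) (𝓝[<] t) (𝓝 l) := by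
  obtain ⟨p, Kc, x₀, hS⟩ := QS_of_DA hD hQ hda
  set a' : ℕ → ℝ := fun n => max (a n) x₀ with ha'
  have hea : ∀ᶠ n : ℕ in atTop, a' n = a n := by
    filter_upwards [hda.top.eventually_ge_atTop x₀] with n hn
    exact max_eq_left hn
  have hlim : ∀ (K : ℕ) (τ : ℕ → ℝ), Times K τ → ∀ (M : ℝ) (f : ℕ → ℝ → ℝ), 0 < M → (∀ j, BL M (f j)) →
      Tendsto (fun n => EN D μ ν n fun ω => ∏ j ∈ Finset.range K, f j (Zw ⌊τ j * n⌋₊ ω / a' n)) (lQ D μ ν)
        (𝓝 (exc α ζ (tts τ f K))) := by
    intro K τ hτ M f hM hfM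
    have hF := fddQ hD hQ hda K hτ.one τ hτ.pos hτ.incr hτ.lt hM f hfM
    rw [Metric.tendsto_nhds]
    intro ε hε
    obtain ⟨n₀, hn₀⟩ := hF (ε / 2) (half_pos hε)
    unfold lQ
    rw [eventually_inf_principal]
    filter_upwards [eventually_ge_atTop n₀, hea] with n h3 h5 h4
    rw [h5, Real.dist_eq]
    have h6 := hn₀ n h3 h4
    linarith
  obtain ⟨P, hP⟩ := exists_LP hS hne
  have hpr := hP.prob
  have hg := hP.good hS
  refine ⟨P, ⟨hP.prob, fun t => Measurable.limsup fun m => measurable_pi_apply _, ?_, ?_⟩, ?_⟩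
  · filter_upwards [hg] with x hx t h0 h1
    exact ⟨(hx.path h0 h1).2.1, (hx.path h0 h1).2.2.1⟩
  · rintro K τ hτ f ⟨M, hM, hfM⟩
    have hcont : ∀ j, Continuous (f j) := fun j => QE7_cont (hfM j)
    -- the times `dyq m (τ j)`
    have hQT : ∀ᶠ m : ℕ in atTop, Times K fun j => (dyq m (τ j) : ℝ) := by
      have h1 : ∀ᶠ m : ℕ in atTop, ∀ i ∈ Finset.range K, ∀ j ∈ Finset.range K, i < j → (dyq m (τ i) : ℝ) < τ j := by
        rw [eventually_all_finset]
        intro i hi
        rw [eventually_all_finset]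
        intro j hj
        by_cases hij : i < j
        · filter_upwards [(QE8b_dyq (τ i)).eventually_lt_const (hτ.incr i j hij (Finset.mem_range.1 hj))] with m hm _
          exact hm
        · exact Eventually.of_forall fun m h => absurd h hij
      filter_upwards [h1, (QE8b_dyq (τ (K - 1))).eventually_lt_const hτ.lt] with m h2 h3
      refine ⟨hτ.one, hτ.pos.trans (dyq_gt m _), fun i j hij hj => ?_, h3⟩
      exact (h2 i (Finset.mem_range.2 (hij.trans hj)) j (Finset.mem_range.2 hj) hij).trans (dyq_gt m _)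
    -- finite-dimensional distributions at rational times
    have hB : ∀ᶠ m : ℕ in atTop, ∫ x, ∏ j ∈ Finset.range K, f j (x (dyq m (τ j))) ∂P =
        exc α ζ (tts (fun j => (dyq m (τ j) : ℝ)) f K) := by
      filter_upwards [hQT] with m hm
      refine hP.int (fun x => ∏ j ∈ Finset.range K, f j (x (dyq m (τ j)))) (∏ _j ∈ Finset.range K, M) _ ?_ ?_ ?_
      · exact continuous_finsetProd _ fun j _ => (hcont j).comp (continuous_apply _)
      · intro x
        rw [Finset.abs_prod]
        exact Finset.prod_le_prod (fun j _ => abs_nonneg _) fun j _ => (hfM j).bd _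
      · refine (hlim K _ hm M f hM hfM).congr fun n => ?_
        unfold EN
        congr 1
        refine integral_congr_ae (Eventually.of_forall fun ω => ?_)
        refine Finset.prod_congr rfl fun j hj => ?_
        have h1 := QE8b_mono hm (Finset.mem_range.1 hj)
        have h2 : (0 : ℚ) < dyq m (τ j) ∧ dyq m (τ j) < 1 := by
          constructor
          · have : (0 : ℝ) < dyq m (τ j) := hm.pos.trans_le h1.1
            exact_mod_cast this
          · have : (dyq m (τ j) : ℝ) < 1 := h1.2.trans_lt hm.lt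
            exact_mod_cast this
        unfold XQ
        rw [if_pos h2]
    -- bounded convergence
    have hC : Tendsto (fun m : ℕ => ∫ x, ∏ j ∈ Finset.range K, f j (x (dyq m (τ j))) ∂P) atTop
        (𝓝 (∫ x, ∏ j ∈ Finset.range K, f j (eR (τ j) x) ∂P)) := by
      refine tendsto_integral_of_dominated_convergence (fun _ => ∏ _j ∈ Finset.range K, M) ?_ (integrable_const _) ?_ ?_
      · intro m
        exact (continuous_finsetProd _ fun j _ => (hcont j).comp (continuous_apply _)).aestronglyMeasurable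
      · intro m
        refine Eventually.of_forall fun x => ?_
        rw [Real.norm_eq_abs, Finset.abs_prod]
        exact Finset.prod_le_prod (fun j _ => abs_nonneg _) fun j _ => (hfM j).bd _
      · filter_upwards [hg] with x hx
        refine tendsto_finsetProd _ fun j hj => ?_
        have h1 := QE8b_mono hτ (Finset.mem_range.1 hj)
        exact ((hcont j).tendsto _).comp (hx.path (hτ.pos.trans_le h1.1) (h1.2.trans_lt hτ.lt)).1
    -- continuity of `exc` in the times
    have hE : Tendsto (fun m : ℕ => exc α ζ (tts (fun j => (dyq m (τ j) : ℝ)) f K)) atTop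
        (𝓝 (exc α ζ (tts τ f K))) := by
      rw [Metric.tendsto_atTop']
      intro θ hθ
      set δ : ℝ := min (τ 0) (1 - τ (K - 1)) / 2 with hδ
      have hm0 : 0 < min (τ 0) (1 - τ (K - 1)) := lt_min hτ.pos (by linarith [hτ.lt])
      have hδ0 : 0 < δ := by positivity
      have hδ1 : 2 * δ ≤ τ 0 := by
        rw [hδ]
        linarith [min_le_left (τ 0) (1 - τ (K - 1))]
      have hδ2 : 2 * δ ≤ 1 - τ (K - 1) := by
        rw [hδ]
        linarith [min_le_right (τ 0) (1 - τ (K - 1))]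
      obtain ⟨κ, hκ, hcl⟩ := hS.prod_close K hM hfM hδ0 (θ / 2) (half_pos hθ)
      have hall : ∀ᶠ m : ℕ in atTop, ∀ j ∈ Finset.range K, (dyq m (τ j) : ℝ) < τ j + min κ δ := by
        rw [eventually_all_finset]
        intro j _
        exact (QE8b_dyq (τ j)).eventually_lt_const (by linarith [lt_min hκ hδ0])
      obtain ⟨m₀, hm₀⟩ := eventually_atTop.1 (hall.and hQT)
      refine ⟨m₀, fun m hm => ?_⟩
      obtain ⟨h1, h2⟩ := hm₀ m (le_of_lt hm)
      obtain ⟨n₀, hn₀⟩ := hcl τ (fun j => (dyq m (τ j) : ℝ)) (fun j hj => by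
        have h3 := QE8b_mono hτ hj
        have h4 := h1 j (Finset.mem_range.2 hj)
        have h5 := min_le_left κ δ
        have h6 := min_le_right κ δ
        have h7 := dyq_gt m (τ j)
        exact ⟨by linarith, by linarith, by linarith, by linarith⟩)
      have h3 := hlim K τ hτ M f hM hfM
      have h4 := hlim K _ h2 M f hM hfM
      have h5 := (h3.sub h4).abs
      have h6 : |exc α ζ (tts τ f K) - exc α ζ (tts (fun j => (dyq m (τ j) : ℝ)) f K)| ≤ θ / 2 := by
        refine le_of_tendsto h5 ?_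
        unfold lQ
        rw [eventually_inf_principal]
        filter_upwards [eventually_ge_atTop n₀] with n hn hN
        exact hn₀ n hn hN
      rw [Real.dist_eq, abs_sub_comm]
      linarith
    exact tendsto_nhds_unique hC (hE.congr' (hB.mono fun m hm => hm.symm))
  · filter_upwards [hg] with x hx t h0 h1
    obtain ⟨l, hl⟩ := (hx.path h0 h1).2.2.2
    obtain ⟨η, hη, hx2⟩ := hx.low h0 h1
    exact ⟨l, hη.trans_le (ge_of_tendsto hl (hx2.filter_mono nhdsWithin_le_nhds)), hl⟩

end Pool.Agent.BPT
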