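import Pool.Agent.MP_99a865_pr.ST.QD

/-! **[STB-QW1a]** Elementary consequences of `QS` on the scales. Real analysis only (`Real.rpow`). -/

open MeasureTheory ProbabilityTheory Filter Topology
open scoped ENNReal NNReal

namespace Pool.Agent.BPT

variable {D : Set ℝ} {μ ν : Measure ℝ} {a : ℕ → ℝ} {L V V' : ℝ → ℝ} {p K x₀ : ℝ}

/-- PROOF. Let `r = K³/δ + 1`. If `a n > r a i` then (`L_anti`, `L_le`) `L (a n) ≤ L (r a i) ≤ K r^{-p} L (a i) ≤ K² r^{-p}/i`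
and `L (a n) ≥ 1/(K n) ≥ δ/(K i)`, so `r^p ≤ K³/δ < r ≤ r^p`, a contradiction. -/
theorem QS.a_comp (h : QS D μ ν a L V V' p K x₀) {δ : ℝ} (hδ : 0 < δ) : ∃ C ≥ (1 : ℝ), ∀ i n : ℕ, 1 ≤ i →
    1 ≤ n → δ * n ≤ i → a n ≤ C * a i := by
  have hK : 0 < K := lt_of_lt_of_le one_pos h.K_ge
  have hr1 : 1 ≤ K ^ 3 / δ + 1 := by
    have : 0 ≤ K ^ 3 / δ := by positivity
    linarith
  refine ⟨K ^ 3 / δ + 1, hr1, ?_⟩
  intro i n hi hn hin
  by_contra hcon
  push Not at hcon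
  obtain ⟨r, hr⟩ : ∃ r, r = K ^ 3 / δ + 1 := ⟨_, rfl⟩
  rw [← hr] at hcon hr1
  have hai := h.a_ge i hi
  have hx : 0 < x₀ := lt_of_lt_of_le (by norm_num) h.x_ge
  have hi0 : (0 : ℝ) < i := by exact_mod_cast hi
  have hn0 : (0 : ℝ) < n := by exact_mod_cast hn
  have h1 : x₀ ≤ r * a i := by nlinarith
  have h2 : L (a n) ≤ L (r * a i) := h.L_anti _ _ h1 hcon.le
  have h3 := h.L_le (a i) r hai hr1
  have h4 := (h.L_a i hi).2
  have h5 := (h.L_a n hn).1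
  have hrp : r ≤ r ^ p := by
    have := Real.rpow_le_rpow_of_exponent_le hr1 h.p_gt.le
    rwa [Real.rpow_one] at this
  have hr0 : 0 < r := lt_of_lt_of_le one_pos hr1
  have hrp0 : 0 < r ^ p := Real.rpow_pos_of_pos hr0 p
  -- δ ≤ K i L(a n)
  have h6 : δ ≤ K * i * L (a n) := by
    have hL : 0 < L (a n) := h.L_pos _ (h.a_ge n hn)
    calc δ = δ * 1 := (mul_one δ).symm
      _ ≤ δ * (K * (n * L (a n))) := mul_le_mul_of_nonneg_left h5 hδ.le
      _ = (δ * n) * (K * L (a n)) := by ring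
      _ ≤ i * (K * L (a n)) := mul_le_mul_of_nonneg_right hin (by positivity)
      _ = K * i * L (a n) := by ring
  have h7 : δ * r ^ p ≤ K ^ 3 := by
    calc δ * r ^ p ≤ K * i * L (a n) * r ^ p := mul_le_mul_of_nonneg_right h6 hrp0.le
      _ ≤ K * i * L (r * a i) * r ^ p := by
        refine mul_le_mul_of_nonneg_right (mul_le_mul_of_nonneg_left h2 (by positivity)) hrp0.le
      _ = K * i * (r ^ p * L (r * a i)) := by ring
      _ ≤ K * i * (K * L (a i)) := mul_le_mul_of_nonneg_left h3 (by positivity)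
      _ = K ^ 2 * (i * L (a i)) := by ring
      _ ≤ K ^ 2 * K := mul_le_mul_of_nonneg_left h4 (by positivity)
      _ = K ^ 3 := by ring
  have h8 : δ * r ≤ K ^ 3 := (mul_le_mul_of_nonneg_left hrp hδ.le).trans h7
  rw [hr, mul_add, mul_div_cancel₀ _ hδ.ne'] at h8
  linarith

/-- PROOF. `L_ge` with `y = x₀`, `r = a n/x₀`: `L x₀ ≤ K (a n/x₀)² L (a n) ≤ K² (a n/x₀)²/n` (as `n L (a n) ≤ K`). -/
theorem QS.a_sqrt (h : QS D μ ν a L V V' p K x₀) : ∃ c > (0 : ℝ), ∀ n : ℕ, 1 ≤ n → c * √n ≤ a n := by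
  have hK : 0 < K := lt_of_lt_of_le one_pos h.K_ge
  have hx : 0 < x₀ := lt_of_lt_of_le (by norm_num) h.x_ge
  have hL0 : 0 < L x₀ := h.L_pos _ le_rfl
  refine ⟨x₀ * √(L x₀) / K, by positivity, fun n hn => ?_⟩
  have hn0 : (0 : ℝ) < n := by exact_mod_cast hn
  have han := h.a_ge n hn
  have ha0 : 0 < a n := lt_of_lt_of_le hx han
  have h1 := h.L_ge x₀ (a n / x₀) le_rfl ((one_le_div hx).2 han)
  rw [div_mul_cancel₀ _ hx.ne'] at h1
  have h2 := (h.L_a n hn).2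
  have h3 : n * L x₀ * x₀ ^ 2 ≤ K ^ 2 * (a n) ^ 2 := by
    calc n * L x₀ * x₀ ^ 2 ≤ n * (K * (a n / x₀) ^ 2 * L (a n)) * x₀ ^ 2 := by gcongr
      _ = K * (a n) ^ 2 * (n * L (a n)) := by field_simp
      _ ≤ K * (a n) ^ 2 * K := by gcongr
      _ = K ^ 2 * (a n) ^ 2 := by ring
  refine abs_le_of_sq_le_sq' ?_ ha0.le |>.2
  have e : (x₀ * √(L x₀) / K * √n) ^ 2 = n * L x₀ * x₀ ^ 2 / K ^ 2 := by
    rw [mul_pow, div_pow, mul_pow, Real.sq_sqrt hL0.le, Real.sq_sqrt hn0.le]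
    ring
  rw [e, div_le_iff₀ (by positivity)]
  linarith

theorem QS.a_top (h : QS D μ ν a L V V' p K x₀) : Tendsto a atTop atTop := by
  obtain ⟨c, hc, hac⟩ := h.a_sqrt
  have h1 : Tendsto (fun n : ℕ => c * √(n : ℝ)) atTop atTop :=
    (Real.tendsto_sqrt_atTop.comp tendsto_natCast_atTop_atTop).const_mul_atTop hc
  refine tendsto_atTop_mono' _ ?_ h1
  filter_upwards [eventually_ge_atTop 1] with n hn
  exact hac n hn

/-- PROOF. `L_le` with `y = x₀`, `r = a n/x₀`: `(a n/x₀)^p L (a n) ≤ K L x₀`, and `1 ≤ K n L (a n)`. -/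
theorem QS.a_pow (h : QS D μ ν a L V V' p K x₀) : ∃ C > (0 : ℝ), ∀ n : ℕ, 1 ≤ n → (a n) ^ p ≤ C * n := by
  have hK : 0 < K := lt_of_lt_of_le one_pos h.K_ge
  have hx : 0 < x₀ := lt_of_lt_of_le (by norm_num) h.x_ge
  have hL0 : 0 < L x₀ := h.L_pos _ le_rfl
  have hxp : 0 < x₀ ^ p := Real.rpow_pos_of_pos hx p
  refine ⟨x₀ ^ p * (K ^ 2 * L x₀), by positivity, fun n hn => ?_⟩
  have hn0 : (0 : ℝ) < n := by exact_mod_cast hn
  have han := h.a_ge n hn
  have ha0 : 0 < a n := lt_of_lt_of_le hx han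
  have h1 := h.L_le x₀ (a n / x₀) le_rfl ((one_le_div hx).2 han)
  rw [div_mul_cancel₀ _ hx.ne'] at h1
  have h2 := (h.L_a n hn).1
  have hr0 : 0 < (a n / x₀) ^ p := Real.rpow_pos_of_pos (by positivity) p
  have h3 : (a n / x₀) ^ p ≤ K ^ 2 * L x₀ * n := by
    calc (a n / x₀) ^ p = (a n / x₀) ^ p * 1 := (mul_one _).symm
      _ ≤ (a n / x₀) ^ p * (K * (n * L (a n))) := mul_le_mul_of_nonneg_left h2 hr0.le
      _ = K * n * ((a n / x₀) ^ p * L (a n)) := by ring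
      _ ≤ K * n * (K * L x₀) := mul_le_mul_of_nonneg_left h1 (by positivity)
      _ = K ^ 2 * L x₀ * n := by ring
  have h4 : (a n) ^ p = x₀ ^ p * (a n / x₀) ^ p := by
    rw [← Real.mul_rpow hx.le (by positivity), mul_div_cancel₀ _ hx.ne']
  rw [h4]
  calc x₀ ^ p * (a n / x₀) ^ p ≤ x₀ ^ p * (K ^ 2 * L x₀ * n) := mul_le_mul_of_nonneg_left h3 hxp.le
    _ = x₀ ^ p * (K ^ 2 * L x₀) * n := by ring

/-- PROOF. `a n ≤ C n^{1/p}` by `a_pow`, and `n^{1/p - 1} (1 + log n) → 0` (`p > 1`). -/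
theorem QS.a_small (h : QS D μ ν a L V V' p K x₀) :
    Tendsto (fun n : ℕ => a n * (1 + Real.log n) / n) atTop (𝓝 0) := by
  obtain ⟨C, hC, hap⟩ := h.a_pow
  have hp0 : 0 < p := lt_trans one_pos h.p_gt
  have hx : 0 < x₀ := lt_of_lt_of_le (by norm_num) h.x_ge
  have hs : 0 < 1 - 1 / p := by
    rw [sub_pos, div_lt_one hp0]
    exact h.p_gt
  -- the majorant
  have h1 : Tendsto (fun x : ℝ => C ^ (1 / p) * ((1 + Real.log x) / x ^ (1 - 1 / p))) atTop (𝓝 0) := by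
    have h2 : Tendsto (fun x : ℝ => Real.log x / x ^ (1 - 1 / p)) atTop (𝓝 0) :=
      (isLittleO_log_rpow_atTop hs).tendsto_div_nhds_zero
    have h3 : Tendsto (fun x : ℝ => 1 / x ^ (1 - 1 / p)) atTop (𝓝 0) := by
      have := (tendsto_rpow_atTop hs).inv_tendsto_atTop
      refine this.congr fun x => ?_
      rw [Pi.inv_apply, one_div (x ^ (1 - 1 / p))]
    have h4 := (h3.add h2).const_mul (C ^ (1 / p))
    rw [add_zero, mul_zero] at h4
    refine h4.congr fun x => ?_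
    rw [add_div]
  have h5 := h1.comp (tendsto_natCast_atTop_atTop (R := ℝ))
  refine squeeze_zero' ?_ ?_ h5
  · filter_upwards [eventually_ge_atTop 1] with n hn
    have hn1 : (1 : ℝ) ≤ n := by exact_mod_cast hn
    have ha0 : 0 < a n := lt_of_lt_of_le hx (h.a_ge n hn)
    have := Real.log_nonneg hn1
    positivity
  · filter_upwards [eventually_ge_atTop 1] with n hn
    have hn1 : (1 : ℝ) ≤ n := by exact_mod_cast hn
    have hn0 : (0 : ℝ) < n := by linarith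
    have ha0 : 0 < a n := lt_of_lt_of_le hx (h.a_ge n hn)
    have hlog := Real.log_nonneg hn1
    have h6 : a n ≤ C ^ (1 / p) * (n : ℝ) ^ (1 / p) := by
      have h7 := Real.rpow_le_rpow (by positivity) (hap n hn) (by positivity : (0 : ℝ) ≤ 1 / p)
      rw [← Real.rpow_mul ha0.le, mul_one_div_cancel hp0.ne', Real.rpow_one,
        Real.mul_rpow hC.le hn0.le] at h7
      exact h7
    show a n * (1 + Real.log n) / n ≤ C ^ (1 / p) * ((1 + Real.log n) / (n : ℝ) ^ (1 - 1 / p))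
    have h8 : (n : ℝ) ^ (1 - 1 / p) = n / (n : ℝ) ^ (1 / p) := by
      rw [Real.rpow_sub hn0, Real.rpow_one]
    rw [h8]
    have hq : 0 < (n : ℝ) ^ (1 / p) := Real.rpow_pos_of_pos hn0 _
    calc a n * (1 + Real.log n) / n ≤ (C ^ (1 / p) * (n : ℝ) ^ (1 / p)) * (1 + Real.log n) / n := by
          gcongr
      _ = C ^ (1 / p) * ((1 + Real.log n) / (n / (n : ℝ) ^ (1 / p))) := by
          field_simp

/-- PROOF. `V_le`, `V'_le` with `y = x₀`, `r = a n/x₀`. -/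
theorem QS.V_lin (h : QS D μ ν a L V V' p K x₀) : ∃ C > (0 : ℝ), ∀ n : ℕ, 1 ≤ n →
    V (a n) ≤ C * a n ∧ V' (a n) ≤ C * a n := by
  have hK : 0 < K := lt_of_lt_of_le one_pos h.K_ge
  have hx : 0 < x₀ := lt_of_lt_of_le (by norm_num) h.x_ge
  have hV : 0 < V x₀ := lt_of_lt_of_le one_pos (h.V_one _)
  have hV' : 0 < V' x₀ := lt_of_lt_of_le one_pos (h.V'_one _)
  refine ⟨K * (V x₀ + V' x₀) / x₀, by positivity, fun n hn => ?_⟩
  have han := h.a_ge n hn
  have ha0 : 0 < a n := lt_of_lt_of_le hx han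
  have h1 := h.V_le x₀ (a n / x₀) le_rfl ((one_le_div hx).2 han)
  have h2 := h.V'_le x₀ (a n / x₀) le_rfl ((one_le_div hx).2 han)
  rw [div_mul_cancel₀ _ hx.ne'] at h1 h2
  constructor
  · calc V (a n) ≤ K * (a n / x₀) * V x₀ := h1
      _ ≤ K * (a n / x₀) * (V x₀ + V' x₀) := by
        refine mul_le_mul_of_nonneg_left (by linarith) (by positivity)
      _ = K * (V x₀ + V' x₀) / x₀ * a n := by ring
  · calc V' (a n) ≤ K * (a n / x₀) * V' x₀ := h2
      _ ≤ K * (a n / x₀) * (V x₀ + V' x₀) := by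
        refine mul_le_mul_of_nonneg_left (by linarith) (by positivity)
      _ = K * (V x₀ + V' x₀) / x₀ * a n := by ring

/-- PROOF. `V (a n) ≤ C a n ≤ C (a n)^p ≤ C' n` (`a n ≥ 1`). -/
theorem QS.bb_poly (h : QS D μ ν a L V V' p K x₀) : ∃ c > (0 : ℝ), ∀ n : ℕ, 1 ≤ n →
    c / n ^ 2 ≤ bb V a n := by
  obtain ⟨C, hC, hV⟩ := h.V_lin
  obtain ⟨C', hC', ha⟩ := h.a_pow
  refine ⟨1 / (C * C'), by positivity, fun n hn => ?_⟩
  have hn0 : (0 : ℝ) < n := by exact_mod_cast hn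
  have han := h.a_ge n hn
  have hx := h.x_ge
  have ha1 : 1 ≤ a n := by linarith
  have hap : a n ≤ (a n) ^ p := by
    have := Real.rpow_le_rpow_of_exponent_le ha1 h.p_gt.le
    rwa [Real.rpow_one] at this
  have hV0 : 0 < V (a n) := lt_of_lt_of_le one_pos (h.V_one _)
  have h1 : V (a n) ≤ C * (C' * n) :=
    (hV n hn).1.trans (mul_le_mul_of_nonneg_left (hap.trans (ha n hn)) hC.le)
  unfold bb
  rw [div_div, one_div_le_one_div (by positivity) (by positivity)]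
  calc (n : ℝ) * V (a n) ≤ n * (C * (C' * n)) := mul_le_mul_of_nonneg_left h1 hn0.le
    _ = C * C' * n ^ 2 := by ring

theorem QS.bb_pos (h : QS D μ ν a L V V' p K x₀) (n : ℕ) (hn : 1 ≤ n) : 0 < bb V a n := by
  have hn0 : (0 : ℝ) < n := by exact_mod_cast hn
  have hV0 : 0 < V (a n) := lt_of_lt_of_le one_pos (h.V_one _)
  unfold bb
  positivity

end Pool.Agent.BPT
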