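import Pool.Agent.MP_99a865_pr.ST.QD
import Pool.Agent.MP_99a865_pr.ST.QW1a

/-! **[STB-QW1b]** Elementary consequences of `QS` on the scales. Real analysis only (`Real.rpow`). -/

open MeasureTheory ProbabilityTheory Filter Topology
open scoped ENNReal NNReal

namespace Pool.Agent.BPT

variable {D : Set ℝ} {μ ν : Measure ℝ} {a : ℕ → ℝ} {L V V' : ℝ → ℝ} {p K x₀ : ℝ}

/-- PROOF. `V (a m) ≥ (a m/x₀)^{p-1} V x₀/K ≥ c m^{(p-1)/2}` (`V_ge`, `a_sqrt`), and `∑ m^{-1-(p-1)/2} < ∞`. -/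
theorem QS.sumV (h : QS D μ ν a L V V' p K x₀) : ∃ C > (0 : ℝ), ∀ N : ℕ,
    ∑ m ∈ Finset.range N, 1 / (((m + 1 : ℕ) : ℝ) * V (a (m + 1))) ≤ C := by
  obtain ⟨c, hc, hca⟩ := h.a_sqrt
  have hx := h.x_ge
  have hx0 : 0 < x₀ := by linarith
  have hK : 0 < K := lt_of_lt_of_le one_pos h.K_ge
  have hp := h.p_gt
  set q : ℝ := 1 + (p - 1) / 2 with hq
  have hq1 : 1 < q := by rw [hq]; linarith
  have hsum : Summable fun n : ℕ => 1 / (n : ℝ) ^ q := Real.summable_one_div_nat_rpow.2 hq1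
  set f : ℕ → ℝ := fun m => 1 / ((m + 1 : ℕ) : ℝ) ^ q with hf
  have hsum' : Summable f := (summable_nat_add_iff 1).2 hsum
  set C₀ : ℝ := K * (x₀ / c) ^ (p - 1) with hC₀
  have hC₀p : 0 < C₀ := by positivity
  have hterm : ∀ m : ℕ, 1 / (((m + 1 : ℕ) : ℝ) * V (a (m + 1))) ≤ C₀ * f m := by
    intro m
    set n : ℕ := m + 1 with hn
    have hn1 : 1 ≤ n := by omega
    have hn0 : (0 : ℝ) < n := by
      have : 0 < n := hn1
      exact_mod_cast this
    have ha := h.a_ge n hn1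
    have ha0 : 0 < a n := by linarith
    have hr : 1 ≤ a n / x₀ := by rw [le_div_iff₀ hx0]; linarith
    have h1 := h.V_ge x₀ (a n / x₀) le_rfl hr
    rw [div_mul_cancel₀ _ hx0.ne'] at h1
    have h2 : (a n / x₀) ^ (p - 1) ≤ K * V (a n) := by
      refine le_trans ?_ h1
      have h3 : 0 ≤ (a n / x₀) ^ (p - 1) := by positivity
      have h4 := h.V_one x₀
      nlinarith
    have h3 : (c / x₀) ^ (p - 1) * (n : ℝ) ^ ((p - 1) / 2) ≤ (a n / x₀) ^ (p - 1) := by
      have e1 : (n : ℝ) ^ ((p - 1) / 2) = (√n) ^ (p - 1) := by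
        rw [Real.sqrt_eq_rpow, ← Real.rpow_mul hn0.le]
        congr 1
        ring
      rw [e1, ← Real.mul_rpow (by positivity) (by positivity)]
      apply Real.rpow_le_rpow (by positivity) _ (by linarith)
      have := hca n hn1
      rw [div_mul_eq_mul_div]
      exact div_le_div_of_nonneg_right this hx0.le
    have h4 : (n : ℝ) ^ q = n * (n : ℝ) ^ ((p - 1) / 2) := by
      rw [hq, Real.rpow_add hn0, Real.rpow_one]
    have hV : 0 < V (a n) := lt_of_lt_of_le one_pos (h.V_one _)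
    have h5 : (x₀ / c) ^ (p - 1) * (c / x₀) ^ (p - 1) = 1 := by
      rw [← Real.mul_rpow (by positivity) (by positivity), div_mul_div_cancel₀ hc.ne', div_self hx0.ne', Real.one_rpow]
    have h6 : (n : ℝ) ^ q ≤ C₀ * (n * V (a n)) := by
      rw [h4]
      have h7 : (n : ℝ) ^ ((p - 1) / 2) ≤ C₀ * V (a n) := by
        calc (n : ℝ) ^ ((p - 1) / 2) = (x₀ / c) ^ (p - 1) * ((c / x₀) ^ (p - 1) * (n : ℝ) ^ ((p - 1) / 2)) := by
              rw [← mul_assoc, h5, one_mul]
          _ ≤ (x₀ / c) ^ (p - 1) * (K * V (a n)) :=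
              mul_le_mul_of_nonneg_left (h3.trans h2) (by positivity)
          _ = C₀ * V (a n) := by rw [hC₀]; ring
      calc (n : ℝ) * (n : ℝ) ^ ((p - 1) / 2) ≤ n * (C₀ * V (a n)) := mul_le_mul_of_nonneg_left h7 hn0.le
        _ = C₀ * (n * V (a n)) := by ring
    simp only [hf]
    rw [mul_one_div, div_le_div_iff₀ (by positivity) (by positivity), one_mul]
    exact h6
  refine ⟨C₀ * (∑' m, f m) + 1, ?_, fun N => ?_⟩
  · have : 0 ≤ ∑' m, f m := tsum_nonneg fun m => by simp only [hf]; positivity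
    positivity
  · calc ∑ m ∈ Finset.range N, 1 / (((m + 1 : ℕ) : ℝ) * V (a (m + 1))) ≤ ∑ m ∈ Finset.range N, C₀ * f m :=
          Finset.sum_le_sum fun m _ => hterm m
      _ = C₀ * ∑ m ∈ Finset.range N, f m := by rw [Finset.mul_sum]
      _ ≤ C₀ * ∑' m, f m := by
          apply mul_le_mul_of_nonneg_left _ hC₀p.le
          exact hsum'.sum_le_tsum _ fun m _ => by simp only [hf]; positivity
      _ ≤ C₀ * (∑' m, f m) + 1 := by linarith

/-- Comparison at the levels `s a_n`. PROOF. `s a n ≥ x₀` for `n` large (`a_top`). If `s ≥ 1`: `L (s a n) ≤ L (a n) ≤ K/n`,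
`V (a n) ≤ V (s a n)`, `1/n ≤ K L (a n) ≤ K² s² L (s a n)`. If `s < 1` (`y = s a n`, `r = 1/s`): `L (s a n) ≤ K s^{-2} L (a n)`,
`V (a n) ≤ K s^{-1} V (s a n)`, `1/n ≤ K L (a n) ≤ K L (s a n)`. And `V' (s a n) ≤ C V' (a n)`: monotonicity or `V'_le`. -/
theorem QS.scale (h : QS D μ ν a L V V' p K x₀) {s : ℝ} (hs : 0 < s) : ∃ C ≥ (1 : ℝ), ∃ n₀ : ℕ, 1 ≤ n₀ ∧
    ∀ n ≥ n₀, x₀ ≤ s * a n ∧ L (s * a n) ≤ C / n ∧ 1 / n ≤ C * L (s * a n) ∧
      V (a n) ≤ C * V (s * a n) ∧ V' (s * a n) ≤ C * V' (a n) := by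
  have hx := h.x_ge
  have hx0 : 0 < x₀ := by linarith
  have hK1 := h.K_ge
  have hK : 0 < K := lt_of_lt_of_le one_pos h.K_ge
  obtain ⟨n₁, hn₁⟩ := eventually_atTop.1 ((h.a_top.const_mul_atTop hs).eventually_ge_atTop x₀)
  rcases le_or_gt 1 s with hs1 | hs1
  · refine ⟨K ^ 2 * s ^ 2, ?_, max n₁ 1, le_max_right _ _, fun n hn => ?_⟩
    · have h1 : 1 ≤ K ^ 2 := one_le_pow₀ hK1
      have h2 : 1 ≤ s ^ 2 := one_le_pow₀ hs1
      nlinarith
    have hn1 : 1 ≤ n := (le_max_right _ _).trans hn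
    have hn0 : (0 : ℝ) < n := by
      have : 0 < n := hn1
      exact_mod_cast this
    have hxs : x₀ ≤ s * a n := hn₁ n ((le_max_left _ _).trans hn)
    have ha := h.a_ge n hn1
    have ha0 : 0 < a n := by linarith
    have has : a n ≤ s * a n := by nlinarith
    obtain ⟨hL1, hL2⟩ := h.L_a n hn1
    have hLp := h.L_pos (a n) ha
    have hLsp := h.L_pos (s * a n) hxs
    have hV := h.V_one (a n)
    have hV' := h.V'_one (a n)
    have hVs := h.V_one (s * a n)
    have hKs : 1 ≤ K * s := by nlinarith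
    have hC1 : 1 ≤ K ^ 2 * s ^ 2 := by
      have e : K ^ 2 * s ^ 2 = (K * s) ^ 2 := by ring
      rw [e]
      exact one_le_pow₀ hKs
    have hCK : K ≤ K ^ 2 * s ^ 2 := by
      have h2 : 1 ≤ s ^ 2 := one_le_pow₀ hs1
      have h3 : 1 ≤ K * s ^ 2 := by nlinarith
      nlinarith
    have hCKs : K * s ≤ K ^ 2 * s ^ 2 := by
      have e : K ^ 2 * s ^ 2 = (K * s) * (K * s) := by ring
      rw [e]
      nlinarith
    refine ⟨hxs, ?_, ?_, ?_, ?_⟩
    · rw [le_div_iff₀ hn0]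
      have h1 := h.L_anti (a n) (s * a n) ha has
      calc L (s * a n) * n ≤ L (a n) * n := mul_le_mul_of_nonneg_right h1 hn0.le
        _ = n * L (a n) := mul_comm _ _
        _ ≤ K := hL2
        _ ≤ K ^ 2 * s ^ 2 := hCK
    · rw [div_le_iff₀ hn0]
      have h1 := h.L_ge (a n) s ha hs1
      calc (1 : ℝ) ≤ K * (n * L (a n)) := hL1
        _ ≤ K * (n * (K * s ^ 2 * L (s * a n))) := by gcongr
        _ = K ^ 2 * s ^ 2 * L (s * a n) * n := by ring
    · have h1 := h.V_mono has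
      nlinarith
    · have h1 := h.V'_le (a n) s ha hs1
      refine h1.trans ?_
      gcongr
  · set r : ℝ := 1 / s with hr
    have hr1 : 1 ≤ r := by
      rw [hr, le_div_iff₀ hs]
      linarith
    have hrs : r * s = 1 := by rw [hr]; field_simp
    refine ⟨K ^ 2 * r ^ 2, ?_, max n₁ 1, le_max_right _ _, fun n hn => ?_⟩
    · have h1 : 1 ≤ K ^ 2 := one_le_pow₀ hK1
      have h2 : 1 ≤ r ^ 2 := one_le_pow₀ hr1
      nlinarith
    have hn1 : 1 ≤ n := (le_max_right _ _).trans hn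
    have hn0 : (0 : ℝ) < n := by
      have : 0 < n := hn1
      exact_mod_cast this
    have hxs : x₀ ≤ s * a n := hn₁ n ((le_max_left _ _).trans hn)
    have ha := h.a_ge n hn1
    have ha0 : 0 < a n := by linarith
    have has : s * a n ≤ a n := by nlinarith
    have hra : r * (s * a n) = a n := by rw [← mul_assoc, hrs, one_mul]
    obtain ⟨hL1, hL2⟩ := h.L_a n hn1
    have hLp := h.L_pos (a n) ha
    have hLsp := h.L_pos (s * a n) hxs
    have hV := h.V_one (s * a n)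
    have hV' := h.V'_one (a n)
    have hKs : 1 ≤ K * r := by nlinarith
    have hC1 : 1 ≤ K ^ 2 * r ^ 2 := by
      have e : K ^ 2 * r ^ 2 = (K * r) ^ 2 := by ring
      rw [e]
      exact one_le_pow₀ hKs
    have hCK : K ≤ K ^ 2 * r ^ 2 := by
      have h2 : 1 ≤ r ^ 2 := one_le_pow₀ hr1
      have h3 : 1 ≤ K * r ^ 2 := by nlinarith
      nlinarith
    have hCKs : K * r ≤ K ^ 2 * r ^ 2 := by
      have e : K ^ 2 * r ^ 2 = (K * r) * (K * r) := by ring
      rw [e]
      nlinarith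
    refine ⟨hxs, ?_, ?_, ?_, ?_⟩
    · rw [le_div_iff₀ hn0]
      have h1 := h.L_ge (s * a n) r hxs hr1
      rw [hra] at h1
      calc L (s * a n) * n ≤ (K * r ^ 2 * L (a n)) * n := mul_le_mul_of_nonneg_right h1 hn0.le
        _ = K * r ^ 2 * (n * L (a n)) := by ring
        _ ≤ K * r ^ 2 * K := by gcongr
        _ = K ^ 2 * r ^ 2 := by ring
    · rw [div_le_iff₀ hn0]
      have h1 := h.L_anti (s * a n) (a n) hxs has
      calc (1 : ℝ) ≤ K * (n * L (a n)) := hL1
        _ ≤ K * (n * L (s * a n)) := by gcongr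
        _ = K * (L (s * a n) * n) := by ring
        _ ≤ K ^ 2 * r ^ 2 * (L (s * a n) * n) := by gcongr
        _ = K ^ 2 * r ^ 2 * L (s * a n) * n := by ring
    · have h1 := h.V_le (s * a n) r hxs hr1
      rw [hra] at h1
      refine h1.trans ?_
      gcongr
    · have h1 := h.V'_mono has
      calc V' (s * a n) ≤ 1 * V' (a n) := by rw [one_mul]; exact h1
        _ ≤ K ^ 2 * r ^ 2 * V' (a n) := by gcongr

/-- PROOF. `LVV` at `y = a n` and `L_a`. -/
theorem QS.VV_n (h : QS D μ ν a L V V' p K x₀) : ∃ C ≥ (1 : ℝ), ∀ n : ℕ, 1 ≤ n →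
    V (a n) * V' (a n) ≤ C * n ∧ (n : ℝ) ≤ C * (V (a n) * V' (a n)) := by
  have hK1 := h.K_ge
  have hK : 0 < K := lt_of_lt_of_le one_pos h.K_ge
  refine ⟨K ^ 2, one_le_pow₀ hK1, fun n hn => ?_⟩
  have hn0 : (0 : ℝ) < n := by
    have : 0 < n := hn
    exact_mod_cast this
  have ha := h.a_ge n hn
  obtain ⟨hL1, hL2⟩ := h.L_a n hn
  obtain ⟨hV1, hV2⟩ := h.LVV (a n) ha
  have hLp := h.L_pos (a n) ha
  have hV : 0 < V (a n) := lt_of_lt_of_le one_pos (h.V_one _)
  have hV' : 0 < V' (a n) := lt_of_lt_of_le one_pos (h.V'_one _)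
  constructor
  · calc V (a n) * V' (a n) = V (a n) * V' (a n) * 1 := by ring
      _ ≤ V (a n) * V' (a n) * (K * (n * L (a n))) := by gcongr
      _ = K * n * (L (a n) * V (a n) * V' (a n)) := by ring
      _ ≤ K * n * K := by gcongr
      _ = K ^ 2 * n := by ring
  · calc (n : ℝ) = n * 1 := by ring
      _ ≤ n * (K * (L (a n) * V (a n) * V' (a n))) := by gcongr
      _ = K * (n * L (a n)) * (V (a n) * V' (a n)) := by ring
      _ ≤ K * K * (V (a n) * V' (a n)) := by gcongr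
      _ = K ^ 2 * (V (a n) * V' (a n)) := by ring

/-- PROOF. `L_le` with `y`, `r = a n/y`: `1/L y ≤ K (y/a n)^p/L (a n) ≤ K² n (y/a n)^p`; `LVV`. The second: `V'_ge` with `r = a n/y`,
then `V' (a n) V (a n) ≤ C n`. The third:
`(n/a n) (y/a n)^{p-1} ≥ x₀^{p-1} n/(a n)^p` and `a_pow`. -/
theorem QS.lev (h : QS D μ ν a L V V' p K x₀) : ∃ C > (0 : ℝ), ∀ n : ℕ, 1 ≤ n → ∀ y : ℝ, x₀ ≤ y →
    y ≤ a n → V y * V' y / y ≤ C * (n / a n * (y / a n) ^ (p - 1)) ∧
      V' y * V (a n) / a n ≤ C * (n / a n * (y / a n) ^ (p - 1)) ∧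
      1 ≤ C * (n / a n * (y / a n) ^ (p - 1)) := by
  have hx := h.x_ge
  have hx0 : 0 < x₀ := by linarith
  have hp := h.p_gt
  have hK : 0 < K := lt_of_lt_of_le one_pos h.K_ge
  obtain ⟨C₁, hC₁, hVV⟩ := h.VV_n
  obtain ⟨C₂, hC₂, hap⟩ := h.a_pow
  have hC₁0 : 0 < C₁ := by linarith
  refine ⟨K ^ 3 + K * C₁ + C₂, by positivity, fun n hn y hy hya => ?_⟩
  have hn0 : (0 : ℝ) < n := by
    have : 0 < n := hn
    exact_mod_cast this
  have ha := h.a_ge n hn
  have ha0 : 0 < a n := by linarith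
  have hy0 : 0 < y := by linarith
  have hr : 1 ≤ a n / y := by rw [le_div_iff₀ hy0]; linarith
  have hry : a n / y * y = a n := div_mul_cancel₀ _ hy0.ne'
  have hLy := h.L_pos y hy
  have hLa := h.L_pos (a n) ha
  have hVy : 0 < V y := lt_of_lt_of_le one_pos (h.V_one _)
  have hV'y : 0 < V' y := lt_of_lt_of_le one_pos (h.V'_one _)
  have hVa : 0 < V (a n) := lt_of_lt_of_le one_pos (h.V_one _)
  have hV'a : 0 < V' (a n) := lt_of_lt_of_le one_pos (h.V'_one _)
  set X : ℝ := (y / a n) ^ (p - 1) with hX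
  have hX0 : 0 < X := by positivity
  have hinv : (y / a n) ^ (p - 1) * (a n / y) ^ (p - 1) = 1 := by
    rw [← Real.mul_rpow (by positivity) (by positivity), div_mul_div_cancel₀ ha0.ne', div_self hy0.ne', Real.one_rpow]
  have hpp : (a n / y) ^ p = (a n / y) ^ (p - 1) * (a n / y) := by
    have h1 : (a n / y) ^ ((p - 1) + 1) = (a n / y) ^ (p - 1) * (a n / y) ^ (1 : ℝ) := Real.rpow_add (by positivity) _ _
    rw [Real.rpow_one] at h1
    rw [← h1]
    congr 1
    ring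
  have hT0 : 0 < n / a n * X := by positivity
  have key1 : V y * V' y / y ≤ K ^ 3 * (n / a n * X) := by
    obtain ⟨-, hV2⟩ := h.LVV y hy
    obtain ⟨hL1, -⟩ := h.L_a n hn
    have h1 := h.L_le y (a n / y) hy hr
    rw [hry, hpp] at h1
    -- (a/y)^(p-1) (a/y) L(a) ≤ K L y
    have h2 : V y * V' y * (((a n / y) ^ (p - 1) * (a n / y)) * L (a n)) ≤ K ^ 2 := by
      calc V y * V' y * (((a n / y) ^ (p - 1) * (a n / y)) * L (a n)) ≤ V y * V' y * (K * L y) := by gcongr
        _ = K * (L y * V y * V' y) := by ring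
        _ ≤ K * K := by gcongr
        _ = K ^ 2 := by ring
    rw [div_le_iff₀ hy0]
    calc V y * V' y = V y * V' y * 1 := by ring
      _ ≤ V y * V' y * (K * (n * L (a n))) := by gcongr
      _ = (V y * V' y * (((a n / y) ^ (p - 1) * (a n / y)) * L (a n))) * (K * n * (X * (y / a n))) := by
          have e1 : ((a n / y) ^ (p - 1) * (a n / y)) * (X * (y / a n)) = 1 := by
            have e2 : ((a n / y) ^ (p - 1) * (a n / y)) * (X * (y / a n)) = (X * (a n / y) ^ (p - 1)) * ((a n / y) * (y / a n)) := by ring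
            rw [e2, hX, hinv, div_mul_div_cancel₀ hy0.ne', div_self ha0.ne', one_mul]
          calc V y * V' y * (K * (n * L (a n))) = V y * V' y * (K * (n * L (a n))) * 1 := by ring
            _ = V y * V' y * (K * (n * L (a n))) * (((a n / y) ^ (p - 1) * (a n / y)) * (X * (y / a n))) := by rw [e1]
            _ = _ := by ring
      _ ≤ K ^ 2 * (K * n * (X * (y / a n))) := by gcongr
      _ = K ^ 3 * (n / a n * X) * y := by ring
  have key2 : V' y * V (a n) / a n ≤ K * C₁ * (n / a n * X) := by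
    have h1 := h.V'_ge y (a n / y) hy hr
    rw [hry] at h1
    have h2 : V' y ≤ K * X * V' (a n) := by
      calc V' y = X * ((a n / y) ^ (p - 1) * V' y) := by rw [← mul_assoc, hX, hinv, one_mul]
        _ ≤ X * (K * V' (a n)) := by gcongr
        _ = K * X * V' (a n) := by ring
    rw [div_le_iff₀ ha0]
    calc V' y * V (a n) ≤ (K * X * V' (a n)) * V (a n) := by gcongr
      _ = K * X * (V (a n) * V' (a n)) := by ring
      _ ≤ K * X * (C₁ * n) := mul_le_mul_of_nonneg_left (hVV n hn).1 (by positivity)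
      _ = K * C₁ * (n / a n * X) * a n := by field_simp
  have key3 : 1 ≤ C₂ * (n / a n * X) := by
    have h1 : (1 / a n) ^ (p - 1) ≤ X := by
      rw [hX]
      apply Real.rpow_le_rpow (by positivity) _ (by linarith)
      apply div_le_div_of_nonneg_right _ ha0.le
      linarith
    have h2 := hap n hn
    have h3 : (a n) ^ p = (a n) ^ (p - 1) * a n := by
      have h4 : (a n) ^ ((p - 1) + 1) = (a n) ^ (p - 1) * (a n) ^ (1 : ℝ) := Real.rpow_add ha0 _ _
      rw [Real.rpow_one] at h4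
      rw [← h4]
      congr 1
      ring
    have h5 : (1 / a n) ^ (p - 1) * (a n) ^ (p - 1) = 1 := by
      rw [← Real.mul_rpow (by positivity) ha0.le, one_div, inv_mul_cancel₀ ha0.ne', Real.one_rpow]
    rw [h3] at h2
    have h6 : (a n) ^ (p - 1) ≤ C₂ * (n / a n) := by
      rw [← mul_div_assoc, le_div_iff₀ ha0]
      exact h2
    calc (1 : ℝ) = (1 / a n) ^ (p - 1) * (a n) ^ (p - 1) := h5.symm
      _ ≤ X * (C₂ * (n / a n)) := by gcongr
      _ = C₂ * (n / a n * X) := by ring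
  refine ⟨key1.trans ?_, key2.trans ?_, key3.trans ?_⟩
  · gcongr
    have : 0 < K * C₁ := by positivity
    linarith
  · gcongr
    have : 0 < K ^ 3 := by positivity
    linarith
  · gcongr
    have : 0 < K ^ 3 := by positivity
    have : 0 < K * C₁ := by positivity
    linarith

/-- `y L y` is bounded. PROOF. `L_le` with base point `x₀`, `r = y/x₀ ≥ 1`: `r^p L y ≤ K L x₀`, `r ≤ r^p`. -/
theorem QS.yL (h : QS D μ ν a L V V' p K x₀) : ∃ C > (0 : ℝ), ∀ y : ℝ, x₀ ≤ y → y * L y ≤ C := by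
  have hx := h.x_ge
  have hx0 : 0 < x₀ := by linarith
  have hp := h.p_gt
  have hK : 0 < K := lt_of_lt_of_le one_pos h.K_ge
  have hL := h.L_pos x₀ le_rfl
  refine ⟨x₀ * (K * L x₀), by positivity, fun y hy => ?_⟩
  have hr : 1 ≤ y / x₀ := by rw [le_div_iff₀ hx0]; linarith
  have h1 := h.L_le x₀ (y / x₀) le_rfl hr
  rw [div_mul_cancel₀ _ hx0.ne'] at h1
  have hLy := h.L_pos y hy
  have h2 : y / x₀ ≤ (y / x₀) ^ p := by
    have h3 := Real.rpow_le_rpow_of_exponent_le hr hp.le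
    rw [Real.rpow_one] at h3
    exact h3
  calc y * L y = x₀ * (y / x₀ * L y) := by field_simp
    _ ≤ x₀ * ((y / x₀) ^ p * L y) := by gcongr
    _ ≤ x₀ * (K * L x₀) := by gcongr

end Pool.Agent.BPT
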