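import Pool.Agent.MP_99a865_pr.ST.QW6

/-! **[STB-QW7a]** Boundaries followed by a bad window. -/

open MeasureTheory ProbabilityTheory Filter Topology
open scoped ENNReal NNReal

namespace Pool.Agent.BPT

variable {D : Set ℝ} {μ ν : Measure ℝ} {a : ℕ → ℝ} {L V V' : ℝ → ℝ} {p K x₀ : ℝ}

theorem measurable_cBad (hD : Dom D) (n w : ℕ) (y e : ℝ) :
    Measurable fun ω : ℕ → ℝ × ℝ => (cBad D n w y e ω : ℝ≥0∞) := by
  classical
  have h : (fun ω : ℕ → ℝ × ℝ => (cBad D n w y e ω : ℝ≥0∞)) = fun ω => ∑ b ∈ Finset.range n,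
      if Bd D ω b ∧ y ≤ Zw b ω ∧ shift b ω ∈ BWd w e then (1 : ℝ≥0∞) else 0 := by
    funext ω
    unfold cBad
    rw [Finset.card_filter]
    push_cast
    rfl
  rw [h]
  refine Finset.measurable_fun_sum _ fun b _ => ?_
  refine Measurable.ite ?_ measurable_const measurable_const
  exact (measurableSet_Bd hD b).inter ((measurableSet_le measurable_const (measurable_Zw b)).inter
    (measurable_shift b (measurableSet_BWd w e)))

theorem QW7a_harm (N n : ℕ) (hN : N ≤ n) (hn : 1 ≤ n) :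
    ∑ k ∈ Finset.range N, 1 / ((N - k : ℕ) : ℝ) ≤ 1 + Real.log n := by
  have h1 : ∑ k ∈ Finset.range N, 1 / ((N - k : ℕ) : ℝ) = (harmonic N : ℝ) := by
    rw [← Finset.sum_range_reflect, harmonic]
    push_cast
    refine Finset.sum_congr rfl fun j hj => ?_
    rw [Finset.mem_range] at hj
    rw [one_div, show N - (N - 1 - j) = j + 1 by omega]
    push_cast
    rfl
  rw [h1]
  rcases Nat.eq_zero_or_pos N with h0 | h0
  · rw [h0, harmonic_zero]
    have := Real.log_nonneg (by exact_mod_cast hn : (1 : ℝ) ≤ n)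
    push_cast
    linarith
  · refine (harmonic_le_one_add_log N).trans ?_
    have := Real.log_le_log (by exact_mod_cast h0 : (0 : ℝ) < N) (by exact_mod_cast hN : (N : ℝ) ≤ n)
    linarith

/-- Weighted number of high boundaries. PROOF. Let `w₀ = ⌊y/16⌋₊`, `1 ≤ w₀ ≤ w`. Blocks `[s, s + w₀)`, `s = j w₀`. For `b` in the block with
`b + 2w < n`: `n - s - w ≤ (n - b - w) + w₀ ≤ 2 (n - b - w)` (as `n - b - w > w ≥ w₀`), so `1/(n-b-w) ≤ 2/(n-s-w)`, and by `block` the block
contributes at most `2/(n-s-w) · C/V y`. Here `1/(n-s-w) ≤ (1/w₀) ∑_{m = n-s-w-w₀+1}^{n-s-w} 1/m` (all these `m ≥ 2`), and the ranges of `m` are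
disjoint for different blocks, so the sum over the blocks is at most `(2C/V y) (1/w₀) ∑_{m=1}^n 1/m ≤ (2C/V y) (32/y) (1 + log n)`
(`Mathlib: harmonic_le_one_add_log`). -/
theorem QS.high_weighted (h : QS D μ ν a L V V' p K x₀) : ∃ C > (0 : ℝ), ∀ n w : ℕ, 1 ≤ n → ∀ y : ℝ,
    x₀ ≤ y → y / 16 ≤ w → ∑ b ∈ (Finset.range n).filter (fun b => b + 2 * w < n),
      ENNReal.ofReal (1 / ((n - b - w : ℕ) : ℝ)) * PQ μ ν {ω | Bd D ω b ∧ AliveQ D b ω ∧ y ≤ Zw b ω} ≤
        ENNReal.ofReal (C * (1 + Real.log n) / (y * V y)) := by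
  classical
  obtain ⟨C₀, hC₀, hblock⟩ := h.block
  refine ⟨32 * C₀, by positivity, fun n w hn y hy hyw => ?_⟩
  have hx16 := h.x_ge
  have hy16 : 16 ≤ y := hx16.trans hy
  have hy0 : 0 < y := by linarith
  have hV0 : 0 < V y := lt_of_lt_of_le one_pos (h.V_one y)
  set w₀ : ℕ := ⌊y / 16⌋₊ with hw₀
  have hw₀le : (w₀ : ℝ) ≤ y / 16 := Nat.floor_le (by positivity)
  have hw₀1 : 1 ≤ w₀ := by
    rw [hw₀, Nat.one_le_floor_iff]
    linarith
  have hw₀ge : y / 32 ≤ w₀ := by
    have h1 : y / 16 < w₀ + 1 := Nat.lt_floor_add_one _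
    have h2 : (1 : ℝ) ≤ w₀ := by exact_mod_cast hw₀1
    linarith
  have hw₀w : w₀ ≤ w := by
    have h1 : (w₀ : ℝ) ≤ w := hw₀le.trans hyw
    exact_mod_cast h1
  set P : ℕ → ℝ≥0∞ := fun b => PQ μ ν {ω | Bd D ω b ∧ AliveQ D b ω ∧ y ≤ Zw b ω} with hP
  set f : ℕ → ℝ≥0∞ := fun k => ENNReal.ofReal (1 / ((n - k - w : ℕ) : ℝ)) with hf
  have hfmono : ∀ b k, b ≤ k → k + w < n → f b ≤ f k := by
    intro b k hbk hk
    refine ENNReal.ofReal_le_ofReal (one_div_le_one_div_of_le ?_ ?_)
    · have : 0 < n - k - w := by omega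
      exact_mod_cast this
    · have : n - k - w ≤ n - b - w := by omega
      exact_mod_cast this
  have hstep : ∀ b ∈ (Finset.range n).filter (fun b => b + 2 * w < n), (w₀ : ℝ≥0∞) * (f b * P b) ≤
      ∑ k ∈ Finset.range (n - w), if b ≤ k ∧ k < b + w₀ then f k * P b else 0 := by
    intro b hb
    rw [Finset.mem_filter, Finset.mem_range] at hb
    rw [← Finset.sum_filter]
    have h1 : (Finset.range (n - w)).filter (fun k => b ≤ k ∧ k < b + w₀) = Finset.Ico b (b + w₀) := by
      ext k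
      rw [Finset.mem_filter, Finset.mem_range, Finset.mem_Ico]
      constructor
      · exact fun h => h.2
      · exact fun h => ⟨by omega, h⟩
    rw [h1]
    calc (w₀ : ℝ≥0∞) * (f b * P b) = ∑ _k ∈ Finset.Ico b (b + w₀), f b * P b := by
          rw [Finset.sum_const, Nat.card_Ico, nsmul_eq_mul, Nat.add_sub_cancel_left]
      _ ≤ ∑ k ∈ Finset.Ico b (b + w₀), f k * P b := by
          refine Finset.sum_le_sum fun k hk => ?_
          rw [Finset.mem_Ico] at hk
          exact mul_le_mul_left (hfmono b k hk.1 (by omega)) _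
  have hmain : (w₀ : ℝ≥0∞) * ∑ b ∈ (Finset.range n).filter (fun b => b + 2 * w < n), f b * P b ≤
      ENNReal.ofReal (C₀ * (1 + Real.log n) / V y) := by
    calc (w₀ : ℝ≥0∞) * ∑ b ∈ (Finset.range n).filter (fun b => b + 2 * w < n), f b * P b
        = ∑ b ∈ (Finset.range n).filter (fun b => b + 2 * w < n), (w₀ : ℝ≥0∞) * (f b * P b) :=
          Finset.mul_sum _ _ _
      _ ≤ ∑ b ∈ (Finset.range n).filter (fun b => b + 2 * w < n), ∑ k ∈ Finset.range (n - w),
            (if b ≤ k ∧ k < b + w₀ then f k * P b else 0) := Finset.sum_le_sum hstep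
      _ = ∑ k ∈ Finset.range (n - w), ∑ b ∈ (Finset.range n).filter (fun b => b + 2 * w < n),
            (if b ≤ k ∧ k < b + w₀ then f k * P b else 0) := Finset.sum_comm
      _ ≤ ∑ k ∈ Finset.range (n - w), f k * ENNReal.ofReal (C₀ / V y) := by
          refine Finset.sum_le_sum fun k _ => ?_
          rw [← Finset.sum_filter, ← Finset.mul_sum]
          refine mul_le_mul_right (le_trans ?_ (hblock y hy w₀ hw₀le (k + 1 - w₀))) _
          refine Finset.sum_le_sum_of_subset ?_
          intro b hb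
          rw [Finset.mem_filter, Finset.mem_filter, Finset.mem_range] at hb
          rw [Finset.mem_Ico]
          omega
      _ = ENNReal.ofReal (∑ k ∈ Finset.range (n - w), 1 / ((n - w - k : ℕ) : ℝ)) * ENNReal.ofReal (C₀ / V y) := by
          rw [← Finset.sum_mul, ENNReal.ofReal_sum_of_nonneg (fun k _ => by positivity)]
          congr 1
          refine Finset.sum_congr rfl fun k _ => ?_
          rw [hf, Nat.sub_right_comm]
      _ ≤ ENNReal.ofReal (1 + Real.log n) * ENNReal.ofReal (C₀ / V y) :=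
          mul_le_mul_left (ENNReal.ofReal_le_ofReal (QW7a_harm (n - w) n (Nat.sub_le _ _) hn)) _
      _ = ENNReal.ofReal (C₀ * (1 + Real.log n) / V y) := by
          rw [← ENNReal.ofReal_mul]
          · congr 1
            ring
          · have := Real.log_nonneg (by exact_mod_cast hn : (1 : ℝ) ≤ n)
            linarith
  have h1 : ENNReal.ofReal (y / 32) * ∑ b ∈ (Finset.range n).filter (fun b => b + 2 * w < n), f b * P b ≤
      ENNReal.ofReal (C₀ * (1 + Real.log n) / V y) := by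
    refine le_trans (mul_le_mul_left ?_ _) hmain
    rw [← ENNReal.ofReal_natCast]
    exact ENNReal.ofReal_le_ofReal hw₀ge
  have h2 : ENNReal.ofReal (32 * C₀ * (1 + Real.log n) / (y * V y)) =
      ENNReal.ofReal (C₀ * (1 + Real.log n) / V y) / ENNReal.ofReal (y / 32) := by
    rw [← ENNReal.ofReal_div_of_pos (by positivity)]
    congr 1
    field_simp
  rw [h2, ENNReal.le_div_iff_mul_le (Or.inl (by simpa using hy0)) (Or.inl ENNReal.ofReal_ne_top), mul_comm]
  exact h1

end Pool.Agent.BPT
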