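import Pool.Agent.MP_99a865_pr.ST.QW6
import Pool.Agent.MP_99a865_pr.ST.QW7a

/-! **[STB-QW7b]** Boundaries followed by a bad window. -/

open MeasureTheory ProbabilityTheory Filter Topology
open scoped ENNReal NNReal

namespace Pool.Agent.BPT

variable {D : Set ℝ} {μ ν : Measure ℝ} {a : ℕ → ℝ} {L V V' : ℝ → ℝ} {p K x₀ : ℝ}

theorem QW7b_exit (h : QS D μ ν a L V V' p K x₀) (n b : ℕ) (hb : b < n) (y : ℝ) (hy : x₀ ≤ y) :
    PQ μ ν (EvN D n ∩ {ω | Bd D ω b ∧ y ≤ Zw b ω}) ≤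
      ENNReal.ofReal (K * L y) * PQ μ ν {ω | Bd D ω b ∧ AliveQ D b ω ∧ y ≤ Zw b ω} := by
  have hprob := h.qi.probμ
  have hprob' := h.qi.probν
  have hK0 : 0 ≤ K := zero_le_one.trans h.K_ge
  set A : Set (ℕ → ℝ × ℝ) := {ω | Bd D ω b ∧ y ≤ Zw b ω} with hA
  have hAm : MeasurableSet A :=
    (measurableSet_Bd h.dom b).inter (measurableSet_le measurable_const (measurable_Zw b))
  have hdep : ∀ ω ω', (∀ j < b, ω j = ω' j) →
      A.indicator (1 : (ℕ → ℝ × ℝ) → ℝ≥0∞) ω = A.indicator (1 : (ℕ → ℝ × ℝ) → ℝ≥0∞) ω' := by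
    intro ω ω' hω
    have h1 : ω ∈ A ↔ ω' ∈ A := by
      change (Bd D ω b ∧ y ≤ Zw b ω) ↔ (Bd D ω' b ∧ y ≤ Zw b ω')
      rw [Bd_dep (D := D) b ω ω' hω, Q1_Zw_congr b hω]
    by_cases h2 : ω ∈ A
    · rw [Set.indicator_of_mem h2, Set.indicator_of_mem (h1.1 h2)]
      rfl
    · rw [Set.indicator_of_notMem h2, Set.indicator_of_notMem (fun h3 => h2 (h1.2 h3))]
  have h1 := q_exit (μ := μ) (ν := ν) h.dom b n hb (A.indicator (1 : (ℕ → ℝ × ℝ) → ℝ≥0∞))
    (measurable_one.indicator hAm) hdep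
  have h2 : ∫⁻ ω in EvN D n, A.indicator (1 : (ℕ → ℝ × ℝ) → ℝ≥0∞) ω ∂(PQ μ ν) = PQ μ ν (EvN D n ∩ A) := by
    rw [lintegral_indicator_one hAm, Measure.restrict_apply hAm, Set.inter_comm]
  rw [← h2, h1]
  calc _ ≤ ∫⁻ ω in {ω | AliveQ D b ω}, ENNReal.ofReal (K * L y) *
        A.indicator (1 : (ℕ → ℝ × ℝ) → ℝ≥0∞) ω ∂(PQ μ ν) := by
        refine lintegral_mono fun ω => ?_
        by_cases h3 : ω ∈ A
        · rw [mul_comm]
          refine mul_le_mul_left (ENNReal.ofReal_le_ofReal ?_) _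
          exact (h.hit_L _ _ (by omega) (hy.trans h3.2)).trans
            (mul_le_mul_of_nonneg_left (h.L_anti _ _ hy h3.2) hK0)
        · rw [Set.indicator_of_notMem h3, zero_mul]
          exact zero_le
    _ = ENNReal.ofReal (K * L y) * PQ μ ν {ω | Bd D ω b ∧ AliveQ D b ω ∧ y ≤ Zw b ω} := by
        rw [lintegral_const_mul _ (measurable_one.indicator hAm), lintegral_indicator_one hAm,
          Measure.restrict_apply hAm]
        congr 2
        ext ω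
        constructor
        · rintro ⟨⟨h3, h4⟩, h5⟩
          exact ⟨h3, h5, h4⟩
        · rintro ⟨h3, h5, h4⟩
          exact ⟨⟨h3, h4⟩, h5⟩

theorem QW7b_blocks {P : ℕ → ℝ≥0∞} {c : ℝ≥0∞} {w₀ : ℕ} (hP : ∀ s, ∑ b ∈ Finset.Ico s (s + w₀), P b ≤ c) (j s : ℕ) :
    ∑ b ∈ Finset.Ico s (s + j * w₀), P b ≤ j * c := by
  induction j with
  | zero => simp
  | succ j ih =>
    rw [show s + (j + 1) * w₀ = (s + j * w₀) + w₀ by ring,
      ← Finset.sum_Ico_consecutive _ (Nat.le_add_right s (j * w₀)) (Nat.le_add_right _ w₀)]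
    push_cast
    rw [add_mul, one_mul]
    exact add_le_add ih (hP _)

theorem QW7b_BWd_mono {w w' : ℕ} (hw : w ≤ w') (e : ℝ) : BWd w e ⊆ BWd w' e := by
  rintro η ⟨j, hj, h⟩
  exact ⟨j, hj.trans hw, h⟩

theorem QW7b_cBad_mono (n : ℕ) {w w' : ℕ} (hw : w ≤ w') (y e : ℝ) (ω : ℕ → ℝ × ℝ) :
    cBad D n w y e ω ≤ cBad D n w' y e ω := by
  classical
  unfold cBad
  refine Finset.card_le_card ?_
  intro b hb
  rw [Finset.mem_filter] at hb ⊢
  exact ⟨hb.1, hb.2.1, hb.2.2.1, QW7b_BWd_mono hw e hb.2.2.2⟩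

theorem QW7b_sum (h : QS D μ ν a L V V' p K x₀) (n w : ℕ) (y e : ℝ) :
    ∫⁻ ω in EvN D n, (cBad D n w y e ω : ℝ≥0∞) ∂(PQ μ ν) =
      ∑ b ∈ Finset.range n, PQ μ ν (EvN D n ∩ {ω | Bd D ω b ∧ y ≤ Zw b ω} ∩ {ω | shift b ω ∈ BWd w e}) := by
  classical
  have hm : ∀ b, MeasurableSet {ω : ℕ → ℝ × ℝ | Bd D ω b ∧ y ≤ Zw b ω ∧ shift b ω ∈ BWd w e} := fun b =>
    (measurableSet_Bd h.dom b).inter ((measurableSet_le measurable_const (measurable_Zw b)).inter
      (measurable_shift b (measurableSet_BWd w e)))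
  have h1 : ∀ ω, (cBad D n w y e ω : ℝ≥0∞) = ∑ b ∈ Finset.range n,
      ({ω : ℕ → ℝ × ℝ | Bd D ω b ∧ y ≤ Zw b ω ∧ shift b ω ∈ BWd w e}).indicator (1 : (ℕ → ℝ × ℝ) → ℝ≥0∞) ω := by
    intro ω
    unfold cBad
    rw [Finset.card_filter]
    push_cast
    refine Finset.sum_congr rfl fun b _ => ?_
    by_cases h2 : Bd D ω b ∧ y ≤ Zw b ω ∧ shift b ω ∈ BWd w e
    · have h3 : ω ∈ {ω : ℕ → ℝ × ℝ | Bd D ω b ∧ y ≤ Zw b ω ∧ shift b ω ∈ BWd w e} := h2
      rw [if_pos h2, Set.indicator_of_mem h3]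
      rfl
    · have h3 : ω ∉ {ω : ℕ → ℝ × ℝ | Bd D ω b ∧ y ≤ Zw b ω ∧ shift b ω ∈ BWd w e} := h2
      rw [if_neg h2, Set.indicator_of_notMem h3]
  rw [lintegral_congr h1, lintegral_finsetSum _ (fun b _ => measurable_one.indicator (hm b))]
  refine Finset.sum_congr rfl fun b _ => ?_
  rw [lintegral_indicator_one (hm b), Measure.restrict_apply (hm b)]
  congr 1
  ext ω
  constructor
  · rintro ⟨⟨h3, h4, h5⟩, h6⟩
    exact ⟨⟨h6, h3, h4⟩, h5⟩
  · rintro ⟨⟨h6, h3, h4⟩, h5⟩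
    exact ⟨⟨h3, h4, h5⟩, h6⟩

/-- the two parts -/
theorem QW7b_parts (h : QS D μ ν a L V V' p K x₀) {C₀ C₁ : ℝ} (hC₀ : 0 < C₀) (hC₁ : 0 < C₁)
    (hblock : ∀ y : ℝ, x₀ ≤ y → ∀ w : ℕ, (w : ℝ) ≤ y / 16 → ∀ s : ℕ, ∑ b ∈ Finset.Ico s (s + w),
      PQ μ ν {ω | Bd D ω b ∧ AliveQ D b ω ∧ y ≤ Zw b ω} ≤ ENNReal.ofReal (C₀ / V y))
    (hhigh : ∀ n w : ℕ, 1 ≤ n → ∀ y : ℝ,
      x₀ ≤ y → y / 16 ≤ w → ∑ b ∈ (Finset.range n).filter (fun b => b + 2 * w < n),
      ENNReal.ofReal (1 / ((n - b - w : ℕ) : ℝ)) * PQ μ ν {ω | Bd D ω b ∧ AliveQ D b ω ∧ y ≤ Zw b ω} ≤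
        ENNReal.ofReal (C₁ * (1 + Real.log n) / (y * V y)))
    (n w : ℕ) (hn : 1 ≤ n) (y e : ℝ) (hy : x₀ ≤ y) (he : x₀ ≤ e) (hyw : y / 16 ≤ w) (j : ℕ)
    (hj : 2 * (w : ℝ) ≤ j * (y / 32)) :
    ∫⁻ ω in EvN D n, (cBad D n w y e ω : ℝ≥0∞) ∂(PQ μ ν) ≤
      ENNReal.ofReal (K * (2 * K * (w * L e)) * (C₁ * (1 + Real.log n) / (y * V y)) + K * L y * (j * (C₀ / V y))) := by
  classical
  have hK0 : 0 ≤ K := zero_le_one.trans h.K_ge
  have hx16 := h.x_ge
  have hy16 : 16 ≤ y := hx16.trans hy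
  have hy0 : 0 < y := by linarith
  have hV0 : 0 < V y := lt_of_lt_of_le one_pos (h.V_one y)
  have hLe : 0 < L e := h.L_pos e he
  have hLy : 0 < L y := h.L_pos y hy
  have hlog : 0 ≤ Real.log n := Real.log_nonneg (by exact_mod_cast hn : (1 : ℝ) ≤ n)
  set w₀ : ℕ := ⌊y / 16⌋₊ with hw₀
  have hw₀le : (w₀ : ℝ) ≤ y / 16 := Nat.floor_le (by positivity)
  have hw₀1 : 1 ≤ w₀ := by
    rw [hw₀, Nat.one_le_floor_iff]
    linarith
  have hw₀ge : y / 32 ≤ w₀ := by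
    have h1 : y / 16 < w₀ + 1 := Nat.lt_floor_add_one _
    have h2 : (1 : ℝ) ≤ w₀ := by exact_mod_cast hw₀1
    linarith
  have hjw : 2 * w ≤ j * w₀ := by
    have h1 : (2 * (w : ℝ)) ≤ j * w₀ := hj.trans (mul_le_mul_of_nonneg_left hw₀ge (Nat.cast_nonneg _))
    exact_mod_cast h1
  rw [QW7b_sum h]
  have hsplit := Finset.sum_filter_add_sum_filter_not (Finset.range n) (fun b => b + 2 * w < n)
    (fun b => PQ μ ν (EvN D n ∩ {ω | Bd D ω b ∧ y ≤ Zw b ω} ∩ {ω | shift b ω ∈ BWd w e}))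
  rw [← hsplit, ENNReal.ofReal_add (by positivity) (by positivity)]
  refine add_le_add ?_ ?_
  · calc ∑ b ∈ (Finset.range n).filter (fun b => b + 2 * w < n),
          PQ μ ν (EvN D n ∩ {ω | Bd D ω b ∧ y ≤ Zw b ω} ∩ {ω | shift b ω ∈ BWd w e})
        ≤ ∑ b ∈ (Finset.range n).filter (fun b => b + 2 * w < n),
          (ENNReal.ofReal K * ENNReal.ofReal (2 * K * (w * L e))) * (ENNReal.ofReal (1 / ((n - b - w : ℕ) : ℝ)) *
            PQ μ ν {ω | Bd D ω b ∧ AliveQ D b ω ∧ y ≤ Zw b ω}) := by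
          refine Finset.sum_le_sum fun b hb => ?_
          rw [Finset.mem_filter, Finset.mem_range] at hb
          have hw := h.win n b w (by omega) {ω | Bd D ω b ∧ y ≤ Zw b ω} (BWd w e)
            ((measurableSet_Bd h.dom b).inter (measurableSet_le measurable_const (measurable_Zw b)))
            (measurableSet_BWd w e) (fun ω ω' hω => by
              change (Bd D ω b ∧ y ≤ Zw b ω) ↔ (Bd D ω' b ∧ y ≤ Zw b ω')
              rw [Bd_dep (D := D) b ω ω' hω, Q1_Zw_congr b hω]) (BWd_dep w e)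
          refine hw.trans ?_
          have hset : ({ω : ℕ → ℝ × ℝ | Bd D ω b ∧ y ≤ Zw b ω} ∩ {ω | AliveQ D b ω}) =
              {ω | Bd D ω b ∧ AliveQ D b ω ∧ y ≤ Zw b ω} := by
            ext ω
            constructor
            · rintro ⟨⟨h3, h4⟩, h5⟩
              exact ⟨h3, h5, h4⟩
            · rintro ⟨h3, h5, h4⟩
              exact ⟨⟨h3, h4⟩, h5⟩
          rw [hset, div_eq_mul_one_div K, ENNReal.ofReal_mul hK0]
          calc ENNReal.ofReal K * ENNReal.ofReal (1 / ((n - b - w : ℕ) : ℝ)) *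
                (PQ μ ν {ω | Bd D ω b ∧ AliveQ D b ω ∧ y ≤ Zw b ω} * PQ μ ν (BWd w e))
              ≤ ENNReal.ofReal K * ENNReal.ofReal (1 / ((n - b - w : ℕ) : ℝ)) *
                (PQ μ ν {ω | Bd D ω b ∧ AliveQ D b ω ∧ y ≤ Zw b ω} * ENNReal.ofReal (2 * K * (w * L e))) :=
                mul_le_mul_right (mul_le_mul_right (h.prob_BWd w e he) _) _
            _ = _ := by ring
      _ = (ENNReal.ofReal K * ENNReal.ofReal (2 * K * (w * L e))) *
          ∑ b ∈ (Finset.range n).filter (fun b => b + 2 * w < n), ENNReal.ofReal (1 / ((n - b - w : ℕ) : ℝ)) *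
            PQ μ ν {ω | Bd D ω b ∧ AliveQ D b ω ∧ y ≤ Zw b ω} := by rw [Finset.mul_sum]
      _ ≤ (ENNReal.ofReal K * ENNReal.ofReal (2 * K * (w * L e))) *
          ENNReal.ofReal (C₁ * (1 + Real.log n) / (y * V y)) := mul_le_mul_right (hhigh n w hn y hy hyw) _
      _ = ENNReal.ofReal (K * (2 * K * (w * L e)) * (C₁ * (1 + Real.log n) / (y * V y))) := by
          rw [← ENNReal.ofReal_mul hK0, ← ENNReal.ofReal_mul (by positivity)]
  · calc ∑ b ∈ (Finset.range n).filter (fun b => ¬ b + 2 * w < n),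
          PQ μ ν (EvN D n ∩ {ω | Bd D ω b ∧ y ≤ Zw b ω} ∩ {ω | shift b ω ∈ BWd w e})
        ≤ ∑ b ∈ (Finset.range n).filter (fun b => ¬ b + 2 * w < n),
          ENNReal.ofReal (K * L y) * PQ μ ν {ω | Bd D ω b ∧ AliveQ D b ω ∧ y ≤ Zw b ω} := by
          refine Finset.sum_le_sum fun b hb => ?_
          rw [Finset.mem_filter, Finset.mem_range] at hb
          exact (measure_mono Set.inter_subset_left).trans (QW7b_exit h n b hb.1 y hy)
      _ = ENNReal.ofReal (K * L y) * ∑ b ∈ (Finset.range n).filter (fun b => ¬ b + 2 * w < n),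
          PQ μ ν {ω | Bd D ω b ∧ AliveQ D b ω ∧ y ≤ Zw b ω} := by rw [Finset.mul_sum]
      _ ≤ ENNReal.ofReal (K * L y) * ∑ b ∈ Finset.Ico (n - 2 * w) (n - 2 * w + j * w₀),
          PQ μ ν {ω | Bd D ω b ∧ AliveQ D b ω ∧ y ≤ Zw b ω} := by
          refine mul_le_mul_right (Finset.sum_le_sum_of_subset ?_) _
          intro b hb
          rw [Finset.mem_filter, Finset.mem_range] at hb
          rw [Finset.mem_Ico]
          omega
      _ ≤ ENNReal.ofReal (K * L y) * (j * ENNReal.ofReal (C₀ / V y)) :=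
          mul_le_mul_right (QW7b_blocks (hblock y hy w₀ hw₀le) j _) _
      _ = ENNReal.ofReal (K * L y * (j * (C₀ / V y))) := by
          rw [ENNReal.ofReal_mul (p := K * L y) (by positivity), ENNReal.ofReal_mul (p := (j : ℝ)) (Nat.cast_nonneg _),
            ENNReal.ofReal_natCast]

/-- PROOF. `w = ⌈R a n⌉₊`, `y = s a n`, `e = ε a n`, `n` large (`scale`). Pointwise `cBad = ∑_b 1{…}`. (We may assume `s ≤ R`, otherwise replace `R` by
`max R s`: `BWd w e` increases with `w`.) For `b + 2w < n`: `win` with `A = {Bd b, y ≤ Zw b}`, `B = BWd w e`,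
`P(B) ≤ 2 K w L e ≤ C a n/n`; sum by `high_weighted`: `≤ C (a n/n) (1 + log n)/(y V y) ≤ C' (1 + log n)/(n V (a n))`. For `n ≤ b + 2w`,
`b < n`: `P(EvN n ∩ A ∩ …) ≤ K L y P(A_b)` (`q_exit` with `r = b` and `hit_L`), and these `b` are covered by at most `2w/w₀ + 1 ≤ C`
blocks of length `w₀ = ⌊y/16⌋₊` (`block`): `≤ K L y · C · C/V y ≤ C'/(n V (a n))`. -/
theorem QS.bad (h : QS D μ ν a L V V' p K x₀) {R s ε : ℝ} (hR : 0 < R) (hs : 0 < s) (hε : 0 < ε) :
    ∃ C > (0 : ℝ), ∃ n₀ : ℕ, ∀ n ≥ n₀,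
      ∫⁻ ω in EvN D n, (cBad D n ⌈R * a n⌉₊ (s * a n) (ε * a n) ω : ℝ≥0∞) ∂(PQ μ ν) ≤
        ENNReal.ofReal (C * (1 + Real.log n) * bb V a n) := by
  obtain ⟨C₀, hC₀, hblock⟩ := h.block
  obtain ⟨C₁, hC₁, hhigh⟩ := h.high_weighted
  obtain ⟨A, hA, n₁, hn₁, hsc⟩ := h.scale hs
  obtain ⟨B, hB, n₂, hn₂, hse⟩ := h.scale hε
  have hK1 := h.K_ge
  have hK0 : 0 < K := by linarith
  have hA0 : 0 < A := by linarith
  have hB0 : 0 < B := by linarith
  set R' : ℝ := max R s with hR'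
  have hR'0 : 0 < R' := lt_of_lt_of_le hR (le_max_left _ _)
  set j : ℕ := ⌈64 * (R' + 1) / s⌉₊ with hj
  refine ⟨K * (2 * K * ((R' + 1) * B)) * (C₁ * A / s) + K * A * (j * (C₀ * A)) + 1, by positivity,
    max n₁ n₂, fun n hn => ?_⟩
  have hn1 : n₁ ≤ n := (le_max_left _ _).trans hn
  have hn2 : n₂ ≤ n := (le_max_right _ _).trans hn
  have hnpos : 1 ≤ n := hn₁.trans hn1
  obtain ⟨s1, s2, s3, s4, s5⟩ := hsc n hn1
  obtain ⟨e1, e2, e3, e4, e5⟩ := hse n hn2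
  have hn1' : (1 : ℝ) ≤ n := by exact_mod_cast hnpos
  have hn0 : (0 : ℝ) < n := by linarith
  have ha16 : 16 ≤ a n := h.x_ge.trans (h.a_ge n hnpos)
  have ha0 : 0 < a n := by linarith
  have hlog : 0 ≤ Real.log n := Real.log_nonneg hn1'
  have hVa : 0 < V (a n) := lt_of_lt_of_le one_pos (h.V_one _)
  have hVy : 0 < V (s * a n) := lt_of_lt_of_le one_pos (h.V_one _)
  set w : ℕ := ⌈R' * a n⌉₊ with hw
  have hwge : R' * a n ≤ w := Nat.le_ceil _
  have hwle : (w : ℝ) ≤ (R' + 1) * a n := by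
    have h1 : (w : ℝ) < R' * a n + 1 := Nat.ceil_lt_add_one (by positivity)
    linarith
  have hwmono : ⌈R * a n⌉₊ ≤ w := Nat.ceil_le_ceil (mul_le_mul_of_nonneg_right (le_max_left _ _) ha0.le)
  have hyw : s * a n / 16 ≤ w := by
    have h1 : s * a n ≤ R' * a n := mul_le_mul_of_nonneg_right (le_max_right _ _) ha0.le
    have h2 : 0 ≤ s * a n := by positivity
    linarith
  have hjw : 2 * (w : ℝ) ≤ j * (s * a n / 32) := by
    have h1 : 64 * (R' + 1) / s ≤ j := Nat.le_ceil _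
    have h2 : 64 * (R' + 1) / s * (s * a n / 32) ≤ j * (s * a n / 32) :=
      mul_le_mul_of_nonneg_right h1 (by positivity)
    have h3 : 64 * (R' + 1) / s * (s * a n / 32) = 2 * ((R' + 1) * a n) := by
      field_simp
      ring
    linarith
  calc ∫⁻ ω in EvN D n, (cBad D n ⌈R * a n⌉₊ (s * a n) (ε * a n) ω : ℝ≥0∞) ∂(PQ μ ν)
      ≤ ∫⁻ ω in EvN D n, (cBad D n w (s * a n) (ε * a n) ω : ℝ≥0∞) ∂(PQ μ ν) :=
        lintegral_mono fun ω => Nat.cast_le.2 (QW7b_cBad_mono n hwmono (s * a n) (ε * a n) ω)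
    _ ≤ ENNReal.ofReal (K * (2 * K * (w * L (ε * a n))) * (C₁ * (1 + Real.log n) / (s * a n * V (s * a n))) +
          K * L (s * a n) * (j * (C₀ / V (s * a n)))) :=
        QW7b_parts h hC₀ hC₁ hblock hhigh n w hnpos _ _ s1 e1 hyw j hjw
    _ ≤ ENNReal.ofReal ((K * (2 * K * ((R' + 1) * B)) * (C₁ * A / s) + K * A * (j * (C₀ * A)) + 1) *
          (1 + Real.log n) * bb V a n) := by
        apply ENNReal.ofReal_le_ofReal
        have hLe : 0 < L (ε * a n) := h.L_pos _ e1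
        have hLs : 0 < L (s * a n) := h.L_pos _ s1
        have hVinv : 1 / V (s * a n) ≤ A / V (a n) := by
          rw [div_le_div_iff₀ hVy hVa, one_mul]
          exact s4
        have hbb : 0 < bb V a n := h.bb_pos n hnpos
        have t1 : K * (2 * K * (w * L (ε * a n))) * (C₁ * (1 + Real.log n) / (s * a n * V (s * a n))) ≤
            K * (2 * K * ((R' + 1) * B)) * (C₁ * A / s) * (1 + Real.log n) * bb V a n := by
          calc K * (2 * K * (w * L (ε * a n))) * (C₁ * (1 + Real.log n) / (s * a n * V (s * a n)))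
              ≤ K * (2 * K * (((R' + 1) * a n) * (B / n))) * (C₁ * (1 + Real.log n) / (s * a n) * (1 / V (s * a n))) := by
                have q1 : (w : ℝ) * L (ε * a n) ≤ ((R' + 1) * a n) * (B / n) :=
                  mul_le_mul hwle e2 hLe.le (by positivity)
                rw [show C₁ * (1 + Real.log n) / (s * a n * V (s * a n)) =
                  C₁ * (1 + Real.log n) / (s * a n) * (1 / V (s * a n)) by field_simp]
                gcongr
            _ ≤ K * (2 * K * (((R' + 1) * a n) * (B / n))) * (C₁ * (1 + Real.log n) / (s * a n) * (A / V (a n))) := by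
                gcongr
            _ = K * (2 * K * ((R' + 1) * B)) * (C₁ * A / s) * (1 + Real.log n) * bb V a n := by
                unfold bb
                field_simp
        have t2 : K * L (s * a n) * (j * (C₀ / V (s * a n))) ≤ K * A * (j * (C₀ * A)) * (1 + Real.log n) * bb V a n := by
          calc K * L (s * a n) * (j * (C₀ / V (s * a n)))
              = K * L (s * a n) * (j * (C₀ * (1 / V (s * a n)))) := by rw [mul_one_div]
            _ ≤ K * (A / n) * (j * (C₀ * (A / V (a n)))) := by gcongr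
            _ = K * A * (j * (C₀ * A)) * 1 * bb V a n := by
                unfold bb
                field_simp
            _ ≤ K * A * (j * (C₀ * A)) * (1 + Real.log n) * bb V a n := by
                gcongr
                linarith
        have t3 : 0 ≤ (1 + Real.log n) * bb V a n := by positivity
        linarith

end Pool.Agent.BPT
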