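import Pool.Agent.MP_99a865_pr.ST.QW1

/-! **[STB-QW8a]** Arrivals are never too fast; compare FV/F8e.lean (the case of the factor `1/2`, `√n` in place of `a n`). -/

open MeasureTheory ProbabilityTheory Filter Topology
open scoped ENNReal NNReal

namespace Pool.Agent.BPT

variable {D : Set ℝ} {μ ν : Measure ℝ} {a : ℕ → ℝ} {L V V' : ℝ → ℝ} {p K x₀ : ℝ}

/-- truncation -/
theorem QW8a_trunc (hQ : QI μ ν) {ε : ℝ} (hε : 0 < ε) : ∃ T : ℝ, 1 ≤ T ∧ 1 - ε / 4 ≤ ∫ x, min (max x 0) T ∂μ := by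
  have hprob := hQ.probμ
  have hint : Integrable (fun x : ℝ => x) μ := hQ.int.1
  have hmax : ∫ x, max x 0 ∂μ = 1 := by
    rw [← hQ.meanμ]
    apply integral_congr_ae
    have h0 : ∀ᵐ x ∂μ, ¬ x < 0 := by
      rw [ae_iff]
      simp only [not_not]
      exact hQ.nonnegμ
    filter_upwards [h0] with x hx
    exact max_eq_left (not_lt.mp hx)
  have hlim : Tendsto (fun n : ℕ => ∫ x, min (max x 0) (n : ℝ) ∂μ) atTop (𝓝 (∫ x, max x 0 ∂μ)) := by
    apply tendsto_integral_of_dominated_convergence (fun x => |x|)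
    · intro n
      exact ((measurable_id.max measurable_const).min measurable_const).aestronglyMeasurable
    · exact hint.abs
    · intro n
      refine Eventually.of_forall fun x => ?_
      have h1 : 0 ≤ min (max x 0) (n : ℝ) := le_min (le_max_right _ _) (Nat.cast_nonneg n)
      rw [Real.norm_eq_abs, abs_of_nonneg h1]
      exact (min_le_left _ _).trans (max_le (le_abs_self x) (abs_nonneg x))
    · refine Eventually.of_forall fun x => ?_
      apply tendsto_const_nhds.congr'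
      obtain ⟨N, hN⟩ := exists_nat_ge (max x 0)
      filter_upwards [eventually_ge_atTop N] with n hn
      exact (min_eq_left (hN.trans (by exact_mod_cast hn))).symm
  rw [hmax] at hlim
  have h2 : ∀ᶠ n : ℕ in atTop, (1 - ε / 4 : ℝ) < ∫ x, min (max x 0) (n : ℝ) ∂μ :=
    hlim.eventually (lt_mem_nhds (by linarith))
  obtain ⟨n, hn1, hn2⟩ := (h2.and (eventually_ge_atTop 1)).exists
  exact ⟨n, by exact_mod_cast hn2, hn1.le⟩

/-- exponential moment of the truncated variable -/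
theorem QW8a_mgf (hQ : QI μ ν) {ε : ℝ} (hε : 0 < ε) : ∃ l : ℝ, 0 < l ∧ ∃ g : ℝ → ℝ, Measurable g ∧
    (∀ x, 0 ≤ x → g x ≤ x) ∧ (∀ x, 0 ≤ g x) ∧
    ∫ x, Real.exp (-l * g x) ∂μ ≤ Real.exp (-l * (1 - ε / 2)) := by
  have hprob := hQ.probμ
  obtain ⟨T, hT, hm⟩ := QW8a_trunc hQ hε
  have hT0 : 0 < T := by linarith
  set l : ℝ := ε / (2 * T ^ 2) with hl
  have hl0 : 0 < l := by positivity
  have hmeas : Measurable (fun x : ℝ => min (max x 0) T) :=
    (measurable_id.max measurable_const).min measurable_const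
  have hg0 : ∀ x : ℝ, 0 ≤ min (max x 0) T := fun x => le_min (le_max_right _ _) hT0.le
  have hgT : ∀ x : ℝ, min (max x 0) T ≤ T := fun x => min_le_right _ _
  refine ⟨l, hl0, fun x => min (max x 0) T, hmeas, ?_, hg0, ?_⟩
  · intro x hx
    exact (min_le_left _ _).trans (max_le le_rfl hx)
  · have hintg : Integrable (fun x : ℝ => min (max x 0) T) μ := by
      apply Integrable.of_bound hmeas.aestronglyMeasurable T
      refine Eventually.of_forall fun x => ?_
      rw [Real.norm_eq_abs, abs_of_nonneg (hg0 x)]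
      exact hgT x
    have hpt : ∀ x : ℝ, Real.exp (-l * min (max x 0) T) ≤
        1 - l * min (max x 0) T + l * ε / 4 := by
      intro x
      set y := min (max x 0) T with hy
      have hy0 : 0 ≤ y := hg0 x
      have hyT : y ≤ T := hgT x
      have h1 : 0 ≤ l * y := by positivity
      have h3 : Real.exp (-(l * y)) ≤ 1 - l * y + (l * y) ^ 2 / 2 := by
        have h4 : (1 + l * y + (l * y) ^ 2 / 2) ≤ Real.exp (l * y) :=
          Real.quadratic_le_exp_of_nonneg h1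
        rw [Real.exp_neg]
        have h5 : 0 < 1 + l * y + (l * y) ^ 2 / 2 := by positivity
        calc (Real.exp (l * y))⁻¹ ≤ (1 + l * y + (l * y) ^ 2 / 2)⁻¹ := inv_anti₀ h5 h4
          _ ≤ 1 - l * y + (l * y) ^ 2 / 2 := by
            rw [inv_le_iff_one_le_mul₀ h5]
            nlinarith [sq_nonneg (l * y), sq_nonneg ((l * y) ^ 2)]
      have h6 : (l * y) ^ 2 / 2 ≤ l * ε / 4 := by
        have h7 : (l * y) ^ 2 ≤ (l * T) ^ 2 := by
          apply pow_le_pow_left₀ h1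
          exact mul_le_mul_of_nonneg_left hyT hl0.le
        have h8 : (l * T) ^ 2 = l * ε / 2 := by
          rw [hl]; field_simp
        linarith
      rw [neg_mul]
      linarith
    calc ∫ x, Real.exp (-l * min (max x 0) T) ∂μ
        ≤ ∫ x, (1 - l * min (max x 0) T + l * ε / 4) ∂μ := by
          apply integral_mono_of_nonneg
          · exact Eventually.of_forall fun x => (Real.exp_pos _).le
          · exact ((integrable_const _).sub (hintg.const_mul l)).add (integrable_const _)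
          · exact Eventually.of_forall hpt
      _ = 1 - l * ∫ x, min (max x 0) T ∂μ + l * ε / 4 := by
          have i1 : Integrable (fun x : ℝ => (1 : ℝ) - l * min (max x 0) T) μ :=
            (integrable_const _).sub (hintg.const_mul l)
          rw [integral_add i1 (integrable_const _),
            integral_sub (integrable_const _) (hintg.const_mul l), integral_const_mul]
          simp
      _ ≤ -l * (1 - ε / 2) + 1 := by nlinarith
      _ ≤ Real.exp (-l * (1 - ε / 2)) := Real.add_one_le_exp _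

/-- Chernoff bound for one window -/
theorem QW8a_one (hQ : QI μ ν) {ε : ℝ} {l : ℝ} (hl : 0 < l) {g : ℝ → ℝ} (hg : Measurable g)
    (hgx : ∀ x, 0 ≤ x → g x ≤ x) (hg0 : ∀ x, 0 ≤ g x)
    (hm : ∫ x, Real.exp (-l * g x) ∂μ ≤ Real.exp (-l * (1 - ε / 2))) (b q : ℕ) :
    PQ μ ν {ω | Ar (b + q) ω - Ar b ω ≤ (1 - ε) * q} ≤ ENNReal.ofReal (Real.exp (-(l * ε / 2) * q)) := by
  have hprob := hQ.probμ
  have hprob' := hQ.probν
  have hPQ : IsProbabilityMeasure (PQ μ ν) := by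
    unfold PQ seqLaw
    infer_instance
  let X : ℕ → (ℕ → ℝ × ℝ) → ℝ := fun i ω => g (ω i).1
  have hX : ∀ i, Measurable (X i) := fun i => hg.comp (measurable_fst.comp (measurable_pi_apply i))
  have hind : iIndepFun X (PQ μ ν) := by
    have := iIndepFun_infinitePi (P := fun _ : ℕ => μ.prod ν) (X := fun _ p => g p.1)
      (fun _ => hg.comp measurable_fst)
    exact this
  have hmgf : ∀ i, mgf (X i) (PQ μ ν) (-l) ≤ Real.exp (-l * (1 - ε / 2)) := by
    intro i
    have h1 : mgf (X i) (PQ μ ν) (-l) = ∫ x, Real.exp (-l * g x) ∂μ := by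
      have h2 : (PQ μ ν).map (fun ω : ℕ → ℝ × ℝ => ω i) = μ.prod ν :=
        Measure.infinitePi_map_eval (fun _ : ℕ => μ.prod ν) i
      have h3 : (μ.prod ν).map Prod.fst = μ := by
        rw [Measure.map_fst_prod]; simp
      have hme : Measurable (fun x : ℝ => Real.exp (-l * g x)) :=
        Real.measurable_exp.comp (hg.const_mul (-l))
      rw [mgf]
      conv_rhs => rw [← h3, ← h2]
      rw [integral_map measurable_fst.aemeasurable hme.aestronglyMeasurable,
        integral_map (measurable_pi_apply i).aemeasurable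
          (hme.comp measurable_fst).aestronglyMeasurable]
    rw [h1]; exact hm
  have hsum : mgf (∑ i ∈ Finset.Ico b (b + q), X i) (PQ μ ν) (-l) ≤
      Real.exp (-l * (1 - ε / 2)) ^ q := by
    rw [hind.mgf_sum hX]
    calc ∏ i ∈ Finset.Ico b (b + q), mgf (X i) (PQ μ ν) (-l)
        ≤ ∏ _i ∈ Finset.Ico b (b + q), Real.exp (-l * (1 - ε / 2)) :=
          Finset.prod_le_prod (fun i _ => mgf_nonneg) (fun i _ => hmgf i)
      _ = Real.exp (-l * (1 - ε / 2)) ^ q := by
          rw [Finset.prod_const, Nat.card_Ico]; congr 1; omega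
  have hint : Integrable (fun ω => Real.exp (-l * (∑ i ∈ Finset.Ico b (b + q), X i) ω))
      (PQ μ ν) := by
    have hms : Measurable (∑ i ∈ Finset.Ico b (b + q), X i) := by
      have h0 : Measurable (fun ω => ∑ i ∈ Finset.Ico b (b + q), X i ω) :=
        Finset.measurable_sum _ fun i _ => hX i
      have h1 : (∑ i ∈ Finset.Ico b (b + q), X i) =
          fun ω => ∑ i ∈ Finset.Ico b (b + q), X i ω := by
        ext ω; rw [Finset.sum_apply]
      rw [h1]; exact h0
    refine Integrable.of_bound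
      (Real.measurable_exp.comp (hms.const_mul (-l))).aestronglyMeasurable 1 ?_
    refine Eventually.of_forall fun ω => ?_
    rw [Real.norm_eq_abs, abs_of_pos (Real.exp_pos _), Real.exp_le_one_iff, Finset.sum_apply]
    have : 0 ≤ ∑ i ∈ Finset.Ico b (b + q), X i ω := Finset.sum_nonneg fun i _ => hg0 _
    nlinarith
  have hch := measure_le_le_exp_mul_mgf (μ := PQ μ ν) (X := ∑ i ∈ Finset.Ico b (b + q), X i)
    (t := -l) ((1 - ε) * (q : ℝ)) (by linarith) hint
  have hle : (PQ μ ν).real {ω | (∑ i ∈ Finset.Ico b (b + q), X i) ω ≤ (1 - ε) * (q : ℝ)} ≤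
      Real.exp (-(l * ε / 2) * q) := by
    calc _ ≤ Real.exp (- -l * ((1 - ε) * (q : ℝ))) *
          mgf (∑ i ∈ Finset.Ico b (b + q), X i) (PQ μ ν) (-l) := hch
      _ ≤ Real.exp (- -l * ((1 - ε) * (q : ℝ))) * Real.exp (-l * (1 - ε / 2)) ^ q :=
          mul_le_mul_of_nonneg_left hsum (Real.exp_pos _).le
      _ = Real.exp (-(l * ε / 2) * q) := by
          rw [← Real.exp_nat_mul, ← Real.exp_add]
          congr 1; ring
  calc PQ μ ν {ω | Ar (b + q) ω - Ar b ω ≤ (1 - ε) * q}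
      ≤ PQ μ ν {ω | (∑ i ∈ Finset.Ico b (b + q), X i) ω ≤ (1 - ε) * (q : ℝ)} := by
        apply measure_mono_ae
        filter_upwards [ae_NN hQ] with ω hω
        intro h
        have h1 : Ar (b + q) ω - Ar b ω = ∑ i ∈ Finset.Ico b (b + q), (ω i).1 := by
          rw [Ar, Ar, Finset.sum_Ico_eq_sub _ (Nat.le_add_right b q)]
        change Ar (b + q) ω - Ar b ω ≤ (1 - ε) * q at h
        change (∑ i ∈ Finset.Ico b (b + q), X i) ω ≤ (1 - ε) * (q : ℝ)
        rw [Finset.sum_apply]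
        refine le_trans ?_ (h1 ▸ h)
        exact Finset.sum_le_sum fun i _ => hgx _ (hω i).1
    _ = ENNReal.ofReal ((PQ μ ν).real {ω | (∑ i ∈ Finset.Ico b (b + q), X i) ω ≤ (1 - ε) * (q : ℝ)}) := by
        rw [ofReal_measureReal]
    _ ≤ ENNReal.ofReal (Real.exp (-(l * ε / 2) * q)) := ENNReal.ofReal_le_ofReal hle

/-- PROOF. Union bound over `b ≤ n`; `Ar (b+q) - Ar b` has the law of `Ar q`. There is `T ≥ 1` with `E min(u, T) ≥ 1 - ε/4`; for `λ > 0`
small, `E e^{-λ min(u,T)} ≤ 1 - λ (1 - ε/4) + λ² T²/2 ≤ exp (-λ (1 - ε/2))`; so `P(Ar q ≤ (1-ε) q) ≤ e^{λ (1-ε) q} e^{-λ (1-ε/2) q} = e^{-λ ε q/2}`. -/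
theorem fast_le (hQ : QI μ ν) {ε : ℝ} (hε : 0 < ε) (hε1 : ε < 1) : ∃ c > (0 : ℝ), ∀ q n : ℕ,
    PQ μ ν (FA ε q n) ≤ ENNReal.ofReal ((n + 1) * Real.exp (-c * q)) := by
  obtain ⟨l, hl, g, hg, hgx, hg0, hm⟩ := QW8a_mgf hQ hε
  refine ⟨l * ε / 2, by positivity, fun q n => ?_⟩
  calc PQ μ ν (FA ε q n)
      ≤ PQ μ ν (⋃ b ∈ Finset.range (n + 1), {ω | Ar (b + q) ω - Ar b ω ≤ (1 - ε) * q}) := by
        apply measure_mono
        rintro ω ⟨b, hb, h⟩
        simp only [Set.mem_iUnion]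
        exact ⟨b, Finset.mem_range.mpr (by omega), h⟩
    _ ≤ ∑ b ∈ Finset.range (n + 1), PQ μ ν {ω | Ar (b + q) ω - Ar b ω ≤ (1 - ε) * q} :=
        measure_biUnion_finset_le _ _
    _ ≤ ∑ _b ∈ Finset.range (n + 1), ENNReal.ofReal (Real.exp (-(l * ε / 2) * q)) :=
        Finset.sum_le_sum fun b _ => QW8a_one hQ hl hg hgx hg0 hm b q
    _ = ENNReal.ofReal ((n + 1) * Real.exp (-(l * ε / 2) * q)) := by
        rw [Finset.sum_const, Finset.card_range, nsmul_eq_mul,
          ENNReal.ofReal_mul (by positivity)]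
        congr 1
        rw [ENNReal.ofReal_add (by positivity) (by norm_num)]
        simp

theorem measurableSet_FA (ε : ℝ) (q n : ℕ) : MeasurableSet (FA ε q n) := by
  have h1 : FA ε q n = ⋃ b ∈ Finset.range (n + 1), {ω | Ar (b + q) ω - Ar b ω ≤ (1 - ε) * q} := by
    ext ω
    simp only [FA, Set.mem_setOf_eq, Set.mem_iUnion, Finset.mem_range, exists_prop]
    exact ⟨fun ⟨b, hb, h⟩ => ⟨b, by omega, h⟩, fun ⟨b, hb, h⟩ => ⟨b, by omega, h⟩⟩
  rw [h1]
  exact Finset.measurableSet_biUnion _ fun b _ =>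
    measurableSet_le ((measurable_Ar _).sub (measurable_Ar _)) measurable_const

/-- PROOF. `q ≥ c' a n ≥ c'' √n` (`a_sqrt`), `(n+1) exp (-c √n) ≤ θ c'/n² ≤ θ bb n` for large `n` (`bb_poly`). -/
theorem QS.fast (h : QS D μ ν a L V V' p K x₀) {ε δ θ : ℝ} (hε : 0 < ε) (hε1 : ε < 1) (hδ : 0 < δ)
    (hθ : 0 < θ) : ∃ n₀ : ℕ, ∀ n ≥ n₀, ∀ q : ℕ, δ * a n ≤ q →
      PQ μ ν (FA ε q n) ≤ ENNReal.ofReal (θ * bb V a n) := by
  obtain ⟨c, hc, hfast⟩ := fast_le h.qi hε hε1
  obtain ⟨c₁, hc₁, hsqrt⟩ := h.a_sqrt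
  obtain ⟨c₂, hc₂, hbb⟩ := h.bb_poly
  set c₃ : ℝ := c * (δ * c₁) with hc₃
  have hc₃0 : 0 < c₃ := by positivity
  have hlim : Tendsto (fun x : ℝ => x ^ 6 * Real.exp (-(c₃ * x))) atTop (𝓝 0) := by
    have h1 := (Real.tendsto_pow_mul_exp_neg_atTop_nhds_zero 6).comp
      (tendsto_id.const_mul_atTop hc₃0)
    have h2 := h1.const_mul ((c₃ ^ 6)⁻¹)
    rw [mul_zero] at h2
    refine h2.congr fun x => ?_
    simp only [Function.comp, id]
    field_simp
  have hlim2 : Tendsto (fun n : ℕ => √(n : ℝ) ^ 6 * Real.exp (-(c₃ * √(n : ℝ)))) atTop (𝓝 0) :=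
    hlim.comp (Real.tendsto_sqrt_atTop.comp tendsto_natCast_atTop_atTop)
  have hev : ∀ᶠ n : ℕ in atTop, √(n : ℝ) ^ 6 * Real.exp (-(c₃ * √(n : ℝ))) < θ * c₂ / 2 :=
    hlim2.eventually (gt_mem_nhds (by positivity))
  obtain ⟨n₀, hn₀⟩ := eventually_atTop.mp (hev.and (eventually_ge_atTop 1))
  refine ⟨n₀, fun n hn q hq => ?_⟩
  obtain ⟨h1, h2⟩ := hn₀ n hn
  have hn1 : (1 : ℝ) ≤ n := by exact_mod_cast h2
  have hs0 : 0 < √(n : ℝ) := Real.sqrt_pos.mpr (by linarith)
  have hsq : √(n : ℝ) ^ 2 = n := Real.sq_sqrt (by linarith)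
  refine (hfast q n).trans (ENNReal.ofReal_le_ofReal ?_)
  have h3 : Real.exp (-c * q) ≤ Real.exp (-(c₃ * √(n : ℝ))) := by
    apply Real.exp_le_exp.mpr
    have h4 : δ * (c₁ * √(n : ℝ)) ≤ q := (mul_le_mul_of_nonneg_left (hsqrt n h2) hδ.le).trans hq
    have h5 := mul_le_mul_of_nonneg_left h4 hc.le
    rw [hc₃]
    linarith
  have h4 : ((n : ℝ) + 1) ≤ 2 * √(n : ℝ) ^ 2 := by rw [hsq]; linarith
  have h5 : ((n : ℝ) + 1) * Real.exp (-c * q) * n ^ 2 ≤ θ * c₂ := by
    calc ((n : ℝ) + 1) * Real.exp (-c * q) * n ^ 2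
        ≤ (2 * √(n : ℝ) ^ 2) * Real.exp (-(c₃ * √(n : ℝ))) * (√(n : ℝ) ^ 2) ^ 2 := by
          rw [hsq] at h4 ⊢
          gcongr
      _ = 2 * (√(n : ℝ) ^ 6 * Real.exp (-(c₃ * √(n : ℝ)))) := by ring
      _ ≤ θ * c₂ := by linarith
  calc ((n : ℝ) + 1) * Real.exp (-c * q) ≤ θ * (c₂ / n ^ 2) := by
        rw [← mul_div_assoc, le_div_iff₀ (by positivity)]
        exact h5
    _ ≤ θ * bb V a n := mul_le_mul_of_nonneg_left (hbb n h2) hθ.le

end Pool.Agent.BPT
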