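import Pool.Agent.MP_99a865_pr.ST.QW1
import Pool.Agent.MP_99a865_pr.ST.QW8a

/-! **[STB-QW8b]** Arrivals are never too fast; compare FV/F8e.lean (the case of the factor `1/2`, `√n` in place of `a n`). -/

open MeasureTheory ProbabilityTheory Filter Topology
open scoped ENNReal NNReal

namespace Pool.Agent.BPT

variable {D : Set ℝ} {μ ν : Measure ℝ} {a : ℕ → ℝ} {L V V' : ℝ → ℝ} {p K x₀ : ℝ}

/-- Deterministic bound for the gaps. PROOF. Let `b < b' ≤ n` be consecutive boundaries, `q ≥ 1`, `t = ⌊Zw b/((1-ε) q)⌋₊ + 1`. By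
`Nxt_prop`, `Ar (b'-1) - Ar b ≤ Zw b`. If `b' - 1 ≥ b + t q`: as `b + i q ≤ n` for `i < t`, adding up `Ar (b+(i+1)q) - Ar (b+iq) > (1-ε) q` gives
`Ar (b + tq) - Ar b > t (1-ε) q > Zw b`, a contradiction with monotonicity of `Ar`. So `b' ≤ b + t q`. -/
theorem gap_le (hD : Dom D) {n q : ℕ} {ω : ℕ → ℝ × ℝ} (hN : ω ∈ EvN D n) (hnn : NN ω) {ε : ℝ}
    (hε : 0 < ε) (hε1 : ε < 1) (hq : 1 ≤ q) (hF : ω ∉ FA ε q n) {b b' : ℕ} (hb : Nxt D ω b b')
    (hb' : b' ≤ n) : (b' : ℝ) - b ≤ Zw b ω / (1 - ε) + q := by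
  have hmono : ∀ i j : ℕ, i ≤ j → Ar i ω ≤ Ar j ω := by
    intro i j hij
    unfold Ar
    exact Finset.sum_le_sum_of_subset_of_nonneg (Finset.range_mono hij) fun k _ _ => (hnn k).1
  have h1 : Ar (b' - 1) ω ≤ Dp b ω := by
    have h2 := (Nxt_prop hD hnn hb).1
    rcases hD with rfl | rfl
    · rw [Set.mem_Ici] at h2
      linarith
    · rw [Set.mem_Ioi] at h2
      linarith
  have hlt : b < b' := hb.2.2.1
  have hZ : Ar (b' - 1) ω - Ar b ω ≤ Zw b ω := by
    unfold Zw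
    linarith
  have hZ0 : 0 ≤ Zw b ω := by
    have := hmono b (b' - 1) (by omega)
    linarith
  have he : 0 < 1 - ε := by linarith
  have hq0 : (0 : ℝ) < q := by
    have : 0 < q := hq
    positivity
  have hFA : ∀ c ≤ n, (1 - ε) * q < Ar (c + q) ω - Ar c ω := by
    intro c hc
    by_contra h
    exact hF ⟨c, hc, not_lt.1 h⟩
  set t : ℕ := ⌊Zw b ω / ((1 - ε) * q)⌋₊ + 1 with ht
  have ht1 : Zw b ω < t * ((1 - ε) * q) := by
    have h2 := Nat.lt_floor_add_one (Zw b ω / ((1 - ε) * q))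
    rw [div_lt_iff₀ (by positivity)] at h2
    rw [ht]
    push_cast
    exact h2
  have hsum : ∀ i : ℕ, b + i * q ≤ n + q → (i : ℝ) * ((1 - ε) * q) ≤ Ar (b + i * q) ω - Ar b ω := by
    intro i
    induction i with
    | zero => intro _; simp
    | succ i ih =>
      intro hi
      have e1 : b + (i + 1) * q = b + i * q + q := by ring
      have h3 := ih (by rw [e1] at hi; omega)
      have h4 := hFA (b + i * q) (by rw [e1] at hi; omega)
      rw [e1]
      push_cast
      linarith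
  have hlt2 : b' ≤ b + t * q := by
    by_contra hcon
    push Not at hcon
    have h3 := hsum t (by omega)
    have h4 := hmono (b + t * q) (b' - 1) (by omega)
    linarith
  have h5 : (b' : ℝ) ≤ b + t * q := by exact_mod_cast hlt2
  have h6 : (t : ℝ) * q ≤ Zw b ω / (1 - ε) + q := by
    have h7 : (t : ℝ) ≤ Zw b ω / ((1 - ε) * q) + 1 := by
      rw [ht]
      push_cast
      have := Nat.floor_le (show 0 ≤ Zw b ω / ((1 - ε) * q) by positivity)
      linarith
    calc (t : ℝ) * q ≤ (Zw b ω / ((1 - ε) * q) + 1) * q := mul_le_mul_of_nonneg_right h7 hq0.le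
      _ = Zw b ω / (1 - ε) + q := by field_simp
  linarith

end Pool.Agent.BPT
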