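import Pool.Agent.MP_99a865_pr.ST.QD

/-! **[STB-QW9a]** Deterministic comparison of the numbers of boundaries with sums over the walk. -/

open MeasureTheory ProbabilityTheory Filter Topology
open scoped ENNReal NNReal

namespace Pool.Agent.BPT

variable {D : Set ℝ}

private theorem QW9a_Ar (b j : ℕ) (ω : ℕ → ℝ × ℝ) : Ar (b + j) ω = Ar b ω + Ar j (shift b ω) := by
  unfold Ar shift
  rw [Finset.sum_range_add]

private theorem QW9a_Dp (b j : ℕ) (ω : ℕ → ℝ × ℝ) : Dp (b + j) ω = Dp b ω + Dp j (shift b ω) := by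
  unfold Dp shift
  rw [Finset.sum_range_add]

private theorem QW9a_Zw (b j : ℕ) (ω : ℕ → ℝ × ℝ) : Zw (b + j) ω = Zw b ω + Zw j (shift b ω) := by
  unfold Zw
  rw [QW9a_Ar, QW9a_Dp]
  ring

private theorem QW9a_term {z e x : ℝ} (he : 0 < e) (hz : 4 * e ≤ z) (hx : |x| < e) :
    |1 / (z + x) - 1 / z| ≤ 2 * e / z ^ 2 := by
  obtain ⟨h1, h2⟩ := abs_lt.1 hx
  have hz0 : 0 < z := by linarith
  have hzx : z / 2 ≤ z + x := by linarith
  have hzx0 : 0 < z + x := by linarith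
  have e1 : 1 / (z + x) - 1 / z = -x / (z * (z + x)) := by
    field_simp
    ring
  rw [e1, abs_div, abs_neg, abs_of_pos (mul_pos hz0 hzx0)]
  rw [div_le_div_iff₀ (mul_pos hz0 hzx0) (by positivity)]
  have h3 : z * (z / 2) ≤ z * (z + x) := mul_le_mul_of_nonneg_left hzx hz0.le
  have h4 : |x| * z ^ 2 ≤ e * z ^ 2 := mul_le_mul_of_nonneg_right hx.le (by positivity)
  have h5 : e * (z * (z / 2)) ≤ e * (z * (z + x)) := mul_le_mul_of_nonneg_left h3 he.le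
  nlinarith

/-- One good gap. PROOF. `w ≥ b' - b`, and `shift b ω ∉ BWd w e` gives `|Zw k - Zw b| < e`, `|Ar k - Ar b - (k-b)| < e` for `b ≤ k ≤ b'`. By
`Nxt_prop`, `Ar (b'-1) - Ar b ≤ Zw b ≤ Ar b' - Ar b`, so `|b' - b - Zw b| ≤ e + 1 ≤ 2e`. All `Zw k ≥ 2s - e ≥ s`, so the terms are
`1/Zw k`, `|1/Zw k - 1/Zw b| ≤ e/(Zw b (Zw b - e)) ≤ 2e/(Zw b)²`; hence
`|∑ - 1| ≤ |b' - b - Zw b|/Zw b + (b' - b) 2e/(Zw b)² ≤ 2e/(2s) + (2 Zw b) 2e/(Zw b)² ≤ e/s + 2e/s = 3e/s`. -/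
theorem gap_good (hD : Dom D) {ω : ℕ → ℝ × ℝ} (hnn : NN ω) {s e : ℝ} (he : 1 ≤ e) (hes : 2 * e ≤ s)
    {b b' w : ℕ} (hb : Nxt D ω b b') (hw : b' - b ≤ w) (hz : 2 * s ≤ Zw b ω)
    (hg : shift b ω ∉ BWd w e) :
    |∑ k ∈ Finset.Ico b b', 1 / max (Zw k ω) s - 1| ≤ 3 * e / s ∧ s ≤ (b' : ℝ) - b := by
  obtain ⟨g, hg1, rfl⟩ : ∃ g, 1 ≤ g ∧ b' = b + g := ⟨b' - b, by have := hb.2.2.1; omega, by
    have := hb.2.2.1; omega⟩
  have hgw : g ≤ w := by omega
  have hbad : ∀ j ≤ w, |Zw j (shift b ω)| < e ∧ |Ar j (shift b ω) - j| < e := by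
    intro j hj
    by_contra hc
    apply hg
    refine ⟨j, hj, ?_⟩
    rw [not_and_or, not_lt, not_lt] at hc
    exact hc
  obtain ⟨p1, p2⟩ := Nxt_prop hD hnn hb
  have q1 := hD.nonneg p1
  have q2 := hD.not_mem p2
  set z := Zw b ω with hzdef
  have hzD : Dp b ω = z + Ar b ω := by rw [hzdef]; unfold Zw; ring
  have e1 : Ar (b + g - 1) ω = Ar b ω + Ar (g - 1) (shift b ω) := by
    rw [← QW9a_Ar]
    congr 1
    omega
  rw [e1, hzD] at q1
  rw [QW9a_Ar, hzD] at q2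
  have a1 := abs_lt.1 (hbad (g - 1) (by omega)).2
  have a2 := abs_lt.1 (hbad g hgw).2
  have cast1 : ((g - 1 : ℕ) : ℝ) = g - 1 := by
    rw [Nat.cast_sub hg1]
    simp
  rw [cast1] at a1
  have s0 : 0 < s := by linarith
  have z0 : 0 < z := by linarith
  have gz1 : (g : ℝ) - z < 2 * e := by linarith
  have gz2 : -(2 * e) < (g : ℝ) - z := by linarith
  refine ⟨?_, by push_cast; linarith⟩
  have hterm : ∀ k ∈ Finset.Ico b (b + g), |1 / max (Zw k ω) s - 1 / z| ≤ 2 * e / z ^ 2 := by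
    intro k hk
    rw [Finset.mem_Ico] at hk
    obtain ⟨j, rfl⟩ := Nat.exists_eq_add_of_le hk.1
    have h1 := (hbad j (by omega)).1
    have h2 := abs_lt.1 h1
    have h3 : max (Zw (b + j) ω) s = z + Zw j (shift b ω) := by
      rw [QW9a_Zw, ← hzdef]
      apply max_eq_left
      linarith
    rw [h3]
    exact QW9a_term (by linarith) (by linarith) h1
  have hsum : |∑ k ∈ Finset.Ico b (b + g), 1 / max (Zw k ω) s - g / z| ≤ g * (2 * e / z ^ 2) := by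
    have h1 : (g : ℝ) / z = ∑ k ∈ Finset.Ico b (b + g), 1 / z := by
      rw [Finset.sum_const, Nat.card_Ico, nsmul_eq_mul]
      rw [show b + g - b = g by omega]
      ring
    rw [h1, ← Finset.sum_sub_distrib]
    refine (Finset.abs_sum_le_sum_abs _ _).trans ?_
    refine (Finset.sum_le_sum hterm).trans ?_
    rw [Finset.sum_const, Nat.card_Ico, nsmul_eq_mul]
    rw [show b + g - b = g by omega]
  have h2 : |(g : ℝ) / z - 1| ≤ 2 * e / z := by
    have e2 : (g : ℝ) / z - 1 = (g - z) / z := by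
      field_simp
    rw [e2, abs_div, abs_of_pos z0]
    refine div_le_div_of_nonneg_right (abs_le.2 ⟨by linarith, by linarith⟩) z0.le
  have h3 : |∑ k ∈ Finset.Ico b (b + g), 1 / max (Zw k ω) s - 1| ≤
      g * (2 * e / z ^ 2) + 2 * e / z := by
    have := abs_add_le (∑ k ∈ Finset.Ico b (b + g), 1 / max (Zw k ω) s - g / z) ((g : ℝ) / z - 1)
    have e3 : ∑ k ∈ Finset.Ico b (b + g), 1 / max (Zw k ω) s - (g : ℝ) / z + ((g : ℝ) / z - 1) =
      ∑ k ∈ Finset.Ico b (b + g), 1 / max (Zw k ω) s - 1 := by ring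
    rw [e3] at this
    linarith
  have h4 : (g : ℝ) * (2 * e / z ^ 2) ≤ 4 * e / z := by
    have h5 : (g : ℝ) ≤ 2 * z := by linarith
    have h6 : (g : ℝ) * (2 * e / z ^ 2) ≤ 2 * z * (2 * e / z ^ 2) :=
      mul_le_mul_of_nonneg_right h5 (by positivity)
    refine h6.trans (le_of_eq ?_)
    field_simp
    ring
  have h7 : 6 * e / z ≤ 3 * e / s := by
    rw [div_le_div_iff₀ z0 s0]
    nlinarith
  have h8 : 4 * e / z + 2 * e / z = 6 * e / z := by ring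
  linarith

end Pool.Agent.BPT
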