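import Pool.Agent.MP_99a865_pr.ST.QD
import Pool.Agent.MP_99a865_pr.ST.QW9a
import Pool.Agent.MP_99a865_pr.FV.T1d

/-! **[STB-QW9b]** Deterministic comparison of the numbers of boundaries with sums over the walk. -/

open MeasureTheory ProbabilityTheory Filter Topology
open scoped ENNReal NNReal

namespace Pool.Agent.BPT

variable {D : Set ℝ}

private theorem QW9b_uniq {ω : ℕ → ℝ × ℝ} {b x y : ℕ} (h : Nxt D ω b x) (h' : Nxt D ω b y) :
    x = y := by
  rcases lt_trichotomy x y with h1 | h1 | h1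
  · exact absurd h.2.1 (h'.2.2.2 x h.2.2.1 h1)
  · exact h1
  · exact absurd h'.2.1 (h.2.2.2 y h'.2.2.1 h1)

/-- The intervals `[b, b')` of consecutive boundaries partition `[1, n)`. For a function `F` of the index, the sum over `[1, n)` is the sum
over the boundaries `b < n` of the sum over `[b, next b)`. PROOF. `exists_next` (every boundary `b < n` has a successor `≤ n`), `Bd.one`,
`exists_prev`; e.g. induction on the number of boundaries, or partition of `Finset.Ico 1 n` by the map `i ↦` last boundary `≤ i`. -/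
theorem sum_gaps (hD : Dom D) {n : ℕ} (hn : 1 ≤ n) {ω : ℕ → ℝ × ℝ} (hN : ω ∈ EvN D n) (hnn : NN ω) :
    ∃ nx : ℕ → ℕ, (∀ b < n, Bd D ω b → Nxt D ω b (nx b) ∧ nx b ≤ n) ∧
      ∀ F : ℕ → ℝ, ∑ i ∈ Finset.Ico 1 n, F i =
        ∑ b ∈ Finset.range n, open Classical in (if Bd D ω b then ∑ i ∈ Finset.Ico b (nx b), F i else 0) := by
  classical
  have hex : ∀ b, ∃ b', (b < n → Bd D ω b → Nxt D ω b b' ∧ b' ≤ n) := by
    intro b
    by_cases h : b < n ∧ Bd D ω b
    · obtain ⟨b', h1, h2, -, -⟩ := exists_next hD hN hnn h.2 h.1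
      exact ⟨b', fun _ _ => ⟨h2, h1⟩⟩
    · exact ⟨0, fun h1 h2 => absurd ⟨h1, h2⟩ h⟩
  choose nx hnx using hex
  refine ⟨nx, fun b h1 h2 => hnx b h1 h2, ?_⟩
  intro F
  have e1 : ∀ b ∈ Finset.range n, (if Bd D ω b then ∑ i ∈ Finset.Ico b (nx b), F i else 0) =
      ∑ i ∈ Finset.Ico 1 n, if (Bd D ω b ∧ b ≤ i ∧ i < nx b) then F i else 0 := by
    intro b hb
    rw [Finset.mem_range] at hb
    by_cases hB : Bd D ω b
    · rw [if_pos hB]
      obtain ⟨h1, h2⟩ := hnx b hb hB
      have hpos := Bd_pos hB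
      rw [← Finset.sum_filter]
      apply Finset.sum_congr _ (fun _ _ => rfl)
      ext i
      rw [Finset.mem_filter, Finset.mem_Ico, Finset.mem_Ico]
      constructor
      · rintro ⟨h3, h4⟩
        exact ⟨⟨by omega, by omega⟩, hB, h3, h4⟩
      · rintro ⟨_, _, h3, h4⟩
        exact ⟨h3, h4⟩
    · rw [if_neg hB]
      symm
      apply Finset.sum_eq_zero
      intro i _
      rw [if_neg]
      exact fun h => hB h.1
  rw [Finset.sum_congr rfl e1, Finset.sum_comm]
  apply Finset.sum_congr rfl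
  intro i hi
  rw [Finset.mem_Ico] at hi
  obtain ⟨b, b', hb, hb'n, hlev⟩ := T1d_level hD hN hnn hi.1 hi.2
  obtain ⟨h1, h2⟩ := (hlev i hi.2).1 rfl
  have hbn : b < n := by omega
  have hx : nx b = b' := QW9b_uniq (hnx b hbn hb.1).1 hb
  rw [Finset.sum_eq_single b]
  · rw [if_pos ⟨hb.1, h1, by omega⟩]
  · intro c hc hcb
    rw [Finset.mem_range] at hc
    rw [if_neg]
    rintro ⟨h3, h4, h5⟩
    obtain ⟨h6, h7⟩ := hnx c hc h3
    rcases lt_or_gt_of_ne hcb with h8 | h8
    · exact h6.2.2.2 b h8 (by omega) hb.1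
    · exact hb.2.2.2 c h8 (by omega) h3
  · intro h3
    exact absurd (Finset.mem_range.2 hbn) h3

end Pool.Agent.BPT
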