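import Pool.Agent.MP_99a865_pr.ST.QD
import Pool.Agent.MP_99a865_pr.ST.QW9a
import Pool.Agent.MP_99a865_pr.ST.QW9b

/-! **[STB-QW9c]** Deterministic comparison of the numbers of boundaries with sums over the walk. -/

open MeasureTheory ProbabilityTheory Filter Topology
open scoped ENNReal NNReal

namespace Pool.Agent.BPT

variable {D : Set ℝ}

private theorem QW9c_Zw0 (ω : ℕ → ℝ × ℝ) : Zw 0 ω = 0 := by
  simp [Zw, Dp, Ar]

/-- sum of the terms of a gap -/
private noncomputable def QW9c_Sg (s : ℝ) (ω : ℕ → ℝ × ℝ) (b b' : ℕ) : ℝ :=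
  ∑ i ∈ Finset.Ico b b', 1 / max (Zw i ω) s

private theorem QW9c_Sg_nonneg {s : ℝ} (hs : 0 < s) (ω : ℕ → ℝ × ℝ) (b b' : ℕ) :
    0 ≤ QW9c_Sg s ω b b' :=
  Finset.sum_nonneg fun i _ => by
    have := lt_of_lt_of_le hs (le_max_right (Zw i ω) s)
    positivity

private theorem QW9c_Sg_le {s : ℝ} (hs : 0 < s) (ω : ℕ → ℝ × ℝ) {b b' : ℕ} (h : b ≤ b') :
    QW9c_Sg s ω b b' ≤ ((b' : ℝ) - b) / s := by
  unfold QW9c_Sg
  have h1 : ∀ i ∈ Finset.Ico b b', 1 / max (Zw i ω) s ≤ 1 / s := fun i _ =>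
    one_div_le_one_div_of_le hs (le_max_right _ _)
  refine (Finset.sum_le_sum h1).trans (le_of_eq ?_)
  rw [Finset.sum_const, Nat.card_Ico, nsmul_eq_mul, Nat.cast_sub h]
  ring

/-- the bound of one gap -/
private theorem QW9c_gap (hD : Dom D) {n w : ℕ} {ω : ℕ → ℝ × ℝ} (hnn : NN ω)
    {s e R : ℝ} (he : 1 ≤ e) (hes : 2 * e ≤ s) (hR : 0 ≤ R)
    (hgap : ∀ b b', Nxt D ω b b' → b' ≤ n → (b' : ℝ) - b ≤ 2 * Zw b ω + s)
    (hmax : ∀ i < n, Zw i ω ≤ R) (hw : 2 * R + s ≤ w) {b b' : ℕ} (hbn : b < n)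
    (hb : Nxt D ω b b') (hb' : b' ≤ n) :
    |1 - QW9c_Sg s ω b b'| ≤
      6 * (open Classical in if Bd D ω b ∧ Zw b ω ≤ 2 * s then (1 : ℝ) else 0) +
      (2 + 2 * R / s) * (open Classical in if Bd D ω b ∧ 2 * s ≤ Zw b ω ∧ shift b ω ∈ BWd w e then (1 : ℝ)
        else 0) + 3 * e / s * (((b' : ℝ) - b) / s) := by
  classical
  have s0 : 0 < s := by linarith
  have hlt := hb.2.2.1
  have hg := hgap b b' hb hb'
  have hm := hmax b hbn
  have hS0 := QW9c_Sg_nonneg s0 ω b b'
  have hS1 := QW9c_Sg_le s0 ω hlt.le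
  have hbb : (0 : ℝ) ≤ (b' : ℝ) - b := by
    have : (b : ℝ) ≤ b' := by exact_mod_cast hlt.le
    linarith
  have hthird : 0 ≤ 3 * e / s * (((b' : ℝ) - b) / s) := by
    have : 0 ≤ e := by linarith
    positivity
  have hRs : 0 ≤ 2 + 2 * R / s := by positivity
  have habs : |1 - QW9c_Sg s ω b b'| ≤ 1 + QW9c_Sg s ω b b' := by
    rw [abs_le]
    constructor <;> linarith
  rcases lt_or_ge (Zw b ω) (2 * s) with h1 | h1
  · rw [if_pos ⟨hb.1, h1.le⟩]
    have h2 : 0 ≤ (2 + 2 * R / s) * (if Bd D ω b ∧ 2 * s ≤ Zw b ω ∧ shift b ω ∈ BWd w e then (1 : ℝ)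
        else 0) := by
      apply mul_nonneg hRs
      split_ifs <;> norm_num
    have h3 : QW9c_Sg s ω b b' ≤ 5 := by
      refine hS1.trans ?_
      rw [div_le_iff₀ s0]
      linarith
    linarith
  · have h2 : (0 : ℝ) ≤ 6 * (if Bd D ω b ∧ Zw b ω ≤ 2 * s then (1 : ℝ) else 0) := by
      split_ifs <;> norm_num
    by_cases h3 : shift b ω ∈ BWd w e
    · rw [if_pos (show Bd D ω b ∧ 2 * s ≤ Zw b ω ∧ shift b ω ∈ BWd w e from ⟨hb.1, h1, h3⟩)]
      have h4 : QW9c_Sg s ω b b' ≤ 1 + 2 * R / s := by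
        refine hS1.trans ?_
        have : 1 + 2 * R / s = (s + 2 * R) / s := by
          field_simp
        rw [this]
        exact div_le_div_of_nonneg_right (by linarith) s0.le
      linarith
    · have hwn : b' - b ≤ w := by
        have : ((b' - b : ℕ) : ℝ) ≤ w := by
          rw [Nat.cast_sub hlt.le]
          linarith
        exact_mod_cast this
      obtain ⟨h4, h5⟩ := gap_good hD hnn he hes hb hwn h1 h3
      have h6 : |1 - QW9c_Sg s ω b b'| ≤ 3 * e / s := by
        rw [abs_sub_comm]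
        exact h4
      have h7 : 0 ≤ (2 + 2 * R / s) * (if Bd D ω b ∧ 2 * s ≤ Zw b ω ∧ shift b ω ∈ BWd w e then
          (1 : ℝ) else 0) := by
        apply mul_nonneg hRs
        split_ifs <;> norm_num
      have h8 : 3 * e / s * 1 ≤ 3 * e / s * (((b' : ℝ) - b) / s) := by
        apply mul_le_mul_of_nonneg_left
        · rw [le_div_iff₀ s0]
          linarith
        · have : 0 ≤ e := by linarith
          positivity
      linarith

/-- PROOF. `HB = ∑_{b<n} 1{Bd b}`, `TB = ∑_{b<n} 1{Bd b} (n - b)`. By `sum_gaps`, up to the term `i = 0` (`1/s`, resp. `n/s`),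
`HB - SH s = ∑_{b} (1 - Σ_b)`, `Σ_b = ∑_{i ∈ [b,b')} 1/max(Zw i, s)`. Let `M = 2 R + s` be the bound of all the gaps (`hgap`, `hmax`), `M ≤ w`.
Low gaps (`Zw b < 2s`): `|1 - Σ_b| ≤ 1 + (b'-b)/s ≤ 1 + (4s + s)/s = 6`, their number is `≤ cLo n (2s)`. Good gaps (`gap_good`): `≤ 3e/s`, and there
are at most `n/s` of them (each has length `≥ s`, and they are disjoint subsets of `[0,n)`). Bad gaps: `≤ 1 + M/s`, number `cBad`.
For the total height: `|(n - b) - ∑_{i∈[b,b')} (n-i)/max| ≤ (n-b) |1 - Σ_b| + ∑_i (i-b)/max ≤ n |1 - Σ_b| + M Σ_b`, and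
`∑_b Σ_b ≤ n/s`. -/
theorem sum_det (hD : Dom D) {n w : ℕ} (hn : 1 ≤ n) {ω : ℕ → ℝ × ℝ} (hN : ω ∈ EvN D n) (hnn : NN ω)
    {s e R : ℝ} (he : 1 ≤ e) (hes : 2 * e ≤ s) (hR : 0 ≤ R)
    (hgap : ∀ b b', Nxt D ω b b' → b' ≤ n → (b' : ℝ) - b ≤ 2 * Zw b ω + s)
    (hmax : ∀ i < n, Zw i ω ≤ R) (hw : 2 * R + s ≤ w) :
    |(HB D n ω : ℝ) - SH s n ω| ≤ 1 / s + 3 * e * n / s ^ 2 + 6 * cLo D n (2 * s) ω +
      (2 + 2 * R / s) * cBad D n w (2 * s) e ω ∧
    |(TB D n ω : ℝ) - STt s n ω| ≤ n * (1 / s + 3 * e * n / s ^ 2 + 6 * cLo D n (2 * s) ω +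
      (2 + 2 * R / s) * cBad D n w (2 * s) e ω) + (2 * R + s) * n / s := by
  classical
  have s0 : 0 < s := by linarith
  have n0 : (0 : ℝ) < n := by exact_mod_cast hn
  obtain ⟨nx, hnx, hsum⟩ := sum_gaps hD hn hN hnn
  -- the total bound of the gaps
  have hgaps : ∑ b ∈ Finset.range n, (if Bd D ω b then |1 - QW9c_Sg s ω b (nx b)| else 0) ≤
      3 * e * n / s ^ 2 + 6 * cLo D n (2 * s) ω + (2 + 2 * R / s) * cBad D n w (2 * s) e ω := by
    have h1 : ∀ b ∈ Finset.range n, (if Bd D ω b then |1 - QW9c_Sg s ω b (nx b)| else 0) ≤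
        6 * (if Bd D ω b ∧ Zw b ω ≤ 2 * s then (1 : ℝ) else 0) +
        (2 + 2 * R / s) * (if Bd D ω b ∧ 2 * s ≤ Zw b ω ∧ shift b ω ∈ BWd w e then (1 : ℝ)
          else 0) + 3 * e / s * (1 / s * (if Bd D ω b then ∑ i ∈ Finset.Ico b (nx b), (1 : ℝ) else 0)) := by
      intro b hb
      rw [Finset.mem_range] at hb
      by_cases hB : Bd D ω b
      · obtain ⟨h2, h3⟩ := hnx b hb hB
        have h4 := QW9c_gap hD hnn he hes hR hgap hmax hw hb h2 h3
        rw [if_pos hB, if_pos (show Bd D ω b from hB)]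
        rw [Finset.sum_const, Nat.card_Ico, nsmul_eq_mul, Nat.cast_sub h2.2.2.1.le]
        refine h4.trans (le_of_eq ?_)
        ring
      · rw [if_neg hB, if_neg (fun h => hB h.1), if_neg (fun h => hB h.1), if_neg hB]
        simp
    refine (Finset.sum_le_sum h1).trans ?_
    rw [Finset.sum_add_distrib, Finset.sum_add_distrib, ← Finset.mul_sum, ← Finset.mul_sum,
      ← Finset.mul_sum, ← Finset.mul_sum, ← hsum (fun _ => (1 : ℝ))]
    have h5 : (cLo D n (2 * s) ω : ℝ) =
        ∑ b ∈ Finset.range n, if Bd D ω b ∧ Zw b ω ≤ 2 * s then (1 : ℝ) else 0 := by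
      unfold cLo
      rw [Finset.natCast_card_filter]
    have h6 : (cBad D n w (2 * s) e ω : ℝ) = ∑ b ∈ Finset.range n,
        if Bd D ω b ∧ 2 * s ≤ Zw b ω ∧ shift b ω ∈ BWd w e then (1 : ℝ) else 0 := by
      unfold cBad
      rw [Finset.natCast_card_filter]
    rw [← h5, ← h6]
    have h7 : ∑ i ∈ Finset.Ico 1 n, (1 : ℝ) ≤ n := by
      rw [Finset.sum_const, Nat.card_Ico, nsmul_eq_mul, Nat.cast_sub hn]
      push_cast
      linarith
    have h8 : 3 * e / s * (1 / s * ∑ i ∈ Finset.Ico 1 n, (1 : ℝ)) ≤ 3 * e * n / s ^ 2 := by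
      have e0 : 0 ≤ 3 * e / s * (1 / s) := by
        have : 0 ≤ e := by linarith
        positivity
      have := mul_le_mul_of_nonneg_left h7 e0
      calc 3 * e / s * (1 / s * ∑ i ∈ Finset.Ico 1 n, (1 : ℝ))
          = 3 * e / s * (1 / s) * ∑ i ∈ Finset.Ico 1 n, (1 : ℝ) := by ring
        _ ≤ 3 * e / s * (1 / s) * n := this
        _ = 3 * e * n / s ^ 2 := by
            field_simp
    linarith
  have hmax0 : max (Zw 0 ω) s = s := by
    rw [QW9c_Zw0]
    exact max_eq_right s0.le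
  constructor
  · have e1 : (HB D n ω : ℝ) = ∑ b ∈ Finset.range n, if Bd D ω b then (1 : ℝ) else 0 := by
      unfold HB
      rw [Finset.natCast_card_filter]
    have e2 : SH s n ω = 1 / s + ∑ b ∈ Finset.range n, if Bd D ω b then QW9c_Sg s ω b (nx b) else 0 := by
      unfold SH
      rw [Finset.range_eq_Ico, Finset.sum_eq_sum_Ico_succ_bot (by omega), hmax0, zero_add,
        hsum (fun i => 1 / max (Zw i ω) s), ← Finset.range_eq_Ico]
      rfl
    have e3 : (HB D n ω : ℝ) - SH s n ω =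
        -(1 / s) + ∑ b ∈ Finset.range n, (if Bd D ω b then (1 - QW9c_Sg s ω b (nx b)) else 0) := by
      have e4 : ∑ b ∈ Finset.range n, (if Bd D ω b then (1 - QW9c_Sg s ω b (nx b)) else 0) =
          (∑ b ∈ Finset.range n, if Bd D ω b then (1 : ℝ) else 0) -
          ∑ b ∈ Finset.range n, if Bd D ω b then QW9c_Sg s ω b (nx b) else 0 := by
        rw [← Finset.sum_sub_distrib]
        apply Finset.sum_congr rfl
        intro b _
        split_ifs <;> simp
      rw [e4, e1, e2]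
      ring
    rw [e3]
    have h1 := abs_add_le (-(1 / s))
      (∑ b ∈ Finset.range n, (if Bd D ω b then (1 - QW9c_Sg s ω b (nx b)) else 0))
    have h2 : |∑ b ∈ Finset.range n, (if Bd D ω b then (1 - QW9c_Sg s ω b (nx b)) else 0)| ≤
        ∑ b ∈ Finset.range n, (if Bd D ω b then |1 - QW9c_Sg s ω b (nx b)| else 0) := by
      refine (Finset.abs_sum_le_sum_abs _ _).trans (Finset.sum_le_sum fun b _ => ?_)
      split_ifs <;> simp
    have h3 : |-(1 / s)| = 1 / s := by
      rw [abs_neg, abs_of_pos (by positivity)]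
    rw [h3] at h1
    linarith
  · set M := 2 * R + s with hM
    have hM0 : 0 ≤ M := by linarith
    have e1 : (TB D n ω : ℝ) = ∑ b ∈ Finset.range n, if Bd D ω b then ((n : ℝ) - b) else 0 := by
      unfold TB
      rw [Nat.cast_sum, Finset.sum_filter]
      apply Finset.sum_congr rfl
      intro b hb
      rw [Finset.mem_range] at hb
      split_ifs
      · rw [Nat.cast_sub hb.le]
      · rfl
    have e2 : STt s n ω = n / s + ∑ b ∈ Finset.range n,
        if Bd D ω b then (∑ i ∈ Finset.Ico b (nx b), ((n : ℝ) - i) / max (Zw i ω) s) else 0 := by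
      unfold STt
      rw [Finset.range_eq_Ico, Finset.sum_eq_sum_Ico_succ_bot (by omega), hmax0, zero_add,
        hsum (fun i => ((n : ℝ) - i) / max (Zw i ω) s), ← Finset.range_eq_Ico]
      simp
    have e3 : (TB D n ω : ℝ) - STt s n ω = -((n : ℝ) / s) + ∑ b ∈ Finset.range n,
        (if Bd D ω b then (((n : ℝ) - b) - ∑ i ∈ Finset.Ico b (nx b), ((n : ℝ) - i) / max (Zw i ω) s)
          else 0) := by
      have e4 : ∑ b ∈ Finset.range n,
          (if Bd D ω b then (((n : ℝ) - b) - ∑ i ∈ Finset.Ico b (nx b), ((n : ℝ) - i) / max (Zw i ω) s)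
            else 0) = (∑ b ∈ Finset.range n, if Bd D ω b then ((n : ℝ) - b) else 0) -
          ∑ b ∈ Finset.range n,
            if Bd D ω b then (∑ i ∈ Finset.Ico b (nx b), ((n : ℝ) - i) / max (Zw i ω) s) else 0 := by
        rw [← Finset.sum_sub_distrib]
        apply Finset.sum_congr rfl
        intro b _
        split_ifs <;> simp
      rw [e4, e1, e2]
      ring
    rw [e3]
    have h1 := abs_add_le (-((n : ℝ) / s)) (∑ b ∈ Finset.range n,
        (if Bd D ω b then (((n : ℝ) - b) - ∑ i ∈ Finset.Ico b (nx b), ((n : ℝ) - i) / max (Zw i ω) s)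
          else 0))
    have h3 : |-((n : ℝ) / s)| = n / s := by
      rw [abs_neg, abs_of_pos (by positivity)]
    have h2 : |∑ b ∈ Finset.range n,
        (if Bd D ω b then (((n : ℝ) - b) - ∑ i ∈ Finset.Ico b (nx b), ((n : ℝ) - i) / max (Zw i ω) s)
          else 0)| ≤ n * ∑ b ∈ Finset.range n, (if Bd D ω b then |1 - QW9c_Sg s ω b (nx b)| else 0) +
          M * ∑ b ∈ Finset.range n, (if Bd D ω b then QW9c_Sg s ω b (nx b) else 0) := by
      rw [Finset.mul_sum, Finset.mul_sum, ← Finset.sum_add_distrib]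
      refine (Finset.abs_sum_le_sum_abs _ _).trans (Finset.sum_le_sum fun b hb => ?_)
      rw [Finset.mem_range] at hb
      by_cases hB : Bd D ω b
      · rw [if_pos hB, if_pos hB, if_pos hB]
        obtain ⟨g1, g2⟩ := hnx b hb hB
        have hg := hgap b (nx b) g1 g2
        have hm := hmax b hb
        have hlt := g1.2.2.1
        have hbn : (b : ℝ) ≤ n := by exact_mod_cast hb.le
        have key : ((n : ℝ) - b) - ∑ i ∈ Finset.Ico b (nx b), ((n : ℝ) - i) / max (Zw i ω) s =
            ((n : ℝ) - b) * (1 - QW9c_Sg s ω b (nx b)) +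
              ∑ i ∈ Finset.Ico b (nx b), ((i : ℝ) - b) * (1 / max (Zw i ω) s) := by
          unfold QW9c_Sg
          rw [mul_sub, mul_one, Finset.mul_sum]
          rw [sub_add, ← Finset.sum_sub_distrib]
          congr 1
          apply Finset.sum_congr rfl
          intro i _
          ring
        rw [key]
        refine (abs_add_le _ _).trans (add_le_add ?_ ?_)
        · rw [abs_mul]
          apply mul_le_mul_of_nonneg_right _ (abs_nonneg _)
          rw [abs_of_nonneg (by linarith)]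
          have : (0 : ℝ) ≤ b := Nat.cast_nonneg b
          linarith
        · rw [abs_of_nonneg]
          · unfold QW9c_Sg
            rw [Finset.mul_sum]
            apply Finset.sum_le_sum
            intro i hi
            rw [Finset.mem_Ico] at hi
            have h4 : 0 ≤ 1 / max (Zw i ω) s := by
              have := lt_of_lt_of_le s0 (le_max_right (Zw i ω) s)
              positivity
            apply mul_le_mul_of_nonneg_right _ h4
            have h5 : (i : ℝ) ≤ nx b := by exact_mod_cast hi.2.le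
            linarith
          · apply Finset.sum_nonneg
            intro i hi
            rw [Finset.mem_Ico] at hi
            have h4 : 0 ≤ 1 / max (Zw i ω) s := by
              have := lt_of_lt_of_le s0 (le_max_right (Zw i ω) s)
              positivity
            have h5 : (b : ℝ) ≤ i := by exact_mod_cast hi.1
            exact mul_nonneg (by linarith) h4
      · rw [if_neg hB, if_neg hB, if_neg hB]
        simp
    have h4 : ∑ b ∈ Finset.range n, (if Bd D ω b then QW9c_Sg s ω b (nx b) else 0) ≤ n / s := by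
      have h5 := hsum (fun i => 1 / max (Zw i ω) s)
      have h6 : ∑ b ∈ Finset.range n, (if Bd D ω b then QW9c_Sg s ω b (nx b) else 0) =
          ∑ i ∈ Finset.Ico 1 n, 1 / max (Zw i ω) s := by
        rw [h5]
        rfl
      rw [h6]
      have h7 : ∀ i ∈ Finset.Ico 1 n, 1 / max (Zw i ω) s ≤ 1 / s := fun i _ =>
        one_div_le_one_div_of_le s0 (le_max_right _ _)
      refine (Finset.sum_le_sum h7).trans ?_
      rw [Finset.sum_const, Nat.card_Ico, nsmul_eq_mul, Nat.cast_sub hn]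
      push_cast
      rw [mul_one_div]
      exact div_le_div_of_nonneg_right (by linarith) s0.le
    have h5 := mul_le_mul_of_nonneg_left hgaps n0.le
    have h6 := mul_le_mul_of_nonneg_left h4 hM0
    rw [h3] at h1
    have h7 : M * n / s = M * (n / s) := by ring
    have h8 : (n : ℝ) * (1 / s + 3 * e * n / s ^ 2 + 6 * cLo D n (2 * s) ω +
      (2 + 2 * R / s) * cBad D n w (2 * s) e ω) = n / s + n * (3 * e * n / s ^ 2 +
        6 * cLo D n (2 * s) ω + (2 + 2 * R / s) * cBad D n w (2 * s) e ω) := by ring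
    rw [h7, h8]
    linarith

end Pool.Agent.BPT
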