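import Pool.Agent.MP_99a865_pr.ST.QW5
import Pool.Agent.MP_99a865_pr.ST.QW7
import Pool.Agent.MP_99a865_pr.ST.QW8
import Pool.Agent.MP_99a865_pr.ST.QW9

/-! **[STB-QW10a]** Height and total height are close to `(n/a_n) YS`. Compare FV/F10a.lean (`HT_approx`). -/

open MeasureTheory ProbabilityTheory Filter Topology
open scoped ENNReal NNReal

namespace Pool.Agent.BPT

variable {D : Set ℝ} {μ ν : Measure ℝ} {a : ℕ → ℝ} {L V V' : ℝ → ℝ} {p K x₀ : ℝ}

/-- PROOF. `a n/n · 1/max(Z, η a n) = (1/n) · 1/max(Z/a n, η)`. -/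
theorem YS_eq {n : ℕ} (hn : 1 ≤ n) (ha : 0 < a n) {η : ℝ} (hη : 0 < η) (ω : ℕ → ℝ × ℝ) :
    a n / n * SH (η * a n) n ω = YS a (fun _ => 1) (fun x => 1 / max x η) n ω ∧
    a n / n ^ 2 * STt (η * a n) n ω = YS a (fun t => 1 - t) (fun x => 1 / max x η) n ω := by
  have hn0 : (n : ℝ) ≠ 0 := by
    have : 0 < n := hn
    positivity
  have key : ∀ z : ℝ, 1 / max (z / a n) η = a n * (1 / max z (η * a n)) := by
    intro z
    have h1 : max z (η * a n) = a n * max (z / a n) η := by
      rw [mul_max_of_nonneg _ _ ha.le, mul_div_cancel₀ _ ha.ne', mul_comm (a n) η]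
    have h2 : 0 < max (z / a n) η := lt_max_of_lt_right hη
    rw [h1]
    field_simp
  constructor
  · unfold SH YS
    rw [Finset.mul_sum, Finset.sum_div]
    refine Finset.sum_congr rfl fun i _ => ?_
    simp only []
    rw [key (Zw i ω)]
    ring
  · unfold STt YS
    rw [Finset.mul_sum, Finset.sum_div]
    refine Finset.sum_congr rfl fun i _ => ?_
    simp only []
    rw [key (Zw i ω), div_eq_mul_one_div (((n : ℝ) - i)) (max (Zw i ω) (η * a n))]
    field_simp

/-- PROOF. `P(N = n) ≤ C bb n`: `PQ_EvN_gen`, `hit_V` with `m = n`, `x = 0`, `V_zero`. -/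
theorem QS.EvN_le (h : QS D μ ν a L V V' p K x₀) : ∃ C > (0 : ℝ), ∀ n : ℕ, 1 ≤ n →
    PQ μ ν (EvN D n) ≤ ENNReal.ofReal (C * bb V a n) := by
  have := h.qi.probμ
  have := h.qi.probν
  have hK : 0 < K := lt_of_lt_of_le one_pos h.K_ge
  refine ⟨K * K, by positivity, fun n hn => ?_⟩
  have hV : 0 < V (a n) := lt_of_lt_of_le one_pos (h.V_one _)
  have hn0 : (0 : ℝ) < n := by
    have : 0 < n := hn
    positivity
  have h1 : (PQ μ ν).real (EvN D n) ≤ K * K * bb V a n := by
    rw [PQ_EvN_gen h.dom n]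
    have h2 := h.hit_V n n 0 hn le_rfl (by omega) le_rfl
    have h3 : K * V 0 / (n * V (a n)) ≤ K * K * bb V a n := by
      unfold bb
      rw [mul_one_div]
      have h4 := h.V_zero
      gcongr
    exact h2.trans h3
  have hfin : IsProbabilityMeasure (PQ μ ν) := by
    unfold PQ seqLaw
    infer_instance
  rw [← ofReal_measureReal]
  exact ENNReal.ofReal_le_ofReal h1

end Pool.Agent.BPT
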