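import Pool.Agent.MP_99a865_pr.ST.QW5
import Pool.Agent.MP_99a865_pr.ST.QW7
import Pool.Agent.MP_99a865_pr.ST.QW8
import Pool.Agent.MP_99a865_pr.ST.QW9
import Pool.Agent.MP_99a865_pr.ST.QW10a

/-! **[STB-QW10b]** Height and total height are close to `(n/a_n) YS`. Compare FV/F10a.lean (`HT_approx`). -/

open MeasureTheory ProbabilityTheory Filter Topology
open scoped ENNReal NNReal

namespace Pool.Agent.BPT

variable {D : Set ℝ} {μ ν : Measure ℝ} {a : ℕ → ℝ} {L V V' : ℝ → ℝ} {p K x₀ : ℝ}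

/-- the integration step -/
theorem QW10b_int (hD : Dom D) (hQ : QI μ ν) (n w : ℕ) {X : (ℕ → ℝ × ℝ) → ℝ}
    {Bad : Set (ℕ → ℝ × ℝ)} {c α β y e : ℝ} (hc : 0 ≤ c) (ha : 0 ≤ α) (hb : 0 ≤ β)
    (hX : ∀ ω, ω ∈ EvN D n → NN ω → ω ∉ Bad →
      |X ω| ≤ c + α * cLo D n y ω + β * cBad D n w y e ω) :
    ∫⁻ ω in EvN D n, ENNReal.ofReal (min 1 |X ω|) ∂(PQ μ ν) ≤ PQ μ ν (EvN D n ∩ Bad) +
      (ENNReal.ofReal c * PQ μ ν (EvN D n) +
        ENNReal.ofReal α * ∫⁻ ω in EvN D n, (cLo D n y ω : ℝ≥0∞) ∂(PQ μ ν) +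
        ENNReal.ofReal β * ∫⁻ ω in EvN D n, (cBad D n w y e ω : ℝ≥0∞) ∂(PQ μ ν)) := by
  have hE := measurableSet_EvN hD n
  have m1 := measurable_cLo hD n y
  have m2 := measurable_cBad hD n w y e
  have key : ∀ᵐ ω ∂((PQ μ ν).restrict (EvN D n)), ENNReal.ofReal (min 1 |X ω|) ≤
      Bad.indicator 1 ω + (ENNReal.ofReal c + ENNReal.ofReal α * (cLo D n y ω : ℝ≥0∞) +
        ENNReal.ofReal β * (cBad D n w y e ω : ℝ≥0∞)) := by
    rw [ae_restrict_iff' hE]
    filter_upwards [ae_NN hQ] with ω hω hmem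
    by_cases hbad : ω ∈ Bad
    · rw [Set.indicator_of_mem hbad]
      calc ENNReal.ofReal (min 1 |X ω|) ≤ ENNReal.ofReal 1 :=
            ENNReal.ofReal_le_ofReal (min_le_left _ _)
        _ = 1 := ENNReal.ofReal_one
        _ ≤ _ := le_self_add
    · rw [Set.indicator_of_notMem hbad, zero_add]
      have h1 := hX ω hmem hω hbad
      calc ENNReal.ofReal (min 1 |X ω|) ≤ ENNReal.ofReal (c + α * cLo D n y ω +
            β * cBad D n w y e ω) :=
            ENNReal.ofReal_le_ofReal ((min_le_right _ _).trans h1)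
        _ = _ := by
          rw [ENNReal.ofReal_add (by positivity) (by positivity),
            ENNReal.ofReal_add (by positivity) (by positivity),
            ENNReal.ofReal_mul ha, ENNReal.ofReal_mul hb,
            ENNReal.ofReal_natCast, ENNReal.ofReal_natCast]
  refine (lintegral_mono_ae key).trans ?_
  rw [lintegral_add_right _ (by fun_prop)]
  refine add_le_add ?_ (le_of_eq ?_)
  · refine (lintegral_indicator_one_le _).trans ?_
    rw [Measure.restrict_apply' hE, Set.inter_comm]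
  · rw [lintegral_add_right _ (by fun_prop), lintegral_add_right _ (by fun_prop),
      lintegral_const_mul _ m1, lintegral_const_mul _ m2, lintegral_const,
      Measure.restrict_apply MeasurableSet.univ, Set.univ_inter]

/-- PROOF. Given `τ`: `η₀` with `6 C (2η)^{p-1} ≤ τ/8` for `η ≤ η₀ ≤ 1/2` (`C` from `low`). Given `η`: let `s = η a n`, `R` from `tight` (`θ = τ/8`),
`e = ε a n`, `ε = min(η/2, τ' η²)` with `3 ε/η² · C ≤ τ/8` (`C` from `EvN_le`), `w = ⌈(2R+1) a n⌉₊`, `q = ⌊s⌋₊`. For `n` large (`1 ≤ e`,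
`q ≥ s/2 ≥ 1`): off `FA (1/2) q n` (`fast`, probability `≤ τ/8 · bb n`) and off `{∃ i < n, R a n ≤ Zw i}` (`tight`), on `EvN D n ∩ NN`,
`gap_le` (`ε = 1/2`) gives `b' - b ≤ 2 Zw b + q ≤ 2 Zw b + s`, and `sum_det` (with `R a n`) applies:
`|HB a n/n - YS| ≤ (a n/n) (1/s + 3 e n/s² + 6 cLo (2s) + (2 + 2R/η) cBad)`. Integrate `min 1 |·|` over `EvN D n` (as in FV/F10a,
`F10a_int`): `(a n/n)/s = 1/(η n) → 0`; `(a n/n) 3 e n/s² = 3 ε/η²`; `(a n/n) 6 ∫ cLo ≤ 6 C bb n (2η)^{p-1}` (`low` with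
`y = 2 η a n ≤ a n`); `(a n/n) (2 + 2R/η) ∫ cBad ≤ C' (a n/n)(1 + log n) bb n` (`bad`, with `R' = 2R+1`, level `2η`), tends to zero by
`a_small`. For the total height multiply by `a n/n²`: the additional term is `(a n/n²) (2R + η) a n n/(η a n) = (2R+η)/η · a n/n → 0`. -/
theorem QS.HT_approx (h : QS D μ ν a L V V' p K x₀) : ∀ τ > (0 : ℝ), ∃ η₀ > (0 : ℝ), ∀ η : ℝ,
    0 < η → η ≤ η₀ → ∃ n₀ : ℕ, ∀ n ≥ n₀,
    ∫⁻ ω in EvN D n, ENNReal.ofReal (min 1 |a n / n * HB D n ω -
        YS a (fun _ => 1) (fun x => 1 / max x η) n ω|) ∂(PQ μ ν) ≤ ENNReal.ofReal (τ * bb V a n) ∧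
    ∫⁻ ω in EvN D n, ENNReal.ofReal (min 1 |a n / n ^ 2 * TB D n ω -
        YS a (fun t => 1 - t) (fun x => 1 / max x η) n ω|) ∂(PQ μ ν) ≤
      ENNReal.ofReal (τ * bb V a n) := by
  intro τ hτ
  have hD := h.dom
  obtain ⟨C1, hC1, hEvN⟩ := h.EvN_le
  obtain ⟨C2, hC2, n2, hlow⟩ := h.low
  have hp : 0 < p - 1 := by linarith [h.p_gt]
  -- η₀
  refine ⟨min (1 / 2) ((τ / (48 * C2)) ^ (1 / (p - 1)) / 2), by positivity, ?_⟩
  intro η hη hη0
  have hη1 : η ≤ 1 / 2 := hη0.trans (min_le_left _ _)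
  have hη2 : 6 * C2 * (2 * η) ^ (p - 1) ≤ τ / 8 := by
    have h1 : 2 * η ≤ (τ / (48 * C2)) ^ (1 / (p - 1)) := by
      have := hη0.trans (min_le_right _ _)
      linarith
    have h2 : (2 * η) ^ (p - 1) ≤ τ / (48 * C2) := by
      calc (2 * η) ^ (p - 1) ≤ ((τ / (48 * C2)) ^ (1 / (p - 1))) ^ (p - 1) :=
            Real.rpow_le_rpow (by positivity) h1 hp.le
        _ = τ / (48 * C2) := by
          rw [← Real.rpow_mul (by positivity), one_div, inv_mul_cancel₀ hp.ne', Real.rpow_one]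
    calc 6 * C2 * (2 * η) ^ (p - 1) ≤ 6 * C2 * (τ / (48 * C2)) := by gcongr
      _ = τ / 8 := by field_simp; norm_num
  obtain ⟨R, hR1, htight⟩ := h.tight (τ / 8) (by positivity)
  have hR : 0 < R := by linarith
  -- ε
  set ε : ℝ := min (η / 2) (τ / 8 * η ^ 2 / (3 * C1)) with hεdef
  have hε : 0 < ε := by positivity
  have hε1 : ε ≤ η / 2 := min_le_left _ _
  have hε2 : 3 * ε / η ^ 2 * C1 ≤ τ / 8 := by
    have h1 : ε ≤ τ / 8 * η ^ 2 / (3 * C1) := min_le_right _ _
    calc 3 * ε / η ^ 2 * C1 ≤ 3 * (τ / 8 * η ^ 2 / (3 * C1)) / η ^ 2 * C1 := by gcongr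
      _ = τ / 8 := by field_simp
  obtain ⟨C3, hC3, n3, hbad⟩ := h.bad (R := 2 * R + 1) (s := 2 * η) (ε := ε) (by positivity)
    (by positivity) hε
  obtain ⟨n4, hfast⟩ := h.fast (ε := 1 / 2) (δ := η / 2) (θ := τ / 8) (by norm_num) (by norm_num)
    (by positivity) (by positivity)
  -- eventual facts
  have ha1 : ∀ᶠ n : ℕ in atTop, 1 / ε ≤ a n := h.a_top.eventually_ge_atTop _
  have ha2 : ∀ᶠ n : ℕ in atTop, x₀ / (2 * η) ≤ a n := h.a_top.eventually_ge_atTop _
  have hlim1 : ∀ᶠ n : ℕ in atTop, (C1 * (2 * R + η) / η + (2 + 2 * R / η) * C3) *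
      (a n * (1 + Real.log n) / n) < τ / 8 := by
    have := (h.a_small.const_mul (C1 * (2 * R + η) / η + (2 + 2 * R / η) * C3))
    rw [mul_zero] at this
    exact this.eventually_lt_const (by positivity)
  have hlim2 : ∀ᶠ n : ℕ in atTop, C1 / η / (n : ℝ) < τ / 8 := by
    have : Tendsto (fun n : ℕ => C1 / η / (n : ℝ)) atTop (𝓝 0) :=
      tendsto_const_div_atTop_nhds_zero_nat _
    exact this.eventually_lt_const (by positivity)
  obtain ⟨N, hN⟩ := eventually_atTop.mp (ha1.and (ha2.and (hlim1.and (hlim2.and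
    ((eventually_ge_atTop n2).and ((eventually_ge_atTop n3).and ((eventually_ge_atTop n4).and
    (eventually_ge_atTop 1))))))))
  refine ⟨N, fun n hn => ?_⟩
  obtain ⟨hb1, hb2, hb3, hb4, hn2, hn3, hn4, hn1⟩ := hN n hn
  have hnpos : (0 : ℝ) < n := by exact_mod_cast hn1
  have hx0 : 0 < x₀ := by linarith [h.x_ge]
  have han : 0 < a n := by
    have := h.a_ge n hn1
    linarith
  have hbb := h.bb_pos n hn1
  set s : ℝ := η * a n with hs
  set e : ℝ := ε * a n with he
  have hspos : 0 < s := by positivity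
  have he1 : 1 ≤ e := by
    rw [div_le_iff₀ hε] at hb1
    rw [he]
    linarith
  have hes : 2 * e ≤ s := by
    rw [he, hs]
    nlinarith
  have hs2 : 2 ≤ s := by linarith
  set w : ℕ := ⌈(2 * R + 1) * a n⌉₊ with hw
  set q : ℕ := ⌊s⌋₊ with hq
  have hqs : (q : ℝ) ≤ s := Nat.floor_le hspos.le
  have hqs' : s / 2 ≤ q := by
    have : s < q + 1 := Nat.lt_floor_add_one s
    linarith
  have hq1 : 1 ≤ q := by
    have : (1 : ℝ) ≤ q := by linarith
    exact_mod_cast this
  have hsw : 2 * (R * a n) + s ≤ w := by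
    have h1 : (2 * R + 1) * a n ≤ w := Nat.le_ceil _
    have h2 : s ≤ a n := by rw [hs]; nlinarith
    linarith
  -- bad event
  set Bad : Set (ℕ → ℝ × ℝ) := FA (1 / 2) q n ∪ {ω | ∃ i < n, R * a n ≤ Zw i ω} with hBad
  have hPBad : PQ μ ν (EvN D n ∩ Bad) ≤ ENNReal.ofReal (τ / 4 * bb V a n) := by
    rw [hBad, Set.inter_union_distrib_left]
    refine (measure_union_le _ _).trans ?_
    have e1 : PQ μ ν (EvN D n ∩ FA (1 / 2) q n) ≤ ENNReal.ofReal (τ / 8 * bb V a n) := by
      refine (measure_mono Set.inter_subset_right).trans (hfast n hn4 q ?_)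
      rw [hs] at hqs'
      linarith
    refine (add_le_add e1 (htight n hn1)).trans (le_of_eq ?_)
    rw [← ENNReal.ofReal_add (by positivity) (by positivity)]
    congr 1
    ring
  -- the constants
  set lg : ℝ := 1 + Real.log n with hlg
  have hlg1 : 1 ≤ lg := by
    have := Real.log_natCast_nonneg n
    linarith
  set c0 : ℝ := 1 / (η * n) + 3 * ε / η ^ 2 + (2 * R + η) / η * (a n / n) with hc0
  have hc0pos : 0 ≤ c0 := by positivity
  have hα : 0 ≤ 6 * (a n / n) := by positivity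
  have hβ : 0 ≤ (2 + 2 * R / η) * (a n / n) := by positivity
  have main : ∀ X : (ℕ → ℝ × ℝ) → ℝ, (∀ ω, ω ∈ EvN D n → NN ω → ω ∉ Bad → |X ω| ≤
      c0 + 6 * (a n / n) * cLo D n (2 * s) ω +
        (2 + 2 * R / η) * (a n / n) * cBad D n w (2 * s) e ω) →
      ∫⁻ ω in EvN D n, ENNReal.ofReal (min 1 |X ω|) ∂(PQ μ ν) ≤
        ENNReal.ofReal (τ * bb V a n) := by
    intro X hX
    refine (QW10b_int hD h.qi n w hc0pos hα hβ hX).trans ?_
    have hCE := hEvN n hn1
    have e2 := hlow n hn2 (2 * s) (by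
      rw [div_le_iff₀ (by positivity)] at hb2
      rw [hs]
      linarith) (by rw [hs]; nlinarith)
    have e3 := hbad n hn3
    rw [show 2 * η * a n = 2 * s by rw [hs]; ring] at e3
    have e4 : 2 * s / a n = 2 * η := by
      rw [hs]
      field_simp
    rw [e4] at e2
    calc _ ≤ ENNReal.ofReal (τ / 4 * bb V a n) +
        (ENNReal.ofReal c0 * ENNReal.ofReal (C1 * bb V a n) +
          ENNReal.ofReal (6 * (a n / n)) *
            ENNReal.ofReal (C2 * bb V a n * (n / a n * (2 * η) ^ (p - 1))) +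
          ENNReal.ofReal ((2 + 2 * R / η) * (a n / n)) *
            ENNReal.ofReal (C3 * lg * bb V a n)) := by gcongr
      _ = ENNReal.ofReal (τ / 4 * bb V a n + (c0 * (C1 * bb V a n) +
          6 * (a n / n) * (C2 * bb V a n * (n / a n * (2 * η) ^ (p - 1))) +
          (2 + 2 * R / η) * (a n / n) * (C3 * lg * bb V a n))) := by
        rw [← ENNReal.ofReal_mul hc0pos, ← ENNReal.ofReal_mul hα, ← ENNReal.ofReal_mul hβ,
          ← ENNReal.ofReal_add (by positivity) (by positivity),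
          ← ENNReal.ofReal_add (by positivity) (by positivity),
          ← ENNReal.ofReal_add (by positivity) (by positivity)]
      _ ≤ ENNReal.ofReal (τ * bb V a n) := by
        apply ENNReal.ofReal_le_ofReal
        have u1 : 6 * (a n / n) * (C2 * bb V a n * (n / a n * (2 * η) ^ (p - 1))) =
            (6 * C2 * (2 * η) ^ (p - 1)) * bb V a n := by
          field_simp
        have u2 : (2 + 2 * R / η) * (a n / n) * (C3 * lg * bb V a n) =
            ((2 + 2 * R / η) * C3 * (a n * lg / n)) * bb V a n := by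
          ring
        have u3 : c0 * (C1 * bb V a n) = (C1 / η / n + 3 * ε / η ^ 2 * C1 +
            C1 * (2 * R + η) / η * (a n / n)) * bb V a n := by
          rw [hc0]
          field_simp
        have u4 : C1 * (2 * R + η) / η * (a n / n) ≤ C1 * (2 * R + η) / η * (a n * lg / n) := by
          gcongr
          exact le_mul_of_one_le_right han.le hlg1
        rw [u1, u2, u3]
        calc _ = (τ / 4 + (C1 / η / n + 3 * ε / η ^ 2 * C1 +
              C1 * (2 * R + η) / η * (a n / n)) + 6 * C2 * (2 * η) ^ (p - 1) +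
              (2 + 2 * R / η) * C3 * (a n * lg / n)) * bb V a n := by ring
          _ ≤ τ * bb V a n := by
            gcongr
            have hb3' : C1 * (2 * R + η) / η * (a n * lg / n) +
              (2 + 2 * R / η) * C3 * (a n * lg / n) < τ / 8 := by
              rw [← add_mul]
              exact hb3
            linarith
  have hdet : ∀ ω, ω ∈ EvN D n → NN ω → ω ∉ Bad →
      |(HB D n ω : ℝ) - SH s n ω| ≤ 1 / s + 3 * e * n / s ^ 2 + 6 * cLo D n (2 * s) ω +
      (2 + 2 * (R * a n) / s) * cBad D n w (2 * s) e ω ∧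
      |(TB D n ω : ℝ) - STt s n ω| ≤ n * (1 / s + 3 * e * n / s ^ 2 + 6 * cLo D n (2 * s) ω +
      (2 + 2 * (R * a n) / s) * cBad D n w (2 * s) e ω) + (2 * (R * a n) + s) * n / s := by
    intro ω h1 h2 h3
    have hF : ω ∉ FA (1 / 2) q n := fun h => h3 (Or.inl h)
    have hZ : ∀ i < n, Zw i ω ≤ R * a n := by
      intro i hi
      by_contra hc
      exact h3 (Or.inr ⟨i, hi, (not_le.mp hc).le⟩)
    refine sum_det hD hn1 h1 h2 he1 hes (by positivity) ?_ hZ hsw
    intro b b' hb hb'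
    have := gap_le hD h1 h2 (by norm_num : (0 : ℝ) < 1 / 2) (by norm_num) hq1 hF hb hb'
    norm_num at this
    linarith
  have w1 : 2 * (R * a n) / s = 2 * R / η := by
    rw [hs]
    field_simp
  have w2 : a n / n * (1 / s + 3 * e * n / s ^ 2) = 1 / (η * n) + 3 * ε / η ^ 2 := by
    rw [hs, he]
    field_simp
  have w3 : a n / n ^ 2 * ((2 * (R * a n) + s) * n / s) = (2 * R + η) / η * (a n / n) := by
    rw [hs]
    field_simp
  constructor
  · refine main _ fun ω h1 h2 h3 => ?_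
    have h4 := (hdet ω h1 h2 h3).1
    rw [← (YS_eq hn1 han hη ω).1, ← mul_sub, abs_mul, abs_of_nonneg (by positivity)]
    rw [w1] at h4
    calc a n / n * |(HB D n ω : ℝ) - SH s n ω| ≤ a n / n * (1 / s + 3 * e * n / s ^ 2 +
          6 * cLo D n (2 * s) ω + (2 + 2 * R / η) * cBad D n w (2 * s) e ω) := by gcongr
      _ = a n / n * (1 / s + 3 * e * n / s ^ 2) + 6 * (a n / n) * cLo D n (2 * s) ω +
          (2 + 2 * R / η) * (a n / n) * cBad D n w (2 * s) e ω := by ring
      _ ≤ _ := by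
        rw [w2, hc0]
        have : 0 ≤ (2 * R + η) / η * (a n / n) := by positivity
        linarith
  · refine main _ fun ω h1 h2 h3 => ?_
    have h4 := (hdet ω h1 h2 h3).2
    rw [← (YS_eq hn1 han hη ω).2, ← mul_sub, abs_mul, abs_of_nonneg (by positivity)]
    rw [w1] at h4
    calc a n / n ^ 2 * |(TB D n ω : ℝ) - STt s n ω| ≤ a n / n ^ 2 * (n * (1 / s +
          3 * e * n / s ^ 2 + 6 * cLo D n (2 * s) ω + (2 + 2 * R / η) *
          cBad D n w (2 * s) e ω) + (2 * (R * a n) + s) * n / s) := by gcongr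
      _ = a n / n * (1 / s + 3 * e * n / s ^ 2) + a n / n ^ 2 * ((2 * (R * a n) + s) * n / s) +
          6 * (a n / n) * cLo D n (2 * s) ω +
          (2 + 2 * R / η) * (a n / n) * cBad D n w (2 * s) e ω := by
        field_simp
        ring
      _ ≤ _ := by
        rw [w2, w3, hc0]

end Pool.Agent.BPT
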