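import Pool.Agent.MP_99a865_pr.ST.QW1

/-! **[STB-QW2]** A nonincreasing summable majorant of `m ↦ P_x(N = m)`, `x ≍ z`. -/

open MeasureTheory ProbabilityTheory Filter Topology
open scoped ENNReal NNReal

namespace Pool.Agent.BPT

variable {D : Set ℝ} {μ ν : Measure ℝ} {a : ℕ → ℝ} {L V V' : ℝ → ℝ} {p K x₀ : ℝ}

private theorem QW2_tele {p x : ℝ} (hp1 : 1 < p) (hp2 : p ≤ 2) (hx : 1 < x) :
    (p - 1) * x ^ (-p) ≤ (x - 1) ^ (1 - p) - x ^ (1 - p) := by
  have hx0 : 0 < x := by linarith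
  have hx1 : 0 < x - 1 := by linarith
  have h1 := rpow_one_add_le_one_add_mul_self (s := -(1 / x)) (by
    rw [neg_le_neg_iff, div_le_one hx0]
    exact hx.le) (p := p - 1) (by linarith) (by linarith)
  have h2 : 1 + -(1 / x) = (x - 1) / x := by field_simp; ring
  rw [h2, Real.div_rpow hx1.le hx0.le] at h1
  set u : ℝ := (x - 1) ^ (p - 1) with hu
  set v : ℝ := x ^ (p - 1) with hv
  have hu0 : 0 < u := Real.rpow_pos_of_pos hx1 _
  have hv0 : 0 < v := Real.rpow_pos_of_pos hx0 _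
  have e1 : (x - 1) ^ (1 - p) = u⁻¹ := by
    rw [hu, ← Real.rpow_neg hx1.le]
    congr 1
    ring
  have e2 : x ^ (1 - p) = v⁻¹ := by
    rw [hv, ← Real.rpow_neg hx0.le]
    congr 1
    ring
  have e3 : x ^ (-p) = v⁻¹ * x⁻¹ := by
    rw [hv, ← Real.rpow_neg hx0.le, ← Real.rpow_neg_one x, ← Real.rpow_add hx0]
    congr 1
    ring
  rw [e1, e2, e3]
  -- u / v ≤ 1 - (p-1)/x
  have h3 : u / v * (1 + (p - 1) / x) ≤ 1 := by
    have h4 : 0 ≤ (p - 1) / x := by
      apply div_nonneg _ hx0.le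
      linarith
    calc u / v * (1 + (p - 1) / x) ≤ (1 + (p - 1) * -(1 / x)) * (1 + (p - 1) / x) :=
          mul_le_mul_of_nonneg_right h1 (by linarith)
      _ = 1 - ((p - 1) / x) ^ 2 := by ring
      _ ≤ 1 := by
          have := sq_nonneg ((p - 1) / x)
          linarith
  have h4 : v⁻¹ * (1 + (p - 1) / x) ≤ u⁻¹ := by
    have h5 : v⁻¹ * (1 + (p - 1) / x) = u⁻¹ * (u / v * (1 + (p - 1) / x)) := by
      field_simp
    rw [h5]
    calc u⁻¹ * (u / v * (1 + (p - 1) / x)) ≤ u⁻¹ * 1 :=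
          mul_le_mul_of_nonneg_left h3 (by positivity)
      _ = u⁻¹ := mul_one _
  have h5 : v⁻¹ * (1 + (p - 1) / x) = v⁻¹ + (p - 1) * (v⁻¹ * x⁻¹) := by ring
  linarith

private theorem QW2_range {p : ℝ} (hp1 : 1 < p) (hp2 : p ≤ 2) {N : ℕ} (hN : 1 ≤ N) (m : ℕ) :
    (p - 1) * ∑ j ∈ Finset.range m, ((N + 1 + j : ℕ) : ℝ) ^ (-p) ≤
      (N : ℝ) ^ (1 - p) - ((N + m : ℕ) : ℝ) ^ (1 - p) := by
  induction m with
  | zero => simp
  | succ m ih =>
    rw [Finset.sum_range_succ, mul_add]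
    have h1 := QW2_tele hp1 hp2 (x := ((N + 1 + m : ℕ) : ℝ)) (by
      have : 1 < N + 1 + m := by omega
      exact_mod_cast this)
    have h2 : ((N + 1 + m : ℕ) : ℝ) - 1 = ((N + m : ℕ) : ℝ) := by
      push_cast
      ring
    have h3 : N + (m + 1) = N + 1 + m := by ring
    rw [h2] at h1
    rw [h3]
    linarith

private theorem QW2_sum {p a : ℝ} (hp1 : 1 < p) (hp2 : p ≤ 2) (ha : 1 ≤ a) (A : Finset ℕ) :
    ∑ i ∈ A.filter (fun i : ℕ => a ≤ (i : ℝ)), (i : ℝ) ^ (-p) ≤ (1 + 1 / (p - 1)) * a ^ (1 - p) := by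
  have ha0 : 0 < a := by linarith
  set N := ⌈a⌉₊ with hN
  have hN1 : 1 ≤ N := by
    have : (1 : ℝ) ≤ N := ha.trans (Nat.le_ceil a)
    exact_mod_cast this
  have haN : a ≤ N := Nat.le_ceil a
  have hN0 : (0 : ℝ) < N := by linarith
  set m := A.sup id with hm
  have hsub : A.filter (fun i : ℕ => a ≤ (i : ℝ)) ⊆
      insert N ((Finset.range m).image fun j => N + 1 + j) := by
    intro i hi
    rw [Finset.mem_filter] at hi
    have h1 : N ≤ i := Nat.ceil_le.2 hi.2
    have h2 : i ≤ m := Finset.le_sup (f := id) hi.1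
    rw [Finset.mem_insert, Finset.mem_image]
    rcases Nat.eq_or_lt_of_le h1 with h3 | h3
    · exact Or.inl h3.symm
    · right
      refine ⟨i - (N + 1), ?_, by omega⟩
      rw [Finset.mem_range]
      omega
  have hnn : ∀ i : ℕ, 0 ≤ (i : ℝ) ^ (-p) := fun i => Real.rpow_nonneg (Nat.cast_nonneg i) _
  refine (Finset.sum_le_sum_of_subset_of_nonneg hsub fun i _ _ => hnn i).trans ?_
  have h1 : ∑ i ∈ insert N ((Finset.range m).image fun j => N + 1 + j), (i : ℝ) ^ (-p) ≤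
      (N : ℝ) ^ (-p) + ∑ j ∈ Finset.range m, ((N + 1 + j : ℕ) : ℝ) ^ (-p) := by
    rw [Finset.sum_insert, Finset.sum_image]
    · intro i _ j _ hij
      have : N + 1 + i = N + 1 + j := hij
      omega
    · intro hmem
      rw [Finset.mem_image] at hmem
      obtain ⟨j, _, hj⟩ := hmem
      omega
  refine h1.trans ?_
  have h2 := QW2_range hp1 hp2 hN1 m
  have h3 : (0 : ℝ) ≤ ((N + m : ℕ) : ℝ) ^ (1 - p) := Real.rpow_nonneg (Nat.cast_nonneg _) _
  have h4 : (N : ℝ) ^ (1 - p) ≤ a ^ (1 - p) := Real.rpow_le_rpow_of_nonpos ha0 haN (by linarith)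
  have h5 : (N : ℝ) ^ (-p) ≤ a ^ (1 - p) := by
    calc (N : ℝ) ^ (-p) ≤ a ^ (-p) := Real.rpow_le_rpow_of_nonpos ha0 haN (by linarith)
      _ ≤ a ^ (1 - p) := Real.rpow_le_rpow_of_exponent_le ha (by linarith)
  have h6 : ∑ j ∈ Finset.range m, ((N + 1 + j : ℕ) : ℝ) ^ (-p) ≤ 1 / (p - 1) * a ^ (1 - p) := by
    rw [one_div, ← div_eq_inv_mul, le_div_iff₀ (by linarith)]
    linarith
  linarith


private theorem QW2_claim (h : QS D μ ν a L V V' p K x₀) {z : ℝ} (hz : 2 * x₀ ≤ z) {m : ℕ} (hm : 1 ≤ m)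
    (hmz : 1 ≤ m * L z) : V z * (m * L z) ^ ((p - 1) / 2) ≤ K ^ 4 * V (a m) := by
  have hK := h.K_ge
  have hK0 : 0 < K := by linarith
  have hx := h.x_ge
  have hp1 := h.p_gt
  have hp2 := h.p_le
  have hz0 : x₀ ≤ z := by linarith
  have hzp : 0 < z := by linarith
  have hm0 : (0 : ℝ) < m := by exact_mod_cast hm
  have ham := h.a_ge m hm
  have ham0 : 0 < a m := by linarith
  have hVz : 1 ≤ V z := h.V_one z
  have hVa : 1 ≤ V (a m) := h.V_one (a m)
  have hLz := h.L_pos z hz0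
  have hLa := (h.L_a m hm).2
  have hLa0 := h.L_pos (a m) ham
  have hq0 : 0 < (p - 1) / 2 := by linarith
  rcases le_total z (a m) with hc | hc
  · set r : ℝ := a m / z with hr
    have hr1 : 1 ≤ r := by rw [hr, le_div_iff₀ hzp]; linarith
    have hr0 : 0 < r := by linarith
    have hrz : r * z = a m := by rw [hr]; field_simp
    have h1 := h.L_ge z r hz0 hr1
    rw [hrz] at h1
    have h2 : m * L z ≤ (K * r) ^ 2 := by
      calc (m : ℝ) * L z ≤ m * (K * r ^ 2 * L (a m)) := mul_le_mul_of_nonneg_left h1 hm0.le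
        _ = K * r ^ 2 * (m * L (a m)) := by ring
        _ ≤ K * r ^ 2 * K := mul_le_mul_of_nonneg_left hLa (by positivity)
        _ = (K * r) ^ 2 := by ring
    have h3 : (m * L z) ^ ((p - 1) / 2) ≤ K * r ^ (p - 1) := by
      calc (m * L z) ^ ((p - 1) / 2) ≤ ((K * r) ^ 2) ^ ((p - 1) / 2) :=
            Real.rpow_le_rpow (by linarith) h2 hq0.le
        _ = (K * r) ^ (p - 1) := by
            rw [← Real.rpow_natCast (K * r) 2, ← Real.rpow_mul (by positivity)]
            congr 1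
            push_cast
            ring
        _ = K ^ (p - 1) * r ^ (p - 1) := Real.mul_rpow hK0.le hr0.le
        _ ≤ K * r ^ (p - 1) := by
            apply mul_le_mul_of_nonneg_right _ (Real.rpow_nonneg hr0.le _)
            calc K ^ (p - 1) ≤ K ^ (1 : ℝ) := Real.rpow_le_rpow_of_exponent_le hK (by linarith)
              _ = K := Real.rpow_one K
    have h4 := h.V_ge z r hz0 hr1
    rw [hrz] at h4
    calc V z * (m * L z) ^ ((p - 1) / 2) ≤ V z * (K * r ^ (p - 1)) :=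
          mul_le_mul_of_nonneg_left h3 (by linarith)
      _ = K * (r ^ (p - 1) * V z) := by ring
      _ ≤ K * (K * V (a m)) := mul_le_mul_of_nonneg_left h4 hK0.le
      _ = K ^ 2 * V (a m) := by ring
      _ ≤ K ^ 4 * V (a m) := by
          apply mul_le_mul_of_nonneg_right _ (by linarith)
          exact pow_le_pow_right₀ hK (by norm_num)
  · set r : ℝ := z / a m with hr
    have hr1 : 1 ≤ r := by rw [hr, le_div_iff₀ ham0]; linarith
    have hr0 : 0 < r := by linarith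
    have hrz : r * a m = z := by rw [hr]; field_simp
    have h1 := h.L_anti (a m) z ham hc
    have h2 : m * L z ≤ K := (mul_le_mul_of_nonneg_left h1 hm0.le).trans hLa
    have h3 := h.L_le (a m) r ham hr1
    rw [hrz] at h3
    have h4 : r ^ p * L z ≤ K ^ 2 * L z := by
      have h5 : L (a m) ≤ K * L z := by
        have h6 : m * L (a m) ≤ K * (m * L z) := by
          calc (m : ℝ) * L (a m) ≤ K * 1 := by linarith
            _ ≤ K * (m * L z) := mul_le_mul_of_nonneg_left hmz hK0.le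
        have h7 : m * L (a m) ≤ m * (K * L z) := by linarith
        exact le_of_mul_le_mul_left h7 hm0
      calc r ^ p * L z ≤ K * L (a m) := h3
        _ ≤ K * (K * L z) := mul_le_mul_of_nonneg_left h5 hK0.le
        _ = K ^ 2 * L z := by ring
    have h5 : r ^ p ≤ K ^ 2 := le_of_mul_le_mul_right h4 hLz
    have h6 : r ≤ K ^ 2 := by
      calc r = r ^ (1 : ℝ) := (Real.rpow_one r).symm
        _ ≤ r ^ p := Real.rpow_le_rpow_of_exponent_le hr1 (by linarith)
        _ ≤ K ^ 2 := h5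
    have h7 := h.V_le (a m) r ham hr1
    rw [hrz] at h7
    have h8 : V z ≤ K ^ 3 * V (a m) := by
      calc V z ≤ K * r * V (a m) := h7
        _ ≤ K * K ^ 2 * V (a m) := by
            apply mul_le_mul_of_nonneg_right _ (by linarith)
            exact mul_le_mul_of_nonneg_left h6 hK0.le
        _ = K ^ 3 * V (a m) := by ring
    have h9 : (m * L z) ^ ((p - 1) / 2) ≤ K := by
      calc (m * L z) ^ ((p - 1) / 2) ≤ K ^ ((p - 1) / 2) := Real.rpow_le_rpow (by linarith) h2 hq0.le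
        _ ≤ K ^ (1 : ℝ) := Real.rpow_le_rpow_of_exponent_le hK (by linarith)
        _ = K := Real.rpow_one K
    calc V z * (m * L z) ^ ((p - 1) / 2) ≤ K ^ 3 * V (a m) * K :=
          mul_le_mul h8 h9 (Real.rpow_nonneg (by linarith) _) (by positivity)
      _ = K ^ 4 * V (a m) := by ring

/-- PROOF. Let `u m = V z/(m V (a m))` for `m ≥ 1`, `h m = C₀ min (L z) (min_{1 ≤ m' ≤ m} u m')` (`h 0 = C₀ L z`): nonincreasing, `≤ C₀ L z`.
For `z/2 ≤ x ≤ z`: `hit m x ≤ K L x ≤ K L (z/2) ≤ 4 K² L z` (`hit_L`, `L_ge`), and for `m' ≤ m`: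
`hit m x ≤ K V z/(m V (a m))` (`hit_V` with `n = m`), where `m' V (a m') ≤ C m V (a m)` because `a m' ≤ C a m` (`a_comp` with
`δ = 1`, used with `i = m`, `n = m'`: `1 · m' ≤ m`) and `V_le`; so `hit m x ≤ C₀ u m'`.
SUM: the terms with `m ≤ M = ⌈1/L z⌉` contribute `≤ C₀ (1/L z + 1) L z ≤ C`. For `m ≥ 1/L z` claim
`V z (m L z)^{(p-1)/2} ≤ C V (a m)`. Case `a m ≥ z`: `L_ge` gives `L z ≤ K (a m/z)² L (a m) ≤ K² (a m/z)²/m`, so `a m/z ≥ √(m L z)/K`, and `V_ge`
(`r = a m/z`). Case `a m < z`: `L (a m) ≥ L z` so `m L z ≤ m L (a m) ≤ K`; with `r = z/a m`, `r^p L z ≤ K L (a m) ≤ K²/m ≤ K² L z`, so `r ≤ K²`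
(as `r ≤ r^p`) and `V z ≤ K r V (a m) ≤ K³ V (a m)`. Hence `h m ≤ C u m ≤ C m^{-1} (m L z)^{-q}`, `q = (p-1)/2`, and
`∑_{m ≥ M} m^{-1-q} ≤ C M^{-q}` (telescoping / integral comparison), `(M L z)^{-q} ≤ 1`. -/
theorem QS.major (h : QS D μ ν a L V V' p K x₀) : ∃ C > (0 : ℝ), ∀ z : ℝ, 2 * x₀ ≤ z → ∃ g : ℕ → ℝ,
    Antitone g ∧ (∀ m, 0 ≤ g m) ∧ (∀ m, g m ≤ C * L z) ∧
    (∀ (m : ℕ) (x : ℝ), 1 ≤ m → z / 2 ≤ x → x ≤ z → hit D (stepLaw μ ν 1) m x ≤ g m) ∧
    ∀ N : ℕ, ∑ m ∈ Finset.range N, g (m + 1) ≤ C := by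
  have hK := h.K_ge
  have hK0 : 0 < K := by linarith
  have hx := h.x_ge
  have hp1 := h.p_gt
  have hp2 := h.p_le
  obtain ⟨Ca, hCa, hcomp⟩ := h.a_comp one_pos
  have hq0 : 0 < (p - 1) / 2 := by linarith
  set q : ℝ := (p - 1) / 2 with hq
  set C₀ : ℝ := 4 * K ^ 2 + K ^ 2 * Ca with hC₀
  have hC₀0 : 0 < C₀ := by positivity
  refine ⟨C₀ + C₀ * K ^ 4 * (1 + 1 / q), by positivity, fun z hz => ?_⟩
  have hz0 : x₀ ≤ z := by linarith
  have hzp : 0 < z := by linarith
  have hLz := h.L_pos z hz0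
  have hVz : 1 ≤ V z := h.V_one z
  set u : ℕ → ℝ := fun m => V z / (m * V (a m)) with hu
  have hu0 : ∀ m, 0 ≤ u m := by
    intro m
    have := h.V_one (a m)
    show 0 ≤ V z / (m * V (a m))
    positivity
  set g : ℕ → ℝ := fun m => Nat.rec (C₀ * L z) (fun m gm => min gm (C₀ * u (m + 1))) m with hg
  have hg0 : g 0 = C₀ * L z := rfl
  have hgs : ∀ m, g (m + 1) = min (g m) (C₀ * u (m + 1)) := fun m => rfl
  have hanti : Antitone g := antitone_nat_of_succ_le fun m => by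
    rw [hgs]
    exact min_le_left _ _
  have hgnn : ∀ m, 0 ≤ g m := by
    intro m
    induction m with
    | zero => rw [hg0]; positivity
    | succ m ih =>
      rw [hgs]
      exact le_min ih (mul_nonneg hC₀0.le (hu0 _))
  have hgL : ∀ m, g m ≤ C₀ * L z := fun m => hanti (Nat.zero_le m)
  have hgu : ∀ m, 1 ≤ m → g m ≤ C₀ * u m := by
    intro m hm
    obtain ⟨m, rfl⟩ := Nat.exists_eq_succ_of_ne_zero (by omega : m ≠ 0)
    exact (hgs m).le.trans (min_le_right _ _)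
  -- comparison of `u`
  have hucomp : ∀ m m' : ℕ, 1 ≤ m' → m' ≤ m → u m ≤ K * Ca * u m' := by
    intro m m' hm' hmm
    have hm : 1 ≤ m := hm'.trans hmm
    have hm0 : (0 : ℝ) < m := by exact_mod_cast hm
    have hm0' : (0 : ℝ) < m' := by exact_mod_cast hm'
    have h1 := hcomp m m' hm hm' (by rw [one_mul]; exact_mod_cast hmm)
    have h2 : V (a m') ≤ K * Ca * V (a m) :=
      (h.V_mono h1).trans (h.V_le (a m) Ca (h.a_ge m hm) hCa)
    have hV := h.V_one (a m)
    have hV' := h.V_one (a m')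
    have h3 : (m' : ℝ) * V (a m') ≤ K * Ca * (m * V (a m)) := by
      have h4 : (m' : ℝ) ≤ m := by exact_mod_cast hmm
      calc (m' : ℝ) * V (a m') ≤ m * (K * Ca * V (a m)) :=
            mul_le_mul h4 h2 (by linarith) hm0.le
        _ = K * Ca * (m * V (a m)) := by ring
    show V z / (m * V (a m)) ≤ K * Ca * (V z / (m' * V (a m')))
    rw [← mul_div_assoc, div_le_div_iff₀ (by positivity) (by positivity)]
    calc V z * (m' * V (a m')) ≤ V z * (K * Ca * (m * V (a m))) :=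
          mul_le_mul_of_nonneg_left h3 (by linarith)
      _ = K * Ca * V z * (m * V (a m)) := by ring
  refine ⟨g, hanti, hgnn, fun m => ?_, fun m x hm hx1 hx2 => ?_, fun N => ?_⟩
  · refine (hgL m).trans ?_
    apply mul_le_mul_of_nonneg_right _ hLz.le
    have : 0 ≤ C₀ * K ^ 4 * (1 + 1 / q) := by positivity
    linarith
  · -- domination
    have hxx : x₀ ≤ x := by linarith
    have h1 : hit D (stepLaw μ ν 1) m x ≤ C₀ * L z := by
      have h2 := h.hit_L m x hm hxx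
      have h3 : L x ≤ L (z / 2) := h.L_anti (z / 2) x (by linarith) hx1
      have h4 := h.L_ge (z / 2) 2 (by linarith) (by norm_num)
      have h5 : 2 * (z / 2) = z := by ring
      rw [h5] at h4
      calc hit D (stepLaw μ ν 1) m x ≤ K * L x := h2
        _ ≤ K * (K * 2 ^ 2 * L z) := mul_le_mul_of_nonneg_left (h3.trans h4) hK0.le
        _ = 4 * K ^ 2 * L z := by ring
        _ ≤ C₀ * L z := by
            apply mul_le_mul_of_nonneg_right _ hLz.le
            have : 0 ≤ K ^ 2 * Ca := by positivity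
            linarith
    have h2 : ∀ m', 1 ≤ m' → m' ≤ m → hit D (stepLaw μ ν 1) m x ≤ C₀ * u m' := by
      intro m' hm' hmm
      have h3 := h.hit_V m m x hm le_rfl (by omega) (by linarith)
      have h4 : V x ≤ V z := h.V_mono hx2
      have hV := h.V_one (a m)
      have hm0 : (0 : ℝ) < m := by exact_mod_cast hm
      calc hit D (stepLaw μ ν 1) m x ≤ K * V x / (m * V (a m)) := h3
        _ ≤ K * V z / (m * V (a m)) := by
            apply div_le_div_of_nonneg_right _ (by positivity)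
            exact mul_le_mul_of_nonneg_left h4 hK0.le
        _ = K * u m := by
            show K * V z / (m * V (a m)) = K * (V z / (m * V (a m)))
            ring
        _ ≤ K * (K * Ca * u m') := mul_le_mul_of_nonneg_left (hucomp m m' hm' hmm) hK0.le
        _ = K ^ 2 * Ca * u m' := by ring
        _ ≤ C₀ * u m' := by
            apply mul_le_mul_of_nonneg_right _ (hu0 m')
            have : 0 ≤ 4 * K ^ 2 := by positivity
            linarith
    have h3 : ∀ k, k ≤ m → hit D (stepLaw μ ν 1) m x ≤ g k := by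
      intro k
      induction k with
      | zero => intro _; rw [hg0]; exact h1
      | succ k ih =>
        intro hk
        rw [hgs]
        exact le_min (ih (by omega)) (h2 (k + 1) (by omega) hk)
    exact h3 m le_rfl
  · -- the sum
    set ℓ : ℝ := L z with hℓ
    set b : ℝ := max 1 (1 / ℓ) with hb
    have hb1 : 1 ≤ b := le_max_left _ _
    have hb2 : 1 / ℓ ≤ b := le_max_right _ _
    have hb0 : 0 < b := by linarith
    have hsum : ∑ m ∈ Finset.range N, g (m + 1) = ∑ i ∈ Finset.Ico 1 (N + 1), g i := by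
      rw [Finset.sum_Ico_eq_sum_range]
      refine Finset.sum_congr rfl fun i _ => ?_
      rw [add_comm]
    rw [hsum, ← Finset.sum_filter_add_sum_filter_not (Finset.Ico 1 (N + 1)) (fun i : ℕ => b ≤ (i : ℝ)) g]
    have s1 : ∑ i ∈ (Finset.Ico 1 (N + 1)).filter (fun i : ℕ => b ≤ (i : ℝ)), g i ≤
        C₀ * K ^ 4 * (1 + 1 / q) := by
      have h1 : ∀ i ∈ (Finset.Ico 1 (N + 1)).filter (fun i : ℕ => b ≤ (i : ℝ)),
          g i ≤ C₀ * K ^ 4 * ℓ ^ (-q) * (i : ℝ) ^ (-(1 + q)) := by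
        intro i hi
        rw [Finset.mem_filter, Finset.mem_Ico] at hi
        have hi1 : 1 ≤ i := hi.1.1
        have hi0 : (0 : ℝ) < i := by exact_mod_cast hi1
        have hil : 1 ≤ i * ℓ := by
          have h2 : 1 / ℓ ≤ i := hb2.trans hi.2
          rwa [div_le_iff₀ hLz] at h2
        have h2 := QW2_claim h hz hi1 hil
        have hV := h.V_one (a i)
        have h3 : u i ≤ K ^ 4 * (ℓ ^ (-q) * (i : ℝ) ^ (-(1 + q))) := by
          show V z / (i * V (a i)) ≤ _
          rw [div_le_iff₀ (by positivity)]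
          have e1 : (i * ℓ) ^ q * (ℓ ^ (-q) * (i : ℝ) ^ (-(1 + q)) * i) = 1 := by
            rw [Real.mul_rpow hi0.le hLz.le, neg_add, Real.rpow_add hi0, Real.rpow_neg_one,
              Real.rpow_neg hLz.le, Real.rpow_neg hi0.le]
            have e2 : (i : ℝ) ^ q ≠ 0 := (Real.rpow_pos_of_pos hi0 _).ne'
            have e3 : ℓ ^ q ≠ 0 := (Real.rpow_pos_of_pos hLz _).ne'
            field_simp
          have hpos : 0 ≤ ℓ ^ (-q) * (i : ℝ) ^ (-(1 + q)) * i := by positivity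
          calc V z = V z * (i * ℓ) ^ q * (ℓ ^ (-q) * (i : ℝ) ^ (-(1 + q)) * i) := by
                rw [mul_assoc, e1, mul_one]
            _ ≤ K ^ 4 * V (a i) * (ℓ ^ (-q) * (i : ℝ) ^ (-(1 + q)) * i) :=
                mul_le_mul_of_nonneg_right h2 hpos
            _ = K ^ 4 * (ℓ ^ (-q) * (i : ℝ) ^ (-(1 + q))) * (i * V (a i)) := by ring
        calc g i ≤ C₀ * u i := hgu i hi1
          _ ≤ C₀ * (K ^ 4 * (ℓ ^ (-q) * (i : ℝ) ^ (-(1 + q)))) := mul_le_mul_of_nonneg_left h3 hC₀0.le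
          _ = _ := by ring
      refine (Finset.sum_le_sum h1).trans ?_
      rw [← Finset.mul_sum]
      have h4 := QW2_sum (p := 1 + q) (by linarith) (by rw [hq]; linarith) hb1 (Finset.Ico 1 (N + 1))
      have e5 : (1 + q) - 1 = q := by ring
      have e6 : 1 - (1 + q) = -q := by ring
      rw [e5, e6] at h4
      have h5 : b ^ (-q) ≤ ℓ ^ q := by
        calc b ^ (-q) ≤ (1 / ℓ) ^ (-q) :=
              Real.rpow_le_rpow_of_nonpos (by positivity) hb2 (by linarith)
          _ = ℓ ^ q := by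
              rw [one_div, Real.inv_rpow hLz.le, Real.rpow_neg hLz.le, inv_inv]
      have e7 : ℓ ^ (-q) * ℓ ^ q = 1 := by
        rw [← Real.rpow_add hLz]
        simp
      calc C₀ * K ^ 4 * ℓ ^ (-q) * ∑ i ∈ (Finset.Ico 1 (N + 1)).filter (fun i : ℕ => b ≤ (i : ℝ)),
            (i : ℝ) ^ (-(1 + q)) ≤ C₀ * K ^ 4 * ℓ ^ (-q) * ((1 + 1 / q) * b ^ (-q)) :=
            mul_le_mul_of_nonneg_left h4 (by positivity)
        _ ≤ C₀ * K ^ 4 * ℓ ^ (-q) * ((1 + 1 / q) * ℓ ^ q) := by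
            apply mul_le_mul_of_nonneg_left _ (by positivity)
            exact mul_le_mul_of_nonneg_left h5 (by positivity)
        _ = C₀ * K ^ 4 * (1 + 1 / q) * (ℓ ^ (-q) * ℓ ^ q) := by ring
        _ = C₀ * K ^ 4 * (1 + 1 / q) := by rw [e7, mul_one]
    have s2 : ∑ i ∈ (Finset.Ico 1 (N + 1)).filter (fun i : ℕ => ¬ b ≤ (i : ℝ)), g i ≤ C₀ := by
      have h1 : ∑ i ∈ (Finset.Ico 1 (N + 1)).filter (fun i : ℕ => ¬ b ≤ (i : ℝ)), g i ≤
          ((Finset.Ico 1 (N + 1)).filter (fun i : ℕ => ¬ b ≤ (i : ℝ))).card • (C₀ * ℓ) :=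
        Finset.sum_le_card_nsmul _ _ _ fun i _ => hgL i
      have h2 : (Finset.Ico 1 (N + 1)).filter (fun i : ℕ => ¬ b ≤ (i : ℝ)) ⊆
          Finset.Ico 1 (⌊1 / ℓ⌋₊ + 1) := by
        intro i hi
        rw [Finset.mem_filter, Finset.mem_Ico] at hi
        have hi1 : (1 : ℝ) ≤ i := by exact_mod_cast hi.1.1
        have h3 : (i : ℝ) ≤ 1 / ℓ := by
          have h4 := not_le.1 hi.2
          rcases lt_max_iff.1 h4 with h5 | h5
          · linarith
          · exact h5.le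
        rw [Finset.mem_Ico]
        exact ⟨hi.1.1, Nat.lt_succ_of_le (Nat.le_floor h3)⟩
      have h3 := Finset.card_le_card h2
      rw [Nat.card_Ico, Nat.add_sub_cancel] at h3
      have h4 : (((Finset.Ico 1 (N + 1)).filter (fun i : ℕ => ¬ b ≤ (i : ℝ))).card : ℝ) ≤ 1 / ℓ := by
        calc (((Finset.Ico 1 (N + 1)).filter (fun i : ℕ => ¬ b ≤ (i : ℝ))).card : ℝ) ≤
              (⌊1 / ℓ⌋₊ : ℝ) := by exact_mod_cast h3
          _ ≤ 1 / ℓ := Nat.floor_le (by positivity)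
      rw [nsmul_eq_mul] at h1
      refine h1.trans ?_
      calc _ ≤ 1 / ℓ * (C₀ * ℓ) := mul_le_mul_of_nonneg_right h4 (by positivity)
        _ = C₀ := by field_simp
    linarith

end Pool.Agent.BPT
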