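import Pool.Agent.MP_99a865_pr.ST.QW6
import Pool.Agent.MP_99a865_pr.ST.QW20
import Pool.Agent.MP_99a865_pr.ST.QW21a

/-! **[STB-QW21b]** Given `N = n`, the walk stays close to any given macroscopic level during the middle half of the time with
probability bounded below. -/

open MeasureTheory ProbabilityTheory Filter Topology
open scoped ENNReal NNReal

namespace Pool.Agent.BPT

variable {D : Set ℝ} {μ ν : Measure ℝ} {a : ℕ → ℝ} {L V V' : ℝ → ℝ} {p K x₀ : ℝ}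

/-- the walk is in `[lo, hi]` between `i` and `k` -/
def QW21b_B (i k : ℕ) (lo hi : ℝ) : Set (ℕ → ℝ × ℝ) :=
  {ω | ∀ j, i ≤ j → j ≤ k → lo ≤ Zw j ω ∧ Zw j ω ≤ hi}

lemma QW21b_B_meas (i k : ℕ) (lo hi : ℝ) : MeasurableSet (QW21b_B i k lo hi) := by
  have h : QW21b_B i k lo hi = ⋂ j : ℕ, ⋂ (_ : i ≤ j), ⋂ (_ : j ≤ k), {ω | lo ≤ Zw j ω ∧ Zw j ω ≤ hi} := by
    ext ω
    simp [QW21b_B]
  rw [h]
  exact MeasurableSet.iInter fun j => MeasurableSet.iInter fun _ => MeasurableSet.iInter fun _ =>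
    (measurable_Zw j) (measurableSet_Icc (a := lo) (b := hi))

lemma QW21b_B_dep (i k : ℕ) (lo hi : ℝ) (ω ω' : ℕ → ℝ × ℝ) (h : ∀ j < k, ω j = ω' j) :
    ω ∈ QW21b_B i k lo hi ↔ ω' ∈ QW21b_B i k lo hi := by
  have key : ∀ ω ω' : ℕ → ℝ × ℝ, (∀ j < k, ω j = ω' j) → ω ∈ QW21b_B i k lo hi → ω' ∈ QW21b_B i k lo hi := by
    intro ω ω' h h1 j hj1 hj2
    rw [← Q1_Zw_congr j (fun l hl => h l (by omega))]
    exact h1 j hj1 hj2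
  exact ⟨key ω ω' h, key ω' ω (fun j hj => (h j hj).symm)⟩

lemma QW21b_gg (n j : ℕ) : (gg 8 n j : ℝ) ≤ (j : ℝ) / 8 * n ∧ (j : ℝ) / 8 * n < gg 8 n j + 1 := by
  have h8 : ((8 : ℕ) : ℝ) = 8 := by norm_num
  unfold gg
  rw [h8]
  exact ⟨Nat.floor_le (by positivity), Nat.lt_floor_add_one _⟩

/-- the law of the killed walk -/
lemma QW21b_ae (hD : Dom D) [IsProbabilityMeasure μ] [IsProbabilityMeasure ν] (k : ℕ) {q : ℝ → Prop}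
    (h : ∀ᵐ z ∂(kap D (stepLaw μ ν 1) k 0), q z) : ∀ᵐ ω ∂(PQ μ ν), AliveQ D k ω → q (Zw k ω) := by
  have hpr : IsProbabilityMeasure (stepLaw μ ν 1) := prob_stepLaw 1
  unfold kap at h
  have h1 := ae_of_ae_map (A1_meas_add k 0).aemeasurable h
  rw [ae_restrict_iff' (measurableSet_alive hD 0 k), ← map_steps_gen] at h1
  have h2 := ae_of_ae_map (measurable_steps (σ := 1)).aemeasurable h1
  filter_upwards [h2] with ω h3 h4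
  have h5 := h3 ((Q1_alive_iff hD k ω).1 h4)
  rwa [Q1_S, zero_add] at h5

/-- PROOF. Let `i₀ = gg 8 n 1`, `i₁ = gg 8 n 2` (`≤ n/4`), `i₂ = gg 8 n 6 + 1` (`≥ 3n/4`), `i₃ = gg 8 n 7`; the differences `i₁ - i₀`, `i₃ - i₂` are `≥ n/16` for `n` large. Let `r₁`, `r₂`, `c`
from `hitp`, `r = (r₁+r₂)/2`, `ε₃ = min ((r₂-r₁)/2) (min (r/4) (min (y/4) (δ/4)))`.
We may replace `ε` by a smaller number: assume `4ε ≤ δ`. By `BN_after` and `steer` (from `[δ a n, R a n]` to `[(y-ε) a n, (y+ε) a n]`, `T = i₁ - i₀`, `τ = 1/16`), `BN_after` and `stay` (`T = i₂ - i₁`),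
`BN_after` and `steer` (from `[(y-ε), (y+ε)] a n` to `[(r-ε₃), (r+ε₃)] a n ⊆ [r₁ a n, r₂ a n]`, `T = i₃ - i₂`; `4 ε₃ ≤ y - ε` if `ε₃ ≤ y/8`, adjust):
the event `A` = (`AliveQ i₀`, the walk is positive on `[i₀, i₃]` and in `[(y-2ε) a n, (y+2ε) a n]` on `[i₁, i₂]`, `Zw i₃ ∈ [r₁ a n, r₂ a n]`) has probability `≥ c' /V (a n)`; `A ⊆ {AliveQ i₃}` (positive numbers are in `D`).
By `q_exit` (`r = i₃`, `H = 1_A`): `P(EvN n ∩ A) = ∫_{A ∩ AliveQ i₃} hit (n - i₃) (Zw i₃)`, and by `hitp` the integrand is `≥ c/n` a.e. on `A ∩ AliveQ i₃` (the law of `Zw i₃` on `{AliveQ i₃}` is `kap D ρ i₃ 0`: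
`q_alive` with `r = 0`, `k = i₃`, `H = 1`, or the definition of `kap`, `Q1_S`, `Q1_alive_iff`, `map_steps_gen`). -/
theorem QP.path (h : QS D μ ν a L V V' p K x₀) (hp : QP D μ ν a) {y ε : ℝ} (hε : 0 < ε)
    (hy : 4 * ε ≤ y) : ∃ c > (0 : ℝ), ∀ᶠ n in lQ D μ ν, ENNReal.ofReal (c * bb V a n) ≤
      PQ μ ν (EvN D n ∩ {ω | ∀ j : ℕ, (n : ℝ) / 4 ≤ j → (j : ℝ) ≤ 3 * n / 4 →
        (y - 2 * ε) * a n ≤ Zw j ω ∧ Zw j ω ≤ (y + 2 * ε) * a n}) := by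
  classical
  have hPμ := h.qi.probμ
  have hPν := h.qi.probν
  have hPQ : IsProbabilityMeasure (PQ μ ν) := by
    unfold PQ seqLaw
    infer_instance
  have hD := h.dom
  have hy0 : 0 < y := by linarith
  obtain ⟨cs, hcs, δ, hδ, R, hδR, hstart⟩ := h.start
  obtain ⟨ch, hch, r₁, r₂, hr₁, hr₁₂, hhit⟩ := hp.hitp
  -- constants
  obtain ⟨η, hη, hη1, hη2⟩ : ∃ η > (0 : ℝ), η ≤ ε ∧ 4 * η ≤ δ :=
    ⟨min ε (δ / 4), by positivity, min_le_left _ _, by linarith [min_le_right ε (δ / 4)]⟩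
  obtain ⟨ζ, hζ, hζ1, hζ2, hζ3⟩ : ∃ ζ > (0 : ℝ), ζ ≤ (r₂ - r₁) / 2 ∧ 4 * ζ ≤ r₁ ∧ 4 * ζ ≤ y - η := by
    have hyη : 0 < y - η := by linarith
    have hr : 0 < (r₂ - r₁) / 2 := by linarith
    refine ⟨min ((r₂ - r₁) / 2) (min (r₁ / 4) ((y - η) / 4)), by positivity, min_le_left _ _, ?_, ?_⟩
    · have := (min_le_right ((r₂ - r₁) / 2) (min (r₁ / 4) ((y - η) / 4))).trans (min_le_left _ _)
      linarith
    · have := (min_le_right ((r₂ - r₁) / 2) (min (r₁ / 4) ((y - η) / 4))).trans (min_le_right _ _)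
      linarith
  set r : ℝ := (r₁ + r₂) / 2 with hr
  obtain ⟨c₁, hc₁, n₁, hs₁⟩ := h.steer hp (x₁ := δ) (x₂ := R) (y := y) (ε := η) (τ := 1 / 16) hη hη2 hδR
    (by linarith) (by norm_num)
  obtain ⟨c₂, hc₂, n₂, hs₂⟩ := h.stay hp hη
  obtain ⟨c₃, hc₃, n₃, hs₃⟩ := h.steer hp (x₁ := y - η) (x₂ := y + η) (y := r) (ε := ζ) (τ := 1 / 16) hζ hζ3
    (by linarith) (by linarith) (by norm_num)
  refine ⟨ch * cs * (c₁ * c₂ * c₃), by positivity, ?_⟩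
  have hat : ∀ᶠ n : ℕ in lQ D μ ν, max (max n₁ n₂) (max n₃ 64) ≤ n :=
    (eventually_ge_atTop _).filter_mono inf_le_left
  filter_upwards [hstart, hhit, hat] with n hS hH hn
  have hn1 : n₁ ≤ n := le_trans (le_trans (le_max_left _ _) (le_max_left _ _)) hn
  have hn2 : n₂ ≤ n := le_trans (le_trans (le_max_right _ _) (le_max_left _ _)) hn
  have hn3 : n₃ ≤ n := le_trans (le_trans (le_max_left _ _) (le_max_right _ _)) hn
  have hn64 : 64 ≤ n := le_trans (le_trans (le_max_right _ _) (le_max_right _ _)) hn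
  have hn64R : (64 : ℝ) ≤ n := by exact_mod_cast hn64
  have hnR : (0 : ℝ) < n := by linarith
  have han : 0 < a n := lt_of_lt_of_le (by linarith [h.x_ge]) (h.a_ge n (by omega))
  have hVn : 0 < V (a n) := lt_of_lt_of_le one_pos (h.V_one _)
  -- times
  obtain ⟨g1a, g1b⟩ := QW21b_gg n 1
  obtain ⟨g2a, g2b⟩ := QW21b_gg n 2
  obtain ⟨g6a, g6b⟩ := QW21b_gg n 6
  obtain ⟨g7a, g7b⟩ := QW21b_gg n 7
  push_cast at g1a g1b g2a g2b g6a g6b g7a g7b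
  set i₀ : ℕ := gg 8 n 1 with hi₀
  set i₁ : ℕ := gg 8 n 2 with hi₁
  set i₂ : ℕ := gg 8 n 6 + 1 with hi₂
  set i₃ : ℕ := gg 8 n 7 with hi₃
  have hi₂R : (i₂ : ℝ) = gg 8 n 6 + 1 := by
    rw [hi₂]
    push_cast
    ring
  have h01 : i₀ ≤ i₁ := by
    have : (i₀ : ℝ) ≤ i₁ := by linarith
    exact_mod_cast this
  have h12 : i₁ ≤ i₂ := by
    have : (i₁ : ℝ) ≤ i₂ := by linarith
    exact_mod_cast this
  have h23 : i₂ ≤ i₃ := by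
    have : (i₂ : ℝ) ≤ i₃ := by linarith
    exact_mod_cast this
  have h3n : i₃ < n := by
    have : (i₃ : ℝ) < n := by linarith
    exact_mod_cast this
  obtain ⟨T₁, hT₁⟩ := Nat.exists_eq_add_of_le h01
  obtain ⟨T₂, hT₂⟩ := Nat.exists_eq_add_of_le h12
  obtain ⟨T₃, hT₃⟩ := Nat.exists_eq_add_of_le h23
  have hT₁R : (1 / 16 : ℝ) * n ≤ T₁ := by
    have : (i₁ : ℝ) = i₀ + T₁ := by exact_mod_cast hT₁
    linarith
  have hT₃R : (1 / 16 : ℝ) * n ≤ T₃ := by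
    have : (i₃ : ℝ) = i₂ + T₃ := by exact_mod_cast hT₃
    linarith
  have hT₁n : T₁ ≤ n := by omega
  have hT₂n : T₂ ≤ n := by omega
  have hT₃n : T₃ ≤ n := by omega
  -- levels
  set lo₁ : ℝ := (min δ y - 2 * η) * a n with hlo₁
  set hi₁' : ℝ := (max R y + 2 * η) * a n with hhi₁'
  set lo₃ : ℝ := (min (y - η) r - 2 * ζ) * a n with hlo₃
  set hi₃' : ℝ := (max (y + η) r + 2 * ζ) * a n with hhi₃'
  have hlo₁0 : 0 < lo₁ := by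
    refine mul_pos ?_ han
    have : 4 * η ≤ min δ y := le_min hη2 (by linarith)
    linarith
  have hlo₂0 : 0 < (y - 2 * η) * a n := mul_pos (by linarith) han
  have hlo₃0 : 0 < lo₃ := by
    refine mul_pos ?_ han
    have : 4 * ζ ≤ min (y - η) r := le_min hζ3 (by linarith)
    linarith
  -- the events
  set A₀ : Set (ℕ → ℝ × ℝ) := {ω | AliveQ D i₀ ω} with hA₀
  set A₁ : Set (ℕ → ℝ × ℝ) := A₀ ∩ QW21b_B i₀ i₁ lo₁ hi₁' with hA₁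
  set A₂ : Set (ℕ → ℝ × ℝ) := A₁ ∩ QW21b_B i₁ i₂ ((y - 2 * η) * a n) ((y + 2 * η) * a n) with hA₂
  set A₃ : Set (ℕ → ℝ × ℝ) := A₂ ∩ QW21b_B i₂ i₃ lo₃ hi₃' with hA₃
  have hA₀m : MeasurableSet A₀ := measurableSet_aliveQ hD i₀
  have hA₁m : MeasurableSet A₁ := hA₀m.inter (QW21b_B_meas _ _ _ _)
  have hA₂m : MeasurableSet A₂ := hA₁m.inter (QW21b_B_meas _ _ _ _)
  have hA₃m : MeasurableSet A₃ := hA₂m.inter (QW21b_B_meas _ _ _ _)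
  have hA₀d : ∀ ω ω' : ℕ → ℝ × ℝ, (∀ j < i₀, ω j = ω' j) → (ω ∈ A₀ ↔ ω' ∈ A₀) := fun ω ω' hω =>
    Q1_alive_congr i₀ hω
  have hA₁d : ∀ ω ω' : ℕ → ℝ × ℝ, (∀ j < i₁, ω j = ω' j) → (ω ∈ A₁ ↔ ω' ∈ A₁) := fun ω ω' hω =>
    and_congr (hA₀d ω ω' fun j hj => hω j (by omega)) (QW21b_B_dep _ _ _ _ ω ω' hω)
  have hA₂d : ∀ ω ω' : ℕ → ℝ × ℝ, (∀ j < i₂, ω j = ω' j) → (ω ∈ A₂ ↔ ω' ∈ A₂) := fun ω ω' hω =>
    and_congr (hA₁d ω ω' fun j hj => hω j (by omega)) (QW21b_B_dep _ _ _ _ ω ω' hω)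
  have hA₃d : ∀ ω ω' : ℕ → ℝ × ℝ, (∀ j < i₃, ω j = ω' j) → (ω ∈ A₃ ↔ ω' ∈ A₃) := fun ω ω' hω =>
    and_congr (hA₂d ω ω' fun j hj => hω j (by omega)) (QW21b_B_dep _ _ _ _ ω ω' hω)
  -- three steps
  have s1 := BN_after (μ := μ) (ν := ν) i₀ T₁ A₀ hA₀m hA₀d lo₁ hi₁' (δ * a n) (R * a n) ((y - η) * a n)
    ((y + η) * a n) (ENNReal.ofReal c₁) (fun z' h1 h2 => hs₁ n hn1 T₁ hT₁R hT₁n z' h1 h2)
  have s2 := BN_after (μ := μ) (ν := ν) i₁ T₂ A₁ hA₁m hA₁d ((y - 2 * η) * a n) ((y + 2 * η) * a n)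
    ((y - η) * a n) ((y + η) * a n) ((y - η) * a n)
    ((y + η) * a n) (ENNReal.ofReal c₂) (fun z' h1 h2 => hs₂ n hn2 T₂ hT₂n y z' h1 h2)
  have s3 := BN_after (μ := μ) (ν := ν) i₂ T₃ A₂ hA₂m hA₂d lo₃ hi₃'
    ((y - η) * a n) ((y + η) * a n) ((r - ζ) * a n)
    ((r + ζ) * a n) (ENNReal.ofReal c₃) (fun z' h1 h2 => hs₃ n hn3 T₃ hT₃R hT₃n z' h1 h2)
  rw [← hT₁] at s1
  rw [← hT₂] at s2
  rw [← hT₃] at s3
  have e1 : A₀ ∩ {ω | (∀ j, i₀ ≤ j → j ≤ i₁ → lo₁ ≤ Zw j ω ∧ Zw j ω ≤ hi₁') ∧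
      (y - η) * a n ≤ Zw i₁ ω ∧ Zw i₁ ω ≤ (y + η) * a n} ⊆
      A₁ ∩ {ω | (y - η) * a n ≤ Zw i₁ ω ∧ Zw i₁ ω ≤ (y + η) * a n} := by
    rintro ω ⟨h1, h2, h3⟩
    exact ⟨⟨h1, h2⟩, h3⟩
  have e2 : A₁ ∩ {ω | (∀ j, i₁ ≤ j → j ≤ i₂ → (y - 2 * η) * a n ≤ Zw j ω ∧ Zw j ω ≤ (y + 2 * η) * a n) ∧
      (y - η) * a n ≤ Zw i₂ ω ∧ Zw i₂ ω ≤ (y + η) * a n} ⊆
      A₂ ∩ {ω | (y - η) * a n ≤ Zw i₂ ω ∧ Zw i₂ ω ≤ (y + η) * a n} := by
    rintro ω ⟨h1, h2, h3⟩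
    exact ⟨⟨h1, h2⟩, h3⟩
  set A : Set (ℕ → ℝ × ℝ) := A₃ ∩ {ω | r₁ * a n ≤ Zw i₃ ω ∧ Zw i₃ ω ≤ r₂ * a n} with hA
  have e3 : A₂ ∩ {ω | (∀ j, i₂ ≤ j → j ≤ i₃ → lo₃ ≤ Zw j ω ∧ Zw j ω ≤ hi₃') ∧
      (r - ζ) * a n ≤ Zw i₃ ω ∧ Zw i₃ ω ≤ (r + ζ) * a n} ⊆ A := by
    rintro ω ⟨h1, h2, h3, h4⟩
    refine ⟨⟨h1, h2⟩, ?_, ?_⟩
    · exact (mul_le_mul_of_nonneg_right (by linarith) han.le).trans h3
    · exact h4.trans (mul_le_mul_of_nonneg_right (by linarith) han.le)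
  have hAm : MeasurableSet A := hA₃m.inter ((measurable_Zw i₃) (measurableSet_Icc (a := r₁ * a n) (b := r₂ * a n)))
  have hAd : ∀ ω ω' : ℕ → ℝ × ℝ, (∀ j < i₃, ω j = ω' j) → (ω ∈ A ↔ ω' ∈ A) := fun ω ω' hω =>
    and_congr (hA₃d ω ω' hω) (by
      show (r₁ * a n ≤ Zw i₃ ω ∧ Zw i₃ ω ≤ r₂ * a n) ↔ (r₁ * a n ≤ Zw i₃ ω' ∧ Zw i₃ ω' ≤ r₂ * a n)
      rw [Q1_Zw_congr i₃ hω])
  have hPA : ENNReal.ofReal (cs / V (a n)) * ENNReal.ofReal c₁ * ENNReal.ofReal c₂ * ENNReal.ofReal c₃ ≤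
      PQ μ ν A := by
    refine le_trans (mul_le_mul' (mul_le_mul' (mul_le_mul' hS le_rfl) le_rfl) le_rfl) ?_
    refine le_trans (mul_le_mul' (mul_le_mul' s1 le_rfl) le_rfl) ?_
    refine le_trans (mul_le_mul' (mul_le_mul' (measure_mono e1) le_rfl) le_rfl) ?_
    refine le_trans (mul_le_mul' s2 le_rfl) ?_
    refine le_trans (mul_le_mul' (measure_mono e2) le_rfl) ?_
    exact s3.trans (measure_mono e3)
  -- alive
  have hAal : A ⊆ {ω | AliveQ D i₃ ω} := by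
    rintro ω ⟨⟨⟨⟨h1, h2⟩, h3⟩, h4⟩, -⟩ j hj1 hj2
    rcases le_total j i₀ with h5 | h5
    · exact h1 j hj1 h5
    rcases le_total j i₁ with h6 | h6
    · exact hD.pos (lt_of_lt_of_le hlo₁0 (h2 j h5 h6).1)
    rcases le_total j i₂ with h7 | h7
    · exact hD.pos (lt_of_lt_of_le hlo₂0 (h3 j h6 h7).1)
    · exact hD.pos (lt_of_lt_of_le hlo₃0 (h4 j h7 hj2).1)
  -- the exit
  have hHm : Measurable (A.indicator fun _ => (1 : ℝ≥0∞)) := measurable_const.indicator hAm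
  have hHd : ∀ ω ω' : ℕ → ℝ × ℝ, (∀ j < i₃, ω j = ω' j) →
      A.indicator (fun _ => (1 : ℝ≥0∞)) ω = A.indicator (fun _ => (1 : ℝ≥0∞)) ω' := by
    intro ω ω' hω
    have h1 := hAd ω ω' hω
    by_cases h2 : ω ∈ A
    · rw [Set.indicator_of_mem h2, Set.indicator_of_mem (h1.1 h2)]
    · rw [Set.indicator_of_notMem h2, Set.indicator_of_notMem (fun h3 => h2 (h1.2 h3))]
  have hex := q_exit (μ := μ) (ν := ν) hD i₃ n h3n _ hHm hHd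
  have hae := QW21b_ae (μ := μ) (ν := ν) hD i₃ hH
  have hlow : ENNReal.ofReal (ch / n) * PQ μ ν A ≤ PQ μ ν (EvN D n ∩ A) := by
    have h1 : ∫⁻ ω in EvN D n, A.indicator (fun _ => (1 : ℝ≥0∞)) ω ∂(PQ μ ν) = PQ μ ν (EvN D n ∩ A) := by
      rw [lintegral_indicator hAm, lintegral_one, Measure.restrict_restrict hAm, Measure.restrict_apply_univ,
        Set.inter_comm]
    rw [← h1, hex]
    have h2 : ENNReal.ofReal (ch / n) * PQ μ ν A =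
        ∫⁻ ω in {ω | AliveQ D i₃ ω}, A.indicator (fun _ => (1 : ℝ≥0∞)) ω * ENNReal.ofReal (ch / n) ∂(PQ μ ν) := by
      rw [lintegral_mul_const _ hHm, lintegral_indicator hAm, lintegral_one, Measure.restrict_restrict hAm,
        Measure.restrict_apply_univ, Set.inter_eq_left.2 hAal, mul_comm]
    rw [h2]
    refine lintegral_mono_ae ?_
    filter_upwards [ae_restrict_of_ae hae, ae_restrict_mem (measurableSet_aliveQ hD i₃)] with ω h3 h4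
    by_cases h5 : ω ∈ A
    · refine mul_le_mul' le_rfl (ENNReal.ofReal_le_ofReal ?_)
      exact h3 h4 h5.2.1 h5.2.2
    · rw [Set.indicator_of_notMem h5, zero_mul, zero_mul]
  -- the end
  have hsub : EvN D n ∩ A ⊆ EvN D n ∩ {ω | ∀ j : ℕ, (n : ℝ) / 4 ≤ j → (j : ℝ) ≤ 3 * n / 4 →
        (y - 2 * ε) * a n ≤ Zw j ω ∧ Zw j ω ≤ (y + 2 * ε) * a n} := by
    rintro ω ⟨hN, ⟨⟨-, h3⟩, -⟩, -⟩
    refine ⟨hN, fun j hj1 hj2 => ?_⟩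
    have h5 : i₁ ≤ j := by
      have : (i₁ : ℝ) ≤ j := by linarith
      exact_mod_cast this
    have h6 : j ≤ i₂ := by
      have : (j : ℝ) ≤ i₂ := by linarith
      exact_mod_cast this
    obtain ⟨h7, h8⟩ := h3 j h5 h6
    constructor
    · exact (mul_le_mul_of_nonneg_right (by linarith) han.le).trans h7
    · exact h8.trans (mul_le_mul_of_nonneg_right (by linarith) han.le)
  refine le_trans ?_ (measure_mono hsub)
  refine le_trans ?_ (le_trans (mul_le_mul' le_rfl hPA) hlow)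
  rw [← ENNReal.ofReal_mul (by positivity), ← ENNReal.ofReal_mul (by positivity),
    ← ENNReal.ofReal_mul (by positivity), ← ENNReal.ofReal_mul (by positivity)]
  refine ENNReal.ofReal_le_ofReal (le_of_eq ?_)
  unfold bb
  field_simp

end Pool.Agent.BPT
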