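import Pool.Agent.MP_99a865_pr.ST.QW10
import Pool.Agent.MP_99a865_pr.ST.QW16
import Pool.Agent.MP_99a865_pr.ST.QW21
import Pool.Agent.MP_99a865_pr.FV.F10m

/-! **[STB-QW22a]** The limit laws are unbounded. -/

open MeasureTheory ProbabilityTheory Filter Topology
open scoped ENNReal NNReal

namespace Pool.Agent.BPT

variable {D : Set ℝ} {μ ν : Measure ℝ} {a : ℕ → ℝ} {L V V' : ℝ → ℝ} {p K x₀ : ℝ}

lemma QW22a_cond {Ω : Type} [MeasurableSpace Ω] {P : Measure Ω} [IsFiniteMeasure P] {E A : Set Ω}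
    (hE : MeasurableSet E) {c C b : ℝ} (hc : 0 < c) (hC : 0 < C) (hb : 0 < b)
    (h1 : P E ≤ ENNReal.ofReal (C * b)) (h2 : ENNReal.ofReal (c * b) ≤ P (E ∩ A)) :
    c / C ≤ (cond P E).real A := by
  rw [Measure.real, cond_apply hE, ENNReal.toReal_mul, ENNReal.toReal_inv]
  have h3 : (P E).toReal ≤ C * b := ENNReal.toReal_le_of_le_ofReal (by positivity) h1
  have h4 : c * b ≤ (P (E ∩ A)).toReal := (ENNReal.ofReal_le_iff_le_toReal (measure_ne_top _ _)).1 h2
  have h5 : (P (E ∩ A)).toReal ≤ (P E).toReal :=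
    ENNReal.toReal_mono (measure_ne_top _ _) (measure_mono Set.inter_subset_left)
  have h6 : 0 < (P E).toReal := lt_of_lt_of_le (by positivity) (h4.trans h5)
  rw [inv_mul_eq_div, div_le_div_iff₀ hC h6]
  calc c * (P E).toReal ≤ c * (C * b) := mul_le_mul_of_nonneg_left h3 hc.le
    _ = c * b * C := by ring
    _ ≤ (P (E ∩ A)).toReal * C := mul_le_mul_of_nonneg_right h4 hC.le

lemma QW22a_markov {Ω : Type} [MeasurableSpace Ω] {P : Measure Ω} {E : Set Ω}
    {X : Ω → ℝ} (hX : Measurable X) {τ : ℝ}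
    (h : ∫⁻ ω in E, ENNReal.ofReal (min 1 |X ω|) ∂P ≤ ENNReal.ofReal τ) :
    P (E ∩ {ω | 1 / 2 ≤ |X ω|}) ≤ ENNReal.ofReal (2 * τ) := by
  have hm : MeasurableSet {ω | 1 / 2 ≤ |X ω|} := measurableSet_le measurable_const hX.abs
  have h1 := mul_meas_ge_le_lintegral₀ (μ := P.restrict E)
    (f := fun ω => ENNReal.ofReal (min 1 |X ω|))
    (measurable_const.min hX.abs).ennreal_ofReal.aemeasurable (ENNReal.ofReal (1 / 2))
  have h2 : {ω | ENNReal.ofReal (1 / 2) ≤ ENNReal.ofReal (min 1 |X ω|)} = {ω | 1 / 2 ≤ |X ω|} := by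
    ext ω
    simp only [Set.mem_setOf_eq]
    rw [ENNReal.ofReal_le_ofReal_iff (by positivity), le_min_iff]
    constructor
    · exact fun h => h.2
    · exact fun h => ⟨by norm_num, h⟩
  rw [h2, Measure.restrict_apply hm, Set.inter_comm] at h1
  have h3 := h1.trans h
  have h4 : ENNReal.ofReal 2 * (ENNReal.ofReal (1 / 2) * P (E ∩ {ω | 1 / 2 ≤ |X ω|})) ≤
      ENNReal.ofReal 2 * ENNReal.ofReal τ := mul_le_mul_right h3 _
  rw [← mul_assoc, ← ENNReal.ofReal_mul (by norm_num), ← ENNReal.ofReal_mul (by norm_num)] at h4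
  have h5 : (2 : ℝ) * (1 / 2) = 1 := by norm_num
  rw [h5, ENNReal.ofReal_one, one_mul] at h4
  exact h4

lemma QW22a_key {Ω : Type} [MeasurableSpace Ω] {P : Measure Ω} [IsFiniteMeasure P] {E A : Set Ω}
    (hE : MeasurableSet E) {X Y : Ω → ℝ} (hX : Measurable X) (hY : Measurable Y) {c C b r : ℝ}
    (hc : 0 < c) (hC : 0 < C) (hb : 0 < b)
    (h1 : P E ≤ ENNReal.ofReal (C * b)) (h2 : ENNReal.ofReal (c * b) ≤ P (E ∩ A))
    (h3 : ∀ ω ∈ E ∩ A, r + 1 ≤ Y ω)
    (h4 : ∫⁻ ω in E, ENNReal.ofReal (min 1 |X ω - Y ω|) ∂P ≤ ENNReal.ofReal (c / 8 * b)) :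
    3 * c / 4 / C ≤ (cond P E).real {ω | r ≤ X ω} := by
  refine QW22a_cond hE (by positivity) hC hb h1 ?_
  have h5 := QW22a_markov (E := E) (P := P) (hX.sub hY) h4
  have h6 : E ∩ A ⊆ (E ∩ {ω | r ≤ X ω}) ∪ (E ∩ {ω | 1 / 2 ≤ |X ω - Y ω|}) := by
    rintro ω ⟨hω1, hω2⟩
    by_cases h7 : 1 / 2 ≤ |X ω - Y ω|
    · exact Or.inr ⟨hω1, h7⟩
    · left
      refine ⟨hω1, ?_⟩
      rw [not_le] at h7
      have h8 := (abs_lt.1 h7).1
      have h9 := h3 ω ⟨hω1, hω2⟩
      show r ≤ X ω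
      linarith
  have h7 : ENNReal.ofReal (c * b) ≤ P (E ∩ {ω | r ≤ X ω}) + ENNReal.ofReal (2 * (c / 8 * b)) :=
    h2.trans ((measure_mono h6).trans ((measure_union_le _ _).trans (add_le_add le_rfl h5)))
  have h8 : ENNReal.ofReal (3 * c / 4 * b) + ENNReal.ofReal (2 * (c / 8 * b)) = ENNReal.ofReal (c * b) := by
    rw [← ENNReal.ofReal_add (by positivity) (by positivity)]
    congr 1
    ring
  rw [← h8] at h7
  exact (ENNReal.add_le_add_iff_right ENNReal.ofReal_ne_top).1 h7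

lemma QW22a_sum {n : ℕ} (hn : 8 ≤ n) {F : ℕ → ℝ} {b : ℝ} (hb : 0 ≤ b) (h0 : ∀ i < n, 0 ≤ F i)
    (h1 : ∀ i : ℕ, i < n → (n : ℝ) / 4 ≤ i → (i : ℝ) ≤ 3 * n / 4 → b ≤ F i) :
    (n : ℝ) / 4 * b ≤ ∑ i ∈ Finset.range n, F i := by
  set q := n / 4 with hq
  have hq1 : 4 * q ≤ n := by omega
  have hq2 : n < 4 * q + 4 := by omega
  have hq3 : 2 ≤ q := by omega
  have r1 : (4 : ℝ) * q ≤ n := by exact_mod_cast hq1
  have r2 : (n : ℝ) < 4 * q + 4 := by exact_mod_cast hq2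
  have r3 : (2 : ℝ) ≤ q := by exact_mod_cast hq3
  have hsub : Finset.Ico (q + 1) (2 * q + 2) ⊆ Finset.range n := by
    intro i hi
    rw [Finset.mem_Ico] at hi
    rw [Finset.mem_range]
    omega
  calc (n : ℝ) / 4 * b ≤ (q + 1) * b := mul_le_mul_of_nonneg_right (by linarith) hb
    _ = ∑ i ∈ Finset.Ico (q + 1) (2 * q + 2), b := by
        rw [Finset.sum_const, Nat.card_Ico, nsmul_eq_mul]
        congr 1
        rw [show 2 * q + 2 - (q + 1) = q + 1 by omega]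
        push_cast
        ring
    _ ≤ ∑ i ∈ Finset.Ico (q + 1) (2 * q + 2), F i := by
        refine Finset.sum_le_sum fun i hi => ?_
        rw [Finset.mem_Ico] at hi
        have r4 : ((q : ℝ) + 1) ≤ i := by exact_mod_cast hi.1
        have r5 : (i : ℝ) ≤ 2 * q + 1 := by exact_mod_cast Nat.le_of_lt_succ hi.2
        exact h1 i (by omega) (by linarith) (by linarith)
    _ ≤ ∑ i ∈ Finset.range n, F i :=
        Finset.sum_le_sum_of_subset_of_nonneg hsub fun i hi _ => h0 i (Finset.mem_range.1 hi)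

/-- lower bounds for the functionals on the event of `path` -/
lemma QW22a_YS {n : ℕ} (hn : 8 ≤ n) {y η : ℝ} (hy : 0 < y) (hη : 0 < η) (hηy : η ≤ y) (ha : 0 < a n)
    {ω : ℕ → ℝ × ℝ} (hω : ∀ j : ℕ, (n : ℝ) / 4 ≤ j → (j : ℝ) ≤ 3 * n / 4 →
        (y - 2 * (y / 4)) * a n ≤ Zw j ω ∧ Zw j ω ≤ (y + 2 * (y / 4)) * a n) :
    1 / (24 * y) ≤ YS a (fun _ => 1) (fun x => 1 / max x η) n ω ∧
    1 / (24 * y) ≤ YS a (fun t => 1 - t) (fun x => 1 / max x η) n ω := by
  have hn0 : (0 : ℝ) < n := by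
    have : 0 < n := by omega
    exact_mod_cast this
  have hm : ∀ x : ℝ, 0 < max x η := fun x => lt_of_lt_of_le hη (le_max_right _ _)
  have hφ : ∀ i : ℕ, (n : ℝ) / 4 ≤ i → (i : ℝ) ≤ 3 * n / 4 → 2 / (3 * y) ≤ 1 / max (Zw i ω / a n) η := by
    intro i h1 h2
    rw [div_le_div_iff₀ (by positivity) (hm _)]
    have h3 : Zw i ω / a n ≤ 3 * y / 2 := by
      rw [div_le_iff₀ ha]
      have := (hω i h1 h2).2
      linarith
    have h4 : max (Zw i ω / a n) η ≤ 3 * y / 2 := max_le h3 (by linarith)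
    linarith
  constructor
  · unfold YS
    rw [le_div_iff₀ hn0]
    have h1 := QW22a_sum hn (F := fun i => 1 * (1 / max (Zw i ω / a n) η)) (b := 2 / (3 * y)) (by positivity)
      (fun i _ => by
        have := hm (Zw i ω / a n)
        positivity)
      (fun i _ h1 h2 => by
        rw [one_mul]
        exact hφ i h1 h2)
    refine le_trans ?_ h1
    have e : (n : ℝ) / 4 * (2 / (3 * y)) = 4 * (1 / (24 * y) * n) := by
      field_simp
      norm_num
    rw [e]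
    have : 0 ≤ 1 / (24 * y) * n := by positivity
    linarith
  · unfold YS
    rw [le_div_iff₀ hn0]
    have h1 := QW22a_sum hn (F := fun i => (1 - (i : ℝ) / n) * (1 / max (Zw i ω / a n) η))
      (b := 1 / 4 * (2 / (3 * y))) (by positivity)
      (fun i hi => by
        have h2 := hm (Zw i ω / a n)
        have h3 : (i : ℝ) / n ≤ 1 := by
          rw [div_le_one hn0]
          exact_mod_cast hi.le
        exact mul_nonneg (by linarith) (by positivity))
      (fun i _ h1 h2 => by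
        have h3 : (i : ℝ) / n ≤ 3 / 4 := by
          rw [div_le_iff₀ hn0]
          linarith
        exact mul_le_mul (by linarith) (hφ i h1 h2) (by positivity) (by linarith))
    refine le_trans ?_ h1
    have e : (n : ℝ) / 4 * (1 / 4 * (2 / (3 * y))) = 1 / (24 * y) * n := by
      field_simp
      norm_num
    rw [e]

lemma QW22a_measYS (c : ℝ → ℝ) (η : ℝ) (n : ℕ) : Measurable (YS a c (fun x => 1 / max x η) n) := by
  unfold YS
  refine Measurable.div_const (Finset.measurable_sum _ fun i _ => ?_) _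
  have h1 : Measurable fun x : ℝ => 1 / max x η := measurable_const.div (measurable_id.max measurable_const)
  exact (h1.comp ((measurable_Zw i).div_const _)).const_mul _

/-- PROOF. On the event of `path` (`y`, `ε = y/4`): all `Z_j/a n ≤ 3y/2` for `n/4 ≤ j ≤ 3n/4`; there are at least `n/2 - 2 ≥ n/4` such `j < n`, so for `η ≤ y`:
`YS 1 (1/max · η) ≥ (1/4) (1/(3y/2)) = 1/(6y)` and `YS (1-t) (…) ≥ (1/4)(1/4)/(3y/2) = 1/(24 y)` (`c(i/n) = 1 - i/n ≥ 1/4`; all terms with `i < n` are `≥ 0`). Given `r`, choose `y` with `1/(24 y) ≥ r + 1`; `c` from `path`; `HT_approx` with `τ = c/8`,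
`η = min η₀ y`: by Markov's inequality `P(N = n, 1/2 ≤ min 1 |X - YS|) ≤ 2 τ bb n = c/4 · bb n`, so `P(N = n, X ≥ r) ≥ (c - c/4) bb n` for both functionals `X`. Divide by `P(N = n) ≤ C bb n` (`EvN_le`). -/
theorem HT_large (h : QS D μ ν a L V V' p K x₀) (hp : QP D μ ν a) (r : ℝ) : ∃ c > (0 : ℝ),
    ∀ᶠ n in lQ D μ ν,
      c ≤ (cond (PQ μ ν) (EvN D n)).real {ω | r ≤ a n / n * HB D n ω} ∧
      c ≤ (cond (PQ μ ν) (EvN D n)).real {ω | r ≤ a n / n ^ 2 * TB D n ω} := by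
  have hpμ := h.qi.probμ
  have hpν := h.qi.probν
  have hP : IsProbabilityMeasure (PQ μ ν) := by
    unfold PQ seqLaw
    infer_instance
  set y : ℝ := 1 / (24 * (|r| + 1)) with hy
  have hr0 : 0 < |r| + 1 := by positivity
  have hy0 : 0 < y := by positivity
  have hy1 : 1 / (24 * y) = |r| + 1 := by
    rw [hy]
    field_simp
  obtain ⟨c, hc, hpath⟩ := QP.path h hp (y := y) (ε := y / 4) (by positivity) (by linarith)
  obtain ⟨C, hC, hle⟩ := h.EvN_le
  obtain ⟨η₀, hη₀, happ⟩ := h.HT_approx (c / 8) (by positivity)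
  set η : ℝ := min η₀ y with hη
  have hη0 : 0 < η := lt_min hη₀ hy0
  obtain ⟨n₀, hn₀⟩ := happ η hη0 (min_le_left _ _)
  refine ⟨3 * c / 4 / C, by positivity, ?_⟩
  filter_upwards [hpath, (eventually_ge_atTop (max n₀ 8)).filter_mono inf_le_left] with n h1 h2
  have hn0 : n₀ ≤ n := (le_max_left _ _).trans h2
  have hn8 : 8 ≤ n := (le_max_right _ _).trans h2
  have hn1 : 1 ≤ n := by omega
  have han : 0 < a n := by linarith [h.a_ge n hn1, h.x_ge]
  have hY : ∀ ω ∈ EvN D n ∩ {ω | ∀ j : ℕ, (n : ℝ) / 4 ≤ j → (j : ℝ) ≤ 3 * n / 4 →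
        (y - 2 * (y / 4)) * a n ≤ Zw j ω ∧ Zw j ω ≤ (y + 2 * (y / 4)) * a n},
      r + 1 ≤ YS a (fun _ => 1) (fun x => 1 / max x η) n ω ∧
      r + 1 ≤ YS a (fun t => 1 - t) (fun x => 1 / max x η) n ω := by
    rintro ω ⟨_, hω⟩
    obtain ⟨h3, h4⟩ := QW22a_YS (a := a) hn8 hy0 hη0 (min_le_right _ _) han hω
    rw [hy1] at h3 h4
    have := le_abs_self r
    exact ⟨by linarith, by linarith⟩
  have hE := measurableSet_EvN h.dom n
  obtain ⟨hB1, hB2⟩ := measurable_HB h.dom n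
  have hX1 : Measurable fun ω : ℕ → ℝ × ℝ => a n / n * (HB D n ω : ℝ) :=
    ((measurable_from_nat (f := fun k : ℕ => (k : ℝ))).comp hB1).const_mul _
  have hX2 : Measurable fun ω : ℕ → ℝ × ℝ => a n / n ^ 2 * (TB D n ω : ℝ) :=
    ((measurable_from_nat (f := fun k : ℕ => (k : ℝ))).comp hB2).const_mul _
  obtain ⟨h5, h6⟩ := hn₀ n hn0
  exact ⟨QW22a_key hE hX1 (QW22a_measYS _ η n) hc hC (h.bb_pos n hn1) (hle n hn1) h1
      (fun ω hω => (hY ω hω).1) h5,
    QW22a_key hE hX2 (QW22a_measYS _ η n) hc hC (h.bb_pos n hn1) (hle n hn1) h1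
      (fun ω hω => (hY ω hω).2) h6⟩

/-- PROOF. `path` with `y = 2 (|r| + 1)`, `ε = y/4`: on the event `MZ n ≥ Z_j ≥ (y/2) a n ≥ r a n` for a `j ∈ [n/4, 3n/4]` (`n ≥ 2`; `MZ_facts`). Divide by `P(N = n) ≤ C bb n` (`EvN_le`). -/
theorem MZ_large (h : QS D μ ν a L V V' p K x₀) (hp : QP D μ ν a) (r : ℝ) : ∃ c > (0 : ℝ),
    ∀ᶠ n in lQ D μ ν, c ≤ (cond (PQ μ ν) (EvN D n)).real {ω | r ≤ MZ n ω / a n} := by
  have hpμ := h.qi.probμ
  have hpν := h.qi.probν
  have hP : IsProbabilityMeasure (PQ μ ν) := by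
    unfold PQ seqLaw
    infer_instance
  set y : ℝ := 2 * (|r| + 1) with hy
  have hr0 : 0 < |r| + 1 := by positivity
  have hy0 : 0 < y := by positivity
  obtain ⟨c, hc, hpath⟩ := QP.path h hp (y := y) (ε := y / 4) (by positivity) (by linarith)
  obtain ⟨C, hC, hle⟩ := h.EvN_le
  refine ⟨c / C, by positivity, ?_⟩
  filter_upwards [hpath, (eventually_ge_atTop 8).filter_mono inf_le_left] with n h1 hn8
  have hn1 : 1 ≤ n := by omega
  have han : 0 < a n := by linarith [h.a_ge n hn1, h.x_ge]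
  refine QW22a_cond (measurableSet_EvN h.dom n) hc hC (h.bb_pos n hn1) (hle n hn1)
    (h1.trans (measure_mono ?_))
  rintro ω ⟨hω1, hω2⟩
  refine ⟨hω1, ?_⟩
  have r1 : (4 : ℝ) * (n / 4 : ℕ) ≤ n := by
    have : 4 * (n / 4) ≤ n := by omega
    exact_mod_cast this
  have r2 : (n : ℝ) < 4 * (n / 4 : ℕ) + 4 := by
    have : n < 4 * (n / 4) + 4 := by omega
    exact_mod_cast this
  have r3 : (8 : ℝ) ≤ n := by exact_mod_cast hn8
  have h3 := (hω2 (n / 4 + 1) (by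
    push_cast
    linarith) (by
    push_cast
    linarith)).1
  have h4 := (MZ_facts h.dom hn1 hω1).1 (n / 4 + 1) (by omega)
  show r ≤ MZ n ω / a n
  rw [le_div_iff₀ han]
  have h5 : r * a n ≤ (y - 2 * (y / 4)) * a n := by
    refine mul_le_mul_of_nonneg_right ?_ han.le
    have := le_abs_self r
    rw [hy]
    linarith
  linarith

end Pool.Agent.BPT
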