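import Pool.Agent.MP_99a865_pr.ST.QW10
import Pool.Agent.MP_99a865_pr.ST.QW16
import Pool.Agent.MP_99a865_pr.ST.QW21
import Pool.Agent.MP_99a865_pr.ST.QW22a

/-! **[STB-QW22b]** The limit laws are unbounded. -/

open MeasureTheory ProbabilityTheory Filter Topology
open scoped ENNReal NNReal

namespace Pool.Agent.BPT

variable {D : Set ℝ} {μ ν : Measure ℝ} {a : ℕ → ℝ} {L V V' : ℝ → ℝ} {p K x₀ : ℝ}

/-- PROOF. Suppose `W = δ_x`. Let `r = x + 2`, `f t = max 0 (min 1 (t - x - 1))` (bounded, continuous, `f = 1` for `t ≥ r`, `f = 0` for `t ≤ x + 1`). Then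
`∫ f ∂W = f x = 0`, but `∫ f(X_n) ≥ P(X_n ≥ r) ≥ c > 0` eventually. -/
theorem nondeg_of_large {l : Filter ℕ} (hl : l.NeBot) {Ω : Type} [MeasurableSpace Ω] {P : ℕ → Measure Ω}
    {X : ℕ → Ω → ℝ} (hX : ∀ n, Measurable (X n)) (hP : ∀ᶠ n in l, IsProbabilityMeasure (P n)) {W : Measure ℝ}
    (hW : ∀ f : BoundedContinuousFunction ℝ ℝ,
      Tendsto (fun n => ∫ ω, f (X n ω) ∂(P n)) l (𝓝 (∫ x, f x ∂W)))
    (hr : ∀ r : ℝ, ∃ c > (0 : ℝ), ∀ᶠ n in l, c ≤ (P n).real {ω | r ≤ X n ω}) (x : ℝ) :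
    W ≠ Measure.dirac x := by
  intro hWx
  let f : BoundedContinuousFunction ℝ ℝ := BoundedContinuousFunction.ofNormedAddCommGroup
    (fun t => max 0 (min 1 (t - x - 1))) (by fun_prop) 1 (fun t => by
      rw [Real.norm_eq_abs, abs_of_nonneg (le_max_left _ _)]
      exact max_le zero_le_one (min_le_left _ _))
  have hf : ∀ t, f t = max 0 (min 1 (t - x - 1)) := fun t => rfl
  have h1 := hW f
  have h2 : ∫ t, f t ∂W = 0 := by
    rw [hWx, integral_dirac, hf]
    have h3 : min (1 : ℝ) (x - x - 1) ≤ 0 := (min_le_right _ _).trans (by linarith)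
    exact max_eq_left h3
  rw [h2] at h1
  obtain ⟨c, hc, hev⟩ := hr (x + 2)
  have h4 : ∀ᶠ n in l, c ≤ ∫ ω, f (X n ω) ∂(P n) := by
    filter_upwards [hP, hev] with n hn hcn
    refine hcn.trans ?_
    have hms : MeasurableSet {ω | x + 2 ≤ X n ω} := measurableSet_le measurable_const (hX n)
    have h5 : (P n).real {ω | x + 2 ≤ X n ω} = ∫ ω, ({ω | x + 2 ≤ X n ω}.indicator (fun _ => (1 : ℝ))) ω ∂(P n) := by
      rw [integral_indicator_const _ hms, smul_eq_mul, mul_one]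
    rw [h5]
    refine integral_mono ((integrable_const (1 : ℝ)).indicator hms) ?_ ?_
    · refine Integrable.of_bound ((f.continuous.measurable.comp (hX n)).aestronglyMeasurable) 1 ?_
      refine Eventually.of_forall fun ω => ?_
      show ‖f (X n ω)‖ ≤ 1
      rw [hf, Real.norm_eq_abs, abs_of_nonneg (le_max_left _ _)]
      exact max_le zero_le_one (min_le_left _ _)
    · intro ω
      show ({ω | x + 2 ≤ X n ω}.indicator (fun _ => (1 : ℝ))) ω ≤ f (X n ω)
      rw [hf]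
      by_cases hω : x + 2 ≤ X n ω
      · rw [Set.indicator_of_mem (show ω ∈ {ω | x + 2 ≤ X n ω} from hω)]
        exact le_max_of_le_right (le_min le_rfl (by linarith))
      · rw [Set.indicator_of_notMem (show ω ∉ {ω | x + 2 ≤ X n ω} from hω)]
        exact le_max_left _ _
  have := hl
  have h6 := ge_of_tendsto h1 h4
  exact absurd h6 (not_le.2 hc)

end Pool.Agent.BPT
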