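import Pool.Agent.MP_99a865_pr.ST.QW1
import Pool.Agent.MP_99a865_pr.ST.QW3a

/-! **[STB-QW3b]** Boundaries at levels in `(y/2, y]`, first half of the time interval. -/

open MeasureTheory ProbabilityTheory Filter Topology
open scoped ENNReal NNReal

namespace Pool.Agent.BPT

variable {D : Set ℝ} {μ ν : Measure ℝ} {a : ℕ → ℝ} {L V V' : ℝ → ℝ} {p K x₀ : ℝ}

/-- mass of the killed walk at the levels `≤ Y` (unit windows) -/
theorem QW3b_kap (h : QS D μ ν a L V V' p K x₀) {n k : ℕ} (hn : 1 ≤ n) (h1 : n ≤ 4 * k)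
    (h2 : k ≤ 2 * n) {Y : ℝ} (hY : 0 ≤ Y) :
    kap D (stepLaw μ ν 1) k 0 (Set.Iic Y) ≤
      ENNReal.ofReal ((Y + 1) * (K * V' (Y + x₀) / (n * a n))) := by
  have hD := h.dom
  have hp1 := h.qi.probμ
  have hp2 := h.qi.probν
  have hpr : IsProbabilityMeasure (stepLaw μ ν 1) := prob_stepLaw 1
  have hK := h.K_ge
  have hx := h.x_ge
  have hn0 : (0 : ℝ) < n := by exact_mod_cast hn
  have ha : 0 < a n := by linarith [h.a_ge n hn]
  have hc : 0 ≤ K * V' (Y + x₀) / (n * a n) := by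
    have := h.V'_one (Y + x₀)
    positivity
  have hneg : kap D (stepLaw μ ν 1) k 0 (Set.Iio 0) = 0 := by
    refine measure_mono_null ?_ (kap_compl hD k 0 (Or.inl (by omega)))
    intro z hz hzD
    rcases hD with rfl | rfl
    · exact absurd (Set.mem_Iio.mp hz) (not_lt.mpr (Set.mem_Ici.mp hzD))
    · exact absurd (Set.mem_Iio.mp hz) (not_lt.mpr (le_of_lt (Set.mem_Ioi.mp hzD)))
  have hcov : Set.Iic Y ⊆ Set.Iio 0 ∪ ⋃ j ∈ Finset.range (⌊Y⌋₊ + 1), Set.Ico (j : ℝ) (j + 1) := by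
    intro z hz
    rcases lt_or_ge z 0 with hz0 | hz0
    · exact Or.inl hz0
    · right
      simp only [Set.mem_iUnion]
      refine ⟨⌊z⌋₊, ?_, Nat.floor_le hz0, Nat.lt_floor_add_one z⟩
      rw [Finset.mem_range]
      exact Nat.lt_succ_of_le (Nat.floor_le_floor hz)
  have hwin : ∀ j ∈ Finset.range (⌊Y⌋₊ + 1), kap D (stepLaw μ ν 1) k 0 (Set.Ico (j : ℝ) (j + 1)) ≤
      ENNReal.ofReal (K * V' (Y + x₀) / (n * a n)) := by
    intro j hj
    rw [Finset.mem_range] at hj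
    have hjY : (j : ℝ) ≤ Y := by
      have h3 : j ≤ ⌊Y⌋₊ := by omega
      exact (Nat.cast_le.2 h3).trans (Nat.floor_le hY)
    have h3 := h.kap_loc n k hn h1 h2 (j : ℝ) (Nat.cast_nonneg j)
    rw [← ofReal_measureReal]
    refine ENNReal.ofReal_le_ofReal (h3.trans ?_)
    have h4 : V' (j + x₀) ≤ V' (Y + x₀) := h.V'_mono (by linarith)
    gcongr
  calc kap D (stepLaw μ ν 1) k 0 (Set.Iic Y)
      ≤ kap D (stepLaw μ ν 1) k 0 (Set.Iio 0 ∪
          ⋃ j ∈ Finset.range (⌊Y⌋₊ + 1), Set.Ico (j : ℝ) (j + 1)) := measure_mono hcov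
    _ ≤ kap D (stepLaw μ ν 1) k 0 (Set.Iio 0) + kap D (stepLaw μ ν 1) k 0
          (⋃ j ∈ Finset.range (⌊Y⌋₊ + 1), Set.Ico (j : ℝ) (j + 1)) := measure_union_le _ _
    _ ≤ 0 + ∑ j ∈ Finset.range (⌊Y⌋₊ + 1), kap D (stepLaw μ ν 1) k 0 (Set.Ico (j : ℝ) (j + 1)) := by
        rw [hneg]
        exact add_le_add le_rfl (measure_biUnion_finset_le _ _)
    _ ≤ 0 + ∑ j ∈ Finset.range (⌊Y⌋₊ + 1), ENNReal.ofReal (K * V' (Y + x₀) / (n * a n)) :=
        add_le_add le_rfl (Finset.sum_le_sum hwin)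
    _ = ENNReal.ofReal ((⌊Y⌋₊ + 1 : ℕ) * (K * V' (Y + x₀) / (n * a n))) := by
        rw [zero_add, Finset.sum_const, Finset.card_range, nsmul_eq_mul,
          ENNReal.ofReal_mul (Nat.cast_nonneg _), ENNReal.ofReal_natCast]
    _ ≤ ENNReal.ofReal ((Y + 1) * (K * V' (Y + x₀) / (n * a n))) := by
        refine ENNReal.ofReal_le_ofReal (mul_le_mul_of_nonneg_right ?_ hc)
        push_cast
        linarith [Nat.floor_le hY]

/-- `P(AliveQ k, Zw k ≤ Y)` -/
theorem QW3b_one (hD : Dom D) [IsProbabilityMeasure μ] [IsProbabilityMeasure ν] (k : ℕ) (Y : ℝ) :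
    PQ μ ν {ω | AliveQ D k ω ∧ Zw k ω ≤ Y} = kap D (stepLaw μ ν 1) k 0 (Set.Iic Y) := by
  have h1 := Q2_one (μ := μ) (ν := ν) hD 0 k (Nat.zero_le k) (fun _ => 1) measurable_const
    (fun _ _ _ => rfl) Y
  have h2 : {ω : ℕ → ℝ × ℝ | AliveQ D 0 ω} = Set.univ := by
    ext ω
    simp only [Set.mem_univ, iff_true]
    intro j h3 h4
    omega
  have h3 : ∀ ω : ℕ → ℝ × ℝ, Zw 0 ω = 0 := by
    intro ω
    simp [Zw, Dp, Ar]
  simp only [h2, h3, Measure.restrict_univ, one_mul, Nat.sub_zero, lintegral_const, measure_univ,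
    mul_one, Measure.restrict_apply_univ] at h1
  exact h1

/-- Time spent at bounded levels. PROOF. First half (`2i ≤ n`): `q_exit` (`r = i`), `hit_V` and `∑_i P(AliveQ i, Zw i ≤ x) ≤ GG x`
(`time_zero`; we may assume `x ≥ x₀`: `green`): `≤ C_x bb n`. Second half (`n < 2i`, `m = n - i ≥ 1`): `hit m x' ≤ K V x/(m V (a m))` for
`0 ≤ x' ≤ x` (`hit_V` with `n = m`), `kap D ρ i 0 (Iic x)` is carried by `[0,x]`, at most `(x+2) K V' (x+1+x₀)/(n a n)` by `kap_loc` (unit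
windows); sum over `m` by `sumV`: `≤ C_x/(n a n) ≤ C_x' bb n` since `V (a n) ≤ C a n` (`V_lin`). -/
theorem QS.low_time (h : QS D μ ν a L V V' p K x₀) (x : ℝ) : ∃ C > (0 : ℝ), ∀ n : ℕ, 1 ≤ n →
    ∑ i ∈ Finset.range n, PQ μ ν (EvN D n ∩ {ω | Zw i ω ≤ x}) ≤ ENNReal.ofReal (C * bb V a n) := by
  have hD := h.dom
  have hp1 := h.qi.probμ
  have hp2 := h.qi.probν
  have hK := h.K_ge
  have hx0 := h.x_ge
  obtain ⟨CV, hCV, hlin⟩ := h.V_lin
  obtain ⟨CS, hCS, hsum⟩ := h.sumV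
  obtain ⟨X, hX⟩ : ∃ X : ℝ, X = max x x₀ := ⟨_, rfl⟩
  have hxX : x ≤ X := by rw [hX]; exact le_max_left _ _
  have hx0X : x₀ ≤ X := by rw [hX]; exact le_max_right _ _
  have hX0 : 0 ≤ X := by linarith
  have hVX : 1 ≤ V X := h.V_one X
  have hV'X : 1 ≤ V' X := h.V'_one X
  have hV'X2 : 1 ≤ V' (X + x₀) := h.V'_one _
  obtain ⟨c₁, hc₁⟩ : ∃ c₁ : ℝ, c₁ = K * V X * (K * V' X) := ⟨_, rfl⟩
  obtain ⟨c₂, hc₂⟩ : ∃ c₂ : ℝ, c₂ = K * V X * CS * ((X + 1) * (K * V' (X + x₀))) * CV := ⟨_, rfl⟩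
  have hc₁0 : 0 < c₁ := by rw [hc₁]; positivity
  have hc₂0 : 0 < c₂ := by rw [hc₂]; positivity
  refine ⟨c₁ + c₂, by positivity, ?_⟩
  intro n hn
  have hn0 : (0 : ℝ) < n := by exact_mod_cast hn
  have ha : 0 < a n := by linarith [h.a_ge n hn]
  have hVa : 0 < V (a n) := lt_of_lt_of_le one_pos (h.V_one _)
  have hbb : 0 < bb V a n := by unfold bb; positivity
  -- the terms
  have hAm : ∀ i, MeasurableSet {ω : ℕ → ℝ × ℝ | Zw i ω ≤ X} := fun i =>
    (measurable_Zw i) measurableSet_Iic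
  have hmono : ∀ i, PQ μ ν (EvN D n ∩ {ω | Zw i ω ≤ x}) ≤ PQ μ ν (EvN D n ∩ {ω | Zw i ω ≤ X}) := by
    intro i
    exact measure_mono (Set.inter_subset_inter_right _ fun ω (hω : Zw i ω ≤ x) => hω.trans hxX)
  have hterm : ∀ (i : ℕ) (c : ℝ), i < n → (∀ z : ℝ, 0 ≤ z → z ≤ X →
      hit D (stepLaw μ ν 1) (n - i) z ≤ c) →
      PQ μ ν (EvN D n ∩ {ω | Zw i ω ≤ X}) ≤
        ENNReal.ofReal c * PQ μ ν {ω | AliveQ D i ω ∧ Zw i ω ≤ X} := by
    intro i c hi hc
    exact QW3a_term (μ := μ) (ν := ν) hD {ω | Zw i ω ≤ X} (hAm i) (fun ω ω' hω => by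
      show Zw i ω ≤ X ↔ Zw i ω' ≤ X
      rw [Q1_Zw_congr i hω]) hi c (fun ω hω hal => hc _ (Zw_nonneg hD hal) hω)
  have hfirst : ∀ i ∈ (Finset.range n).filter (fun i => 2 * i ≤ n),
      PQ μ ν (EvN D n ∩ {ω | Zw i ω ≤ X}) ≤
        ENNReal.ofReal (K * V X * bb V a n) * PQ μ ν {ω | AliveQ D i ω ∧ Zw i ω ≤ X} := by
    intro i hi
    rw [Finset.mem_filter, Finset.mem_range] at hi
    refine hterm i _ hi.1 fun z hz hzX => ?_
    refine (h.hit_V n (n - i) z (by omega) (by omega) (by omega) hz).trans ?_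
    have h3 : V z ≤ V X := h.V_mono hzX
    unfold bb
    rw [mul_one_div]
    gcongr
  have hsecond : ∀ i ∈ (Finset.range n).filter (fun i => ¬ 2 * i ≤ n),
      PQ μ ν (EvN D n ∩ {ω | Zw i ω ≤ X}) ≤
        ENNReal.ofReal (K * V X * (1 / (((n - 1 - i + 1 : ℕ) : ℝ) * V (a (n - 1 - i + 1)))) *
          ((X + 1) * (K * V' (X + x₀) / (n * a n)))) := by
    intro i hi
    rw [Finset.mem_filter, Finset.mem_range] at hi
    have hni : n - 1 - i + 1 = n - i := by omega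
    rw [hni]
    have hm1 : 1 ≤ n - i := by omega
    have hm0 : (0 : ℝ) < ((n - i : ℕ) : ℝ) := by exact_mod_cast hm1
    have hVm : 0 < V (a (n - i)) := lt_of_lt_of_le one_pos (h.V_one _)
    have h1 := hterm i (K * V X * (1 / (((n - i : ℕ) : ℝ) * V (a (n - i))))) hi.1 (fun z hz hzX => by
      refine (h.hit_V (n - i) (n - i) z hm1 le_rfl (by omega) hz).trans ?_
      have h3 : V z ≤ V X := h.V_mono hzX
      rw [mul_one_div]
      gcongr)
    rw [QW3b_one hD i X] at h1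
    have h2 := QW3b_kap h hn (k := i) (by omega) (by omega) hX0
    rw [ENNReal.ofReal_mul (by positivity)]
    exact h1.trans (mul_le_mul_right h2 _)
  have hA : ∑ i ∈ (Finset.range n).filter (fun i => 2 * i ≤ n), PQ μ ν (EvN D n ∩ {ω | Zw i ω ≤ X}) ≤
      ENNReal.ofReal (c₁ * bb V a n) := by
    calc ∑ i ∈ (Finset.range n).filter (fun i => 2 * i ≤ n), PQ μ ν (EvN D n ∩ {ω | Zw i ω ≤ X})
        ≤ ∑ i ∈ (Finset.range n).filter (fun i => 2 * i ≤ n),
          ENNReal.ofReal (K * V X * bb V a n) * PQ μ ν {ω | AliveQ D i ω ∧ Zw i ω ≤ X} :=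
          Finset.sum_le_sum hfirst
      _ = ENNReal.ofReal (K * V X * bb V a n) * ∑ i ∈ (Finset.range n).filter (fun i => 2 * i ≤ n),
          PQ μ ν {ω | AliveQ D i ω ∧ Zw i ω ≤ X} := by rw [Finset.mul_sum]
      _ ≤ ENNReal.ofReal (K * V X * bb V a n) * ENNReal.ofReal (K * V' X) := by
          refine mul_le_mul_right ((ENNReal.sum_le_tsum _).trans ?_) _
          rw [time_zero hD X]
          exact h.green X hx0X
      _ = ENNReal.ofReal (c₁ * bb V a n) := by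
          rw [← ENNReal.ofReal_mul (by positivity), hc₁]
          congr 1
          ring
  have hB : ∑ i ∈ (Finset.range n).filter (fun i => ¬ 2 * i ≤ n), PQ μ ν (EvN D n ∩ {ω | Zw i ω ≤ X}) ≤
      ENNReal.ofReal (c₂ * bb V a n) := by
    have hnn : ∀ i : ℕ, 0 ≤ K * V X * (1 / (((n - 1 - i + 1 : ℕ) : ℝ) * V (a (n - 1 - i + 1)))) *
          ((X + 1) * (K * V' (X + x₀) / (n * a n))) := by
      intro i
      have hVm : 0 < V (a (n - 1 - i + 1)) := lt_of_lt_of_le one_pos (h.V_one _)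
      positivity
    calc ∑ i ∈ (Finset.range n).filter (fun i => ¬ 2 * i ≤ n), PQ μ ν (EvN D n ∩ {ω | Zw i ω ≤ X})
        ≤ ∑ i ∈ (Finset.range n).filter (fun i => ¬ 2 * i ≤ n),
          ENNReal.ofReal (K * V X * (1 / (((n - 1 - i + 1 : ℕ) : ℝ) * V (a (n - 1 - i + 1)))) *
          ((X + 1) * (K * V' (X + x₀) / (n * a n)))) := Finset.sum_le_sum hsecond
      _ ≤ ∑ i ∈ Finset.range n,
          ENNReal.ofReal (K * V X * (1 / (((n - 1 - i + 1 : ℕ) : ℝ) * V (a (n - 1 - i + 1)))) *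
          ((X + 1) * (K * V' (X + x₀) / (n * a n)))) :=
          Finset.sum_le_sum_of_subset (Finset.filter_subset _ _)
      _ = ENNReal.ofReal (∑ i ∈ Finset.range n,
          K * V X * (1 / (((n - 1 - i + 1 : ℕ) : ℝ) * V (a (n - 1 - i + 1)))) *
          ((X + 1) * (K * V' (X + x₀) / (n * a n)))) := by
          rw [ENNReal.ofReal_sum_of_nonneg fun i _ => hnn i]
      _ ≤ ENNReal.ofReal (c₂ * bb V a n) := by
          refine ENNReal.ofReal_le_ofReal ?_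
          rw [← Finset.sum_mul, ← Finset.mul_sum,
            Finset.sum_range_reflect (fun j => 1 / (((j + 1 : ℕ) : ℝ) * V (a (j + 1)))) n]
          have h5 := hsum n
          have h6 : 1 / (n * a n) ≤ CV * bb V a n := by
            unfold bb
            rw [mul_one_div, div_le_div_iff₀ (by positivity) (by positivity)]
            nlinarith [(hlin n hn).1]
          calc K * V X * (∑ j ∈ Finset.range n, 1 / (((j + 1 : ℕ) : ℝ) * V (a (j + 1)))) *
                ((X + 1) * (K * V' (X + x₀) / (n * a n)))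
              ≤ K * V X * CS * ((X + 1) * (K * V' (X + x₀) / (n * a n))) := by
                gcongr
            _ = K * V X * CS * ((X + 1) * (K * V' (X + x₀))) * (1 / (n * a n)) := by ring
            _ ≤ K * V X * CS * ((X + 1) * (K * V' (X + x₀))) * (CV * bb V a n) := by
                gcongr
            _ = c₂ * bb V a n := by rw [hc₂]; ring
  calc ∑ i ∈ Finset.range n, PQ μ ν (EvN D n ∩ {ω | Zw i ω ≤ x})
      ≤ ∑ i ∈ Finset.range n, PQ μ ν (EvN D n ∩ {ω | Zw i ω ≤ X}) := Finset.sum_le_sum fun i _ => hmono i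
    _ = ∑ i ∈ (Finset.range n).filter (fun i => 2 * i ≤ n), PQ μ ν (EvN D n ∩ {ω | Zw i ω ≤ X}) +
        ∑ i ∈ (Finset.range n).filter (fun i => ¬ 2 * i ≤ n), PQ μ ν (EvN D n ∩ {ω | Zw i ω ≤ X}) :=
        (Finset.sum_filter_add_sum_filter_not _ _ _).symm
    _ ≤ ENNReal.ofReal (c₁ * bb V a n) + ENNReal.ofReal (c₂ * bb V a n) := add_le_add hA hB
    _ = ENNReal.ofReal ((c₁ + c₂) * bb V a n) := by
        rw [← ENNReal.ofReal_add (by positivity) (by positivity), add_mul]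

end Pool.Agent.BPT
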