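import Pool.Agent.MP_99a865_pr.ST.QW2

/-! **[STB-QW4a]** Boundaries at levels in `(y/2, y]`, second half of the time interval. -/

open MeasureTheory ProbabilityTheory Filter Topology
open scoped ENNReal NNReal

namespace Pool.Agent.BPT

variable {D : Set ℝ} {μ ν : Measure ℝ} {a : ℕ → ℝ} {L V V' : ℝ → ℝ} {p K x₀ : ℝ}

/-- mass of the killed walk at the levels `≤ Y` (unit windows) -/
theorem QW4a_kap (h : QS D μ ν a L V V' p K x₀) {n k : ℕ} (hn : 1 ≤ n) (h1 : n ≤ 4 * k)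
    (h2 : k ≤ 2 * n) {Y : ℝ} (hY : 0 ≤ Y) :
    kap D (stepLaw μ ν 1) k 0 (Set.Iic Y) ≤
      ENNReal.ofReal ((Y + 1) * (K * V' (Y + x₀) / (n * a n))) := by
  have hD := h.dom
  have hp1 := h.qi.probμ
  have hp2 := h.qi.probν
  have hpr : IsProbabilityMeasure (stepLaw μ ν 1) := prob_stepLaw 1
  have hK := h.K_ge
  have hx := h.x_ge
  have hn0 : (0 : ℝ) < n := by exact_mod_cast hn
  have ha : 0 < a n := by linarith [h.a_ge n hn]
  have hc : 0 ≤ K * V' (Y + x₀) / (n * a n) := by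
    have := h.V'_one (Y + x₀)
    positivity
  have hneg : kap D (stepLaw μ ν 1) k 0 (Set.Iio 0) = 0 := by
    refine measure_mono_null ?_ (kap_compl hD k 0 (Or.inl (by omega)))
    intro z hz hzD
    rcases hD with rfl | rfl
    · exact absurd (Set.mem_Iio.mp hz) (not_lt.mpr (Set.mem_Ici.mp hzD))
    · exact absurd (Set.mem_Iio.mp hz) (not_lt.mpr (le_of_lt (Set.mem_Ioi.mp hzD)))
  have hcov : Set.Iic Y ⊆ Set.Iio 0 ∪ ⋃ j ∈ Finset.range (⌊Y⌋₊ + 1), Set.Ico (j : ℝ) (j + 1) := by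
    intro z hz
    rcases lt_or_ge z 0 with hz0 | hz0
    · exact Or.inl hz0
    · right
      simp only [Set.mem_iUnion]
      refine ⟨⌊z⌋₊, ?_, Nat.floor_le hz0, Nat.lt_floor_add_one z⟩
      rw [Finset.mem_range]
      exact Nat.lt_succ_of_le (Nat.floor_le_floor hz)
  have hwin : ∀ j ∈ Finset.range (⌊Y⌋₊ + 1), kap D (stepLaw μ ν 1) k 0 (Set.Ico (j : ℝ) (j + 1)) ≤
      ENNReal.ofReal (K * V' (Y + x₀) / (n * a n)) := by
    intro j hj
    rw [Finset.mem_range] at hj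
    have hjY : (j : ℝ) ≤ Y := by
      have h3 : j ≤ ⌊Y⌋₊ := by omega
      exact (Nat.cast_le.2 h3).trans (Nat.floor_le hY)
    have h3 := h.kap_loc n k hn h1 h2 (j : ℝ) (Nat.cast_nonneg j)
    rw [← ofReal_measureReal]
    refine ENNReal.ofReal_le_ofReal (h3.trans ?_)
    have h4 : V' (j + x₀) ≤ V' (Y + x₀) := h.V'_mono (by linarith)
    gcongr
  calc kap D (stepLaw μ ν 1) k 0 (Set.Iic Y)
      ≤ kap D (stepLaw μ ν 1) k 0 (Set.Iio 0 ∪
          ⋃ j ∈ Finset.range (⌊Y⌋₊ + 1), Set.Ico (j : ℝ) (j + 1)) := measure_mono hcov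
    _ ≤ kap D (stepLaw μ ν 1) k 0 (Set.Iio 0) + kap D (stepLaw μ ν 1) k 0
          (⋃ j ∈ Finset.range (⌊Y⌋₊ + 1), Set.Ico (j : ℝ) (j + 1)) := measure_union_le _ _
    _ ≤ 0 + ∑ j ∈ Finset.range (⌊Y⌋₊ + 1), kap D (stepLaw μ ν 1) k 0 (Set.Ico (j : ℝ) (j + 1)) := by
        rw [hneg]
        exact add_le_add le_rfl (measure_biUnion_finset_le _ _)
    _ ≤ 0 + ∑ j ∈ Finset.range (⌊Y⌋₊ + 1), ENNReal.ofReal (K * V' (Y + x₀) / (n * a n)) :=
        add_le_add le_rfl (Finset.sum_le_sum hwin)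
    _ = ENNReal.ofReal ((⌊Y⌋₊ + 1 : ℕ) * (K * V' (Y + x₀) / (n * a n))) := by
        rw [zero_add, Finset.sum_const, Finset.card_range, nsmul_eq_mul,
          ENNReal.ofReal_mul (Nat.cast_nonneg _), ENNReal.ofReal_natCast]
    _ ≤ ENNReal.ofReal ((Y + 1) * (K * V' (Y + x₀) / (n * a n))) := by
        refine ENNReal.ofReal_le_ofReal (mul_le_mul_of_nonneg_right ?_ hc)
        push_cast
        linarith [Nat.floor_le hY]

/-- Mass of the killed walk in `[0, 2y]`. PROOF. `kap D ρ k 0 (Iic (2y))` is carried by `[0,2y]` (for `k ≥ 1` the position is in `D`);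
at most `2y + 2` unit windows `[j, j+1)`, `kap_loc` and `V' (j + x₀) ≤ V' (2y + 1 + x₀) ≤ V' (4y) ≤ 4 K V' y`. -/
theorem QS.kap_low (h : QS D μ ν a L V V' p K x₀) : ∃ C > (0 : ℝ), ∀ n k : ℕ, 1 ≤ n → n ≤ 4 * k →
    k ≤ 2 * n → ∀ y : ℝ, x₀ ≤ y →
    kap D (stepLaw μ ν 1) k 0 (Set.Iic (2 * y)) ≤ ENNReal.ofReal (C * (y * V' y / (n * a n))) := by
  have hK := h.K_ge
  have hx := h.x_ge
  refine ⟨12 * K ^ 2, by positivity, ?_⟩
  intro n k hn h1 h2 y hy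
  have hn0 : (0 : ℝ) < n := by exact_mod_cast hn
  have ha : 0 < a n := by linarith [h.a_ge n hn]
  have hV' : 1 ≤ V' y := h.V'_one y
  refine (QW4a_kap h hn h1 h2 (Y := 2 * y) (by linarith)).trans (ENNReal.ofReal_le_ofReal ?_)
  have h3 : V' (2 * y + x₀) ≤ K * 4 * V' y :=
    (h.V'_mono (by linarith)).trans (h.V'_le y 4 hy (by norm_num))
  have h4 : 2 * y + 1 ≤ 3 * y := by linarith
  have h5 : 0 ≤ V' (2 * y + x₀) := by linarith [h.V'_one (2 * y + x₀)]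
  have h6 : 0 ≤ 3 * y := by linarith
  calc (2 * y + 1) * (K * V' (2 * y + x₀) / (n * a n))
      ≤ (3 * y) * (K * (K * 4 * V' y) / (n * a n)) := by gcongr
    _ = 12 * K ^ 2 * (y * V' y / (n * a n)) := by ring

end Pool.Agent.BPT
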