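import Pool.Agent.MP_99a865_pr.ST.QW2
import Pool.Agent.MP_99a865_pr.ST.QW4a

/-! **[STB-QW4b]** Boundaries at levels in `(y/2, y]`, second half of the time interval. -/

open MeasureTheory ProbabilityTheory Filter Topology
open scoped ENNReal NNReal

namespace Pool.Agent.BPT

variable {D : Set ℝ} {μ ν : Measure ℝ} {a : ℕ → ℝ} {L V V' : ℝ → ℝ} {p K x₀ : ℝ}

private theorem QW4b_ind {E : Type} {A : Set E} {x x' : E} (h : x ∈ A ↔ x' ∈ A) :
    A.indicator (1 : E → ℝ≥0∞) x = A.indicator 1 x' := by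
  classical
  by_cases hx : x ∈ A
  · rw [Set.indicator_of_mem hx, Set.indicator_of_mem (h.1 hx)]
    rfl
  · rw [Set.indicator_of_notMem hx, Set.indicator_of_notMem fun hx' => hx (h.2 hx')]

/-- disjoint windows, with weights -/
private theorem QW4b_count (S T : Finset ℕ) (w : ℕ) (F : ℕ → ℝ≥0∞) (hF : Monotone F)
    (hST : ∀ b ∈ S, ∀ i < w, b + i ∈ T) (hS : ∀ b ∈ S, ∀ b' ∈ S, b < b' → b + w < b') :
    (w : ℝ≥0∞) * ∑ b ∈ S, F b ≤ ∑ k ∈ T, F k := by
  classical
  have h1 : (w : ℝ≥0∞) * ∑ b ∈ S, F b = ∑ q ∈ S ×ˢ Finset.range w, F q.1 := by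
    rw [Finset.sum_product, Finset.mul_sum]
    refine Finset.sum_congr rfl fun b _ => ?_
    show (w : ℝ≥0∞) * F b = ∑ _i ∈ Finset.range w, F b
    rw [Finset.sum_const, Finset.card_range, nsmul_eq_mul]
  have h2 : ∑ q ∈ S ×ˢ Finset.range w, F q.1 ≤ ∑ q ∈ S ×ˢ Finset.range w, F (q.1 + q.2) :=
    Finset.sum_le_sum fun q _ => hF (Nat.le_add_right _ _)
  have h3 : ∑ q ∈ S ×ˢ Finset.range w, F (q.1 + q.2) =
      ∑ k ∈ (S ×ˢ Finset.range w).image (fun q => q.1 + q.2), F k := by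
    rw [Finset.sum_image]
    rintro ⟨b, i⟩ hq ⟨b', i'⟩ hq' he
    rw [Finset.mem_coe, Finset.mem_product] at hq hq'
    have hi := Finset.mem_range.1 hq.2
    have hi' := Finset.mem_range.1 hq'.2
    simp only at he hi hi'
    rcases lt_trichotomy b b' with h4 | h4 | h4
    · have := hS b hq.1 b' hq'.1 h4
      omega
    · subst h4
      have : i = i' := by omega
      rw [this]
    · have := hS b' hq'.1 b hq.1 h4
      omega
  rw [h1]
  refine h2.trans (h3.le.trans (Finset.sum_le_sum_of_subset ?_))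
  intro k hk
  rw [Finset.mem_image] at hk
  obtain ⟨q, hq, rfl⟩ := hk
  rw [Finset.mem_product] at hq
  exact hST q.1 hq.1 q.2 (Finset.mem_range.1 hq.2)

/-- the mass of the killed walk, as a probability for the queue -/
private theorem QW4b_kap (hD : Dom D) [IsProbabilityMeasure μ] [IsProbabilityMeasure ν] (k : ℕ) (y : ℝ) :
    PQ μ ν {ω | AliveQ D k ω ∧ Zw k ω ≤ y} = kap D (stepLaw μ ν 1) k 0 (Set.Iic y) := by
  have h1 := Q2_one (μ := μ) (ν := ν) hD 0 k (Nat.zero_le k) (fun _ => 1) measurable_const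
    (fun _ _ _ => rfl) y
  have h2 : {ω : ℕ → ℝ × ℝ | AliveQ D 0 ω} = Set.univ := by
    ext ω
    simp only [Set.mem_univ, iff_true]
    intro j h3 h4
    omega
  have h3 : ∀ ω : ℕ → ℝ × ℝ, Zw 0 ω = 0 := by
    intro ω
    simp [Zw, Dp, Ar]
  simp only [h2, h3, Measure.restrict_univ, one_mul, Nat.sub_zero, lintegral_const, measure_univ,
    mul_one, Measure.restrict_apply_univ] at h1
  exact h1

/-- PROOF. Let `w = ⌊y/16⌋₊ ≥ 1` (so `y/32 ≤ w ≤ n`), `g` from `major` (`z = y`), `A_b = {Bd b, AliveQ b, y/2 < Zw b ≤ y}`,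
`G_b = {wsum b w < y/4}`. By `q_exit` (`r = b`), `P(EvN n ∩ A_b) ≤ g (n-b) P(A_b)`, and `P(A_b) ≤ 2 P(A_b ∩ G_b)` (`good_half`, `4w ≤ y/4`).
On `A_b ∩ G_b` (and `NN`), by `good_det`: for `b ≤ k < b + w`, `AliveQ k` and `Zw k ≤ 2y`, and no other boundary in `(b, b+w]`. As `g` is
nonincreasing, `g (n-b) ≤ g (n-k)` for `b ≤ k` (natural subtraction). So pointwise
`w ∑_b g (n-b) 1_{A_b ∩ G_b} ≤ ∑_k g (n-k) 1{AliveQ k, Zw k ≤ 2y} #{b ∈ (k-w, k] : A_b ∩ G_b}` and the last number is at most one; here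
`n/2 < k < n + w ≤ 2n`. Integrate: `P(AliveQ k, Zw k ≤ 2y) = kap k 0 (Iic 2y) ≤ C y V' y/(n a n)` (`kap_low`; the identity as in
`time_zero`/`Q2_one`). Finally `∑_{n/2 < k < n+w} g (n-k) ≤ ∑_{m ≥ 1} g m + w g 0 ≤ C + (y/16) C L y ≤ C'` (`yL`). Total:
`≤ 2 (32/y) · C y V' y/(n a n) · C'`. -/
theorem QS.second_half (h : QS D μ ν a L V V' p K x₀) : ∃ C > (0 : ℝ), ∀ n : ℕ, 1 ≤ n → ∀ y : ℝ,
    2 * x₀ ≤ y → y ≤ 16 * n → ∑ b ∈ (Finset.range n).filter (fun b => n < 2 * b),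
      PQ μ ν (EvN D n ∩ {ω | Bd D ω b ∧ y / 2 < Zw b ω ∧ Zw b ω ≤ y}) ≤
        ENNReal.ofReal (C * (V' y / (n * a n))) := by
  classical
  obtain ⟨Cg, hCg, hmaj⟩ := h.major
  obtain ⟨C₁, hC₁, hlow⟩ := h.kap_low
  obtain ⟨Cy, hCy, hyL⟩ := h.yL
  have hprob := h.qi.probμ
  have hprob' := h.qi.probν
  have hD := h.dom
  have hx := h.x_ge
  have hK := h.K_ge
  refine ⟨64 * C₁ * (Cg + Cg * Cy), by positivity, fun n hn y hy hyn => ?_⟩
  have hyx : x₀ ≤ y := by linarith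
  have hy0 : 0 < y := by linarith
  have hn0 : (0 : ℝ) < n := by exact_mod_cast hn
  have han := h.a_ge n hn
  have han0 : 0 < a n := by linarith
  have hV' := h.V'_one y
  obtain ⟨g, hganti, hgnn, hgL, hghit, hgsum⟩ := hmaj y hy
  set w : ℕ := ⌊y / 16⌋₊ with hw
  have hw1 : 1 ≤ w := by
    rw [hw, Nat.one_le_floor_iff, le_div_iff₀ (by norm_num)]
    linarith
  have hw2 : (w : ℝ) ≤ y / 16 := Nat.floor_le (by positivity)
  have hw3 : y / 32 ≤ w := by
    have h1 := Nat.lt_floor_add_one (y / 16)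
    rw [← hw] at h1
    have h2 : (1 : ℝ) ≤ w := by exact_mod_cast hw1
    linarith
  have hwpos : (0 : ℝ) < w := by exact_mod_cast hw1
  have hwn : w ≤ n := by
    have : (w : ℝ) ≤ n := by linarith
    exact_mod_cast this
  set A : ℕ → Set (ℕ → ℝ × ℝ) := fun b =>
    {ω | Bd D ω b ∧ AliveQ D b ω ∧ y / 2 < Zw b ω ∧ Zw b ω ≤ y} with hA
  set B : ℕ → Set (ℕ → ℝ × ℝ) := fun b =>
    {ω | Bd D ω b ∧ y / 2 < Zw b ω ∧ Zw b ω ≤ y} with hB
  set C : ℕ → Set (ℕ → ℝ × ℝ) := fun k => {ω | AliveQ D k ω ∧ Zw k ω ≤ 2 * y} with hC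
  set G : ℕ → Set (ℕ → ℝ × ℝ) := fun b => {ω | wsum b w ω < y / 4} with hGdef
  set F : ℕ → ℝ≥0∞ := fun k => ENNReal.ofReal (g (n - k)) with hF
  have hFmono : Monotone F := by
    intro k k' hkk
    exact ENNReal.ofReal_le_ofReal (hganti (by omega))
  have hBm : ∀ b, MeasurableSet (B b) := by
    intro b
    have e : B b = {ω | Bd D ω b} ∩ ({ω | y / 2 < Zw b ω} ∩ {ω | Zw b ω ≤ y}) := by
      ext ω
      simp [hB]
    rw [e]
    exact (measurableSet_Bd hD b).inter ((measurableSet_lt measurable_const (measurable_Zw b)).inter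
        (measurableSet_le (measurable_Zw b) measurable_const))
  have hAB : ∀ b, A b = B b ∩ {ω | AliveQ D b ω} := by
    intro b
    ext ω
    simp only [hA, hB, Set.mem_inter_iff, Set.mem_ofPred_eq]
    tauto
  have hAm : ∀ b, MeasurableSet (A b) := by
    intro b
    rw [hAB]
    exact (hBm b).inter (measurableSet_aliveQ hD b)
  have hCm : ∀ k, MeasurableSet (C k) := by
    intro k
    have e : C k = {ω | AliveQ D k ω} ∩ {ω | Zw k ω ≤ 2 * y} := by
      ext ω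
      simp [hC]
    rw [e]
    exact (measurableSet_aliveQ hD k).inter (measurableSet_le (measurable_Zw k) measurable_const)
  have hGm : ∀ b, MeasurableSet (G b) := fun b =>
    measurableSet_lt (Q3_wsum_meas b w) measurable_const
  have hBd' : ∀ b, ∀ ω ω' : ℕ → ℝ × ℝ, (∀ j < b, ω j = ω' j) → (ω ∈ B b ↔ ω' ∈ B b) := by
    intro b ω ω' hω
    simp only [hB, Set.mem_ofPred_eq]
    rw [Bd_dep b ω ω' hω, Q1_Zw_congr b hω]
  have hAd' : ∀ b, ∀ ω ω' : ℕ → ℝ × ℝ, (∀ j < b, ω j = ω' j) → (ω ∈ A b ↔ ω' ∈ A b) := by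
    intro b ω ω' hω
    rw [hAB]
    exact and_congr (hBd' b ω ω' hω) (Q1_alive_congr b hω)
  set Sb : Finset ℕ := (Finset.range n).filter (fun b => n < 2 * b) with hSb
  set Tk : Finset ℕ := (Finset.range (n + w)).filter (fun k => n < 2 * k) with hTk
  clear_value Sb Tk
  -- step 1: exit
  have step1 : ∀ b ∈ Sb, PQ μ ν (EvN D n ∩ B b) ≤ F b * PQ μ ν (A b) := by
    intro b hb
    have hbn : b < n := by
      rw [hSb] at hb
      exact Finset.mem_range.1 (Finset.mem_filter.1 hb).1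
    have h1 := q_exit (μ := μ) (ν := ν) hD b n hbn ((B b).indicator 1)
      (measurable_one.indicator (hBm b)) (fun ω ω' hω => QW4b_ind (hBd' b ω ω' hω))
    rw [lintegral_indicator_one (hBm b), Measure.restrict_apply (hBm b)] at h1
    rw [Set.inter_comm, h1]
    calc ∫⁻ ω in {ω | AliveQ D b ω}, (B b).indicator (1 : (ℕ → ℝ × ℝ) → ℝ≥0∞) ω *
          ENNReal.ofReal (hit D (stepLaw μ ν 1) (n - b) (Zw b ω)) ∂(PQ μ ν) ≤
          ∫⁻ ω in {ω | AliveQ D b ω}, (B b).indicator (1 : (ℕ → ℝ × ℝ) → ℝ≥0∞) ω * F b ∂(PQ μ ν) := by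
            refine lintegral_mono fun ω => ?_
            by_cases hω : ω ∈ B b
            · apply mul_le_mul' le_rfl
              apply ENNReal.ofReal_le_ofReal
              exact hghit (n - b) (Zw b ω) (by omega) hω.2.1.le hω.2.2
            · show (B b).indicator (1 : (ℕ → ℝ × ℝ) → ℝ≥0∞) ω * _ ≤
                (B b).indicator (1 : (ℕ → ℝ × ℝ) → ℝ≥0∞) ω * _
              rw [Set.indicator_of_notMem hω, zero_mul, zero_mul]
      _ = (∫⁻ ω in {ω | AliveQ D b ω}, (B b).indicator (1 : (ℕ → ℝ × ℝ) → ℝ≥0∞) ω ∂(PQ μ ν)) * F b :=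
            lintegral_mul_const _ (measurable_one.indicator (hBm b))
      _ = F b * PQ μ ν (A b) := by
            rw [lintegral_indicator_one (hBm b), Measure.restrict_apply (hBm b), hAB, mul_comm]
  -- step 2: good windows
  have step2 : ∀ b, PQ μ ν (A b) ≤ 2 * PQ μ ν (A b ∩ G b) := by
    intro b
    have h1 := good_half h.qi b w (y / 4) (by linarith) (by linarith) ((A b).indicator 1)
      (measurable_one.indicator (hAm b)) (fun ω ω' hω => QW4b_ind (hAd' b ω ω' hω))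
    rw [lintegral_indicator_one (hAm b), lintegral_indicator_one (hAm b),
      Measure.restrict_apply (hAm b)] at h1
    exact h1
  -- step 3: pointwise
  have hpt : ∀ᵐ ω ∂(PQ μ ν), (w : ℝ≥0∞) * ∑ b ∈ Sb, F b * (A b ∩ G b).indicator 1 ω ≤
      ∑ k ∈ Tk, F k * (C k).indicator 1 ω := by
    filter_upwards [ae_NN h.qi] with ω hnn
    have h1 := QW4b_count (Sb.filter fun b => ω ∈ A b ∩ G b) (Tk.filter fun k => ω ∈ C k) w F hFmono
      (by
        intro b hb i hi
        rw [Finset.mem_filter] at hb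
        obtain ⟨hbS, ⟨hb2, hb3, hb4, hb5⟩, hb6⟩ := hb
        have h2 := (good_det hD hnn b w y hb2 hb3 hb4 hb5 hb6).1 (b + i) (by omega) (by omega)
        rw [hSb, Finset.mem_filter, Finset.mem_range] at hbS
        rw [Finset.mem_filter, hTk, Finset.mem_filter, Finset.mem_range]
        exact ⟨⟨by omega, by omega⟩, h2.1, h2.2⟩)
      (by
        intro b hb b' hb' hlt
        rw [Finset.mem_filter] at hb hb'
        obtain ⟨-, ⟨hb2, hb3, hb4, hb5⟩, hb6⟩ := hb
        obtain ⟨-, ⟨hb2', -, -, -⟩, -⟩ := hb'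
        by_contra hcon
        push Not at hcon
        exact (good_det hD hnn b w y hb2 hb3 hb4 hb5 hb6).2 b' hlt hcon hb2')
    have h2 : ∑ b ∈ Sb, F b * (A b ∩ G b).indicator (1 : (ℕ → ℝ × ℝ) → ℝ≥0∞) ω =
        ∑ b ∈ Sb.filter (fun b => ω ∈ A b ∩ G b), F b := by
      rw [Finset.sum_filter]
      refine Finset.sum_congr rfl fun b _ => ?_
      by_cases h3 : ω ∈ A b ∩ G b
      · rw [Set.indicator_of_mem h3, if_pos h3]
        simp
      · rw [Set.indicator_of_notMem h3, if_neg h3, mul_zero]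
    have h3 : ∑ k ∈ Tk, F k * (C k).indicator (1 : (ℕ → ℝ × ℝ) → ℝ≥0∞) ω =
        ∑ k ∈ Tk.filter (fun k => ω ∈ C k), F k := by
      rw [Finset.sum_filter]
      refine Finset.sum_congr rfl fun k _ => ?_
      by_cases h3 : ω ∈ C k
      · rw [Set.indicator_of_mem h3, if_pos h3]
        simp
      · rw [Set.indicator_of_notMem h3, if_neg h3, mul_zero]
    rw [h2, h3]
    exact h1
  -- step 4: integrate
  have hint : (w : ℝ≥0∞) * ∑ b ∈ Sb, F b * PQ μ ν (A b ∩ G b) ≤ ∑ k ∈ Tk, F k * PQ μ ν (C k) := by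
    have hmA : ∀ b, Measurable fun ω => F b * (A b ∩ G b).indicator (1 : (ℕ → ℝ × ℝ) → ℝ≥0∞) ω :=
      fun b => (measurable_one.indicator ((hAm b).inter (hGm b))).const_mul _
    have hmC : ∀ k, Measurable fun ω => F k * (C k).indicator (1 : (ℕ → ℝ × ℝ) → ℝ≥0∞) ω :=
      fun k => (measurable_one.indicator (hCm k)).const_mul _
    have h1 := lintegral_mono_ae hpt
    rw [lintegral_const_mul _ (Finset.measurable_sum _ fun b _ => hmA b),
      lintegral_finsetSum _ fun b _ => hmA b, lintegral_finsetSum _ fun k _ => hmC k] at h1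
    have h2 : ∀ b, ∫⁻ ω, F b * (A b ∩ G b).indicator (1 : (ℕ → ℝ × ℝ) → ℝ≥0∞) ω ∂(PQ μ ν) =
        F b * PQ μ ν (A b ∩ G b) := by
      intro b
      rw [lintegral_const_mul _ (measurable_one.indicator ((hAm b).inter (hGm b))),
        lintegral_indicator_one ((hAm b).inter (hGm b))]
    have h3 : ∀ k, ∫⁻ ω, F k * (C k).indicator (1 : (ℕ → ℝ × ℝ) → ℝ≥0∞) ω ∂(PQ μ ν) =
        F k * PQ μ ν (C k) := by
      intro k
      rw [lintegral_const_mul _ (measurable_one.indicator (hCm k)), lintegral_indicator_one (hCm k)]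
    simp only [h2, h3] at h1
    exact h1
  -- step 5: masses of the `C k`
  have step5 : ∑ k ∈ Tk, F k * PQ μ ν (C k) ≤
      ENNReal.ofReal ((Cg + Cg * Cy) * (C₁ * (y * V' y / (n * a n)))) := by
    have h1 : ∀ k ∈ Tk, F k * PQ μ ν (C k) ≤ F k * ENNReal.ofReal (C₁ * (y * V' y / (n * a n))) := by
      intro k hk
      rw [hTk, Finset.mem_filter, Finset.mem_range] at hk
      apply mul_le_mul' le_rfl
      show PQ μ ν {ω | AliveQ D k ω ∧ Zw k ω ≤ 2 * y} ≤ _
      rw [QW4b_kap hD]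
      exact hlow n k hn (by omega) (by omega) y hyx
    refine (Finset.sum_le_sum h1).trans ?_
    rw [← Finset.sum_mul, ENNReal.ofReal_mul (p := Cg + Cg * Cy) (by positivity)]
    apply mul_le_mul' _ le_rfl
    have h2 : ∑ k ∈ Tk, F k ≤ ∑ k ∈ Finset.range (n + w), F k := by
      rw [hTk]
      exact Finset.sum_le_sum_of_subset (Finset.filter_subset _ _)
    refine h2.trans ?_
    have h3 : ∑ k ∈ Finset.range (n + w), F k = ENNReal.ofReal (∑ k ∈ Finset.range (n + w), g (n - k)) := by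
      rw [ENNReal.ofReal_sum_of_nonneg fun k _ => hgnn _]
    rw [h3]
    apply ENNReal.ofReal_le_ofReal
    rw [Finset.sum_range_add]
    have h4 : ∑ k ∈ Finset.range n, g (n - k) = ∑ m ∈ Finset.range n, g (m + 1) := by
      rw [← Finset.sum_range_reflect (fun m => g (m + 1)) n]
      refine Finset.sum_congr rfl fun k hk => ?_
      have := Finset.mem_range.1 hk
      congr 1
      omega
    have h5 : ∑ k ∈ Finset.range w, g (n - (n + k)) = w * g 0 := by
      have h6 : ∀ k ∈ Finset.range w, g (n - (n + k)) = g 0 := by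
        intro k _
        congr 1
        omega
      rw [Finset.sum_congr rfl h6, Finset.sum_const, Finset.card_range, nsmul_eq_mul]
    rw [h4, h5]
    have h6 := hgsum n
    have h7 : w * g 0 ≤ Cg * Cy := by
      have hL := h.L_pos y hyx
      calc (w : ℝ) * g 0 ≤ (y / 16) * (Cg * L y) := mul_le_mul hw2 (hgL 0) (hgnn 0) (by positivity)
        _ = Cg * (y * L y) / 16 := by ring
        _ ≤ Cg * Cy / 16 := by
            apply div_le_div_of_nonneg_right _ (by norm_num)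
            exact mul_le_mul_of_nonneg_left (hyL y hyx) hCg.le
        _ ≤ Cg * Cy := by
            have : 0 ≤ Cg * Cy := by positivity
            linarith
    linarith
  -- conclusion
  have hw0 : (w : ℝ≥0∞) ≠ 0 := by
    rw [Ne, Nat.cast_eq_zero]
    omega
  have hwt : (w : ℝ≥0∞) ≠ ⊤ := ENNReal.natCast_ne_top w
  have hfin : ∑ b ∈ Sb, F b * PQ μ ν (A b ∩ G b) ≤
      (w : ℝ≥0∞)⁻¹ * ∑ k ∈ Tk, F k * PQ μ ν (C k) := by
    rw [← ENNReal.div_eq_inv_mul, ENNReal.le_div_iff_mul_le (Or.inl hw0) (Or.inl hwt), mul_comm]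
    exact hint
  have hconst : 2 * (w : ℝ≥0∞)⁻¹ ≤ ENNReal.ofReal (64 / y) := by
    rw [show (2 : ℝ≥0∞) = ENNReal.ofReal 2 by simp, ← ENNReal.ofReal_natCast w,
      ← ENNReal.ofReal_inv_of_pos hwpos, ← ENNReal.ofReal_mul (by norm_num)]
    apply ENNReal.ofReal_le_ofReal
    rw [← div_eq_mul_inv, div_le_div_iff₀ hwpos hy0]
    linarith
  calc ∑ b ∈ Sb, PQ μ ν (EvN D n ∩ B b)
      ≤ ∑ b ∈ Sb, F b * PQ μ ν (A b) := Finset.sum_le_sum step1
    _ ≤ ∑ b ∈ Sb, 2 * (F b * PQ μ ν (A b ∩ G b)) := by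
        refine Finset.sum_le_sum fun b _ => ?_
        calc F b * PQ μ ν (A b) ≤ F b * (2 * PQ μ ν (A b ∩ G b)) := mul_le_mul' le_rfl (step2 b)
          _ = 2 * (F b * PQ μ ν (A b ∩ G b)) := by ring
    _ = 2 * ∑ b ∈ Sb, F b * PQ μ ν (A b ∩ G b) := by rw [Finset.mul_sum]
    _ ≤ 2 * ((w : ℝ≥0∞)⁻¹ * ∑ k ∈ Tk, F k * PQ μ ν (C k)) := mul_le_mul' le_rfl hfin
    _ = (2 * (w : ℝ≥0∞)⁻¹) * ∑ k ∈ Tk, F k * PQ μ ν (C k) := by rw [mul_assoc]
    _ ≤ ENNReal.ofReal (64 / y) * ENNReal.ofReal ((Cg + Cg * Cy) * (C₁ * (y * V' y / (n * a n)))) :=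
        mul_le_mul' hconst step5
    _ = ENNReal.ofReal (64 * C₁ * (Cg + Cg * Cy) * (V' y / (n * a n))) := by
        rw [← ENNReal.ofReal_mul (by positivity)]
        congr 1
        field_simp

end Pool.Agent.BPT
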