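import Pool.Agent.MP_99a865_pr.ST.QW3
import Pool.Agent.MP_99a865_pr.ST.QW4

/-! **[STB-QW5]** Boundaries at low levels are few. -/

open MeasureTheory ProbabilityTheory Filter Topology
open scoped ENNReal NNReal

namespace Pool.Agent.BPT

variable {D : Set ℝ} {μ ν : Measure ℝ} {a : ℕ → ℝ} {L V V' : ℝ → ℝ} {p K x₀ : ℝ}

theorem QW5_cLo (D : Set ℝ) (n : ℕ) (y : ℝ) (ω : ℕ → ℝ × ℝ) : (cLo D n y ω : ℝ≥0∞) =
    ∑ b ∈ Finset.range n, {ω : ℕ → ℝ × ℝ | Bd D ω b ∧ Zw b ω ≤ y}.indicator (fun _ => (1 : ℝ≥0∞)) ω := by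
  classical
  unfold cLo
  rw [Finset.card_filter, Nat.cast_sum]
  refine Finset.sum_congr rfl fun b _ => ?_
  by_cases h : Bd D ω b ∧ Zw b ω ≤ y
  · rw [Set.indicator_of_mem (show ω ∈ {ω : ℕ → ℝ × ℝ | Bd D ω b ∧ Zw b ω ≤ y} from h), if_pos h,
      Nat.cast_one]
  · rw [Set.indicator_of_notMem (show ω ∉ {ω : ℕ → ℝ × ℝ | Bd D ω b ∧ Zw b ω ≤ y} from h), if_neg h,
      Nat.cast_zero]

theorem QW5_meas (hD : Dom D) (b : ℕ) (y : ℝ) :
    MeasurableSet {ω : ℕ → ℝ × ℝ | Bd D ω b ∧ Zw b ω ≤ y} :=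
  (measurableSet_Bd hD b).inter ((measurable_Zw b) measurableSet_Iic)

theorem measurable_cLo (hD : Dom D) (n : ℕ) (y : ℝ) :
    Measurable fun ω : ℕ → ℝ × ℝ => (cLo D n y ω : ℝ≥0∞) := by
  have h1 : (fun ω : ℕ → ℝ × ℝ => (cLo D n y ω : ℝ≥0∞)) = fun ω => ∑ b ∈ Finset.range n,
      {ω : ℕ → ℝ × ℝ | Bd D ω b ∧ Zw b ω ≤ y}.indicator (fun _ => (1 : ℝ≥0∞)) ω :=
    funext fun ω => QW5_cLo D n y ω
  rw [h1]
  exact Finset.measurable_sum _ fun b _ => measurable_const.indicator (QW5_meas hD b y)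

theorem QW5_int (hD : Dom D) [IsProbabilityMeasure μ] [IsProbabilityMeasure ν] (n : ℕ) (y : ℝ) :
    ∫⁻ ω in EvN D n, (cLo D n y ω : ℝ≥0∞) ∂(PQ μ ν) =
      ∑ b ∈ Finset.range n, PQ μ ν (EvN D n ∩ {ω | Bd D ω b ∧ Zw b ω ≤ y}) := by
  simp only [QW5_cLo]
  rw [lintegral_finsetSum _ fun b _ => measurable_const.indicator (QW5_meas hD b y)]
  refine Finset.sum_congr rfl fun b _ => ?_
  rw [lintegral_indicator_const (QW5_meas hD b y), one_mul, Measure.restrict_apply (QW5_meas hD b y),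
    Set.inter_comm]

/-- PROOF. Let `y_i = y 2^{-i}`, `i < I`, where `I` is the least number with `y 2^{-I} ≤ 4 x₀`. Pointwise
`cLo n y ≤ ∑_{i<I} #{b < n : Bd b, y_i/2 < Zw b ≤ y_i} + #{i < n : Zw i ≤ 4 x₀}` (`y_i ≥ 4 x₀ ≥ 2 x₀` for `i < I`). By `first_half`, `second_half`
(`y ≤ a n ≤ 16 n` for `n ≥ n₀` by `a_small`), the `i`-th term is at most
`C bb n (V y_i V' y_i/y_i + V' y_i V (a n)/a n) ≤ C' bb n (n/a n) (y_i/a n)^{p-1}` (`lev`; `V'/(n a n) = bb n · V' V (a n)/a n`); geometric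
sum with ratio `2^{-(p-1)}`. The last term: `low_time` with `x = 4 x₀`, `≤ C bb n ≤ C' bb n (n/a n)(y/a n)^{p-1}` (third part of `lev`). -/
theorem QS.low (h : QS D μ ν a L V V' p K x₀) : ∃ C > (0 : ℝ), ∃ n₀ : ℕ, ∀ n ≥ n₀, ∀ y : ℝ, x₀ ≤ y →
    y ≤ a n → ∫⁻ ω in EvN D n, (cLo D n y ω : ℝ≥0∞) ∂(PQ μ ν) ≤
      ENNReal.ofReal (C * bb V a n * (n / a n * (y / a n) ^ (p - 1))) := by
  have hD := h.dom
  have hp1 := h.qi.probμ
  have hp2 := h.qi.probν
  have hK := h.K_ge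
  have hx0 := h.x_ge
  have hp := h.p_gt
  obtain ⟨Ca, hCa, hfirst⟩ := h.first_half
  obtain ⟨Cb, hCb, hsecond⟩ := h.second_half
  obtain ⟨Cl, hCl, hlev⟩ := h.lev
  obtain ⟨Ct, hCt, htime⟩ := h.low_time (4 * x₀)
  -- the ratio
  obtain ⟨q, hq⟩ : ∃ q : ℝ, q = (1 / 2 : ℝ) ^ (p - 1) := ⟨_, rfl⟩
  have hq0 : 0 < q := by rw [hq]; exact Real.rpow_pos_of_pos (by norm_num) _
  have hq1 : q < 1 := by
    rw [hq]
    exact Real.rpow_lt_one (by norm_num) (by norm_num) (by linarith)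
  obtain ⟨C₁, hC₁⟩ : ∃ C₁ : ℝ, C₁ = Ca * Cl + Cb * Cl := ⟨_, rfl⟩
  have hC₁0 : 0 < C₁ := by rw [hC₁]; positivity
  obtain ⟨C₂, hC₂⟩ : ∃ C₂ : ℝ, C₂ = C₁ / (1 - q) + Ct * Cl := ⟨_, rfl⟩
  have h1q : 0 < 1 - q := by linarith
  have hC₂0 : 0 < C₂ := by rw [hC₂]; positivity
  have hC₂t : Ct * Cl ≤ C₂ := by
    have : 0 < C₁ / (1 - q) := by positivity
    linarith
  have hC₂s : C₂ * q + C₁ ≤ C₂ := by
    have h1 : C₁ / (1 - q) ≤ C₂ := by
      have : 0 < Ct * Cl := by positivity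
      linarith
    rw [div_le_iff₀ h1q] at h1
    linarith
  -- `a n ≤ n`
  obtain ⟨n₁, hn₁⟩ : ∃ n₁ : ℕ, ∀ n ≥ n₁, a n * (1 + Real.log n) / n < 1 := by
    have h1 := (h.a_small).eventually (gt_mem_nhds (show (0 : ℝ) < 1 by norm_num))
    exact eventually_atTop.1 h1
  refine ⟨C₂, hC₂0, max n₁ 1, ?_⟩
  intro n hn
  have hn1 : 1 ≤ n := (le_max_right _ _).trans hn
  have hn0 : (0 : ℝ) < n := by exact_mod_cast hn1
  have ha16 : 16 ≤ a n := hx0.trans (h.a_ge n hn1)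
  have ha : 0 < a n := by linarith
  have hVa : 0 < V (a n) := lt_of_lt_of_le one_pos (h.V_one _)
  have hbb : 0 < bb V a n := by unfold bb; positivity
  have han : a n ≤ 16 * n := by
    have h1 := hn₁ n ((le_max_left _ _).trans hn)
    rw [div_lt_one hn0] at h1
    have h2 : 0 ≤ Real.log n := Real.log_nonneg (by exact_mod_cast hn1)
    nlinarith
  have hφ : ∀ y : ℝ, 0 < y → 0 < n / a n * (y / a n) ^ (p - 1) := by
    intro y hy
    have : 0 < (y / a n) ^ (p - 1) := Real.rpow_pos_of_pos (by positivity) _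
    positivity
  have hφ2 : ∀ y : ℝ, 0 < y → n / a n * (y / 2 / a n) ^ (p - 1) = q * (n / a n * (y / a n) ^ (p - 1)) := by
    intro y hy
    have e1 : y / 2 / a n = (1 / 2) * (y / a n) := by ring
    rw [e1, Real.mul_rpow (by norm_num) (by positivity), ← hq]
    ring
  -- one dyadic block
  have hT : ∀ y : ℝ, 2 * x₀ ≤ y → y ≤ a n → ∑ b ∈ Finset.range n,
      PQ μ ν (EvN D n ∩ {ω | Bd D ω b ∧ y / 2 < Zw b ω ∧ Zw b ω ≤ y}) ≤
        ENNReal.ofReal (C₁ * bb V a n * (n / a n * (y / a n) ^ (p - 1))) := by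
    intro y hy hya
    have hy0 : 0 < y := by linarith
    obtain ⟨l1, l2, -⟩ := hlev n hn1 y (by linarith) hya
    have f1 := hfirst n hn1 y hy
    have f2 := hsecond n hn1 y hy (hya.trans han)
    have hfil : (Finset.range n).filter (fun b => ¬ 2 * b ≤ n) = (Finset.range n).filter (fun b => n < 2 * b) := by
      refine Finset.filter_congr fun b _ => ?_
      omega
    rw [← Finset.sum_filter_add_sum_filter_not (Finset.range n) (fun b => 2 * b ≤ n), hfil]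
    refine (add_le_add f1 f2).trans ?_
    have hVy : 0 < V y := lt_of_lt_of_le one_pos (h.V_one _)
    have hV'y : 0 < V' y := lt_of_lt_of_le one_pos (h.V'_one _)
    rw [← ENNReal.ofReal_add (by positivity) (by positivity)]
    refine ENNReal.ofReal_le_ofReal ?_
    have e2 : V' y / (n * a n) = bb V a n * (V' y * V (a n) / a n) := by
      unfold bb
      field_simp
    rw [e2, hC₁]
    calc Ca * bb V a n * (V y * V' y / y) + Cb * (bb V a n * (V' y * V (a n) / a n))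
        ≤ Ca * bb V a n * (Cl * (n / a n * (y / a n) ^ (p - 1))) +
          Cb * (bb V a n * (Cl * (n / a n * (y / a n) ^ (p - 1)))) := by
          gcongr
      _ = (Ca * Cl + Cb * Cl) * bb V a n * (n / a n * (y / a n) ^ (p - 1)) := by ring
  -- the induction
  have key : ∀ k : ℕ, ∀ y : ℝ, x₀ ≤ y → y ≤ a n → y ≤ 4 * x₀ * 2 ^ k →
      ∑ b ∈ Finset.range n, PQ μ ν (EvN D n ∩ {ω | Bd D ω b ∧ Zw b ω ≤ y}) ≤
        ENNReal.ofReal (C₂ * bb V a n * (n / a n * (y / a n) ^ (p - 1))) := by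
    intro k
    have base : ∀ y : ℝ, x₀ ≤ y → y ≤ a n → y ≤ 4 * x₀ →
        ∑ b ∈ Finset.range n, PQ μ ν (EvN D n ∩ {ω | Bd D ω b ∧ Zw b ω ≤ y}) ≤
          ENNReal.ofReal (C₂ * bb V a n * (n / a n * (y / a n) ^ (p - 1))) := by
      intro y hy hya hy4
      have h1 : ∑ b ∈ Finset.range n, PQ μ ν (EvN D n ∩ {ω | Bd D ω b ∧ Zw b ω ≤ y}) ≤
          ∑ b ∈ Finset.range n, PQ μ ν (EvN D n ∩ {ω | Zw b ω ≤ 4 * x₀}) := by
        refine Finset.sum_le_sum fun b _ => measure_mono (Set.inter_subset_inter_right _ ?_)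
        rintro ω ⟨-, h2⟩
        exact h2.trans hy4
      refine h1.trans ((htime n hn1).trans (ENNReal.ofReal_le_ofReal ?_))
      obtain ⟨-, -, l3⟩ := hlev n hn1 y hy hya
      calc Ct * bb V a n = Ct * bb V a n * 1 := by ring
        _ ≤ Ct * bb V a n * (Cl * (n / a n * (y / a n) ^ (p - 1))) := by gcongr
        _ = (Ct * Cl) * (bb V a n * (n / a n * (y / a n) ^ (p - 1))) := by ring
        _ ≤ C₂ * (bb V a n * (n / a n * (y / a n) ^ (p - 1))) := by
            have := hφ y (by linarith)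
            gcongr
        _ = C₂ * bb V a n * (n / a n * (y / a n) ^ (p - 1)) := by ring
    induction k with
    | zero =>
      intro y hy hya hyk
      exact base y hy hya (by simpa using hyk)
    | succ k ih =>
      intro y hy hya hyk
      rcases le_or_gt y (4 * x₀) with hy4 | hy4
      · exact base y hy hya hy4
      have hy0 : 0 < y := by linarith
      have i1 := ih (y / 2) (by linarith) (by linarith) (by rw [pow_succ] at hyk; linarith)
      have i2 := hT y (by linarith) hya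
      have h1 : ∑ b ∈ Finset.range n, PQ μ ν (EvN D n ∩ {ω | Bd D ω b ∧ Zw b ω ≤ y}) ≤
          ∑ b ∈ Finset.range n, PQ μ ν (EvN D n ∩ {ω | Bd D ω b ∧ Zw b ω ≤ y / 2}) +
          ∑ b ∈ Finset.range n, PQ μ ν (EvN D n ∩ {ω | Bd D ω b ∧ y / 2 < Zw b ω ∧ Zw b ω ≤ y}) := by
        rw [← Finset.sum_add_distrib]
        refine Finset.sum_le_sum fun b _ => ?_
        refine (measure_mono ?_).trans (measure_union_le _ _)
        rintro ω ⟨h2, h3, h4⟩
        rcases le_or_gt (Zw b ω) (y / 2) with h5 | h5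
        · exact Or.inl ⟨h2, h3, h5⟩
        · exact Or.inr ⟨h2, h3, h5, h4⟩
      refine h1.trans ((add_le_add i1 i2).trans ?_)
      have hφy := hφ y hy0
      have hφy2 := hφ (y / 2) (by linarith)
      rw [← ENNReal.ofReal_add (by positivity) (by positivity)]
      refine ENNReal.ofReal_le_ofReal ?_
      rw [hφ2 y hy0]
      calc C₂ * bb V a n * (q * (n / a n * (y / a n) ^ (p - 1))) +
            C₁ * bb V a n * (n / a n * (y / a n) ^ (p - 1))
          = (C₂ * q + C₁) * (bb V a n * (n / a n * (y / a n) ^ (p - 1))) := by ring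
        _ ≤ C₂ * (bb V a n * (n / a n * (y / a n) ^ (p - 1))) := by gcongr
        _ = C₂ * bb V a n * (n / a n * (y / a n) ^ (p - 1)) := by ring
  intro y hy hya
  rw [QW5_int hD]
  obtain ⟨k, hk⟩ := pow_unbounded_of_one_lt (y / (4 * x₀)) (show (1 : ℝ) < 2 by norm_num)
  refine key k y hy hya ?_
  rw [div_lt_iff₀ (by linarith)] at hk
  linarith

end Pool.Agent.BPT
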