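import Pool.Agent.MP_99a865_pr.ST.QW6a
import Pool.Agent.MP_99a865_pr.ST.QW6b
import Pool.Agent.MP_99a865_pr.ST.QW6c
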