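import Pool.Agent.MP_99a865_pr.ST.QD
import Pool.Agent.MP_99a865_pr.ST.Ctr
import Pool.Agent.MP_99a865_pr.ST.F1c
import Pool.Agent.MP_99a865_pr.ST.AQ

/-! **[STB-QX]** `QS` for the norming sequence of a law in the domain of attraction (helper97: row AQ and `le_hitS`). -/

open MeasureTheory ProbabilityTheory Filter Topology
open scoped ENNReal NNReal

namespace Pool.Agent.BPT

variable {α : ℝ} {ζ μ ν : Measure ℝ} {a : ℕ → ℝ} {D : Set ℝ}

theorem QS_of_DA (hD : Dom D) (hQ : QI μ ν) (h : DA α ζ (stepLaw μ ν 1) a) : ∃ p K x₀ : ℝ,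
    QS D μ ν (fun n => max (a n) x₀) (Lam (stepLaw μ ν 1)) (vr D (stepLaw μ ν 1))
      (vd D (stepLaw μ ν 1)) p K x₀ := by
  obtain ⟨c, hc, n₀, hn₀⟩ := le_hitS h hD
  refine QS_of_ge hD hQ h ⟨c, hc, ?_⟩
  filter_upwards [eventually_ge_atTop n₀] with n hn hne
  exact hn₀ n hn (lt_of_le_of_ne (hit_nonneg _ _) (Ne.symm hne))

end Pool.Agent.BPT
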