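import Pool.Agent.MP_99a865_pr.FV.C1b
import Pool.Agent.MP_99a865_pr.ST.T1

/-! **[STB-T2]** Stone's local limit theorem (non-lattice case). -/

open MeasureTheory ProbabilityTheory Filter Topology
open scoped ENNReal NNReal

namespace Pool.Agent.BPT

variable {α : ℝ} {ζ ρ : Measure ℝ} {a : ℕ → ℝ}

variable {D : Set ℝ}

/-- Fourier representation -/
theorem T2_inv [IsProbabilityMeasure ρ] (T : ℝ) (hT : 0 < T) (k : ℕ) (y : ℝ) :
    ((∫ z, T * (Real.sinc (T * (z - y) / 2)) ^ 2 ∂(fre ρ k 0) : ℝ) : ℂ) =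
      ∫ t in (-T)..T, Complex.exp (-(t * y) * Complex.I) * ((C1_W T t : ℂ) * charFun ρ t ^ k) := by
  have hWc := C1_W_cont T
  rw [← integral_complex_ofReal]
  have h2 : ∀ z : ℝ, ((T * (Real.sinc (T * (z - y) / 2)) ^ 2 : ℝ) : ℂ) =
      ∫ t in (-T)..T, (C1_W T t : ℂ) * Complex.exp (t * (z - y : ℝ) * Complex.I) := by
    intro z
    exact (C1_tri T hT (z - y)).symm
  simp only [h2]
  have hsw : ∫ z, (∫ t in (-T)..T, (C1_W T t : ℂ) * Complex.exp (t * (z - y : ℝ) * Complex.I))
        ∂(fre ρ k 0) =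
      ∫ t in (-T)..T, (∫ z, (C1_W T t : ℂ) * Complex.exp (t * (z - y : ℝ) * Complex.I)
        ∂(fre ρ k 0)) := by
    simp only [intervalIntegral.integral_of_le (show -T ≤ T by linarith)]
    apply integral_integral_swap
    refine Integrable.of_bound (C := 1) ?_ ?_
    · exact (by fun_prop : Continuous (Function.uncurry fun (z t : ℝ) =>
        (C1_W T t : ℂ) * Complex.exp (t * (z - y : ℝ) * Complex.I))).aestronglyMeasurable
    · refine Eventually.of_forall fun p => ?_
      simp only [Function.uncurry]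
      rw [show ((p.2 : ℂ) * ((p.1 - y : ℝ) : ℂ) * Complex.I) =
        ((p.2 * (p.1 - y) : ℝ) : ℂ) * Complex.I by push_cast; ring, norm_mul,
        Complex.norm_exp_ofReal_mul_I, mul_one, Complex.norm_real, Real.norm_eq_abs]
      exact C1_W_le T _ hT
  rw [hsw]
  congr 1
  funext t
  have e1 : ∀ z : ℝ, (C1_W T t : ℂ) * Complex.exp (t * (z - y : ℝ) * Complex.I) =
      ((C1_W T t : ℂ) * Complex.exp (-(t * y) * Complex.I)) * Complex.exp (t * z * Complex.I) := by
    intro z
    rw [mul_assoc (C1_W T t : ℂ) (Complex.exp (-(t * y) * Complex.I)), ← Complex.exp_add]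
    congr 2
    push_cast
    ring
  simp only [e1]
  rw [integral_const_mul, ← charFun_apply_real, charFun_fre]
  simp
  ring

/-- **[STB-T2a]** PROOF. As `fejer_llt` (FV/C1), with `√k` replaced by `a k` and the gaussian by `dens ζ`: `C1_inv` (it needs only that
`ρ` is a probability law: copy it if it is stated for `Std ρ`), substitution `t = s / a k`, and `T1_dct` with `A = T`,
`W = C1_W T`. -/
theorem T2_fejer (h : DA α ζ ρ a) (hnl : ∀ t : ℝ, t ≠ 0 → ‖charFun ρ t‖ < 1) (T : ℝ) (hT : 0 < T) :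
    ∀ ε > (0 : ℝ), ∃ K : ℕ, ∀ k ≥ K, ∀ y : ℝ,
      |a k * C1b_g (fre ρ k 0) T y - dens ζ (y / a k)| ≤ ε := by
  have := h.prob
  have hζp := h.ss.prob
  intro ε hε
  have hπ := Real.pi_pos
  have hWc := C1_W_cont T
  have hdct := T1_dct h hT (fun t ht _ => hnl t ht.ne') (C1_W T) hWc (by simp [C1_W])
    (fun t => C1_W_le T t hT)
  obtain ⟨K, hK⟩ := eventually_atTop.mp
    (hdct.eventually_lt_const (show (0 : ℝ) < ε * (2 * Real.pi) by positivity))
  refine ⟨K, ?_⟩
  intro k hk y
  have hk1 := hK k hk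
  have hrpos : 0 < a k := h.pos k
  set r : ℝ := a k with hr
  set p : ℝ := ∫ z, T * (Real.sinc (T * (z - y) / 2)) ^ 2 ∂(fre ρ k 0) with hp
  have hpp : C1b_g (fre ρ k 0) T y = p / (2 * Real.pi) := by
    rw [hp, ← integral_div]
    unfold C1b_g C1b_K
    congr 1
    funext ω
    ring
  rw [hpp]
  have hinv := T2_inv (ρ := ρ) T hT k y
  rw [← hp] at hinv
  set G : ℝ → ℂ := fun s => (Set.Ioc (-(T * r)) (T * r)).indicator
    (fun s : ℝ => (C1_W T (s / r) : ℂ) * charFun ρ (s / r) ^ k) s with hG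
  have hGint : Integrable G := by
    rw [hG]
    have : IntegrableOn (fun s : ℝ => (C1_W T (s / r) : ℂ) * charFun ρ (s / r) ^ k)
        (Set.Ioc (-(T * r)) (T * r)) := by
      apply Continuous.integrableOn_Ioc
      exact (Complex.continuous_ofReal.comp (hWc.comp (continuous_id.div_const _))).mul
        ((continuous_charFun.comp (continuous_id.div_const _)).pow k)
    exact this.integrable_indicator measurableSet_Ioc
  have hgint : Integrable (charFun ζ) := h.ss.charFun_int h.one
  have hE : ∀ s : ℝ, ‖Complex.exp (-(s * (y / r : ℝ)) * Complex.I)‖ = 1 := by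
    intro s
    rw [show (-((s : ℂ) * ((y / r : ℝ) : ℂ)) * Complex.I) =
      ((-(s * (y / r)) : ℝ) : ℂ) * Complex.I by push_cast; ring, Complex.norm_exp_ofReal_mul_I]
  have hEc : Continuous (fun s : ℝ => Complex.exp (-(s * (y / r : ℝ)) * Complex.I)) := by fun_prop
  have hEG : Integrable (fun s : ℝ => Complex.exp (-(s * (y / r : ℝ)) * Complex.I) * G s) := by
    refine hGint.bdd_mul (c := 1) hEc.aestronglyMeasurable ?_
    exact Eventually.of_forall fun s => (hE s).le
  have hEg : Integrable (fun s : ℝ => Complex.exp (-(s * (y / r : ℝ)) * Complex.I) *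
      charFun ζ s) := by
    refine hgint.bdd_mul (c := 1) hEc.aestronglyMeasurable ?_
    exact Eventually.of_forall fun s => (hE s).le
  have hcv : (r : ℂ) * (p : ℂ) =
      ∫ s : ℝ, Complex.exp (-(s * (y / r : ℝ)) * Complex.I) * G s := by
    rw [hinv]
    have h1 := intervalIntegral.integral_comp_div (a := -(T * r)) (b := T * r)
      (fun t : ℝ => Complex.exp (-(t * y) * Complex.I) * ((C1_W T t : ℂ) * charFun ρ t ^ k))
      hrpos.ne'
    rw [show -(T * r) / r = -T by field_simp, show T * r / r = T by field_simp] at h1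
    rw [← Complex.real_smul, ← h1, intervalIntegral.integral_of_le
      (show -(T * r) ≤ T * r by nlinarith [mul_pos hT hrpos]), ← integral_indicator measurableSet_Ioc]
    congr 1
    funext s
    rw [hG]
    simp only
    by_cases hs : s ∈ Set.Ioc (-(T * r)) (T * r)
    · rw [Set.indicator_of_mem hs, Set.indicator_of_mem hs]
      congr 2
      push_cast
      field_simp
    · rw [Set.indicator_of_notMem hs, Set.indicator_of_notMem hs, mul_zero]
  have hdens : ∫ s : ℝ, Complex.exp (-(s * (y / r : ℝ)) * Complex.I) * charFun ζ s =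
      ((2 * Real.pi * dens ζ (y / r) : ℝ) : ℂ) := by
    have h1 := Z1b_P_eq ζ (y / r)
    have h2 : Z1b_P ζ (y / r) = (2 * Real.pi : ℝ)⁻¹ *
        ∫ s : ℝ, Complex.exp (-(s * (y / r : ℝ)) * Complex.I) * charFun ζ s := by
      have e1 : Z1b_P ζ (y / r) = ∫ ξ : ℝ, (fun s : ℝ => Complex.exp (-(s * (y / r : ℝ)) * Complex.I) *
          charFun ζ s) (2 * Real.pi * ξ) := by
        rw [Z1b_P, Real.fourier_eq]
        refine integral_congr_ae (Eventually.of_forall fun ξ => ?_)
        simp only [Circle.smul_def, Real.fourierChar_apply, smul_eq_mul, RCLike.inner_apply, conj_trivial]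
        congr 2
        push_cast
        ring
      rw [e1]
      refine (Measure.integral_comp_mul_left
        (fun s : ℝ => Complex.exp (-(s * (y / r : ℝ)) * Complex.I) * charFun ζ s) (2 * Real.pi)).trans ?_
      rw [abs_of_pos (by positivity)]
      simp only [Complex.real_smul]
    rw [h1] at h2
    have h3 : ((2 * Real.pi : ℝ) : ℂ) ≠ 0 := by
      exact_mod_cast (by positivity : (2 * Real.pi : ℝ) ≠ 0)
    rw [Complex.ofReal_mul, h2, Complex.ofReal_inv, ← mul_assoc, mul_inv_cancel₀ h3, one_mul]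
  have hdiff : ‖(r : ℂ) * (p : ℂ) - ((2 * Real.pi * dens ζ (y / r) : ℝ) : ℂ)‖ ≤ ε * (2 * Real.pi) := by
    rw [hcv, ← hdens, ← integral_sub hEG hEg]
    refine (norm_integral_le_integral_norm _).trans ?_
    refine le_trans (le_of_eq ?_) hk1.le
    congr 1
    funext s
    rw [← mul_sub, norm_mul, hE, one_mul]
  have hreal : |r * p - 2 * Real.pi * dens ζ (y / r)| ≤ ε * (2 * Real.pi) := by
    rw [← Real.norm_eq_abs, ← Complex.norm_real]
    refine le_trans (le_of_eq ?_) hdiff
    congr 1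
    push_cast
    ring
  have hfin : r * (p / (2 * Real.pi)) - dens ζ (y / r) =
      (r * p - 2 * Real.pi * dens ζ (y / r)) / (2 * Real.pi) := by
    field_simp
  rw [hfin, abs_div, abs_of_pos (show 0 < 2 * Real.pi by positivity), div_le_iff₀ (by positivity)]
  exact hreal

/-- the deterministic core -/
theorem T2_core (μ : Measure ℝ) [IsProbabilityMeasure μ] {Φ : ℝ → ℝ} {lm T η L δ q : ℝ} (hΦ0 : ∀ y, 0 ≤ Φ y)
    (hΦ1 : ∀ y, Φ y ≤ 1) (hlm : 0 ≤ lm) (hΦl : ∀ y z, |Φ y - Φ z| ≤ |y - z| * lm) (hT : 0 < T)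
    (hη : 0 < η) (hη1 : η ≤ 1) (hL : 0 < L) (hδ : 0 < δ) (hδ1 : δ ≤ 1) (hq : 0 < q)
    (hqL : (L + 1) * lm ≤ δ / 2)
    (hτ : 4 / (Real.pi * T * η) ≤ 1 / 2)
    (h1 : ∀ y, |q * C1b_g μ T y - Φ y| ≤ δ / 2)
    (h2 : ∀ y, |q * C1b_g μ 1 y - Φ y| ≤ 1)
    {u w : ℝ} (huw : u ≤ w) (hwL : w ≤ u + L) (A : Set ℝ) (hA : MeasurableSet A)
    (hA1 : A ⊆ Set.Icc u w) (hA2 : Set.Ioo u w ⊆ A) :
    |q * μ.real A - (w - u) * Φ u| ≤ 4 * η + L * δ +
      4 * (4 / (Real.pi * T * η)) * (L + 2) +
      (2 * L / (Real.pi * T)) * (1 / η ^ 2 + 2 + 2 * L ^ 2 / η ^ 2) * (3 * Real.pi ^ 4 / 4 * 2) := by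
  have hpi := Real.pi_pos
  set τ := 4 / (Real.pi * T * η) with hτdef
  have hτ0 : 0 < τ := by positivity
  set φ := Φ u with hφ
  have hφ0 : 0 ≤ φ := hΦ0 _
  have hφ1 : φ ≤ 1 := hΦ1 _
  have hclose : ∀ y, |y - u| ≤ L + 1 → |q * C1b_g μ T y - φ| ≤ δ := by
    intro y hy
    have e1 : |Φ y - φ| ≤ δ / 2 := by
      refine (hΦl _ _).trans ?_
      exact (mul_le_mul_of_nonneg_right hy hlm).trans hqL
    have := abs_sub_le (q * C1b_g μ T y) (Φ y) φ
    linarith [h1 y]
  have hgcont : ∀ a b : ℝ, IntervalIntegrable (fun y => C1b_g μ T y) volume a b := by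
    intro a b
    have hc : Continuous (fun y => C1b_g μ T y) := by
      unfold C1b_g
      refine continuous_of_dominated (bound := fun _ => T / (2 * Real.pi)) ?_ ?_ ?_ ?_
      · intro y
        exact ((C1b_K_cont T).comp (by fun_prop)).aestronglyMeasurable
      · intro y
        exact Eventually.of_forall fun s => C1b_K_bdd hT _
      · exact integrable_const _
      · exact Eventually.of_forall fun s => (C1b_K_cont T).comp (by fun_prop)
    exact hc.intervalIntegrable _ _
  have hR0 : 0 ≤ (2 * L / (Real.pi * T)) * (1 / η ^ 2 + 2 + 2 * L ^ 2 / η ^ 2) *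
      (3 * Real.pi ^ 4 / 4 * 2) := by positivity
  have hP0 : 0 ≤ q * μ.real A := by positivity
  rw [abs_le]
  constructor
  · -- lower bound
    by_cases hm : w - u < 2 * η
    · have : (w - u) * φ ≤ 2 * η := by
        calc (w - u) * φ ≤ (w - u) * 1 := by
              exact mul_le_mul_of_nonneg_left hφ1 (by linarith)
          _ ≤ 2 * η := by linarith
      have : 0 ≤ 4 * τ * (L + 2) := by positivity
      have : 0 ≤ L * δ := by positivity
      linarith
    · push Not at hm
      have hlow := C1b_lower μ hT hη (by linarith : u + η ≤ w - η) (by linarith : w - u ≤ L) A hA hA2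
      have hB : ∀ y, C1b_g μ 1 y ≤ 2 / q := by
        intro y
        rw [le_div_iff₀ hq]
        have e1 := (abs_le.1 (h2 y)).2
        have e2 := hΦ1 y
        linarith
      have hmom := C1b_moment μ hB u
      have hint : (w - η - (u + η)) * ((φ - δ) / q) ≤ ∫ y in (u + η)..(w - η), C1b_g μ T y := by
        have e1 : ∫ _y in (u + η)..(w - η), ((φ - δ) / q) = (w - η - (u + η)) * ((φ - δ) / q) := by
          rw [intervalIntegral.integral_const, smul_eq_mul]
        rw [← e1]
        refine intervalIntegral.integral_mono_on (by linarith) (by simp) (hgcont _ _) ?_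
        intro y hy
        rw [div_le_iff₀ hq]
        have e2 := hclose y (by rw [abs_of_nonneg (by linarith [hy.1])]; linarith [hy.2])
        have := (abs_le.1 e2).1
        linarith
      have e3 : q * ((w - η - (u + η)) * ((φ - δ) / q)) = (w - u - 2 * η) * (φ - δ) := by
        field_simp
        ring
      have e4 : q * ((2 * L / (Real.pi * T)) * (1 / η ^ 2 + 2 + 2 * L ^ 2 / η ^ 2) *
          (3 * Real.pi ^ 4 / 4 * (2 / q))) = (2 * L / (Real.pi * T)) *
          (1 / η ^ 2 + 2 + 2 * L ^ 2 / η ^ 2) * (3 * Real.pi ^ 4 / 4 * 2) := by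
        field_simp
      have e5 : q * ((w - η - (u + η)) * ((φ - δ) / q)) ≤ q * (μ.real A +
          (2 * L / (Real.pi * T)) * (1 / η ^ 2 + 2 + 2 * L ^ 2 / η ^ 2) *
          (3 * Real.pi ^ 4 / 4 * (2 / q))) := by
        refine mul_le_mul_of_nonneg_left (hint.trans (hlow.trans ?_)) hq.le
        have : 0 ≤ (2 * L / (Real.pi * T)) * (1 / η ^ 2 + 2 + 2 * L ^ 2 / η ^ 2) := by positivity
        have := mul_le_mul_of_nonneg_left hmom this
        linarith
      rw [mul_add, e4, e3] at e5
      have e6 : (w - u - 2 * η) * (φ - δ) ≥ (w - u) * φ - 2 * η - L * δ := by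
        have f1 : (w - u) * δ ≤ L * δ := mul_le_mul_of_nonneg_right (by linarith) hδ.le
        have f2 : 2 * η * φ ≤ 2 * η := by nlinarith
        have f3 : 0 ≤ 2 * η * δ := by positivity
        nlinarith
      have : 0 ≤ 4 * τ * (L + 2) := by positivity
      linarith
  · -- upper bound
    have hup := C1b_upper μ hT hη huw A hA hA1
    have hint : ∫ y in (u - η)..(w + η), C1b_g μ T y ≤ (w + η - (u - η)) * ((φ + δ) / q) := by
      have e1 : ∫ _y in (u - η)..(w + η), ((φ + δ) / q) = (w + η - (u - η)) * ((φ + δ) / q) := by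
        rw [intervalIntegral.integral_const, smul_eq_mul]
      rw [← e1]
      refine intervalIntegral.integral_mono_on (by linarith) (hgcont _ _) (by simp) ?_
      intro y hy
      rw [le_div_iff₀ hq]
      have e2 := hclose y (by
        rw [abs_le]; constructor <;> linarith [hy.1, hy.2])
      have := (abs_le.1 e2).2
      linarith
    have e3 : q * ((w + η - (u - η)) * ((φ + δ) / q)) = (w - u + 2 * η) * (φ + δ) := by
      field_simp
      ring
    have e5 : q * ((1 - τ) * μ.real A) ≤ (w - u + 2 * η) * (φ + δ) := by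
      rw [← e3]
      exact mul_le_mul_of_nonneg_left (hup.trans hint) hq.le
    set P := q * μ.real A with hP
    have e6 : (1 - τ) * P ≤ (w - u + 2 * η) * (φ + δ) := by
      have : q * ((1 - τ) * μ.real A) = (1 - τ) * P := by rw [hP]; ring
      linarith
    have e7 : (w - u + 2 * η) * (φ + δ) ≤ (w - u) * φ + (4 * η + L * δ) := by
      have f1 : (w - u) * δ ≤ L * δ := mul_le_mul_of_nonneg_right (by linarith) hδ.le
      have f2 : 2 * η * (φ + δ) ≤ 2 * η * 2 := by
        apply mul_le_mul_of_nonneg_left _ (by positivity); linarith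
      nlinarith
    have e8 : (w - u + 2 * η) * (φ + δ) ≤ 2 * (L + 2) := by
      have f1 : w - u + 2 * η ≤ L + 2 := by linarith
      have f2 : φ + δ ≤ 2 := by linarith
      have := mul_le_mul f1 f2 (by linarith) (by linarith)
      linarith
    have e9 : P ≤ 4 * (L + 2) := by
      have f1 : 1 / 2 * P ≤ (1 - τ) * P := mul_le_mul_of_nonneg_right (by linarith) hP0
      linarith
    have e10 : τ * P ≤ 4 * τ * (L + 2) := by
      have := mul_le_mul_of_nonneg_left e9 hτ0.le
      linarith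
    have e11 : P = (1 - τ) * P + τ * P := by ring
    linarith

/-- the density is Lipschitz -/
theorem T2_lip (h : SS α ζ) (hα : 1 < α) : ∃ M > (0 : ℝ), ∀ x y, |dens ζ x - dens ζ y| ≤ M * |x - y| := by
  have := h.prob
  obtain ⟨c, hc, hn⟩ := h.norm (by linarith)
  have hint : Integrable (fun s : ℝ => |s| * ‖charFun ζ s‖) := by
    have h1 : IntegrableOn (fun t : ℝ => (fun t : ℝ => t * Real.exp (-c * t ^ α)) |t|) (Set.Ioi 0) := by
      have h2 := integrableOn_rpow_mul_exp_neg_mul_rpow (p := α) (s := 1) (b := c) (by norm_num) (by linarith) hc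
      refine h2.congr_fun (fun t ht => ?_) measurableSet_Ioi
      simp only [Real.rpow_one, abs_of_pos (Set.mem_Ioi.1 ht)]
    refine (Z1b_even (f := fun t => t * Real.exp (-c * t ^ α)) h1).congr (Eventually.of_forall fun s => ?_)
    simp only [hn]
  have hφ := h.charFun_int hα
  set J : ℝ := ∫ s : ℝ, |s| * ‖charFun ζ s‖ with hJ
  have hJ0 : 0 ≤ J := integral_nonneg fun s => by positivity
  refine ⟨J + 1, by linarith, fun x y => ?_⟩
  have hE : ∀ (z s : ℝ), ‖Complex.exp (-(s * z) * Complex.I)‖ = 1 := by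
    intro z s
    rw [show (-((s : ℂ) * (z : ℂ)) * Complex.I) = ((-(s * z) : ℝ) : ℂ) * Complex.I by push_cast; ring,
      Complex.norm_exp_ofReal_mul_I]
  have hI : ∀ z : ℝ, Integrable (fun s : ℝ => Complex.exp (-(s * z) * Complex.I) * charFun ζ s) := by
    intro z
    refine hφ.bdd_mul (c := 1) (by fun_prop : Continuous (fun s : ℝ =>
      Complex.exp (-(s * z) * Complex.I))).aestronglyMeasurable ?_
    exact Eventually.of_forall fun s => (hE z s).le
  have hd : ‖(∫ s : ℝ, Complex.exp (-(s * x) * Complex.I) * charFun ζ s) -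
      ∫ s : ℝ, Complex.exp (-(s * y) * Complex.I) * charFun ζ s‖ ≤ |x - y| * J := by
    rw [← integral_sub (hI x) (hI y)]
    refine (norm_integral_le_integral_norm _).trans ?_
    rw [hJ, ← integral_const_mul]
    refine integral_mono (((hI x).sub (hI y)).norm) (hint.const_mul _) fun s => ?_
    simp only
    rw [← sub_mul, norm_mul]
    have h1 : ‖Complex.exp (-(s * x) * Complex.I) - Complex.exp (-(s * y) * Complex.I)‖ ≤ |x - y| * |s| := by
      have e1 : Complex.exp (-(s * x) * Complex.I) - Complex.exp (-(s * y) * Complex.I) =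
          Complex.exp (-(s * y) * Complex.I) * (Complex.exp (Complex.I * ((-(s * (x - y)) : ℝ) : ℂ)) - 1) := by
        rw [mul_sub, mul_one, ← Complex.exp_add]
        congr 2
        push_cast
        ring
      rw [e1, norm_mul, hE, one_mul]
      refine (Real.norm_exp_I_mul_ofReal_sub_one_le (x := -(s * (x - y)))).trans ?_
      rw [Real.norm_eq_abs, abs_neg, abs_mul, mul_comm]
    calc _ ≤ |x - y| * |s| * ‖charFun ζ s‖ := mul_le_mul_of_nonneg_right h1 (norm_nonneg _)
      _ = _ := by ring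
  unfold dens
  rw [← sub_div, ← Complex.sub_re, abs_div, abs_of_pos (by positivity : (0:ℝ) < 2 * Real.pi),
    div_le_iff₀ (by positivity)]
  refine (Complex.abs_re_le_norm _).trans (hd.trans ?_)
  have hπ := Real.pi_gt_three
  have h2 : 0 ≤ |x - y| := abs_nonneg _
  have h3 : |x - y| * J ≤ |x - y| * ((J + 1) * (2 * Real.pi)) := by
    refine mul_le_mul_of_nonneg_left ?_ h2
    nlinarith
  calc _ ≤ |x - y| * ((J + 1) * (2 * Real.pi)) := h3
    _ = _ := by ring

/-- **[STB-T2b]** The deterministic core, as `C1b_core` (FV/C1b) with a general bounded Lipschitz nonnegative function `φ` instead of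
the gaussian density (if `0 ≤ φ ≤ M` and `φ` is `M`-Lipschitz with `M ≥ 1`, apply the old proof to `φ/M`, `q` unchanged and
`μ/M`… or simply redo it with the constant `M`). Here as a statement on limits, which is what `T2` needs: PROOF of the theorem:
as `lat_nonlattice`, from `T2_fejer` for `T` large and for `T = 1`; `dens ζ` is bounded, Lipschitz
(`∫ |s| ‖charFun ζ s‖ < ∞`, `SS.norm`) and nonnegative; `a k → ∞`. The law `fre ρ k x` is a translate of `fre ρ k 0`
(`fre_shift`), `lam 0 _ = volume`. -/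
theorem T2_nonlattice (h : DA α ζ ρ a) (hnl : ∀ t : ℝ, t ≠ 0 → ‖charFun ρ t‖ < 1) :
    LatS ζ ρ a 0 0 := by
  refine ⟨le_rfl, Eventually.of_forall fun x h => absurd rfl h, ?_⟩
  intro D hD L hL ε₀ hε₀
  have := h.prob
  have hpi := Real.pi_pos
  obtain ⟨M1, hM1, hbd⟩ := h.ss.dens_bdd h.one
  obtain ⟨M2, hM2, hlip⟩ := T2_lip h.ss h.one
  have hnn := h.ss.dens_nonneg h.one
  obtain ⟨M, hM, hMb, hMl, hM0⟩ : ∃ M : ℝ, 1 ≤ M ∧ (∀ x, dens ζ x ≤ M) ∧
      (∀ x y, |dens ζ x - dens ζ y| ≤ M * |x - y|) ∧ 0 < M := by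
    refine ⟨M1 + M2 + 1, by linarith, fun x => ?_, fun x y => ?_, by linarith⟩
    · have := (le_abs_self _).trans (hbd x)
      linarith
    · exact (hlip x y).trans (mul_le_mul_of_nonneg_right (by linarith) (abs_nonneg _))
  set ε : ℝ := ε₀ / M with hεd
  have hε : 0 < ε := by positivity
  obtain ⟨η, hη0, hη1, hηε⟩ : ∃ η : ℝ, 0 < η ∧ η ≤ 1 ∧ 4 * η ≤ ε / 4 :=
    ⟨min 1 (ε / 16), by positivity, min_le_left _ _, by
      have := min_le_right (1 : ℝ) (ε / 16); linarith⟩
  obtain ⟨T, hT0, hT1, hT2, hT3⟩ : ∃ T : ℝ, 0 < T ∧ 4 / (Real.pi * T * η) ≤ 1 / 2 ∧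
      4 * (4 / (Real.pi * T * η)) * (L + 2) ≤ ε / 4 ∧
      (2 * L / (Real.pi * T)) * (1 / η ^ 2 + 2 + 2 * L ^ 2 / η ^ 2) *
        (3 * Real.pi ^ 4 / 4 * 2) ≤ ε / 4 := by
    set a := 4 / (Real.pi * η) with ha
    set b := 4 * (4 / (Real.pi * η)) * (L + 2) with hb
    set c := (2 * L / Real.pi) * (1 / η ^ 2 + 2 + 2 * L ^ 2 / η ^ 2) * (3 * Real.pi ^ 4 / 4 * 2)
      with hc
    have ha0 : 0 < a := by positivity
    have hb0 : 0 < b := by positivity
    have hc0 : 0 < c := by positivity
    refine ⟨2 * a + 4 * b / ε + 4 * c / ε, by positivity, ?_, ?_, ?_⟩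
    · set T := 2 * a + 4 * b / ε + 4 * c / ε with hTd
      have hTp : 0 < T := by positivity
      have e1 : 4 / (Real.pi * T * η) = a / T := by rw [ha]; field_simp
      rw [e1, div_le_iff₀ hTp]
      have : 0 < 4 * b / ε := by positivity
      have : 0 < 4 * c / ε := by positivity
      linarith
    · set T := 2 * a + 4 * b / ε + 4 * c / ε with hTd
      have hTp : 0 < T := by positivity
      have e1 : 4 * (4 / (Real.pi * T * η)) * (L + 2) = b / T := by rw [hb]; field_simp
      rw [e1, div_le_iff₀ hTp]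
      have h1 : 0 < 4 * c / ε := by positivity
      have h2 : ε / 4 * (4 * b / ε) = b := by field_simp
      have h3 : ε / 4 * (4 * b / ε) ≤ ε / 4 * T := by
        apply mul_le_mul_of_nonneg_left _ (by positivity); linarith
      linarith
    · set T := 2 * a + 4 * b / ε + 4 * c / ε with hTd
      have hTp : 0 < T := by positivity
      have e1 : (2 * L / (Real.pi * T)) * (1 / η ^ 2 + 2 + 2 * L ^ 2 / η ^ 2) *
        (3 * Real.pi ^ 4 / 4 * 2) = c / T := by rw [hc]; field_simp
      rw [e1, div_le_iff₀ hTp]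
      have h1 : 0 < 4 * b / ε := by positivity
      have h2 : ε / 4 * (4 * c / ε) = c := by field_simp
      have h3 : ε / 4 * (4 * c / ε) ≤ ε / 4 * T := by
        apply mul_le_mul_of_nonneg_left _ (by positivity); linarith
      linarith
  obtain ⟨δ, hδ0, hδ1, hδε⟩ : ∃ δ : ℝ, 0 < δ ∧ δ ≤ 1 ∧ L * δ ≤ ε / 4 :=
    ⟨min 1 (ε / (4 * L)), by positivity, min_le_left _ _, by
      have := mul_le_mul_of_nonneg_left (min_le_right (1 : ℝ) (ε / (4 * L))) hL.le
      refine this.trans (le_of_eq ?_)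
      field_simp⟩
  obtain ⟨K1, hK1⟩ := T2_fejer h hnl T hT0 (δ / 2) (by positivity)
  obtain ⟨K2, hK2⟩ := T2_fejer h hnl 1 one_pos 1 one_pos
  obtain ⟨K3, hK3⟩ := eventually_atTop.mp (h.top.eventually_gt_atTop (2 * (L + 1) / δ))
  refine ⟨max (max K1 K2) K3, fun k hk x u w huw hwL => ?_⟩
  have hk1 : K1 ≤ k := le_trans (le_trans (le_max_left _ _) (le_max_left _ _)) hk
  have hk2 : K2 ≤ k := le_trans (le_trans (le_max_right _ _) (le_max_left _ _)) hk
  have hk3 : K3 ≤ k := le_trans (le_max_right _ _) hk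
  have hak : 0 < a k := h.pos k
  have hsq : 2 * (L + 1) / δ < a k := hK3 k hk3
  have hqL : (L + 1) * (1 / a k) ≤ δ / 2 := by
    rw [mul_one_div, div_le_iff₀ hak]
    have := (div_lt_iff₀ hδ0).1 hsq
    linarith
  have hprob : IsProbabilityMeasure (fre ρ k 0) := by infer_instance
  obtain ⟨hI1, hI2, hI3, hI4⟩ := C1b_IV hD (u - x) (w - x)
  have hscale : ∀ (T' d y : ℝ), |a k * C1b_g (fre ρ k 0) T' y - dens ζ (y / a k)| ≤ d →
      |a k / M * C1b_g (fre ρ k 0) T' y - dens ζ (y / a k) / M| ≤ d := by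
    intro T' d y hy
    have e1 : a k / M * C1b_g (fre ρ k 0) T' y - dens ζ (y / a k) / M =
        (a k * C1b_g (fre ρ k 0) T' y - dens ζ (y / a k)) / M := by ring
    rw [e1, abs_div, abs_of_pos hM0]
    refine (div_le_self (abs_nonneg _) hM).trans hy
  have hcore := T2_core (fre ρ k 0) (Φ := fun y => dens ζ (y / a k) / M) (lm := 1 / a k) (q := a k / M)
    (fun y => div_nonneg (hnn _) hM0.le) (fun y => (div_le_one hM0).2 (hMb _)) (by positivity)
    (fun y z => by
      show |dens ζ (y / a k) / M - dens ζ (z / a k) / M| ≤ |y - z| * (1 / a k)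
      rw [← sub_div, abs_div, abs_of_pos hM0, div_le_iff₀ hM0]
      refine (hMl _ _).trans (le_of_eq ?_)
      rw [← sub_div, abs_div, abs_of_pos hak]
      ring)
    hT0 hη0 hη1 hL hδ0 hδ1 (by positivity) hqL hT1
    (fun y => hscale _ _ _ (hK1 k hk1 y)) (fun y => hscale _ _ _ (hK2 k hk2 y))
    (by linarith : u - x ≤ w - x) (by linarith : w - x ≤ u - x + L) (IV D (u - x) (w - x)) hI3
    hI1 hI2
  have hfre : (fre ρ k x).real (IV D u w) = (fre ρ k 0).real (IV D (u - x) (w - x)) := by
    unfold fre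
    obtain ⟨-, -, hI3', -⟩ := C1b_IV hD u w
    rw [map_measureReal_apply (by have := C1b_meas_S k; fun_prop) hI3',
      map_measureReal_apply (by have := C1b_meas_S k; fun_prop) hI3]
    congr 1
    ext ω
    simp only [IV, Set.mem_preimage, Set.mem_ofPred_eq]
    rw [show x + S k ω - u = 0 + S k ω - (u - x) by ring, show x + S k ω - w = 0 + S k ω - (w - x) by ring]
  have hlam : (lam 0 (x + k * 0)).real (IV D u w) = w - u := by
    unfold lam
    rw [if_pos rfl]
    exact (C1b_IV hD u w).2.2.2 huw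
  rw [hfre, hlam]
  have e1 : a k * (fre ρ k 0).real (IV D (u - x) (w - x)) - (w - u) * dens ζ ((u - x) / a k) =
      M * (a k / M * (fre ρ k 0).real (IV D (u - x) (w - x)) -
        (w - x - (u - x)) * (dens ζ ((u - x) / a k) / M)) := by
    field_simp
    ring
  rw [e1, abs_mul, abs_of_pos hM0]
  have e2 : ε₀ = M * ε := by rw [hεd]; field_simp
  rw [e2]
  refine mul_le_mul_of_nonneg_left ?_ hM0.le
  refine le_trans hcore ?_
  linarith

end Pool.Agent.BPT
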