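import Pool.Agent.MP_99a865_pr.CV.K1
import Pool.Agent.MP_99a865_pr.FV.A2b
import Pool.Agent.MP_99a865_pr.FV.D2b
import Pool.Agent.MP_99a865_pr.ST.Ctr

/-! **[STB-X1a]** Sums of exit probabilities over a coset. -/

open MeasureTheory ProbabilityTheory Filter Topology
open scoped ENNReal NNReal

namespace Pool.Agent.BPT

variable {α : ℝ} {ζ ρ : Measure ℝ} {a : ℕ → ℝ} {D : Set ℝ}

/-- unit windows: sums of a nonincreasing function times a nondecreasing one -/
theorem X1a_win {f g : ℝ → ℝ≥0∞} (hf : Antitone f) (hg : Monotone g) (j : ℕ) :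
    f ((j : ℝ) + 1) * g ((j : ℝ) + 2) ≤ ∫⁻ w in Set.Ioc (j : ℝ) (j + 1), f w * g (w + 2) := by
  have h1 : ∫⁻ _ in Set.Ioc (j : ℝ) (j + 1), f ((j : ℝ) + 1) * g ((j : ℝ) + 2) =
      f ((j : ℝ) + 1) * g ((j : ℝ) + 2) := by
    rw [setLIntegral_const, Real.volume_Ioc]
    simp
  rw [← h1]
  refine setLIntegral_mono' measurableSet_Ioc fun w hw => ?_
  exact mul_le_mul' (hf hw.2) (hg (by linarith [hw.1]))

theorem X1a_iUnion (f : ℝ → ℝ≥0∞) (s : Set ℕ) [DecidablePred (· ∈ s)] (B : Set ℝ)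
    (hB : ∀ j ∈ s, Set.Ioc (j : ℝ) (j + 1) ⊆ B) :
    ∑' j : ℕ, (if j ∈ s then ∫⁻ w in Set.Ioc (j : ℝ) (j + 1), f w else 0) ≤ ∫⁻ w in B, f w := by
  have h1 : ∀ j : ℕ, (if j ∈ s then ∫⁻ w in Set.Ioc (j : ℝ) (j + 1), f w else 0) =
      ∫⁻ w in (if j ∈ s then Set.Ioc (j : ℝ) (j + 1) else ∅), f w := by
    intro j
    split_ifs
    · rfl
    · simp
  simp_rw [h1]
  rw [← lintegral_iUnion]
  · refine lintegral_mono_set ?_
    intro w hw
    rw [Set.mem_iUnion] at hw
    obtain ⟨j, hj⟩ := hw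
    split_ifs at hj with hjs
    · exact hB j hjs hj
    · exact absurd hj (Set.notMem_empty _)
  · intro j
    split_ifs
    · exact measurableSet_Ioc
    · exact MeasurableSet.empty
  · intro i j hij
    simp only [Function.onFun]
    rw [Set.disjoint_left]
    intro w hi hj
    split_ifs at hi hj
    · apply hij
      have h2 : (i : ℝ) < j + 1 := by linarith [hi.1, hj.2]
      have h3 : (j : ℝ) < i + 1 := by linarith [hi.2, hj.1]
      have h4 : i < j + 1 := by exact_mod_cast h2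
      have h5 : j < i + 1 := by exact_mod_cast h3
      omega
    · exact absurd hj (Set.notMem_empty _)
    · exact absurd hi (Set.notMem_empty _)
    · exact absurd hi (Set.notMem_empty _)

/-- lower bound for the natural unit -/
theorem X1a_unit (hda : DA α ζ ρ a) (hD : Dom D) : ∃ C > (0 : ℝ), ∀ᶠ n : ℕ in atTop,
    1 ≤ C * (a n / n * vr D (dual ρ) (a n)) := by
  have hcen := hda.cen
  obtain ⟨C₁, hC₁, h1⟩ := hda.vd_comp hD
  obtain ⟨C₂, hC₂, h2⟩ := hda.vv hD
  obtain ⟨hf1, hf2, hf3⟩ := vr_facts hD hcen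
  have hv1 : 0 < vr D ρ 1 := lt_of_lt_of_le one_pos (hf2 1)
  refine ⟨C₂ * (2 * vr D ρ 1) * C₁, by positivity, ?_⟩
  filter_upwards [h2, hda.top.eventually_ge_atTop 1, eventually_ge_atTop 1] with n hn han hn1
  have hn0 : (0 : ℝ) < n := by exact_mod_cast hn1
  have ha0 : 0 < a n := hda.pos n
  have h3 : vr D ρ (a n) ≤ 2 * a n * vr D ρ 1 := by
    have := vr_mul hD hcen 1 (a n) (by norm_num) han
    rwa [mul_one] at this
  have h4 := (h1 (a n) ha0.le).2
  have hvd : 0 ≤ vd D ρ (a n) := ENNReal.toReal_nonneg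
  have h5 : (n : ℝ) ≤ C₂ * (2 * a n * vr D ρ 1 * (C₁ * vr D (dual ρ) (a n))) := by
    refine hn.1.trans (mul_le_mul_of_nonneg_left ?_ hC₂.le)
    refine mul_le_mul h3 h4 hvd (by positivity)
  have h6 : C₂ * (2 * vr D ρ 1) * C₁ * (a n / n * vr D (dual ρ) (a n)) =
      C₂ * (2 * a n * vr D ρ 1 * (C₁ * vr D (dual ρ) (a n))) / n := by
    field_simp
  rw [h6, le_div_iff₀ hn0, one_mul]
  exact h5

/-- the tail integral against `lam h c` -/
theorem X1a_tail (hD : Dom D) [IsProbabilityMeasure ρ] {h : ℝ} (hh : 0 ≤ h) (c A : ℝ) (hA : 2 ≤ A) :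
    ∫⁻ w in Set.Ioi A, ex D ρ w ∂(lam h c) ≤ ENNReal.ofReal (1 + h) * ∫⁻ w in Set.Ioi (A - 2), ex D ρ w := by
  classical
  have h1 : ∫⁻ w in Set.Ioi A, ex D ρ w ∂(lam h c) = ∫⁻ w in D, (Set.Ioi A).indicator (ex D ρ) w ∂(lam h c) := by
    rw [lintegral_indicator measurableSet_Ioi, Measure.restrict_restrict measurableSet_Ioi]
    congr 2
    symm
    rw [Set.inter_eq_left]
    intro w hw
    exact hD.pos (lt_trans (by linarith) hw)
  rw [h1]
  refine (D2b_cover hD hh c _ (fun j => match j with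
    | 0 => 0
    | j + 1 => if j ∈ {j : ℕ | A < (j : ℝ) + 2} then ∫⁻ w in Set.Ioc (j : ℝ) (j + 1), ex D ρ w else 0) ?_).trans ?_
  · intro j w h2 h3
    by_cases h4 : w ∈ Set.Ioi A
    · rw [Set.indicator_of_mem h4]
      have h4' : A < w := h4
      cases j with
      | zero =>
        exfalso
        push_cast at h3
        linarith
      | succ j =>
        have h5 : j ∈ {j : ℕ | A < (j : ℝ) + 2} := by
          show A < (j : ℝ) + 2
          push_cast at h3
          linarith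
        simp only []
        rw [if_pos h5]
        have h6 := X1a_win (f := ex D ρ) (g := fun _ => 1) (ex_anti hD) (fun _ _ _ => le_rfl) j
        simp only [mul_one] at h6
        refine le_trans (ex_anti hD ?_) h6
        push_cast at h2
        exact h2
    · rw [Set.indicator_of_notMem h4]
      exact zero_le
  · refine mul_le_mul_right ?_ _
    rw [tsum_eq_zero_add' ENNReal.summable, zero_add]
    refine X1a_iUnion (ex D ρ) {j : ℕ | A < (j : ℝ) + 2} (Set.Ioi (A - 2)) ?_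
    intro j hj w hw
    have hj' : A < (j : ℝ) + 2 := hj
    show A - 2 < w
    linarith [hw.1]

/-- **[STB-X1a]** Sums of exit probabilities over a coset. PROOF. `ex D ρ` is nonincreasing (`ex_anti`), `V' = vr D (dual ρ)` is nondecreasing and
comparable with `vd D ρ` (`DA.vd_comp`), `lam h c [i, i+1) ≤ 1 + h` (`lam_Icc_le`). So
`∫_{D ∩ [0,a_n]} ex V' ∂lam ≤ (1+h) ∑_{i=0}^{⌊a_n⌋} ex(i) V'(i+1) ≤ (1 + h) (V'(1) + ∑_{i≥1} ∫_{i-1}^{i} ex(w) V'(w + 2) dw)` and
`V'(w+2) ≤ 2·3 V'(w+1)…` (`vr_mul`), `DA.ex_sum`; the constant `V'(1)` is absorbed since `a_n V^(a_n)/n ≥ c` (`DA.vv`,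
`V(a_n) ≤ C a_n`: `vr_mul`, `V(a_n) ≤ 2 a_n V(1)`). -/
theorem X1_sum (hda : DA α ζ ρ a) (hD : Dom D) {h : ℝ} (hh : 0 ≤ h) : ∃ C > (0 : ℝ), ∀ᶠ n : ℕ in atTop, ∀ c : ℝ,
    ∫⁻ w in D ∩ Set.Icc 0 (a n), ex D ρ w * ENNReal.ofReal (vr D (dual ρ) w) ∂(lam h c) ≤
      ENNReal.ofReal (C * (a n / n * vr D (dual ρ) (a n))) := by
  classical
  have hp := hda.prob
  have hcen := hda.cen
  have hcd : Cen (dual ρ) := hda.dual.cen
  obtain ⟨C₀, hC₀, h0⟩ := X1a_unit hda hD
  obtain ⟨C₁, hC₁, h1⟩ := hda.vd_comp hD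
  obtain ⟨C₂, hC₂, h2⟩ := hda.ex_sum hD
  obtain ⟨hf1, hf2, hf3⟩ := vr_facts hD hcd
  have hv1 : 0 < vr D (dual ρ) 1 := lt_of_lt_of_le one_pos (hf2 1)
  refine ⟨(1 + h) * (vr D (dual ρ) 1 * C₀ + 4 * C₁ * (C₂ * C₁)), by positivity, ?_⟩
  filter_upwards [h0, h2, hda.top.eventually_ge_atTop 1, eventually_ge_atTop 1] with n hn0 hn2 han hn1 c
  have hnpos : (0 : ℝ) < n := by exact_mod_cast hn1
  have ha0 : 0 < a n := hda.pos n
  have hva : 0 < vr D (dual ρ) (a n) := lt_of_lt_of_le one_pos (hf2 _)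
  have e1 : ∫⁻ w in D ∩ Set.Icc 0 (a n), ex D ρ w * ENNReal.ofReal (vr D (dual ρ) w) ∂(lam h c) =
      ∫⁻ w in D, (Set.Icc 0 (a n)).indicator (fun w => ex D ρ w * ENNReal.ofReal (vr D (dual ρ) w)) w ∂(lam h c) := by
    rw [lintegral_indicator measurableSet_Icc, Measure.restrict_restrict measurableSet_Icc, Set.inter_comm]
  rw [e1]
  set g : ℝ → ℝ≥0∞ := fun w => ENNReal.ofReal (vr D (dual ρ) w) with hg
  have hgm : Monotone g := fun x y hxy => ENNReal.ofReal_le_ofReal (hf3 hxy)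
  refine (D2b_cover hD hh c _ (fun j => match j with
    | 0 => g 1
    | j + 1 => if j ∈ {j : ℕ | (j : ℝ) + 1 ≤ a n} then ∫⁻ w in Set.Ioc (j : ℝ) (j + 1), ex D ρ w * g (w + 2) else 0) ?_).trans ?_
  · intro j w h3 h4
    by_cases h5 : w ∈ Set.Icc 0 (a n)
    · rw [Set.indicator_of_mem h5]
      cases j with
      | zero =>
        simp only []
        have h6 : ex D ρ w ≤ 1 := prob_le_one
        calc ex D ρ w * g w ≤ 1 * g 1 := mul_le_mul' h6 (hgm (by push_cast at h4; linarith))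
          _ = g 1 := one_mul _
      | succ j =>
        push_cast at h3 h4
        have h6 : j ∈ {j : ℕ | (j : ℝ) + 1 ≤ a n} := by
          show (j : ℝ) + 1 ≤ a n
          linarith [h5.2]
        simp only []
        rw [if_pos h6]
        refine le_trans ?_ (X1a_win (ex_anti hD) hgm j)
        exact mul_le_mul' (ex_anti hD h3) (hgm (by linarith))
    · rw [Set.indicator_of_notMem h5]
      exact zero_le
  · have e2 : ∑' j : ℕ, (if j ∈ {j : ℕ | (j : ℝ) + 1 ≤ a n} then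
        ∫⁻ w in Set.Ioc (j : ℝ) (j + 1), ex D ρ w * g (w + 2) else 0) ≤
        ∫⁻ w in Set.Icc 0 (a n), ex D ρ w * g (w + 2) := by
      refine X1a_iUnion (fun w => ex D ρ w * g (w + 2)) _ _ ?_
      intro j hj w hw
      have hj' : (j : ℝ) + 1 ≤ a n := hj
      have : (0 : ℝ) ≤ j := by positivity
      exact ⟨by linarith [hw.1], by linarith [hw.2]⟩
    have e3 : ∫⁻ w in Set.Icc 0 (a n), ex D ρ w * g (w + 2) ≤
        ENNReal.ofReal (4 * C₁) * ∫⁻ w in Set.Icc 0 (a n), ex D ρ w * ENNReal.ofReal (vd D ρ (w + 1)) := by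
      rw [← lintegral_const_mul' _ _ ENNReal.ofReal_ne_top]
      refine setLIntegral_mono' measurableSet_Icc fun w hw => ?_
      have hw0 : 0 ≤ w := hw.1
      have k1 : vr D (dual ρ) (w + 2) ≤ 4 * C₁ * vd D ρ (w + 1) := by
        have k2 : vr D (dual ρ) (w + 2) ≤ vr D (dual ρ) (2 * (w + 1)) := hf3 (by linarith)
        have k3 := vr_mul hD hcd (w + 1) 2 (by linarith) (by norm_num)
        have k4 := (h1 (w + 1) (by linarith)).1
        nlinarith
      calc ex D ρ w * g (w + 2) ≤ ex D ρ w * ENNReal.ofReal (4 * C₁ * vd D ρ (w + 1)) := by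
            refine mul_le_mul_right ?_ _
            exact ENNReal.ofReal_le_ofReal k1
        _ = ENNReal.ofReal (4 * C₁) * (ex D ρ w * ENNReal.ofReal (vd D ρ (w + 1))) := by
            rw [ENNReal.ofReal_mul (by positivity)]
            ring
    have e4 : a n * vd D ρ (a n) / n ≤ C₁ * (a n / n * vr D (dual ρ) (a n)) := by
      have k1 := (h1 (a n) ha0.le).2
      have k2 : a n * vd D ρ (a n) / n = a n / n * vd D ρ (a n) := by ring
      rw [k2]
      have k3 : 0 ≤ a n / n := by positivity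
      nlinarith [mul_le_mul_of_nonneg_left k1 k3]
    have e5 : vr D (dual ρ) 1 ≤ vr D (dual ρ) 1 * C₀ * (a n / n * vr D (dual ρ) (a n)) := by
      nlinarith
    rw [tsum_eq_zero_add' ENNReal.summable]
    calc ENNReal.ofReal (1 + h) * (g 1 + ∑' j : ℕ, (if j ∈ {j : ℕ | (j : ℝ) + 1 ≤ a n} then
          ∫⁻ w in Set.Ioc (j : ℝ) (j + 1), ex D ρ w * g (w + 2) else 0))
        ≤ ENNReal.ofReal (1 + h) * (ENNReal.ofReal (vr D (dual ρ) 1 * C₀ * (a n / n * vr D (dual ρ) (a n))) +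
          ENNReal.ofReal (4 * C₁) * ENNReal.ofReal (C₂ * (C₁ * (a n / n * vr D (dual ρ) (a n))))) := by
          refine mul_le_mul_right (add_le_add (ENNReal.ofReal_le_ofReal e5) (e2.trans (e3.trans ?_))) _
          refine mul_le_mul_right (hn2.1.trans ?_) _
          exact ENNReal.ofReal_le_ofReal (mul_le_mul_of_nonneg_left e4 hC₂.le)
      _ = ENNReal.ofReal ((1 + h) * (vr D (dual ρ) 1 * C₀ + 4 * C₁ * (C₂ * C₁)) *
            (a n / n * vr D (dual ρ) (a n))) := by
          rw [← ENNReal.ofReal_mul (by positivity), ← ENNReal.ofReal_add (by positivity) (by positivity),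
            ← ENNReal.ofReal_mul (by positivity)]
          congr 1
          ring

/-- **[STB-X1b]** (`ex` is nonincreasing: for `A ≥ 2`, `∫_{w > A} ex ∂lam ≤ (1+h) ∑_{i ≥ ⌊A⌋} ex(i) ≤ 2 (1+h) ∫_{w > A - 2} ex(w) dw`, `DA.ex_tail`
with `R a_n - 2 ≥ (R/2) a_n`) -/
theorem X1_tail (hda : DA α ζ ρ a) (hD : Dom D) {h : ℝ} (hh : 0 ≤ h) : ∃ C > (0 : ℝ), ∀ ε > (0 : ℝ), ∃ R > (0 : ℝ),
    ∀ᶠ n : ℕ in atTop, ∀ c : ℝ,
      ∫⁻ w in Set.Ioi (a n), ex D ρ w ∂(lam h c) ≤ ENNReal.ofReal (C * (a n / n)) ∧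
      ∫⁻ w in Set.Ioi (R * a n), ex D ρ w ∂(lam h c) ≤ ENNReal.ofReal (ε * (a n / n)) := by
  have hp := hda.prob
  have hcd : Cen (dual ρ) := hda.dual.cen
  have hDst : Dom (Dst D) := dom_Dst hD
  obtain ⟨hf1, hf2, hf3⟩ := vr_facts hDst hcd
  obtain ⟨C₁, hC₁, h1⟩ := hda.ex_sum hD
  obtain ⟨C₂, hC₂, h2⟩ := hda.ex_tail hD
  refine ⟨(1 + h) * (4 * C₁ + C₂), by positivity, fun ε hε => ?_⟩
  obtain ⟨R, hR, h3⟩ := h2 (ε / (1 + h)) (by positivity)
  refine ⟨2 * R, by positivity, ?_⟩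
  filter_upwards [h1, h3, hda.top.eventually_ge_atTop 2, hda.top.eventually_ge_atTop (2 / R),
    eventually_ge_atTop 1] with n hn1 hn2 han han2 hn c
  have hnpos : (0 : ℝ) < n := by exact_mod_cast hn
  have ha0 : 0 < a n := hda.pos n
  have hRa : 2 ≤ R * a n := by
    rw [div_le_iff₀ hR] at han2
    linarith
  constructor
  · refine (X1a_tail hD hh c (a n) han).trans ?_
    have hva : 0 < vd D ρ (a n) := lt_of_lt_of_le one_pos (hf2 _)
    have e1 : ∫⁻ w in Set.Ioi (a n - 2), ex D ρ w ≤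
        (∫⁻ w in Set.Icc (a n - 2) (a n), ex D ρ w) + ∫⁻ w in Set.Ioi (a n), ex D ρ w := by
      refine le_trans (lintegral_mono_set ?_) (lintegral_union_le _ _ _)
      intro w hw
      by_cases hw2 : w ≤ a n
      · exact Or.inl ⟨le_of_lt hw, hw2⟩
      · exact Or.inr (lt_of_not_ge hw2)
    have e2 : ENNReal.ofReal (vd D ρ (a n)) * ∫⁻ w in Set.Icc (a n - 2) (a n), ex D ρ w ≤
        ENNReal.ofReal (4 * (C₁ * (a n * vd D ρ (a n) / n))) := by
      rw [← lintegral_const_mul' _ _ ENNReal.ofReal_ne_top]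
      calc ∫⁻ w in Set.Icc (a n - 2) (a n), ENNReal.ofReal (vd D ρ (a n)) * ex D ρ w
          ≤ ∫⁻ w in Set.Icc (a n - 2) (a n), ENNReal.ofReal 4 * (ex D ρ w * ENNReal.ofReal (vd D ρ (w + 1))) := by
            refine setLIntegral_mono' measurableSet_Icc fun w hw => ?_
            have k1 : vd D ρ (a n) ≤ 4 * vd D ρ (w + 1) := by
              have k2 := vr_mul hDst hcd (a n / 2) 2 (by positivity) (by norm_num)
              rw [mul_div_cancel₀ _ (two_ne_zero' ℝ)] at k2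
              have k3 : vr (Dst D) (dual ρ) (a n / 2) ≤ vr (Dst D) (dual ρ) (w + 1) := hf3 (by linarith [hw.1])
              unfold vd
              linarith
            calc ENNReal.ofReal (vd D ρ (a n)) * ex D ρ w ≤ ENNReal.ofReal (4 * vd D ρ (w + 1)) * ex D ρ w :=
                  mul_le_mul_left (ENNReal.ofReal_le_ofReal k1) _
              _ = _ := by
                  rw [ENNReal.ofReal_mul (by norm_num)]
                  ring
        _ = ENNReal.ofReal 4 * ∫⁻ w in Set.Icc (a n - 2) (a n), ex D ρ w * ENNReal.ofReal (vd D ρ (w + 1)) := by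
            rw [lintegral_const_mul' _ _ ENNReal.ofReal_ne_top]
        _ ≤ ENNReal.ofReal 4 * ENNReal.ofReal (C₁ * (a n * vd D ρ (a n) / n)) := by
            refine mul_le_mul_right (le_trans (lintegral_mono_set ?_) hn1.1) _
            exact Set.Icc_subset_Icc_left (by linarith)
        _ = _ := by rw [← ENNReal.ofReal_mul (by norm_num)]
    have e3 : ∫⁻ w in Set.Icc (a n - 2) (a n), ex D ρ w ≤ ENNReal.ofReal (4 * C₁ * (a n / n)) := by
      have k1 : ENNReal.ofReal (4 * (C₁ * (a n * vd D ρ (a n) / n))) =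
          ENNReal.ofReal (vd D ρ (a n)) * ENNReal.ofReal (4 * C₁ * (a n / n)) := by
        rw [← ENNReal.ofReal_mul hva.le]
        congr 1
        ring
      rw [k1] at e2
      exact (ENNReal.mul_le_mul_iff_right (ENNReal.ofReal_pos.2 hva).ne' ENNReal.ofReal_ne_top).1 e2
    calc ENNReal.ofReal (1 + h) * ∫⁻ w in Set.Ioi (a n - 2), ex D ρ w
        ≤ ENNReal.ofReal (1 + h) * (ENNReal.ofReal (4 * C₁ * (a n / n)) + ENNReal.ofReal (C₂ * (a n / n))) :=
          mul_le_mul_right (e1.trans (add_le_add e3 hn2.1)) _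
      _ = _ := by
          rw [← ENNReal.ofReal_add (by positivity) (by positivity), ← ENNReal.ofReal_mul (by positivity)]
          congr 1
          ring
  · refine (X1a_tail hD hh c (2 * R * a n) (by nlinarith)).trans ?_
    calc ENNReal.ofReal (1 + h) * ∫⁻ w in Set.Ioi (2 * R * a n - 2), ex D ρ w
        ≤ ENNReal.ofReal (1 + h) * ENNReal.ofReal (ε / (1 + h) * (a n / n)) := by
          refine mul_le_mul_right (le_trans (lintegral_mono_set ?_) hn2.2) _
          intro w hw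
          have hw' : 2 * R * a n - 2 < w := hw
          show R * a n < w
          nlinarith
      _ = _ := by
          rw [← ENNReal.ofReal_mul (by positivity)]
          congr 1
          field_simp

end Pool.Agent.BPT
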