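import Pool.Agent.MP_99a865_pr.ST.X1a

/-! **[STB-X1b]** The exit measure `hit_l(y) d(lam h c)(y)`: mass and tails. -/

open MeasureTheory ProbabilityTheory Filter Topology
open scoped ENNReal NNReal

namespace Pool.Agent.BPT

variable {α : ℝ} {ζ ρ : Measure ℝ} {a : ℕ → ℝ} {D : Set ℝ}

/-- escape probability over a maximum -/
theorem X1b_max (_hD : Dom D) [IsProbabilityMeasure ρ] (k : ℕ) (w r : ℝ) (A : Set ℝ) (hA : MeasurableSet A)
    (h : ∀ y ∈ A, r ≤ |y - w|) :
    kap D ρ k w A ≤ seqLaw ρ {ω | ∃ j ≤ k, r ≤ |S j ω|} := by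
  unfold kap
  rw [Measure.map_apply (A1_meas_add k w) hA]
  refine (Measure.restrict_apply_le _ _).trans (measure_mono ?_)
  intro ω hω
  have h1 := h _ hω
  refine ⟨k, le_rfl, ?_⟩
  rwa [add_sub_cancel_left] at h1

/-- **[STB-X1c]** Far part. PROOF. By `hit_duality` (with `g = 1_{y > R a_n}`, `k = l - 1`) the left side is
`∫_{w ∈ D} ex(w) (kap D (dual ρ) k w)(Ioi (R a_n)) ∂(lam h c')`. (i) `w ≤ a_n`: `(kap ..)(Ioi (R a_n)) ≤ V'(R a_n)^{-1} ∫_{y>R a_n} V'(y) ∂kap ≤ ε' V'(w)/V'(a_n)`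
(`DA.tail` for the dual walk: `DA.dual`; `V' = vr D (dual ρ)` is nondecreasing), and `X1_sum`. (ii) `a_n < w ≤ R a_n/2`: mass
`≤ P(max_{i≤k}|S_i| ≥ R a_n/2) ≤ C(2/R + 4/R²)` (`DA.max` for the dual walk), times `∫_{w>a_n} ex ∂lam ≤ C a_n/n`. (iii) `w > R a_n/2`: `X1_tail`. -/
theorem X1_far (hda : DA α ζ ρ a) (hD : Dom D) {b h : ℝ} (hh : 0 ≤ h) (hstep : ∀ᵐ x ∂ρ, Cos h b x) :
    ∀ ε > (0 : ℝ), ∃ R > (0 : ℝ), ∀ᶠ n : ℕ in atTop, ∀ l : ℕ, 1 ≤ l → l ≤ n → ∀ c : ℝ,
      ∫⁻ y in D ∩ Set.Ioi (R * a n), ENNReal.ofReal (hit D ρ l y) ∂(lam h c) ≤ ENNReal.ofReal (ε * (a n / n)) := by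
  intro ε hε
  have hp := hda.prob
  have hdd := hda.dual
  have hpd := hdd.prob
  obtain ⟨C₁, hC₁, h1⟩ := X1_sum hda hD hh
  obtain ⟨C₂, hC₂, h2⟩ := X1_tail hda hD hh
  obtain ⟨C₃, hC₃, h3⟩ := hdd.max
  obtain ⟨hf1, hf2, hf3⟩ := vr_facts hD hdd.cen
  obtain ⟨R₁, hR₁, h4⟩ := hdd.tail hD (ε / (3 * C₁)) (by positivity)
  obtain ⟨R₂, hR₂, h5⟩ := h2 (ε / 3) (by positivity)
  -- choice of R
  obtain ⟨R, hR1, hRR₁, hRR₂, hRs⟩ : ∃ R : ℝ, 1 ≤ R ∧ R₁ ≤ R ∧ 2 * R₂ ≤ R ∧
      C₃ * (1 / (R / 2) + 1 / (R / 2) ^ 2) * C₂ ≤ ε / 3 := by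
    have h6 : Tendsto (fun R : ℝ => C₃ * (1 / (R / 2) + 1 / (R / 2) ^ 2) * C₂) atTop (𝓝 (C₃ * (0 + 0) * C₂)) := by
      refine Tendsto.mul_const _ (Tendsto.const_mul _ (Tendsto.add ?_ ?_))
      · exact tendsto_const_nhds.div_atTop (tendsto_id.atTop_div_const (by norm_num))
      · exact tendsto_const_nhds.div_atTop
          ((tendsto_pow_atTop (by norm_num)).comp (tendsto_id.atTop_div_const (by norm_num)))
    have h7 : ∀ᶠ R : ℝ in atTop, C₃ * (1 / (R / 2) + 1 / (R / 2) ^ 2) * C₂ ≤ ε / 3 := by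
      refine h6.eventually_le_const ?_
      rw [add_zero, mul_zero, zero_mul]
      positivity
    obtain ⟨R, h8⟩ := (h7.and ((eventually_ge_atTop 1).and ((eventually_ge_atTop R₁).and
      (eventually_ge_atTop (2 * R₂))))).exists
    exact ⟨R, h8.2.1, h8.2.2.1, h8.2.2.2, h8.1⟩
  have hR0 : 0 < R := by linarith
  refine ⟨R, hR0, ?_⟩
  filter_upwards [h1, h3, h4, h5, eventually_ge_atTop 1] with n hn1 hn3 hn4 hn5 hn l hl1 hln c
  have hnpos : (0 : ℝ) < n := by exact_mod_cast hn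
  have ha0 : 0 < a n := hda.pos n
  obtain ⟨k, rfl⟩ : ∃ k, l = k + 1 := ⟨l - 1, by omega⟩
  have hkn : k ≤ n := by omega
  have hva : 0 < vr D (dual ρ) (a n) := lt_of_lt_of_le one_pos (hf2 _)
  have e1 : ∫⁻ y in D ∩ Set.Ioi (R * a n), ENNReal.ofReal (hit D ρ (k + 1) y) ∂(lam h c) =
      ∫⁻ w in D, ex D ρ w * kap D (dual ρ) k w (Set.Ioi (R * a n)) ∂(lam h (c + k * b)) := by
    have k1 := hit_duality hD hh hstep c k ((Set.Ioi (R * a n)).indicator 1)
      (measurable_one.indicator measurableSet_Ioi)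
    have k2 : ∀ y, (Set.Ioi (R * a n)).indicator (1 : ℝ → ℝ≥0∞) y * ENNReal.ofReal (hit D ρ (k + 1) y) =
        (Set.Ioi (R * a n)).indicator (fun y => ENNReal.ofReal (hit D ρ (k + 1) y)) y := by
      intro y
      by_cases hy : y ∈ Set.Ioi (R * a n)
      · rw [Set.indicator_of_mem hy, Set.indicator_of_mem hy, Pi.one_apply, one_mul]
      · rw [Set.indicator_of_notMem hy, Set.indicator_of_notMem hy, zero_mul]
    simp_rw [k2] at k1
    rw [lintegral_indicator measurableSet_Ioi, Measure.restrict_restrict measurableSet_Ioi] at k1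
    rw [Set.inter_comm, k1]
    refine lintegral_congr fun w => ?_
    rw [lintegral_indicator_one measurableSet_Ioi]
  rw [e1]
  set Λ := lam h (c + k * b) with hΛ
  have e2 : D ⊆ (D ∩ Set.Icc 0 (a n)) ∪ (Set.Ioc (a n) (R / 2 * a n) ∪ Set.Ioi (R / 2 * a n)) := by
    intro w hw
    by_cases h6 : w ≤ a n
    · exact Or.inl ⟨hw, hD.nonneg hw, h6⟩
    · push Not at h6
      by_cases h7 : w ≤ R / 2 * a n
      · exact Or.inr (Or.inl ⟨h6, h7⟩)
      · exact Or.inr (Or.inr (lt_of_not_ge h7))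
  have p1 : ∫⁻ w in D ∩ Set.Icc 0 (a n), ex D ρ w * kap D (dual ρ) k w (Set.Ioi (R * a n)) ∂Λ ≤
      ENNReal.ofReal (ε / 3 * (a n / n)) := by
    calc ∫⁻ w in D ∩ Set.Icc 0 (a n), ex D ρ w * kap D (dual ρ) k w (Set.Ioi (R * a n)) ∂Λ
        ≤ ∫⁻ w in D ∩ Set.Icc 0 (a n), ENNReal.ofReal (ε / (3 * C₁) / vr D (dual ρ) (a n)) *
            (ex D ρ w * ENNReal.ofReal (vr D (dual ρ) w)) ∂Λ := by
          refine setLIntegral_mono' (hD.meas.inter measurableSet_Icc) fun w hw => ?_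
          have hw0 : 0 ≤ w := hw.2.1
          have hw1 : w ≤ a n := hw.2.2
          have k1 := hn4 k hkn w hw0 hw1
          have k2 : ENNReal.ofReal (vr D (dual ρ) (a n)) * kap D (dual ρ) k w (Set.Ioi (R * a n)) ≤
              ENNReal.ofReal (ε / (3 * C₁) * vr D (dual ρ) w) := by
            refine le_trans ?_ k1
            calc ENNReal.ofReal (vr D (dual ρ) (a n)) * kap D (dual ρ) k w (Set.Ioi (R * a n))
                = ∫⁻ _ in Set.Ioi (R * a n), ENNReal.ofReal (vr D (dual ρ) (a n)) ∂(kap D (dual ρ) k w) := by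
                  rw [setLIntegral_const]
              _ ≤ ∫⁻ y in Set.Ioi (R * a n), ENNReal.ofReal (vr D (dual ρ) y) ∂(kap D (dual ρ) k w) := by
                  refine setLIntegral_mono' measurableSet_Ioi fun y hy => ?_
                  have hy' : R * a n < y := hy
                  refine ENNReal.ofReal_le_ofReal (hf3 ?_)
                  nlinarith
              _ ≤ _ := by
                  refine lintegral_mono_set ?_
                  intro y hy
                  have hy' : R * a n < y := hy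
                  show R₁ * a n < y
                  nlinarith
          have k3 : kap D (dual ρ) k w (Set.Ioi (R * a n)) ≤
              ENNReal.ofReal (ε / (3 * C₁) / vr D (dual ρ) (a n) * vr D (dual ρ) w) := by
            have k4 : ENNReal.ofReal (ε / (3 * C₁) * vr D (dual ρ) w) = ENNReal.ofReal (vr D (dual ρ) (a n)) *
                ENNReal.ofReal (ε / (3 * C₁) / vr D (dual ρ) (a n) * vr D (dual ρ) w) := by
              rw [← ENNReal.ofReal_mul hva.le]
              congr 1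
              field_simp
            rw [k4] at k2
            exact (ENNReal.mul_le_mul_iff_right (ENNReal.ofReal_pos.2 hva).ne' ENNReal.ofReal_ne_top).1 k2
          calc ex D ρ w * kap D (dual ρ) k w (Set.Ioi (R * a n))
              ≤ ex D ρ w * ENNReal.ofReal (ε / (3 * C₁) / vr D (dual ρ) (a n) * vr D (dual ρ) w) :=
                mul_le_mul_right k3 _
            _ = _ := by
                rw [ENNReal.ofReal_mul (by positivity)]
                ring
      _ = ENNReal.ofReal (ε / (3 * C₁) / vr D (dual ρ) (a n)) *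
            ∫⁻ w in D ∩ Set.Icc 0 (a n), ex D ρ w * ENNReal.ofReal (vr D (dual ρ) w) ∂Λ := by
          rw [lintegral_const_mul' _ _ ENNReal.ofReal_ne_top]
      _ ≤ ENNReal.ofReal (ε / (3 * C₁) / vr D (dual ρ) (a n)) *
            ENNReal.ofReal (C₁ * (a n / n * vr D (dual ρ) (a n))) := mul_le_mul_right (hn1 _) _
      _ = _ := by
          rw [← ENNReal.ofReal_mul (by positivity)]
          congr 1
          field_simp
  have p2 : ∫⁻ w in Set.Ioc (a n) (R / 2 * a n), ex D ρ w * kap D (dual ρ) k w (Set.Ioi (R * a n)) ∂Λ ≤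
      ENNReal.ofReal (ε / 3 * (a n / n)) := by
    have k1 : ∀ w ≤ R / 2 * a n, kap D (dual ρ) k w (Set.Ioi (R * a n)) ≤
        ENNReal.ofReal (C₃ * (1 / (R / 2) + 1 / (R / 2) ^ 2)) := by
      intro w hw
      refine (X1b_max hD k w (R / 2 * a n) _ measurableSet_Ioi ?_).trans ?_
      · intro y hy
        have hy' : R * a n < y := hy
        rw [le_abs]
        left
        linarith
      · rw [← ofReal_measureReal]
        refine ENNReal.ofReal_le_ofReal ((hn3 k hkn (R / 2) (by positivity)).trans ?_)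
        refine mul_le_mul_of_nonneg_right ?_ (by positivity)
        have k2 : (k : ℝ) / n ≤ 1 := by
          rw [div_le_one hnpos]
          exact_mod_cast hkn
        nlinarith
    calc ∫⁻ w in Set.Ioc (a n) (R / 2 * a n), ex D ρ w * kap D (dual ρ) k w (Set.Ioi (R * a n)) ∂Λ
        ≤ ∫⁻ w in Set.Ioc (a n) (R / 2 * a n),
            ENNReal.ofReal (C₃ * (1 / (R / 2) + 1 / (R / 2) ^ 2)) * ex D ρ w ∂Λ := by
          refine setLIntegral_mono' measurableSet_Ioc fun w hw => ?_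
          rw [mul_comm]
          exact mul_le_mul_left (k1 w hw.2) _
      _ = ENNReal.ofReal (C₃ * (1 / (R / 2) + 1 / (R / 2) ^ 2)) * ∫⁻ w in Set.Ioc (a n) (R / 2 * a n), ex D ρ w ∂Λ := by
          rw [lintegral_const_mul' _ _ ENNReal.ofReal_ne_top]
      _ ≤ ENNReal.ofReal (C₃ * (1 / (R / 2) + 1 / (R / 2) ^ 2)) * ENNReal.ofReal (C₂ * (a n / n)) := by
          refine mul_le_mul_right (le_trans (lintegral_mono_set ?_) (hn5 _).1) _
          exact fun w hw => hw.1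
      _ ≤ _ := by
          rw [← ENNReal.ofReal_mul (by positivity)]
          refine ENNReal.ofReal_le_ofReal ?_
          have k2 : 0 ≤ a n / n := by positivity
          nlinarith [mul_le_mul_of_nonneg_right hRs k2]
  have p3 : ∫⁻ w in Set.Ioi (R / 2 * a n), ex D ρ w * kap D (dual ρ) k w (Set.Ioi (R * a n)) ∂Λ ≤
      ENNReal.ofReal (ε / 3 * (a n / n)) := by
    calc ∫⁻ w in Set.Ioi (R / 2 * a n), ex D ρ w * kap D (dual ρ) k w (Set.Ioi (R * a n)) ∂Λ
        ≤ ∫⁻ w in Set.Ioi (R / 2 * a n), ex D ρ w ∂Λ := by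
          refine lintegral_mono fun w => ?_
          calc ex D ρ w * kap D (dual ρ) k w (Set.Ioi (R * a n)) ≤ ex D ρ w * 1 :=
                mul_le_mul_right ((measure_mono (Set.subset_univ _)).trans (kap_univ_le_one k w)) _
            _ = ex D ρ w := mul_one _
      _ ≤ ∫⁻ w in Set.Ioi (R₂ * a n), ex D ρ w ∂Λ := by
          refine lintegral_mono_set ?_
          intro w hw
          have hw' : R / 2 * a n < w := hw
          show R₂ * a n < w
          nlinarith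
      _ ≤ _ := (hn5 _).2
  calc ∫⁻ w in D, ex D ρ w * kap D (dual ρ) k w (Set.Ioi (R * a n)) ∂Λ
      ≤ ENNReal.ofReal (ε / 3 * (a n / n)) + (ENNReal.ofReal (ε / 3 * (a n / n)) +
          ENNReal.ofReal (ε / 3 * (a n / n))) := by
        refine (lintegral_mono_set e2).trans ((lintegral_union_le _ _ _).trans (add_le_add p1 ?_))
        exact (lintegral_union_le _ _ _).trans (add_le_add p2 p3)
    _ = _ := by
        rw [← ENNReal.ofReal_add (by positivity) (by positivity), ← ENNReal.ofReal_add (by positivity) (by positivity)]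
        congr 1
        ring


/-- the part near zero of an integral of a bounded function -/
theorem X1b_low (hD : Dom D) {h : ℝ} (hh : 0 ≤ h) (c : ℝ) {l : ℕ} {B A : ℝ} (hB : 0 ≤ B) (hA : 0 ≤ A)
    (hb : ∀ x, hit D ρ l x ≤ B) :
    ∫⁻ y in D ∩ Set.Iic A, ENNReal.ofReal (hit D ρ l y) ∂(lam h c) ≤ ENNReal.ofReal (B * (A + h)) := by
  calc ∫⁻ y in D ∩ Set.Iic A, ENNReal.ofReal (hit D ρ l y) ∂(lam h c)
      ≤ ∫⁻ _ in D ∩ Set.Iic A, ENNReal.ofReal B ∂(lam h c) :=
        setLIntegral_mono' (hD.meas.inter measurableSet_Iic) fun y _ => ENNReal.ofReal_le_ofReal (hb y)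
    _ = ENNReal.ofReal B * lam h c (D ∩ Set.Iic A) := setLIntegral_const _ _
    _ ≤ ENNReal.ofReal B * lam h c (Set.Icc 0 A) := by
        refine mul_le_mul_right (measure_mono ?_) _
        exact fun y hy => ⟨hD.nonneg hy.1, hy.2⟩
    _ ≤ ENNReal.ofReal B * ENNReal.ofReal (A - 0 + h) := mul_le_mul_right (lam_Icc_le h c 0 A hh hA) _
    _ = _ := by rw [← ENNReal.ofReal_mul hB, sub_zero]

/-- **[STB-X1d]** Near part: `hit_l ≤ C/n` (`DA.hit_le`), `lam h c (Icc 0 (δ a_n)) ≤ δ a_n + h`. -/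
theorem X1_near (hda : DA α ζ ρ a) (hD : Dom D) {h c₀ : ℝ} (hh : 0 ≤ h) (hc : 0 < c₀) :
    ∀ ε > (0 : ℝ), ∃ δ > (0 : ℝ), ∀ᶠ n : ℕ in atTop, ∀ l : ℕ, c₀ * n ≤ l → ∀ c : ℝ,
      ∫⁻ y in D ∩ Set.Iic (δ * a n), ENNReal.ofReal (hit D ρ l y) ∂(lam h c) ≤ ENNReal.ofReal (ε * (a n / n)) := by
  intro ε hε
  obtain ⟨C, hC, h1⟩ := hda.hit_le hD hc
  refine ⟨ε / (2 * C), by positivity, ?_⟩
  filter_upwards [h1, hda.top.eventually_ge_atTop (h / (ε / (2 * C))), eventually_ge_atTop 1] with n hn1 han hn l hl c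
  have hnpos : (0 : ℝ) < n := by exact_mod_cast hn
  have ha0 : 0 < a n := hda.pos n
  refine (X1b_low hD hh c (by positivity) (by positivity) (hn1 l hl).1).trans (ENNReal.ofReal_le_ofReal ?_)
  have h2 : h ≤ ε / (2 * C) * a n := by
    rw [div_le_iff₀ (by positivity)] at han
    linarith
  calc C / n * (ε / (2 * C) * a n + h) ≤ C / n * (ε / (2 * C) * a n + ε / (2 * C) * a n) := by gcongr
    _ = ε * (a n / n) := by
        field_simp
        ring


/-- **[STB-X1e]** Mass: `X1_far` with `ε = 1` and `hit_l ≤ C/n` on `[0, R a_n]`. -/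
theorem X1_mass (hda : DA α ζ ρ a) (hD : Dom D) {b h c₀ : ℝ} (hh : 0 ≤ h) (hstep : ∀ᵐ x ∂ρ, Cos h b x) (hc : 0 < c₀) :
    ∃ C > (0 : ℝ), ∀ᶠ n : ℕ in atTop, ∀ l : ℕ, c₀ * n ≤ l → l ≤ n → ∀ c : ℝ,
      ∫⁻ y in D, ENNReal.ofReal (hit D ρ l y) ∂(lam h c) ≤ ENNReal.ofReal (C * (a n / n)) := by
  obtain ⟨R, hR, h0⟩ := X1_far hda hD hh hstep 1 one_pos
  obtain ⟨C, hC, h1⟩ := hda.hit_le hD hc
  refine ⟨C * (R + h) + 1, by positivity, ?_⟩
  filter_upwards [h0, h1, hda.top.eventually_ge_atTop 1, eventually_ge_atTop 1] with n hn0 hn1 han hn l hl hln c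
  have hnpos : (0 : ℝ) < n := by exact_mod_cast hn
  have ha0 : 0 < a n := hda.pos n
  have hl1 : 1 ≤ l := by
    have : (0 : ℝ) < l := lt_of_lt_of_le (by positivity) hl
    have h3 : 0 < l := by exact_mod_cast this
    exact h3
  have e1 : D ⊆ (D ∩ Set.Iic (R * a n)) ∪ (D ∩ Set.Ioi (R * a n)) := by
    intro y hy
    by_cases h2 : y ≤ R * a n
    · exact Or.inl ⟨hy, h2⟩
    · exact Or.inr ⟨hy, lt_of_not_ge h2⟩
  refine (lintegral_mono_set e1).trans ((lintegral_union_le _ _ _).trans ((add_le_add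
    (X1b_low hD hh c (by positivity) (by positivity) (hn1 l hl).1) (hn0 l hl1 hln c)).trans ?_))
  rw [← ENNReal.ofReal_add (by positivity) (by positivity)]
  refine ENNReal.ofReal_le_ofReal ?_
  have h2 : h ≤ h * a n := by nlinarith
  calc C / n * (R * a n + h) + 1 * (a n / n) ≤ C / n * (R * a n + h * a n) + 1 * (a n / n) := by gcongr
    _ = (C * (R + h) + 1) * (a n / n) := by
        field_simp


end Pool.Agent.BPT
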