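import Pool.Agent.MP_99a865_pr.ST.X1b
import Pool.Agent.MP_99a865_pr.ST.K6c

/-! **[STB-X2a]** The exit measure: regularity in time. -/

open MeasureTheory ProbabilityTheory Filter Topology
open scoped ENNReal NNReal

namespace Pool.Agent.BPT

variable {α : ℝ} {ζ ρ : Measure ℝ} {a : ℕ → ℝ} {D : Set ℝ}

/-- continuous with compact support in `(0,∞)` -/
structure CS (δ : ℝ) (g : ℝ → ℝ) : Prop where
  pos : 0 < δ
  cont : Continuous g
  supp : ∀ x, (x ≤ δ ∨ 1 / δ ≤ x) → g x = 0

theorem X2a_supp {δ : ℝ} {g : ℝ → ℝ} (hg : CS δ g) : HasCompactSupport g := by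
  refine HasCompactSupport.intro (K := Set.Icc δ (1 / δ)) isCompact_Icc fun x hx => hg.supp x ?_
  rw [Set.mem_Icc, not_and_or] at hx
  rcases hx with h | h
  · exact Or.inl (le_of_lt (lt_of_not_ge h))
  · exact Or.inr (le_of_lt (lt_of_not_ge h))

theorem X2a_bdd {δ : ℝ} {g : ℝ → ℝ} (hg : CS δ g) : ∃ M > (0 : ℝ), ∀ x, |g x| ≤ M := by
  obtain ⟨C, hC⟩ := hg.cont.bounded_above_of_compact_support (X2a_supp hg)
  exact ⟨max C 1, lt_max_of_lt_right one_pos, fun x => (hC x).trans (le_max_left _ _)⟩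

theorem X2a_uc {δ : ℝ} {g : ℝ → ℝ} (hg : CS δ g) : UniformContinuous g :=
  hg.cont.uniformContinuous_of_tendsto_cocompact (x := 0) (X2a_supp hg).is_zero_at_infty

/-- duality for the exit measure at a later time -/
theorem X2a_swap (hD : Dom D) [IsProbabilityMeasure ρ] {b h : ℝ} (hh : 0 ≤ h) (hstep : ∀ᵐ x ∂ρ, Cos h b x)
    (c : ℝ) (k l : ℕ) (hl : 1 ≤ l) (g : ℝ → ℝ≥0∞) (hg : Measurable g) :
    ∫⁻ y in D, g y * ENNReal.ofReal (hit D ρ (l + k) y) ∂(lam h c) =
      ∫⁻ z in D, ENNReal.ofReal (hit D ρ l z) * ∫⁻ y, g y ∂(kap D (dual ρ) k z) ∂(lam h (c + k * b)) := by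
  have hmh : Measurable fun z => ENNReal.ofReal (hit D ρ l z) := (measurable_hit hD l).ennreal_ofReal
  have h1 := duality (ρ := ρ) hD b h c hh hstep k (fun x y => g x * ENNReal.ofReal (hit D ρ l y))
    ((hg.comp measurable_fst).mul (hmh.comp measurable_snd))
  have h2 : ∀ y, g y * ENNReal.ofReal (hit D ρ (l + k) y) =
      ∫⁻ w, g y * ENNReal.ofReal (hit D ρ l w) ∂(kap D ρ k y) := by
    intro y
    rw [lintegral_const_mul _ hmh, ← hit_add hD k l hl, add_comm k l]
  have h3 : ∀ z, ENNReal.ofReal (hit D ρ l z) * ∫⁻ x, g x ∂(kap D (dual ρ) k z) =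
      ∫⁻ x, g x * ENNReal.ofReal (hit D ρ l z) ∂(kap D (dual ρ) k z) := by
    intro z
    rw [lintegral_mul_const _ hg, mul_comm]
  simp_rw [h2, h3]
  exact h1

theorem X2a_fin (hD : Dom D) [IsProbabilityMeasure ρ] {b h : ℝ} (hh : 0 ≤ h) (hstep : ∀ᵐ x ∂ρ, Cos h b x)
    (c : ℝ) (k l : ℕ) (hl : 1 ≤ l) (hfin : ∫⁻ z in D, ENNReal.ofReal (hit D ρ l z) ∂(lam h (c + k * b)) ≠ ∞) :
    ∫⁻ y in D, ENNReal.ofReal (hit D ρ (l + k) y) ∂(lam h c) ≠ ∞ := by
  have hpd : IsProbabilityMeasure (dual ρ) := A2_dual_prob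
  have h1 := X2a_swap hD hh hstep c k l hl (fun _ => 1) measurable_const
  simp only [one_mul] at h1
  rw [h1]
  refine ne_top_of_le_ne_top hfin (lintegral_mono fun z => ?_)
  calc ENNReal.ofReal (hit D ρ l z) * ∫⁻ _, 1 ∂(kap D (dual ρ) k z) ≤ ENNReal.ofReal (hit D ρ l z) * 1 := by
        refine mul_le_mul_right ?_ _
        rw [lintegral_one]
        exact kap_univ_le_one k z
    _ = _ := mul_one _

theorem X2a_int (hD : Dom D) [IsProbabilityMeasure ρ] {l : ℕ} {Λ : Measure ℝ}
    (hfin : ∫⁻ z in D, ENNReal.ofReal (hit D ρ l z) ∂Λ ≠ ∞) : IntegrableOn (hit D ρ l) D Λ := by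
  refine ⟨(measurable_hit hD l).aestronglyMeasurable, ?_⟩
  unfold HasFiniteIntegral
  have h1 : ∀ z, ‖hit D ρ l z‖ₑ = ENNReal.ofReal (hit D ρ l z) := fun z =>
    Real.enorm_of_nonneg (hit_nonneg l z)
  simp_rw [h1]
  exact lt_top_iff_ne_top.2 hfin

theorem X2a_intg (hD : Dom D) [IsProbabilityMeasure ρ] {l : ℕ} {Λ : Measure ℝ}
    (hfin : ∫⁻ z in D, ENNReal.ofReal (hit D ρ l z) ∂Λ ≠ ∞) {f : ℝ → ℝ} (hf : Measurable f) {M : ℝ}
    (hM : ∀ x, |f x| ≤ M) : IntegrableOn (fun z => f z * hit D ρ l z) D Λ := by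
  have h1 := X2a_int hD hfin
  refine Integrable.mono' (h1.const_mul M) (hf.mul (measurable_hit hD l)).aestronglyMeasurable ?_
  refine Eventually.of_forall fun z => ?_
  rw [norm_mul, Real.norm_eq_abs, Real.norm_eq_abs, abs_of_nonneg (hit_nonneg l z)]
  exact mul_le_mul_of_nonneg_right (hM z) (hit_nonneg l z)

theorem X2a_kap_bd (_hD : Dom D) [IsProbabilityMeasure ρ] (k : ℕ) {f : ℝ → ℝ} {M : ℝ} (hM0 : 0 ≤ M)
    (hM : ∀ x, |f x| ≤ M) (z : ℝ) : |∫ y, f y ∂(kap D ρ k z)| ≤ M := by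
  have h1 := norm_integral_le_of_norm_le_const (μ := kap D ρ k z) (f := f) (C := M)
    (Eventually.of_forall fun x => hM x)
  rw [Real.norm_eq_abs] at h1
  refine h1.trans ?_
  have h2 : (kap D ρ k z).real Set.univ ≤ 1 := by
    unfold Measure.real
    exact ENNReal.toReal_le_of_le_ofReal zero_le_one (by rw [ENNReal.ofReal_one]; exact kap_univ_le_one k z)
  nlinarith

theorem X2a_real_nn (hD : Dom D) [IsProbabilityMeasure ρ] {b h : ℝ} (hh : 0 ≤ h) (hstep : ∀ᵐ x ∂ρ, Cos h b x)
    (c : ℝ) (k l : ℕ) (hl : 1 ≤ l) (g : ℝ → ℝ) (hg : Measurable g) (hg0 : ∀ x, 0 ≤ g x) {M : ℝ}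
    (hM : ∀ x, |g x| ≤ M) :
    ∫ y in D, g y * hit D ρ (l + k) y ∂(lam h c) =
      ∫ z in D, hit D ρ l z * ∫ y, g y ∂(kap D (dual ρ) k z) ∂(lam h (c + k * b)) := by
  have hpd : IsProbabilityMeasure (dual ρ) := A2_dual_prob
  have hgi : ∀ z, Integrable g (kap D (dual ρ) k z) := fun z =>
    Integrable.of_bound hg.aestronglyMeasurable M (Eventually.of_forall fun x => hM x)
  have hmi := measurable_integral_kap (ρ := dual ρ) hD k g hg M hM
  rw [integral_eq_lintegral_of_nonneg_ae (Eventually.of_forall fun y => mul_nonneg (hg0 y) (hit_nonneg _ y))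
    (hg.mul (measurable_hit hD _)).aestronglyMeasurable,
    integral_eq_lintegral_of_nonneg_ae (Eventually.of_forall fun z => mul_nonneg (hit_nonneg _ z)
      (integral_nonneg fun y => hg0 y)) ((measurable_hit hD _).mul hmi).aestronglyMeasurable]
  congr 1
  have h1 := X2a_swap hD hh hstep c k l hl (fun y => ENNReal.ofReal (g y)) hg.ennreal_ofReal
  have h2 : ∀ y, ENNReal.ofReal (g y * hit D ρ (l + k) y) = ENNReal.ofReal (g y) * ENNReal.ofReal (hit D ρ (l + k) y) :=
    fun y => ENNReal.ofReal_mul (hg0 y)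
  have h3 : ∀ z, ENNReal.ofReal (hit D ρ l z * ∫ y, g y ∂(kap D (dual ρ) k z)) =
      ENNReal.ofReal (hit D ρ l z) * ∫⁻ y, ENNReal.ofReal (g y) ∂(kap D (dual ρ) k z) := by
    intro z
    rw [ENNReal.ofReal_mul (hit_nonneg _ z),
      ofReal_integral_eq_lintegral_ofReal (hgi z) (Eventually.of_forall fun y => hg0 y)]
  simp_rw [h2, h3]
  exact h1

theorem X2a_real (hD : Dom D) [IsProbabilityMeasure ρ] {b h : ℝ} (hh : 0 ≤ h) (hstep : ∀ᵐ x ∂ρ, Cos h b x)
    (c : ℝ) (k l : ℕ) (hl : 1 ≤ l) (hfin : ∫⁻ z in D, ENNReal.ofReal (hit D ρ l z) ∂(lam h (c + k * b)) ≠ ∞)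
    (g : ℝ → ℝ) (hg : Measurable g) {M : ℝ} (hM : ∀ x, |g x| ≤ M) :
    ∫ y in D, g y * hit D ρ (l + k) y ∂(lam h c) =
      ∫ z in D, hit D ρ l z * ∫ y, g y ∂(kap D (dual ρ) k z) ∂(lam h (c + k * b)) := by
  have hpd : IsProbabilityMeasure (dual ρ) := A2_dual_prob
  have hM0 : 0 ≤ M := (abs_nonneg _).trans (hM 0)
  have hfin' := X2a_fin hD hh hstep c k l hl hfin
  have e1 := X2a_real_nn hD hh hstep c k l hl (fun y => g y + M) (hg.add_const M)
    (fun x => by linarith [(abs_le.1 (hM x)).1]) (M := 2 * M) (fun x => by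
      rw [abs_le]
      constructor <;> linarith [(abs_le.1 (hM x)).1, (abs_le.1 (hM x)).2])
  have e2 := X2a_real_nn hD hh hstep c k l hl (fun _ => M) measurable_const (fun x => hM0) (M := M)
    (fun x => by rw [abs_of_nonneg hM0])
  have hgi : ∀ z, Integrable g (kap D (dual ρ) k z) := fun z =>
    Integrable.of_bound hg.aestronglyMeasurable M (Eventually.of_forall fun x => hM x)
  have i1 := X2a_intg hD hfin' hg hM
  have i2 : IntegrableOn (fun z => M * hit D ρ (l + k) z) D (lam h c) := (X2a_int hD hfin').const_mul M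
  have i3 : IntegrableOn (fun z => hit D ρ l z * ∫ y, g y ∂(kap D (dual ρ) k z)) D (lam h (c + k * b)) := by
    have := X2a_intg hD hfin (measurable_integral_kap (ρ := dual ρ) hD k g hg M hM)
      (M := M) (fun z => X2a_kap_bd hD k hM0 hM z)
    refine this.congr (Eventually.of_forall fun z => ?_)
    simp only []
    rw [mul_comm]
  have i4 : IntegrableOn (fun z => hit D ρ l z * ∫ _, M ∂(kap D (dual ρ) k z)) D (lam h (c + k * b)) := by
    have := X2a_intg hD hfin (measurable_integral_kap (ρ := dual ρ) hD k (fun _ => M) measurable_const M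
      (fun _ => by rw [abs_of_nonneg hM0])) (M := M) (fun z => X2a_kap_bd hD k hM0 (fun _ => by rw [abs_of_nonneg hM0]) z)
    refine this.congr (Eventually.of_forall fun z => ?_)
    simp only []
    rw [mul_comm]
  have f1 : ∫ y in D, (g y + M) * hit D ρ (l + k) y ∂(lam h c) =
      (∫ y in D, g y * hit D ρ (l + k) y ∂(lam h c)) + ∫ y in D, M * hit D ρ (l + k) y ∂(lam h c) := by
    rw [← integral_add i1 i2]
    refine integral_congr_ae (Eventually.of_forall fun z => ?_)
    simp only []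
    ring
  have f2 : ∫ z in D, hit D ρ l z * ∫ y, g y + M ∂(kap D (dual ρ) k z) ∂(lam h (c + k * b)) =
      (∫ z in D, hit D ρ l z * ∫ y, g y ∂(kap D (dual ρ) k z) ∂(lam h (c + k * b))) +
      ∫ z in D, hit D ρ l z * ∫ _, M ∂(kap D (dual ρ) k z) ∂(lam h (c + k * b)) := by
    rw [← integral_add i3 i4]
    refine integral_congr_ae (Eventually.of_forall fun z => ?_)
    simp only []
    rw [integral_add (hgi z) (integrable_const M)]
    ring
  rw [f1, f2, e2] at e1
  linarith

/-- **[STB-X2a]** Time regularity. PROOF. By `hit_add` and `duality` (`F y z = g(y/a) hit_l(z)`; write `g = g⁺ - g⁻` to work with `lintegral`)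
`bl D ρ h c a_n (l+k) g = ∫_{z ∈ D} hit_l(z) (∫ g(y/a_n) ∂(kap D (dual ρ) k z)(y)) ∂(lam h (c + k b))`. Hence the difference is at most
`sup_z |∫ g(y/a_n) ∂(kap D (dual ρ) k z) - g(z/a_n)|` times the mass `≤ C a_n/n` (`X1_mass`). Let `|g| ≤ M`, `ω` its modulus of continuity and `θ < δ/2`.
If `z ≥ δ a_n/2`: on `{max_{i≤k} |S_i| < θ a_n}` the walk stays alive and the difference is at most `ω(θ)`; if `z < δ a_n/2` then `g(z/a_n) = 0` and
`|∫ g ∂kap| ≤ M P(max ≥ δ a_n/2)`. And `P(max_{i≤k}|S_i| ≥ θ a_n) ≤ C η (1/θ + 1/θ²)` (`DA.max` for the dual walk). Choose `θ`, then `η`. -/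
theorem X2_time (hda : DA α ζ ρ a) (hD : Dom D) {b h c₀ : ℝ} (hh : 0 ≤ h) (hstep : ∀ᵐ x ∂ρ, Cos h b x) (hc : 0 < c₀)
    {δ : ℝ} {g : ℝ → ℝ} (hg : CS δ g) : ∀ ε > (0 : ℝ), ∃ η > (0 : ℝ), ∀ᶠ n : ℕ in atTop, ∀ l : ℕ, c₀ * n ≤ l → l ≤ n →
      ∀ k : ℕ, (k : ℝ) ≤ η * n → ∀ c : ℝ,
        |bl D ρ h c (a n) (l + k) g - bl D ρ h (c + k * b) (a n) l g| ≤ ε * (a n / n) := by
  intro ε hε
  have hp := hda.prob
  have hdd := hda.dual
  have hpd := hdd.prob
  have hδ := hg.pos
  obtain ⟨M, hM0, hM⟩ := X2a_bdd hg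
  obtain ⟨C₁, hC₁, h1⟩ := X1_mass hda hD hh hstep hc
  obtain ⟨C₂, hC₂, h2⟩ := hdd.max
  obtain ⟨ε', hε', hε'1⟩ : ∃ ε' > (0 : ℝ), ε' * C₁ = ε := ⟨ε / C₁, by positivity, by field_simp⟩
  obtain ⟨θ₀, hθ₀, hω⟩ := Metric.uniformContinuous_iff.1 (X2a_uc hg) (ε' / 2) (by positivity)
  obtain ⟨θ, hθ, hθ1, hθ2⟩ : ∃ θ > (0 : ℝ), θ ≤ θ₀ ∧ θ < δ / 2 :=
    ⟨min θ₀ (δ / 3), by positivity, min_le_left _ _, lt_of_le_of_lt (min_le_right _ _) (by linarith)⟩
  obtain ⟨η, hη0, hη1, hη2⟩ : ∃ η > (0 : ℝ), η ≤ 1 ∧ 2 * M * (C₂ * (η * (1 / θ + 1 / θ ^ 2))) ≤ ε' / 2 := by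
    refine ⟨min (ε' / 2 / (2 * M * (C₂ * (1 / θ + 1 / θ ^ 2)))) 1, by positivity, min_le_right _ _, ?_⟩
    calc 2 * M * (C₂ * (min (ε' / 2 / (2 * M * (C₂ * (1 / θ + 1 / θ ^ 2)))) 1 * (1 / θ + 1 / θ ^ 2)))
        ≤ 2 * M * (C₂ * ((ε' / 2 / (2 * M * (C₂ * (1 / θ + 1 / θ ^ 2)))) * (1 / θ + 1 / θ ^ 2))) := by
          gcongr
          exact min_le_left _ _
      _ = ε' / 2 := by field_simp
  refine ⟨η, hη0, ?_⟩
  filter_upwards [h1, h2, eventually_ge_atTop 1] with n hn1 hn2 hn l hl hln k hk c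
  have hnpos : (0 : ℝ) < n := by exact_mod_cast hn
  have ha0 : 0 < a n := hda.pos n
  have hl1 : 1 ≤ l := by
    have : (0 : ℝ) < l := lt_of_lt_of_le (by positivity) hl
    have h3 : 0 < l := by exact_mod_cast this
    exact h3
  have hfin : ∫⁻ z in D, ENNReal.ofReal (hit D ρ l z) ∂(lam h (c + k * b)) ≠ ∞ :=
    ne_top_of_le_ne_top ENNReal.ofReal_ne_top (hn1 l hl hln _)
  have hgm : Measurable g := hg.cont.measurable
  have hgs : Measurable fun y => g (y / a n) := hgm.comp (measurable_id.div_const _)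
  have e1 := X2a_real hD hh hstep c k l hl1 hfin (fun y => g (y / a n)) hgs (M := M) (fun y => hM _)
  have i1 : IntegrableOn (fun z => g (z / a n) * hit D ρ l z) D (lam h (c + k * b)) :=
    X2a_intg hD hfin hgs (M := M) (fun y => hM _)
  have i3 : IntegrableOn (fun z => hit D ρ l z * ∫ y, g (y / a n) ∂(kap D (dual ρ) k z)) D (lam h (c + k * b)) := by
    have := X2a_intg hD hfin (measurable_integral_kap (ρ := dual ρ) hD k (fun y => g (y / a n)) hgs M (fun y => hM _))
      (M := M) (fun z => X2a_kap_bd hD k hM0.le (fun y => hM _) z)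
    refine this.congr (Eventually.of_forall fun z => ?_)
    simp only []
    rw [mul_comm]
  -- the pointwise estimate
  have hpt : ∀ z ∈ D, |(∫ y, g (y / a n) ∂(kap D (dual ρ) k z)) - g (z / a n)| ≤ ε' := by
    intro z hz
    have hz0 : 0 ≤ z := hD.nonneg hz
    -- maximal inequality
    set E : Set (ℕ → ℝ) := {ω | ∃ j ≤ k, θ * a n ≤ |S j ω|} with hE
    have hEm : MeasurableSet E := by
      have : E = ⋃ j ∈ Set.Iic k, {ω | θ * a n ≤ |S j ω|} := by
        ext ω
        simp only [hE, Set.mem_ofPred_eq, Set.mem_iUnion, Set.mem_Iic, exists_prop]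
      rw [this]
      refine MeasurableSet.biUnion (Set.to_countable _) fun j _ => ?_
      exact measurableSet_le measurable_const (measurable_S j).abs
    have hkn : k ≤ n := by
      have h5 : (k : ℝ) ≤ n := hk.trans (by nlinarith)
      exact_mod_cast h5
    · have hPE : (seqLaw (dual ρ)).real E ≤ C₂ * (η * (1 / θ + 1 / θ ^ 2)) := by
        refine (hn2 k hkn θ hθ).trans ?_
        rw [mul_assoc]
        refine mul_le_mul_of_nonneg_left ?_ hC₂.le
        refine mul_le_mul_of_nonneg_right ?_ (by positivity)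
        rwa [div_le_iff₀ hnpos]
      rw [integral_kap_eq hD k z _ hgs, ← integral_indicator (measurableSet_alive hD z k)]
      have h4 : g (z / a n) = ∫ _, g (z / a n) ∂(seqLaw (dual ρ)) := by
        rw [integral_const]
        simp
      have hmi : Measurable (Set.indicator {ω | Alive D z k ω} fun ω => g ((z + S k ω) / a n)) :=
        (hgs.comp (A1_meas_add k z)).indicator (measurableSet_alive hD z k)
      have hib : ∀ ω, |Set.indicator {ω | Alive D z k ω} (fun ω => g ((z + S k ω) / a n)) ω| ≤ M := by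
        intro ω
        by_cases h5 : ω ∈ {ω | Alive D z k ω}
        · rw [Set.indicator_of_mem h5]
          exact hM _
        · rw [Set.indicator_of_notMem h5, abs_zero]
          exact hM0.le
      rw [h4, ← integral_sub (Integrable.of_bound hmi.aestronglyMeasurable M
        (Eventually.of_forall fun ω => hib ω)) (integrable_const _)]
      have h6 : ∀ ω, |Set.indicator {ω | Alive D z k ω} (fun ω => g ((z + S k ω) / a n)) ω - g (z / a n)| ≤
          ε' / 2 + 2 * M * E.indicator 1 ω := by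
        intro ω
        by_cases hω1 : ω ∈ E
        · rw [Set.indicator_of_mem hω1, Pi.one_apply, mul_one]
          have h7 := hib ω
          have h8 := hM (z / a n)
          have h9 := abs_sub (Set.indicator {ω | Alive D z k ω} (fun ω => g ((z + S k ω) / a n)) ω) (g (z / a n))
          linarith
        · rw [Set.indicator_of_notMem hω1, mul_zero, add_zero]
          have h7 : ∀ j ≤ k, |S j ω| < θ * a n := by
            intro j hj
            by_contra h8
            exact hω1 ⟨j, hj, le_of_not_gt h8⟩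
          by_cases hz1 : δ / 2 * a n ≤ z
          · have h8 : ω ∈ {ω | Alive D z k ω} := by
              intro j _ hj
              apply hD.pos
              have h9 := (abs_lt.1 (h7 j hj)).1
              nlinarith
            rw [Set.indicator_of_mem h8]
            have h9 : dist ((z + S k ω) / a n) (z / a n) < θ₀ := by
              rw [Real.dist_eq, ← sub_div, add_sub_cancel_left, abs_div, abs_of_pos ha0, div_lt_iff₀ ha0]
              exact lt_of_lt_of_le (h7 k le_rfl) (mul_le_mul_of_nonneg_right hθ1 ha0.le)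
            have h10 := hω h9
            rw [Real.dist_eq] at h10
            exact h10.le
          · push Not at hz1
            have h8 : g (z / a n) = 0 := by
              apply hg.supp
              left
              rw [div_le_iff₀ ha0]
              nlinarith
            have h9 : g ((z + S k ω) / a n) = 0 := by
              apply hg.supp
              left
              rw [div_le_iff₀ ha0]
              have h10 := (abs_lt.1 (h7 k le_rfl)).2
              nlinarith
            rw [h8, sub_zero]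
            by_cases h10 : ω ∈ {ω | Alive D z k ω}
            · rw [Set.indicator_of_mem h10, h9, abs_zero]
              positivity
            · rw [Set.indicator_of_notMem h10, abs_zero]
              positivity
      have h7 : Integrable (fun ω => ε' / 2 + 2 * M * E.indicator (1 : (ℕ → ℝ) → ℝ) ω) (seqLaw (dual ρ)) := by
        refine (integrable_const _).add (Integrable.const_mul ?_ _)
        exact (integrable_const (1 : ℝ)).indicator hEm
      rw [← Real.norm_eq_abs]
      refine (norm_integral_le_of_norm_le h7 (Eventually.of_forall fun ω => h6 ω)).trans ?_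
      have h8 : Integrable (fun ω => E.indicator (1 : (ℕ → ℝ) → ℝ) ω) (seqLaw (dual ρ)) :=
        (integrable_const (1 : ℝ)).indicator hEm
      rw [integral_add (integrable_const _) (h8.const_mul _),
        integral_const, integral_const_mul, integral_indicator_one hEm]
      rw [probReal_univ, one_smul]
      nlinarith [mul_le_mul_of_nonneg_left hPE (by positivity : 0 ≤ 2 * M)]
  have hbl : bl D ρ h c (a n) (l + k) g - bl D ρ h (c + k * b) (a n) l g =
      ∫ z in D, hit D ρ l z * ((∫ y, g (y / a n) ∂(kap D (dual ρ) k z)) - g (z / a n)) ∂(lam h (c + k * b)) := by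
    unfold bl
    rw [e1, ← integral_sub i3 i1]
    refine integral_congr_ae (Eventually.of_forall fun z => ?_)
    simp only []
    ring
  rw [hbl, ← Real.norm_eq_abs]
  refine (norm_integral_le_of_norm_le ((X2a_int hD hfin).const_mul ε') ?_).trans ?_
  · filter_upwards [ae_restrict_mem hD.meas] with z hz
    rw [norm_mul, Real.norm_eq_abs, Real.norm_eq_abs, abs_of_nonneg (hit_nonneg l z), mul_comm]
    exact mul_le_mul_of_nonneg_right (hpt z hz) (hit_nonneg l z)
  · rw [integral_const_mul, integral_eq_lintegral_of_nonneg_ae (Eventually.of_forall fun z => hit_nonneg l z)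
      (measurable_hit hD l).aestronglyMeasurable, ← hε'1]
    have h4 : (∫⁻ z in D, ENNReal.ofReal (hit D ρ l z) ∂(lam h (c + k * b))).toReal ≤ C₁ * (a n / n) :=
      ENNReal.toReal_le_of_le_ofReal (by positivity) (hn1 l hl hln _)
    calc ε' * (∫⁻ z in D, ENNReal.ofReal (hit D ρ l z) ∂(lam h (c + k * b))).toReal
        ≤ ε' * (C₁ * (a n / n)) := mul_le_mul_of_nonneg_left h4 hε'.le
      _ = _ := by ring


end Pool.Agent.BPT
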