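import Pool.Agent.MP_99a865_pr.ST.X2a

/-! **[STB-X2b]** Telescoping. -/

open MeasureTheory ProbabilityTheory Filter Topology
open scoped ENNReal NNReal

namespace Pool.Agent.BPT

variable {α : ℝ} {ζ ρ : Measure ℝ} {a : ℕ → ℝ} {D : Set ℝ}

lemma X2b_hit (hD : Dom D) [IsProbabilityMeasure ρ] (m : ℕ) (y : ℝ) :
    hit D ρ (m + 1) y = al D ρ m y - al D ρ (m + 1) y := by
  have h1 := surv_add_hit hD (ρ := ρ) m y
  have h2 := surv_add_hit hD (ρ := ρ) (m + 1) y
  rw [Finset.sum_range_succ] at h2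
  have hfin : ∑ n ∈ Finset.range (m + 1), ENNReal.ofReal (hit D ρ n y) ≠ ⊤ := by
    rw [ENNReal.sum_ne_top]
    intro i _
    exact ENNReal.ofReal_ne_top
  have h3 : kap D ρ m y Set.univ = kap D ρ (m + 1) y Set.univ + ENNReal.ofReal (hit D ρ (m + 1) y) := by
    have h4 : kap D ρ m y Set.univ + ∑ n ∈ Finset.range (m + 1), ENNReal.ofReal (hit D ρ n y) =
        kap D ρ (m + 1) y Set.univ + ENNReal.ofReal (hit D ρ (m + 1) y) +
          ∑ n ∈ Finset.range (m + 1), ENNReal.ofReal (hit D ρ n y) := by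
      rw [h1, ← h2]
      ring
    exact (ENNReal.add_left_inj hfin).mp h4
  unfold al
  have h5 : (kap D ρ m y).real Set.univ = (kap D ρ (m + 1) y).real Set.univ + hit D ρ (m + 1) y := by
    unfold Measure.real
    rw [h3, ENNReal.toReal_add (measure_ne_top _ _) ENNReal.ofReal_ne_top,
      ENNReal.toReal_ofReal (hit_nonneg _ _)]
  rw [h5]
  ring

lemma X2b_sum (hD : Dom D) [IsProbabilityMeasure ρ] (l k : ℕ) (hl : 1 ≤ l) (y : ℝ) :
    ∑ i ∈ Finset.range k, hit D ρ (l + i) y = al D ρ (l - 1) y - al D ρ (l - 1 + k) y := by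
  induction k with
  | zero => simp
  | succ k ih =>
    rw [Finset.sum_range_succ, ih]
    have h1 : l + k = (l - 1 + k) + 1 := by omega
    rw [h1, X2b_hit hD, ← add_assoc]
    ring

lemma X2b_ae (hD : Dom D) : D =ᵐ[volume] Set.Ioi (0 : ℝ) := by
  rcases hD with rfl | rfl
  · exact (Ioi_ae_eq_Ici (a := (0 : ℝ))).symm
  · exact Filter.EventuallyEq.rfl

/-- **[STB-X2b]** Telescoping. PROOF. `∑_{i<k} hit_{l+i}(y) = al D ρ (l-1) y - al D ρ (l-1+k) y` for `y` arbitrary, `l ≥ 1` (`surv_add_hit` or `exit_mass`), so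
`∑_{i<k} bl D ρ 0 0 s (l+i) g = ∫_{y ∈ D} g(y/s) (al (l-1) y - al (l-1+k) y) dy = s ∫_{u>0} g(u) (al (l-1) (s u) - al (l-1+k) (s u)) du`. -/
theorem X2_tele (hD : Dom D) [IsProbabilityMeasure ρ] {δ : ℝ} {g : ℝ → ℝ} (hg : CS δ g) {s : ℝ} (hs : 0 < s) (l k : ℕ)
    (hl : 1 ≤ l) : ∑ i ∈ Finset.range k, bl D ρ 0 0 s (l + i) g =
      s * ∫ u in Set.Ioi (0 : ℝ), g u * (al D ρ (l - 1) (s * u) - al D ρ (l - 1 + k) (s * u)) := by
  have hgs : HasCompactSupport g := by
    refine HasCompactSupport.intro (K := Set.Icc δ (1 / δ)) isCompact_Icc ?_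
    intro x hx
    apply hg.supp
    by_contra h
    push Not at h
    exact hx ⟨h.1.le, h.2.le⟩
  have hgi : Integrable g := hg.cont.integrable_of_hasCompactSupport hgs
  have hgi2 : Integrable (fun y : ℝ => g (y / s)) := by
    have := hgi.comp_mul_right' (R := s⁻¹) (inv_ne_zero hs.ne')
    simpa [div_eq_mul_inv] using this
  have hint : ∀ i, Integrable (fun y => g (y / s) * hit D ρ (l + i) y) (volume.restrict D) := by
    intro i
    have h1 : Integrable (fun y : ℝ => g (y / s)) (volume.restrict D) := hgi2.restrict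
    refine h1.mul_bdd (c := 1) ?_ ?_
    · exact (measurable_hit hD _).aestronglyMeasurable
    · refine Filter.Eventually.of_forall fun y => ?_
      rw [Real.norm_eq_abs, abs_of_nonneg (hit_nonneg _ _)]
      exact hit_le_one _ _
  have h1 : ∀ i, bl D ρ 0 0 s (l + i) g = ∫ y in D, g (y / s) * hit D ρ (l + i) y := by
    intro i
    unfold bl
    rw [lam_zero]
  simp_rw [h1]
  rw [← integral_finsetSum _ (fun i _ => hint i)]
  have h2 : ∀ y, ∑ i ∈ Finset.range k, g (y / s) * hit D ρ (l + i) y =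
      g (y / s) * (al D ρ (l - 1) y - al D ρ (l - 1 + k) y) := by
    intro y
    rw [← Finset.mul_sum, X2b_sum hD l k hl]
  simp_rw [h2]
  rw [setIntegral_congr_set (X2b_ae hD)]
  have h3 := integral_comp_mul_left_Ioi
    (fun y => g (y / s) * (al D ρ (l - 1) y - al D ρ (l - 1 + k) y)) 0 hs
  rw [mul_zero] at h3
  have h4 : ∀ u, g u = g (s * u / s) := by
    intro u
    rw [mul_div_cancel_left₀ u hs.ne']
  have h5 : ∫ u in Set.Ioi (0 : ℝ), g u * (al D ρ (l - 1) (s * u) - al D ρ (l - 1 + k) (s * u)) =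
      ∫ u in Set.Ioi (0 : ℝ), g (s * u / s) * (al D ρ (l - 1) (s * u) - al D ρ (l - 1 + k) (s * u)) := by
    refine integral_congr_ae (Filter.Eventually.of_forall fun u => ?_)
    simp only
    rw [← h4 u]
  rw [h5, h3, smul_eq_mul, ← mul_assoc, mul_inv_cancel₀ hs.ne', one_mul]

end Pool.Agent.BPT
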