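import Pool.Agent.MP_99a865_pr.ST.X2b

/-! **[STB-X2c]** The limit of the exit measure for Lebesgue measure. -/

open MeasureTheory ProbabilityTheory Filter Topology
open scoped ENNReal NNReal

namespace Pool.Agent.BPT

variable {α : ℝ} {ζ ρ : Measure ℝ} {a : ℕ → ℝ} {D : Set ℝ}

theorem X2c_al_le [IsProbabilityMeasure ρ] (m : ℕ) (x : ℝ) : al D ρ m x ≤ 1 := by
  unfold al Measure.real
  exact ENNReal.toReal_le_of_le_ofReal zero_le_one (by simpa using kap_univ_le_one m x)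

theorem X2c_al_nonneg (m : ℕ) (x : ℝ) : 0 ≤ al D ρ m x := measureReal_nonneg

theorem X2c_al_meas [IsProbabilityMeasure ρ] (hD : Dom D) (m : ℕ) : Measurable (al D ρ m) := by
  unfold al Measure.real
  exact ((Measure.measurable_coe MeasurableSet.univ).comp (measurable_kap hD m)).ennreal_toReal

theorem X2c_int {δ : ℝ} {g : ℝ → ℝ} (hg : CS δ g) : Integrable g := by
  apply hg.cont.integrable_of_hasCompactSupport
  apply HasCompactSupport.intro (K := Set.Icc δ (1 / δ)) isCompact_Icc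
  intro x hx
  apply hg.supp
  rw [Set.mem_Icc, not_and_or, not_le, not_le] at hx
  rcases hx with hx | hx
  · exact Or.inl hx.le
  · exact Or.inr hx.le

theorem X2c_ev {n l : ℕ → ℕ} {r : ℝ} (hr : 0 < r) (hT : Tm n l r) (m : ℕ) : ∀ᶠ j in atTop, m ≤ l j := by
  have h1 : ∀ᶠ j in atTop, r / 2 < (l j : ℝ) / n j := hT.lim.eventually (lt_mem_nhds (by linarith))
  have h2 : ∀ᶠ j in atTop, ⌈2 * (m : ℝ) / r⌉₊ + 1 ≤ n j := hT.top.eventually_ge_atTop _
  filter_upwards [h1, h2] with j h1 h2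
  have hn0 : 0 < n j := by omega
  have hn : (0 : ℝ) < n j := by exact_mod_cast hn0
  rw [lt_div_iff₀ hn] at h1
  have h3 : 2 * (m : ℝ) / r ≤ n j := by
    have h4 := Nat.le_ceil (2 * (m : ℝ) / r)
    have h5 : ((⌈2 * (m : ℝ) / r⌉₊ + 1 : ℕ) : ℝ) ≤ n j := by exact_mod_cast h2
    push_cast at h5
    linarith
  have h4 : (m : ℝ) ≤ r / 2 * n j := by
    rw [div_le_iff₀ hr] at h3
    linarith
  have h5 : (m : ℝ) < l j := by linarith
  have h6 : m < l j := by exact_mod_cast h5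
  exact h6.le

theorem X2c_pred {n l : ℕ → ℕ} {r : ℝ} (hT : Tm n l r) : Tm n (fun j => l j - 1) r := by
  refine ⟨hT.top, ?_⟩
  have hn : Tendsto (fun j => (n j : ℝ)) atTop atTop := tendsto_natCast_atTop_atTop.comp hT.top
  have h1 : Tendsto (fun j => (l j : ℝ) / n j - 1 / n j) atTop (𝓝 (r - 0)) :=
    hT.lim.sub (tendsto_const_nhds.div_atTop hn)
  rw [sub_zero] at h1
  refine tendsto_of_tendsto_of_tendsto_of_le_of_le h1 hT.lim (fun j => ?_) (fun j => ?_)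
  · change (l j : ℝ) / n j - 1 / n j ≤ ((l j - 1 : ℕ) : ℝ) / n j
    rw [← sub_div]
    apply div_le_div_of_nonneg_right _ (Nat.cast_nonneg _)
    have h2 : l j ≤ (l j - 1) + 1 := by omega
    have h3 : (l j : ℝ) ≤ ((l j - 1 : ℕ) : ℝ) + 1 := by exact_mod_cast h2
    linarith
  · change ((l j - 1 : ℕ) : ℝ) / n j ≤ (l j : ℝ) / n j
    apply div_le_div_of_nonneg_right _ (Nat.cast_nonneg _)
    exact_mod_cast Nat.sub_le _ _

theorem X2c_floor {n l : ℕ → ℕ} {r : ℝ} (hT : Tm n l r) {η : ℝ} (hη : 0 < η) : Tm n (fun j => ⌊η * n j⌋₊) η := by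
  refine ⟨hT.top, ?_⟩
  have hn : Tendsto (fun j => (n j : ℝ)) atTop atTop := tendsto_natCast_atTop_atTop.comp hT.top
  exact (tendsto_nat_floor_mul_div_atTop hη.le).comp hn

theorem X2c_add {n k l : ℕ → ℕ} {r s : ℝ} (hT : Tm n k r) (hT' : Tm n l s) : Tm n (fun j => k j + l j) (r + s) := by
  refine ⟨hT.top, ?_⟩
  have h1 := hT.lim.add hT'.lim
  refine h1.congr fun j => ?_
  push_cast
  rw [add_div]

/-- averages -/
theorem X2c_avg (hda : DA α ζ ρ a) (hD : Dom D) {δ : ℝ} {g : ℝ → ℝ} (hg : CS δ g) {n l : ℕ → ℕ} {r : ℝ} (hr : 0 < r)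
    (hT : Tm n l r) {η : ℝ} (hη : 0 < η) :
    Tendsto (fun j => (n j : ℝ) / a (n j) * ((∑ i ∈ Finset.range ⌊η * n j⌋₊, bl D ρ 0 0 (a (n j)) (l j + i) g) / ⌊η * n j⌋₊))
      atTop (𝓝 ((∫ y in Set.Ioi (0 : ℝ), g y * (QO α ζ r y - QO α ζ (r + η) y)) / η)) := by
  have hprob := hda.prob
  have hT1 := X2c_pred hT
  have hT2 := X2c_floor hT hη
  have hT3 := X2c_add hT1 hT2
  have hlim : Tendsto (fun j => ∫ u in Set.Ioi (0 : ℝ), g u * (al D ρ (l j - 1) (a (n j) * u) -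
      al D ρ (l j - 1 + ⌊η * n j⌋₊) (a (n j) * u))) atTop
      (𝓝 (∫ y in Set.Ioi (0 : ℝ), g y * (QO α ζ r y - QO α ζ (r + η) y))) := by
    apply tendsto_integral_of_dominated_convergence (fun u => |g u|)
    · intro j
      exact (hg.cont.measurable.mul (((X2c_al_meas hD _).comp (measurable_const_mul _)).sub
        ((X2c_al_meas hD _).comp (measurable_const_mul _)))).aestronglyMeasurable
    · exact (X2c_int hg).abs.integrableOn
    · intro j
      refine Eventually.of_forall fun u => ?_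
      rw [Real.norm_eq_abs, abs_mul]
      have h1 : |al D ρ (l j - 1) (a (n j) * u) - al D ρ (l j - 1 + ⌊η * n j⌋₊) (a (n j) * u)| ≤ 1 := by
        rw [abs_le]
        constructor
        · have h2 := X2c_al_nonneg (D := D) (ρ := ρ) (l j - 1) (a (n j) * u)
          have h3 := X2c_al_le (D := D) (ρ := ρ) (l j - 1 + ⌊η * n j⌋₊) (a (n j) * u)
          linarith
        · have h2 := X2c_al_le (D := D) (ρ := ρ) (l j - 1) (a (n j) * u)
          have h3 := X2c_al_nonneg (D := D) (ρ := ρ) (l j - 1 + ⌊η * n j⌋₊) (a (n j) * u)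
          linarith
      calc |g u| * |al D ρ (l j - 1) (a (n j) * u) - al D ρ (l j - 1 + ⌊η * n j⌋₊) (a (n j) * u)| ≤ |g u| * 1 :=
            mul_le_mul_of_nonneg_left h1 (abs_nonneg _)
        _ = |g u| := mul_one _
    · refine (ae_restrict_mem measurableSet_Ioi).mono fun u hu => ?_
      have hu0 : (0 : ℝ) < u := hu
      have hx : Tendsto (fun j => (a (n j) * u) / a (n j)) atTop (𝓝 u) := by
        refine tendsto_const_nhds.congr fun j => ?_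
        rw [mul_div_cancel_left₀ _ (hda.pos _).ne']
      exact ((al_seq hda hD hT1 hr hu0 hx).sub (al_seq hda hD hT3 (by linarith) hu0 hx)).const_mul (g u)
  have hk : Tendsto (fun j => (n j : ℝ) / ⌊η * n j⌋₊) atTop (𝓝 (1 / η)) := by
    have h1 := hT2.lim.inv₀ hη.ne'
    rw [← one_div] at h1
    refine h1.congr fun j => ?_
    rw [inv_div]
  have h1 := hk.mul hlim
  have e1 : 1 / η * ∫ y in Set.Ioi (0 : ℝ), g y * (QO α ζ r y - QO α ζ (r + η) y) =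
      (∫ y in Set.Ioi (0 : ℝ), g y * (QO α ζ r y - QO α ζ (r + η) y)) / η := by ring
  rw [e1] at h1
  refine h1.congr' ?_
  filter_upwards [X2c_ev hr hT 1] with j hl1
  have ha := hda.pos (n j)
  rw [X2_tele hD hg ha (l j) _ hl1]
  field_simp

/-- the average is close to each term -/
theorem X2c_close (hda : DA α ζ ρ a) (hD : Dom D) {δ : ℝ} {g : ℝ → ℝ} (hg : CS δ g) {n l : ℕ → ℕ} {r : ℝ} (hr : 0 < r)
    (hr1 : r < 1) (hT : Tm n l r) {ε : ℝ} (hε : 0 < ε) : ∃ η₀ > (0 : ℝ), ∀ η : ℝ, 0 < η → η ≤ η₀ → ∀ᶠ j in atTop,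
    |(n j : ℝ) / a (n j) * ((∑ i ∈ Finset.range ⌊η * n j⌋₊, bl D ρ 0 0 (a (n j)) (l j + i) g) / ⌊η * n j⌋₊) -
      (n j : ℝ) / a (n j) * bl D ρ 0 0 (a (n j)) (l j) g| ≤ ε := by
  have hstep : ∀ᵐ x ∂ρ, Cos 0 0 x := Eventually.of_forall fun x h => absurd rfl h
  obtain ⟨η₀, hη₀, hX⟩ := X2_time hda hD le_rfl hstep (show 0 < r / 2 by linarith) hg ε hε
  refine ⟨η₀, hη₀, fun η hη hη1 => ?_⟩
  have e1 : ∀ᶠ j in atTop, r / 2 < (l j : ℝ) / n j := hT.lim.eventually (lt_mem_nhds (by linarith))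
  have e2 : ∀ᶠ j in atTop, (l j : ℝ) / n j < 1 := hT.lim.eventually (gt_mem_nhds hr1)
  filter_upwards [hT.top.eventually hX, e1, e2, hT.top.eventually_ge_atTop 1, X2c_ev hη (X2c_floor hT hη) 1] with
    j h1 h2 h3 h4 h5
  have hn : (0 : ℝ) < n j := by exact_mod_cast h4
  have ha := hda.pos (n j)
  rw [lt_div_iff₀ hn] at h2
  rw [div_lt_one hn] at h3
  have hln : l j ≤ n j := by exact_mod_cast h3.le
  set k : ℕ := ⌊η * n j⌋₊ with hk
  have hk0 : (0 : ℝ) < k := by exact_mod_cast h5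
  have hkn : (k : ℝ) ≤ η₀ * n j := by
    have h6 := Nat.floor_le (show 0 ≤ η * (n j : ℝ) by positivity)
    calc (k : ℝ) ≤ η * n j := h6
      _ ≤ η₀ * n j := mul_le_mul_of_nonneg_right hη1 hn.le
  have h6 : ∀ i ∈ Finset.range k, |bl D ρ 0 0 (a (n j)) (l j + i) g - bl D ρ 0 0 (a (n j)) (l j) g| ≤ ε * (a (n j) / n j) := by
    intro i hi
    have hik : (i : ℝ) ≤ η₀ * n j := by
      have : (i : ℝ) ≤ k := by exact_mod_cast (Finset.mem_range.1 hi).le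
      linarith
    have h7 := h1 (l j) h2.le hln i hik 0
    rw [mul_zero, add_zero] at h7
    exact h7
  have h8 : (∑ i ∈ Finset.range k, bl D ρ 0 0 (a (n j)) (l j + i) g) / k - bl D ρ 0 0 (a (n j)) (l j) g =
      (∑ i ∈ Finset.range k, (bl D ρ 0 0 (a (n j)) (l j + i) g - bl D ρ 0 0 (a (n j)) (l j) g)) / k := by
    rw [Finset.sum_sub_distrib, Finset.sum_const, Finset.card_range, nsmul_eq_mul, sub_div, mul_div_cancel_left₀ _ hk0.ne']
  rw [← mul_sub, h8, abs_mul, abs_of_pos (show 0 < (n j : ℝ) / a (n j) by positivity), abs_div, abs_of_pos hk0]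
  have h9 : |∑ i ∈ Finset.range k, (bl D ρ 0 0 (a (n j)) (l j + i) g - bl D ρ 0 0 (a (n j)) (l j) g)| ≤ k * (ε * (a (n j) / n j)) := by
    refine (Finset.abs_sum_le_sum_abs _ _).trans ?_
    refine (Finset.sum_le_sum h6).trans ?_
    rw [Finset.sum_const, Finset.card_range, nsmul_eq_mul]
  calc (n j : ℝ) / a (n j) * (|∑ i ∈ Finset.range k, (bl D ρ 0 0 (a (n j)) (l j + i) g - bl D ρ 0 0 (a (n j)) (l j) g)| / k)
      ≤ (n j : ℝ) / a (n j) * ((k * (ε * (a (n j) / n j))) / k) := by gcongr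
    _ = ε := by field_simp

/-- **[STB-X2c]** PROOF. Let `I(η) = (1/η) ∫ g(u) (QO r u - QO (r+η) u) du`. For `0 < η`, `k_j = ⌊η n_j⌋`: by `X2_tele`, `al_seq` and dominated convergence
(`g` has compact support) `(n/a)(1/k) ∑_{i<k} bl D ρ 0 0 a (l+i) g → I(η)`, and by `X2_time` (`h = 0`, `b = 0`; `lam 0 _ = volume`) each term is within
`ε a/n` of `bl .. l g` for `η ≤ η₀(ε)`. So for `η ≤ η₀(ε)`: `limsup |(n_j/a) bl .. l_j g - I(η)| ≤ ε`. Hence the real sequence is Cauchy (bounded), `I(η)` is Cauchy as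
`η → 0+`, both have the same limit, `= bet α ζ r g`. -/
theorem X2_lim (hda : DA α ζ ρ a) (hD : Dom D) {δ : ℝ} {g : ℝ → ℝ} (hg : CS δ g) {n l : ℕ → ℕ} {r : ℝ} (hr : 0 < r)
    (hr1 : r < 1) (hT : Tm n l r) :
    Tendsto (fun j => (n j : ℝ) / a (n j) * bl D ρ 0 0 (a (n j)) (l j) g) atTop (𝓝 (bet α ζ r g)) ∧
    Tendsto (fun η : ℝ => (∫ y in Set.Ioi (0 : ℝ), g y * (QO α ζ r y - QO α ζ (r + η) y)) / η) (𝓝[>] (0 : ℝ))
      (𝓝 (bet α ζ r g)) := by
  set B : ℕ → ℝ := fun j => (n j : ℝ) / a (n j) * bl D ρ 0 0 (a (n j)) (l j) g with hB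
  set I : ℝ → ℝ := fun η => (∫ y in Set.Ioi (0 : ℝ), g y * (QO α ζ r y - QO α ζ (r + η) y)) / η with hI
  have key : ∀ ε > (0 : ℝ), ∃ η₀ > (0 : ℝ), ∀ η : ℝ, 0 < η → η ≤ η₀ → ∀ᶠ j in atTop, |B j - I η| ≤ ε := by
    intro ε hε
    obtain ⟨η₀, hη₀, h1⟩ := X2c_close hda hD hg hr hr1 hT (half_pos hε)
    refine ⟨η₀, hη₀, fun η hη hη1 => ?_⟩
    have h2 := X2c_avg hda hD hg hr hT hη
    have h3 := (Metric.tendsto_nhds.1 h2) (ε / 2) (half_pos hε)
    filter_upwards [h1 η hη hη1, h3] with j h4 h5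
    rw [Real.dist_eq] at h5
    rw [abs_sub_comm] at h4
    have h6 := abs_sub_le (B j) ((n j : ℝ) / a (n j) * ((∑ i ∈ Finset.range ⌊η * n j⌋₊, bl D ρ 0 0 (a (n j)) (l j + i) g) / ⌊η * n j⌋₊)) (I η)
    refine h6.trans ?_
    have h7 : |B j - (n j : ℝ) / a (n j) * ((∑ i ∈ Finset.range ⌊η * n j⌋₊, bl D ρ 0 0 (a (n j)) (l j + i) g) / ⌊η * n j⌋₊)| ≤ ε / 2 := h4
    have h8 : |(n j : ℝ) / a (n j) * ((∑ i ∈ Finset.range ⌊η * n j⌋₊, bl D ρ 0 0 (a (n j)) (l j + i) g) / ⌊η * n j⌋₊) - I η| < ε / 2 := h5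
    linarith
  have hcau : CauchySeq B := by
    rw [Metric.cauchySeq_iff']
    intro ε hε
    obtain ⟨η₀, hη₀, h1⟩ := key (ε / 3) (by linarith)
    obtain ⟨N, hN⟩ := eventually_atTop.1 (h1 η₀ hη₀ le_rfl)
    refine ⟨N, fun m hm => ?_⟩
    have h2 := hN m hm
    have h3 := hN N le_rfl
    rw [Real.dist_eq]
    have h4 := abs_sub_le (B m) (I η₀) (B N)
    rw [abs_sub_comm] at h3
    linarith
  obtain ⟨β, hβ⟩ := cauchySeq_tendsto_of_complete hcau
  have hIβ : Tendsto I (𝓝[>] (0 : ℝ)) (𝓝 β) := by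
    rw [Metric.tendsto_nhds]
    intro ε hε
    obtain ⟨η₀, hη₀, h1⟩ := key (ε / 2) (half_pos hε)
    have h2 : Set.Ioc (0 : ℝ) η₀ ∈ 𝓝[>] (0 : ℝ) := Ioc_mem_nhdsGT hη₀
    filter_upwards [h2] with η hη
    have h3 : |β - I η| ≤ ε / 2 := le_of_tendsto (hβ.sub tendsto_const_nhds).abs (h1 η hη.1 hη.2)
    rw [Real.dist_eq, abs_sub_comm]
    linarith
  have hbet : bet α ζ r g = β := hIβ.limUnder_eq
  rw [hbet]
  exact ⟨hβ, hIβ⟩

end Pool.Agent.BPT
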