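import Pool.Agent.MP_99a865_pr.ST.X2c

/-! **[STB-X3a]** Tails of the exit measure of the limit process. -/

open MeasureTheory ProbabilityTheory Filter Topology
open scoped ENNReal NNReal

namespace Pool.Agent.BPT

variable {α : ℝ} {ζ ρ : Measure ℝ} {a : ℕ → ℝ} {D : Set ℝ}

lemma X3a_hit (hD : Dom D) [IsProbabilityMeasure ρ] (m : ℕ) (y : ℝ) :
    hit D ρ (m + 1) y = al D ρ m y - al D ρ (m + 1) y := by
  have h1 := surv_add_hit hD (ρ := ρ) m y
  have h2 := surv_add_hit hD (ρ := ρ) (m + 1) y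
  rw [Finset.sum_range_succ] at h2
  have hfin : ∑ n ∈ Finset.range (m + 1), ENNReal.ofReal (hit D ρ n y) ≠ ⊤ := by
    rw [ENNReal.sum_ne_top]
    intro i _
    exact ENNReal.ofReal_ne_top
  have h3 : kap D ρ m y Set.univ = kap D ρ (m + 1) y Set.univ + ENNReal.ofReal (hit D ρ (m + 1) y) := by
    have h4 : kap D ρ m y Set.univ + ∑ n ∈ Finset.range (m + 1), ENNReal.ofReal (hit D ρ n y) =
        kap D ρ (m + 1) y Set.univ + ENNReal.ofReal (hit D ρ (m + 1) y) +
          ∑ n ∈ Finset.range (m + 1), ENNReal.ofReal (hit D ρ n y) := by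
      rw [h1, ← h2]
      ring
    exact (ENNReal.add_left_inj hfin).mp h4
  unfold al
  have h5 : (kap D ρ m y).real Set.univ = (kap D ρ (m + 1) y).real Set.univ + hit D ρ (m + 1) y := by
    unfold Measure.real
    rw [h3, ENNReal.toReal_add (measure_ne_top _ _) ENNReal.ofReal_ne_top,
      ENNReal.toReal_ofReal (hit_nonneg _ _)]
  rw [h5]
  ring

lemma X3a_sum (hD : Dom D) [IsProbabilityMeasure ρ] (l k : ℕ) (hl : 1 ≤ l) (y : ℝ) :
    ∑ i ∈ Finset.range k, hit D ρ (l + i) y = al D ρ (l - 1) y - al D ρ (l - 1 + k) y := by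
  induction k with
  | zero => simp
  | succ k ih =>
    rw [Finset.sum_range_succ, ih]
    have h1 : l + k = (l - 1 + k) + 1 := by omega
    rw [h1, X3a_hit hD, ← add_assoc]
    ring

lemma X3a_floor {t : ℝ} (ht : 0 ≤ t) : Tm (fun n => n) (fun n : ℕ => ⌊t * n⌋₊) t := by
  refine ⟨tendsto_id, ?_⟩
  have h1 := (tendsto_nat_floor_mul_div_atTop (R := ℝ) ht).comp (tendsto_natCast_atTop_atTop (R := ℝ))
  exact h1

lemma X3a_meas_al (hD : Dom D) [IsProbabilityMeasure ρ] (m : ℕ) : Measurable (al D ρ m) := by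
  unfold al Measure.real
  exact ((Measure.measurable_coe MeasurableSet.univ).comp (measurable_kap hD m)).ennreal_toReal

lemma X3a_scale {s : ℝ} (hs : 0 < s) {A : Set ℝ} (hA : MeasurableSet A) (G : ℝ → ℝ≥0∞) (hG : Measurable G) :
    ∫⁻ u in A, G (s * u) = ENNReal.ofReal (1 / s) * ∫⁻ y in {y | y / s ∈ A}, G y := by
  have hm : MeasurableSet {y : ℝ | y / s ∈ A} := (measurable_id.div_const s) hA
  have h1 : ∫⁻ u in A, G (s * u) = ∫⁻ u, ({y : ℝ | y / s ∈ A}.indicator G) (s * u) := by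
    rw [← lintegral_indicator hA]
    refine lintegral_congr fun u => ?_
    have h2 : s * u / s = u := mul_div_cancel_left₀ u hs.ne'
    by_cases hu : u ∈ A
    · rw [Set.indicator_of_mem hu, Set.indicator_of_mem]
      change s * u / s ∈ A
      rwa [h2]
    · rw [Set.indicator_of_notMem hu, Set.indicator_of_notMem]
      change ¬ s * u / s ∈ A
      rwa [h2]
  have h3 : ∫⁻ u, ({y : ℝ | y / s ∈ A}.indicator G) (s * u) =
      ∫⁻ y, ({y : ℝ | y / s ∈ A}.indicator G) y ∂(Measure.map (fun x => s * x) volume) := by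
    rw [lintegral_map (hG.indicator hm) (measurable_const_mul s)]
  rw [h1, h3, Real.map_volume_mul_left hs.ne', lintegral_smul_measure, lintegral_indicator hm,
    abs_of_pos (inv_pos.mpr hs), one_div, smul_eq_mul]

lemma X3a_fatou (hda : DA α ζ ρ a) (hD : Dom D) {r κ : ℝ} (hr : 0 < r) (hκ : 0 ≤ κ) {A : Set ℝ}
    (hA : MeasurableSet A) (hA0 : A ⊆ Set.Ioi 0)
    (H : ∀ᶠ n : ℕ in atTop, ∀ l : ℕ, r * n ≤ l → l ≤ n →
      ∫⁻ y in {y | y / a n ∈ A}, ENNReal.ofReal (hit D ρ l y) ≤ ENNReal.ofReal (κ * (a n / n)))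
    {η : ℝ} (hη : 0 < η) (hη1 : r + η < 1) :
    ∫⁻ u in A, ENNReal.ofReal (QO α ζ r u - QO α ζ (r + η) u) ≤ ENNReal.ofReal (κ * η) := by
  haveI := hda.prob
  set m1 : ℕ → ℕ := fun n => ⌊r * n⌋₊ with hm1
  set m2 : ℕ → ℕ := fun n => ⌊(r + η) * n⌋₊ with hm2
  set F : ℕ → ℝ → ℝ≥0∞ := fun n u =>
    ENNReal.ofReal (al D ρ (m1 n) (a n * u) - al D ρ (m2 n) (a n * u)) with hF
  have hFm : ∀ n, Measurable (F n) := by
    intro n
    refine ENNReal.measurable_ofReal.comp ?_
    exact ((X3a_meas_al hD _).comp (measurable_const_mul _)).sub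
      ((X3a_meas_al hD _).comp (measurable_const_mul _))
  have hpt : ∀ u ∈ A, Tendsto (fun n => F n u) atTop
      (𝓝 (ENNReal.ofReal (QO α ζ r u - QO α ζ (r + η) u))) := by
    intro u hu
    have hu0 : 0 < u := hA0 hu
    have hl : Tendsto (fun j : ℕ => a j * u / a j) atTop (𝓝 u) := by
      refine tendsto_const_nhds.congr fun j => ?_
      rw [mul_div_cancel_left₀ u (hda.pos j).ne']
    have h1 := al_seq hda hD (X3a_floor hr.le) hr hu0 hl
    have h2 := al_seq hda hD (X3a_floor (t := r + η) (by linarith)) (by linarith) hu0 hl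
    exact (ENNReal.continuous_ofReal.tendsto _).comp (h1.sub h2)
  have hlim : ∫⁻ u in A, ENNReal.ofReal (QO α ζ r u - QO α ζ (r + η) u) =
      ∫⁻ u in A, liminf (fun n => F n u) atTop := by
    refine setLIntegral_congr_fun hA fun u hu => ?_
    exact (hpt u hu).liminf_eq.symm
  rw [hlim]
  refine (lintegral_liminf_le hFm).trans ?_
  have hb : ∀ᶠ n : ℕ in atTop, ∫⁻ u in A, F n u ≤ ENNReal.ofReal (κ * (η + 1 / n)) := by
    filter_upwards [H, eventually_ge_atTop 1] with n hn hn1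
    have hn0 : (0 : ℝ) < n := by exact_mod_cast hn1
    have han := hda.pos n
    have hle : m1 n ≤ m2 n := by
      refine Nat.floor_mono ?_
      nlinarith
    obtain ⟨k, hk⟩ := Nat.exists_eq_add_of_le hle
    have hk2 : (k : ℝ) ≤ η * n + 1 := by
      have h1 : ((m2 n : ℕ) : ℝ) ≤ (r + η) * n := Nat.floor_le (by positivity)
      have h2 : r * n < (m1 n : ℝ) + 1 := Nat.lt_floor_add_one _
      have h3 : ((m2 n : ℕ) : ℝ) = (m1 n : ℝ) + k := by
        rw [hk]
        push_cast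
        ring
      linarith
    have h1 : ∀ u, F n u = ∑ i ∈ Finset.range k,
        ENNReal.ofReal (hit D ρ (m1 n + 1 + i) (a n * u)) := by
      intro u
      have h2 := X3a_sum hD (ρ := ρ) (m1 n + 1) k (by omega) (a n * u)
      have h3 : m1 n + 1 - 1 = m1 n := by omega
      rw [h3] at h2
      rw [← ENNReal.ofReal_sum_of_nonneg (fun i _ => hit_nonneg _ _), h2, ← hk]
    have h2 : ∫⁻ u in A, F n u = ∑ i ∈ Finset.range k,
        ∫⁻ u in A, ENNReal.ofReal (hit D ρ (m1 n + 1 + i) (a n * u)) := by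
      rw [← lintegral_finsetSum]
      · exact lintegral_congr fun u => h1 u
      · intro i _
        exact ENNReal.measurable_ofReal.comp ((measurable_hit hD _).comp (measurable_const_mul _))
    have h3 : ∀ i ∈ Finset.range k, ∫⁻ u in A, ENNReal.ofReal (hit D ρ (m1 n + 1 + i) (a n * u)) ≤
        ENNReal.ofReal (κ / n) := by
      intro i hi
      have hik : i < k := Finset.mem_range.mp hi
      have e := X3a_scale han hA (fun y => ENNReal.ofReal (hit D ρ (m1 n + 1 + i) y))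
        (ENNReal.measurable_ofReal.comp (measurable_hit hD _))
      rw [e]
      have hc1 : r * n ≤ ((m1 n + 1 + i : ℕ) : ℝ) := by
        have h2 : r * n < (m1 n : ℝ) + 1 := Nat.lt_floor_add_one _
        push_cast
        have : (0 : ℝ) ≤ i := Nat.cast_nonneg i
        linarith
      have hc2 : m1 n + 1 + i ≤ n := by
        have h4 : m1 n + 1 + i ≤ m2 n := by omega
        have h5 : m2 n ≤ n := by
          have : ((m2 n : ℕ) : ℝ) ≤ n := by
            refine (Nat.floor_le (by positivity)).trans ?_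
            nlinarith
          exact_mod_cast this
        omega
      refine (mul_le_mul_right (hn _ hc1 hc2) _).trans ?_
      rw [← ENNReal.ofReal_mul (by positivity)]
      refine ENNReal.ofReal_le_ofReal (le_of_eq ?_)
      field_simp
    rw [h2]
    refine (Finset.sum_le_sum h3).trans ?_
    rw [Finset.sum_const, Finset.card_range, nsmul_eq_mul, ← ENNReal.ofReal_natCast,
      ← ENNReal.ofReal_mul (Nat.cast_nonneg k)]
    refine ENNReal.ofReal_le_ofReal ?_
    have h4 : (k : ℝ) * (κ / n) ≤ (η * n + 1) * (κ / n) :=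
      mul_le_mul_of_nonneg_right hk2 (by positivity)
    refine h4.trans (le_of_eq ?_)
    field_simp
  have ht : Tendsto (fun n : ℕ => ENNReal.ofReal (κ * (η + 1 / n))) atTop (𝓝 (ENNReal.ofReal (κ * η))) := by
    refine (ENNReal.continuous_ofReal.tendsto _).comp ?_
    have h1 : Tendsto (fun n : ℕ => κ * (η + 1 / (n : ℝ))) atTop (𝓝 (κ * (η + 0))) :=
      (tendsto_const_nhds.add tendsto_one_div_atTop_nhds_zero_nat).const_mul κ
    rwa [add_zero] at h1
  calc liminf (fun n => ∫⁻ u in A, F n u) atTop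
      ≤ liminf (fun n : ℕ => ENNReal.ofReal (κ * (η + 1 / n))) atTop := liminf_le_liminf hb
    _ = ENNReal.ofReal (κ * η) := ht.liminf_eq

lemma X3a_nonneg (hda : DA α ζ ρ a) {r η : ℝ} (hr : 0 < r) (hη : 0 < η) {y : ℝ} (hy : 0 < y) :
    0 ≤ QO α ζ r y - QO α ζ (r + η) y :=
  sub_nonneg.mpr ((QO_facts hda).2.1 r hr (r + η) (by linarith) y hy)

lemma X3a_cont (hda : DA α ζ ρ a) {r η : ℝ} (hr : 0 < r) (hη : 0 < η) :
    ContinuousOn (fun y => QO α ζ r y - QO α ζ (r + η) y) (Set.Ioi 0) :=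
  ((QO_facts hda).2.2.2 r hr).cont.sub ((QO_facts hda).2.2.2 (r + η) (by linarith)).cont

lemma X3a_integral (hda : DA α ζ ρ a) {r η : ℝ} (hr : 0 < r) (hη : 0 < η) {A : Set ℝ} (hA : MeasurableSet A)
    (hA0 : A ⊆ Set.Ioi 0) {κ : ℝ} (hκ : 0 ≤ κ)
    (h : ∫⁻ u in A, ENNReal.ofReal (QO α ζ r u - QO α ζ (r + η) u) ≤ ENNReal.ofReal κ) :
    IntegrableOn (fun y => QO α ζ r y - QO α ζ (r + η) y) A ∧
      ∫ y in A, (QO α ζ r y - QO α ζ (r + η) y) ≤ κ := by
  have hsm : AEStronglyMeasurable (fun y => QO α ζ r y - QO α ζ (r + η) y) (volume.restrict A) :=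
    ((X3a_cont hda hr hη).mono hA0).aestronglyMeasurable hA
  have hnn : 0 ≤ᵐ[volume.restrict A] (fun y => QO α ζ r y - QO α ζ (r + η) y) := by
    filter_upwards [ae_restrict_mem hA] with y hy
    exact X3a_nonneg hda hr hη (hA0 hy)
  constructor
  · refine ⟨hsm, ?_⟩
    rw [hasFiniteIntegral_iff_ofReal hnn]
    exact h.trans_lt ENNReal.ofReal_lt_top
  · rw [integral_eq_lintegral_of_nonneg_ae hnn hsm]
    exact ENNReal.toReal_le_of_le_ofReal hκ h

/-- **[STB-X3a]** The functions `QO r - QO (r+η)` are integrable, `∫ ≤ C η`, with uniformly small tails. PROOF. `X2_tele` for bounded `g ≥ 0` with compact support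
(or directly: monotone limits), `n_j = j`, `l_j = ⌊r j⌋`, `k_j = ⌊η j⌋`: `a ∫ (al (l-1) (a u) - al (l-1+k) (a u)) du = ∑_{i<k} bl ..(l+i) 1 ≤ k C a/n` by `X1_mass`
(`l + k ≤ n` if `r + η < 1`), and Fatou with `al_seq`; the same over `u > R` (`X1_far`) and `u ≤ δ` (`X1_near`). -/
theorem X3_tail (hda : DA α ζ ρ a) {r : ℝ} (hr : 0 < r) (hr1 : r < 1) : ∃ C > (0 : ℝ),
    (∀ η > (0 : ℝ), r + η < 1 → IntegrableOn (fun y => QO α ζ r y - QO α ζ (r + η) y) (Set.Ioi 0) ∧
      ∫ y in Set.Ioi (0 : ℝ), (QO α ζ r y - QO α ζ (r + η) y) ≤ C * η) ∧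
    ∀ ε > (0 : ℝ), ∃ δ > (0 : ℝ), δ < 1 ∧ ∀ η > (0 : ℝ), r + η < 1 →
      ∫ y in Set.Ioi (0 : ℝ) \ Set.Icc δ (1 / δ), (QO α ζ r y - QO α ζ (r + η) y) ≤ ε * η := by
  haveI := hda.prob
  have hD : Dom (Set.Ioi (0 : ℝ)) := Or.inr rfl
  have hstep : ∀ᵐ x ∂ρ, Cos 0 0 x := Filter.Eventually.of_forall fun x hx => absurd rfl hx
  obtain ⟨C, hC, hmass⟩ := X1_mass hda hD (b := 0) (h := 0) (c₀ := r) le_rfl hstep hr
  refine ⟨C, hC, ?_, ?_⟩
  · intro η hη hη1
    have h1 : ∫⁻ u in Set.Ioi (0 : ℝ), ENNReal.ofReal (QO α ζ r u - QO α ζ (r + η) u) ≤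
        ENNReal.ofReal (C * η) := by
      refine X3a_fatou hda hD hr hC.le measurableSet_Ioi subset_rfl ?_ hη hη1
      filter_upwards [hmass] with n hn l hl1 hl2
      have h2 := hn l hl1 hl2 0
      rw [lam_zero] at h2
      refine le_trans (lintegral_mono_set ?_) h2
      intro y hy
      have hy' : 0 < y / a n := hy
      have h3 := (div_pos_iff_of_pos_right (hda.pos n)).mp hy'
      exact h3
    exact X3a_integral hda hr hη measurableSet_Ioi subset_rfl (by positivity) h1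
  · intro ε hε
    obtain ⟨R, hR, hfar⟩ := X1_far hda hD (b := 0) (h := 0) le_rfl hstep (ε / 2) (by positivity)
    obtain ⟨δ₁, hδ₁, hnear⟩ := X1_near hda hD (h := 0) (c₀ := r) le_rfl hr (ε / 2) (by positivity)
    have hRpos : 0 < 1 / R := by positivity
    refine ⟨min δ₁ (min (1 / R) (1 / 2)), lt_min hδ₁ (lt_min hRpos (by norm_num)), ?_, ?_⟩
    · exact (min_le_right _ _).trans_lt ((min_le_right _ _).trans_lt (by norm_num))
    intro η hη hη1
    set δ := min δ₁ (min (1 / R) (1 / 2)) with hδ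
    have hδ0 : 0 < δ := lt_min hδ₁ (lt_min hRpos (by norm_num))
    have hδR : δ ≤ 1 / R := (min_le_right _ _).trans (min_le_left _ _)
    have hRδ : R ≤ 1 / δ := by
      rw [le_div_iff₀ hδ0]
      calc R * δ ≤ R * (1 / R) := by gcongr
        _ = 1 := by field_simp
    have h1 : ∫⁻ u in Set.Ioi R, ENNReal.ofReal (QO α ζ r u - QO α ζ (r + η) u) ≤
        ENNReal.ofReal (ε / 2 * η) := by
      refine X3a_fatou hda hD hr (by positivity) measurableSet_Ioi (Set.Ioi_subset_Ioi hR.le) ?_ hη hη1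
      filter_upwards [hfar, eventually_ge_atTop 1] with n hn hn1 l hl1 hl2
      have hn0 : (0 : ℝ) < n := by exact_mod_cast hn1
      have hl : 1 ≤ l := by
        have : (0 : ℝ) < l := lt_of_lt_of_le (by positivity) hl1
        exact_mod_cast this
      have h2 := hn l hl hl2 0
      rw [lam_zero] at h2
      refine le_trans (lintegral_mono_set ?_) h2
      intro y hy
      have hy' : R < y / a n := hy
      have h3 : R * a n < y := (lt_div_iff₀ (hda.pos n)).mp hy'
      refine ⟨?_, h3⟩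
      have := mul_pos hR (hda.pos n)
      exact lt_trans this h3
    have h2 : ∫⁻ u in Set.Ioc 0 δ₁, ENNReal.ofReal (QO α ζ r u - QO α ζ (r + η) u) ≤
        ENNReal.ofReal (ε / 2 * η) := by
      refine X3a_fatou hda hD hr (by positivity) measurableSet_Ioc (fun x hx => hx.1) ?_ hη hη1
      filter_upwards [hnear] with n hn l hl1 hl2
      have h2 := hn l hl1 0
      rw [lam_zero] at h2
      refine le_trans (lintegral_mono_set ?_) h2
      intro y hy
      have hy1 : 0 < y / a n := hy.1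
      have hy2 : y / a n ≤ δ₁ := hy.2
      exact ⟨(div_pos_iff_of_pos_right (hda.pos n)).mp hy1, (div_le_iff₀ (hda.pos n)).mp hy2⟩
    have h3 : ∫⁻ u in Set.Ioi (0 : ℝ) \ Set.Icc δ (1 / δ),
        ENNReal.ofReal (QO α ζ r u - QO α ζ (r + η) u) ≤ ENNReal.ofReal (ε * η) := by
      have hsub : Set.Ioi (0 : ℝ) \ Set.Icc δ (1 / δ) ⊆ Set.Ioc 0 δ₁ ∪ Set.Ioi R := by
        rintro y ⟨hy0, hy1⟩
        rcases le_or_gt y δ₁ with h | h
        · exact Or.inl ⟨hy0, h⟩
        · right
          have h4 : δ ≤ y := (min_le_left _ _).trans h.le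
          by_contra h5
          have h6 : y ≤ R := not_lt.mp h5
          exact hy1 ⟨h4, h6.trans hRδ⟩
      refine (lintegral_mono_set hsub).trans ((lintegral_union_le _ _ _).trans ?_)
      refine (add_le_add h2 h1).trans ?_
      rw [← ENNReal.ofReal_add (by positivity) (by positivity)]
      refine ENNReal.ofReal_le_ofReal (le_of_eq ?_)
      ring
    exact (X3a_integral hda hr hη (measurableSet_Ioi.diff measurableSet_Icc) Set.sdiff_subset
      (by positivity) h3).2

end Pool.Agent.BPT
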