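import Pool.Agent.MP_99a865_pr.ST.X3a

/-! **[STB-X3b]** The exit measure: bounded continuous functions. -/

open MeasureTheory ProbabilityTheory Filter Topology
open scoped ENNReal NNReal

namespace Pool.Agent.BPT

variable {α : ℝ} {ζ ρ : Measure ℝ} {a : ℕ → ℝ} {D : Set ℝ}

/-- bounded by `M`, continuous on `(0,∞)`, zero on `(-∞,0]` -/
structure BZ (M : ℝ) (g : ℝ → ℝ) : Prop where
  bco : BCo M g
  zero : ∀ x ≤ 0, g x = 0

lemma X3b_floor {t : ℝ} (ht : 0 ≤ t) : Tm (fun n => n) (fun n : ℕ => ⌊t * n⌋₊) t := by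
  refine ⟨tendsto_id, ?_⟩
  have h1 := (tendsto_nat_floor_mul_div_atTop (R := ℝ) ht).comp (tendsto_natCast_atTop_atTop (R := ℝ))
  exact h1

lemma X3b_nonneg (hda : DA α ζ ρ a) {r η : ℝ} (hr : 0 < r) (hη : 0 < η) {y : ℝ} (hy : 0 < y) :
    0 ≤ QO α ζ r y - QO α ζ (r + η) y :=
  sub_nonneg.mpr ((QO_facts hda).2.1 r hr (r + η) (by linarith) y hy)

lemma X3b_M {M : ℝ} {g : ℝ → ℝ} (hg : BCo M g) : 0 ≤ M := (abs_nonneg _).trans (hg.bd 1 one_pos)

lemma X3b_CS {M δ : ℝ} {g : ℝ → ℝ} (h0 : 0 < δ) (h1 : δ < 1) (hg : BCo M g) :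
    CS (δ / 2) (fun x => g x * cut δ x) := by
  obtain ⟨hc, _, _, hz1, hz2⟩ := cut_facts h0 h1
  refine ⟨by positivity, ?_, ?_⟩
  · rw [continuous_iff_continuousAt]
    intro x
    rcases lt_or_ge x (δ / 2) with h | h
    · have he : (fun x => g x * cut δ x) =ᶠ[𝓝 x] fun _ => (0 : ℝ) := by
        filter_upwards [Iio_mem_nhds h] with y hy
        rw [hz1 y (le_of_lt hy), mul_zero]
      exact (continuousAt_const (y := (0 : ℝ))).congr he.symm
    · have hx : 0 < x := lt_of_lt_of_le (by positivity) h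
      exact (hg.cont.continuousAt (Ioi_mem_nhds hx)).mul hc.continuousAt
  · intro x hx
    rcases hx with h | h
    · rw [hz1 x h, mul_zero]
    · have h3 : 2 / δ ≤ x := by
        refine le_trans (le_of_eq ?_) h
        field_simp
      rw [hz2 x h3, mul_zero]

lemma X3b_bound {μ : Measure ℝ} {φ f : ℝ → ℝ} {B : Set ℝ} (hB : MeasurableSet B) (hφ : Integrable φ μ) {M : ℝ}
    (hf : ∀ᵐ y ∂μ, |f y| ≤ B.indicator (fun y => M * φ y) y) : |∫ y, f y ∂μ| ≤ M * ∫ y in B, φ y ∂μ := by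
  have h1 : Integrable (B.indicator (fun y => M * φ y)) μ := (hφ.const_mul M).indicator hB
  have h2 := norm_integral_le_of_norm_le h1 (f := f) (by simpa [Real.norm_eq_abs] using hf)
  rw [Real.norm_eq_abs, integral_indicator hB, integral_const_mul] at h2
  exact h2

lemma X3b_cauchy {l : Filter ℝ} [l.NeBot] {J : ℝ → ℝ}
    (H : ∀ ε > (0 : ℝ), ∃ J' : ℝ → ℝ, ∃ L' : ℝ, Tendsto J' l (𝓝 L') ∧ ∀ᶠ x in l, |J x - J' x| ≤ ε) :
    ∃ L, Tendsto J l (𝓝 L) := by
  rw [← cauchy_map_iff_exists_tendsto, Metric.cauchy_iff]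
  refine ⟨inferInstance, fun ε hε => ?_⟩
  obtain ⟨J', L', hL, hJ⟩ := H (ε / 4) (by positivity)
  refine ⟨Metric.ball L' (ε / 2), ?_, ?_⟩
  · rw [mem_map]
    have h1 := hL (Metric.ball_mem_nhds L' (show 0 < ε / 4 by positivity))
    filter_upwards [hJ, h1] with x hx hx1
    have hx2 : |J' x - L'| < ε / 4 := by simpa [Real.dist_eq] using hx1
    change J x ∈ Metric.ball L' (ε / 2)
    rw [Metric.mem_ball, Real.dist_eq]
    calc |J x - L'| = |(J x - J' x) + (J' x - L')| := by ring_nf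
      _ ≤ |J x - J' x| + |J' x - L'| := abs_add_le _ _
      _ < ε / 2 := by linarith
  · intro x hx y hy
    rw [Metric.mem_ball] at hx hy
    calc dist x y ≤ dist x L' + dist L' y := dist_triangle _ _ _
      _ < ε := by
        rw [dist_comm L' y]
        linarith

lemma X3b_J (hda : DA α ζ ρ a) {r M : ℝ} (hr : 0 < r) {g : ℝ → ℝ} (hg : BCo M g) {e δ₀ δ : ℝ}
    (h0 : 0 < δ) (hδ : δ ≤ δ₀) (h1 : δ₀ < 1)
    (hint : ∀ η > (0 : ℝ), r + η < 1 → IntegrableOn (fun y => QO α ζ r y - QO α ζ (r + η) y) (Set.Ioi 0))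
    (htail : ∀ η > (0 : ℝ), r + η < 1 →
      ∫ y in Set.Ioi (0 : ℝ) \ Set.Icc δ₀ (1 / δ₀), (QO α ζ r y - QO α ζ (r + η) y) ≤ e * η)
    {η : ℝ} (hη : 0 < η) (hη1 : r + η < 1) :
    |(∫ y in Set.Ioi (0 : ℝ), g y * (QO α ζ r y - QO α ζ (r + η) y)) / η -
      (∫ y in Set.Ioi (0 : ℝ), g y * cut δ y * (QO α ζ r y - QO α ζ (r + η) y)) / η| ≤ M * e := by
  obtain ⟨hc, h01, hone, hz1, hz2⟩ := cut_facts h0 (lt_of_le_of_lt hδ h1)
  have hM := X3b_M hg
  have hφ := hint η hη hη1
  have hgm : AEStronglyMeasurable g (volume.restrict (Set.Ioi (0 : ℝ))) :=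
    hg.cont.aestronglyMeasurable measurableSet_Ioi
  have hi1 : Integrable (fun y => g y * (QO α ζ r y - QO α ζ (r + η) y)) (volume.restrict (Set.Ioi (0 : ℝ))) := by
    refine Integrable.bdd_mul (c := M) hφ hgm ?_
    filter_upwards [ae_restrict_mem measurableSet_Ioi] with y hy
    exact hg.bd y hy
  have hi2 : Integrable (fun y => g y * cut δ y * (QO α ζ r y - QO α ζ (r + η) y))
      (volume.restrict (Set.Ioi (0 : ℝ))) := by
    refine Integrable.bdd_mul (c := M) hφ (hgm.mul hc.aestronglyMeasurable) ?_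
    filter_upwards [ae_restrict_mem measurableSet_Ioi] with y hy
    rw [Real.norm_eq_abs, abs_mul, abs_of_nonneg (h01 y).1]
    calc |g y| * cut δ y ≤ M * 1 := mul_le_mul (hg.bd y hy) (h01 y).2 (h01 y).1 hM
      _ = M := mul_one M
  rw [← sub_div, ← integral_sub hi1 hi2, abs_div, abs_of_pos hη, div_le_iff₀ hη]
  have hB : MeasurableSet (Set.Icc δ₀ (1 / δ₀))ᶜ := measurableSet_Icc.compl
  have h2 := X3b_bound (μ := volume.restrict (Set.Ioi (0 : ℝ))) (M := M) hB hφ
    (f := fun y => g y * (QO α ζ r y - QO α ζ (r + η) y) - g y * cut δ y * (QO α ζ r y - QO α ζ (r + η) y)) ?_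
  · refine h2.trans ?_
    rw [Measure.restrict_restrict hB, Set.inter_comm, mul_assoc]
    exact mul_le_mul_of_nonneg_left (htail η hη hη1) hM
  · filter_upwards [ae_restrict_mem measurableSet_Ioi] with y hy
    have hy0 : 0 < y := hy
    have hφ0 := X3b_nonneg hda hr hη hy0
    have h3 : g y * (QO α ζ r y - QO α ζ (r + η) y) - g y * cut δ y * (QO α ζ r y - QO α ζ (r + η) y) =
        g y * (1 - cut δ y) * (QO α ζ r y - QO α ζ (r + η) y) := by ring
    rw [h3]
    by_cases hyI : y ∈ Set.Icc δ₀ (1 / δ₀)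
    · have hy1 : cut δ y = 1 := by
        refine hone y (hδ.trans hyI.1) (hyI.2.trans ?_)
        exact one_div_le_one_div_of_le h0 hδ
      rw [hy1, Set.indicator_of_notMem (show y ∉ (Set.Icc δ₀ (1 / δ₀))ᶜ from fun h => h hyI)]
      simp
    · rw [Set.indicator_of_mem (show y ∈ (Set.Icc δ₀ (1 / δ₀))ᶜ from hyI), abs_mul, abs_mul, abs_of_nonneg hφ0]
      refine mul_le_mul_of_nonneg_right ?_ hφ0
      have h4 : |1 - cut δ y| ≤ 1 := by
        rw [abs_of_nonneg (by linarith [(h01 y).2])]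
        linarith [(h01 y).1]
      calc |g y| * |1 - cut δ y| ≤ M * 1 := mul_le_mul (hg.bd y hy) h4 (abs_nonneg _) hM
        _ = M := mul_one M

/-- **[STB-X3b]** PROOF. `g · cut δ` is continuous with compact support (`CS (δ/2)`); `X2_lim` for it, and the remainder `g (1 - cut δ)` contributes at most
`M ε` on all sides (`X3_tail`; `X1_far`, `X1_near`). -/
theorem bet_tendsto (hda : DA α ζ ρ a) {r M : ℝ} (hr : 0 < r) (hr1 : r < 1) {g : ℝ → ℝ} (hg : BCo M g) :
    Tendsto (fun η : ℝ => (∫ y in Set.Ioi (0 : ℝ), g y * (QO α ζ r y - QO α ζ (r + η) y)) / η) (𝓝[>] (0 : ℝ))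
      (𝓝 (bet α ζ r g)) := by
  obtain ⟨C, hC, hint, htail⟩ := X3_tail hda hr hr1
  have hM := X3b_M hg
  unfold bet
  refine tendsto_nhds_limUnder (X3b_cauchy fun ε hε => ?_)
  obtain ⟨δ, hδ, hδ1, hδt⟩ := htail (ε / (M + 1)) (by positivity)
  have hD : Dom (Set.Ioi (0 : ℝ)) := Or.inr rfl
  refine ⟨_, _, (X2_lim hda hD (X3b_CS hδ hδ1 hg) hr hr1 (X3b_floor hr.le)).2, ?_⟩
  have hev : ∀ᶠ η : ℝ in 𝓝[>] (0 : ℝ), η < 1 - r :=
    (eventually_lt_nhds (show (0 : ℝ) < 1 - r by linarith)).filter_mono nhdsWithin_le_nhds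
  filter_upwards [hev, self_mem_nhdsWithin] with η h1 h2
  refine (X3b_J hda hr hg hδ le_rfl hδ1 (fun η h h' => (hint η h h').1) hδt h2 (by linarith)).trans ?_
  rw [mul_div_assoc', div_le_iff₀ (by positivity)]
  nlinarith

theorem X3_lim (hda : DA α ζ ρ a) (hD : Dom D) {M : ℝ} {g : ℝ → ℝ} (hg : BZ M g) {n l : ℕ → ℕ} {r : ℝ} (hr : 0 < r)
    (hr1 : r < 1) (hT : Tm n l r) :
    Tendsto (fun j => (n j : ℝ) / a (n j) * bl D ρ 0 0 (a (n j)) (l j) g) atTop (𝓝 (bet α ζ r g)) := by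
  haveI := hda.prob
  obtain ⟨C, hC, hint, htail⟩ := X3_tail hda hr hr1
  have hM := X3b_M hg.bco
  have hstep : ∀ᵐ x ∂ρ, Cos 0 0 x := Filter.Eventually.of_forall fun x hx => absurd rfl hx
  rw [Metric.tendsto_nhds]
  intro ε hε
  set e : ℝ := ε / (3 * M + 2) with he
  have he0 : 0 < e := by positivity
  obtain ⟨δ₀, hδ₀, hδ₀1, hδ₀t⟩ := htail e he0
  obtain ⟨Cm, hCm, hmass⟩ := X1_mass hda hD (b := 0) (h := 0) (c₀ := r / 2) le_rfl hstep (by positivity)
  obtain ⟨R, hR, hfar⟩ := X1_far hda hD (b := 0) (h := 0) le_rfl hstep e he0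
  obtain ⟨δ₁, hδ₁, hnear⟩ := X1_near hda hD (h := 0) (c₀ := r / 2) le_rfl (by positivity) e he0
  have hRpos : 0 < 1 / R := by positivity
  set δ := min δ₀ (min δ₁ (1 / R)) with hδ
  have hδ0 : 0 < δ := lt_min hδ₀ (lt_min hδ₁ hRpos)
  have hδ1 : δ < 1 := (min_le_left _ _).trans_lt hδ₀1
  have hδR : δ ≤ 1 / R := (min_le_right _ _).trans (min_le_right _ _)
  have hδδ₁ : δ ≤ δ₁ := (min_le_right _ _).trans (min_le_left _ _)
  have hRδ : R ≤ 1 / δ := by
    rw [le_div_iff₀ hδ0]
    calc R * δ ≤ R * (1 / R) := by gcongr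
      _ = 1 := by field_simp
  obtain ⟨hc, h01, hone, hz1, hz2⟩ := cut_facts hδ0 hδ1
  -- the limit functionals
  have hb1 : |bet α ζ r g - bet α ζ r (fun x => g x * cut δ x)| ≤ M * e := by
    have h1 := bet_tendsto hda hr hr1 hg.bco
    have h2 := (X2_lim hda hD (X3b_CS hδ0 hδ1 hg.bco) hr hr1 hT).2
    refine le_of_tendsto ((h1.sub h2).abs) ?_
    have hev : ∀ᶠ η : ℝ in 𝓝[>] (0 : ℝ), η < 1 - r :=
      (eventually_lt_nhds (show (0 : ℝ) < 1 - r by linarith)).filter_mono nhdsWithin_le_nhds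
    filter_upwards [hev, self_mem_nhdsWithin] with η h3 h4
    exact X3b_J hda hr hg.bco hδ0 (min_le_left _ _) hδ₀1 (fun η h h' => (hint η h h').1) hδ₀t h4 (by linarith)
  have hb2 := (X2_lim hda hD (X3b_CS hδ0 hδ1 hg.bco) hr hr1 hT).1
  have hb3 : ∀ᶠ j in atTop, |(n j : ℝ) / a (n j) * bl D ρ 0 0 (a (n j)) (l j) (fun x => g x * cut δ x) -
      bet α ζ r (fun x => g x * cut δ x)| < e := by
    have := (Metric.tendsto_nhds.mp hb2) e he0
    simpa [Real.dist_eq] using this
  -- the times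
  have ht1 : ∀ᶠ j in atTop, r / 2 * (n j : ℝ) ≤ l j ∧ l j ≤ n j ∧ 1 ≤ l j ∧ 1 ≤ n j := by
    have h1 : ∀ᶠ j in atTop, (l j : ℝ) / n j < 1 := hT.lim.eventually_lt_const hr1
    have h2 : ∀ᶠ j in atTop, r / 2 < (l j : ℝ) / n j := hT.lim.eventually_const_lt (by linarith)
    have h3 : ∀ᶠ j in atTop, 1 ≤ n j := hT.top.eventually_ge_atTop 1
    filter_upwards [h1, h2, h3] with j h1 h2 h3
    have hn : (0 : ℝ) < n j := by exact_mod_cast h3
    have h4 : (l j : ℝ) < n j := by rwa [div_lt_one hn] at h1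
    have h5 : r / 2 * n j < l j := by rwa [lt_div_iff₀ hn] at h2
    refine ⟨h5.le, ?_, ?_, h3⟩
    · have : l j < n j := by exact_mod_cast h4
      exact this.le
    · have : (0 : ℝ) < l j := lt_trans (by positivity) h5
      exact_mod_cast this
  have hgm : Measurable g := by
    have h1 : g = (Set.Ioi (0 : ℝ)).indicator g := by
      funext x
      by_cases hx : x ∈ Set.Ioi (0 : ℝ)
      · rw [Set.indicator_of_mem hx]
      · rw [Set.indicator_of_notMem hx, hg.zero x (not_lt.mp hx)]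
    have h2 : Measurable ((Set.Ioi (0 : ℝ)).piecewise g (fun _ => (0 : ℝ))) := by
      refine ContinuousOn.measurable_piecewise hg.bco.cont continuousOn_const measurableSet_Ioi
    rw [h1]
    exact h2
  have hb4 : ∀ᶠ j in atTop, |(n j : ℝ) / a (n j) * bl D ρ 0 0 (a (n j)) (l j) g -
      (n j : ℝ) / a (n j) * bl D ρ 0 0 (a (n j)) (l j) (fun x => g x * cut δ x)| ≤ 2 * M * e := by
    filter_upwards [ht1, hT.top.eventually hmass, hT.top.eventually hfar, hT.top.eventually hnear]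
      with j hj hm hf hnr
    obtain ⟨hj1, hj2, hj3, hj4⟩ := hj
    have hn : (0 : ℝ) < n j := by exact_mod_cast hj4
    have han := hda.pos (n j)
    have hm1 := hm (l j) hj1 hj2 0
    have hf1 := hf (l j) hj3 hj2 0
    have hn1 := hnr (l j) hj1 0
    rw [lam_zero] at hm1 hf1 hn1
    have hhm := measurable_hit hD (ρ := ρ) (l j)
    have hhi : Integrable (hit D ρ (l j)) (volume.restrict D) := by
      refine ⟨hhm.aestronglyMeasurable, ?_⟩
      rw [hasFiniteIntegral_iff_ofReal (Filter.Eventually.of_forall fun y => hit_nonneg _ _)]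
      exact hm1.trans_lt ENNReal.ofReal_lt_top
    have hgs : Measurable fun y : ℝ => g (y / a (n j)) := hgm.comp (measurable_id.div_const _)
    have hcs : Measurable fun y : ℝ => cut δ (y / a (n j)) := hc.measurable.comp (measurable_id.div_const _)
    have hgb : ∀ y ∈ D, |g (y / a (n j))| ≤ M := by
      intro y hy
      rcases (div_nonneg (hD.nonneg hy) han.le).lt_or_eq with h | h
      · exact hg.bco.bd _ h
      · rw [← h, hg.zero 0 le_rfl, abs_zero]
        exact hM
    have hi1 : Integrable (fun y => g (y / a (n j)) * hit D ρ (l j) y) (volume.restrict D) := by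
      refine Integrable.bdd_mul (c := M) hhi hgs.aestronglyMeasurable ?_
      filter_upwards [ae_restrict_mem hD.meas] with y hy
      exact hgb y hy
    have hi2 : Integrable (fun y => g (y / a (n j)) * cut δ (y / a (n j)) * hit D ρ (l j) y)
        (volume.restrict D) := by
      refine Integrable.bdd_mul (c := M) hhi (hgs.mul hcs).aestronglyMeasurable ?_
      filter_upwards [ae_restrict_mem hD.meas] with y hy
      rw [Real.norm_eq_abs, abs_mul, abs_of_nonneg (h01 _).1]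
      calc |g (y / a (n j))| * cut δ (y / a (n j)) ≤ M * 1 :=
            mul_le_mul (hgb y hy) (h01 _).2 (h01 _).1 hM
        _ = M := mul_one M
    rw [← mul_sub, abs_mul, abs_of_nonneg (by positivity)]
    unfold bl
    rw [lam_zero, ← integral_sub hi1 hi2]
    set B : Set ℝ := {y | y / a (n j) ∈ Set.Icc δ (1 / δ)}ᶜ with hB
    have hBm : MeasurableSet B := ((measurable_id.div_const (a (n j))) measurableSet_Icc).compl
    have h2 := X3b_bound (μ := volume.restrict D) (M := M) hBm hhi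
      (f := fun y => g (y / a (n j)) * hit D ρ (l j) y -
        g (y / a (n j)) * cut δ (y / a (n j)) * hit D ρ (l j) y) ?_
    · have h3 : ∫ y in B, hit D ρ (l j) y ∂(volume.restrict D) ≤ 2 * e * (a (n j) / n j) := by
        rw [Measure.restrict_restrict hBm, integral_eq_lintegral_of_nonneg_ae
          (Filter.Eventually.of_forall fun y => hit_nonneg _ _) hhm.aestronglyMeasurable]
        refine ENNReal.toReal_le_of_le_ofReal (by positivity) ?_
        have hsub : B ∩ D ⊆ (D ∩ Set.Ioi (R * a (n j))) ∪ (D ∩ Set.Iic (δ₁ * a (n j))) := by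
          rintro y ⟨hy0, hy1⟩
          rcases le_or_gt (y / a (n j)) δ₁ with h | h
          · exact Or.inr ⟨hy1, (div_le_iff₀ han).mp h⟩
          · left
            refine ⟨hy1, ?_⟩
            by_contra h5
            have h6 : y / a (n j) ≤ R := (div_le_iff₀ han).mpr (not_lt.mp h5)
            exact hy0 ⟨hδδ₁.trans h.le, h6.trans hRδ⟩
        refine (lintegral_mono_set hsub).trans ((lintegral_union_le _ _ _).trans ?_)
        refine (add_le_add hf1 hn1).trans ?_
        rw [← ENNReal.ofReal_add (by positivity) (by positivity)]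
        exact ENNReal.ofReal_le_ofReal (le_of_eq (by ring))
      calc (n j : ℝ) / a (n j) * |∫ y in D, (g (y / a (n j)) * hit D ρ (l j) y -
            g (y / a (n j)) * cut δ (y / a (n j)) * hit D ρ (l j) y)|
          ≤ (n j : ℝ) / a (n j) * (M * (2 * e * (a (n j) / n j))) := by
            refine mul_le_mul_of_nonneg_left (h2.trans ?_) (by positivity)
            exact mul_le_mul_of_nonneg_left h3 hM
        _ = 2 * M * e := by
            field_simp
    · filter_upwards [ae_restrict_mem hD.meas] with y hy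
      have hφ0 := hit_nonneg (D := D) (ρ := ρ) (l j) y
      have h3 : g (y / a (n j)) * hit D ρ (l j) y - g (y / a (n j)) * cut δ (y / a (n j)) * hit D ρ (l j) y =
          g (y / a (n j)) * (1 - cut δ (y / a (n j))) * hit D ρ (l j) y := by ring
      rw [h3]
      by_cases hyI : y / a (n j) ∈ Set.Icc δ (1 / δ)
      · rw [hone _ hyI.1 hyI.2, Set.indicator_of_notMem (show y ∉ B from fun h => h hyI)]
        simp
      · rw [Set.indicator_of_mem (show y ∈ B from hyI), abs_mul, abs_mul, abs_of_nonneg hφ0]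
        refine mul_le_mul_of_nonneg_right ?_ hφ0
        have h4 : |1 - cut δ (y / a (n j))| ≤ 1 := by
          rw [abs_of_nonneg (by linarith [(h01 (y / a (n j))).2])]
          linarith [(h01 (y / a (n j))).1]
        calc |g (y / a (n j))| * |1 - cut δ (y / a (n j))| ≤ M * 1 :=
              mul_le_mul (hgb y hy) h4 (abs_nonneg _) hM
          _ = M := mul_one M
  filter_upwards [hb3, hb4] with j h3 h4
  rw [Real.dist_eq]
  set X := (n j : ℝ) / a (n j) * bl D ρ 0 0 (a (n j)) (l j) g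
  set Y := (n j : ℝ) / a (n j) * bl D ρ 0 0 (a (n j)) (l j) (fun x => g x * cut δ x)
  set Z := bet α ζ r (fun x => g x * cut δ x)
  set W := bet α ζ r g
  have h5 : |X - W| ≤ |X - Y| + |Y - Z| + |W - Z| := by
    have e1 : X - W = (X - Y) + (Y - Z) + -(W - Z) := by ring
    rw [e1]
    refine (abs_add_le _ _).trans ?_
    rw [abs_neg]
    linarith [abs_add_le (X - Y) (Y - Z)]
  have h6 : |X - W| < (3 * M + 2) * e := by nlinarith
  have h7 : (3 * M + 2) * e = ε := by
    rw [he]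
    field_simp
  linarith

end Pool.Agent.BPT
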