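import Pool.Agent.MP_99a865_pr.ST.X3b

/-! **[STB-X3c]** Properties of the functional `bet`. -/

open MeasureTheory ProbabilityTheory Filter Topology
open scoped ENNReal NNReal

namespace Pool.Agent.BPT

variable {α : ℝ} {ζ ρ : Measure ℝ} {a : ℕ → ℝ} {D : Set ℝ}

lemma X3c_floor {t : ℝ} (ht : 0 ≤ t) : Tm (fun n => n) (fun n : ℕ => ⌊t * n⌋₊) t := by
  refine ⟨tendsto_id, ?_⟩
  have h1 := (tendsto_nat_floor_mul_div_atTop (R := ℝ) ht).comp (tendsto_natCast_atTop_atTop (R := ℝ))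
  exact h1

lemma X3c_M {M : ℝ} {g : ℝ → ℝ} (hg : BCo M g) : 0 ≤ M := (abs_nonneg _).trans (hg.bd 1 one_pos)

lemma X3c_nonneg (hda : DA α ζ ρ a) {r η : ℝ} (hr : 0 < r) (hη : 0 < η) {y : ℝ} (hy : 0 < y) :
    0 ≤ QO α ζ r y - QO α ζ (r + η) y :=
  sub_nonneg.mpr ((QO_facts hda).2.1 r hr (r + η) (by linarith) y hy)

lemma X3c_int (hda : DA α ζ ρ a) {r M : ℝ} (hr : 0 < r) (hr1 : r < 1) {g : ℝ → ℝ} (hg : BCo M g)
    {η : ℝ} (hη : 0 < η) (hη1 : r + η < 1) :
    IntegrableOn (fun y => g y * (QO α ζ r y - QO α ζ (r + η) y)) (Set.Ioi 0) := by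
  obtain ⟨C, hC, hint, htail⟩ := X3_tail hda hr hr1
  have hφ := (hint η hη hη1).1
  refine Integrable.bdd_mul (c := M) hφ (hg.cont.aestronglyMeasurable measurableSet_Ioi) ?_
  filter_upwards [ae_restrict_mem measurableSet_Ioi] with y hy
  exact hg.bd y hy

lemma X3c_ev {r : ℝ} (hr1 : r < 1) : ∀ᶠ η : ℝ in 𝓝[>] (0 : ℝ), 0 < η ∧ r + η < 1 := by
  have hev : ∀ᶠ η : ℝ in 𝓝[>] (0 : ℝ), η < 1 - r :=
    (eventually_lt_nhds (show (0 : ℝ) < 1 - r by linarith)).filter_mono nhdsWithin_le_nhds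
  filter_upwards [hev, self_mem_nhdsWithin] with η h1 h2
  exact ⟨h2, by linarith⟩

/-- linearity, positivity, bound, tails -/
theorem bet_add (hda : DA α ζ ρ a) {r M N : ℝ} (hr : 0 < r) (hr1 : r < 1) {f g : ℝ → ℝ} (hf : BCo M f) (hg : BCo N g) :
    bet α ζ r (fun y => f y + g y) = bet α ζ r f + bet α ζ r g := by
  have hfg : BCo (M + N) (fun y => f y + g y) :=
    ⟨fun x hx => (abs_add_le _ _).trans (add_le_add (hf.bd x hx) (hg.bd x hx)), hf.cont.add hg.cont⟩
  have h1 := bet_tendsto hda hr hr1 hfg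
  have h2 := (bet_tendsto hda hr hr1 hf).add (bet_tendsto hda hr hr1 hg)
  refine tendsto_nhds_unique (h1.congr' ?_) h2
  filter_upwards [X3c_ev hr1] with η hη
  rw [← add_div, ← integral_add (X3c_int hda hr hr1 hf hη.1 hη.2) (X3c_int hda hr hr1 hg hη.1 hη.2)]
  congr 1
  refine integral_congr_ae (Filter.Eventually.of_forall fun y => ?_)
  simp only
  ring

theorem bet_smul (hda : DA α ζ ρ a) {r M : ℝ} (hr : 0 < r) (hr1 : r < 1) {f : ℝ → ℝ} (hf : BCo M f) (s : ℝ) :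
    bet α ζ r (fun y => s * f y) = s * bet α ζ r f := by
  have hfs : BCo (|s| * M) (fun y => s * f y) := by
    refine ⟨fun x hx => ?_, continuousOn_const.mul hf.cont⟩
    rw [abs_mul]
    exact mul_le_mul_of_nonneg_left (hf.bd x hx) (abs_nonneg _)
  have h1 := bet_tendsto hda hr hr1 hfs
  have h2 := (bet_tendsto hda hr hr1 hf).const_mul s
  refine tendsto_nhds_unique (h1.congr' ?_) h2
  filter_upwards [X3c_ev hr1] with η hη
  rw [← mul_div_assoc, ← integral_const_mul]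
  congr 1
  refine integral_congr_ae (Filter.Eventually.of_forall fun y => ?_)
  simp only
  ring

theorem bet_mono (hda : DA α ζ ρ a) {r M N : ℝ} (hr : 0 < r) (hr1 : r < 1) {f g : ℝ → ℝ} (hf : BCo M f) (hg : BCo N g)
    (hfg : ∀ y > 0, f y ≤ g y) : bet α ζ r f ≤ bet α ζ r g := by
  have h1 := bet_tendsto hda hr hr1 hf
  have h2 := bet_tendsto hda hr hr1 hg
  refine le_of_tendsto_of_tendsto h1 h2 ?_
  filter_upwards [X3c_ev hr1] with η hη
  have h3 : ∫ y in Set.Ioi (0 : ℝ), f y * (QO α ζ r y - QO α ζ (r + η) y) ≤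
      ∫ y in Set.Ioi (0 : ℝ), g y * (QO α ζ r y - QO α ζ (r + η) y) := by
    refine setIntegral_mono_on (X3c_int hda hr hr1 hf hη.1 hη.2) (X3c_int hda hr hr1 hg hη.1 hη.2)
      measurableSet_Ioi fun y hy => ?_
    exact mul_le_mul_of_nonneg_right (hfg y hy) (X3c_nonneg hda hr hη.1 hy)
  exact div_le_div_of_nonneg_right h3 hη.1.le

theorem bet_tail (hda : DA α ζ ρ a) {r : ℝ} (hr : 0 < r) (hr1 : r < 1) : ∀ ε > (0 : ℝ), ∃ δ > (0 : ℝ), δ < 1 ∧
    ∀ f : ℝ → ℝ, BCo 1 f → (∀ y, δ ≤ y → y ≤ 1 / δ → f y = 0) → |bet α ζ r f| ≤ ε := by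
  intro ε hε
  obtain ⟨C, hC, hint, htail⟩ := X3_tail hda hr hr1
  obtain ⟨δ, hδ, hδ1, hδt⟩ := htail ε hε
  refine ⟨δ, hδ, hδ1, fun f hf hz => ?_⟩
  refine le_of_tendsto (bet_tendsto hda hr hr1 hf).abs ?_
  filter_upwards [X3c_ev hr1] with η hη
  rw [abs_div, abs_of_pos hη.1, div_le_iff₀ hη.1]
  have hB : MeasurableSet (Set.Icc δ (1 / δ))ᶜ := measurableSet_Icc.compl
  have hφ := (hint η hη.1 hη.2).1
  have h1 : Integrable ((Set.Icc δ (1 / δ))ᶜ.indicator fun y => QO α ζ r y - QO α ζ (r + η) y)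
      (volume.restrict (Set.Ioi (0 : ℝ))) := hφ.indicator hB
  have h2 := norm_integral_le_of_norm_le h1 (f := fun y => f y * (QO α ζ r y - QO α ζ (r + η) y)) ?_
  · rw [Real.norm_eq_abs, integral_indicator hB, Measure.restrict_restrict hB, Set.inter_comm] at h2
    exact h2.trans (hδt η hη.1 hη.2)
  · filter_upwards [ae_restrict_mem measurableSet_Ioi] with y hy
    have hφ0 := X3c_nonneg hda hr hη.1 (show 0 < y from hy)
    by_cases hyI : y ∈ Set.Icc δ (1 / δ)
    · rw [Set.indicator_of_notMem (show y ∉ (Set.Icc δ (1 / δ))ᶜ from fun h => h hyI), hz y hyI.1 hyI.2]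
      simp
    · rw [Set.indicator_of_mem (show y ∈ (Set.Icc δ (1 / δ))ᶜ from hyI), Real.norm_eq_abs, abs_mul,
        abs_of_nonneg hφ0]
      calc |f y| * (QO α ζ r y - QO α ζ (r + η) y) ≤ 1 * (QO α ζ r y - QO α ζ (r + η) y) :=
            mul_le_mul_of_nonneg_right (hf.bd y hy) hφ0
        _ = _ := one_mul _

lemma X3c_hit (hD : Dom D) [IsProbabilityMeasure ρ] (m : ℕ) (y : ℝ) :
    hit D ρ (m + 1) y = al D ρ m y - al D ρ (m + 1) y := by
  have h1 := surv_add_hit hD (ρ := ρ) m y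
  have h2 := surv_add_hit hD (ρ := ρ) (m + 1) y
  rw [Finset.sum_range_succ] at h2
  have hfin : ∑ n ∈ Finset.range (m + 1), ENNReal.ofReal (hit D ρ n y) ≠ ⊤ := by
    rw [ENNReal.sum_ne_top]
    intro i _
    exact ENNReal.ofReal_ne_top
  have h3 : kap D ρ m y Set.univ = kap D ρ (m + 1) y Set.univ + ENNReal.ofReal (hit D ρ (m + 1) y) := by
    have h4 : kap D ρ m y Set.univ + ∑ n ∈ Finset.range (m + 1), ENNReal.ofReal (hit D ρ n y) =
        kap D ρ (m + 1) y Set.univ + ENNReal.ofReal (hit D ρ (m + 1) y) +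
          ∑ n ∈ Finset.range (m + 1), ENNReal.ofReal (hit D ρ n y) := by
      rw [h1, ← h2]
      ring
    exact (ENNReal.add_left_inj hfin).mp h4
  unfold al
  have h5 : (kap D ρ m y).real Set.univ = (kap D ρ (m + 1) y).real Set.univ + hit D ρ (m + 1) y := by
    unfold Measure.real
    rw [h3, ENNReal.toReal_add (measure_ne_top _ _) ENNReal.ofReal_ne_top,
      ENNReal.toReal_ofReal (hit_nonneg _ _)]
  rw [h5]
  ring

lemma X3c_anti (hD : Dom D) [IsProbabilityMeasure ρ] (m j : ℕ) (y : ℝ) :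
    al D ρ (m + j) y ≤ al D ρ m y := by
  induction j with
  | zero => exact le_rfl
  | succ j ih =>
    have h1 := X3c_hit hD (ρ := ρ) (m + j) y
    have h2 := hit_nonneg (D := D) (ρ := ρ) (m + j + 1) y
    have h3 : m + (j + 1) = m + j + 1 := by omega
    rw [h3]
    linarith

/-- **[STB-X3c]** PROOF. By `X3_lim` with `g = 1` on `(0,∞)` it is the limit of `(n/a) ∫_D hit_l(y) dy = (n/a) ∫_D ex(w) al D (dual ρ) (l-1) w dw`
(`hit_duality`, the point `0` does not matter) `≥ (n/a) ∫_0^{a_n} ex(w) c V'(w)/V'(a_n) dw ≥ c'` by `DA.le_al` for the dual walk (`V' = vr D (dual ρ)`; time `l ≤ n`: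
`al` is nonincreasing in time, use time `n`), `DA.vd_comp` and the lower bound in `DA.ex_sum`. -/
theorem bet_pos (hda : DA α ζ ρ a) {r : ℝ} (hr : 0 < r) (hr1 : r < 1) : 0 < bet α ζ r (fun _ => 1) := by
  haveI := hda.prob
  haveI := hda.dual.prob
  have hD : Dom (Set.Ioi (0 : ℝ)) := Or.inr rfl
  have hstep : ∀ᵐ x ∂ρ, Cos 0 0 x := Filter.Eventually.of_forall fun x hx => absurd rfl hx
  set g : ℝ → ℝ := (Set.Ioi (0 : ℝ)).indicator (fun _ => 1) with hgdef
  have hg1 : ∀ x > 0, g x = 1 := fun x hx => Set.indicator_of_mem (show x ∈ Set.Ioi (0 : ℝ) from hx) _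
  have hg : BZ 1 g := by
    refine ⟨⟨fun x hx => ?_, ?_⟩, fun x hx => ?_⟩
    · rw [hg1 x hx, abs_one]
    · exact (continuousOn_const (c := (1 : ℝ))).congr fun x hx => hg1 x hx
    · exact Set.indicator_of_notMem (not_lt.mpr hx) _
  have hbet : bet α ζ r (fun _ => 1) = bet α ζ r g := by
    unfold bet
    congr 1
    funext η
    congr 1
    refine setIntegral_congr_fun measurableSet_Ioi fun y hy => ?_
    simp only
    rw [hg1 y hy]
  obtain ⟨c, hc, hal⟩ := hda.dual.le_al hD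
  obtain ⟨C, hC, hcomp⟩ := hda.vd_comp hD
  obtain ⟨C', hC', hex⟩ := hda.ex_sum hD
  obtain ⟨Cm, hCm, hmass⟩ := X1_mass hda hD (b := 0) (h := 0) (c₀ := r / 2) le_rfl hstep (by positivity)
  have hlim := X3_lim hda hD hg hr hr1 (X3c_floor hr.le)
  rw [hbet]
  have hkey : ∀ᶠ n : ℕ in atTop, c / (C ^ 2 * C') ≤
      (n : ℝ) / a n * bl (Set.Ioi 0) ρ 0 0 (a n) ⌊r * n⌋₊ g := by
    have hbig : ∀ᶠ n : ℕ in atTop, (2 : ℝ) / r ≤ n := by
      exact (tendsto_natCast_atTop_atTop (R := ℝ)).eventually_ge_atTop _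
    filter_upwards [hal, hex, hmass, eventually_ge_atTop 1, hbig] with n hal hex hm hn1 hbig
    have hn : (0 : ℝ) < n := by exact_mod_cast hn1
    have han := hda.pos n
    have hrn : 2 ≤ r * n := by
      rw [div_le_iff₀ hr] at hbig
      linarith
    set l := ⌊r * (n : ℝ)⌋₊ with hl
    have hl1 : 1 ≤ l := by
      rw [hl]
      exact Nat.le_floor (by push_cast; linarith)
    have hl2 : l ≤ n := by
      have : ((l : ℕ) : ℝ) ≤ n := by
        refine (Nat.floor_le (by positivity)).trans ?_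
        nlinarith
      exact_mod_cast this
    have hl3 : r / 2 * n ≤ l := by
      have := Nat.lt_floor_add_one (r * (n : ℝ))
      rw [← hl] at this
      linarith
    obtain ⟨k, hk⟩ : ∃ k, l = k + 1 := ⟨l - 1, by omega⟩
    have hhm := measurable_hit hD (ρ := ρ) l
    have hm1 := hm l hl3 hl2 0
    rw [lam_zero] at hm1
    -- the exit measure by duality
    have hdu := hit_duality hD (ρ := ρ) (a := 0) (h := 0) le_rfl hstep 0 k (fun _ => 1) measurable_const
    rw [← hk, lam_zero, lam_zero] at hdu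
    simp only [one_mul, lintegral_one] at hdu
    have hvr1 : 1 ≤ vr (Set.Ioi 0) (dual ρ) (a n) := (vr_facts hD hda.dual.cen).2.1 _
    have hvd0 : 0 < vd (Set.Ioi 0) ρ (a n) := by
      have h1 := (hcomp (a n) han.le).1
      by_contra h2
      have h3 : C * vd (Set.Ioi 0) ρ (a n) ≤ 0 := mul_nonpos_of_nonneg_of_nonpos hC.le (not_lt.mp h2)
      linarith
    set c' : ℝ := c / (C ^ 2 * vd (Set.Ioi 0) ρ (a n)) with hc'
    have hc'0 : 0 < c' := by positivity
    have hpt : ∀ w ∈ Set.Icc 0 (a n), ENNReal.ofReal c' * (ex (Set.Ioi 0) ρ w * ENNReal.ofReal (vd (Set.Ioi 0) ρ w)) ≤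
        ex (Set.Ioi 0) ρ w * kap (Set.Ioi 0) (dual ρ) k w Set.univ := by
      intro w hw
      have h1 := hal w hw.1 hw.2
      have h2 : al (Set.Ioi 0) (dual ρ) n w ≤ al (Set.Ioi 0) (dual ρ) k w := by
        have h3 := X3c_anti hD (ρ := dual ρ) k (n - k) w
        have h4 : k + (n - k) = n := by omega
        rwa [h4] at h3
      have h3 : c' * vd (Set.Ioi 0) ρ w ≤ al (Set.Ioi 0) (dual ρ) k w := by
        refine le_trans ?_ (h1.trans h2)
        have h4 := (hcomp w hw.1).2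
        have h5 := (hcomp (a n) han.le).1
        have h6 : 0 < vr (Set.Ioi 0) (dual ρ) (a n) := by linarith
        have h7 : 0 ≤ vr (Set.Ioi 0) (dual ρ) w := by linarith [(vr_facts hD hda.dual.cen).2.1 w]
        rw [hc', div_mul_eq_mul_div, mul_div_assoc']
        rw [div_le_div_iff₀ (by positivity) h6]
        calc c * vd (Set.Ioi 0) ρ w * vr (Set.Ioi 0) (dual ρ) (a n)
            ≤ c * (C * vr (Set.Ioi 0) (dual ρ) w) * (C * vd (Set.Ioi 0) ρ (a n)) := by
              refine mul_le_mul (mul_le_mul_of_nonneg_left h4 hc.le) h5 h6.le (by positivity)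
          _ = c * vr (Set.Ioi 0) (dual ρ) w * (C ^ 2 * vd (Set.Ioi 0) ρ (a n)) := by ring
      calc ENNReal.ofReal c' * (ex (Set.Ioi 0) ρ w * ENNReal.ofReal (vd (Set.Ioi 0) ρ w))
          = ex (Set.Ioi 0) ρ w * ENNReal.ofReal (c' * vd (Set.Ioi 0) ρ w) := by
            rw [ENNReal.ofReal_mul hc'0.le]
            ring
        _ ≤ ex (Set.Ioi 0) ρ w * ENNReal.ofReal (al (Set.Ioi 0) (dual ρ) k w) := by
            gcongr
        _ = ex (Set.Ioi 0) ρ w * kap (Set.Ioi 0) (dual ρ) k w Set.univ := by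
            unfold al
            rw [ofReal_measureReal]
    have hae : (Set.Icc 0 (a n) : Set ℝ) =ᵐ[volume] Set.Ioc 0 (a n) := Ioc_ae_eq_Icc.symm
    have hlow : ENNReal.ofReal (c / (C ^ 2 * C') * (a n / n)) ≤
        ∫⁻ y in Set.Ioi (0 : ℝ), ENNReal.ofReal (hit (Set.Ioi 0) ρ l y) := by
      rw [hdu]
      calc ENNReal.ofReal (c / (C ^ 2 * C') * (a n / n))
          = ENNReal.ofReal c' * ENNReal.ofReal (a n * vd (Set.Ioi 0) ρ (a n) / (C' * n)) := by
            rw [← ENNReal.ofReal_mul hc'0.le, hc']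
            congr 1
            field_simp
        _ ≤ ENNReal.ofReal c' * ∫⁻ w in Set.Icc 0 (a n), ex (Set.Ioi 0) ρ w * ENNReal.ofReal (vd (Set.Ioi 0) ρ w) := by
            gcongr
            exact hex.2
        _ ≤ ∫⁻ w in Set.Icc 0 (a n), ENNReal.ofReal c' *
              (ex (Set.Ioi 0) ρ w * ENNReal.ofReal (vd (Set.Ioi 0) ρ w)) := lintegral_const_mul_le _ _
        _ ≤ ∫⁻ w in Set.Icc 0 (a n), ex (Set.Ioi 0) ρ w * kap (Set.Ioi 0) (dual ρ) k w Set.univ :=
            setLIntegral_mono' measurableSet_Icc hpt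
        _ = ∫⁻ w in Set.Ioc 0 (a n), ex (Set.Ioi 0) ρ w * kap (Set.Ioi 0) (dual ρ) k w Set.univ :=
            setLIntegral_congr hae
        _ ≤ ∫⁻ w in Set.Ioi (0 : ℝ), ex (Set.Ioi 0) ρ w * kap (Set.Ioi 0) (dual ρ) k w Set.univ :=
            lintegral_mono_set fun w hw => hw.1
    have hbl : bl (Set.Ioi 0) ρ 0 0 (a n) l g =
        (∫⁻ y in Set.Ioi (0 : ℝ), ENNReal.ofReal (hit (Set.Ioi 0) ρ l y)).toReal := by
      unfold bl
      rw [lam_zero, ← integral_eq_lintegral_of_nonneg_ae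
        (Filter.Eventually.of_forall fun y => hit_nonneg _ _) hhm.aestronglyMeasurable]
      refine setIntegral_congr_fun measurableSet_Ioi fun y hy => ?_
      change g (y / a n) * hit (Set.Ioi 0) ρ l y = hit (Set.Ioi 0) ρ l y
      rw [hg1 _ (div_pos hy han), one_mul]
    have hfin : ∫⁻ y in Set.Ioi (0 : ℝ), ENNReal.ofReal (hit (Set.Ioi 0) ρ l y) ≠ ⊤ :=
      (hm1.trans_lt ENNReal.ofReal_lt_top).ne
    have h8 := (ENNReal.ofReal_le_iff_le_toReal hfin).mp hlow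
    rw [← hbl] at h8
    calc c / (C ^ 2 * C') = (n : ℝ) / a n * (c / (C ^ 2 * C') * (a n / n)) := by field_simp
      _ ≤ (n : ℝ) / a n * bl (Set.Ioi 0) ρ 0 0 (a n) l g :=
        mul_le_mul_of_nonneg_left h8 (by positivity)
  exact lt_of_lt_of_le (by positivity) (ge_of_tendsto hlim hkey)

end Pool.Agent.BPT
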