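import Pool.Agent.MP_99a865_pr.CV.K11
import Pool.Agent.MP_99a865_pr.ST.X3c

/-! **[STB-X4a]** Sums over a coset against the integral. -/

open MeasureTheory ProbabilityTheory Filter Topology
open scoped ENNReal NNReal

namespace Pool.Agent.BPT

variable {α : ℝ} {ζ ρ : Measure ℝ} {a : ℕ → ℝ} {D : Set ℝ}

/-- the restriction of `lam h c` to `D` -/
theorem X4a_lam (hD : Dom D) {h : ℝ} (hh : 0 < h) (c : ℝ) : ∃ w₀ : ℝ, 0 ≤ w₀ ∧ w₀ ≤ h ∧
    (lam h c).restrict D = ENNReal.ofReal h • Measure.sum fun i : ℕ => Measure.dirac (w₀ + h * i) := by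
  -- the least index
  have hex : ∃ j : ℤ, c + h * j ∈ D ∧ ∀ i : ℤ, c + h * i ∈ D → j ≤ i := by
    have h1 : ∃ b : ℤ, ∀ z : ℤ, c + h * z ∈ D → b ≤ z := by
      refine ⟨⌈-c / h⌉, fun z hz => ?_⟩
      rw [Int.ceil_le, div_le_iff₀ hh]
      have := hD.nonneg hz
      linarith
    have h2 : ∃ z : ℤ, c + h * z ∈ D := by
      refine ⟨⌊-c / h⌋ + 1, hD.pos ?_⟩
      have h3 := Int.lt_floor_add_one (-c / h)
      rw [div_lt_iff₀ hh] at h3
      push_cast
      linarith
    exact Int.exists_least_of_bdd h1 h2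
  obtain ⟨j, hj, hjl⟩ := hex
  refine ⟨c + h * j, hD.nonneg hj, ?_, ?_⟩
  · by_contra hcon
    push Not at hcon
    have h1 : c + h * ((j - 1 : ℤ) : ℝ) ∈ D := by
      apply hD.pos
      push_cast
      linarith
    have := hjl _ h1
    omega
  · ext s hs
    rw [Measure.restrict_apply hs]
    unfold lam
    rw [if_neg hh.ne', Measure.smul_apply, Measure.smul_apply, Measure.sum_apply _ hs,
      Measure.sum_apply _ (hs.inter hD.meas)]
    congr 1
    have hinj : Function.Injective fun i : ℕ => j + (i : ℤ) := by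
      intro a b hab
      have : j + (a : ℤ) = j + (b : ℤ) := hab
      omega
    rw [← hinj.tsum_eq (f := fun i : ℤ => (Measure.dirac (c + h * (i : ℝ))) (s ∩ D))]
    · refine tsum_congr fun i => ?_
      have h1 : c + h * (((j + (i : ℤ)) : ℤ) : ℝ) = c + h * j + h * i := by
        push_cast
        ring
      rw [h1, Measure.dirac_apply' _ hs, Measure.dirac_apply' _ (hs.inter hD.meas)]
      have h2 : c + h * j + h * i ∈ D := hD.up hj (by
        have : 0 ≤ h * (i : ℝ) := by positivity
        linarith)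
      by_cases h3 : c + h * j + h * i ∈ s
      · rw [Set.indicator_of_mem h3, Set.indicator_of_mem (Set.mem_inter h3 h2)]
      · rw [Set.indicator_of_notMem h3, Set.indicator_of_notMem (fun h4 => h3 h4.1)]
    · intro i hi
      rw [Function.mem_support, Measure.dirac_apply' _ (hs.inter hD.meas)] at hi
      have h1 : c + h * (i : ℝ) ∈ s ∩ D := by
        by_contra h2
        exact hi (Set.indicator_of_notMem h2 _)
      have h2 := hjl i h1.2
      refine ⟨(i - j).toNat, ?_⟩
      simp only []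
      omega

theorem X4a_restr (hD : Dom D) : (volume : Measure ℝ).restrict D = volume.restrict (Set.Ioi 0) := by
  rcases hD with rfl | rfl
  · exact (restrict_Ioi_eq_restrict_Ici).symm
  · rfl

/-- **[STB-X4a]** Sums over a coset against the integral. `e` nonincreasing, `F` nondecreasing with values in `[0,1]`, `|G w| ≤ M F(w)` and
`|G(w) - G(w')| ≤ ω F(w') + M (F(w') - F(w))` for `w ≤ w' ≤ w + 2h`. Let `Θ = ∫ F(x + 2h) e(dx)`-like quantity: any number with
`∑_i F(w_{i+1}) (e(w_i) - e(w_{i+1})) ≤ Θ` for the points `w_i` of any coset in `[0,∞)`, and `S` any bound of `∑_i h e(w_i) F(w_{i+1})`. Then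
`|∫_{w ∈ D} e G ∂(lam h c) - ∫_{w ∈ D} e G| ≤ 4 M h Θ + 2 ω S + 2 M h e(0) F(2h)`.
PROOF. Let `w_0 < w_1 < …` be the points of `c + hℤ` in `D`, `w_0 ≤ h`. `|h ∑ e(w_i) G(w_i) - ∫_{w ∈ D} e G| ≤ ∫_0^{w_0} e |G| + ∑_i ∫_{w_i}^{w_{i+1}} |e(w_i) G(w_i) - e(w) G(w)| dw`
and `|e(w_i) G(w_i) - e(w) G(w)| ≤ M F(w_i) (e(w_i) - e(w_{i+1})) + e(w_i) (ω F(w_{i+1}) + M (F(w_{i+1}) - F(w_i)))`; Abel summation:
`∑_i e(w_i) (F(w_{i+1}) - F(w_i)) ≤ ∑_i F(w_{i+1}) (e(w_i) - e(w_{i+1}))` (`e → 0`; finite sums: the boundary term `e(w_N) F(w_{N})` has the right sign or is dropped). -/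
theorem X4_abel (hD : Dom D) {h c M ω Θ S : ℝ} (hh : 0 < h) {e F G : ℝ → ℝ} (he : Antitone e) (he0 : ∀ w, 0 ≤ e w)
    (hel : Tendsto e atTop (𝓝 0)) (hei : IntegrableOn e (Set.Ioi 0)) (hF : Monotone F) (hF0 : ∀ w, 0 ≤ F w) (hF1 : ∀ w, F w ≤ 1)
    (hGm : Measurable G) (hω : 0 ≤ ω) (hM : 0 ≤ M) (hG : ∀ w, 0 ≤ w → |G w| ≤ M * F w)
    (hG' : ∀ w w', 0 ≤ w → w ≤ w' → w' ≤ w + 2 * h → |G w - G w'| ≤ ω * F w' + M * (F w' - F w))
    (hΘ : ∀ w₀, 0 ≤ w₀ → ∀ N : ℕ, ∑ i ∈ Finset.range N, F (w₀ + h * (i + 1)) * (e (w₀ + h * i) - e (w₀ + h * (i + 1))) ≤ Θ)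
    (hS : ∀ w₀, 0 ≤ w₀ → ∀ N : ℕ, ∑ i ∈ Finset.range N, h * e (w₀ + h * i) * F (w₀ + h * (i + 1)) ≤ S) :
    |(∫ w in D, e w * G w ∂(lam h c)) - ∫ w in D, e w * G w| ≤ 4 * M * h * Θ + 2 * ω * S + 2 * M * h * e 0 * F (2 * h) := by
  obtain ⟨w₀, hw0, hw1, hlam⟩ := X4a_lam hD hh c
  rw [hlam, X4a_restr hD]
  have hem : Measurable e := he.measurable
  have hfm : Measurable fun w => e w * G w := hem.mul hGm
  have hΘ0 : 0 ≤ Θ := by simpa using hΘ 0 le_rfl 0
  have hS0 : 0 ≤ S := by simpa using hS 0 le_rfl 0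
  -- the points
  obtain ⟨p, hp⟩ : ∃ p : ℕ → ℝ, p = fun i : ℕ => w₀ + h * i := ⟨_, rfl⟩
  have hp_nonneg : ∀ i, 0 ≤ p i := by
    intro i
    rw [hp]
    positivity
  have hps : ∀ i, p (i + 1) = p i + h := by
    intro i
    rw [hp]
    push_cast
    ring
  have hpmono : ∀ i, p i ≤ p (i + 1) := by
    intro i
    rw [hps]
    linarith
  have hptop : Tendsto p atTop atTop := by
    rw [hp]
    exact tendsto_atTop_add_const_left _ _ (tendsto_natCast_atTop_atTop.const_mul_atTop hh)
  have hΘp : ∀ N : ℕ, ∑ i ∈ Finset.range N, F (p (i + 1)) * (e (p i) - e (p (i + 1))) ≤ Θ := by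
    intro N
    have := hΘ w₀ hw0 N
    rw [hp]
    push_cast
    exact this
  have hSp : ∀ N : ℕ, ∑ i ∈ Finset.range N, h * e (p i) * F (p (i + 1)) ≤ S := by
    intro N
    have := hS w₀ hw0 N
    rw [hp]
    push_cast
    exact this
  -- integrability against the lattice measure
  have hsum : Summable fun i => e (p i) * G (p i) := by
    have h1 : ∀ i, ‖e (p i) * G (p i)‖ ≤ M / h * (h * e (p i) * F (p (i + 1))) := by
      intro i
      rw [norm_mul, Real.norm_eq_abs, Real.norm_eq_abs, abs_of_nonneg (he0 _)]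
      have h2 := hG (p i) (hp_nonneg i)
      have h3 := hF (hpmono i)
      calc e (p i) * |G (p i)| ≤ e (p i) * (M * F (p (i + 1))) := by
            refine mul_le_mul_of_nonneg_left (h2.trans ?_) (he0 _)
            exact mul_le_mul_of_nonneg_left h3 hM
        _ = M / h * (h * e (p i) * F (p (i + 1))) := by field_simp
    have h4 : Summable fun i => h * e (p i) * F (p (i + 1)) := by
      refine summable_of_sum_range_le (c := S) (fun i => ?_) hSp
      have := he0 (p i)
      have := hF0 (p (i + 1))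
      positivity
    exact Summable.of_norm_bounded (h4.mul_left (M / h)) h1
  have hint : Integrable (fun w => e w * G w) (Measure.sum fun i : ℕ => Measure.dirac (p i)) := by
    refine ⟨hfm.aestronglyMeasurable, ?_⟩
    unfold HasFiniteIntegral
    rw [lintegral_sum_measure]
    have h1 : ∀ i, ∫⁻ a, ‖e a * G a‖ₑ ∂(Measure.dirac (p i)) = ENNReal.ofReal ‖e (p i) * G (p i)‖ := by
      intro i
      rw [lintegral_dirac' _ hfm.enorm, ofReal_norm]
    simp_rw [h1]
    have h2 := hsum.norm
    rw [← ENNReal.ofReal_tsum_of_nonneg (fun i => norm_nonneg _) h2]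
    exact ENNReal.ofReal_lt_top
  have hA : Tendsto (fun N => h * ∑ i ∈ Finset.range N, e (p i) * G (p i)) atTop
      (𝓝 (∫ w, e w * G w ∂(ENNReal.ofReal h • Measure.sum fun i : ℕ => Measure.dirac (w₀ + h * i)))) := by
    rw [integral_smul_measure, ENNReal.toReal_ofReal hh.le, smul_eq_mul]
    refine Tendsto.const_mul _ ?_
    have h1 := hasSum_integral_measure hint
    have h2 : ∀ i, ∫ a, e a * G a ∂(Measure.dirac (p i)) = e (p i) * G (p i) := by
      intro i
      exact integral_dirac' _ _ hfm.stronglyMeasurable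
    simp_rw [h2] at h1
    have h3 := h1.tendsto_sum_nat
    rw [hp] at h3 ⊢
    exact h3
  -- integrability against Lebesgue measure
  have hGb : ∀ w, 0 ≤ w → |G w| ≤ M := by
    intro w hw
    refine (hG w hw).trans ?_
    nlinarith [hF1 w]
  have hintL : IntegrableOn (fun w => e w * G w) (Set.Ioi 0) := by
    refine Integrable.mono' (hei.const_mul M) hfm.aestronglyMeasurable ?_
    filter_upwards [ae_restrict_mem measurableSet_Ioi] with w hw
    rw [norm_mul, Real.norm_eq_abs, Real.norm_eq_abs, abs_of_nonneg (he0 _), mul_comm]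
    exact mul_le_mul_of_nonneg_right (hGb w (le_of_lt hw)) (he0 _)
  have hB : Tendsto (fun N => ∫ w in (0 : ℝ)..(p N), e w * G w) atTop (𝓝 (∫ w in Set.Ioi 0, e w * G w)) :=
    intervalIntegral_tendsto_integral_Ioi 0 hintL hptop
  have hii : ∀ u v : ℝ, 0 ≤ u → u ≤ v → IntervalIntegrable (fun w => e w * G w) volume u v := by
    intro u v hu huv
    rw [intervalIntegrable_iff_integrableOn_Ioc_of_le huv]
    exact hintL.mono_set fun x hx => lt_of_le_of_lt hu hx.1
  -- difference of the partial sums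
  have hkey : ∀ N : ℕ, |h * ∑ i ∈ Finset.range N, e (p i) * G (p i) - ∫ w in (0 : ℝ)..(p N), e w * G w| ≤
      M * h * e 0 * F (2 * h) + (M * h * Θ + ω * S + M * h * (Θ + e (p N))) := by
    intro N
    have h1 : ∫ w in (0 : ℝ)..(p N), e w * G w =
        (∫ w in (0 : ℝ)..(p 0), e w * G w) + ∑ i ∈ Finset.range N, ∫ w in (p i)..(p (i + 1)), e w * G w := by
      rw [intervalIntegral.sum_integral_adjacent_intervals (fun k _ => hii _ _ (hp_nonneg k) (hpmono k))]
      rw [intervalIntegral.integral_add_adjacent_intervals (hii _ _ le_rfl (hp_nonneg 0))]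
      exact hii _ _ (hp_nonneg 0) (monotone_nat_of_le_succ hpmono (Nat.zero_le N))
    have hp0 : p 0 = w₀ := by rw [hp]; simp
    have h2 : |∫ w in (0 : ℝ)..(p 0), e w * G w| ≤ M * h * e 0 * F (2 * h) := by
      have h3 : ∀ w ∈ Set.uIoc 0 (p 0), ‖e w * G w‖ ≤ e 0 * (M * F (2 * h)) := by
        intro w hw
        rw [Set.uIoc_of_le (hp_nonneg 0)] at hw
        have hw2 : w ≤ 2 * h := by
          have := hw.2
          rw [hp0] at this
          linarith
        rw [norm_mul, Real.norm_eq_abs, Real.norm_eq_abs, abs_of_nonneg (he0 _)]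
        refine mul_le_mul (he hw.1.le) ?_ (abs_nonneg _) (he0 _)
        refine (hG w hw.1.le).trans ?_
        exact mul_le_mul_of_nonneg_left (hF hw2) hM
      have h4 := intervalIntegral.norm_integral_le_of_norm_le_const h3
      rw [Real.norm_eq_abs] at h4
      refine h4.trans ?_
      rw [sub_zero, abs_of_nonneg (hp_nonneg 0), hp0]
      have h5 : 0 ≤ e 0 * (M * F (2 * h)) := by
        have := he0 0
        have := hF0 (2 * h)
        positivity
      calc e 0 * (M * F (2 * h)) * w₀ ≤ e 0 * (M * F (2 * h)) * h := mul_le_mul_of_nonneg_left hw1 h5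
        _ = M * h * e 0 * F (2 * h) := by ring
    have h5 : ∀ i ∈ Finset.range N, |h * (e (p i) * G (p i)) - ∫ w in (p i)..(p (i + 1)), e w * G w| ≤
        h * (M * (F (p (i + 1)) * (e (p i) - e (p (i + 1)))) + ω * (e (p i) * F (p (i + 1))) +
          M * (e (p i) * (F (p (i + 1)) - F (p i)))) := by
      intro i _
      have h6 : h * (e (p i) * G (p i)) = ∫ _ in (p i)..(p (i + 1)), e (p i) * G (p i) := by
        rw [intervalIntegral.integral_const, hps]
        simp
      rw [h6, ← intervalIntegral.integral_sub intervalIntegrable_const (hii _ _ (hp_nonneg i) (hpmono i))]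
      have h7 : ∀ w ∈ Set.uIoc (p i) (p (i + 1)), ‖e (p i) * G (p i) - e w * G w‖ ≤
          M * (F (p (i + 1)) * (e (p i) - e (p (i + 1)))) + ω * (e (p i) * F (p (i + 1))) +
          M * (e (p i) * (F (p (i + 1)) - F (p i))) := by
        intro w hw
        rw [Set.uIoc_of_le (hpmono i)] at hw
        have hw0' : 0 ≤ w := (hp_nonneg i).trans hw.1.le
        have a1 : |G (p i) - G w| ≤ ω * F w + M * (F w - F (p i)) :=
          hG' (p i) w (hp_nonneg i) hw.1.le (by
            have := hw.2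
            rw [hps] at this
            linarith)
        have a2 : F w ≤ F (p (i + 1)) := hF hw.2
        have a3 : e (p (i + 1)) ≤ e w := he hw.2
        have a4 : e w ≤ e (p i) := he hw.1.le
        have a5 : |G w| ≤ M * F w := hG w hw0'
        have a6 : e (p i) * G (p i) - e w * G w = e (p i) * (G (p i) - G w) + (e (p i) - e w) * G w := by ring
        rw [Real.norm_eq_abs, a6]
        refine (abs_add_le _ _).trans ?_
        rw [abs_mul, abs_mul, abs_of_nonneg (he0 _), abs_of_nonneg (sub_nonneg.2 a4)]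
        have b1 : e (p i) * |G (p i) - G w| ≤ e (p i) * (ω * F (p (i + 1)) + M * (F (p (i + 1)) - F (p i))) := by
          refine mul_le_mul_of_nonneg_left (a1.trans ?_) (he0 _)
          have c1 : ω * F w ≤ ω * F (p (i + 1)) := mul_le_mul_of_nonneg_left a2 hω
          have c2 : M * (F w - F (p i)) ≤ M * (F (p (i + 1)) - F (p i)) :=
            mul_le_mul_of_nonneg_left (by linarith) hM
          linarith
        have b2 : (e (p i) - e w) * |G w| ≤ (e (p i) - e (p (i + 1))) * (M * F (p (i + 1))) := by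
          refine mul_le_mul (by linarith) (a5.trans ?_) (abs_nonneg _) (by linarith)
          exact mul_le_mul_of_nonneg_left a2 hM
        calc e (p i) * |G (p i) - G w| + (e (p i) - e w) * |G w|
            ≤ e (p i) * (ω * F (p (i + 1)) + M * (F (p (i + 1)) - F (p i))) +
              (e (p i) - e (p (i + 1))) * (M * F (p (i + 1))) := add_le_add b1 b2
          _ = _ := by ring
      have h8 := intervalIntegral.norm_integral_le_of_norm_le_const h7
      rw [Real.norm_eq_abs] at h8
      refine h8.trans (le_of_eq ?_)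
      rw [hps]
      have : |p i + h - p i| = h := by
        rw [add_sub_cancel_left, abs_of_pos hh]
      rw [this]
      ring
    have h9 : ∑ i ∈ Finset.range N, h * (M * (F (p (i + 1)) * (e (p i) - e (p (i + 1)))) + ω * (e (p i) * F (p (i + 1))) +
          M * (e (p i) * (F (p (i + 1)) - F (p i)))) ≤ M * h * Θ + ω * S + M * h * (Θ + e (p N)) := by
      have c1 : ∑ i ∈ Finset.range N, h * (M * (F (p (i + 1)) * (e (p i) - e (p (i + 1)))) + ω * (e (p i) * F (p (i + 1))) +
          M * (e (p i) * (F (p (i + 1)) - F (p i)))) =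
          M * h * ∑ i ∈ Finset.range N, F (p (i + 1)) * (e (p i) - e (p (i + 1))) +
          ω * ∑ i ∈ Finset.range N, h * e (p i) * F (p (i + 1)) +
          M * h * ∑ i ∈ Finset.range N, e (p i) * (F (p (i + 1)) - F (p i)) := by
        rw [Finset.mul_sum, Finset.mul_sum, Finset.mul_sum, ← Finset.sum_add_distrib, ← Finset.sum_add_distrib]
        refine Finset.sum_congr rfl fun i _ => ?_
        ring
      have c2 : ∑ i ∈ Finset.range N, e (p i) * (F (p (i + 1)) - F (p i)) =
          ∑ i ∈ Finset.range N, F (p (i + 1)) * (e (p i) - e (p (i + 1))) +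
            (e (p N) * F (p N) - e (p 0) * F (p 0)) := by
        rw [← Finset.sum_range_sub (fun i => e (p i) * F (p i)), ← Finset.sum_add_distrib]
        refine Finset.sum_congr rfl fun i _ => ?_
        ring
      have c3 : e (p N) * F (p N) - e (p 0) * F (p 0) ≤ e (p N) := by
        have d1 : e (p N) * F (p N) ≤ e (p N) * 1 := mul_le_mul_of_nonneg_left (hF1 _) (he0 _)
        have d2 : 0 ≤ e (p 0) * F (p 0) := mul_nonneg (he0 _) (hF0 _)
        linarith
      rw [c1, c2]
      have hMh : 0 ≤ M * h := by positivity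
      have c4 := mul_le_mul_of_nonneg_left (hΘp N) hMh
      have c5 := mul_le_mul_of_nonneg_left (hSp N) hω
      have c6 := mul_le_mul_of_nonneg_left (add_le_add (hΘp N) c3) hMh
      linarith
    have h10 : h * ∑ i ∈ Finset.range N, e (p i) * G (p i) - ∫ w in (0 : ℝ)..(p N), e w * G w =
        -(∫ w in (0 : ℝ)..(p 0), e w * G w) +
        ∑ i ∈ Finset.range N, (h * (e (p i) * G (p i)) - ∫ w in (p i)..(p (i + 1)), e w * G w) := by
      rw [h1, Finset.sum_sub_distrib, Finset.mul_sum]
      ring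
    rw [h10]
    refine (abs_add_le _ _).trans (add_le_add (by rw [abs_neg]; exact h2) ?_)
    exact (Finset.abs_sum_le_sum_abs _ _).trans ((Finset.sum_le_sum h5).trans h9)
  have hlim1 := (hA.sub hB).abs
  have hlim2 : Tendsto (fun N => M * h * e 0 * F (2 * h) + (M * h * Θ + ω * S + M * h * (Θ + e (p N)))) atTop
      (𝓝 (M * h * e 0 * F (2 * h) + (M * h * Θ + ω * S + M * h * (Θ + 0)))) := by
    refine Tendsto.const_add _ (Tendsto.const_add _ (Tendsto.const_mul _ (Tendsto.const_add _ ?_)))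
    exact hel.comp hptop
  refine (le_of_tendsto_of_tendsto' hlim1 hlim2 hkey).trans ?_
  have e1 : 0 ≤ M * h * e 0 * F (2 * h) := by
    have := he0 0
    have := hF0 (2 * h)
    positivity
  have e2 : 0 ≤ M * h * Θ := by positivity
  have e3 : 0 ≤ ω * S := by positivity
  linarith

end Pool.Agent.BPT
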