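import Pool.Agent.MP_99a865_pr.ST.X4a

/-! **[STB-X4b]** The exit measure on cosets, ladder height of infinite mean. -/

open MeasureTheory ProbabilityTheory Filter Topology
open scoped ENNReal NNReal

namespace Pool.Agent.BPT

variable {α : ℝ} {ζ ρ : Measure ℝ} {a : ℕ → ℝ} {D : Set ℝ}

theorem X4b_Lam_anti (ρ : Measure ℝ) [IsProbabilityMeasure ρ] {x y : ℝ} (hx : 0 < x) (hxy : x ≤ y) :
    Lam ρ y ≤ Lam ρ x := by
  unfold Lam
  have hb : ∀ z : ℝ, Integrable (fun x : ℝ => min 1 ((x / z) ^ 2)) ρ := by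
    intro z
    refine Integrable.of_bound (by fun_prop) 1 (Eventually.of_forall fun u => ?_)
    rw [Real.norm_eq_abs, abs_of_nonneg (le_min zero_le_one (sq_nonneg _))]
    exact min_le_left _ _
  refine integral_mono (hb y) (hb x) fun u => ?_
  refine min_le_min le_rfl ?_
  rw [div_pow, div_pow]
  exact div_le_div_of_nonneg_left (sq_nonneg u) (by positivity) (pow_le_pow_left₀ hx.le hxy 2)

/-- the norming sequence does not decrease much -/
theorem X4b_ratio (hda : DA α ζ ρ a) {c₀ : ℝ} (hc : 0 < c₀) : ∃ κ > (0 : ℝ), κ ≤ 1 ∧ ∀ᶠ n : ℕ in atTop,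
    ∀ l : ℕ, c₀ * n ≤ l → κ * a n ≤ a l := by
  have hp := hda.prob
  obtain ⟨C₁, hC₁, h1⟩ := hda.lam
  obtain ⟨p, C, x₀, hR⟩ := hda.reg
  have hC0 : 0 < C := lt_of_lt_of_le one_pos hR.C1
  have hp0 : 0 < p := lt_trans one_pos hR.p1
  have hC₁0 : 0 < C₁ := lt_of_lt_of_le one_pos hC₁
  obtain ⟨r, hr1, hr2⟩ : ∃ r : ℝ, 1 ≤ r ∧ C * r ^ (-p) * (C₁ / c₀ * C₁) < 1 := by
    have h2 : Tendsto (fun r : ℝ => C * r ^ (-p) * (C₁ / c₀ * C₁)) atTop (𝓝 (C * 0 * (C₁ / c₀ * C₁))) :=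
      ((tendsto_rpow_neg_atTop hp0).const_mul C).mul_const _
    rw [mul_zero, zero_mul] at h2
    obtain ⟨r, h3⟩ := ((h2.eventually_lt_const one_pos).and (eventually_ge_atTop 1)).exists
    exact ⟨r, h3.2, h3.1⟩
  have hr0 : 0 < r := by linarith
  refine ⟨1 / r, by positivity, by rw [div_le_one hr0]; exact hr1, ?_⟩
  filter_upwards [eventually_ge_atTop 1, hda.top.eventually_ge_atTop (r * x₀)] with n hn hna l hl
  have hnpos : (0 : ℝ) < n := by exact_mod_cast hn
  have ha0 := hda.pos n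
  have hal := hda.pos l
  have hlpos : (0 : ℝ) < l := lt_of_lt_of_le (by positivity) hl
  have hl1 : 1 ≤ l := by
    have h3 : 0 < l := by exact_mod_cast hlpos
    exact h3
  by_contra hcon
  push Not at hcon
  have e1 : Lam ρ (a n) ≤ C * r ^ (-p) * Lam ρ (a n / r) := by
    have h3 := hR.reg (a n / r) (by rw [le_div_iff₀ hr0]; linarith) r hr1
    rwa [mul_div_cancel₀ _ hr0.ne'] at h3
  have e2 : Lam ρ (a n / r) ≤ Lam ρ (a l) := by
    refine X4b_Lam_anti ρ hal ?_
    have : 1 / r * a n = a n / r := by ring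
    rw [← this]
    exact hcon.le
  have e3 : Lam ρ (a l) ≤ C₁ / l := by
    rw [le_div_iff₀ hlpos, mul_comm]
    exact (h1 l hl1).2
  have e4 : C₁ / l ≤ C₁ / (c₀ * n) := div_le_div_of_nonneg_left hC₁0.le (by positivity) hl
  have e5 : 1 / (n : ℝ) ≤ C₁ * Lam ρ (a n) := by
    have h3 := (h1 n hn).1
    rw [div_le_iff₀ hC₁0] at h3
    rw [div_le_iff₀ hnpos]
    linarith
  have e6 : C₁ / (c₀ * n) ≤ C₁ / c₀ * C₁ * Lam ρ (a n) := by
    have h3 : C₁ / (c₀ * n) = C₁ / c₀ * (1 / n) := by field_simp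
    rw [h3, mul_assoc]
    exact mul_le_mul_of_nonneg_left e5 (by positivity)
  have e7 : 0 < Lam ρ (a n) := by
    by_contra h3
    push Not at h3
    have h4 : 0 < 1 / (n : ℝ) := by positivity
    nlinarith
  have e8 : Lam ρ (a n) ≤ C * r ^ (-p) * (C₁ / c₀ * C₁) * Lam ρ (a n) := by
    have h3 : 0 ≤ C * r ^ (-p) := by positivity
    calc Lam ρ (a n) ≤ C * r ^ (-p) * Lam ρ (a n / r) := e1
      _ ≤ C * r ^ (-p) * (C₁ / c₀ * C₁ * Lam ρ (a n)) :=
          mul_le_mul_of_nonneg_left (e2.trans (e3.trans (e4.trans e6))) h3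
      _ = _ := by ring
  nlinarith

/-- survival from a bounded level -/
theorem X4b_F (hda : DA α ζ ρ a) (hD : Dom D) {c₀ : ℝ} (hc : 0 < c₀) {x : ℝ} (hx : 0 ≤ x) :
    ∃ C > (0 : ℝ), ∀ᶠ n : ℕ in atTop, ∀ k : ℕ, c₀ * n ≤ (k : ℝ) + 1 → al D ρ k x ≤ C * (1 / vr D ρ (a n)) := by
  obtain ⟨C, hC, h1⟩ := hda.al_le hD
  obtain ⟨κ, hκ, hκ1, h2⟩ := X4b_ratio hda (c₀ := c₀ / 2) (by positivity)
  obtain ⟨hf1, hf2, hf3⟩ := vr_facts hD hda.cen
  obtain ⟨m₀, hm₀⟩ := eventually_atTop.1 h1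
  have hvx : 0 < vr D ρ x := lt_of_lt_of_le one_pos (hf2 _)
  refine ⟨C * vr D ρ x * (2 / κ), by positivity, ?_⟩
  filter_upwards [h2, eventually_ge_atTop 1, eventually_ge_atTop ⌈(m₀ + 1) / (c₀ / 2)⌉₊] with n hn2 hn hnm k hk
  have hnpos : (0 : ℝ) < n := by exact_mod_cast hn
  have h3 : (m₀ + 1) / (c₀ / 2) ≤ n := (Nat.le_ceil _).trans (by exact_mod_cast hnm)
  rw [div_le_iff₀ (by positivity)] at h3
  have hm0 : (0 : ℝ) ≤ m₀ := by positivity
  have h4 : c₀ / 2 * n ≤ k := by nlinarith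
  have h5 : m₀ ≤ k := by
    have : (m₀ : ℝ) ≤ k := by linarith
    exact_mod_cast this
  have h6 := hm₀ k h5 x hx
  have h7 := hn2 k h4
  have ha0 := hda.pos n
  have h8 : vr D ρ (a n) ≤ 2 / κ * vr D ρ (a k) := by
    have h9 := vr_mul hD hda.cen (κ * a n) (1 / κ) (by positivity) (by rw [le_div_iff₀ hκ]; linarith)
    have h10 : 1 / κ * (κ * a n) = a n := by field_simp
    rw [h10] at h9
    have h11 := hf3 h7
    calc vr D ρ (a n) ≤ 2 * (1 / κ) * vr D ρ (κ * a n) := h9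
      _ ≤ 2 * (1 / κ) * vr D ρ (a k) := mul_le_mul_of_nonneg_left h11 (by positivity)
      _ = _ := by ring
  have hvn : 0 < vr D ρ (a n) := lt_of_lt_of_le one_pos (hf2 _)
  have hvk : 0 < vr D ρ (a k) := lt_of_lt_of_le one_pos (hf2 _)
  have h12 : 1 / vr D ρ (a k) ≤ 2 / κ * (1 / vr D ρ (a n)) := by
    rw [div_le_iff₀ hvk]
    rw [show 2 / κ * (1 / vr D ρ (a n)) * vr D ρ (a k) = 2 / κ * vr D ρ (a k) / vr D ρ (a n) by ring,
      le_div_iff₀ hvn, one_mul]
    exact h8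
  calc al D ρ k x ≤ C * (vr D ρ x / vr D ρ (a k)) := h6
    _ = C * vr D ρ x * (1 / vr D ρ (a k)) := by ring
    _ ≤ C * vr D ρ x * (2 / κ * (1 / vr D ρ (a n))) := mul_le_mul_of_nonneg_left h12 (by positivity)
    _ = _ := by ring

/-- `1 / V'(a_n) = o(a_n / n)` -/
theorem X4b_o (hda : DA α ζ ρ a) (hD : Dom D) (hinf : ∫⁻ y, ENNReal.ofReal y ∂(ladS D ρ) = ⊤) :
    ∀ ε > (0 : ℝ), ∀ᶠ n : ℕ in atTop, 1 / vr D (dual ρ) (a n) ≤ ε * (a n / n) := by
  intro ε hε
  obtain ⟨C₁, hC₁, h1⟩ := hda.vd_comp hD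
  obtain ⟨C₂, hC₂, h2⟩ := hda.vv hD
  obtain ⟨hf1, hf2, hf3⟩ := vr_facts hD hda.cen
  obtain ⟨hg1, hg2, hg3⟩ := vr_facts hD hda.dual.cen
  obtain ⟨K, hK, hKe⟩ : ∃ K > (0 : ℝ), C₂ * C₁ * (2 / K) = ε := ⟨2 * C₁ * C₂ / ε, by positivity, by field_simp⟩
  obtain ⟨y₀, hy₀⟩ := K11_slow hD hda.cen hinf ⟨K, hK.le⟩
  filter_upwards [h2, eventually_ge_atTop 1, hda.top.eventually_ge_atTop y₀] with n hn2 hn hna
  have hnpos : (0 : ℝ) < n := by exact_mod_cast hn
  have ha0 := hda.pos n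
  have h3 : K * vr D ρ (a n) ≤ 2 * a n := by
    have h4 := ENNReal.toReal_mono ENNReal.ofReal_ne_top (hy₀ (a n) hna)
    rw [ENNReal.toReal_mul, ENNReal.toReal_ofReal (by positivity), ENNReal.coe_toReal] at h4
    exact h4
  have h5 := (h1 (a n) ha0.le).2
  have hvd : 0 ≤ vd D ρ (a n) := ENNReal.toReal_nonneg
  have hvg : 0 < vr D (dual ρ) (a n) := lt_of_lt_of_le one_pos (hg2 _)
  have h6 : vr D ρ (a n) ≤ 2 * a n / K := by
    rw [le_div_iff₀ hK]
    linarith
  have h7 : (n : ℝ) ≤ C₂ * (2 * a n / K * (C₁ * vr D (dual ρ) (a n))) := by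
    refine hn2.1.trans (mul_le_mul_of_nonneg_left ?_ hC₂.le)
    exact mul_le_mul h6 h5 hvd (by positivity)
  rw [div_le_iff₀ hvg, ← hKe]
  rw [show C₂ * C₁ * (2 / K) * (a n / n) * vr D (dual ρ) (a n) = C₂ * (2 * a n / K * (C₁ * vr D (dual ρ) (a n))) / n by ring,
    le_div_iff₀ hnpos, one_mul]
  exact h7

theorem X4b_al_mono (hD : Dom D) [IsProbabilityMeasure ρ] (k : ℕ) : Monotone (al D ρ k) := by
  intro x y hxy
  unfold al Measure.real
  rw [kap_univ_eq hD, kap_univ_eq hD]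
  exact ENNReal.toReal_mono (measure_ne_top _ _) (measure_mono fun ω hω => K2_alive_mono hD hxy k ω hω)

theorem X4b_al_le_one (D : Set ℝ) (ρ : Measure ℝ) [IsProbabilityMeasure ρ] (k : ℕ) (x : ℝ) : al D ρ k x ≤ 1 := by
  unfold al Measure.real
  exact ENNReal.toReal_le_of_le_ofReal zero_le_one (by rw [ENNReal.ofReal_one]; exact kap_univ_le_one k x)

theorem X4b_ex_ne (D : Set ℝ) (ρ : Measure ℝ) [IsProbabilityMeasure ρ] (w : ℝ) : ex D ρ w ≠ ∞ :=
  measure_ne_top _ _

theorem X4b_dual (ρ : Measure ℝ) (f : ℝ → ℝ≥0∞) (hf : Measurable f) (A : Set ℝ) (hA : MeasurableSet A) :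
    ∫⁻ y in A, f y ∂(dual ρ) = ∫⁻ y in {y | -y ∈ A}, f (-y) ∂ρ := by
  unfold dual
  rw [setLIntegral_map hA hf measurable_neg]
  rfl

/-- telescoping the exit weights against survival -/
theorem X4b_theta (hD : Dom D) [IsProbabilityMeasure ρ] {h : ℝ} (hh : 0 < h) (k : ℕ) (w₀ : ℝ) (_hw : 0 ≤ w₀) (N : ℕ) :
    ∑ i ∈ Finset.range N, al D (dual ρ) k (w₀ + h * (i + 1)) *
      ((ex D ρ (w₀ + h * i)).toReal - (ex D ρ (w₀ + h * (i + 1))).toReal) ≤ al D (dual ρ) (k + 1) (2 * h) := by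
  have hpd : IsProbabilityMeasure (dual ρ) := A2_dual_prob
  obtain ⟨A, hA⟩ : ∃ A : ℕ → Set ℝ, A = fun i : ℕ => {X : ℝ | w₀ + h * i + X ∉ D ∧ w₀ + h * (i + 1) + X ∈ D} := ⟨_, rfl⟩
  have hmS : ∀ w : ℝ, MeasurableSet {X : ℝ | w + X ∈ D} := fun w => (measurable_const_add w) hD.meas
  have hmA : ∀ i, MeasurableSet (A i) := by
    intro i
    rw [hA]
    exact ((hmS (w₀ + h * i)).compl).inter (hmS (w₀ + h * (i + 1)))
  have hle : ∀ i : ℕ, w₀ + h * (i : ℝ) ≤ w₀ + h * ((i : ℝ) + 1) := fun i => by nlinarith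
  have h1 : ∀ i : ℕ, (ex D ρ (w₀ + h * i)).toReal - (ex D ρ (w₀ + h * (i + 1))).toReal = (ρ (A i)).toReal := by
    intro i
    have h2 : ex D ρ (w₀ + h * i) = ρ (A i) + ex D ρ (w₀ + h * (i + 1)) := by
      unfold ex
      rw [← measure_union]
      · congr 1
        ext X
        rw [hA]
        constructor
        · intro hX
          by_cases h3 : w₀ + h * (i + 1) + X ∈ D
          · exact Or.inl ⟨hX, h3⟩
          · exact Or.inr h3
        · rintro (hX | hX)
          · exact hX.1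
          · intro h3
            apply hX
            exact hD.up h3 (by linarith [hle i])
      · rw [Set.disjoint_left]
        intro X hX hX'
        rw [hA] at hX
        exact hX' hX.2
      · exact (hmS (w₀ + h * (i + 1))).compl
    rw [h2, ENNReal.toReal_add (measure_ne_top _ _) (X4b_ex_ne D ρ _)]
    ring
  have h2 : ∀ i ∈ Finset.range N, al D (dual ρ) k (w₀ + h * (i + 1)) *
      ((ex D ρ (w₀ + h * i)).toReal - (ex D ρ (w₀ + h * (i + 1))).toReal) =
      (kap D (dual ρ) k (w₀ + h * (i + 1)) Set.univ * ρ (A i)).toReal := by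
    intro i _
    rw [h1, ENNReal.toReal_mul]
    rfl
  rw [Finset.sum_congr rfl h2, ← ENNReal.toReal_sum (fun i _ => ENNReal.mul_ne_top (measure_ne_top _ _) (measure_ne_top _ _))]
  unfold al Measure.real
  refine ENNReal.toReal_mono (measure_ne_top _ _) ?_
  have hmk : Measurable fun x => kap D (dual ρ) k x Set.univ :=
    (Measure.measurable_coe MeasurableSet.univ).comp (measurable_kap hD k)
  have h3 : kap D (dual ρ) (k + 1) (2 * h) Set.univ =
      ∫⁻ X in {X | 2 * h - X ∈ D}, kap D (dual ρ) k (2 * h - X) Set.univ ∂ρ := by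
    rw [add_comm k 1, kap_add_apply hD 1 k _ _ MeasurableSet.univ, lintegral_kap_one hD _ _ hmk]
    exact X4b_dual ρ (fun y => kap D (dual ρ) k (2 * h + y) Set.univ) (hmk.comp (measurable_const_add _))
      {y | 2 * h + y ∈ D} ((measurable_const_add (2 * h)) hD.meas)
  rw [h3]
  calc ∑ i ∈ Finset.range N, kap D (dual ρ) k (w₀ + h * (i + 1)) Set.univ * ρ (A i)
      ≤ ∑ i ∈ Finset.range N, ∫⁻ X in A i, kap D (dual ρ) k (2 * h - X) Set.univ ∂ρ := by
        refine Finset.sum_le_sum fun i _ => ?_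
        rw [← setLIntegral_const]
        refine setLIntegral_mono' (hmA i) fun X hX => ?_
        rw [hA] at hX
        have h4 : w₀ + h * i + X ≤ 0 := hD.not_mem hX.1
        rw [kap_univ_eq hD, kap_univ_eq hD]
        exact measure_mono fun ω hω => K2_alive_mono hD (by linarith) k ω hω
    _ = ∫⁻ X in ⋃ i ∈ Finset.range N, A i, kap D (dual ρ) k (2 * h - X) Set.univ ∂ρ := by
        rw [lintegral_biUnion_finset]
        · intro i _ j _ hij
          simp only [Function.onFun]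
          rw [Set.disjoint_left]
          intro X hi hj
          rw [hA] at hi hj
          rcases lt_or_gt_of_ne hij with h4 | h4
          · apply hj.1
            refine hD.up hi.2 ?_
            have h5 : (i : ℝ) + 1 ≤ j := by exact_mod_cast h4
            nlinarith
          · apply hi.1
            refine hD.up hj.2 ?_
            have h5 : (j : ℝ) + 1 ≤ i := by exact_mod_cast h4
            nlinarith
        · exact fun i _ => hmA i
    _ ≤ _ := by
        refine lintegral_mono_set ?_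
        intro X hX
        simp only [Set.mem_iUnion] at hX
        obtain ⟨i, _, hX⟩ := hX
        rw [hA] at hX
        have h4 : w₀ + h * i + X ≤ 0 := hD.not_mem hX.1
        apply hD.pos
        have h5 : 0 ≤ h * (i : ℝ) := by positivity
        linarith

/-- the continuity estimate for the killed expectation -/
theorem X4b_G (hD : Dom D) [IsProbabilityMeasure ρ] {h s M ω₀ : ℝ} (hs : 0 < s) (k : ℕ) {g : ℝ → ℝ} (hg : Measurable g)
    (hM : ∀ x, |g x| ≤ M) (hω : ∀ x y, |x - y| ≤ 2 * h / s → |g x - g y| ≤ ω₀) {w w' : ℝ} (hww : w ≤ w')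
    (hw' : w' ≤ w + 2 * h) :
    |(∫ y, g (y / s) ∂(kap D ρ k w)) - ∫ y, g (y / s) ∂(kap D ρ k w')| ≤
      ω₀ * al D ρ k w' + M * (al D ρ k w' - al D ρ k w) := by
  have hgs : Measurable fun y => g (y / s) := hg.comp (measurable_id.div_const _)
  have hM0 : 0 ≤ M := (abs_nonneg _).trans (hM 0)
  set A : Set (ℕ → ℝ) := {ω | Alive D w k ω} with hA
  set A' : Set (ℕ → ℝ) := {ω | Alive D w' k ω} with hA'
  have hAm : MeasurableSet A := measurableSet_alive hD w k
  have hAm' : MeasurableSet A' := measurableSet_alive hD w' k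
  have hsub : A ⊆ A' := fun ω hω => K2_alive_mono hD hww k ω hω
  rw [integral_kap_eq hD k w _ hgs, integral_kap_eq hD k w' _ hgs, ← integral_indicator hAm, ← integral_indicator hAm']
  have hib : ∀ (B : Set (ℕ → ℝ)) (x : ℝ), MeasurableSet B →
      Integrable (B.indicator fun ω => g ((x + S k ω) / s)) (seqLaw ρ) := by
    intro B x hB
    refine Integrable.indicator ?_ hB
    exact Integrable.of_bound (hgs.comp (A1_meas_add k x)).aestronglyMeasurable M (Eventually.of_forall fun ω => hM _)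
  rw [← integral_sub (hib A w hAm) (hib A' w' hAm'), ← Real.norm_eq_abs]
  have hal : ∀ x, al D ρ k x = ∫ ω, {ω | Alive D x k ω}.indicator (1 : (ℕ → ℝ) → ℝ) ω ∂(seqLaw ρ) := by
    intro x
    rw [integral_indicator_one (measurableSet_alive hD x k)]
    unfold al Measure.real
    rw [kap_univ_eq hD]
  have hi1 : ∀ B : Set (ℕ → ℝ), MeasurableSet B → Integrable (fun ω => B.indicator (1 : (ℕ → ℝ) → ℝ) ω) (seqLaw ρ) :=
    fun B hB => (integrable_const (1 : ℝ)).indicator hB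
  have hpt : ∀ ω, ‖A.indicator (fun ω => g ((w + S k ω) / s)) ω - A'.indicator (fun ω => g ((w' + S k ω) / s)) ω‖ ≤
      ω₀ * A'.indicator (1 : (ℕ → ℝ) → ℝ) ω + M * (A'.indicator (1 : (ℕ → ℝ) → ℝ) ω - A.indicator (1 : (ℕ → ℝ) → ℝ) ω) := by
    intro ω
    rw [Real.norm_eq_abs]
    by_cases h1 : ω ∈ A
    · have h2 := hsub h1
      rw [Set.indicator_of_mem h1, Set.indicator_of_mem h2, Set.indicator_of_mem h1, Set.indicator_of_mem h2]
      simp only [Pi.one_apply, mul_one, sub_self, mul_zero, add_zero]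
      apply hω
      rw [← sub_div, abs_div, abs_of_pos hs]
      refine div_le_div_of_nonneg_right ?_ hs.le
      rw [abs_le]
      constructor <;> linarith
    · by_cases h2 : ω ∈ A'
      · rw [Set.indicator_of_notMem h1, Set.indicator_of_mem h2, Set.indicator_of_notMem h1, Set.indicator_of_mem h2]
        simp only [Pi.one_apply, mul_one, sub_zero, zero_sub, abs_neg]
        have h3 : 0 ≤ ω₀ := by
          have h4 := hω 0 0 (by
            rw [sub_self, abs_zero]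
            have : 0 ≤ h := by linarith
            positivity)
          rw [sub_self, abs_zero] at h4
          exact h4
        linarith [hM ((w' + S k ω) / s)]
      · rw [Set.indicator_of_notMem h1, Set.indicator_of_notMem h2, Set.indicator_of_notMem h1,
          Set.indicator_of_notMem h2]
        simp
  have hint : Integrable (fun ω => ω₀ * A'.indicator (1 : (ℕ → ℝ) → ℝ) ω +
      M * (A'.indicator (1 : (ℕ → ℝ) → ℝ) ω - A.indicator (1 : (ℕ → ℝ) → ℝ) ω)) (seqLaw ρ) :=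
    ((hi1 A' hAm').const_mul _).add (((hi1 A' hAm').sub (hi1 A hAm)).const_mul _)
  refine (norm_integral_le_of_norm_le hint (Eventually.of_forall hpt)).trans (le_of_eq ?_)
  have j1 : Integrable (fun ω => ω₀ * A'.indicator (1 : (ℕ → ℝ) → ℝ) ω) (seqLaw ρ) := (hi1 A' hAm').const_mul _
  have j2 : Integrable (fun ω => M * (A'.indicator (1 : (ℕ → ℝ) → ℝ) ω - A.indicator (1 : (ℕ → ℝ) → ℝ) ω)) (seqLaw ρ) :=
    ((hi1 A' hAm').sub (hi1 A hAm)).const_mul _
  rw [integral_add j1 j2, integral_const_mul, integral_const_mul, integral_sub (hi1 A' hAm') (hi1 A hAm), hal w, hal w']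

/-- partial sums over a coset -/
theorem X4b_sum (hD : Dom D) {h : ℝ} (hh : 0 < h) (f : ℝ → ℝ≥0∞) (hf : Measurable f) (w₀ : ℝ) (hw : 0 ≤ w₀) (N : ℕ) :
    ENNReal.ofReal h * ∑ i ∈ Finset.range N, f (w₀ + h * i) ≤
      ENNReal.ofReal h * f 0 + ∫⁻ w in D, f w ∂(lam h w₀) := by
  have h1 : ∫⁻ w in D, f w ∂(lam h w₀) = ENNReal.ofReal h * ∑' j : ℤ, D.indicator f (w₀ + h * j) := by
    rw [← lintegral_indicator hD.meas]
    unfold lam
    rw [if_neg hh.ne', lintegral_smul_measure, lintegral_sum_measure, smul_eq_mul]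
    congr 1
    refine tsum_congr fun j => ?_
    rw [lintegral_dirac' _ (hf.indicator hD.meas)]
  rw [h1, ← mul_add]
  refine mul_le_mul_right ?_ _
  have h2 : ∑ i ∈ Finset.range N, D.indicator f (w₀ + h * (i : ℝ)) ≤ ∑' j : ℤ, D.indicator f (w₀ + h * j) := by
    have h3 : ∑ i ∈ Finset.range N, D.indicator f (w₀ + h * (i : ℝ)) =
        ∑ j ∈ (Finset.range N).map Nat.castEmbedding, D.indicator f (w₀ + h * ((j : ℤ) : ℝ)) := by
      rw [Finset.sum_map]
      refine Finset.sum_congr rfl fun i _ => ?_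
      simp
    rw [h3]
    exact ENNReal.sum_le_tsum _
  refine le_trans ?_ (add_le_add le_rfl h2)
  cases N with
  | zero => simp
  | succ N =>
    rw [Finset.sum_range_succ', Finset.sum_range_succ']
    have h4 : ∑ i ∈ Finset.range N, f (w₀ + h * ((i + 1 : ℕ) : ℝ)) =
        ∑ i ∈ Finset.range N, D.indicator f (w₀ + h * ((i + 1 : ℕ) : ℝ)) := by
      refine Finset.sum_congr rfl fun i _ => ?_
      rw [Set.indicator_of_mem]
      apply hD.pos
      push_cast
      have : 0 < h * ((i : ℝ) + 1) := by positivity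
      linarith
    rw [h4]
    have h5 : f (w₀ + h * ((0 : ℕ) : ℝ)) ≤ f 0 + D.indicator f (w₀ + h * ((0 : ℕ) : ℝ)) := by
      rw [Nat.cast_zero, mul_zero, add_zero]
      by_cases h6 : w₀ ∈ D
      · rw [Set.indicator_of_mem h6]
        exact le_add_self
      · have h7 : w₀ = 0 := le_antisymm (hD.not_mem h6) hw
        rw [h7]
        exact le_self_add
    calc _ ≤ (∑ i ∈ Finset.range N, D.indicator f (w₀ + h * ((i + 1 : ℕ) : ℝ))) +
          (f 0 + D.indicator f (w₀ + h * ((0 : ℕ) : ℝ))) := add_le_add le_rfl h5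
      _ = _ := by ring

/-- finiteness of the exit weights on a coset -/
theorem X4b_fin (hda : DA α ζ ρ a) (hD : Dom D) {h : ℝ} (hh : 0 ≤ h) (c : ℝ) :
    ∫⁻ w in D, ex D ρ w ∂(lam h c) ≠ ∞ := by
  have hp := hda.prob
  obtain ⟨C, hC, h1⟩ := X1_tail hda hD hh
  obtain ⟨R, hR, h2⟩ := h1 1 one_pos
  obtain ⟨n, hn⟩ := h2.exists
  have ha0 := hda.pos n
  have e1 : D ⊆ Set.Icc 0 (a n) ∪ Set.Ioi (a n) := by
    intro w hw
    by_cases h3 : w ≤ a n
    · exact Or.inl ⟨hD.nonneg hw, h3⟩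
    · exact Or.inr (lt_of_not_ge h3)
  refine ne_top_of_le_ne_top ?_ ((lintegral_mono_set e1).trans (lintegral_union_le _ _ _))
  refine ENNReal.add_ne_top.2 ⟨?_, ne_top_of_le_ne_top ENNReal.ofReal_ne_top (hn c).1⟩
  have h4 : ∫⁻ w in Set.Icc 0 (a n), ex D ρ w ∂(lam h c) ≤ ∫⁻ _ in Set.Icc 0 (a n), 1 ∂(lam h c) :=
    lintegral_mono fun w => prob_le_one
  refine ne_top_of_le_ne_top ?_ h4
  rw [setLIntegral_one]
  exact ne_top_of_le_ne_top ENNReal.ofReal_ne_top (lam_Icc_le h c 0 (a n) hh ha0.le)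

theorem X4b_nn (hD : Dom D) [IsProbabilityMeasure ρ] {b h : ℝ} (hh : 0 ≤ h) (hstep : ∀ᵐ x ∂ρ, Cos h b x)
    (c : ℝ) (k : ℕ) (g : ℝ → ℝ) (hg : Measurable g) (hg0 : ∀ x, 0 ≤ g x) {M : ℝ} (hM : ∀ x, |g x| ≤ M) :
    ∫ y in D, g y * hit D ρ (k + 1) y ∂(lam h c) =
      ∫ z in D, (ex D ρ z).toReal * ∫ y, g y ∂(kap D (dual ρ) k z) ∂(lam h (c + k * b)) := by
  have hpd : IsProbabilityMeasure (dual ρ) := A2_dual_prob
  have hgi : ∀ z, Integrable g (kap D (dual ρ) k z) := fun z =>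
    Integrable.of_bound hg.aestronglyMeasurable M (Eventually.of_forall fun x => hM x)
  have hmi := measurable_integral_kap (ρ := dual ρ) hD k g hg M hM
  have hme : Measurable fun z => (ex D ρ z).toReal := (measurable_ex hD).ennreal_toReal
  rw [integral_eq_lintegral_of_nonneg_ae (Eventually.of_forall fun y => mul_nonneg (hg0 y) (hit_nonneg _ y))
    (hg.mul (measurable_hit hD _)).aestronglyMeasurable,
    integral_eq_lintegral_of_nonneg_ae (Eventually.of_forall fun z => mul_nonneg ENNReal.toReal_nonneg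
      (integral_nonneg fun y => hg0 y)) (hme.mul hmi).aestronglyMeasurable]
  congr 1
  have h1 := hit_duality hD hh hstep c k (fun y => ENNReal.ofReal (g y)) hg.ennreal_ofReal
  have h2 : ∀ y, ENNReal.ofReal (g y * hit D ρ (k + 1) y) = ENNReal.ofReal (g y) * ENNReal.ofReal (hit D ρ (k + 1) y) :=
    fun y => ENNReal.ofReal_mul (hg0 y)
  have h3 : ∀ z, ENNReal.ofReal ((ex D ρ z).toReal * ∫ y, g y ∂(kap D (dual ρ) k z)) =
      ex D ρ z * ∫⁻ y, ENNReal.ofReal (g y) ∂(kap D (dual ρ) k z) := by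
    intro z
    rw [ENNReal.ofReal_mul ENNReal.toReal_nonneg, ENNReal.ofReal_toReal (X4b_ex_ne D ρ z),
      ofReal_integral_eq_lintegral_ofReal (hgi z) (Eventually.of_forall fun y => hg0 y)]
  simp_rw [h2, h3]
  exact h1

theorem X4b_intg (hD : Dom D) [IsProbabilityMeasure ρ] {Λ : Measure ℝ} (hfin : ∫⁻ z in D, ex D ρ z ∂Λ ≠ ∞) {f : ℝ → ℝ}
    (hf : Measurable f) {M : ℝ} (hM : ∀ x, |f x| ≤ M) : IntegrableOn (fun z => (ex D ρ z).toReal * f z) D Λ := by
  have hme : Measurable fun z => (ex D ρ z).toReal := (measurable_ex hD).ennreal_toReal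
  have h1 : IntegrableOn (fun z => (ex D ρ z).toReal) D Λ :=
    integrable_toReal_of_lintegral_ne_top (measurable_ex hD).aemeasurable hfin
  refine Integrable.mono' (h1.const_mul M) (hme.mul hf).aestronglyMeasurable ?_
  refine Eventually.of_forall fun z => ?_
  rw [norm_mul, Real.norm_eq_abs, Real.norm_eq_abs, abs_of_nonneg ENNReal.toReal_nonneg, mul_comm]
  exact mul_le_mul_of_nonneg_right (hM z) ENNReal.toReal_nonneg

theorem X4b_kap_bd (D : Set ℝ) (ρ : Measure ℝ) [IsProbabilityMeasure ρ] (k : ℕ) {f : ℝ → ℝ} {M : ℝ}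
    (hM : ∀ x, |f x| ≤ M) (z : ℝ) : |∫ y, f y ∂(kap D ρ k z)| ≤ M * al D ρ k z := by
  have h1 := norm_integral_le_of_norm_le_const (μ := kap D ρ k z) (f := f) (C := M)
    (Eventually.of_forall fun x => hM x)
  rw [Real.norm_eq_abs] at h1
  exact h1

/-- duality for real functions -/
theorem X4b_real (hD : Dom D) [IsProbabilityMeasure ρ] {b h : ℝ} (hh : 0 ≤ h) (hstep : ∀ᵐ x ∂ρ, Cos h b x)
    (c : ℝ) (k : ℕ) (hfin' : ∫⁻ z in D, ENNReal.ofReal (hit D ρ (k + 1) z) ∂(lam h c) ≠ ∞)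
    (hfin : ∫⁻ z in D, ex D ρ z ∂(lam h (c + k * b)) ≠ ∞)
    (g : ℝ → ℝ) (hg : Measurable g) {M : ℝ} (hM : ∀ x, |g x| ≤ M) :
    ∫ y in D, g y * hit D ρ (k + 1) y ∂(lam h c) =
      ∫ z in D, (ex D ρ z).toReal * ∫ y, g y ∂(kap D (dual ρ) k z) ∂(lam h (c + k * b)) := by
  have hpd : IsProbabilityMeasure (dual ρ) := A2_dual_prob
  have hM0 : 0 ≤ M := (abs_nonneg _).trans (hM 0)
  have hal : ∀ z, M * al D (dual ρ) k z ≤ M := fun z => by
    have := X4b_al_le_one D (dual ρ) k z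
    nlinarith
  have hI : IntegrableOn (hit D ρ (k + 1)) D (lam h c) := by
    refine ⟨(measurable_hit hD _).aestronglyMeasurable, ?_⟩
    unfold HasFiniteIntegral
    have h1 : ∀ z, ‖hit D ρ (k + 1) z‖ₑ = ENNReal.ofReal (hit D ρ (k + 1) z) := fun z =>
      Real.enorm_of_nonneg (hit_nonneg _ z)
    simp_rw [h1]
    exact lt_top_iff_ne_top.2 hfin'
  have e1 := X4b_nn hD hh hstep c k (fun y => g y + M) (hg.add_const M)
    (fun x => by linarith [(abs_le.1 (hM x)).1]) (M := 2 * M) (fun x => by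
      rw [abs_le]
      constructor <;> linarith [(abs_le.1 (hM x)).1, (abs_le.1 (hM x)).2])
  have e2 := X4b_nn hD hh hstep c k (fun _ => M) measurable_const (fun x => hM0) (M := M)
    (fun x => by rw [abs_of_nonneg hM0])
  have hgi : ∀ z, Integrable g (kap D (dual ρ) k z) := fun z =>
    Integrable.of_bound hg.aestronglyMeasurable M (Eventually.of_forall fun x => hM x)
  have i2 : IntegrableOn (fun z => M * hit D ρ (k + 1) z) D (lam h c) := hI.const_mul M
  have i1 : IntegrableOn (fun z => g z * hit D ρ (k + 1) z) D (lam h c) := by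
    refine Integrable.mono' i2 (hg.mul (measurable_hit hD _)).aestronglyMeasurable ?_
    refine Eventually.of_forall fun z => ?_
    rw [norm_mul, Real.norm_eq_abs, Real.norm_eq_abs, abs_of_nonneg (hit_nonneg _ z)]
    exact mul_le_mul_of_nonneg_right (hM z) (hit_nonneg _ z)
  have i3 : IntegrableOn (fun z => (ex D ρ z).toReal * ∫ y, g y ∂(kap D (dual ρ) k z)) D (lam h (c + k * b)) :=
    X4b_intg hD hfin (measurable_integral_kap (ρ := dual ρ) hD k g hg M hM)
      (M := M) (fun z => (X4b_kap_bd D (dual ρ) k hM z).trans (hal z))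
  have i4 : IntegrableOn (fun z => (ex D ρ z).toReal * ∫ _, M ∂(kap D (dual ρ) k z)) D (lam h (c + k * b)) :=
    X4b_intg hD hfin (measurable_integral_kap (ρ := dual ρ) hD k (fun _ => M) measurable_const M
      (fun _ => by rw [abs_of_nonneg hM0])) (M := M)
      (fun z => (X4b_kap_bd D (dual ρ) k (fun _ => by rw [abs_of_nonneg hM0]) z).trans (hal z))
  have f1 : ∫ y in D, (g y + M) * hit D ρ (k + 1) y ∂(lam h c) =
      (∫ y in D, g y * hit D ρ (k + 1) y ∂(lam h c)) + ∫ y in D, M * hit D ρ (k + 1) y ∂(lam h c) := by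
    rw [← integral_add i1 i2]
    refine integral_congr_ae (Eventually.of_forall fun z => ?_)
    simp only []
    ring
  have f2 : ∫ z in D, (ex D ρ z).toReal * ∫ y, g y + M ∂(kap D (dual ρ) k z) ∂(lam h (c + k * b)) =
      (∫ z in D, (ex D ρ z).toReal * ∫ y, g y ∂(kap D (dual ρ) k z) ∂(lam h (c + k * b))) +
      ∫ z in D, (ex D ρ z).toReal * ∫ _, M ∂(kap D (dual ρ) k z) ∂(lam h (c + k * b)) := by
    rw [← integral_add i3 i4]
    refine integral_congr_ae (Eventually.of_forall fun z => ?_)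
    simp only []
    rw [integral_add (hgi z) (integrable_const M)]
    ring
  rw [f1, f2, e2] at e1
  linarith

/-- the exit weight decreases to zero and is integrable -/
theorem X4b_lim {e : ℝ → ℝ} (he : Antitone e) (he0 : ∀ w, 0 ≤ e w) (hei : IntegrableOn e (Set.Ioi 0)) :
    Tendsto e atTop (𝓝 0) := by
  have h1 : ∀ w : ℝ, 0 < w → e w ≤ (∫ x in Set.Ioi (0 : ℝ), e x) / w := by
    intro w hw
    rw [le_div_iff₀ hw]
    have h2 : e w * w = ∫ _ in Set.Ioc 0 w, e w := by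
      rw [setIntegral_const]
      simp [hw.le, mul_comm]
    rw [h2]
    have h3 : IntegrableOn e (Set.Ioc 0 w) := hei.mono_set Set.Ioc_subset_Ioi_self
    refine (setIntegral_mono_on (integrableOn_const (by simp) (by simp)) h3 measurableSet_Ioc
      (fun x hx => he hx.2)).trans ?_
    exact setIntegral_mono_set hei (Eventually.of_forall fun x => he0 x)
      (Eventually.of_forall fun x hx => Set.Ioc_subset_Ioi_self hx)
  have h4 : Tendsto (fun w : ℝ => (∫ x in Set.Ioi (0 : ℝ), e x) / w) atTop (𝓝 0) :=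
    tendsto_const_nhds.div_atTop tendsto_id
  refine tendsto_of_tendsto_of_tendsto_of_le_of_le' tendsto_const_nhds h4
    (Eventually.of_forall fun w => he0 w) ?_
  filter_upwards [eventually_gt_atTop 0] with w hw
  exact h1 w hw

theorem X4b_g {δ : ℝ} {g : ℝ → ℝ} (hg : CS δ g) : (∃ M > (0 : ℝ), ∀ x, |g x| ≤ M) ∧ UniformContinuous g := by
  have h1 : HasCompactSupport g := by
    refine HasCompactSupport.intro (K := Set.Icc δ (1 / δ)) isCompact_Icc fun x hx => hg.supp x ?_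
    rw [Set.mem_Icc, not_and_or] at hx
    rcases hx with h | h
    · exact Or.inl (le_of_lt (lt_of_not_ge h))
    · exact Or.inr (le_of_lt (lt_of_not_ge h))
  constructor
  · obtain ⟨C, hC⟩ := hg.cont.bounded_above_of_compact_support h1
    exact ⟨max C 1, lt_max_of_lt_right one_pos, fun x => (hC x).trans (le_max_left _ _)⟩
  · exact hg.cont.uniformContinuous_of_tendsto_cocompact (x := 0) h1.is_zero_at_infty

/-- **[STB-X4]** PROOF. By `hit_duality` (`g = g⁺ - g⁻`, `k = l - 1`) `bl D ρ h c a l g = ∫_{w ∈ D} e(w) G(w) ∂(lam h (c + k b))` with `e = (ex D ρ ·).toReal`,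
`G w = ∫ g(y/a) ∂(kap D (dual ρ) k w)(y)`; the same for Lebesgue measure. `X4_abel` with `F w = al D (dual ρ) k w` (nondecreasing), `M = sup |g|`, `ω` = modulus of
continuity of `g` at `2h/a_n` (coupling of the walks from `w` and `w'`: `G w' - G w = E[g((w'+S)/a) - g((w+S)/a); alive from w] + E[g((w'+S)/a); alive from w', not from w]`).
`Θ`: `∑_i F(w_{i+1}) (e(w_i) - e(w_{i+1})) ≤ (∫ F(x + 2h); one step of the dual walk to x) ≤ al D (dual ρ) (k+1) (2h) ≤ C V'(2h)/V'(a_n)`: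
`e(w_i) - e(w_{i+1})` is the `ρ`-mass of steps which lead out of `D` from `w_i` but not from `w_{i+1}`, i.e. of dual first steps `-X` in a half-open interval between
`w_i` and `w_{i+1}`, and then the dual walk started at `2h` is after one step at `2h - X ≥ w_{i+1}`. `S ≤ C a_n/n` as in `X1_mass`. `F(2h) ≤ C V'(2h)/V'(a_n)`. So the difference is at most
`C_h M / V'(a_n) + o(1) a_n/n`, and `1/V'(a_n) = o(a_n/n)`: `n/(a_n V'(a_n)) ≤ C V(a_n)/a_n → 0` by `DA.vv`, `DA.vd_comp` and `K11_slow` (ladder height with infinite mean). -/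
theorem X4_coset (hda : DA α ζ ρ a) (hD : Dom D) {b h c₀ : ℝ} (hh : 0 < h) (hstep : ∀ᵐ x ∂ρ, Cos h b x) (hc : 0 < c₀)
    (hinf : ∫⁻ y, ENNReal.ofReal y ∂(ladS D ρ) = ⊤) {δ : ℝ} {g : ℝ → ℝ} (hg : CS δ g) :
    ∀ ε > (0 : ℝ), ∀ᶠ n : ℕ in atTop, ∀ l : ℕ, c₀ * n ≤ l → l ≤ n → ∀ c : ℝ,
      |bl D ρ h c (a n) l g - bl D ρ 0 0 (a n) l g| ≤ ε * (a n / n) := by
  intro ε hε
  have hp := hda.prob
  have hdd := hda.dual
  have hpd := hdd.prob
  obtain ⟨⟨M, hM0, hM⟩, huc⟩ := X4b_g hg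
  have hgm : Measurable g := hg.cont.measurable
  obtain ⟨C₁, hC₁, h1⟩ := X1_mass hda hD hh.le hstep hc
  have hstep0 : ∀ᵐ x ∂ρ, Cos 0 b x := Eventually.of_forall fun x h0 => absurd rfl h0
  obtain ⟨C₁', hC₁', h1'⟩ := X1_mass hda hD (h := 0) le_rfl hstep0 hc
  obtain ⟨C₂, hC₂, h2⟩ := X4b_F hdd hD hc (x := 2 * h) (by positivity)
  -- the tolerances
  obtain ⟨ω₀, hω₀, hωe⟩ : ∃ ω₀ > (0 : ℝ), 2 * ω₀ * C₁ = ε / 2 := ⟨ε / 4 / C₁, by positivity, by field_simp; ring⟩
  obtain ⟨θ₀, hθ₀, huc'⟩ := Metric.uniformContinuous_iff.1 huc ω₀ hω₀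
  obtain ⟨B, hB, hBe⟩ : ∃ B > (0 : ℝ), B * ((4 * M * h + 4 * ω₀ * h + 2 * M * h) * C₂) = ε / 2 :=
    ⟨ε / 2 / ((4 * M * h + 4 * ω₀ * h + 2 * M * h) * C₂), by positivity, by field_simp⟩
  filter_upwards [h1, h1', h2, X4b_o hda hD hinf B hB, eventually_ge_atTop 1,
    hda.top.eventually_gt_atTop (2 * h / θ₀)] with n hn1 hn1' hn2 hno hn hnθ l hl hln c
  have hnpos : (0 : ℝ) < n := by exact_mod_cast hn
  have ha0 := hda.pos n
  have hlpos : (0 : ℝ) < l := lt_of_lt_of_le (by positivity) hl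
  have hl1 : 1 ≤ l := by
    have h3 : 0 < l := by exact_mod_cast hlpos
    exact h3
  obtain ⟨k, rfl⟩ : ∃ k, l = k + 1 := ⟨l - 1, by omega⟩
  -- the functions
  set e : ℝ → ℝ := fun w => (ex D ρ w).toReal with he_def
  set F : ℝ → ℝ := al D (dual ρ) k with hF_def
  set G : ℝ → ℝ := fun w => ∫ y, g (y / a n) ∂(kap D (dual ρ) k w) with hG_def
  have hgs : Measurable fun y => g (y / a n) := hgm.comp (measurable_id.div_const _)
  have hF2 : F (2 * h) ≤ C₂ * (1 / vr D (dual ρ) (a n)) := hn2 k (by push_cast at hl; exact hl)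
  have hF2' : F (2 * h) ≤ C₂ * (B * (a n / n)) := hF2.trans (mul_le_mul_of_nonneg_left hno hC₂.le)
  have hF0 : ∀ w, 0 ≤ F w := fun w => ENNReal.toReal_nonneg
  have hF1 : ∀ w, F w ≤ 1 := fun w => X4b_al_le_one D (dual ρ) k w
  have hFm : Monotone F := X4b_al_mono hD k
  have he : Antitone e := fun x y hxy => ENNReal.toReal_mono (measure_ne_top _ _) (ex_anti hD hxy)
  have he0 : ∀ w, 0 ≤ e w := fun w => ENNReal.toReal_nonneg
  have he1 : ∀ w, e w ≤ 1 := fun w => by
    have h3 : ex D ρ w ≤ 1 := prob_le_one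
    exact ENNReal.toReal_le_of_le_ofReal zero_le_one (by rw [ENNReal.ofReal_one]; exact h3)
  have hfinv : ∫⁻ w in D, ex D ρ w ≠ ∞ := by
    have h3 := X4b_fin hda hD (h := 0) le_rfl 0
    rwa [lam_zero] at h3
  have hei : IntegrableOn e (Set.Ioi 0) := by
    have h3 : IntegrableOn e D := integrable_toReal_of_lintegral_ne_top (measurable_ex hD).aemeasurable hfinv
    exact h3.mono_set fun x hx => hD.pos hx
  have hel : Tendsto e atTop (𝓝 0) := X4b_lim he he0 hei
  have hGm : Measurable G := measurable_integral_kap (ρ := dual ρ) hD k _ hgs M fun y => hM _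
  -- `Θ`
  have hΘ : ∀ w₀, 0 ≤ w₀ → ∀ N : ℕ, ∑ i ∈ Finset.range N, F (w₀ + h * (i + 1)) * (e (w₀ + h * i) - e (w₀ + h * (i + 1))) ≤
      F (2 * h) := by
    intro w₀ hw₀ N
    refine (X4b_theta hD hh k w₀ hw₀ N).trans ?_
    have h3 := surv_anti (ρ := dual ρ) hD (2 * h) (Nat.le_succ k)
    exact ENNReal.toReal_mono (measure_ne_top _ _) h3
  -- `S`
  have hmk : Measurable fun x => kap D (dual ρ) k x Set.univ :=
    (Measure.measurable_coe MeasurableSet.univ).comp (measurable_kap hD k)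
  have hSum : ∀ w₀, 0 ≤ w₀ → ∀ N : ℕ, ∑ i ∈ Finset.range N, h * (e (w₀ + h * i) * F (w₀ + h * i)) ≤
      C₁ * (a n / n) + h * F (2 * h) := by
    intro w₀ hw₀ N
    have h3 := X4b_sum hD hh (fun w => ex D ρ w * kap D (dual ρ) k w Set.univ) ((measurable_ex hD).mul hmk) w₀ hw₀ N
    have h4 : ∫⁻ w in D, ex D ρ w * kap D (dual ρ) k w Set.univ ∂(lam h w₀) ≤ ENNReal.ofReal (C₁ * (a n / n)) := by
      have h5 := hit_duality hD hh.le hstep (w₀ - k * b) k (fun _ => 1) measurable_const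
      simp only [one_mul, lintegral_one, sub_add_cancel] at h5
      rw [← h5]
      exact hn1 (k + 1) hl hln _
    have h6 : ENNReal.ofReal h * (ex D ρ 0 * kap D (dual ρ) k 0 Set.univ) ≤ ENNReal.ofReal (h * F (2 * h)) := by
      rw [ENNReal.ofReal_mul hh.le]
      refine mul_le_mul_right ?_ _
      have h7 : ex D ρ 0 ≤ 1 := prob_le_one
      have h8 : kap D (dual ρ) k 0 Set.univ ≤ ENNReal.ofReal (F (2 * h)) := by
        have h9 : kap D (dual ρ) k 0 Set.univ = ENNReal.ofReal (F 0) := by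
          rw [hF_def]
          unfold al
          rw [ofReal_measureReal]
        rw [h9]
        exact ENNReal.ofReal_le_ofReal (hFm (by positivity))
      calc ex D ρ 0 * kap D (dual ρ) k 0 Set.univ ≤ 1 * ENNReal.ofReal (F (2 * h)) := mul_le_mul' h7 h8
        _ = _ := one_mul _
    have h10 : ∑ i ∈ Finset.range N, h * (e (w₀ + h * i) * F (w₀ + h * i)) =
        (ENNReal.ofReal h * ∑ i ∈ Finset.range N, (ex D ρ (w₀ + h * i) * kap D (dual ρ) k (w₀ + h * i) Set.univ)).toReal := by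
      rw [ENNReal.toReal_mul, ENNReal.toReal_ofReal hh.le, ENNReal.toReal_sum
        (fun i _ => ENNReal.mul_ne_top (X4b_ex_ne D ρ _) (measure_ne_top _ _)), Finset.mul_sum]
      refine Finset.sum_congr rfl fun i _ => ?_
      rw [ENNReal.toReal_mul]
      rfl
    rw [h10]
    refine ENNReal.toReal_le_of_le_ofReal (by have := hF0 (2 * h); positivity) ?_
    refine h3.trans ((add_le_add h6 h4).trans ?_)
    rw [← ENNReal.ofReal_add (by have := hF0 (2 * h); positivity) (by positivity)]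
    exact ENNReal.ofReal_le_ofReal (by linarith)
  have hS : ∀ w₀, 0 ≤ w₀ → ∀ N : ℕ, ∑ i ∈ Finset.range N, h * e (w₀ + h * i) * F (w₀ + h * (i + 1)) ≤
      C₁ * (a n / n) + 2 * h * F (2 * h) := by
    intro w₀ hw₀ N
    have h3 := hSum w₀ hw₀ (N + 1)
    have h4 := hΘ w₀ hw₀ N
    have h5 : ∑ i ∈ Finset.range N, h * e (w₀ + h * i) * F (w₀ + h * (i + 1)) =
        h * (∑ i ∈ Finset.range N, F (w₀ + h * (i + 1)) * (e (w₀ + h * i) - e (w₀ + h * (i + 1)))) +
        ∑ i ∈ Finset.range N, h * (e (w₀ + h * ((i + 1 : ℕ) : ℝ)) * F (w₀ + h * ((i + 1 : ℕ) : ℝ))) := by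
      rw [Finset.mul_sum, ← Finset.sum_add_distrib]
      refine Finset.sum_congr rfl fun i _ => ?_
      push_cast
      ring
    rw [Finset.sum_range_succ'] at h3
    have h6 : 0 ≤ h * (e (w₀ + h * ((0 : ℕ) : ℝ)) * F (w₀ + h * ((0 : ℕ) : ℝ))) :=
      mul_nonneg hh.le (mul_nonneg (he0 _) (hF0 _))
    rw [h5]
    have h7 := mul_le_mul_of_nonneg_left h4 hh.le
    calc _ ≤ h * F (2 * h) + (C₁ * (a n / n) + h * F (2 * h)) := add_le_add h7 (le_trans (le_add_of_nonneg_right h6) h3)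
      _ = _ := by ring
  -- apply the deterministic lemma
  have hmain := X4_abel hD (c := c + k * b) hh he he0 hel hei hFm hF0 hF1 hGm hω₀.le hM0.le
    (fun w _ => X4b_kap_bd D (dual ρ) k (fun y => hM _) w)
    (fun w w' hw hww hw' => X4b_G hD ha0 k hgm hM (fun x y hxy => by
      have h3 : dist x y < θ₀ := by
        rw [Real.dist_eq]
        refine lt_of_le_of_lt hxy ?_
        rw [div_lt_iff₀ hθ₀] at hnθ
        rw [div_lt_iff₀ ha0]
        linarith
      have h4 := huc' h3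
      rw [Real.dist_eq] at h4
      exact h4.le) hww hw') hΘ hS
  have hb1 : bl D ρ h c (a n) (k + 1) g = ∫ w in D, e w * G w ∂(lam h (c + k * b)) := by
    unfold bl
    exact X4b_real hD hh.le hstep c k (ne_top_of_le_ne_top ENNReal.ofReal_ne_top (hn1 (k + 1) hl hln c))
      (X4b_fin hda hD hh.le _) (fun y => g (y / a n)) hgs (M := M) fun y => hM _
  have hb2 : bl D ρ 0 0 (a n) (k + 1) g = ∫ w in D, e w * G w := by
    unfold bl
    have h3 := X4b_real hD (h := 0) le_rfl hstep0 0 k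
      (ne_top_of_le_ne_top ENNReal.ofReal_ne_top (hn1' (k + 1) hl hln 0))
      (X4b_fin hda hD le_rfl _) (fun y => g (y / a n)) hgs (M := M) fun y => hM _
    rw [h3, lam_zero]
  rw [hb1, hb2]
  refine hmain.trans ?_
  have hF2n := hF0 (2 * h)
  calc 4 * M * h * F (2 * h) + 2 * ω₀ * (C₁ * (a n / n) + 2 * h * F (2 * h)) + 2 * M * h * e 0 * F (2 * h)
      ≤ 4 * M * h * F (2 * h) + 2 * ω₀ * (C₁ * (a n / n) + 2 * h * F (2 * h)) + 2 * M * h * 1 * F (2 * h) := by
        gcongr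
        exact he1 0
    _ = 2 * ω₀ * C₁ * (a n / n) + (4 * M * h + 4 * ω₀ * h + 2 * M * h) * F (2 * h) := by ring
    _ ≤ 2 * ω₀ * C₁ * (a n / n) + (4 * M * h + 4 * ω₀ * h + 2 * M * h) * (C₂ * (B * (a n / n))) := by
        gcongr
    _ = 2 * ω₀ * C₁ * (a n / n) + B * ((4 * M * h + 4 * ω₀ * h + 2 * M * h) * C₂) * (a n / n) := by ring
    _ = ε * (a n / n) := by
        rw [hωe, hBe]
        ring


end Pool.Agent.BPT
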