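import Pool.Agent.MP_99a865_pr.CV.K10
import Pool.Agent.MP_99a865_pr.CV.K7
import Pool.Agent.MP_99a865_pr.FV.D2d
import Pool.Agent.MP_99a865_pr.ST.X3c
import Pool.Agent.MP_99a865_pr.ST.E3a
import Pool.Agent.MP_99a865_pr.ST.E3b

/-! **[STB-X5a]** The exit measure on cosets, ladder height of finite mean: macroscopic starts. -/

open MeasureTheory ProbabilityTheory Filter Topology
open scoped ENNReal NNReal

namespace Pool.Agent.BPT

variable {α : ℝ} {ζ ρ : Measure ℝ} {a : ℕ → ℝ} {D : Set ℝ}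

lemma X5a_lin (hda : DA α ζ ρ a) (hD : Dom D) : ∀ᶠ n : ℕ in atTop, vr D ρ (a n) ≤ 2 * a n * vr D ρ 1 := by
  filter_upwards [hda.top.eventually_ge_atTop 1] with n hn
  have h1 := vr_mul hD hda.cen 1 (a n) zero_le_one hn
  rwa [mul_one] at h1

/-- **[STB-X5a]** PROOF. `wald_ge` (`ladS_univ`, `ladS_neg`): `a_n ≤ (∫ y ∂ladS) V(a_n)`; `DA.vv`, `DA.vd_comp`. -/
theorem X5_V (hda : DA α ζ ρ a) (hD : Dom D) (hfin : ∫⁻ y, ENNReal.ofReal y ∂(ladS D ρ) ≠ ⊤) :
    ∃ C > (0 : ℝ), ∀ᶠ n : ℕ in atTop,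
      a n / n ≤ C / vr D (dual ρ) (a n) ∧ 1 / vr D (dual ρ) (a n) ≤ C * (a n / n) := by
  have hprob := hda.prob
  obtain ⟨C₁, hC₁, hcomp⟩ := hda.vd_comp hD
  obtain ⟨C₂, hC₂, hvv⟩ := hda.vv hD
  obtain ⟨hVfin, hV1, hVmono⟩ := vr_facts hD hda.cen
  have hV1' := (vr_facts hD hda.dual.cen).2.1
  set μ₀ : ℝ := (∫⁻ y, ENNReal.ofReal y ∂(ladS D ρ)).toReal with hμ₀
  have hμ0 : 0 ≤ μ₀ := ENNReal.toReal_nonneg
  have hwald : ∀ z, 0 ≤ z → z ≤ μ₀ * vr D ρ z := by
    intro z hz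
    have h1 := wald_ge hD (ladS_univ hD hda.cen) (ladS_neg hD) z hz (hVfin z)
    have h2 := ENNReal.toReal_mono (ENNReal.mul_ne_top hfin (hVfin z)) h1
    rw [ENNReal.toReal_ofReal hz, ENNReal.toReal_mul] at h2
    exact h2
  have hP1 : 0 < vr D ρ 1 := lt_of_lt_of_le one_pos (hV1 1)
  set C : ℝ := μ₀ * C₁ * C₂ + C₂ * (2 * vr D ρ 1) * C₁ with hC
  have hC0 : 0 < C := by positivity
  refine ⟨C, hC0, ?_⟩
  filter_upwards [hvv, X5a_lin hda hD, eventually_ge_atTop 1] with n hvv hlin hn1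
  have hn : (0 : ℝ) < n := by exact_mod_cast hn1
  have han := hda.pos n
  have hV' : 0 < vr D (dual ρ) (a n) := lt_of_lt_of_le one_pos (hV1' _)
  have hV : 0 < vr D ρ (a n) := lt_of_lt_of_le one_pos (hV1 _)
  have hc1 := (hcomp (a n) han.le).1
  have hc2 := (hcomp (a n) han.le).2
  have hvd : 0 < vd D ρ (a n) := by
    by_contra h2
    have h3 : C₁ * vd D ρ (a n) ≤ 0 := mul_nonpos_of_nonneg_of_nonpos hC₁.le (not_lt.mp h2)
    linarith
  have hw := hwald (a n) han.le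
  constructor
  · rw [div_le_div_iff₀ hn hV']
    calc a n * vr D (dual ρ) (a n) ≤ (μ₀ * vr D ρ (a n)) * (C₁ * vd D ρ (a n)) :=
          mul_le_mul hw hc1 hV'.le (by positivity)
      _ = μ₀ * C₁ * (vr D ρ (a n) * vd D ρ (a n)) := by ring
      _ ≤ μ₀ * C₁ * (C₂ * n) := mul_le_mul_of_nonneg_left hvv.2 (by positivity)
      _ = (μ₀ * C₁ * C₂) * n := by ring
      _ ≤ C * n := by
        refine mul_le_mul_of_nonneg_right ?_ hn.le
        rw [hC]
        have : 0 ≤ C₂ * (2 * vr D ρ 1) * C₁ := by positivity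
        linarith
  · rw [mul_div_assoc', div_le_div_iff₀ hV' hn, one_mul]
    calc (n : ℝ) ≤ C₂ * (vr D ρ (a n) * vd D ρ (a n)) := hvv.1
      _ ≤ C₂ * ((2 * a n * vr D ρ 1) * (C₁ * vr D (dual ρ) (a n))) := by
        refine mul_le_mul_of_nonneg_left ?_ hC₂.le
        exact mul_le_mul hlin hc2 hvd.le (by positivity)
      _ = (C₂ * (2 * vr D ρ 1) * C₁) * a n * vr D (dual ρ) (a n) := by ring
      _ ≤ C * a n * vr D (dual ρ) (a n) := by
        refine mul_le_mul_of_nonneg_right (mul_le_mul_of_nonneg_right ?_ han.le) hV'.le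
        rw [hC]
        have : 0 ≤ μ₀ * C₁ * C₂ := by positivity
        linarith

/-- `∫ (-(s + x))⁺ ∂ρ` -/
noncomputable def X5a_I (ρ : Measure ℝ) (s : ℝ) : ℝ≥0∞ := ∫⁻ x, ENNReal.ofReal (-(s + x)) ∂ρ

lemma X5a_anti : Antitone (X5a_I ρ) := by
  intro s t h
  unfold X5a_I
  refine lintegral_mono fun x => ENNReal.ofReal_le_ofReal ?_
  linarith

lemma X5a_zero (hρ : Cen ρ) : Tendsto (X5a_I ρ) atTop (𝓝 0) := by
  have h1 := tendsto_lintegral_filter_of_dominated_convergence (μ := ρ) (l := (atTop : Filter ℝ))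
    (F := fun s x => ENNReal.ofReal (-(s + x))) (f := fun _ => 0)
    (fun x => ENNReal.ofReal (-(0 + x))) ?_ ?_ (K10_Phi_fin hρ 0) ?_
  · rw [lintegral_zero] at h1
    exact h1
  · exact Filter.Eventually.of_forall fun s => by fun_prop
  · filter_upwards [eventually_ge_atTop (0 : ℝ)] with s hs
    exact Filter.Eventually.of_forall fun x => ENNReal.ofReal_le_ofReal (by linarith)
  · refine Filter.Eventually.of_forall fun x => ?_
    refine tendsto_const_nhds.congr' ?_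
    filter_upwards [eventually_ge_atTop (-x)] with s hs
    rw [ENNReal.ofReal_of_nonpos (by linarith)]

lemma X5a_GG (hD : Dom D) (hρ : Cen ρ) (hfin : ∫⁻ y, ENNReal.ofReal y ∂(ladS D ρ) ≠ ⊤) :
    Tendsto (fun y => X5a_I ρ y * GG D ρ y) atTop (𝓝 0) := by
  have hprob := hρ.prob
  set m : Measure ℝ := Measure.sum fun k => kap D ρ k 0 with hm
  have hI : ∫⁻ s, X5a_I ρ s ∂m = ∫⁻ y, ENNReal.ofReal y ∂(ladS D ρ) := by
    rw [lintegral_ladS_kap hD (fun y => ENNReal.ofReal y) ENNReal.measurable_ofReal, hm,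
      lintegral_sum_measure]
    refine tsum_congr fun k => lintegral_congr fun s => ?_
    unfold X5a_I
    have hms : MeasurableSet {x : ℝ | s + x ∉ D} := (measurable_const_add s) hD.meas.compl
    rw [← lintegral_indicator hms]
    refine lintegral_congr fun x => ?_
    by_cases hx : x ∈ {x : ℝ | s + x ∉ D}
    · rw [Set.indicator_of_mem hx]
    · rw [Set.indicator_of_notMem hx]
      have h1 : s + x ∈ D := by
        by_contra h
        exact hx h
      have h2 := hD.nonneg h1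
      exact ENNReal.ofReal_of_nonpos (by linarith)
  have h1 := tendsto_lintegral_filter_of_dominated_convergence (μ := m) (l := (atTop : Filter ℝ))
    (F := fun y s => (Set.Iic y).indicator (fun _ => X5a_I ρ y) s) (f := fun _ => 0)
    (X5a_I ρ) ?_ ?_ (by rw [hI]; exact hfin) ?_
  · rw [lintegral_zero] at h1
    refine h1.congr fun y => ?_
    rw [lintegral_indicator measurableSet_Iic, setLIntegral_const, hm, Measure.sum_apply _ measurableSet_Iic]
    rfl
  · exact Filter.Eventually.of_forall fun y => measurable_const.indicator measurableSet_Iic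
  · refine Filter.Eventually.of_forall fun y => Filter.Eventually.of_forall fun s => ?_
    by_cases hs : s ∈ Set.Iic y
    · rw [Set.indicator_of_mem hs]
      exact X5a_anti hs
    · rw [Set.indicator_of_notMem hs]
      exact zero_le
  · refine Filter.Eventually.of_forall fun s => ?_
    refine (X5a_zero hρ).congr' ?_
    filter_upwards [eventually_ge_atTop s] with y hy
    rw [Set.indicator_of_mem (show s ∈ Set.Iic y from hy)]

open Classical in
lemma X5a_sumex (hD : Dom D) [IsProbabilityMeasure ρ] {A : ℝ} (hA : 1 ≤ A) :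
    ∑' j : ℕ, (if A < (j : ℝ) + 1 then ex D ρ j else 0) ≤ X5a_I ρ (A - 2) := by
  have h1 : ∀ j : ℕ, (if A < (j : ℝ) + 1 then ex D ρ j else 0) =
      ∫⁻ y, (if A < (j : ℝ) + 1 then {y : ℝ | (j : ℝ) + y ∉ D}.indicator (fun _ => (1 : ℝ≥0∞)) y else 0) ∂ρ := by
    intro j
    split_ifs with h
    · have hms : MeasurableSet {x : ℝ | (j : ℝ) + x ∉ D} := (measurable_const_add _) hD.meas.compl
      rw [lintegral_indicator hms, setLIntegral_const, one_mul]
      rfl
    · rw [lintegral_zero]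
  simp_rw [h1]
  rw [← lintegral_tsum]
  · unfold X5a_I
    refine lintegral_mono fun y => ?_
    have h2 : ∀ j ∉ Finset.Ioc ⌊A - 1⌋₊ ⌊-y⌋₊,
        (if A < (j : ℝ) + 1 then {y : ℝ | (j : ℝ) + y ∉ D}.indicator (fun _ => (1 : ℝ≥0∞)) y else 0) = 0 := by
      intro j hj
      split_ifs with h
      · apply Set.indicator_of_notMem
        intro h3
        apply hj
        have h4 : (j : ℝ) + y ≤ 0 := hD.not_mem h3
        rw [Finset.mem_Ioc]
        refine ⟨?_, Nat.le_floor (by linarith)⟩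
        rw [Nat.floor_lt (by linarith)]
        linarith
      · rfl
    rw [tsum_eq_sum h2]
    have h3 : ∑ j ∈ Finset.Ioc ⌊A - 1⌋₊ ⌊-y⌋₊,
        (if A < (j : ℝ) + 1 then {y : ℝ | (j : ℝ) + y ∉ D}.indicator (fun _ => (1 : ℝ≥0∞)) y else 0) ≤
        ((Finset.Ioc ⌊A - 1⌋₊ ⌊-y⌋₊).card : ℝ≥0∞) := by
      have h4 : ∀ j ∈ Finset.Ioc ⌊A - 1⌋₊ ⌊-y⌋₊,
          (if A < (j : ℝ) + 1 then {y : ℝ | (j : ℝ) + y ∉ D}.indicator (fun _ => (1 : ℝ≥0∞)) y else 0) ≤ 1 := by
        intro j _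
        split_ifs
        · exact Set.indicator_le_self' (fun _ _ => zero_le) y |>.trans le_rfl
        · exact zero_le
      refine (Finset.sum_le_sum h4).trans ?_
      simp
    refine h3.trans ?_
    rw [Nat.card_Ioc]
    rcases le_or_gt ⌊-y⌋₊ ⌊A - 1⌋₊ with h | h
    · rw [Nat.sub_eq_zero_of_le h]
      simp
    · have hy : 0 ≤ -y := by
        by_contra hc
        have : ⌊-y⌋₊ = 0 := Nat.floor_of_nonpos (by linarith)
        omega
      rw [← ENNReal.ofReal_natCast]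
      refine ENNReal.ofReal_le_ofReal ?_
      rw [Nat.cast_sub h.le]
      have h5 := Nat.floor_le hy
      have h6 := Nat.lt_floor_add_one (A - 1)
      linarith
  · intro j
    have hms : MeasurableSet {x : ℝ | (j : ℝ) + x ∉ D} := (measurable_const_add _) hD.meas.compl
    split_ifs
    · exact (measurable_const.indicator hms).aemeasurable
    · exact aemeasurable_const

lemma X5a_exlam (hD : Dom D) [IsProbabilityMeasure ρ] {h A : ℝ} (hh : 0 ≤ h) (hA : 1 ≤ A) (c : ℝ) :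
    ∫⁻ w in D ∩ Set.Ioi A, ex D ρ w ∂(lam h c) ≤ ENNReal.ofReal (1 + h) * X5a_I ρ (A - 2) := by
  classical
  have h1 := D2b_cover hD hh c ((Set.Ioi A).indicator (ex D ρ))
    (fun j : ℕ => if A < (j : ℝ) + 1 then ex D ρ j else 0) ?_
  · rw [lintegral_indicator measurableSet_Ioi, Measure.restrict_restrict measurableSet_Ioi,
      Set.inter_comm] at h1
    refine h1.trans ?_
    gcongr
    exact X5a_sumex hD hA
  · intro j w hw1 hw2
    by_cases hw : w ∈ Set.Ioi A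
    · rw [Set.indicator_of_mem hw, if_pos (lt_trans hw hw2)]
      exact ex_anti hD hw1
    · rw [Set.indicator_of_notMem hw]
      exact zero_le

/-- **[STB-X5b]** Macroscopic starts do not matter. PROOF. Let `I(s) = ∫_{w>s} (ex w) dw = ∫ ofReal(-(s+x)) ∂ρ` (up to the boundary point, null). By `lintegral_ladS_kap`
`∫ I dm = ∫ y ∂ladS < ∞`, `m = ∑_k kap D ρ k 0`, `m [0,y] = GG D ρ y`, which is `≥ vd D ρ y` (`le_GG`) and finite. `I` is nonincreasing, tends to `0`, so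
`GG(y) I(y) ≤ GG(y₀) I(y) + ∫_{(y₀,y]} I dm`, hence `GG(y) I(y) → 0` as `y → ∞`. So `∫_{w > δ a_n} ex ∂lam ≤ 2(1+h) I(δ a_n - 2) ≤ ε/vd(δ a_n - 2) ≤ ε C_δ / vd(a_n)` (`vr_mul` for the
dual walk) and `1/vd(a_n) ≤ C a_n/n` (`DA.vv` with `V(a_n) ≤ C a_n`). -/
theorem X5_tail (hda : DA α ζ ρ a) (hD : Dom D) {h : ℝ} (hh : 0 ≤ h)
    (hfin : ∫⁻ y, ENNReal.ofReal y ∂(ladS D ρ) ≠ ⊤) {δ : ℝ} (hδ : 0 < δ) : ∀ ε > (0 : ℝ), ∀ᶠ n : ℕ in atTop, ∀ c : ℝ,
      ∫⁻ w in D ∩ Set.Ioi (δ * a n), ex D ρ w ∂(lam h c) ≤ ENNReal.ofReal (ε * (a n / n)) := by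
  intro ε hε
  have hprob := hda.prob
  obtain ⟨C₂, hC₂, hvv⟩ := hda.vv hD
  obtain ⟨hVfin, hV1, hVmono⟩ := vr_facts hD hda.cen
  obtain ⟨hWfin, hW1, hWmono⟩ := vr_facts (dom_Dst hD) hda.dual.cen
  have hP1 : 0 < vr D ρ 1 := lt_of_lt_of_le one_pos (hV1 1)
  set r : ℝ := max 1 (2 / δ) with hr
  have hr1 : 1 ≤ r := le_max_left _ _
  have hr0 : 0 < r := lt_of_lt_of_le one_pos hr1
  set κ : ℝ := ε / ((1 + h) * (4 * r * C₂ * vr D ρ 1)) with hκ
  have hκ0 : 0 < κ := by positivity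
  have hG := X5a_GG hD hda.cen hfin
  have hG1 : ∀ᶠ y : ℝ in atTop, X5a_I ρ y * GG D ρ y < ENNReal.ofReal κ :=
    hG.eventually_lt_const (by rwa [ENNReal.ofReal_pos])
  have hay : Tendsto (fun n : ℕ => δ * a n - 2) atTop atTop :=
    tendsto_atTop_add_const_right _ _ (hda.top.const_mul_atTop hδ)
  filter_upwards [hvv, X5a_lin hda hD, eventually_ge_atTop 1, hay.eventually hG1,
    hda.top.eventually_ge_atTop (4 / δ)] with n hvv hlin hn1 hG1 hbig c
  have hn : (0 : ℝ) < n := by exact_mod_cast hn1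
  have han := hda.pos n
  have hδa : 4 ≤ δ * a n := by
    rw [div_le_iff₀ hδ] at hbig
    linarith
  have hy0 : 0 ≤ δ * a n - 2 := by linarith
  have hvdy : 0 < vd D ρ (δ * a n - 2) := lt_of_lt_of_le one_pos (hW1 _)
  have hvda : 0 < vd D ρ (a n) := lt_of_lt_of_le one_pos (hW1 _)
  -- `I(y) ≤ κ / vd(y)`
  have hI : X5a_I ρ (δ * a n - 2) ≤ ENNReal.ofReal (κ / vd D ρ (δ * a n - 2)) := by
    have h1 : VV (Dst D) (dual ρ) (δ * a n - 2) = ENNReal.ofReal (vd D ρ (δ * a n - 2)) := by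
      unfold vd vr
      rw [ENNReal.ofReal_toReal (hWfin _)]
    have h2 : X5a_I ρ (δ * a n - 2) * ENNReal.ofReal (vd D ρ (δ * a n - 2)) ≤ ENNReal.ofReal κ := by
      rw [← h1]
      refine le_trans ?_ hG1.le
      gcongr
      exact le_GG hD _ hy0
    rw [ENNReal.ofReal_div_of_pos hvdy]
    rw [ENNReal.le_div_iff_mul_le]
    · exact h2
    · left
      exact (ENNReal.ofReal_pos.mpr hvdy).ne'
    · left
      exact ENNReal.ofReal_ne_top
  -- comparison of `vd(a)` and `vd(y)`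
  have hcmp : vd D ρ (a n) ≤ 2 * r * vd D ρ (δ * a n - 2) := by
    have h1 := vr_mul (dom_Dst hD) hda.dual.cen (δ * a n / 2) r (by positivity) hr1
    have h2 : a n ≤ r * (δ * a n / 2) := by
      have h3 : 2 / δ ≤ r := le_max_right _ _
      calc a n = 2 / δ * (δ * a n / 2) := by field_simp
        _ ≤ r * (δ * a n / 2) := mul_le_mul_of_nonneg_right h3 (by positivity)
    have h3 : vd D ρ (a n) ≤ vd D ρ (r * (δ * a n / 2)) := hWmono h2
    have h4 : vd D ρ (δ * a n / 2) ≤ vd D ρ (δ * a n - 2) := hWmono (by linarith)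
    calc vd D ρ (a n) ≤ vd D ρ (r * (δ * a n / 2)) := h3
      _ ≤ 2 * r * vd D ρ (δ * a n / 2) := h1
      _ ≤ 2 * r * vd D ρ (δ * a n - 2) := mul_le_mul_of_nonneg_left h4 (by positivity)
  have hva : (n : ℝ) ≤ C₂ * (2 * a n * vr D ρ 1) * vd D ρ (a n) := by
    calc (n : ℝ) ≤ C₂ * (vr D ρ (a n) * vd D ρ (a n)) := hvv.1
      _ ≤ C₂ * ((2 * a n * vr D ρ 1) * vd D ρ (a n)) :=
        mul_le_mul_of_nonneg_left (mul_le_mul_of_nonneg_right hlin hvda.le) hC₂.le
      _ = _ := by ring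
  refine (X5a_exlam hD hh (A := δ * a n) (by linarith) c).trans ?_
  refine (mul_le_mul_right hI _).trans ?_
  rw [← ENNReal.ofReal_mul (by positivity)]
  refine ENNReal.ofReal_le_ofReal ?_
  clear_value κ
  rw [← mul_div_assoc (1 + h) κ, ← mul_div_assoc ε (a n), div_le_div_iff₀ hvdy hn]
  have h5 : (n : ℝ) ≤ C₂ * (2 * a n * vr D ρ 1) * (2 * r * vd D ρ (δ * a n - 2)) :=
    hva.trans (mul_le_mul_of_nonneg_left hcmp (by positivity))
  calc (1 + h) * κ * n ≤ (1 + h) * κ * (C₂ * (2 * a n * vr D ρ 1) * (2 * r * vd D ρ (δ * a n - 2))) :=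
        mul_le_mul_of_nonneg_left h5 (by positivity)
    _ = ε * a n * vd D ρ (δ * a n - 2) := by
        rw [hκ]
        field_simp
        ring

end Pool.Agent.BPT
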