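import Pool.Agent.MP_99a865_pr.ST.X5a

/-! **[STB-X5b]** Forgetting of the starting point. -/

open MeasureTheory ProbabilityTheory Filter Topology
open scoped ENNReal NNReal

namespace Pool.Agent.BPT

variable {α : ℝ} {ζ ρ : Measure ℝ} {a : ℕ → ℝ} {D : Set ℝ}

theorem X5b_kap_fin (D : Set ℝ) (ρ : Measure ℝ) [IsProbabilityMeasure ρ] (k : ℕ) (x : ℝ) :
    IsFiniteMeasure (kap D ρ k x) := by
  unfold kap; infer_instance

theorem X5b_kap_le (D : Set ℝ) (ρ : Measure ℝ) [IsProbabilityMeasure ρ] (k : ℕ) (x : ℝ) :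
    kap D ρ k x Set.univ ≤ 1 := by
  unfold kap
  have h1 : Measurable fun ω : ℕ → ℝ => x + S k ω := by unfold S; fun_prop
  rw [Measure.map_apply h1 MeasurableSet.univ, Set.preimage_univ]
  exact (Measure.restrict_apply_le _ _).trans prob_le_one

theorem X5b_meas {M : ℝ} {g : ℝ → ℝ} (hg : BZ M g) : Measurable g := by
  classical
  have h1 : g = (Set.Ioi (0 : ℝ)).piecewise g (fun _ => 0) := by
    funext x
    by_cases hx : x ∈ Set.Ioi (0 : ℝ)
    · rw [Set.piecewise_eq_of_mem _ _ _ hx]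
    · rw [Set.piecewise_eq_of_notMem _ _ _ hx]
      exact hg.zero x (not_lt.mp hx)
  rw [h1]
  exact ContinuousOn.measurable_piecewise hg.bco.cont continuousOn_const measurableSet_Ioi

theorem X5b_bound {M : ℝ} {g : ℝ → ℝ} (hg : BZ M g) (y : ℝ) : |g y| ≤ M := by
  by_cases hy : 0 < y
  · exact hg.bco.bd y hy
  · rw [hg.zero y (not_lt.mp hy), abs_zero]
    exact (abs_nonneg _).trans (hg.bco.bd 1 one_pos)

/-- `∫⁻ ofReal ψ ≤ ∫⁻ ofReal (-ψ) + |∫ ψ|` -/
theorem X5b_pn {μ : Measure ℝ} [IsFiniteMeasure μ] {ψ : ℝ → ℝ} (hψ : Measurable ψ) {K : ℝ} (hK : ∀ y, |ψ y| ≤ K) :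
    ∫⁻ y, ENNReal.ofReal (ψ y) ∂μ ≤ ∫⁻ y, ENNReal.ofReal (-ψ y) ∂μ + ENNReal.ofReal |∫ y, ψ y ∂μ| := by
  have hint : Integrable ψ μ := Integrable.of_bound hψ.aestronglyMeasurable K
    (Eventually.of_forall fun y => by rw [Real.norm_eq_abs]; exact hK y)
  have h1 := integral_eq_lintegral_pos_part_sub_lintegral_neg_part hint
  have hp : ∫⁻ y, ENNReal.ofReal (ψ y) ∂μ ≠ ⊤ := by
    refine ne_top_of_le_ne_top ?_ (lintegral_mono (g := fun _ => ENNReal.ofReal K) fun y =>
      ENNReal.ofReal_le_ofReal ((le_abs_self _).trans (hK y)))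
    rw [lintegral_const]
    exact ENNReal.mul_ne_top ENNReal.ofReal_ne_top (measure_ne_top _ _)
  have hn : ∫⁻ y, ENNReal.ofReal (-ψ y) ∂μ ≠ ⊤ := by
    refine ne_top_of_le_ne_top ?_ (lintegral_mono (g := fun _ => ENNReal.ofReal K) fun y =>
      ENNReal.ofReal_le_ofReal ((neg_le_abs _).trans (hK y)))
    rw [lintegral_const]
    exact ENNReal.mul_ne_top ENNReal.ofReal_ne_top (measure_ne_top _ _)
  rw [← ENNReal.ofReal_toReal hp, ← ENNReal.ofReal_toReal hn, ← ENNReal.ofReal_add ENNReal.toReal_nonneg (abs_nonneg _)]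
  apply ENNReal.ofReal_le_ofReal
  rw [h1]
  have := le_abs_self ((∫⁻ y, ENNReal.ofReal (ψ y) ∂μ).toReal - (∫⁻ y, ENNReal.ofReal (-ψ y) ∂μ).toReal)
  linarith

theorem X5b_half (hD : Dom D) [IsProbabilityMeasure ρ] {b h : ℝ} (hh : 0 ≤ h) (hstep : ∀ᵐ x ∂ρ, Cos h b x)
    (c : ℝ) (k : ℕ) {ψ : ℝ → ℝ} (hψ : Measurable ψ) {K : ℝ} (hK : ∀ y, |ψ y| ≤ K) :
    ∫⁻ y in D, ENNReal.ofReal (ψ y) * ENNReal.ofReal (hit D ρ (k + 1) y) ∂(lam h c) ≤
      ∫⁻ y in D, ENNReal.ofReal (-ψ y) * ENNReal.ofReal (hit D ρ (k + 1) y) ∂(lam h c) +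
      ∫⁻ w in D, ex D ρ w * ENNReal.ofReal |∫ x, ψ x ∂(kap D (dual ρ) k w)| ∂(lam h (c + k * b)) := by
  have : IsProbabilityMeasure (dual ρ) := A2_dual_prob
  rw [hit_duality hD hh hstep c k (fun y => ENNReal.ofReal (ψ y)) hψ.ennreal_ofReal,
    hit_duality hD hh hstep c k (fun y => ENNReal.ofReal (-ψ y)) hψ.neg.ennreal_ofReal]
  have hm : Measurable fun w => ex D ρ w * ∫⁻ x, ENNReal.ofReal (-ψ x) ∂(kap D (dual ρ) k w) :=
    (measurable_ex hD).mul (measurable_lintegral_kap hD k (fun _ x => ENNReal.ofReal (-ψ x)) (hψ.neg.ennreal_ofReal.comp measurable_snd))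
  rw [← lintegral_add_left hm]
  refine lintegral_mono fun w => ?_
  rw [← mul_add]
  have := X5b_kap_fin D (dual ρ) k w
  exact mul_le_mul' le_rfl (X5b_pn hψ hK)

theorem X5b_dual (hD : Dom D) [IsProbabilityMeasure ρ] {b h : ℝ} (hh : 0 ≤ h) (hstep : ∀ᵐ x ∂ρ, Cos h b x)
    (c : ℝ) (k : ℕ) {ψ : ℝ → ℝ} (hψ : Measurable ψ) {K : ℝ} (hK : ∀ y, |ψ y| ≤ K)
    (hfin : ∫⁻ y in D, ENNReal.ofReal (hit D ρ (k + 1) y) ∂(lam h c) ≠ ⊤) {J : ℝ} (hJ0 : 0 ≤ J)
    (hJ : ∫⁻ w in D, ex D ρ w * ENNReal.ofReal |∫ x, ψ x ∂(kap D (dual ρ) k w)| ∂(lam h (c + k * b)) ≤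
      ENNReal.ofReal J) :
    |∫ y in D, ψ y * hit D ρ (k + 1) y ∂(lam h c)| ≤ J := by
  have hh0 := fun y => hit_nonneg (D := D) (ρ := ρ) (k + 1) y
  have hhm := measurable_hit (D := D) (ρ := ρ) hD (k + 1)
  have hK0 : 0 ≤ K := (abs_nonneg _).trans (hK 0)
  have hint1 : Integrable (hit D ρ (k + 1)) ((lam h c).restrict D) := by
    refine ⟨hhm.aestronglyMeasurable, ?_⟩
    rw [hasFiniteIntegral_iff_ofReal (Eventually.of_forall hh0)]
    exact lt_top_iff_ne_top.mpr hfin
  have hint : Integrable (fun y => ψ y * hit D ρ (k + 1) y) ((lam h c).restrict D) := by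
    refine Integrable.mono (hint1.const_mul K) (hψ.mul hhm).aestronglyMeasurable (Eventually.of_forall fun y => ?_)
    rw [norm_mul, norm_mul, Real.norm_eq_abs, Real.norm_eq_abs K, abs_of_nonneg hK0]
    exact mul_le_mul_of_nonneg_right (hK y) (norm_nonneg _)
  have e1 : ∀ y, ENNReal.ofReal (ψ y * hit D ρ (k + 1) y) = ENNReal.ofReal (ψ y) * ENNReal.ofReal (hit D ρ (k + 1) y) := fun y =>
    ENNReal.ofReal_mul' (hh0 y)
  have e2 : ∀ y, ENNReal.ofReal (-(ψ y * hit D ρ (k + 1) y)) = ENNReal.ofReal (-ψ y) * ENNReal.ofReal (hit D ρ (k + 1) y) := fun y => by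
    rw [← neg_mul]; exact ENNReal.ofReal_mul' (hh0 y)
  have h1 := integral_eq_lintegral_pos_part_sub_lintegral_neg_part hint
  simp_rw [e1, e2] at h1
  have hA : ∫⁻ y in D, ENNReal.ofReal (ψ y) * ENNReal.ofReal (hit D ρ (k + 1) y) ∂(lam h c) ≠ ⊤ := by
    refine ne_top_of_le_ne_top ?_ (lintegral_mono (g := fun y => ENNReal.ofReal K * ENNReal.ofReal (hit D ρ (k + 1) y))
      fun y => mul_le_mul' (ENNReal.ofReal_le_ofReal ((le_abs_self _).trans (hK y))) le_rfl)
    rw [lintegral_const_mul _ hhm.ennreal_ofReal]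
    exact ENNReal.mul_ne_top ENNReal.ofReal_ne_top hfin
  have hB : ∫⁻ y in D, ENNReal.ofReal (-ψ y) * ENNReal.ofReal (hit D ρ (k + 1) y) ∂(lam h c) ≠ ⊤ := by
    refine ne_top_of_le_ne_top ?_ (lintegral_mono (g := fun y => ENNReal.ofReal K * ENNReal.ofReal (hit D ρ (k + 1) y))
      fun y => mul_le_mul' (ENNReal.ofReal_le_ofReal ((neg_le_abs _).trans (hK y))) le_rfl)
    rw [lintegral_const_mul _ hhm.ennreal_ofReal]
    exact ENNReal.mul_ne_top ENNReal.ofReal_ne_top hfin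
  have h2 := (X5b_half hD hh hstep c k hψ hK).trans (add_le_add le_rfl hJ)
  have h3 := (X5b_half hD hh hstep c k (ψ := fun y => -ψ y) hψ.neg (K := K) (fun y => by rw [abs_neg]; exact hK y))
  simp_rw [neg_neg, integral_neg, abs_neg] at h3
  have h4 := h3.trans (add_le_add le_rfl hJ)
  have h2' := ENNReal.toReal_mono (ENNReal.add_ne_top.mpr ⟨hB, ENNReal.ofReal_ne_top⟩) h2
  have h4' := ENNReal.toReal_mono (ENNReal.add_ne_top.mpr ⟨hA, ENNReal.ofReal_ne_top⟩) h4
  rw [ENNReal.toReal_add hB ENNReal.ofReal_ne_top, ENNReal.toReal_ofReal hJ0] at h2'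
  rw [ENNReal.toReal_add hA ENNReal.ofReal_ne_top, ENNReal.toReal_ofReal hJ0] at h4'
  rw [h1, abs_le]
  constructor <;> linarith

/-- small starting points -/
theorem X5b_sup (hda : DA α ζ ρ a) (hD : Dom D) {M : ℝ} {g : ℝ → ℝ} (hg : BZ M g) {n l : ℕ → ℕ} {r : ℝ} (hr : 0 < r)
    (hT : Tm n l r) {κ : ℝ} (hκ : 0 < κ) : ∃ δ > (0 : ℝ), ∀ᶠ j in atTop, ∀ w : ℝ, 0 ≤ w → w ≤ δ * a (n j) →
      |(∫ y, g (y / a (n j)) ∂(kap D (dual ρ) (l j - 1) w)) - EA α (dual ζ) r g * al D (dual ρ) (l j - 1) w| ≤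
        κ * al D (dual ρ) (l j - 1) w := by
  have := hda.dual.prob
  by_contra hcon
  push Not at hcon
  have h1 : ∀ m : ℕ, ∃ᶠ j in atTop, ∃ w : ℝ, 0 ≤ w ∧ w ≤ 1 / ((m : ℝ) + 1) * a (n j) ∧
      κ * al D (dual ρ) (l j - 1) w <
      |(∫ y, g (y / a (n j)) ∂(kap D (dual ρ) (l j - 1) w)) - EA α (dual ζ) r g * al D (dual ρ) (l j - 1) w| :=
    fun m => hcon _ (by positivity)
  obtain ⟨φ, hφ, hP⟩ := extraction_forall_of_frequently h1
  choose w hw0 hw1 hw2 using hP
  have hT' : Tm (fun m => n (φ m)) (fun m => l (φ m) - 1) r := by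
    refine ⟨hT.top.comp hφ.tendsto_atTop, ?_⟩
    have h3 : Tendsto (fun m => (l (φ m) : ℝ) / n (φ m)) atTop (𝓝 r) := hT.lim.comp hφ.tendsto_atTop
    have h4 : Tendsto (fun m => 1 / (n (φ m) : ℝ)) atTop (𝓝 0) := by
      have h5 : Tendsto (fun m => (n (φ m) : ℝ)) atTop atTop :=
        tendsto_natCast_atTop_atTop.comp (hT.top.comp hφ.tendsto_atTop)
      refine h5.inv_tendsto_atTop.congr fun m => ?_
      simp
    have h5 := h3.sub h4
    rw [sub_zero] at h5
    refine h5.congr' ?_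
    have h6 : ∀ᶠ m in atTop, 0 < (l (φ m) : ℝ) / n (φ m) := h3.eventually (lt_mem_nhds hr)
    filter_upwards [h6] with m hm
    have hl : l (φ m) ≠ 0 := by
      intro h0
      rw [h0] at hm
      simp at hm
    rw [Nat.cast_sub (Nat.one_le_iff_ne_zero.mpr hl)]
    push_cast
    ring
  have hU : UC 0 (fun _ => 0) (fun m => a (n (φ m))) (fun m y => g (y / a (n (φ m)))) g := by
    intro ε hε η hη
    refine Eventually.of_forall fun j y _ _ _ => ?_
    rw [sub_self, abs_zero]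
    exact hη.le
  have hF : MB M (fun m y => g (y / a (n (φ m)))) := fun m =>
    ⟨(X5b_meas hg).comp (measurable_id.div_const _), fun y => X5b_bound hg _⟩
  have hx : Tendsto (fun m => w m / a (n (φ m))) atTop (𝓝 0) := by
    refine squeeze_zero (fun m => div_nonneg (hw0 m) (hda.pos _).le) (fun m => ?_)
      tendsto_one_div_add_atTop_nhds_zero_nat
    rw [div_le_iff₀ (hda.pos _)]
    exact hw1 m
  have hlim := entrance (b := 0) (h := 0) (c := fun _ => 0) hda.dual hD (Eventually.of_forall fun x hx => absurd rfl hx) hT' hr hF hg.bco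
    hU hw0 (fun j hx => absurd rfl hx) hx
  have hev := hlim.eventually (Metric.ball_mem_nhds _ hκ)
  obtain ⟨m, hm⟩ := hev.exists
  rw [Real.dist_eq] at hm
  have h7 := hw2 m
  set A := al D (dual ρ) (l (φ m) - 1) (w m) with hA
  have hA0 : 0 ≤ A := measureReal_nonneg
  rcases hA0.eq_or_lt with h0 | h0
  · rw [← h0] at h7
    have h8 : kap D (dual ρ) (l (φ m) - 1) (w m) = 0 := by
      have := X5b_kap_fin D (dual ρ) (l (φ m) - 1) (w m)
      rw [← Measure.measure_univ_eq_zero]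
      have := h0
      rw [hA] at this
      unfold al at this
      exact (measureReal_eq_zero_iff (measure_ne_top _ _)).mp this.symm
    rw [h8] at h7
    simp at h7
  · rw [div_sub' h0.ne', abs_div, abs_of_pos h0, div_lt_iff₀ h0] at hm
    rw [mul_comm A] at hm
    linarith

/-- **[STB-X5c]** Forgetting. PROOF. `bl D ρ h c a l g = ∫_{w ∈ D} ex(w) G(w) ∂(lam h c')`, `G w = ∫ g(y/a) ∂(kap D (dual ρ) (l-1) w)` (`hit_duality`, `g = g⁺ - g⁻`). By
`entrance` for the dual walk (`DA.dual`, functions `F_j y = g(y/a_j)`, cosets with `h = 0`) and a contradiction argument: for `κ > 0` there is `δ > 0` with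
`|G w - EA α (dual ζ) r g · al D (dual ρ) (l-1) w| ≤ κ al D (dual ρ) (l-1) w` for all `w ∈ [0, δ a_n]`, `j` large (otherwise a sequence `w_j` with
`w_j/a_n → 0` violates it). The part `w > δ a_n` contributes at most `2M ∫_{w>δ a_n} ex ∂lam ≤ ε a_n/n` (`X5_tail`), and the mass is `≤ C a_n/n` (`X1_mass`). -/
theorem X5_ratio (hda : DA α ζ ρ a) (hD : Dom D) {b h : ℝ} (hh : 0 ≤ h) (hstep : ∀ᵐ x ∂ρ, Cos h b x)
    (hfin : ∫⁻ y, ENNReal.ofReal y ∂(ladS D ρ) ≠ ⊤) {M : ℝ} {g : ℝ → ℝ} (hg : BZ M g) {n l : ℕ → ℕ} {r : ℝ} (hr : 0 < r)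
    (hr1 : r < 1) (hT : Tm n l r) : ∀ ε > (0 : ℝ), ∀ᶠ j in atTop, ∀ c : ℝ,
      |bl D ρ h c (a (n j)) (l j) g - EA α (dual ζ) r g * bl D ρ h c (a (n j)) (l j) (fun _ => 1)| ≤
        ε * (a (n j) / n j) := by
  intro ε hε
  have := hda.prob
  have := hda.dual.prob
  set E := EA α (dual ζ) r g with hE
  obtain ⟨C, hC, hmass⟩ := X1_mass hda hD hh hstep (c₀ := r / 2) (by linarith)
  have hM0 : 0 ≤ M := (abs_nonneg _).trans (X5b_bound hg 0)
  set K := M + |E| + 1 with hK
  have hK0 : 0 < K := by positivity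
  obtain ⟨δ, hδ, hsup⟩ := X5b_sup hda hD hg hr hT (κ := ε / (2 * C)) (by positivity)
  have htail := X5_tail hda hD hh hfin hδ (ε / (2 * K)) (by positivity)
  have hlim2 : ∀ᶠ j in atTop, r / 2 < (l j : ℝ) / n j ∧ (l j : ℝ) / n j < 1 :=
    (hT.lim.eventually (lt_mem_nhds (by linarith : r / 2 < r))).and (hT.lim.eventually (gt_mem_nhds hr1))
  filter_upwards [hsup, hT.top.eventually hmass, hT.top.eventually htail, hlim2, hT.top.eventually (eventually_ge_atTop 1)] with
    j h1 h2 h3 h4 h5 c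
  have hn0 : (0 : ℝ) < n j := by exact_mod_cast h5
  obtain ⟨h4a, h4b⟩ := h4
  rw [lt_div_iff₀ hn0] at h4a
  rw [div_lt_iff₀ hn0, one_mul] at h4b
  have hln : l j ≤ n j := by exact_mod_cast h4b.le
  have hl0 : l j ≠ 0 := by
    intro h0
    rw [h0] at h4a
    simp only [Nat.cast_zero] at h4a
    nlinarith
  obtain ⟨k, hk⟩ : ∃ k, l j = k + 1 := ⟨l j - 1, by omega⟩
  have hk' : l j - 1 = k := by omega
  have h2c := h2 (l j) h4a.le hln c
  rw [hk] at h2c
  rw [hk'] at h1
  have hm0 : ∫⁻ y in D, ENNReal.ofReal (hit D ρ (k + 1) y) ∂(lam h c) ≠ ⊤ :=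
    ne_top_of_le_ne_top ENNReal.ofReal_ne_top h2c
  have ha0 := hda.pos (n j)
  set A := a (n j) with hA
  set q := A / n j with hq
  have hq0 : 0 < q := by positivity
  have hgm := X5b_meas hg
  have hψm : Measurable fun y => g (y / A) - E := (hgm.comp (measurable_id.div_const _)).sub_const _
  have hψK : ∀ y, |g (y / A) - E| ≤ K := fun y => by
    have h6 := abs_sub (g (y / A)) E
    have h7 := X5b_bound hg (y / A)
    linarith
  have hhm := measurable_hit (D := D) (ρ := ρ) hD (k + 1)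
  have hint1 : Integrable (hit D ρ (k + 1)) ((lam h c).restrict D) := by
    refine ⟨hhm.aestronglyMeasurable, ?_⟩
    rw [hasFiniteIntegral_iff_ofReal (Eventually.of_forall fun y => hit_nonneg _ _)]
    exact lt_top_iff_ne_top.mpr hm0
  have hint2 : Integrable (fun y => g (y / A) * hit D ρ (k + 1) y) ((lam h c).restrict D) := by
    refine Integrable.mono (hint1.const_mul M) ((hgm.comp (measurable_id.div_const _)).mul hhm).aestronglyMeasurable
      (Eventually.of_forall fun y => ?_)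
    rw [norm_mul, norm_mul, Real.norm_eq_abs, Real.norm_eq_abs M, abs_of_nonneg hM0]
    exact mul_le_mul_of_nonneg_right (X5b_bound hg _) (norm_nonneg _)
  have hbl : bl D ρ h c A (l j) g - E * bl D ρ h c A (l j) (fun _ => 1) =
      ∫ y in D, (g (y / A) - E) * hit D ρ (k + 1) y ∂(lam h c) := by
    unfold bl
    rw [hk]
    simp_rw [one_mul, sub_mul]
    rw [integral_sub hint2 (hint1.const_mul E), integral_const_mul]
  rw [hbl]
  have hGw : ∀ w : ℝ, ∫ x, (g (x / A) - E) ∂(kap D (dual ρ) k w) =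
      (∫ y, g (y / A) ∂(kap D (dual ρ) k w)) - E * al D (dual ρ) k w := by
    intro w
    have := X5b_kap_fin D (dual ρ) k w
    have hi : Integrable (fun x => g (x / A)) (kap D (dual ρ) k w) :=
      Integrable.of_bound (hgm.comp (measurable_id.div_const _)).aestronglyMeasurable M
        (Eventually.of_forall fun y => by rw [Real.norm_eq_abs]; exact X5b_bound hg _)
    rw [integral_sub hi (integrable_const _), integral_const]
    unfold al
    rw [smul_eq_mul, mul_comm E]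
  refine X5b_dual hD hh hstep c k hψm hψK hm0 (by positivity) ?_
  have hDm : MeasurableSet D := by
    rcases hD with rfl | rfl
    · exact measurableSet_Ici
    · exact measurableSet_Ioi
  have hmass' : ∫⁻ w in D, ex D ρ w * kap D (dual ρ) k w Set.univ ∂(lam h (c + k * b)) ≤ ENNReal.ofReal (C * q) := by
    have h8 := hit_duality hD hh hstep c k (fun _ => 1) measurable_const
    simp only [one_mul, lintegral_const] at h8
    rw [← h8]
    exact h2c
  have hal : ∀ w, ENNReal.ofReal (al D (dual ρ) k w) = kap D (dual ρ) k w Set.univ := fun w => by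
    have := X5b_kap_fin D (dual ρ) k w
    unfold al
    rw [ofReal_measureReal]
  have hsplit : ∀ w ∈ D, ex D ρ w * ENNReal.ofReal |∫ x, (g (x / A) - E) ∂(kap D (dual ρ) k w)| ≤
      ENNReal.ofReal (ε / (2 * C)) * (ex D ρ w * kap D (dual ρ) k w Set.univ) +
        ENNReal.ofReal K * (Set.Ioi (δ * A)).indicator (ex D ρ) w := by
    intro w hw
    have hw0 : 0 ≤ w := hD.nonneg hw
    by_cases hwδ : w ≤ δ * A
    · have h9 := h1 w hw0 hwδ
      rw [← hGw] at h9
      refine le_trans ?_ (le_add_of_nonneg_right zero_le)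
      calc ex D ρ w * ENNReal.ofReal |∫ x, (g (x / A) - E) ∂(kap D (dual ρ) k w)|
          ≤ ex D ρ w * ENNReal.ofReal (ε / (2 * C) * al D (dual ρ) k w) := by gcongr
        _ = _ := by
          rw [ENNReal.ofReal_mul (by positivity), hal]
          ring
    · have hwm : w ∈ Set.Ioi (δ * A) := not_le.mp hwδ
      rw [Set.indicator_of_mem hwm]
      refine le_trans ?_ (le_add_of_nonneg_left zero_le)
      rw [mul_comm]
      refine mul_le_mul' (ENNReal.ofReal_le_ofReal ?_) le_rfl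
      have := X5b_kap_fin D (dual ρ) k w
      have h10 : ‖∫ x, (g (x / A) - E) ∂(kap D (dual ρ) k w)‖ ≤ K * (kap D (dual ρ) k w).real Set.univ :=
        norm_integral_le_of_norm_le_const (Eventually.of_forall fun y => by rw [Real.norm_eq_abs]; exact hψK y)
      have h11 : (kap D (dual ρ) k w).real Set.univ ≤ 1 := by
        have := X5b_kap_le D (dual ρ) k w
        exact ENNReal.toReal_le_of_le_ofReal zero_le_one (by simpa using this)
      rw [Real.norm_eq_abs] at h10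
      nlinarith
  calc ∫⁻ w in D, ex D ρ w * ENNReal.ofReal |∫ x, (g (x / A) - E) ∂(kap D (dual ρ) k w)| ∂(lam h (c + k * b))
      ≤ ∫⁻ w in D, (ENNReal.ofReal (ε / (2 * C)) * (ex D ρ w * kap D (dual ρ) k w Set.univ) +
        ENNReal.ofReal K * (Set.Ioi (δ * A)).indicator (ex D ρ) w) ∂(lam h (c + k * b)) :=
        setLIntegral_mono' hDm hsplit
    _ = ENNReal.ofReal (ε / (2 * C)) * (∫⁻ w in D, ex D ρ w * kap D (dual ρ) k w Set.univ ∂(lam h (c + k * b))) +
        ENNReal.ofReal K * ∫⁻ w in D ∩ Set.Ioi (δ * A), ex D ρ w ∂(lam h (c + k * b)) := by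
        have hm1 : Measurable fun w => ex D ρ w * kap D (dual ρ) k w Set.univ := by
          refine (measurable_ex hD).mul ?_
          have := measurable_lintegral_kap (D := D) (ρ := dual ρ) hD k (fun _ => 1) measurable_const
          simpa using this
        rw [lintegral_add_left (hm1.const_mul _), lintegral_const_mul _ hm1,
          lintegral_const_mul _ ((measurable_ex hD).indicator measurableSet_Ioi)]
        congr 2
        rw [lintegral_indicator measurableSet_Ioi, Measure.restrict_restrict measurableSet_Ioi, Set.inter_comm]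
    _ ≤ ENNReal.ofReal (ε / (2 * C)) * ENNReal.ofReal (C * q) + ENNReal.ofReal K * ENNReal.ofReal (ε / (2 * K) * q) := by
        gcongr
        exact h3 _
    _ = ENNReal.ofReal (ε * q) := by
        rw [← ENNReal.ofReal_mul (by positivity), ← ENNReal.ofReal_mul (by positivity), ← ENNReal.ofReal_add (by positivity) (by positivity)]
        congr 1
        field_simp
        ring

end Pool.Agent.BPT
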