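import Pool.Agent.MP_99a865_pr.ST.X5a

/-! **[STB-X5c]** Lower bound on the relevant coset. -/

open MeasureTheory ProbabilityTheory Filter Topology
open scoped ENNReal NNReal

namespace Pool.Agent.BPT

variable {α : ℝ} {ζ ρ : Measure ℝ} {a : ℕ → ℝ} {D : Set ℝ}

theorem X5c_al_mono [IsProbabilityMeasure ρ] (hD : Dom D) (n : ℕ) {x y : ℝ} (hxy : x ≤ y) :
    kap D ρ n x Set.univ ≤ kap D ρ n y Set.univ := by
  have h := kap_shift_le hD (ρ := ρ) n x (y - x) (sub_nonneg.mpr hxy) Set.univ Set.univ MeasurableSet.univ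
    MeasurableSet.univ (fun _ _ => trivial)
  rw [add_sub_cancel] at h
  exact h

/-- a point of the coset from which the walk can leave, bounded below -/
theorem X5c_point (hD : Dom D) [IsProbabilityMeasure ρ] {b h : ℝ} (hh : 0 < h) (hstep : ∀ᵐ x ∂ρ, Cos h b x) :
    ∃ p : ℝ≥0∞, 0 < p ∧ ∀ n : ℕ, 2 ≤ n → 0 < hit D ρ n 0 → ∃ w₀ ∈ D, 0 ≤ w₀ ∧ p ≤ ex D ρ w₀ ∧
      ENNReal.ofReal h ≤ lam h (((n : ℝ) - 1) * b) {w₀} := by
  obtain ⟨p, hp, hclaim⟩ := D2d_claim (D := D) hD hh hstep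
  refine ⟨p, hp, fun n hn hhit => ?_⟩
  set b' : ℝ := ((n : ℝ) - 1) * b with hb
  have hcast : ((n - 1 : ℕ) : ℝ) = (n : ℝ) - 1 := by
    rw [Nat.cast_sub (by omega)]
    simp
  have hw : ∃ w, w ∈ D ∧ Cos h b' w ∧ ex D ρ w ≠ 0 := by
    by_contra hcon
    push Not at hcon
    have h1 := hit_succ (ρ := ρ) hD (n - 1) 0
    rw [show n - 1 + 1 = n by omega] at h1
    have h2 : ∫⁻ w, ex D ρ w ∂(kap D ρ (n - 1) 0) = 0 := by
      have h3 : (fun w => ex D ρ w) =ᵐ[kap D ρ (n - 1) 0] fun _ => 0 := by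
        have h4 := ae_kap hD b h hstep (n - 1) 0
        have h5 : ∀ᵐ w ∂(kap D ρ (n - 1) 0), w ∈ D := by
          rw [ae_iff]
          exact kap_compl hD (n - 1) 0 (Or.inl (by omega))
        filter_upwards [h4, h5] with w h6 h7
        rw [zero_add, hcast] at h6
        exact hcon w h7 h6
      rw [lintegral_congr_ae h3, lintegral_zero]
    rw [h2] at h1
    have h3 := ENNReal.ofReal_eq_zero.1 h1
    linarith
  obtain ⟨w, hwD, hwC, hwex⟩ := hw
  obtain ⟨j, hj⟩ := hwC hh.ne'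
  obtain ⟨j₀, hj₀, hmin⟩ := Int.exists_least_of_bdd (P := fun i : ℤ => b' + h * i ∈ D)
    ⟨⌊-b' / h⌋, fun z hz => by
      have h1 := hD.nonneg hz
      have h2 : -b' / h ≤ z := by
        rw [div_le_iff₀ hh]
        linarith
      have h3 : ((⌊-b' / h⌋ : ℤ) : ℝ) ≤ z := le_trans (Int.floor_le _) h2
      exact_mod_cast h3⟩ ⟨j, by simpa [← hj] using hwD⟩
  have hjj : j₀ ≤ j := hmin j (by simpa [← hj] using hwD)
  have hle : b' + h * j₀ ≤ w := by
    rw [hj]
    have : (j₀ : ℝ) ≤ j := by exact_mod_cast hjj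
    nlinarith
  have hleh : b' + h * j₀ ≤ h := by
    have h1 : ¬ (b' + h * ((j₀ - 1 : ℤ) : ℝ) ∈ D) := fun hcon => by
      have := hmin (j₀ - 1) hcon
      omega
    have h2 := hD.not_mem h1
    push_cast at h2
    linarith
  have hex0 : ex D ρ (b' + h * j₀) ≠ 0 := by
    intro h1
    apply hwex
    have h2 := ex_anti (ρ := ρ) hD hle
    rw [h1] at h2
    exact le_antisymm h2 bot_le
  have hp0 : p ≤ ex D ρ (b' + h * j₀) := hclaim _ hleh hex0 (hD.nonneg hj₀)
  have hlam : ENNReal.ofReal h ≤ lam h b' {b' + h * (j₀ : ℝ)} := by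
    unfold lam
    rw [if_neg hh.ne', Measure.smul_apply, smul_eq_mul,
      Measure.sum_apply _ (measurableSet_singleton _)]
    calc ENNReal.ofReal h = ENNReal.ofReal h * 1 := (mul_one _).symm
      _ ≤ _ := by
        apply mul_le_mul_right
        refine le_trans ?_ (ENNReal.le_tsum j₀)
        rw [Measure.dirac_apply' _ (measurableSet_singleton _)]
        simp
  exact ⟨b' + h * j₀, hj₀, hD.nonneg hj₀, hp0, hlam⟩

/-- **[STB-X5d]** Lower bound. PROOF. As `le_BB` (FV/D2d): if `hit D ρ n 0 > 0`, `n ≥ 2`, there is a point `w* ∈ D` of the coset of `(n-1) b` with `ex w* > 0`; let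
`w₀` be the smallest point of `D` in this coset (`0 ≤ w₀ ≤ h`, `h > 0`), `ex w₀ ≥ ex w*` `> 0`, so `ex w₀ ≥ p > 0` with `p` independent of `n` (`D2d_claim`). By
`hit_duality` (`c + (l-1) b = (n - 1) b` for `c = (n - l) b`) `bl D ρ h c a l 1 = ∫_{w∈D} ex(w) al D (dual ρ) (l-1) w ∂(lam h ((n-1) b)) ≥ h p al D (dual ρ) (l-1) 0
≥ h p c₁ V'(0)/V'(a_n) ≥ c a_n/n` (`DA.le_al` for the dual walk, time `n ≥ l - 1`; `X5_V`). -/
theorem X5_low (hda : DA α ζ ρ a) (hD : Dom D) {b h : ℝ} (hh : 0 < h) (hstep : ∀ᵐ x ∂ρ, Cos h b x)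
    (hfin : ∫⁻ y, ENNReal.ofReal y ∂(ladS D ρ) ≠ ⊤) : ∃ c > (0 : ℝ), ∀ᶠ n : ℕ in atTop, 0 < hit D ρ n 0 →
      ∀ l : ℕ, 2 ≤ l → l ≤ n → c * (a n / n) ≤ bl D ρ h (((n : ℝ) - l) * b) (a n) l (fun _ => 1) := by
  have hprob := hda.prob
  have hdual := hda.dual
  have hprob' := hdual.prob
  obtain ⟨p, hp, hpt⟩ := X5c_point hD hh hstep
  obtain ⟨p', hp', hpp⟩ := D2d_real hp
  obtain ⟨c₁, hc₁, hal⟩ := hdual.le_al hD
  obtain ⟨C, hC, hV⟩ := X5_V hda hD hfin
  obtain ⟨C₂, hC₂, htl⟩ := X1_tail (ρ := ρ) hda hD hh.le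
  obtain ⟨R, hR, htl'⟩ := htl 1 one_pos
  refine ⟨p' * h * (c₁ / C), by positivity, ?_⟩
  filter_upwards [hal, hV, htl', eventually_ge_atTop 2] with n h1 h2 h3 hn hhit l hl hln
  have ha := hda.pos n
  have hn0 : (0 : ℝ) < n := by
    have : 0 < n := by omega
    exact_mod_cast this
  obtain ⟨w₀, hw₀D, hw₀, hpw, hlam⟩ := hpt n hn hhit
  -- the integral
  have hbl : bl D ρ h (((n : ℝ) - l) * b) (a n) l (fun _ => 1) =
      (∫⁻ y in D, ENNReal.ofReal (hit D ρ l y) ∂(lam h (((n : ℝ) - l) * b))).toReal := by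
    unfold bl
    simp only [one_mul]
    exact integral_eq_lintegral_of_nonneg_ae (Eventually.of_forall fun y => hit_nonneg l y)
      (measurable_hit hD l).aestronglyMeasurable
  obtain ⟨k, rfl⟩ : ∃ k, l = k + 1 := ⟨l - 1, by omega⟩
  have hdu : ∫⁻ y in D, ENNReal.ofReal (hit D ρ (k + 1) y) ∂(lam h (((n : ℝ) - (k + 1 : ℕ)) * b)) =
      ∫⁻ w in D, ex D ρ w * kap D (dual ρ) k w Set.univ ∂(lam h (((n : ℝ) - 1) * b)) := by
    have h4 := hit_duality hD hh.le hstep (((n : ℝ) - (k + 1 : ℕ)) * b) k (fun _ => 1) measurable_const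
    have h5 : ((n : ℝ) - (k + 1 : ℕ)) * b + k * b = ((n : ℝ) - 1) * b := by
      push_cast
      ring
    rw [h5] at h4
    simp only [one_mul, lintegral_one] at h4
    exact h4
  -- finite
  have hfinite : ∫⁻ w in D, ex D ρ w * kap D (dual ρ) k w Set.univ ∂(lam h (((n : ℝ) - 1) * b)) ≠ ⊤ := by
    have h4 : ∫⁻ w in D, ex D ρ w * kap D (dual ρ) k w Set.univ ∂(lam h (((n : ℝ) - 1) * b)) ≤
        ∫⁻ w in Set.Icc 0 (a n) ∪ Set.Ioi (a n), ex D ρ w ∂(lam h (((n : ℝ) - 1) * b)) := by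
      refine (lintegral_mono fun w => ?_).trans (lintegral_mono_set ?_)
      · calc ex D ρ w * kap D (dual ρ) k w Set.univ ≤ ex D ρ w * 1 := mul_le_mul_right (kap_univ_le_one k w) _
          _ = ex D ρ w := mul_one _
      · intro w hw
        have h5 := hD.nonneg hw
        rcases le_or_gt w (a n) with h6 | h6
        · exact Or.inl ⟨h5, h6⟩
        · exact Or.inr h6
    refine ne_top_of_le_ne_top ?_ (h4.trans (lintegral_union_le _ _ _))
    apply ENNReal.add_ne_top.2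
    constructor
    · have h5 : ∫⁻ w in Set.Icc 0 (a n), ex D ρ w ∂(lam h (((n : ℝ) - 1) * b)) ≤
          ∫⁻ w in Set.Icc 0 (a n), 1 ∂(lam h (((n : ℝ) - 1) * b)) := lintegral_mono fun w => by
        unfold ex
        exact prob_le_one
      refine ne_top_of_le_ne_top ?_ h5
      rw [setLIntegral_one]
      exact ne_top_of_le_ne_top ENNReal.ofReal_ne_top (lam_Icc_le h _ 0 (a n) hh.le ha.le)
    · exact ne_top_of_le_ne_top ENNReal.ofReal_ne_top (h3 (((n : ℝ) - 1) * b)).1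
  -- the lower bound
  have hlow : ENNReal.ofReal (p' * h * (c₁ / C) * (a n / n)) ≤
      ∫⁻ w in D, ex D ρ w * kap D (dual ρ) k w Set.univ ∂(lam h (((n : ℝ) - 1) * b)) := by
    have h5 : ENNReal.ofReal (c₁ / C * (a n / n)) ≤ kap D (dual ρ) k w₀ Set.univ := by
      have h6 : kap D (dual ρ) n 0 Set.univ ≤ kap D (dual ρ) k w₀ Set.univ :=
        (surv_anti hD 0 (by omega)).trans (X5c_al_mono hD k hw₀)
      refine le_trans ?_ h6
      have h7 := h1 0 le_rfl ha.le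
      have h8 : al D (dual ρ) n 0 = (kap D (dual ρ) n 0 Set.univ).toReal := rfl
      have h9 : kap D (dual ρ) n 0 Set.univ ≠ ⊤ := ne_top_of_le_ne_top ENNReal.one_ne_top (kap_univ_le_one n 0)
      rw [h8] at h7
      rw [ENNReal.ofReal_le_iff_le_toReal h9]
      refine le_trans ?_ h7
      obtain ⟨-, hv1, -⟩ := vr_facts hD hdual.cen
      have hv0 := hv1 0
      have hva := hv1 (a n)
      have hva0 : 0 < vr D (dual ρ) (a n) := by linarith
      have h10 : a n / n ≤ C / vr D (dual ρ) (a n) := h2.1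
      calc c₁ / C * (a n / n) ≤ c₁ / C * (C / vr D (dual ρ) (a n)) := by gcongr
        _ = c₁ * (1 / vr D (dual ρ) (a n)) := by field_simp
        _ ≤ c₁ * (vr D (dual ρ) 0 / vr D (dual ρ) (a n)) := by gcongr
    calc ENNReal.ofReal (p' * h * (c₁ / C) * (a n / n)) =
          ENNReal.ofReal p' * ENNReal.ofReal (c₁ / C * (a n / n)) * ENNReal.ofReal h := by
          rw [← ENNReal.ofReal_mul hp'.le, ← ENNReal.ofReal_mul (by positivity)]
          congr 1
          ring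
      _ ≤ (ex D ρ w₀ * kap D (dual ρ) k w₀ Set.univ) * lam h (((n : ℝ) - 1) * b) {w₀} :=
          mul_le_mul' (mul_le_mul' (hpp.trans hpw) h5) hlam
      _ = ∫⁻ w in {w₀}, ex D ρ w * kap D (dual ρ) k w Set.univ ∂(lam h (((n : ℝ) - 1) * b)) := by
          rw [lintegral_singleton]
      _ ≤ _ := by
          apply lintegral_mono_set
          intro z hz
          rw [Set.mem_singleton_iff] at hz
          rw [hz]
          exact hw₀D
  rw [hbl, hdu]
  exact (ENNReal.ofReal_le_iff_le_toReal hfinite).1 hlow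

end Pool.Agent.BPT
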