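import Pool.Agent.MP_99a865_pr.ST.X4b
import Pool.Agent.MP_99a865_pr.ST.X5b
import Pool.Agent.MP_99a865_pr.ST.X5c

/-! **[STB-X6]** The exit measure on the coset which is relevant given `N = n`. -/

open MeasureTheory ProbabilityTheory Filter Topology
open scoped ENNReal NNReal

namespace Pool.Agent.BPT

variable {α : ℝ} {ζ ρ : Measure ℝ} {a : ℕ → ℝ} {D : Set ℝ}

theorem X6_meas {M : ℝ} {g : ℝ → ℝ} (hg : BZ M g) : Measurable g := by
  classical
  have h1 : g = (Set.Ioi (0 : ℝ)).piecewise g (fun _ => 0) := by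
    funext x
    by_cases hx : x ∈ Set.Ioi (0 : ℝ)
    · rw [Set.piecewise_eq_of_mem _ _ _ hx]
    · rw [Set.piecewise_eq_of_notMem _ _ _ hx]
      exact hg.zero x (not_lt.1 hx)
  rw [h1]
  exact ContinuousOn.measurable_piecewise hg.bco.cont continuousOn_const measurableSet_Ioi

theorem X6_bd {M : ℝ} {g : ℝ → ℝ} (hg : BZ M g) (x : ℝ) : |g x| ≤ |M| := by
  rcases le_or_gt x 0 with hx | hx
  · rw [hg.zero x hx, abs_zero]
    exact abs_nonneg _
  · exact (hg.bco.bd x hx).trans (le_abs_self M)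

theorem X6_mass (hda : DA α ζ ρ a) (hD : Dom D) {b h c₀ : ℝ} (hh : 0 ≤ h) (hstep : ∀ᵐ x ∂ρ, Cos h b x) (hc : 0 < c₀) :
    ∃ C > (0 : ℝ), ∀ᶠ n : ℕ in atTop, ∀ l : ℕ, c₀ * n ≤ l → l ≤ n → ∀ c : ℝ,
      Integrable (hit D ρ l) ((lam h c).restrict D) ∧ ∫ y in D, hit D ρ l y ∂(lam h c) ≤ C * (a n / n) := by
  have hprob := hda.prob
  obtain ⟨C, hC, hX⟩ := X1_mass hda hD hh hstep hc
  refine ⟨C, hC, ?_⟩
  filter_upwards [hX] with n hn l hl1 hl2 c
  have h1 := hn l hl1 hl2 c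
  have h0 : 0 ≤ᵐ[(lam h c).restrict D] hit D ρ l := Eventually.of_forall fun y => hit_nonneg l y
  have h2 : Integrable (hit D ρ l) ((lam h c).restrict D) :=
    ⟨(measurable_hit hD l).aestronglyMeasurable, by
      rw [hasFiniteIntegral_iff_ofReal h0]
      exact h1.trans_lt ENNReal.ofReal_lt_top⟩
  refine ⟨h2, ?_⟩
  rw [integral_eq_lintegral_of_nonneg_ae h0 (measurable_hit hD l).aestronglyMeasurable]
  have ha := hda.pos n
  calc (∫⁻ y in D, ENNReal.ofReal (hit D ρ l y) ∂(lam h c)).toReal ≤ (ENNReal.ofReal (C * (a n / n))).toReal :=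
        ENNReal.toReal_mono ENNReal.ofReal_ne_top h1
    _ = C * (a n / n) := ENNReal.toReal_ofReal (by positivity)

theorem X6_int {h c s : ℝ} {l : ℕ} {g : ℝ → ℝ} {M : ℝ} (hg : Measurable g) (hM : ∀ x, |g x| ≤ M)
    (hi : Integrable (hit D ρ l) ((lam h c).restrict D)) :
    Integrable (fun y => g (y / s) * hit D ρ l y) ((lam h c).restrict D) := by
  apply hi.bdd_mul (c := M) (hg.comp (measurable_id.div_const s)).aestronglyMeasurable
  exact Eventually.of_forall fun y => hM _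

/-- the tails of the exit measure -/
theorem X6_tail (hda : DA α ζ ρ a) (hD : Dom D) {b h c₀ : ℝ} (hh : 0 ≤ h) (hstep : ∀ᵐ x ∂ρ, Cos h b x) (hc : 0 < c₀)
    {ε : ℝ} (hε : 0 < ε) : ∃ δ > (0 : ℝ), δ < 1 ∧ ∀ᶠ n : ℕ in atTop, ∀ l : ℕ, c₀ * n ≤ l → l ≤ n → 1 ≤ l → ∀ c : ℝ,
      ∀ g : ℝ → ℝ, (∀ x, |g x| ≤ 1) → (∀ y, δ ≤ y → y ≤ 1 / δ → g y = 0) → |bl D ρ h c (a n) l g| ≤ ε * (a n / n) := by
  have hprob := hda.prob
  obtain ⟨R, hR, hfar⟩ := X1_far hda hD hh hstep (ε / 2) (half_pos hε)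
  obtain ⟨δ₁, hδ₁, hnear⟩ := X1_near (ρ := ρ) hda hD hh hc (ε / 2) (half_pos hε)
  refine ⟨min (1 / 2) (min δ₁ (1 / (R + 1))), by positivity, lt_of_le_of_lt (min_le_left _ _) (by norm_num), ?_⟩
  set δ : ℝ := min (1 / 2) (min δ₁ (1 / (R + 1))) with hδ
  have hδ0 : 0 < δ := by positivity
  have hd1 : δ ≤ δ₁ := (min_le_right _ _).trans (min_le_left _ _)
  have hd2 : R ≤ 1 / δ := by
    have h1 : δ ≤ 1 / (R + 1) := (min_le_right _ _).trans (min_le_right _ _)
    rw [le_div_iff₀ hδ0]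
    calc R * δ ≤ R * (1 / (R + 1)) := by gcongr
      _ ≤ 1 := by rw [mul_one_div, div_le_one (by linarith)]; linarith
  filter_upwards [hfar, hnear] with n h1 h2 l hl1 hl2 hl3 c g hg hg0
  have ha := hda.pos n
  have hpt : ∀ y, ‖g (y / a n) * hit D ρ l y‖ₑ ≤
      (Set.Ioi (R * a n)).indicator (fun y => ENNReal.ofReal (hit D ρ l y)) y +
        (Set.Iic (δ₁ * a n)).indicator (fun y => ENNReal.ofReal (hit D ρ l y)) y := by
    intro y
    have hle : ‖g (y / a n) * hit D ρ l y‖ₑ ≤ ENNReal.ofReal (hit D ρ l y) := by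
      rw [Real.enorm_eq_ofReal_abs, abs_mul, abs_of_nonneg (hit_nonneg l y)]
      apply ENNReal.ofReal_le_ofReal
      have := mul_le_mul_of_nonneg_right (hg (y / a n)) (hit_nonneg (D := D) (ρ := ρ) l y)
      rw [one_mul] at this
      exact this
    by_cases hy1 : y ∈ Set.Ioi (R * a n)
    · rw [Set.indicator_of_mem hy1]
      exact hle.trans le_self_add
    · by_cases hy2 : y ∈ Set.Iic (δ₁ * a n)
      · rw [Set.indicator_of_mem hy2]
        exact hle.trans le_add_self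
      · have hz : g (y / a n) = 0 := by
          apply hg0
          · rw [le_div_iff₀ ha]
            have h3 : δ₁ * a n < y := not_le.1 hy2
            have h4 : δ * a n ≤ δ₁ * a n := mul_le_mul_of_nonneg_right hd1 ha.le
            linarith
          · rw [div_le_iff₀ ha]
            have h3 : y ≤ R * a n := not_lt.1 hy1
            have h4 : R * a n ≤ 1 / δ * a n := mul_le_mul_of_nonneg_right hd2 ha.le
            linarith
        rw [hz, zero_mul, enorm_zero]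
        exact bot_le
  have hhm : Measurable fun y => ENNReal.ofReal (hit D ρ l y) := (measurable_hit hD l).ennreal_ofReal
  have h3 : ‖bl D ρ h c (a n) l g‖ₑ ≤ ENNReal.ofReal (ε * (a n / n)) := by
    calc ‖bl D ρ h c (a n) l g‖ₑ ≤ ∫⁻ y in D, ‖g (y / a n) * hit D ρ l y‖ₑ ∂(lam h c) := enorm_integral_le_lintegral_enorm _
      _ ≤ ∫⁻ y in D, ((Set.Ioi (R * a n)).indicator (fun y => ENNReal.ofReal (hit D ρ l y)) y +
        (Set.Iic (δ₁ * a n)).indicator (fun y => ENNReal.ofReal (hit D ρ l y)) y) ∂(lam h c) := lintegral_mono hpt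
      _ = ∫⁻ y in D ∩ Set.Ioi (R * a n), ENNReal.ofReal (hit D ρ l y) ∂(lam h c) +
          ∫⁻ y in D ∩ Set.Iic (δ₁ * a n), ENNReal.ofReal (hit D ρ l y) ∂(lam h c) := by
          rw [lintegral_add_left (hhm.indicator measurableSet_Ioi), lintegral_indicator measurableSet_Ioi,
            lintegral_indicator measurableSet_Iic, Measure.restrict_restrict measurableSet_Ioi,
            Measure.restrict_restrict measurableSet_Iic, Set.inter_comm (Set.Ioi _), Set.inter_comm (Set.Iic _)]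
      _ ≤ ENNReal.ofReal (ε / 2 * (a n / n)) + ENNReal.ofReal (ε / 2 * (a n / n)) := by
          gcongr
          · exact h1 l hl3 hl2 c
          · exact h2 l hl1 c
      _ = ENNReal.ofReal (ε * (a n / n)) := by
          rw [← ENNReal.ofReal_add (by positivity) (by positivity)]
          congr 1
          ring
  rw [Real.enorm_eq_ofReal_abs] at h3
  exact (ENNReal.ofReal_le_ofReal_iff (by positivity)).1 h3

theorem X6_ev {n l : ℕ → ℕ} {r : ℝ} (hr : 0 < r) (hr1 : r < 1) (hT : Tm n l r) :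
    ∀ᶠ j in atTop, r / 2 * (n j : ℝ) ≤ l j ∧ l j ≤ n j ∧ 2 ≤ l j ∧ 1 ≤ n j := by
  have e1 : ∀ᶠ j in atTop, r / 2 < (l j : ℝ) / n j := hT.lim.eventually (lt_mem_nhds (by linarith))
  have e2 : ∀ᶠ j in atTop, (l j : ℝ) / n j < 1 := hT.lim.eventually (gt_mem_nhds hr1)
  have e3 : ∀ᶠ j in atTop, ⌈4 / r⌉₊ + 1 ≤ n j := hT.top.eventually_ge_atTop _
  filter_upwards [e1, e2, e3] with j h1 h2 h3
  have hn0 : 0 < n j := by omega
  have hn : (0 : ℝ) < n j := by exact_mod_cast hn0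
  rw [lt_div_iff₀ hn] at h1
  rw [div_lt_one hn] at h2
  refine ⟨h1.le, by exact_mod_cast h2.le, ?_, hn0⟩
  have h4 : 4 / r ≤ n j := by
    have h5 := Nat.le_ceil (4 / r)
    have h6 : ((⌈4 / r⌉₊ + 1 : ℕ) : ℝ) ≤ n j := by exact_mod_cast h3
    push_cast at h6
    linarith
  rw [div_le_iff₀ hr] at h4
  have h5 : (2 : ℝ) ≤ l j := by nlinarith
  exact_mod_cast h5

theorem X6_smul {h c s : ℝ} {l : ℕ} (g : ℝ → ℝ) (q : ℝ) :
    bl D ρ h c s l (fun y => q * g y) = q * bl D ρ h c s l g := by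
  unfold bl
  rw [← integral_const_mul]
  congr 1
  funext y
  ring

/-- the case of an infinite mean -/
theorem X6_inf (hda : DA α ζ ρ a) (hD : Dom D) {b h : ℝ} (hh : 0 < h) (hstep : ∀ᵐ x ∂ρ, Cos h b x)
    (hinf : ∫⁻ y, ENNReal.ofReal y ∂(ladS D ρ) = ⊤) {n l : ℕ → ℕ} {r : ℝ} (hr : 0 < r) (hr1 : r < 1) (hT : Tm n l r)
    (c : ℕ → ℝ) {M : ℝ} {g : ℝ → ℝ} (hg : BZ M g) :
    Tendsto (fun j => (n j : ℝ) / a (n j) * bl D ρ h (c j) (a (n j)) (l j) g) atTop (𝓝 (bet α ζ r g)) := by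
  rw [Metric.tendsto_nhds]
  intro ε hε
  set M' : ℝ := |M| + 1 with hM'
  have hM'0 : 0 < M' := by positivity
  have hgM : ∀ x, |g x| ≤ M' := fun x => (X6_bd hg x).trans (by rw [hM']; linarith)
  have hgm := X6_meas hg
  obtain ⟨δ₀, hδ₀, hδ₀1, htail⟩ := X6_tail (ρ := ρ) hda hD hh.le hstep (show 0 < r / 2 by linarith)
    (show 0 < ε / (8 * M') by positivity)
  obtain ⟨δ₂, hδ₂, hδ₂1, hbt⟩ := bet_tail (ρ := ρ) hda hr hr1 (ε / (8 * M')) (by positivity)
  set δ : ℝ := min δ₀ δ₂ with hδ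
  have hδ0 : 0 < δ := lt_min hδ₀ hδ₂
  have hδ1 : δ < 1 := lt_of_le_of_lt (min_le_left _ _) hδ₀1
  obtain ⟨k1, k2, k3, k4, k5⟩ := cut_facts hδ0 hδ1
  have kk1 : ∀ x, |cut δ x| ≤ 1 := fun x => abs_le.2 ⟨by linarith [(k2 x).1], (k2 x).2⟩
  have kk2 : ∀ x, |1 - cut δ x| ≤ 1 := fun x => abs_le.2 ⟨by linarith [(k2 x).2], by linarith [(k2 x).1]⟩
  set g1 : ℝ → ℝ := fun y => g y * cut δ y with hg1
  set g2 : ℝ → ℝ := fun y => g y * (1 - cut δ y) / M' with hg2
  have hsum : g = fun y => g1 y + M' * g2 y := by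
    funext y
    simp only [hg1, hg2]
    field_simp
    ring
  have hb1 : BCo M' g1 := by
    refine ⟨fun x _ => ?_, hg.bco.cont.mul k1.continuousOn⟩
    simp only [hg1, abs_mul]
    calc |g x| * |cut δ x| ≤ M' * 1 := mul_le_mul (hgM x) (kk1 x) (abs_nonneg _) hM'0.le
      _ = M' := mul_one _
  have hb2 : BCo 1 g2 := by
    refine ⟨fun x _ => ?_, (hg.bco.cont.mul (continuousOn_const.sub k1.continuousOn)).div_const _⟩
    simp only [hg2, abs_div, abs_mul, abs_of_pos hM'0]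
    rw [div_le_one hM'0]
    calc |g x| * |1 - cut δ x| ≤ M' * 1 := mul_le_mul (hgM x) (kk2 x) (abs_nonneg _) hM'0.le
      _ = M' := mul_one _
  have hb2' : ∀ x, |g2 x| ≤ 1 := by
    intro x
    simp only [hg2, abs_div, abs_mul, abs_of_pos hM'0]
    rw [div_le_one hM'0]
    calc |g x| * |1 - cut δ x| ≤ M' * 1 := mul_le_mul (hgM x) (kk2 x) (abs_nonneg _) hM'0.le
      _ = M' := mul_one _
  have hb3 : BCo M' (fun y => M' * g2 y) := by
    refine ⟨fun x _ => ?_, continuousOn_const.mul hb2.cont⟩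
    rw [abs_mul, abs_of_pos hM'0]
    calc M' * |g2 x| ≤ M' * 1 := mul_le_mul_of_nonneg_left (hb2' x) hM'0.le
      _ = M' := mul_one _
  have hz2 : ∀ y, δ ≤ y → y ≤ 1 / δ → g2 y = 0 := by
    intro y h1 h2
    simp only [hg2]
    rw [k3 y h1 h2]
    simp
  have hz0 : ∀ δ' : ℝ, 0 < δ' → δ ≤ δ' → ∀ y, δ' ≤ y → y ≤ 1 / δ' → g2 y = 0 := by
    intro δ' h0 h1 y h2 h3
    apply hz2 y (h1.trans h2)
    refine h3.trans ?_
    exact one_div_le_one_div_of_le hδ0 h1
  have hCS : CS (δ / 2) g1 := by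
    refine ⟨by linarith, ?_, fun x hx => ?_⟩
    · rw [continuous_iff_continuousAt]
      intro x
      rcases lt_or_ge 0 x with hx | hx
      · exact (hg.bco.cont.continuousAt (Ioi_mem_nhds hx)).mul k1.continuousAt
      · have h1 : g1 =ᶠ[𝓝 x] fun _ => (0 : ℝ) := by
          have h2 : Set.Iio (δ / 2) ∈ 𝓝 x := Iio_mem_nhds (by linarith)
          filter_upwards [h2] with y hy
          simp only [hg1]
          rw [k4 y (le_of_lt hy), mul_zero]
        exact continuousAt_const.congr h1.symm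
    · simp only [hg1]
      rcases hx with hx | hx
      · rw [k4 x hx, mul_zero]
      · rw [k5 x (by
          have e : 1 / (δ / 2) = 2 / δ := by field_simp
          rw [← e]
          exact hx), mul_zero]
  have hbet : bet α ζ r g = bet α ζ r g1 + M' * bet α ζ r g2 := by
    conv_lhs => rw [hsum]
    rw [bet_add hda hr hr1 hb1 hb3, bet_smul hda hr hr1 hb2 M']
  have hbet2 : |bet α ζ r g2| ≤ ε / (8 * M') := hbt g2 hb2 (hz0 δ₂ hδ₂ (min_le_right _ _))
  obtain ⟨C, hC, hmass⟩ := X6_mass (ρ := ρ) hda hD hh.le hstep (show 0 < r / 2 by linarith)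
  have hcos := X4_coset hda hD hh hstep (show 0 < r / 2 by linarith) hinf hCS (ε / 8) (by positivity)
  have hlim := (Metric.tendsto_nhds.1 (X2_lim hda hD hCS hr hr1 hT).1) (ε / 8) (by positivity)
  filter_upwards [X6_ev hr hr1 hT, hT.top.eventually htail, hT.top.eventually hmass, hT.top.eventually hcos, hlim] with
    j hj h1 h2 h3 h4
  obtain ⟨hj1, hj2, hj3, hj4⟩ := hj
  have ha := hda.pos (n j)
  have hn : (0 : ℝ) < n j := by exact_mod_cast hj4
  have hna : 0 < (n j : ℝ) / a (n j) := by positivity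
  obtain ⟨hi, -⟩ := h2 (l j) hj1 hj2 (c j)
  have hg1m : Measurable g1 := hgm.mul k1.measurable
  have hg2m : Measurable g2 := (hgm.mul (measurable_const.sub k1.measurable)).div_const _
  have hadd : bl D ρ h (c j) (a (n j)) (l j) g = bl D ρ h (c j) (a (n j)) (l j) g1 + M' * bl D ρ h (c j) (a (n j)) (l j) g2 := by
    rw [← X6_smul]
    unfold bl
    rw [← integral_add (X6_int (M := M') hg1m (fun x => by
      simp only [hg1, abs_mul]
      calc |g x| * |cut δ x| ≤ M' * 1 := mul_le_mul (hgM x) (kk1 x) (abs_nonneg _) hM'0.le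
        _ = M' := mul_one _) hi) (X6_int (M := M') (g := fun y => M' * g2 y) (measurable_const.mul hg2m) (fun x => by
      rw [abs_mul, abs_of_pos hM'0]
      calc M' * |g2 x| ≤ M' * 1 := mul_le_mul_of_nonneg_left (hb2' x) hM'0.le
        _ = M' := mul_one _) hi)]
    congr 1
    funext y
    rw [← add_mul]
    congr 1
    exact congrFun hsum (y / a (n j))
  have m1 := h1 (l j) hj1 hj2 (by omega) (c j) g2 hb2' (hz0 δ₀ hδ₀ (min_le_left _ _))
  have m2 := h3 (l j) hj1 hj2 (c j)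
  rw [Real.dist_eq] at h4 ⊢
  rw [hadd, hbet]
  have q1 : |(n j : ℝ) / a (n j) * (bl D ρ h (c j) (a (n j)) (l j) g1 - bl D ρ 0 0 (a (n j)) (l j) g1)| ≤ ε / 8 := by
    rw [abs_mul, abs_of_pos hna]
    calc (n j : ℝ) / a (n j) * |bl D ρ h (c j) (a (n j)) (l j) g1 - bl D ρ 0 0 (a (n j)) (l j) g1|
        ≤ (n j : ℝ) / a (n j) * (ε / 8 * (a (n j) / n j)) := mul_le_mul_of_nonneg_left m2 hna.le
      _ = ε / 8 := by field_simp
  have q2 : |(n j : ℝ) / a (n j) * (M' * bl D ρ h (c j) (a (n j)) (l j) g2)| ≤ ε / 8 := by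
    rw [abs_mul, abs_of_pos hna, abs_mul, abs_of_pos hM'0]
    calc (n j : ℝ) / a (n j) * (M' * |bl D ρ h (c j) (a (n j)) (l j) g2|)
        ≤ (n j : ℝ) / a (n j) * (M' * (ε / (8 * M') * (a (n j) / n j))) := by gcongr
      _ = ε / 8 := by field_simp
  have q3 : |M' * bet α ζ r g2| ≤ ε / 8 := by
    rw [abs_mul, abs_of_pos hM'0]
    calc M' * |bet α ζ r g2| ≤ M' * (ε / (8 * M')) := mul_le_mul_of_nonneg_left hbet2 hM'0.le
      _ = ε / 8 := by field_simp
  have e1 : (n j : ℝ) / a (n j) * (bl D ρ h (c j) (a (n j)) (l j) g1 + M' * bl D ρ h (c j) (a (n j)) (l j) g2) -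
      (bet α ζ r g1 + M' * bet α ζ r g2) =
      (n j : ℝ) / a (n j) * (bl D ρ h (c j) (a (n j)) (l j) g1 - bl D ρ 0 0 (a (n j)) (l j) g1) +
        ((n j : ℝ) / a (n j) * bl D ρ 0 0 (a (n j)) (l j) g1 - bet α ζ r g1) +
        (n j : ℝ) / a (n j) * (M' * bl D ρ h (c j) (a (n j)) (l j) g2) - M' * bet α ζ r g2 := by ring
  rw [e1]
  rw [abs_le] at q1 q2 q3
  rw [abs_lt] at h4 ⊢
  constructor <;> linarith

/-- the constant function: Lebesgue measure -/
theorem X6_one (hD : Dom D) (s : ℝ) (hs : 0 < s) (l : ℕ) :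
    bl D ρ 0 0 s l (fun _ => 1) = bl D ρ 0 0 s l ((Set.Ioi (0 : ℝ)).indicator fun _ => 1) := by
  unfold bl
  apply integral_congr_ae
  have h0 : ∀ᵐ y ∂((lam 0 0).restrict D), y ≠ 0 := by
    apply ae_restrict_of_ae
    rw [lam_zero]
    exact Measure.ae_ne volume 0
  filter_upwards [h0, ae_restrict_mem hD.meas] with y hy hyD
  have hy0 : 0 < y := by
    rcases hD with rfl | rfl
    · exact lt_of_le_of_ne hyD (Ne.symm hy)
    · exact hyD
  rw [Set.indicator_of_mem (show y / s ∈ Set.Ioi (0 : ℝ) from div_pos hy0 hs)]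

theorem X6_bz1 : BZ 1 ((Set.Ioi (0 : ℝ)).indicator fun _ => (1 : ℝ)) := by
  refine ⟨⟨fun x hx => ?_, ?_⟩, fun x hx => ?_⟩
  · rw [Set.indicator_of_mem (show x ∈ Set.Ioi (0 : ℝ) from hx), abs_one]
  · exact continuousOn_const.congr fun x hx => Set.indicator_of_mem hx _
  · exact Set.indicator_of_notMem (not_lt.2 hx) _

theorem X6_bet1 (α : ℝ) (ζ : Measure ℝ) (r : ℝ) :
    bet α ζ r ((Set.Ioi (0 : ℝ)).indicator fun _ => (1 : ℝ)) = bet α ζ r (fun _ => 1) := by
  unfold bet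
  congr 1
  funext η
  congr 1
  apply setIntegral_congr_fun measurableSet_Ioi
  intro y hy
  simp only []
  rw [Set.indicator_of_mem hy]

/-- the case of a finite mean -/
theorem X6_fin (hda : DA α ζ ρ a) (hD : Dom D) {b h : ℝ} (hh : 0 < h) (hstep : ∀ᵐ x ∂ρ, Cos h b x)
    (hfin : ∫⁻ y, ENNReal.ofReal y ∂(ladS D ρ) ≠ ⊤) {n l : ℕ → ℕ} {r : ℝ} (hr : 0 < r) (hr1 : r < 1) (hT : Tm n l r)
    (hhit : ∀ j, 0 < hit D ρ (n j) 0) :
    ∃ κ : ℕ → ℝ, (∃ c > (0 : ℝ), ∃ C : ℝ, ∀ᶠ j in atTop, c ≤ κ j ∧ κ j ≤ C) ∧ ∀ (M : ℝ) (g : ℝ → ℝ), BZ M g →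
      Tendsto (fun j => (n j : ℝ) / a (n j) * bl D ρ h (((n j : ℝ) - l j) * b) (a (n j)) (l j) g / κ j) atTop
        (𝓝 (bet α ζ r g)) := by
  have hprob := hda.prob
  have hstep0 : ∀ᵐ x ∂ρ, Cos 0 0 x := Eventually.of_forall fun x h => absurd rfl h
  obtain ⟨c₁, hc₁, hlow⟩ := X5_low hda hD hh hstep hfin
  obtain ⟨C, hC, hmass⟩ := X6_mass (ρ := ρ) hda hD hh.le hstep (show 0 < r / 2 by linarith)
  set u : ℕ → ℝ := fun j => (n j : ℝ) / a (n j) * bl D ρ h (((n j : ℝ) - l j) * b) (a (n j)) (l j) (fun _ => 1) with hu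
  set v : ℕ → ℝ := fun j => (n j : ℝ) / a (n j) * bl D ρ 0 0 (a (n j)) (l j) (fun _ => 1) with hv
  have hβ := bet_pos (ρ := ρ) hda hr hr1
  set β : ℝ := bet α ζ r (fun _ => 1) with hβd
  have hvl : Tendsto v atTop (𝓝 β) := by
    have h1 := X3_lim hda hD X6_bz1 hr hr1 hT
    rw [X6_bet1] at h1
    refine h1.congr fun j => ?_
    simp only [hv]
    rw [X6_one hD _ (hda.pos _)]
  have hub : ∀ᶠ j in atTop, c₁ ≤ u j ∧ u j ≤ C := by
    filter_upwards [X6_ev hr hr1 hT, hT.top.eventually hlow, hT.top.eventually hmass] with j hj h1 h2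
    obtain ⟨hj1, hj2, hj3, hj4⟩ := hj
    have ha := hda.pos (n j)
    have hn : (0 : ℝ) < n j := by exact_mod_cast hj4
    have hna : 0 < (n j : ℝ) / a (n j) := by positivity
    have m1 := h1 (hhit j) (l j) hj3 hj2
    have m2 := (h2 (l j) hj1 hj2 (((n j : ℝ) - l j) * b)).2
    have m3 : bl D ρ h (((n j : ℝ) - l j) * b) (a (n j)) (l j) (fun _ => 1) =
        ∫ y in D, hit D ρ (l j) y ∂(lam h (((n j : ℝ) - l j) * b)) := by
      unfold bl
      simp only [one_mul]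
    constructor
    · calc c₁ = (n j : ℝ) / a (n j) * (c₁ * (a (n j) / n j)) := by field_simp
        _ ≤ u j := mul_le_mul_of_nonneg_left m1 hna.le
    · calc u j ≤ (n j : ℝ) / a (n j) * (C * (a (n j) / n j)) := by
            simp only [hu]
            rw [m3]
            exact mul_le_mul_of_nonneg_left m2 hna.le
        _ = C := by field_simp
  have hvb : ∀ᶠ j in atTop, β / 2 < v j ∧ v j < 2 * β :=
    (hvl.eventually (lt_mem_nhds (by linarith))).and (hvl.eventually (gt_mem_nhds (by linarith)))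
  refine ⟨fun j => u j / v j, ⟨c₁ / (2 * β), by positivity, C / (β / 2), ?_⟩, fun M g hg => ?_⟩
  · filter_upwards [hub, hvb] with j h1 h2
    have hv0 : 0 < v j := by linarith
    constructor
    · exact div_le_div₀ (by linarith) h1.1 hv0 h2.2.le
    · exact div_le_div₀ hC.le h1.2 (by linarith) h2.1.le
  · set E : ℝ := EA α (dual ζ) r g with hE
    set w : ℕ → ℝ := fun j => (n j : ℝ) / a (n j) * bl D ρ h (((n j : ℝ) - l j) * b) (a (n j)) (l j) g with hw
    set z : ℕ → ℝ := fun j => (n j : ℝ) / a (n j) * bl D ρ 0 0 (a (n j)) (l j) g with hz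
    have hzl : Tendsto z atTop (𝓝 (bet α ζ r g)) := X3_lim hda hD hg hr hr1 hT
    have he : Tendsto (fun j => w j - E * u j) atTop (𝓝 0) := by
      rw [Metric.tendsto_nhds]
      intro ε hε
      filter_upwards [X5_ratio hda hD hh.le hstep hfin hg hr hr1 hT (ε / 2) (half_pos hε), X6_ev hr hr1 hT] with j h1 hj
      have ha := hda.pos (n j)
      have hn : (0 : ℝ) < n j := by exact_mod_cast hj.2.2.2
      have hna : 0 < (n j : ℝ) / a (n j) := by positivity
      rw [Real.dist_eq, sub_zero]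
      have e1 : w j - E * u j = (n j : ℝ) / a (n j) * (bl D ρ h (((n j : ℝ) - l j) * b) (a (n j)) (l j) g -
          E * bl D ρ h (((n j : ℝ) - l j) * b) (a (n j)) (l j) (fun _ => 1)) := by
        simp only [hw, hu]
        ring
      rw [e1, abs_mul, abs_of_pos hna]
      calc _ ≤ (n j : ℝ) / a (n j) * (ε / 2 * (a (n j) / n j)) :=
            mul_le_mul_of_nonneg_left (h1 _) hna.le
        _ = ε / 2 := by field_simp
        _ < ε := by linarith
    have hf : Tendsto (fun j => z j - E * v j) atTop (𝓝 0) := by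
      rw [Metric.tendsto_nhds]
      intro ε hε
      filter_upwards [X5_ratio hda hD le_rfl hstep0 hfin hg hr hr1 hT (ε / 2) (half_pos hε), X6_ev hr hr1 hT] with j h1 hj
      have ha := hda.pos (n j)
      have hn : (0 : ℝ) < n j := by exact_mod_cast hj.2.2.2
      have hna : 0 < (n j : ℝ) / a (n j) := by positivity
      rw [Real.dist_eq, sub_zero]
      have e1 : z j - E * v j = (n j : ℝ) / a (n j) * (bl D ρ 0 0 (a (n j)) (l j) g -
          E * bl D ρ 0 0 (a (n j)) (l j) (fun _ => 1)) := by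
        simp only [hz, hv]
        ring
      rw [e1, abs_mul, abs_of_pos hna]
      calc _ ≤ (n j : ℝ) / a (n j) * (ε / 2 * (a (n j) / n j)) :=
            mul_le_mul_of_nonneg_left (h1 0) hna.le
        _ = ε / 2 := by field_simp
        _ < ε := by linarith
    -- the quotient `v / u` is bounded
    have hq : Tendsto (fun j => (w j - E * u j) * (v j / u j)) atTop (𝓝 0) := by
      have hbdd : ∀ᶠ j in atTop, |v j / u j| ≤ 2 * β / c₁ := by
        filter_upwards [hub, hvb] with j h1 h2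
        have hu0 : 0 < u j := by linarith [h1.1]
        have hv0 : 0 < v j := by linarith [h2.1]
        rw [abs_of_pos (by positivity)]
        exact div_le_div₀ (by positivity) h2.2.le hc₁ h1.1
      apply squeeze_zero_norm' (a := fun j => |w j - E * u j| * (2 * β / c₁))
      · filter_upwards [hbdd] with j h1
        rw [Real.norm_eq_abs, abs_mul]
        exact mul_le_mul_of_nonneg_left h1 (abs_nonneg _)
      · have h1 := (he.abs).mul_const (2 * β / c₁)
        rw [abs_zero, zero_mul] at h1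
        exact h1
    have hfinal := (hzl.sub hf).add hq
    rw [sub_zero, add_zero] at hfinal
    refine hfinal.congr' ?_
    filter_upwards [hub, hvb] with j h1 h2
    have hu0 : 0 < u j := by linarith [h1.1]
    have hv0 : 0 < v j := by linarith [h2.1]
    change z j - (z j - E * v j) + (w j - E * u j) * (v j / u j) = w j / (u j / v j)
    field_simp
    ring

/-- **[STB-X6]** PROOF. Three cases. (A) `h = 0`: `lam 0 _ = volume`, `κ = 1`, `X3_lim`. (B) `h > 0` and `∫ y ∂(ladS D ρ) = ⊤`: `κ = 1`; for `CS` functions `X4_coset` and `X2_lim`; for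
general `g` write `g = g cut δ + g (1 - cut δ)` with tails from `X1_far`, `X1_near` and `bet_tail`. (C) `h > 0`, finite mean:
`κ j = bl D ρ h ((n-l)b) a l 1 / bl D ρ 0 0 a l 1` (`1` means the constant function; on `D` the point `0` has small mass); by `X5_low`, `X1_mass`, `bet_pos` it is eventually between two positive
constants; by `X5_ratio` (twice, also with `h = 0`) and `X3_lim`: `(n/a) bl .. g / κ = (n/a) bl_0 1 (EA .. g + o(1)) = (n/a) bl_0 g + o(1) → bet r g`. -/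
theorem exit_lim (hda : DA α ζ ρ a) (hD : Dom D) {b h : ℝ} (hh : 0 ≤ h) (hstep : ∀ᵐ x ∂ρ, Cos h b x)
    {n l : ℕ → ℕ} {r : ℝ} (hr : 0 < r) (hr1 : r < 1) (hT : Tm n l r) (hhit : ∀ j, 0 < hit D ρ (n j) 0) :
    ∃ κ : ℕ → ℝ, (∃ c > (0 : ℝ), ∃ C : ℝ, ∀ᶠ j in atTop, c ≤ κ j ∧ κ j ≤ C) ∧ ∀ (M : ℝ) (g : ℝ → ℝ), BZ M g →
      Tendsto (fun j => (n j : ℝ) / a (n j) * bl D ρ h (((n j : ℝ) - l j) * b) (a (n j)) (l j) g / κ j) atTop
        (𝓝 (bet α ζ r g)) := by
  rcases eq_or_lt_of_le hh with h0 | hpos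
  · subst h0
    refine ⟨fun _ => 1, ⟨1, one_pos, 1, Eventually.of_forall fun _ => ⟨le_rfl, le_rfl⟩⟩, fun M g hg => ?_⟩
    refine (X3_lim hda hD hg hr hr1 hT).congr fun j => ?_
    rw [div_one]
    unfold bl
    rw [lam_zero, lam_zero]
  · by_cases hinf : ∫⁻ y, ENNReal.ofReal y ∂(ladS D ρ) = ⊤
    · refine ⟨fun _ => 1, ⟨1, one_pos, 1, Eventually.of_forall fun _ => ⟨le_rfl, le_rfl⟩⟩, fun M g hg => ?_⟩
      simp only [div_one]
      exact X6_inf hda hD hpos hstep hinf hr hr1 hT _ hg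
    · exact X6_fin hda hD hpos hstep hinf hr hr1 hT hhit

end Pool.Agent.BPT
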