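import Pool.Agent.MP_99a865_pr.FV.D2a
import Pool.Agent.MP_99a865_pr.FV.D2l
import Pool.Agent.MP_99a865_pr.ST.X1b

/-! **[STB-X7a]** The random intervals `JJ D l ω`: reversal, expected length, probability of being nonempty. -/

open MeasureTheory ProbabilityTheory Filter Topology
open scoped ENNReal NNReal

namespace Pool.Agent.BPT

variable {α : ℝ} {ζ ρ : Measure ℝ} {a : ℕ → ℝ} {D : Set ℝ}

/-- **[STB-X7a]** PROOF. Time reversal `D2l_R` (`D2l_map`, `D2l_S`, `D2l_alive` with `L = 0`): if `mx l ω < -S l ω` then the reversed sequence, which has law `seqLaw (dual ρ)`, keeps the walk started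
at `0` alive in `Ici 0` up to `l`, and its end point is `-S l ω`. -/
theorem X7_rev [IsProbabilityMeasure ρ] (l : ℕ) (B : Set ℝ) (hB : MeasurableSet B) :
    (seqLaw ρ).real {ω | mx l ω < -S l ω ∧ -S l ω ∈ B} ≤ (kap (Set.Ici 0) (dual ρ) l 0).real B := by
  have hDm : Dom (Set.Ici (0 : ℝ)) := Or.inl rfl
  have hp' : IsProbabilityMeasure (dual ρ) := prob_dual
  have hm : Measurable fun ω : ℕ → ℝ => 0 + S l ω := measurable_const.add (measurable_S l)
  rw [measureReal_def, measureReal_def]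
  refine ENNReal.toReal_mono (measure_ne_top _ _) ?_
  unfold kap
  rw [Measure.map_apply hm hB, Measure.restrict_apply (hm hB), ← D2l_map l,
    Measure.map_apply (D2l_meas l) ((hm hB).inter (measurableSet_alive hDm 0 l))]
  refine measure_mono fun ω hω => ⟨?_, D2l_alive le_rfl (by linarith [hω.1])⟩
  change 0 + S l (D2l_R l ω) ∈ B
  rw [D2l_S l ω l le_rfl, Nat.sub_self]
  have h0 : S 0 ω = 0 := by simp [S]
  rw [h0, zero_add, zero_sub]
  exact hω.2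

theorem X7a_vol (hD : Dom D) (l : ℕ) (ω : ℕ → ℝ) : ENNReal.ofReal (-S l ω - mx l ω) ≤ volume (JJ D l ω) := by
  rcases hD with rfl | rfl
  · have h1 : Set.Ico (mx l ω) (-S l ω) ⊆ JJ (Set.Ici 0) l ω := by
      intro y hy
      constructor
      · rw [Set.mem_Ici]
        linarith [hy.1]
      · rw [Set.mem_Ici, not_le]
        linarith [hy.2]
    refine le_trans ?_ (measure_mono h1)
    rw [Real.volume_Ico]
  · have h1 : Set.Ioc (mx l ω) (-S l ω) ⊆ JJ (Set.Ioi 0) l ω := by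
      intro y hy
      constructor
      · rw [Set.mem_Ioi]
        linarith [hy.1]
      · rw [Set.mem_Ioi, not_lt]
        linarith [hy.2]
    refine le_trans ?_ (measure_mono h1)
    rw [Real.volume_Ioc]

/-- **[STB-X7b]** Expected length (`lintegral_JJ` with `h = 0`, `g = 1`; `volume (JJ) = -S l ω - mx l ω` if positive; `X1_mass`) -/
theorem X7_len (hda : DA α ζ ρ a) (hD : Dom D) {c₀ : ℝ} (hc : 0 < c₀) : ∃ C > (0 : ℝ), ∀ᶠ n : ℕ in atTop, ∀ l : ℕ,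
    c₀ * n ≤ l → l ≤ n → ∫⁻ ω in {ω | mx l ω < -S l ω}, ENNReal.ofReal (-S l ω - mx l ω) ∂(seqLaw ρ) ≤
      ENNReal.ofReal (C * (a n / n)) := by
  have hprob := hda.prob
  have hstep0 : ∀ᵐ x ∂ρ, Cos 0 0 x := Eventually.of_forall fun x h => absurd rfl h
  obtain ⟨C, hC, hX⟩ := X1_mass hda hD le_rfl hstep0 hc
  refine ⟨C, hC, ?_⟩
  filter_upwards [hX, eventually_ge_atTop 1] with n hn hn1 l hl1 hl2
  have hn0 : (0 : ℝ) < n := by exact_mod_cast hn1
  have hl : 1 ≤ l := by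
    have h1 : (0 : ℝ) < l := lt_of_lt_of_le (by positivity) hl1
    exact_mod_cast h1
  have h1 := lintegral_JJ (ρ := ρ) hD hl 0 0 (fun _ => 1) measurable_const
  simp only [one_mul, setLIntegral_one] at h1
  calc ∫⁻ ω in {ω | mx l ω < -S l ω}, ENNReal.ofReal (-S l ω - mx l ω) ∂(seqLaw ρ)
      ≤ ∫⁻ ω, ENNReal.ofReal (-S l ω - mx l ω) ∂(seqLaw ρ) := setLIntegral_le_lintegral _ _
    _ ≤ ∫⁻ ω, lam 0 0 (JJ D l ω) ∂(seqLaw ρ) := by
        rw [lam_zero]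
        exact lintegral_mono fun ω => X7a_vol hD l ω
    _ = ∫⁻ y in D, ENNReal.ofReal (hit D ρ l y) ∂(lam 0 0) := h1
    _ ≤ _ := hn l hl1 hl2 0

/-- **[STB-X7c]** PROOF. `X7_rev` with `B = univ`: `≤ al (Ici 0) (dual ρ) l 0 ≤ C V'(0)/V'(a_l)` (`DA.al_le` for the dual walk, `V' = vr (Ici 0) (dual ρ)`), `V'(a_l) ≥ c V'(a_n)`
(`DA.ratio`-type comparison for `l ≥ c₀ n` — by contradiction with sequences, or `al` at time `⌊c₀ n⌋` — and `vr_mul`), and
`1/V'(a_n) ≤ C V(a_n)/n ≤ C' a_n/n` (`DA.vv`, `DA.vd_comp`, `V(a_n) ≤ 2 a_n V(1)`). -/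
theorem X7_prob (hda : DA α ζ ρ a) {c₀ : ℝ} (hc : 0 < c₀) : ∃ C > (0 : ℝ), ∀ᶠ n : ℕ in atTop, ∀ l : ℕ,
    c₀ * n ≤ l → l ≤ n → (seqLaw ρ).real {ω | mx l ω < -S l ω} ≤ C * (a n / n) := by
  have hprob := hda.prob
  have hdual := hda.dual
  have hprob' := hdual.prob
  have hDm : Dom (Set.Ici (0 : ℝ)) := Or.inl rfl
  obtain ⟨C₀, hC₀, hal⟩ := hdual.al_le hDm
  obtain ⟨C₁, hC₁, hvv⟩ := hda.vv hDm
  obtain ⟨C₂, hC₂, hvd⟩ := hda.vd_comp hDm
  obtain ⟨-, hv1, hvm⟩ := vr_facts hDm hdual.cen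
  obtain ⟨-, hw1, -⟩ := vr_facts hDm hda.cen
  set V' : ℝ → ℝ := vr (Set.Ici 0) (dual ρ) with hV'
  set V : ℝ → ℝ := vr (Set.Ici 0) ρ with hV
  -- the ratio
  have hTm : Tm (fun n : ℕ => n) (fun n : ℕ => ⌊c₀ * n⌋₊) c₀ :=
    ⟨tendsto_id, (tendsto_nat_floor_mul_div_atTop hc.le).comp tendsto_natCast_atTop_atTop⟩
  have hrat := hda.ratio hTm hc
  set q : ℝ := c₀ ^ (1 / α) with hq
  have hq0 : 0 < q := Real.rpow_pos_of_pos hc _
  set q' : ℝ := min (q / 2) 1 with hq'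
  have hq'0 : 0 < q' := by positivity
  have hq'1 : q' ≤ 1 := min_le_right _ _
  have hev : ∀ᶠ n : ℕ in atTop, q' * a n ≤ a ⌊c₀ * n⌋₊ := by
    have h1 : ∀ᶠ n : ℕ in atTop, q / 2 < a ⌊c₀ * n⌋₊ / a n := hrat.eventually (lt_mem_nhds (by linarith))
    filter_upwards [h1] with n h1
    have ha := hda.pos n
    rw [lt_div_iff₀ ha] at h1
    have h2 : q' * a n ≤ q / 2 * a n := mul_le_mul_of_nonneg_right (min_le_left _ _) ha.le
    linarith
  have hmtop : Tendsto (fun n : ℕ => ⌊c₀ * n⌋₊) atTop atTop :=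
    tendsto_nat_floor_atTop.comp ((tendsto_natCast_atTop_atTop (R := ℝ)).const_mul_atTop hc)
  refine ⟨C₀ * V' 0 * (2 * (1 / q')) * (2 * C₁ * C₂ * V 1), ?_, ?_⟩
  · have := hv1 0
    have := hw1 1
    have h3 : 0 < V' 0 := by linarith
    have h4 : 0 < V 1 := by linarith
    positivity
  filter_upwards [hev, hmtop.eventually hal, hvv, hda.top.eventually_ge_atTop 1, eventually_ge_atTop 1] with
    n h1 h2 h3 h4 hn1 l hl1 hl2
  have ha := hda.pos n
  have hn0 : (0 : ℝ) < n := by exact_mod_cast hn1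
  have hV'0 : 0 < V' 0 := by linarith [hv1 0]
  have hV'a : 0 < V' (a n) := by linarith [hv1 (a n)]
  have hV1 : 0 < V 1 := by linarith [hw1 1]
  have hml : ⌊c₀ * n⌋₊ ≤ l := by
    have h5 := Nat.floor_le (show 0 ≤ c₀ * (n : ℝ) by positivity)
    exact_mod_cast h5.trans hl1
  have e1 : (seqLaw ρ).real {ω | mx l ω < -S l ω} ≤ al (Set.Ici 0) (dual ρ) l 0 := by
    have h5 := X7_rev (ρ := ρ) l Set.univ MeasurableSet.univ
    simp only [Set.mem_univ, and_true] at h5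
    exact h5
  have e2 : al (Set.Ici 0) (dual ρ) l 0 ≤ al (Set.Ici 0) (dual ρ) ⌊c₀ * n⌋₊ 0 := by
    unfold al
    exact ENNReal.toReal_mono (ne_top_of_le_ne_top ENNReal.one_ne_top (kap_univ_le_one _ _))
      (surv_anti hDm 0 hml)
  have e3 := h2 0 le_rfl
  -- `V' (a n) ≤ 2 / q' V' (a m)`
  have e4 : V' (a n) ≤ 2 * (1 / q') * V' (a ⌊c₀ * n⌋₊) := by
    have h5 : 1 ≤ 1 / q' := by rw [le_div_iff₀ hq'0]; linarith
    have h6 := vr_mul hDm hdual.cen (q' * a n) (1 / q') (by positivity) h5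
    have h7 : 1 / q' * (q' * a n) = a n := by field_simp
    rw [h7] at h6
    refine h6.trans ?_
    gcongr
    exact hvm h1
  have e5 : 1 / V' (a ⌊c₀ * n⌋₊) ≤ 2 * (1 / q') * (1 / V' (a n)) := by
    have h5 : 0 < V' (a ⌊c₀ * n⌋₊) := by linarith [hv1 (a ⌊c₀ * n⌋₊)]
    rw [mul_one_div, div_le_div_iff₀ h5 hV'a, one_mul]
    exact e4
  have e6 : 1 / V' (a n) ≤ 2 * C₁ * C₂ * V 1 * (a n / n) := by
    have h5 := vr_mul hDm hda.cen 1 (a n) zero_le_one h4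
    rw [mul_one] at h5
    have h6 := (hvd (a n) ha.le).2
    have h7 : (n : ℝ) ≤ C₁ * ((2 * a n * V 1) * (C₂ * V' (a n))) := by
      refine h3.1.trans ?_
      have h8 : 0 ≤ vd (Set.Ici 0) ρ (a n) := by
        have h9 := (hvd (a n) ha.le).1
        by_contra hcon
        push Not at hcon
        have : C₂ * vd (Set.Ici 0) ρ (a n) < 0 := mul_neg_of_pos_of_neg hC₂ hcon
        linarith
      gcongr
    rw [div_le_iff₀ hV'a]
    calc (1 : ℝ) = n / n := (div_self hn0.ne').symm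
      _ ≤ (C₁ * ((2 * a n * V 1) * (C₂ * V' (a n)))) / n := by gcongr
      _ = 2 * C₁ * C₂ * V 1 * (a n / n) * V' (a n) := by ring
  calc (seqLaw ρ).real {ω | mx l ω < -S l ω} ≤ C₀ * (V' 0 / V' (a ⌊c₀ * n⌋₊)) := e1.trans (e2.trans e3)
    _ = C₀ * V' 0 * (1 / V' (a ⌊c₀ * n⌋₊)) := by ring
    _ ≤ C₀ * V' 0 * (2 * (1 / q') * (1 / V' (a n))) := by gcongr
    _ ≤ C₀ * V' 0 * (2 * (1 / q') * (2 * C₁ * C₂ * V 1 * (a n / n))) := by gcongr
    _ = _ := by ring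

end Pool.Agent.BPT
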