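import Pool.Agent.MP_99a865_pr.ST.X7a

/-! **[STB-X7b]** Intervals near zero and far away. -/

open MeasureTheory ProbabilityTheory Filter Topology
open scoped ENNReal NNReal

namespace Pool.Agent.BPT

variable {α : ℝ} {ζ ρ : Measure ℝ} {a : ℕ → ℝ} {D : Set ℝ}

theorem X7b_dom : Dom (Set.Ici (0 : ℝ)) := Or.inl rfl

/-- `1/V'(a_n) ≤ C a_n/n` -/
theorem X7b_inv (hda : DA α ζ ρ a) : ∃ C > (0 : ℝ), ∀ᶠ n : ℕ in atTop,
    1 / vr (Set.Ici 0) (dual ρ) (a n) ≤ C * (a n / n) := by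
  obtain ⟨C₁, hC₁, h1⟩ := hda.vv X7b_dom
  obtain ⟨C₂, hC₂, h2⟩ := hda.vd_comp X7b_dom
  obtain ⟨-, hge, -⟩ := vr_facts X7b_dom hda.cen
  obtain ⟨-, hge', -⟩ := vr_facts X7b_dom hda.dual.cen
  have hV1 : 1 ≤ vr (Set.Ici 0) ρ 1 := hge 1
  refine ⟨C₁ * (2 * vr (Set.Ici 0) ρ 1 * C₂), by positivity, ?_⟩
  filter_upwards [h1, hda.top.eventually_ge_atTop 1, eventually_ge_atTop 1] with n h3 h4 h5
  have hn : (0 : ℝ) < n := by exact_mod_cast h5
  have ha : 0 < a n := by linarith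
  have hW : 1 ≤ vr (Set.Ici 0) (dual ρ) (a n) := hge' (a n)
  have h6 := vr_mul X7b_dom hda.cen 1 (a n) (by norm_num) h4
  rw [mul_one] at h6
  have h7 := (h2 (a n) ha.le).2
  have h8 : vr (Set.Ici 0) ρ (a n) * vd (Set.Ici 0) ρ (a n) ≤
      (2 * a n * vr (Set.Ici 0) ρ 1) * (C₂ * vr (Set.Ici 0) (dual ρ) (a n)) := by
    refine mul_le_mul h6 h7 ?_ (by positivity)
    have h9 := (h2 (a n) ha.le).1
    have : 0 < C₂ * vd (Set.Ici 0) ρ (a n) := by linarith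
    exact (pos_of_mul_pos_right this hC₂.le).le
  have h9 : (n : ℝ) ≤ C₁ * ((2 * a n * vr (Set.Ici 0) ρ 1) * (C₂ * vr (Set.Ici 0) (dual ρ) (a n))) :=
    h3.1.trans (mul_le_mul_of_nonneg_left h8 hC₁.le)
  rw [div_le_iff₀ (by linarith)]
  have h10 : C₁ * (2 * vr (Set.Ici 0) ρ 1 * C₂) * (a n / n) * vr (Set.Ici 0) (dual ρ) (a n) =
      (C₁ * ((2 * a n * vr (Set.Ici 0) ρ 1) * (C₂ * vr (Set.Ici 0) (dual ρ) (a n)))) / n := by
    ring
  rw [h10, le_div_iff₀ hn, one_mul]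
  exact h9

/-- **[STB-X7d]** Intervals near zero: PROOF. If `mx l ω < δ a_n`, `mx l ω < -S l ω`, then either `-S l ω ≤ 2δ a_n`: probability `≤ (kap (Ici 0) (dual ρ) l 0).real (Iic (2δ a_n)) ≤ ε V'(0)/V'(a_n)`
(`X7_rev`, `DA.near` for the dual walk), and `1/V'(a_n) ≤ C a_n/n` as in `X7_prob`; or `-S l ω - mx l ω > δ a_n`: probability `≤ C (a_n/n)/(δ a_n) = C/(δ n)` (`X7_len`, Markov), which is `≤ ε a_n/n` for
`n` large as `a_n → ∞`. -/
theorem X7_near (hda : DA α ζ ρ a) {c₀ : ℝ} (hc : 0 < c₀) : ∀ ε > (0 : ℝ), ∃ δ > (0 : ℝ), ∀ᶠ n : ℕ in atTop, ∀ l : ℕ,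
    c₀ * n ≤ l → l ≤ n → (seqLaw ρ).real {ω | mx l ω < -S l ω ∧ mx l ω < δ * a n} ≤ ε * (a n / n) := by
  intro ε hε
  have := hda.prob
  have hP : IsProbabilityMeasure (seqLaw ρ) := by
    unfold seqLaw
    infer_instance
  obtain ⟨C₁, hC₁, h1⟩ := X7b_inv hda
  obtain ⟨C₂, hC₂, h2⟩ := X7_len hda X7b_dom hc
  obtain ⟨-, hge', -⟩ := vr_facts X7b_dom hda.dual.cen
  have hV0 : 1 ≤ vr (Set.Ici 0) (dual ρ) 0 := hge' 0
  obtain ⟨δ, hδ, h3⟩ := hda.dual.near X7b_dom hc (ε / 2 / (vr (Set.Ici 0) (dual ρ) 0 * C₁)) (by positivity)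
  refine ⟨δ / 2, by positivity, ?_⟩
  filter_upwards [h1, h2, h3, hda.top.eventually_ge_atTop (4 * C₂ / (ε * δ)), eventually_ge_atTop 1]
    with n h4 h5 h6 h7 h8 l hl hln
  have hn : (0 : ℝ) < n := by exact_mod_cast h8
  have ha : 0 < a n := hda.pos n
  have hsub : {ω : ℕ → ℝ | mx l ω < -S l ω ∧ mx l ω < δ / 2 * a n} ⊆
      {ω | mx l ω < -S l ω ∧ -S l ω ∈ Set.Iic (δ * a n)} ∪
      {ω | mx l ω < -S l ω ∧ δ / 2 * a n ≤ -S l ω - mx l ω} := by
    rintro ω ⟨h9, h10⟩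
    rcases le_or_gt (-S l ω) (δ * a n) with h11 | h11
    · exact Or.inl ⟨h9, h11⟩
    · exact Or.inr ⟨h9, by linarith⟩
  have hA : (seqLaw ρ).real {ω | mx l ω < -S l ω ∧ -S l ω ∈ Set.Iic (δ * a n)} ≤ ε / 2 * (a n / n) := by
    refine (X7_rev l _ measurableSet_Iic).trans ((h6 l hl 0 le_rfl).trans ?_)
    have h9 : ε / 2 / (vr (Set.Ici 0) (dual ρ) 0 * C₁) * (vr (Set.Ici 0) (dual ρ) 0 / vr (Set.Ici 0) (dual ρ) (a n)) =
        ε / 2 / C₁ * (1 / vr (Set.Ici 0) (dual ρ) (a n)) := by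
      field_simp
    rw [h9]
    calc ε / 2 / C₁ * (1 / vr (Set.Ici 0) (dual ρ) (a n)) ≤ ε / 2 / C₁ * (C₁ * (a n / n)) :=
          mul_le_mul_of_nonneg_left h4 (by positivity)
      _ = ε / 2 * (a n / n) := by field_simp
  have hms : MeasurableSet {ω : ℕ → ℝ | mx l ω < -S l ω} :=
    measurableSet_lt (measurable_mx l) (measurable_S l).neg
  have hB : (seqLaw ρ).real {ω | mx l ω < -S l ω ∧ δ / 2 * a n ≤ -S l ω - mx l ω} ≤ ε / 2 * (a n / n) := by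
    have h9 : ENNReal.ofReal (δ / 2 * a n) * seqLaw ρ {ω | mx l ω < -S l ω ∧ δ / 2 * a n ≤ -S l ω - mx l ω} ≤
        ENNReal.ofReal (C₂ * (a n / n)) := by
      refine le_trans ?_ (h5 l hl hln)
      rw [← setLIntegral_const]
      have hsub2 : {ω : ℕ → ℝ | mx l ω < -S l ω ∧ δ / 2 * a n ≤ -S l ω - mx l ω} ⊆ {ω | mx l ω < -S l ω} :=
        fun ω h => h.1
      refine le_trans ?_ (lintegral_mono_set hsub2)
      refine setLIntegral_mono' (hms.inter (measurableSet_le measurable_const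
        ((measurable_S l).neg.sub (measurable_mx l)))) ?_
      rintro ω ⟨-, h10⟩
      exact ENNReal.ofReal_le_ofReal h10
    have h10 : δ / 2 * a n * (seqLaw ρ).real {ω | mx l ω < -S l ω ∧ δ / 2 * a n ≤ -S l ω - mx l ω} ≤
        C₂ * (a n / n) := by
      have h11 := ENNReal.toReal_mono ENNReal.ofReal_ne_top h9
      rw [ENNReal.toReal_mul, ENNReal.toReal_ofReal (by positivity),
        ENNReal.toReal_ofReal (by positivity)] at h11
      exact h11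
    have h11 : (seqLaw ρ).real {ω | mx l ω < -S l ω ∧ δ / 2 * a n ≤ -S l ω - mx l ω} ≤
        C₂ * (a n / n) / (δ / 2 * a n) := by
      rw [le_div_iff₀ (by positivity), mul_comm]
      exact h10
    refine h11.trans ?_
    rw [div_le_iff₀ (by positivity)]
    have h12 : 4 * C₂ ≤ a n * (ε * δ) := by
      rw [div_le_iff₀ (by positivity)] at h7
      exact h7
    have h13 : ε / 2 * (a n / n) * (δ / 2 * a n) = (a n * (ε * δ)) / 4 * (a n / n) := by ring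
    rw [h13]
    exact mul_le_mul_of_nonneg_right (by linarith) (by positivity)
  calc (seqLaw ρ).real {ω | mx l ω < -S l ω ∧ mx l ω < δ / 2 * a n}
      ≤ (seqLaw ρ).real ({ω | mx l ω < -S l ω ∧ -S l ω ∈ Set.Iic (δ * a n)} ∪
        {ω | mx l ω < -S l ω ∧ δ / 2 * a n ≤ -S l ω - mx l ω}) := measureReal_mono hsub
    _ ≤ _ := measureReal_union_le _ _
    _ ≤ ε / 2 * (a n / n) + ε / 2 * (a n / n) := add_le_add hA hB
    _ = ε * (a n / n) := by ring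

/-- **[STB-X7e]** Intervals reaching far: `X7_rev` with `B = Ioi (R a_n)`, `DA.tail` for the dual walk with `x = 0`
(`(kap ..)(Ioi (R a_n)) ≤ ∫_{y > R a_n} V'(y)/V'(R a_n) ≤ ε V'(0)/V'(a_n)`, `R ≥ 1`). -/
theorem X7_far (hda : DA α ζ ρ a) : ∀ ε > (0 : ℝ), ∃ R > (0 : ℝ), ∀ᶠ n : ℕ in atTop, ∀ l : ℕ, l ≤ n →
    (seqLaw ρ).real {ω | mx l ω < -S l ω ∧ R * a n < -S l ω} ≤ ε * (a n / n) := by
  intro ε hε
  have := hda.prob
  have := hda.dual.prob
  obtain ⟨C₁, hC₁, h1⟩ := X7b_inv hda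
  obtain ⟨-, hge', hmono⟩ := vr_facts X7b_dom hda.dual.cen
  have hV0 : 1 ≤ vr (Set.Ici 0) (dual ρ) 0 := hge' 0
  obtain ⟨R, hR, h3⟩ := hda.dual.tail X7b_dom (ε / (vr (Set.Ici 0) (dual ρ) 0 * C₁)) (by positivity)
  refine ⟨max R 1, by positivity, ?_⟩
  filter_upwards [h1, h3, eventually_ge_atTop 1] with n h4 h6 h8 l hln
  have hn : (0 : ℝ) < n := by exact_mod_cast h8
  have ha : 0 < a n := hda.pos n
  have hW : 1 ≤ vr (Set.Ici 0) (dual ρ) (a n) := hge' (a n)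
  refine (X7_rev l _ (measurableSet_Ioi (a := max R 1 * a n))).trans ?_
  have h9 : ENNReal.ofReal (vr (Set.Ici 0) (dual ρ) (a n)) *
      (kap (Set.Ici 0) (dual ρ) l 0) (Set.Ioi (max R 1 * a n)) ≤
      ENNReal.ofReal (ε / (vr (Set.Ici 0) (dual ρ) 0 * C₁) * vr (Set.Ici 0) (dual ρ) 0) := by
    refine le_trans ?_ (h6 l hln 0 le_rfl ha.le)
    rw [← setLIntegral_const]
    have hsub : Set.Ioi (max R 1 * a n) ⊆ Set.Ioi (R * a n) := by
      refine Set.Ioi_subset_Ioi ?_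
      exact mul_le_mul_of_nonneg_right (le_max_left _ _) ha.le
    refine le_trans ?_ (lintegral_mono_set hsub)
    refine setLIntegral_mono' measurableSet_Ioi ?_
    intro y hy
    refine ENNReal.ofReal_le_ofReal (hmono ?_)
    have : 1 * a n ≤ max R 1 * a n := mul_le_mul_of_nonneg_right (le_max_right _ _) ha.le
    have h10 : max R 1 * a n < y := hy
    linarith
  have h10 : vr (Set.Ici 0) (dual ρ) (a n) * (kap (Set.Ici 0) (dual ρ) l 0).real (Set.Ioi (max R 1 * a n)) ≤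
      ε / C₁ := by
    have h11 := ENNReal.toReal_mono ENNReal.ofReal_ne_top h9
    rw [ENNReal.toReal_mul, ENNReal.toReal_ofReal (by positivity),
      ENNReal.toReal_ofReal (by positivity)] at h11
    have h12 : ε / (vr (Set.Ici 0) (dual ρ) 0 * C₁) * vr (Set.Ici 0) (dual ρ) 0 = ε / C₁ := by
      field_simp
    rw [h12] at h11
    exact h11
  have h11 : (kap (Set.Ici 0) (dual ρ) l 0).real (Set.Ioi (max R 1 * a n)) ≤
      ε / C₁ * (1 / vr (Set.Ici 0) (dual ρ) (a n)) := by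
    rw [mul_one_div, le_div_iff₀ (by linarith), mul_comm]
    exact h10
  refine h11.trans ?_
  calc ε / C₁ * (1 / vr (Set.Ici 0) (dual ρ) (a n)) ≤ ε / C₁ * (C₁ * (a n / n)) :=
        mul_le_mul_of_nonneg_left h4 (by positivity)
    _ = ε * (a n / n) := by field_simp

end Pool.Agent.BPT
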