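import Pool.Agent.MP_99a865_pr.ST.X7b
import Pool.Agent.MP_99a865_pr.ST.X3c
import Pool.Agent.MP_99a865_pr.ST.L3b

/-! **[STB-X8a]** The killed walk on an interval of any length. -/

open MeasureTheory ProbabilityTheory Filter Topology
open scoped ENNReal NNReal

namespace Pool.Agent.BPT

variable {α : ℝ} {ζ ρ : Measure ℝ} {a : ℕ → ℝ} {D : Set ℝ}

/-- consecutive intervals -/
lemma X8a_IV_union (hD : Dom D) {u v w : ℝ} (huv : u ≤ v) (hvw : v ≤ w) :
    IV D u w = IV D u v ∪ IV D v w ∧ Disjoint (IV D u v) (IV D v w) := by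
  rcases hD with rfl | rfl
  · have h : ∀ u w, IV (Set.Ici (0 : ℝ)) u w = Set.Ico u w := by
      intro u w
      ext y
      simp [IV]
    rw [h, h, h]
    exact ⟨(Set.Ico_union_Ico_eq_Ico huv hvw).symm, Set.Ico_disjoint_Ico_same⟩
  · have h : ∀ u w, IV (Set.Ioi (0 : ℝ)) u w = Set.Ioc u w := by
      intro u w
      ext y
      simp [IV]
    rw [h, h, h]
    refine ⟨(Set.Ioc_union_Ioc_eq_Ioc huv hvw).symm, ?_⟩
    rw [Set.disjoint_left]
    intro y hy hy'
    exact absurd hy.2 (not_le.2 hy'.1)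

/-- an additive interval function which is at most `η` on intervals of length one -/
lemma X8a_sum {Φ : ℝ → ℝ → ℝ} {A B η : ℝ} (hη : 0 ≤ η)
    (hadd : ∀ u v w, A ≤ u → u ≤ v → v ≤ w → w ≤ B → Φ u w = Φ u v + Φ v w)
    (h1 : ∀ u w, A ≤ u → u ≤ w → w ≤ B → w ≤ u + 1 → |Φ u w| ≤ η) {u w : ℝ} (hu : A ≤ u) (huw : u ≤ w)
    (hw : w ≤ B) : |Φ u w| ≤ η * (w - u + 1) := by
  have key : ∀ N : ℕ, ∀ u w, A ≤ u → u ≤ w → w ≤ B → w ≤ u + (N + 1) → |Φ u w| ≤ η * (N + 1) := by
    intro N
    induction N with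
    | zero =>
      intro u w hu huw hw hN
      have := h1 u w hu huw hw (by simpa using hN)
      simpa using this
    | succ N ih =>
      intro u w hu huw hw hN
      by_cases hc : w ≤ u + 1
      · refine (h1 u w hu huw hw hc).trans ?_
        push_cast
        have : (0 : ℝ) ≤ N := Nat.cast_nonneg N
        nlinarith
      · rw [not_le] at hc
        rw [hadd u (u + 1) w hu (by linarith) hc.le hw]
        have e1 := h1 u (u + 1) hu (by linarith) (by linarith) le_rfl
        have e2 := ih (u + 1) w (by linarith) hc.le hw (by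
          push_cast at hN
          linarith)
        push_cast
        calc |Φ u (u + 1) + Φ (u + 1) w| ≤ |Φ u (u + 1)| + |Φ (u + 1) w| := abs_add_le _ _
          _ ≤ η + η * (N + 1) := add_le_add e1 e2
          _ = η * (N + 1 + 1) := by ring
  have h0 : 0 ≤ w - u := by linarith
  have h2 := Nat.floor_le h0
  have h3 := Nat.lt_floor_add_one (w - u)
  refine (key ⌊w - u⌋₊ u w hu huw hw (by linarith)).trans ?_
  exact mul_le_mul_of_nonneg_left (by linarith) hη

/-- modulus of continuity of the density -/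
lemma X8a_mod (hda : DA α ζ ρ a) {t : ℝ} (ht : 0 < t) {ε δ κ : ℝ} (hε : 0 < ε) (hδ : 0 < δ) (hκ : 0 < κ) :
    ∃ d > (0 : ℝ), ∀ x ∈ Set.Icc ε (1 / ε), ∀ y ∈ Set.Icc δ (1 / δ), ∀ y' ∈ Set.Icc δ (1 / δ), |y - y'| < d →
      |qT α ζ t x y - qT α ζ t x y'| < κ := by
  have hK : IsCompact (Set.Icc ε (1 / ε) ×ˢ Set.Icc δ (1 / δ)) := isCompact_Icc.prod isCompact_Icc
  have hsub : Set.Icc ε (1 / ε) ×ˢ Set.Icc δ (1 / δ) ⊆ Set.Ioi (0 : ℝ) ×ˢ Set.Ioi (0 : ℝ) := by
    rintro ⟨x, y⟩ ⟨hx, hy⟩
    exact ⟨lt_of_lt_of_le hε hx.1, lt_of_lt_of_le hδ hy.1⟩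
  have huc := hK.uniformContinuousOn_of_continuous ((qT_cont hda ht).mono hsub)
  rw [Metric.uniformContinuousOn_iff] at huc
  obtain ⟨d, hd, H⟩ := huc κ hκ
  refine ⟨d, hd, ?_⟩
  intro x hx y hy y' hy' hyy
  have := H (x, y) ⟨hx, hy⟩ (x, y') ⟨hx, hy'⟩ (by
    rw [Prod.dist_eq]
    simp only [dist_self]
    rw [max_eq_right dist_nonneg, Real.dist_eq]
    exact hyy)
  rwa [Real.dist_eq] at this

/-- the integrals are finite -/
lemma X8a_int (hda : DA α ζ ρ a) (hD : Dom D) {t h c s x : ℝ} (hh : 0 ≤ h) (ht : 0 < t) (hs : 0 < s) (hx : 0 < x)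
    {u w : ℝ} (hu : 0 < u) (huw : u ≤ w) :
    IntegrableOn (fun y => qT α ζ t x (y / s)) (IV D u w) (lam h c) := by
  have hsub := IV_subset hD u w
  refine IntegrableOn.mono_set ?_ hsub
  have hfin : lam h c (Set.Icc u w) < ∞ :=
    lt_of_le_of_lt (lam_Icc_le h c u w hh huw) ENNReal.ofReal_lt_top
  have hcont : ContinuousOn (fun y => qT α ζ t x (y / s)) (Set.Icc u w) := by
    have h1 := qT_cont hda ht
    refine h1.comp (f := fun y : ℝ => ((x, y / s) : ℝ × ℝ)) ?_ ?_
    · fun_prop
    · intro y hy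
      exact ⟨hx, div_pos (lt_of_lt_of_le hu hy.1) hs⟩
  obtain ⟨C, hC⟩ := isCompact_Icc.exists_bound_of_continuousOn hcont
  have : IsFiniteMeasure ((lam h c).restrict (Set.Icc u w)) := ⟨by simpa using hfin⟩
  refine Integrable.of_bound (hcont.aestronglyMeasurable measurableSet_Icc) C ?_
  filter_upwards [ae_restrict_mem measurableSet_Icc] with y hy
  exact hC y hy

/-- **[STB-X8a]** The killed walk on an interval of any length, against the density. PROOF. Let `L = 1` if `h = 0` and `L = h` otherwise, `J = IV D u w` with `δ a_n ≤ u ≤ w ≤ a_n/δ`. Cut `J` into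
`N ≤ (w-u)/L + 1` consecutive intervals `IV D u_i u_{i+1}` of length at most `L`. For each, `kllt` with accuracy `κ'`, and
`|lam(J_i) q(z/a, u_i/a) - ∫_{J_i} q(z/a, y/a) ∂lam| ≤ lam(J_i) ω(L/a)`, `ω` the modulus of continuity of `qT t` on the compact set `[ε, 1/ε] × [δ, 1/δ]` (`qT_cont`), `lam(J_i) ≤ L + h`. Sum up:
the error is at most `((w-u)/L + 1) (κ' + o(1))`. -/
theorem X8_long (hda : DA α ζ ρ a) (hD : Dom D) {b h : ℝ} (hL : LatS ζ ρ a b h) {n k : ℕ → ℕ} {t : ℝ}
    (hT : Tm n k t) (ht : 0 < t) : ∀ ε > (0 : ℝ), ∀ δ > (0 : ℝ), ∀ κ > (0 : ℝ), ∀ᶠ j in atTop, ∀ z u w : ℝ,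
      ε * a (n j) ≤ z → z ≤ a (n j) / ε → δ * a (n j) ≤ u → u ≤ w → w ≤ a (n j) / δ →
      |a (n j) * (kap D ρ (k j) z).real (IV D u w) -
        ∫ y in IV D u w, qT α ζ t (z / a (n j)) (y / a (n j)) ∂(lam h (z + k j * b))| ≤ κ * (w - u + 1) := by
  intro ε hε δ hδ κ hκ
  have := hda.prob
  have hh := hL.nonneg
  obtain ⟨d, hd, hmod⟩ := X8a_mod hda ht hε hδ (κ := κ / (2 * (1 + h))) (by positivity)
  have hatop : Tendsto (fun j => a (n j)) atTop atTop := hda.top.comp hT.top
  filter_upwards [kllt hda hD hL hT ht one_pos (min ε δ) (lt_min hε hδ) (κ / 2) (by positivity),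
    hatop.eventually_gt_atTop (1 / d)] with j hj hjd z u w hz1 hz2 hu huw hw
  have haj := hda.pos (n j)
  set s := a (n j) with hs
  set c := z + k j * b with hc
  have hz0 : 0 < z := lt_of_lt_of_le (by positivity) hz1
  have hx : z / s ∈ Set.Icc ε (1 / ε) := by
    constructor
    · rwa [le_div_iff₀ haj]
    · rw [div_le_iff₀ haj, one_div_mul_eq_div]
      exact hz2
  have hdm : s / min ε δ = max (s / ε) (s / δ) := by
    rcases le_total ε δ with h1 | h1
    · rw [min_eq_left h1, max_eq_left (div_le_div_of_nonneg_left haj.le hε h1)]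
    · rw [min_eq_right h1, max_eq_right (div_le_div_of_nonneg_left haj.le hδ h1)]
  have hmin1 : min ε δ * s ≤ ε * s := mul_le_mul_of_nonneg_right (min_le_left _ _) haj.le
  have hmin2 : min ε δ * s ≤ δ * s := mul_le_mul_of_nonneg_right (min_le_right _ _) haj.le
  have key := X8a_sum (Φ := fun u w => s * (kap D ρ (k j) z).real (IV D u w) -
      ∫ y in IV D u w, qT α ζ t (z / s) (y / s) ∂(lam h c)) (A := δ * s) (B := s / δ) (η := κ) hκ.le ?_ ?_ hu huw hw
  · exact key
  · intro u v w hu huv hvw hw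
    obtain ⟨e1, e2⟩ := X8a_IV_union hD huv hvw
    have hu0 : 0 < u := lt_of_lt_of_le (by positivity) hu
    have i1 := X8a_int hda hD (c := c) hh ht haj (div_pos hz0 haj) hu0 huv
    have i2 := X8a_int hda hD (c := c) hh ht haj (div_pos hz0 haj) (lt_of_lt_of_le hu0 huv) hvw
    rw [e1, measureReal_union e2 (measurableSet_IV hD _ _), setIntegral_union e2 (measurableSet_IV hD _ _) i1 i2]
    ring
  · intro u w hu huw hw hwu
    have hu0 : 0 < u := lt_of_lt_of_le (by positivity) hu
    have g1 := hj z u w (hmin1.trans hz1) (by rw [hdm]; exact hz2.trans (le_max_left _ _)) (hmin2.trans hu)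
      (by rw [hdm]; exact (huw.trans hw).trans (le_max_right _ _)) huw hwu
    have i1 := X8a_int hda hD (c := c) hh ht haj (div_pos hz0 haj) hu0 huw
    have hfin : lam h c (IV D u w) < ∞ :=
      lt_of_le_of_lt ((measure_mono (IV_subset hD u w)).trans (lam_Icc_le h c u w hh huw)) ENNReal.ofReal_lt_top
    have g2 : |(lam h c).real (IV D u w) * qT α ζ t (z / s) (u / s) -
        ∫ y in IV D u w, qT α ζ t (z / s) (y / s) ∂(lam h c)| ≤ κ / 2 := by
      have e3 : (lam h c).real (IV D u w) * qT α ζ t (z / s) (u / s) =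
          ∫ y in IV D u w, qT α ζ t (z / s) (u / s) ∂(lam h c) := by
        rw [setIntegral_const, smul_eq_mul]
      have : IsFiniteMeasure ((lam h c).restrict (IV D u w)) := ⟨by simpa using hfin⟩
      rw [e3, ← integral_sub (integrable_const _) i1]
      have e4 := norm_setIntegral_le_of_norm_le_const (μ := lam h c) (s := IV D u w)
        (f := fun y => qT α ζ t (z / s) (u / s) - qT α ζ t (z / s) (y / s)) (C := κ / (2 * (1 + h))) hfin (by
          intro y hy
          have hy2 := IV_subset hD u w hy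
          rw [Real.norm_eq_abs]
          refine (hmod _ hx (u / s) ⟨?_, ?_⟩ (y / s) ⟨?_, ?_⟩ ?_).le
          · rwa [le_div_iff₀ haj]
          · rw [div_le_iff₀ haj, one_div_mul_eq_div]
            linarith
          · rw [le_div_iff₀ haj]
            linarith [hy2.1]
          · rw [div_le_iff₀ haj, one_div_mul_eq_div]
            linarith [hy2.2]
          · rw [← sub_div, abs_div, abs_of_pos haj, div_lt_iff₀ haj]
            have h5 : |u - y| ≤ 1 := by
              rw [abs_le]
              constructor <;> linarith [hy2.1, hy2.2]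
            have h6 : 1 < d * s := by
              rw [div_lt_iff₀ hd] at hjd
              linarith
            linarith)
      rw [Real.norm_eq_abs] at e4
      refine e4.trans ?_
      have h7 := lam_IV_le hD h c hh u w
      rw [max_eq_right (by linarith)] at h7
      calc κ / (2 * (1 + h)) * (lam h c).real (IV D u w) ≤ κ / (2 * (1 + h)) * (1 + h) :=
            mul_le_mul_of_nonneg_left (by linarith) (by positivity)
        _ = κ / 2 := by
            have : (1 + h) ≠ 0 := by positivity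
            field_simp
    calc |s * (kap D ρ (k j) z).real (IV D u w) - ∫ y in IV D u w, qT α ζ t (z / s) (y / s) ∂(lam h c)|
        = |(s * (kap D ρ (k j) z).real (IV D u w) - (lam h c).real (IV D u w) * qT α ζ t (z / s) (u / s)) +
          ((lam h c).real (IV D u w) * qT α ζ t (z / s) (u / s) -
            ∫ y in IV D u w, qT α ζ t (z / s) (y / s) ∂(lam h c))| := by
          congr 1
          ring
      _ ≤ κ / 2 + κ / 2 := (abs_add_le _ _).trans (add_le_add g1 g2)
      _ = κ := by ring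

end Pool.Agent.BPT
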