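import Pool.Agent.MP_99a865_pr.ST.X8a
import Pool.Agent.MP_99a865_pr.FV.D2c
import Pool.Agent.MP_99a865_pr.FV.C1b

/-! **[STB-X8b]** Local asymptotics of the exit time, first half. -/

open MeasureTheory ProbabilityTheory Filter Topology
open scoped ENNReal NNReal

namespace Pool.Agent.BPT

variable {α : ℝ} {ζ ρ : Measure ℝ} {a : ℕ → ℝ} {D : Set ℝ}

/-- covering by unit windows -/
lemma X8b_cover {ν : Measure ℝ} [IsFiniteMeasure ν] {B : ℝ} (hB : ∀ z, ν.real (Set.Icc z (z + 1)) ≤ B)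
    {u w : ℝ} (huw : u ≤ w) : ν.real (Set.Icc u w) ≤ B * (w - u + 1) := by
  have hB0 : 0 ≤ B := le_trans measureReal_nonneg (hB 0)
  set N : ℕ := ⌊w - u⌋₊ + 1 with hN
  have hsub : Set.Icc u w ⊆ ⋃ i ∈ Finset.range N, Set.Icc (u + (i : ℝ)) (u + i + 1) := by
    rintro y ⟨h1, h2⟩
    simp only [Set.mem_iUnion, Finset.mem_range, Set.mem_Icc, exists_prop]
    refine ⟨⌊y - u⌋₊, ?_, ?_, ?_⟩
    · rw [hN]
      exact Nat.lt_succ_of_le (Nat.floor_le_floor (by linarith))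
    · have := Nat.floor_le (a := y - u) (by linarith)
      linarith
    · have := Nat.lt_floor_add_one (y - u)
      linarith
  calc ν.real (Set.Icc u w) ≤ ν.real (⋃ i ∈ Finset.range N, Set.Icc (u + (i : ℝ)) (u + i + 1)) :=
        measureReal_mono hsub (measure_ne_top _ _)
    _ ≤ ∑ i ∈ Finset.range N, ν.real (Set.Icc (u + (i : ℝ)) (u + i + 1)) :=
        measureReal_biUnion_finset_le _ _
    _ ≤ ∑ _i ∈ Finset.range N, B := Finset.sum_le_sum fun i _ => hB _
    _ = N * B := by rw [Finset.sum_const, Finset.card_range, nsmul_eq_mul]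
    _ ≤ B * (w - u + 1) := by
        rw [mul_comm]
        apply mul_le_mul_of_nonneg_left _ hB0
        rw [hN]
        push_cast
        have := Nat.floor_le (a := w - u) (by linarith)
        linarith

lemma X8b_meas (hD : Dom D) (l : ℕ) (Λ : Measure ℝ) [SFinite Λ] {B : Set ℝ} (hB : MeasurableSet B) :
    Measurable fun ω : ℕ → ℝ => Λ (JJ D l ω ∩ B) := by
  have h : MeasurableSet {p : (ℕ → ℝ) × ℝ | p.2 ∈ JJ D l p.1 ∩ B} :=
    (D2c_meas hD l).inter (measurable_snd hB)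
  exact measurable_measure_prodMk_left (ν := Λ) h

lemma X8b_measG (hD : Dom D) (l : ℕ) (Λ : Measure ℝ) [SFinite Λ] {g : ℝ → ℝ≥0∞} (hg : Measurable g) :
    Measurable fun ω : ℕ → ℝ => ∫⁻ y in JJ D l ω, g y ∂Λ := by
  have h1 : ∀ ω : ℕ → ℝ, ∫⁻ y in JJ D l ω, g y ∂Λ =
      ∫⁻ y, {p : (ℕ → ℝ) × ℝ | p.2 ∈ JJ D l p.1}.indicator (fun p => g p.2) (ω, y) ∂Λ := by
    intro ω
    rw [← lintegral_indicator (D2a_measurableSet' hD l ω)]
    rfl
  simp_rw [h1]
  exact ((hg.comp measurable_snd).indicator (D2c_meas hD l)).lintegral_prod_right'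

lemma X8b_swap (hD : Dom D) [IsProbabilityMeasure ρ] {l : ℕ} (hl : 1 ≤ l) (Λ : Measure ℝ) [SFinite Λ]
    {B : Set ℝ} (hB : MeasurableSet B) :
    ∫⁻ ω, Λ (JJ D l ω ∩ B) ∂(seqLaw ρ) = ∫⁻ y in D ∩ B, ENNReal.ofReal (hit D ρ l y) ∂Λ := by
  have h1 := D2a_swap (ρ := ρ) hD hl Λ (B.indicator fun _ => 1) (measurable_const.indicator hB)
  have h2 : ∀ ω : ℕ → ℝ, ∫⁻ y in JJ D l ω, B.indicator (fun _ => (1 : ℝ≥0∞)) y ∂Λ = Λ (JJ D l ω ∩ B) := by
    intro ω
    rw [lintegral_indicator hB, setLIntegral_one, Measure.restrict_apply hB, Set.inter_comm]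
  simp_rw [h2] at h1
  rw [h1]
  have h3 : ∀ y, B.indicator (fun _ => (1 : ℝ≥0∞)) y * ENNReal.ofReal (hit D ρ l y) =
      B.indicator (fun y => ENNReal.ofReal (hit D ρ l y)) y := by
    intro y
    by_cases hy : y ∈ B
    · rw [Set.indicator_of_mem hy, Set.indicator_of_mem hy, one_mul]
    · rw [Set.indicator_of_notMem hy, Set.indicator_of_notMem hy, zero_mul]
  simp_rw [h3]
  rw [lintegral_indicator hB, Measure.restrict_restrict hB, Set.inter_comm]

lemma X8b_vol (hD : Dom D) {u w : ℝ} (huw : u ≤ w) : ENNReal.ofReal (w - u) ≤ volume (IV D u w) := by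
  have h := (C1b_IV hD u w).2.2.2 huw
  rw [← h]
  exact ENNReal.ofReal_toReal_le

/-- the error function -/
noncomputable def X8b_E (D : Set ℝ) (Λ : Measure ℝ) (l : ℕ) (C1 C2 κ s1 s2 : ℝ) (ω : ℕ → ℝ) : ℝ≥0∞ :=
  {ω | mx l ω < -S l ω}.indicator (fun ω => ENNReal.ofReal κ * (ENNReal.ofReal (-S l ω - mx l ω) + 1)) ω +
  (ENNReal.ofReal C2 * (volume (JJ D l ω ∩ Set.Iic s1) + {ω | mx l ω < -S l ω ∧ mx l ω ≤ s1}.indicator (fun _ => 1) ω) +
   (ENNReal.ofReal C2 * (volume (JJ D l ω ∩ Set.Ici s2) + {ω | mx l ω < -S l ω ∧ s2 ≤ -S l ω}.indicator (fun _ => 1) ω) +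
    (ENNReal.ofReal C1 * Λ (JJ D l ω ∩ Set.Iic s1) + ENNReal.ofReal C1 * Λ (JJ D l ω ∩ Set.Ici s2))))

lemma X8b_arith1 {n g k f n' G f' e : ℝ≥0∞} (h1 : n ≤ n') (h2 : g ≤ G) (h3 : f ≤ f') :
    n + ((g + k) + f) ≤ G + (k + (n' + (f' + e))) := by
  calc n + ((g + k) + f) ≤ n' + ((G + k) + f') := by gcongr
    _ = G + (k + (n' + f')) := by ring
    _ ≤ _ := by gcongr; exact le_self_add

lemma X8b_arith2 {n g k f a e1 e2 : ℝ≥0∞} (h : g ≤ a + k) :
    e1 + (g + e2) ≤ a + (k + (n + (f + (e1 + e2)))) := by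
  calc e1 + (g + e2) ≤ e1 + ((a + k) + e2) := by gcongr
    _ = a + (k + (e1 + e2)) := by ring
    _ ≤ _ := add_le_add_right (add_le_add_right (le_add_self.trans le_add_self) _) _

lemma X8b_pt (hD : Dom D) {l : ℕ} {ν Λ : Measure ℝ} [IsFiniteMeasure ν]
    {A C1 C2 κ s1 s2 : ℝ} (hA : 0 < A) (hC2 : 0 ≤ C2) (hκ : 0 ≤ κ) {g : ℝ → ℝ}
    (hgm : Measurable g) (hg0 : ∀ y, 0 ≤ g y) (hgC : ∀ y, g y ≤ C1) (hΛ : ∀ u w, Λ (Set.Icc u w) ≠ ∞)
    (hwin : ∀ u w, u ≤ w → A * ν.real (Set.Icc u w) ≤ C2 * (w - u + 1))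
    (hlong : ∀ u w, s1 ≤ u → u ≤ w → w ≤ s2 →
      |A * ν.real (IV D u w) - ∫ y in IV D u w, g y ∂Λ| ≤ κ * (w - u + 1)) (ω : ℕ → ℝ) :
    ENNReal.ofReal (A * ν.real (JJ D l ω)) ≤
        (∫⁻ y in JJ D l ω, ENNReal.ofReal (g y) ∂Λ) + X8b_E D Λ l C1 C2 κ s1 s2 ω ∧
      (∫⁻ y in JJ D l ω, ENNReal.ofReal (g y) ∂Λ) ≤
        ENNReal.ofReal (A * ν.real (JJ D l ω)) + X8b_E D Λ l C1 C2 κ s1 s2 ω := by
  rcases le_or_gt (-S l ω - mx l ω) 0 with h0 | h0
  · have hJ : JJ D l ω = ∅ := D2c_empty hD l ω h0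
    rw [hJ]
    simp
  have hlt : mx l ω < -S l ω := by linarith
  set m := mx l ω with hm
  set T := -S l ω with hT
  have hJm : MeasurableSet (JJ D l ω) := measurableSet_IV hD _ _
  have hJsub : JJ D l ω ⊆ Set.Icc m T := IV_subset hD _ _
  set Mid := IV D (max m s1) (min T s2) with hMid
  have hMm : MeasurableSet Mid := measurableSet_IV hD _ _
  have hMJ : Mid ⊆ JJ D l ω := by
    rintro y ⟨h1, h2⟩
    refine ⟨hD.up h1 (by have := le_max_left m s1; linarith), fun h3 => h2 (hD.up h3 ?_)⟩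
    have := min_le_left T s2
    linarith
  have hcov : JJ D l ω ⊆ (JJ D l ω ∩ Set.Iic s1) ∪ (Mid ∪ (JJ D l ω ∩ Set.Ici s2)) := by
    intro y hy
    by_cases h1 : y ≤ s1
    · exact Or.inl ⟨hy, h1⟩
    by_cases h2 : s2 ≤ y
    · exact Or.inr (Or.inr ⟨hy, h2⟩)
    · refine Or.inr (Or.inl ⟨?_, ?_⟩)
      · rcases max_choice m s1 with h3 | h3
        · rw [h3]; exact hy.1
        · rw [h3]; exact hD.pos (by linarith [not_le.1 h1])
      · rcases min_choice T s2 with h3 | h3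
        · rw [h3]; exact hy.2
        · rw [h3]
          intro h4
          have := hD.nonneg h4
          linarith [not_le.1 h2]
  -- the middle part
  set G' : ℝ := ∫ y in Mid, g y ∂Λ with hG'
  have hMfin : Λ Mid ≠ ∞ := ne_top_of_le_ne_top (hΛ _ _) (measure_mono (hMJ.trans hJsub))
  have hGG : ∫⁻ y in Mid, ENNReal.ofReal (g y) ∂Λ = ENNReal.ofReal G' := by
    rw [hG', ofReal_integral_eq_lintegral_ofReal]
    · refine Measure.integrableOn_of_bounded (M := C1) hMfin hgm.aestronglyMeasurable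
        (ae_of_all _ fun y => ?_)
      rw [Real.norm_eq_abs, abs_of_nonneg (hg0 y)]
      exact hgC y
    · exact ae_of_all _ hg0
  have hG0 : 0 ≤ G' := integral_nonneg hg0
  have hmid : |A * ν.real Mid - G'| ≤ κ * (T - m + 1) := by
    by_cases huw : max m s1 ≤ min T s2
    · refine le_trans (hlong _ _ (le_max_right _ _) huw (min_le_right _ _)) ?_
      apply mul_le_mul_of_nonneg_left _ hκ
      have h1 := le_max_left m s1
      have h2 := min_le_left T s2
      linarith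
    · have h1 : Mid = ∅ := by
        rw [Set.eq_empty_iff_forall_notMem]
        intro y hy
        have := IV_subset hD _ _ hy
        exact huw (this.1.trans this.2)
      have h2 : A * ν.real Mid - G' = 0 := by
        rw [hG', h1]
        simp
      rw [h2, abs_zero]
      have : 0 ≤ T - m + 1 := by linarith
      positivity
  -- near part
  have hN : ENNReal.ofReal (A * ν.real (JJ D l ω ∩ Set.Iic s1)) ≤
      ENNReal.ofReal C2 * (volume (JJ D l ω ∩ Set.Iic s1) +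
        {ω | mx l ω < -S l ω ∧ mx l ω ≤ s1}.indicator (fun _ => 1) ω) := by
    rcases Set.eq_empty_or_nonempty (JJ D l ω ∩ Set.Iic s1) with he | ⟨y, hy1, hy2⟩
    · rw [he]; simp
    · have hms : m ≤ s1 := (hJsub hy1).1.trans hy2
      have hmem : ω ∈ {ω | mx l ω < -S l ω ∧ mx l ω ≤ s1} := ⟨hlt, hms⟩
      rw [Set.indicator_of_mem hmem]
      have hmw : m ≤ min T s1 := le_min hlt.le hms
      have h1 : JJ D l ω ∩ Set.Iic s1 ⊆ Set.Icc m (min T s1) := fun y hy =>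
        ⟨(hJsub hy.1).1, le_min (hJsub hy.1).2 hy.2⟩
      have h2 : IV D m (min T s1) ⊆ JJ D l ω ∩ Set.Iic s1 := by
        intro y hy
        refine ⟨⟨hy.1, fun h3 => hy.2 (hD.up h3 ?_)⟩, ((IV_subset hD _ _ hy).2).trans (min_le_right _ _)⟩
        have := min_le_left T s1
        linarith
      have h3 := (X8b_vol hD hmw).trans (measure_mono (μ := volume) h2)
      calc ENNReal.ofReal (A * ν.real (JJ D l ω ∩ Set.Iic s1))
          ≤ ENNReal.ofReal (C2 * (min T s1 - m + 1)) := by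
            apply ENNReal.ofReal_le_ofReal
            refine le_trans ?_ (hwin _ _ hmw)
            exact mul_le_mul_of_nonneg_left (measureReal_mono h1) hA.le
        _ = ENNReal.ofReal C2 * (ENNReal.ofReal (min T s1 - m) + 1) := by
            rw [ENNReal.ofReal_mul hC2, ENNReal.ofReal_add (by linarith) zero_le_one, ENNReal.ofReal_one]
        _ ≤ _ := by gcongr
  -- far part
  have hF : ENNReal.ofReal (A * ν.real (JJ D l ω ∩ Set.Ici s2)) ≤
      ENNReal.ofReal C2 * (volume (JJ D l ω ∩ Set.Ici s2) +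
        {ω | mx l ω < -S l ω ∧ s2 ≤ -S l ω}.indicator (fun _ => 1) ω) := by
    rcases Set.eq_empty_or_nonempty (JJ D l ω ∩ Set.Ici s2) with he | ⟨y, hy1, hy2⟩
    · rw [he]; simp
    · have hms : s2 ≤ T := le_trans hy2 (hJsub hy1).2
      have hmem : ω ∈ {ω | mx l ω < -S l ω ∧ s2 ≤ -S l ω} := ⟨hlt, hms⟩
      rw [Set.indicator_of_mem hmem]
      have hmw : max m s2 ≤ T := max_le hlt.le hms
      have h1 : JJ D l ω ∩ Set.Ici s2 ⊆ Set.Icc (max m s2) T := fun y hy =>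
        ⟨max_le (hJsub hy.1).1 hy.2, (hJsub hy.1).2⟩
      have h2 : IV D (max m s2) T ⊆ JJ D l ω ∩ Set.Ici s2 := by
        intro y hy
        refine ⟨⟨hD.up hy.1 ?_, hy.2⟩, (le_max_right _ _).trans (IV_subset hD _ _ hy).1⟩
        have := le_max_left m s2
        linarith
      have h3 := (X8b_vol hD hmw).trans (measure_mono (μ := volume) h2)
      calc ENNReal.ofReal (A * ν.real (JJ D l ω ∩ Set.Ici s2))
          ≤ ENNReal.ofReal (C2 * (T - max m s2 + 1)) := by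
            apply ENNReal.ofReal_le_ofReal
            refine le_trans ?_ (hwin _ _ hmw)
            exact mul_le_mul_of_nonneg_left (measureReal_mono h1) hA.le
        _ = ENNReal.ofReal C2 * (ENNReal.ofReal (T - max m s2) + 1) := by
            rw [ENNReal.ofReal_mul hC2, ENNReal.ofReal_add (by linarith) zero_le_one, ENNReal.ofReal_one]
        _ ≤ _ := by gcongr
  -- bounds for `g`
  have hgB : ∀ B : Set ℝ, ∫⁻ y in B, ENNReal.ofReal (g y) ∂Λ ≤ ENNReal.ofReal C1 * Λ B := by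
    intro B
    rw [← setLIntegral_const]
    exact setLIntegral_mono measurable_const fun y _ => ENNReal.ofReal_le_ofReal (hgC y)
  have hmemE : ω ∈ {ω | mx l ω < -S l ω} := hlt
  have hκE : ENNReal.ofReal (κ * (T - m + 1)) = ENNReal.ofReal κ * (ENNReal.ofReal (T - m) + 1) := by
    rw [ENNReal.ofReal_mul hκ, ENNReal.ofReal_add h0.le zero_le_one, ENNReal.ofReal_one]
  rw [abs_le] at hmid
  set N1 := JJ D l ω ∩ Set.Iic s1 with hN1
  set F1 := JJ D l ω ∩ Set.Ici s2 with hF1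
  have hreal0 : ∀ B : Set ℝ, 0 ≤ A * ν.real B := fun B => mul_nonneg hA.le measureReal_nonneg
  have hEq : X8b_E D Λ l C1 C2 κ s1 s2 ω = ENNReal.ofReal (κ * (T - m + 1)) +
      (ENNReal.ofReal C2 * (volume N1 + {ω | mx l ω < -S l ω ∧ mx l ω ≤ s1}.indicator (fun _ => 1) ω) +
   (ENNReal.ofReal C2 * (volume F1 + {ω | mx l ω < -S l ω ∧ s2 ≤ -S l ω}.indicator (fun _ => 1) ω) +
    (ENNReal.ofReal C1 * Λ N1 + ENNReal.ofReal C1 * Λ F1))) := by
    rw [X8b_E, Set.indicator_of_mem hmemE, hκE]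
  constructor
  · have h1 : A * ν.real (JJ D l ω) ≤ A * ν.real N1 + (A * ν.real Mid + A * ν.real F1) := by
      have h2 : ν.real (JJ D l ω) ≤ ν.real N1 + (ν.real Mid + ν.real F1) :=
        (measureReal_mono hcov).trans ((measureReal_union_le _ _).trans
          (add_le_add_right (measureReal_union_le _ _) _))
      calc A * ν.real (JJ D l ω) ≤ A * (ν.real N1 + (ν.real Mid + ν.real F1)) :=
            mul_le_mul_of_nonneg_left h2 hA.le
        _ = _ := by ring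
    calc ENNReal.ofReal (A * ν.real (JJ D l ω))
        ≤ ENNReal.ofReal (A * ν.real N1 + (G' + κ * (T - m + 1) + A * ν.real F1)) := by
          apply ENNReal.ofReal_le_ofReal
          linarith [hmid.2]
      _ = ENNReal.ofReal (A * ν.real N1) + ((ENNReal.ofReal G' + ENNReal.ofReal (κ * (T - m + 1))) +
            ENNReal.ofReal (A * ν.real F1)) := by
          have h3 : 0 ≤ κ * (T - m + 1) := by
            have : 0 ≤ T - m + 1 := by linarith
            positivity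
          rw [ENNReal.ofReal_add (hreal0 _) (by have := hreal0 F1; positivity),
            ENNReal.ofReal_add (by positivity) (hreal0 _), ENNReal.ofReal_add hG0 h3]
      _ ≤ _ := by
          rw [← hGG, hEq]
          have h4 : ∫⁻ y in Mid, ENNReal.ofReal (g y) ∂Λ ≤ ∫⁻ y in JJ D l ω, ENNReal.ofReal (g y) ∂Λ :=
            lintegral_mono_set hMJ
          exact X8b_arith1 hN h4 hF
  · have h1 : ∫⁻ y in JJ D l ω, ENNReal.ofReal (g y) ∂Λ ≤ ∫⁻ y in N1, ENNReal.ofReal (g y) ∂Λ +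
        (∫⁻ y in Mid, ENNReal.ofReal (g y) ∂Λ + ∫⁻ y in F1, ENNReal.ofReal (g y) ∂Λ) := by
      refine (lintegral_mono_set hcov).trans ((lintegral_union_le _ _ _).trans ?_)
      exact add_le_add_right (lintegral_union_le _ _ _) _
    have h2 : ENNReal.ofReal G' ≤ ENNReal.ofReal (A * ν.real (JJ D l ω)) + ENNReal.ofReal (κ * (T - m + 1)) := by
      have h3 : 0 ≤ κ * (T - m + 1) := by
        have : 0 ≤ T - m + 1 := by linarith
        positivity
      rw [← ENNReal.ofReal_add (hreal0 _) h3]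
      apply ENNReal.ofReal_le_ofReal
      have h4 : A * ν.real Mid ≤ A * ν.real (JJ D l ω) :=
        mul_le_mul_of_nonneg_left (measureReal_mono hMJ) hA.le
      linarith [hmid.1]
    refine h1.trans ?_
    rw [hGG, hEq]
    exact (add_le_add (hgB N1) (add_le_add_right (hgB F1) _)).trans (X8b_arith2 h2)

/-- integrated version -/
lemma X8b_int (hD : Dom D) [IsProbabilityMeasure ρ] {k l : ℕ} (hk : 1 ≤ k) (hl : 1 ≤ l) {z h c : ℝ} (hh : 0 ≤ h)
    {A C1 C2 κ s1 s2 L7 P7 v1 p1 v2 p2 m1 m2 : ℝ} (hA : 0 < A) (hC1 : 0 ≤ C1) (hC2 : 0 ≤ C2) (hκ : 0 ≤ κ)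
    {g : ℝ → ℝ} (hgm : Measurable g) (hg0 : ∀ y, 0 ≤ g y) (hgC : ∀ y, g y ≤ C1)
    (hwin : ∀ u w, u ≤ w → A * (kap D ρ k z).real (Set.Icc u w) ≤ C2 * (w - u + 1))
    (hlong : ∀ u w, s1 ≤ u → u ≤ w → w ≤ s2 →
      |A * (kap D ρ k z).real (IV D u w) - ∫ y in IV D u w, g y ∂(lam h c)| ≤ κ * (w - u + 1))
    (hL7 : 0 ≤ L7) (hP7 : 0 ≤ P7) (hv1 : 0 ≤ v1) (hp1 : 0 ≤ p1) (hv2 : 0 ≤ v2) (hp2 : 0 ≤ p2) (hm1 : 0 ≤ m1) (hm2 : 0 ≤ m2)
    (iL7 : ∫⁻ ω in {ω | mx l ω < -S l ω}, ENNReal.ofReal (-S l ω - mx l ω) ∂(seqLaw ρ) ≤ ENNReal.ofReal L7)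
    (iP7 : (seqLaw ρ).real {ω | mx l ω < -S l ω} ≤ P7)
    (iv1 : ∫⁻ y in D ∩ Set.Iic s1, ENNReal.ofReal (hit D ρ l y) ≤ ENNReal.ofReal v1)
    (ip1 : (seqLaw ρ).real {ω | mx l ω < -S l ω ∧ mx l ω ≤ s1} ≤ p1)
    (iv2 : ∫⁻ y in D ∩ Set.Ici s2, ENNReal.ofReal (hit D ρ l y) ≤ ENNReal.ofReal v2)
    (ip2 : (seqLaw ρ).real {ω | mx l ω < -S l ω ∧ s2 ≤ -S l ω} ≤ p2)
    (im1 : ∫⁻ y in D ∩ Set.Iic s1, ENNReal.ofReal (hit D ρ l y) ∂(lam h c) ≤ ENNReal.ofReal m1)
    (im2 : ∫⁻ y in D ∩ Set.Ici s2, ENNReal.ofReal (hit D ρ l y) ∂(lam h c) ≤ ENNReal.ofReal m2) :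
    |A * hit D ρ (k + l) z - (∫⁻ y in D, ENNReal.ofReal (g y) * ENNReal.ofReal (hit D ρ l y) ∂(lam h c)).toReal| ≤
      κ * (L7 + P7) + (C2 * (v1 + p1) + (C2 * (v2 + p2) + (C1 * m1 + C1 * m2))) := by
  set P : Measure (ℕ → ℝ) := seqLaw ρ with hP
  set Λ : Measure ℝ := lam h c with hΛdef
  have hlenm : Measurable fun ω : ℕ → ℝ => -S l ω - mx l ω := (measurable_S l).neg.sub (measurable_mx l)
  have hgm' : Measurable fun y => ENNReal.ofReal (g y) := hgm.ennreal_ofReal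
  have hΛ : ∀ u w, Λ (Set.Icc u w) ≠ ∞ := by
    intro u w
    rcases le_or_gt u w with huw | huw
    · exact ne_top_of_le_ne_top ENNReal.ofReal_ne_top (lam_Icc_le h c u w hh huw)
    · rw [Set.Icc_eq_empty (not_le.2 huw)]
      simp
  have hpt := X8b_pt hD (l := l) (ν := kap D ρ k z) (Λ := Λ) hA hC2 hκ hgm hg0 hgC hΛ hwin hlong
  rw [hit_eq_JJ hD hk hl z, ← lintegral_JJ hD hl h c _ hgm']
  set Aw : (ℕ → ℝ) → ℝ := fun ω => (kap D ρ k z).real (JJ D l ω) with hAw
  set G : (ℕ → ℝ) → ℝ≥0∞ := fun ω => ∫⁻ y in JJ D l ω, ENNReal.ofReal (g y) ∂Λ with hG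
  have hGm : Measurable G := X8b_measG hD l Λ hgm'
  have hAm : Measurable Aw :=
    (measurable_measure_prodMk_left (ν := kap D ρ k z) (D2c_meas hD l)).ennreal_toReal
  have hA0 : ∀ ω, 0 ≤ Aw ω := fun ω => measureReal_nonneg
  have hA1 : ∀ ω, Aw ω ≤ 1 := by
    intro ω
    have h1 : kap D ρ k z (JJ D l ω) ≤ 1 := le_trans (measure_mono (Set.subset_univ _)) (kap_univ_le_one k z)
    exact ENNReal.toReal_le_of_le_ofReal zero_le_one (by simpa using h1)
  -- measurable sets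
  have hs0 : MeasurableSet {ω : ℕ → ℝ | mx l ω < -S l ω} := measurableSet_lt (measurable_mx l) (measurable_S l).neg
  have hs1 : MeasurableSet {ω : ℕ → ℝ | mx l ω < -S l ω ∧ mx l ω ≤ s1} :=
    hs0.inter (measurableSet_le (measurable_mx l) measurable_const)
  have hs2 : MeasurableSet {ω : ℕ → ℝ | mx l ω < -S l ω ∧ s2 ≤ -S l ω} :=
    hs0.inter (measurableSet_le measurable_const (measurable_S l).neg)
  have hreal : ∀ {s : Set (ℕ → ℝ)} {q : ℝ}, P.real s ≤ q → P s ≤ ENNReal.ofReal q := by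
    intro s q hq
    rw [← ENNReal.ofReal_toReal (measure_ne_top P s)]
    exact ENNReal.ofReal_le_ofReal hq
  set e : ℝ := κ * (L7 + P7) + (C2 * (v1 + p1) + (C2 * (v2 + p2) + (C1 * m1 + C1 * m2))) with he
  have he0 : 0 ≤ e := by positivity
  have hm3 : Measurable fun ω : ℕ → ℝ => ENNReal.ofReal C1 * Λ (JJ D l ω ∩ Set.Iic s1) :=
    (X8b_meas hD l Λ measurableSet_Iic).const_mul _
  have hm4 : Measurable fun ω : ℕ → ℝ => ENNReal.ofReal C2 * (volume (JJ D l ω ∩ Set.Ici s2) +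
      {ω | mx l ω < -S l ω ∧ s2 ≤ -S l ω}.indicator (fun _ => (1 : ℝ≥0∞)) ω) :=
    ((X8b_meas hD l volume measurableSet_Ici).add (measurable_const.indicator hs2)).const_mul _
  have hm5 : Measurable fun ω : ℕ → ℝ => ENNReal.ofReal C2 * (volume (JJ D l ω ∩ Set.Iic s1) +
      {ω | mx l ω < -S l ω ∧ mx l ω ≤ s1}.indicator (fun _ => (1 : ℝ≥0∞)) ω) :=
    ((X8b_meas hD l volume measurableSet_Iic).add (measurable_const.indicator hs1)).const_mul _
  have hm6 : Measurable fun ω : ℕ → ℝ => {ω | mx l ω < -S l ω}.indicator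
      (fun ω => ENNReal.ofReal κ * (ENNReal.ofReal (-S l ω - mx l ω) + 1)) ω :=
    ((hlenm.ennreal_ofReal.add_const 1).const_mul _).indicator hs0
  have hE1 : ∫⁻ ω, X8b_E D Λ l C1 C2 κ s1 s2 ω ∂P ≤ ENNReal.ofReal e := by
    unfold X8b_E
    rw [lintegral_add_left hm6, lintegral_add_left hm5, lintegral_add_left hm4, lintegral_add_left hm3]
    rw [lintegral_const_mul' _ _ ENNReal.ofReal_ne_top, lintegral_const_mul' _ _ ENNReal.ofReal_ne_top,
      lintegral_const_mul' _ _ ENNReal.ofReal_ne_top, lintegral_const_mul' _ _ ENNReal.ofReal_ne_top,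
      lintegral_add_left (X8b_meas hD l volume measurableSet_Iic), lintegral_add_left (X8b_meas hD l volume measurableSet_Ici),
      lintegral_indicator hs0, lintegral_const_mul' _ _ ENNReal.ofReal_ne_top,
      lintegral_add_left hlenm.ennreal_ofReal, lintegral_indicator hs1, lintegral_indicator hs2,
      setLIntegral_one, setLIntegral_one, setLIntegral_one, X8b_swap hD hl volume measurableSet_Iic,
      X8b_swap hD hl volume measurableSet_Ici, X8b_swap hD hl Λ measurableSet_Iic, X8b_swap hD hl Λ measurableSet_Ici]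
    calc _ ≤ ENNReal.ofReal κ * (ENNReal.ofReal L7 + ENNReal.ofReal P7) +
          (ENNReal.ofReal C2 * (ENNReal.ofReal v1 + ENNReal.ofReal p1) +
          (ENNReal.ofReal C2 * (ENNReal.ofReal v2 + ENNReal.ofReal p2) +
          (ENNReal.ofReal C1 * ENNReal.ofReal m1 + ENNReal.ofReal C1 * ENNReal.ofReal m2))) := by
          gcongr
          · exact hreal iP7
          · exact hreal ip1
          · exact hreal ip2
      _ = ENNReal.ofReal e := by
          rw [he, ENNReal.ofReal_add (by positivity) (by positivity), ENNReal.ofReal_add (by positivity) (by positivity),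
            ENNReal.ofReal_add (by positivity) (by positivity), ENNReal.ofReal_add (by positivity) (by positivity),
            ENNReal.ofReal_mul hκ, ENNReal.ofReal_mul hC2, ENNReal.ofReal_mul hC2, ENNReal.ofReal_mul hC1, ENNReal.ofReal_mul hC1,
            ENNReal.ofReal_add hL7 hP7, ENNReal.ofReal_add hv1 hp1, ENNReal.ofReal_add hv2 hp2]
  set I : ℝ := ∫ ω, Aw ω ∂P with hI
  have hI0 : 0 ≤ I := integral_nonneg hA0
  have hIl : ∫⁻ ω, ENNReal.ofReal (A * Aw ω) ∂P = ENNReal.ofReal (A * I) := by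
    rw [hI, ← integral_const_mul, ofReal_integral_eq_lintegral_ofReal]
    · refine Integrable.const_mul ?_ _
      refine Integrable.of_bound hAm.aestronglyMeasurable 1 (ae_of_all _ fun ω => ?_)
      rw [Real.norm_eq_abs, abs_of_nonneg (hA0 ω)]
      exact hA1 ω
    · exact ae_of_all _ fun ω => mul_nonneg hA.le (hA0 ω)
  have hU1 : ENNReal.ofReal (A * I) ≤ ∫⁻ ω, G ω ∂P + ENNReal.ofReal e := by
    rw [← hIl]
    calc ∫⁻ ω, ENNReal.ofReal (A * Aw ω) ∂P ≤ ∫⁻ ω, (G ω + X8b_E D Λ l C1 C2 κ s1 s2 ω) ∂P :=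
          lintegral_mono fun ω => (hpt ω).1
      _ = ∫⁻ ω, G ω ∂P + ∫⁻ ω, X8b_E D Λ l C1 C2 κ s1 s2 ω ∂P := lintegral_add_left hGm _
      _ ≤ _ := add_le_add_right hE1 _
  have hU2 : ∫⁻ ω, G ω ∂P ≤ ENNReal.ofReal (A * I) + ENNReal.ofReal e := by
    rw [← hIl]
    calc ∫⁻ ω, G ω ∂P ≤ ∫⁻ ω, (ENNReal.ofReal (A * Aw ω) + X8b_E D Λ l C1 C2 κ s1 s2 ω) ∂P :=
          lintegral_mono fun ω => (hpt ω).2
      _ = ∫⁻ ω, ENNReal.ofReal (A * Aw ω) ∂P + ∫⁻ ω, X8b_E D Λ l C1 C2 κ s1 s2 ω ∂P :=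
          lintegral_add_left (hAm.const_mul A).ennreal_ofReal _
      _ ≤ _ := add_le_add_right hE1 _
  have hGfin : ∫⁻ ω, G ω ∂P ≠ ∞ := ne_top_of_le_ne_top (by finiteness) hU2
  set Y : ℝ := (∫⁻ ω, G ω ∂P).toReal with hY
  have hY0 : 0 ≤ Y := ENNReal.toReal_nonneg
  have hGY : ∫⁻ ω, G ω ∂P = ENNReal.ofReal Y := (ENNReal.ofReal_toReal hGfin).symm
  rw [hGY, ← ENNReal.ofReal_add hY0 he0, ENNReal.ofReal_le_ofReal_iff (by positivity)] at hU1
  rw [hGY, ← ENNReal.ofReal_add (by positivity) he0, ENNReal.ofReal_le_ofReal_iff (by positivity)] at hU2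
  rw [abs_le]; constructor <;> linarith

lemma X8b_gm (hda : DA α ζ ρ a) {t x : ℝ} (ht : 0 < t) (hx : 0 < x) :
    Measurable ((Set.Ioi (0 : ℝ)).indicator (qT α ζ t x)) := by
  classical
  have hc : ContinuousOn (fun y => qT α ζ t x y) (Set.Ioi 0) := by
    have h1 := qT_cont hda ht
    have h2 : ContinuousOn (fun y : ℝ => ((x, y) : ℝ × ℝ)) (Set.Ioi 0) := by fun_prop
    have h3 := h1.comp h2 fun y hy => ⟨hx, hy⟩
    rw [Function.comp_def] at h3
    exact h3
  rw [← Set.piecewise_eq_indicator]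
  exact hc.measurable_piecewise continuousOn_const measurableSet_Ioi

/-- **[STB-X8]** PROOF. By `hit_eq_JJ`: `n hit (k+l) z = (n/a) ∫ a (kap k z).real (JJ D l ω) ∂(seqLaw ρ)`, and (`D2a_swap`/`lintegral_JJ`)
`(n/a) bl D ρ h (z + k b) a l q = (n/a) ∫ (∫_{JJ D l ω} q(y/a) ∂lam) ∂(seqLaw ρ)` with `q y = qT t (z/a) y` for `y > 0`, `0` otherwise. Both inner quantities vanish unless `mx l ω < -S l ω`. Let
`δ > 0`. (i) The part of `JJ` in `[δ a, a/δ]` (again an interval `IV D u w`): `X8_long` gives an error `≤ κ' (len + 1)`, in total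
`≤ κ' (n/a) (∫ len + P(mx < -S)) ≤ C κ'` (`X7_len`, `X7_prob`). (ii) The part of `JJ` in `[0, δ a]`: `a (kap k z).real ≤ C (len' + 2)` (`DA.win`, `kap_le_fre`), `len'` the length of this part, in total
`≤ C (n/a)(∫_{D ∩ [0,δ a]} hit_l dy + 2 P(mx l < δ a, mx l < -S l)) ≤ C ε'` (`X1_near`, `X7_near`); for the other integral `q ≤ C` (`qT_bdd`) and `X1_near` with `lam`. (iii) The part in `(a/δ, ∞)`: the same
with `X1_far`, `X7_far`. -/
theorem X8_hit (hda : DA α ζ ρ a) (hD : Dom D) {b h : ℝ} (hL : LatS ζ ρ a b h) {n k l : ℕ → ℕ} {t r : ℝ}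
    (hT : Tm n k t) (ht : 0 < t) (hTl : Tm n l r) (hr : 0 < r) (hr1 : r < 1) : ∀ ε > (0 : ℝ), ∀ κ > (0 : ℝ), ∀ᶠ j in atTop, ∀ z : ℝ,
      ε * a (n j) ≤ z → z ≤ a (n j) / ε →
      |n j * hit D ρ (k j + l j) z - n j / a (n j) * bl D ρ h (z + k j * b) (a (n j)) (l j)
        ((Set.Ioi (0 : ℝ)).indicator (qT α ζ t (z / a (n j))))| ≤ κ := by
  intro ε hε κ hκ
  have hprob : IsProbabilityMeasure ρ := hda.prob
  have hh : 0 ≤ h := hL.nonneg
  obtain ⟨C1, hC1, hq⟩ := qT_bdd hda ht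
  obtain ⟨C2, hC2, hwin⟩ := hda.win (c := t / 2) (by positivity)
  obtain ⟨C3, hC3, hlen⟩ := X7_len hda hD (c₀ := r / 2) (by positivity)
  obtain ⟨C4, hC4, hpr⟩ := X7_prob hda (c₀ := r / 2) (by positivity)
  set κ' : ℝ := κ / (2 * (C3 + C4)) with hκ'
  have hκ'0 : 0 < κ' := by positivity
  set ε' : ℝ := κ / (2 * (4 * C2 + 2 * C1)) with hε'
  have hε'0 : 0 < ε' := by positivity
  have hstep0 : ∀ᵐ x ∂ρ, Cos 0 0 x := ae_of_all _ fun x hx => absurd rfl hx
  obtain ⟨δ1, hδ1, n1⟩ := X1_near hda hD hh (c₀ := r / 2) (by positivity) ε' hε'0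
  obtain ⟨δ2, hδ2, n2⟩ := X1_near hda hD (le_refl (0 : ℝ)) (c₀ := r / 2) (by positivity) ε' hε'0
  obtain ⟨δ3, hδ3, n3⟩ := X7_near hda (c₀ := r / 2) (by positivity) ε' hε'0
  obtain ⟨R1, hR1, f1⟩ := X1_far hda hD hh hL.step ε' hε'0
  obtain ⟨R2, hR2, f2⟩ := X1_far hda hD (le_refl (0 : ℝ)) hstep0 ε' hε'0
  obtain ⟨R3, hR3, f3⟩ := X7_far hda ε' hε'0
  set δn : ℝ := min δ1 (min δ2 δ3) / 2 with hδn
  have hδn0 : 0 < δn := by
    have : 0 < min δ1 (min δ2 δ3) := lt_min hδ1 (lt_min hδ2 hδ3)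
    positivity
  have hδn1 : δn < δ1 := by
    have h1 := min_le_left δ1 (min δ2 δ3)
    have h2 : 0 < min δ1 (min δ2 δ3) := lt_min hδ1 (lt_min hδ2 hδ3)
    rw [hδn]; linarith
  have hδn2 : δn < δ2 := by
    have h1 := (min_le_right δ1 (min δ2 δ3)).trans (min_le_left _ _)
    have h2 : 0 < min δ1 (min δ2 δ3) := lt_min hδ1 (lt_min hδ2 hδ3)
    rw [hδn]; linarith
  have hδn3 : δn < δ3 := by
    have h1 := (min_le_right δ1 (min δ2 δ3)).trans (min_le_right _ _)
    have h2 : 0 < min δ1 (min δ2 δ3) := lt_min hδ1 (lt_min hδ2 hδ3)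
    rw [hδn]; linarith
  set Rf : ℝ := max R1 (max R2 R3) + 1 with hRf
  have hRf1 : R1 < Rf := by
    have := le_max_left R1 (max R2 R3)
    linarith
  have hRf2 : R2 < Rf := by
    have := (le_max_left R2 R3).trans (le_max_right R1 (max R2 R3))
    linarith
  have hRf3 : R3 < Rf := by
    have := (le_max_right R2 R3).trans (le_max_right R1 (max R2 R3))
    linarith
  have hRf0 : 0 < Rf := hR1.trans hRf1
  set δ : ℝ := min δn (1 / Rf) with hδ
  have hδ0 : 0 < δ := lt_min hδn0 (by positivity)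
  have hlongE := X8_long hda hD hL hT ht ε hε δ hδ0 κ' hκ'0
  have hN0 : ∀ᶠ j in atTop, 1 ≤ n j := hT.top.eventually (eventually_ge_atTop 1)
  have hk1 : ∀ᶠ j in atTop, t / 2 < (k j : ℝ) / n j := hT.lim.eventually (lt_mem_nhds (half_lt_self ht))
  have hl1 : ∀ᶠ j in atTop, r / 2 < (l j : ℝ) / n j := hTl.lim.eventually (lt_mem_nhds (half_lt_self hr))
  have hl2 : ∀ᶠ j in atTop, (l j : ℝ) / n j < 1 := hTl.lim.eventually (gt_mem_nhds hr1)
  filter_upwards [hlongE, hN0, hk1, hl1, hl2, hT.top.eventually hwin, hT.top.eventually hlen, hT.top.eventually hpr,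
    hT.top.eventually n1, hT.top.eventually n2, hT.top.eventually n3, hT.top.eventually f1, hT.top.eventually f2,
    hT.top.eventually f3] with j jlong jN jk jl jl' jwin jlen jpr jn1 jn2 jn3 jf1 jf2 jf3
  intro z hz1 hz2
  set N : ℕ := n j with hN
  set A : ℝ := a N with hA
  have hA0 : 0 < A := hda.pos N
  have hNpos : (0 : ℝ) < N := by exact_mod_cast jN
  rw [lt_div_iff₀ hNpos] at jk jl
  rw [div_lt_iff₀ hNpos, one_mul] at jl'
  have hlN : l j ≤ N := by exact_mod_cast jl'.le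
  have hk0 : 1 ≤ k j := by
    have : (0 : ℝ) < k j := lt_of_le_of_lt (by positivity) jk
    exact_mod_cast this
  have hl0 : 1 ≤ l j := by
    have : (0 : ℝ) < l j := lt_of_le_of_lt (by positivity) jl
    exact_mod_cast this
  have hz0 : 0 < z / A := div_pos (lt_of_lt_of_le (by positivity) hz1) hA0
  set g : ℝ → ℝ := fun y => (Set.Ioi (0 : ℝ)).indicator (qT α ζ t (z / A)) (y / A) with hg
  have hg0 : ∀ y, 0 ≤ g y := by
    intro y
    refine Set.indicator_nonneg (fun x hx => ?_) _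
    exact qT_nonneg hda ht hz0 hx
  have hgC : ∀ y, g y ≤ C1 := by
    intro y
    by_cases hy : y / A ∈ Set.Ioi (0 : ℝ)
    · simp only [hg, Set.indicator_of_mem hy]
      exact hq _ _ hz0 hy
    · simp only [hg, Set.indicator_of_notMem hy]
      exact hC1.le
  have hgm : Measurable g := (X8b_gm hda ht hz0).comp (measurable_id.div_const A)
  have hAN : 0 < A / N := by positivity
  have hint := X8b_int (ρ := ρ) hD hk0 hl0 (z := z) (h := h) (c := z + k j * b) hh (A := A) (C1 := C1) (C2 := C2) (κ := κ')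
    (s1 := δn * A) (s2 := Rf * A) (L7 := C3 * (A / N)) (P7 := C4 * (A / N)) (v1 := ε' * (A / N)) (p1 := ε' * (A / N))
    (v2 := ε' * (A / N)) (p2 := ε' * (A / N)) (m1 := ε' * (A / N)) (m2 := ε' * (A / N)) hA0 hC1.le hC2.le hκ'0.le hgm hg0 hgC
    (by
      intro u w huw
      have h1 : ∀ x, (kap D ρ (k j) z).real (Set.Icc x (x + 1)) ≤ C2 / A := by
        intro x
        refine le_trans ?_ (jwin (k j) jk.le z x)
        exact ENNReal.toReal_mono (measure_ne_top _ _) (kap_le_fre hD (k j) z _)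
      have h2 := X8b_cover h1 huw
      calc A * (kap D ρ (k j) z).real (Set.Icc u w) ≤ A * (C2 / A * (w - u + 1)) :=
            mul_le_mul_of_nonneg_left h2 hA0.le
        _ = C2 * (w - u + 1) := by field_simp)
    (by
      intro u w hu huw hw
      have h1 : δ * A ≤ u := le_trans (mul_le_mul_of_nonneg_right (min_le_left _ _) hA0.le) hu
      have h2 : w ≤ A / δ := by
        refine hw.trans ?_
        rw [le_div_iff₀ hδ0]
        have h3 : δ ≤ 1 / Rf := min_le_right _ _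
        calc Rf * A * δ ≤ Rf * A * (1 / Rf) := mul_le_mul_of_nonneg_left h3 (by positivity)
          _ = A := by field_simp
      have h4 := jlong z u w hz1 hz2 h1 huw h2
      have h5 : ∫ y in IV D u w, g y ∂(lam h (z + k j * b)) =
          ∫ y in IV D u w, qT α ζ t (z / A) (y / A) ∂(lam h (z + k j * b)) := by
        refine setIntegral_congr_fun (measurableSet_IV hD u w) fun y hy => ?_
        have h6 : 0 < y := lt_of_lt_of_le (lt_of_lt_of_le (by positivity) h1) (IV_subset hD u w hy).1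
        have h7 : y / A ∈ Set.Ioi (0 : ℝ) := div_pos h6 hA0
        simp only [hg, Set.indicator_of_mem h7]
      rw [h5]
      exact h4)
    (by positivity) (by positivity) (by positivity) (by positivity) (by positivity) (by positivity) (by positivity)
    (by positivity) (jlen (l j) jl.le hlN) (jpr (l j) jl.le hlN)
    (by
      have h1 := jn2 (l j) jl.le 0
      rw [lam_zero] at h1
      refine le_trans (lintegral_mono_set ?_) h1
      exact Set.inter_subset_inter_right _ (Set.Iic_subset_Iic.2 (mul_le_mul_of_nonneg_right hδn2.le hA0.le)))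
    (by
      refine le_trans (measureReal_mono ?_) (jn3 (l j) jl.le hlN)
      rintro ω ⟨h1, h2⟩
      exact ⟨h1, lt_of_le_of_lt h2 (mul_lt_mul_of_pos_right hδn3 hA0)⟩)
    (by
      have h1 := jf2 (l j) hl0 hlN 0
      rw [lam_zero] at h1
      refine le_trans (lintegral_mono_set ?_) h1
      exact Set.inter_subset_inter_right _ fun y hy => lt_of_lt_of_le (mul_lt_mul_of_pos_right hRf2 hA0) hy)
    (by
      refine le_trans (measureReal_mono ?_) (jf3 (l j) hlN)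
      rintro ω ⟨h1, h2⟩
      exact ⟨h1, lt_of_lt_of_le (mul_lt_mul_of_pos_right hRf3 hA0) h2⟩)
    (by
      have h1 := jn1 (l j) jl.le (z + k j * b)
      refine le_trans (lintegral_mono_set ?_) h1
      exact Set.inter_subset_inter_right _ (Set.Iic_subset_Iic.2 (mul_le_mul_of_nonneg_right hδn1.le hA0.le)))
    (by
      have h1 := jf1 (l j) hl0 hlN (z + k j * b)
      refine le_trans (lintegral_mono_set ?_) h1
      exact Set.inter_subset_inter_right _ fun y hy => lt_of_lt_of_le (mul_lt_mul_of_pos_right hRf1 hA0) hy)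
  have hbl : bl D ρ h (z + k j * b) A (l j) ((Set.Ioi (0 : ℝ)).indicator (qT α ζ t (z / A))) =
      (∫⁻ y in D, ENNReal.ofReal (g y) * ENNReal.ofReal (hit D ρ (l j) y) ∂(lam h (z + k j * b))).toReal := by
    unfold bl
    rw [integral_eq_lintegral_of_nonneg_ae]
    · congr 1
      refine lintegral_congr fun y => ?_
      rw [← ENNReal.ofReal_mul (hg0 y)]
    · exact ae_of_all _ fun y => mul_nonneg (hg0 y) (hit_nonneg _ _)
    · exact (hgm.mul (measurable_hit hD (l j))).aestronglyMeasurable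
  rw [hbl]
  set Y : ℝ := (∫⁻ y in D, ENNReal.ofReal (g y) * ENNReal.ofReal (hit D ρ (l j) y) ∂(lam h (z + k j * b))).toReal with hY
  have hfac : (N : ℝ) * hit D ρ (k j + l j) z - N / A * Y = N / A * (A * hit D ρ (k j + l j) z - Y) := by
    field_simp
  have hNA : 0 < (N : ℝ) / A := by positivity
  rw [hfac, abs_mul, abs_of_pos hNA]
  calc (N : ℝ) / A * |A * hit D ρ (k j + l j) z - Y| ≤ N / A * (κ' * (C3 * (A / N) + C4 * (A / N)) +
        (C2 * (ε' * (A / N) + ε' * (A / N)) + (C2 * (ε' * (A / N) + ε' * (A / N)) +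
        (C1 * (ε' * (A / N)) + C1 * (ε' * (A / N)))))) := mul_le_mul_of_nonneg_left hint hNA.le
    _ = κ' * (C3 + C4) + ε' * (4 * C2 + 2 * C1) := by field_simp; ring
    _ = κ := by
      rw [hκ', hε']
      field_simp
      ring

end Pool.Agent.BPT
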