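import Pool.Agent.MP_99a865_pr.ST.X6
import Pool.Agent.MP_99a865_pr.ST.X8b

/-! **[STB-X9a]** The density of the exit time of the limit process. -/

open MeasureTheory ProbabilityTheory Filter Topology
open scoped ENNReal NNReal

namespace Pool.Agent.BPT

variable {α : ℝ} {ζ ρ : Measure ℝ} {a : ℕ → ℝ} {D : Set ℝ}

theorem X9a_one : BCo 1 (fun _ : ℝ => (1 : ℝ)) := ⟨fun x _ => by simp, continuousOn_const⟩

theorem X9a_const (M : ℝ) : BCo |M| (fun _ : ℝ => M * (1 : ℝ)) :=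
  ⟨fun x _ => by simp, continuousOn_const⟩

theorem X9a_mono {M N : ℝ} {f : ℝ → ℝ} (hf : BCo M f) (h : M ≤ N) : BCo N f :=
  ⟨fun x hx => (hf.bd x hx).trans h, hf.cont⟩

theorem X9a_qT (hda : DA α ζ ρ a) {t : ℝ} (ht : 0 < t) :
    ∃ C > (0 : ℝ), ∀ x > (0 : ℝ), BCo C (qT α ζ t x) := by
  obtain ⟨C, hC, h⟩ := qT_bdd hda ht
  refine ⟨C, hC, fun x hx => ⟨fun y hy => ?_, ?_⟩⟩
  · rw [abs_of_nonneg (qT_nonneg hda ht hx hy)]
    exact h x y hx hy
  · have h1 : ContinuousOn (fun y : ℝ => ((x, y) : ℝ × ℝ)) (Set.Ioi 0) := by fun_prop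
    have h2 : Set.MapsTo (fun y : ℝ => ((x, y) : ℝ × ℝ)) (Set.Ioi 0) (Set.Ioi 0 ×ˢ Set.Ioi 0) :=
      fun y hy => Set.mem_prod.2 ⟨hx, hy⟩
    have h3 : ContinuousOn (fun y : ℝ => qT α ζ t x y) (Set.Ioi 0) :=
      ContinuousOn.comp' (g := fun p : ℝ × ℝ => qT α ζ t p.1 p.2) (f := fun y : ℝ => ((x, y) : ℝ × ℝ)) (qT_cont hda ht) h1 h2
    exact h3

theorem X9a_abs (hda : DA α ζ ρ a) {r M : ℝ} (hr : 0 < r) (hr1 : r < 1) {f : ℝ → ℝ} (hf : BCo M f) :
    |bet α ζ r f| ≤ M * bet α ζ r (fun _ => 1) := by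
  rw [abs_le]
  constructor
  · have h1 := bet_mono hda hr hr1 (X9a_const (-M)) hf fun y hy => by
      rw [mul_one]
      exact (abs_le.1 (hf.bd y hy)).1
    rw [bet_smul hda hr hr1 X9a_one] at h1
    linarith
  · have h1 := bet_mono hda hr hr1 hf (X9a_const M) fun y hy => by
      rw [mul_one]
      exact (abs_le.1 (hf.bd y hy)).2
    rw [bet_smul hda hr hr1 X9a_one] at h1
    exact h1

theorem X9a_sub {M N : ℝ} {f g : ℝ → ℝ} (hf : BCo M f) (hg : BCo N g) : BCo (M + N) fun y => f y - g y :=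
  ⟨fun x hx => (abs_sub _ _).trans (add_le_add (hf.bd x hx) (hg.bd x hx)), hf.cont.sub hg.cont⟩

theorem X9a_bet_sub (hda : DA α ζ ρ a) {r M N : ℝ} (hr : 0 < r) (hr1 : r < 1) {f g : ℝ → ℝ} (hf : BCo M f)
    (hg : BCo N g) : bet α ζ r (fun y => f y - g y) = bet α ζ r f - bet α ζ r g := by
  have h1 := bet_add hda hr hr1 (X9a_sub hf hg) hg
  have h2 : (fun y => f y - g y + g y) = f := by
    funext y
    ring
  rw [h2] at h1
  linarith

theorem X9a_split {M δ ε : ℝ} (hM : 0 < M) (hδ : 0 < δ) (hδ1 : δ < 1) {d : ℝ → ℝ} (hd : BCo M d)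
    (hε : ∀ y, δ / 2 ≤ y → y ≤ 2 / δ → |d y| ≤ ε) (hε0 : 0 ≤ ε) :
    BCo ε (fun y => d y * cut δ y) ∧ BCo 1 (fun y => (1 / M) * (d y * (1 - cut δ y))) ∧
      ∀ y, δ ≤ y → y ≤ 1 / δ → (1 / M) * (d y * (1 - cut δ y)) = 0 := by
  obtain ⟨hc, h01, h1, h0, h0'⟩ := cut_facts hδ hδ1
  refine ⟨⟨fun y hy => ?_, hd.cont.mul hc.continuousOn⟩, ⟨fun y hy => ?_, ?_⟩, fun y h2 h3 => ?_⟩
  · rcases le_or_gt y (δ / 2) with h2 | h2
    · rw [h0 y h2, mul_zero, abs_zero]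
      exact hε0
    · rcases le_or_gt (2 / δ) y with h3 | h3
      · rw [h0' y h3, mul_zero, abs_zero]
        exact hε0
      · rw [abs_mul, abs_of_nonneg (h01 y).1]
        have h4 := hε y h2.le h3.le
        nlinarith [abs_nonneg (d y), h01 y]
  · have h4 := hd.bd y hy
    rw [abs_mul, abs_mul, abs_of_pos (by positivity : (0 : ℝ) < 1 / M), abs_of_nonneg (by linarith [(h01 y).2] : 0 ≤ 1 - cut δ y)]
    have h5 : |d y| * (1 - cut δ y) ≤ M := by nlinarith [abs_nonneg (d y), h01 y]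
    calc 1 / M * (|d y| * (1 - cut δ y)) ≤ 1 / M * M := mul_le_mul_of_nonneg_left h5 (by positivity)
      _ = 1 := by field_simp
  · exact continuousOn_const.mul (hd.cont.mul (continuousOn_const.sub hc.continuousOn))
  · rw [h1 y h2 h3, sub_self, mul_zero, mul_zero]

/-- a small function on the support of the cutoff function -/
theorem X9a_small (hda : DA α ζ ρ a) {r : ℝ} (hr : 0 < r) (hr1 : r < 1) {M δ ε ε' : ℝ} (hM : 0 < M) (hδ : 0 < δ)
    (hδ1 : δ < 1) (hδ2 : ∀ f : ℝ → ℝ, BCo 1 f → (∀ y, δ ≤ y → y ≤ 1 / δ → f y = 0) → |bet α ζ r f| ≤ ε')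
    {d : ℝ → ℝ} (hd : BCo M d) (hε : ∀ y, δ / 2 ≤ y → y ≤ 2 / δ → |d y| ≤ ε) (hε0 : 0 ≤ ε) :
    |bet α ζ r d| ≤ ε * bet α ζ r (fun _ => 1) + M * ε' := by
  obtain ⟨h1, h2, h3⟩ := X9a_split hM hδ hδ1 hd hε hε0
  have h4 : d = fun y => d y * cut δ y + M * ((1 / M) * (d y * (1 - cut δ y))) := by
    funext y
    field_simp
    ring
  have h5 := hδ2 _ h2 h3
  have h6 := X9a_abs hda hr hr1 h1
  have h7 : BCo (M * 1) fun y => M * ((1 / M) * (d y * (1 - cut δ y))) := by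
    refine ⟨fun y hy => ?_, continuousOn_const.mul h2.cont⟩
    rw [abs_mul, abs_of_pos hM]
    exact mul_le_mul_of_nonneg_left (h2.bd y hy) hM.le
  rw [h4, bet_add hda hr hr1 h1 h7, bet_smul hda hr hr1 h2]
  refine (abs_add_le _ _).trans (add_le_add h6 ?_)
  rw [abs_mul, abs_of_pos hM]
  exact mul_le_mul_of_nonneg_left h5 hM.le

theorem X9a_cont (hda : DA α ζ ρ a) {s r : ℝ} (hs : 0 < s) (hr : 0 < r) (hr1 : r < 1) :
    ContinuousOn (fun x => bet α ζ r (qT α ζ s x)) (Set.Ioi 0) := by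
  obtain ⟨C, hC, hqC⟩ := X9a_qT hda hs
  have hB := bet_pos hda hr hr1
  set B := bet α ζ r (fun _ => 1) with hBdef
  intro x₀ hx₀
  have hx₀' : 0 < x₀ := hx₀
  rw [Metric.continuousWithinAt_iff]
  intro ε hε
  obtain ⟨δ, hδ, hδ1, hδ2⟩ := bet_tail hda hr hr1 (ε / (4 * C)) (by positivity)
  have hK : IsCompact (Set.Icc (x₀ / 2) (2 * x₀) ×ˢ Set.Icc (δ / 2) (2 / δ)) := isCompact_Icc.prod isCompact_Icc
  have hKs : Set.Icc (x₀ / 2) (2 * x₀) ×ˢ Set.Icc (δ / 2) (2 / δ) ⊆ Set.Ioi (0 : ℝ) ×ˢ Set.Ioi (0 : ℝ) := by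
    rintro ⟨x, y⟩ ⟨h1, h2⟩
    exact ⟨lt_of_lt_of_le (by positivity : (0 : ℝ) < x₀ / 2) h1.1, lt_of_lt_of_le (by positivity : (0 : ℝ) < δ / 2) h2.1⟩
  have hU := hK.uniformContinuousOn_of_continuous ((qT_cont hda hs).mono hKs)
  rw [Metric.uniformContinuousOn_iff] at hU
  obtain ⟨η, hη, hη2⟩ := hU (ε / (4 * B)) (by positivity)
  refine ⟨min η (x₀ / 2), lt_min hη (by positivity), fun x hx hxd => ?_⟩
  have hx' : 0 < x := hx
  rw [Real.dist_eq] at hxd ⊢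
  have h1 : |x - x₀| < η := hxd.trans_le (min_le_left _ _)
  have h2 : |x - x₀| < x₀ / 2 := hxd.trans_le (min_le_right _ _)
  rw [abs_lt] at h2
  rw [← X9a_bet_sub hda hr hr1 (hqC x hx') (hqC x₀ hx₀')]
  have hd : BCo C fun y => qT α ζ s x y - qT α ζ s x₀ y := by
    refine ⟨fun y hy => ?_, (hqC x hx').cont.sub (hqC x₀ hx₀').cont⟩
    have a1 := (hqC x hx').bd y hy
    have a2 := (hqC x₀ hx₀').bd y hy
    have a3 := qT_nonneg hda hs hx' hy
    have a4 := qT_nonneg hda hs hx₀' hy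
    rw [abs_of_nonneg a3] at a1
    rw [abs_of_nonneg a4] at a2
    rw [abs_le]
    constructor <;> linarith
  have h3 := X9a_small hda hr hr1 hC hδ hδ1 hδ2 hd (ε := ε / (4 * B)) (fun y hy1 hy2 => by
    have h4 := hη2 (x, y) ⟨⟨by linarith, by linarith⟩, hy1, hy2⟩ (x₀, y) ⟨⟨by linarith, by linarith⟩, hy1, hy2⟩ (by
      rw [Prod.dist_eq, dist_self, max_eq_left dist_nonneg, Real.dist_eq]
      exact h1)
    rw [Real.dist_eq] at h4
    exact h4.le) (by positivity)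
  refine h3.trans_lt ?_
  have e1 : ε / (4 * B) * B = ε / 4 := by field_simp
  have e2 : C * (ε / (4 * C)) = ε / 4 := by field_simp
  rw [← hBdef, e1, e2]
  linarith

/-- **[STB-X9a]** PROOF. `(QO (s+r) x - QO (s+r+η) x)/η = (1/η) ∫ qT s x y (QO r y - QO (r+η) y) dy` by `QT_semi`, `qT_int`; `bet_tendsto` with `g = qT s x`
(`qT_bdd`, `qT_cont`). -/
theorem hQ_tendsto (hda : DA α ζ ρ a) {s r : ℝ} (hs : 0 < s) (hr : 0 < r) (hr1 : r < 1) {x : ℝ} (hx : 0 < x) :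
    Tendsto (fun η : ℝ => (QO α ζ (s + r) x - QO α ζ (s + r + η) x) / η) (𝓝[>] (0 : ℝ)) (𝓝 (bet α ζ r (qT α ζ s x))) := by
  obtain ⟨C, hC, hqC⟩ := X9a_qT hda hs
  obtain ⟨-, -, -, hQO⟩ := QO_facts hda
  refine (bet_tendsto hda hr hr1 (hqC x hx)).congr' ?_
  filter_upwards [self_mem_nhdsWithin] with η hη
  have hη' : 0 < η := hη
  congr 1
  have key : ∀ u, 0 < u → IntegrableOn (fun y => qT α ζ s x y * QO α ζ u y) (Set.Ioi 0) ∧
      ∫ y in Set.Ioi (0 : ℝ), qT α ζ s x y * QO α ζ u y = QO α ζ (s + u) x := by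
    intro u hu
    have h1 := qT_int hda hs (hQO u hu) hx
    refine ⟨h1.1, h1.2.trans ?_⟩
    exact QT_semi hda hs hu X9a_one hx
  have h1 := key r hr
  have h2 := key (r + η) (by linarith)
  rw [show s + r + η = s + (r + η) by ring, ← h1.2, ← h2.2, ← integral_sub h1.1 h2.1]
  refine integral_congr_ae (Eventually.of_forall fun y => ?_)
  show qT α ζ s x y * (QO α ζ r y - QO α ζ (r + η) y) = _
  ring

theorem hQ_eq (hda : DA α ζ ρ a) {s r : ℝ} (hs : 0 < s) (hr : 0 < r) (hr1 : r < 1) {x : ℝ} (hx : 0 < x) :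
    hQ α ζ (s + r) x = bet α ζ r (qT α ζ s x) := (hQ_tendsto hda hs hr hr1 hx).limUnder_eq

/-- **[STB-X9b]** bounded and continuous (`hQ_eq` with `r = min (t/2) (1/2)`; `qT_bdd`; continuity: `qT s x' → qT s x` locally uniformly in `y`, `bet_tail`, `bet_mono`) -/
theorem hQ_BCo (hda : DA α ζ ρ a) {t : ℝ} (ht : 0 < t) : ∃ M > (0 : ℝ), BCo M (hQ α ζ t) := by
  set r := min (t / 2) (1 / 2) with hrdef
  have hr : 0 < r := lt_min (by positivity) (by norm_num)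
  have hr1 : r < 1 := (min_le_right _ _).trans_lt (by norm_num)
  have hrt : r ≤ t / 2 := min_le_left _ _
  have hs : 0 < t - r := by linarith
  obtain ⟨C, hC, hqC⟩ := X9a_qT hda hs
  have hB := bet_pos hda hr hr1
  have heq : ∀ x, 0 < x → hQ α ζ t x = bet α ζ r (qT α ζ (t - r) x) := by
    intro x hx
    have h1 := hQ_eq hda hs hr hr1 hx
    rw [sub_add_cancel] at h1
    exact h1
  refine ⟨C * bet α ζ r (fun _ => 1), by positivity, fun x hx => ?_, ?_⟩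
  · rw [heq x hx]
    exact X9a_abs hda hr hr1 (hqC x hx)
  · exact (X9a_cont hda hs hr hr1).congr fun x hx => heq x hx

/-- **[STB-X9c]** PROOF. `hQ_eq`, `bet (qT s x) ≥ c bet (cut δ)` with `c = min qT s x y > 0` over `y ∈ [δ/2, 2/δ]` (`P1_pos`), and `bet (cut δ) ≥ bet 1 - ε > 0` (`bet_pos`, `bet_tail`). -/
theorem hQ_pos (hda : DA α ζ ρ a) {t : ℝ} (ht : 0 < t) {x : ℝ} (hx : 0 < x) : 0 < hQ α ζ t x := by
  set r := min (t / 2) (1 / 2) with hrdef
  have hr : 0 < r := lt_min (by positivity) (by norm_num)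
  have hr1 : r < 1 := (min_le_right _ _).trans_lt (by norm_num)
  have hrt : r ≤ t / 2 := min_le_left _ _
  have hs : 0 < t - r := by linarith
  obtain ⟨C, hC, hqC⟩ := X9a_qT hda hs
  have hB := bet_pos hda hr hr1
  have heq : hQ α ζ t x = bet α ζ r (qT α ζ (t - r) x) := by
    have h1 := hQ_eq hda hs hr hr1 hx
    rw [sub_add_cancel] at h1
    exact h1
  rw [heq]
  obtain ⟨δ, hδ, hδ1, hδ2⟩ := bet_tail hda hr hr1 (bet α ζ r (fun _ => 1) / 2) (by positivity)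
  obtain ⟨hc, h01, h1, h0, h0'⟩ := cut_facts hδ hδ1
  have hcB : BCo 1 (cut δ) := ⟨fun y _ => by
    rw [abs_of_nonneg (h01 y).1]
    exact (h01 y).2, hc.continuousOn⟩
  have hcB' : BCo 1 (fun y => 1 - cut δ y) := ⟨fun y _ => by
    rw [abs_of_nonneg (by linarith [(h01 y).2])]
    linarith [(h01 y).1], continuousOn_const.sub hc.continuousOn⟩
  have h2 := hδ2 _ hcB' fun y h3 h4 => by rw [h1 y h3 h4, sub_self]
  rw [X9a_bet_sub hda hr hr1 X9a_one hcB] at h2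
  have h3 := (abs_le.1 h2).2
  have h4 : 0 < bet α ζ r (cut δ) := by linarith
  obtain ⟨c, hc0, hcq⟩ := P1_pos hda hs (R := x + 1 / x + 2 / δ + 1) (by
    have := one_div_pos.2 hx
    have h5 : 0 < 2 / δ := by positivity
    linarith)
  have h5 : 0 < 2 / δ := by positivity
  have h6 := one_div_pos.2 hx
  have h7 : ∀ y > 0, c * cut δ y ≤ qT α ζ (t - r) x y := by
    intro y hy
    have h8 := qT_nonneg hda hs hx hy
    rcases le_or_gt y (δ / 2) with h9 | h9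
    · rw [h0 y h9, mul_zero]
      exact h8
    · rcases le_or_gt (2 / δ) y with h10 | h10
      · rw [h0' y h10, mul_zero]
        exact h8
      · have h11 := hcq x y (by
          rw [div_le_iff₀ (by positivity)]
          have : x * (1 / x) = 1 := by field_simp
          nlinarith) (by linarith) (by
          rw [div_le_iff₀ (by positivity)]
          have : δ / 2 * (2 / δ) = 1 := by field_simp
          nlinarith) (by linarith)
        nlinarith [h01 y]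
  have hcc : BCo (c * 1) fun y => c * cut δ y := ⟨fun y hy => by
    rw [abs_mul, abs_of_pos hc0]
    exact mul_le_mul_of_nonneg_left (hcB.bd y hy) hc0.le, continuousOn_const.mul hc.continuousOn⟩
  have h8 := bet_mono hda hr hr1 hcc (hqC x hx) h7
  rw [bet_smul hda hr hr1 hcB] at h8
  exact lt_of_lt_of_le (by positivity) h8

end Pool.Agent.BPT
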