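import Pool.Agent.MP_99a865_pr.ST.N1

/-! **[STB-Z1b]** The density of a strictly stable law. -/

open MeasureTheory ProbabilityTheory Filter Topology
open scoped ENNReal NNReal FourierTransform RealInnerProductSpace

namespace Pool.Agent.BPT

variable {α : ℝ} {ζ ρ : Measure ℝ} {a : ℕ → ℝ}

/-- Fourier transform of `ξ ↦ charFun ζ (2πξ)` -/
noncomputable def Z1b_P (ζ : Measure ℝ) : ℝ → ℂ := 𝓕 (fun ξ : ℝ => charFun ζ (2 * Real.pi * ξ))

theorem Z1b_int2 (hφ : Integrable (charFun ζ)) : Integrable (fun ξ : ℝ => charFun ζ (2 * Real.pi * ξ)) :=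
  hφ.comp_mul_left' (by positivity)

theorem Z1b_parseval [IsProbabilityMeasure ζ] (hφ : Integrable (charFun ζ)) {f : ℝ → ℂ} (hf : Integrable f)
    (hc : Continuous f) (hF : Integrable (𝓕 f)) :
    ∫ x, f x ∂ζ = ∫ x, f x * Z1b_P ζ x := by
  have h1 : f = 𝓕⁻ (𝓕 f) := (hc.fourierInv_fourier_eq hf hF).symm
  have h2 : ∫ x, f x ∂ζ = ∫ ξ, 𝓕 f ξ * charFun ζ (2 * Real.pi * ξ) := by
    have h := VectorFourier.integral_fourierIntegral_smul_eq_flip (μ := (volume : Measure ℝ)) (ν := ζ) (e := Real.fourierChar)
      (L := -(innerₗ ℝ)) (f := 𝓕 f) (g := fun _ => (1:ℂ)) Real.continuous_fourierChar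
      (by simp only [LinearMap.neg_apply, innerₗ_apply_apply]; fun_prop) hF (integrable_const 1)
    have e1 : ∀ x, VectorFourier.fourierIntegral Real.fourierChar (volume : Measure ℝ) (-(innerₗ ℝ)) (𝓕 f) x = f x := by
      intro x
      conv_rhs => rw [h1]
      rw [Real.fourierInv_eq]
      simp only [VectorFourier.fourierIntegral, LinearMap.neg_apply, neg_neg, innerₗ_apply_apply]
    have e2 : ∀ ξ, VectorFourier.fourierIntegral Real.fourierChar ζ (-(innerₗ ℝ)).flip (fun _ => (1:ℂ)) ξ =
        charFun ζ (2 * Real.pi * ξ) := by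
      intro ξ
      rw [charFun_apply_real]
      simp only [VectorFourier.fourierIntegral, LinearMap.flip_apply, LinearMap.neg_apply, neg_neg, innerₗ_apply_apply]
      refine integral_congr_ae (Eventually.of_forall fun x => ?_)
      simp only [Circle.smul_def, Real.fourierChar_apply, smul_eq_mul, mul_one]
      congr 1
      simp only [RCLike.inner_apply, conj_trivial]
      push_cast
      ring
    simp only [e1, e2, smul_eq_mul, mul_one] at h
    exact h
  rw [h2]
  have h := VectorFourier.integral_fourierIntegral_smul_eq_flip (μ := (volume : Measure ℝ)) (ν := (volume : Measure ℝ)) (e := Real.fourierChar)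
      (L := innerₗ ℝ) (f := f) (g := fun ξ : ℝ => charFun ζ (2 * Real.pi * ξ)) Real.continuous_fourierChar
      (by simp only [innerₗ_apply_apply]; fun_prop) hf (Z1b_int2 hφ)
  simp only [smul_eq_mul, flip_innerₗ] at h
  exact h

theorem Z1b_P_eq (ζ : Measure ℝ) (x : ℝ) : Z1b_P ζ x = (dens ζ x : ℂ) := by
  have h1 : Z1b_P ζ x = (2 * Real.pi : ℝ)⁻¹ * ∫ s : ℝ, Complex.exp (-(s * x) * Complex.I) * charFun ζ s := by
    have e1 : Z1b_P ζ x = ∫ ξ : ℝ, (fun s : ℝ => Complex.exp (-(s * x) * Complex.I) * charFun ζ s)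
        (2 * Real.pi * ξ) := by
      rw [Z1b_P, Real.fourier_eq]
      refine integral_congr_ae (Eventually.of_forall fun ξ => ?_)
      simp only [Circle.smul_def, Real.fourierChar_apply, smul_eq_mul, RCLike.inner_apply, conj_trivial]
      congr 2
      push_cast
      ring
    rw [e1]
    refine (Measure.integral_comp_mul_left
      (fun s : ℝ => Complex.exp (-(s * x) * Complex.I) * charFun ζ s) (2 * Real.pi)).trans ?_
    rw [abs_of_pos (by positivity)]
    simp only [Complex.real_smul]
  have h2 : (∫ s : ℝ, Complex.exp (-(s * x) * Complex.I) * charFun ζ s) =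
      ((∫ s : ℝ, Complex.exp (-(s * x) * Complex.I) * charFun ζ s).re : ℂ) := by
    have h3 : (starRingEnd ℂ) (∫ s : ℝ, Complex.exp (-(s * x) * Complex.I) * charFun ζ s) =
        ∫ s : ℝ, Complex.exp (-(s * x) * Complex.I) * charFun ζ s := by
      rw [← integral_conj, ← integral_neg_eq_self]
      refine integral_congr_ae (Eventually.of_forall fun s => ?_)
      simp only [map_mul, charFun_neg, Complex.conj_conj, ← Complex.exp_conj]
      congr 2
      simp
    exact (Complex.conj_eq_iff_re.1 h3).symm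
  rw [h1, h2, dens]
  push_cast
  ring

theorem Z1b_even {f : ℝ → ℝ} (hf : IntegrableOn (fun x => f |x|) (Set.Ioi 0)) : Integrable (fun x => f |x|) := by
  have int_Iic : IntegrableOn (fun x ↦ f |x|) (Set.Iic 0) := by
    rw [← Measure.map_neg_eq_self (volume : Measure ℝ)]
    let m : MeasurableEmbedding fun x : ℝ => -x := (Homeomorph.neg ℝ).measurableEmbedding
    rw [m.integrableOn_map_iff]
    simp_rw [Function.comp_def, abs_neg, Set.neg_preimage, Set.neg_Iic, neg_zero]
    exact Iff.mpr integrableOn_Ici_iff_integrableOn_Ioi hf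
  have := int_Iic.union hf
  rwa [Set.Iic_union_Ioi, integrableOn_univ] at this

/-- `‖charFun ζ s‖ = exp (-c|s|^α)` (`SS.norm`), `α ≥ 1` -/
theorem SS.charFun_int (h : SS α ζ) (hα : 1 < α) : Integrable (charFun ζ) := by
  have := h.prob
  obtain ⟨c, hc, hn⟩ := h.norm (by linarith)
  have hdom : Integrable (fun t : ℝ => Real.exp (-c * |t| ^ α)) := by
    have h1 : IntegrableOn (fun t : ℝ => Real.exp (-c * |t| ^ α)) (Set.Ioi 0) := by
      have h2 := integrableOn_rpow_mul_exp_neg_mul_rpow (p := α) (s := 0) (b := c) (by norm_num) (by linarith) hc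
      refine h2.congr_fun (fun t ht => ?_) measurableSet_Ioi
      simp only [Real.rpow_zero, one_mul, abs_of_pos (Set.mem_Ioi.1 ht)]
    exact Z1b_even (f := fun t => Real.exp (-c * t ^ α)) h1
  refine hdom.mono' (measurable_charFun.aestronglyMeasurable) (Eventually.of_forall fun t => ?_)
  rw [hn t]

/-- **[STB-Z1]** PROOF. Write `p = dens ζ`; `p` is continuous and bounded by `(1/2π) ∫ ‖charFun ζ‖` (dominated
convergence), and the integral in the definition of `dens` is real (conjugate symmetry `charFun ζ (-s) = conj`).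
For `σ > 0` let `p_σ(x) = (1/2π) ∫ e^{-isx} charFun ζ s e^{-σ²s²/2} ds`. By Fubini and the Fourier transform of the
gaussian (`charFun_gaussianReal` / `fourierIntegral_gaussian`), `p_σ(x) = ∫ g_σ(x - y) ∂ζ(y) ≥ 0` where `g_σ` is the density of
`gaussianReal 0 σ²`. So for `f` continuous with compact support, `∫ f(x) p_σ(x) dx = ∫∫ f(y + z) g_σ(z) dz ∂ζ(y) → ∫ f ∂ζ` as
`σ → 0` and `p_σ → p` uniformly, `∫ f p_σ → ∫ f p`. Hence `p ≥ 0` and `ζ = volume.withDensity (ofReal ∘ p)` (test functions,
e.g. `Measure.ext_of_forall_integral_eq_of_IsFiniteMeasure` or via intervals: `ζ (Ioo u w)` by approximation). -/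
theorem SS.dens_cont (h : SS α ζ) (hα : 1 < α) : Continuous (dens ζ) := by
  have := h.prob
  have h1 : Continuous (Z1b_P ζ) := by
    unfold Z1b_P
    exact VectorFourier.fourierIntegral_continuous Real.continuous_fourierChar
      (by simp only [innerₗ_apply_apply]; fun_prop) (Z1b_int2 (h.charFun_int hα))
  have h2 : dens ζ = fun x => (Z1b_P ζ x).re := by
    funext x
    rw [Z1b_P_eq, Complex.ofReal_re]
  rw [h2]
  exact Complex.continuous_re.comp h1

theorem SS.dens_bdd (h : SS α ζ) (hα : 1 < α) : ∃ M > (0 : ℝ), ∀ x, |dens ζ x| ≤ M := by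
  refine ⟨(∫ ξ : ℝ, ‖charFun ζ (2 * Real.pi * ξ)‖) + 1, ?_, fun x => ?_⟩
  · have : 0 ≤ ∫ ξ : ℝ, ‖charFun ζ (2 * Real.pi * ξ)‖ := integral_nonneg fun _ => norm_nonneg _
    linarith
  · have h1 : ‖Z1b_P ζ x‖ ≤ ∫ ξ : ℝ, ‖charFun ζ (2 * Real.pi * ξ)‖ :=
      VectorFourier.norm_fourierIntegral_le_integral_norm _ _ _ _ _
    rw [Z1b_P_eq, Complex.norm_real, Real.norm_eq_abs] at h1
    linarith

/-- smooth bump functions -/
theorem Z1b_bump [IsProbabilityMeasure ζ] (hφ : Integrable (charFun ζ)) {c : ℝ} (b : ContDiffBump c) :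
    ∫ x, b x ∂ζ = ∫ x, b x * dens ζ x := by
  have hcs : HasCompactSupport (fun x => ((b x : ℝ) : ℂ)) :=
    b.hasCompactSupport.comp_left (g := fun y : ℝ => (y : ℂ)) (by simp)
  have hcd : ContDiff ℝ ((⊤ : ℕ∞) : WithTop ℕ∞) (fun x => ((b x : ℝ) : ℂ)) :=
    Complex.ofRealCLM.contDiff.comp b.contDiff
  let g : SchwartzMap ℝ ℂ := hcs.toSchwartzMap hcd
  have hg : ∀ x, g x = ((b x : ℝ) : ℂ) := fun x => rfl
  have h1 : Integrable (fun x => g x) := g.integrable
  have h2 : Integrable (𝓕 (fun x => g x)) := by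
    have := (𝓕 g).integrable (μ := volume)
    exact this
  have h3 := Z1b_parseval hφ h1 g.continuous h2
  simp only [hg, Z1b_P_eq] at h3
  have e1 : ∫ x, ((b x : ℝ) : ℂ) ∂ζ = ((∫ x, b x ∂ζ : ℝ) : ℂ) := integral_ofReal
  have e2 : ∫ x, ((b x : ℝ) : ℂ) * (dens ζ x : ℂ) = ((∫ x, b x * dens ζ x : ℝ) : ℂ) := by
    refine Eq.trans ?_ (integral_ofReal (𝕜 := ℂ) (f := fun x => b x * dens ζ x))
    refine integral_congr_ae (Eventually.of_forall fun x => ?_)
    simp
  rw [e1, e2] at h3
  exact_mod_cast h3

theorem Z1b_ball (h : SS α ζ) (hα : 1 < α) (c : ℝ) {r : ℝ} (hr : 0 < r) :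
    ζ.real (Metric.closedBall c r) = ∫ x in Metric.closedBall c r, dens ζ x := by
  have := h.prob
  obtain ⟨M, hM, hbd⟩ := h.dens_bdd hα
  have hcont := h.dens_cont hα
  let b : ℕ → ContDiffBump c := fun n => ⟨r, r + 1 / (n + 1), hr, by
    have : (0:ℝ) < 1 / (n + 1) := by positivity
    linarith⟩
  have hlim : ∀ x, Tendsto (fun n => b n x) atTop (𝓝 ((Metric.closedBall c r).indicator (fun _ => (1:ℝ)) x)) := by
    intro x
    by_cases hx : x ∈ Metric.closedBall c r
    · rw [Set.indicator_of_mem hx]
      refine tendsto_const_nhds.congr (fun n => ?_)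
      exact ((b n).one_of_mem_closedBall hx).symm
    · rw [Set.indicator_of_notMem hx]
      rw [Metric.mem_closedBall, not_le] at hx
      have h1 : Tendsto (fun n : ℕ => r + 1 / ((n : ℝ) + 1)) atTop (𝓝 (r + 0)) :=
        tendsto_const_nhds.add tendsto_one_div_add_atTop_nhds_zero_nat
      rw [add_zero] at h1
      have h2 : ∀ᶠ n : ℕ in atTop, r + 1 / ((n : ℝ) + 1) < dist x c := h1.eventually_lt_const hx
      refine tendsto_const_nhds.congr' ?_
      filter_upwards [h2] with n hn
      exact ((b n).zero_of_le_dist hn.le).symm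
  have hle : ∀ n x, |b n x| ≤ (Metric.closedBall c (r + 1)).indicator (fun _ => (1:ℝ)) x := by
    intro n x
    by_cases hx : x ∈ Metric.closedBall c (r + 1)
    · rw [Set.indicator_of_mem hx, abs_of_nonneg (b n).nonneg]
      exact (b n).le_one
    · rw [Set.indicator_of_notMem hx]
      rw [Metric.mem_closedBall, not_le] at hx
      have h2 : r + 1 / ((n : ℝ) + 1) ≤ r + 1 := by
        have : 1 / ((n : ℝ) + 1) ≤ 1 := by
          rw [div_le_one (by positivity)]
          have : (0:ℝ) ≤ n := n.cast_nonneg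
          linarith
        linarith
      have : b n x = 0 := (b n).zero_of_le_dist (h2.trans hx.le)
      rw [this, abs_zero]
  have l1 : Tendsto (fun n => ∫ x, b n x ∂ζ) atTop
      (𝓝 (∫ x, (Metric.closedBall c r).indicator (fun _ => (1:ℝ)) x ∂ζ)) := by
    refine tendsto_integral_of_dominated_convergence (fun _ => (1:ℝ)) (fun n => (b n).continuous.aestronglyMeasurable)
      (integrable_const _) (fun n => Eventually.of_forall fun x => ?_) (Eventually.of_forall hlim)
    rw [Real.norm_eq_abs, abs_of_nonneg (b n).nonneg]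
    exact (b n).le_one
  have l2 : Tendsto (fun n => ∫ x, b n x * dens ζ x) atTop
      (𝓝 (∫ x, (Metric.closedBall c r).indicator (fun _ => (1:ℝ)) x * dens ζ x)) := by
    refine tendsto_integral_of_dominated_convergence
      (fun x => (Metric.closedBall c (r + 1)).indicator (fun _ => M) x)
      (fun n => ((b n).continuous.mul hcont).aestronglyMeasurable) ?_
      (fun n => Eventually.of_forall fun x => ?_) (Eventually.of_forall fun x => (hlim x).mul_const _)
    · rw [integrable_indicator_iff Metric.isClosed_closedBall.measurableSet]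
      exact integrableOn_const (isCompact_closedBall c (r + 1)).measure_lt_top.ne
    · rw [norm_mul, Real.norm_eq_abs, Real.norm_eq_abs]
      have h1 := hle n x
      by_cases hx : x ∈ Metric.closedBall c (r + 1)
      · rw [Set.indicator_of_mem hx] at h1 ⊢
        calc |b n x| * |dens ζ x| ≤ 1 * M := mul_le_mul h1 (hbd x) (abs_nonneg _) zero_le_one
          _ = M := one_mul _
      · rw [Set.indicator_of_notMem hx] at h1 ⊢
        have : |b n x| = 0 := le_antisymm h1 (abs_nonneg _)
        rw [this, zero_mul]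
  have l3 : (fun n => ∫ x, b n x ∂ζ) = fun n => ∫ x, b n x * dens ζ x :=
    funext fun n => Z1b_bump (h.charFun_int hα) (b n)
  rw [l3] at l1
  have e := tendsto_nhds_unique l1 l2
  have hms : MeasurableSet (Metric.closedBall c r) := Metric.isClosed_closedBall.measurableSet
  have e1 : ∫ x, (Metric.closedBall c r).indicator (fun _ => (1:ℝ)) x ∂ζ = ζ.real (Metric.closedBall c r) := by
    rw [integral_indicator hms]
    simp
  have e2 : ∫ x, (Metric.closedBall c r).indicator (fun _ => (1:ℝ)) x * dens ζ x =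
      ∫ x in Metric.closedBall c r, dens ζ x := by
    rw [← integral_indicator hms]
    refine integral_congr_ae (Eventually.of_forall fun x => ?_)
    by_cases hx : x ∈ Metric.closedBall c r
    · simp only [Set.indicator_of_mem hx, one_mul]
    · simp only [Set.indicator_of_notMem hx, zero_mul]
  rw [e1, e2] at e
  exact e

theorem SS.dens_nonneg (h : SS α ζ) (hα : 1 < α) (x : ℝ) : 0 ≤ dens ζ x := by
  by_contra hcon
  push Not at hcon
  have hcont := h.dens_cont hα
  have h1 : ∀ᶠ y in 𝓝 x, dens ζ y < dens ζ x / 2 :=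
    hcont.continuousAt.eventually_lt_const (by linarith)
  obtain ⟨ε, hε, hball⟩ := Metric.eventually_nhds_iff_ball.1 h1
  have hr : 0 < ε / 2 := by positivity
  have e := Z1b_ball h hα x hr
  have h2 : ∫ y in Metric.closedBall x (ε / 2), dens ζ y ≤ ∫ y in Metric.closedBall x (ε / 2), dens ζ x / 2 := by
    refine setIntegral_mono_on ?_ ?_ Metric.isClosed_closedBall.measurableSet fun y hy => ?_
    · exact hcont.continuousOn.integrableOn_compact (isCompact_closedBall _ _)
    · exact integrableOn_const (isCompact_closedBall x (ε / 2)).measure_lt_top.ne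
    · refine (hball y ?_).le
      rw [Metric.mem_ball]
      rw [Metric.mem_closedBall] at hy
      linarith
  rw [setIntegral_const, Real.closedBall_eq_Icc, Real.volume_real_Icc_of_le (by linarith), smul_eq_mul] at h2
  rw [Real.closedBall_eq_Icc] at e
  have h3 : 0 ≤ ζ.real (Set.Icc (x - ε / 2) (x + ε / 2)) := measureReal_nonneg
  nlinarith

theorem SS.withDensity (h : SS α ζ) (hα : 1 < α) :
    ζ = volume.withDensity fun x => ENNReal.ofReal (dens ζ x) := by
  have := h.prob
  obtain ⟨M, hM, hbd⟩ := h.dens_bdd hα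
  have hcont := h.dens_cont hα
  have hball : ∀ c r : ℝ, 0 < r → ζ (Metric.closedBall c r) = ∫⁻ x in Metric.closedBall c r, ENNReal.ofReal (dens ζ x) := by
    intro c r hr
    have e := Z1b_ball h hα c hr
    have h1 : IntegrableOn (dens ζ) (Metric.closedBall c r) :=
      hcont.continuousOn.integrableOn_compact (isCompact_closedBall _ _)
    rw [← ofReal_integral_eq_lintegral_ofReal h1 (Eventually.of_forall fun y => h.dens_nonneg hα y), ← e,
      ofReal_measureReal (measure_ne_top _ _)]
  refine Measure.ext_of_Icc _ _ fun a b hab => ?_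
  rcases hab.eq_or_lt with rfl | hlt
  · have hv : (volume.withDensity fun x => ENNReal.ofReal (dens ζ x)) (Set.Icc a a) = 0 := by
      rw [withDensity_apply _ measurableSet_Icc, Set.Icc_self]
      simp
    rw [hv, Set.Icc_self]
    have hle : ∀ ε : ℝ, 0 < ε → ζ {a} ≤ ENNReal.ofReal (2 * M * ε) := by
      intro ε hε
      have h1 : ζ {a} ≤ ζ (Metric.closedBall a ε) :=
        measure_mono (Set.singleton_subset_iff.2 (Metric.mem_closedBall_self hε.le))
      refine h1.trans ?_
      rw [hball a ε hε]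
      calc ∫⁻ x in Metric.closedBall a ε, ENNReal.ofReal (dens ζ x)
          ≤ ∫⁻ _ in Metric.closedBall a ε, ENNReal.ofReal M :=
            lintegral_mono fun x => ENNReal.ofReal_le_ofReal ((le_abs_self _).trans (hbd x))
        _ = ENNReal.ofReal (2 * M * ε) := by
            rw [setLIntegral_const, Real.volume_closedBall, ← ENNReal.ofReal_mul hM.le]
            congr 1
            ring
    have h0 : Tendsto (fun n : ℕ => ENNReal.ofReal (2 * M * (1 / ((n : ℝ) + 1)))) atTop (𝓝 0) := by
      have : Tendsto (fun n : ℕ => 2 * M * (1 / ((n : ℝ) + 1))) atTop (𝓝 (2 * M * 0)) :=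
        tendsto_one_div_add_atTop_nhds_zero_nat.const_mul _
      rw [mul_zero] at this
      have := ENNReal.tendsto_ofReal this
      rwa [ENNReal.ofReal_zero] at this
    refine le_antisymm (ge_of_tendsto h0 (Eventually.of_forall fun n => hle _ (by positivity))) bot_le
  · have e : Set.Icc a b = Metric.closedBall ((a + b) / 2) ((b - a) / 2) := by
      rw [Real.closedBall_eq_Icc]
      congr 1 <;> ring
    rw [withDensity_apply _ measurableSet_Icc, e]
    exact hball _ _ (by linarith)

end Pool.Agent.BPT
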