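import Pool.Agent.MP_99a865_pr.ST.Z1a
import Pool.Agent.MP_99a865_pr.ST.Ctr

/-! **[STB-Z2a]** The stable law charges both half-lines. -/

open MeasureTheory ProbabilityTheory Filter Topology
open scoped ENNReal NNReal

namespace Pool.Agent.BPT

variable {α : ℝ} {ζ ρ : Measure ℝ} {a : ℕ → ℝ}

/-- layer cake: the tail of the mean -/
theorem Z2a_tail {Ω : Type*} [MeasurableSpace Ω] {μ : Measure Ω} [IsProbabilityMeasure μ] {g : Ω → ℝ}
    (hg : Measurable g) {p C : ℝ} (h1 : 1 < p) (hC : 0 ≤ C)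
    (hμ : ∀ r ≥ (1 : ℝ), μ.real {y | r ≤ |g y|} ≤ C * r ^ (-p)) {R : ℝ} (hR : 1 ≤ R) :
    ∫⁻ y, ENNReal.ofReal (max (|g y| - R) 0) ∂μ ≤ ENNReal.ofReal (C / (p - 1) * R ^ (1 - p)) := by
  have hm : Measurable fun y : Ω => max (|g y| - R) 0 :=
    ((measurable_abs.comp hg).sub_const R).max measurable_const
  rw [lintegral_eq_lintegral_meas_le μ (f := fun y => max (|g y| - R) 0)
    (ae_of_all _ fun y => le_max_right _ _) hm.aemeasurable]
  have h2 : ∀ t ∈ Set.Ioi (0 : ℝ), μ {y | t ≤ max (|g y| - R) 0} ≤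
      ENNReal.ofReal (C * (R + t) ^ (-p)) := by
    intro t ht
    have ht' : 0 < t := ht
    have e : {y : Ω | t ≤ max (|g y| - R) 0} ⊆ {y | R + t ≤ |g y|} := by
      intro y hy
      have hy' : t ≤ max (|g y| - R) 0 := hy
      rcases le_max_iff.1 hy' with h | h
      · change R + t ≤ |g y|
        linarith
      · exact absurd h (not_le.2 ht')
    refine (measure_mono e).trans ?_
    rw [← ofReal_measureReal]
    exact ENNReal.ofReal_le_ofReal (hμ _ (by linarith))
  refine (setLIntegral_mono' measurableSet_Ioi h2).trans ?_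
  have h3 : ∫⁻ t in Set.Ioi (0 : ℝ), ENNReal.ofReal (C * (R + t) ^ (-p)) =
      ∫⁻ t in Set.Ioi R, ENNReal.ofReal (C * t ^ (-p)) := by
    rw [← lintegral_indicator measurableSet_Ioi, ← lintegral_indicator measurableSet_Ioi,
      ← lintegral_add_left_eq_self (fun t => (Set.Ioi R).indicator
        (fun t => ENNReal.ofReal (C * t ^ (-p))) t) R]
    refine lintegral_congr fun t => ?_
    by_cases ht : 0 < t
    · rw [Set.indicator_of_mem (Set.mem_Ioi.2 ht),
        Set.indicator_of_mem (Set.mem_Ioi.2 (by linarith : R < R + t))]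
    · rw [Set.indicator_of_notMem (fun h => ht (Set.mem_Ioi.1 h)),
        Set.indicator_of_notMem (fun h => ht (by have := Set.mem_Ioi.1 h; linarith))]
  have hRp : 0 < R := by linarith
  have hint : IntegrableOn (fun t : ℝ => C * t ^ (-p)) (Set.Ioi R) :=
    (integrableOn_Ioi_rpow_of_lt (by linarith) hRp).const_mul C
  have hnn : 0 ≤ᵐ[volume.restrict (Set.Ioi R)] fun t : ℝ => C * t ^ (-p) := by
    refine (ae_restrict_iff' measurableSet_Ioi).2 (ae_of_all _ fun t ht => ?_)
    have : 0 < t := hRp.trans ht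
    exact mul_nonneg hC (Real.rpow_nonneg this.le _)
  rw [h3, ← ofReal_integral_eq_lintegral_ofReal hint hnn, integral_const_mul,
    integral_Ioi_rpow_of_lt (by linarith) hRp]
  refine ENNReal.ofReal_le_ofReal (le_of_eq ?_)
  have hp1 : p - 1 ≠ 0 := by linarith
  have hp2 : -p + 1 ≠ 0 := by
    intro h
    apply hp1
    linarith
  have e : (-p + 1 : ℝ) = 1 - p := by ring
  rw [e] at hp2 ⊢
  have e2 : (1 - p : ℝ) = -(p - 1) := by ring
  have e3 : C * (-R ^ (1 - p) / (1 - p)) = C / (p - 1) * R ^ (1 - p) := by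
    have : -R ^ (1 - p) / (1 - p) = R ^ (1 - p) / (p - 1) := by
      rw [div_eq_div_iff hp2 hp1]
      ring
    rw [this]
    ring
  exact e3

/-- mean zero -/
theorem Z2a_mean [IsProbabilityMeasure ρ] (hi : Integrable (fun x : ℝ => x) ρ)
    (hm : ∫ x, x ∂ρ = 0) (n : ℕ) :
    Integrable (fun y : ℝ => y) (fre ρ n 0) ∧ ∫ y, y ∂(fre ρ n 0) = 0 := by
  have hme : Measurable fun ω : ℕ → ℝ => (0 : ℝ) + S n ω := (measurable_S n).const_add 0
  have hmp : ∀ i : ℕ, MeasurePreserving (fun ω : ℕ → ℝ => ω i) (seqLaw ρ) ρ := fun i =>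
    ⟨measurable_pi_apply i, Measure.infinitePi_map_eval (fun _ => ρ) i⟩
  have h1 : ∀ i, Integrable (fun ω : ℕ → ℝ => ω i) (seqLaw ρ) := fun i =>
    (hmp i).integrable_comp_of_integrable (g := fun x : ℝ => x) hi
  have h0 : ∀ i, ∫ ω : ℕ → ℝ, ω i ∂(seqLaw ρ) = 0 := fun i => by
    have h := integral_map (μ := seqLaw ρ) (φ := fun ω : ℕ → ℝ => ω i)
      (measurable_pi_apply i).aemeasurable (f := fun x : ℝ => x) aestronglyMeasurable_id
    rw [(hmp i).map_eq] at h
    rw [← h, hm]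
  have h2 : Integrable (fun ω => (0 : ℝ) + S n ω) (seqLaw ρ) := by
    unfold S
    exact (integrable_const (0 : ℝ)).add (integrable_finsetSum _ fun i _ => h1 i)
  constructor
  · unfold fre
    exact (integrable_map_measure (f := fun ω => (0 : ℝ) + S n ω) (g := fun y : ℝ => y)
      measurable_id.aestronglyMeasurable hme.aemeasurable).2 h2
  · unfold fre
    rw [integral_map (f := fun y : ℝ => y) hme.aemeasurable measurable_id.aestronglyMeasurable]
    have e : ∀ ω : ℕ → ℝ, (0 : ℝ) + S n ω = ∑ i ∈ Finset.range n, ω i := fun ω => by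
      rw [zero_add]; rfl
    simp only [e]
    rw [integral_finsetSum _ fun i _ => h1 i]
    simp [h0]

theorem Z2a_trunc (R y : ℝ) (hR : 0 ≤ R) : |y - max (-R) (min R y)| = max (|y| - R) 0 := by
  rcases le_total R y with h | h
  · rw [min_eq_left h, max_eq_right (by linarith), abs_of_nonneg (by linarith), abs_of_nonneg
      (by linarith), max_eq_left (by linarith)]
  · rw [min_eq_right h]
    rcases le_total (-R) y with h' | h'
    · rw [max_eq_right h', sub_self, abs_zero, max_eq_right]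
      linarith [abs_le.2 ⟨h', h⟩]
    · rw [max_eq_left h', abs_of_nonpos (by linarith : y - -R ≤ 0), abs_of_nonpos (by linarith : y ≤ 0),
        max_eq_left (by linarith)]
      ring

theorem Z2a_min (R y : ℝ) : min |y| R ≤ 1 + max (|y| - 1) 0 := by
  have := le_max_left (|y| - 1) 0
  have := min_le_left |y| R
  linarith

/-- the moment estimates for `S_n / a_n` -/
theorem Z2a_mom (h : DA α ζ ρ a) {p C : ℝ} (h1 : 1 < p) (hC : 0 ≤ C) {n : ℕ}
    (hn : ∀ r ≥ (1 : ℝ), (fre ρ n 0).real {y | r * a n ≤ |y|} ≤ C * r ^ (-p)) {R : ℝ} (hR : 1 ≤ R) :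
    Integrable (fun y => max (|y / a n| - R) 0) (fre ρ n 0) ∧
      ∫ y, max (|y / a n| - R) 0 ∂(fre ρ n 0) ≤ C / (p - 1) * R ^ (1 - p) := by
  have := h.prob
  have han := h.pos n
  have hg : Measurable fun y : ℝ => y / a n := measurable_id.div_const _
  have hset : ∀ r : ℝ, {y : ℝ | r ≤ |y / a n|} = {y | r * a n ≤ |y|} := by
    intro r
    ext y
    simp only [Set.mem_ofPred_eq]
    rw [abs_div, abs_of_pos han, le_div_iff₀ han]
  have hn' : ∀ r ≥ (1 : ℝ), (fre ρ n 0).real {y | r ≤ |y / a n|} ≤ C * r ^ (-p) := by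
    intro r hr
    rw [hset]
    exact hn r hr
  have h2 := Z2a_tail hg h1 hC hn' hR
  have hm : Measurable fun y : ℝ => max (|y / a n| - R) 0 :=
    ((measurable_abs.comp hg).sub_const R).max measurable_const
  have hfin : ∫⁻ y, ENNReal.ofReal (max (|y / a n| - R) 0) ∂(fre ρ n 0) ≠ ∞ :=
    ne_top_of_le_ne_top ENNReal.ofReal_ne_top h2
  have hnn : 0 ≤ᵐ[fre ρ n 0] fun y => max (|y / a n| - R) 0 := ae_of_all _ fun y => le_max_right _ _
  have hint : Integrable (fun y => max (|y / a n| - R) 0) (fre ρ n 0) :=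
    ⟨hm.aestronglyMeasurable, (hasFiniteIntegral_iff_ofReal hnn).2 (lt_top_iff_ne_top.2 hfin)⟩
  refine ⟨hint, ?_⟩
  have hpos : 0 ≤ C / (p - 1) * R ^ (1 - p) :=
    mul_nonneg (div_nonneg hC (by linarith)) (Real.rpow_nonneg (by linarith) _)
  rw [← ofReal_integral_eq_lintegral_ofReal hint hnn] at h2
  exact (ENNReal.ofReal_le_ofReal_iff hpos).1 h2

/-- `min |y| R` -/
noncomputable def Z2a_f (R : ℝ) (hR : 0 ≤ R) : BoundedContinuousFunction ℝ ℝ :=
  BoundedContinuousFunction.ofNormedAddCommGroup (fun y => min |y| R)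
    (continuous_abs.min continuous_const) R fun y => by
      rw [Real.norm_eq_abs, abs_of_nonneg (le_min (abs_nonneg y) hR)]
      exact min_le_right _ _

/-- truncation -/
noncomputable def Z2a_T (R : ℝ) (hR : 0 ≤ R) : BoundedContinuousFunction ℝ ℝ :=
  BoundedContinuousFunction.ofNormedAddCommGroup (fun y => max (-R) (min R y))
    (continuous_const.max (continuous_const.min continuous_id)) R fun y => by
      rw [Real.norm_eq_abs, abs_le]
      exact ⟨le_max_left _ _, max_le (by linarith) (min_le_left _ _)⟩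

theorem Z2a_int (h : DA α ζ ρ a) {p C : ℝ} (h1 : 1 < p) (hC : 0 ≤ C)
    (hp : ∀ᶠ n : ℕ in atTop, ∀ r ≥ (1 : ℝ), (fre ρ n 0).real {y | r * a n ≤ |y|} ≤ C * r ^ (-p)) :
    Integrable (fun y : ℝ => y) ζ := by
  have := h.prob
  have := h.ss.prob
  have hb : ∀ k : ℕ, ∫ y, min |y| (k : ℝ) ∂ζ ≤ 1 + C / (p - 1) := by
    intro k
    have hw := h.weak (Z2a_f k (Nat.cast_nonneg k))
    have hw' : Tendsto (fun n : ℕ => ∫ y, min |y / a n| (k : ℝ) ∂(fre ρ n 0)) atTop
        (𝓝 (∫ y, min |y| (k : ℝ) ∂ζ)) := hw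
    refine le_of_tendsto hw' ?_
    filter_upwards [hp] with n hn
    obtain ⟨hi, hb⟩ := Z2a_mom h h1 hC hn (le_refl (1 : ℝ))
    have hi2 : Integrable (fun y => 1 + max (|y / a n| - 1) 0) (fre ρ n 0) :=
      (integrable_const (1 : ℝ)).add hi
    calc ∫ y, min |y / a n| (k : ℝ) ∂(fre ρ n 0) ≤ ∫ y, (1 + max (|y / a n| - 1) 0) ∂(fre ρ n 0) := by
          refine integral_mono_of_nonneg (ae_of_all _ fun y => ?_) hi2 (ae_of_all _ fun y => ?_)
          · exact le_min (abs_nonneg _) (Nat.cast_nonneg k)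
          · exact Z2a_min _ _
      _ = 1 + ∫ y, max (|y / a n| - 1) 0 ∂(fre ρ n 0) := by
          rw [integral_add (integrable_const _) hi]
          simp
      _ ≤ 1 + C / (p - 1) := by
          rw [Real.one_rpow, mul_one] at hb
          linarith
  have hik : ∀ k : ℕ, Integrable (fun y : ℝ => min |y| (k : ℝ)) ζ := fun k =>
    (Z2a_f k (Nat.cast_nonneg k)).integrable ζ
  have hlk : ∀ k : ℕ, ∫⁻ y, ENNReal.ofReal (min |y| (k : ℝ)) ∂ζ ≤ ENNReal.ofReal (1 + C / (p - 1)) := by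
    intro k
    rw [← ofReal_integral_eq_lintegral_ofReal (hik k)
      (ae_of_all _ fun y => le_min (abs_nonneg _) (Nat.cast_nonneg k))]
    exact ENNReal.ofReal_le_ofReal (hb k)
  have hsup : ∀ y : ℝ, ENNReal.ofReal |y| = ⨆ k : ℕ, ENNReal.ofReal (min |y| (k : ℝ)) := by
    intro y
    apply le_antisymm
    · obtain ⟨k, hk⟩ := exists_nat_ge |y|
      refine le_trans (le_of_eq ?_) (le_iSup (fun k : ℕ => ENNReal.ofReal (min |y| (k : ℝ))) k)
      rw [min_eq_left hk]
    · exact iSup_le fun k => ENNReal.ofReal_le_ofReal (min_le_left _ _)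
  refine ⟨aestronglyMeasurable_id, ?_⟩
  have hfin : ∫⁻ y, ENNReal.ofReal |y| ∂ζ ≤ ENNReal.ofReal (1 + C / (p - 1)) := by
    simp only [hsup]
    rw [lintegral_iSup]
    · exact iSup_le hlk
    · intro k
      exact ENNReal.measurable_ofReal.comp (measurable_abs.min measurable_const)
    · intro k l hkl y
      exact ENNReal.ofReal_le_ofReal (min_le_min le_rfl (by exact_mod_cast hkl))
  rw [hasFiniteIntegral_iff_norm]
  simp only [Real.norm_eq_abs]
  exact hfin.trans_lt ENNReal.ofReal_lt_top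

theorem Z2a_zero (h : DA α ζ ρ a) {p C : ℝ} (h1 : 1 < p) (hC : 0 ≤ C)
    (hp : ∀ᶠ n : ℕ in atTop, ∀ r ≥ (1 : ℝ), (fre ρ n 0).real {y | r * a n ≤ |y|} ≤ C * r ^ (-p)) :
    ∫ y, y ∂ζ = 0 := by
  have := h.prob
  have := h.ss.prob
  have hi := Z2a_int h h1 hC hp
  have hb : ∀ k : ℕ, |∫ y, max (-((k : ℝ) + 1)) (min ((k : ℝ) + 1) y) ∂ζ| ≤
      C / (p - 1) * ((k : ℝ) + 1) ^ (1 - p) := by
    intro k
    have hk0 : (0 : ℝ) ≤ (k : ℝ) := Nat.cast_nonneg k
    have hk1 : (0 : ℝ) ≤ (k : ℝ) + 1 := by linarith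
    have hw := h.weak (Z2a_T ((k : ℝ) + 1) hk1)
    have hw' : Tendsto (fun n : ℕ => ∫ y, max (-((k : ℝ) + 1)) (min ((k : ℝ) + 1) (y / a n))
        ∂(fre ρ n 0)) atTop (𝓝 (∫ y, max (-((k : ℝ) + 1)) (min ((k : ℝ) + 1) y) ∂ζ)) := hw
    refine le_of_tendsto hw'.abs ?_
    filter_upwards [hp] with n hn
    obtain ⟨hi1, hb1⟩ := Z2a_mom h h1 hC hn (by linarith : (1 : ℝ) ≤ (k : ℝ) + 1)
    obtain ⟨hi2, hz⟩ := Z2a_mean h.int h.mean n
    have hi3 : Integrable (fun y : ℝ => y / a n) (fre ρ n 0) := hi2.div_const _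
    have hz3 : ∫ y, y / a n ∂(fre ρ n 0) = 0 := by
      rw [integral_div, hz, zero_div]
    have hiT : Integrable (fun y : ℝ => max (-((k : ℝ) + 1)) (min ((k : ℝ) + 1) (y / a n)))
        (fre ρ n 0) := by
      refine Integrable.mono' (integrable_const ((k : ℝ) + 1)) ?_ (ae_of_all _ fun y => ?_)
      · exact (measurable_const.max (measurable_const.min (measurable_id.div_const _))).aestronglyMeasurable
      · rw [Real.norm_eq_abs, abs_le]
        exact ⟨le_max_left _ _, max_le (by linarith) (min_le_left _ _)⟩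
    have e : ∫ y, max (-((k : ℝ) + 1)) (min ((k : ℝ) + 1) (y / a n)) ∂(fre ρ n 0) =
        -∫ y, (y / a n - max (-((k : ℝ) + 1)) (min ((k : ℝ) + 1) (y / a n))) ∂(fre ρ n 0) := by
      rw [integral_sub hi3 hiT, hz3]
      ring
    rw [e, abs_neg]
    refine (abs_integral_le_integral_abs).trans ?_
    have e2 : ∀ y : ℝ, |y / a n - max (-((k : ℝ) + 1)) (min ((k : ℝ) + 1) (y / a n))| =
        max (|y / a n| - ((k : ℝ) + 1)) 0 := fun y => Z2a_trunc _ _ hk1
    simp only [e2]
    exact hb1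
  have hlim : Tendsto (fun k : ℕ => ∫ y, max (-((k : ℝ) + 1)) (min ((k : ℝ) + 1) y) ∂ζ) atTop
      (𝓝 (∫ y, y ∂ζ)) := by
    refine tendsto_integral_of_dominated_convergence (fun y => |y|) ?_ hi.abs ?_ ?_
    · intro k
      exact (measurable_const.max (measurable_const.min measurable_id)).aestronglyMeasurable
    · intro k
      refine ae_of_all _ fun y => ?_
      rw [Real.norm_eq_abs]
      have hk0 : (0 : ℝ) ≤ (k : ℝ) := Nat.cast_nonneg k
      rw [abs_le]
      constructor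
      · rcases le_total ((k : ℝ) + 1) y with h' | h'
        · rw [min_eq_left h']
          have := le_max_right (-((k : ℝ) + 1)) ((k : ℝ) + 1)
          have := abs_nonneg y
          linarith
        · rw [min_eq_right h']
          exact (neg_abs_le y).trans (le_max_right _ _)
      · apply max_le
        · have := abs_nonneg y
          linarith
        · exact (min_le_right _ _).trans (le_abs_self y)
    · refine ae_of_all _ fun y => ?_
      refine tendsto_const_nhds.congr' ?_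
      obtain ⟨K, hK⟩ := exists_nat_ge |y|
      filter_upwards [eventually_ge_atTop K] with k hk
      have hk' : (K : ℝ) ≤ k := by exact_mod_cast hk
      have h2 := abs_le.1 (hK.trans hk')
      rw [min_eq_right (by linarith [h2.2]), max_eq_right (by linarith [h2.1])]
  have hz : Tendsto (fun k : ℕ => C / (p - 1) * ((k : ℝ) + 1) ^ (1 - p)) atTop (𝓝 0) := by
    have h2 : Tendsto (fun k : ℕ => ((k : ℝ) + 1)) atTop atTop :=
      tendsto_natCast_atTop_atTop.atTop_add tendsto_const_nhds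
    have h3 := (tendsto_rpow_neg_atTop (by linarith : 0 < p - 1)).comp h2
    have h4 := h3.const_mul (C / (p - 1))
    rw [mul_zero] at h4
    refine h4.congr fun k => ?_
    simp only [Function.comp_apply]
    rw [show (-(p - 1) : ℝ) = 1 - p by ring]
  have h5 : |∫ y, y ∂ζ| ≤ 0 := le_of_tendsto_of_tendsto' hlim.abs hz hb
  exact abs_nonpos_iff.1 h5

/-- **[STB-Z2a]** `ζ` charges both half-lines. PROOF. It is enough to show that `ζ` is integrable with mean zero: it is not a
point mass. By `DA.max` (`m = n`): `P(|S_n| ≥ r a_n) ≤ C (1/r + 1/r²)`: this is not quite uniform integrability, so use the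
sharper `P(|S_n| ≥ r a_n) ≤ C r^{-p}` with `p > 1` (hypothesis `hp` below: it is `ST/A`'s maximal inequality with `Lam (r a_n) ≤ C r^{-p} Lam (a_n)`):
`E[|S_n/a_n|; |S_n| ≥ R a_n] = R P(|S_n| ≥ R a_n) + ∫_R^∞ P(|S_n| ≥ r a_n) dr ≤ C' R^{1-p}` uniformly in `n ≥ n₀`. As
`E S_n = 0`, for the bounded continuous truncation `T_R(y) = max (-R) (min R y)`: `|∫ T_R(y/a_n) ∂(fre ρ n 0)| ≤ C' R^{1-p}`, so
by `DA.weak` `|∫ T_R ∂ζ| ≤ C' R^{1-p}`, and `ζ {|y| ≥ r} ≤ C r^{-p}` (portmanteau), so `ζ` is integrable and `∫ y ∂ζ = 0`. If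
`ζ (Ioi 0) = 0` then `∫ y ∂ζ = 0` forces `ζ = dirac 0`, impossible; the same for `Iio 0`. -/
theorem Z2_both (h : DA α ζ ρ a) {p C : ℝ} (h1 : 1 < p)
    (hp : ∀ᶠ n : ℕ in atTop, ∀ r ≥ (1 : ℝ), (fre ρ n 0).real {y | r * a n ≤ |y|} ≤ C * r ^ (-p)) :
    ζ (Set.Ioi 0) ≠ 0 ∧ ζ (Set.Iio 0) ≠ 0 := by
  have hC : 0 ≤ C := by
    obtain ⟨n, hn⟩ := hp.exists
    have h2 := hn 1 (le_refl 1)
    rw [Real.one_rpow, mul_one] at h2
    exact measureReal_nonneg.trans h2
  have := h.ss.prob
  have hi := Z2a_int h h1 hC hp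
  have hz := Z2a_zero h h1 hC hp
  -- if `y = 0` almost surely then `ζ` is a point mass
  have hd : ¬ (∀ᵐ y ∂ζ, y = 0) := by
    intro h0
    apply h.ss.nd 0
    have h2 : ζ = ζ.map (fun _ : ℝ => (0 : ℝ)) := by
      conv_lhs => rw [← Measure.map_id (μ := ζ)]
      exact Measure.map_congr (h0.mono fun y hy => hy)
    rw [Measure.map_const, measure_univ, one_smul] at h2
    exact h2
  constructor
  · intro h0
    apply hd
    have h2 : ∀ᵐ y ∂ζ, y ≤ 0 := by
      rw [ae_iff]
      have e : {y : ℝ | ¬ y ≤ 0} = Set.Ioi 0 := by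
        ext y
        exact not_le
      rw [e]
      exact h0
    have h3 : ∫ y, (-y) ∂ζ = 0 := by rw [integral_neg, hz, neg_zero]
    have h4 := (integral_eq_zero_iff_of_nonneg_ae (h2.mono fun y hy => by simpa using hy) hi.neg).1 h3
    exact h4.mono fun y hy => by simpa using hy
  · intro h0
    apply hd
    have h2 : ∀ᵐ y ∂ζ, 0 ≤ y := by
      rw [ae_iff]
      have e : {y : ℝ | ¬ 0 ≤ y} = Set.Iio 0 := by
        ext y
        exact not_le
      rw [e]
      exact h0
    have h4 := (integral_eq_zero_iff_of_nonneg_ae (h2.mono fun y hy => by simpa using hy) hi).1 hz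
    exact h4.mono fun y hy => by simpa using hy

end Pool.Agent.BPT
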