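import Pool.Agent.MP_99a865_pr.ST.Z1a

/-! **[STB-Z2b]** Sums of points where the density is positive. -/

open MeasureTheory ProbabilityTheory Filter Topology
open scoped ENNReal NNReal

namespace Pool.Agent.BPT

variable {α : ℝ} {ζ ρ : Measure ℝ} {a : ℕ → ℝ}

/-- the lower bound on a strip -/
theorem Z2b_strip {f g : ℝ → ℝ} (hf : Measurable f) (hg : Measurable g)
    (hfin : SFinite (volume.withDensity fun x => ENNReal.ofReal (g x)))
    {x y κ r η : ℝ} (hκ : 0 < κ) (_hr : 0 < r) (hη : 0 < η) (hηr : η ≤ r / 2)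
    (hfκ : ∀ z, |z - x| < r → κ ≤ f z) (hgκ : ∀ z, |z - y| < r → κ ≤ g z) :
    ENNReal.ofReal (κ * r * (κ * (2 * η))) ≤
      (((volume.withDensity fun x => ENNReal.ofReal (f x)).prod
        (volume.withDensity fun x => ENNReal.ofReal (g x))).map fun p : ℝ × ℝ => p.1 + p.2)
        (Set.Ioo (x + y - η) (x + y + η)) := by
  set μ := volume.withDensity fun x => ENNReal.ofReal (f x) with hμ
  set ν := volume.withDensity fun x => ENNReal.ofReal (g x) with hν
  have hm : Measurable fun p : ℝ × ℝ => p.1 + p.2 := measurable_fst.add measurable_snd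
  rw [Measure.map_apply hm measurableSet_Ioo, Measure.prod_apply (hm measurableSet_Ioo)]
  have h1 : ∀ z ∈ Set.Ioo (x - r / 2) (x + r / 2), ENNReal.ofReal (κ * (2 * η)) ≤
      ν (Prod.mk z ⁻¹' ((fun p : ℝ × ℝ => p.1 + p.2) ⁻¹' Set.Ioo (x + y - η) (x + y + η))) := by
    intro z hz
    have e : Prod.mk z ⁻¹' ((fun p : ℝ × ℝ => p.1 + p.2) ⁻¹' Set.Ioo (x + y - η) (x + y + η)) =
        Set.Ioo (x + y - η - z) (x + y + η - z) := by
      ext w
      simp only [Set.mem_preimage, Set.mem_Ioo]
      constructor <;> rintro ⟨h1, h2⟩ <;> constructor <;> linarith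
    rw [e, hν, withDensity_apply _ measurableSet_Ioo]
    calc ENNReal.ofReal (κ * (2 * η)) = ENNReal.ofReal κ * volume (Set.Ioo (x + y - η - z) (x + y + η - z)) := by
          rw [Real.volume_Ioo, ← ENNReal.ofReal_mul hκ.le]
          congr 1
          ring
      _ = ∫⁻ w in Set.Ioo (x + y - η - z) (x + y + η - z), ENNReal.ofReal κ := by
          rw [setLIntegral_const]
      _ ≤ _ := by
          apply setLIntegral_mono (hg.ennreal_ofReal)
          intro w hw
          apply ENNReal.ofReal_le_ofReal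
          apply hgκ
          rw [abs_lt]
          constructor
          · linarith [hw.1, hz.2]
          · linarith [hw.2, hz.1]
  have h2 : ENNReal.ofReal (κ * r) ≤ μ (Set.Ioo (x - r / 2) (x + r / 2)) := by
    rw [hμ, withDensity_apply _ measurableSet_Ioo]
    calc ENNReal.ofReal (κ * r) = ENNReal.ofReal κ * volume (Set.Ioo (x - r / 2) (x + r / 2)) := by
          rw [Real.volume_Ioo, ← ENNReal.ofReal_mul hκ.le]
          congr 1
          ring
      _ = ∫⁻ w in Set.Ioo (x - r / 2) (x + r / 2), ENNReal.ofReal κ := by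
          rw [setLIntegral_const]
      _ ≤ _ := by
          apply setLIntegral_mono (hf.ennreal_ofReal)
          intro w hw
          apply ENNReal.ofReal_le_ofReal
          apply hfκ
          rw [abs_lt]
          constructor
          · linarith [hw.1]
          · linarith [hw.2]
  calc ENNReal.ofReal (κ * r * (κ * (2 * η))) = ENNReal.ofReal (κ * (2 * η)) * ENNReal.ofReal (κ * r) := by
        rw [← ENNReal.ofReal_mul (by positivity)]
        congr 1
        ring
    _ ≤ ENNReal.ofReal (κ * (2 * η)) * μ (Set.Ioo (x - r / 2) (x + r / 2)) := by gcongr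
    _ = ∫⁻ z in Set.Ioo (x - r / 2) (x + r / 2), ENNReal.ofReal (κ * (2 * η)) ∂μ := by
        rw [setLIntegral_const]
    _ ≤ ∫⁻ z in Set.Ioo (x - r / 2) (x + r / 2),
          ν (Prod.mk z ⁻¹' ((fun p : ℝ × ℝ => p.1 + p.2) ⁻¹' Set.Ioo (x + y - η) (x + y + η))) ∂μ := by
        apply setLIntegral_mono (measurable_measure_prodMk_left (hm measurableSet_Ioo))
        exact h1
    _ ≤ _ := setLIntegral_le_lintegral _ _

/-- two points -/
theorem Z2b_two {f g k : ℝ → ℝ} (hf : Continuous f) (hg : Continuous g) (hk : Continuous k)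
    (hfin : SFinite (volume.withDensity fun x => ENNReal.ofReal (g x)))
    (hc : ((volume.withDensity fun x => ENNReal.ofReal (f x)).prod
        (volume.withDensity fun x => ENNReal.ofReal (g x))).map (fun p : ℝ × ℝ => p.1 + p.2) =
      volume.withDensity fun x => ENNReal.ofReal (k x))
    {x y : ℝ} (hx : 0 < f x) (hy : 0 < g y) : 0 < k (x + y) := by
  obtain ⟨r1, hr1, h1⟩ := Metric.continuousAt_iff.mp (hf.continuousAt : ContinuousAt f x) (f x / 2) (by positivity)
  obtain ⟨r2, hr2, h2⟩ := Metric.continuousAt_iff.mp (hg.continuousAt : ContinuousAt g y) (g y / 2) (by positivity)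
  by_contra hneg
  push Not at hneg
  set κ := min (f x / 2) (g y / 2) with hκd
  set r := min r1 r2 with hrd
  have hκ : 0 < κ := lt_min (by positivity) (by positivity)
  have hr : 0 < r := lt_min hr1 hr2
  obtain ⟨r3, hr3, h3⟩ := Metric.continuousAt_iff.mp (hk.continuousAt : ContinuousAt k (x + y)) (κ * r * κ / 2) (by positivity)
  set η := min (r / 2) r3 with hηd
  have hη : 0 < η := lt_min (by positivity) hr3
  have hlow := Z2b_strip hf.measurable hg.measurable hfin (x := x) (y := y) hκ hr hη (min_le_left _ _)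
    (fun z hz => by
      have := h1 (x := z) (by rw [Real.dist_eq]; exact hz.trans_le (min_le_left _ _))
      rw [Real.dist_eq, abs_lt] at this
      have := min_le_left (f x / 2) (g y / 2)
      linarith)
    (fun z hz => by
      have := h2 (x := z) (by rw [Real.dist_eq]; exact hz.trans_le (min_le_right _ _))
      rw [Real.dist_eq, abs_lt] at this
      have := min_le_right (f x / 2) (g y / 2)
      linarith)
  rw [hc, withDensity_apply _ measurableSet_Ioo] at hlow
  have hup : ∫⁻ w in Set.Ioo (x + y - η) (x + y + η), ENNReal.ofReal (k w) ≤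
      ENNReal.ofReal (κ * r * κ / 2 * (2 * η)) := by
    calc ∫⁻ w in Set.Ioo (x + y - η) (x + y + η), ENNReal.ofReal (k w)
        ≤ ∫⁻ w in Set.Ioo (x + y - η) (x + y + η), ENNReal.ofReal (κ * r * κ / 2) := by
          apply setLIntegral_mono measurable_const
          intro w hw
          apply ENNReal.ofReal_le_ofReal
          have := h3 (x := w) (by
            rw [Real.dist_eq, abs_lt]
            have h4 : η ≤ r3 := min_le_right _ _
            constructor
            · linarith [hw.1]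
            · linarith [hw.2])
          rw [Real.dist_eq, abs_lt] at this
          linarith
      _ = _ := by
          rw [setLIntegral_const, Real.volume_Ioo, ← ENNReal.ofReal_mul (by positivity)]
          congr 1
          ring
  have h5 := hlow.trans hup
  rw [ENNReal.ofReal_le_ofReal_iff (by positivity)] at h5
  have h6 : 0 < κ * r * κ * η := by positivity
  nlinarith

theorem Z2b_step (h : SS α ζ) (hα : 1 < α) {m : ℕ} (hm : 1 ≤ m) {X y : ℝ}
    (hX : 0 < dens ζ (X / (m : ℝ) ^ (1 / α))) (hy : 0 < dens ζ y) :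
    0 < dens ζ ((X + y) / ((m + 1 : ℕ) : ℝ) ^ (1 / α)) := by
  have hm0 : (0 : ℝ) < m := by exact_mod_cast hm
  have hm1 : (0 : ℝ) < ((m + 1 : ℕ) : ℝ) := by positivity
  have hc0 : 0 < (m : ℝ) ^ (1 / α) := Real.rpow_pos_of_pos hm0 _
  have hc1 : 0 < ((m + 1 : ℕ) : ℝ) ^ (1 / α) := Real.rpow_pos_of_pos hm1 _
  have hd := h.dens_cont hα
  have hp := h.prob
  have hpm : IsProbabilityMeasure (Zt α ζ (m : ℝ)) := h.Zt_prob _
  have hpm1 : IsProbabilityMeasure (Zt α ζ ((m + 1 : ℕ) : ℝ)) := h.Zt_prob _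
  have hcm : Continuous (dt α ζ (m : ℝ)) := by
    unfold dt
    exact (hd.comp (continuous_id.div_const _)).div_const _
  have hcm1 : Continuous (dt α ζ ((m + 1 : ℕ) : ℝ)) := by
    unfold dt
    exact (hd.comp (continuous_id.div_const _)).div_const _
  have key : ((Zt α ζ (m : ℝ)).prod ζ).map (fun p : ℝ × ℝ => p.1 + p.2) = Zt α ζ ((m + 1 : ℕ) : ℝ) := by
    have e : ((Zt α ζ (m : ℝ)).prod ζ).map (fun p : ℝ × ℝ => p.1 + p.2) = (Zt α ζ (m : ℝ)).conv ζ := rfl
    have : IsFiniteMeasure (((Zt α ζ (m : ℝ)).prod ζ).map (fun p : ℝ × ℝ => p.1 + p.2)) := by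
      infer_instance
    apply Measure.ext_of_charFun
    funext s
    rw [e, charFun_conv]
    have hcf : ∀ r : ℝ, charFun (Zt α ζ r) s = charFun ζ (r ^ (1 / α) * s) := by
      intro r
      unfold Zt
      rw [charFun_map_mul]
    rw [hcf, hcf, ← h.st m hm, ← h.st (m + 1) (by omega), pow_succ]
  have hpos := Z2b_two (f := dt α ζ (m : ℝ)) (g := dens ζ) (k := dt α ζ ((m + 1 : ℕ) : ℝ)) hcm hd hcm1
    (by rw [← h.withDensity hα]; infer_instance)
    (by rw [← h.withDensity hα, ← h.Zt_withDensity hα hm0, ← h.Zt_withDensity hα hm1]; exact key)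
    (x := X) (y := y) (by unfold dt; positivity) hy
  unfold dt at hpos
  have := mul_pos hpos hc1
  rwa [div_mul_cancel₀ _ hc1.ne'] at this

/-- **[STB-Z2b]** Sum sets: if `dens ζ > 0` at `x₁, …, x_m` then `dens ζ > 0` at `(x₁ + ⋯ + x_m)/m^{1/α}`.
PROOF. By continuity `dens ζ ≥ c > 0` on balls `(x_i - r, x_i + r)`. The law of `Y₁ + ⋯ + Y_m` (i.i.d. `ζ`) is that of
`m^{1/α} Y` (`SS.Zt_fre` with `t = m`, `K = m`) and by induction on `m` it is `≥ c_m · volume` on a ball around
`x₁ + ⋯ + x_m` (if `μ ≥ c vol` on `B(x,r)` and `μ' ≥ c' vol` on `B(x',r)` then `μ ∗ μ' ≥ c c' r vol` on `B(x+x', r/2)`: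
`(μ∗μ')(A) ≥ ∫_{B(x',r/2)} c' c vol(A - y') dy'` for `A ⊆ B(x + x', r/2)`). So `dens ζ ≥ c'' > 0` a.e. near
`(x₁+⋯+x_m)/m^{1/α}`, everywhere there by continuity. (It is enough to prove the two-point version for the laws
`Zt s, Zt t`: `dt s x > 0`, `dt t y > 0` imply `dt (s+t) (x+y) > 0`.) -/
theorem Z2_sum (h : SS α ζ) (hα : 1 < α) (m : ℕ) (hm : 1 ≤ m) (x : ℕ → ℝ)
    (hx : ∀ i < m, 0 < dens ζ (x i)) :
    0 < dens ζ ((∑ i ∈ Finset.range m, x i) / (m : ℝ) ^ (1 / α)) := by
  induction m, hm using Nat.le_induction with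
  | base => simpa using hx 0 one_pos
  | succ m hm ih =>
    rw [Finset.sum_range_succ]
    exact Z2b_step h hα hm (ih fun i hi => hx i (by omega)) (hx m (by omega))

end Pool.Agent.BPT
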